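import Pool.Agent.Lib.MP_696deb_nt.B10.ZC
import Pool.Agent.Lib.MP_696deb_nt.B7.TG

/-! Euler systems and towers whose conductors contain split primes: definitions. -/

set_option autoImplicit false

open scoped NNReal Classical
open Finset Matrix NumberTheorySymbols PowerSeries

namespace Pool.Agent.B6.B7.C5

open Pool.Agent.Lib.MP_696deb_nt Pool.Agent.Lib.MP_696deb_nt.B2

variable [Md]

/-- The split primes that are used. -/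
structure Spl (n l : ℕ) : Prop where
  ndM : ¬ l ∣ MM
  spl : J(-n | l) = 1
  m4 : l % 4 = 1
  four : 4 ∣ al l

/-- The split primes of a tower. -/
noncomputable def sT (lam : Tp) : Finset ℕ :=
  lam.c.primeFactors.filter fun l => ∀ w ∈ lam.ps, w.p ≠ l

/-- Their product. -/
noncomputable def sb (lam : Tp) : ℕ := ∏ l ∈ sT lam, l

/-- Class groups for conductors that may contain split primes. -/
structure HS (n : ℕ) extends B6.HS n where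
  Ad : ℕ → Prop
  of_dvd : ∀ {c c'}, Ad c' → c ∣ c' → Ad c
  of_adm : ∀ {c}, Adm n c → Ad c
  ad_mul : ∀ {c} {w : Plc}, Ad c → Adm n w.p → ¬ w.p ∣ c → Ad (c * w.p)
  sqf : ∀ {c}, Ad c → Squarefree c
  ndM : ∀ {c l}, Ad c → l.Prime → l ∣ c → ¬ l ∣ MM
  sm' : ∀ c, Ad c → Sm (GK n) (ψ c)
  mul' : ∀ c, Ad c → ∀ g ∈ GK n, ∀ h ∈ GK n, ψ c (g * h) = ψ c g * ψ c h
  surj' : ∀ c, Ad c → ∀ a, ∃ g ∈ GK n, ψ c g = a
  pr_ψ' : ∀ c c', Ad c' → c ∣ c' → ∀ g ∈ GK n, pr c c' (ψ c' g) = ψ c g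
  dih' : ∀ c, Ad c → ∀ g ∉ GK n, ψ c (g * g) = 1
  unr' : ∀ c (w : Plc), Ad c → ¬ w.p ∣ c → ∀ σ ∈ GK n ⊓ Ine w, ψ c σ = 1
  ν_fib' : ∀ (c l s : ℕ), l.Prime → Ad (c * l) → Adm n l → 2 ^ (s + 1) ∣ l + 1 → ∀ a x,
    (univ.filter fun a' => pr c (c * l) a' = a ∧ ν l s (pr l (c * l) a') = x).card * 2 ^ s =
      ordProj[2] (l + 1)
  ν_spl : ∀ l s : ℕ, l.Prime → 0 < s → l ≡ 1 [MOD 2 ^ (s + 1) * n] → ∀ g ∈ GK n,
    (Odd (ν l s (ψ l g)).toAdd.val ↔ chi l g = -1)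

instance {n : ℕ} : CoeOut (HS n) (B6.HS n) := ⟨HS.toHS⟩

/-- Euler systems for these conductors. -/
structure ES {n : ℕ} (S : HS n) (f : ℤ) extends B6.ES S.toHS f where
  gal' : ∀ c, S.Ad c → ∀ g ∈ GK n, ∀ a, tw f g (y c a) = y c (S.ψ c g * a)
  trace' : ∀ c l, l.Prime → S.Ad (c * l) → Adm n l → ∀ a,
    ∑ a' with S.pr c (c * l) a' = a, y (c * l) a' = al l • y c a
  kron' : ∀ c (w : Plc) (φ : Gam), S.Ad (c * w.p) → Adm n w.p → IsFrob w w.p φ → ∀ a',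
    y (c * w.p) a' - ordCompl[2] (w.p + 1) • φ • y c (S.pr c (c * w.p) a') ∈ K1 w
  spl : ∀ c (w : Plc) (φ : Gam), S.Ad (c * w.p) → J(-n | w.p) = 1 → IsFrob w w.p φ → ∀ a,
    ∑ a' with S.pr c (c * w.p) a' = a, y (c * w.p) a' = al w.p • y c a - φ • y c a - φ⁻¹ • y c a

section

variable {n : ℕ} {S : HS n} {f d : ℤ}

/-- The congruence between the system for `f` and a system for `d`. -/
def Cong (Y : ES S f) (Y₀ : ES S d) : Prop := ∃ (φ : ℕ → Gam) (ε : ℕ → ℤ), (∀ r, Odd (ε r)) ∧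
  (∀ r ∈ (od f).natAbs.primeFactors, ∃ w : Plc, w.p = r ∧ IsFrob w r (φ r)) ∧
  ∀ l, S.Ad l → ∀ a, ∃ u : EE,
    (∀ g ∈ GK n, S.ψ l g = 1 → chi f g = 1 → chi d g = 1 → g • u = u) ∧
    Y.y l a = shA _ EE (Eul S.toHS f l φ ε) (Y₀.y l) a + 2 • u

/-- The classes in a genus. -/
def HS.Ng (S : HS n) (b : ℕ) (ε : ℕ → ℤˣ) (x : S.C b) : Prop :=
  ∀ g ∈ GK n, S.ψ b g = x → ∀ l ∈ b.primeFactors, chi l g = ε l

/-- The sum of the points over a genus. -/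
noncomputable def ES.D (Y : ES S d) (b : ℕ) (ε : ℕ → ℤˣ) : EE := ∑ x with S.Ng b ε x, Y.y b x

/-- Sums over a genus that are not divisible by two occur at all depths. -/
def ES.Seed (Y : ES S d) (f : ℤ) : Prop := ∃ B : ℕ, ∀ s : ℕ, ∃ (b : ℕ) (ε : ℕ → ℤˣ), S.Ad b ∧
  b.primeFactors.card ≤ B ∧
  (∀ l ∈ b.primeFactors, l ≡ 1 [MOD 2 ^ s * n] ∧ 4 ∣ al l ∧ ¬ (l : ℤ) ∣ f) ∧ Od (Y.D b ε)

end

/-- The hypotheses on the places of a tower. -/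
structure TOk (n : ℕ) (lam : Tp) : Prop where
  ne : lam.c ≠ 0
  mem : lam.pl ∈ lam.ps
  dvd : ∀ w ∈ lam.ps, w.p ∣ lam.c
  inj : ∀ w ∈ lam.ps, ∀ v ∈ lam.ps, w.p = v.p → w = v
  adm : ∀ w ∈ lam.ps, Adm n w.p
  nrt : ∀ w ∈ lam.ps, ¬ Rt w.p
  spl : ∀ l ∈ sT lam, Spl n l

/-- The behaviour of the character at the split primes. -/
structure SpC (f : ℤ) (n k : ℕ) (lam : Tp) (ψ : Gam → Lam) : Prop where
  ndf : ∀ l ∈ sT lam, ¬ (l : ℤ) ∣ od f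
  ram : ∀ w : Plc, w.p ∈ sT lam → ∀ τ, Gen w τ → ∃ u : Lam, IsUnit u ∧ ψ τ - (1 + u * X) ∈ aa k k
  sgn : ∀ g ∈ GK n, ∃ ε : ℤˣ, ψ g - ((ε : ℤ) : Lam) ∈ Ideal.span {(X : Lam)}

/-- The hypotheses on the places, which are stable under conjugation of the character. -/
structure SOk0 (T : Tate) (n : ℕ) (f : ℤ) (k : ℕ) (lam : Tp) (ψ : Gam → Lam) (Q : Finset Plc) :
    Prop where
  nok : Nok n
  fok : Fok n f
  tok : TOk n lam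
  chr : Chr0 f n k lam ψ
  deep : ∀ w ∈ Q, DpL n k T lam ψ w
  inj : ∀ w ∈ Q, ∀ v ∈ Q, w.p = v.p → w = v
  sp : SpC f n k lam ψ

/-- The hypotheses under which Selmer groups are studied. -/
structure SOk (T : Tate) (n : ℕ) (f : ℤ) (k : ℕ) (lam : Tp) (ψ : Gam → Lam) (Q : Finset Plc) :
    Prop where
  nok : Nok n
  fok : Fok n f
  tok : TOk n lam
  chr : Chr f n k lam ψ
  deep : ∀ w ∈ Q, DpL n k T lam ψ w
  inj : ∀ w ∈ Q, ∀ v ∈ Q, w.p = v.p → w = v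
  sp : SpC f n k lam ψ

theorem SOk.sok0 {T : Tate} {n k : ℕ} {f : ℤ} {lam : Tp} {ψ : Gam → Lam} {Q : Finset Plc}
    (h : SOk T n f k lam ψ Q) : SOk0 T n f k lam ψ Q :=
  ⟨h.nok, h.fok, h.tok, h.chr.toChr0, h.deep, h.inj, h.sp⟩

section

variable {n : ℕ} (S : HS n) (T : Tate) (k : ℕ) (lam : Tp) (f : ℤ)

/-- The towers at level `k`. -/
structure HS.Tw : Prop where
  tok : TOk n lam
  adm : S.Ad lam.c
  ndf : ∀ l ∈ sT lam, ¬ (l : ℤ) ∣ f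
  cg : ∀ l ∈ sT lam, l ≡ 1 [MOD 2 ^ (2 * k + 4) * n]
  gen : ∃ z, Gen lam.pl z ∧ (lam.ν S.toHS (2 * k + 3) (S.ψ lam.c z)).toAdd = 1
  gf : ∀ v : Plc, (v.p : ℤ) ∣ f → ∀ g, IsFrob v v.p g →
    Odd (lam.ν S.toHS (2 * k + 3) (S.ψ lam.c g)).toAdd.val
  dec : ∃ (c : ℕ) (ν : S.C c →* Multiplicative (ZMod (2 ^ (2 * k + 3)))), lam.c = c * sb lam ∧
    ∀ g ∈ GK n, lam.ν S.toHS (2 * k + 3) (S.ψ lam.c g) =
      ν (S.ψ c g) * ∏ l ∈ sT lam, S.ν l (2 * k + 3) (S.ψ l g)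

/-- The elements that act trivially at level `k` on all branches. -/
noncomputable def HS.N : Subgroup Gam where
  carrier := {z | z ∈ GK n ∧ mred (k + 2) (T.ρ z) = 1 ∧ (S.Ad lam.c → S.ψ lam.c z = 1) ∧
    chi f z = 1}
  one_mem' := ⟨one_mem _, by simp [mred], fun h =>
    by simpa using S.mul' _ h 1 (one_mem _) 1 (one_mem _), map_one _⟩
  mul_mem' := fun {x y} hx hy => ⟨mul_mem hx.1 hy.1, by
    have h1 := hx.2.1
    have h2 := hy.2.1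
    unfold mred at h1 h2 ⊢
    rw [map_mul, Matrix.map_mul, h1, h2, one_mul], fun h => by
    rw [S.mul' _ h x hx.1 y hy.1, hx.2.2.1 h, hy.2.2.1 h, one_mul], by
    rw [map_mul, hx.2.2.2, hy.2.2.2, one_mul]⟩
  inv_mem' := fun {x} hx => ⟨inv_mem hx.1, by
    have h1 := hx.2.1
    have h2 := congrArg (mred (k + 2)) (map_mul T.ρ x⁻¹ x)
    unfold mred at h1 h2 ⊢
    rw [Matrix.map_mul, h1, mul_one, inv_mul_cancel, map_one] at h2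
    rw [← h2]
    simp, fun h => by
    have h1 := S.mul' _ h _ (inv_mem hx.1) _ hx.1
    have h2 := S.mul' _ h 1 (one_mem _) 1 (one_mem _)
    rw [mul_one, left_eq_mul] at h2
    rw [inv_mul_cancel, h2, hx.2.2.1 h, mul_one] at h1
    exact h1.symm, by rw [map_inv, hx.2.2.2, inv_one]⟩

theorem HS.mem_N {z : Gam} : z ∈ HS.N S T k lam f ↔ z ∈ GK n ∧ mred (k + 2) (T.ρ z) = 1 ∧
    (S.Ad lam.c → S.ψ lam.c z = 1) ∧ chi f z = 1 := Iff.rfl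

/-- Places that are deep for all branches. -/
structure HS.Dp (w : Plc) : Prop where
  adm : Adm n w.p
  ne : ¬ w.p ∣ lam.c
  mem : cc * fr w ∈ HS.N S T k lam f

/-- Sets of deep places above different primes. -/
structure HS.DpS (Q : Finset Plc) : Prop where
  dp : ∀ w ∈ Q, HS.Dp S T k lam f w
  inj : ∀ w ∈ Q, ∀ v ∈ Q, w.p = v.p → w = v

/-- Properties of deep places that hold outside of a proper subgroup. -/
def HS.Often (P : Plc → Prop) : Prop := ∃ (m : ℕ) (c : Gam → ZMod (2 ^ m)), Sm (GK n) c ∧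
  IsHom (HS.N S T k lam f) c ∧ (∃ z ∈ HS.N S T k lam f, c z + c (cc * z * cc) ≠ 0) ∧
    ∀ w, HS.Dp S T k lam f w → c (fq w) ≠ 0 → P w

end

/-- The local cohomology at a split prime. -/
def SLStmt : Prop := ∀ (T : Tate) (n k : ℕ) (f : ℤ) (lam : Tp) (ψ : Gam → Lam) (w : Plc),
  Chr0 f n k lam ψ → Spl n w.p → (∃ u : Lam, IsUnit u ∧ ψ (gn w) - (1 + u * X) ∈ aa k k) →
  (∃ ε : ℤˣ, ψ (fr w) - ((ε : ℤ) : Lam) ∈ Ideal.span {(X : Lam)}) →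
  (∀ (B : Type) [AddCommGroup B] [Module Lam B] (c : Gam → Fin 2 → B) (y : Lam), Kil k B →
    Coc (GK n ⊓ Dec w) (act T ψ B) c → YY y →
      ∃ x, ∀ g ∈ GK n ⊓ Dec w, (y ^ 4 • c) g = cob (act T ψ B) x g) ∧
  ∀ j, 1 ≤ j → j ≤ k → 2 ≤ Nat.card (H0 (GK n ⊓ Dec w) (act T ψ (Lam ⧸ aa 1 j)))

/-- The bounds on the target branch. -/
def TGStmt : Prop := ∀ (T : Tate) (n : ℕ) (f e e' : ℤ) (S : HS n), Nok n → Fok n f →
  e * e' = -n → e % 4 = 1 →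
  (Cork (f * e) → Cork (f * e') → ∃ C : ℕ, ∀ k lam, HS.Tw S k lam (od f) → ∀ j ≤ k,
    Nat.card (SM T n f lam (HS.psf S.toHS k lam f e) ∅ (fun _ => .tr) (Lam ⧸ aa j 1)) ≤
      C * 16 ^ (sT lam).card * 4 ^ j) ∧
  (Nz (f * e) → Nz (f * e') → ∃ C : ℕ, ∀ k lam, HS.Tw S k lam (od f) → ∀ j ≤ k,
    Finite (SM T n f lam (HS.psf S.toHS k lam f e) ∅ (fun _ => .tr) (Lam ⧸ aa j 1)) → 4 ^ j ≤
      C * Nat.card (SM T n f lam (HS.psf S.toHS k lam f e) ∅ (fun _ => .tr) (Lam ⧸ aa j 1)))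

/-- Towers with prescribed split primes exist. -/
def TWStmt : Prop := ∀ (_ : Tate) (n k b : ℕ) (f : ℤ) (S : HS n), Nok n → Fok n f → S.Ad b →
  (∀ l ∈ b.primeFactors, l ≡ 1 [MOD 2 ^ (2 * k + 4) * n] ∧ 4 ∣ al l ∧ ¬ (l : ℤ) ∣ f) →
  ∃ lam, HS.Tw S k lam (od f) ∧ sT lam = b.primeFactors

omit [Md] in
/-- The characters at the split primes. -/
def NUStmt : Prop := ∀ n l s : ℕ, B4.Nw n → l.Prime → 0 < s → l ≡ 1 [MOD 2 ^ (s + 1) * n] →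
  ∃ ν : CM.Tw (CM.Pc n l) →* Multiplicative (ZMod (2 ^ s)), ∀ g ∈ GK n,
    (Odd (ν (CM.psi n l g)).toAdd.val ↔ chi l g = -1)

/-- The Euler systems of Heegner points. -/
def CMStmt : Prop := ∀ (D : B4.GE.MD Wu NN) (G : B4.GE.Geo D.par), G5.Nw D →
  (∀ l, al l = D.c l) → G.M ∣ MM → ∀ (n : ℕ) [∀ c, Fintype (CM.Pc n c)] (r f : ℤ), Nok n →
  4 * (NN : ℤ) ∣ r ^ 2 + n → Fok n f → T10.SeedB D.par n r (dt f) →
  ∃ (S : HS n) (Y₀ : ES S (dt f)) (Y : ES S f), Cong Y Y₀ ∧ Y₀.Seed f ∧ Link Y.toES D.par.φ r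

/-- The classes of Kolyvagin. -/
def KCStmt : Prop := ∀ (T : Tate) (n k : ℕ) (f d e : ℤ) (S : HS n) (lam : Tp) (Y : ES S f)
  (Y₀ : ES S d) (ε : ℕ → ℤˣ), Nok n → Fok n f → d ∣ 2 → Cong Y Y₀ → HS.Tw S k lam (od f) →
  ∃ (κ : Finset Plc → Gam → Fin 2 → Ak k) (R : EE),
    (∀ Q, HS.DpS S T k lam f Q →
      κ Q ∈ SU T n f lam (HS.psf S.toHS k lam f e) Q (fun _ => .tr) (Ak k)) ∧
    (∀ Q w, w ∉ Q → HS.DpS S T k lam f (insert w Q) →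
      κ (insert w Q) (gn w) = sw _ *ᵥ κ Q (fq w)) ∧
    (e ∣ n → e % 4 = 1 → ∃ A : ℤ, 2 ^ k • R = A • Y.ychi e) ∧
    (∀ g ∈ HS.N S T k lam f, T.emb k (fun i => evk k (κ ∅ g i)) = g • R - R) ∧
    ∀ g ∈ HS.N S T k lam f, T.Un (Y₀.D (sb lam) ε) g → 2 * (mm f + (sT lam).card) < k →
      ∀ x : Lam, Ideal.Quotient.mk _ x = κ ∅ g 1 → x ^ 2 ∉ aa 1 (2 * (mm f + (sT lam).card) + 1)

end Pool.Agent.B6.B7.C5
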