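import Pool.Agent.Lib.MP_696deb_nt.B10.CN

/-! The local behaviour of the twisted Tate module, for towers with split primes. -/

set_option autoImplicit false

open scoped NNReal Classical
open Finset Matrix NumberTheorySymbols PowerSeries

namespace Pool.Agent.B6.B7.C5

open Pool.Agent.Lib.MP_696deb_nt Pool.Agent.Lib.MP_696deb_nt.B2 Pool.Agent.Lib.MP_696deb_nt.B6

variable [Md]

variable {T : Tate} {f : ℤ} {n k m q : ℕ} {lam : Tp} {w : Plc} {ψ : Gam → Lam} {B : Type}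
  [AddCommGroup B] [Module Lam B] {g h φ τ : Gam} {Q : Finset Plc} {c : Gam → Fin 2 → B}
  {ty : Plc → Ty}

theorem SOk0.adm (h : SOk0 T n f k lam ψ Q) : Adm n lam.pl.p := h.tok.adm _ h.tok.mem

theorem SpC.cjc (h : SpC f n k lam ψ) : SpC f n k lam (cjc ψ) :=
  ⟨h.ndf, fun w hw τ hτ => h.ram (cc • w) hw _ (by
    have := hτ.smul cc
    rwa [cc_inv] at this), fun _ hg => h.sgn _ (conj_cc_mem hg)⟩

theorem SOk0.mono (h : SOk0 T n f k lam ψ Q) {Q' : Finset Plc} (e : Q' ⊆ Q) :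
    SOk0 T n f k lam ψ Q' :=
  ⟨h.nok, h.fok, h.tok, h.chr, fun w hw => h.deep w (e hw),
    fun w hw v hv => h.inj w (e hw) v (e hv), h.sp⟩

theorem SOk0.cjc (h : SOk0 T n f k lam ψ Q) : SOk0 T n f k lam (cjc ψ) Q :=
  ⟨h.nok, h.fok, h.tok, h.chr.cjc, fun w hw => ⟨(h.deep w hw).adm, (h.deep w hw).ne,
    (h.deep w hw).rho, by
    have := sub_mem (h.chr.mul_cj h.nok.pos ((h.deep w hw).adm.cc_fr h.nok.pos))
      (Ideal.mul_mem_right (ψ (cc * (cc * fr w) * cc)) _ (h.deep w hw).psi)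
    convert this using 1
    rw [B2.cjc]
    ring⟩, h.inj, h.sp.cjc⟩

theorem SOk0.triv (h : SOk0 T n f k lam ψ Q) (hB : Kil k B) (hw : w ∈ Q) (hg : g ∈ GK n ⊓ Dec w)
    (x : Fin 2 → B) : act T ψ B g x = x := dp_triv (h.deep w hw) h.fok h.chr hB hg x

theorem SOk0.tm (h : SOk0 T n f k lam ψ Q) (hw : w ∈ Q) : Tm (GK n) w (w.p ^ 2) (fq w) (gn w) :=
  (h.deep w hw).adm.tm'

theorem SOk0.tact (h : SOk0 T n f k lam ψ Q) (hB : Kil k B) :
    TAct T f (GK n ⊓ Dec w2) (act T ψ B) := h.chr.tAct hB w2_p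

/-- Complex conjugation at a deep place. -/
theorem SOk0.conj_deep (h : SOk0 T n f k lam ψ Q) (hB : Kil k B) (hw : w ∈ Q)
    (hc : Coc (GK n) (act T ψ B) c) :
    c (cc * fq w * cc) = c (fq w) ∧ c (cc * gn w * cc) = -c (gn w) := by
  have d := h.deep w hw
  have t := d.adm.tm'
  have ha := h.chr.act0 T hB
  have h1 := d.adm.cc_fr h.nok.pos
  have tv := fun g hg => h.triv hB hw (g := g) hg
  have key : ∀ g ∈ GK n ⊓ Dec w, c (cc * fr w * g * (cc * fr w)⁻¹) = c g := fun g hg => by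
    have e := hc.2 _ (mul_mem (mul_mem h1 hg.1) (inv_mem h1)) _ h1
    rw [inv_mul_cancel_right, hc.2 _ h1 _ hg.1, d.act_fr hB, ha.mul _ (mul_mem h1 hg.1) _
      (inv_mem h1), ha.mul _ h1 _ hg.1, tv g hg, lf_inv' ha h1, add_comm] at e
    exact (add_right_cancel e).symm
  refine ⟨?_, ?_⟩
  · rw [← key _ t.φ_mem, _root_.mul_inv_rev, cc_inv, fq]
    congr 1
    group
  · have h2 : (fr w)⁻¹ * gn w * fr w ∈ Ine w := by
      simpa using conj_mem_Ine (inv_mem (fr_spec w).1) t.gen.1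
    have e := key _ (t.ine_le h2)
    have e2 := ((h.chr.ta T hB t).conj' (hc.lo_mono inf_le_left) (fr_spec w) h2).1
    obtain ⟨j, hj⟩ := (pow_dvd_pow 2 (Nat.le_add_right k 2)).trans d.dvd1
    rw [lf_pow_fix ha hc (t.ine h2) (tv _ (t.ine_le h2) _), show fr w * ((fr w)⁻¹ * gn w * fr w) *
      (fr w)⁻¹ = gn w by group] at e2
    rw [e2, eq_neg_iff_add_eq_zero, ← e, _root_.mul_inv_rev, cc_inv, show cc * fr w *
      ((fr w)⁻¹ * gn w * fr w) * ((fr w)⁻¹ * cc) = cc * gn w * cc by group, ← succ_nsmul', hj,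
      mul_nsmul, hB.two', nsmul_zero]

theorem SOk0.o3 (h : SOk0 T n f k lam ψ Q) (hw : w ∈ lam.ps) :
    (rep T ψ (fq w)).trace - 1 ∈ aa 1 1 ∧ (rep T ψ (fq w)).det - 1 ∈ aa 1 1 :=
  ⟨rep_trace_res (h.chr.res _) (T.o3_fq (h.tok.adm _ hw).nd30 (h.tok.nrt w hw)),
    rep_det_res (h.chr.res _)⟩

/-- At the primes of the tower all cocycles are coboundaries. -/
theorem SOk0.lam_cob (h : SOk0 T n f k lam ψ Q) (hB : Kil k B) (hw : w ∈ lam.ps)
    (hc : Coc (GK n ⊓ Dec w) (act T ψ B) c) :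
    ∃ x, ∀ g ∈ GK n ⊓ Dec w, c g = cob (act T ψ B) x g :=
  have a := h.tok.adm _ hw
  (h.chr.ta T hB a.tm').o3 act_lin (act_scalar hB (by
    rw [T.unr w a.nd30 _ a.tm'.gen.1, la_mred_one])) (h.chr.res _) (act_apply T ψ _)
    (h.o3 hw).1 (h.o3 hw).2 hc

theorem SOk0.lam_fix (h : SOk0 T n f k lam ψ Q) {x : Fin 2 → B}
    (hx : cob (act T ψ B) x (fq lam.pl) = 0) : x = 0 :=
  lf_o3_eig (h.o3 h.tok.mem).1 (h.o3 h.tok.mem).2 (u := 1) (by simp)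
    ((sub_eq_zero.1 hx).trans (one_smul _ _).symm)

theorem SOk0.lam_surj (h : SOk0 T n f k lam ψ Q) (y : Fin 2 → B) :
    ∃ x, y = cob (act T ψ B) x (fq lam.pl) := lf_o3_surj (h.o3 h.tok.mem).1 (h.o3 h.tok.mem).2 y

theorem SOk0.f_ne (h : SOk0 T n f k lam ψ Q) (hw : (w.p : ℤ) ∣ od f) : ¬ w.p ∣ lam.c := fun e =>
  (h.tok.cases e).elim (fun k => h.sp.ndf _ k hw) fun k => h.fok.ndf k.1 hw

theorem SOk0.N_ne (h : SOk0 T n f k lam ψ Q) (hw : w.p ∣ NN) : ¬ w.p ∣ lam.c := fun e =>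
  h.tok.nd30 e (hw.mul_left 2)

/-- Above `f` the generator of inertia acts as minus one. -/
theorem SOk0.f_neg (h : SOk0 T n f k lam ψ Q) (hB : Kil k B) (hw : (w.p : ℤ) ∣ od f)
    (hN : ¬ w.p ∣ NN) (x : Fin 2 → B) : act T ψ B (gn w) x = -x := by
  have t := h.fok.tm hw
  have e := h.chr.unr w (h.f_ne hw) _ ⟨t.τ_mem.1, t.gen.1⟩
  rw [act_scalar hB (by rw [T.unr w (h.fok.nd30 w.prime hw hN) _ t.gen.1, la_mred_one]),
    hB.pi.congr e, h.fok.chi_gen hw t.gen]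
  simp

theorem SOk0.f_det (h : SOk0 T n f k lam ψ Q) (hw : (w.p : ℤ) ∣ od f) (hN : ¬ w.p ∣ NN)
    (hr : Rt w.p) : ∃ u : Lam, IsUnit u ∧ (rep T ψ (fr w) - 1).det - u * X ^ 2 ∈ aa 1 k := by
  obtain ⟨u, hu, e⟩ := h.chr.gf w hw _ (fr_spec w)
  have z : ∀ t : ZMod (2 ^ 1), t ≠ 1 → t = 0 := by decide
  have e1 := la_C_mem (k := 1) (z := (T.ρ (fr w)).trace) (z' := 0) ((z _ fun k => (T.par w _
    (h.fok.nd30 w.prime hw hN) (fr_spec w)).1 ((T.sig_trace _).trans k) hr).trans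
    (map_zero _).symm) k
  have e2 := la_C_mem (k := 1) (z := (T.ρ (fr w)).det) (z' := 1) (by
    by_contra k
    have := congrArg (fun A => PadicInt.toZModPow 1 A.det) (map_mul T.ρ (fr w) (fr w)⁻¹)
    simp only [mul_inv_cancel, map_one, det_one, det_mul, map_mul] at this k
    rw [z _ k, zero_mul] at this
    exact absurd this (by decide)) k
  have e3 : (2 : Lam) ∈ aa 1 k := by simpa using two_mem_aa 1 k
  have e4 := lf_det ((T.ρ (fr w)).map C) (ψ (fr w)) 1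
  rw [one_smul, ← RingHom.mapMatrix_apply, ← RingHom.map_det, RingHom.mapMatrix_apply,
    ← AddMonoidHom.map_trace (C : ℤ_[2] →+* Lam)] at e4
  refine ⟨u * u, hu.mul hu, ?_⟩
  convert add_mem (add_mem (sub_mem (Ideal.mul_mem_left _ (ψ (fr w) ^ 2) e2)
    (Ideal.mul_mem_left _ (ψ (fr w)) e1)) (Ideal.mul_mem_left _ (ψ (fr w) + 1 + u * X) e))
    (Ideal.mul_mem_left _ (1 + u * X) e3) using 1
  rw [rep, e4, map_one, map_zero]
  ring

theorem SOk0.f_two (h : SOk0 T n f k lam ψ Q) (hB : Kil k B) (hw : (w.p : ℤ) ∣ od f)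
    (hN : ¬ w.p ∣ NN) (hc : Coc (GK n ⊓ Dec w) (act T ψ B) c) :
    ∃ x, ∀ g ∈ GK n ⊓ Dec w, (2 : Lam) • c g = cob (act T ψ B) x g :=
  (h.chr.ta T hB (h.fok.tm hw)).neg_two act_lin (h.f_neg hB hw hN) hc

theorem SOk0.f_X (h : SOk0 T n f k lam ψ Q) (hB : Kil k B) (hw : (w.p : ℤ) ∣ od f)
    (hN : ¬ w.p ∣ NN) (hc : Coc (GK n ⊓ Dec w) (act T ψ B) c) :
    ∃ x, ∀ g ∈ GK n ⊓ Dec w, (X ^ 4 : Lam) • c g = cob (act T ψ B) x g := by
  obtain ⟨α, β, e⟩ : ∃ α β : Lam, X ^ 2 - (α * (rep T ψ (fr w) - 1).det + 2 * β) ∈ aa k k := by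
    by_cases hr : Rt w.p
    · obtain ⟨_, ⟨u, rfl⟩, e⟩ := h.f_det hw hN hr
      obtain ⟨a, b, e⟩ := Ideal.mem_span_pair.1 e
      refine ⟨↑u⁻¹, -(↑u⁻¹ * a), ?_⟩
      convert Ideal.mul_mem_left _ (-(↑u⁻¹ * b)) (X_mem_aa k k) using 1
      linear_combination (↑u⁻¹ : Lam) * e - X ^ 2 * u.inv_mul
    · obtain ⟨u, hu⟩ := lf_o3_unit (rep_trace_res (h.chr.res _) ((T.par w _
        (h.fok.nd30 w.prime hw hN) (fr_spec w)).2 hr)) (rep_det_res (T := T) (h.chr.res (fr w)))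
        (u := 1) (by simp)
      rw [one_smul] at hu
      exact ⟨X ^ 2 * (u⁻¹ : Lamˣ).1, 0, by rw [← hu, mul_assoc, u.inv_mul]; simp⟩
  rw [show (X ^ 4 : Lam) = X ^ 2 * X ^ 2 by ring]
  exact (h.chr.ta T hB (h.fok.tm hw)).neg_sq hB act_lin (h.f_neg hB hw hN) (act_apply T ψ _) e hc

/-- The fixed vectors above the primes of `f` that are not of order three. -/
theorem SOk0.f_h0 (h : SOk0 T n f k lam ψ Q) {j : ℕ} (h2 : 2 ≤ j) (hj : j ≤ k)
    (hw : (w.p : ℤ) ∣ od f) (hN : ¬ w.p ∣ NN) (hr : Rt w.p) :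
    4 ≤ Nat.card (H0 (GK n ⊓ Dec w) (act T ψ (Lam ⧸ aa 1 j))) := by
  have hB : Kil k (Lam ⧸ aa 1 j) := kil_quot (PA.aa_anti (by omega) hj)
  obtain ⟨u, -, e⟩ := h.f_det hw hN hr
  refine (lf_ker (A := rep T ψ (fr w) - 1) h2 ?_).trans (AddSubgroup.card_le_of_le fun x hx g hg =>
    (h.chr.ta T hB (h.fok.tm hw)).fix ?_ (sub_eq_zero.1 ((lf_sub_one _ x).symm.trans hx)) hg)
  · simpa using add_mem (PA.aa_anti le_rfl (h2.trans hj) e) (Ideal.mul_mem_left _ u (X_mem_aa 1 2))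
  · rw [h.f_neg hB hw hN, neg_eq_iff_add_eq_zero, ← two_smul Lam]
    refine funext fun i => ?_
    obtain ⟨z, hz⟩ := Ideal.Quotient.mk_surjective (x i)
    rw [Pi.smul_apply, ← hz]
    exact Ideal.Quotient.eq_zero_iff_mem.2 (Ideal.mul_mem_right _ _ (by simpa using two_mem_aa 1 j))

/-- The action at a bad prime that divides the twist. -/
theorem SOk0.g_tri (h : SOk0 T n f k lam ψ Q) (hw : (w.p : ℤ) ∣ od f) (hN : w.p ∣ NN) :
    ∃ (P : Matrix (Fin 2) (Fin 2) Lam) (a d : ℤ), P.det = 1 ∧ Odd a ∧ Odd d ∧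
      ∀ {B : Type} [AddCommGroup B] [Module Lam B], Kil k B → ∀ x : Fin 2 → B,
      (mact B P.adjugate (act T ψ B (gn w) x) 1 = -mact B P.adjugate x 1 ∧
        (mact B P.adjugate x 1 = 0 → act T ψ B (gn w) x = -x)) ∧
      mact B P.adjugate (act T ψ B (fr w) x) 1 = (ψ (fr w) * d) • mact B P.adjugate x 1 ∧
        (mact B P.adjugate x 1 = 0 → act T ψ B (fr w) x = (ψ (fr w) * a) • x) := by
  obtain ⟨P, s, hs, h1, h2, h3⟩ := T.mult w hN
  have t := h.fok.tm hw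
  obtain ⟨u, e1, -⟩ := h2 _ t.gen.1
  obtain ⟨b, e2⟩ := h3 _ (fr_spec w)
  have hP : (P.map (C : ℤ_[2] → Lam)).det = 1 := by
    rw [← RingHom.mapMatrix_apply, ← RingHom.map_det, h1, map_one]
  have mp : ∀ {g : Gam} {α β δ : ℤ_[2]}, T.ρ g * P = P * !![α, β; 0, δ] →
      (T.ρ g).map (C : ℤ_[2] → Lam) * P.map C = P.map C * !![C α, C β; 0, C δ] := fun e => by
    rw [← Matrix.map_mul, e, Matrix.map_mul]
    congr 1
    ext i j : 1
    fin_cases i <;> fin_cases j <;> simp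
  have os : Odd s := by rcases hs with rfl | rfl <;> decide
  refine ⟨P.map C, s * w.p, s, hP, os.mul (w.prime.odd_of_ne_two (ne_two_of_dvd hN)).natCast, os,
    fun {B} _ _ hB x => ?_⟩
  have k1 := lb_tri hP (mp e1) x
  have k2 := lb_tri hP (mp e2) x
  have e := hB.pi.congr (h.chr.unr w (h.f_ne hw) _ ⟨t.τ_mem.1, t.gen.1⟩)
  rw [h.fok.chi_gen hw t.gen] at e
  simp only [map_one, one_smul, map_mul, map_intCast, map_natCast, Units.val_neg, Units.val_one,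
    Int.cast_neg, Int.cast_one, neg_smul] at k1 k2 e
  rw [act_eq, act_eq, e, map_neg, map_smul, Pi.neg_apply, Pi.smul_apply, k1.1, k2.1, mul_smul]
  exact ⟨⟨rfl, fun e => by rw [k1.2 e]⟩, rfl, fun e => by
    rw [k2.2 e, smul_smul, Int.cast_mul, Int.cast_natCast]⟩

theorem SOk0.g_gen (h : SOk0 T n f k lam ψ Q) (hw : (w.p : ℤ) ∣ od f) {a : ℤ} (ha : Odd a)
    {y : Lam} (hy : YY y) : ∃ r s : Lam, y - (r * (ψ (fr w) * a - 1) + 2 * s) ∈ aa k k := by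
  rcases hy with rfl | rfl
  · exact ⟨0, 1, by simp⟩
  obtain ⟨_, ⟨u, rfl⟩, e⟩ := h.chr.gf w hw _ (fr_spec w)
  obtain ⟨j, rfl⟩ := ha
  obtain ⟨a, b, e⟩ := Ideal.mem_span_pair.1 e
  refine ⟨↑u⁻¹, -(↑u⁻¹ * (a + j * ψ (fr w))), ?_⟩
  convert Ideal.mul_mem_left _ (-(↑u⁻¹ * b)) (X_mem_aa k k) using 1
  push_cast
  linear_combination (↑u⁻¹ : Lam) * e - X * u.inv_mul

/-- The fourth powers of the generators of the maximal ideal kill the local cohomology. -/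
theorem SOk0.f_pow (h : SOk0 T n f k lam ψ Q) (hB : Kil k B) (hw : (w.p : ℤ) ∣ od f)
    (hc : Coc (GK n ⊓ Dec w) (act T ψ B) c) {y : Lam} (hy : YY y) :
    ∃ x, ∀ g ∈ GK n ⊓ Dec w, (y ^ 4 • c) g = cob (act T ψ B) x g := by
  by_cases hN : w.p ∣ NN
  · obtain ⟨P, a, d, -, ha, hd, k⟩ := h.g_tri hw hN
    obtain ⟨r, s, e⟩ := h.g_gen hw hd hy
    obtain ⟨r', s', e'⟩ := h.g_gen hw ha hy
    obtain ⟨x, hx⟩ := lg_two (h.chr.ta T hB (h.fok.tm hw)) act_lin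
      (LinearMap.proj 1 ∘ₗ mact B P.adjugate) (fun x => (k hB x).1.1) (fun x => (k hB x).2.1)
      (fun x => (k hB x).1.2) (fun x => (k hB x).2.2) (hB.congr e) (hB.pi.congr e') hc
    exact ⟨(y ^ 2) • x, fun g hg => by
      rw [cob_smul, ← hx g hg, smul_smul, Pi.smul_apply, show y ^ 4 = y ^ 2 * (y * y) by ring]⟩
  rcases hy with rfl | rfl
  · obtain ⟨x, hx⟩ := h.f_two hB hw hN hc
    exact ⟨(2 ^ 3 : Lam) • x, fun g hg => by
      rw [cob_smul, ← hx g hg, smul_smul, ← pow_succ, Pi.smul_apply]⟩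
  · exact h.f_X hB hw hN hc

/-- The fixed vectors above the odd primes of `f`. -/
theorem SOk0.wt_h0 (h : SOk0 T n f k lam ψ Q) {j : ℕ} (h2 : 2 ≤ j) (hj : j ≤ k)
    (hw : (w.p : ℤ) ∣ od f) :
    2 ^ wt w.p ≤ Nat.card (H0 (GK n ⊓ Dec w) (act T ψ (Lam ⧸ aa 1 j))) := by
  have hI : aa k k ≤ aa 1 j := PA.aa_anti (by omega) hj
  have hB : Kil k (Lam ⧸ aa 1 j) := kil_quot hI
  have := finite_quot hI
  rw [wt]
  split_ifs with hN hr
  swap
  · exact h.f_h0 h2 hj hw hN hr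
  swap
  · exact Nat.card_pos
  obtain ⟨P, a, d, hP, ⟨i, ha⟩, -, k⟩ := h.g_tri hw hN
  obtain ⟨j, rfl⟩ := Nat.exists_eq_add_of_le' (one_le_two.trans h2)
  obtain ⟨z, hz⟩ : ∃ z, z = Ideal.Quotient.mk (aa 1 (j + 1)) (X ^ j) := ⟨_, rfl⟩
  have z0 : z ≠ 0 := fun e => by
    have := PA.mem_aa.1 (Ideal.Quotient.eq_zero_iff_mem.1 (hz ▸ e)) j j.lt_succ_self
    rw [coeff_X_pow_self, pow_one] at this
    exact PadicInt.prime_p.not_dvd_one (by exact_mod_cast this)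
  have z1 : ∀ u ∈ aa 1 1, u • z = 0 := fun u hu => by
    obtain ⟨a, b, rfl⟩ := Ideal.mem_span_pair.1 hu
    rw [hz]
    refine Ideal.Quotient.eq_zero_iff_mem.2 (Ideal.mem_span_pair.2 ⟨a * X ^ j, b, ?_⟩)
    simp only [smul_eq_mul]
    ring
  have e0 : mact _ P.adjugate (mact _ P ![z, 0]) = ![z, 0] := by rw [(lf_adj P _).1, hP, one_smul]
  have e1 : ∀ u, u - 1 ∈ aa 1 1 → u • mact _ P ![z, 0] = mact _ P ![z, 0] := fun u hu => by
    rw [← map_smul]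
    refine congrArg _ (funext fun i => ?_)
    fin_cases i
    · exact sub_eq_zero.1 ((sub_smul u 1 z ▸ z1 _ hu).symm ▸ by simp)
    · exact smul_zero u
  have e2 := k hB (mact _ P ![z, 0])
  rw [e0] at e2
  have m : mact _ P ![z, 0] ∈ H0 (GK n ⊓ Dec w) (act T ψ (Lam ⧸ aa 1 (j + 1))) := fun g hg => by
    refine (h.chr.ta T hB (h.fok.tm hw)).fix ?_ ?_ hg
    · rw [e2.1.2 rfl, ← neg_one_smul Lam]
      exact e1 _ (by convert neg_mem lf_two_mem using 1; ring)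
    · rw [e2.2.2 rfl]
      refine e1 _ ?_
      convert add_mem (h.chr.res (fr w)) (Ideal.mul_mem_right (i * ψ (fr w)) _ lf_two_mem) using 1
      rw [ha]
      push_cast
      ring
  rw [pow_one]
  refine Finite.one_lt_card_iff_nontrivial.2 ⟨⟨_, m⟩, 0, fun e => z0 ?_⟩
  rw [show mact _ P ![z, 0] = 0 from congrArg Subtype.val e, map_zero] at e0
  exact (congrFun e0 0).symm

theorem SOk0.s_loc (sl : SLStmt) (h : SOk0 T n f k lam ψ Q) (hw : w.p ∈ sT lam) :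
    (∀ (B : Type) [AddCommGroup B] [Module Lam B] (c : Gam → Fin 2 → B) (y : Lam), Kil k B →
      Coc (GK n ⊓ Dec w) (act T ψ B) c → YY y →
        ∃ x, ∀ g ∈ GK n ⊓ Dec w, (y ^ 4 • c) g = cob (act T ψ B) x g) ∧
    ∀ j, 1 ≤ j → j ≤ k → 2 ≤ Nat.card (H0 (GK n ⊓ Dec w) (act T ψ (Lam ⧸ aa 1 j))) :=
  have t := (h.tok.spl _ hw).tm
  sl T n k f lam ψ w h.chr (h.tok.spl _ hw) (h.sp.ram w hw _ t.gen) (h.sp.sgn _ t.φ_mem.1)

/-- Above the bad primes the decomposition group acts through a two-group. -/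
theorem SOk0.N_no3 (h : SOk0 T n f k lam ψ Q) (hw : w.p ∣ NN) (hg : g ∈ GK n ⊓ Dec w) :
    (T.sig g).trace ≠ 1 := by
  obtain ⟨P, s, hs, h1, h2, h3⟩ := T.mult w hw
  have key : ∀ (g : Gam) (a b d : ℤ_[2]), T.ρ g * P = P * !![a, b; 0, d] →
      PadicInt.toZModPow 1 a = 1 → T.sig g *ᵥ (fun i => mred 1 P i 0) = fun i => mred 1 P i 0 :=
    fun g a b d e ha => funext fun i => by
      have := congrArg (fun A => PadicInt.toZModPow 1 (A i 0)) e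
      simpa [mul_apply, Fin.sum_univ_two, ha, T.sig_apply, mred, mulVec, dotProduct] using this
  refine lf_no3 (h.nok.tm hw) (T.sm 1) (v := fun i => mred 1 P i 0) (fun e => ?_)
    (fun σ hσ => (h2 σ hσ).elim fun c hc => key σ _ _ _ hc.1 (map_one _))
    ((h3 _ (fr_spec w)).elim fun b hb => key _ _ _ _ hb ?_) hg
  · have := congrArg (PadicInt.toZModPow 1) h1
    rw [det_fin_two, map_sub, map_mul, map_mul, map_one, show PadicInt.toZModPow 1 (P 0 0) = 0 from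
      congrFun e 0, show PadicInt.toZModPow 1 (P 1 0) = 0 from congrFun e 1] at this
    simp at this
  · obtain ⟨j, hj⟩ := w.prime.odd_of_ne_two (ne_two_of_dvd hw)
    have z : (2 : ZMod (2 ^ 1)) = 0 := rfl
    rw [map_mul, map_intCast, map_natCast, hj]
    rcases hs with rfl | rfl <;> push_cast <;> simp [z]

/-- The functional that cuts out the unramified condition. -/
theorem lur_iff (T : Tate) (hN : w.p ∣ Nf f) : ∃ l : Fin 2 → Lam, ∀ {n k : ℕ}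
    {lam : Tp} {ψ : Gam → Lam} {Q : Finset Plc} {B : Type} [AddCommGroup B] [Module Lam B]
    {c : Gam → Fin 2 → B}, SOk0 T n f k lam ψ Q → Kil k B → Coc (GK n ⊓ Dec w) (act T ψ B) c →
      ((∃ x, ∀ σ ∈ Ine w, c σ = cob (act T ψ B) x σ) ↔
        l 0 • c (gn w) 1 - l 1 • c (gn w) 0 = 0) := by
  have hw := Nf_N hN
  obtain ⟨P, s, -, h1, h2, -⟩ := T.mult w hw
  have hg := gn_spec (ne_two_of_dvd hw)
  obtain ⟨u, e, hu⟩ := h2 _ hg.1
  refine ⟨fun i => P.map C i 0, fun {n k lam ψ Q B} _ _ {c} h hB hc => ?_⟩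
  have t := h.nok.tm hw
  rw [← lf_un (A := (T.ρ (gn w)).map C) (u := C u) (by
    rw [← RingHom.mapMatrix_apply, ← RingHom.map_det, h1, map_one]) ((hu hg).map C) (by
    rw [← Matrix.map_mul, e, Matrix.map_mul]
    congr 1
    ext i j : 1
    fin_cases i <;> fin_cases j <;> simp)]
  refine exists_congr fun x => ?_
  have e1 : act T ψ B (gn w) x = mact B ((T.ρ (gn w)).map C) x := by
    rw [act_eq, hB.pi.congr (h.chr.unr1 h.fok (ne_two_of_dvd hw) (Nf_nd hN) (h.N_ne hw)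
      ⟨t.τ_mem.1, hg.1⟩), one_smul]
  rw [← e1]
  exact ⟨fun k => k _ hg.1, fun k _ hσ => (h.chr.ta T hB t).cob_ine hc k hσ⟩

/-- Coboundaries satisfy all conditions. -/
theorem SOk0.cob_mem (h : SOk0 T n f k lam ψ Q) (hB : Kil k B) (x : Fin 2 → B) :
    rs (GK n) (cob (act T ψ B) x) ∈ SU T n f lam ψ Q ty B := by
  refine ⟨(lf_coc_cob (h.chr.act0 T hB) x).lo_rs, fun w b1 b2 b3 _ σ hσ => ?_,
    fun w hw => ⟨x, fun σ hσ => rs_of_mem ((h.nok.tm (Nf_N hw)).ine hσ) _⟩,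
    (KumC.cob (h.tact hB) x).congr fun g hg => rs_of_mem hg.1 _, fun w hw => ?_⟩
  · rw [rs_of_mem hσ.1, cob, act_id hB (h.chr.unr1 h.fok (ne_two_of b1) b2 b3 hσ)
      (by rw [T.unr w b1 σ hσ.2, la_mred_one]), sub_self]
  · have t := h.tm hw
    rw [rs_of_mem t.φ_mem.1, rs_of_mem t.τ_mem.1, cob, cob, h.triv hB hw t.φ_mem,
      h.triv hB hw t.τ_mem, sub_self]
    exact zero_mem _

/-- Normalisation at the prime of the tower. -/
theorem SOk0.norm (h : SOk0 T n f k lam ψ Q) (hB : Kil k B) (hc : c ∈ SU T n f lam ψ Q ty B) :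
    ∃ x, c - rs (GK n) (cob (act T ψ B) x) ∈ SM T n f lam ψ Q ty B := by
  obtain ⟨x, hx⟩ := h.lam_surj (c (fq lam.pl))
  exact ⟨x, sub_mem hc (h.cob_mem hB x), by
    change c _ - rs _ _ _ = 0
    rw [rs_of_mem h.adm.tm'.mem, ← hx, sub_self]⟩

end Pool.Agent.B6.B7.C5
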