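import Pool.Agent.Lib.MP_696deb_nt.B7.XSc
import Pool.Agent.Lib.MP_696deb_nt.B10.CL

/-! The Selmer modules of the patching argument are cartesian. -/

set_option autoImplicit false

open scoped NNReal Classical
open Finset Matrix NumberTheorySymbols PowerSeries

namespace Pool.Agent.B6.B7.C5

open Pool.Agent.Lib.MP_696deb_nt Pool.Agent.Lib.MP_696deb_nt.B2 Pool.Agent.Lib.MP_696deb_nt.B6

variable [Md]

variable {T : Tate} {f : ℤ} {n k : ℕ} {lam : Tp} {w : Plc} {ψ : Gam → Lam} {Q : Finset Plc} {ty : Plc → Ty}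
  {B B' : Type} [AddCommGroup B] [Module Lam B] [AddCommGroup B'] [Module Lam B']
  {c : Gam → Fin 2 → B} {g : Gam}

/-- An unramified condition can be dropped. -/
theorem SOk0.insert_ur (h : SOk0 T n f k lam ψ (insert w Q)) (hB : Kil k B) (hw : w ∉ Q)
    {ty' : Plc → Ty} (h1 : ty' w = .ur) (h2 : ∀ v ∈ Q, ty' v = ty v) :
    SU T n f lam ψ (insert w Q) ty' B = SU T n f lam ψ Q ty B := by
  have hw' := mem_insert_self w Q
  have d := h.deep w hw'
  have t := h.tm hw'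
  ext z
  refine ⟨fun a => ⟨a.z1, fun v b1 b0 b2 b3 σ hσ => ?_, a.lur, a.kum,
    fun v hv => h2 v hv ▸ a.dp v (mem_insert_of_mem hv)⟩,
    fun a => ⟨a.z1, fun v b1 b0 b2 b3 => a.unr v b1 b0 b2 fun u hu =>
      b3 u (mem_insert_of_mem hu), a.lur, a.kum, fun v hv => ?_⟩⟩
  · by_cases e : v.p = w.p
    · have b4 := a.dp w hw'
      rw [h1] at b4
      obtain ⟨g, hg, rfl⟩ := conj_of_inert e (fr_spec w).1 d.adm.fr_notMem
      have b5 : g⁻¹ * σ * g ∈ Ine w := mem_Ine_smul.1 hσ.2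
      have b6 := t.ine_le b5
      have b7 : z (g⁻¹ * σ * g) = 0 :=
        (h.chr.ta T hB t).zero_ine (a.z1.1.lo_mono inf_le_left) b4.2 b5
      have b8 : σ = g * ((g⁻¹ * σ * g) * g⁻¹) := by group
      rw [b8, a.z1.1.2 g hg _ (mul_mem b6.1 (inv_mem hg)), a.z1.1.2 _ b6.1 _ (inv_mem hg), b7,
        zero_add, h.triv hB hw' b6, ← a.z1.1.2 g hg _ (inv_mem hg), mul_inv_cancel,
        lf_one (h.chr.act0 T hB) a.z1.1]
    · refine a.unr v b1 b0 b2 (fun u hu => ?_) σ hσ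
      rcases mem_insert.1 hu with rfl | hu
      · exact e
      · exact b3 u hu
  · rcases mem_insert.1 hv with rfl | hv
    · rw [h1]
      refine ⟨trivial, a.unr v d.adm.nd30 (h.fok.ndf d.adm) d.ne (fun u hu e => hw ?_) _
        ⟨t.τ_mem.1, t.gen.1⟩⟩
      rw [h.inj v hw' u (mem_insert_of_mem hu) e]
      exact hu
    · rw [h2 v hv]
      exact a.dp v hv

/-- Membership can be tested on all maps to the ring of level `k`. -/
theorem xsc_SU [Finite B] (h : SOk0 T n f k lam ψ Q) (hB : Kil k B)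
    (hc : ∀ ι : B →ₗ[Lam] Ak k, (fun g i => ι (c g i)) ∈ SU T n f lam ψ Q ty (Ak k)) :
    c ∈ SU T n f lam ψ Q ty B := by
  have hA := kil_Ak k
  have h1 := xsc_Z1 hB fun ι => (hc ι).z1
  refine ⟨h1, fun w a0 a1 a2 a3 σ hσ => xsc_sep hB fun ι => (hc ι).unr w a0 a1 a2 a3 σ hσ,
    fun w hw => ?_, KumC.of_sep hA.two (fun ι : B →ₗ[Lam] Ak k => ι.toAddMonoidHom)
      (fun x hx => PA.frob_cog hB hx) fun ι => (hc ι).kum,
    fun w hw => xsc_cond hB fun ι => (hc ι).dp w hw⟩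
  obtain ⟨l, hl⟩ := lur_iff T hw
  refine (hl h hB (h1.1.lo_mono inf_le_left)).2 (PA.frob_cog hB fun ι => ?_)
  rw [map_sub, map_smul, map_smul]
  exact (hl h hA ((hc ι).z1.1.lo_mono inf_le_left)).1 ((hc ι).lur w hw)

theorem xsc_SM [Finite B] (h : SOk0 T n f k lam ψ Q) (hB : Kil k B)
    (hc : ∀ ι : B →ₗ[Lam] Ak k, (fun g i => ι (c g i)) ∈ SM T n f lam ψ Q ty (Ak k)) :
    c ∈ SM T n f lam ψ Q ty B :=
  ⟨xsc_SU h hB fun ι => (hc ι).1, xsc_sep hB fun ι => (hc ι).2⟩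

theorem SOk0.wk_SS (h : SOk0 T n f k lam ψ Q) {I : Ideal Lam} (hI : aa k k ≤ I) :
    Wk (SS T n f lam ψ k Q ty) I = resK n _ '' SM T n f lam ψ Q ty (Lam ⧸ I) := by
  have := finite_quot hI
  ext c
  constructor
  · intro hc
    refine ⟨fun g => if hg : g ∈ GK n then c ⟨g, hg⟩ else 0,
      xsc_SM h (kil_quot hI) fun ι => ?_, funext fun g => dif_pos g.2⟩
    obtain ⟨d, hd, e⟩ := hc ι
    refine (congrArg (· ∈ SM T n f lam ψ Q ty (Ak k)) (funext fun g => ?_)).mpr hd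
    by_cases hg : g ∈ GK n
    · rw [dif_pos hg]
      exact (congrFun e ⟨g, hg⟩).symm
    · rw [dif_neg hg, xsc_out hd hg]
      exact funext fun i => map_zero ι
  · rintro ⟨d, hd, rfl⟩ ι
    exact ⟨_, SM_map ι hd, rfl⟩

theorem SOk0.card_wk (h : SOk0 T n f k lam ψ Q) {I : Ideal Lam} (hI : aa k k ≤ I) :
    Nat.card (Wk (SS T n f lam ψ k Q ty) I) = Nat.card (SM T n f lam ψ Q ty (Lam ⧸ I)) := by
  rw [h.wk_SS hI]
  exact Nat.card_image_of_injOn xsc_injOn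

theorem SOk.card_wk (h : SOk T n f k lam ψ Q) {ty : Plc → Ty} {I : Ideal Lam} (hI : aa k k ≤ I) :
    Nat.card (Wk (SS T n f lam ψ k Q ty) I) = Nat.card (SM T n f lam ψ Q ty (Lam ⧸ I)) :=
  h.sok0.card_wk hI

end Pool.Agent.B6.B7.C5
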