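import Pool.Agent.Lib.MP_696deb_nt.B10.CW

/-! The unit lemma for towers with split primes. -/

set_option autoImplicit false

open scoped NNReal
open Finset Matrix NumberTheorySymbols

namespace Pool.Agent.B6.B7.C5

open Pool.Agent.Lib.MP_696deb_nt Pool.Agent.Lib.MP_696deb_nt.B2 Pool.Agent.Lib.MP_696deb_nt.B6

variable [Md]

variable {n k : ℕ} {S : HS n} {T : Tate} {lam : Tp} {w : Plc} {f d : ℤ} {z g : Gam} {P : EE}

theorem y_EN (Y : ES S d) (hn : Nok n) (hd : d ∣ 2) {c : ℕ} (hc : S.Ad c) (a : S.C c) :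
    Y.y c a ∈ EN := fun g hg => by
  have := Y.gal' c hc g (hn.IN_le hg) a
  rwa [tw, chi_IN hd hg, Units.val_one, one_smul, S.ψ_IN hn hc hg, one_mul] at this

theorem D_EN (Y : ES S d) (hn : Nok n) (hd : d ∣ 2) {c : ℕ} (hc : S.Ad c) (ε : ℕ → ℤˣ) :
    Y.D c ε ∈ EN := sum_mem fun a _ => y_EN Y hn hd hc a

theorem chi_N (hd : d ∣ 2) (hk : 1 ≤ k) (hz : z ∈ HS.N S T k lam f) : chi d z = 1 :=
  chi_rho T hd (by omega) hz.2.1

theorem y_N (Y : ES S d) (hd : d ∣ 2) (hk : 1 ≤ k) (hl : S.Ad lam.c) (hz : z ∈ HS.N S T k lam f)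
    {c : ℕ} (hc : c ∣ lam.c) (a : S.C c) : z • Y.y c a = Y.y c a := by
  have := Y.gal' _ (S.of_dvd hl hc) z hz.1 a
  rwa [tw, chi_N hd hk hz, Units.val_one, one_smul, ← S.pr_ψ' _ _ hl hc z hz.1, hz.2.2.1 hl,
    map_one, one_mul] at this

theorem D_N (Y : ES S d) (hd : d ∣ 2) (hk : 1 ≤ k) (hl : S.Ad lam.c) (hz : z ∈ HS.N S T k lam f)
    {c : ℕ} (hc : c ∣ lam.c) (ε : ℕ → ℤˣ) : z • Y.D c ε = Y.D c ε := by
  rw [ES.D, smul_sum]
  exact sum_congr rfl fun a _ => y_N Y hd hk hl hz hc a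

theorem N_one (hz : z ∈ HS.N S T k lam f) : z ∈ HS.N S T k lam 1 :=
  ⟨hz.1, hz.2.1, hz.2.2.1, by simpa using chi_sq 1 z⟩

/-- The Kummer cocycle of a point that is not divisible by two does not vanish on `N`. -/
theorem unit_ne (hn : Nok n) (hl : S.Ad lam.c) (hP : P ∈ EN) (ho : Od P)
    (hN : ∀ z ∈ HS.N S T k lam 1, z • P = P) {R : EE} (hR : 2 • R = P) :
    ∃ z ∈ HS.N S T k lam f, z • R - R ≠ 0 := by
  have k0 : ∀ x : V2, T.i2 x = 0 → x = 0 := fun x e => T.inj 1 (e.trans (map_zero _).symm)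
  obtain ⟨z, hz, e⟩ := HS.unit hn hl hP ho hN hR ![1, 0]
  obtain ⟨u, hu, e'⟩ := HS.unit hn hl hP ho hN hR ![0, 1]
  rcases Int.units_eq_one_or (chi f z) with h | h
  · exact ⟨z, ⟨hz.1, hz.2.1, hz.2.2.1, h⟩, fun h => absurd (k0 _ (e.symm.trans h)) (by decide)⟩
  rcases Int.units_eq_one_or (chi f u) with h' | h'
  · exact ⟨u, ⟨hu.1, hu.2.1, hu.2.2.1, h'⟩, fun h => absurd (k0 _ (e'.symm.trans h)) (by decide)⟩
  have hzu := mul_mem hz hu
  exact ⟨z * u, ⟨hzu.1, hzu.2.1, hzu.2.2.1, by rw [map_mul, h, h', neg_mul_neg, one_mul]⟩,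
    fun h => absurd (k0 _ ((kum_mul T (T.r2_of (by omega) hz.2.1) e.symm e'.symm).trans h))
      (by decide)⟩

/-- At most deep places the Kummer cocycle of a point that is not divisible by two is a unit. -/
theorem often_un (hn : Nok n) (hl : S.Ad lam.c) (hP : P ∈ EN) (ho : Od P)
    (hN : ∀ z ∈ HS.N S T k lam 1, z • P = P) : HS.Often S T k lam f fun w => T.Un P (fq w) := by
  obtain ⟨R, rfl⟩ := exists_half P
  have r1 : ∀ z ∈ HS.N S T k lam f, T.r2 z = 1 := fun z hz => T.r2_of (by omega) hz.2.1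
  obtain ⟨c, hc⟩ : ∃ c : EE → V2, ∀ x, c (T.i2 x) = x :=
    ⟨_, Function.leftInverse_invFun (f := T.i2) (T.inj 1)⟩
  have ex : ∀ z ∈ HS.N S T k lam f, ∃ x, T.i2 x = z • R - R := fun z hz =>
    T.surj_i2 _ (by rw [smul_sub, smul_comm, hN z (N_one hz), sub_self])
  refine ⟨1, fun g => c (g • R - R) 1, (sm_pt _ R).comp fun Q => c (Q - R) 1,
    fun g hg u hu => ?_, ?_, fun w hw h => ?_⟩
  · obtain ⟨x, hx⟩ := ex g hg
    obtain ⟨y, hy⟩ := ex u hu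
    simp only [← kum_mul T (r1 g hg) hx hy, ← hx, ← hy, hc]
    rfl
  · by_contra! h0
    obtain ⟨z, hz, e⟩ := unit_ne (f := f) hn hl hP ho hN rfl
    obtain ⟨x, hx⟩ := ex z hz
    obtain ⟨y, hy⟩ := T.surj_i2 (z • cc • R - cc • R) (by
      rw [smul_sub, ← smul_comm z, ← smul_comm cc, sub_eq_zero]
      conv_rhs => rw [← hN _ (N_one (HS.N_cc hz)), ← mul_smul, ← mul_assoc, ← mul_assoc, cc_mul_cc,
        one_mul, mul_smul])
    have key : ∀ g ∈ IN, Rl (T.r2 g) x y := fun g hg => by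
      have h1 := kum_conj T (r1 z hz) (hP _ (inv_mem hg)) hx
      have h2 := kum_conj T (g := g) (R := cc • R) (r1 z hz)
        (by rw [← smul_comm cc]; exact EN_smul hP cc _ (inv_mem hg)) hy
      have h3 : T.i2 (T.r2 cc *ᵥ T.r2 g *ᵥ y) = (cc * (g * z * g⁻¹) * cc) • R - R := by
        rw [← T.smul_i2, h2, smul_sub, smul_smul cc cc, cc_mul_cc, one_smul, smul_smul, smul_smul]
      have h4 := h0 _ (HS.N_conj hz g)
      simp only [← h1, ← h3, hc, T.r2_cc] at h4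
      simpa [Rl, mulVec, dotProduct] using h4
    obtain ⟨w, v, s, t, H⟩ := T.exists_tv
    obtain ⟨h1, h2, h3⟩ := H.ord2
    have hs := ine_le_IN H.wN H.hs.1
    have ht := ine_le_IN H.vN H.ht.1
    refine e (hx.symm.trans ?_)
    rw [rz_of h1 h2 h3 x y ⟨map_one T.r2 ▸ key 1 (one_mem _), key s hs, key t ht,
      map_mul T.r2 s t ▸ key _ (mul_mem hs ht), map_mul T.r2 t s ▸ key _ (mul_mem ht hs)⟩,
      map_zero]
  · obtain ⟨x, hx⟩ := ex _ hw.fq_mem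
    exact T.un_of (r1 _ hw.fq_mem) hx.symm (by simpa only [← hx, hc] using h)

theorem exists_unit (ch : ChebStmt) (Y : ES S d) (hn : Nok n) (hd : d ∣ 2) (hk : 1 ≤ k)
    (hl : S.Ad lam.c) {c : ℕ} (hc : c ∣ lam.c) {ε : ℕ → ℤˣ} (ho : Od (Y.D c ε)) :
    ∃ w, HS.Dp S T k lam f w ∧ T.Un (Y.D c ε) (fq w) := by
  have := often_un (T := T) (k := k) (f := f) hn hl (D_EN Y hn hd (S.of_dvd hl hc) ε) ho
    fun _ hz => D_N Y hd hk hl hz hc ε
  obtain ⟨w, h1, h2, -⟩ := HS.Often.exists ch hn hl this this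
  exact ⟨w, h1, h2⟩

end Pool.Agent.B6.B7.C5
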