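import Pool.Agent.Lib.MP_696deb_nt.B7.XA
import Pool.Agent.Lib.MP_696deb_nt.B10.CX
import Pool.Agent.Lib.MP_696deb_nt.B10.CSd

/-! The data of the patching argument at one level. -/

set_option autoImplicit false

open scoped NNReal Classical
open Finset Matrix NumberTheorySymbols PowerSeries

namespace Pool.Agent.B6.B7.C5

open Pool.Agent.Lib.MP_696deb_nt Pool.Agent.Lib.MP_696deb_nt.B2 Pool.Agent.Lib.MP_696deb_nt.B6

variable [Md]

variable {T : Tate} {n k : ℕ} {f : ℤ} {lam : Tp} {w : Plc} {ψ : Gam → Lam} {Q : Finset Plc} {g : Gam}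
  {ty ty' : Plc → Ty}

section

variable {S : HS n} {e : ℤ}

theorem xa_z1 (h : HS.Tw S k lam (od f)) (hf : Fok n f) (c : Chr0 f n k lam (HS.psf S.toHS k lam f e)) :
    ∃ z : GK n, actK T c z = (1 + X : Lam) • 1 ∧ (1 + X : Lam) • actK T c (thK n z) = 1 ∧
      ∀ g : GK n, z * g * z⁻¹ * g⁻¹ ∈ (HS.N S T k lam f).subgroupOf (GK n) := by
  obtain ⟨z, hz, e1, e2⟩ := tw_z h hf e
  have m := h.adp.ine hz.1
  have r := T.unr _ h.adp.nd30 z hz.1
  refine ⟨⟨z, m⟩, by rw [actK_apply, mA_eq, e1, r, Matrix.map_one _ (map_zero _) (map_one _)], ?_,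
    fun g => HS.comm_N (c := 1) m (by rw [r, one_smul]) g.2⟩
  rw [actK_apply, thK_coe, mA_eq, map_mul, map_mul, r, mul_one, ← map_mul, cc_mul_cc, map_one,
    Matrix.map_one _ (map_zero _) (map_one _), smul_smul]
  ext i j
  exact ((kil_Ak k).congr e2 _).trans (one_smul _ _)

theorem xa_fl (h : HS.Tw S k lam (od f)) (c : Chr0 f n k lam ψ) :
    IsUnit (actK T c (toK n (fq lam.pl)) - 1).det := by
  have o := h.adp.out (fr_spec lam.pl)
  rw [actK_apply, toK_coe n (show fq lam.pl ∈ GK n from mul_mem_GK o o),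
    mA_one (g := fq lam.pl) (c.dih _ o),
    ← map_one (cA k).mapMatrix, ← map_sub, ← RingHom.map_det]
  exact (h.unit_fq T).map _

theorem xa_IN (hn : Nok n) (hl : S.Ad lam.c) (hg : g ∈ IN) :
    mA T (HS.psf S.toHS k lam f e) k g = ((chi f g : ℤ) : Lam) • (cA k).mapMatrix (T.ρ g) := by
  rw [mA_eq, psf_IN hn hl hg]
  rfl

/-- The sign of the twist can be removed. -/
theorem xa_sign (hn : Nok n) (hl : S.Ad lam.c) (hg : g ∈ IN) :
    ∃ u ∈ IN, mA T (HS.psf S.toHS k lam f e) k u = (cA k).mapMatrix (T.ρ g) := by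
  rcases Int.units_eq_one_or (chi f g) with h | h
  · exact ⟨g, hg, by rw [xa_IN hn hl hg, h, Units.val_one, Int.cast_one, one_smul]⟩
  obtain ⟨z, h0, -, h2, -, h3, -⟩ := exists_scalar (S := S) (T := T) (k := k) (f := f) hn hl
  refine ⟨g * z, mul_mem hg h0, ?_⟩
  rw [xa_IN hn hl (mul_mem hg h0), map_mul, map_mul, map_mul, h, h3, xa_neg h2]
  simp

theorem xa_un (hn : Nok n) (hl : S.Ad lam.c)
    (c : Chr0 f n k lam (HS.psf S.toHS k lam f e)) : ∃ u : Fin 2 → GK n,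
    (∀ v, (actK T c (u v) - 1) * (actK T c (u v) - 1) = 0) ∧
    IsUnit ((actK T c (u 0) - 1) * (actK T c (u 1) - 1)).trace ∧
    ∀ v, actK T c (thK n (u v)) = sw _ * actK T c (u v) * sw _ := by
  obtain ⟨w, v, s, t, h⟩ := T.exists_tv
  obtain ⟨s', i0, a0⟩ := xa_sign (T := T) (S := S) (k := k) (f := f) (e := e) hn hl
    (ine_le_IN h.wN h.hs.1)
  obtain ⟨t', i1, a1⟩ := xa_sign (T := T) (S := S) (k := k) (f := f) (e := e) hn hl
    (ine_le_IN h.vN h.ht.1)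
  have sq : ∀ (w : Plc) g (hw : w.p ∣ NN) (hg : g ∈ Ine w),
      ((cA k).mapMatrix (T.ρ g) - 1) * ((cA k).mapMatrix (T.ρ g) - 1) = 0 := fun w g hw hg => by
    rw [← map_one (cA k).mapMatrix, ← map_sub, ← map_mul, T.unip hw hg, map_zero]
  have th : ∀ g (hg : g ∈ IN), actK T c (thK n ⟨g, hn.IN_le hg⟩) =
      sw _ * actK T c ⟨g, hn.IN_le hg⟩ * sw _ := fun g hg => by
    rw [actK_apply, actK_apply, thK_coe, xa_IN hn hl hg, xa_IN hn hl (IN_cc hg), la_chi_cj,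
      map_mul, map_mul, map_mul, map_mul, cA_sw T, Matrix.mul_smul, Matrix.smul_mul]
  refine ⟨![⟨s', hn.IN_le i0⟩, ⟨t', hn.IN_le i1⟩], Fin.forall_fin_two.2 ⟨?_, ?_⟩, ?_,
    Fin.forall_fin_two.2 ⟨th s' i0, th t' i1⟩⟩
  · rw [cons_val_zero, actK_apply, a0]
    exact sq w s h.wN h.hs.1
  · rw [cons_val_one, cons_val_zero, actK_apply, a1]
    exact sq v t h.vN h.ht.1
  refine (congrArg IsUnit ?_).mp (h.tr.map (cA k))
  rw [cons_val_zero, cons_val_one, cons_val_zero, actK_apply, actK_apply, a0, a1,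
    ← map_one (cA k).mapMatrix, ← map_sub, ← map_sub, ← map_mul, RingHom.mapMatrix_apply,
    ← AddMonoidHom.map_trace (cA k)]

theorem xa_scalar (hn : Nok n) (hl : S.Ad lam.c)
    (c : Chr0 f n k lam (HS.psf S.toHS k lam f e)) : ∃ z : GK n, actK T c z = (-1 : Ak k) • 1 ∧
      ∀ g : GK n, z * g * z⁻¹ * g⁻¹ ∈ (HS.N S T k lam f).subgroupOf (GK n) := by
  obtain ⟨z, h0, h1, h2, -, h3, h4⟩ := exists_scalar (S := S) (T := T) (k := k) (f := f) hn hl
  refine ⟨⟨z, h1⟩, ?_, fun g => h4 g g.2⟩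
  rw [actK_apply, xa_IN hn hl h0, h3, xa_neg h2]
  simp

end

theorem SOk.fq_mem (h : SOk T n f k lam ψ Q) (hw : w ∈ Q) : fq w ∈ GK n :=
  (h.deep w hw).adm.tm'.mem

theorem SOk.gn_mem (h : SOk T n f k lam ψ Q) (hw : w ∈ Q) : gn w ∈ GK n :=
  (h.deep w hw).adm.tm'.τ_mem.1

section

variable {B : Type} [AddCommGroup B] [Module Lam B] {c : Gam → Fin 2 → B}

/-- An unramified condition can be dropped. -/
theorem SOk0.xb_insert (h : SOk0 T n f k lam ψ (insert w Q)) (hB : Kil k B) (hw : w ∉ Q)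
    (h1 : ty' w = .ur) (h2 : ∀ v ∈ Q, ty' v = ty v) :
    InSU T n f lam ψ (insert w Q) ty' c ↔ InSU T n f lam ψ Q ty c := by
  have hw' := mem_insert_self w Q
  have d := h.deep w hw'
  have t := d.adm.tm'
  have ha := h.chr.act0 T hB
  refine ⟨fun a => ⟨a.z1, fun v b1 b0 b2 b3 σ hσ => ?_, a.lur, a.kum,
    fun v hv => h2 v hv ▸ a.dp v (mem_insert_of_mem hv)⟩, fun a => ⟨a.z1,
      fun v b1 b0 b2 b3 => a.unr v b1 b0 b2 fun u hu => b3 u (mem_insert_of_mem hu), a.lur, a.kum,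
      fun v hv => ?_⟩⟩
  · by_cases e : v.p = w.p
    · have b4 := a.dp w hw'
      rw [h1] at b4
      have a1 := a.z1.1
      obtain ⟨g, hg, rfl⟩ := conj_of_inert e (fr_spec w).1 d.adm.fr_notMem
      have b5 : g⁻¹ * σ * g ∈ Ine w := mem_Ine_smul.1 hσ.2
      have b6 := t.ine_le b5
      have b7 : c (g⁻¹ * σ * g) = 0 :=
        (h.chr.ta T hB t).zero_ine (a1.lo_mono inf_le_left) b4.2 b5
      have b8 : σ = g * ((g⁻¹ * σ * g) * g⁻¹) := by group
      rw [b8, a1.2 g hg _ (mul_mem b6.1 (inv_mem hg)), a1.2 _ b6.1 _ (inv_mem hg), b7, zero_add,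
        h.triv hB hw' b6, ← a1.2 g hg _ (inv_mem hg), mul_inv_cancel, lf_one ha a1]
    · refine a.unr v b1 b0 b2 (fun u hu => ?_) σ hσ
      rcases mem_insert.1 hu with rfl | hu
      · exact e
      · exact b3 u hu
  · rcases mem_insert.1 hv with rfl | hv
    · rw [h1]
      refine ⟨trivial, a.unr v d.adm.nd30 (h.fok.ndf d.adm) d.ne (fun u hu e => hw ?_) _
        ⟨t.τ_mem.1, t.gen.1⟩⟩
      rw [h.inj v hw' u (mem_insert_of_mem hu) e]
      exact hu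
    · rw [h2 v hv]
      exact a.dp v hv

end

theorem SOk.xb_inf (h : SOk T n f k lam ψ Q) (hw : w ∈ Q) (h1 : ty' w = .rel)
    (h2 : ∀ v ∈ Q, v ≠ w → ty' v = ty v) {W : Submodule Lam (GK n → Fin 2 → Ak k)}
    (hW : ∀ c, c ∈ W ↔ (c (toK n (fq w)), c (toK n (gn w))) ∈ (ty w).cond (Ak k)) :
    SS T n f lam ψ k Q ty = SS T n f lam ψ k Q ty' ⊓ W := by
  ext c
  rw [Submodule.mem_inf, hW]
  refine ⟨?_, ?_⟩
  · rintro ⟨c, hc, rfl⟩
    rw [resK_toK c (h.fq_mem hw), resK_toK c (h.gn_mem hw)]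
    exact ⟨⟨c, ((xb_set hw h1 h2).1 hc).1, rfl⟩, ((xb_set hw h1 h2).1 hc).2⟩
  · rintro ⟨⟨c, hc, rfl⟩, k2⟩
    rw [resK_toK c (h.fq_mem hw), resK_toK c (h.gn_mem hw)] at k2
    exact ⟨c, (xb_set hw h1 h2).2 ⟨hc, k2⟩, rfl⟩

theorem SOk.xb_ur (h : SOk T n f k lam ψ (insert w Q)) (hw : w ∉ Q) (h1 : ty' w = .rel)
    (h2 : ∀ v ∈ Q, ty' v = ty v) :
    SS T n f lam ψ k Q ty = SS T n f lam ψ k (insert w Q) ty' ⊓ Van k (toK n (gn w)) := by
  rw [← h.xb_inf (ty := Function.update ty w .ur) (mem_insert_self w Q) h1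
    (fun v hv e => by rw [Function.update_of_ne e, h2 v ((mem_insert.1 hv).resolve_left e)])
    fun c => by simp [mem_Van, Ty.cond]]
  refine congrArg (Submodule.map _) (Submodule.ext fun c => ?_)
  rw [mem_SM, mem_SM, h.sok0.xb_insert (kil_Ak k) hw (Function.update_self ..)
    fun v hv => Function.update_of_ne (ne_of_mem_of_not_mem hv hw) ..]

theorem SOk.xb_lag (h : SOk T n f k lam ψ {w}) : SS T n f lam ψ k {w} (fun _ => .lag) =
    SS T n f lam ψ k {w} (fun _ => .rel) ⊓ Lag k (toK n (fq w)) (toK n (gn w)) :=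
  h.xb_inf (mem_singleton_self w) rfl (fun _ hv e => absurd (mem_singleton.1 hv) e) fun _ => Iff.rfl

variable {S : HS n}

theorem exists_lev (sl : SLStmt) (F : CFT) (su : SUStmt) (ch : ChebStmt) (hn : Nok n) (hf : Fok n f)
    (h : HS.Tw S k lam (od f)) (e : ℤ) {w₀ : Plc} (h0 : HS.Dp S T k lam f w₀)
    {κ : Finset Plc → Gam → Fin 2 → Ak k} {x : Lam}
    (k1 : ∀ Q, HS.DpS S T k lam f Q → κ Q ∈ SU T n f lam (HS.psf S.toHS k lam f e) Q (fun _ => .tr) (Ak k))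
    (k2 : ∀ Q w, w ∉ Q → HS.DpS S T k lam f (insert w Q) → κ (insert w Q) (gn w) = sw _ *ᵥ κ Q (fq w))
    (hx : Ideal.Quotient.mk _ x = κ ∅ (fq w₀) 1) :
    ∃ L : Lev (GK n) (thK n) 4 k,
      L.SF = SS T n f lam (HS.psf S.toHS k lam f e) k {w₀} (fun _ => .lag) ∧
      L.S L.n0 = SS T n f lam (HS.psf S.toHS k lam f e) k ∅ (fun _ => .tr) ∧ L.h = x ∧
      ∀ σ ∈ L.N, ↑σ ∈ HS.N S T k lam f ∧ L.kap L.n0 σ = κ ∅ σ := by
  have hA := kil_Ak k
  have ok : ∀ {Q}, HS.DpS S T k lam f Q → SOk T n f k lam (HS.psf S.toHS k lam f e) Q :=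
    fun hQ => tw_sok h hn hf hQ e
  have d0 := HS.dpS_empty S T k lam f
  have o0 := ok d0
  have o1 := ok h0.dpS
  have c0 := o0.chr.toChr0
  obtain ⟨z1, z1a, z1b, z1c⟩ := xa_z1 (T := T) h hf c0
  obtain ⟨z2, z2a, z2b⟩ := xa_scalar (T := T) hn h.adm c0
  obtain ⟨un, u1, u2, u3⟩ := xa_un (T := T) hn h.adm c0
  choose y hy using fun Q : {Q // HS.DpS S T k lam f Q} => (ok Q.2).sok0.norm hA (k1 Q Q.2)
  have kN : ∀ Q, ∀ g ∈ HS.N S T k lam f, (κ Q.1 -
      rs (GK n) (cob (act T (HS.psf S.toHS k lam f e) (Ak k)) (y Q))) g = κ Q.1 g := fun Q g hg => by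
    rw [Pi.sub_apply, rs_of_mem (HS.N_le hg), cob, HS.act_N h.adm hg e hA, sub_self, sub_zero]
  refine ⟨{
    act := actK T c0
    N := (HS.N S T k lam f).subgroupOf (GK n)
    normal := ⟨fun σ hσ g => HS.N_conj hσ g⟩
    θN := fun σ hσ => HS.N_cc hσ
    actN := fun σ hσ => xa_ext fun y => by
      rw [actK_apply, mA_mulVec, one_mulVec]
      exact HS.act_N h.adm hσ e hA y
    z1 := z1, act_z1 := z1a, act_θz1 := z1b, z1_comm := z1c, z2 := z2, d := -1, act_z2 := z2a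
    d_dvd := ⟨-8, by norm_num⟩
    z2_comm := z2b
    fl := toK n (fq lam.pl), fl_det := .of_unit _ (xa_fl h c0)
    un := un, un_sq := u1, un_tr := .of_unit _ u2, un_θ := u3
    St := {Q // HS.DpS S T k lam f Q}
    S := fun Q => SS T n f lam (HS.psf S.toHS k lam f e) k Q fun _ => .tr
    kap := fun Q => resK n _ (κ Q.1 - rs (GK n) (cob (act T (HS.psf S.toHS k lam f e) (Ak k)) (y Q)))
    kap_mem := fun Q => ⟨_, hy Q, rfl⟩
    coc := ?_, van := ?_, step := ?_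
    n0 := ⟨∅, d0⟩
    S0 := SS T n f lam (HS.psf S.toHS k lam f e) k {w₀} fun _ => .rel
    φ0 := toK n (fq w₀), s0 := toK n (gn w₀)
    fin0 := ?_
    S_n0 := SOk.xb_ur (Q := ∅) o1 (notMem_empty _) rfl (by simp)
    iso0 := o1.sok0.isoW sl F (mem_singleton_self _) fun _ hv e => absurd (mem_singleton.1 hv) e
    h := x, kap_h := ⟨1, .of_unit _ isUnit_one, ?_⟩, sq := ?_ }, o1.xb_lag.symm, rfl, rfl,
      fun σ hσ => ⟨hσ, kN ⟨∅, d0⟩ _ hσ⟩⟩
  · rintro Q _ ⟨c, hc, rfl⟩ g g'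
    rw [actK_apply, mA_mulVec]
    exact hc.1.z1.1.2 g g.2 g' g'.2
  · rintro Q _ ⟨c, hc, rfl⟩
    rw [resK_toK c h.adp.tm'.mem]
    exact hc.2
  · intro Q σ hσ
    have oQ := ok Q.2
    have := (sel_finite F su ch oQ.sok0 hA (ty := fun _ => .tr)).2
    obtain ⟨w, u, w1, w2, w3, w4⟩ := HS.exists_dp ch hn h.adm (m := k)
      (A := SM T n f lam (HS.psf S.toHS k lam f e) Q (fun _ => .tr) (Ak k) → Fin 2 → Ak k)
      (fun y => funext fun c => hA.two' _) (c := fun g c => c.1 g)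
      (Sm.pi fun c => c.2.1.z1.1.1) (fun g hg g' hg' => funext fun c =>
        (c.2.1.z1.1.2 g (HS.N_le hg) g' (HS.N_le hg')).trans
          (by rw [HS.act_N h.adm hg e hA]; rfl)) hσ (Q.1.image Plc.p)
    have nq : ∀ v ∈ Q.1, v.p ≠ w.p := fun v hv e => w1 (mem_image.2 ⟨v, hv, e⟩)
    have nw : w ∉ Q.1 := fun hw => nq w hw rfl
    have dq : HS.DpS S T k lam f (insert w Q.1) := ⟨forall_mem_insert .. |>.2 ⟨w3, Q.2.dp⟩, by
      intro v hv v' hv' e
      rcases mem_insert.1 hv with e1 | e1 <;> rcases mem_insert.1 hv' with e2 | e2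
      exacts [e1.trans e2.symm, absurd (e1 ▸ e.symm) (nq _ e2), absurd (e2 ▸ e) (nq _ e1),
        Q.2.inj _ e1 _ e2 e]⟩
    have oq := ok dq
    have mw := mem_insert_self w Q.1
    have ht : ∀ v ∈ insert w Q.1, v ≠ w → Function.update (fun _ => Ty.tr) w .rel v = .tr :=
      fun v _ e => Function.update_of_ne e ..
    refine ⟨⟨_, dq⟩, SS T n f lam (HS.psf S.toHS k lam f e) k (insert w Q.1)
      (Function.update (fun _ => .tr) w .rel), toK n (fq w), toK n (gn w), u, 1, 1,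
      by rw [Subgroup.mem_subgroupOf, toK_coe n (oq.gn_mem mw)]; exact dp_gn w3 hf,
      oq.xb_ur nw (Function.update_self ..) fun v hv => ht v (mem_insert_of_mem hv)
        (ne_of_mem_of_not_mem hv nw),
      oq.xb_inf mw (Function.update_self ..) ht fun c => by simp [mem_Van, Ty.cond],
      .of_unit _ ?_, .of_unit _ isUnit_one, .of_unit _ isUnit_one, ?_, ?_, ?_,
      fun y hy => ⟨oq.sok0.isoW sl F mw ht y hy,
        (oq.sok0.coW F su ch mw (Function.update_self ..) ht).of_dvd (one_dvd _)⟩⟩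
    · have : IsUnit (u : ℤ_[2]) := by
        rw [PadicInt.isUnit_iff, PadicInt.norm_natCast_eq_one_iff]
        exact Nat.coprime_two_left.2 w2
      exact map_natCast (cA k) u ▸ this.map (cA k)
    · rintro _ ⟨c, hc, rfl⟩
      rw [resK_toK c (oq.fq_mem mw), Nat.cast_smul_eq_nsmul]
      exact congrFun w4 ⟨c, hc⟩
    · rintro _ ⟨c, hc, rfl⟩
      rw [resK_toK c (oq.gn_mem mw)]
      exact (congrArg (fun g => c (cc * g * cc)) (toK_coe n (oq.gn_mem mw))).trans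
        (oq.sok0.conj_deep hA mw hc.1.z1.1).2
    · rw [one_smul, one_smul, resK_toK _ (oq.gn_mem mw), resK_toK _ (oq.fq_mem mw),
        kN _ _ (dp_gn w3 hf), kN _ _ w3.fq_mem, k2 _ _ nw dq]
  · have := (sel_finite F su ch o1.sok0 hA (ty := fun _ => .rel)).2
    exact Finite.of_surjective _ (LinearMap.submoduleMap_surjective _ _)
  · rw [resK_toK _ (o1.fq_mem (mem_singleton_self _)), kN _ _ h0.fq_mem, hx, one_mul]
  · rw [← o1.xb_lag, o1.card_wk le_sup_left, card_SS]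
    exact o1.sok0.sq_lag F su ch

end Pool.Agent.B6.B7.C5
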