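import Pool.Agent.Lib.MP_696deb_nt.B10.C0
import Pool.Agent.Lib.MP_696deb_nt.B7.CMg
import Pool.Agent.Lib.MP_696deb_nt.B2.MCF

/-! The Euler systems of Heegner points whose conductors contain split primes. -/

set_option autoImplicit false

open scoped Classical NumberTheorySymbols

namespace Pool.Agent.B6.B7.C5

open Pool.Agent.Lib.MP_696deb_nt Pool.Agent.Lib.MP_696deb_nt.B2 Pool.Agent.Lib.MP_696deb_nt.B2.CM
open Pool.Agent.B4 (nn hs_nu hs_gen hs_unr hs_fib Nw)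
open Pool.Agent.Lib.MP_696deb_nt.B3 (odp odp_odd)
open Pool.Agent.Lib.MP_696deb_nt.B3.CM (Gd th kc_odd gd_odd fs)
open Pool.Agent.B6.CM (yA tz tr_map sum_tr tr_trace tr_kron cc_yA)
open Dn

section
variable {n c d l : ℕ} {w : Plc} {g τ : Gam}

theorem cm_unr (F : CFT) (hn : Nw n) (ok : Ok n c) (hw : ¬ w.p ∣ c) (hg : g ∈ GK n ⊓ Ine w) :
    psi n c g = 1 := by
  have := hn.fin c
  by_cases h : w.p ∣ n
  · exact tq_rho_ram ok hn.sqf h hg
  by_cases k : ∃ s ∈ Dec w, s ∉ GK n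
  · obtain ⟨s, hs, hs'⟩ := k
    by_contra k
    obtain ⟨m, θ, -, h2⟩ := exists_char CM.tw_two ⊥ (a := psi n c g) k
    exact h2 (unr_inert F ok (θ.comp (tq _)) h hw hs hs' hg)
  · have h2 : w.p ≠ 2 := fun e => k (hn.two e)
    obtain ⟨φ, hφ⟩ := B2.exists_frob w
    have h3 : φ ∈ GK n := by_contra fun e => k ⟨φ, hφ.1, e⟩
    have h4 : ¬ (w.p : ℤ) ∣ 2 * -n := fun e => by
      rcases (Nat.prime_iff_prime_int.1 w.prime).dvd_mul.1 e with e | e
      · exact h2 ((Nat.prime_dvd_prime_iff_eq w.prime Nat.prime_two).1 (by exact_mod_cast e))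
      · exact h (by exact_mod_cast (dvd_neg.1 e))
    have h5 := chi_frob h4 hφ
    rw [B4c_mem.1 h3] at h5
    obtain ⟨b, k, e, hb⟩ := exists_root_split ok.m4 w.prime h2 h5.symm hw
    rw [psi, rho_ine_split ok e hb hg.2, map_one]

theorem cm_ker (F : CFT) (hn : Nw n) (ok : Ok n c) (h2 : w.p ≠ 2) (hJ : J(-n | w.p) = -1)
    (hc : ¬ w.p ∣ c) (hτ : Gen w τ) :
    (twm (pj n c (c * w.p))).ker = Subgroup.zpowers (psi n (c * w.p) τ) := by
  have ok' := ok_of ok (mul_ne_zero ok.ne w.prime.ne_zero)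
  have hI := cmz_ine h2 hJ
  have := hn.fin (c * w.p)
  refine le_antisymm (fun a h => by_contra fun k => ?_) (Subgroup.zpowers_le.2 ?_)
  · obtain ⟨m, θ, h1, h3⟩ := exists_char CM.tw_two _ k
    obtain ⟨x, hx, rfl⟩ := ker_twm h
    refine h3 (ram_onto F ok (θ.comp (tq _)) h2 hJ hc (fun s hs => h1 _ ?_) hx)
    obtain ⟨j, hj⟩ := tame_gen h2 hτ (π := psi n (c * w.p)) ((sm_rho _ _ _).comp (tq _))
      (fun g hg k hk => psi_mul ok' g (hI hg) k (hI hk)) (fun g _ => CM.tw_two _) hs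
    exact ⟨j, (zpow_natCast _ j).trans hj.symm⟩
  · rw [MonoidHom.mem_ker, pr_psi ok' (dvd_mul_right c w.p)]
    exact cm_unr F hn ok hc ⟨hI hτ.1, hτ.1⟩

theorem cm_fib [Fintype (Tw (Pc n (c * l)))] (F : CFT) (hn : Nw n) (ok : Ok n c) (hl : l.Prime)
    (h2 : l ≠ 2) (hJ : J(-n | l) = -1) (hc : ¬ l ∣ c) {s : ℕ}
    (ν : Tw (Pc n l) →* Multiplicative (ZMod (2 ^ s)))
    (hν : ∀ (w : Plc) (τ : Gam), w.p = l → Gen w τ → IsUnit (ν (psi n l τ)).toAdd)
    (a : Tw (Pc n c)) (x : Multiplicative (ZMod (2 ^ s))) :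
    (Finset.univ.filter fun a' => twm (pj n c (c * l)) a' = a ∧
      ν (twm (pj n l (c * l)) a') = x).card * 2 ^ s = ordProj[2] (l + 1) := by
  obtain ⟨w, rfl⟩ := exists_plc hl
  obtain ⟨τ, hτ⟩ := exists_gen h2
  have ok' := ok_of ok (mul_ne_zero ok.ne w.prime.ne_zero)
  have := hn.fin (c * w.p)
  have h := card_fib_two (twm_surj (pj_surj ok hl h2 hJ hc)) (ν.comp (twm (pj n w.p (c * w.p))))
    (fun y => by
      obtain ⟨u, hu⟩ := (hν w τ rfl hτ).exists_left_inv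
      refine ⟨psi n (c * w.p) τ ^ (y.toAdd * u).val, ?_, Multiplicative.toAdd.injective ?_⟩
      · rw [← MonoidHom.mem_ker, cm_ker F hn ok h2 hJ hc hτ]
        exact Subgroup.npow_mem_zpowers _ _
      · rw [map_pow, MonoidHom.comp_apply, pr_psi ok' (dvd_mul_left _ _), toAdd_pow,
          nsmul_eq_mul, ZMod.natCast_zmod_val, mul_assoc, hu, mul_one]) a x
  rw [card_ker_twm, card_ker_pj ok hl h2 hJ hc, Nat.card_congr Multiplicative.toAdd,
    Nat.card_zmod] at h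
  convert h
  rfl

theorem cm_nu (nu : NUStmt) (F : CFT) (hn : Nw n) (l s : ℕ) :
    ∃ ν : Tw (Pc n l) →* Multiplicative (ZMod (2 ^ s)), (l.Prime → B4.Aw n l →
      2 ^ (s + 1) ∣ l + 1 → (∀ a, a ^ 2 = 1 → ν a = 1) ∧
        ∀ (w : Plc) (τ : Gam), w.p = l → Gen w τ → IsUnit (ν (psi n l τ)).toAdd) ∧
      (l.Prime → 0 < s → l ≡ 1 [MOD 2 ^ (s + 1) * n] → ∀ g ∈ GK n,
        (Odd (ν (psi n l g)).toAdd.val ↔ chi l g = -1)) := by
  by_cases h : l.Prime ∧ 0 < s ∧ l ≡ 1 [MOD 2 ^ (s + 1) * n]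
  · obtain ⟨ν, hν⟩ := nu n l s hn h.1 h.2.1 h.2.2
    refine ⟨ν, fun _ _ k => ?_, fun _ _ _ => hν⟩
    have h4 : 2 ^ 2 ∣ 2 ^ (s + 1) := pow_dvd_pow 2 (by omega)
    have h1 : l % 4 = 1 % 4 := h.2.2.of_dvd (h4.mul_right n)
    have h2 : 4 ∣ l + 1 := h4.trans k
    omega
  · obtain ⟨ν, hν⟩ := hs_nu F hn l s
    exact ⟨ν, hν, fun a b c => absurd ⟨a, b, c⟩ h⟩

theorem cm_tq {G : Type} [CommGroup G] (θ : G →* ℤˣ) {x y : G} (h : tq G x = tq G y) :
    θ x = θ y := by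
  obtain ⟨k, hk, e⟩ := tq_eq_one.1 (show tq G (x / y) = 1 by rw [map_div, h, div_self'])
  have h1 := congrArg θ e
  rw [map_pow, map_one, Int.units_pow_eq_pow_mod_two, Nat.odd_iff.1 hk, pow_one, map_div] at h1
  exact div_eq_one.1 h1

theorem cm_trace [∀ c, Fintype (Pc n c)] {M : Type} [AddCommGroup M] [Fintype (Tw (Pc n d))]
    {u : Pc n c → M} {v : Pc n d → M} {L : M →+ M} (h : ∀ x, fs c d v x = L (u x))
    (a : Tw (Pc n c)) : ∑ a' with twm (pj n c d) a' = a, tz v a' = L (tz u a) := by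
  rw [tz, map_sum, ← Finset.sum_congr rfl fun z _ => h z]
  exact sum_tq_twm v a

theorem cm_gen [∀ c, Fintype (Pc n c)] {M : Type} [AddCommGroup M] [Fintype (Tw (Pc n c))]
    (ok : Ok n c) (T : Finset ℕ) (hT : ∀ l ∈ T, l % 4 = 1 ∧ l ∣ c) (ε : ℕ → ℤˣ) (u : Pc n c → M) :
    ∑ x with (∀ g ∈ GK n, psi n c g = x → ∀ l ∈ T, chi l g = ε l), tz u x =
      ∑ z with (∀ l ∈ T, th n c l z = ε l), u z := by
  simp only [tz]
  rw [Finset.sum_fiberwise_eq_sum_filter]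
  refine Finset.sum_congr (Finset.ext fun z => ?_) fun _ _ => rfl
  have k : ∀ l ∈ T, Gd n c l := fun l hl => gd_odd ok (by have := (hT l hl).1; omega) (hT l hl).2
  simp only [Finset.mem_filter, Finset.mem_univ, true_and]
  refine ⟨fun h l hl => ?_, fun h g hg e l hl => ?_⟩
  · obtain ⟨g, hg, rfl⟩ := rho_surj ok z
    rw [(k l hl).th hg]
    exact h g hg rfl l hl
  · rw [← (k l hl).th hg, cm_tq _ e]
    exact h l hl

end

variable [Md]

theorem cm_stmt (nu : NUStmt) : CMStmt := by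
  intro D G hD ha hM n i1 r f hn hr hf hS
  obtain ⟨F⟩ := m_cft
  have ht : IsOfFinAddOrder (D.par.per.unif D.par.t0) := G5.alm_tors D (s := -1)
    ⟨(B5.al_fricke NN).det, by simp, by simp, by simp⟩ NN_ne dvd_rfl fun z hz => by
      rw [show Lib.MP_696deb_nt.act !![0, -1; (NN : ℤ), 0] z = -1 / (NN * z) by
        simp [act_of, mob], D.par.al z hz]
      push_cast
      ring
  have hU := fun l (hl : l.Prime) (h : l ∣ NN) => md_U D hl (hD l hl h).2
  replace ha : ∀ l : ℕ, al l = D.par.a l := ha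
  generalize D.par = P at *
  have hw := hn.nw
  have i0 := hw.fin
  let i2 : ∀ c, Fintype (Tw (Pc n c)) := fun c => Fintype.ofFinite _
  have ok : OkD NN n 1 r := ⟨hw.ok B4.aw_one, hr, hn.good.cop⟩
  have ok1 := ok.okN (Nat.coprime_one_left _)
  obtain ⟨Ad, hAd⟩ : ∃ Ad : ℕ → Prop, ∀ c, Ad c ↔ Squarefree c ∧
      ∀ l : ℕ, l.Prime → l ∣ c → ¬ l ∣ MM ∧ ¬ l ∣ n ∧ ¬ (l : ℤ) ∣ od f := ⟨_, fun _ => Iff.rfl⟩
  have a0 : ∀ {c c' : ℕ}, Ad c' → c ∣ c' → Ad c := fun h k => (hAd _).2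
    ⟨((hAd _).1 h).1.squarefree_of_dvd k, fun l hl e => ((hAd _).1 h).2 l hl (e.trans k)⟩
  have a1 : ∀ {c : ℕ}, Adm n c → Ad c := fun h => (hAd _).2 ⟨h.1, fun l hl e => by
    have h1 := (h.2 l hl e).2
    refine ⟨(h.2 l hl e).1, fun k => ?_, fun k => ?_⟩
    · rw [jac_zero_of_dvd hl (dvd_neg.2 (Int.natCast_dvd_natCast.2 k))] at h1
      omega
    · have := hf.spl l hl k
      omega⟩
  have okc : ∀ {c : ℕ}, Ad c → OkD NN n c r := fun h => ok.of_ne ((hAd _).1 h).1.ne_zero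
  have odc : ∀ {c : ℕ}, Ad c → ¬ 2 ∣ c := fun h k =>
    (((hAd _).1 h).2 2 Nat.prime_two k).1 ((dvd_mul_right 2 NN).trans dvd_MM)
  have k0 : ∀ {c l : ℕ}, l.Prime → Ad (c * l) → ¬ l ∣ NN ∧ ¬ l ∣ G.M ∧ l ≠ 2 ∧ ¬ l ∣ c ∧
      ¬ (l : ℤ) ∣ od f := fun {c l} hl h => by
    have k := ((hAd _).1 h).2 _ hl (dvd_mul_left _ _)
    exact ⟨fun e => nd_of_MM k.1 (e.mul_left 2), fun e => k.1 (e.trans hM),
      fun e => odc h (e ▸ dvd_mul_left _ _),
      fun e => hl.not_isUnit (((hAd _).1 h).1 l (mul_dvd_mul_right e l)), k.2.2⟩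
  have aJ : ∀ {l : ℕ}, l.Prime → Adm n l → J(-n | l) = -1 := fun hl h => (h.2 _ hl dvd_rfl).2
  have aL : ∀ {c l : ℕ}, Adm n (c * l) → Adm n l := fun h =>
    ⟨h.1.of_mul_right, fun p hp e => h.2 p hp (e.mul_left _)⟩
  choose ν hν hν' using cm_nu nu F hw
  choose θ hθ using hs_gen hw
  have k1 : ∀ e : ℤ, e ∣ n → e % 4 = 1 → ∀ x, θ e (tq _ x) = th n 1 e x := fun e k h4 x => by
    obtain ⟨g, hg, rfl⟩ := rho_surj ok.toOk x
    rw [Gd.th ((kc_odd ok.m4 h4 (by simpa using k)).exists_th ok.toOk) hg]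
    exact hθ e k h4 g hg
  let S0 : B6.HS n := {
    C := fun c => Tw (Pc n c)
    pr := fun c c' => twm (pj n c c')
    ψ := psi n
    y := fun c => tz (yA P n c r)
    ν := ν
    gen := θ
    two := fun _ => CM.tw_two
    sm := fun c _ => (sm_rho _ n c).comp (tq _)
    mul := fun _ h => psi_mul (hw.ok h.aw)
    surj := fun _ h => psi_surj (hw.ok h.aw)
    pr_ψ := fun _ _ h k g _ => pr_psi (hw.ok h.aw) k g
    dih := fun _ h _ hg => by rw [psi, rho_sq (hw.ok h.aw) hg, map_one]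
    unr := fun _ _ h k _ hg => hs_unr F hw h.aw k hg
    gal := fun _ h g hg => tr_map (DistribSMul.toAddMonoidHom EE g) (smul_yA G (okc (a1 h)) hg)
    conj := by
      have e1 := cc_yA G ok1
      refine ⟨tq _ (nn NN n 1 r)⁻¹, Nat.card (oddP (Pc n 1)) • _, IsOfFinAddOrder.nsmul
        ((pmap_injective jC).isOfFinAddOrder_iff.1 (e1 1 ▸ ht)), fun a => ?_⟩
      rw [tz, Finset.smul_sum, Finset.sum_congr rfl fun x _ => eq_sub_of_add_eq
        (pmap_injective jC ((e1 x).trans (e1 1).symm)), Finset.sum_sub_distrib,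
        Finset.sum_const, card_tq_fib, sum_tq_inv (yA P n 1 r) _ a]
      rfl
    trace := fun _ _ hl h a => by
      obtain ⟨-, hJ, hc⟩ := h.aw.mul hl
      rw [ha]
      convert tr_trace (dw_inert G ok hl (k0 hl (a1 h)).1 hJ _ _ (okc (a1 h)).of_mul.ne hc rfl) a
    kron := fun c w _ h hg => by
      obtain ⟨h2, hJ, hc⟩ := h.aw.mul w.prime
      exact tr_kron (okc (a1 h)).of_mul.toOk h2 hJ hc (kron_yA G (okc (a1 h)) rfl
        (k0 w.prime (a1 h)).2.1 (mt (dvd_Δ w.prime).1 (k0 w.prime (a1 h)).1) hJ hc hg)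
    ν_gen := fun w s τ h k hτ => (hν _ s w.prime h.aw k).2 w τ rfl hτ
    ν_ram := fun l s _ hl h k e _ hg =>
      (hν l s hl h.aw k).1 _ (tq_rho_ram_sq (hw.ok h.aw) hw.sqf e hg)
    ν_fib := fun c l s hl h k a x => by
      convert hs_fib F hw hl h.aw (ν l s) (hν l s hl (h.aw.dvd (dvd_mul_left l c)) k).2 a x
    gen_ψ := hθ }
  let S : HS n := {
    toHS := S0
    Ad := Ad
    of_dvd := a0
    of_adm := a1
    ad_mul := fun {c w} h k e => (hAd _).2 ⟨(Nat.squarefree_mul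
      ((Nat.Prime.coprime_iff_not_dvd w.prime).2 e).symm).2 ⟨((hAd _).1 h).1, k.1⟩,
      fun l hl e => (hl.dvd_mul.1 e).elim (((hAd _).1 h).2 l hl) (((hAd _).1 (a1 k)).2 l hl)⟩
    sqf := fun h => ((hAd _).1 h).1
    ndM := fun h hl e => (((hAd _).1 h).2 _ hl e).1
    sm' := fun c _ => (sm_rho _ n c).comp (tq _)
    mul' := fun _ h => psi_mul (okc h).toOk
    surj' := fun _ h => psi_surj (okc h).toOk
    pr_ψ' := fun _ _ h k g _ => pr_psi (okc h).toOk k g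
    dih' := fun c h g hg => show psi n c (g * g) = 1 by rw [psi, rho_sq (okc h).toOk hg, map_one]
    unr' := fun _ _ h k _ hg => cm_unr F hw (okc h).toOk k hg
    ν_fib' := fun c l s hl h h' k a x => by
      convert cm_fib F hw (okc h).of_mul.toOk hl (k0 hl h).2.2.1 (aJ hl h') (k0 hl h).2.2.2.1
        (ν l s) (hν l s hl h'.aw k).2 a x
    ν_spl := hν' }
  have key : ∀ f' : ℤ, Squarefree f' → (∀ l : ℕ, l.Prime → l ∣ odp f' → (l : ℤ) ∣ od f) →
      ∃ Y : ES S f', (Y.y = fun c => tz (yF P r f' c)) ∧ Link Y.toES P.φ r := fun f' hf' hs => by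
    have okf := (ok.of_ne (odp_odd hf').pos.ne').toOk
    have nd : ∀ {c l : ℕ}, l.Prime → Ad (c * l) → ¬ l ∣ odp f' := fun hl h k =>
      (k0 hl h).2.2.2.2 (hs _ hl k)
    have e1 : ∀ c, Ad c → ∀ g ∈ GK n, ∀ a, tw f' g (tz (yF P r f' c) a) =
        tz (yF P r f' c) (psi n c g * a) := fun _ h g hg =>
      (gv_yF G (okc h) hn.m8 hf' (odc h)).tz.tw hg
    have e2 : ∀ c l, l.Prime → Ad (c * l) → Adm n l → ∀ a,
        ∑ a' with twm (pj n c (c * l)) a' = a, tz (yF P r f' (c * l)) a' =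
          al l • tz (yF P r f' c) a := fun c l hl h h' a => by
      obtain ⟨hN, -, h2, hc, -⟩ := k0 hl h
      rw [ha]
      have k : Dw (yF P r f') l _ := (dw_yB okf (dt_dvd f') hl h2
        (dw_inert G ok hl hN (aJ hl h'))).wg okf (gd_mo okf hf' dvd_rfl) hl (nd hl h)
      exact tr_trace (k _ _ (okc h).of_mul.ne hc rfl) a
    have e3 : ∀ c (w : Plc) (φ : Gam), Ad (c * w.p) → Adm n w.p → IsFrob w w.p φ → ∀ a',
        tz (yF P r f' (c * w.p)) a' - ordCompl[2] (w.p + 1) • φ •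
          tz (yF P r f' c) (twm (pj n c (c * w.p)) a') ∈ K1 w := fun c w _ h h' hg => by
      obtain ⟨-, hG, h2, hc, -⟩ := k0 w.prime h
      have hJ := aJ w.prime h'
      exact tr_kron (okc h).of_mul.toOk h2 hJ hc ((kr_yB G ok (dt_dvd f') hG hJ
        hg).wg okf (gd_mo okf hf' dvd_rfl) h2 hJ (nd w.prime h) _ _ (okc h).of_mul.ne hc rfl)
    refine ⟨{
      y := fun c => tz (yF P r f' c)
      gal := fun c h => e1 c (a1 h)
      trace := fun c l hl h a => by convert e2 c l hl (a1 h) (aL h) a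
      kron := fun c w φ h => e3 c w φ (a1 h) (aL h)
      gal' := e1
      trace' := fun c l hl h h' a => by convert e2 c l hl h h' a
      kron' := e3
      spl := fun c w φ h hJ hφ a => by
        obtain ⟨hN, -, h2, hc, -⟩ := k0 w.prime h
        rw [ha]
        have k : Dw (yF P r f') w.p (zsmulAddGroupHom (P.a w.p) - DistribSMul.toAddMonoidHom EE φ -
            DistribSMul.toAddMonoidHom EE φ⁻¹) := (dw_yB okf (dt_dvd f') w.prime h2
          fun d e d0 hd he z => trA_split G (ok.of_ne (he ▸ mul_ne_zero d0 w.prime.ne_zero)) hN he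
            h2 hJ hd hφ z).wg okf (gd_mo okf hf' dvd_rfl) w.prime (nd w.prime h)
        refine Eq.trans ?_ (cm_trace (k _ _ (okc h).of_mul.ne hc rfl) a)
        exact Finset.sum_congr (Finset.ext fun x => by
          simp only [Finset.mem_filter, Finset.mem_univ, true_and]; rfl) fun _ _ => rfl },
      rfl, fun T e hT he h4 => ?_⟩
    rw [← link_yF G (ha 2) ok hw.sqf hn.m8 hf' (Int.isCoprime_iff_gcd_eq_one.2
      (Nat.coprime_of_dvd fun p hp p1 p2 => by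
        have := hf.spl p hp (hs p hp ((mo_spec hf').2.2 ▸ p1))
        rw [jac_zero_of_dvd hp (dvd_neg.2 (Int.natCast_dvd.2 p2))] at this
        omega)) he h4 hT]
    exact congrArg (fun z => pmap jC (ix f' • z)) ((sum_tr (θ e) _).trans
      (Finset.sum_congr rfl fun x _ => by rw [k1 e he h4]))
  have hs : ∀ l : ℕ, l.Prime → l ∣ odp f → J(-n | l) = 1 := fun l hl h =>
    hf.spl l hl ((dvd_odp hf.sqf hl).1 h)
  obtain ⟨Y, y1, y2⟩ := key f hf.sqf fun l hl h => (dvd_odp hf.sqf hl).1 h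
  obtain ⟨Z, z1, -⟩ := key (dt f) (Int.prime_two.squarefree.squarefree_of_dvd (dt_dvd f))
    fun l hl h => absurd ((two_spec (dt_dvd f)).2.1 ▸ h) hl.not_dvd_one
  have z3 : ∀ c, Ad c → Z.y c = tz (yB P r (dt f) c) := fun c h => by
    rw [z1, ← yF_two (okc h).toOk (dt_dvd f)]
  refine ⟨S, Z, Y, ?_, ?_, y2⟩
  swap
  · obtain ⟨B, hB⟩ := hS
    refine ⟨B, fun s => ?_⟩
    obtain ⟨T, ε, t1, t2, t3⟩ := hB (2 ^ (s + f.natAbs)) (by positivity)
      ((Nat.coprime_two_left.2 NN_odd).pow_left _)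
    have t4 : (∏ l ∈ T, l).primeFactors = T := Nat.primeFactors_prod fun l hl => (t2 l hl).1
    have t5 : ∀ l ∈ T, ¬ (l : ℤ) ∣ f := fun l hl k => by
      obtain ⟨p1, -, p3, -⟩ := t2 l hl
      have h1 := Nat.le_of_dvd (Int.natAbs_pos.2 hf.sqf.ne_zero) (Int.natCast_dvd.1 k)
      have h2 := Nat.le_of_dvd (by have := p1.one_lt; omega)
        ((Nat.modEq_iff_dvd' p1.one_lt.le).1 (p3.of_mul_left _).symm)
      have h3 : s + f.natAbs < 2 ^ (s + f.natAbs) := Nat.lt_two_pow_self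
      omega
    have t6 : Ad (∏ l ∈ T, l) := by
      refine (hAd _).2 ⟨Finset.squarefree_prod_of_pairwise_isCoprime (fun p hp q hq h =>
        Nat.coprime_iff_isRelPrime.1 ((Nat.coprime_primes (t2 p hp).1 (t2 q hq).1).2 h))
        fun p hp => (t2 p hp).1.prime.squarefree, fun l hl k => ?_⟩
      have h1 : l ∈ T := t4 ▸ Nat.mem_primeFactors.2
        ⟨hl, k, Finset.prod_ne_zero_iff.2 fun p hp => (t2 p hp).1.ne_zero⟩
      refine ⟨(t2 l h1).2.1, fun e => ?_, fun e => t5 l h1 (e.trans (od_dvd f))⟩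
      have h2 := (t2 l h1).2.2.1.of_dvd ((e.mul_left 8).mul_right _)
      exact hl.not_dvd_one ((h2.dvd_iff dvd_rfl).1 dvd_rfl)
    refine ⟨∏ l ∈ T, l, ε, t6, t4.symm ▸ t1, fun l hl => ?_, ?_⟩
    · rw [t4] at hl
      refine ⟨(t2 l hl).2.2.1.of_dvd ⟨8 * 2 ^ f.natAbs, by ring⟩, ?_, t5 l hl⟩
      rw [ha]
      exact (t2 l hl).2.2.2
    · have e := cm_gen (okc t6).toOk T (fun l hl => ⟨by
        have h1 : l % 4 = 1 % 4 := (t2 l hl).2.2.1.of_dvd ⟨2 * n * 2 ^ (s + f.natAbs), by ring⟩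
        omega, Finset.dvd_prod_of_mem _ hl⟩) ε (yB P r (dt f) _)
      rw [T10.Zb, ← e] at t3
      rw [ES.D, z3 _ t6]
      refine Eq.mpr (congrArg Od (Finset.sum_congr (Finset.ext fun x => ?_) fun _ _ => rfl)) t3
      simp only [Finset.mem_filter, Finset.mem_univ, true_and, HS.Ng, t4]
      rfl
  choose! φ p1 p2 p3 using fun (l : ℕ) (h : l ∈ (odp f).primeFactors) => show ∃ φ,
      (∃ w : Plc, w.p = l ∧ IsFrob w l φ) ∧ φ ∈ GK n ∧ Ef (yB (n := n) P r (dt f)) (dt f) l φ by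
    have hl := Nat.prime_of_mem_primeFactors h
    have h1 := Nat.dvd_of_mem_primeFactors h
    have h2 : l ≠ 2 := fun e => (odp_odd hf.sqf).not_two_dvd_nat (e ▸ h1)
    by_cases hN : l ∣ NN
    · obtain ⟨φ, q1, q2, q3⟩ := exists_frob_bad ok hl h2 hN
      exact ⟨φ, q2, q1, ef_bad G ok (dt_dvd f) hl hN (hD l hl hN).1 (hU l hl hN) q1 q3⟩
    · obtain ⟨w, rfl⟩ := exists_plc hl
      obtain ⟨φ, hφ⟩ := B2.exists_frob w
      exact ⟨φ, ⟨w, rfl, hφ⟩, dec_le_split h2 (hs _ hl h1) hφ.1,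
        ef_good G ok (dt_dvd f) hN h2 (hs _ hl h1) (ha _) hφ⟩
  refine ⟨φ, fun _ => 1, fun _ => odd_one, od_pf hf.sqf ▸ p1, fun c hc a => ?_⟩
  rw [y1, z3 c hc, Eul, od_pf hf.sqf]
  exact cong_yF G (okc hc) hn.m8 hf.sqf (odc hc) φ (fun l hl => ⟨fun k => by
    have h1 := Nat.prime_of_mem_primeFactors hl
    exact (((hAd _).1 hc).2 l h1 k).2.2
      ((dvd_odp hf.sqf h1).1 (Nat.dvd_of_mem_primeFactors hl)), p2 l hl, p3 l hl⟩) a

end Pool.Agent.B6.B7.C5
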