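import Pool.Agent.Lib.MP_696deb_nt.B10.CKd
import Pool.Agent.Lib.MP_696deb_nt.B7.XKC

/-! The order of the twisted sum of Kummer classes. -/

set_option autoImplicit false

open scoped NNReal Classical
open Finset Matrix NumberTheorySymbols PowerSeries

namespace Pool.Agent.B6.B7.C5

open Pool.Agent.Lib.MP_696deb_nt Pool.Agent.Lib.MP_696deb_nt.B2 Pool.Agent.Lib.MP_696deb_nt.B6

/-- The powers of the generator. -/
noncomputable def Om (k : ℕ) : Multiplicative (ZMod (2 ^ (2 * k + 3))) →* Ak k where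
  toFun x := Ideal.Quotient.mk _ ((1 + X) ^ x.toAdd.val)
  map_one' := by simp
  map_mul' x y := by
    rw [← map_mul, Ideal.Quotient.eq, toAdd_mul, ZMod.val_add, ← pow_add]
    exact xtw_mod k _

theorem Om_eq (k : ℕ) (x : Multiplicative (ZMod (2 ^ (2 * k + 3)))) :
    Om k x = (1 + Ideal.Quotient.mk (aa k k) X) ^ x.toAdd.val := by
  rw [← map_one (Ideal.Quotient.mk (aa k k)), ← map_add, ← map_pow]
  rfl

theorem pw_ld {k j : ℕ} {a : Ak k} {z : ZMod (2 ^ k)} (hz : ∀ y, z ≠ 2 * y)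
    (h : Ld (Ideal.Quotient.mk (aa k k) X) j (kdI k z) a) : Pw k j a := by
  obtain ⟨u, v, e⟩ := mem_Jx.1 h
  have h1 : Pw k j (Ideal.Quotient.mk (aa k k) X ^ j) := ⟨1, 0, isUnit_one, by simp⟩
  have h2 : Pw k 0 (kdI k z + v * Ideal.Quotient.mk (aa k k) X) := pw_zero fun y => by
    rw [map_add, map_mul, mco_ev, constantCoeff_X, map_zero, mul_zero, add_zero,
      ← ZMod.natCast_zmod_val z, map_natCast, map_natCast, ZMod.natCast_zmod_val]
    exact hz y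
  convert (h1.mul h2).add u using 1
  · rfl
  · linear_combination -e

variable [Md]

variable {n k c : ℕ} {S : HS n} {T : Tate} {lam : Tp} {w : Plc} {f d e : ℤ} {g : Gam} {P : EE}
  {Q : Finset Plc}

omit [Md] in
/-- The Kummer map as a homomorphism. -/
theorem exists_L' {A : Type} [AddCommGroup A] (m : ℕ) (hm : ∀ P : A, ∃ R, m • R = P) (t : A →+ A)
    (h : ∀ P, m • P = 0 → t P = 0) : ∃ L : A →+ A, ∀ R, L (m • R) = t R :=
  ⟨(nsmulAddMonoidHom m : A →+ A).liftOfSurjective (fun P => hm P) ⟨t, fun P hP => h P hP⟩,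
    fun R => AddMonoidHom.liftOfRightInverse_comp_apply (nsmulAddMonoidHom m) _ _ _ R⟩

omit [Md] in
theorem exists_L [Cw] (hg : ∀ P : EE, 2 ^ k • P = 0 → g • P = P) :
    ∃ L : EE →+ EE, ∀ R, L (2 ^ k • R) = g • R - R :=
  exists_L' (2 ^ k) (B6.KS.half k) (DistribSMul.toAddMonoidHom EE g - AddMonoidHom.id EE)
    fun P hP => sub_eq_zero.2 (hg P hP)

theorem un_odd (hk : 1 ≤ k) (hu : T.Un P g) {R : EE} (hR : 2 ^ k • R = P)
    {y : Fin 2 → ZMod (2 ^ k)} (hy : T.emb k y = g • R - R) {A : ℤ} (hA : Odd A)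
    (z : ZMod (2 ^ k)) : A * y 1 ≠ 2 * z := by
  intro h
  obtain ⟨k, rfl⟩ := Nat.exists_eq_add_of_le hk
  obtain ⟨m, rfl⟩ := hA
  refine hu (2 ^ k • R) _ ?_ ((T.two 1 k y).symm.trans ?_) ?_
  · rw [← mul_smul, ← pow_succ', add_comm k, hR]
  · rw [hy, smul_sub, smul_comm g]
  · rw [show y 1 = 2 * (z - m * y 1) by push_cast at h; linear_combination h, map_mul, map_ofNat]
    exact mul_eq_zero_of_left rfl _

/-- The genus in terms of the parities of the exponents. -/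
theorem HS.Tw.ng (h : HS.Tw S k lam f) (ε : ℕ → ℤˣ) (y : S.C lam.c) :
    S.Ng (sb lam) ε (S.pr _ _ y) ↔
      ∀ l ∈ sT lam, (Odd (S.ν l (2 * k + 3) (S.pr l _ y)).toAdd.val ↔ ε l = -1) := by
  obtain ⟨c, -, e, -⟩ := h.dec
  have d : sb lam ∣ lam.c := Dvd.intro_left _ e.symm
  have a := S.of_dvd h.adm d
  obtain ⟨g, hg, rfl⟩ := S.surj' _ h.adm y
  have key : ∀ u v : ℤˣ, (u = -1 ↔ v = -1) → u = v := by decide
  rw [S.pr_ψ' _ _ h.adm d g hg, HS.Ng, pf_sb]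
  refine ⟨fun k l hl => ?_, fun k u hu e l hl => key _ _ ?_⟩
  · rw [S.pr_ψ' _ _ h.adm (sT_dvd hl) g hg, h.par hl hg, k g hg rfl l hl]
  · have d' := (dvd_sb (sT_prime hl)).2 hl
    rw [← k l hl, ← h.par hl hu, S.pr_ψ' _ _ h.adm (sT_dvd hl) g hg, ← S.pr_ψ' _ _ a d' g hg,
      ← S.pr_ψ' _ _ a d' u hu, e]

/-- The order of the twisted sum of the Kummer classes. -/
theorem kc_ord (Y : ES S d) (hd : d ∣ 2) (h : HS.Tw S k lam f) {f' : ℤ}
    (hg : g ∈ HS.N S T k lam f') (hk : 1 ≤ k) {ε : ℕ → ℤˣ} (hu : T.Un (Y.D (sb lam) ε) g)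
    {R : S.C lam.c → EE} (hR : ∀ x, 2 ^ k • R x = Y.y lam.c x)
    {v : S.C lam.c → Fin 2 → ZMod (2 ^ k)} (hv : ∀ x, T.emb k (v x) = g • R x - R x) :
    Pw k (sT lam).card (∑ x, kdI k (v x 1) * HS.PsA S.toHS k lam e x) := by
  obtain ⟨L, hL⟩ := exists_L (N_fix hg (Nat.le_add_right k 2))
  have ex : ∀ P, ∃ u, g • P = P → T.emb k u = L P := fun P => by
    by_cases hP : g • P = P
    swap
    · exact ⟨0, fun k => absurd k hP⟩
    obtain ⟨R, rfl⟩ := B6.KS.half k P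
    obtain ⟨u, hu⟩ := T.surj k (g • R - R) (by rw [smul_sub, smul_comm, hP, sub_self])
    exact ⟨u, fun _ => by rw [hu, hL]⟩
  choose u hu' using ex
  have u1 : ∀ {c}, c ∣ lam.c → ∀ x, T.emb k (u (Y.y c x)) = L (Y.y c x) := fun hc x =>
    hu' _ (y_N Y hd hk h.adm hg hc x)
  have v1 : ∀ x, v x = u (Y.y lam.c x) := fun x => T.inj k (by rw [u1 dvd_rfl, hv, ← hR, hL])
  obtain ⟨c, ν, e1, e2⟩ := h.dec
  have db : sb lam ∣ lam.c := Dvd.intro_left _ e1.symm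
  have rel : ∀ l ∈ sT lam, Even (al l) ∧ ∀ c', c' * l ∣ lam.c →
      Rel (S := S) (fun c x => kdI k (u (Y.y c x) 1)) c' l := fun l hl => by
    have sp := h.tok.spl l hl
    refine ⟨even_iff_two_dvd.2 ((by decide : (2 : ℤ) ∣ 4).trans sp.four), fun c' hc => ?_⟩
    obtain ⟨w, rfl⟩ := exists_plc (sT_prime hl)
    have m := sp.tm.φ_mem.1
    have d1 := (dvd_mul_right _ _).trans hc
    have a1 := S.of_dvd h.adm d1
    refine ⟨S.ψ c' (fr w), chi d (fr w), chi d (fr w)⁻¹, fun a => ?_⟩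
    have k1 : ∑ a' with S.pr c' (c' * w.p) a' = a, u (Y.y _ a') = al w.p • u (Y.y c' a) -
        (chi d (fr w) : ℤ) • u (Y.y c' (S.ψ c' (fr w) * a)) -
        (chi d (fr w)⁻¹ : ℤ) • u (Y.y c' ((S.ψ c' (fr w))⁻¹ * a)) := T.inj k (by
      simp only [map_sum, map_sub, map_zsmul, u1 hc, u1 d1]
      rw [← map_sum, Y.spl _ w _ (S.of_dvd h.adm hc) sp.spl (fr_spec w),
        smul_of_tw (Y.gal' _ a1 _ m a), smul_of_tw (Y.gal' _ a1 _ (inv_mem m) a), S.ψ_inv a1 m]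
      simp only [map_sub, map_zsmul])
    have k2 := congrArg (fun z => kdI k (z 1)) k1
    simp only [Finset.sum_apply, map_sum, Pi.sub_apply, Pi.smul_apply, map_sub, map_zsmul] at k2
    simpa only [zsmul_eq_mul] using k2
  obtain ⟨A, a1, a2⟩ := tr_base (b := sb lam) Y c _ (e1.trans (mul_comm _ _)) h.adm fun w hw =>
    (h.tok.cases (hw.trans ⟨_, e1⟩)).resolve_left fun k => w.prime.prime.not_isUnit
      (S.sqf h.adm _ (e1 ▸ mul_dvd_mul hw ((dvd_sb w.prime).2 k)))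
  replace a2 := a2 fun a => if S.Ng (sb lam) ε a then 1 else 0
  have a3 : ∑ x, (if S.Ng (sb lam) ε (S.pr _ lam.c x) then 1 else 0 : ℤ) • u (Y.y _ x) =
      A • u (Y.D (sb lam) ε) := T.inj k (by
    simp only [map_sum, map_zsmul, u1 dvd_rfl, hu' _ (D_N Y hd hk h.adm hg db ε)]
    simp only [← map_zsmul, ← map_sum, a2]
    simp only [ES.D, sum_filter, ite_smul, one_smul, zero_smul])
  obtain ⟨R₀, r0⟩ := B6.KS.half k (Y.D (sb lam) ε)
  refine pw_ld (un_odd hk hu r0 ((hu' _ (D_N Y hd hk h.adm hg db ε)).trans (r0 ▸ hL R₀)) a1) ?_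
  have p1 : ∀ x, HS.PsA S.toHS k lam e x = (((Int.castRingHom (Ak k)).toMonoidHom.comp
      ((Units.coeHom ℤ).comp ((S.gen e).comp (S.pr 1 c)))) * (Om k).comp ν) (S.pr c lam.c x) *
      ∏ l ∈ sT lam, ((Om k).comp (S.ν l (2 * k + 3))) (S.pr l lam.c x) := fun x => by
    obtain ⟨g, hg, rfl⟩ := S.surj' _ h.adm x
    have p2 := congrArg (Om k) (e2 g hg)
    rw [map_mul, map_prod] at p2
    rw [prod_congr rfl fun l hl => congrArg _ (S.pr_ψ' _ _ h.adm (sT_dvd hl) g hg),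
      MonoidHom.mul_apply, mul_assoc]
    simp only [MonoidHom.comp_apply, S.pr_pr h.adm (one_dvd c) ⟨_, e1⟩]
    rw [S.pr_ψ' _ _ h.adm ⟨_, e1⟩ g hg, ← p2]
    exact (map_mul (Ideal.Quotient.mk (aa k k)) _ _).trans (by rw [map_intCast]; rfl)
  have p2 : kdI k (A * u (Y.D (sb lam) ε) 1) = ∑ x : S.C lam.c, (∏ l ∈ sT lam,
      if (Odd (S.ν l (2 * k + 3) (S.pr l _ x)).toAdd.val ↔ ε l = -1) then 1 else 0) *
        kdI k (u (Y.y _ x) 1) := by
    have := congrArg (fun z => kdI k (z 1)) a3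
    simp only [Finset.sum_apply, map_sum, Pi.smul_apply, map_zsmul] at this
    rw [map_mul, map_intCast, ← zsmul_eq_mul, ← this]
    refine sum_congr rfl fun x _ => ?_
    rw [prod_ite_zero, prod_const_one, h.ng]
    split_ifs <;> simp
  simp only [p1, p2, v1, mul_comm (kdI k _)]
  refine ord_main (v := fun c x => kdI k (u (Y.y c x) 1)) (sT lam) e1 h.adm rel _ (fun y => ?_)
    (fun l => (Om k).comp (S.ν l (2 * k + 3))) (fun l y => ?_)
    (fun l => -if ε l = -1 then 1 else 1 + Ideal.Quotient.mk (aa k k) X)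
    (fun l y => if (Odd (S.ν l (2 * k + 3) y).toAdd.val ↔ ε l = -1) then 1 else 0) fun l y => ?_
  · exact Jx_one_mul (Jx_unit _) (by rw [MonoidHom.comp_apply, Om_eq]; exact Jx_gen _)
  · rw [MonoidHom.comp_apply, Om_eq]
    exact Jx_gen _
  · rw [MonoidHom.comp_apply, Om_eq, ← sub_eq_add_neg]
    convert ld_par _ (ε l = -1)

end Pool.Agent.B6.B7.C5
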