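import Pool.Agent.Lib.MP_696deb_nt.B10.CKc
import Pool.Agent.Lib.MP_696deb_nt.B10.CKe

/-! The classes of Kolyvagin of an Euler system with split primes. -/

set_option autoImplicit false

open scoped NNReal Classical
open Finset Matrix NumberTheorySymbols PowerSeries

namespace Pool.Agent.B6.B7.C5

open Pool.Agent.Lib.MP_696deb_nt Pool.Agent.Lib.MP_696deb_nt.B2 Pool.Agent.Lib.MP_696deb_nt.B6

variable [Md]

variable {n k c : ℕ} {S : HS n} {T : Tate} {lam : Tp} {w : Plc} {f d e : ℤ} {g : Gam} {P : EE}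
  {Q : Finset Plc}

/-- The data for the construction of Kolyvagin. -/
noncomputable def ks (Y : ES S f) (T : Tate) (hn : Nok n) (hf : Fok n f) : KS n f where
  Ad := S.Ad
  Ap := Adm n
  al := al
  C := S.C
  pr := S.pr
  ψ := S.ψ
  y := Y.y
  ν := S.ν
  ρ := T.ρ
  emb := T.emb
  inj := T.inj
  onto := T.surj
  smul := T.smul
  of_dvd := S.of_dvd
  ad_mul := S.ad_mul
  out h := h.out (fr_spec _)
  ine := Adm.ine
  odd := Adm.ne_two
  good h k := h.ndN ((dvd_Δ (Plc.prime _)).1 k)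
  unf h _ := hf.chi_adm h
  sm := S.sm'
  mul := S.mul'
  surj := S.surj'
  pr_ψ := S.pr_ψ'
  dih := S.dih'
  unr := S.unr'
  gal := Y.gal'
  trace := Y.trace'
  kron c w h h' := Y.kron' c w _ h h' (fr_spec w)
  ν_gen w s h e := S.ν_gen w s _ h e (gn_spec h.ne_two)
  ν_fib := S.ν_fib'
  es w P h := T.es w _ P h.ndM (fr_spec w)
  fix _ h _ _ e k := fix_tw T e fun g hg => k g (hn.IN_le hg) (S.ψ_IN hn h hg)

theorem kc_euler (hf : Fok n f) (h : HS.Tw S k lam (od f)) {φ : ℕ → Gam}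
    {ε : ℕ → ℤ} (hε : ∀ r, Odd (ε r))
    (hφ : ∀ r ∈ (od f).natAbs.primeFactors, ∃ w : Plc, w.p = r ∧ IsFrob w r (φ r)) :
    Pw k (mm f) (chL (HS.PsA S.toHS k lam e) (Eul S.toHS f lam.c φ ε)) := by
  rw [Eul, map_prod, mm]
  refine Pw.prod _ fun r hr => ?_
  obtain ⟨w, rfl, hw⟩ := hφ r hr
  have h1 : (w.p : ℤ) ∣ od f := Int.natCast_dvd.2 (Nat.dvd_of_mem_primeFactors hr)
  have hu : IsUnit (HS.Psi S.toHS k lam e (S.ψ _ (φ w.p))⁻¹) :=
    ((Units.isUnit _).map (Int.castRingHom Lam)).mul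
      ((isUnit_iff_constantCoeff.2 (by simp)).pow _)
  have hi : HS.PsA S.toHS k lam e (S.ψ _ (φ w.p)) * HS.PsA S.toHS k lam e (S.ψ _ (φ w.p))⁻¹ = 1 := by
    rw [← map_mul, mul_inv_cancel, map_one]
  by_cases hN : w.p ∣ NN
  · simpa only [wt, if_pos hN, map_sub, chL_single, inv_one, map_one, mul_one, Int.cast_one,
      one_mul] using pw_bad (b := HS.PsA S.toHS k lam e _) (hε w.p) (h.gf w h1 _ hw) hu rfl rfl hi
  · simpa only [wt, if_neg hN, map_sub, chL_single, inv_one, map_one, mul_one, Int.cast_one,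
      one_mul, inv_inv, even_al w.prime (hf.nd30 w.prime h1 hN)]
      using pw_euler (a := HS.PsA S.toHS k lam e _) (b := HS.PsA S.toHS k lam e _) (al w.p) (h.gf w h1 _ hw) hu rfl
        rfl hi

/-- The classes of Kolyvagin. -/
theorem kc_stmt : KCStmt := by
  intro T n k f d e S lam Y Y₀ ε hn hf hd hY h
  have hl := h.adm
  obtain ⟨κ, R, k1, k2, k3, k4⟩ := KS.core7 (S := ks Y T hn hf) (k := k) hl (Ψ := HS.PsA S.toHS k lam e)
    (a := act T (HS.psf S.toHS k lam f e) (Ak k)) fun g _ => kc_act g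
  have dp : ∀ Q, HS.DpS S T k lam f Q → (ks Y T hn hf).Dpl k lam.c Q := fun Q hQ =>
    have h1 := fun w hw => deep_dvd T (hQ.dp w hw).adm.ndM (fr_spec w) (hQ.dp w hw).mem.2.1
    ⟨fun w hw => (hQ.dp w hw).adm, fun w hw => (hQ.dp w hw).ne,
      fun w hw => (pow_dvd_pow 2 (by omega)).trans (h1 w hw).1,
      fun w hw => (pow_dvd_pow 2 (by omega)).trans (h1 w hw).2,
      fun w hw => deep_rho T ((la_mred_le (Nat.le_add_right k 2)
        ((hQ.dp w hw).mem.2.1.trans (la_mred_one _).symm)).trans (la_mred_one k)), hQ.inj⟩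
  have ev := fun v => KS.emb_evk (S := ks Y T hn hf) (Ψ := HS.PsA S.toHS k lam e) HS.evk_PsA v
  have fx : ∀ g ∈ HS.N S T k lam f, ∀ x, 2 ^ k • (g • R x - R x) = 0 := fun g hg x => by
    rw [smul_sub, smul_comm, k3, ← B6.KS.tw_of hg.2.2.2]
    exact sub_eq_zero.2 ((Y.gal' _ hl g hg.1 x).trans 
      (by rw [hg.2.2.1 hl]; exact congrArg _ (one_mul _)))
  refine ⟨κ, ∑ x, (S.gen e (S.pr 1 lam.c x) : ℤ) • R x, fun Q hQ => ?_,
    fun Q w hw hQ => k2 Q w hw (dp _ hQ), fun he h4 => ?_, fun g hg => ?_,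
    fun g hg hu hk x hx => ?_⟩
  · obtain ⟨K, U, v, hv⟩ := k1 Q (dp Q hQ)
    have hc : S.Ad (B6.KS.cL lam.c Q) := (dp Q hQ).adm hl
    refine ⟨K.z1, fun w h1 h2 h3 h4 σ hσ => K.unr w (ne_two_of h1)
      (fun k => h1 (((dvd_Δ w.prime).1 k).mul_left 2)) (B6.KS.not_dvd_cL h3 h4) σ hσ
        (hf.chi_ine (ne_two_of h1) h2 hσ.2),
      fun w hw => K.cob _ (fun g hg => have h1 := ine_le_IN (Nf_N hw) hg
        ⟨hn.IN_le h1, S.ψ_IN hn hc h1, hf.chi_Nf hw hg⟩) (T.kumN w (Nf_N hw)), ?_,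
      fun w hw => ⟨(Submodule.mem_bot _).2 (K.tr w hw), trivial⟩⟩
    have h1 := fun g (hg : g ∈ GK n ⊓ Dec w2) => hv g hg.1 (KS.dec (S := ks Y T hn hf) hc
      (fun e => nd_of_MM (S.ndM hc w2.prime e) (w2_p ▸ dvd_mul_right 2 NN)) (hn.ine_two w2_p)
      (hn.out_two w2_p) hg)
    exact (KumC.sum univ fun x _ => KumC.of_smul (m := k) (x := v x)
      ⟨U x, fun g hg => (h1 g hg).1 x⟩ ((kil_Ak k).two (HS.PsA S.toHS k lam e x))).congr
      fun g hg => funext (h1 g hg).2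
  · obtain ⟨A, hA⟩ := tr_any Y hf.ne he h4 _ hl fun w hw =>
      (h.tok.cases hw).imp (h.tok.spl _) And.left
    refine ⟨A, ?_⟩
    rw [smul_sum, ← hA]
    exact sum_congr rfl fun x _ => (smul_comm _ _ _).trans (congrArg _ (k3 x))
  · rw [k4 g hg.1 (hg.2.2.1 hl) hg.2.2.2, smul_sum, ← sum_sub_distrib]
    refine (ev _).trans (sum_congr rfl fun x _ => ?_)
    rw [KS.emb_crd (fx g hg x), smul_sub, smul_comm g]
  · obtain ⟨φ, η, hε, hφ, hY⟩ := hY
    choose u u1 u2 using hY lam.c hl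
    obtain ⟨R', v, r1, r2⟩ := (ks Y T hn hf).exists_root k (g := g) (y := Y₀.y lam.c)
      (y_N Y₀ hd (by omega) hl hg dvd_rfl)
    obtain ⟨s, hs⟩ := KS.cmb_cong (S := ks Y T hn hf) (Ψ := HS.PsA S.toHS k lam e)
      (N_fix hg (Nat.le_add_right k 2))
      (fun x => u1 x g hg.1 (hg.2.2.1 hl) hg.2.2.2 (chi_N hd (by omega) hg))
      (fun x => (k3 x).trans (u2 x)) r1 r2 1
    rw [k4 g hg.1 (hg.2.2.1 hl) hg.2.2.2, hs] at hx
    exact (((kc_euler (e := e) hf h hε hφ).mul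
      (kc_ord (e := e) Y₀ hd h hg (by omega) hu r1 r2)).add s).sq hk hx

end Pool.Agent.B6.B7.C5
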