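import Pool.Agent.Lib.MP_696deb_nt.B10.CKb
import Pool.Agent.Lib.MP_696deb_nt.B7.XKC

/-! The classes of Kolyvagin with coefficients in the rings of finite level. -/

set_option autoImplicit false

open scoped NNReal Classical
open Finset Matrix NumberTheorySymbols PowerSeries

namespace Pool.Agent.B6.B7.C5

open Pool.Agent.Lib.MP_696deb_nt Pool.Agent.Lib.MP_696deb_nt.B2
open Pool.Agent.B6.KS (tw_zero tw_add tw_neg tw_sub tw_nsmul tw_zsmul tw_mul tw_sum tw_of tw_fq sm_tw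
  half)
open Pool.Agent.B6.KS (cL cL_insert dvd_cL not_dvd_cL)

variable [Cw]

namespace KS

variable {n k l c : ℕ} {f : ℤ} {S : KS n f} {w : Plc} {g : Gam} {P P' : EE} {Q : Finset Plc}

/-- Coordinates of torsion points. -/
noncomputable def crd (S : KS n f) (k : ℕ) (P : EE) : Fin 2 → ZMod (2 ^ k) :=
  Function.invFun (S.emb k) P

theorem emb_crd (hP : 2 ^ k • P = 0) : S.emb k (S.crd k P) = P :=
  Function.invFun_eq (S.onto k P hP)

theorem crd_emb (x : Fin 2 → ZMod (2 ^ k)) : S.crd k (S.emb k x) = x :=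
  Function.leftInverse_invFun (S.inj k) x

theorem crd_zero : S.crd k 0 = 0 := by rw [← map_zero (S.emb k), crd_emb]

theorem crd_add (hP : 2 ^ k • P = 0) (hP' : 2 ^ k • P' = 0) :
    S.crd k (P + P') = S.crd k P + S.crd k P' := by
  rw [← emb_crd (S := S) hP, ← emb_crd (S := S) hP', ← map_add, crd_emb, crd_emb, crd_emb]

theorem crd_sub (hP : 2 ^ k • P = 0) (hP' : 2 ^ k • P' = 0) :
    S.crd k (P - P') = S.crd k P - S.crd k P' := by
  rw [← emb_crd (S := S) hP, ← emb_crd (S := S) hP', ← map_sub, crd_emb, crd_emb, crd_emb]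

theorem crd_smul (hP : 2 ^ k • P = 0) (g : Gam) :
    S.crd k (g • P) = mred k (S.ρ g) *ᵥ S.crd k P := by
  rw [← emb_crd (S := S) hP, S.smul, crd_emb, crd_emb]

theorem crd_tw (hP : 2 ^ k • P = 0) (g : Gam) :
    S.crd k (tw f g P) = (chi f g : ℤ) • mred k (S.ρ g) *ᵥ S.crd k P := by
  rw [← emb_crd (S := S) hP, tw, S.smul, ← map_zsmul, crd_emb, crd_emb]

variable {Ψ : S.C l →* Ak k} {a : Gam → (Fin 2 → Ak k) →+ Fin 2 → Ak k}

/-- Twisted sums of vectors. -/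
noncomputable def cmb (Ψ : S.C l →* Ak k) (v : S.C l → Fin 2 → ZMod (2 ^ k)) (i : Fin 2) : Ak k :=
  ∑ x, kdI k (v x i) * Ψ x

theorem cmb_mul (A : Matrix (Fin 2) (Fin 2) (ZMod (2 ^ k))) (v : S.C l → Fin 2 → ZMod (2 ^ k)) :
    cmb Ψ (fun x => A *ᵥ v x) = A.map (kdI k) *ᵥ cmb Ψ v := by
  funext i
  simp only [cmb, mulVec, dotProduct, Fin.sum_univ_two, map_add, map_mul, map_apply, mul_sum,
    ← sum_add_distrib]
  exact sum_congr rfl fun x _ => by ring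

theorem cmb_add (v v' : S.C l → Fin 2 → ZMod (2 ^ k)) :
    cmb Ψ (fun x => v x + v' x) = cmb Ψ v + cmb Ψ v' := funext fun i => by
  simp only [cmb, Pi.add_apply, map_add, add_mul, sum_add_distrib]

theorem cmb_sub (v v' : S.C l → Fin 2 → ZMod (2 ^ k)) :
    cmb Ψ (fun x => v x - v' x) = cmb Ψ v - cmb Ψ v' := funext fun i => by
  simp only [cmb, Pi.sub_apply, map_sub, sub_mul, sum_sub_distrib]

/-- The action on the twisted Tate module. -/
def IsAct (Ψ : S.C l →* Ak k) (a : Gam → (Fin 2 → Ak k) →+ Fin 2 → Ak k) : Prop :=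
  ∀ g ∈ GK n, ∀ x, a g x = (chi f g : ℤ) • (mred k (S.ρ g)).map (kdI k) *ᵥ Ψ (S.ψ l g) • x

theorem cmb_act (ha : IsAct Ψ a) (hg : g ∈ GK n) (v : S.C l → Fin 2 → ZMod (2 ^ k)) :
    cmb Ψ (fun x => (chi f g : ℤ) • mred k (S.ρ g) *ᵥ v ((S.ψ l g)⁻¹ * x)) = a g (cmb Ψ v) := by
  have h1 : cmb Ψ (fun x => v ((S.ψ l g)⁻¹ * x)) = Ψ (S.ψ l g) • cmb Ψ v := by
    funext i
    rw [Pi.smul_apply, smul_eq_mul, cmb, cmb, mul_sum, ← Equiv.sum_comp (Equiv.mulLeft (S.ψ l g))]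
    refine sum_congr rfl fun x _ => ?_
    rw [Equiv.coe_mulLeft, inv_mul_cancel_left, map_mul]
    ring
  rw [ha g hg, ← h1, ← cmb_mul]
  funext i
  simp only [cmb, Pi.smul_apply, map_zsmul, smul_sum, smul_mul_assoc]

/-- The class of a torsion valued cochain. -/
noncomputable def kap (Ψ : S.C l →* Ak k) (t : Gam → S.C l → EE) (g : Gam) : Fin 2 → Ak k :=
  if g ∈ GK n then cmb Ψ fun x => S.crd k (t g x) else 0

theorem kap_of (hg : g ∈ GK n) (t : Gam → S.C l → EE) :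
    kap Ψ t g = cmb Ψ fun x => S.crd k (t g x) := if_pos hg

theorem kap_zero {t : Gam → S.C l → EE} (h : ∀ x, t g x = 0) : kap Ψ t g = 0 := by
  unfold kap
  split_ifs
  · funext i
    simp [cmb, h, crd_zero]
  · rfl

variable {W : S.C c → ℤ} {R : S.C l → EE} {D : S.C c → S.C l → EE}

theorem KD.z1 (K : KD S k l c W R D) (ha : IsAct Ψ a) : kap Ψ (S.tt l c R D) ∈ Z1 (GK n) a := by
  refine ⟨⟨(K.sm.comp fun t => cmb Ψ fun x => S.crd k (t x)).congr fun g hg =>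
    (kap_of hg _).symm, fun g hg g' hg' => ?_⟩, fun g hg => if_neg hg⟩
  rw [kap_of hg, kap_of hg', kap_of (mul_mem hg hg'), ← cmb_act ha hg, ← cmb_add]
  refine congrArg _ (funext fun x => ?_)
  rw [K.coc hg hg', crd_add (K.tors hg x) (by rw [← tw_nsmul, K.tors hg', tw_zero]),
    crd_tw (K.tors hg' _)]

/-- The classes are coboundaries on groups whose fixed points are divisible by two. -/
theorem KD.cob (K : KD S k l c W R D) (ha : IsAct Ψ a) {I : Subgroup Gam}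
    (hI : ∀ g ∈ I, g ∈ GK n ∧ S.ψ c g = 1 ∧ chi f g = 1)
    (hd : ∀ P : EE, (∀ σ ∈ I, σ • P = P) → ∃ U : EE, (∀ σ ∈ I, σ • U = U) ∧ 2 • U = P) :
    ∃ x, ∀ σ ∈ I, kap Ψ (S.tt l c R D) σ = cob a x σ := by
  have h1 : ∀ (m : ℕ) (P : EE), (∀ σ ∈ I, σ • P = P) →
      ∃ U : EE, (∀ σ ∈ I, σ • U = U) ∧ 2 ^ m • U = P := fun m => by
    induction m with
    | zero => exact fun P h => ⟨P, h, by simp⟩
    | succ m ih =>
      intro P h
      obtain ⟨U, u1, rfl⟩ := ih P h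
      obtain ⟨V, v1, rfl⟩ := hd U u1
      exact ⟨V, v1, by rw [pow_succ, mul_nsmul']⟩
  choose U u1 u2 using fun x => h1 k (2 ^ k • R x) fun σ hσ =>
    K.fixed (hI σ hσ).1 (hI σ hσ).2.1 (hI σ hσ).2.2 x
  have h2 : ∀ x, 2 ^ k • (R x - U x) = 0 := fun x => by rw [smul_sub, u2, sub_self]
  refine ⟨cmb Ψ fun x => S.crd k (R x - U x), fun σ hσ => ?_⟩
  obtain ⟨i1, i2, i3⟩ := hI σ hσ
  rw [kap_of i1, B2.cob, ← cmb_act ha i1, ← cmb_sub]
  refine congrArg _ (funext fun x => ?_)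
  rw [ker K.adm K.dvd i1 i2, inv_one, one_mul, ← crd_tw (h2 x), tw_of i3,
    ← crd_sub (by rw [smul_comm, h2, smul_zero]) (h2 x), K.of_ker' i1 i2 i3, smul_sub, u1 x σ hσ,
    sub_sub_sub_cancel_right]

theorem KD.root {D : S.C c → S.C l → EE} (K : KD S k l c (S.Wt k ∅ c) R D) (hc : c = l)
    (x : S.C l) : 2 ^ k • R x = S.y l x := by
  subst hc
  have e : (univ.filter fun y => S.pr c c y = x) = {x} := by
    ext y
    simp [pr_self K.adm]
  rw [K.hR, F, e, sum_singleton, Wt, prod_empty, one_smul]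

/-- What is known about the class that belongs to a set of places. -/
structure Cls (Ψ : S.C l →* Ak k) (a : Gam → (Fin 2 → Ak k) →+ Fin 2 → Ak k) (c : ℕ)
    (Q : Finset Plc) (κ : Gam → Fin 2 → Ak k) : Prop where
  z1 : κ ∈ Z1 (GK n) a
  unr : ∀ w : Plc, w.p ≠ 2 → ¬ (w.p : ℤ) ∣ WZ.Δ → ¬ w.p ∣ c → ∀ σ ∈ GK n ⊓ Ine w, chi f σ = 1 →
    κ σ = 0
  cob : ∀ I : Subgroup Gam, (∀ g ∈ I, g ∈ GK n ∧ S.ψ c g = 1 ∧ chi f g = 1) →
    (∀ P : EE, (∀ σ ∈ I, σ • P = P) → ∃ U : EE, (∀ σ ∈ I, σ • U = U) ∧ 2 • U = P) →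
    ∃ x, ∀ σ ∈ I, κ σ = B2.cob a x σ
  kum : ∃ (R : S.C l → EE) (v : S.C l → Gam → Fin 2 → ZMod (2 ^ k)), ∀ g ∈ GK n, S.ψ c g = 1 →
    chi f g = 1 → (∀ x, S.emb k (v x g) = g • R x - R x) ∧ ∀ i, κ g i = ∑ x, (v x g i).val • Ψ x
  tr : ∀ w ∈ Q, κ (fq w) = 0

/-- Sets of places at which derivatives are taken. -/
structure Dpl (S : KS n f) (k : ℕ) (l : ℕ) (Q : Finset Plc) : Prop where
  ad : ∀ w ∈ Q, S.Ap w.p
  ne : ∀ w ∈ Q, ¬ w.p ∣ l
  dvd : ∀ w ∈ Q, 2 ^ (k + 1) ∣ w.p + 1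
  al : ∀ w ∈ Q, (2 : ℤ) ^ k ∣ S.al w.p
  rho : ∀ w ∈ Q, mred k (S.ρ (fr w)) = !![0, 1; 1, 0]
  inj : ∀ w ∈ Q, ∀ v ∈ Q, w.p = v.p → w = v

theorem Dpl.mono (h : S.Dpl k l Q) {Q' : Finset Plc} (e : Q' ⊆ Q) : S.Dpl k l Q' :=
  ⟨fun w hw => h.ad w (e hw), fun w hw => h.ne w (e hw), fun w hw => h.dvd w (e hw),
    fun w hw => h.al w (e hw), fun w hw => h.rho w (e hw),
    fun w hw v hv => h.inj w (e hw) v (e hv)⟩

theorem Dpl.nd (h : S.Dpl k l (insert w Q)) (hw : w ∉ Q) : ¬ w.p ∣ cL l Q :=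
  not_dvd_cL (h.ne w (mem_insert_self _ _)) fun v hv e =>
    hw (h.inj w (mem_insert_self _ _) v (mem_insert_of_mem hv) e ▸ hv)

theorem Dpl.adm (h : S.Dpl k l Q) (hl : S.Ad l) : S.Ad (cL l Q) := by
  induction Q using Finset.induction_on with
  | empty => simpa [cL] using hl
  | insert w Q hw ih =>
    rw [cL_insert hw]
    exact S.ad_mul (ih (h.mono (subset_insert _ _))) (h.ad w (mem_insert_self _ _)) (h.nd hw)

theorem Dpl.ex (h : S.Dpl k l Q) (hl : S.Ad l) :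
    ∃ R D, KD S k l (cL l Q) (S.Wt k Q _) R D := by
  refine exists_KD (h.adm hl) (dvd_mul_right _ _) (dv_Wt (h.adm hl) fun w hw =>
    ⟨cL l (Q.erase w), h.ad w hw, ?_, dvd_mul_right _ _, fun v hv e => dvd_cL (mem_erase.2 ⟨e, hv⟩),
      h.al w hw⟩)
  rw [← cL_insert (notMem_erase w Q), insert_erase hw]

theorem Wt_ins {Q' : Finset Plc} (h : S.Ad (cL l Q')) (hw : w ∉ Q) (e : Q' = insert w Q)
    (x : S.C (cL l Q')) : S.Wt k Q' _ x =
      (S.th k w (S.pr w.p _ x)).val * S.Wt k Q (cL l Q) (S.pr _ _ x) := by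
  subst e
  rw [Wt_pr h (Dvd.intro _ (cL_insert hw).symm) fun v hv => dvd_cL hv, Wt, prod_insert hw]
  rfl

/-- The classes of Kolyvagin. -/
theorem core7 (hl : S.Ad l) {Ψ : S.C l →* Ak k} (ha : IsAct Ψ a) :
    ∃ (κ : Finset Plc → Gam → Fin 2 → Ak k) (R : S.C l → EE),
    (∀ Q, S.Dpl k l Q → Cls Ψ a (cL l Q) Q (κ Q) ∧
      ∃ (R : S.C l → EE) (v : S.C l → Gam → Fin 2 → ZMod (2 ^ k)), ∀ g ∈ GK n,
        S.ψ (cL l Q) g = 1 → (∀ x, S.emb k (v x g) = tw f g (R x) - R x) ∧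
          ∀ i, κ Q g i = ∑ x, (v x g i).val • Ψ x) ∧
    (∀ Q w, w ∉ Q → S.Dpl k l (insert w Q) → κ (insert w Q) (gn w) = sw _ *ᵥ κ Q (fq w)) ∧
    (∀ x, 2 ^ k • R x = S.y l x) ∧ ∀ g ∈ GK n, S.ψ l g = 1 → chi f g = 1 →
      κ ∅ g = cmb Ψ fun x => S.crd k (g • R x - R x) := by
  have ex : ∀ Q, ∃ R D, S.Dpl k l Q → KD S k l (cL l Q) (S.Wt k Q _) R D := fun Q => by
    by_cases hQ : S.Dpl k l Q
    · obtain ⟨R, D, K⟩ := hQ.ex hl
      exact ⟨R, D, fun _ => K⟩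
    · exact ⟨0, 0, fun k => absurd k hQ⟩
  choose R D K using ex
  have K0 := K ∅ ⟨by simp, by simp, by simp, by simp, by simp, by simp⟩
  have c0 : cL l ∅ = l := by simp [cL]
  refine ⟨fun Q => kap Ψ (S.tt _ _ (R Q) (D Q)), R ∅, fun Q hQ => ⟨⟨(K Q hQ).z1 ha,
    fun w h1 h2 h3 σ hσ e => kap_zero ((K Q hQ).unr h1 h2 h3 hσ e),
    fun I h1 h2 => (K Q hQ).cob ha h1 h2,
    ⟨R Q, fun x g => S.crd k (S.tt _ _ (R Q) (D Q) g x), fun g hg e e' => ⟨fun x => ?_,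
      fun i => by simp only [kap_of hg, cmb, kdI_mul]⟩⟩, fun w hw => kap_zero ?_⟩,
    R Q, fun x g => S.crd k (S.tt _ _ (R Q) (D Q) g x), fun g hg e => ⟨fun x => by
      rw [emb_crd ((K Q hQ).tors hg x), (K Q hQ).of_ker hg e],
      fun i => by simp only [kap_of hg, cmb, kdI_mul]⟩⟩,
    fun Q w hw hQ => ?_, K0.root c0, fun g hg e e' => ?_⟩
  · rw [emb_crd ((K Q hQ).tors hg x), (K Q hQ).of_ker' hg e e']
  · have e1 := (insert_erase hw).symm
    exact (K Q hQ).tr (c := cL l (Q.erase w)) (hQ.ad w hw)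
      (by rw [← cL_insert (notMem_erase w Q), ← e1])
      (dvd_mul_right _ _) (hQ.dvd w hw) (hQ.al w hw) (Wt_ins (K Q hQ).adm (notMem_erase w Q) e1)
  · have hm := mem_insert_self w Q
    have hd := hQ.ad w hm
    have K1 := K Q (hQ.mono (subset_insert _ _))
    have h2 := S.ine hd (gn_spec (S.odd hd)).1
    have h3 := K1.step (K _ hQ) hd (cL_insert hw) (hQ.nd hw) (hQ.dvd w hm) (hQ.al w hm)
      (Wt_ins (K _ hQ).adm hw rfl)
    simp only [kap_of h2, kap_of (fq_mem hl hd).1, ← h3, crd_smul ((K _ hQ).tors h2 _), cmb_mul,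
      hQ.rho w hm, mulVec_mulVec]
    rw [show sw (Ak k) * (!![0, 1; 1, 0] : Matrix (Fin 2) (Fin 2) _).map (kdI k) = 1 by
      ext i j
      fin_cases i <;> fin_cases j <;> simp [sw, Matrix.mul_apply], one_mulVec]
  · simp only [kap_of hg, K0.of_ker' hg (by rw [c0]; exact e) e']

theorem exists_root (S : KS n f) (k : ℕ) {ι : Type} {y : ι → EE} (h : ∀ x, g • y x = y x) :
    ∃ (R : ι → EE) (v : ι → Fin 2 → ZMod (2 ^ k)), (∀ x, 2 ^ k • R x = y x) ∧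
      ∀ x, S.emb k (v x) = g • R x - R x := by
  choose R hR using fun x => half k (y x)
  choose v hv using fun x => S.onto k (g • R x - R x) (by
    rw [smul_sub, smul_comm, hR, h, sub_self])
  exact ⟨R, v, hR, hv⟩

/-- The congruence between points gives a congruence between classes. -/
theorem cmb_cong (hg : ∀ P : EE, 2 ^ k • P = 0 → g • P = P) {E : MonoidAlgebra ℤ (S.C l)}
    {y u R R' : S.C l → EE} {v : S.C l → Fin 2 → ZMod (2 ^ k)} (hu : ∀ x, g • u x = u x)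
    (hR : ∀ x, 2 ^ k • R x = shA _ EE E y x + 2 • u x) (hR' : ∀ x, 2 ^ k • R' x = y x)
    (hv : ∀ x, S.emb k (v x) = g • R' x - R' x) (i : Fin 2) :
    ∃ s, cmb Ψ (fun x => S.crd k (g • R x - R x)) i = chL Ψ E * cmb Ψ v i + 2 * s := by
  obtain ⟨U, s, h1, h2⟩ := S.exists_root k hu
  have h3 : ∀ x, g • R x - R x =
      S.emb k (shA _ (Fin 2 → ZMod (2 ^ k)) E v x + (s x + s x)) := fun x => by
    have e1 := hg (R x - shA _ EE E R' x - 2 • U x) (by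
      have := shA_map (nsmulAddMonoidHom (2 ^ k)) E R' x
      simp only [nsmulAddMonoidHom_apply, hR'] at this
      rw [smul_sub, smul_sub, hR, this, smul_comm, h1, add_sub_cancel_left, sub_self])
    have e2 := shA_map (DistribSMul.toAddMonoidHom EE g - AddMonoidHom.id EE) E R' x
    simp only [AddMonoidHom.sub_apply, DistribSMul.toAddMonoidHom_apply, AddMonoidHom.id_apply,
      ← hv, ← shA_map (S.emb k)] at e2
    rw [map_add, map_add, h2, ← e2]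
    rw [smul_sub, smul_sub, smul_comm g 2, two_smul, two_smul] at e1
    linear_combination (norm := abel1) e1
  refine ⟨cmb Ψ s i, ?_⟩
  simp only [h3, crd_emb, cmb_add, Pi.add_apply, two_mul]
  congr 1
  rw [cmb, cmb, ← shA_sum]
  refine sum_congr rfl fun x _ => congrArg (· * Ψ x) ?_
  exact shA_map ((kdI k).toAddMonoidHom.comp (Pi.evalAddMonoidHom _ i)) E v x

theorem emb_evk {ε : S.C l → ℤ} (h : ∀ x, evk k (Ψ x) = ε x) (v : S.C l → Fin 2 → ZMod (2 ^ k)) :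
    S.emb k (fun i => evk k (cmb Ψ v i)) = ∑ x, ε x • S.emb k (v x) := by
  have h1 : ∀ u, evk k (kdI k u) = u := fun u => by
    rw [← ZMod.natCast_zmod_val u, map_natCast, map_natCast]
  simp only [← map_zsmul, ← map_sum]
  congr 1
  funext i
  simp only [cmb, map_sum, map_mul, h1, h, Finset.sum_apply, Pi.smul_apply]
  exact sum_congr rfl fun x _ => by rw [zsmul_eq_mul, mul_comm]

end KS

end Pool.Agent.B6.B7.C5
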