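import Pool.Agent.Lib.MP_696deb_nt.B10.CKo
import Pool.Agent.Lib.MP_696deb_nt.B10.CX
import Pool.Agent.Lib.MP_696deb_nt.B6.KLb

/-! Traces in Euler systems with split primes, and the order of the twisted sums. -/

set_option autoImplicit false

open scoped NNReal Classical
open Finset Matrix NumberTheorySymbols PowerSeries

namespace Pool.Agent.B6.B7.C5

open Pool.Agent.Lib.MP_696deb_nt Pool.Agent.Lib.MP_696deb_nt.B2 Pool.Agent.Lib.MP_696deb_nt.B6

variable [Md]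

variable {n k b c l : ℕ} {S : HS n} {T : Tate} {lam : Tp} {w : Plc} {f d e : ℤ} {g : Gam} {P : EE}

theorem HS.pr_self (S : HS n) (h : S.Ad c) (a : S.C c) : S.pr c c a = a := by
  obtain ⟨g, hg, rfl⟩ := S.surj' _ h a
  exact S.pr_ψ' _ _ h dvd_rfl g hg

/-- Sums with weights from a lower level. -/
theorem fib_sum {R M : Type} [Semiring R] [AddCommMonoid M] [Module R M] (h : S.Ad (c * l))
    (hb : b ∣ c) (ε : S.C b → R) (y : S.C (c * l) → M) : ∑ x, ε (S.pr b (c * l) x) • y x =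
      ∑ a, ε (S.pr b c a) • ∑ x with S.pr c (c * l) x = a, y x := by
  rw [← sum_fiberwise_of_maps_to (t := univ) (g := S.pr c (c * l)) fun _ _ => mem_univ _]
  refine sum_congr rfl fun a _ => ?_
  rw [smul_sum]
  exact sum_congr rfl fun x hx => by
    rw [← (mem_filter.1 hx).2, S.pr_pr h hb (dvd_mul_right _ _)]

section

variable {R : Type} [CommRing R] {x : R} {v : ∀ c, S.C c → R}

/-- The trace relation at a split prime. -/
def Rel (v : ∀ c, S.C c → R) (c l : ℕ) : Prop := ∃ (φ : S.C c) (s t : ℤˣ), ∀ a,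
  ∑ a' with S.pr c (c * l) a' = a, v (c * l) a' =
    al l * v c a - (s : ℤ) * v c (φ * a) - (t : ℤ) * v c (φ⁻¹ * a)

theorem eul_step (h : S.Ad (c * l)) (hv : Rel v c l) (ha : Even (al l)) (χ : S.C c →* R)
    (hχ : ∀ y, χ y - 1 ∈ Jx x 1) : ∃ e ∈ Jx x 2,
    ∑ y, χ (S.pr c (c * l) y) * v _ y = e * ∑ a, χ a * v c a := by
  obtain ⟨φ, s, t, hv⟩ := hv
  have key : ∀ φ : S.C c, ∑ a, χ a * v c (φ * a) = χ φ⁻¹ * ∑ a, χ a * v c a := fun φ => by
    rw [mul_sum, ← Equiv.sum_comp (Equiv.mulLeft φ⁻¹)]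
    refine sum_congr rfl fun a _ => ?_
    rw [Equiv.coe_mulLeft, mul_inv_cancel_left, map_mul, mul_assoc]
  refine ⟨_, Jx_eul ha s t (hχ φ) (b := χ φ⁻¹) (by rw [← map_mul, mul_inv_cancel, map_one]), ?_⟩
  have h1 := fib_sum h dvd_rfl χ (v _)
  simp only [smul_eq_mul, S.pr_self (S.of_dvd h (dvd_mul_right _ _)), hv, mul_sub,
    mul_left_comm (χ _), sum_sub_distrib, ← mul_sum, key, inv_inv] at h1
  rw [h1]
  ring

theorem eul_prod {t : ℕ} (h : S.Ad t) (χ : S.C c →* R) (hχ : ∀ y, χ y - 1 ∈ Jx x 1) (W : Finset ℕ)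
    (hW : ∀ l ∈ W, Even (al l) ∧ ∀ c, c * l ∣ t → Rel v c l) : ∀ c', c' = c * ∏ l ∈ W, l → c' ∣ t →
    ∃ e ∈ Jx x (2 * W.card), ∑ y, χ (S.pr c c' y) * v c' y = e * ∑ a, χ a * v c a := by
  induction W using Finset.induction_on with
  | empty =>
    intro c' e hc
    rw [prod_empty, mul_one] at e
    subst e
    exact ⟨1, Jx_zero 1, by simp only [S.pr_self (S.of_dvd h hc), one_mul]⟩
  | insert l W hl ih =>
    intro c' e hc
    rw [prod_insert hl, mul_comm l, ← mul_assoc] at e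
    subst e
    obtain ⟨h1, h2⟩ := hW l (mem_insert_self _ _)
    obtain ⟨e, e1, e2⟩ := ih (fun p hp => hW p (mem_insert_of_mem hp)) _ rfl
      ((dvd_mul_right _ _).trans hc)
    obtain ⟨u, u1, u2⟩ := eul_step (S.of_dvd h hc) (h2 _ hc) h1 (χ.comp (S.pr c _)) fun _ => hχ _
    simp only [MonoidHom.comp_apply, S.pr_pr (S.of_dvd h hc) (dvd_mul_right _ _)
      (dvd_mul_right _ _)] at u2
    refine ⟨u * e, ?_, by rw [u2, e2, mul_assoc]⟩
    rw [card_insert_of_notMem hl, mul_add, add_comm]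
    exact Jx_mul u1 e1

/-- The leading term of a twisted sum. -/
theorem ord_main (W : Finset ℕ) {t : ℕ} (ht : t = c * ∏ l ∈ W, l) (h : S.Ad t)
    (hW : ∀ l ∈ W, Even (al l) ∧ ∀ c', c' * l ∣ t → Rel v c' l) (Ψ : S.C c →* R)
    (hΨ : ∀ y, Ψ y - 1 ∈ Jx x 1) (ψ : ∀ l, S.C l →* R) (hψ : ∀ l y, ψ l y - 1 ∈ Jx x 1) (γ : ℕ → R)
    (ι : ∀ l, S.C l → R) (hι : ∀ l y, Ld x 1 (ι l y) (ψ l y + γ l)) :
    Ld x W.card (∑ y : S.C t, (∏ l ∈ W, ι l (S.pr l _ y)) * v _ y)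
      (∑ y : S.C t, (Ψ (S.pr c _ y) * ∏ l ∈ W, ψ l (S.pr l _ y)) * v _ y) := by
  subst ht
  have dv : ∀ {U V : Finset ℕ}, U ⊆ V → c * ∏ l ∈ U, l ∣ c * ∏ l ∈ V, l := fun e =>
    mul_dvd_mul_left _ (prod_dvd_prod_of_subset _ _ _ e)
  have hA : ∀ V : Finset ℕ, Ld x V.card
      (∑ y : S.C (c * ∏ l ∈ V, l), (∏ l ∈ V, ι l (S.pr l _ y)) * v _ y)
      (∑ y : S.C (c * ∏ l ∈ V, l), (Ψ (S.pr c _ y) * ∏ l ∈ V, (ψ l (S.pr l _ y) + γ l)) * v _ y) :=
    fun V => Ld.sum _ fun y _ => by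
      have h1 : Ld x 0 1 (Ψ (S.pr c _ y)) := by simpa [Ld] using hΨ _
      simpa using (h1.mul (Ld.prod V fun l _ => hι l (S.pr l _ y))).mul (ld_refl (v _ y))
  have key := ord_ind (x := x) W (fun V => ∑ y : S.C (c * ∏ l ∈ V, l),
      (Ψ (S.pr c _ y) * ∏ l ∈ V, (ψ l (S.pr l _ y) + γ l)) * v _ y)
    (fun U V => ∑ y : S.C (c * ∏ l ∈ V, l), (Ψ (S.pr c _ y) * ∏ l ∈ U, ψ l (S.pr l _ y)) * v _ y)
    (fun U V => ∏ l ∈ V \ U, γ l) (fun V _ => by
      simp only [prod_add, mul_sum, sum_mul]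
      rw [sum_comm]
      exact sum_congr rfl fun U _ => sum_congr rfl fun y _ => by ring) (fun V => by simp)
    (fun V hV U hU => by
      have a := S.of_dvd h (dv hV)
      obtain ⟨e, e1, e2⟩ := eul_prod (x := x) h (c := c * ∏ l ∈ U, l)
        (Ψ.comp (S.pr c _) * ∏ l ∈ U, (ψ l).comp (S.pr l _)) (fun y => by
          rw [MonoidHom.mul_apply, MonoidHom.finsetProd_apply]
          exact Jx_one_mul (hΨ _) (Jx_one_prod _ fun l _ => hψ l _)) (V \ U)
        (fun l hl => hW l (hV (mem_sdiff.1 hl).1)) (c * ∏ l ∈ V, l)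
        (by rw [← prod_sdiff hU, mul_comm (∏ l ∈ V \ U, l), mul_assoc]) (dv hV)
      refine ⟨e, e1, Eq.trans (sum_congr rfl fun y _ => ?_) (e2.trans ?_)⟩
      · rw [MonoidHom.mul_apply, MonoidHom.finsetProd_apply, MonoidHom.comp_apply,
          S.pr_pr a (dvd_mul_right _ _) (dv hU)]
        refine congrArg (fun z => _ * z * _) (prod_congr rfl fun l hl => ?_)
        rw [MonoidHom.comp_apply, S.pr_pr a ((dvd_prod_of_mem _ hl).mul_left c) (dv hU)]
      · simp only [MonoidHom.mul_apply, MonoidHom.finsetProd_apply, MonoidHom.comp_apply])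
    (fun V _ => (hA V).mem) W le_rfl
  unfold Ld
  convert add_mem key (hA W) using 1
  ring

end

/-- The trace along inert primes with odd eigenvalue. -/
theorem tr_base (Y : ES S d) : ∀ c c', c' = b * c → S.Ad c' →
    (∀ w : Plc, w.p ∣ c → Adm n w.p ∧ ¬ Rt w.p) → ∃ A : ℤ, Odd A ∧ ∀ ε : S.C b → ℤ,
      ∑ x, ε (S.pr b c' x) • Y.y c' x = A • ∑ a, ε a • Y.y b a := by
  intro c
  induction c using induction_on_primes with
  | zero => exact fun _ e h => absurd (S.sqf h) (by simp [e])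
  | one =>
    intro c' e h _
    rw [mul_one] at e
    subst e
    exact ⟨1, odd_one, fun ε => by simp only [S.pr_self h, one_smul]⟩
  | prime_mul p a hp ih =>
    intro c' e h hr
    rw [mul_comm p, ← mul_assoc] at e
    subst e
    obtain ⟨w, rfl⟩ := exists_plc hp
    obtain ⟨A, h1, h2⟩ := ih _ rfl (S.of_dvd h (dvd_mul_right _ _)) fun v hv => hr v (hv.mul_left _)
    obtain ⟨h3, h4⟩ := hr w (dvd_mul_right _ _)
    refine ⟨al w.p * A, (Int.not_even_iff_odd.1 (mt (even_al hp h3.nd30).1 h4)).mul h1, fun ε => ?_⟩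
    rw [mul_smul, ← h2, fib_sum h (dvd_mul_right _ _), smul_sum]
    exact sum_congr rfl fun x _ => by rw [Y.trace' _ _ hp h h3, smul_comm]

theorem smul_of_tw {Q : EE} (h : tw d g P = Q) : g • P = (chi d g : ℤ) • Q := by
  rw [← h, tw, smul_smul, ← Units.val_mul, Int.units_mul_self, Units.val_one, one_smul]

/-- The trace to conductor one. -/
theorem tr_any (Y : ES S f) (hf : f ≠ 0) (he : e ∣ n) (h4 : e % 4 = 1) : ∀ c, S.Ad c →
    (∀ w : Plc, w.p ∣ c → Spl n w.p ∨ Adm n w.p) →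
    ∃ A : ℤ, ∑ x, (S.gen e (S.pr 1 c x) : ℤ) • Y.y c x = A • Y.ychi e := by
  intro c
  induction c using induction_on_primes with
  | zero => exact fun h => absurd (S.sqf h) not_squarefree_zero
  | one => exact fun h _ => ⟨1, by simp only [S.pr_self h, one_smul, B6.ES.ychi]⟩
  | prime_mul p a hp ih =>
    rw [mul_comm]
    intro h hr
    obtain ⟨w, rfl⟩ := exists_plc hp
    obtain ⟨A, h2⟩ := ih (S.of_dvd h (dvd_mul_right _ _)) fun v hv => hr v (hv.mul_right _)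
    rw [fib_sum h (one_dvd _) fun x => (S.gen e x : ℤ)]
    rcases hr w (dvd_mul_left _ _) with k | k
    · have m := k.tm.φ_mem.1
      refine ⟨(al w.p - chi (f * e) (fr w) - chi (f * e) (fr w)⁻¹) * A, ?_⟩
      simp only [Y.spl _ w _ h k.spl (fr_spec w), smul_sub, sum_sub_distrib,
        smul_comm (S.gen e _ : ℤ), ← smul_sum, h2]
      rw [smul_comm (fr w), smul_comm (fr w)⁻¹, smul_of_tw (Y.gk hf he h4 m),
        smul_of_tw (Y.gk hf he h4 (inv_mem m))]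
      module
    · refine ⟨al w.p * A, ?_⟩
      rw [mul_smul, ← h2, smul_sum]
      exact sum_congr rfl fun x _ => by rw [Y.trace' _ _ hp h k, smul_comm]

end Pool.Agent.B6.B7.C5
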