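import Mathlib

/-! Orders of vanishing modulo two. -/

set_option autoImplicit false

open scoped Classical
open Finset

namespace Pool.Agent.B6.B7.C5

variable {R : Type} [CommRing R] {x a b α β : R} {i j : ℕ}

/-- The ideal generated by two and a power of `x`. -/
def Jx (x : R) (j : ℕ) : Ideal R := Ideal.span {2, x ^ j}

theorem mem_Jx : a ∈ Jx x j ↔ ∃ u v, u * 2 + v * x ^ j = a := Ideal.mem_span_pair

theorem Jx_two (a : R) : 2 * a ∈ Jx x j := mem_Jx.2 ⟨a, 0, by ring⟩

theorem Jx_pow (a : R) : x ^ j * a ∈ Jx x j := mem_Jx.2 ⟨0, a, by ring⟩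

theorem Jx_mono (h : i ≤ j) (ha : a ∈ Jx x j) : a ∈ Jx x i := by
  obtain ⟨u, v, rfl⟩ := mem_Jx.1 ha
  obtain ⟨j, rfl⟩ := Nat.exists_eq_add_of_le h
  exact mem_Jx.2 ⟨u, v * x ^ j, by ring⟩

theorem Jx_mul (ha : a ∈ Jx x i) (hb : b ∈ Jx x j) : a * b ∈ Jx x (i + j) := by
  obtain ⟨u, v, rfl⟩ := mem_Jx.1 ha
  obtain ⟨u', v', rfl⟩ := mem_Jx.1 hb
  exact mem_Jx.2 ⟨u * (u' * 2 + v' * x ^ j) + v * x ^ i * u', v * v', by ring⟩

theorem Jx_zero (a : R) : a ∈ Jx x 0 := mem_Jx.2 ⟨0, a, by ring⟩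

/-- The leading term. -/
def Ld (x : R) (i : ℕ) (α a : R) : Prop := a - x ^ i * α ∈ Jx x (i + 1)

theorem Ld.mem (h : Ld x i α a) : a ∈ Jx x i := by
  simpa using add_mem (Jx_mono i.le_succ h) (Jx_pow α)

theorem Ld.mul (h : Ld x i α a) (h' : Ld x j β b) : Ld x (i + j) (α * β) (a * b) := by
  have h1 := Jx_mul h h'.mem
  have h2 := Jx_mul (Jx_pow (j := i) α) h'
  rw [add_right_comm] at h1
  rw [← add_assoc] at h2
  unfold Ld
  convert add_mem h1 h2 using 1
  ring

theorem ld_refl (a : R) : Ld x 0 a a := by simp [Ld]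

theorem Ld.sum {ι : Type} (s : Finset ι) {α a : ι → R} (h : ∀ r ∈ s, Ld x i (α r) (a r)) :
    Ld x i (∑ r ∈ s, α r) (∑ r ∈ s, a r) := by
  rw [Ld, mul_sum, ← sum_sub_distrib]
  exact sum_mem h

theorem Ld.prod {ι : Type} (s : Finset ι) {α a : ι → R} (h : ∀ r ∈ s, Ld x 1 (α r) (a r)) :
    Ld x s.card (∏ r ∈ s, α r) (∏ r ∈ s, a r) := by
  induction s using Finset.induction_on with
  | empty => simpa using ld_refl 1
  | insert r s hr ih =>
    rw [prod_insert hr, prod_insert hr, card_insert_of_notMem hr, add_comm]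
    exact (h r (mem_insert_self _ _)).mul (ih fun t ht => h t (mem_insert_of_mem ht))

theorem ld_pow (m : ℕ) : Ld x 1 m ((1 + x) ^ m - 1) := by
  induction m with
  | zero => simp [Ld]
  | succ m ih =>
    unfold Ld
    convert add_mem (Ideal.mul_mem_left _ (1 + x) ih) (Jx_pow (j := 2) (m : R)) using 1
    push_cast
    ring

/-- The difference of a power of the generator and a constant detects the parity. -/
theorem ld_par (m : ℕ) (p : Prop) :
    Ld x 1 (if (Odd m ↔ p) then 1 else 0) ((1 + x) ^ m - if p then 1 else 1 + x) := by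
  have h := ld_pow (x := x) m
  unfold Ld at h ⊢
  obtain ⟨r, rfl | rfl⟩ := Nat.even_or_odd' m
  · have e : ¬ Odd (2 * r) := by simp
    by_cases hp : p
    · convert add_mem h (Jx_two (x * r)) using 1
      simp only [e, hp, iff_true, if_false, if_true]
      push_cast
      ring
    · convert add_mem h (Jx_two (x * (r - 1))) using 1
      simp only [e, hp, if_false, if_true]
      push_cast
      ring
  · have e : Odd (2 * r + 1) := odd_two_mul_add_one r
    by_cases hp : p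
    · convert add_mem h (Jx_two (x * r)) using 1
      simp only [e, hp, if_true]
      push_cast
      ring
    · convert add_mem h (Jx_two (x * r)) using 1
      simp only [e, hp, iff_false, not_true, if_false]
      push_cast
      ring

theorem Jx_gen (m : ℕ) : (1 + x) ^ m - 1 ∈ Jx x 1 := (ld_pow m).mem

theorem Jx_unit (ε : ℤˣ) : ((ε : ℤ) : R) - 1 ∈ Jx x j := by
  rcases Int.units_eq_one_or ε with rfl | rfl
  · simp
  · convert Jx_two (x := x) (j := j) (-1) using 1
    push_cast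
    ring

theorem Jx_one_mul (ha : a - 1 ∈ Jx x j) (hb : b - 1 ∈ Jx x j) : a * b - 1 ∈ Jx x j := by
  convert add_mem (Ideal.mul_mem_right b _ ha) hb using 1
  ring

theorem Jx_one_prod {ι : Type} (s : Finset ι) {a : ι → R} (h : ∀ r ∈ s, a r - 1 ∈ Jx x j) :
    ∏ r ∈ s, a r - 1 ∈ Jx x j :=
  prod_induction a (fun y => y - 1 ∈ Jx x j) (fun _ _ => Jx_one_mul) (by simp) h

/-- The Euler factor at a prime with even trace. -/
theorem Jx_eul {c : ℤ} (hc : Even c) (s t : ℤˣ) (ha : a - 1 ∈ Jx x 1) (e : a * b = 1) :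
    c - (s : ℤ) * b - (t : ℤ) * a ∈ Jx x 2 := by
  obtain ⟨r, rfl⟩ := hc
  convert sub_mem (sub_mem (sub_mem (Jx_two (r - 1 : R)) (Ideal.mul_mem_left _ b (Jx_mul ha ha)))
    (Ideal.mul_mem_right b _ (Jx_unit s))) (Ideal.mul_mem_right a _ (Jx_unit t)) using 1
  push_cast
  linear_combination (a - 2) * e

/-- The passage from differences of characters to characters. -/
theorem ord_ind {ι : Type} [DecidableEq ι] (T : Finset ι) (A : Finset ι → R)
    (B γ : Finset ι → Finset ι → R)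
    (h1 : ∀ V ⊆ T, A V = ∑ U ∈ V.powerset, γ U V * B U V) (h2 : ∀ V, γ V V = 1)
    (h3 : ∀ V ⊆ T, ∀ U ⊆ V, ∃ e ∈ Jx x (2 * (V \ U).card), B U V = e * B U U)
    (h4 : ∀ V ⊆ T, A V ∈ Jx x V.card) : ∀ V ⊆ T, B V V - A V ∈ Jx x (V.card + 1) := by
  intro V
  induction V using Finset.strongInduction with
  | H V ih =>
    intro hV
    rw [h1 V hV, ← add_sum_erase _ _ (mem_powerset_self V), h2, one_mul, sub_add_cancel_left]
    refine neg_mem (sum_mem fun U hU => Ideal.mul_mem_left _ _ ?_)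
    obtain ⟨u1, u2⟩ := mem_erase.1 hU
    have u3 := mem_powerset.1 u2
    have u4 := ssubset_of_subset_of_ne u3 u1
    obtain ⟨e, e1, e2⟩ := h3 V hV U u3
    have k1 : B U U ∈ Jx x U.card := by
      simpa using add_mem (Jx_mono U.card.le_succ (ih U u4 (u3.trans hV))) (h4 U (u3.trans hV))
    have k2 := card_lt_card u4
    have k3 := card_sdiff_add_card_eq_card u3
    exact e2 ▸ Jx_mono (by omega) (Jx_mul e1 k1)

end Pool.Agent.B6.B7.C5
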