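import Pool.Agent.Lib.MP_696deb_nt.B10.C0
import Pool.Agent.Lib.MP_696deb_nt.B7.XTW

/-! The group that acts trivially and deep places, for towers with split primes. -/

set_option autoImplicit false

open scoped NNReal Classical
open Finset Matrix NumberTheorySymbols PowerSeries

namespace Pool.Agent.B6.B7.C5

open Pool.Agent.Lib.MP_696deb_nt Pool.Agent.Lib.MP_696deb_nt.B2 Pool.Agent.Lib.MP_696deb_nt.B6

variable [Md]

variable {n k : ℕ} {S : HS n} {T : Tate} {lam : Tp} {w : Plc} {f : ℤ} {Q : Finset Plc} {z g : Gam} {P : EE}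

theorem mem_sT {l : ℕ} : l ∈ sT lam ↔ l ∈ lam.c.primeFactors ∧ ∀ w ∈ lam.ps, w.p ≠ l := mem_filter

theorem sT_prime {l : ℕ} (h : l ∈ sT lam) : l.Prime := Nat.prime_of_mem_primeFactors (mem_sT.1 h).1

theorem sT_dvd {l : ℕ} (h : l ∈ sT lam) : l ∣ lam.c := Nat.dvd_of_mem_primeFactors (mem_sT.1 h).1

theorem sb_ne (lam : Tp) : sb lam ≠ 0 := prod_ne_zero_iff.2 fun _ h => (sT_prime h).ne_zero

theorem dvd_sb {l : ℕ} (hl : l.Prime) : l ∣ sb lam ↔ l ∈ sT lam := by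
  rw [sb, hl.prime.dvd_finsetProd_iff]
  exact ⟨fun ⟨p, hp, e⟩ => (Nat.prime_dvd_prime_iff_eq hl (sT_prime hp)).1 e ▸ hp,
    fun h => ⟨l, h, dvd_rfl⟩⟩

theorem pf_sb (lam : Tp) : (sb lam).primeFactors = sT lam :=
  Nat.primeFactors_prod fun _ => sT_prime

theorem Spl.nd30 {l : ℕ} (h : Spl n l) : ¬ l ∣ 2 * NN := nd_of_MM h.ndM

theorem Spl.ne_two {l : ℕ} (h : Spl n l) : l ≠ 2 := by
  have := h.m4
  omega

theorem Spl.ndN {l : ℕ} (h : Spl n l) : ¬ l ∣ NN := fun k => h.nd30 (k.mul_left 2)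

theorem Spl.split (h : Spl n w.p) : Dec w ≤ GK n := dec_le_split h.ne_two h.spl

theorem Spl.tm (h : Spl n w.p) : Tm (GK n) w w.p (fr w) (gn w) :=
  tm_split (op_GK n) h.ne_two h.split (fr_spec w) (gn_spec h.ne_two)

theorem Spl.not_adm (h : Spl n w.p) : ¬ Adm n w.p := fun k =>
  absurd (k.inert.symm.trans h.spl) (by decide)

theorem TOk.pl (h : TOk n lam) : lam.pl.p ∣ lam.c := h.dvd _ h.mem

theorem TOk.ex (h : TOk n lam) (hw : w.p ∣ lam.c) : w.p ∈ sT lam ∨ ∃ v ∈ lam.ps, w.p = v.p := by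
  by_contra! k
  exact k.1 (mem_sT.2 ⟨Nat.mem_primeFactors.2 ⟨w.prime, hw, h.ne⟩, fun v hv => (k.2 v hv).symm⟩)

/-- The primes of a tower are split or inert. -/
theorem TOk.cases (h : TOk n lam) (hw : w.p ∣ lam.c) : w.p ∈ sT lam ∨ Adm n w.p ∧ ¬ Rt w.p :=
  (h.ex hw).imp_right fun ⟨v, hv, e⟩ => e ▸ ⟨h.adm v hv, h.nrt v hv⟩

theorem TOk.nd30 (h : TOk n lam) (hw : w.p ∣ lam.c) : ¬ w.p ∣ 2 * NN :=
  (h.cases hw).elim (fun k => (h.spl _ k).nd30) fun k => k.1.nd30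

theorem HS.Tw.adp (h : HS.Tw S k lam f) : Adm n lam.pl.p := h.tok.adm _ h.tok.mem

theorem HS.Tw.nrt (h : HS.Tw S k lam f) : ¬ Rt lam.pl.p := h.tok.nrt _ h.tok.mem

theorem HS.ad_one (S : HS n) : S.Ad 1 := S.of_adm (adm_one n)

theorem HS.ψ_one (S : HS n) {c : ℕ} (h : S.Ad c) : S.ψ c 1 = 1 := by
  simpa using S.mul' c h 1 (one_mem _) 1 (one_mem _)

theorem HS.ψ_inv (S : HS n) {c : ℕ} (h : S.Ad c) (hg : g ∈ GK n) : S.ψ c g⁻¹ = (S.ψ c g)⁻¹ := by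
  rw [_root_.eq_inv_iff_mul_eq_one, ← S.mul' _ h _ (inv_mem hg) _ hg, inv_mul_cancel, S.ψ_one h]

theorem HS.pr_pr (S : HS n) {c c' c'' : ℕ} (h : S.Ad c'') (h1 : c ∣ c') (h2 : c' ∣ c'')
    (a : S.C c'') : S.pr c c' (S.pr c' c'' a) = S.pr c c'' a := by
  obtain ⟨g, hg, rfl⟩ := S.surj' _ h a
  rw [S.pr_ψ' _ _ h h2 g hg, S.pr_ψ' _ _ (S.of_dvd h h2) h1 g hg, S.pr_ψ' _ _ h (h1.trans h2) g hg]

theorem HS.ψ_dec (S : HS n) {c : ℕ} (h : S.Ad c) (hw : ¬ w.p ∣ c) (hI : Ine w ≤ GK n) {φ : Gam}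
    (hφ : IsFrob w w.p φ) (h' : φ ∉ GK n) (hg : g ∈ GK n ⊓ Dec w) : S.ψ c g = 1 := by
  obtain ⟨U, u1, -, u3⟩ := S.sm' c h
  obtain ⟨j, σ, hσ, e⟩ := dec_gen_inert hφ h' hI hg u1
  have h1 := mul_mem_GK h' h'
  rw [← u3 _ (mul_mem (pow_mem h1 j) (hI hσ)) g hg.1 e.1, S.mul' c h _ (pow_mem h1 j) _ (hI hσ),
    S.unr' c w h hw σ ⟨hI hσ, hσ⟩, mul_one]
  clear e
  induction j with
  | zero => rw [pow_zero, S.ψ_one h]
  | succ j ih => rw [pow_succ, S.mul' c h _ (pow_mem h1 j) _ h1, ih, S.dih' c h φ h', mul_one]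

theorem HS.ψ_IN (S : HS n) (hn : Nok n) {c : ℕ} (hc : S.Ad c) (hz : z ∈ IN) : S.ψ c z = 1 := by
  have h : IsHom (GK n) fun g => Additive.ofMul (S.ψ c g) := fun g hg u hu =>
    congrArg Additive.ofMul (S.mul' c hc g hg u hu)
  have k : IN ≤ kerOn (GK n) _ h := iSup_le fun w σ hσ =>
    have h1 := hn.IN_le (ine_le_IN w.2 hσ)
    ⟨h1, S.unr' c w hc (fun e => S.ndM hc w.1.prime e ((w.2.mul_left 2).trans dvd_MM)) σ ⟨h1, hσ⟩⟩
  exact (k hz).2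

/-- The square of the Frobenius element of the tower has no fixed vector. -/
theorem HS.Tw.unit_fq (h : HS.Tw S k lam f) (T : Tate) : IsUnit (T.ρ (fq lam.pl) - 1).det := by
  have h1 := (T.o3_iff.1 ((T.par _ _ h.adp.nd30 (fr_spec lam.pl)).2 h.nrt)).sq
  have h2 : ∀ A : B6.M2, Ord3 A → (A - 1) 0 0 * (A - 1) 1 1 - (A - 1) 0 1 * (A - 1) 1 0 ≠ 0 := by
    decide +kernel
  have h3 : T.r2 (fr lam.pl) * T.r2 (fr lam.pl) - 1 = mred 1 (T.ρ (fq lam.pl) - 1) := by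
    rw [← map_mul]
    exact ((map_sub (RingHom.mapMatrix (PadicInt.toZModPow (p := 2) 1)) (T.ρ (fq lam.pl)) 1).trans
      (by rw [map_one]; rfl)).symm
  have h4 := h2 _ h1
  rw [← det_fin_two, h3] at h4
  have h5 := fun e => h4 ((mred_det 1 _).trans e)
  rw [← RingHom.mem_ker, PadicInt.ker_toZModPow, pow_one, ← PadicInt.maximalIdeal_eq_span_p] at h5
  exact IsLocalRing.notMem_maximalIdeal.1 h5

theorem ψ_cc (S : HS n) {c : ℕ} (h : S.Ad c) (hn : 0 < n) (hg : g ∈ GK n) :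
    S.ψ c (cc * g * cc) = (S.ψ c g)⁻¹ := by
  have h1 := S.dih' c h (g * cc) fun e => cc_notMem hn ((mul_mem_cancel_left hg).1 e)
  rw [show g * cc * (g * cc) = g * (cc * g * cc) by group, S.mul' c h g hg _ (conj_cc_mem hg)] at h1
  exact eq_inv_of_mul_eq_one_right h1

theorem HS.N_le : HS.N S T k lam f ≤ GK n := fun _ h => h.1

theorem HS.N_conj (hz : z ∈ HS.N S T k lam f) (g : Gam) : g * z * g⁻¹ ∈ HS.N S T k lam f := by
  have h1 := (normal_GK n).conj_mem z hz.1 g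
  refine ⟨h1, ?_, fun h => ?_, by rw [map_mul, map_mul, hz.2.2.2, mul_one, ← map_mul,
    mul_inv_cancel, map_one]⟩
  · rw [map_mul, map_mul, mred_mul, mred_mul, hz.2.1, mul_one, ← mred_mul, ← map_mul,
      mul_inv_cancel, map_one, mred_one]
  by_cases hg : g ∈ GK n
  · have := S.mul' _ h _ h1 g hg
    rwa [inv_mul_cancel_right, S.mul' _ h g hg z hz.1, hz.2.2.1 h, mul_one, right_eq_mul] at this
  · have h2 := mul_mem_GK hg hg
    have := S.dih' _ h (g * z) (mt (mul_mem_cancel_right hz.1).1 hg)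
    rwa [show g * z * (g * z) = g * z * g⁻¹ * (g * g * z) by group,
      S.mul' _ h _ h1 _ (mul_mem h2 hz.1), S.mul' _ h _ h2 _ hz.1, S.dih' _ h g hg, hz.2.2.1 h,
      mul_one, mul_one] at this

theorem HS.normal_N (S : HS n) (T : Tate) (k : ℕ) (lam : Tp) (f : ℤ) : (HS.N S T k lam f).Normal :=
  ⟨fun _ hz g => HS.N_conj hz g⟩

theorem HS.N_cc (hz : z ∈ HS.N S T k lam f) : cc * z * cc ∈ HS.N S T k lam f := by
  simpa only [cc_inv] using HS.N_conj hz cc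

theorem HS.op_N (hl : S.Ad lam.c) : Op (HS.N S T k lam f) := by
  obtain ⟨U, u1, -, u3⟩ := (((T.sm (k + 2)).mono le_top).comp₂ (S.sm' _ hl) Prod.mk).comp₂
    (sm_chi f) Prod.mk
  refine Subgroup.isOpen_mono (H₁ := U ⊓ GK n) (fun g hg => ?_) (u1.inf (op_GK n))
  have h1 := Prod.mk.inj (u3 1 (one_mem _) g hg.2 (by simpa using hg.1))
  have := Prod.mk.inj h1.1
  exact ⟨hg.2, by rw [← this.1, map_one, mred_one], fun _ => by rw [← this.2, S.ψ_one hl],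
    by rw [← h1.2, map_one]⟩

theorem HS.psf_N (hl : S.Ad lam.c) (hz : z ∈ HS.N S T k lam f) (e : ℤ) : HS.psf S.toHS k lam f e z = 1 :=
  HS.psf_of (hz.2.2.1 hl) hz.2.2.2 e

theorem HS.rho_N (hz : z ∈ HS.N S T k lam f) {m : ℕ} (hm : m ≤ k + 2) : mred m (T.ρ z) = 1 :=
  (la_mred_le hm (hz.2.1.trans (mred_one _).symm)).trans (mred_one m)

theorem HS.ψ_N (hl : S.Ad lam.c) (hz : z ∈ HS.N S T k lam f) : S.ψ 1 z = 1 := by
  rw [← S.pr_ψ' 1 _ hl (one_dvd _) z hz.1, hz.2.2.1 hl, map_one]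

/-- The elements of `N` act trivially. -/
theorem HS.act_N (hl : S.Ad lam.c) (hz : z ∈ HS.N S T k lam f) (e : ℤ) {B : Type} [AddCommGroup B]
    [Module Lam B] (hB : Kil k B) (x : Fin 2 → B) : act T (HS.psf S.toHS k lam f e) B z x = x := by
  rw [act_apply, rep, HS.psf_N hl hz, one_smul,
    mact_mred hB ((HS.rho_N hz (Nat.le_add_right k 2)).trans (mred_one k).symm),
    Matrix.map_one _ (map_zero _) (map_one _), mact_one]

theorem HS.Dp.deep (h : HS.Dp S T k lam f w) (hl : S.Ad lam.c) (e : ℤ) :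
    DpL n k T lam (HS.psf S.toHS k lam f e) w :=
  ⟨h.adm, h.ne, h.mem.2.1, by rw [HS.psf_N hl h.mem, sub_self]; exact zero_mem _⟩

theorem HS.dpS_empty (S : HS n) (T : Tate) (k : ℕ) (lam : Tp) (f : ℤ) : HS.DpS S T k lam f ∅ :=
  ⟨fun _ h => absurd h (notMem_empty _), fun _ h => absurd h (notMem_empty _)⟩

theorem HS.Dp.dpS (h : HS.Dp S T k lam f w) : HS.DpS S T k lam f {w} := ⟨by simpa using h, by simp⟩

theorem HS.Dp.fq_mem (h : HS.Dp S T k lam f w) : fq w ∈ HS.N S T k lam f :=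
  deep_sq (HS.normal_N S T k lam f) h.mem

/-- The value at zero is the character of the branch. -/
theorem HS.psf_X {e : ℤ} (hl : S.Ad lam.c) (hf : f ≠ 0) (he : e ∣ n) (h4 : e % 4 = 1) {g : Gam}
    (hg : g ∈ GK n) :
    HS.psf S.toHS k lam f e g - ((chi (f * e) g : ℤ) : Lam) ∈ Ideal.span {(X : Lam)} := by
  rw [HS.psf, HS.psi, HS.Psi, S.pr_ψ' 1 _ hl (one_dvd _) g hg, S.gen_ψ e he h4 g hg,
    chi_mul hf (by omega), Units.val_mul, Int.cast_mul, ← mul_assoc]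
  exact xtw_mul _ (xtw_X _)

/-- Elements that act as scalars are central modulo `N`. -/
theorem HS.comm_N (hz : z ∈ GK n) {c : ℤ_[2]} (h2 : mred (k + 2) (T.ρ z) = mred (k + 2) (c • 1))
    (hg : g ∈ GK n) : z * g * z⁻¹ * g⁻¹ ∈ HS.N S T k lam f := by
  have h5 := mul_mem (mul_mem (mul_mem hz hg) (inv_mem hz)) (inv_mem hg)
  refine ⟨h5, ?_, fun hl => ?_, by
    simp only [map_mul, map_inv, mul_inv_cancel_comm, mul_inv_cancel]⟩
  · have e : mred (k + 2) (T.ρ (z * g)) = mred (k + 2) (T.ρ (g * z)) := by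
      rw [map_mul, map_mul, mred_mul, mred_mul, h2, ← mred_mul, ← mred_mul, smul_one_mul,
        mul_smul_one]
    rw [mul_assoc, map_mul, mred_mul, e, ← mred_mul, ← map_mul, ← _root_.mul_inv_rev,
      mul_inv_cancel, map_one, mred_one]
  · have := S.mul' _ hl _ h5 _ (mul_mem hg hz)
    rwa [show z * g * z⁻¹ * g⁻¹ * (g * z) = z * g by group, S.mul' _ hl z hz g hg,
      S.mul' _ hl g hg z hz, mul_comm (S.ψ _ z), right_eq_mul] at this

/-- The choice of a deep place. -/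
theorem HS.exists_dp (ch : ChebStmt) (hn : Nok n) (hl : S.Ad lam.c) {A : Type} [AddCommGroup A]
    {m : ℕ} (hA : ∀ x : A, 2 ^ m • x = 0) {c : Gam → A} (sm : Sm (GK n) c)
    (hom : IsHom (HS.N S T k lam f) c) (hz : z ∈ HS.N S T k lam f) (B : Finset ℕ) :
    ∃ (w : Plc) (u : ℕ), w.p ∉ B ∧ Odd u ∧ HS.Dp S T k lam f w ∧
      c (fq w) = u • (c z + c (cc * z * cc)) := by
  obtain ⟨U, u1, -, u3⟩ := id sm
  obtain ⟨B', hB⟩ := finite_ram u1
  obtain ⟨w, φ, s, u, h1, h2, h3, h4⟩ := exists_TwD ch T hn.pos (HS.op_N hl) (HS.normal_N S T k lam f)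
    HS.N_le (m := k + 2) (fun g hg => hg.2.1) hA (Set.finite_singleton c)
    (fun _ e => (show _ = c from e) ▸ ⟨sm.mono HS.N_le, hom⟩) hz ((lam.c.primeFactors ∪ (B ∪ B')).sup id)
  have h5 : w.p ∉ lam.c.primeFactors ∪ (B ∪ B') := fun e => h1.not_ge (le_sup (f := id) e)
  rw [mem_union, mem_union, not_or, not_or] at h5
  have h6 := h2.frob.inv_mul_mem (fr_spec w)
  have h7 : ∀ σ ∈ Ine w, c σ = 0 := fun σ hσ => by
    rw [← u3 1 (one_mem _) σ (HS.N_le (h2.ine hσ)) (by simpa using hB w h5.2.2 hσ), hom.one]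
  have h8 := conj_mem_Ine (inv_mem h2.frob.1) h6
  refine ⟨w, u, h5.2.1, h3, ⟨.of_prime h2.nd30 h2.inert,
    fun e => h5.1 (Nat.mem_primeFactors.2 ⟨w.prime, e, (S.sqf hl).ne_zero⟩), ?_⟩, ?_⟩
  · simpa [mul_assoc] using mul_mem h2.mem (h2.ine h6)
  · rw [← h4 c rfl, show fq w = φ * φ * (φ⁻¹ * (φ⁻¹ * fr w) * φ⁻¹⁻¹ * (φ⁻¹ * fr w)) by
      rw [fq]; group, hom _ h2.sq _ (h2.ine (mul_mem h8 h6)), h7 _ (mul_mem h8 h6), add_zero]

/-- A group is not the union of two proper subgroups. -/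
theorem HS.Often.exists (ch : ChebStmt) (hn : Nok n) (hl : S.Ad lam.c) {P P' : Plc → Prop}
    (h : HS.Often S T k lam f P) (h' : HS.Often S T k lam f P') :
    ∃ w, HS.Dp S T k lam f w ∧ P w ∧ P' w := by
  obtain ⟨m, c, c1, c2, ⟨z, hz, c3⟩, c4⟩ := h
  obtain ⟨m', c', c1', c2', ⟨z', hz', c3'⟩, c4'⟩ := h'
  obtain ⟨y, hy, y1, y2⟩ : ∃ y ∈ HS.N S T k lam f, c y + c (cc * y * cc) ≠ 0 ∧
      c' y + c' (cc * y * cc) ≠ 0 := by
    by_cases e : c' z + c' (cc * z * cc) = 0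
    · by_cases e' : c z' + c (cc * z' * cc) = 0
      · refine ⟨z * z', mul_mem hz hz', ?_, ?_⟩
        · rwa [cc_mul, c2 _ hz _ hz', c2 _ (HS.N_cc hz) _ (HS.N_cc hz'), add_add_add_comm, e',
            add_zero]
        · rwa [cc_mul, c2' _ hz _ hz', c2' _ (HS.N_cc hz) _ (HS.N_cc hz'), add_add_add_comm, e,
            zero_add]
      · exact ⟨z', hz', e', c3'⟩
    · exact ⟨z, hz, c3, e⟩
  obtain ⟨w, u, -, hu, hw, e⟩ := HS.exists_dp ch hn hl (A := ZMod (2 ^ m) × ZMod (2 ^ m'))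
    (m := m + m') (fun x => Prod.ext (xtw_kill (Nat.le_add_right m m') _)
      (xtw_kill (Nat.le_add_left m' m) _))
    (c1.comp₂ c1' Prod.mk) (fun g hg u hu => Prod.ext (c2 g hg u hu) (c2' g hg u hu)) hy ∅
  exact ⟨w, hw, c4 w hw ((congrArg Prod.fst e).trans_ne (xtw_odd hu y1)),
    c4' w hw ((congrArg Prod.snd e).trans_ne (xtw_odd hu y2))⟩

/-- The unit lemma: the Kummer cocycle of a point that is not divisible by two maps `N` onto the
points of order two. -/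
theorem HS.unit (hn : Nok n) (hl : S.Ad lam.c) (hP : P ∈ EN) (ho : Od P)
    (hN : ∀ z ∈ HS.N S T k lam 1, z • P = P) {R : EE} (hR : 2 • R = P) (x : V2) :
    ∃ z ∈ HS.N S T k lam 1, z • R - R = T.i2 x := by
  subst hR
  obtain ⟨w, v, s, t, e⟩ := T.exists_tv
  obtain ⟨h1, h2, h3⟩ := e.ord2
  have kum : ∀ (w : Plc) (s : Gam), w.p ∣ NN → s ∈ Ine w →
      ∃ x, s • R - R = s • T.i2 x - T.i2 x := fun w s hw hs => by
    obtain ⟨t, t1, t2⟩ := T.kum_pow hw (m := 1) (R := R) fun σ hσ => hP σ (ine_le_IN hw hσ)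
    obtain ⟨x, rfl⟩ := T.surj_i2 t t1
    exact ⟨x, t2 s hs⟩
  refine (tw_unit T.smul_i2 T.surj_i2 (I := IN) (HS.normal_N S T k lam 1)
    (fun z hz => T.r2_of (by omega) hz.2.1) h1 h2 h3 (fun σ hσ => ?_) hN (kum w s e.wN e.hs.1)
    (kum v t e.vN e.ht.1)).elim (fun ⟨y, hy⟩ => (ho _ hy ?_).elim) fun h => h x
  · obtain ⟨u, u1, u2⟩ := e.big _ (T.det_IN hσ) (k + 2)
    have u3 := mul_mem (inv_mem (e.le_IN u1)) hσ
    exact ⟨u, u1, hn.IN_le u3, by rw [map_mul, mred_mul, ← u2, ← mred_mul, ← map_mul,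
      inv_mul_cancel, map_one, mred_one], fun _ => S.ψ_IN hn hl u3, xi_eq_zero.1 (B2.xi_one _)⟩
  · rw [smul_sub, ← map_nsmul, v2_two', map_zero, sub_zero]

theorem N_fix (hg : g ∈ HS.N S T k lam f) {m : ℕ} (hm : m ≤ k + 2) (P : EE) (hP : 2 ^ m • P = 0) :
    g • P = P := by
  obtain ⟨x, rfl⟩ := T.surj m P hP
  rw [T.smul, la_mred_le hm (hg.2.1.trans (la_mred_one _).symm), la_mred_one, one_mulVec]

end Pool.Agent.B6.B7.C5
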