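import Pool.Agent.Lib.MP_696deb_nt.B3.CMb

/-! The kernel of the projection between ring class groups at a split prime is cyclic. -/

set_option autoImplicit false

open scoped Classical

namespace Pool.Agent.B6.B7.C5

open Pool.Agent.Lib.MP_696deb_nt Pool.Agent.Lib.MP_696deb_nt.B2 Pool.Agent.Lib.MP_696deb_nt.B2.CM
open Pool.Agent.Lib.MP_696deb_nt.B3.CM (St isIv_of_not_st not_st_of_isIv)

variable {n l d : ℕ} {b k i j x y : ℤ}

/-- The integers that reduce to `b` and to `j b` modulo the two primes above `l`. -/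
noncomputable def nuU (n : ℕ) (b j : ℤ) : ℂ := ((j - 1 : ℤ) : ℂ) * be n 1 b + b

/-- The lattices that they define. -/
noncomputable def nuX (n l : ℕ) (b j : ℤ) : Lt := Iu n 1 l (nuU n b j)

/-- The data of a split prime. -/
structure NuD (n l : ℕ) (b k : ℤ) : Prop where
  ok : Ok n 1
  pr : l.Prime
  eq : b ^ 2 + n * (1 : ℕ) ^ 2 = 4 * l * k
  nd : ¬ (l : ℤ) ∣ b

namespace NuD

theorem ot (h : NuD n l b k) : ot (Oc n 1) = sp2 (be n 1 b) 1 := by
  rw [cmb_ot h.ok.m4 h.eq, cmb_comm]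

theorem mem (h : NuD n l b k) (x y : ℤ) : (x : ℂ) * be n 1 b + y ∈ CM.ot (Oc n 1) := by
  rw [h.ot]
  exact mem_sp2.2 ⟨x, y, by rw [mul_one]⟩

theorem bm (h : NuD n l b k) : be n 1 b ∈ Oc n 1 :=
  be_mem h.ok.m4 (two_dvd_sub h.ok.m4 (h.eq.trans (mul_assoc _ _ _)))

theorem mem_sc (h : NuD n l b k) :
    (x : ℂ) * be n 1 b + y ∈ sc l (CM.ot (Oc n 1)) ↔ (l : ℤ) ∣ x ∧ (l : ℤ) ∣ y := by
  rw [h.ot, cmd_mem_sc (cma_im (by have := h.ok.gt; omega) one_ne_zero)]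

theorem pz (h : NuD n l b k) : Prime (l : ℤ) := Nat.prime_iff_prime_int.1 h.pr

theorem self (n l : ℕ) (b j : ℤ) : nuU n b j ∈ nuX n l b j :=
  Submodule.mem_sup_left (Submodule.mem_span_singleton_self _)

theorem low (h : NuD n l b k) (j : ℤ) : sc l (CM.ot (Oc n 1)) < nuX n l b j :=
  lt_of_le_not_ge le_sup_right fun e => h.nd (h.mem_sc.1 (e (self n l b j))).2

theorem up (h : NuD n l b k) (j : ℤ) : nuX n l b j < CM.ot (Oc n 1) :=
  cmd_span_lt h.pr (isLat_Oc h.ok) (h.mem _ _)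

theorem nst (h : NuD n l b k) (hj : ¬ (l : ℤ) ∣ j) : ¬ St n 1 (nuX n l b j) := fun hw => by
  obtain ⟨t, ht⟩ := cmd_mem_sup (hw.mul_mem h.ok.m4 h.bm (self n l b j))
  have hs := cmb_sq h.eq
  rw [show be n 1 b * nuU n b j - t * nuU n b j = ((j * b - t * (j - 1) : ℤ) : ℂ) * be n 1 b +
    (-(l * (k * (j - 1))) - t * b : ℤ) by
      rw [nuU]; push_cast at hs ⊢; linear_combination ((j : ℂ) - 1) * hs, h.mem_sc] at ht
  have h1 : (l : ℤ) ∣ t * b := by
    have := (ht.2.add (dvd_mul_right (l : ℤ) (k * (j - 1)))).neg_right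
    rwa [show -(-(l * (k * (j - 1))) - t * b + l * (k * (j - 1))) = t * b by ring] at this
  have h2 : (l : ℤ) ∣ j * b := by
    have := ht.1.add (((h.pz.dvd_or_dvd h1).resolve_right h.nd).mul_right (j - 1))
    rwa [sub_add_cancel] at this
  exact (h.pz.dvd_or_dvd h2).elim hj h.nd

theorem isIv (h : NuD n l b k) (hj : ¬ (l : ℤ) ∣ j) :
    IsIv (Oc n (1 * l)) (nuX n l b j) ∧ nuX n l b j * CM.ot (Oc n 1) = CM.ot (Oc n 1) :=
  isIv_of_not_st h.ok h.pr (isIv_one _) (h.low j) (h.up j) (h.nst hj)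

theorem congr (h : NuD n l b k) (e : (l : ℤ) ∣ i - j) : nuX n l b i = nuX n l b j := by
  refine Iu_congr ?_
  rw [show nuU n b i - nuU n b j = ((i - j : ℤ) : ℂ) * be n 1 b + (0 : ℤ) by
    rw [nuU, nuU]; push_cast; ring, h.mem_sc]
  exact ⟨e, dvd_zero _⟩

/-- A lattice in the middle that contains a multiple of the generator. -/
theorem eq_of_mem (h : NuD n l b k) {I : Lt} (h1 : sc l (CM.ot (Oc n 1)) ≤ I)
    (h2 : I < CM.ot (Oc n 1)) (hx : ¬ (l : ℤ) ∣ x) (h3 : x * nuU n b j ∈ I) : nuX n l b j = I :=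
  mid_eq h.pr (isLat_Oc h.ok) (h.low j) (sup_le ((Submodule.span_singleton_le_iff_mem _ _).2
    (cmd_bez h.pr hx (h1 (CM.mem_sc.2 ⟨_, h.mem _ _, rfl⟩)) h3)) h1) h2

theorem mul (h : NuD n l b k) (hi : ¬ (l : ℤ) ∣ i) (hj : ¬ (l : ℤ) ∣ j) :
    nuX n l b (i * j) = nuX n l b i * nuX n l b j := by
  have m := mid_of_isIv h.ok h.pr ((h.isIv hi).1.mul (h.isIv hj).1)
  rw [mul_assoc, (h.isIv hj).2, (h.isIv hi).2] at m
  refine h.eq_of_mem m.1.le m.2 h.nd ?_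
  have hs := cmb_sq h.eq
  have h1 := add_mem (Submodule.mul_mem_mul (self n l b i) (self n l b j))
    (m.1.le ((h.mem_sc (x := 0) (y := l * (k * ((i - 1) * (j - 1))))).2
      ⟨dvd_zero _, dvd_mul_right _ _⟩))
  convert h1 using 1
  rw [nuU, nuU, nuU]
  push_cast at hs ⊢
  linear_combination -((i : ℂ) - 1) * ((j : ℂ) - 1) * hs

theorem inj (h : NuD n l b k) (hi : ¬ (l : ℤ) ∣ i) (hj : ¬ (l : ℤ) ∣ j)
    (e : cl (Oc n (1 * l)) (nuX n l b i) = cl _ (nuX n l b j)) : (l : ℤ) ∣ i - j := by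
  obtain ⟨t, -, e⟩ := (cl_eq_iff (h.isIv hi).1 (h.isIv hj).1).1 e
  have e2 := (h.isIv hj).2
  rw [e, sc_mul, (h.isIv hi).2] at e2
  have h1 : nuU n b i ∈ nuX n l b j := by
    have h2 : t * nuU n b i ∈ nuX n l b j := e ▸ CM.mem_sc.2 ⟨_, self n l b i, rfl⟩
    rcases unit_Oc h.ok e2 with rfl | rfl
    · rwa [one_mul] at h2
    · rwa [neg_one_mul, neg_mem_iff] at h2
  obtain ⟨s, hs⟩ := cmd_mem_sup h1
  rw [show nuU n b i - s * nuU n b j = ((i - 1 - s * (j - 1) : ℤ) : ℂ) * be n 1 b +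
    ((1 - s) * b : ℤ) by rw [nuU, nuU]; push_cast; ring, h.mem_sc] at hs
  have := hs.1.sub (((h.pz.dvd_or_dvd hs.2).resolve_right h.nd).mul_right (j - 1))
  rwa [show i - 1 - s * (j - 1) - (1 - s) * (j - 1) = i - j by ring] at this

theorem surj (h : NuD n l b k) {a : Pc n (1 * l)} (ha : pj n 1 (1 * l) a = 1) :
    ∃ j : ℤ, ¬ (l : ℤ) ∣ j ∧ a = cl _ (nuX n l b j) := by
  obtain ⟨I, hI, rfl, h1, h3⟩ := cmd_lift h.ok h.pr (isIv_one _) (ha.trans cl_one.symm)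
  obtain ⟨u, hu, -, e⟩ := cmd_span h.pr (isLat_Oc h.ok) h1 h3
  obtain ⟨p, q, rfl⟩ := cmd_mem (h.ot ▸ h3.le hu)
  have hs := cmb_sq h.eq
  have l0 : (l : ℂ) ≠ 0 := Nat.cast_ne_zero.2 h.pr.ne_zero
  have key : ∀ t : ℤ, be n 1 b * (p * be n 1 b + q) - t * (p * be n 1 b + q) ∉
      sc l (CM.ot (Oc n 1)) := fun t ht => not_st_of_isIv h.ok h.pr hI fun z hz => by
    obtain ⟨s, hz'⟩ := cmd_mem_sup (e ▸ hz)
    obtain ⟨r, v, hv⟩ := cmd_mem (h.ot.le (be_mem (b := (1 : ℕ)) h.ok.m4 (by simp)))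
    have k1 : be n 1 b * z ∈ I := by
      have k2 := h1.le (((isIv_one _).sc l0).mul_mem h.bm hz')
      have k3 := add_mem (add_mem k2 (int_mul_mem (h1.le ht) s)) (int_mul_mem hu (s * t))
      convert k3 using 1
      push_cast
      ring
    rw [hv, add_mul, mul_assoc]
    exact add_mem (int_mul_mem k1 r) (int_mul_mem hz v)
  have hq : ¬ (l : ℤ) ∣ q := fun hq => key b (by
    rw [show be n 1 b * (p * be n 1 b + q) - b * (p * be n 1 b + q) = (q : ℂ) * be n 1 b +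
      (-(l * (k * p)) - q * b : ℤ) by push_cast at hs ⊢; linear_combination p * hs, h.mem_sc]
    exact ⟨hq, (dvd_mul_right _ _).neg_right.sub (hq.mul_right _)⟩)
  have hp : ¬ (l : ℤ) ∣ p * b + q := fun hp => key 0 (by
    rw [show be n 1 b * (p * be n 1 b + q) - (0 : ℤ) * (p * be n 1 b + q) =
      ((p * b + q : ℤ) : ℂ) * be n 1 b + (-(l * (k * p)) : ℤ) by
        push_cast at hs ⊢; linear_combination p * hs, h.mem_sc]
    exact ⟨hp, (dvd_mul_right _ _).neg_right⟩)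
  obtain ⟨r, v, hv⟩ := cmd_cop h.pr hq
  have hv' : (r : ℂ) * l + v * q = 1 := by exact_mod_cast hv
  refine ⟨(p * b + q) * v, fun k1 => (h.pz.dvd_or_dvd k1).elim hp fun k2 => cmd_one h.pr
    (hv ▸ (dvd_mul_left _ _).add (k2.mul_right _)), congrArg _ (h.eq_of_mem h1.le h3 hq ?_).symm⟩
  have k1 := add_mem (int_mul_mem hu b) (h1.le ((h.mem_sc (x := -(l * (r * (p * b + q))))
    (y := 0)).2 ⟨(dvd_mul_right _ _).neg_right, dvd_zero _⟩))
  convert k1 using 1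
  rw [nuU]
  push_cast
  linear_combination (p * b + q) * be n 1 b * hv'

theorem nd_unit (h : NuD n l b k) (u : (ZMod l)ˣ) : ¬ (l : ℤ) ∣ ((u : ZMod l).cast : ℤ) := by
  have := Fact.mk h.pr
  rw [← ZMod.intCast_zmod_eq_zero_iff_dvd, ZMod.intCast_zmod_cast]
  exact u.ne_zero

/-- The parametrization of the kernel. -/
noncomputable def hom (h : NuD n l b k) : (ZMod l)ˣ →* Pc n (1 * l) :=
  MonoidHom.mk' (fun u => cl _ (nuX n l b ((u : ZMod l).cast : ℤ))) fun u v => by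
    rw [← cl_mul (h.isIv (h.nd_unit u)).1 (h.isIv (h.nd_unit v)).1,
      ← h.mul (h.nd_unit u) (h.nd_unit v), h.congr]
    rw [← ZMod.intCast_eq_intCast_iff_dvd_sub]
    simp

theorem hom_apply (h : NuD n l b k) (u : (ZMod l)ˣ) :
    h.hom u = cl _ (nuX n l b ((u : ZMod l).cast : ℤ)) := rfl

theorem hom_inj (h : NuD n l b k) : Function.Injective h.hom := fun u v e => by
  have := (ZMod.intCast_eq_intCast_iff_dvd_sub _ _ _).2 (h.inj (h.nd_unit u) (h.nd_unit v) e)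
  rw [ZMod.intCast_zmod_cast, ZMod.intCast_zmod_cast] at this
  exact Units.ext this.symm

theorem range (h : NuD n l b k) : h.hom.range = (pj n 1 (1 * l)).ker := by
  have := Fact.mk h.pr
  refine le_antisymm ?_ fun a ha => ?_
  · rintro _ ⟨u, rfl⟩
    have k1 := h.isIv (h.nd_unit u)
    exact (pj_cl (dvd_mul_right 1 l) k1.1).trans (by rw [k1.2, cl_one])
  · obtain ⟨j, hj, rfl⟩ := h.surj ha
    refine ⟨Units.mk0 (j : ZMod l) (mt (ZMod.intCast_zmod_eq_zero_iff_dvd _ _).1 hj), ?_⟩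
    rw [hom_apply, h.congr (j := j)]
    rw [← ZMod.intCast_eq_intCast_iff_dvd_sub]
    simp

/-- The kernel of the projection between the two-primary class groups. -/
theorem cyc (h : NuD n l b k) (hd : d = 1 * l) : ∃ γ : Tw (Pc n d),
    orderOf γ = ordProj[2] (l - 1) ∧ (twm (pj n 1 d)).ker = Subgroup.zpowers γ := by
  subst hd
  have := Fact.mk h.pr
  have := finite_Pc h.ok.m4 h.ok.gt (1 * l)
  obtain ⟨u, hu⟩ := IsCyclic.exists_generator (α := (ZMod l)ˣ)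
  have e : (twm (pj n 1 (1 * l))).ker = Subgroup.zpowers (tq _ (h.hom u)) := by
    refine le_antisymm (fun a ha => ?_) (Subgroup.zpowers_le.2 ?_)
    · obtain ⟨x, hx, rfl⟩ := ker_twm ha
      obtain ⟨v, rfl⟩ : x ∈ h.hom.range := h.range ▸ hx
      obtain ⟨m, rfl⟩ := hu v
      exact ⟨m, by simp only [map_zpow]⟩
    · rw [MonoidHom.mem_ker, twm_tq, show pj n 1 (1 * l) (h.hom u) = 1 from
        (h.range ▸ ⟨u, rfl⟩ : h.hom u ∈ (pj n 1 (1 * l)).ker), map_one]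
  refine ⟨_, ?_, e⟩
  rw [← Nat.card_zpowers, ← e, card_ker_twm, ← h.range,
    ← Nat.card_congr (h.hom.ofInjective h.hom_inj).toEquiv, Nat.card_eq_fintype_card,
    ZMod.card_units]

end NuD

end Pool.Agent.B6.B7.C5
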