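import Pool.Agent.Lib.MP_696deb_nt.B10.C0
import Pool.Agent.Lib.MP_696deb_nt.B10.CNUa
import Pool.Agent.Lib.MP_696deb_nt.B2.MCF

/-! The characters of the ring class groups at the split primes. -/

set_option autoImplicit false

open scoped Classical NumberTheorySymbols

namespace Pool.Agent.B6.B7.C5

open Pool.Agent.Lib.MP_696deb_nt Pool.Agent.Lib.MP_696deb_nt.B2 Pool.Agent.Lib.MP_696deb_nt.B2.CM

variable {n c : ℕ} {w : Plc} {g : Gam}

/-- The ring class field is unramified outside the conductor. -/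
theorem nu_unr (F : CFT) (hn : B4.Nw n) (ok : Ok n c) (hw : ¬ w.p ∣ c) (hg : g ∈ GK n ⊓ Ine w) :
    psi n c g = 1 := by
  have := hn.fin c
  by_cases h : w.p ∣ n
  · exact tq_rho_ram ok hn.sqf h hg
  by_cases k : ∃ s ∈ Dec w, s ∉ GK n
  · obtain ⟨s, hs, hs'⟩ := k
    by_contra k
    obtain ⟨m, θ, -, h2⟩ := exists_char CM.tw_two ⊥ (a := psi n c g) k
    exact h2 (unr_inert F ok (θ.comp (tq _)) h hw hs hs' hg)
  · have h2 : w.p ≠ 2 := fun e => k (hn.two e)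
    obtain ⟨φ, hφ⟩ := B2.exists_frob w
    have h3 : φ ∈ GK n := by_contra fun e => k ⟨φ, hφ.1, e⟩
    have h4 : ¬ (w.p : ℤ) ∣ 2 * -n := fun e => by
      rcases (Nat.prime_iff_prime_int.1 w.prime).dvd_mul.1 e with e | e
      · exact h2 ((Nat.prime_dvd_prime_iff_eq w.prime Nat.prime_two).1 (by exact_mod_cast e))
      · exact h (by exact_mod_cast (dvd_neg.1 e))
    have h5 := B2.chi_frob h4 hφ
    rw [B4c_mem.1 h3] at h5
    obtain ⟨b, k, e, hb⟩ := exists_root_split ok.m4 w.prime h2 h5.symm hw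
    rw [psi, rho_ine_split ok e hb hg.2, map_one]

/-- The quadratic character that is ramified at a prime that is one modulo four. -/
theorem nu_par (sq : Squarefree n) (m4 : n % 4 = 3) (cb : CondB n) (p4 : w.p % 4 = 1)
    (hj : ∀ p : ℕ, p.Prime → p ∣ n → J(w.p | p) = 1) {ξ : Gam → ZMod 2} (h1 : Sm (GK n) ξ)
    (h2 : IsHom (GK n) ξ) (h3 : ∀ g ∉ GK n, ξ (g * g) = 0)
    (h4 : ∀ v : Plc, ¬ v.p ∣ w.p → ∀ σ ∈ GK n ⊓ Ine v, ξ σ = 0)
    (h5 : ∃ τ ∈ GK n ⊓ Ine w, ξ τ ≠ 0)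
    (h6 : ∀ v : Plc, v.p ∣ n → ∀ g ∈ GK n ⊓ Dec v, ξ g = 0) :
    ∀ g ∈ GK n, ξ g = xi w.p g := by
  have l0 : (w.p : ℤ) ≠ 0 := by omega
  obtain ⟨e, e1, e2, e3, e4⟩ := B4.quad n w.p ξ m4 w.prime.ne_zero (Nat.odd_iff.2 (by omega))
    h1 h2 h3 h4
  obtain ⟨τ, hτ, hu⟩ := h5
  obtain ⟨e', rfl⟩ : (w.p : ℤ) ∣ e := by
    by_contra k
    exact hu ((e4 τ hτ.1).trans (xi_ine e3 k hτ.2))
  have e0 := right_ne_zero_of_mul e1.ne_zero
  have e5 : e' ∣ n := (mul_dvd_mul_iff_left l0).1 (mul_comm (n : ℤ) w.p ▸ e2)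
  have e6 : e' % 4 = 1 := by
    rwa [Int.mul_emod, show (w.p : ℤ) % 4 = 1 by omega, one_mul,
      Int.emod_emod_of_dvd _ dvd_rfl] at e3
  intro g hg
  rw [e4 g hg, B2.xi_mul l0 e0, tw_genus sq m4 cb (sm_xi e') (fun g _ k _ => xi_hom _ g k)
    (fun v hv σ hσ => xi_ine e6 (fun k => hv (k.trans e5)) hσ) (fun v hv k hk => ?_) g hg, add_zero]
  have hv' := Int.natCast_dvd_natCast.1 hv
  have k1 := e4 k hk.1
  rwa [h6 v hv' k hk, B2.xi_mul l0 e0, B2.xi_dec (fun h => by rw [h] at hv'; omega)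
    (hj _ v.prime hv') hk.2, zero_add, eq_comm] at k1

theorem nu_stmt : NUStmt := by
  intro n l s hn hl hs hc
  obtain ⟨F⟩ := m_cft
  obtain ⟨w, rfl⟩ := exists_plc hl
  have m4 : n % 4 = 3 := by have := hn.m8; omega
  have d1 : 2 ^ (s + 1) ∣ w.p - 1 :=
    (Nat.modEq_iff_dvd' hl.one_le).1 (hc.of_dvd (dvd_mul_right _ _)).symm
  have p4 : w.p % 4 = 1 := hc.of_dvd ((pow_dvd_pow 2 (by omega : 2 ≤ s + 1)).mul_right n)
  have h2 : w.p ≠ 2 := by omega
  have hj : ∀ p : ℕ, p ∣ n → J(w.p | p) = 1 := fun p hp => by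
    rw [jacobiSym.mod_left' (a₂ := 1) (by
      exact_mod_cast (hc.of_dvd (hp.mul_left _) : w.p % p = 1 % p)), jacobiSym.one_left]
  have hJ : J(-n | w.p) = 1 := by
    rw [jacobiSym.neg _ (Nat.odd_iff.2 (by omega)), ZMod.χ₄_nat_one_mod_four p4, one_mul,
      jacobiSym.quadratic_reciprocity_one_mod_four' (Nat.odd_iff.2 (by omega)) p4, hj n dvd_rfl]
  have ok1 := hn.ok B4.aw_one
  have ok : Ok n w.p := ⟨m4, hn.gt, hl.ne_zero⟩
  obtain ⟨b, k, e, hb⟩ := exists_root_split (c := 1) m4 hl h2 hJ hl.not_dvd_one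
  obtain ⟨γ, g1, g2⟩ := NuD.cyc ⟨ok1, hl, e, hb⟩ (one_mul w.p).symm
  obtain ⟨τ, hτ⟩ := exists_gen h2
  have t1 : τ ∈ GK n := dec_le_split h2 hJ (Ine_le w hτ.1)
  obtain ⟨θ, hθ⟩ := exists_lift (GK n) (psi n w.p) (chi w.p) (psi_mul ok) (psi_surj ok)
    fun g hg k => by simpa only [pst, if_pos p4] using B4.chi_rho ok hg hl h2 (dvd_mul_left _ _) k
  obtain ⟨j, t2⟩ : psi n w.p τ ∈ Subgroup.zpowers γ := by
    rw [← g2, MonoidHom.mem_ker, pr_psi ok (one_dvd _), psi, rho_ine_split ok1 e hb hτ.1, map_one]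
  have t3 := congrArg θ t2
  simp only [map_zpow, hθ τ t1, hτ.2] at t3
  have t4 : θ γ = -1 := (Int.units_eq_one_or _).resolve_left fun k => by
    rw [k, one_zpow] at t3
    exact absurd t3 (by decide)
  have t5 : Odd j := (Int.even_or_odd j).resolve_left fun k => by
    rw [t4, k.neg_one_zpow] at t3
    exact absurd t3 (by decide)
  obtain ⟨ν, h3, h4⟩ := exists_nu (s := s) g1 ((Nat.prime_two.pow_dvd_iff_le_factorization
    (Nat.sub_ne_zero_of_lt hl.one_lt)).1 d1) fun a => by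
      obtain ⟨i, hi⟩ : a ^ 2 ∈ Subgroup.zpowers γ := by
        obtain ⟨x, rfl⟩ := tq_surj a
        rw [← g2, MonoidHom.mem_ker, map_pow, twm_tq]
        exact B4.tq_two ok1 hn.sqf hn.condB _
      have h5 := congrArg θ hi
      simp only [map_zpow, map_pow, t4, Int.units_sq] at h5
      obtain ⟨k, rfl⟩ | hk := Int.even_or_odd i
      · exact ⟨k, by rw [two_mul, ← hi]⟩
      · rw [hk.neg_one_zpow] at h5
        exact absurd h5 (by decide)
  have s2 : 2 ∣ 2 ^ s := dvd_pow_self 2 hs.ne'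
  have par := nu_par hn.sqf m4 hn.condB p4 (fun p _ => hj p)
    (ξ := fun g => ZMod.castHom s2 (ZMod 2) (ν (psi n w.p g)).toAdd)
    ((sm_rho _ n w.p).comp fun x => ZMod.castHom s2 (ZMod 2) (ν (tq _ x)).toAdd)
    (fun g hg k hk => by simp only [psi_mul ok g hg k hk, map_mul, toAdd_mul, map_add])
    (fun g hg => by simp only [psi, rho_sq ok hg, map_one, toAdd_one, map_zero])
    (fun v hv σ hσ => by simp only [nu_unr F hn ok hv hσ, map_one, toAdd_one, map_zero])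
    ⟨τ, ⟨t1, hτ.1⟩, by
      obtain ⟨i, rfl⟩ := t5
      rw [← t2]
      simp only [map_zpow, h3, toAdd_zpow, toAdd_ofAdd, zsmul_eq_mul, mul_one, map_intCast]
      rw [Ne, ZMod.intCast_zmod_eq_zero_iff_dvd]
      omega⟩
    fun v hv g hg => by
      simp only [psi, h4 _ (tq_rho_ram_sq ok hn.sqf hv hg), toAdd_one, map_zero]
  refine ⟨ν, fun g hg => ?_⟩
  have h5 := par g hg
  simp only [ZMod.castHom_apply, ← ZMod.natCast_val] at h5
  rw [← ZMod.natCast_eq_one_iff_odd, h5, xi_eq_one]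

end Pool.Agent.B6.B7.C5
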