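import Pool.Agent.Lib.MP_696deb_nt.B7.KL7a
import Pool.Agent.Lib.MP_696deb_nt.B10.CKC
import Pool.Agent.Lib.MP_696deb_nt.B10.CA

/-! The core of the converse theorem from seeds at all depths. -/

set_option autoImplicit false

open scoped NNReal Classical
open Finset Matrix NumberTheorySymbols PowerSeries

namespace Pool.Agent.B6.B7.C5

open Pool.Agent.Lib.MP_696deb_nt Pool.Agent.Lib.MP_696deb_nt.B2 Pool.Agent.Lib.MP_696deb_nt.B6

variable [Md]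

theorem m_core (sl : SLStmt) (tg : TGStmt) (tw : TWStmt) (F : CFT) (su : SUStmt) (ch : ChebStmt)
    (T : Tate) {n : ℕ} {f d e e' : ℤ} (hn : Nok n) (hf : Fok n f) (hd : d ∣ 2) {S : HS n}
    (Y₀ : ES S d) (Y : ES S f) (hY : Cong Y Y₀) (ho : Y₀.Seed f) (he : e * e' = -n)
    (h4 : e % 4 = 1) (h : Cork (f * e)) (h' : Cork (f * e')) :
    ¬ IsOfFinAddOrder (Y.ychi e) ∧ ¬ (Nz (f * e) ∧ Nz (f * e')) := by
  obtain ⟨t1, t2⟩ := tg T n f e e' S hn hf he h4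
  obtain ⟨C2, htg⟩ := t1 h h'
  obtain ⟨B, ho⟩ := ho
  obtain ⟨lv, l0, l1⟩ : ∃ lv : ℕ → ℕ, (∀ k, k < lv k) ∧ ∀ k, 2 * (mm f + B) < lv k :=
    ⟨fun k => k + 2 * (mm f + B) + 1, by simp only; omega, by simp only; omega⟩
  have l3 : ∀ k, 1 ≤ lv k := fun k => (Nat.zero_le k).trans_lt (l0 k)
  have ex : ∀ k, ∃ lam ε, HS.Tw S k lam (od f) ∧ (sT lam).card ≤ B ∧ Od (Y₀.D (sb lam) ε) :=
    fun k => by
      obtain ⟨b, ε, b1, b2, b3, b4⟩ := ho (2 * k + 4)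
      obtain ⟨lam, k1, k2⟩ := tw T n k b f S hn hf b1 b3
      exact ⟨lam, ε, k1, k2 ▸ b2, by
        rwa [sb, k2, Nat.prod_primeFactors_of_squarefree (S.sqf b1)]⟩
  choose lam ε hl hB ho using fun k => ex (lv k)
  choose w w0 w1 using fun k => exists_unit (T := T) (f := f) ch Y₀ hn hd (l3 k) (hl k).adm
    ((hl k).dec.elim fun _ h => h.elim fun _ h => Dvd.intro_left _ h.1.symm) (ho k)
  choose κ R c1 c2 c3 c4 c5 using fun k =>
    kc_stmt T n (lv k) f d e S (lam k) Y Y₀ (ε k) hn hf hd hY (hl k)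
  choose x hx using fun k => Ideal.Quotient.mk_surjective (I := aa (lv k) (lv k))
    (κ k ∅ (fq (w k)) 1)
  choose L a1 a2 a3 a4 using fun k =>
    exists_lev sl F su ch hn hf (hl k) e (w0 k) (c1 k) (c2 k) (hx k)
  have o1 : ∀ k, SOk T n f (lv k) (lam k) (HS.psf S.toHS (lv k) (lam k) f e) {w k} := fun k =>
    tw_sok (hl k) hn hf ⟨by simpa using w0 k, by simp⟩ e
  have o0 : ∀ k, SOk T n f (lv k) (lam k) (HS.psf S.toHS (lv k) (lam k) f e) ∅ := fun k =>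
    tw_sok (hl k) hn hf ⟨by simp, by simp⟩ e
  obtain ⟨p1, C3, p2⟩ := PA.pa (GK n) (thK n) 4 lv L l0
    ⟨2 * (mm f + B) + 2, fun k hj => ⟨2 * (mm f + (sT (lam k)).card), by have := hB k; omega, by
      rw [a3]
      exact c5 k _ (w0 k).fq_mem (w1 k) (by have := hB k; have := l1 k; omega) _ (hx k), by
      rw [a1, (o1 k).card_wk (aa_le (l3 k) (.inl hj))]
      exact lam_bound sl F su ch (o1 k) (by omega) hj⟩⟩
    ⟨C2 * 16 ^ B, fun k j hj => by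
      rw [a2, (o0 k).card_wk (aa_le hj (.inl (l3 k)))]
      exact (htg _ _ (hl k) j hj).trans (Nat.mul_le_mul_right _ (Nat.mul_le_mul_left _
        (Nat.pow_le_pow_right (by decide) (hB k))))⟩
  refine ⟨fun ht => p1 ?_, fun ⟨z, z'⟩ => ?_⟩
  · obtain ⟨N, N0, hN⟩ := isOfFinAddOrder_iff_nsmul_eq_zero.1 ht
    obtain ⟨r, M, hM, rfl⟩ := Nat.exists_eq_two_pow_mul_odd N0.ne'
    refine ⟨r, fun k σ hσ i => mco_ker ?_⟩
    obtain ⟨s1, s2⟩ := a4 k σ hσ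
    have e1 : (σ : Gam) • (2 ^ r * M) • R k = (2 ^ r * M) • R k :=
      N_fix s1 (Nat.le_add_right _ 2) _ (by
        obtain ⟨A, hA⟩ := c3 k (dvd_neg.1 ⟨e', he.symm⟩) h4
        rw [smul_comm, hA, smul_comm, hN, smul_zero])
    have e2 := T.inj (lv k) (a₁ := (2 ^ r * M) • fun i => evk _ (κ k ∅ σ i)) (a₂ := 0) (by
      rw [map_nsmul, c4 k _ s1, smul_sub, smul_comm, e1, sub_self, map_zero])
    have e3 : (M : ZMod (2 ^ lv k)) * (2 ^ r * evk _ (κ k ∅ σ i)) = 0 := by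
      have := congrFun e2 i
      simp only [Pi.smul_apply, nsmul_eq_mul, Pi.zero_apply] at this
      push_cast at this
      linear_combination this
    have e4 := ((ZMod.isUnit_iff_coprime M _).2
      ((Nat.coprime_two_right.2 hM).pow_right _)).mul_right_eq_zero.1 e3
    rw [s2, map_mul, map_pow, map_ofNat, e4]
  · obtain ⟨C4, hz⟩ := t2 z z'
    obtain ⟨j, hj⟩ := mco_pow (C4 * C3)
    obtain ⟨k, q1, q2⟩ := p2 j
    have hI := aa_le q1 (.inl (l3 k))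
    have := finite_quot hI
    rw [a2, (o0 k).card_wk hI] at q2
    exact hj ((hz _ _ (hl k) j q1 ((o0 k).sok0.finite_SM (kil_quot hI))).trans
      (mul_assoc C4 _ _ ▸ Nat.mul_le_mul_left _ q2))

omit [Md] in
/-- The core from the modules. -/
theorem co_of (sl : ∀ [Md], SLStmt) (tg : ∀ [Md], TGStmt) (tw : ∀ [Md], TWStmt)
    (cm : ∀ [Md], CMStmt) : T10.COStmt := by
  intro _ T D G nw ha hM n _ r f e e' hn hr hf he h4 h h' sd
  obtain ⟨F⟩ := m_cft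
  obtain ⟨S, Y₀, Y, y1, y2, y3⟩ := cm D G nw ha hM n r f hn hr hf sd
  obtain ⟨hy, hz⟩ := m_core sl tg tw F m_su m_cheb T hn hf (dt_dvd f) Y₀ Y y1 y2 he h4 h h'
  exact ⟨fun U hU k => hy ((fi_jC.1
    (y3 U e hU (dvd_neg.1 ⟨e', he.symm⟩) h4 ▸ k)).of_nsmul (ix_ne f)), hz⟩

end Pool.Agent.B6.B7.C5
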