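import Pool.Agent.Lib.MP_696deb_nt.B7.LB

/-! Tame places where the generator of inertia acts as a scalar. -/

set_option autoImplicit false

open scoped NNReal Classical
open Finset Matrix PowerSeries

namespace Pool.Agent.B6.B7.C5

open Pool.Agent.Lib.MP_696deb_nt Pool.Agent.Lib.MP_696deb_nt.B2

variable {B : Type} [AddCommGroup B] [Module Lam B] {D H : Subgroup Gam}
  {a : Gam → (Fin 2 → B) →+ Fin 2 → B} {w : Plc} {q k : ℕ} {φ τ : Gam}
  {A : Matrix (Fin 2) (Fin 2) Lam} {s : Lam}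

/-- The scalars that kill the first cohomology. -/
def slK (D : Subgroup Gam) (hl : Lin a) : Ideal Lam where
  carrier := {s | ∀ c, Coc D a c → ∃ x, ∀ g ∈ D, s • c g = cob a x g}
  zero_mem' := fun _ _ => ⟨0, fun g _ => by rw [zero_smul, lf_cob_zero]⟩
  add_mem' := fun h h' c hc => by
    obtain ⟨x, hx⟩ := h c hc
    obtain ⟨y, hy⟩ := h' c hc
    exact ⟨x + y, fun g hg => by rw [add_smul, hx g hg, hy g hg, lf_cob_add]⟩
  smul_mem' := fun r s h c hc => by
    obtain ⟨x, hx⟩ := h c hc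
    exact ⟨r • x, fun g hg => by rw [smul_eq_mul, mul_smul, hx g hg, hl.cob]⟩

theorem sl_le (hl : Lin a) (hB : Kil k B) : aa k k ≤ slK D hl := fun s hs c _ =>
  ⟨0, fun g _ => by rw [lf_cob_zero, hB.pi s hs]⟩

/-- The square of the scalar minus one kills the cohomology. -/
theorem sl_sq (t : TA H w q φ τ a) (hl : Lin a) (hτ : ∀ x, a τ x = s • x) :
    (s - 1) * (s - 1) ∈ slK (H ⊓ Dec w) hl := fun c hc => by
  have h1 := (hl.coc hc (s - 1)).lo_sub (lf_coc_cob t.act (c τ))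
  have h2 : ((s - 1) • c - cob a (c τ)) τ = 0 := by
    rw [Pi.sub_apply, Pi.smul_apply, cob, hτ, sub_smul, one_smul, sub_self]
  have h3 := lf_fix t.act h1 (fun σ hσ => t.zero_ine h1 h2 hσ.2) t.tm.φ_mem
    ⟨t.tm.τ_mem.1, t.tm.gen.1⟩
  refine ⟨(s - 1) • c τ, fun g hg => ?_⟩
  have h4 := t.eq_zero (hl.coc h1 (s - 1)) (by rw [Pi.smul_apply, h2, smul_zero]) (by
    rw [Pi.smul_apply, sub_smul s 1 (_ : Fin 2 → B), one_smul, ← hτ, h3, sub_self]) hg
  rw [Pi.smul_apply, Pi.sub_apply, smul_sub, sub_eq_zero, Pi.smul_apply] at h4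
  rw [hl.cob, mul_smul, h4]

/-- The product of the two Euler factors kills the cohomology. -/
theorem sl_det (t : TA H w q φ τ a) (hl : Lin a) (hτ : ∀ x, a τ x = s • x)
    (hφ : ∀ x, a φ x = mact B A x) :
    (A - (∑ i ∈ range q, s ^ i) • (1 : Matrix (Fin 2) (Fin 2) Lam)).det * (A - 1).det ∈
      slK (H ⊓ Dec w) hl := fun c hc => by
  obtain ⟨y, hy⟩ : ∃ y, y = mact B (A - 1).adjugate (c φ) := ⟨_, rfl⟩
  obtain ⟨N, hN⟩ : ∃ N, N = ∑ i ∈ range q, s ^ i := ⟨_, rfl⟩
  have h1 := (hl.coc hc (A - 1).det).lo_sub (lf_coc_cob t.act y)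
  have h2 : ((A - 1).det • c - cob a y) φ = 0 := by
    rw [Pi.sub_apply, Pi.smul_apply, cob, hφ, ← lf_sub_one, hy, (lf_adj _ _).2, sub_self]
  have r := t.rel h1 t.tm.gen.1
  rw [h2, map_zero, zero_add, add_zero, lf_pow t.act h1 t.tm.τ_mem, hφ] at r
  simp only [lf_pow_scalar t.act hl t.tm.τ_mem hτ, ← sum_smul, ← hN] at r
  have e := (lf_adj (A - N • 1) (((A - 1).det • c - cob a y) τ)).1
  rw [mact_sub, mact_smul, mact_one, r, sub_self, map_zero] at e
  rw [← hN]
  refine ⟨(A - N • 1).det • y, fun g hg => ?_⟩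
  have h4 := t.eq_zero (hl.coc h1 (A - N • 1).det) e.symm
    (by rw [Pi.smul_apply, h2, smul_zero]) hg
  rw [Pi.smul_apply, Pi.sub_apply, smul_sub, sub_eq_zero, Pi.smul_apply] at h4
  rw [hl.cob, mul_smul, h4]

/-- A matrix whose determinant kills an element has a kernel vector. -/
theorem sl_ker {z : B} (z0 : z ≠ 0) (h : A.det • z = 0) :
    ∃ x : Fin 2 → B, x ≠ 0 ∧ mact B A x = 0 ∧ ∀ u : Lam, u • z = 0 → u • x = 0 := by
  rw [det_fin_two] at h
  have k : ∀ r r' u : Lam, u • z = 0 → u • ![r • z, r' • z] = 0 := fun r r' u hu => by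
    funext i
    fin_cases i
    · exact (smul_comm u r z).trans (by rw [hu, smul_zero]; rfl)
    · exact (smul_comm u r' z).trans (by rw [hu, smul_zero]; rfl)
  by_cases h0 : A 0 0 • z = 0
  · by_cases h1 : A 1 0 • z = 0
    · refine ⟨![(1 : Lam) • z, (0 : Lam) • z], fun e => z0 ?_, funext fun i => ?_, k _ _⟩
      · simpa using congrFun e 0
      · rw [mact_apply]
        fin_cases i <;> simpa
    · refine ⟨![(-A 1 1) • z, A 1 0 • z], fun e => h1 (congrFun e 1), funext fun i => ?_, k _ _⟩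
      rw [mact_apply]
      fin_cases i
      · linear_combination (norm := (simp; module)) -h
      · simp
        module
  · refine ⟨![(-A 0 1) • z, A 0 0 • z], fun e => h0 (congrFun e 1), funext fun i => ?_, k _ _⟩
    rw [mact_apply]
    fin_cases i
    · simp
      module
    · linear_combination (norm := (simp; module)) h

/-- Squares of elements of the ideal generated by `X` and an ideal. -/
theorem sl_mul {I J : Ideal Lam} (hJ : J ≤ I) (hX : X * X ∈ I) {x : Lam}
    (hx : x ∈ Ideal.span {(X : Lam)} ⊔ J) : x * x ∈ I := by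
  obtain ⟨_, h1, e, h2, rfl⟩ := Submodule.mem_sup.1 hx
  obtain ⟨z, rfl⟩ := Ideal.mem_span_singleton'.1 h1
  convert add_mem (I.mul_mem_left (z * z) hX) (I.mul_mem_left (2 * z * X + e) (hJ h2)) using 1
  ring

theorem sl_odd {m : ℤ} (h : Odd m) : IsUnit (m : Lam) := by
  obtain ⟨j, rfl⟩ := h
  refine lf_unit ?_
  convert Ideal.mul_mem_right (j : Lam) _ lf_two_mem using 1
  push_cast
  ring

end Pool.Agent.B6.B7.C5
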