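import Pool.Agent.Lib.MP_696deb_nt.B10.C0
import Pool.Agent.Lib.MP_696deb_nt.B10.CSLa

/-! The local cohomology at a split prime. -/

set_option autoImplicit false

open scoped NNReal Classical
open Finset Matrix NumberTheorySymbols PowerSeries

namespace Pool.Agent.B6.B7.C5

open Pool.Agent.Lib.MP_696deb_nt Pool.Agent.Lib.MP_696deb_nt.B2

variable [Md]

theorem sl_euler (T : Tate) (ψ : Gam → Lam) {w : Plc} (h : ¬ w.p ∣ MM) (N : Lam) :
    (rep T ψ (fr w) - N • (1 : Matrix (Fin 2) (Fin 2) Lam)).det =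
      ψ (fr w) ^ 2 * w.p - ψ (fr w) * N * (al w.p : ℤ) + N ^ 2 := by
  have e := lf_det (rep T ψ (fr w)) 1 N
  rw [one_smul, rep_det, rep_trace, T.det, cyc_frob (ne_two_of (nd_of_MM h)) (fr_spec w),
    T.tr w _ h (fr_spec w), map_natCast, map_intCast] at e
  rw [e]
  ring

theorem sl_stmt : SLStmt := by
  intro T n k f lam ψ w hψ hs ⟨u, hu, e1⟩ ⟨ε, e2⟩
  have h2 : w.p ≠ 2 := ne_two_of (nd_of_MM hs.ndM)
  have t : Tm (GK n) w w.p (fr w) (gn w) :=
    tm_split (op_GK n) h2 (dec_le_split h2 hs.spl) (fr_spec w) (gn_spec h2)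
  have hτ : ∀ {B : Type} [AddCommGroup B] [Module Lam B], Kil k B → ∀ x,
      act T ψ B (gn w) x = ψ (gn w) • x := fun hB =>
    act_scalar hB (by rw [T.unr w (nd_of_MM hs.ndM) _ t.gen.1, la_mred_one])
  obtain ⟨b, hb⟩ := hs.four
  obtain ⟨m, hm⟩ : ∃ m, w.p = 4 * m + 1 := ⟨w.p / 4, by have := hs.m4; omega⟩
  have d1 := sl_euler T ψ hs.ndM 1
  rw [one_smul] at d1
  refine ⟨fun B _ _ c y hB hc hy => ?_, fun j h1 hj => ?_⟩
  · have ta := hψ.ta T hB t
    have le := sl_le (D := GK n ⊓ Dec w) (act_lin (T := T) (ψ := ψ)) hB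
    have hX : X * X ∈ slK (GK n ⊓ Dec w) (act_lin (T := T) (ψ := ψ) (B := B)) := by
      refine (Ideal.unit_mul_mem_iff_mem _ (hu.mul hu)).1 ?_
      convert sub_mem (sl_sq ta act_lin (hτ hB))
        (Ideal.mul_mem_left _ (ψ (gn w) - 1 + u * X) (le e1)) using 1
      ring
    suffices h : y ^ 4 ∈ slK (GK n ⊓ Dec w) (act_lin (T := T) (ψ := ψ) (B := B)) from h c hc
    rcases hy with rfl | rfl
    swap
    · convert Ideal.mul_mem_left _ (X * X) hX using 1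
      ring
    have hD := sl_det ta act_lin (hτ hB) (act_apply T ψ _)
    rw [sl_euler T ψ hs.ndM, d1] at hD
    obtain ⟨J, hJ⟩ : ∃ J : Ideal Lam, J = Ideal.span {(X : Lam)} ⊔ aa k k := ⟨_, rfl⟩
    have p1 : Ideal.Quotient.mk J (ψ (fr w)) = ((ε : ℤ) : Lam ⧸ J) := by
      rw [← map_intCast (Ideal.Quotient.mk J), Ideal.Quotient.eq, hJ]
      exact Ideal.mem_sup_left e2
    have p2 : Ideal.Quotient.mk J (ψ (gn w)) = 1 := by
      rw [← map_one (Ideal.Quotient.mk J), Ideal.Quotient.eq, hJ]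
      convert add_mem (Ideal.mem_sup_right (S := Ideal.span {(X : Lam)}) e1)
        (Ideal.mem_sup_left (Ideal.mem_span_singleton'.2 ⟨u, rfl⟩)) using 1
      ring
    have p3 : ((ε : ℤ) : Lam ⧸ J) ^ 2 = 1 := by
      rcases Int.units_eq_one_or ε with rfl | rfl <;> simp
    obtain ⟨o, ho⟩ : ∃ o : ℤ, o = 2 * (m - ε * b) + 1 := ⟨_, rfl⟩
    have oo : Odd (o * o * w.p) := by
      have h3 : Odd o := ⟨_, ho⟩
      exact (h3.mul h3).mul (w.prime.odd_of_ne_two h2).natCast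
    obtain ⟨D, hD', hD⟩ : ∃ D, D = _ ∧ D ∈ _ := ⟨_, rfl, hD⟩
    have p4 : D - 4 * ((o * o * w.p : ℤ) : Lam) ∈ J := by
      rw [← Ideal.Quotient.eq, hD']
      simp only [map_mul, map_add, map_sub, map_pow, map_sum, p1, p2, p3, map_natCast, map_intCast,
        one_pow, sum_const, card_range, nsmul_eq_mul, mul_one, one_mul, map_one, map_ofNat]
      rw [hb, ho, hm]
      push_cast
      ring
    have p5 := sl_mul le hX (hJ ▸ p4)
    refine (Ideal.unit_mul_mem_iff_mem _ ((sl_odd oo).mul (sl_odd oo))).1 ?_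
    convert sub_mem p5 (Ideal.mul_mem_left _ (D - 8 * ((o * o * w.p : ℤ) : Lam)) hD) using 1
    ring
  · have hI : aa k k ≤ aa 1 j := PA.aa_anti (h1.trans hj) hj
    have hB : Kil k (Lam ⧸ aa 1 j) := kil_quot hI
    have := finite_quot hI
    obtain ⟨j, rfl⟩ := Nat.exists_eq_add_of_le' h1
    obtain ⟨z, hz⟩ : ∃ z, z = Ideal.Quotient.mk (aa 1 (j + 1)) (X ^ j) := ⟨_, rfl⟩
    have z0 : z ≠ 0 := fun e => by
      have := PA.mem_aa.1 (Ideal.Quotient.eq_zero_iff_mem.1 (hz ▸ e)) j j.lt_succ_self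
      rw [coeff_X_pow_self, pow_one] at this
      exact PadicInt.prime_p.not_dvd_one (by exact_mod_cast this)
    have z1 : ∀ u ∈ aa 1 1, u • z = 0 := fun u hu => by
      obtain ⟨a, b, rfl⟩ := Ideal.mem_span_pair.1 hu
      rw [hz]
      refine Ideal.Quotient.eq_zero_iff_mem.2 (Ideal.mem_span_pair.2 ⟨a * X ^ j, b, ?_⟩)
      simp only [smul_eq_mul]
      ring
    obtain ⟨x, x0, x1, x2⟩ := sl_ker (A := rep T ψ (fr w) - 1) z0 (z1 _ (by
      convert add_mem (Ideal.mul_mem_left _ ((ψ (fr w) + 1) * w.p) (hψ.res (fr w)))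
        (Ideal.mul_mem_left _ (2 * m + 1 - 2 * ψ (fr w) * b : Lam) lf_two_mem) using 1
      rw [d1, hb, hm]
      push_cast
      ring))
    have mem : x ∈ H0 (GK n ⊓ Dec w) (act T ψ (Lam ⧸ aa 1 (j + 1))) := fun g hg => by
      refine (hψ.ta T hB t).fix ?_ (sub_eq_zero.1 ((lf_sub_one _ x).symm.trans x1)) hg
      have e := x2 _ (z1 _ (hψ.res (gn w)))
      rwa [sub_smul, one_smul, sub_eq_zero, ← hτ hB] at e
    exact Finite.one_lt_card_iff_nontrivial.2 ⟨⟨_, mem⟩, 0, fun e => x0 (congrArg Subtype.val e)⟩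

end Pool.Agent.B6.B7.C5
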