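import Pool.Agent.Lib.MP_696deb_nt.B10.CSa

/-! Global duality for the Selmer groups. -/

set_option autoImplicit false

open scoped NNReal Classical
open Finset Matrix NumberTheorySymbols PowerSeries

namespace Pool.Agent.B6.B7.C5

open Pool.Agent.Lib.MP_696deb_nt Pool.Agent.Lib.MP_696deb_nt.B2 Pool.Agent.Lib.MP_696deb_nt.B6

variable [Md]

variable {T : Tate} {f : ℤ} {n k m : ℕ} {lam : Tp} {v w : Plc} {ψ : Gam → Lam} {Q R : Finset Plc}
  {ty ty' : Plc → Ty} {B B' : Type} [AddCommGroup B] [Module Lam B] [AddCommGroup B']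
  [Module Lam B'] {c : Gam → Fin 2 → B} {c' : Gam → Fin 2 → B'} {g : Gam}
  {N : Plc → AddSubgroup ((Fin 2 → B) × (Fin 2 → B))}
  {N' : Plc → AddSubgroup ((Fin 2 → B') × (Fin 2 → B'))} {β : B →+ B' →+ ZMod (2 ^ m)}

theorem SOk0.twc_kum (h : SOk0 T n f k lam ψ Q) (hB : Kil k B) (hc : Coc (GK n) (act T ψ B) c)
    (e : KumC T f (GK n ⊓ Dec w2) c) : KumC T f (GK n ⊓ Dec w2) (twc T c) := fun m q => by
  have hγ := mul_mem_GK (cc_notMem h.nok.pos) (h.nok.out_two w2_p)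
  have e0 := xsb_fr w2
  generalize cc * fr w2 = γ at hγ e0
  obtain ⟨S, hS⟩ := e m (q.comp (DistribSMul.toAddMonoidHom B (ψ γ)))
  have key : ∀ (g : Gam) (x : Fin 2 → B), T.emb m (fun i => q (mact B ((T.ρ g).map C) x i)) =
      g • T.emb m fun i => q (x i) := fun g x => by
    rw [T.smul, ← B6.tAct_of (T := T) (ψ := fun _ => 1) (D := ⊤) hB (fun _ _ => by simp) m q g
      trivial, act_eq, one_smul]
  refine ⟨cc • (γ • S - T.emb m fun i => q (c γ i)), fun g hg => ?_⟩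
  have h1 : cc * g * cc ∈ GK n ⊓ Dec (γ • w2) := ⟨conj_cc_mem hg.1, e0 ▸ mem_Dec_cc.2 hg.2⟩
  have h2 := hS _ ⟨(GK n).mul_mem ((GK n).mul_mem ((GK n).inv_mem hγ) h1.1) hγ,
    mem_Dec_smul.1 h1.2⟩
  have h3 := h.chr.tAct (T := T) hB (w := γ • w2) w2_p m q _ h1 (c γ)
  have h4 : (fun i => q (c (cc * g * cc) i)) =
      (fun i => q (mact B ((T.ρ γ).map C) (ψ γ • c (γ⁻¹ * (cc * g * cc) * γ)) i)) -
        ((fun i => q (act T ψ B (cc * g * cc) (c γ) i)) - fun i => q (c γ i)) := funext fun i => by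
    rw [xsb_conj hc hγ h1.1, cob, act_eq, ← map_smul]
    simp only [Pi.sub_apply, map_sub]
  have h5 : chi f (γ⁻¹ * (cc * g * cc) * γ) = chi f g := by
    rw [map_mul, map_mul, map_inv, inv_mul_cancel_comm, la_chi_cj]
  rw [show T.emb m (fun i => q (twc T c g i)) = _ from key cc _, h4, map_sub, map_sub, key, h3,
    map_zsmul, ← T.smul,
    show (T.emb m fun i => q ((ψ γ • c (γ⁻¹ * (cc * g * cc) * γ)) i)) = _ from h2, tw, tw, h5,
    la_chi_cj]
  simp only [smul_sub, smul_comm _ (chi f g : ℤ), smul_smul]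
  rw [show cc * (γ * (γ⁻¹ * (cc * g * cc) * γ)) = cc * cc * (g * (cc * γ)) by group,
    show cc * (cc * g * cc) = cc * cc * (g * cc) by group, cc_mul_cc, one_mul, one_mul]
  abel

theorem SOk0.twc_deep (h : SOk0 T n f k lam ψ Q) (hB : Kil k B) (hw : w ∈ Q)
    (hc : Coc (GK n) (act T ψ B) c) :
    twc T c (fq w) = tauB T B (c (fq w)) ∧ twc T c (gn w) = -tauB T B (c (gn w)) := by
  rw [twc, twc, (h.conj_deep hB hw hc).1, (h.conj_deep hB hw hc).2, map_neg]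
  exact ⟨rfl, rfl⟩

/-- Complex conjugation of Selmer cocycles. -/
theorem su_twc (hc : InSU T n f lam ψ Q ty c) (h : SOk0 T n f k lam ψ Q) (hB : Kil k B) :
    InSU T n f lam (cjc ψ) Q (fun _ => .rel) (twc T c) :=
  ⟨twc_Z1 hc.z1, fun w a b d e σ hσ => by
    rw [B6.twc, hc.unr (cc • w) a b d e _ ⟨conj_cc_mem hσ.1, mem_Ine_cc.2 hσ.2⟩, map_zero],
    fun w hw => (hc.lur (cc • w) hw).elim fun _ hx =>
      ⟨_, fun σ hσ => twc_cob (hx _ (mem_Ine_cc.2 hσ))⟩,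
    h.twc_kum hB hc.z1.1 hc.kum, fun _ _ => trivial⟩

theorem SOk0.maxIso_two (F : CFT) (h : SOk0 T n f k lam ψ Q) (hB : Kil k B) (hB' : Kil k B')
    [Finite B] [Finite B'] (hβ : Perf β) :
    MaxIso F m (GK n) w2 (act T ψ B) (act T (B2.cjc ψ) B') (detb β)
      (LK T f (GK n ⊓ Dec w2) B) (LK T f (GK n ⊓ Dec w2) B') :=
  maxIso_LK (ld3 F) h.fok.ne h.nok.m8 w2_p (h.tact hB) (h.cjc.tact hB') hβ.two hβ.two' β detb_apply
    ((h.chr.dual3 h.nok.pos T hB hB' hβ).mono inf_le_left)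

/-- The formula of Greenberg and Wiles. -/
theorem sel_count (F : CFT) (su : SUStmt) (ch : ChebStmt) (h : SOk0 T n f k lam ψ Q)
    (hB : Kil k B) (hB' : Kil k B') [Finite B] [Finite B'] (hm : m ≤ k) (hβ : Perf β)
    (h1 : ∀ w ∈ Q, ∀ z ∈ N w, ∀ z' ∈ N' w, dP β z' z = 0)
    (h2 : ∀ w ∈ Q, Nat.card B ^ 4 ≤ Nat.card (N w) * Nat.card (N' w)) :
    Finite (SelX T n f lam ψ ∅ Q N) ∧ Finite (SelX T n f lam (cjc ψ) (plX f lam) Q N') ∧
      Nat.card (SelX T n f lam ψ ∅ Q N) * Nat.card B ^ (2 * Q.card) =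
        Nat.card (SelX T n f lam (cjc ψ) (plX f lam) Q N') * ∏ w ∈ Q, Nat.card (N w) := by
  have hn := h.nok.pos
  have hd := h.chr.dual3 hn T hB hB' hβ
  have e := hβ.card
  have eM : Nat.card (Fin 2 → B) = Nat.card B ^ 2 := xlc_card2
  have hM := lf_two hd.zero
  have hM' := lf_two hd.zero.flip
  have t2 := h.maxIso_two F hB hB' hβ
  have dN : ∀ w : Plc, w.p ∣ NN → Dual m (GK n ⊓ Dec w) _ _ _ := fun w hw =>
    (hd.mono inf_le_left).dual fun g hg => h.N_no3 hw hg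
  obtain ⟨f0, k0⟩ := gw3 F su ch T.sig m (GK n) _ _ _ _ (detb β) (pls f lam Q) ∅ (plX f lam)
    (plT f Q) (Lc T n f ψ N) (Lc T n f (cjc ψ) N') (op_GK n) (tc_of_le hn le_rfl) hd h.apart
    (by rw [empty_union]; rfl) (disjoint_empty_left _) (disjoint_empty_left _) h.disj
    (fun w hw => h.X_ne_two (by rwa [empty_union] at hw)) (h.good hB)
    (fun w hw => by
      rcases mem_union.1 hw with hw | hw
      · rw [Lc_N (spl_N hw), Lc_N (spl_N hw)]
        exact maxIso_Lur F (h.nok.tm (spl_N hw)) (dN w (spl_N hw))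
      rcases mem_insert.1 hw with rfl | hw
      · rwa [Lc_two, Lc_two]
      have d := h.deep w hw
      rw [Lc_dp d.adm, Lc_dp d.adm]
      refine d.adm.tm'.maxIso_Ldp (d.hq (by omega)) F hM hM' (fun g hg => h.triv hB hw hg)
        (fun g hg => h.cjc.triv hB' hw hg) _ (fun z hz z' hz' => sub_eq_zero.1 (h1 w hw z hz z' hz'))
        ?_
      rw [eM, ← pow_mul]
      exact h2 w hw)
  have k2 : Nat.card (LK T f (GK n ⊓ Dec w2) B) = Nat.card B ^ 4 := by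
    have l := (ld3 F T.sig m _ w2 _ _ _ _ _ (op_GK n) (hd.mono inf_le_left)).2 _ t2.loc
    have f1 := (ld_core3 F (w := w2) (op_GK n) (hd.mono inf_le_left)).1
    have f2 := (ld_core3 F (w := w2) (op_GK n) (hd.mono inf_le_left).flip).1
    have := Finite.of_injective _ (AddSubgroup.inclusion_injective t2.loc.1)
    have := Finite.of_injective _ (AddSubgroup.inclusion_injective t2.loc'.1)
    rw [← maxIso_perp3 (op_GK n) (hd.mono inf_le_left) t2, ldeg_two h.nok.m8 w2_p, eM] at l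
    refine le_antisymm (Nat.le_of_mul_le_mul_right ?_ (pow_pos (Nat.card_pos (α := B)) 4))
      (card_LK h.fok.ne h.nok.m8 w2_p hβ.two)
    calc _ ≤ _ := Nat.mul_le_mul_left _ (e ▸ card_LK (T := T) h.fok.ne h.nok.m8 w2_p hβ.two')
      _ = _ := l
      _ = _ := by ring
  have k3 : ∏ w ∈ Q, Nat.card (Lc T n f ψ N w) = ∏ w ∈ Q, Nat.card (N w) :=
    prod_congr rfl fun w hw => by
      have d := h.deep w hw
      rw [Lc_dp d.adm]
      exact d.adm.tm'.card_Ldp (d.hq (by omega)) hM (fun g hg => h.triv hB hw hg) _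
  have k4 : ∏ w ∈ spl (Nf f), Nat.card (Lc T n f ψ N w) =
      (Nat.card B ^ 2) ^ (spl (Nf f)).card := by
    rw [← prod_const]
    refine prod_congr rfl fun w hw => ?_
    rw [Lc_N (spl_N hw), card_Lur (h.nok.tm (spl_N hw)) hM (dN w (spl_N hw)).act, eM]
  have k5 : Nat.card (SelX T n f lam ψ ∅ Q N) * Nat.card B ^ (2 * Q.card) =
      Nat.card (SelX T n f lam (cjc ψ) (plX f lam) Q N') * ∏ w ∈ Q, Nat.card (N w) := by
    change Nat.card (SelX T n f lam ψ ∅ Q N) * _ =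
      Nat.card (SelX T n f lam (cjc ψ) (plX f lam) Q N') * _ at k0
    rw [plT, prod_union h.disjN, card_union_of_disjoint h.disjN, prod_insert h.w2_notMem,
      card_insert_of_notMem h.w2_notMem, index_GK hn, eM, k3, k4, Lc_two, k2] at k0
    refine Nat.eq_of_mul_eq_mul_right (Nat.mul_pos (pow_pos (Nat.card_pos (α := B)) 4)
      (pow_pos (pow_pos (Nat.card_pos (α := B)) 2) (spl (Nf f)).card)) ?_
    refine Eq.trans ?_ (k0.trans ?_) <;> ring
  refine ⟨f0, Nat.finite_of_card_ne_zero fun e0 => ?_, k5⟩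
  have : Finite (SelX T n f lam ψ ∅ Q N) := f0
  rw [e0, zero_mul] at k5
  exact (Nat.mul_pos Nat.card_pos (pow_pos Nat.card_pos _)).ne' k5

/-- The reciprocity law. -/
theorem sel_iso (F : CFT) (h : SOk0 T n f k lam ψ Q) (hB : Kil k B) (hB' : Kil k B') (hm : m ≤ k)
    [Finite B] [Finite B'] (hβ : Perf β) (hc : InSU T n f lam ψ Q ty c)
    (hc' : InSU T n f lam (cjc ψ) Q ty' c') (hw : w ∈ Q)
    (ht : ∀ v ∈ Q, v ≠ w → dP β (c' (fq v), c' (gn v)) (c (fq v), c (gn v)) = 0)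
    (ha : ∀ v ∈ spl (fs f lam), (∃ x, ∀ g ∈ GK n ⊓ Dec v, c g = cob (act T ψ B) x g) ∨
      ∃ x, ∀ g ∈ GK n ⊓ Dec v, c' g = cob (act T (cjc ψ) B') x g) :
    dP β (c' (fq w), c' (gn w)) (c (fq w), c (gn w)) = 0 := by
  have hn := h.nok.pos
  have hd := (h.chr.dual3 hn T hB hB' hβ).zero
  have hl : ∀ v, Dual0 m (GK n ⊓ Dec v) _ _ _ := fun v => hd.mono inf_le_left
  have key : ∀ v ∈ Q, ∃ u : (ZMod (2 ^ m))ˣ,
      F.inv m (GK n) v (cupb (detb β) (act T (cjc ψ) B') c c') =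
        u * dP β (c' (fq v), c' (gn v)) (c (fq v), c (gn v)) := fun v hv => by
    have d := h.deep v hv
    obtain ⟨u, hu⟩ := d.adm.tm'.deep_inv (m := m) (d.hq (by omega))
    exact ⟨u, hu F _ _ _ _ _ _ _ (lf_two hd) (lf_two hd.flip) (fun g hg => h.triv hB hv hg)
      (fun g hg => h.cjc.triv hB' hv hg) (hc.coc v) (hc'.coc v)⟩
  have r := lf_recip F (op_GK n) (tc_of_le hn le_rfl) hd h.apart hc.z1.1 hc'.z1.1 (su_away h hc)
    (su_away h.cjc hc')
  rw [sum_eq_single_of_mem w (mem_pls.2 (by simp [hw]))] at r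
  · obtain ⟨u, hu⟩ := key w hw
    exact (Units.mul_right_eq_zero u).1 (hu.symm.trans r)
  intro v hv hvw
  rcases mem_pls.1 hv with hv | hv | hv | rfl | hv
  · obtain ⟨x, hx⟩ := h.lam_cob hB hv (hc.coc v)
    exact lf_inv_left F (op_GK n) (hl _) hx (hc'.coc v)
  · rcases ha v hv with ⟨x, hx⟩ | ⟨x, hx⟩
    · exact lf_inv_left F (op_GK n) (hl _) hx (hc'.coc v)
    · exact lf_inv_right F (op_GK n) (hl _) (hc.coc v) hx
  · obtain ⟨x, hx⟩ := hc.lur v (spl_Nf hv)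
    obtain ⟨y, hy⟩ := hc'.lur v (spl_Nf hv)
    exact lf_inv_ur F (op_GK n) (hl _) (hc.coc v) (hc'.coc v) hx hy
  · rw [← inv_cupb_rs]
    exact (h.maxIso_two F hB hB' hβ).iso _ (rs_mem_LK.2 hc.kum) _ (rs_mem_LK.2 hc'.kum)
  · obtain ⟨u, hu⟩ := key v hv
    rw [hu, ht v hv hvw, mul_zero]

end Pool.Agent.B6.B7.C5
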