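import Pool.Agent.Lib.MP_696deb_nt.B10.C0
import Pool.Agent.Lib.MP_696deb_nt.B7.XTG
import Pool.Agent.Lib.MP_696deb_nt.B6.XSa

/-! The upper and the lower bound on the target branch, with split primes in the conductor. -/

set_option autoImplicit false

open scoped NNReal Classical
open Finset Matrix NumberTheorySymbols PowerSeries

namespace Pool.Agent.B6.B7.C5

open Pool.Agent.Lib.MP_696deb_nt Pool.Agent.Lib.MP_696deb_nt.B2

theorem ctg_eig {R : Type} [CommRing R] {A : Matrix (Fin 2) (Fin 2) R} {y : Fin 2 → R} {c : R}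
    (h : A *ᵥ y = c • y) (i : Fin 2) : (c ^ 2 - A.trace * c + A.det) * y i = 0 := by
  have h0 := congrFun h 0
  have h1 := congrFun h 1
  simp only [mulVec, dotProduct, Fin.sum_univ_two, Pi.smul_apply, smul_eq_mul] at h0 h1
  rw [trace_fin_two, det_fin_two]
  revert i
  rw [Fin.forall_fin_two]
  exact ⟨by linear_combination (A 1 1 - c) * h0 - A 0 1 * h1,
    by linear_combination (A 0 0 - c) * h1 - A 1 0 * h0⟩

theorem ctg_card (N : ℕ) : (spl N).card ≤ N.primeFactors.card * 2 :=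
  (card_biUnion_le_card_mul _ _ 2 fun _ _ => card_le_two).trans (by rw [card_attach])

variable [Md] {T : Tate} {ψ : Gam → Lam} {n j : ℕ} {f d d' e e' : ℤ} {lam : Tp} {w : Plc}
  {c : Gam → Fin 2 → Lam ⧸ aa j 1} {x : Gam → Vm j}

theorem Spl.ctg_tm (h : Spl n w.p) : Tm (GK n) w w.p (fr w) (gn w) :=
  have h2 := ne_two_of (nd_of_MM h.ndM)
  tm_split (op_GK n) h2 (dec_le_split h2 h.spl) (fr_spec w) (gn_spec h2)

/-- At the split primes the ramification is killed by two. -/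
theorem ctg_two (hc : TwPr n f d d') (h : Spl n w.p) (hf : ¬ (w.p : ℤ) ∣ od f)
    (hx : Coc (GK n ⊓ Dec w) (tv T d j) x) (i : Fin 2) : 2 • x (gn w) i = 0 := by
  have t := ta_tv T d j h.ctg_tm
  have k : ∀ σ ∈ Ine w, ∀ v, tv T d j σ v = v := fun σ hσ =>
    hc.tv_ine (nd_of_MM h.ndM) hf ⟨t.tm.ine hσ, hσ⟩
  have r := t.rel hx t.tm.gen.1
  rw [k _ (pow_mem t.tm.gen.1 _), lf_pow_fix t.act hx t.tm.τ_mem (k _ t.tm.gen.1 _), add_comm,
    add_left_inj, tv_apply] at r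
  obtain ⟨s, hs, e⟩ : ∃ s : ℤ, s * s = 1 ∧
      mred j (T.ρ (fr w)) *ᵥ x (gn w) = ((s * w.p : ℤ) : ZMod (2 ^ j)) • x (gn w) := by
    have : (chi d (fr w) : ℤ) * chi d (fr w) = 1 := by
      rw [← Units.val_mul, Int.units_mul_self, Units.val_one]
    exact ⟨_, this, by
      rw [Int.cast_smul_eq_zsmul, mul_smul, natCast_zsmul, ← r, smul_smul, this, one_smul]⟩
  have e2 := ctg_eig e i
  rw [mred_trace, T.tr w _ h.ndM (fr_spec w), mred_det, T.det, cyc_frob t.tm.odd (fr_spec w),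
    map_intCast, map_natCast] at e2
  obtain ⟨b, hb⟩ := h.four
  obtain ⟨a, ha⟩ : ∃ a : ℤ, (w.p : ℤ) = 4 * a + 1 := ⟨w.p / 4, by have := h.m4; omega⟩
  have o : Odd ((4 * a + 1) * (2 * (a - s * b) + 1)) := Odd.mul ⟨2 * a, by ring⟩ ⟨_, rfl⟩
  obtain ⟨q, hq⟩ := exists_inv_odd j (Int.natAbs_odd.2 (o.mul o))
  rw [← Int.cast_natCast, Int.natAbs_mul, Int.natAbs_mul_self] at hq
  rw [← Int.cast_natCast (R := ZMod (2 ^ j)) w.p, hb, ha] at e2
  have hs' := congrArg (Int.cast : ℤ → ZMod (2 ^ j)) hs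
  push_cast at e2 hq hs'
  rw [two_nsmul]
  linear_combination (q * ((4 * a + 1) * (2 * (a - s * b) + 1))) * e2 - 2 * x (gn w) i * hq -
    q * ((4 * a + 1) * (2 * (a - s * b) + 1)) * (4 * a + 1) ^ 2 * x (gn w) i * hs'

/-- The tower with one place. -/
noncomputable def ctgP (lam : Tp) : Tp := ⟨lam.pl, {lam.pl}, lam.pl.p, fun _ _ => 1⟩

theorem TOk.ctg (h : TOk n lam) : B7.TOk n (ctgP lam) :=
  have k : ∀ w : Plc, w.p ∣ lam.pl.p → w.p = lam.pl.p := fun w =>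
    (Nat.prime_dvd_prime_iff_eq w.prime lam.pl.prime).1
  ⟨h.adm _ h.mem, mem_singleton_self _, fun _ hw => mem_singleton.1 hw ▸ dvd_rfl,
    fun w hw => ⟨_, mem_singleton_self _, k w hw⟩,
    fun _ a _ b _ => (mem_singleton.1 a).trans (mem_singleton.1 b).symm,
    fun w hw => k w hw ▸ h.nrt _ h.mem⟩

theorem ctg_pf (lam : Tp) : (sb lam).primeFactors = sT lam :=
  Nat.primeFactors_prod fun _ h => Nat.prime_of_mem_primeFactors (mem_filter.1 h).1

theorem ctg_ne (lam : Tp) : sb lam ≠ 0 :=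
  prod_ne_zero_iff.2 fun _ h => (Nat.prime_of_mem_primeFactors (mem_filter.1 h).1).ne_zero

theorem ctg_mem : w.p ∣ sb lam ↔ w.p ∈ sT lam := by
  rw [← ctg_pf, Nat.mem_primeFactors_of_ne_zero (ctg_ne lam), and_iff_right w.prime]

/-- Cocycles that vanish at the generators of inertia are unramified. -/
theorem ctg_kv (hc : TwPr n f d d') (hl : TOk n lam)
    (hψ : ∀ g ∈ GK n, ψ g - ((chi d g : ℤ) : Lam) ∈ Ideal.span {(X : Lam)})
    (h : InSU T n f lam ψ ∅ (fun _ => .tr) c) (h0 : ∀ v ∈ spl (sb lam), evV j (c (gn v)) = 0) :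
    KV T n f d j fun g => evV j (c g) := by
  have h1 := h.z1.1.map (evV j) fun g hg => evV_act (T := T) (hψ g hg)
  refine (hc.inSU_iff hl.ctg hψ).1 ⟨h.z1, fun w hw hf _ hQ σ hσ => ?_, h.lur, h.kum, h.dp⟩
  by_cases k : w.p ∣ lam.c
  swap
  · exact h.unr w hw hf k hQ σ hσ
  refine (map_eq_zero_iff _ (evV_inj j)).1 ?_
  by_cases k2 : w.p ∈ sT lam
  · obtain ⟨v, hv, g, hg, rfl⟩ := exists_spl hc.nok.pos (ctg_ne lam) (ctg_mem.2 k2)
    have t := ta_tv T d j (Spl.ctg_tm (w := v) (hl.spl _ k2))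
    have := lf_conj (act_tv T d j _) h1 hg hσ.1 (x := 0) ((t.zero_ine (h1.lo_mono inf_le_left)
      (h0 v hv) (mem_Ine_smul.1 hσ.2)).trans (lf_cob_zero _ _).symm)
    rwa [cob, hc.tv_ine hw hf hσ, sub_self] at this
  · obtain ⟨v, hv, e⟩ : ∃ v ∈ lam.ps, v.p = w.p := by
      by_contra! k3
      exact k2 (mem_filter.2 ⟨Nat.mem_primeFactors.2 ⟨w.prime, k, hl.ne⟩, k3⟩)
    exact hc.unr_o3 (e ▸ hl.adm v hv) (e ▸ hl.nrt v hv) (h1.lo_mono inf_le_left) hσ.2

theorem ctg_up (hc : TwPr n f d d') (hl : TOk n lam) (hf : ∀ l ∈ sT lam, ¬ (l : ℤ) ∣ od f)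
    (hψ : ∀ g ∈ GK n, ψ g - ((chi d g : ℤ) : Lam) ∈ Ideal.span {(X : Lam)}) {C : ℕ}
    (hC : ∀ s : Finset (Gam → Vm j), (∀ x ∈ s, KV T n f d j x ∧ x (fq lam.pl) = 0) → s.card ≤ C) :
    Nat.card (SM T n f lam ψ ∅ (fun _ => .tr) (Lam ⧸ aa j 1)) ≤ C * 16 ^ (sT lam).card := by
  refine natCard_le (P := (· ∈ SM T n f lam ψ ∅ (fun _ => .tr) (Lam ⧸ aa j 1))) (fun s hs => ?_)
    Subtype.val_injective fun c => c.2
  refine (card_fib (K := C) (P := fun c => c ∈ SM T n f lam ψ ∅ (fun _ => .tr) (Lam ⧸ aa j 1) ∧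
    ∀ v ∈ spl (sb lam), evV j (c (gn v)) = 0) (fun t ht => ?_) s
    (fun c (v : spl (sb lam)) => evV j (c (gn v))) fun a ha b hb e =>
      ⟨sub_mem (hs a ha) (hs b hb), fun v hv => by
        rw [Pi.sub_apply, map_sub, sub_eq_zero]
        exact congrFun e ⟨v, hv⟩⟩).trans (Nat.mul_le_mul_left _ ?_)
  · rw [← card_image_of_injective (f := fun c g => evV j (c g)) t
      fun c c' e => funext fun g => evV_inj j (congrFun e g)]
    exact hC _ (forall_mem_image.2 fun c h => ⟨ctg_kv hc hl hψ (ht c h).1.1 (ht c h).2,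
      (congrArg (evV j) (ht c h).1.2).trans (map_zero _)⟩)
  · refine (card_le_card (t := Fintype.piFinset fun _ => Fintype.piFinset fun _ =>
      univ.filter fun a => 2 • a = 0) fun y hy => ?_).trans ?_
    · obtain ⟨c, h, rfl⟩ := (@mem_image _ _ (_) _ _ _).1 hy
      refine Fintype.mem_piFinset.2 fun v => Fintype.mem_piFinset.2 fun i =>
        mem_filter.2 ⟨mem_univ _, ?_⟩
      have k := ctg_mem.1 ((mem_spl (ctg_ne lam)).1 v.2).1
      exact ctg_two hc (hl.spl _ k) (hf _ k) (((hs c h).1.z1.1.map (evV j)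
        fun g hg => evV_act (T := T) (hψ g hg)).lo_mono inf_le_left) i
    · simp only [Fintype.card_piFinset, prod_const, card_univ, Fintype.card_fin, Fintype.card_coe]
      refine (Nat.pow_le_pow_left (Nat.pow_le_pow_left
        (IsAddCyclic.card_nsmul_eq_zero_le two_pos) 2) _).trans
        ((Nat.pow_le_pow_right (by norm_num) (ctg_card _)).trans (le_of_eq ?_))
      rw [ctg_pf, mul_comm, pow_mul]
      norm_num

theorem ctg_low (hc : TwPr n f d d') (hl : TOk n lam)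
    (hψ : ∀ g ∈ GK n, ψ g - ((chi d g : ℤ) : Lam) ∈ Ideal.span {(X : Lam)}) (h : Nz d) (h' : Nz d')
    (fin : Finite (SM T n f lam ψ ∅ (fun _ => .tr) (Lam ⧸ aa j 1))) :
    4 ^ j ≤ 4 ^ 7 * Nat.card (SM T n f lam ψ ∅ (fun _ => .tr) (Lam ⧸ aa j 1)) := by
  obtain ⟨P, hP, h⟩ := h
  obtain ⟨P', hP', h'⟩ := h'
  have hn := hc.nok
  have e1 : ∀ g ∈ GK n, ∀ Q, tw d' g Q = tw d g Q := fun g hg Q => by rw [tw, tw, hc.eq g hg]
  have e2 : ∀ Q, tw d' cc Q = -tw d cc Q := fun Q => by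
    rw [tw, tw, hc.ne _ (cc_notMem hn.pos), Units.val_neg, neg_smul]
  have out := (hl.adm _ hl.mem).out (fr_spec lam.pl)
  have key := fun z : Fin (2 ^ (j - 7)) × Fin (2 ^ (j - 7)) =>
    xnz_kum T j hc (mul_mem_GK out out) (T.o3_fq (hl.adm _ hl.mem).nd30 (hl.nrt _ hl.mem))
      (R := (64 * z.1 : ℤ) • P + (64 * z.2 : ℤ) • P') fun g hg => by
        rw [← lkT_apply, map_add, map_zsmul, map_zsmul, lkT_apply, lkT_apply, hP, ← e1 g hg, hP']
  choose x x1 x2 W hW1 hW2 using key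
  choose c hx using fun z g => evV_surj j (x z g)
  have hc1 : ∀ z, c z ∈ SM T n f lam ψ ∅ (fun _ => .tr) (Lam ⧸ aa j 1) := fun z =>
    have k := (hc.inSU_iff (c := c z) hl.ctg hψ).2 (by simpa only [hx] using x1 z)
    ⟨⟨k.z1, fun w a b h => k.unr w a b fun e => h (e.trans (hl.dvd _ hl.mem)), k.lur, k.kum, k.dp⟩,
      evV_inj j ((hx z _).trans ((x2 z).trans (map_zero _).symm))⟩
  have inj : Function.Injective fun z => (⟨c z, hc1 z⟩ :
      SM T n f lam ψ ∅ (fun _ => .tr) (Lam ⧸ aa j 1)) := fun z y e => by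
    have e3 : c z = c y := congrArg Subtype.val e
    have e4 : ∀ g ∈ GK n, tw d g (W z - W y) = W z - W y := fun g hg => by
      have := hW2 z g hg
      rw [← hx, e3, hx, hW2 y g hg] at this
      rw [← lkT_apply, map_sub, lkT_apply, lkT_apply]
      linear_combination (norm := abel1) -this
    have e5 : 2 ^ j • (W z - W y) =
        (64 * ((z.1 : ℤ) - y.1)) • P + (64 * ((z.2 : ℤ) - y.2)) • P' := by
      rw [smul_sub, hW1, hW1]
      module
    refine Prod.ext (xnz_eq (xnz_plus hn.pos hP h ?_ e4 e5))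
      (xnz_eq (xnz_plus (P' := P) hn.pos hP' h' ?_ (fun g hg => (e1 g hg _).trans (e4 g hg))
        (e5.trans (add_comm _ _))))
    · rw [← neg_neg (tw d cc P'), ← e2, hP']
    · rw [e2, hP]
  have le := Nat.card_le_card_of_injective _ inj
  rw [Nat.card_prod, Nat.card_fin, ← mul_pow] at le
  refine le_trans ?_ (Nat.mul_le_mul_left _ le)
  rw [show 2 * 2 = 4 from rfl, ← pow_add]
  exact Nat.pow_le_pow_right (by norm_num) (by omega)

theorem tg_stmt : TGStmt := by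
  intro T n f e e' S hn hf he h4
  have hc := twPr hn hf he h4
  have hψ : ∀ k lam, HS.Tw S k lam (od f) → ∀ g ∈ GK n, HS.psf S.toHS k lam f e g -
      ((chi (f * e) g : ℤ) : Lam) ∈ Ideal.span {(X : Lam)} := fun k lam hl g hg => by
    rw [HS.psf, HS.psi, HS.Psi, S.pr_ψ' 1 _ hl.adm (one_dvd _) g hg,
      S.gen_ψ e (dvd_neg.1 ⟨e', he.symm⟩) h4 g hg, chi_mul hf.ne (by omega), Units.val_mul,
      Int.cast_mul, ← mul_assoc]
    exact xtw_mul _ (xtw_X _)
  refine ⟨fun h h' => ?_, fun h h' => ⟨4 ^ 7, fun k lam hl j _ =>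
    ctg_low hc hl.tok (hψ k lam hl) h h'⟩⟩
  obtain ⟨C, hC⟩ := hc.cork_link T h h'
  refine ⟨C, fun k lam hl j _ => ?_⟩
  have a := hl.tok.adm _ hl.tok.mem
  rw [mul_right_comm]
  exact ctg_up hc hl.tok hl.ndf (hψ k lam hl) (hC j (fr lam.pl) (a.out (fr_spec lam.pl))
    (T.o3_fq a.nd30 (hl.tok.nrt _ hl.tok.mem)))

end Pool.Agent.B6.B7.C5
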