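import Pool.Agent.Lib.MP_696deb_nt.B10.CN
import Pool.Agent.Lib.MP_696deb_nt.B7.TW

/-! Towers with prescribed split primes. -/

set_option autoImplicit false

open scoped NNReal Classical
open Finset Matrix NumberTheorySymbols PowerSeries

namespace Pool.Agent.B6.B7.C5

open Pool.Agent.Lib.MP_696deb_nt Pool.Agent.Lib.MP_696deb_nt.B2 Pool.Agent.Lib.MP_696deb_nt.B6

theorem tx_mul {s : ℕ} (hs : 0 < s) (x y : Multiplicative (ZMod (2 ^ s))) :
    Odd (x * y).toAdd.val ↔ (Odd x.toAdd.val ↔ ¬ Odd y.toAdd.val) := by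
  rw [toAdd_mul, ZMod.val_add, Nat.odd_iff, Nat.mod_mod_of_dvd _ (dvd_pow_self 2 hs.ne'),
    ← Nat.odd_iff, Nat.odd_add, Nat.not_odd_iff_even]

theorem tx_prod {s : ℕ} (hs : 0 < s) (T : Finset ℕ) {x : ℕ → Multiplicative (ZMod (2 ^ s))}
    {u : ℕ → ℤˣ} (h : ∀ l ∈ T, Odd (x l).toAdd.val ↔ u l = -1) :
    Odd (∏ l ∈ T, x l).toAdd.val ↔ ∏ l ∈ T, u l = -1 := by
  have key : ∀ a b : ℤˣ, (a = -1 ↔ ¬ b = -1) ↔ a * b = -1 := by decide
  induction T using Finset.induction_on with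
  | empty => simp
  | insert l T hl ih =>
    rw [prod_insert hl, prod_insert hl, tx_mul hs, ← key]
    exact iff_congr (h l (mem_insert_self _ _)) (ih fun p hp => h p (mem_insert_of_mem hp)).not

variable [Md]

variable {n k : ℕ} {f : ℤ}

/-- Towers with prescribed parities at the primes of the twist. -/
theorem tx_base (T : Tate) (hn : Nok n) (hf : Fok n f) (S : B6.HS n) {s : ℕ} (hs : 0 < s)
    (G : ℕ → Prop) : ∃ lam, B7.TOk n lam ∧
      (∃ z, Gen lam.pl z ∧ (lam.ν S s (S.ψ lam.c z)).toAdd = 1) ∧ ∀ v : Plc, (v.p : ℤ) ∣ od f →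
        ∀ g, IsFrob v v.p g → (Odd (lam.ν S s (S.ψ lam.c g)).toAdd.val ↔ G v.p) := by
  obtain ⟨A, h1, h2⟩ : ∃ A : Finset ℕ, (∀ q ∈ A, q.Prime ∧ q ≠ 2 ∧ ¬ q ∣ n) ∧
      ∀ v : Plc, (v.p : ℤ) ∣ od f → (v.p ∈ A ↔ G v.p) :=
    ⟨(od f).natAbs.primeFactors.filter G, fun q hq =>
      have e := (hf.mem q).1 (mem_filter.1 hq).1
      ⟨e.1, hf.ne_two e.2, hf.not_dvd e.1 e.2⟩,
      fun v hv => mem_filter.trans (and_iff_right ((hf.mem _).2 ⟨v.prime, hv⟩))⟩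
  by_cases ho : Odd (A.filter (· ∣ NN)).card
  · obtain ⟨w, z, -, a, r, z1, z2, h⟩ := exists_tower T hn hf S hs 0 _ h1 ho
    have e : ∀ v : Plc, v.p ∣ w.p → v.p = w.p := fun v =>
      (Nat.prime_dvd_prime_iff_eq v.prime w.prime).1
    exact ⟨⟨w, {w}, w.p, fun S s => S.ν w.p s⟩, ⟨a, mem_singleton_self w, by simp,
      fun v hv => ⟨w, mem_singleton_self w, e v hv⟩, by simp, fun v hv => e v hv ▸ r⟩, ⟨z, z1, z2⟩,
      fun v hv g hg => (h v hv g hg).trans (h2 v hv)⟩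
  obtain ⟨p, p1, p2⟩ := Nat.exists_prime_and_dvd NN_gt.ne'
  have p3 : p.Prime ∧ p ≠ 2 ∧ ¬ p ∣ n := ⟨p1, ne_two_of_dvd p2, hn.good.not_dvd p1 p2⟩
  obtain ⟨F, F2, F3, F4⟩ : ∃ F : Finset ℕ, (∀ q ∈ F, q.Prime ∧ q ≠ 2 ∧ ¬ q ∣ n) ∧
      Odd (F.filter (· ∣ NN)).card ∧ ∀ q, (q = p ↔ ¬ q ∈ F) ↔ q ∈ A := by
    by_cases e : p ∈ A
    · refine ⟨_, fun q hq => h1 q (mem_of_mem_erase (a := p) hq), ?_, fun q => ?_⟩
      · rw [filter_erase, card_erase_of_mem (mem_filter.2 ⟨e, p2⟩)]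
        exact Nat.Even.sub_odd (card_pos.2 ⟨p, mem_filter.2 ⟨e, p2⟩⟩) (Nat.not_odd_iff_even.1 ho)
          odd_one
      · by_cases k : q = p <;> simp [k, e]
    · refine ⟨insert p _, forall_mem_insert .. |>.2 ⟨p3, h1⟩, ?_, fun q => ?_⟩
      · rwa [filter_insert, if_pos p2, card_insert_of_notMem fun k => e (mem_filter.1 k).1,
          Nat.odd_add_one]
      · by_cases k : q = p <;> simp [k, e]
  obtain ⟨w, z, -, a, r, z1, z2, h⟩ := exists_tower T hn hf S hs 0 {p}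
    (by simpa using p3) (by simp [filter_singleton, p2])
  obtain ⟨u, -, b, a', r', -, -, h'⟩ := exists_tower T hn hf S hs w.p F F2 F3
  have ne : ¬ u.p ∣ w.p := fun e => b.ne' ((Nat.prime_dvd_prime_iff_eq u.prime w.prime).1 e)
  have ad : Adm n (w.p * u.p) := a.mul u.prime ne a'.ndM a'.inert
  have e : ∀ v : Plc, v.p ∣ w.p * u.p → v.p = w.p ∨ v.p = u.p := fun v hv =>
    (v.prime.dvd_mul.1 hv).imp (Nat.prime_dvd_prime_iff_eq v.prime w.prime).1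
      (Nat.prime_dvd_prime_iff_eq v.prime u.prime).1
  obtain ⟨ν, hν⟩ : ∃ ν : ∀ {n : ℕ} (S : B6.HS n) (s : ℕ),
      S.C (w.p * u.p) →* Multiplicative (ZMod (2 ^ s)), ∀ g ∈ GK n,
      ν S s (S.ψ _ g) = S.ν w.p s (S.ψ _ g) * S.ν u.p s (S.ψ _ g) :=
    ⟨fun S s => (S.ν w.p s).comp (S.pr _ _) * (S.ν u.p s).comp (S.pr _ _), fun g hg => by
      simp only [MonoidHom.mul_apply, MonoidHom.comp_apply,
        S.pr_ψ _ _ ad (dvd_mul_right _ _) g hg, S.pr_ψ _ _ ad (dvd_mul_left _ _) g hg]⟩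
  refine ⟨⟨w, {w, u}, w.p * u.p, ν⟩, ⟨ad, by simp, by simp, fun v hv => by simpa using e v hv, ?_,
    fun v hv => (e v hv).elim (· ▸ r) (· ▸ r')⟩, ⟨z, z1, ?_⟩, fun v hv g hg => ?_⟩
  · simp [b.ne, b.ne']
  · rw [hν z (a.ine z1.1), toAdd_mul]
    exact (congrArg₂ _ z2 (S.ex_ine a' _ (fun k => b.ne
      ((Nat.prime_dvd_prime_iff_eq w.prime u.prime).1 k)) ⟨a.ine z1.1, z1.1⟩)).trans (add_zero _)
  · rw [hν g (hf.split hv hg.1), tx_mul hs, ← h2 v hv, ← F4]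
    exact iff_congr ((h v hv g hg).trans mem_singleton) (h' v hv g hg).not

theorem tx_ad (S : HS n) {b : ℕ} (hb : S.Ad b) (h : ∀ l, l.Prime → l ∣ b → J(-n | l) = 1) :
    ∀ c, Adm n c → S.Ad (b * c) := by
  intro c
  induction c using induction_on_primes with
  | zero => exact fun k => absurd k.1 not_squarefree_zero
  | one => exact fun _ => by rwa [mul_one]
  | prime_mul p a hp ih =>
    intro k
    obtain ⟨w, rfl⟩ := exists_plc hp
    have a1 := k.of_dvd (dvd_mul_right _ _)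
    rw [mul_comm w.p, ← mul_assoc]
    refine S.ad_mul (ih (k.of_dvd (dvd_mul_left _ _))) a1 fun e => (hp.dvd_mul.1 e).elim
      (fun e => absurd ((h _ hp e).symm.trans a1.inert) (by decide)) fun e => ?_
    exact hp.prime.not_isUnit (k.1 _ (mul_dvd_mul_left _ e))

theorem tx_stmt : TWStmt := by
  intro T n k b f S hn hf hb h
  have s0 : 0 < 2 * k + 3 := by omega
  have sp : ∀ l ∈ b.primeFactors, Spl n l := fun l hl => by
    have p := Nat.prime_of_mem_primeFactors hl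
    have e := (h l hl).1
    have m4 : l % 4 = 1 := e.of_dvd ((pow_dvd_pow 2 (by omega : 2 ≤ 2 * k + 4)).mul_right n)
    refine ⟨S.ndM hb p (Nat.dvd_of_mem_primeFactors hl), ?_, m4, (h l hl).2.1⟩
    rw [jacobiSym.neg _ (Nat.odd_iff.2 (by omega)), ZMod.χ₄_nat_one_mod_four m4, one_mul,
      ← jacobiSym.quadratic_reciprocity_one_mod_four m4 (Nat.odd_iff.2 (by have := hn.m4; omega)),
      jacobiSym.mod_left' (a₂ := 1) (by exact_mod_cast e.of_dvd (dvd_mul_left _ _)),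
      jacobiSym.one_left]
  obtain ⟨lam, t, ⟨z, z1, z2⟩, t2⟩ := tx_base T hn hf S.toHS s0
    fun r => ∏ l ∈ b.primeFactors, J(l | r) ≠ -1
  have b0 := (S.sqf hb).ne_zero
  have ad : S.Ad (lam.c * b) := mul_comm b _ ▸ tx_ad S hb
    (fun l p e => (sp l (Nat.mem_primeFactors.2 ⟨p, e, b0⟩)).spl) _ t.adm
  have am : ∀ w ∈ lam.ps, Adm n w.p := fun w hw => t.adm.of_dvd (t.dvd w hw)
  have nm : ∀ w ∈ lam.ps, w.p ∉ b.primeFactors := fun w hw e => (sp _ e).not_adm (am w hw)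
  obtain ⟨ν, hν⟩ : ∃ ν : ∀ {n : ℕ} (S : B6.HS n) (s : ℕ),
      S.C (lam.c * b) →* Multiplicative (ZMod (2 ^ s)), ∀ g ∈ GK n,
      ν S.toHS (2 * k + 3) (S.ψ _ g) = lam.ν S.toHS (2 * k + 3) (S.ψ _ g) *
        ∏ l ∈ b.primeFactors, S.ν l (2 * k + 3) (S.ψ l g) :=
    ⟨fun S s => (lam.ν S s).comp (S.pr _ _) * ∏ l ∈ b.primeFactors, (S.ν l s).comp (S.pr _ _),
      fun g hg => by
      rw [MonoidHom.mul_apply, MonoidHom.finsetProd_apply, MonoidHom.comp_apply,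
        S.pr_ψ' _ _ ad (dvd_mul_right _ _) g hg]
      exact congrArg _ (prod_congr rfl fun l hl => congrArg _
        (S.pr_ψ' _ _ ad ((Nat.dvd_of_mem_primeFactors hl).mul_left _) g hg))⟩
  have e : sT ⟨lam.pl, lam.ps, lam.c * b, ν⟩ = b.primeFactors := by
    ext l
    rw [mem_sT, Nat.primeFactors_mul t.adm.1.ne_zero b0, mem_union]
    refine ⟨fun ⟨a, a'⟩ => a.resolve_left fun a => ?_,
      fun a => ⟨.inr a, fun w hw k => nm w hw (k ▸ a)⟩⟩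
    obtain ⟨w, rfl⟩ := exists_plc (Nat.prime_of_mem_primeFactors a)
    obtain ⟨v, v1, v2⟩ := t.ex w (Nat.dvd_of_mem_primeFactors a)
    exact a' v v1 v2.symm
  have nd : ∀ l ∈ b.primeFactors, ¬ (l : ℤ) ∣ od f := fun l hl k => (h l hl).2.2
    ((dvd_od hf.ne (Nat.prime_of_mem_primeFactors hl)).1 k).2
  have mz := (am _ t.mem).ine z1.1
  refine ⟨⟨lam.pl, lam.ps, lam.c * b, ν⟩, ⟨⟨(S.sqf ad).ne_zero, t.mem, fun w hw => (t.dvd w hw).mul_right _, t.inj, am,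
    fun w hw => t.nrt w (t.dvd w hw), e ▸ sp⟩, ad, e ▸ nd, e ▸ fun l hl => (h l hl).1,
    ⟨z, z1, ?_⟩, fun v hv g hg => ?_, lam.c, lam.ν S.toHS _, ?_, e ▸ hν⟩, e⟩
  · rw [hν z mz, prod_eq_one, mul_one, z2]
    intro l hl
    rw [S.unr' l lam.pl (S.of_dvd hb (Nat.dvd_of_mem_primeFactors hl)) (fun k => nm _ t.mem
      ((Nat.prime_dvd_prime_iff_eq lam.pl.prime (Nat.prime_of_mem_primeFactors hl)).1 k ▸ hl))
      z ⟨mz, z1.1⟩, map_one]
  · have m := hf.split hv hg.1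
    rw [hν g m, tx_mul s0, t2 v hv g hg, tx_prod s0 _ fun l hl =>
      S.ν_spl l _ (Nat.prime_of_mem_primeFactors hl) s0 (h l hl).1 g m, Units.ext_iff,
      Units.coe_prod, prod_congr rfl fun l hl => chi_frob (mu0_ndvd (hf.ne_two hv) fun k => nd l hl
        ((Nat.prime_dvd_prime_iff_eq v.prime (Nat.prime_of_mem_primeFactors hl)).1
          (Int.natCast_dvd_natCast.1 k) ▸ hv)) hg]
    rfl
  · rw [sb, e, Nat.prod_primeFactors_of_squarefree (S.sqf hb)]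

end Pool.Agent.B6.B7.C5
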