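import Pool.Agent.Lib.MP_696deb_nt.B10.CO
import Pool.Agent.Lib.MP_696deb_nt.B10.CSL
import Pool.Agent.Lib.MP_696deb_nt.B10.CTG
import Pool.Agent.Lib.MP_696deb_nt.B10.CTX
import Pool.Agent.Lib.MP_696deb_nt.B10.CNU
import Pool.Agent.Lib.MP_696deb_nt.B10.CCM

/-! The core of the converse theorem. -/

set_option autoImplicit false

namespace Pool.Agent.T10

open Pool.Agent.B6.B7

theorem co_stmt : COStmt := C5.co_of C5.sl_stmt C5.tg_stmt C5.tx_stmt (C5.cm_stmt C5.nu_stmt)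

end Pool.Agent.T10
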