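import Pool.Agent.Lib.MP_696deb_nt.B10.CN

/-! The characters of towers with split primes. -/

set_option autoImplicit false

open scoped NNReal Classical
open Finset Matrix NumberTheorySymbols PowerSeries

namespace Pool.Agent.B6.B7.C5

open Pool.Agent.Lib.MP_696deb_nt Pool.Agent.Lib.MP_696deb_nt.B2 Pool.Agent.Lib.MP_696deb_nt.B6

variable [Md]

variable {n k : ℕ} {S : HS n} {T : Tate} {lam : Tp} {w : Plc} {f : ℤ} {Q : Finset Plc} {z g : Gam}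

theorem tw_z (h : HS.Tw S k lam (od f)) (hf : Fok n f) (e : ℤ) :
    ∃ z, Gen lam.pl z ∧ HS.psf S.toHS k lam f e z = 1 + X ∧
      (1 + X) * HS.psf S.toHS k lam f e (cc * z * cc) - 1 ∈ aa k k := by
  obtain ⟨z, hz, ez⟩ := h.gen
  have key : ∀ (v : Plc) (y : Gam), v.p = lam.pl.p → y ∈ Ine v →
      HS.psf S.toHS k lam f e y = (1 + X) ^ (lam.ν S.toHS (2 * k + 3) (S.ψ lam.c y)).toAdd.val :=
    fun v y hv hy => by
    have a : Adm n v.p := hv ▸ h.adp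
    rw [HS.psf, HS.psi, HS.Psi, S.pr_ψ' 1 _ h.adm (one_dvd _) y (a.ine hy), S.unr 1 v (adm_one n)
      (fun k => v.prime.ne_one (Nat.dvd_one.1 k)) y ⟨a.ine hy, hy⟩, hf.chi_adm a hy]
    simp
  have o : 1 < 2 ^ (2 * k + 3) := Nat.one_lt_two_pow (by omega)
  have n0 : 0 < n := Nat.pos_of_ne_zero fun e => by
    have := h.adp.inert
    rw [e, Nat.cast_zero, neg_zero, jacobiSym.zero_left lam.pl.prime.one_lt] at this
    exact absurd this (by decide)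
  refine ⟨z, hz, by rw [key _ z rfl hz.1, ez, ZMod.val_one'' o.ne', pow_one], ?_⟩
  have h1 := hz.smul cc
  rw [cc_inv] at h1
  rw [key (cc • lam.pl) _ rfl h1.1, ψ_cc S h.adm n0 (h.adp.ine hz.1), map_inv, toAdd_inv, ez,
    ← pow_succ', ← neg_mem_iff, neg_sub]
  have h2 := xtw_mod k ((-1 : ZMod (2 ^ (2 * k + 3))).val + 1)
  rwa [(Nat.dvd_iff_mod_eq_zero ..).1 ((ZMod.natCast_eq_zero_iff _ _).1 (by simp)), pow_zero] at h2

theorem tw_chr (h : HS.Tw S k lam (od f)) (hn : Nok n) (hf : Fok n f) (e : ℤ) :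
    Chr f n k lam (HS.psf S.toHS k lam f e) := by
  obtain ⟨z, z1, z2, -⟩ := tw_z h hf e
  have l := h.adm
  have k0 : ∀ g, S.ψ lam.c g = 1 → chi f g = 1 → HS.psf S.toHS k lam f e g - 1 ∈ aa k k := fun g a b => by
    rw [HS.psf_of a b, sub_self]
    exact zero_mem _
  refine ⟨⟨(sm_chi f).comp₂ (S.sm' _ l) fun u x => ((u : ℤ) : Lam) * HS.Psi S.toHS k lam e x,
    k0 _ (S.ψ_one l) (map_one _), fun g hg u hu => ?_, fun g => ?_,
    fun g hg => k0 _ (S.dih' _ l g hg) (by rw [map_mul, Int.units_mul_self]),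
    fun w hw σ hσ => ?_, fun w hw g hg => ?_,
    fun w hw φ hφ => ?_⟩,
    z, z1, by rw [z2, sub_self]; exact zero_mem _⟩
  · rw [HS.psf, HS.psf, HS.psf, HS.psi, HS.psi, HS.psi, S.mul' _ l g hg u hu, map_mul,
      Units.val_mul, Int.cast_mul, mul_mul_mul_comm _ (HS.Psi S.toHS k lam e _), ← mul_sub]
    exact Ideal.mul_mem_left _ _ (HS.Psi_mul S.toHS e _ _)
  · have h1 : Ideal.span {(X : Lam)} ≤ aa 1 1 :=
      (Ideal.span_singleton_le_iff_mem _).2 (by simpa using X_mem_aa 1 1)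
    have t : Ideal.span {(2 : Lam)} ≤ aa 1 1 :=
      (Ideal.span_singleton_le_iff_mem _).2 (by simpa using two_mem_aa 1 1)
    rw [HS.psf, HS.psi, HS.Psi, ← mul_assoc, ← Int.cast_mul, ← Units.val_mul]
    rw [← sub_add_sub_cancel]
    exact add_mem (xtw_mul _ (h1 (xtw_X _))) (t ((Int.cast_one (R := Lam)) ▸ xtw_sign _ 1))
  · rw [HS.psf, HS.psi_of (S.unr' _ w l hw σ hσ), mul_one, sub_self]
    exact zero_mem _
  · rw [HS.psf, HS.psi_of (S.ψ_dec l (fun e => ne_two_of (h.tok.nd30 e) hw)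
      (hn.ine_two hw) (fr_spec w) (hn.out_two hw) hg), mul_one, sub_self]
    exact zero_mem _
  · obtain ⟨u, u1, u2⟩ := xtw_gen (h.gf w hw φ hφ)
    have t : Ideal.span {(2 : Lam)} ≤ aa 1 k :=
      (Ideal.span_singleton_le_iff_mem _).2 (by simpa using two_mem_aa 1 k)
    refine ⟨u, u1, ?_⟩
    rw [HS.psf, HS.psi, HS.Psi, ← mul_assoc, ← Int.cast_mul, ← Units.val_mul, u2, ← sub_one_mul]
    exact Ideal.mul_mem_right _ _ (t ((Int.cast_one (R := Lam)) ▸ xtw_sign _ 1))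

/-- The parity of the exponent. -/
theorem HS.Tw.par (h : HS.Tw S k lam f) {l : ℕ} (hl : l ∈ sT lam) (hg : g ∈ GK n) :
    Odd (S.ν l (2 * k + 3) (S.ψ l g)).toAdd.val ↔ chi l g = -1 :=
  S.ν_spl l _ (sT_prime hl) (by omega) (h.cg l hl) g hg

theorem tw_sp (h : HS.Tw S k lam (od f)) (hf : Fok n f) (e : ℤ) :
    SpC f n k lam (HS.psf S.toHS k lam f e) := by
  refine ⟨h.ndf, fun w hw τ hτ => ?_, fun g hg => ⟨chi f g * S.gen e (S.pr 1 lam.c (S.ψ _ g)), ?_⟩⟩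
  swap
  · rw [HS.psf, HS.psi, HS.Psi, Units.val_mul, Int.cast_mul, ← mul_assoc]
    exact xtw_mul _ (xtw_X _)
  have sp := h.tok.spl _ hw
  have m : τ ∈ GK n ⊓ Ine w := ⟨sp.split (Ine_le w hτ.1), hτ.1⟩
  obtain ⟨c, ν, e1, e2⟩ := h.dec
  have nc : ¬ w.p ∣ c := fun k => w.prime.prime.not_isUnit (S.sqf h.adm _
    (e1 ▸ mul_dvd_mul k ((dvd_sb w.prime).2 hw)))
  have e3 : lam.ν S.toHS (2 * k + 3) (S.ψ lam.c τ) = S.ν w.p (2 * k + 3) (S.ψ w.p τ) := by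
    rw [e2 τ m.1, S.unr' c w (S.of_dvd h.adm ⟨_, e1⟩) nc τ m, map_one, one_mul,
      prod_eq_single_of_mem _ hw fun l hl k => by
        rw [S.unr' l w (S.of_dvd h.adm (sT_dvd hl)) (fun j => k
          ((Nat.prime_dvd_prime_iff_eq w.prime (sT_prime hl)).1 j).symm) τ m, map_one]]
  obtain ⟨u, u1, u2⟩ := xtw_gen ((h.par hw m.1).2 hτ.2)
  refine ⟨u, u1, ?_⟩
  rw [HS.psf, HS.psi, HS.Psi, S.pr_ψ' 1 _ h.adm (one_dvd _) τ m.1, S.unr 1 w (adm_one n)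
    (fun k => w.prime.ne_one (Nat.dvd_one.1 k)) τ m, hf.chi_ine sp.ne_two (h.ndf _ hw) hτ.1, e3, u2]
  simp

theorem tw_sok (h : HS.Tw S k lam (od f)) (hn : Nok n) (hf : Fok n f) (hQ : HS.DpS S T k lam f Q)
    (e : ℤ) : SOk T n f k lam (HS.psf S.toHS k lam f e) Q :=
  ⟨hn, hf, h.tok, tw_chr h hn hf e, fun w hw => (hQ.dp w hw).deep h.adm e, hQ.inj, tw_sp h hf e⟩

theorem dp_ine (h : HS.Dp S T k lam f w) (hf : Fok n f) : Ine w ≤ HS.N S T k lam f := fun σ hσ =>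
  ⟨h.adm.ine hσ, by rw [T.unr w h.adm.nd30 σ hσ, mred_one],
    fun hl => S.unr' _ w hl h.ne σ ⟨h.adm.ine hσ, hσ⟩, hf.chi_adm h.adm hσ⟩

theorem dp_gn (h : HS.Dp S T k lam f w) (hf : Fok n f) : gn w ∈ HS.N S T k lam f :=
  dp_ine h hf (gn_spec h.adm.ne_two).1

theorem psf_IN (hn : Nok n) (hl : S.Ad lam.c) (hz : z ∈ IN) (e : ℤ) :
    HS.psf S.toHS k lam f e z = ((chi f z : ℤ) : Lam) := by
  rw [HS.psf, HS.psi_of (S.ψ_IN hn hl hz), mul_one]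

/-- An element that acts as minus one. -/
theorem exists_scalar (hn : Nok n) (hl : S.Ad lam.c) : ∃ z ∈ IN,
    z ∈ GK n ∧ mred (k + 2) (T.ρ z) = -1 ∧ S.ψ lam.c z = 1 ∧ chi f z = 1 ∧
      ∀ g ∈ GK n, z * g * z⁻¹ * g⁻¹ ∈ HS.N S T k lam f := by
  obtain ⟨w, v, s, t, h⟩ := T.exists_tv
  obtain ⟨u, h1, h2⟩ := h.big !![0, -1; 1, 0] (by simp [det_fin_two]) (k + 2)
  have h3 := mul_mem (h.le_IN h1) (h.le_IN h1)
  have h4 : mred (k + 2) (T.ρ (u * u)) = mred (k + 2) ((-1 : ℤ_[2]) • 1) := by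
    rw [map_mul, mred_mul, h2, ← mred_mul]
    congr 1
    ext i j
    fin_cases i <;> fin_cases j <;> simp
  refine ⟨u * u, h3, hn.IN_le h3, h4.trans ?_, S.ψ_IN hn hl h3,
    by rw [map_mul, Int.units_mul_self], fun g hg => HS.comm_N (hn.IN_le h3) h4 hg⟩
  ext i j
  fin_cases i <;> fin_cases j <;> simp [mred]

end Pool.Agent.B6.B7.C5
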