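import Pool.Agent.Lib.MP_696deb_nt.B7.D9Ct
import Pool.Agent.Lib.MP_696deb_nt.B7.D9Pw
import Pool.Agent.Lib.MP_696deb_nt.B7.D9Sys
import Pool.Agent.Lib.MP_696deb_nt.B7.D9Fix

/-! The tower at two over an odd conductor. -/

set_option autoImplicit false

open scoped Classical
open Polynomial

namespace Pool.Agent.B6.E9

open Pool.Agent.Lib.MP_696deb_nt Pool.Agent.Lib.MP_696deb_nt.B2 Pool.Agent.Lib.MP_696deb_nt.B2.CM
open Pool.Agent.B6.D9
open Pool.Agent.B4.GE (jN Par Geo)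
open Pool.Agent.Lib.MP_696deb_nt.B3.CM (fs th St not_st_inert inert_two)
open Pool.Agent.B6.CM (yA)
open Pool.Agent.B6.B7.Dn (OkD exists_hg)

variable {L q b c : ℕ} {r : ℤ} {w : Plc} {A : ValuationSubring ℂ} {h : ℂ → ℂ} {σ g φ : Gam}

theorem ne0 (hb : Odd b) : b ≠ 0 := hb.pos.ne'

/-- The ring class fields of odd conductor are unramified at two. -/
theorem fix (ok : Ok q b) (h8 : q % 8 = 3) (hb : Odd b) (hw : w.p = 2) (hg : g ∈ Ine w) :
    rho q b g = 1 := by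
  have := finite_Pc ok.m4 ok.gt b
  have hk := SysA.ine h8 hw hg
  obtain ⟨φ, hφ⟩ := exists_frob w
  rw [hw] at hφ
  have h0 := SysA.inert h8 hw hφ
  have n1 : ¬ w.p ∣ q := by rw [hw]; omega
  have n2 : ¬ w.p ∣ b := hw ▸ hb.not_two_dvd_nat
  obtain ⟨F⟩ := exists_cft
  obtain ⟨F'⟩ := H3.exists_cft
  obtain ⟨a, a1, a2⟩ := tq_eq_one.1 (by_contra fun k => by
    obtain ⟨m, θ, -, h⟩ := exists_char tw_two ⊥ (a := tq _ (rho q b g)) k
    exact h (unr_inert F ok (θ.comp (tq _)) n1 n2 hφ.1 h0 ⟨hk, hg⟩))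
  obtain ⟨e, b1, b2⟩ := H3.CM.tq_eq_one.1 (by_contra fun k => by
    obtain ⟨m, θ, -, h⟩ := H3.CM.exists_char H3.CM.tw_three ⊥ (a := H3.CM.tq _ (rho q b g)) k
    exact h (H3.CM.unr_inert F' ok (θ.comp (H3.CM.tq _)) n1 n2 hφ.1 h0 ⟨hk, hg⟩))
  obtain ⟨U, u1, u2, u3⟩ := sm_rho ⊤ q b
  obtain ⟨j, m, m1, m2⟩ := Nat.exists_eq_two_pow_mul_odd u1.index_ne_zero
  have d1 : (g ^ 2)⁻¹ * (φ * g * φ⁻¹) ∈ Dec w :=
    mul_mem (inv_mem (pow_mem hg.1 2)) (conj_mem_Ine hφ.1 hg).1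
  have k1 : (g ^ 2)⁻¹ ∈ GK q := inv_mem (pow_mem hk 2)
  have h1 := b4a_mem u1 u2 (pow_mem d1 (2 ^ j))
    (fun y _ y0 => b4a_wild_pow d1 y0 (Fix.wild hφ hg y0) _) (n := m)
    (by rw [hw]; exact m1.not_two_dvd_nat) (by rw [← pow_mul, ← m2]; exact U.pow_index_mem _)
  have hj := u3 1 trivial _ trivial (by simpa only [inv_one, one_mul] using h1)
  rw [rho_one ok, rho_pow ok (mul_mem k1 ((normal_GK q).conj_mem g hk φ)), rho_mul ok k1,
    rho_inv ok (pow_mem hk 2), rho_pow ok hk, rho_conj ok h0 hk, ← mul_inv, ← pow_succ, inv_pow,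
    one_eq_inv] at hj
  exact (pow_eq_one_iff_of_coprime ((Nat.Prime.coprime_iff_not_dvd Nat.prime_three).2 b1)).1
    ⟨(pow_eq_one_iff_of_coprime ((Nat.coprime_two_left.2 a1).pow_left j)).1
      ⟨hj, by rw [← pow_mul, mul_comm, pow_mul, a2, one_pow]⟩, b2⟩

/-- The expansion at the centre of the disc. -/
noncomputable def sr (L q b : ℕ) (r : ℤ) (σ : Gam) (h : ℂ → ℂ) (u : Pc q b) : PowerSeries Qbar :=
  PowerSeries.mk fun n => σ (hv L q b r (Dv n h) u)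

theorem near (a : HvStmt) (k' : KrStmt) (C : Cx L q r w A) (f : IsFrob w 2 σ) (hh : Gf A L h)
    (hb : b ≠ 0) (hc : c = b * 2 ∨ c = b * 2 * 2 * 2) (v : Pc q c) :
    w.V (hv L q c r h v - σ (hv L q b r h (pj q b c v))) < 1 := by
  have k : ∀ v : Pc q (b * 2),
      w.V (hv L q _ r h v - σ (hv L q b r h (pj q b _ v))) < 1 := fun v =>
    Ct.trans_lt ((k' L q b _ r w A h C hb rfl hh).2 v) (by
      rw [w.V.map_sub_swap]
      exact f.2 _ ((a L q b r w A h C hb hh).2.1 _))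
  rcases hc with rfl | rfl
  · exact k v
  · have b1 := mul_ne_zero hb two_ne_zero
    have b2 := mul_ne_zero b1 two_ne_zero
    have h1 := (k' L q _ _ r w A h C b2 rfl hh).2 v
    have h2 := (k' L q _ _ r w A h C b1 rfl hh).2 (pj q _ _ v)
    have h3 := (k' L q _ _ r w A h C b1 rfl hh).1 (pj q _ _ (pj q (b * 2 * 2) _ v))
    have h4 := k (pj q _ _ (pj q (b * 2 * 2) _ v))
    have h5 := (a L q _ r w A h C b1 hh).2.1 (pj q _ _ (pj q (b * 2 * 2) _ v))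
    have h6 := Ct.sq_lt ((a L q _ r w A h C b2 hh).2.1 _)
      (by rw [map_pow]; exact pow_le_one' h5 2) h2
    rw [← pow_mul] at h6
    rw [pj_pj (dvd_mul_right b 2) (dvd_mul_right _ _),
      pj_pj ((dvd_mul_right b 2).mul_right 2) (dvd_mul_right _ _)] at h4
    exact Ct.trans_lt h1 (Ct.trans_lt h6 (Ct.trans_lt h3 h4))

theorem ct (hHv : HvStmt) (hKr : KrStmt) (hTr : TrStmt) (hDim : DimStmt) (hDcq : DcqStmt)
    (hTim : TimStmt) (C : Cx L q r w A) (f : IsFrob w 2 σ) (hb : b ≠ 0) (u : Pc q b) :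
    (∃ z : ℂ, 0 < z.im ∧ ∀ h, Gf A L h → PowerSeries.map jC (sr L q b r σ h u) = Ty z h) ∧
    ∀ c, c = b * 2 ∨ c = b * 2 * 2 * 2 → ∀ v : Pc q c, pj q b c v = u → ∀ h, Gf A L h →
      Ap w (sr L q b r σ h u) (hv L q c r tt v - σ (hv L q b r tt u)) (hv L q c r h v) := by
  have hL := SysA.valL C
  have h0 := ne_of_val hL
  obtain ⟨s, hs⟩ := exists_ex σ
  obtain ⟨z, hz⟩ := G5.exists_pc G5.jf_surj h0 s (hp_spec (C.ok.of_ne hb) u).1.pos
  have ev : ∀ h, Gf A L h → jC (σ (hv L q b r h u)) = h z := fun h hh => by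
    rw [← hs, Ct.jC_hv hHv C hb hh, hz.ev h h (hh.2 s)]
  have dv : ∀ h, Gf A L h → ∀ n, Gf A L (Dv n h) := fun h hh n => hh.dv hDim hDcq C.nine hL n
  refine ⟨⟨z, hz.pos', fun h hh => ?_⟩, fun c hc v huv h hh K => ?_⟩
  · ext n
    rw [PowerSeries.coeff_map, sr, Ty, PowerSeries.coeff_mk, PowerSeries.coeff_mk, ev _ (dv h hh n)]
  have c0 : c ≠ 0 := by omega
  have ht := hTim A L C.nine hL
  have nr : ∀ h, Gf A L h → A.valuation (h (hp L q c r v) - h z) < 1 := fun h hh => by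
    rw [← ev h hh, ← Ct.jC_hv hHv C c0 hh, ← map_sub, (C.ov _).2, ← huv]
    exact near hHv hKr C f hh hb hc v
  have e : tt (hp L q c r v) - tt z = jC (hv L q c r tt v - σ (hv L q b r tt u)) := by
    rw [map_sub, ev _ ht, Ct.jC_hv hHv C c0 ht]
  have j1 : A.valuation (jf z) ≤ 1 := by
    rw [← ev _ (gf_jf h0), (C.ov _).1, mem_Dec.1 f.1]
    exact (hHv L q b r w A _ C hb (gf_jf h0)).2.1 u
  have j2 : A.valuation (jf (hp L q c r v)) ≤ 1 := by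
    rw [← Ct.jC_hv hHv C c0 (gf_jf h0), (C.ov _).1]
    exact (hHv L q c r w A _ C c0 (gf_jf h0)).2.1 v
  have k := hTr A L z (hp L q c r v) C.nine hL hz.pos' (hp_spec (C.ok.of_ne c0) v).1.pos j1 j2
    (nr _ ht) (by
      rcases eq_or_ne (hv L q c r tt v - σ (hv L q b r tt u)) 0 with e0 | e0
      · rw [e0, map_zero, sub_eq_zero] at e
        exact Or.inl e
      · rw [e]
        exact Or.inr (ar_le C.ov C.p2 C.ar e0))
    (fun n => nr _ (dv _ (gf_jN dvd_rfl h0) n)) h hh.1 K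
  rw [← map_pow, ← over_le C.ov, map_pow, map_pow, ← e, map_sub, Ct.jC_hv hHv C c0 hh, tv, map_sum]
  refine le_of_eq_of_le ?_ k
  congr 2
  refine Finset.sum_congr rfl fun n _ => ?_
  rw [map_mul, map_pow, ← e, sr, PowerSeries.coeff_mk, ev _ (dv h hh n)]

theorem pw1 [∀ c, Fintype (Pc q c)] (a : HvStmt) (hk : HkStmt) (ht : TimStmt) (C : Cx L q r w A)
    (hb : Odd b) (n : ℕ) (u : Pc q b) :
    fs b (b * 2) (fun v => hv L q _ r tt v ^ n) u = pw (hv L q b r tt u) n := jC.injective (by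
  have hl := Nat.prime_two
  have H := fun c hc => (a L q c r w A tt C hc (ht A L C.nine (SysA.valL C))).1
  have ok := C.ok.of_ne (ne0 hb)
  obtain ⟨τ, h, rfl⟩ := exists_hg ok u
  rw [Pw.map_pw, H b ok.ne τ h]
  refine (Pw.fs_t H hk (C.ok.of_ne (mul_ne_zero ok.ne two_ne_zero)) h n).trans ?_
  rw [Finset.filter_false_of_mem fun i _ => not_st_inert ok.toOk hl (inert_two C.m8)
    hb.not_two_dvd_nat h.iv (nb_mid hl h.pos.ne' i).1 (nb_mid hl h.pos.ne' i).2, Finset.sum_empty,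
    sub_zero])

theorem fx_hv (hHv : HvStmt) (C : Cx L q r w A) (hb : Odd b) (hh : Gf A L h) (u : Pc q b) :
    Fx (Ine w) (hv L q b r h u) := fun g hg => by
  rw [(hHv L q b r w A h C (ne0 hb) hh).2.2 g (SysA.ine C.m8 C.p2 hg),
    fix (C.ok.of_ne (ne0 hb)).toOk C.m8 hb C.p2 hg, one_mul]

theorem if_sr (hHv : HvStmt) (hDim : DimStmt) (hDcq : DcqStmt) (C : Cx L q r w A) (hb : Odd b)
    (hσ : σ ∈ Dec w) (hh : Gf A L h) (u : Pc q b) : IF w (Ine w) (sr L q b r σ h u) := fun n => by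
  have k := hh.dv hDim hDcq C.nine (SysA.valL C) n
  rw [sr, PowerSeries.coeff_mk]
  exact ⟨SysA.fx_conj hσ (fx_hv hHv C hb k u),
    (mem_Dec.1 hσ _).trans_le ((hHv L q b r w A _ C (ne0 hb) k).2.1 u)⟩

theorem sr_zero (h : ℂ → ℂ) (u : Pc q b) :
    PowerSeries.coeff 0 (sr L q b r σ h u) = σ (hv L q b r h u) := by
  rw [sr, PowerSeries.coeff_mk, dv_zero]

theorem V_tt (hHv : HvStmt) (hKr : KrStmt) (hUnit : UnitStmt) (hTim : TimStmt) (C : Cx L q r w A)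
    (hb : b ≠ 0) (u : Pc q b) : w.V (hv L q b r tt u) < 1 := by
  have g := hTim A L C.nine (SysA.valL C)
  have h1 := (hKr L q b _ r w A tt C hb rfl g).1 u
  obtain ⟨p1, -⟩ := hp_spec (C.ok.of_ne hb) u
  have h2 : A.valuation (jf (hp L q b r u)) ≤ 1 := by
    rw [← B7.Dn.jQ_tau (C.ok.of_ne hb).toOk p1]
    exact (C.ov _).1.2 (V_jQ (C.ok.of_ne hb).toOk w _)
  have h3 := hUnit A (val_three (SysA.valL C) C.nine) _ p1.pos h2
  rw [← Ct.jC_hv hHv C hb g] at h3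
  set t := hv L q b r tt u
  have h4 : ¬ w.V (t ^ 3 - 27) < 1 := fun k => by
    have := (C.ov _).2.2 k
    rw [map_sub, map_pow, map_ofNat, h3] at this
    exact lt_irrefl _ this
  have h5 : w.V 26 < 1 := by
    have := b2a_mul_lt w (w.V_int_le 13) (b2a_p_lt w)
    rwa [C.p2, show ((13 : ℤ) : Qbar) * (2 : ℕ) = 26 by norm_num] at this
  have h6 : 1 ≤ w.V (t ^ 3 - 1) := not_lt.1 fun k => h4 (by
    rw [show t ^ 3 - 27 = t ^ 3 - 1 - 26 by ring]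
    exact w.V.map_sub_lt k h5)
  rw [show t ^ 4 - t = t * (t ^ 3 - 1) by ring, map_mul] at h1
  exact (le_mul_of_one_le_right' h6).trans_lt h1

variable [Cw]

/-- What is used about the points of conductor dividing eight times an odd number. -/
structure Sy (w : Plc) (σ : Gam) (q b : ℕ) [∀ c, Fintype (Pc q c)] (y : ∀ c, Pc q c → EE) where
  t : ∀ c, Pc q c → Qbar
  x : ∀ c, Pc q c → Qbar
  z : ∀ c, Pc q c → Qbar
  X : Pc q b → PowerSeries Qbar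
  Z : Pc q b → PowerSeries Qbar
  W : Pc q b → PowerSeries Qbar
  ok : Ok q b
  p2 : w.p = 2
  fr : IsFrob w 2 σ
  le : Ine w ≤ GK q
  out : σ ∉ GK q
  gal : ∀ c, c ≠ 0 → ∀ g ∈ GK q, ∀ u, g (t c u) = t c (rho q c g * u) ∧
    g (z c u) = z c (rho q c g * u) ∧ g • y c u = y c (rho q c g * u)
  unr : ∀ g ∈ Ine w, rho q b g = 1
  ss : ∀ u, w.V (σ (t b u)) ≤ w.V 2 ∧ w.V (t b u) ≤ w.V 2 ∧ Fx (Ine w) (σ (t b u))
  pw1 : ∀ n u, fs b (b * 2) (fun v => t _ v ^ n) u = pw (t b u) n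
  pw2 : ∀ c, c ≠ 0 → ∀ n u, fs (c * 2) (c * 2 * 2) (fun v => t _ v ^ n) u =
    pw (t _ u) n - t c (pj q c _ u) ^ n
  rt : ∀ c, c ≠ 0 → ∀ v, ps (t c (pj q c (c * 2) v)) (t _ v) = 0
  aff : ∀ c, c ≠ 0 → ∀ u, y c u ≠ 0 ∧ xco (y c u) ≠ er 0 ∧ z c u ≠ 0 ∧
    xco (y c u) * z c u = x c u
  int : ∀ u, IF w (Ine w) (X u) ∧ IF w (Ine w) (Z u) ∧ IF w (Ine w) (W u) ∧ W u ≠ 0 ∧
    W u ^ 2 = Z u * cF (X u) (Z u)
  ctr : ∀ u, PowerSeries.coeff 0 (X u) = σ (x b u) ∧ PowerSeries.coeff 0 (Z u) = σ (z b u)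
  ap : ∀ c, c = b * 2 ∨ c = b * 2 * 2 * 2 → ∀ u (v : Pc q c), pj q b c v = u →
    Ap w (X u) (t c v - σ (t b u)) (x c v) ∧ Ap w (Z u) (t c v - σ (t b u)) (z c v)

theorem sys (hAr : ArStmt) (hHv : HvStmt) (hKr : KrStmt) (hTr : TrStmt) (hPw : PwStmt)
    (hHk : HkStmt) (hCh : ChStmt) (hUnit : UnitStmt) (hTim : TimStmt) (hTay : TayStmt)
    (hDim : DimStmt) (hDcq : DcqStmt) {N : ℕ} {P : Par Wu N} (G : Geo P) (hN : Odd N) :
    ∃ B : ℕ, ∀ (q b : ℕ) (r : ℤ) (w : Plc) (σ : Gam) [∀ c, Fintype (Pc q c)], Squarefree q →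
      q % 8 = 3 → B < q → OkD (9 * N) q 1 r → Odd b → w.p = 2 → IsFrob w 2 σ →
      Nonempty (Sy w σ q b fun c => yA P q c r) := by
  obtain ⟨X, Z, W, B, c1, c2⟩ := hCh N P
  refine ⟨B + 4 * (9 * N) ^ 2, fun q b r w σ _ sq m8 hB ok hb p2 fr => ?_⟩
  obtain ⟨A, ov, ar⟩ := hAr w p2
  have C : Cx (9 * N) q r w A :=
    ⟨ok, sq, m8, by omega, dvd_mul_right _ _, (by decide : Odd 9).mul hN, p2, ov, ar⟩
  have L0 := ne_of_val (SysA.valL C)
  have NL : N ∣ 9 * N := dvd_mul_left _ _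
  have gf : ∀ Q : ℤ[X][X], Gf A (9 * N) fun z => aevalAeval (jf z) (jN N z) Q := fun Q =>
    (gf_jf L0).aeval (gf_jN NL L0) Q
  have gt := hTim A _ C.nine (SysA.valL C)
  have b0 := ne0 hb
  have ch := fun c (hc : c ≠ 0) (u : Pc q c) => c2 q c (hp (9 * N) q c r u) (C.ok.of_ne hc).toOk
    (by omega) (hp_spec (C.ok.of_ne hc) u).1.pos (hp_spec (C.ok.of_ne hc) u).1.iv
  obtain ⟨-, w2, w3⟩ := hPw _ q r w A C
  have hCt := ct hHv hKr hTr hDim hDcq hTim C fr b0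
  refine ⟨{
    t := fun c => hv (9 * N) q c r tt
    x := fun c => hv (9 * N) q c r fun z => aevalAeval (jf z) (jN N z) X
    z := fun c => hv (9 * N) q c r fun z => aevalAeval (jf z) (jN N z) Z
    X := sr (9 * N) q b r σ fun z => aevalAeval (jf z) (jN N z) X
    Z := sr (9 * N) q b r σ fun z => aevalAeval (jf z) (jN N z) Z
    W := sr (9 * N) q b r σ fun z => aevalAeval (jf z) (jN N z) W
    ok := (ok.of_ne b0).toOk
    p2 := p2
    fr := fr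
    le := SysA.ine m8 p2
    out := SysA.inert m8 p2 fr
    gal := fun c hc g hg u => ⟨(hHv _ q c r w A _ C hc gt).2.2 g hg u,
      (hHv _ q c r w A _ C hc (gf Z)).2.2 g hg u, B7.Dn.smul_yA G ((C.ok.of_ne hc).lev NL) hg u⟩
    unr := fun g hg => fix (ok.of_ne b0).toOk m8 hb p2 hg
    ss := fun u => ?_
    pw1 := pw1 hHv hHk hTim C hb
    pw2 := fun c hc => w2 c _ _ hc rfl rfl
    rt := fun c hc => w3 c _ hc rfl
    aff := fun c hc u => ?_
    int := fun u => ⟨if_sr hHv hDim hDcq C hb fr.1 (gf X) u, if_sr hHv hDim hDcq C hb fr.1 (gf Z) u,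
      if_sr hHv hDim hDcq C hb fr.1 (gf W) u, fun e => ?_, ?_⟩
    ctr := fun u => ⟨sr_zero _ u, sr_zero _ u⟩
    ap := fun c hc u v e => ⟨(hCt u).2 c hc v e _ (gf X), (hCt u).2 c hc v e _ (gf Z)⟩ }⟩
  · have f1 := fx_hv hHv C hb gt u
    have f2 := SysA.V_le p2 f1 (V_tt hHv hKr hUnit hTim C b0 u)
    exact ⟨(mem_Dec.1 fr.1 _).trans_le f2, f2, SysA.fx_conj fr.1 f1⟩
  · obtain ⟨-, k2, k3, k4, k5⟩ := ch c hc u
    have e1 := SysA.jC_y G C NL hc u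
    have e2 := Ct.jC_hv hHv C hc (gf Z) u
    have e3 := Ct.jC_hv hHv C hc (gf X) u
    beta_reduce at e2 e3
    rw [← e1] at k3 k4 k5
    rw [xco_pmap] at k4 k5
    rw [← e2] at k2 k5
    rw [← e3, ← map_mul] at k5
    refine ⟨fun e => k3 (by rw [e, map_zero]), fun e => k4 ?_, fun e => k2 (by rw [e, map_zero]),
      jC.injective k5⟩
    rw [e, ← map_cub, cub_er, map_zero]
  · have e1 := sr_zero (L := 9 * N) (r := r) (σ := σ) (fun z => aevalAeval (jf z) (jN N z) W) u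
    rw [e, map_zero, eq_comm, map_eq_zero] at e1
    have e2 := Ct.jC_hv hHv C b0 (gf W) u
    rw [e1, map_zero] at e2
    exact (ch b b0 u).1 e2.symm
  · obtain ⟨⟨z, hz, k⟩, -⟩ := hCt u
    refine PowerSeries.map_injective jC jC.injective ?_
    rw [map_pow, map_mul, SysA.map_cF, k _ (gf X), k _ (gf Z), k _ (gf W)]
    exact SysA.ty_eq hTay hz (mf_an L0 (gf X).1.mf hz) (mf_an L0 (gf Z).1.mf hz)
      (mf_an L0 (gf W).1.mf hz) c1

end Pool.Agent.B6.E9
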