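import Pool.Agent.Lib.MP_696deb_nt.B10.E0
import Pool.Agent.Lib.MP_696deb_nt.B7.D9D1
import Pool.Agent.Lib.MP_696deb_nt.B7.D9P3
import Pool.Agent.Lib.MP_696deb_nt.B7.D9Dk

/-! The computation on one disc over an odd conductor. -/

set_option autoImplicit false

open scoped Classical

namespace Pool.Agent.B6.E9

open Pool.Agent.Lib.MP_696deb_nt Pool.Agent.Lib.MP_696deb_nt.B2 Pool.Agent.Lib.MP_696deb_nt.B2.CM
open Pool.Agent.B6.D9
open Pool.Agent.Lib.MP_696deb_nt.B3.CM (fs th m2 fs_fs fs_congr fs_const_up gd_two)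

variable {w : Plc} {σ : Gam} {q b d : ℕ} [∀ c, Fintype (Pc q c)]

theorem m8 (b : ℕ) : m2 2 ∣ b * 2 * 2 * 2 := ⟨b, by change _ = 8 * b; ring⟩

/-- The fibre of the projection. -/
abbrev Fb (d : ℕ) (u : Pc q b) : Type := {v : Pc q d // pj q b d v = u}

/-- The leaves on which the character of conductor eight is trivial. -/
abbrev Lv (u : Pc q b) : Type := {v : Pc q (b * 2 * 2 * 2) // pj q b _ v = u ∧ th q _ 2 v = 1}

theorem sum_fb (u : Pc q b) (F : Pc q d → Qbar) : ∑ v : Fb d u, F v.1 = fs b d F u :=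
  (Finset.sum_subtype _ (by simp) F).symm

theorem sum_lv (u : Pc q b) (F : Pc q (b * 2 * 2 * 2) → Qbar) :
    ∑ v : Lv u, F v.1 = ∑ v : Fb (b * 2 * 2 * 2) u with th q _ 2 v.1 = 1, F v.1 := by
  rw [Finset.sum_filter, sum_fb u fun v => if th q _ 2 v = 1 then F v else 0, fs,
    ← Finset.sum_filter, Finset.filter_filter]
  exact (Finset.sum_subtype _ (by simp) F).symm

variable [Cw] {y : ∀ c, Pc q c → EE}

open D1 in
theorem d1 (hNd : NdStmt) (hKn : KnStmt) (hC1 : C1Stmt) (hAs : AsStmt) (hNw : NwStmt)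
    (hRt : RtStmt) (hS : Ss) (T : Sy w σ q b y) {a : ℤ} {u : Pc q b} {g S : PowerSeries Qbar}
    (hσ : σ (er 0) = er 0) (ha : Even a) (hf : fs b (b * 2) (y _) u = a • y b u)
    (hg : IF w (JF w) g) (hS' : IF w (JF w) S)
    (hF : PowerSeries.C ee * T.Z u * (PowerSeries.C (ee * pp ^ 2) * T.X u - T.Z u) =
      S ^ 2 * (1 + PowerSeries.C (pp ^ 2) * g)) :
    D9.Rel (JF w) (kap (σ • y b u)) (1 + 2 * pp ^ 2 * kv g (σ (T.t b u) / 2)) ∧
    D9.Rel (JF w) (1 + pp ^ 2 * PowerSeries.coeff 0 g)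
      (1 + 2 * pp ^ 2 * kv g (σ (T.t b u) / 2)) := by
  obtain ⟨a', ha⟩ := ha
  have b0 := T.ok.ne
  have b1 := mul_ne_zero b0 two_ne_zero
  have p3 := (hRt hS w T.p2).1
  have h2 : w.V 2 < 1 := by simpa [T.p2] using (b4a_V_p w).2
  have p1 := lt_of_pow h2 p3.le
  have le : JF w ≤ Ine w := inf_le_left
  have mono : ∀ {F}, IF w (Ine w) F → IF w (JF w) F := fun h n =>
    ⟨fun k hk => (h n).1 k (le hk), (h n).2⟩
  obtain ⟨iX, iZ, -⟩ := T.int u
  have fy : ∀ k ∈ Ine w, k • y b u = y b u := fun k hk => by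
    rw [(T.gal b b0 k (T.le hk) u).2.2, T.unr k hk, one_mul]
  obtain ⟨s1, s2, s3⟩ := T.ss u
  obtain ⟨K, hK, R1⟩ := hNd hS w (JF w) Unit (fun _ => σ • y b u) (fun _ => 0)
    (fun _ => σ (T.x b u)) (fun _ => σ (T.z b u)) _ _ S g T.p2 le_rfl (mono iX) (mono iZ) hS' hg hF
    (fun k hk => ⟨1, fun _ => ⟨by
      have := fy _ (conj_mem_Ine (inv_mem T.fr.1) (le hk))
      rw [inv_inv, mul_smul, mul_smul, inv_smul_eq_iff] at this
      exact this, map_zero _, by rw [← (T.ctr u).2]; exact (iZ 0).1 k (le hk)⟩⟩)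
    fun _ => by
      obtain ⟨a1, a2, a3, a4⟩ := T.aff b b0 u
      refine ⟨by simp, mt (smul_eq_zero_iff_eq σ).1 a1, fun e => a2 (σ.injective ?_), by simpa using a3,
        by rw [xco_smul, ← map_mul, a4], ?_, ?_⟩
      · rw [← xco_smul, e, hσ]
      · exact (T.ctr u).1 ▸ ap_zero (iX 0).2
      · exact (T.ctr u).2 ▸ ap_zero (iZ 0).2
  rw [Fintype.sum_unique, Fintype.prod_unique, tv_zero g (by omega)] at R1
  have sub : ∀ {M : Type} [AddCommMonoid M] (G : Pc q (b * 2) → M),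
      ∑ v : {v : Pc q (b * 2) // pj q b _ v = u}, G v = fs b _ G u := fun G =>
    (Finset.sum_subtype _ (by simp) G).symm
  have rt : ∀ v : {v : Pc q (b * 2) // pj q b _ v = u}, ps (T.t b u) (T.t _ v.1) = 0 := fun v => by
    simpa only [v.2] using T.rt b b0 v
  obtain ⟨K, hK, R2⟩ := hNd hS w (JF w) {v : Pc q (b * 2) // pj q b _ v = u} (fun v => y _ v.1)
    (fun v => T.t _ v.1 - σ (T.t b u)) (fun v => T.x _ v.1) (fun v => T.z _ v.1) _ _ S g T.p2 le_rfl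
    (mono iX) (mono iZ) hS' hg hF
    (fun k hk => ⟨(Equiv.mulLeft (rho q (b * 2) k)).subtypePerm fun v => by
      rw [Equiv.coe_mulLeft, map_mul, pj_rho ⟨T.ok.m4, T.ok.gt, b1⟩ (dvd_mul_right b 2),
        T.unr k (le hk), one_mul], fun v => by
      obtain ⟨g1, g2, g3⟩ := T.gal _ b1 k (T.le (le hk)) v
      exact ⟨g3, by rw [map_sub, g1, s3 k (le hk)]; rfl, g2⟩⟩)
    fun v => by
      obtain ⟨a1, a2, a3, a4⟩ := T.aff _ b1 v.1
      exact ⟨w.V.map_sub_lt (lt_of_pow h2 ((hNw w _ _ T.p2 (rt v)).1 s2)) (s1.trans_lt h2), a1, a2,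
        a3, a4, T.ap _ (.inl rfl) u v v.2⟩
  rw [sub, hf, ha, add_zsmul, ← two_nsmul] at R2
  have R3 := R2.symm.trans ((hKn (JF w) fun _ h => h.2).1 _ fun k hk => by
    rw [smul_comm, fy k (le hk)])
  have fp : ∀ k ∈ JF w, k pp = pp := fun k hk => by rw [pp, map_mul, map_ofNat, (mem_JF.1 hk).2]
  have fA : Fx (JF w) (1 + pp ^ 2 * PowerSeries.coeff 0 g) := fun k hk => by
    rw [map_add, map_one, map_mul, map_pow, fp k hk, (hg 0).1 k hk]
  have fB : Fx (JF w) (1 + 2 * pp ^ 2 * kv g (σ (T.t b u) / 2)) := fun k hk => by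
    simp only [kv, map_add, map_one, map_mul, map_pow, map_div₀, map_ofNat, fp k hk, (hg _).1 k hk,
      s3 k (le hk)]
  have p2 : w.V (pp ^ 2) < 1 := by rw [map_pow]; exact pow_lt_one₀ zero_le p1 two_ne_zero
  have vA : w.V (1 + pp ^ 2 * PowerSeries.coeff 0 g) = 1 := w.V.map_one_add_of_lt (by
    rw [map_mul]; exact mul_lt_one_of_nonneg_of_lt_one_left zero_le p2 (hg 0).2)
  have vB : w.V (1 + 2 * pp ^ 2 * kv g (σ (T.t b u) / 2)) = 1 := w.V.map_one_add_of_lt (by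
    rw [map_mul, map_mul]
    refine mul_lt_one_of_nonneg_of_lt_one_left zero_le (mul_lt_one_of_nonneg_of_lt_one_left zero_le
      h2 p2.le) (w.V.map_add_le ?_ (hg 3).2)
    rw [map_mul, map_div₀]
    exact mul_le_one' (hg 1).2 (div_le_one_of_le₀ s1 zero_le))
  obtain ⟨c, c0, c1, c2⟩ := (hAs w (JF w) _ _ T.p2 le (by
      obtain ⟨c, -, c1, c2⟩ := R3
      exact fun k hk => by rw [c2, mul_one, map_pow, c1 k hk])
    (fun k hk => by rw [map_mul, map_pow, fA k hk, fB k hk])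
    (by rw [map_mul, map_pow, vA, vB, one_pow, one_mul])
    (hC1 w pp _ _ _ _ g K T.p2 p3 s2 s1 (fun n => (sub fun v => T.t _ v ^ n).trans (T.pw1 n u)) rt
      (fun n => (hg n).2) hK)).symm.trans R3
  have A0 := (map_ne_zero w.V).1 (vA ▸ one_ne_zero)
  have B0 := (map_ne_zero w.V).1 (vB ▸ one_ne_zero)
  refine (fun R4 => ⟨R1.trans R4, R4⟩) ⟨c / (_ * _), div_ne_zero c0 (mul_ne_zero A0 B0),
    fun k hk => by rw [map_div₀, map_mul, c1 k hk, fA k hk, fB k hk], ?_⟩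
  rw [div_pow, ← mul_one (c ^ 2), ← c2, div_mul_eq_mul_div,
    eq_div_iff (pow_ne_zero 2 (mul_ne_zero A0 B0))]
  ring

open P3 in
theorem p3 (h3 : C3Stmt) (h4 : C4Stmt) (hN : NwStmt) (T : Sy w σ q b y) (u : Pc q b)
    (e : Lv u → Qbar) (he : ∀ v, e v = T.t _ v.1 - σ (T.t b u)) :
    (∀ v, w.V (e v) ^ 12 ≤ w.V 2) ∧ w.V (∑ v, e v - σ (T.t b u) / 2 * rt 2) < w.V (rt 2) ∧
    w.V (∑ v, e v ^ 3 - rt 2) < w.V (rt 2) ∧
    ∀ n ∈ ({2, 4, 5, 6} : Finset ℕ), w.V (∑ v, e v ^ n) < w.V (rt 2) := by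
  have p2 := T.p2
  obtain ⟨c2, t2, -⟩ := T.ss u
  have k2 := two_lt p2
  have b0 := T.ok.ne
  have b1 := mul_ne_zero b0 two_ne_zero
  have b2 := mul_ne_zero b1 two_ne_zero
  have ok8 : Ok q (b * 2 * 2 * 2) := ⟨T.ok.m4, T.ok.gt, mul_ne_zero b2 two_ne_zero⟩
  have d12 := dvd_mul_right b 2
  have d24 := dvd_mul_right (b * 2) 2
  have d14 := d12.trans d24
  have d48 := dvd_mul_right (b * 2 * 2) 2
  have sz : ∀ v : Pc q (b * 2 * 2 * 2), pj q b _ v = u → w.V (T.t _ v) ^ 12 ≤ w.V 2 := fun v hv =>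
    (hN w _ _ p2 (T.rt _ b2 v)).2.2 ((hN w _ _ p2 (T.rt _ b1 _)).2.1
      ((hN w _ _ p2 (T.rt b b0 _)).1
        (by rwa [pj_pj d12 d24, pj_pj d14 d48, hv])))
  have s1 : ∀ v : Pc q (b * 2 * 2 * 2), pj q b _ v = u → w.V (T.t _ v) < 1 := fun v hv =>
    lt_of_not_ge fun k => absurd ((one_le_pow₀ k).trans (sz v hv)) (not_le.2 k2)
  obtain ⟨a2, a6, a10⟩ := h3 w (T.t b u) (fun n => fs b (b * 2) (fun v => T.t _ v ^ n) u)
    (fun n => fs b (b * 2 * 2) (fun v => T.t _ v ^ n) u)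
    (fun n => fs b (b * 2 * 2 * 2) (fun v => T.t _ v ^ n) u) p2 t2
    (Fb (b * 2) u) (Fb (b * 2 * 2) u) (fun v => T.t (b * 2) v.1) (fun v => T.t (b * 2 * 2) v.1)
    (fun v => ⟨pj q (b * 2) (b * 2 * 2) v.1, by rw [pj_pj d12 d24, v.2]⟩)
    (fun n => (sum_fb u fun v => T.t (b * 2) v ^ n).symm) (fun n => (sum_fb u fun v => T.t (b * 2 * 2) v ^ n).symm)
    (fun n => T.pw1 n u)
    (fun n => by
      rw [sum_fb u fun v => pw (T.t (b * 2) v) n - T.t b u ^ n, ← fs_fs d12 d24]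
      exact fs_congr fun x hx => by rw [T.pw2 b b0, hx])
    (fun n => by
      rw [sum_fb u fun v => pw (T.t (b * 2 * 2) v) n - T.t (b * 2) (pj q (b * 2) (b * 2 * 2) v) ^ n, ← fs_fs d14 d48]
      exact fs_congr fun x _ => T.pw2 _ b1 n x)
    (fun n => by
      rw [sum_fb u fun v => T.t (b * 2) (pj q (b * 2) (b * 2 * 2) v) ^ n, ← fs_fs d12 d24, fs, fs, Finset.mul_sum]
      refine Finset.sum_congr rfl fun x _ => ?_
      rw [fs_congr (G := fun _ => T.t (b * 2) x ^ n) fun v hv => by rw [hv],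
        fs_const_up T.ok Nat.prime_two rfl rfl, nsmul_eq_mul, Nat.cast_ofNat])
  have key := fun k (hk : k ≠ 0) => h4 w (Fb (b * 2 * 2 * 2) u) (fun v => T.t (b * 2 * 2 * 2) v.1 ^ k) (fun v => th q _ 2 v.1)
    p2 (fun g hg => ⟨(Equiv.mulLeft (rho q _ g)).subtypePerm fun v => by
      rw [Equiv.coe_mulLeft, map_mul, pj_rho ok8 (d14.trans d48), T.unr g hg, one_mul], fun v => by
      refine ⟨?_, ?_⟩
      · rw [map_pow, (T.gal _ ok8.ne g (T.le hg) _).1]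
        rfl
      · rw [← (gd_two ok8 dvd_rfl (m8 b)).th (T.le hg), ← map_mul]
        rfl⟩)
    fun v => by rw [map_pow]; exact pow_lt_one₀ zero_le (s1 _ v.2) hk
  simp only [← pow_mul, fun n => (sum_lv u fun v => T.t (b * 2 * 2 * 2) v ^ n).symm,
    fun n => sum_fb u fun v => T.t (b * 2 * 2 * 2) v ^ n] at key
  have tr : ∀ (n : ℕ) (x : Qbar), w.V (∑ v : Lv u, T.t (b * 2 * 2 * 2) v.1 ^ n - x) < w.V (rt 2) →
      w.V (∑ v, e v ^ n - x) < w.V (rt 2) := fun n x h => by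
    rw [← sub_add_sub_cancel _ (∑ v : Lv u, T.t (b * 2 * 2 * 2) v.1 ^ n), ← Finset.sum_sub_distrib]
    refine w.V.map_add_lt ((w.V.map_sum_le fun v _ => ?_).trans_lt (two_rt p2)) h
    have := (s1 _ v.2.1).le
    refine (pow_sub ?_ this n).trans ?_ <;> rw [he]
    · exact w.V.map_sub_le this (c2.trans k2.le)
    · rwa [sub_sub_cancel_left, w.V.map_neg]
  have c1 : w.V (σ (T.t b u) / 2) ≤ 1 := by rwa [map_div₀, div_le_one₀ (two_pos' w)]
  have f1 := T.fr.2 _ c1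
  have f2 : σ (σ (T.t b u)) = T.t b u := by
    have := (T.gal b b0 (σ * σ) (show chi (-q) (σ * σ) = 1 by
      rw [map_mul, Int.units_mul_self]) u).1
    rwa [rho_sq T.ok T.out, one_mul] at this
  rw [map_div₀, f2, map_ofNat] at f1
  refine ⟨fun v => ?_, ?_, tr 3 _ ?_, fun n hn => ?_⟩
  · rw [he]
    rcases le_max_iff.1 (w.V.map_sub (T.t (b * 2 * 2 * 2) v.1) (σ (T.t b u))) with h | h
    · exact (pow_le_pow_left' h _).trans (sz _ v.2.1)
    · exact (pow_le_pow_left' (h.trans c2) _).trans (pow_le_of_le_one zero_le k2.le (by decide))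
  · simpa only [pow_one] using tr 1 _ ((key 1 one_ne_zero).2 _ c1 (by
      rw [← sub_add_sub_cancel _ (2 * T.t b u), show 2 * T.t b u - 4 * (σ (T.t b u) / 2) ^ 2 =
        4 * (T.t b u / 2 - (σ (T.t b u) / 2) ^ 2) by ring]
      exact w.V.map_add_lt (a2.trans_lt (eight_lt p2)) (four_lt f1)))
  · simpa only [one_mul] using (key 3 (by decide)).2 1 (by simp)
      (by simpa only [one_pow, mul_one] using a6.trans_lt (eight_lt p2))
  · rw [← sub_zero (∑ v, e v ^ n)]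
    refine tr n 0 ?_
    simp only [Finset.mem_insert, Finset.mem_singleton] at hn
    rcases hn with rfl | rfl | rfl | rfl
    · simpa only [sub_zero] using (key 1 (by decide)).1
    · simpa only [sub_zero] using (key 2 (by decide)).1
    · simpa only [zero_mul] using (key 5 (by decide)).2 0 (by simp)
        (by simpa using a10.trans_lt (eight_lt p2))
    · simpa only [sub_zero] using (key 3 (by decide)).1

theorem dk (sq : SqStmt) (nd : NdStmt) (kn : KnStmt) (c1 : C1Stmt) (c2 : C2Stmt) (c3 : C3Stmt)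
    (c4 : C4Stmt) (as : AsStmt) (nw : NwStmt) (rt' : RtStmt) (ss : Ss) (T : Sy w σ q b y) {a : ℤ}
    (u : Pc q b) (hσ : σ (er 0) = er 0) (ha : Even a) (hy : fs b (b * 2) (y _) u = a • y b u) :
    ∃ k, Dk w (σ • y b u) (∑ v : Lv u, y _ v.1) k := by
  have l1 : JF w ≤ Ine w := inf_le_left
  have l2 : JJ w ≤ JF w := inf_le_left
  obtain ⟨iX, iZ, iW, W0, hW⟩ := T.int u
  obtain ⟨S, g, iS, ig, fac⟩ := sq ss w T.p2 _ _ _ (Dk.mono iX l1) (Dk.mono iZ l1) (Dk.mono iW l1)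
    W0 hW
  obtain ⟨e1, s, b0, hb, e2⟩ := d1 nd kn c1 as nw rt' ss T hσ ha hy ig iS fac
  obtain ⟨s1, s2, s3, s4⟩ := p3 c3 c4 nw T u (fun v => T.t _ v.1 - σ (T.t b u)) fun _ => rfl
  obtain ⟨t1, -, t3⟩ := T.ss u
  have vp := (rt' ss w T.p2).1
  have v2 : w.V 2 < 1 := by simpa [T.p2] using (b4a_V_p w).2
  have v0 : w.V 2 ≠ 0 := (map_ne_zero w.V).2 two_ne_zero
  have vr : w.V (rt 2) ^ 2 = w.V 2 := by rw [← map_pow, rt_sq, Int.cast_ofNat]
  have lt : ∀ (x : Qbar) (n : ℕ), w.V x ^ n ≤ w.V 2 → w.V x < 1 := fun x n h =>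
    lt_of_not_ge fun k => (h.trans_lt v2).not_ge (one_le_pow_of_one_le' k n)
  have r1 := lt _ _ vr.le
  have p1 := lt _ _ vp.le
  have r0 : w.V (rt 2) ≠ 0 := fun e => v0 (by rw [← vr, e, zero_pow two_ne_zero])
  have p0 : w.V pp ≠ 0 := fun e => v0 (by rw [← vp, e, zero_pow three_ne_zero])
  have vβ : w.V (σ (T.t b u) / 2) ≤ 1 := by
    rw [map_div₀]
    exact div_le_one_of_le₀ t1 zero_le
  have vk : w.V (kv g (σ (T.t b u) / 2)) ≤ 1 :=
    w.V.map_add_le (by rw [map_mul]; exact mul_le_one' (ig 1).2 vβ) (ig 3).2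
  have ok : Ok q (b * 2 * 2 * 2) := ⟨T.ok.m4, T.ok.gt, by have := T.ok.ne; omega⟩
  have perm : ∀ h ∈ JJ w, ∃ s : Equiv.Perm (Lv u), ∀ v, (s v).1 = rho q _ h * v.1 := fun h hh =>
    ⟨(Equiv.mulLeft (rho q _ h)).subtypePerm fun v => by
      rw [Equiv.coe_mulLeft, map_mul, map_mul, pj_rho ok ⟨8, by ring⟩, T.unr h (l1 (l2 hh)), one_mul,
        (gd_two ok dvd_rfl (m8 b)).th (T.le (l1 (l2 hh))), (mem_JJ.1 hh).2, one_mul],
      fun _ => rfl⟩
  obtain ⟨K, hK, rel⟩ := nd ss w (JJ w) (Lv u) (fun v => y _ v.1)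
    (fun v => T.t _ v.1 - σ (T.t b u)) (fun v => T.x _ v.1) (fun v => T.z _ v.1) _ _ S g T.p2 l2
    (Dk.mono iX (l2.trans l1)) (Dk.mono iZ (l2.trans l1)) (Dk.mono iS l2) (Dk.mono ig l2) fac
    (fun h hh => (perm h hh).imp fun s hs v => by
      obtain ⟨k1, k2, k3⟩ := T.gal _ ok.ne h (T.le (l1 (l2 hh))) v.1
      rw [hs, map_sub, k1, t3 h (l1 (l2 hh))]
      exact ⟨k3, rfl, k2⟩)
    fun v => by
      obtain ⟨k1, k2, k3, k4⟩ := T.aff _ ok.ne v.1
      exact ⟨lt _ _ (s1 v), k1, k2, k3, k4, T.ap _ (Or.inr rfl) u v.1 v.2.1⟩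
  have hA : w.V (1 + pp ^ 2 * PowerSeries.coeff 0 g) = 1 := w.V.map_one_add_of_lt (by
    rw [map_mul, map_pow]
    exact (mul_le_of_le_one_right' (ig 0).2).trans_lt (pow_lt_one₀ zero_le p1 two_ne_zero))
  refine ⟨kv g (σ (T.t b u) / 2), fun h hh => ?_, fun h hh => ?_, fun h hh => ?_, vk, e1, _,
    rel.trans ⟨s ^ Fintype.card (Lv u), pow_ne_zero _ b0, fun h hh => ?_, ?_⟩,
    Dk.est p0 p1.le r1.le ?_ vk hA
      (c2 w pp _ (Lv u) _ g K T.p2 vp vβ s1 s2 s3 s4 (fun n => (ig n).2) hK)⟩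
  · have k := conj_mem_Ine (inv_mem T.fr.1) (l1 hh)
    have k2 := (T.gal b T.ok.ne _ (T.le k) u).2.2
    rw [T.unr _ k, one_mul, inv_inv, mul_smul, mul_smul, inv_smul_eq_iff] at k2
    exact k2
  · obtain ⟨s, hs⟩ := perm h hh
    rw [Finset.smul_sum, ← Equiv.sum_comp s fun v => y _ v.1]
    exact Finset.sum_congr rfl fun v _ => by
      rw [hs, (T.gal _ ok.ne h (T.le (l1 (l2 hh))) v.1).2.2]
  · rw [kv, map_add, map_mul, map_div₀, (ig 1).1 h hh, (ig 3).1 h hh, t3 h (l1 hh), map_ofNat]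
  · rw [map_pow, hb h (l2 hh)]
  · have k : 1 + 2 * pp ^ 2 * kv g (σ (T.t b u) / 2) ≠ 0 := fun e => by
      rw [e2, e, mul_zero, map_zero] at hA
      exact zero_ne_one hA
    rw [e2, div_mul_cancel_right₀ k, inv_pow, ← pow_mul, ← pow_mul, mul_comm 2]
    field_simp
  · rw [← vr, pow_two]
    exact mul_lt_of_lt_one_left (zero_lt_iff.2 r0) r1

end Pool.Agent.B6.E9
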