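import Pool.Agent.Lib.MP_696deb_nt.B10.E1
import Pool.Agent.Lib.MP_696deb_nt.B7.D9End

/-! Divisibility by two at the prime two passes to the half points of conductor eight. -/

set_option autoImplicit false

open scoped Classical

namespace Pool.Agent.B6.E9

open Pool.Agent.Lib.MP_696deb_nt Pool.Agent.Lib.MP_696deb_nt.B2 Pool.Agent.Lib.MP_696deb_nt.B2.CM
open Pool.Agent.B6.D9
open Pool.Agent.B4 (HgN)
open Pool.Agent.B4.GE (Par Geo)
open Pool.Agent.Lib.MP_696deb_nt.B3.CM (fs th m2 gd_two inert_two)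
open Pool.Agent.B6.CM (yA)
open Pool.Agent.B6.B7 Pool.Agent.B6.B7.Dn

theorem hg_add (N n c : ℕ) (r k : ℤ) : HgN N n c (r + 2 * N * k) = HgN N n c r := by
  have e : be n c ((r + 2 * N * k) * c) = be n c (r * c) + N * (k * c : ℤ) := by
    simp only [be]
    push_cast
    ring
  have a : ∀ τ : ℂ, (N * (k * c : ℤ) : ℂ) ∈ sp2 (N * τ) 1 := fun τ =>
    mem_sp2.2 ⟨0, N * (k * c), by push_cast; ring⟩
  have b : ∀ τ : ℂ, (N * (k * c : ℤ) * τ : ℂ) ∈ sp2 (N * τ) 1 := fun τ =>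
    mem_sp2.2 ⟨k * c, 0, by push_cast; ring⟩
  ext τ
  exact ⟨fun h => ⟨h.pos, h.iv, (add_mem_cancel_right (a τ)).1 (e ▸ h.one),
    (add_mem_cancel_right (b τ)).1 (add_mul _ _ τ ▸ e ▸ h.tau)⟩, fun h =>
    ⟨h.pos, h.iv, e ▸ add_mem h.one (a τ), e ▸ add_mul _ _ τ ▸ add_mem h.tau (b τ)⟩⟩

theorem lift3 {M r q : ℤ} (h : M ∣ r ^ 2 + q) (h3 : q % 3 = 2) :
    ∃ k, 3 * M ∣ (r + M * k) ^ 2 + q := by
  obtain ⟨s, hs⟩ := h
  have k : ∀ r s M : ZMod 3, r ^ 2 + 2 = M * s → ∃ k, s + 2 * r * k + M * k ^ 2 = 0 := by decide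
  obtain ⟨k, hk⟩ := k r s M (by
    have := congrArg (Int.cast : ℤ → ZMod 3) hs
    rw [← Int.mul_ediv_add_emod q 3, h3] at this
    push_cast at this
    rwa [show (3 : ZMod 3) = 0 from rfl, zero_mul, zero_add] at this)
  obtain ⟨k, rfl⟩ := ZMod.intCast_surjective k
  obtain ⟨c, hc⟩ := (ZMod.intCast_zmod_eq_zero_iff_dvd (s + 2 * r * k + M * k ^ 2) 3).1
    (by exact_mod_cast hk)
  exact ⟨k, c, by push_cast at hc; linear_combination hs + M * hc⟩

theorem yA_add [Cw] {N : ℕ} (P : Par Wu N) (n c : ℕ) (r k : ℤ) :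
    yA P n c (r + 2 * N * k) = yA P n c r := by
  unfold yA B6.CM.yC
  rw [hg_add]

variable [Cs]

theorem hb_lv {n b : ℕ} [∀ c, Fintype (Pc n c)] (y : ∀ d, Pc n d → EE) {t : ℤ} (ht : ¬ t % 2 = 1)
    (u : Pc n b) : hb y t 2 b u = ∑ v : Lv u, y _ v.1 + k0 t • y b u := by
  have e : ∀ d, d = b * 2 * 2 * 2 → wg y (w0 t) 2 b d u = ∑ v : Lv u, y _ v.1 := by
    rintro _ rfl
    simp only [wg, fs, w0, if_neg ht, B3.CM.ind, ite_smul, one_smul, zero_smul]
    rw [← Finset.sum_filter, Finset.filter_filter]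
    exact Finset.sum_subtype _ (fun _ => Finset.mem_filter_univ _) _
  rw [hb, e _ (by change b * 8 = _; ring)]

/-- If an integral combination of Heegner points of odd conductors is not divisible by two over the
maximal unramified extension at two, then the same combination of half points of eight times
these conductors is not divisible by two after adjoining the square root of two. -/
theorem loc_two {P : Par Wu NN} (G : Geo P) (ha : Even WZ.a₁) (h : Even (P.a 2)) :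
    ∃ B : ℕ, ∀ (n : ℕ) (r : ℤ) (w : Plc) [∀ c, Fintype (Pc n c)], Squarefree n → n % 8 = 3 →
      n % 3 = 2 → B < n → OkD NN n 1 r → w.p = 2 → ∀ (ι : Type) (s : Finset ι) (b : ι → ℕ)
      (u : ∀ i, Pc n (b i)) (m : ι → ℤ), (∀ i ∈ s, Odd (b i)) →
      (∀ S : EE, (∀ g ∈ Ine w, g • S = S) → 2 • S ≠ ∑ i ∈ s, m i • yA P n (b i) r (u i)) →
      ∀ R : EE, (∀ g ∈ Ine w, chi 2 g = 1 → g • R = R) →
        2 • R ≠ ∑ i ∈ s, m i • hb (fun d => yA P n d r) (tf (P.a 2) 2) 2 (b i) (u i) := by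
  obtain ⟨B, hB⟩ := sys ar_stmt hvs krs trs (pw_stmt hvs (hk_stmt inv_stmt tex_stmt cusp poly) tim)
    (hk_stmt inv_stmt tex_stmt cusp poly) ch_stmt
    (unit_stmt inv_stmt cusp (rot_stmt inv_stmt tex_stmt cusp)) tim tay dim dcq G NN_odd
  refine ⟨B, fun n r w _ sq n8 n3 nB ok hw ι s b u m hs hY R hR e => ?_⟩
  obtain ⟨k1, h1⟩ := lift3 ok.root (by omega)
  obtain ⟨k2, h2⟩ := lift3 h1 (by omega)
  have ss := ss_of ha
  obtain ⟨-, -, -, ⟨σ, s1, s2⟩, -⟩ := rt_stmt ss w hw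
  have kn := kn_stmt ps_stmt
  have vg := vg_stmt rt_stmt
  have T := fun i hi => hB n (b i) (r + 2 * NN * (2 * k1 + 6 * k2)) w σ sq n8 nB ⟨ok.toOk,
    by convert h2 using 1 <;> push_cast <;> ring, ((Nat.prime_three.coprime_iff_not_dvd.2
      (by omega)).symm.pow_right 2).mul_right ok.cop⟩ (hs i hi) hw s1
  simp only [yA_add] at T
  replace T := fun i hi => (T i hi).some
  have ev : ¬ tf (P.a 2) 2 % 2 = 1 := by
    obtain ⟨a, ha'⟩ := h
    change ¬ (P.a 2 ^ 3 - 5 * P.a 2) % 2 = 1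
    rw [ha', show (a + a) ^ 3 - 5 * (a + a) = 2 * (4 * a ^ 3 - 5 * a) by ring]
    omega
  choose κ hκ using fun i hi => dk (sq_stmt (ufd_stmt loc_stmt) rt_stmt vg)
    (nd_stmt kn as_stmt rt_stmt) kn c1_stmt c2_stmt c3_stmt c4_stmt as_stmt nw_stmt rt_stmt ss
    (T i hi) (u i) s2 h (trA_inert G (ok.of_ne (mul_ne_zero (T i hi).ok.ne two_ne_zero))
      Nat.prime_two (fun e => ne_two_of_dvd e rfl) rfl (inert_two n8) (hs i hi).not_two_dvd_nat _)
  have fy : ∀ i ∈ s, ∀ g ∈ Ine w, g • yA P n (b i) r (u i) = yA P n (b i) r (u i) :=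
    fun i hi g hg => by
      rw [((T i hi).gal _ (T i hi).ok.ne g ((T i hi).le hg) _).2.2, (T i hi).unr g hg, one_mul]
  have cj : ∀ {Y : EE}, (∀ g ∈ Ine w, g • Y = Y) → ∀ t ∈ Dec w, ∀ g ∈ Ine w, g • t • Y = t • Y :=
    fun hY t m g hg => by
      rw [smul_smul, show g * t = t * (t⁻¹ * g * t⁻¹⁻¹) by group, mul_smul,
        hY _ (conj_mem_Ine (inv_mem m) hg)]
  let _ := Fintype.subtype (s.filter fun i => m i % 2 = 1) fun _ => Finset.mem_filter
  have sp : ∀ f : ι → EE, ∑ i ∈ s, m i • f i =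
      ∑ i : {i // i ∈ s ∧ m i % 2 = 1}, f i + 2 • ∑ i ∈ s, (m i / 2) • f i := fun f => by
    rw [← Finset.sum_subtype (s.filter fun i => m i % 2 = 1) (fun _ => Finset.mem_filter) f,
      Finset.sum_filter, Finset.smul_sum, ← Finset.sum_add_distrib]
    refine Finset.sum_congr rfl fun i _ => ?_
    conv_lhs => rw [← Int.emod_add_mul_ediv (m i) 2, add_smul, mul_smul, two_smul, ← two_nsmul]
    rcases Int.emod_two_eq_zero_or_one (m i) with k | k <;> simp [k]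
  have fz : ∀ {H : Subgroup Gam} (f : ι → EE), (∀ i ∈ s, ∀ g ∈ H, g • f i = f i) →
      ∀ g ∈ H, g • ∑ i ∈ s, (m i / 2) • f i = ∑ i ∈ s, (m i / 2) • f i := fun f k g hg => by
    rw [Finset.smul_sum]
    exact Finset.sum_congr rfl fun i hi => by rw [smul_comm, k i hi g hg]
  refine sum_stmt kn as_stmt (kc_stmt ps_stmt rt_stmt) vg rt_stmt ss w σ
    {i // i ∈ s ∧ m i % 2 = 1} _ _ (fun i => κ i i.2.1) (-k0 (tf (P.a 2) 2))
    (R - ∑ i ∈ s, (m i / 2) • hb (fun d => yA P n d r) (tf (P.a 2) 2) 2 (b i) (u i)) hw s1.1 s2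
    (fun i => hκ i i.2.1) (fun g hg => ?_) (fun S k1 k2 => ?_) (fun g hg => ?_) ?_
  · rw [Finset.smul_sum]
    exact Finset.sum_congr rfl fun i _ => cj (fy i i.2.1) σ s1.1 g hg
  · refine hY (σ⁻¹ • S + ∑ i ∈ s, (m i / 2) • yA P n (b i) r (u i)) (fun g hg => ?_) ?_
    · rw [smul_add, cj k1 _ (inv_mem s1.1) g hg, fz _ fy g hg]
    · rw [sp, smul_add, smul_comm, k2, ← Finset.smul_sum, inv_smul_smul]
  · rw [smul_sub, hR g hg.1.1 hg.2, fz _ (fun i hi g hg => ?_) g hg]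
    rw [hb_lv _ ev, smul_add, (hκ i hi).2.1 g hg, smul_comm, fy i hi g hg.1.1]
  · rw [smul_sub, e, sp, add_sub_cancel_right, Finset.smul_sum, Finset.smul_sum,
      ← Finset.sum_add_distrib]
    refine Finset.sum_congr rfl fun i _ => ?_
    have k := T i i.2.1
    rw [hb_lv _ ev, smul_smul, (k.gal _ k.ok.ne _ (mul_mem_GK k.out k.out) _).2.2,
      rho_sq k.ok k.out, one_mul, neg_smul, add_neg_cancel_right]

end Pool.Agent.B6.E9
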