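import Pool.Agent.Lib.MP_696deb_nt.B7.S9a

/-! A cocycle with values in the plane that satisfies one linear condition at each place of a
finite set of inert places. -/

set_option autoImplicit false

open scoped NNReal Classical
open Finset Matrix

namespace Pool.Agent.B6.E9

open Pool.Agent.Lib.MP_696deb_nt Pool.Agent.Lib.MP_696deb_nt.B2 Pool.Agent.Lib.MP_696deb_nt.B6
open Pool.Agent.B6.B7.S9

theorem prod_sd {M ι : Type} [CommMonoid M] [DecidableEq ι] (f : ι → M) (J K : Finset ι) :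
    (∏ i ∈ J, f i) * ∏ i ∈ K, f i = (∏ i ∈ J ∩ K, f i) ^ 2 * ∏ i ∈ symmDiff J K, f i := by
  rw [← prod_union_inter, symmDiff_eq_sup_sdiff_inf, sup_eq_union, inf_eq_inter,
    ← prod_sdiff (inter_subset_union : J ∩ K ⊆ J ∪ K), sq, mul_assoc, mul_comm]

theorem sum_sd {M ι : Type} [AddCommGroup M] [DecidableEq ι] (h : ∀ x : M, x + x = 0) (f : ι → M)
    {J K : Finset ι} (e : ∑ i ∈ J, f i = ∑ i ∈ K, f i) : ∑ i ∈ symmDiff J K, f i = 0 := by
  have := sum_union_inter (s₁ := J) (s₂ := K) (f := f)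
  rwa [← sum_sdiff (inter_subset_union : J ∩ K ⊆ J ∪ K), add_assoc, h, add_zero, e, h,
    ← sup_eq_union, ← inf_eq_inter, ← symmDiff_eq_sup_sdiff_inf] at this

theorem ex_two {M : Type} [AddCommGroup M] [Fintype M] (h : ∀ x : M, x + x = 0) {k : ℕ}
    (α : Fin k → M) (hk : Fintype.card M * 2 < 2 ^ k) : ∃ J K : Finset (Fin k), J ≠ K ∧ J ≠ ∅ ∧
      K ≠ ∅ ∧ ∑ i ∈ J, α i = 0 ∧ ∑ i ∈ K, α i = 0 := by
  obtain ⟨y, hy⟩ := Fintype.exists_lt_card_fiber_of_mul_lt_card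
    (fun J : Finset (Fin k) => ∑ i ∈ J, α i) (n := 2) (by simpa using hk)
  obtain ⟨A, B, C, a, b, c, ab, ac, bc⟩ := two_lt_card_iff.1 hy
  simp only [mem_filter, mem_univ, true_and] at a b c
  exact ⟨symmDiff A B, symmDiff A C, fun e => bc (symmDiff_right_injective A e),
    fun e => ab (symmDiff_eq_bot.1 e), fun e => ac (symmDiff_eq_bot.1 e),
    sum_sd h α (a.trans b.symm), sum_sd h α (a.trans c.symm)⟩

variable {sig : Gam →* N2} {S : Finset Plc} {γ s : Gam} {a b x y : Qbar} {f : W2 →+ Z2}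
  {c d : Gam → W2}

/-- Units outside of `S`. -/
def Us (S : Finset Plc) (H : Subgroup Gam) (x : Qbar) : Prop :=
  x ≠ 0 ∧ Fx H x ∧ ∀ w : Plc, (∀ v ∈ S, v.p ≠ w.p) → w.V x = 1

theorem Us.mul {H : Subgroup Gam} (h : Us S H x) (k : Us S H y) : Us S H (x * y) :=
  ⟨mul_ne_zero h.1 k.1, fun g hg => by rw [map_mul, h.2.1 g hg, k.2.1 g hg], fun w e => by
    rw [map_mul, h.2.2 w e, k.2.2 w e, mul_one]⟩

theorem Us.act (h : Us S sig.ker x) (g : Gam) : Us S sig.ker (g x) :=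
  ⟨(map_ne_zero g).2 h.1, fx_act h.2.1 g, fun w e => h.2.2 (g⁻¹ • w) e⟩

/-- Functions that vanish on the inertia groups outside of two and `S`. -/
def Ur (sig : Gam →* N2) (S : Finset Plc) (c : Gam → W2) : Prop :=
  ∀ w : Plc, w.p ≠ 2 → (∀ v ∈ S, v.p ≠ w.p) → ∀ σ ∈ Ine w, sig σ = 1 → c σ = 0

/-- The cocycle `c` belongs to the number `a`. -/
def Kc (sig : Gam →* N2) (S : Finset Plc) (f : W2 →+ Z2) (a : Qbar) (c : Gam → W2) : Prop :=
  Coc ⊤ (sg sig) c ∧ Ur sig S c ∧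
    ∃ ρ, a = ρ ^ 2 ∧ ∀ h, sig h = 1 → h ρ = ρ * zeta 1 ^ (f (c h)).val

theorem Kc.mul (h : Kc sig S f a c) (k : Kc sig S f b d) : Kc sig S f (a * b) (c + d) := by
  obtain ⟨h1, h2, ρ, rfl, h3⟩ := h
  obtain ⟨k1, k2, r, rfl, k3⟩ := k
  exact ⟨h1.add k1, fun w e e' σ hσ t => by
    rw [Pi.add_apply, h2 w e e' σ hσ t, k2 w e e' σ hσ t, add_zero], ρ * r, by rw [mul_pow],
    fun g hg => by
      rw [map_mul, h3 g hg, k3 g hg, Pi.add_apply, map_add, zeta_val_add, mul_mul_mul_comm]⟩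

theorem Kc.one : Kc sig S f 1 0 :=
  ⟨Coc.zero _ _, fun _ _ _ _ _ _ => rfl, 1, by simp, fun g _ => by simp⟩

theorem Kc.sq (h : Kc sig S f a c) (k : ∀ g, sig g = 1 → c g = 0) : Sq sig.ker a := by
  obtain ⟨-, -, ρ, e, h3⟩ := h
  exact ⟨ρ, fun g hg => by simpa [k g hg] using h3 g hg, e⟩

theorem x3_dw : ∀ (f : X3 → Z2) (x y : X3), dW (x.1 + y.1) (∑ z, f z • z.1) = f x + f y := by
  simp only [dW_apply]
  decide +kernel

theorem ex_kc (hs : Sm ⊤ sig) (hγ : (sig γ).trace = 1) : ∃ f : W2 →+ Z2, ∀ ε, Us S sig.ker ε →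
    Fx (P0 sig) ε → ∃ c, Kc sig S f (ε * γ ε) c := by
  obtain ⟨r, T⟩ := exists_Tv_glob (H := ⊤) hs trivial hγ
  refine ⟨dW (x0.1 + (pm sig γ x0).1), fun ε h1 h2 => ?_⟩
  obtain ⟨χ, hχ⟩ := exists_kum (H := ⊤ ⊓ P0 sig) 1 h1.1 fun g hg => h2 g hg.2
  have e : ∀ h, sig h = 1 → cor sig r (sg sig) (fun g => χ g • e0) h =
      ∑ x, χ ((r x)⁻¹ * h * r x) • x.1 := fun h hh => sum_congr rfl fun x _ => by
    have : pm sig h x = x := Subtype.ext (by rw [pm_val, sg_apply, hh, one_mulVec])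
    rw [B6.hc, this, ← T.eq x, sg_apply, sg_apply, mulVec_smul]
  have m : ∀ h, sig h = 1 → ∀ x, (r x)⁻¹ * h * r x ∈ ⊤ ⊓ P0 sig := fun h hh x =>
    ⟨trivial, mem_P0.2 (by rw [sg_apply, map_mul, map_mul, hh, mul_one, ← map_mul, inv_mul_cancel,
      map_one, one_mulVec])⟩
  refine ⟨cor sig r (sg sig) fun g => χ g • e0, T.cor_coc (act3_sg hs ⊤).toAct0
    ⟨hχ.sm.comp (· • e0), fun g hg k hk => ?_⟩, fun w hw hv σ hσ h => ?_, ?_⟩
  · beta_reduce
    rw [hχ.coc g hg k hk, cy_one_eq, one_mul, add_smul, sg_apply, mulVec_smul, ← sg_apply,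
      mem_P0.1 hg.2]
  · rw [e σ h]
    refine sum_eq_zero fun x _ => ?_
    rw [hχ.unr (w := (r x)⁻¹ • w) hw (h1.2.2 _ hv) _ ⟨m σ h x, mem_Ine_smul.2 (by
      simpa [mul_assoc] using hσ)⟩, zero_smul]
  obtain ⟨ρ, -, e1, e2⟩ := hχ
  refine ⟨ρ * r (pm sig γ x0) ρ, ?_, fun h hh => ?_⟩
  · have e3 := h2 _ (T.hc_mem (g := γ) trivial x0).2
    rw [B6.hc, T.one, mul_one] at e3
    rw [mul_pow, ← map_pow, show ρ ^ 2 = ε from e1, ← congrArg (r (pm sig γ x0)) e3,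
      ← AlgEquiv.mul_apply, mul_inv_cancel_left]
  · have e4 := congrArg (r (pm sig γ x0)) (e2 _ (m h hh (pm sig γ x0)))
    have e5 := e2 _ (m h hh x0)
    rw [T.one, inv_one, one_mul, mul_one] at e5
    rw [← AlgEquiv.mul_apply, ← mul_assoc, mul_inv_cancel_left, AlgEquiv.mul_apply, map_mul,
      b3b_fix] at e4
    rw [e h hh, x3_dw, T.one, inv_one, one_mul, mul_one, map_mul, e4, e5, mul_mul_mul_comm,
      zeta_val_add]

/-- The places in `S` are inert in the quadratic field. -/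
structure It (sig : Gam →* N2) (S : Finset Plc) : Prop where
  inj : Set.InjOn Plc.p S
  ine : ∀ w ∈ S, ∀ σ ∈ Ine w, sig σ = 1
  fix : ∀ w ∈ S, ∃ t ≠ 0, (∀ g ∈ Dec w, sig g *ᵥ t = t) ∧ ∃ φ ∈ Dec w, sig φ ≠ 1

theorem n_rf : ∀ (A : N2) (t : W2) (i j : Fin 3), A * A + A + 1 = 0 →
    (A ^ i.val) *ᵥ t = (A ^ j.val) *ᵥ t → t = 0 ∨ i = j := by decide +kernel

theorem n_ref (A : N2) (t : W2) (h : A * A + A + 1 = 0) (t0 : t ≠ 0) : A *ᵥ t ≠ t ∧
    (A * A) *ᵥ t ≠ t ∧ ∀ i j : Fin 3, (A ^ i.val) *ᵥ t = (A ^ j.val) *ᵥ t → i = j :=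
  ⟨fun e => absurd ((n_rf A t 1 0 h (by simpa using e)).resolve_left t0) (by decide),
    fun e => absurd ((n_rf A t 2 0 h (by simpa [sq] using e)).resolve_left t0) (by decide),
    fun i j e => (n_rf A t i j h e).resolve_left t0⟩

/-- The norm to the quadratic field. -/
noncomputable def nm (γ : Gam) (a : Qbar) : Qbar := a * (γ a * γ (γ a))

theorem Us.nm (h : Us S sig.ker a) : Us S sig.ker (nm γ a) :=
  h.mul ((h.act γ).mul ((h.act γ).act γ))

theorem nm_fix (hγ : (sig γ).trace = 1) (h : Fx sig.ker a) : γ (nm γ a) = nm γ a := by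
  have e2 : γ (γ (γ a)) = a := h (γ * (γ * γ)) (by
    simp only [MonoidHom.mem_ker, map_mul, (n_rel _ (key hγ)).2.2.1])
  simp only [nm, map_mul, e2]
  ring

theorem val_eq (hc : sig cc = JJ) (hγ : (sig γ).trace = 1) (hS : It sig S) (h : Fx sig.ker x)
    (k : γ x = x) {w v : Plc} (hw : w ∈ S) (e : w.p = v.p) : v.V x = w.V x := by
  obtain ⟨g, rfl⟩ := plc_conj e
  obtain ⟨t, t0, t1, φ, t2, t3⟩ := hS.fix w hw
  have r : ∀ g : Gam, (sig g = 1 ∨ sig g = sig γ ∨ sig g = sig γ * sig γ) ∧ g x = x ∨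
      g x = cc x := fun g => by
    have := n_all _ _ _ (key hγ) (sig_inv sig g)
    simp only [← hc, ← map_mul] at this
    rcases this with e | e | e | e | e | e
    · exact .inl ⟨.inl e, h g e⟩
    · exact .inl ⟨.inr (.inl e), by simp only [act_eq h e, k]⟩
    · exact .inl ⟨.inr (.inr (e.trans (map_mul _ _ _))), by
        simp only [act_eq h e, AlgEquiv.mul_apply, k]⟩
    all_goals exact .inr (by simp only [act_eq h e, AlgEquiv.mul_apply, k])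
  have n := n_ref _ t (key hγ) t0
  rw [smul_V]
  rcases r g⁻¹ with e | e
  · rw [e.2]
  · rcases r φ with ⟨e' | e' | e', -⟩ | e'
    · exact absurd e' t3
    · exact absurd (e' ▸ t1 φ t2) n.1
    · exact absurd (e' ▸ t1 φ t2) n.2.1
    · rw [e, ← e', mem_Dec.1 t2]

theorem strip (hc : sig cc = JJ) (hγ : (sig γ).trace = 1) (hS : It sig S) (h : Us S sig.ker x)
    (k : γ x = x) {n : Plc → ℤ} (hn : ∀ w ∈ S, w.V x = ((w.p : ℝ≥0) ^ n w)⁻¹ ∧ 2 ∣ n w) :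
    ∃ u, Un sig.ker u ∧ γ u = u ∧ Sq sig.ker (u * x) := by
  obtain ⟨m, hm⟩ : ∃ m : Qbar, m = ∏ w ∈ S, (w.p : Qbar) ^ (n w / 2) := ⟨_, rfl⟩
  have m0 : m ≠ 0 := hm ▸ prod_ne_zero_iff.2 fun w _ =>
    zpow_ne_zero _ (Nat.cast_ne_zero.2 w.prime.ne_zero)
  have m1 : ∀ g : Gam, g m = m := fun g => by simp [hm, map_prod]
  have v1 : ∀ v w : Plc, w.p ≠ v.p → v.V ((w.p : Qbar) ^ (n w / 2)) = 1 := fun v w e => by
    have := (v.V_int_eq_one (a := w.p)).2 fun t =>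
      e ((Nat.prime_dvd_prime_iff_eq v.prime w.prime).1 (Int.natCast_dvd_natCast.1 t)).symm
    rw [map_zpow₀, show v.V (w.p : Qbar) = 1 by simpa using this, _root_.one_zpow]
  refine ⟨x / m ^ 2, ⟨div_ne_zero h.1 (pow_ne_zero _ m0), fun g hg => by
    rw [map_div₀, map_pow, m1, h.2.1 g hg], fun v => ?_⟩, by rw [map_div₀, map_pow, m1, k],
    x / m, fun g hg => by rw [map_div₀, m1, h.2.1 g hg], by field_simp⟩
  rw [map_div₀, map_pow, hm, map_prod]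
  by_cases e : ∃ w ∈ S, w.p = v.p
  · obtain ⟨w, hw, e⟩ := e
    obtain ⟨e1, j, e2⟩ := hn w hw
    have p0 : (w.p : ℝ≥0) ≠ 0 := Nat.cast_ne_zero.2 w.prime.ne_zero
    rw [prod_eq_single_of_mem w hw fun u hu t => v1 v u fun t' => t (hS.inj hu hw (t'.trans e.symm)),
      val_eq hc hγ hS h.2.1 k hw e, e1, e2, map_zpow₀, show v.V (w.p : Qbar) = (w.p : ℝ≥0)⁻¹ from
        e ▸ v.hV, Int.mul_ediv_cancel_left _ two_ne_zero, _root_.inv_zpow, inv_pow, ← zpow_natCast,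
      ← _root_.zpow_mul, mul_comm j]
    exact div_self (inv_ne_zero (zpow_ne_zero _ p0))
  · push Not at e
    rw [h.2.2 v e, prod_eq_one fun w hw => v1 v w (e w hw), one_pow, div_one]

/-- The data that are attached to a unit. -/
def Gd (sig : Gam →* N2) (S : Finset Plc) (f : W2 →+ Z2) (lam : (Gam → W2) → Plc → Z2) (γ s : Gam)
    (a : Qbar) (x : S → Z2 × Z2 × Z2) : Prop :=
  Us S sig.ker a ∧ ∃ (c d : Gam → W2) (n : Plc → ℤ), Kc sig S f (a * s a * γ (a * s a)) c ∧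
    Kc sig S f (γ a * s (γ a) * γ (γ a * s (γ a))) d ∧
    (∀ w ∈ S, w.V (nm γ a) = ((w.p : ℝ≥0) ^ n w)⁻¹) ∧
    ∀ w : S, x w = (lam c w, lam d w, (n w : Z2))

variable {lam : (Gam → W2) → Plc → Z2}

theorem Gd.prod (hl : ∀ c d, Coc ⊤ (sg sig) c → Coc ⊤ (sg sig) d → ∀ w ∈ S,
      lam (c + d) w = lam c w + lam d w) {ι : Type} {a : ι → Qbar} {x : ι → S → Z2 × Z2 × Z2}
    (h : ∀ i, Gd sig S f lam γ s (a i) (x i)) (J : Finset ι) :
    Gd sig S f lam γ s (∏ i ∈ J, a i) (∑ i ∈ J, x i) := by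
  induction J using Finset.induction_on with
  | empty =>
    have z : ∀ w ∈ S, lam 0 w = 0 := fun w hw => by
      simpa using hl 0 0 (Coc.zero _ _) (Coc.zero _ _) w hw
    exact ⟨⟨by simp, fun g _ => by simp, fun w _ => by simp⟩, 0, 0, 0, by simpa using Kc.one,
      by simpa using Kc.one, fun w _ => by simp [nm], fun w => by simp only [z w w.2]; rfl⟩
  | insert i J hi ih =>
    rw [prod_insert hi, sum_insert hi]
    obtain ⟨u, c, d, n, k1, k2, k3, k4⟩ := h i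
    obtain ⟨u', c', d', n', l1, l2, l3, l4⟩ := ih
    refine ⟨u.mul u', c + c', d + d', n + n', ?_, ?_, fun w hw => ?_, fun w => ?_⟩
    · convert k1.mul l1 using 1
      simp only [map_mul]
      ring
    · convert k2.mul l2 using 1
      simp only [map_mul]
      ring
    · rw [Pi.add_apply, zpow_add₀ (Nat.cast_ne_zero.2 w.prime.ne_zero), mul_inv, ← k3 w hw,
        ← l3 w hw, ← map_mul]
      simp only [nm, map_mul γ]
      congr 1
      ring
    · rw [Pi.add_apply, k4, l4, hl _ _ k1.1 l1.1 w w.2, hl _ _ k2.1 l2.1 w w.2, Pi.add_apply,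
        Int.cast_add, Prod.mk_add_mk, Prod.mk_add_mk]

theorem ex_plc (hγ : (sig γ).trace = 1) (hS : It sig S) : ∃ s : Finset Plc,
    s.card = 3 * S.card ∧ Apart sig.ker s ∧ ∀ v ∈ s, ∃ w ∈ S, w.p = v.p := by
  have k : ∀ h, sig h = 1 → ∀ w ∈ S, ∀ v ∈ S, ∀ i j : Fin 3, h • γ ^ i.val • w = γ ^ j.val • v →
      (i, w) = (j, v) := fun h hh w hw v hv i j e => by
    have e0 := congrArg Plc.p e
    obtain rfl := hS.inj hw hv e0
    obtain ⟨t, t0, t1, -⟩ := hS.fix w hw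
    have := congrArg (sig (γ ^ j.val) *ᵥ ·) (t1 ((γ ^ j.val)⁻¹ * (h * γ ^ i.val)) (by
      rw [Dec, MulAction.mem_stabilizer_iff, mul_smul, mul_smul, e, inv_smul_smul]))
    simp only [mulVec_mulVec, ← map_mul, mul_inv_cancel_left] at this
    rw [map_mul, hh, one_mul, map_pow, map_pow] at this
    rw [(n_ref _ t (key hγ) t0).2.2 i j this]
  refine ⟨(univ ×ˢ S).image fun x : Fin 3 × Plc => γ ^ x.1.val • x.2, ?_, ?_, ?_⟩
  · rw [card_image_of_injOn fun x hx y hy e => k 1 (map_one _) _ (mem_product.1 hx).2 _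
      (mem_product.1 hy).2 _ _ ((one_smul _ _).trans e), card_product, card_univ, Fintype.card_fin]
  · intro v hv w hw g hg e
    obtain ⟨x, hx, rfl⟩ := mem_image.1 hv
    obtain ⟨y, hy, rfl⟩ := mem_image.1 hw
    rw [show x = y from k g hg _ (mem_product.1 hx).2 _ (mem_product.1 hy).2 _ _ e]
  · intro v hv
    obtain ⟨x, hx, rfl⟩ := mem_image.1 hv
    exact ⟨x.2, (mem_product.1 hx).2, rfl⟩

/-- The class with one linear condition at each place in `S`. -/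
theorem ex_cls (hs : Sm ⊤ sig) (hc : sig cc = JJ) (hγ : (sig γ).trace = 1) (hS : It sig S)
    (hl : ∀ c d, Coc ⊤ (sg sig) c → Coc ⊤ (sg sig) d → ∀ w ∈ S,
      lam (c + d) w = lam c w + lam d w) :
    ∃ c : Gam → W2, Coc ⊤ (sg sig) c ∧ Ur sig S c ∧ (∀ w ∈ S, lam c w = 0) ∧
      ∃ h, sig h = 1 ∧ c h ≠ 0 := by
  by_contra! k
  obtain ⟨f, hf⟩ := ex_kc (S := S) hs hγ
  obtain ⟨-, r1, r2, r3, r4⟩ := n_rel _ (key hγ)
  obtain ⟨s, hs'⟩ : ∃ s, sig s = UU := by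
    simp only [← hc, ← map_mul] at r3
    rcases r3 with e | e | e <;> exact ⟨_, e.symm⟩
  have k1 : ∀ a, Us S sig.ker a → ∃ c, Kc sig S f (a * s a * γ (a * s a)) c := fun a ha =>
    hf _ (ha.mul (ha.act s)) fun g hg => by
      rcases n_fix _ _ (sig_inv sig g) hg with e | e
      · exact (ha.mul (ha.act s)).2.1 g e
      · rw [act_eq (ha.mul (ha.act s)).2.1 (e.trans hs'.symm), map_mul, mul_comm,
          ← AlgEquiv.mul_apply, ha.2.1 (s * s) (by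
            rw [MonoidHom.mem_ker, map_mul, hs']; decide +kernel)]
  have k0 : ∀ a, Us S sig.ker a → ∃ x, Gd sig S f lam γ s a x := fun a ha => by
    obtain ⟨c, h1⟩ := k1 a ha
    obtain ⟨d, h2⟩ := k1 _ (ha.act γ)
    have : ∀ w : Plc, ∃ n : ℤ, w ∈ S → w.V (nm γ a) = ((w.p : ℝ≥0) ^ n)⁻¹ := fun w => by
      by_cases hw : w ∈ S
      · obtain ⟨n, hn⟩ := V_of_fx_ine (w := w) (fun σ hσ => ha.nm.2.1 σ (hS.ine w hw σ hσ))
          (ha.nm (γ := γ)).1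
        exact ⟨n, fun _ => hn⟩
      · exact ⟨0, fun e => absurd e hw⟩
    choose n hn using this
    exact ⟨_, ha, c, d, n, h1, h2, hn, fun w => rfl⟩
  have k2 : ∀ a, Gd sig S f lam γ s a 0 → ¬ Sq sig.ker a → ∃ u, Un sig.ker u ∧
      Sq sig.ker (u * a) ∧ ¬ Sq sig.ker u ∧ (Sq sig.ker (-u) ∨ u ^ 2 = -1) := fun a ga h0 => by
    obtain ⟨ha, c, d, n, g1, g2, g3, g4⟩ := ga
    have g5 := fun w hw => Prod.mk.inj (g4 ⟨w, hw⟩).symm
    have e1 : γ (s (γ a)) = s a := act_eq (g := γ * (s * γ)) ha.2.1 (by simp only [map_mul, hs', r1])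
    have e2 : γ (γ (γ a)) = a := ha.2.1 (γ * (γ * γ)) (by
      simp only [MonoidHom.mem_ker, map_mul, r2])
    have e3 := (g1.sq (k c g1.1 g1.2.1 fun w hw => (g5 w hw).1)).mul
      ((g2.sq (k d g2.1 g2.2.1 fun w hw => (Prod.mk.inj (g5 w hw).2).1)).act γ)
    simp only [map_mul, e1, e2] at e3
    have u1 := (ha.act s).mul ((ha.act s).act γ)
    have e4 : Sq sig.ker (nm γ a * a) :=
      Sq.div (pow_ne_zero 2 u1.1) ⟨_, u1.2.1, rfl⟩ (by convert e3 using 1; rw [nm]; ring)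
    obtain ⟨u, u2, u3, u4⟩ := strip hc hγ hS ha.nm (nm_fix hγ ha.2.1) fun w hw => ⟨g3 w hw,
      (ZMod.intCast_zmod_eq_zero_iff_dvd _ _).1 (Prod.mk.inj (g5 w hw).2).2⟩
    have e6 : Sq sig.ker (u * a) := Sq.div (pow_ne_zero 2 (ha.nm (γ := γ)).1) ⟨_, ha.nm.2.1, rfl⟩
      (by convert u4.mul e4 using 1; ring)
    have e5 := fun h => h0 (Sq.div u2.1 h e6)
    exact ⟨u, u2, e6, e5, (tri hc hγ u2 u3).resolve_left e5⟩
  have o := op_ker hs
  obtain ⟨t, t1, t2, t3⟩ := ex_plc hγ hS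
  obtain ⟨a, a1, a2⟩ := m_su sig.ker t o (fun g hg e => by
    obtain ⟨x, rfl⟩ := hg.conj
    have := (MonoidHom.normal_ker sig).conj_mem _ e x⁻¹
    rw [show x⁻¹ * (x * cc * x⁻¹) * x⁻¹⁻¹ = cc by group, MonoidHom.mem_ker, hc] at this
    exact absurd this (by decide +kernel)) t2
  have i4 : 4 ≤ sig.ker.index := by
    have := Nat.finite_of_card_ne_zero o.index_ne_zero
    refine (Nat.card_fin 4).ge.trans (Nat.card_le_card_of_injective
      (fun i => ((![1, γ, γ * γ, cc] i : Gam) : Gam ⧸ sig.ker)) fun i j e => r4 i j ?_)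
    have e1 : ∀ i, ![1, sig γ, sig γ * sig γ, JJ] i = sig (![1, γ, γ * γ, cc] i) := fun i => by
      fin_cases i <;> simp [hc]
    have e2 := congrArg (sig (![1, γ, γ * γ, cc] i) * ·) (MonoidHom.mem_ker.1 (QuotientGroup.eq.1 e))
    simp only [← map_mul, mul_inv_cancel_left, mul_one] at e2
    rw [e1, e1, e2]
  choose x hx using fun i => k0 (a i) ⟨(a1 i).1, (a1 i).2.1, fun w hw => (a1 i).2.2 w
    fun v hv g _ e => (t3 v hv).elim fun u hu => hw u hu.1 (hu.2.trans (e ▸ rfl))⟩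
  obtain ⟨J, K, jk, j0, l0, j1, l1⟩ := ex_two (fun y => funext fun w => by
    have : ∀ z : Z2 × Z2 × Z2, z + z = 0 := by decide
    exact this _) x (by
    have : Fintype.card (Z2 × Z2 × Z2) = 2 ^ 3 := by simp
    rw [Fintype.card_fun, this, Fintype.card_coe, ← pow_mul, ← pow_succ]
    exact Nat.pow_lt_pow_right one_lt_two (by omega))
  obtain ⟨u, u1, u2, u3, u4⟩ := k2 _ (j1 ▸ Gd.prod hl hx J) fun h => j0 (a2 J h)
  obtain ⟨v, v1, v2, v3, v4⟩ := k2 _ (l1 ▸ Gd.prod hl hx K) fun h => l0 (a2 K h)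
  have e : Sq sig.ker (u * v) := by
    rcases u4 with u4 | u4 <;> rcases v4 with v4 | v4
    · simpa using u4.mul v4
    · exact absurd (by simpa using u4.mul ⟨v, v1.2.1, v4.symm⟩) u3
    · exact absurd (by simpa using v4.mul ⟨u, u1.2.1, u4.symm⟩) v3
    · rcases sq_eq_sq_iff_eq_or_eq_neg.1 (u4.trans v4.symm) with rfl | rfl
      · exact ⟨u, u1.2.1, (sq u).symm⟩
      · exact ⟨1, fun g _ => map_one g, by linear_combination -v4⟩
  have e' := Sq.div (u1.mul v1).1 e (mul_mul_mul_comm u _ v _ ▸ u2.mul v2)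
  have u0 := (Gd.prod hl hx (J ∩ K)).1
  rw [prod_sd] at e'
  exact jk (symmDiff_eq_bot.1 (a2 _ (Sq.div (pow_ne_zero 2 u0.1) ⟨_, u0.2.1, rfl⟩ e')))

end Pool.Agent.B6.E9
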