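import Pool.Agent.Lib.MP_696deb_nt.B10.E3
import Pool.Agent.Lib.MP_696deb_nt.B7.S9b
import Pool.Agent.Lib.MP_696deb_nt.B2.D2b

/-! The local condition at the auxiliary primes, and the reciprocity law. -/

set_option autoImplicit false

open scoped NNReal Classical
open Finset Matrix

namespace Pool.Agent.B6.E9

open Pool.Agent.Lib.MP_696deb_nt Pool.Agent.Lib.MP_696deb_nt.B2 Pool.Agent.Lib.MP_696deb_nt.B6
open Pool.Agent.B6.B7.S9

variable {sig : Gam →* N2} {c κ : Gam → W2} {φ τ : Gam} {w : Plc} {S : Finset Plc}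

theorem n_i1 : ∀ (A : N2) (x : W2), A * A = 1 → A *ᵥ x + x = 0 → A = 1 ∨ ∃ z, x = A *ᵥ z - z := by
  decide +kernel

theorem n_i2 : ∀ (A : N2) (x y : W2), A * A = 1 →
    A *ᵥ x + x = 0 ∨ A *ᵥ y + y = 0 ∨ A *ᵥ (x + y) + (x + y) = 0 := by decide +kernel

theorem n_i3 : ∀ A : N2, A * A = 1 → ∃ t : X3, A *ᵥ t.1 = t.1 := by decide +kernel

theorem n_thr : ∀ (A : N2) (x : W2), A * A + A + 1 = 0 → ∃ z, x = A *ᵥ z - z := by decide +kernel

theorem ta_of (hs : Sm ⊤ sig) (hw : w.p ≠ 2) (hφ : IsFrob w w.p φ) (hτ : Gen w τ)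
    (h1 : ∀ σ ∈ Ine w, sig σ = 1) : TA ⊤ w w.p φ τ (sg sig) :=
  TA.of_act3 (m := 1) (tm_split isOpen_univ hw le_top hφ hτ) (lf_two (dual_W hs ⊤))
    (act3_sg hs _) fun σ hσ => by
      rw [h1 σ hσ]
      decide +kernel

theorem cob_of (hs : Sm ⊤ sig) (k : Coc ⊤ (sg sig) κ) (hw : w.p ≠ 2) (hφ : IsFrob w w.p φ)
    (hτ : Gen w τ) (h1 : ∀ σ ∈ Ine w, sig σ = 1) (h2 : κ τ = 0) {z : W2}
    (h3 : κ φ = sig φ *ᵥ z - z) : ∀ g ∈ Dec w, κ g = cob (sg sig) z g := fun _ hg =>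
  have ta := ta_of hs hw hφ hτ h1
  ta.ext (c_res k _) (lf_coc_cob ta.act z) (by
    rw [h2, cob, sg_apply, h1 τ hτ.1, one_mulVec, sub_self]) h3 ⟨trivial, hg⟩

theorem tau_fix (hs : Sm ⊤ sig) (k : Coc ⊤ (sg sig) κ) (hw : w.p ≠ 2) (hφ : IsFrob w w.p φ)
    (hτ : Gen w τ) (h1 : ∀ σ ∈ Ine w, sig σ = 1) : sig φ *ᵥ κ τ = κ τ := by
  have ta := ta_of hs hw hφ hτ h1
  have := ta.rel (c_res k _) hτ.1
  obtain ⟨m, hm⟩ := w.prime.odd_of_ne_two hw
  rwa [lf_pow_fix ta.act (c_res k _) (ta.tm.ine_le hτ.1)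
    (by rw [sg_apply, h1 τ hτ.1, one_mulVec]),
    sg_apply, sg_apply, h1 _ (pow_mem hτ.1 _), one_mulVec, add_comm, add_left_inj, hm,
    add_smul, mul_smul, two_nsmul, W2.add_self, zero_add, one_smul] at this

/-- There is no cohomology at a prime whose Frobenius element has order three. -/
theorem cob_three (hs : Sm ⊤ sig) (k : Coc ⊤ (sg sig) κ) (hw : w.p ≠ 2) (hφ : IsFrob w w.p φ)
    (h1 : ∀ σ ∈ Ine w, sig σ = 1) (h2 : (sig φ).trace = 1) :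
    ∃ z, ∀ g ∈ Dec w, κ g = cob (sg sig) z g := by
  obtain ⟨τ, hτ⟩ := exists_gen hw
  obtain ⟨z, hz⟩ := n_thr _ (κ φ) (key h2)
  exact ⟨z, cob_of hs k hw hφ hτ h1 (N2.fpf' _ (key h2) _ (tau_fix hs k hw hφ hτ h1)) hz⟩

/-- The local condition. -/
def Lw (sig : Gam →* N2) (w : Plc) (κ : Gam → W2) : Prop :=
  sig (fr w) *ᵥ κ (fr w) + κ (fr w) = κ (gn w)

/-- The auxiliary places. -/
def Ax (sig : Gam →* N2) (w : Plc) : Prop :=
  w.p ≠ 2 ∧ (∀ σ ∈ Ine w, sig σ = 1) ∧ sig (fr w) * sig (fr w) = 1 ∧ sig (fr w) ≠ 1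

theorem ex_line (hs : Sm ⊤ sig) (F : CFT) (w : Plc) : ∃ κ₀, Coc ⊤ (sg sig) κ₀ ∧ (Ax sig w →
    ∀ c κ, Coc ⊤ (sg sig) c → Coc ⊤ (sg sig) κ → Lw sig w κ →
      F.inv 1 ⊤ w (cupb dW (sg sig) c κ₀) = 0 → F.inv 1 ⊤ w (cupb dW (sg sig) c κ) = 0) := by
  have o : Op ⊤ := isOpen_univ
  have z : Ax sig w → ∀ c κ, Coc ⊤ (sg sig) c → Coc ⊤ (sg sig) κ → Lw sig w κ → κ (gn w) = 0 →
      F.inv 1 ⊤ w (cupb dW (sg sig) c κ) = 0 := fun h c κ k k' e e0 => by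
    obtain ⟨y, hy⟩ := (n_i1 _ (κ (fr w)) h.2.2.1 (e.trans e0)).resolve_left h.2.2.2
    exact lf_inv_right F o (dual_W hs _) (c_res k _) fun g hg =>
      cob_of hs k' h.1 (fr_spec w) (gn_spec h.1) h.2.1 e0 hy g hg.2
  by_cases e : ∃ κ₀, Coc ⊤ (sg sig) κ₀ ∧ Lw sig w κ₀ ∧ κ₀ (gn w) ≠ 0
  · obtain ⟨κ₀, k0, k1, k2⟩ := e
    refine ⟨κ₀, k0, fun h c κ k k' e e0 => ?_⟩
    rcases n_i2 _ (κ (fr w)) (κ₀ (fr w)) h.2.2.1 with t | t | t
    · exact z h c κ k k' e (e.symm.trans t)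
    · exact absurd (k1.symm.trans t) k2
    · have e1 : Lw sig w (κ + κ₀) := by
        rw [Lw, Pi.add_apply, Pi.add_apply, ← show _ = κ (gn w) from e,
          ← show _ = κ₀ (gn w) from k1, mulVec_add]
        abel
      have := z h c _ k (k'.add k0) e1 (e1.symm.trans t)
      rwa [lf_inv_add_right F o (dual_W hs _) (c_res k _) (c_res k' _) (c_res k0 _), e0,
        add_zero] at this
  · push Not at e
    exact ⟨0, Coc.zero _ _, fun h c κ k k' e' _ => z h c κ k k' e' (e κ k' e')⟩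

/-- The class that is orthogonal to the local conditions. -/
theorem ex_orth {γ : Gam} (hs : Sm ⊤ sig) (hc : sig cc = JJ) (hγ : (sig γ).trace = 1) (F : CFT)
    (inj : Set.InjOn Plc.p S) (hS : ∀ w ∈ S, Ax sig w) : ∃ c : Gam → W2, Coc ⊤ (sg sig) c ∧
      Ur sig S c ∧ (∀ w ∈ S, ∀ κ, Coc ⊤ (sg sig) κ → Lw sig w κ →
        F.inv 1 ⊤ w (cupb dW (sg sig) c κ) = 0) ∧ ∃ h, sig h = 1 ∧ c h ≠ 0 := by
  choose k k1 k2 using ex_line hs F
  obtain ⟨c, c1, c2, c3, c4⟩ := ex_cls (lam := fun c w => F.inv 1 ⊤ w (cupb dW (sg sig) c (k w)))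
    hs hc hγ ⟨inj, fun w hw => (hS w hw).2.1, fun w hw => by
      have h := hS w hw
      obtain ⟨⟨t, t2⟩, t1⟩ := n_i3 _ h.2.2.1
      exact ⟨t, t2, fun g hg => (ta_of hs h.1 (fr_spec w) (gn_spec h.1) h.2.1).fix
        (by rw [sg_apply, h.2.1 _ (gn_spec h.1).1, one_mulVec]) t1 ⟨trivial, hg⟩, fr w,
        (fr_spec w).1, h.2.2.2⟩⟩
    fun c d hc hd w _ => lf_inv_add_left F isOpen_univ (dual_W hs _) (c_res hc _) (c_res hd _)
      (c_res (k1 w) _)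
  exact ⟨c, c1, c2, fun w hw κ e e' => k2 w (hS w hw) c κ c1 e e' (c3 w hw), c4⟩

/-- The reciprocity law for two cocycles that are orthogonal outside of one prime. -/
theorem recip (hs : Sm ⊤ sig) (hc : sig cc = JJ) (F : CFT) (k : Coc ⊤ (sg sig) c)
    (k' : Coc ⊤ (sg sig) κ)
    (hw : w.p ≠ 2) (hφ : IsFrob w w.p φ) (hτ : Gen w τ) (h1 : ∀ σ ∈ Ine w, sig σ = 1)
    (h2 : ∀ σ ∈ Ine w, c σ = 0) (h3 : sig φ = JJ) (h4 : κ τ ≠ 0) (inj : Set.InjOn Plc.p S)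
    (hS : ∀ v ∈ S, v.p ≠ w.p ∧ F.inv 1 ⊤ v (cupb dW (sg sig) c κ) = 0)
    (h5 : ∀ v : Plc, v.p ≠ w.p → (∀ u ∈ S, u.p ≠ v.p) → (∃ y, ∀ g ∈ Dec v, κ g = cob (sg sig) y g) ∨
      ∃ x y, (∀ σ ∈ Ine v, c σ = cob (sg sig) x σ) ∧ ∀ σ ∈ Ine v, κ σ = cob (sg sig) y σ) :
    dW (c φ) oo = 0 := by
  have o : Op ⊤ := isOpen_univ
  have d := dual_W hs
  have r := F.recip (insert w S) o (lf_c2 (d ⊤) k k') (.inr ⟨rfl, by
    have := c_mul k cc cc
    rw [cc_mul_cc, c_one k, hc] at this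
    obtain ⟨z, hz⟩ := ((v_jj _ 0).2.1 this.symm).2
    refine lf_spl_left (d _) (x := z) (fun g hg => ?_) (c_res k' _)
    obtain ⟨n, rfl⟩ := hg
    beta_reduce
    rcases Int.even_or_odd' n with ⟨m, rfl | rfl⟩
    · rw [_root_.zpow_mul, _root_.zpow_two, cc_mul_cc, _root_.one_zpow, c_one k, cob, sg_one,
        sub_self]
    · rw [_root_.zpow_add_one, _root_.zpow_mul, _root_.zpow_two, cc_mul_cc, _root_.one_zpow,
        one_mul, cob, sg_apply, hc, hz]⟩)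
    (fun u hu v hv g _ e => by
      have e0 : u.p = v.p := e ▸ rfl
      rcases mem_insert.1 hu with a | a <;> rcases mem_insert.1 hv with b | b
      · exact a.trans b.symm
      · exact absurd (a ▸ e0.symm) (hS v b).1
      · exact absurd (b ▸ e0) (hS u a).1
      · exact inj a b e0) fun v hv => by
      rcases h5 v (fun e => (plc_conj e.symm).elim fun g hg =>
        hv w (mem_insert_self w S) g trivial hg) fun u hu e => (plc_conj e).elim fun g hg =>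
        hv u (mem_insert_of_mem hu) g trivial hg with ⟨y, hy⟩ | ⟨x, y, hx, hy⟩
      · exact lf_inv_right F o (d _) (c_res k _) fun g hg => hy g hg.2
      · exact lf_inv_ur F o (d _) (c_res k _) (c_res k' _) hx hy
  have ta := ta_of hs hw hφ hτ h1
  have t := ta.tm
  have q0 : (w.p : ℤ) ≠ 0 := Int.natCast_ne_zero.2 w.prime.ne_zero
  have e1 : κ τ = oo := (v_jj _ 0).2.2 (h3 ▸ tau_fix hs k' hw hφ hτ h1) h4
  have e2 : ∀ g ∈ ⊤ ⊓ Dec w, sig g *ᵥ oo = oo := fun g hg => ta.fix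
    (by rw [sg_apply, h1 τ hτ.1, one_mulVec]) (by rw [sg_apply, h3]; decide +kernel) hg
  have kq := kum_xi (H := ⊤ ⊓ Dec w) q0
  have c1 : Coc (⊤ ⊓ Dec w) (sg sig) fun g => (xi w.p g : Z2) • oo :=
    ⟨(sm_xi _).comp fun x : Z2 => x • oo, fun g hg h _ => by
      beta_reduce
      rw [xi_hom, add_smul, sg_apply, mulVec_smul, e2 g hg]⟩
  have c2 := (c_res k' (⊤ ⊓ Dec w)).add c1
  have e3 := lf_inv_add_right F o (d _) (c_res k _) (c_res k' _) c1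
  rw [sum_insert fun e => (hS w e).1 rfl, sum_eq_zero fun v hv => (hS v hv).2, add_zero] at r
  rw [r, zero_add, lf_inv_unr F o (d _) (c_res k _) c2 (fun σ hσ => h2 σ hσ.2) fun σ hσ =>
    ta.zero_ine c2 (by
      rw [Pi.add_apply, e1, xi_eq_one.2 hτ.2]
      decide +kernel) hσ.2, F.congr (c' := cup 1 (fun g => dW (c g) oo) (xi w.p))
      fun g hg h _ => by
        rw [cupb, cup, cy_one_eq, mul_one, sg_apply, mulVec_smul, e2 g hg]
        simp only [dW_apply, Pi.smul_apply, smul_eq_mul]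
        ring,
    F.kum 1 o le_top trivial (t.deg ▸ hφ) ((c_res k _).1.comp (dW · oo)) (fun g hg h hh => by
      rw [c_mul k, map_add, AddMonoidHom.add_apply]
      nth_rewrite 2 [← e2 g hg]
      exact congrArg _ (dW_sg sig g _ _)) (fun σ hσ => by
      rw [h2 σ hσ, map_zero, AddMonoidHom.zero_apply]) kq (by simpa using w.hV)] at e3
  simpa using e3.symm

end Pool.Agent.B6.E9
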