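import Pool.Agent.Lib.MP_696deb_nt.B10.E4
import Pool.Agent.Lib.MP_696deb_nt.B7.S9z

/-! A point of a twist that does not reduce to the origin at a suitable prime is not divisible by
two over the maximal unramified extension at two. -/

set_option autoImplicit false

open scoped Classical
open Finset Matrix NumberTheorySymbols

namespace Pool.Agent.B6.E9

open Pool.Agent.Lib.MP_696deb_nt Pool.Agent.Lib.MP_696deb_nt.B2 Pool.Agent.Lib.MP_696deb_nt.B6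
open Pool.Agent.B6.B7.S9

theorem chi_gen {d : ℤ} (hd : Squarefree d) {w : Plc} (h2 : w.p ≠ 2) (h : (w.p : ℤ) ∣ d) {τ : Gam}
    (hτ : Gen w τ) : chi d τ = -1 := by
  obtain ⟨e, rfl⟩ := h
  have pe : ¬ (w.p : ℤ) ∣ e := fun k =>
    (Nat.prime_iff_prime_int.1 w.prime).not_isUnit (hd _ (mul_dvd_mul_left _ k))
  rw [chi_mul (Int.natCast_ne_zero.2 w.prime.ne_zero) (right_ne_zero_of_mul hd.ne_zero), hτ.2,
    chi_ine (mu0_ndvd h2 pe) hτ.1, mul_one]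

variable [Cs] (T : TB) {w : Plc} {φ : Gam} {a : ℤ}

theorem es4 (hφ : φ ∈ Dec w) (he : ∀ P : EE, φ • φ • P - a • φ • P + w.p • P ∈ K1 w) (ha : 4 ∣ a)
    (hw : w.p % 4 = 1) {R : EE} (h : 4 • R ∈ K1 w) : φ • φ • R + R ∈ K1 w := by
  obtain ⟨b, rfl⟩ := ha
  have h1 := (K1_smul hφ).2 h
  rw [smul_comm φ (4 : ℕ)] at h1
  have := sub_mem (add_mem (he R) (zsmul_mem h1 b)) (nsmul_mem h (w.p / 4))
  convert this using 1
  generalize φ • φ • R = X
  generalize φ • R = Y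
  nth_rewrite 1 [← Nat.div_add_mod w.p 4]
  rw [hw]
  module

theorem ax_of (hφ : ∀ P : EE, fr w • fr w • P - a • fr w • P + w.p • P ∈ K1 w) (ha : 4 ∣ a)
    (hw : w.p % 4 = 1) (hN : ¬ w.p ∣ NN) : Ax (sB T) w := by
  have h2 : w.p ≠ 2 := by omega
  have k : ∀ R : EE, 4 • R = 0 → fr w • fr w • R + R = 0 := fun R h =>
    K1_tors (m := 2) h2 (es4 (fr_spec w).1 hφ ha hw (h ▸ zero_mem _)) (by
      rw [show 2 ^ 2 = 4 from rfl, smul_add, smul_comm 4, smul_comm 4, h, smul_zero, smul_zero,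
        add_zero])
  refine ⟨h2, fun σ hσ => by
    rw [sB, MonoidHom.comp_apply, T.unr w h2 (mt (dvd_Δ w.prime).1 hN) σ hσ, map_one], ?_,
    fun e => ?_⟩
  · rw [← map_mul]
    refine T.mred_eq_one (m := 1) fun P hP => ?_
    rw [pow_one] at hP
    have := k P (by rw [show 4 = 2 * 2 from rfl, mul_smul, hP, smul_zero])
    rw [mul_smul, eq_neg_of_add_eq_zero_left this, neg_two hP]
  · have h1 : 2 • _ = _ := T.two 1 1 ![1, 0]
    generalize T.emb (1 + 1) ![1, 0] = R at h1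
    have h3 : 2 • 2 • R = 0 := h1 ▸ T.tors 1 _
    have h4 := T.fix_two e h3
    rw [smul_comm (fr w) (2 : ℕ)] at h4
    have h5 := T.fix_two e (P := fr w • R - R) (by rw [smul_sub, h4, sub_self])
    have h6 := k R (by rw [← h3, smul_smul]; rfl)
    have h7 : 2 • R = 0 := by
      rw [smul_sub] at h5
      generalize fr w • fr w • R = X at h5 h6
      generalize fr w • R = Y at h4 h5
      linear_combination (norm := module) h6 - h5 - h4
    rw [h7, eq_comm, map_eq_zero_iff _ (T.inj 1)] at h1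
    exact absurd (congrFun h1 0) (by simp)

theorem lw_of (hφ : ∀ P : EE, fr w • fr w • P - a • fr w • P + w.p • P ∈ K1 w) (ha : 4 ∣ a)
    (hw : w.p % 4 = 1) (hN : ¬ w.p ∣ NN) {d : ℤ} (hd : chi d (gn w) = -1) {R : EE}
    (h : ∀ g, tw d g (2 • R) = 2 • R) {κ : Gam → W2} (k : ∀ g, T.emb 1 (κ g) = tw d g R - R) :
    Lw (sB T) w κ := by
  have h2 : w.p ≠ 2 := by omega
  have t : ∀ x, 2 • T.emb 1 x = 0 := fun x => T.tors 1 x
  have e1 := K1_ine (mt (dvd_Δ w.prime).1 hN) (gn_spec h2).1 R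
  have e2 := k (gn w)
  have e3 := k (fr w)
  have e4 := h (fr w)
  have e5 := t (κ (gn w))
  have e6 := t (κ (fr w))
  rw [tw, hd, Units.val_neg, Units.val_one, neg_one_zsmul] at e2
  have e7 : 2 • R + T.emb 1 (κ (gn w)) ∈ K1 w := by
    convert neg_mem e1 using 1
    rw [e2, two_nsmul]
    abel
  have e8 := es4 (fr_spec w).1 hφ ha hw (R := R) (by
    convert nsmul_mem e7 2 using 1
    rw [smul_add, e5, add_zero, smul_smul]
    rfl)
  refine T.inj 1 ?_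
  rw [map_add, ← sB_emb, ← sub_eq_zero]
  refine K1_tors (m := 1) h2 ?_ (show 2 • _ = _ by
    rw [smul_sub, smul_add, smul_comm (2 : ℕ) (fr w), e5, e6, smul_zero, add_zero, sub_zero])
  nth_rewrite 2 [← neg_two e6]
  rw [e3, smul_sub]
  generalize T.emb 1 (κ (gn w)) = x at e5 e7
  simp only [tw] at e4 ⊢
  rw [smul_comm (fr w) (2 : ℕ)] at e4
  rw [smul_comm (fr w) (chi d (fr w) : ℤ)]
  generalize fr w • fr w • R = X at e8
  generalize fr w • R = Y at e4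
  rcases Int.units_eq_one_or (chi d (fr w)) with e | e <;> rw [e] at e4 ⊢
  · convert sub_mem e8 e7 using 1
    rw [Units.val_one] at e4 ⊢
    linear_combination (norm := module) (-1 : ℤ) • e4
  · convert sub_mem e7 e8 using 1
    rw [Units.val_neg, Units.val_one]
    linear_combination (norm := module) (-1 : ℤ) • e5

theorem tr_odd (h2 : w.p ≠ 2) (hφ : IsFrob w w.p φ)
    (he : ∀ P : EE, φ • φ • P - a • φ • P + w.p • P ∈ K1 w) (ha : Odd a) : (sB T φ).trace = 1 := by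
  obtain ⟨b, rfl⟩ := ha
  have := congrArg (PadicInt.toZModPow 1) (T.tr w φ _ h2 hφ he)
  rw [trace_fin_two, map_add, map_intCast, Int.cast_add, Int.cast_mul,
    show ((2 : ℤ) : ZMod (2 ^ 1)) = 0 from rfl, zero_mul, zero_add, Int.cast_one] at this
  exact (trace_fin_two _).trans this

omit T in
theorem k1_move {d : ℤ} {y : EE} (h : ∀ g, tw d g y = y) {v : Plc} (e : v.p = w.p)
    (k : y ∈ K1 w) : y ∈ K1 v := by
  obtain ⟨g, rfl⟩ := plc_conj e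
  have k1 : g⁻¹ • y ∈ K1 v := k.imp (fun e => by rw [e, smul_zero]) fun e => by
    rwa [xco_smul]
  have := zsmul_mem k1 (chi d g⁻¹ : ℤ)
  rwa [← tw, h] at this

omit T in
/-- The reciprocity law moves the indivisibility from the prime `q` to the prime two. -/
theorem rec_two {a : ℕ → ℤ} {M : ℕ} (he : EsStmt a M) (ha : Even WZ.a₁) (S A : Finset ℕ)
    (hS : ∀ l ∈ S, l.Prime ∧ l % 4 = 1 ∧ 4 ∣ a l ∧ ¬ l ∣ M ∧ ¬ l ∣ NN)
    (hA : ∀ p ∈ A, p.Prime ∧ p ≠ 2) (B : ℕ) : ∃ q : ℕ, q.Prime ∧ q % 8 = 3 ∧ B < q ∧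
      (∀ p : ℕ, p.Prime → p ∈ A ∨ p ∣ 3 * NN → J(-q | p) = 1) ∧
      ∀ (d : ℤ) (y : EE) (w v : Plc), w.p = q → v.p = 2 → Squarefree d → d % 4 = 1 → (q : ℤ) ∣ d →
        (∀ l ∈ S, (l : ℤ) ∣ d) → (∀ l : ℕ, l.Prime → (l : ℤ) ∣ d →
          l = q ∨ l ∈ S ∨ (¬ l ∣ M ∧ ¬ l ∣ NN ∧ Odd (a l))) → (∀ g, tw d g y = y) → y ∉ K1 w →
        ∀ R : EE, (∀ σ ∈ Ine v, σ • R = R) → 2 • R ≠ y := by
  obtain ⟨T, hc⟩ := exists_TB
  obtain ⟨F⟩ := m_cft
  have hs := sB_sm T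
  replace hc : sB T cc = JJ := by
    show mred 1 (T.ρ cc) = _
    rw [hc]
    ext i j
    fin_cases i <;> fin_cases j <;> simp [mred, JJ]
  obtain ⟨γ, hγ⟩ := un_three cub_irr
  choose pl hpl using fun l : S => exists_plc (hS l l.2).1
  have m1 : ∀ u ∈ univ.image pl, u.p ∈ S := fun u hu => by
    obtain ⟨l, -, rfl⟩ := mem_image.1 hu
    exact hpl l ▸ l.2
  have m2 : ∀ l ∈ S, ∃ u ∈ univ.image pl, u.p = l := fun l hl =>
    ⟨pl ⟨l, hl⟩, mem_image_of_mem _ (mem_univ _), hpl _⟩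
  have m3 : Set.InjOn Plc.p (univ.image pl) := fun u hu v hv e => by
    obtain ⟨l, -, rfl⟩ := mem_image.1 hu
    obtain ⟨l', -, rfl⟩ := mem_image.1 hv
    rw [show l = l' from Subtype.ext ((hpl l).symm.trans (e.trans (hpl l')))]
  generalize univ.image pl = Z at m1 m2 m3
  have es : ∀ u ∈ Z, ∀ P : EE, fr u • fr u • P - a u.p • fr u • P + u.p • P ∈ K1 u :=
    fun u hu P => he u _ P (hS _ (m1 u hu)).2.2.2.1 (fr_spec u)
  obtain ⟨c, c1, c2, c5, h, c3, c4⟩ := ex_orth hs hc (sB_tr T hγ) F m3 fun u hu =>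
    ax_of T (es u hu) (hS _ (m1 u hu)).2.2.1 (hS _ (m1 u hu)).2.1 (hS _ (m1 u hu)).2.2.2.2
  have n3 := mul_ne_zero three_ne_zero NN_ne
  have o3 : Odd (3 * NN) := Odd.mul (by decide) NN_odd
  have hA' : ∀ p ∈ A ∪ (3 * NN).primeFactors, p.Prime ∧ p ≠ 2 := fun p hp =>
    (mem_union.1 hp).elim (hA p) fun hp => ⟨Nat.prime_of_mem_primeFactors hp, fun e =>
      o3.not_two_dvd_nat (e ▸ Nat.dvd_of_mem_primeFactors hp)⟩
  obtain ⟨w, φ, w1, w2, w3, w4, w5, w6, w7⟩ := ex_frob hs hc (sB_tr T hγ) c1 c3 c4 hA'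
    (fun g e k => sB_ev T e fun p hp => k p (mem_union_right _ hp))
    (range (B + NN + 4) ∪ (S ∪ (A ∪ (3 * NN).primeFactors)))
  rw [mem_union, mem_union, not_or, not_or, mem_range, not_lt] at w1
  obtain ⟨w1, w8, w9⟩ := w1
  have hq := w.prime
  have q2 : w.p ≠ 2 := by omega
  have qo := hq.odd_of_ne_two q2
  have nd : ∀ {a : ℕ}, a ≠ 0 → a < w.p → ¬ w.p ∣ a := fun a0 h => Nat.not_dvd_of_pos_of_lt a0.bot_lt h
  have n2 : ∀ {a : ℤ}, a ≠ 0 → a.natAbs < w.p → ¬ (w.p : ℤ) ∣ 2 * a := fun a0 h =>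
    mu0_ndvd q2 fun e => nd (Int.natAbs_ne_zero.2 a0) h (Int.natCast_dvd.1 e)
  have q8 : w.p % 8 = 3 := by
    have e1 := chi_frob (n2 (a := -1) (by simp) (by omega)) w2
    have e2 := chi_frob (n2 (a := 2) (by simp) (by omega)) w2
    rw [w5, jacobiSym.at_neg_one qo, ZMod.χ₄_nat_eq_if_mod_four] at e1
    rw [w6, jacobiSym.at_two qo, ZMod.χ₈_nat_eq_if_mod_eight] at e2
    have := Nat.odd_iff.1 qo
    split_ifs at e1 e2 <;> first | omega | simp at e1 e2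
  refine ⟨w.p, hq, q8, by omega, fun p hp e => ?_,
    fun d y w' v hw' hv d1 d4 dq dS dl y2 y3 R f e => ?_⟩
  · have e' : p ∈ A ∪ (3 * NN).primeFactors :=
      mem_union.2 (e.imp_right fun e => Nat.mem_primeFactors.2 ⟨hp, e, n3⟩)
    rw [tw_rec (by omega) (hp.odd_of_ne_two (hA' p e').2), ← chi_frob (mu0_ndvd q2 fun k => w9
      ((Nat.prime_dvd_prime_iff_eq hq hp).1 (Int.natCast_dvd_natCast.1 k) ▸ e')) w2, w7 p e',
      Units.val_one]
  have qN := nd NN_ne (by omega)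
  subst e
  obtain ⟨κ, k1, k2⟩ := ex_kum T y2
  obtain ⟨τ, hτ⟩ := exists_gen q2
  have t0 : ∀ {g}, tw d g R - R = 0 → κ g = 0 := fun h =>
    T.inj 1 ((k2 _).trans (h.trans (map_zero _).symm))
  have t1 : ∀ {u : Plc} {g}, u.p ≠ 2 → ¬ (u.p : ℤ) ∣ d → g ∈ Ine u → ∀ S, tw d g S = g • S :=
    fun a b h S => by rw [tw, chi_ine (mu0_ndvd a b) h, Units.val_one, one_smul]
  have t2 : ∀ g, 2 • (tw d g R - R) = 0 := fun g => k2 g ▸ T.tors 1 _
  have t4 : ∀ u : Plc, u.p ≠ 2 → ¬ u.p ∣ NN → ∀ σ ∈ Ine u, sB T σ = 1 := fun u a b σ hσ => by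
    rw [sB, MonoidHom.comp_apply, T.unr u a (mt (dvd_Δ u.prime).1 b) σ hσ, map_one]
  have zq : ∀ u ∈ Z, u.p ≠ w.p := fun u hu e => w8 (e ▸ m1 u hu)
  refine b3b_one.symm ((recip hs hc F c1 k1 q2 w2 hτ (t4 w q2 qN)
    (fun σ hσ => c2 w q2 zq σ hσ (t4 w q2 qN σ hσ)) w3 (fun e => y3 (k1_move y2 hw' ?_)) m3
    (fun u hu => ⟨zq u hu, c5 u hu κ k1 ?_⟩) fun u hu hz => ?_).symm.trans w4)
  · have e1 := k2 τ
    rw [e, map_zero, tw, chi_gen d1 q2 dq hτ, Units.val_neg, Units.val_one, neg_one_zsmul,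
      eq_comm, sub_eq_zero, neg_eq_iff_eq_neg] at e1
    have := neg_mem (K1_ine (mt (dvd_Δ hq).1 qN) hτ.1 R)
    rwa [e1, ← neg_add', neg_neg, ← two_nsmul] at this
  · obtain ⟨-, s1, s2, -, s3⟩ := hS _ (m1 u hu)
    have u2 : u.p ≠ 2 := by omega
    exact lw_of T (es u hu) s2 s1 s3 (chi_gen d1 u2 (dS _ (m1 u hu)) (gn_spec u2)) y2 k2
  by_cases u2 : u.p = 2
  · obtain ⟨g, rfl⟩ := plc_conj (hv.trans u2.symm)
    refine .inl ⟨_, fun s hs' => lf_conj (x := 0) (act3_sg hs ⊤).toAct0 k1 (γ := g) trivial trivial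
      ((t0 (two_ine ha hv (t2 _) fun σ hσ => ?_)).trans (lf_cob_zero _ _).symm)⟩
    have m := mem_Dec_smul.1 hs'
    generalize g⁻¹ * s * g = t at m
    rw [smul_sub, f σ hσ, tw, smul_comm σ, smul_smul σ, show σ * t = t * (t⁻¹ * σ * t⁻¹⁻¹) by group,
      mul_smul, f _ (conj_mem_Ine (inv_mem m) hσ)]
  by_cases ud : (u.p : ℤ) ∣ d
  · obtain ⟨s1, s2, s3⟩ := ((dl _ u.prime ud).resolve_left hu).resolve_left fun e =>
      (m2 _ e).elim fun z e' => hz z e'.1 e'.2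
    exact .inl (cob_three hs k1 u2 (fr_spec u) (t4 u u2 s2)
      (tr_odd T u2 (fr_spec u) (fun P => he u _ P s1 (fr_spec u)) s3))
  by_cases uN : u.p ∣ NN
  · obtain ⟨x, hx⟩ := cob_bad T c1 uN (c2 u u2 hz)
    obtain ⟨Q, q1, q3⟩ := div_ine uN (2 • R) fun σ hσ => (t1 u2 ud hσ _).symm.trans (y2 σ)
    obtain ⟨z, hz⟩ := T.surj 1 (R - Q) (by rw [pow_one, smul_sub, q3, sub_self])
    refine .inr ⟨x, z, hx, fun σ hσ => T.inj 1 ?_⟩
    rw [k2, t1 u2 ud hσ, cob, map_sub, sg_apply, ← sB_emb, hz, smul_sub, q1 σ hσ,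
      sub_sub_sub_cancel_right]
  · refine .inr ⟨0, 0, fun σ hσ => ?_, fun σ hσ => ?_⟩ <;> rw [lf_cob_zero]
    · exact c2 u u2 hz σ hσ (t4 u u2 uN σ hσ)
    · refine t0 (K1_tors (m := 1) u2 ?_ (t2 σ))
      rw [t1 u2 ud hσ]
      exact K1_ine (mt (dvd_Δ u.prime).1 uN) hσ R

end Pool.Agent.B6.E9
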