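import Pool.Agent.Lib.MP_696deb_nt.B10.EZ

/-! Independence of a real class that ramifies at a place from classes that do not. -/

set_option autoImplicit false

namespace Pool.Agent.B10
open Pool.Agent.Lib.MP_696deb_nt Pool.Agent.Lib.MP_696deb_nt.B2 Pool.Agent.B6 Pool.Agent.B8

theorem eat_tr {u v : Mv 1} (hu : u ≠ 0) (hv : v ≠ 0) :
    u = v ∨ omM 1 u = v ∨ omM 1 (omM 1 u) = v := by
  have key : ∀ u v : I3 → ZMod 2, ∑ i, u i = 0 → ∑ i, v i = 0 → u ≠ 0 → v ≠ 0 →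
      u = v ∨ (fun i => u (i + 1)) = v ∨ (fun i => u (i + 1 + 1)) = v := by decide +kernel
  exact (key u.1 v.1 u.2 v.2 (fun e => hu (Subtype.ext e)) fun e => hv (Subtype.ext e)).imp
    Subtype.ext (Or.imp Subtype.ext Subtype.ext)

theorem eat_two (x : Mv 1) : x + x = 0 :=
  Subtype.ext (funext fun i => (by decide : ∀ a : ZMod 2, a + a = 0) (x.1 i))

theorem eat_eq {x y : Mv 1} (h : x + y = 0) : y = x := by
  rw [← eat_two x] at h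
  exact add_left_cancel h

section

variable {D : Subgroup Gam} {A₁ A₂ A₃ : Gam → Mv 1} {L : (Mv 1 →+ Mv 1) → Prop}

theorem eat_zero {A : Gam → Mv 1} (h : IsHom D A) (h3 : IsHom D A₃) {x : Gam} (hx : x ∈ D)
    (x3 : A₃ x ≠ 0) (e : ∀ g ∈ D, A₃ g ≠ 0 → A g = 0) : ∀ g ∈ D, A g = 0 := fun g hg => by
  by_cases k : A₃ g = 0
  · have := e _ (mul_mem hg hx) (by rwa [h3 g hg x hx, k, zero_add])
    rwa [h g hg x hx, e x hx x3, add_zero] at this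
  · exact e g hg k

theorem eat_one (h1 : IsHom D A₁) (h3 : IsHom D A₃) (n1 : ∃ g ∈ D, A₁ g ≠ 0)
    (tr : ∀ u v : Mv 1, u ≠ 0 → v ≠ 0 → ∃ φ, L φ ∧ φ u = v)
    (r : ∀ g ∈ D, ∀ g' ∈ D, A₃ g ≠ 0 → A₃ g' ≠ 0 → A₃ g = A₃ g')
    (n : ∀ φ, L φ → ∃ g ∈ D, φ (A₁ g) + A₃ g ≠ 0) : ∃ g ∈ D, A₁ g ≠ 0 ∧ A₃ g = 0 := by
  by_contra! z
  obtain ⟨x, hx, x1⟩ := n1
  have x3 := z x hx x1
  obtain ⟨φ, p1, p2⟩ := tr _ _ x1 x3
  obtain ⟨g, hg, k⟩ := n φ p1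
  by_cases e : A₃ g = 0
  · exact k (by rw [e, not_not.1 fun a => z g hg a e, map_zero, add_zero])
  · have e1 := r g hg x hx e x3
    have e2 : A₁ (x * g) = 0 := not_not.1 fun a => z _ (mul_mem hx hg) a (by
      rw [h3 x hx g hg, e1, eat_two])
    rw [h1 x hx g hg] at e2
    exact k (by rw [eat_eq e2, p2, e1, eat_two])

theorem eat_all (h1 : IsHom D A₁) (h2 : IsHom D A₂) (h3 : IsHom D A₃) (n1 : ∃ g ∈ D, A₁ g ≠ 0)
    (n2 : ∃ g ∈ D, A₂ g ≠ 0) (n3 : ∃ g ∈ D, A₃ g ≠ 0)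
    (tr : ∀ u v : Mv 1, u ≠ 0 → v ≠ 0 → ∃ φ, L φ ∧ φ u = v)
    (r : ∀ g ∈ D, ∀ g' ∈ D, A₃ g ≠ 0 → A₃ g' ≠ 0 → A₃ g = A₃ g')
    (n : ∀ φ φ', L φ → L φ' → ∃ g ∈ D, φ (A₁ g) + φ' (A₂ g) + A₃ g ≠ 0) :
    ∃ g ∈ D, A₁ g ≠ 0 ∧ A₂ g ≠ 0 ∧ A₃ g ≠ 0 := by
  by_contra! z
  obtain ⟨t, ht, t3⟩ := n3
  obtain ⟨y, hy, y3, y1⟩ : ∃ y ∈ D, A₃ y ≠ 0 ∧ A₁ y ≠ 0 := by
    by_contra! e
    obtain ⟨g, hg, k⟩ := n1
    exact k (eat_zero h1 h3 ht t3 e g hg)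
  obtain ⟨x, hx, x3, x2⟩ : ∃ x ∈ D, A₃ x ≠ 0 ∧ A₂ x ≠ 0 := by
    by_contra! e
    obtain ⟨g, hg, k⟩ := n2
    exact k (eat_zero h2 h3 ht t3 e g hg)
  have y2 : A₂ y = 0 := not_not.1 fun a => y3 (z y hy y1 a)
  have x1 : A₁ x = 0 := not_not.1 fun a => x3 (z x hx a x2)
  obtain ⟨φ, p1, p2⟩ := tr _ _ y1 t3
  obtain ⟨φ', q1, q2⟩ := tr _ _ x2 t3
  obtain ⟨g, hg, k⟩ := n φ φ' p1 q1
  refine k (eat_zero (A := fun g => φ (A₁ g) + φ' (A₂ g) + A₃ g) (fun a ha b hb => ?_) h3 ht t3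
    (fun w hw w3 => ?_) g hg)
  · simp only [h1 a ha b hb, h2 a ha b hb, h3 a ha b hb, map_add]
    abel
  have m := mul_mem hx hy
  have e := z _ (mul_mem m hw)
  rw [h1 _ m w hw, h2 _ m w hw, h3 _ m w hw, h1 x hx y hy, h2 x hx y hy, h3 x hx y hy, x1, y2,
    zero_add, add_zero, r x hx y hy x3 y3, eat_two, zero_add] at e
  rw [r w hw t ht w3 t3]
  by_cases a : A₁ y + A₁ w = 0
  · have a1 := eat_eq a
    rw [not_not.1 fun b => w3 (z w hw (a1 ▸ y1) b), a1, p2, map_zero, add_zero, eat_two]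
  · have a1 := eat_eq (not_not.1 fun b => w3 (e a b))
    rw [not_not.1 fun b => w3 (z w hw b (a1 ▸ x2)), a1, q2, map_zero, zero_add, eat_two]

end

theorem at_stmt : ATStmt := by
  intro _ p c c' ρ bx bm hp k k' kρ hr z z' zρ
  have hg : gn p ∈ GK NN ⊓ Ine p := ⟨(bx.ine p hp).1 (gn_spec hp.1).1, (gn_spec hp.1).1⟩
  have cy1 : ∀ U : Subgroup Gam, ∀ g ∈ U, cy 1 g = 1 := fun _ g _ => cy_one_eq g
  let L : (Mv 1 →+ Mv 1) → Prop := fun φ => ∀ g ∈ GK NN, ∀ x, am 1 1 g (φ x) = φ (am 1 1 g x)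
  have tr : ∀ u v : Mv 1, u ≠ 0 → v ≠ 0 → ∃ φ, L φ ∧ φ u = v := fun u v hu hv => by
    rcases eat_tr hu hv with e | e | e
    · exact ⟨.id _, fun _ _ _ => rfl, e⟩
    · exact ⟨omM 1, bm.omm 1 1, e⟩
    · exact ⟨(omM 1).comp (omM 1), fun g hg x =>
        (bm.omm 1 1 g hg _).trans (congrArg _ (bm.omm 1 1 g hg x)), e⟩
  have cp : ∀ φ, L φ → ∀ c, Coc (GK NN) (am 1 1) c → Coc (GK NN) (am 1 1) fun g => φ (c g) :=
    fun φ h c k => ⟨k.1.comp φ, fun a ha b hb => by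
      beta_reduce
      rw [k.2 a ha b hb, map_add, h a ha]⟩
  have nc : ∀ φ φ', L φ → L φ' → Nc 1 1 ((fun g => φ (c g)) + (fun g => φ' (c' g)) + ρ) :=
    fun φ φ' h h' => ⟨((cp φ h c k.1).add (cp φ' h' c' k'.1)).add kρ, fun ⟨x, e⟩ => zρ (by
      have := e _ hg.1
      rwa [cob, bm.triv 1 1 _ hg.1 (bx.odd p hp.1 _ hg) (by rw [cy_one_eq, one_pow]), sub_self,
        Pi.add_apply, Pi.add_apply, z, z', map_zero, map_zero, zero_add, zero_add] at this)⟩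
  have key : ∀ (U : Subgroup Gam) (s h : Gam), U.Normal → s ∉ GK NN → h ∈ GK NN ⊓ U → xc h ≠ 0 →
      (∃ g ∈ unzD U, fs2 s c g ≠ 0 ∧ fs2 s ρ g = 0) ∧
      ∃ g ∈ unzD U, fs2 s c g ≠ 0 ∧ fs2 s c' g ≠ 0 ∧ fs2 s ρ g ≠ 0 := fun U s h hU hs hh h0 => by
    have hom : ∀ c, Coc (GK NN) (am 1 1) c → IsHom (unzD U) (fs2 s c) :=
      fun c k a ha b hb => unz_add bm hU (cy1 U) k ha hb
    have n : ∀ φ φ', L φ → L φ' →
        ∃ g ∈ unzD U, φ (fs2 s c g) + φ' (fs2 s c' g) + fs2 s ρ g ≠ 0 := fun φ φ' a b => by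
      obtain ⟨g, g1, g2⟩ := unz_ex bm hU (cy1 U) hs hh h0 (nc φ φ' a b)
      refine ⟨g, g1, fun e => g2 (e ▸ ?_)⟩
      simp only [fs2, Pi.add_apply, map_add]
      abel
    have l0 : L 0 := fun g _ x => map_zero _
    have r : ∀ g ∈ unzD U, ∀ g' ∈ unzD U, fs2 s ρ g ≠ 0 → fs2 s ρ g' ≠ 0 →
        fs2 s ρ g = fs2 s ρ g' := fun g hg g' hg' a b => by
      have e : ∀ g ∈ unzD U, (fs2 s ρ g).1 = fun i => (ρ g).1 (xc s⁻¹ - i) + (ρ g).1 i :=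
        fun g hg => funext fun i => by
          rw [fs2, hr s g hg.1.1 hg.2, AddSubgroup.coe_add, Pi.add_apply, am_apply, cy_one_eq,
            one_pow, one_mul, pm_of_notMem (by simpa using hs)]
      have q : ∀ (a : I3) (u v : I3 → ZMod 2), ∑ i, u i = 0 → ∑ i, v i = 0 →
          (¬ ∀ i, u (a - i) + u i = 0) → (¬ ∀ i, v (a - i) + v i = 0) →
          ∀ i, u (a - i) + u i = v (a - i) + v i := by decide +kernel
      refine Subtype.ext ?_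
      rw [e g hg, e g' hg']
      exact funext (q _ _ _ (ρ g).2 (ρ g').2 (fun k => a (Subtype.ext ((e g hg).trans (funext k))))
        fun k => b (Subtype.ext ((e g' hg').trans (funext k))))
    have n1 := unz_ex bm hU (cy1 U) hs hh h0 k
    exact ⟨eat_one (hom c k.1) (hom ρ kρ) n1 tr r fun φ a => by simpa using n φ 0 a l0,
      eat_all (hom c k.1) (hom c' k'.1) (hom ρ kρ) n1 (unz_ex bm hU (cy1 U) hs hh h0 k')
        (by simpa using n 0 0 l0 l0) tr r n⟩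
  exact ⟨fun U s h a b d e => (key U s h a b d e).1, fun U s h a b d e => (key U s h a b d e).2⟩

end Pool.Agent.B10
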