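import Pool.Agent.Lib.MP_696deb_nt.B10.EY

/-! The half points for two and for minus two are congruent modulo two. -/

set_option autoImplicit false

open scoped Classical NumberTheorySymbols

namespace Pool.Agent.T10
open Pool.Agent.Lib.MP_696deb_nt Pool.Agent.Lib.MP_696deb_nt.B2 Pool.Agent.Lib.MP_696deb_nt.B2.CM
  Pool.Agent.B6 Pool.Agent.B4.GE
open Pool.Agent.Lib.MP_696deb_nt.B3.CM (fs fs_fs fs_congr fs_mul fs_sub Gd th ind ind_neg gd_two
  fs_const_up inert_two)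
open Pool.Agent.B6.CM (yA)
open Pool.Agent.B6.B7.Dn

section

variable [Md] {n c d₁ d₂ d₃ : ℕ} {r : ℤ} {P : Par Wu NN}

theorem yA_mul (G : Geo P) (ok : OkD NN n c r) (hN : c.Coprime NN) {d : ℕ} (hd : d ∣ c * 8)
    (x : Pc n d) : yA P n d r x ∈ EN :=
  yA_EN G ((ok.of_ne (ne_zero_of_dvd_ne_zero (mul_ne_zero ok.ne (by decide)) hd)).okN
    ((hN.mul_left ((Nat.coprime_two_left.2 NN_odd).pow_left 3)).coprime_dvd_left
      (mul_comm c 8 ▸ hd))) x

theorem even_half_at [∀ c, Fintype (Pc n c)] (G : Geo P) (ok : OkD NN n c r) (h8 : n % 8 = 3)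
    (ha : Even (P.a 2)) (hc : ¬ 2 ∣ c) (hN : c.Coprime NN) (h1 : d₁ = c * 2) (h2 : d₂ = d₁ * 2)
    (h3 : d₃ = d₂ * 2) (x : Pc n c) :
    ∃ R ∈ EN, fs c d₃ (fun z => ind (-th n d₃ (-1) z) • yA P n d₃ r z) x = 2 • R := by
  obtain ⟨a, ha⟩ := ha
  have p2 := Nat.prime_two
  have ok2 : OkD NN n d₁ r := ok.of_ne (h1 ▸ mul_ne_zero ok.ne two_ne_zero)
  have ok4 : OkD NN n d₂ r := ok.of_ne (h2 ▸ mul_ne_zero ok2.ne two_ne_zero)
  have ok8 : OkD NN n d₃ r := ok.of_ne (h3 ▸ mul_ne_zero ok4.ne two_ne_zero)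
  have v1 : c ∣ d₁ := h1 ▸ dvd_mul_right _ _
  have v2 : d₁ ∣ d₂ := h2 ▸ dvd_mul_right _ _
  have v3 : d₂ ∣ d₃ := h3 ▸ dvd_mul_right _ _
  have g4 : Gd n d₂ (-1) := gd_two ok4.toOk (by decide) ⟨c, by
    rw [h2, h1, show B3.CM.m2 (-1) = 4 from rfl]; ring⟩
  have k1 : ∀ u, 2 ∣ fs d₁ d₂ (fun z => ind (-th n d₂ (-1) z)) u -
      fs d₁ d₂ (fun z => ind (-th n d₂ (-1) z)) 1 := fun u => by
    obtain ⟨g, -, rfl⟩ := rho_surj ok2.toOk u
    rw [← pj_rho ok4.toOk v2, ← mul_one (pj n d₁ d₂ _), ← fs_mul]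
    simp only [map_mul]
    rcases Int.units_eq_one_or (th n d₂ (-1) (rho n d₂ g)) with k | k <;> rw [k]
    · simp
    · simp only [neg_one_mul, ind_neg (-_)]
      rw [fs_sub, fs_const_up ok.toOk p2 h1 h2]
      simp only [nsmul_eq_mul]
      omega
  choose j hj using k1
  generalize fs d₁ d₂ (fun z => ind (-th n d₂ (-1) z)) 1 = t at hj
  have hs : ∀ {c d : ℕ} (k : ℤ) (F : Pc n d → B6.EE) (x : Pc n c),
      fs c d (fun z => k • F z) x = k • fs c d F x := fun k F x => Finset.smul_sum.symm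
  have k2 := trA_inert G ok2 p2 nd_NN h1 (inert_two h8) hc x
  have k3 : fs c d₂ (fun u => ind (-th n d₂ (-1) u) • yA P n d₁ r (pj n d₁ d₂ u)) x =
      t • fs c d₁ (yA P n d₁ r) x - (-2 : ℤ) • fs c d₁ (fun u => j u • yA P n d₁ r u) x := by
    rw [← fs_fs v1 v2, ← hs, ← hs, ← fs_sub]
    refine fs_congr fun u _ => ?_
    rw [fs_congr (G := fun x => ind (-th n d₂ (-1) x) • yA P n d₁ r u) fun x hx => by rw [hx], fs,
      ← Finset.sum_smul, ← fs, eq_add_of_sub_eq' (hj u)]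
    module
  refine ⟨a • fs c d₂ (fun u => ind (-th n d₂ (-1) u) • yA P n d₂ r u) x - (t * a) • yA P n c r x -
    fs c d₁ (fun u => j u • yA P n d₁ r u) x, sub_mem (sub_mem (zsmul_mem (sum_mem fun x _ =>
      zsmul_mem (yA_mul G ok hN ⟨2, by rw [h2, h1]; ring⟩ x) _) _)
        (zsmul_mem (yA_mul G ok hN (dvd_mul_right _ _) x) _)) (sum_mem fun x _ => zsmul_mem
          (yA_mul G ok hN ⟨4, by rw [h1]; ring⟩ x) _), ?_⟩
  rw [← fs_fs (v1.trans v2) v3, fs_congr (G := fun u => P.a 2 • ind (-th n d₂ (-1) u) •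
    yA P n d₂ r u - ind (-th n d₂ (-1) u) • yA P n d₁ r (pj n d₁ d₂ u)) fun u _ => ?_,
    fs_sub, k3, k2, hs, ha]
  · module
  · rw [smul_comm, ← smul_sub, ← trA_up G ok8 p2 nd_NN h2 h3, ← hs]
    exact fs_congr fun z hz => by rw [g4.th_pj ok8.toOk v3, hz]

end

theorem fc_stmt : FCStmt := by
  intro _ P n c _ r x ok h8 ha hc hN
  obtain ⟨G⟩ := P.geo
  obtain ⟨R, h1, h2⟩ := even_half_at (d₃ := c * 8) G ok h8 ha hc hN rfl rfl (by ring) x
  have ok8 := ok.of_ne (d := c * 8) (mul_ne_zero ok.ne (by decide))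
  have e : ∀ δ : ℤ, δ = 2 ∨ δ = -2 → yB P r δ c x = fs c (c * 8) (fun z => ind (th n (c * 8) δ z) •
      yA P n (c * 8) r z) x + k0 (P.a 2 ^ 3 - 5 * P.a 2) • yA P n c r x := fun δ h => by
    have k : w0 (P.a 2 ^ 3 - 5 * P.a 2) = B3.CM.ind := funext fun _ => by
      obtain ⟨a, ha⟩ := ha
      rw [w0, ha, show (a + a) ^ 3 - 5 * (a + a) = 2 * (4 * a ^ 3 - 5 * a) by ring,
        if_neg (by omega)]
    rw [← k]
    rcases h with rfl | rfl <;> rfl
  refine ⟨R - fs c (c * 8) (fun z => (ind (th n (c * 8) 2 z) * ind (-th n (c * 8) (-1) z)) •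
    yA P n (c * 8) r z) x, sub_mem h1
    (sum_mem fun z _ => zsmul_mem (yA_mul G ok hN dvd_rfl z) _), ?_⟩
  rw [e _ (.inl rfl), e _ (.inr rfl), smul_sub, ← h2, add_right_comm, add_left_inj, fs, fs, fs, fs,
    Finset.smul_sum, ← Finset.sum_sub_distrib, ← Finset.sum_add_distrib]
  refine Finset.sum_congr rfl fun z _ => ?_
  rw [show (-2 : ℤ) = 2 * -1 from rfl, th_mul ok8.toOk
    (gd_two ok8.toOk dvd_rfl (dvd_mul_left 8 c))
    (gd_two ok8.toOk (by decide) (Dvd.dvd.mul_left (by decide) c)) (by decide) (by decide),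
    ← natCast_zsmul, smul_smul, ← sub_smul, ← add_smul]
  congr 1
  rcases Int.units_eq_one_or (th n (c * 8) 2 z) with k | k <;>
    rcases Int.units_eq_one_or (th n (c * 8) (-1) z) with k' | k' <;> rw [k, k'] <;> decide

end Pool.Agent.T10
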