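import Pool.Agent.Lib.MP_696deb_nt.B10.TKa
import Pool.Agent.Lib.MP_696deb_nt.B6.MCM

/-! The sum of the half operators over all classes. -/

set_option autoImplicit false

open NumberTheorySymbols Finset Function
open scoped Classical

namespace Pool.Agent.T10.KZ
open Pool.Agent.Lib.MP_696deb_nt Pool.Agent.Lib.MP_696deb_nt.B2 Pool.Agent.Lib.MP_696deb_nt.B2.CM
  Pool.Agent.B4.GE
open Pool.Agent.Lib.MP_696deb_nt.B3.CM (th St Gd st_of_isIv isIv_of_not_st mid_idl st_idl sum_nb fs)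
open Pool.Agent.B4 (OkN HgN)
open Pool.Agent.B6 (Cs Cw Wu NN EN yA_EN)
open Pool.Agent.B6.CM (yA hg_nb jC_yA yC_cl okN_mul)

theorem ms_insert {A : Type*} [AddCommGroup A] {T : Finset ℕ} {l : ℕ} (hl : l ∉ T)
    (c : (l : ℕ) → Option (Option (Fin l)) → ℤ) (g : Lb → A) :
    ms (insert l T) c g = ∑ o, c l o • ms T c fun κ => g (update κ l o) := by
  rw [ms, sum_LS_insert hl]
  refine sum_congr rfl fun o _ => ?_
  rw [ms, smul_sum]
  refine sum_congr rfl fun κ _ => ?_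
  rw [prod_insert hl, update_self, mul_smul,
    prod_congr rfl fun p hp => by rw [update_of_ne (ne_of_mem_of_not_mem hp hl)]]

theorem ms_congr {A : Type*} [AddCommGroup A] {T : Finset ℕ}
    {c : (l : ℕ) → Option (Option (Fin l)) → ℤ} {g g' : Lb → A} (h : ∀ κ ∈ LS T, g κ = g' κ) :
    ms T c g = ms T c g' := sum_congr rfl fun κ k => by rw [h κ k]

theorem sum_fib {α β A : Type*} [Fintype α] [Fintype β] [AddCommMonoid A] (g : β → α)
    (p : α → Prop) [DecidablePred p] [∀ x, DecidablePred fun y => g y = x] (f : β → A) :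
    ∑ x with p x, ∑ y with g y = x, f y = ∑ y with p (g y), f y := by
  convert sum_fiberwise_eq_sum_filter univ (univ.filter p) g f
  simp

theorem ptQ_mul {W : WeierstrassCurve ℚ} {N : ℕ} (P : Par W N) {γ M : MZ} (h : G0 0 γ)
    (hM : 0 < M.det) {z : ℂ} (hz : 0 < z.im) : ptQ P (act (γ * M) z) = ptQ P (act M z) := by
  rw [ptQ, act_mul _ hM.ne' hz, P.inv0 γ ⟨h.1, (dvd_zero _).trans h.2⟩ _ (act_pos hM hz), ptQ]

/-- The recursion. -/
theorem dz_insert (ml : MLStmt) (lv : LVStmt) (lw : LWStmt) {W : WeierstrassCurve ℚ} {N : ℕ}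
    (P : Par W N) {T : Finset ℕ} {l : ℕ} (hT : ∀ p ∈ T, p.Prime) (hl : l.Prime) (h : l ∉ T) :
    ∃ π : Option (Fin l) → ∀ p, Equiv.Perm (Option (Fin p)), ∀ z : ℂ, 0 < z.im →
      (∀ i, ∀ p ∈ T, ∀ j, nb p 1 z j ⊓ nb l 1 z i =
        sc (den (rP l i) z) (nb p 1 (act (rP l i) z) (π i p j))) ∧
      ∀ R : Rs, Dz P (insert l T) z R = -(P.a l / 2) • Dz P T z R +
        ∑ i with R l i, Dz P T (act (rP l i) z) fun p j => R p ((π i p).symm j) := by
  obtain ⟨h1, h2⟩ := (lw T l hT hl).2 h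
  choose π h2 h3 using h2
  have d := fun κ => (lv.2.2.2 0 T κ hT).2.2.1
  refine ⟨π, fun z hz => ⟨fun i p hp j => h2 i p hp j z hz, fun R => ?_⟩⟩
  rw [Dz, ms_insert h, Fintype.sum_option, sum_filter]
  congr 1
  · refine congrArg _ (ms_congr fun κ k => ?_)
    obtain ⟨γ, g, e⟩ := h1 κ k
    rw [← mem_LS.1 k l h, update_eq_self, e, ptQ_mul P g (d κ) hz]
  refine sum_congr rfl fun i _ => ?_
  rw [wR, ite_smul, one_smul, zero_smul, Dz, ← (ml _ T P.a _ R).1 (π i)]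
  refine if_congr Iff.rfl (ms_congr fun κ k => ?_) rfl
  obtain ⟨γ, g, e⟩ := h3 i κ k
  rw [e, ptQ_mul P g (by rw [Matrix.det_mul]; exact mul_pos (d _) (rP_pos hl i)) hz,
    act_mul _ (rP_pos hl i).ne' hz]

/-- The halves for a point of arbitrary conductor. -/
def RG (n c : ℕ) (b : ℕ → ℤ) (s : ℕ → ℤˣ) (z : ℂ) : Rs := fun p j =>
  Hz n (b p) p (sp2 z 1) (nb p 1 z j) ∨ Vt n c p (s p) (nb p 1 z j)

variable {n c l p : ℕ} {r k : ℤ} {b : ℕ → ℤ} {s : ℕ → ℤˣ} {z : ℂ}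

theorem rg_tr (lv : LVStmt) {c' : ℕ} {s' : ℕ → ℤˣ} (ok : Ok n c) (ok' : Ok n c') (hp : p.Prime)
    (hl : l.Prime) (h : p ≠ l) (hc : ¬ (p : ℤ) ∣ c) (e : b p ^ 2 + n * (1 : ℕ) ^ 2 = 4 * p * k)
    (hz : 0 < z.im) (hL : IsIv (Oc n c) (sp2 z 1)) {i : Option (Fin l)} {j j' : Option (Fin p)}
    (hL' : IsIv (Oc n c') (sp2 (act (rP l i) z) 1))
    (k1 : nb p 1 z j ⊓ nb l 1 z i = sc (den (rP l i) z) (nb p 1 (act (rP l i) z) j'))
    (k2 : Vt n c' p (s' p) (nb p 1 z j ⊓ nb l 1 z i) ↔ Vt n c p (s p) (nb p 1 z j)) :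
    RG n c' b s' (act (rP l i) z) p j' ↔ RG n c b s z p j := by
  have d := den_ne' (rP_pos hl i).ne' hz
  have m := nb_mid (s := 1) hl hz.ne' i
  have m' := nb_mid (s := 1) hp (act_pos (rP_pos hl i) hz).ne' j'
  rw [RG, RG, ← hz_sc d, ← vt_sc ok' hp d hL' m'.1 m'.2, ← k1, ← lv.1 _ _ (rP_pos hl i) hz,
    lv.2.1, k2, hz_inf hp (ndvd hp hl h) m.1.le m.2.le (be_st ok e hL) hc]

theorem fib [Fintype (Pc n (c * l))] (ok : Ok n c) (hl : l.Prime) (z : Pc n c → ℂ)
    (hz : ∀ x, 0 < (z x).im ∧ IsIv (Oc n c) (sp2 (z x) 1) ∧ cl _ (sp2 (z x) 1) = x) :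
    ∃ ι : Pc n (c * l) → Option (Fin l), (∀ y, ¬ St n c (nb l 1 (z (pj n c (c * l) y)) (ι y)) ∧
      cl _ (nb l 1 (z (pj n c (c * l) y)) (ι y)) = y) ∧
      ∀ {A : Type} [AddCommGroup A] (x : Pc n c) (F : Pc n c → Option (Fin l) → A),
        ∑ i with ¬ St n c (nb l 1 (z x) i), F x i =
          ∑ y with pj n c (c * l) y = x, F (pj n c (c * l) y) (ι y) := by
  have key := fun {A : Type} [AddCommMonoid A] x (F : Pc n (c * l) → A) => by
    simpa only [sc_one, (hz x).2.2] using sum_nb (s := 1) (a := 1) ok hl (cmd_one hl) (hz x).1.ne'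
      one_ne_zero (by rw [sc_one]; exact (hz x).2.1) F
  have k1 : ∀ y, ∃! i, ¬ St n c (nb l 1 (z (pj n c (c * l) y)) i) ∧
      cl _ (nb l 1 (z (pj n c (c * l) y)) i) = y := fun y => by
    have := key (pj n c (c * l) y) fun y' => if y' = y then 1 else 0
    rw [sum_ite_eq', if_pos (by simp), ← card_filter, filter_filter, eq_comm,
      card_eq_one_iff_existsUnique] at this
    simpa using this
  choose ι k2 k3 using k1
  refine ⟨ι, k2, fun x F => ?_⟩
  rw [key]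
  refine sum_congr rfl fun i hi => ?_
  have m := nb_mid (s := 1) hl (hz x).1.ne' i
  have v := isIv_of_not_st ok hl (hz x).2.1 m.1 m.2 (mem_filter.1 hi).2
  have e : pj n c (c * l) (cl _ (nb l 1 (z x) i)) = x := by
    rw [pj_cl (dvd_mul_right _ _) v.1, v.2, (hz x).2.2]
  rw [← k3 _ i (by rw [e]; exact ⟨(mem_filter.1 hi).2, rfl⟩), e]

variable [Cs] {P : Par Wu NN} [∀ c, Fintype (Pc n c)]

theorem main (ml : MLStmt) (lv : LVStmt) (lw : LWStmt) (G : Geo P) (T : Finset ℕ) :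
    ∀ (C : Finset ℕ) (c : ℕ) (η s : ℕ → ℤˣ) (z : Pc n c → ℂ), c = ∏ p ∈ C, p → OkN NN n c r →
    (∀ p ∈ C, p % 4 = 1) → (∀ p ∈ T, p ∉ C ∧ ¬ p ∣ c) → Tp NN T → Ts n b T →
    (∀ l ∈ T, 4 ∣ P.a l) → (∀ x, HgN NN n c r (z x) ∧ cl _ (sp2 (z x) 1) = x) →
    ∃ (ε : Finset ℕ → ℕ → ℤˣ) (R : B6.EE), R ∈ EN ∧ (∀ U ⊆ T, Zs P n r (C ∪ U) (ε U) ∈ EN) ∧
      ∑ x with ∀ p ∈ C, th n c p x = η p, Dz P T (z x) (RG n c b s (z x)) =
        ∑ U ∈ T.powerset, Zs P n r (C ∪ U) (ε U) + 2 • R := by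
  induction T using Finset.induction_on with
  | empty =>
    rintro C _ η s z rfl ok - - - - - hz
    refine ⟨fun _ => η, 0, zero_mem _, fun U hU => ?_, ?_⟩
    · rw [subset_empty.1 hU, union_empty]
      exact sum_mem fun x _ => yA_EN G ok x
    rw [powerset_empty, sum_singleton, smul_zero, add_zero, union_empty, Zs]
    refine sum_congr rfl fun x _ => ?_
    obtain ⟨γ, g, e⟩ := (lv.2.2.2 NN ∅ (fun _ => none) (by simp)).2.2.2.2.2.1 (by simp [Tp]) 1
      ⟨by simp [dg], by simp, by simp⟩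
    have d := (lv.2.2.2 NN ∅ (fun _ => none) (by simp)).2.2.1
    have k := P.inv0 γ g _ (act_pos d (hz x).1.pos)
    rw [← act_mul _ d.ne' (hz x).1.pos, ← e, act_one] at k
    rw [Dz, ms, LS_empty, sum_singleton, prod_empty, one_smul, ptQ, ← k, yA,
      ← yC_cl P ok (hz x).1, (hz x).2]
  | insert l T hl ih =>
    intro C c η s z hc ok h4 hC hp hs ha hz
    have lT := mem_insert_self l T
    have sub : ∀ p ∈ T, p ∈ insert l T := fun p => mem_insert_of_mem
    obtain ⟨l1, l2⟩ := hp l lT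
    obtain ⟨-, l4, l5, k, l6⟩ := hs l lT
    have lc : ¬ (l : ℤ) ∣ c := mt Int.natCast_dvd_natCast.1 (hC l lT).2
    have lb : ¬ (l : ℤ) ∣ b l * c := fun e =>
      ((Nat.prime_iff_prime_int.1 l1).dvd_or_dvd e).elim l5 lc
    have lN := l1.coprime_iff_not_dvd.2 l2
    have ne : ∀ p ∈ T, p ≠ l := fun p h => ne_of_mem_of_not_mem h hl
    have ok' := okN_mul ok l1.ne_zero lN
    have mid := fun x {p : ℕ} (h : p.Prime) i => nb_mid (s := 1) h (hz x).1.pos.ne' i
    obtain ⟨π, hπ⟩ := dz_insert ml lv lw P (fun p h => (hp p (sub p h)).1) l1 hl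
    replace ih := fun C c η s z a1 a2 a3 a4 => ih C c η s z a1 a2 a3 a4 (fun p h => hp p (sub p h))
      (fun p h => hs p (sub p h)) fun p h => ha p (sub p h)
    obtain ⟨ε0, R0, a0, b0, e0⟩ := ih C c η s z hc ok h4 (fun p h => hC p (sub p h)) hz
    choose i0 hi0 using fun x => cmd_mid l1 (cmd_one l1) (hz x).1.pos.ne'
      (mid_idl ok.toOk l1 (root_mul l6 c) (hz x).1.iv).1
      (mid_idl ok.toOk l1 (root_mul l6 c) (hz x).1.iv).2
    have iv0 := fun x => hi0 x ▸ st_idl ok.toOk l1 (root_mul l6 c) lb (hz x).1.iv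
    obtain ⟨u, hu⟩ : ∃ u, u = cl (Oc n c) (idl n c l (b l * c)) := ⟨_, rfl⟩
    have hg0 : ∀ x, HgN NN n c r (act (rP l (i0 x)) (z x)) ∧
        cl _ (sp2 (act (rP l (i0 x)) (z x)) 1) = u * x := fun x => by
      have := hg_nb ok l1.pos (hz x).1 (i0 x) (iv0 x) lN rfl
      have i2 := st_idl ok.toOk l1 (root_mul l6 c) lb (isIv_one _)
      rw [idl_mul_ot ok.m4 (root_mul l6 c)] at i2
      rw [B6.CM.act_rP, this.2, ← hi0, cl_mul i2 (hz x).1.iv, (hz x).2, hu]
      exact ⟨this.1, rfl⟩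
    obtain ⟨ε1, R1, a1, b1, e1⟩ := ih C c (fun p => th n c p u * η p) (fun p => th n (c * p) p
      (cl _ (idl n (c * p) l (b l * (c * p : ℕ)))) * s p) (fun x => act (rP l (i0 (u⁻¹ * x)))
        (z (u⁻¹ * x))) hc ok h4 (fun p h => hC p (sub p h)) fun x => by simpa using hg0 (u⁻¹ * x)
    obtain ⟨ι, ι1, ι2⟩ := fib ok.toOk l1 z fun x => ⟨(hz x).1.pos, (hz x).1.iv, (hz x).2⟩
    have hg1 : ∀ x i, ¬ St n c (nb l 1 (z x) i) → HgN NN n (c * l) r (act (rP l i) (z x)) ∧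
        cl (Oc n (c * l)) (sp2 (act (rP l i) (z x)) 1) = cl _ (nb l 1 (z x) i) := fun x i h => by
      rw [B6.CM.act_rP]
      exact hg_nb (m := 1) ok' l1.pos (hz x).1 i (isIv_of_not_st ok.toOk l1 (hz x).1.iv
        (mid x l1 i).1 (mid x l1 i).2 h).1 (by simp) (by ring)
    obtain ⟨ε2, R2, a2, b2, e2⟩ := ih (insert l C) (c * l) (update η l (s l)) s
      (fun y => act (rP l (ι y)) (z (pj n c (c * l) y)))
      (by rw [prod_insert (hC l lT).1, hc, mul_comm]) ok' (by simpa using ⟨l4, h4⟩)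
      (fun p h => ⟨by simp [ne p h, (hC p (sub p h)).1], fun e =>
        ((hp p (sub p h)).1.dvd_mul.1 e).elim (hC p (sub p h)).2 fun e =>
          ne p h ((Nat.prime_dvd_prime_iff_eq (hp p (sub p h)).1 l1).1 e)⟩)
      fun y => ⟨(hg1 _ _ (ι1 y).1).1, (hg1 _ _ (ι1 y).1).2.trans (ι1 y).2⟩
    obtain ⟨t, ht⟩ := ha l lT
    have nU : ∀ U ⊆ T, l ∉ U := fun U h e => hl (h e)
    refine ⟨fun U => if l ∈ U then ε2 (U.erase l) else ε1 U, -t • (∑ U ∈ T.powerset,
      Zs P n r (C ∪ U) (ε0 U) + 2 • R0) + R1 + R2, add_mem (add_mem (zsmul_mem (add_mem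
        (sum_mem fun U h => b0 U (mem_powerset.1 h)) (nsmul_mem a0 2)) _) a1) a2,
      fun U hU => ?_, ?_⟩
    · dsimp only
      split_ifs with h
      · have := b2 (U.erase l) (subset_insert_iff.1 hU)
        rwa [insert_union, ← union_insert, insert_erase h] at this
      · exact b1 U ((subset_insert_iff_of_notMem h).1 hU)
    have s1 : ∀ x, Dz P (insert l T) (z x) (RG n c b s (z x)) =
        -(P.a l / 2) • Dz P T (z x) (RG n c b s (z x)) +
        (Dz P T (act (rP l (i0 x)) (z x)) (RG n c b (fun p => th n (c * p) p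
          (cl _ (idl n (c * p) l (b l * (c * p : ℕ)))) * s p) (act (rP l (i0 x)) (z x))) +
        ∑ i with ¬ St n c (nb l 1 (z x) i),
          if th n (c * l) l (cl (Oc n (c * l)) (nb l 1 (z x) i)) = s l then
            Dz P T (act (rP l i) (z x)) (RG n (c * l) b s (act (rP l i) (z x))) else 0) := fun x => by
      obtain ⟨q1, q2⟩ := hπ (z x) (hz x).1.pos
      have q3 : (univ.filter fun i => RG n c b s (z x) l i) =
          insert (i0 x) (univ.filter fun i => Vt n c l (s l) (nb l 1 (z x) i)) := by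
        ext i
        rw [mem_insert, mem_filter, mem_filter, RG, hz_iff ok.toOk l1 lc l6 (hz x).1.iv
          (mid x l1 i).1.le (mid x l1 i).2, hi0, (nb_inj l1 (cmd_one l1) (hz x).1.pos.ne').eq_iff]
        simp
      rw [q2, q3, sum_insert fun e => (mem_filter.1 e).2.1 (st_of_isIv ok.m4 (iv0 x)), ← sum_filter,
        filter_filter]
      have q4 : ∀ p ∈ T, ¬ (p : ℤ) ∣ c := fun p h =>
        mt Int.natCast_dvd_natCast.1 (hC p (sub p h)).2
      congr 2
      · refine ((ml _ T P.a _ _).2.1 _ fun p h j => ?_).symm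
        obtain ⟨p1, p4, -, k', p6⟩ := hs p (sub p h)
        obtain ⟨j, rfl⟩ := (π (i0 x) p).surjective j
        rw [Equiv.symm_apply_apply]
        exact rg_tr lv ok.toOk ok.toOk p1 l1 (ne p h) (q4 p h) p6 (hz x).1.pos (hz x).1.iv
          (hg0 x).1.iv (q1 _ p h j) (vt_hor ok.toOk p1 l1 (ne p h) (hz x).1.iv (mid x p1 j).1
            (mid x p1 j).2 (mid x l1 _).1 (mid x l1 _).2 l6 lb (hi0 x).symm)
      refine sum_congr (filter_congr fun _ _ => Iff.rfl) fun i hi =>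
        ((ml _ T P.a _ _).2.1 _ fun p h j => ?_).symm
      obtain ⟨p1, p4, -, k', p6⟩ := hs p (sub p h)
      obtain ⟨j, rfl⟩ := (π i p).surjective j
      rw [Equiv.symm_apply_apply]
      have v := (mem_filter.1 hi).2.1
      exact rg_tr lv ok.toOk ok'.toOk p1 l1 (ne p h) (q4 p h) p6 (hz x).1.pos (hz x).1.iv
        (hg1 x i v).1.iv (q1 _ p h j) (vt_vert ok.toOk p1 l1 (ne p h) p4 (hz x).1.iv (mid x p1 j).1
          (mid x p1 j).2 (mid x l1 _).1 (mid x l1 _).2 v)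
    have s2 : ∑ x with ∀ p ∈ C, th n c p x = η p, Dz P T (act (rP l (i0 x)) (z x))
        (RG n c b (fun p => th n (c * p) p (cl _ (idl n (c * p) l (b l * (c * p : ℕ)))) * s p)
          (act (rP l (i0 x)) (z x))) = _ := (sum_equiv (Equiv.mulLeft u) (fun x => by simp)
            fun x _ => by simp).trans e1
    have s3 : ∑ x with ∀ p ∈ C, th n c p x = η p, (∑ i with ¬ St n c (nb l 1 (z x) i),
        if th n (c * l) l (cl (Oc n (c * l)) (nb l 1 (z x) i)) = s l then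
          Dz P T (act (rP l i) (z x)) (RG n (c * l) b s (act (rP l i) (z x))) else 0) =
        ∑ U ∈ T.powerset, Zs P n r (insert l C ∪ U) (ε2 U) + 2 • R2 := by
      refine Eq.trans ?_ e2
      rw [sum_congr rfl fun x _ => ι2 x fun x i =>
        if th n (c * l) l (cl (Oc n (c * l)) (nb l 1 (z x) i)) = s l then
          Dz P T (act (rP l i) (z x)) (RG n (c * l) b s (act (rP l i) (z x))) else 0,
        sum_fib, ← sum_filter, filter_filter]
      refine sum_congr (filter_congr fun y _ => ?_) fun _ _ => rfl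
      rw [(ι1 y).2, forall_mem_insert, update_self, and_comm]
      refine and_congr_right fun _ => forall₂_congr fun p h => ?_
      rw [update_of_ne (ne_of_mem_of_not_mem h (hC l lT).1), (gd ok.toOk (h4 p h)
        (hc ▸ dvd_prod_of_mem _ h)).th_pj ok'.toOk (dvd_mul_right _ _)]
    have s4 : ∀ U ∈ T.powerset, Zs P n r (C ∪ U) (if l ∈ U then ε2 (U.erase l) else ε1 U) =
        Zs P n r (C ∪ U) (ε1 U) := fun U h => by rw [if_neg (nU U (mem_powerset.1 h))]
    have s5 : ∀ U ∈ T.powerset, Zs P n r (C ∪ insert l U) (if l ∈ insert l U then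
        ε2 ((insert l U).erase l) else ε1 (insert l U)) = Zs P n r (insert l C ∪ U) (ε2 U) :=
      fun U h => by rw [if_pos (mem_insert_self _ _), erase_insert (nU U (mem_powerset.1 h)),
        union_insert, insert_union]
    rw [sum_congr rfl fun x _ => s1 x, sum_add_distrib, sum_add_distrib, ← smul_sum, e0, s2, s3,
      sum_powerset_insert hl, sum_congr rfl s4, sum_congr rfl s5, ht,
      show 4 * t / 2 = 2 * t by omega]
    module

end Pool.Agent.T10.KZ

namespace Pool.Agent.T10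
open Pool.Agent.Lib.MP_696deb_nt.B2.CM KZ

theorem kz_stmt (ml : MLStmt) (lv : LVStmt) (lw : LWStmt) : KZStmt := by
  intro _ P n _ r b T z ok _ hp hs ha hz
  obtain ⟨G⟩ := P.geo
  obtain ⟨ε, R, h1, -, h2⟩ := main ml lv lw G T ∅ 1 1 1 z rfl ok (by simp)
    (fun p h => ⟨by simp, (hp p h).1.not_dvd_one⟩) hp hs ha hz
  refine ⟨ε, R, h1, ?_⟩
  simp only [notMem_empty, false_imp_iff, implies_true, filter_true, empty_union] at h2
  rw [← h2]
  refine sum_congr rfl fun x _ => (ml _ T P.a _ _).2.1 _ fun p h j => ?_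
  obtain ⟨p1, -, -, k, p6⟩ := hs p h
  have m := nb_mid (s := 1) p1 (hz x).1.pos.ne' j
  rw [RK, RG, hz_iff ok.toOk p1 (by simpa using cmd_one p1) p6 (hz x).1.iv m.1.le m.2, Vt, one_mul,
    Nat.cast_one, mul_one]
  rfl

end Pool.Agent.T10
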