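import Pool.Agent.Lib.MP_696deb_nt.B10.EY
import Pool.Agent.Lib.MP_696deb_nt.B10.TKZ

/-! The sum of the half operators over all classes, exactly. -/

set_option autoImplicit false

open NumberTheorySymbols Finset Function
open scoped Classical

namespace Pool.Agent.T10.KZ
open Pool.Agent.Lib.MP_696deb_nt Pool.Agent.Lib.MP_696deb_nt.B2 Pool.Agent.Lib.MP_696deb_nt.B2.CM
  Pool.Agent.B4.GE
open Pool.Agent.Lib.MP_696deb_nt.B3.CM (th St Gd st_of_isIv isIv_of_not_st mid_idl st_idl sum_nb fs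
  exists_frob_idl)
open Pool.Agent.B4 (OkN HgN)
open Pool.Agent.B6 (Cs Cw Wu NN EN yA_EN)
open Pool.Agent.B6.CM (yA hg_nb jC_yA yC_cl okN_mul trA_split)

theorem q_step {X Y A : Type} [Fintype X] [CommGroup X] [Fintype Y] [AddCommGroup A] (π : Y → X)
    (F : X → ℤ) (u : X → A) (v : Y → A) (U : X) (a : ℤ) (θ : Y → ℤˣ) (σ : ℤˣ)
    (tr : ∀ x, ∑ y with π y = x, v y = a • u x - u (U * x) - u (U⁻¹ * x))
    (hF : ∀ x, F (U * x) = F (U⁻¹ * x)) :
    2 • ∑ y, (if θ y = σ then F (π y) else 0) • v y = a • ∑ x, F x • u x -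
      2 • ∑ x, F (U * x) • u x + (σ : ℤ) • ∑ y, (θ y * F (π y)) • v y := by
  have e1 : ∑ y, F (π y) • v y =
      a • ∑ x, F x • u x - ∑ x, F (U⁻¹ * x) • u x - ∑ x, F (U * x) • u x := by
    rw [← sum_fiberwise univ π, ← Equiv.sum_comp (Equiv.mulLeft U) fun x => F (U⁻¹ * x) • u x,
      ← Equiv.sum_comp (Equiv.mulLeft U⁻¹) fun x => F (U * x) • u x, smul_sum,
      ← sum_sub_distrib, ← sum_sub_distrib]
    refine sum_congr rfl fun x _ => ?_
    rw [sum_congr rfl fun y hy => by rw [(mem_filter.1 hy).2], ← smul_sum, tr]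
    simp only [Equiv.coe_mulLeft, inv_mul_cancel_left, mul_inv_cancel_left]
    module
  simp only [← hF] at e1
  rw [two_nsmul (∑ x, F (U * x) • u x), ← sub_sub, ← e1, smul_sum, smul_sum, ← sum_add_distrib]
  refine sum_congr rfl fun y _ => ?_
  rcases Int.units_eq_one_or (θ y) with h | h <;> rcases Int.units_eq_one_or σ with rfl | rfl <;>
    simp [h, two_nsmul]

variable {n c l p : ℕ} {r k : ℤ} {b : ℕ → ℤ} {z : ℂ}

/-- The weight of a class. -/
noncomputable def wq (n e : ℕ) (C T : Finset ℕ) (η : ℕ → ℤˣ) (x : Pc n e) : ℤ :=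
  if ∀ p ∈ C, th n e p x = η p then ((∏ p ∈ T, th n e p x : ℤˣ) : ℤ) else 0

variable [Cs] {P : Par Wu NN} [∀ c, Fintype (Pc n c)]

variable (P) in
/-- The sum over a genus. -/
noncomputable def Sz (b : ℕ → ℤ) (C T : Finset ℕ) (η s : ℕ → ℤˣ) (z : Pc n c → ℂ) : B6.EE :=
  ∑ x with ∀ p ∈ C, th n c p x = η p, Dz P T (z x) (RG n c b s (z x))

theorem step (ml : MLStmt) (lv : LVStmt) (lw : LWStmt) {T C : Finset ℕ} (hl : l ∉ T)
    (η s : ℕ → ℤˣ) {z : Pc n c → ℂ} (hc : c = ∏ p ∈ C, p) (ok : OkN NN n c r)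
    (h4 : ∀ p ∈ C, p % 4 = 1) (hC : ∀ p ∈ insert l T, p ∉ C ∧ ¬ p ∣ c) (hp : Tp NN (insert l T))
    (hs : Ts n b (insert l T)) (hz : ∀ x, HgN NN n c r (z x) ∧ cl _ (sp2 (z x) 1) = x) :
    ∃ (z₁ : Pc n c → ℂ) (z₂ : Pc n (c * l) → ℂ),
      (∀ x, HgN NN n c r (z₁ x) ∧ cl _ (sp2 (z₁ x) 1) = x) ∧
      (∀ x, HgN NN n (c * l) r (z₂ x) ∧ cl _ (sp2 (z₂ x) 1) = x) ∧
      Sz P b C (insert l T) η s z = -(P.a l / 2) • Sz P b C T η s z +
        (Sz P b C T (fun p => th n c p (cl _ (idl n c l (b l * c))) * η p) (fun p => th n (c * p) p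
          (cl _ (idl n (c * p) l (b l * (c * p : ℕ)))) * s p) z₁ +
        Sz P b (insert l C) T (update η l (s l)) s z₂) := by
  have lT := mem_insert_self l T
  have sub : ∀ p ∈ T, p ∈ insert l T := fun p => mem_insert_of_mem
  obtain ⟨l1, l2⟩ := hp l lT
  obtain ⟨-, l4, l5, k, l6⟩ := hs l lT
  have lc : ¬ (l : ℤ) ∣ c := mt Int.natCast_dvd_natCast.1 (hC l lT).2
  have lb : ¬ (l : ℤ) ∣ b l * c := fun e =>
    ((Nat.prime_iff_prime_int.1 l1).dvd_or_dvd e).elim l5 lc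
  have lN := l1.coprime_iff_not_dvd.2 l2
  have ne : ∀ p ∈ T, p ≠ l := fun p h => ne_of_mem_of_not_mem h hl
  have ok' := okN_mul ok l1.ne_zero lN
  have mid := fun x {p : ℕ} (h : p.Prime) i => nb_mid (s := 1) h (hz x).1.pos.ne' i
  obtain ⟨π, hπ⟩ := dz_insert ml lv lw P (fun p h => (hp p (sub p h)).1) l1 hl
  choose i0 hi0 using fun x => cmd_mid l1 (cmd_one l1) (hz x).1.pos.ne'
    (mid_idl ok.toOk l1 (root_mul l6 c) (hz x).1.iv).1
    (mid_idl ok.toOk l1 (root_mul l6 c) (hz x).1.iv).2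
  have iv0 := fun x => hi0 x ▸ st_idl ok.toOk l1 (root_mul l6 c) lb (hz x).1.iv
  obtain ⟨u, hu⟩ : ∃ u, u = cl (Oc n c) (idl n c l (b l * c)) := ⟨_, rfl⟩
  have hg0 : ∀ x, HgN NN n c r (act (rP l (i0 x)) (z x)) ∧
      cl _ (sp2 (act (rP l (i0 x)) (z x)) 1) = u * x := fun x => by
    have := hg_nb ok l1.pos (hz x).1 (i0 x) (iv0 x) lN rfl
    have i2 := st_idl ok.toOk l1 (root_mul l6 c) lb (isIv_one _)
    rw [idl_mul_ot ok.m4 (root_mul l6 c)] at i2
    rw [B6.CM.act_rP, this.2, ← hi0, cl_mul i2 (hz x).1.iv, (hz x).2, hu]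
    exact ⟨this.1, rfl⟩
  obtain ⟨ι, ι1, ι2⟩ := fib ok.toOk l1 z fun x => ⟨(hz x).1.pos, (hz x).1.iv, (hz x).2⟩
  have hg1 : ∀ x i, ¬ St n c (nb l 1 (z x) i) → HgN NN n (c * l) r (act (rP l i) (z x)) ∧
      cl (Oc n (c * l)) (sp2 (act (rP l i) (z x)) 1) = cl _ (nb l 1 (z x) i) := fun x i h => by
    rw [B6.CM.act_rP]
    exact hg_nb (m := 1) ok' l1.pos (hz x).1 i (isIv_of_not_st ok.toOk l1 (hz x).1.iv
      (mid x l1 i).1 (mid x l1 i).2 h).1 (by simp) (by ring)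
  refine ⟨fun x => act (rP l (i0 (u⁻¹ * x))) (z (u⁻¹ * x)),
    fun y => act (rP l (ι y)) (z (pj n c (c * l) y)), fun x => by simpa using hg0 (u⁻¹ * x),
    fun y => ⟨(hg1 _ _ (ι1 y).1).1, (hg1 _ _ (ι1 y).1).2.trans (ι1 y).2⟩, ?_⟩
  have s1 : ∀ x, Dz P (insert l T) (z x) (RG n c b s (z x)) =
      -(P.a l / 2) • Dz P T (z x) (RG n c b s (z x)) +
      (Dz P T (act (rP l (i0 x)) (z x)) (RG n c b (fun p => th n (c * p) p
        (cl _ (idl n (c * p) l (b l * (c * p : ℕ)))) * s p) (act (rP l (i0 x)) (z x))) +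
      ∑ i with ¬ St n c (nb l 1 (z x) i),
        if th n (c * l) l (cl (Oc n (c * l)) (nb l 1 (z x) i)) = s l then
          Dz P T (act (rP l i) (z x)) (RG n (c * l) b s (act (rP l i) (z x))) else 0) := fun x => by
    obtain ⟨q1, q2⟩ := hπ (z x) (hz x).1.pos
    have q3 : (univ.filter fun i => RG n c b s (z x) l i) =
        insert (i0 x) (univ.filter fun i => Vt n c l (s l) (nb l 1 (z x) i)) := by
      ext i
      rw [mem_insert, mem_filter, mem_filter, RG, hz_iff ok.toOk l1 lc l6 (hz x).1.iv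
        (mid x l1 i).1.le (mid x l1 i).2, hi0, (nb_inj l1 (cmd_one l1) (hz x).1.pos.ne').eq_iff]
      simp
    rw [q2, q3, sum_insert fun e => (mem_filter.1 e).2.1 (st_of_isIv ok.m4 (iv0 x)), ← sum_filter,
      filter_filter]
    have q4 : ∀ p ∈ T, ¬ (p : ℤ) ∣ c := fun p h =>
      mt Int.natCast_dvd_natCast.1 (hC p (sub p h)).2
    congr 2
    · refine ((ml _ T P.a _ _).2.1 _ fun p h j => ?_).symm
      obtain ⟨p1, p4, -, k', p6⟩ := hs p (sub p h)
      obtain ⟨j, rfl⟩ := (π (i0 x) p).surjective j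
      rw [Equiv.symm_apply_apply]
      exact rg_tr lv ok.toOk ok.toOk p1 l1 (ne p h) (q4 p h) p6 (hz x).1.pos (hz x).1.iv
        (hg0 x).1.iv (q1 _ p h j) (vt_hor ok.toOk p1 l1 (ne p h) (hz x).1.iv (mid x p1 j).1
          (mid x p1 j).2 (mid x l1 _).1 (mid x l1 _).2 l6 lb (hi0 x).symm)
    refine sum_congr (filter_congr fun _ _ => Iff.rfl) fun i hi =>
      ((ml _ T P.a _ _).2.1 _ fun p h j => ?_).symm
    obtain ⟨p1, p4, -, k', p6⟩ := hs p (sub p h)
    obtain ⟨j, rfl⟩ := (π i p).surjective j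
    rw [Equiv.symm_apply_apply]
    have v := (mem_filter.1 hi).2.1
    exact rg_tr lv ok.toOk ok'.toOk p1 l1 (ne p h) (q4 p h) p6 (hz x).1.pos (hz x).1.iv
      (hg1 x i v).1.iv (q1 _ p h j) (vt_vert ok.toOk p1 l1 (ne p h) p4 (hz x).1.iv (mid x p1 j).1
        (mid x p1 j).2 (mid x l1 _).1 (mid x l1 _).2 v)
  rw [Sz, sum_congr rfl fun x _ => s1 x, sum_add_distrib, sum_add_distrib, ← smul_sum, ← hu]
  congr 2
  · exact sum_equiv (Equiv.mulLeft u) (fun x => by simp) fun x _ => by simp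
  rw [sum_congr rfl fun x _ => ι2 x fun x i =>
    if th n (c * l) l (cl (Oc n (c * l)) (nb l 1 (z x) i)) = s l then
      Dz P T (act (rP l i) (z x)) (RG n (c * l) b s (act (rP l i) (z x))) else 0,
    sum_fib, ← sum_filter, filter_filter]
  refine sum_congr (filter_congr fun y _ => ?_) fun _ _ => rfl
  rw [(ι1 y).2, forall_mem_insert, update_self, and_comm]
  refine and_congr_right fun _ => forall₂_congr fun p h => ?_
  rw [update_of_ne (ne_of_mem_of_not_mem h (hC l lT).1), (gd ok.toOk (h4 p h)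
    (hc ▸ dvd_prod_of_mem _ h)).th_pj ok'.toOk (dvd_mul_right _ _)]

theorem exact (ml : MLStmt) (lv : LVStmt) (lw : LWStmt) (G : Geo P) (T : Finset ℕ) :
    ∀ (C : Finset ℕ) (c e : ℕ) (η s : ℕ → ℤˣ) (z : Pc n c → ℂ), c = ∏ p ∈ C, p →
    e = c * ∏ p ∈ T, p → OkN NN n c r →
    (∀ p ∈ C, p % 4 = 1) → (∀ p ∈ T, p ∉ C ∧ ¬ p ∣ c) → Tp NN T → Ts n b T →
    (∀ l ∈ T, 4 ∣ P.a l) → (∀ x, HgN NN n c r (z x) ∧ cl _ (sp2 (z x) 1) = x) →
    (∃ μ : Gn, (∀ p ∈ μ.support, p.1 ⊆ C ∪ T) ∧ Sz P b C T η s z = Zm P n r μ) ∧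
      2 ^ T.card • Sz P b C T η s z =
        ((∏ p ∈ T, s p : ℤˣ) : ℤ) • ∑ x, wq n e C T η x • yA P n e r x := by
  induction T using Finset.induction_on with
  | empty =>
    rintro C _ e η s z rfl he ok - - - - - hz
    rw [prod_empty, mul_one] at he
    subst he
    have k : Sz P b C ∅ η s z = Zs P n r C η := by
      refine sum_congr rfl fun x _ => ?_
      obtain ⟨γ, g, e⟩ := (lv.2.2.2 NN ∅ (fun _ => none) (by simp)).2.2.2.2.2.1 (by simp [Tp]) 1
        ⟨by simp [dg], by simp, by simp⟩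
      have d := (lv.2.2.2 NN ∅ (fun _ => none) (by simp)).2.2.1
      have k := P.inv0 γ g _ (act_pos d (hz x).1.pos)
      rw [← act_mul _ d.ne' (hz x).1.pos, ← e, act_one] at k
      rw [Dz, ms, LS_empty, sum_singleton, prod_empty, one_smul, ptQ, ← k, yA,
        ← yC_cl P ok (hz x).1, (hz x).2]
    refine ⟨⟨Finsupp.single (C, η) 1, fun p h => ?_, ?_⟩, ?_⟩
    · rw [mem_singleton.1 (Finsupp.support_single_subset h)]
      exact subset_union_left
    · simp [k, Zm]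
    · simp [k, Zs, wq, sum_filter]
  | insert l T hl ih =>
    intro C c e η s z hc he ok h4 hC hp hs ha hz
    obtain ⟨z₁, z₂, h1, h2, k⟩ := step (P := P) ml lv lw hl η s hc ok h4 hC hp hs hz
    have lT := mem_insert_self l T
    have sub : ∀ p ∈ T, p ∈ insert l T := fun p => mem_insert_of_mem
    obtain ⟨l1, l2⟩ := hp l lT
    obtain ⟨-, l4, l5, j, l6⟩ := hs l lT
    have ne : ∀ p ∈ T, p ≠ l := fun p h => ne_of_mem_of_not_mem h hl
    have ok' := okN_mul ok l1.ne_zero (l1.coprime_iff_not_dvd.2 l2)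
    have pr := fun p h => (hp p (sub p h)).1
    replace ih := fun C c e η s z a0 a1 a2 a3 a4 => ih C c e η s z a0 a1 a2 a3 a4
      (fun p h => hp p (sub p h)) (fun p h => hs p (sub p h)) fun p h => ha p (sub p h)
    rw [prod_insert hl, ← mul_assoc] at he
    obtain ⟨⟨μ0, a0, b0⟩, e0⟩ := ih C c _ η s z hc rfl ok h4 (fun p h => hC p (sub p h)) hz
    obtain ⟨⟨μ1, a1, b1⟩, e1⟩ := ih C c _ _ _ z₁ hc rfl ok h4 (fun p h => hC p (sub p h)) h1
    obtain ⟨⟨μ2, a2, b2⟩, e2⟩ := ih (insert l C) (c * l) e (update η l (s l)) s z₂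
      (by rw [prod_insert (hC l lT).1, hc, mul_comm]) he ok' (by simpa using ⟨l4, h4⟩)
      (fun p h => ⟨by simp [ne p h, (hC p (sub p h)).1], fun e =>
        ((pr p h).dvd_mul.1 e).elim (hC p (sub p h)).2 fun e =>
          ne p h ((Nat.prime_dvd_prime_iff_eq (pr p h) l1).1 e)⟩) h2
    refine ⟨⟨-(P.a l / 2) • μ0 + (μ1 + μ2), fun p h => ?_, ?_⟩, ?_⟩
    · rcases mem_union.1 (Finsupp.support_add h) with h | h
      · exact (a0 p (Finsupp.support_smul h)).trans (union_subset_union_right (subset_insert _ _))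
      rcases mem_union.1 (Finsupp.support_add h) with h | h
      · exact (a1 p h).trans (union_subset_union_right (subset_insert _ _))
      · rw [union_insert, ← insert_union]
        exact a2 p h
    · rw [k, b0, b1, b2]
      simp only [Zm, ← Finsupp.linearCombination_apply, map_add, map_smul]
    obtain ⟨w, rfl⟩ := exists_plc l1
    have l2' : w.p ≠ 2 := by omega
    have hφ := fr_spec w
    have nl : ∀ p ∈ T, ¬ w.p ∣ p := fun p h e =>
      ne p h ((Nat.prime_dvd_prime_iff_eq l1 (pr p h)).1 e).symm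
    have th0 : ∀ d p : ℕ, d ≠ 0 → ¬ w.p ∣ d → p % 4 = 1 → p ∣ d → fr w ∈ GK n ∧
        th n d p (cl _ (idl n d w.p (b w.p * d))) = chi p (fr w) := fun d p d0 d1 p4 pd => by
      have o : Ok n d := ⟨ok.m4, ok.gt, d0⟩
      obtain ⟨g1, g2⟩ := exists_frob_idl o l1 l2' (root_mul l6 d) (fun e =>
        ((Nat.prime_iff_prime_int.1 l1).dvd_or_dvd e).elim l5
          (mt Int.natCast_dvd_natCast.1 d1)) rfl hφ
      refine ⟨g1, ?_⟩
      rw [← (gd o p4 pd).th g1]
      rcases g2 with g | g <;> rw [g]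
      rw [map_inv, Int.units_inv_eq_self]
    have gK := (th0 1 1 one_ne_zero l1.not_dvd_one rfl dvd_rfl).1
    have ok0 := okN_mul ok (prod_ne_zero_iff.2 fun p h => (pr p h).ne_zero) (Nat.Coprime.prod_left
      fun p h => (pr p h).coprime_iff_not_dvd.2 (hp p (sub p h)).2)
    rw [mul_right_comm] at he
    have oke : OkN NN n e r := he ▸ okN_mul ok0 l1.ne_zero (l1.coprime_iff_not_dvd.2 l2)
    have dv : ∀ p ∈ C ∪ T, Gd n (c * ∏ p ∈ T, p) p := fun p h => (mem_union.1 h).elim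
      (fun h => gd ok0.toOk (h4 p h) ((hc ▸ dvd_prod_of_mem _ h : p ∣ c).mul_right _))
      fun h => gd ok0.toOk (hs p (sub p h)).2.1 ((dvd_prod_of_mem _ h).mul_left _)
    have w0 : ∀ y, wq n e C T η y = wq n _ C T η (pj n (c * ∏ p ∈ T, p) e y) := fun y => by
      have := fun p h => (dv p h).th_pj oke.toOk (he ▸ dvd_mul_right _ _) y
      rw [wq, wq, prod_congr rfl fun p h => this p (mem_union_right _ h)]
      exact if_congr (forall₂_congr fun p h => by rw [this p (mem_union_left _ h)]) rfl rfl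
    have q := q_step (pj n _ e) (wq n (c * ∏ p ∈ T, p) C T η) _ _ _ _ (th n e w.p) (s w.p)
      (trA_split G oke he l2' (by
        rw [jacobiSym.mod_left' (a₂ := b w.p ^ 2)
          (Int.modEq_iff_dvd.2 ⟨4 * j, by push_cast at l6; linear_combination l6⟩)]
        exact jacobiSym.sq_one' (Int.isCoprime_iff_gcd_eq_one.1
          ((Nat.prime_iff_prime_int.1 l1).coprime_iff_not_dvd.2 l5).symm))
        (fun e => (l1.dvd_mul.1 e).elim (hC _ lT).2 fun e =>
          ((l1.prime.dvd_finsetProd_iff _).1 e).elim fun p h => nl p h.1 h.2) hφ)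
      fun x => by simp only [wq, map_mul, map_inv, Int.units_inv_eq_self]
    have w1 : ∀ y, wq n e (insert w.p C) T (update η w.p (s w.p)) y =
        if th n e w.p y = s w.p then wq n e C T η y else 0 := fun y => by
      rw [wq, wq, ← ite_and]
      refine if_congr ?_ rfl rfl
      rw [forall_mem_insert, update_self]
      exact and_congr_right fun _ => forall₂_congr fun p h => by
        rw [update_of_ne (ne_of_mem_of_not_mem h (hC _ lT).1)]
    have w2 : ∀ y, wq n e C (insert w.p T) η y = th n e w.p y * wq n e C T η y := fun y => by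
      rw [wq, wq, prod_insert hl, mul_ite, mul_zero, Units.val_mul]
    have w3 : ∀ x, wq n (c * ∏ p ∈ T, p) C T η (rho n _ (fr w) * x) =
        ((∏ p ∈ T, chi p (fr w) : ℤˣ) : ℤ) * wq n _ C T (fun p => th n c p
          (cl _ (idl n c w.p (b w.p * c))) * η p) x := fun x => by
      rw [wq, wq, mul_ite, mul_zero, ← Units.val_mul, ← prod_mul_distrib]
      refine if_congr (forall₂_congr fun p h => ?_) (congrArg _ (prod_congr rfl fun p h => by
        rw [map_mul, (dv p (mem_union_right _ h)).th gK])) rfl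
      rw [map_mul, (dv p (mem_union_left _ h)).th gK, (th0 c p ok.ne (hC _ lT).2 (h4 p h)
        (hc ▸ dvd_prod_of_mem _ h)).2, ← eq_inv_mul_iff_mul_eq, Int.units_inv_eq_self]
    rw [prod_congr (g := fun p : ℕ => chi p (fr w) * s p) rfl fun p h => by
      rw [(th0 (c * p) p (mul_ne_zero ok.ne (pr p h).ne_zero) (fun e => (l1.dvd_mul.1 e).elim
        (hC _ lT).2 (nl p h)) (hs p (sub p h)).2.1 (dvd_mul_left _ _)).2], prod_mul_distrib,
      Units.val_mul, mul_smul, smul_comm ((∏ p ∈ T, chi p (fr w) : ℤˣ) : ℤ),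
      smul_sum (r := ((∏ p ∈ T, chi p (fr w) : ℤˣ) : ℤ))] at e1
    simp only [smul_smul, ← w3] at e1
    simp only [← w0, ← w1, ← w2] at q
    obtain ⟨t, ht⟩ := ha _ lT
    rw [card_insert_of_notMem hl, pow_succ', mul_smul, k, smul_add (2 ^ _), smul_add (2 ^ _),
      smul_comm (2 ^ _), e0, e1, e2, prod_insert hl, Units.val_mul, ht,
      show 4 * t / 2 = 2 * t by omega]
    rw [ht] at q
    linear_combination (norm := module) ((∏ p ∈ T, s p : ℤˣ) : ℤ) • q

end Pool.Agent.T10.KZ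

namespace Pool.Agent.T10
open Pool.Agent.Lib.MP_696deb_nt.B2.CM KZ

theorem k2_stmt (ml : MLStmt) (lv : LVStmt) (lw : LWStmt) : K2Stmt := by
  intro _ P n _ r b T z ok _ hp hs ha hz
  obtain ⟨G⟩ := P.geo
  obtain ⟨h1, h2⟩ := KZ.exact ml lv lw G T ∅ 1 _ 1 1 z rfl (one_mul _).symm ok (by simp)
    (fun p h => ⟨by simp, (hp p h).1.not_dvd_one⟩) hp hs ha hz
  have e : ∑ x, Dz P T (z x) (RK n b (z x)) = Sz P b ∅ T 1 1 z := by
    simp only [Sz, notMem_empty, false_imp_iff, implies_true, filter_true]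
    refine sum_congr rfl fun x _ => (ml _ T P.a _ _).2.1 _ fun p h j => ?_
    obtain ⟨p1, -, -, k, p6⟩ := hs p h
    have m := nb_mid (s := 1) p1 (hz x).1.pos.ne' j
    rw [RK, RG, hz_iff ok.toOk p1 (by simpa using cmd_one p1) p6 (hz x).1.iv m.1.le m.2, Vt,
      one_mul, Nat.cast_one, mul_one]
    rfl
  rw [e]
  exact ⟨by simpa using h1, by simpa [wq] using h2⟩

end Pool.Agent.T10
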