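import Pool.Agent.Lib.MP_696deb_nt.B10.ZC
import Pool.Agent.Lib.MP_696deb_nt.B7.KL7a
import Pool.Agent.Lib.MP_696deb_nt.B7.CMg
import Pool.Agent.Lib.MP_696deb_nt.B7.GZ7z

/-! The converse theorem from the seeds. -/

set_option autoImplicit false

open scoped Classical
open Finset NumberTheorySymbols

namespace Pool.Agent.T10

open Pool.Agent.Lib.MP_696deb_nt Pool.Agent.Lib.MP_696deb_nt.B2 Pool.Agent.Lib.MP_696deb_nt.B2.CM
  Pool.Agent.B6 Pool.Agent.B6.B7 Pool.Agent.B4.GE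
open Pool.Agent.Lib.MP_696deb_nt.B3 (pchr_kro)

theorem kc_prime {N : ℕ} (hN : Odd N) (B : ℕ) :
    ∃ q > B, q.Prime ∧ q % 8 = 3 ∧ 4 * (N : ℤ) ∣ 1 ^ 2 + q := by
  obtain ⟨m, rfl⟩ := hN
  obtain ⟨q, q1, q2, q3⟩ := Nat.forall_exists_prime_gt_and_zmodEq B (q := 8 * (2 * m + 1))
    (a := 8 * m + 3) (by omega) ⟨-(8 * m + 5), 4 * m + 2, by push_cast; ring⟩
  obtain ⟨k, hk⟩ := q3.dvd
  push_cast at hk
  exact ⟨q, q1, q2, by have : 8 * (2 * (m : ℤ) + 1) * k = 8 * ((2 * m + 1) * k) := by ring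
                       omega, 1 - 2 * k, by push_cast; linear_combination -hk⟩

theorem kc_stmt (co : COStmt) : KCStmt := by
  intro _ T D G d M nw htr ha hM hd d1 M0 sd hc
  obtain ⟨F⟩ := m_cft
  have d0 := hd.ne_zero
  have N0 := NN_pos
  obtain ⟨q, qB, hq, q8, hr⟩ := kc_prime NN_odd (d.natAbs + M + 4 * NN ^ 2 + NN + 3)
  have nd : ∀ {p m : ℕ}, m ≠ 0 → m < p → ¬ p ∣ m := fun h0 h1 k =>
    absurd (Nat.le_of_dvd h0.bot_lt k) (by omega)
  have cp : ∀ {p : ℕ}, p.Prime → d.natAbs < p → IsCoprime d p := fun hp k =>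
    ((Nat.prime_iff_prime_int.1 hp).coprime_iff_not_dvd.2 fun j =>
      nd (by omega) k (Int.natCast_dvd.1 j)).symm
  have qN : q.Coprime NN := hq.coprime_iff_not_dvd.2 (nd NN_ne (by omega))
  have fq := cp hq (by omega)
  have f3 : IsCoprime (3 * d) q := .mul_left (Nat.isCoprime_iff_coprime.2
    ((Nat.coprime_primes Nat.prime_three hq).2 (by omega))) fq
  obtain ⟨o, o4, o1, o2, o3⟩ := kl_part (N := NN) (mul_ne_zero three_ne_zero d0)
  obtain ⟨l, l1, l2, l3, l8, lN, lq, lf, h'⟩ := exists_aux T hq q8 qN o4 o2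
    (f3.of_isCoprime_of_dvd_left o1) (d₁ := d * -q) (mul_ne_zero d0 (by omega))
    (2 * NN + q + d.natAbs)
  have lN' : l.Coprime NN := l1.coprime_iff_not_dvd.2 (nd NN_ne (by omega))
  have n8 : q * l % 8 = 3 := by rw [Nat.mul_mod, q8, l8]
  obtain ⟨β, hβ⟩ := kl_root NN_sqf NN_odd (x := l) (by omega) fun p _ k => lN p k
  have root : 4 * (NN : ℤ) ∣ β ^ 2 + (q * l : ℕ) := by
    rw [show β ^ 2 + (q * l : ℕ) = (1 ^ 2 + q) * β ^ 2 - q * (β ^ 2 - l) by push_cast; ring]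
    exact dvd_sub (hr.mul_right _) (hβ.mul_left q)
  have hn : B6.Nok (q * l) := ⟨⟨(Nat.squarefree_mul ((Nat.coprime_primes hq l1).2 (by omega))).2
    ⟨hq.squarefree, l1.squarefree⟩, by omega, qN.mul_left lN'⟩, n8, lt_of_lt_of_le (by omega) (Nat.le_mul_of_pos_right q l1.pos),
    ⟨_, root⟩, kl_condB hq l1 lq⟩
  have sp : ∀ p : ℕ, p.Prime → p ≠ 2 → (p : ℤ) ∣ 3 * d → J(-(q * l : ℕ) | p) = 1 := fun p p1 p3 p4 => by
    by_cases k : p ∣ NN
    · exact jac_root hn.good.cop root k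
    rw [Nat.cast_mul, ← neg_mul, jacobiSym.mul_left, lf p (o3 p p1 p4 fun j => (p1.dvd_mul.1 j).elim
      (fun j => p3 ((Nat.prime_dvd_prime_iff_eq p1 Nat.prime_two).1 j)) k), ← sq]
    exact jacobiSym.sq_one (Int.isCoprime_iff_gcd_eq_one.1
      (f3.of_isCoprime_of_dvd_left p4).symm.neg_left)
  have hf : B7.Fok (q * l) d := ⟨hd, fun p p1 p2 =>
    sp p p1 ((dvd_od d0 p1).1 p2).1 (((dvd_od d0 p1).1 p2).2.mul_left _)⟩
  have n3 : q * l % 3 = 2 := by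
    have k := sp 3 Nat.prime_three (by decide) (dvd_mul_right _ _)
    rw [jacobiSym.mod_left] at k
    generalize q * l = n at k
    obtain j | j | j : n % 3 = 0 ∨ n % 3 = 1 ∨ n % 3 = 2 := by omega
    · rw [show (-(n : ℤ)) % (3 : ℕ) = 0 by omega] at k
      norm_num at k
    · rw [show (-(n : ℤ)) % (3 : ℕ) = 2 by omega] at k
      norm_num at k
    · exact j
  have fn : IsCoprime d (q * l : ℕ) := by
    rw [Nat.cast_mul]
    exact fq.mul_right (cp l1 (by omega))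
  obtain ⟨S, hS⟩ := cm_stmt F D G nw (fun l _ _ => ha l) hM _ _ hn root
  obtain ⟨-, Y, -, -, -, y4⟩ := hS d hf
  let _ : ∀ c, Fintype (Pc (q * l) c) := fun c =>
    @Fintype.ofFinite _ (finite_Pc (by omega) hn.gt c)
  have ee' : (1 : ℤ) * (-q * l) = -((q * l : ℕ) : ℤ) := by
    push_cast
    ring
  have e4' : (-q * l : ℤ) % 4 = 1 := by
    rw [Int.mul_emod, show (-q : ℤ) % 4 = 1 by omega, show (l : ℤ) % 4 = 1 by omega]; rfl
  rw [mul_assoc] at h'
  obtain ⟨hy, hz⟩ := co T D G nw ha hM (q * l) β d 1 _ hn root hf ee' rfl (by rwa [mul_one]) h'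
    (sd q l β hq q8 (by omega) (nd M0 (by omega)) l1 l8 lq (by
      rw [← jacobiSym.quadratic_reciprocity_one_mod_four (by omega) NN_odd, lN _ dvd_rfl]) l3 hn n3 root)
  obtain ⟨U, hU⟩ := exists_hrc hn.pos hd β
  replace hy : ¬ IsOfFinAddOrder (Y.ychi 1) := fun k =>
    hy U hU (y4 U 1 hU (one_dvd _) rfl ▸ fi_jC.2 k.nsmul)
  have fin := (m_rank d0 hc).1
  have an : G5.AnR _ _ (analyticOrderAt (LKr D.par.F d) 1) :=
    md_anrX D nw (pchr_kro hd) (sh_ne d0) (trs_all htr hd)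
  have df := (LKr_diff (G5.md_ci D) D.N0 hd).analyticAt 1
  rw [mul_one] at hz
  rcases nw_cases nw d0 with w | w
  · have w' : rootNo D.c NN (d * (-q * l)) = -1 := by
      rw [← root_pair nw d0 hn ee', mul_one, w, one_mul]
    obtain ⟨k1, k2⟩ := kl_branch T G7.gz_stmt G7.cj_stmt nw ha hn hf fn root Y y4 ee' rfl e4' w'
      (ychi_symm Y ee' rfl e4' ▸ hy)
    rw [if_pos w]
    rw [mul_one] at k2
    rw [df.analyticOrderAt_eq_zero.mpr (k2 d1).1] at an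
    exact ⟨an, fin, fi_finrank d0 hc fun k =>
      hz ⟨k, (m_nz (mul_ne_zero d0 (by omega)) h').2 k1⟩⟩
  · obtain ⟨⟨Q, q1, q2⟩, k2⟩ := kl_branch T G7.gz_stmt G7.cj_stmt nw ha hn hf fn root Y y4
      ((mul_comm _ _).trans ee') e4' rfl (by rwa [mul_one]) hy
    rw [if_neg (by omega)]
    rw [mul_one] at k2 q2
    rw [df.analyticOrderAt_eq_one_of_zero_deriv_ne_zero (LKr_zero nw NN_sqf NN_odd hd w)
      (k2 fun k => l1.ne_one (by
        have := Int.isUnit_iff_natAbs_eq.1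
          (isUnit_of_dvd_one ⟨d * -q, by rw [← k]; ring⟩ : IsUnit (l : ℤ))
        simpa using this)).2] at an
    exact ⟨an, fin, fi_finrank_one d0 hc q1 q2⟩

end Pool.Agent.T10
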