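import Pool.Agent.Lib.MP_696deb_nt.B10.EY
import Pool.Agent.Lib.MP_696deb_nt.B10.E2

/-! The seeds for even twists. -/

set_option autoImplicit false

open NumberTheorySymbols Finset
open scoped Classical

namespace Pool.Agent.T10
open Pool.Agent.Lib.MP_696deb_nt Pool.Agent.Lib.MP_696deb_nt.B2 Pool.Agent.Lib.MP_696deb_nt.B2.CM
  Pool.Agent.B6 Pool.Agent.B8 Pool.Agent.B4.GE
open Pool.Agent.Lib.MP_696deb_nt.B3.CM (th)
open Pool.Agent.B6.B7.Dn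
open Pool.Agent.B6.CM (yA)

theorem sc_sum [Cw] {n : ℕ} [∀ c, Fintype (Pc n c)] (μ : Gn) (y : ∀ c, Pc n c → B6.EE) :
    ∑ i ∈ μ.support.sigma (fun p => univ.filter fun x : Pc n (∏ l ∈ p.1, l) =>
      ∀ l ∈ p.1, th n (∏ l ∈ p.1, l) l x = p.2 l), μ i.1 • y _ i.2 =
    ∑ p ∈ μ.support, μ p • ∑ x : Pc n (∏ l ∈ p.1, l) with
      ∀ l ∈ p.1, th n (∏ l ∈ p.1, l) l x = p.2 l, y _ x := by
  simp only [sum_sigma, smul_sum]

theorem sc_stmt (fc : FCStmt) : SCStmt := by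
  intro _ P ha ev h2
  obtain ⟨G⟩ := P.geo
  obtain ⟨B, hB⟩ := E9.loc_two G ha ev
  refine ⟨B, fun n _ r δ nB n3 hn hr hδ ⟨C, hC⟩ => ⟨C, fun m m0 mN => ?_⟩⟩
  obtain ⟨T, μ, v, t1, t2, t3, hv, t4⟩ := hC m m0 mN
  have nd : ∀ U ⊆ T, ∀ p : ℕ, p.Prime → p ∣ ∏ l ∈ U, l → ¬ p ∣ 2 * NN := fun U hU p hp k => by
    obtain ⟨l, hl, k⟩ := (hp.prime.dvd_finsetProd_iff _).1 k
    rw [(Nat.prime_dvd_prime_iff_eq hp (t2 l (hU hl)).1).1 k]
    exact nd_of_MM (t2 l (hU hl)).2.1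
  have ok : ∀ U ⊆ T, OkD NN n (∏ l ∈ U, l) r := fun U hU =>
    ⟨⟨hn.good.mod4, hn.gt, prod_ne_zero_iff.2 fun l hl => (t2 l (hU hl)).1.ne_zero⟩, hr, hn.good.cop⟩
  have o2 : ∀ U ⊆ T, ¬ 2 ∣ ∏ l ∈ U, l := fun U hU k =>
    nd U hU 2 Nat.prime_two k (dvd_mul_right _ _)
  have od : ∀ U ⊆ T, Odd (∏ l ∈ U, l) := fun U hU =>
    Nat.not_even_iff_odd.1 fun k => o2 U hU k.two_dvd
  obtain ⟨p, hp, k⟩ : ∃ p ∈ μ.support, B6.Od (Zb P n r 2 p.1 p.2) := by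
    by_contra! k
    simp only [B6.Od, not_forall, not_not, exists_prop] at k
    choose! R r1 r2 using k
    have e : 2 • ∑ p ∈ μ.support, μ p • R p = ∑ p ∈ μ.support, μ p • Zb P n r 2 p.1 p.2 := by
      rw [smul_sum]
      exact sum_congr rfl fun p hp => by rw [smul_comm, r2 p hp]
    have hR : ∑ p ∈ μ.support, μ p • R p ∈ EN := sum_mem fun p hp => zsmul_mem (r1 p hp) _
    refine hB n r v hn.good.sqf hn.m8 n3 nB ((ok T Subset.rfl).of_ne one_ne_zero) hv _ _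
      (fun i : Σ p : Finset ℕ × (ℕ → ℤˣ), Pc n (∏ l ∈ p.1, l) => ∏ l ∈ i.1.1, l) (fun i => i.2)
      (fun i => μ i.1) (fun i hi => od _ (t3 _ (mem_sigma.1 hi).1))
      (fun S hS j => t4 S hS (j.trans (sc_sum μ fun c => yA P n c r))) _ (fun g hg hc => ?_)
      (e.trans (sc_sum μ (yB P r 2)).symm)
    refine sub_eq_zero.1 (h2 _ (sub_mem (EN_smul hR g) hR) ?_)
    rw [smul_sub, smul_comm, e, sub_eq_zero, smul_sum]
    refine sum_congr rfl fun p hp => ?_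
    rw [smul_comm, Zb, smul_sum]
    refine congrArg _ (sum_congr rfl fun x _ => ?_)
    rw [gv_yB G (ok _ (t3 p hp)) hn.m8 dvd_rfl (o2 _ (t3 p hp)) g (D9.SysA.ine hn.m8 hv hg), hc,
      E9.fix (ok _ (t3 p hp)).toOk hn.m8 (od _ (t3 p hp)) hv hg, one_mul, Units.val_one, one_smul]
  have hU := t3 p hp
  refine ⟨p.1, p.2, (card_le_card hU).trans t1, fun l hl => t2 l (hU hl), ?_⟩
  rcases hδ with rfl | rfl
  · exact k
  choose S s1 s2 using fun x => fc P n (∏ l ∈ p.1, l) r x (ok _ hU) hn.m8 ev (o2 _ hU)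
    (Nat.coprime_of_dvd fun q hq j j' => nd _ hU q hq j (j'.mul_left _))
  have := od_add k (sum_mem fun x (_ : x ∈ univ.filter fun x =>
    ∀ l ∈ p.1, th n (∏ l ∈ p.1, l) l x = p.2 l) => s1 x)
  simpa only [Zb, s2, sum_add_distrib, smul_sum] using this

end Pool.Agent.T10
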