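import Pool.Agent.Lib.MP_696deb_nt.B10.Z0
import Pool.Agent.Lib.MP_696deb_nt.B8.ZE
import Pool.Agent.Lib.MP_696deb_nt.B3.CMf
import Pool.Agent.Lib.MP_696deb_nt.B6.TAj

/-! The value of the half operators at the fixed point of the involution of Fricke: statements. -/

set_option autoImplicit false

open NumberTheorySymbols Finset Function Complex
open scoped Classical NNReal Real

namespace Pool.Agent.T10
open Pool.Agent.Lib.MP_696deb_nt Pool.Agent.Lib.MP_696deb_nt.B2 Pool.Agent.Lib.MP_696deb_nt.B2.CM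
  Pool.Agent.B6 Pool.Agent.B8 Pool.Agent.B4.GE
open Pool.Agent.Lib.MP_696deb_nt.B3.CM (th)
open Pool.Agent.B6.D9 (tt dd)

/-- The weight of the projection to the residues. -/
noncomputable def Ps (l m : ℕ) : ℤ :=
  if l ∣ m then (l + 1) / 2 else if J(m | l) = 1 then 1 else 0

/-- The series converges. -/
def Sg (g : ℕ → ℤ) : Prop := ∀ z : ℂ, 0 < z.im → Summable fun k : ℕ => (g k : ℂ) * q1 (k * z / 2)

/-- The residues, or the nonresidues, together with one of the two remaining neighbours. -/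
def Rq (s : ℕ → ℤ) (e : ℕ → Prop) (l : ℕ) : Option (Fin l) → Prop
  | none => e l
  | some k => if (k : ℕ) = 0 then ¬ e l else J((k : ℕ) | l) = s l

/-- The coefficients of the translates of the theta series. -/
noncomputable def Cc (γ : ℕ → ℂ) (s : ℕ → ℤ) (l : ℕ) : Option (Option (Fin l)) → ℂ
  | none => 0
  | some none => (γ l - 1) / 2
  | some (some k) => if (k : ℕ) = 0 then (γ l + 1) / 2 else if J((k : ℕ) | l) = s l then 1 else 0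

/-- The first digit of the unit of Weber does not vanish. -/
def UW (n : ℕ) [∀ c, Fintype (Pc n c)] (ψ : Pc n 2 →* Z3) (V : Valuation ℂ ℝ≥0) (T : Finset ℕ) :
    Prop := ∀ t : Pc n (2 * ∏ l ∈ T, l) → ℂ, (∀ x, Rp n (2 * ∏ l ∈ T, l) (t x) x) →
  ¬ V (((Real.exp (1 / 6 * ∑ x with ∀ l ∈ T, th n (2 * ∏ l ∈ T, l) l x = 1,
    bw (ψ (pj n 2 (2 * ∏ l ∈ T, l) x)) * H3.T.Lam (t x)) : ℝ) : ℂ) - 1) ^ 3 < V 2 ^ 2

/-- Sets of inert primes. -/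
def Ti (n : ℕ) (T : Finset ℕ) : Prop := ∀ l ∈ T, l.Prime ∧ l % 4 = 1 ∧ J(-n | l) = -1

theorem Tk.ti {N : ℕ} {a : ℕ → ℤ} {T : Finset ℕ} (h : Tk N a T) : Ti N T := fun l hl =>
  ⟨h.prime l hl, by have := h.m8 l hl; omega, h.inn l hl⟩

/-- The numbers of representations above a class. -/
def CAStmt : Prop := ∀ (n c e l : ℕ) [Fintype (Pc n e)] (x : Pc n c) (m : ℕ), Ok n c →
  Squarefree n → e = c * l → l.Prime → l % 4 = 1 → J(-n | l) = -1 → ¬ l ∣ c →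
  ∑ y with pj n c e y = x ∧ th n e l y = 1, (rC n e y m : ℤ) = Ps l m * rC n c x m

/-- The sum over the principal genus. -/
def CTStmt : Prop := ∀ (n : ℕ) [∀ c, Fintype (Pc n c)] (T : Finset ℕ) (W : Pc n 2 → ℤ) (m : ℕ),
  Nk n → Ti n T → ∑ x with ∀ l ∈ T, th n (2 * ∏ l ∈ T, l) l x = 1,
    W (pj n 2 (2 * ∏ l ∈ T, l) x) * rC n (2 * ∏ l ∈ T, l) x m =
    (∑ y, W y * rC n 2 y m) * ∏ l ∈ T, Ps l m

/-- The value of the projected series. -/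
def LSStmt : Prop := ∀ (n : ℕ) [∀ c, Fintype (Pc n c)] (ψ : Pc n 2 →* Z3) (g : ℕ → ℤ)
  (T : Finset ℕ) (t : Pc n (2 * ∏ l ∈ T, l) → ℂ), Nk n → Ti n T → (∀ k, gS ψ k = 2 * g k) →
  (∀ x, Rp n (2 * ∏ l ∈ T, l) (t x) x) → Sg g ∧
  2 * Th (fun m => g m * ∏ l ∈ T, Ps l m) (x0 n / (∏ l ∈ T, l : ℕ)) =
    ((∑ x with ∀ l ∈ T, th n (2 * ∏ l ∈ T, l) l x = 1,
      bw (ψ (pj n 2 (2 * ∏ l ∈ T, l) x)) * Pz (t x) : ℝ) : ℂ)

/-- The projected series is not small. -/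
def UPStmt : Prop := ∀ (n : ℕ) [∀ c, Fintype (Pc n c)] (ψ : Pc n 2 →* Z3) (g : ℕ → ℤ)
  (V : Valuation ℂ ℝ≥0) (T : Finset ℕ), Nk n → Ti n T → Ram ψ → (∀ k, gS ψ k = 2 * g k) →
  V 2 < 1 → UW n ψ V T → V (jf (x0 n)) < 1 ∧
  1 ≤ V (Th (fun m => g m * ∏ l ∈ T, Ps l m) (x0 n / (∏ l ∈ T, l : ℕ)) ^ 12 / Dl (x0 n))

/-- One prime of the expansion in translates. -/
def GAStmt : Prop := ∀ l : ℕ, l.Prime → l % 8 = 1 → ∃ γ : ℂ, γ ^ 2 = l ∧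
  ∀ (g : ℕ → ℤ) (z : ℂ), Sg g → (∀ k, g (l * k) = if l ∣ k then g (k / l) else 0) → 0 < z.im →
    Th (fun m => g m * Ps l m) (z / l) =
      (γ - 1) / 2 * (γ * Th g (l * z)) + ∑ k : Fin l, (if (k : ℕ) = 0 then (γ + 1) / 2 else
        if J((k : ℕ) | l) = 1 then 1 else 0) * (Th g ((z + 2 * (k : ℕ)) / l) / γ)

/-- The expansion in translates. -/
def GSStmt : Prop := ∀ (T : Finset ℕ) (g : ℕ → ℤ), (∀ l ∈ T, l.Prime ∧ l % 8 = 1) → Sg g →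
  (∀ k, Even k → g k = 0) → (∀ l ∈ T, ∀ k, g (l * k) = if l ∣ k then g (k / l) else 0) →
  ∃ (γ : ℕ → ℂ) (s : ℕ → ℤ), (∀ l ∈ T, γ l ^ 2 = l ∧ (s l = 1 ∨ s l = -1)) ∧
    ∀ z : ℂ, 0 < z.im → ∃ u : Lb → ℂ,
      (∀ κ ∈ LS T, u κ ^ 2 = sl (mK T κ) (fun y => Th g y ^ 2) z) ∧
      Th (fun m => g m * ∏ l ∈ T, Ps l m) (z / (∏ l ∈ T, l : ℕ)) =
        ∑ κ ∈ LS T, (∏ l ∈ T, Cc γ s l (κ l)) * u κ

/-- Congruent forms have congruent translates. -/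
def UQStmt : Prop := ∀ (N : ℕ) (V : Valuation ℂ ℝ≥0) (F G : ℂ → ℂ) (A B : PowerSeries ℤ) (M : MZ)
  (z : ℂ), Odd N → V 2 < 1 → B5.Mk N 2 F → B5.Mk N 2 G → QE F (toC A) → QE G (toC B) →
  (∀ k, Even (A.coeff k - B.coeff k)) → 0 < z.im → V (jf z) ≤ 1 → 0 < M.det → Odd M.det →
  V (sl M F z ^ 6 / Dl z) ≤ 1 ∧ V ((sl M F z - sl M G z) ^ 6 / Dl z) < 1

/-- The square of the sum modulo two. -/
def UAStmt : Prop := ∀ (V : Valuation ℂ ℝ≥0) (T : Finset ℕ) (a s : ℕ → ℤ) (γ : ℕ → ℂ)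
  (u v : Lb → ℂ) (d : ℂ), V 2 < 1 → (∀ l ∈ T, l % 8 = 1 ∧ γ l ^ 2 = l ∧ 4 ∣ a l) →
  (∀ κ ∈ LS T, V (v κ ^ 6 / d) ≤ 1 ∧ V ((v κ - u κ ^ 2) ^ 6 / d) < 1) →
  1 ≤ V ((∑ κ ∈ LS T, (∏ l ∈ T, Cc γ s l (κ l)) * u κ) ^ 12 / d) →
  ∃ e, V (ms T (wR a (Rq s e)) v ^ 6 / d) = 1

/-- These sets are systems of representatives. -/
def RQStmt : Prop := ∀ (N : ℕ) (T : Finset ℕ) (s : ℕ → ℤ) (e : ℕ → Prop), Nk N → Fw N (x0 N) ∧
  Aj (x0 N) ∧ (Ti N T → (∀ l ∈ T, s l = 1 ∨ s l = -1) → RepF N T (x0 N) (Rq s e))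

/-- The derivative is a unit. -/
def UTStmt : Prop := ∀ [Ce] [∀ c, Fintype (Pc NN c)] (D : MD Wu NN) (k : ℤ) (ψ : Pc NN 2 →* Z3)
  (V : Valuation ℂ ℝ≥0) (T : Finset ℕ), D.k = k → Odd k → Nf8 D → Cub ψ → V 2 < 1 →
  Tk NN D.c T → UW NN ψ V T → V (jf (x0 NN)) < 1 ∧ ∃ R, RepF NN T (x0 NN) R ∧
    V ((Dd D.par T (x0 NN) R / (2 * π * I)) ^ 6 / Dl (x0 NN)) = 1

/-- The derivative of the coordinate is a unit. -/
def TDStmt : Prop := ∀ (V : Valuation ℂ ℝ≥0) (z : ℂ), V 2 < 1 → 0 < z.im → V (jf z) ≤ 1 →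
  V ((deriv tt z / (2 * π * I)) ^ 6 / Dl z) = 1

/-- The parametrization on a residue disc, to first order. -/
def DSStmt : Prop := ∀ [Ce] (D : MD Wu NN) (k : ℤ) (w : Plc) (V : Valuation ℂ ℝ≥0) (g : Gam)
  (σ : ℂ ≃+* ℂ) (L c : ℕ) (z z' : ℂ) (Q : B6.EE), D.k = k → Odd k → w.p = 2 → Ov V w →
  g ∈ Ine w → Ex g σ → Odd L → 9 ∣ L → c * NN ∣ L → G5.Pc L σ z z' → Aj z → V (jf z) < 1 →
  pmap jC Q = D.par.φ (c * z) → V (tt z' - tt z) < 1 ∧ (tt z' = tt z → jf z' = jf z) ∧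
    V (dd (fun y => D.par.F (c * y)) z) ≤ 1 ∧
    (tt z' ≠ tt z → V (jC (zc (g • Q - Q)) - dd (fun y => D.par.F (c * y)) z * (tt z' - tt z)) <
      V (tt z' - tt z))

/-- The point is moved by the inertia group at two. -/
def DGStmt : Prop := ∀ [Ce] (D : MD Wu NN) (k : ℤ) (w : Plc) (V : Valuation ℂ ℝ≥0)
  (T : Finset ℕ) (R : Rs), D.k = k → Odd k → w.p = 2 → Ov V w → Tk NN D.c T →
  V (jf (x0 NN)) < 1 → V ((Dd D.par T (x0 NN) R / (2 * π * I)) ^ 6 / Dl (x0 NN)) = 1 →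
  Dz D.par T (x0 NN) R ≠ 0

end Pool.Agent.T10
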