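import Pool.Agent.Lib.MP_696deb_nt.B10.EY
import Pool.Agent.Lib.MP_696deb_nt.B10.ZS
import Pool.Agent.Lib.MP_696deb_nt.B8.OV
import Pool.Agent.Lib.MP_696deb_nt.B7.SD7a

/-! The local seed for even twists. -/

set_option autoImplicit false

open NumberTheorySymbols Finset
open scoped Classical

namespace Pool.Agent.T10
open Pool.Agent.Lib.MP_696deb_nt Pool.Agent.Lib.MP_696deb_nt.B2 Pool.Agent.Lib.MP_696deb_nt.B2.CM
  Pool.Agent.B6 Pool.Agent.B8 Pool.Agent.B4.GE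

theorem sl_jac {N q l : ℕ} {r : ℤ} (hN : Odd N) (q8 : q % 8 = 3) (l8 : l % 8 = 1)
    (h : J(N | l) = 1) (hc : (q * l).Coprime N) (hr : 4 * (N : ℤ) ∣ r ^ 2 + (q * l : ℕ)) :
    J(-N | q) = -1 := by
  have k := B7.jac_root hc hr dvd_rfl
  have oq : Odd q := Nat.odd_iff.2 (by omega)
  rw [Nat.cast_mul, ← neg_mul, jacobiSym.mul_left,
    jacobiSym.quadratic_reciprocity_one_mod_four (by omega : l % 4 = 1) hN, h, mul_one,
    jacobiSym.neg _ hN] at k
  rw [jacobiSym.neg _ oq, ZMod.χ₄_nat_three_mod_four (by omega), neg_one_mul, neg_inj, ← k]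
  rcases Nat.odd_mod_four_iff.1 (Nat.odd_iff.1 hN) with e | e
  · rw [ZMod.χ₄_nat_one_mod_four e, one_mul, jacobiSym.quadratic_reciprocity_one_mod_four e oq]
  · rw [ZMod.χ₄_nat_three_mod_four e, neg_one_mul,
      jacobiSym.quadratic_reciprocity_three_mod_four e (by omega)]

theorem sl_stmt (cf : CFStmt) (u2 : B10.U2Stmt) (ut : UTStmt) (fx : FXStmt) (rq : RQStmt)
    (dg : DGStmt) (fs : FSStmt) (t2 : T2Stmt) : SLStmt := by
  intro _ D k M₀ hk ok hD t0 two M0 es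
  obtain ⟨M, m0, hM⟩ := t2 D.par t0 two
  refine ⟨M * M₀, mul_ne_zero m0 M0, ?_⟩
  intro q l _ r hq q8 big qM hl lM l8 lq lN nr ol cb hr
  let _ : ∀ c, Fintype (Pc NN c) := fun c =>
    @Fintype.ofFinite _ (finite_Pc (by have := nk.m8; omega) NN_gt3 c)
  obtain ⟨ψ, hψ⟩ := cf
  obtain ⟨v, hv⟩ := exists_plc Nat.prime_two
  obtain ⟨V, hV⟩ := ov_stmt v
  have V2 : V 2 < 1 := by
    have h2 := v.hV
    rw [hv] at h2
    rw [← map_ofNat jC 2, hV, show v.V 2 = 2⁻¹ by exact_mod_cast h2]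
    exact inv_lt_one_of_one_lt₀ one_lt_two
  have N0 := NN_pos
  have lN' : ¬ l ∣ NN := fun e => by
    rw [jacobiSym.mod_left, Int.emod_eq_zero_of_dvd (Int.natCast_dvd_natCast.2 e),
      jacobiSym.zero_left hl.one_lt] at lN
    omega
  have cop : (q * l).Coprime NN := (hq.coprime_iff_not_dvd.2 fun e => by
    have := Nat.le_of_dvd N0 e
    nlinarith).mul_left (hl.coprime_iff_not_dvd.2 lN')
  obtain ⟨B, hB⟩ := u2 D.c M₀ q ψ v V M0 es a1_even hψ hv hV hq (by omega)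
    (sl_jac NN_odd q8 l8 lN cop hr)
  refine ⟨B, fun m hm hc => ?_⟩
  have tk : ∀ {T : Finset ℕ}, (∀ p ∈ T, B10.Wp D.c M₀ (8 * (q * l) * m) p) → Tk NN D.c T :=
    fun h => ⟨fun p hp => (h p hp).1, fun p hp =>
      (h p hp).2.2.2.1.of_dvd ((dvd_mul_right 8 _).mul_right m), fun p hp => (h p hp).2.2.2.2.1,
      fun p hp => (h p hp).2.2.2.2.2⟩
  have ev : ∀ {T : Finset ℕ}, Tk NN D.c T → B10.Dig ψ V T → Even T.card ∧ ∃ R,
      RepF NN T (x0 NN) R ∧ Dz D.par T (x0 NN) R ≠ 0 := fun {T} h u => by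
    obtain ⟨h1, R, h2, h3⟩ := ut D k ψ V T hk ok hD hψ V2 h u
    refine ⟨(fx _ _ D.par T _ R (rq NN ∅ 1 (fun _ => True) nk).1 h h2).1 fun e => ?_, R, h2,
      dg D k v V T R hk ok hv hV h h1 h3⟩
    simp [e] at h3
  obtain ⟨T, c1, c2, c3, c4, c5⟩ := hB (8 * (q * l) * m)
    (mul_ne_zero (mul_ne_zero (by decide) (mul_ne_zero hq.ne_zero hl.ne_zero)) hm)
    ((((Nat.coprime_two_left.2 NN_odd).pow_left 3).mul_left cop).mul_left hc)
    fun T p hp h d d' => by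
      have h1 := (ev (tk h) d').1
      rw [card_insert_of_notMem hp, Nat.even_add_one] at h1
      exact h1 (ev (tk fun s hs => h s (mem_insert_of_mem hs)) d).1
  obtain ⟨e1, R, e2, e3⟩ := ev (tk c2) c4
  have md : ∀ p ∈ T, p ≡ 1 [MOD 4 * (q * l)] := fun p hp =>
    (c2 p hp).2.2.2.1.of_dvd ⟨2 * m, by ring⟩
  obtain ⟨μ, s1, s2, w, s3, s4⟩ := hM q l r T hq q8 big (fun e => qM (e.mul_right _)) hl l8 lq lN
    cb hr (tk c2) e1 md (fs D.par T R l t0 (tk c2) e1 e2 e3 hl (fun e => (hl.dvd_mul.1 e).elim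
      (fun e => by have := Nat.le_of_dvd two_pos e; have := hl.two_le; omega) lN') nr)
  have cp : ∀ p ∈ T, (q * l).Coprime p := fun p hp =>
    (Nat.coprime_of_mul_modEq_one 1 (by
      rw [mul_one]; exact (md p hp).of_dvd (dvd_mul_left _ _))).symm
  have pr := fun p hp => (c2 p hp).1
  refine ⟨T, μ, v, c1, fun p hp => ⟨pr p hp, (c2 p hp).2.1, (c2 p hp).2.2.2.1,
    (c2 p hp).2.2.2.2.2⟩, s1, hv, c5 _ _ w v s3 hv ?_ ?_ (fun p hp => ?_) (fun p p1 p2 p3 => ?_)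
      s2 s4⟩
  · rw [← neg_one_mul, ← Int.squarefree_natAbs, Int.natAbs_mul, Int.natAbs_natCast]
    rw [show (-1 : ℤ).natAbs = 1 from rfl, one_mul,
      Nat.squarefree_mul (Nat.Coprime.prod_right cp), Nat.squarefree_mul
        ((Nat.coprime_primes hq hl).2 (by rintro rfl; omega))]
    exact ⟨⟨hq.squarefree, hl.squarefree⟩, Finset.squarefree_prod_of_pairwise_isCoprime
      (fun a ha b hb e => Nat.coprime_iff_isRelPrime.1
        ((Nat.coprime_primes (pr a ha) (pr b hb)).2 e)) fun p hp => (pr p hp).squarefree⟩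
  · exact dvd_neg.2 (Int.natCast_dvd_natCast.2 ((dvd_mul_right _ _).mul_right _))
  · exact dvd_neg.2 (Int.natCast_dvd_natCast.2 ((dvd_prod_of_mem _ hp).mul_left _))
  · rw [dvd_neg, Int.natCast_dvd_natCast, p1.dvd_mul, p1.dvd_mul,
      Nat.prime_dvd_prime_iff_eq p1 hq, Nat.prime_dvd_prime_iff_eq p1 hl,
      p1.prime.dvd_finsetProd_iff] at p3
    rcases p3 with (e | rfl) | ⟨s, hs, e⟩
    · exact .inl e
    · exact .inr (.inr ⟨fun e => lM (e.mul_left _), lN', ol⟩)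
    · exact .inr (.inl ((Nat.prime_dvd_prime_iff_eq p1 (pr s hs)).1 e ▸ hs))

end Pool.Agent.T10
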