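import Pool.Agent.Lib.MP_696deb_nt.B10.ZK

/-! Intersections of neighbours at two different primes. -/

set_option autoImplicit false

open NumberTheorySymbols Finset Function
open scoped Classical

namespace Pool.Agent.T10.KZ
open Pool.Agent.Lib.MP_696deb_nt Pool.Agent.Lib.MP_696deb_nt.B2 Pool.Agent.Lib.MP_696deb_nt.B2.CM
open Pool.Agent.Lib.MP_696deb_nt.B3.CM (th St Gd st_of_isIv isIv_of_not_st mid_idl st_idl kc_odd
  st_sc)

variable {n c l p m : ℕ} {b k : ℤ} {I J L : Lt} {z : ℂ}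

theorem ndvd (hp : p.Prime) (hl : l.Prime) (h : p ≠ l) : ¬ (p : ℤ) ∣ l := fun k =>
  h ((Nat.prime_dvd_prime_iff_eq hp hl).1 (Int.natCast_dvd_natCast.1 k))

theorem mem_of_sc (h : sc p L ≤ I) {u : ℂ} (hu : u ∈ L) : p * u ∈ I := h (mem_sc.2 ⟨u, hu, rfl⟩)

theorem mem_eq {u v : ℂ} (h : u ∈ I) (e : v = u) : v ∈ I := e ▸ h

theorem nat_mul_mem {u : ℂ} (h : u ∈ I) (m : ℕ) : m * u ∈ I := by
  simpa using int_mul_mem h m

theorem st_inf (hL : St n c L) (hp : p.Prime) (h1 : sc p L ≤ I) (h2 : I ≤ L) (h3 : sc l L ≤ J)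
    (hl : ¬ (p : ℤ) ∣ l) (hm : ¬ (p : ℤ) ∣ m) (hJ : St n (c * m) J) :
    St n (c * m) (I ⊓ J) ↔ St n c I := by
  have e : be n (c * m) (c * m : ℕ) = m * be n c c := by rw [Nat.cast_mul, be_mul]
  refine ⟨fun h u hu => ?_, fun h u hu => ⟨?_, hJ u hu.2⟩⟩
  · refine cmd_bez (x := m * l) hp
      (fun k => ((Nat.prime_iff_prime_int.1 hp).dvd_or_dvd k).elim hm hl)
      (mem_of_sc h1 (hL u (h2 hu))) (mem_eq (h _ ⟨nat_mul_mem hu l, mem_of_sc h3 (h2 hu)⟩).1 ?_)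
    rw [e]
    push_cast
    ring
  · rw [e, mul_assoc]
    exact nat_mul_mem (h u hu.1) m

theorem inf_mid (hl : l.Prime) (hp : ¬ (l : ℤ) ∣ p) (h1 : sc p L ≤ I) (h2 : I ≤ L)
    (h3 : sc l L < J) (h4 : J < L) : sc l I < I ⊓ J ∧ I ⊓ J < I := by
  have l0 : (l : ℂ) ≠ 0 := by exact_mod_cast hl.ne_zero
  have h5 := (cmd_sc_le l0).2 h2
  refine ⟨⟨le_inf ?_ (h5.trans h3.le), fun k => h3.not_ge fun u hu => ?_⟩,
    inf_le_left, fun k => h4.not_ge fun u hu => ?_⟩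
  · intro u hu
    obtain ⟨y, hy, rfl⟩ := mem_sc.1 hu
    exact nat_mul_mem hy l
  · exact cmd_bez hl hp (mem_of_sc le_rfl (h4.le hu))
      (by simpa using h5 (k ⟨mem_of_sc h1 (h4.le hu), nat_mul_mem hu p⟩))
  · exact cmd_bez hl hp (mem_of_sc h3.le hu) (by simpa using (k (mem_of_sc h1 hu)).2)

theorem gd (ok : Ok n c) (h4 : p % 4 = 1) (h : p ∣ c) : Gd n c p :=
  (kc_odd ok.m4 (o := p) (by omega) ((Int.natCast_dvd_natCast.2 h).mul_left _)).exists_th ok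

theorem th_down {d e : ℕ} (ok : Ok n e) (hd : d ∣ e) (h4 : p % 4 = 1) (h : p ∣ d)
    (hI : IsIv (Oc n e) I) (k : I * ot (Oc n d) = J) :
    th n e p (cl _ I) = th n d p (cl _ J) := by
  rw [(gd ⟨ok.m4, ok.gt, ne_zero_of_dvd_ne_zero ok.ne hd⟩ h4 h).th_pj ok hd, pj_cl hd hI, k]

/-- The horizontal neighbour. -/
def Hz (n : ℕ) (b : ℤ) (p : ℕ) (L I : Lt) : Prop :=
  ∃ m : ℕ, ¬ (p : ℤ) ∣ m ∧ ∀ u ∈ L, m * be n 1 b * u ∈ I

theorem hz_inf (hp : p.Prime) (hl : ¬ (p : ℤ) ∣ l) (h3 : sc l L ≤ J) (h4 : J ≤ L)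
    (hL : ∀ u ∈ L, c * be n 1 b * u ∈ L) (hc : ¬ (p : ℤ) ∣ c) :
    Hz n b p J (I ⊓ J) ↔ Hz n b p L I := by
  have q := Nat.prime_iff_prime_int.1 hp
  refine ⟨fun ⟨m, h1, h2⟩ => ⟨m * l, fun k => (q.dvd_or_dvd (by exact_mod_cast k)).elim h1 hl,
    fun u hu => ?_⟩, fun ⟨m, h1, h2⟩ => ⟨m * (l * c), fun k => (q.dvd_or_dvd
      (by exact_mod_cast k)).elim h1 fun k => (q.dvd_or_dvd k).elim hl hc, fun u hu => ⟨?_, ?_⟩⟩⟩
  · exact mem_eq (h2 _ (mem_of_sc h3 hu)).1 (by push_cast; ring)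
  · exact mem_eq (nat_mul_mem (h2 u (h4 hu)) (l * c)) (by push_cast; ring)
  · exact mem_eq (nat_mul_mem (mem_of_sc h3 (hL u (h4 hu))) m) (by push_cast; ring)

theorem hz_sc {a : ℂ} (ha : a ≠ 0) : Hz n b p (sc a L) (sc a I) ↔ Hz n b p L I := by
  refine exists_congr fun m => and_congr_right fun _ => ⟨fun h u hu => ?_, fun h u hu => ?_⟩
  · have := h _ ((mul_mem_sc ha).2 hu)
    rwa [mul_left_comm, mul_mem_sc ha] at this
  · obtain ⟨y, hy, rfl⟩ := mem_sc.1 hu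
    rw [mul_left_comm, mul_mem_sc ha]
    exact h y hy

theorem root_mul (e : b ^ 2 + n * (1 : ℕ) ^ 2 = 4 * l * k) (c : ℕ) :
    (b * c) ^ 2 + n * c ^ 2 = 4 * l * (k * c ^ 2) := by
  push_cast at e
  linear_combination (c : ℤ) ^ 2 * e

theorem be_one (n c : ℕ) (b : ℤ) : be n c (b * c) = c * be n 1 b := by
  simpa using be_mul n 1 c b

theorem be_st (ok : Ok n c) (e : b ^ 2 + n * (1 : ℕ) ^ 2 = 4 * l * k) (hL : IsIv (Oc n c) L) :
    ∀ u ∈ L, c * be n 1 b * u ∈ L := fun u hu => by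
  rw [← be_one]
  exact hL.mul_mem (be_mem ok.m4 (two_dvd_sub ok.m4 ((root_mul e c).trans (mul_assoc _ _ _)))) hu

theorem idl_le (h1 : sc l L ≤ I) (h2 : ∀ u ∈ L, be n c b * u ∈ I) : idl n c l b * L ≤ I :=
  Submodule.mul_le.2 fun x hx u hu => by
    obtain ⟨s, t, rfl⟩ := mem_sp2.1 hx
    rw [add_mul, mul_assoc, mul_assoc]
    exact add_mem (int_mul_mem (by simpa using mem_of_sc h1 hu) s) (int_mul_mem (h2 u hu) t)

theorem hz_iff (ok : Ok n c) (hp : p.Prime) (hc : ¬ (p : ℤ) ∣ c)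
    (e : b ^ 2 + n * (1 : ℕ) ^ 2 = 4 * p * k) (hL : IsIv (Oc n c) L) (h1 : sc p L ≤ I)
    (h2 : I < L) : Hz n b p L I ↔ I = idl n c p (b * c) * L := by
  refine ⟨fun ⟨m, k1, k2⟩ => (mid_eq hp (hL.isLat ok) (mid_idl ok hp (root_mul e c) hL).1
    (idl_le h1 fun u hu => cmd_bez hp k1 (mem_of_sc h1 (be_one n c b ▸ be_st ok e hL u hu)) ?_)
      h2).symm, fun h => ⟨c, hc, fun u hu => ?_⟩⟩
  · exact mem_eq (nat_mul_mem (k2 u hu) c) (by rw [be_one]; push_cast; ring)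
  · rw [h, ← be_one]
    exact Submodule.mul_mem_mul (right_mem_sp2 _ _) hu

/-- Vertical neighbours with a given genus. -/
def Vt (n c p : ℕ) (s : ℤˣ) (I : Lt) : Prop := ¬ St n c I ∧ th n (c * p) p (cl (Oc n (c * p)) I) = s

theorem vt_sc (ok : Ok n c) (hp : p.Prime) {a : ℂ} (ha : a ≠ 0) {s : ℤˣ} (hL : IsIv (Oc n c) L)
    (h1 : sc p L < I) (h2 : I < L) : Vt n c p s (sc a I) ↔ Vt n c p s I := by
  rw [Vt, Vt, st_sc ha]
  exact and_congr_right fun h => by rw [cl_sc (isIv_of_not_st ok hp hL h1 h2 h).1 ha]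

section

variable (ok : Ok n c) (hp : p.Prime) (hl : l.Prime) (h : p ≠ l) (h4 : p % 4 = 1)
  (hL : IsIv (Oc n c) L) (h1 : sc p L < I) (h2 : I < L) (k1 : sc l L < J) (k2 : J < L) {s : ℤˣ}
include ok hp hl h hL h1 h2 k1 k2

include h4 in
theorem vt_vert (hJ : ¬ St n c J) : Vt n (c * l) p s (I ⊓ J) ↔ Vt n c p s I := by
  have sL := st_of_isIv ok.m4 hL
  rw [Vt, Vt, st_inf sL hp h1.le h2.le k1.le (ndvd hp hl h) (ndvd hp hl h)
    (st_of_isIv ok.m4 (isIv_of_not_st ok hl hL k1 k2 hJ).1)]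
  refine and_congr_right fun hI => ?_
  have i1 := (isIv_of_not_st ok hp hL h1 h2 hI).1
  have m := inf_mid hl (ndvd hl hp h.symm) h1.le h2.le k1 k2
  obtain ⟨i2, i3⟩ := isIv_of_not_st (cmd_ok ok hp) hl i1 m.1 m.2 fun k => hJ
    ((st_inf sL hl k1.le k2.le h1.le (ndvd hl hp h.symm) (ndvd hl hp h.symm)
      (st_of_isIv ok.m4 i1)).1 (inf_comm I J ▸ k))
  rw [mul_right_comm] at i2
  rw [th_down (cmd_ok (cmd_ok ok hl) hp) ⟨l, mul_right_comm _ _ _⟩ h4 (dvd_mul_left _ _) i2 i3]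

theorem vt_hor (e : b ^ 2 + n * (1 : ℕ) ^ 2 = 4 * l * k) (hb : ¬ (l : ℤ) ∣ b * c)
    (hJ : J = idl n c l (b * c) * L) : Vt n c p (th n (c * p) p
      (cl _ (idl n (c * p) l (b * (c * p : ℕ)))) * s) (I ⊓ J) ↔ Vt n c p s I := by
  have sL := st_of_isIv ok.m4 hL
  have sJ := st_of_isIv ok.m4 (hJ ▸ st_idl ok hl (root_mul e c) hb hL)
  have k := st_inf (m := 1) sL hp h1.le h2.le k1.le (ndvd hp hl h) (cmd_one hp)
    (by rwa [mul_one])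
  rw [mul_one] at k
  rw [Vt, Vt, k]
  refine and_congr_right fun hI => ?_
  have i1 := (isIv_of_not_st ok hp hL h1 h2 hI).1
  have m := inf_mid hl (ndvd hl hp h.symm) h1.le h2.le k1 k2
  have ok' := cmd_ok ok hp
  have e' := root_mul e (c * p)
  have hb' : ¬ (l : ℤ) ∣ b * (c * p : ℕ) := fun k =>
    ((Nat.prime_iff_prime_int.1 hl).dvd_or_dvd (a := b * c) (b := p)
      (by rw [mul_assoc]; exact_mod_cast k)).elim hb (ndvd hl hp h.symm)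
  have i2 := st_idl ok' hl e' hb' (isIv_one _)
  have i3 : idl n (c * p) l (b * (c * p : ℕ)) * ot (Oc n (c * p)) = _ := idl_mul_ot ok.m4 e'
  rw [i3] at i2
  rw [← mid_eq hl (i1.isLat ok') (mid_idl ok' hl e' i1).1 (idl_le m.1.le fun u hu => ⟨i1.mul_mem
    (be_mem ok.m4 (two_dvd_sub ok.m4 (e'.trans (mul_assoc _ _ _)))) hu, ?_⟩) m.2, cl_mul i2 i1, map_mul, mul_right_inj]
  rw [Nat.cast_mul, ← mul_assoc, be_mul, mul_assoc, hJ]
  exact nat_mul_mem (Submodule.mul_mem_mul (right_mem_sp2 _ _) (h2.le hu)) p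

end

end Pool.Agent.T10.KZ
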