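import Pool.Agent.Lib.MP_696deb_nt.B10.UZ
import Pool.Agent.Lib.MP_696deb_nt.B6.MTA

/-! The result on the Weber units in terms of logarithms. -/

set_option autoImplicit false

open NumberField NumberTheorySymbols Finset
open scoped Classical NNReal

namespace Pool.Agent.B10
open Pool.Agent.Lib.MP_696deb_nt Pool.Agent.Lib.MP_696deb_nt.B2 Pool.Agent.Lib.MP_696deb_nt.B2.CM
  Pool.Agent.B6 Pool.Agent.B4 Pool.Agent.B8
open Pool.Agent.Lib.MP_696deb_nt.B3.CM (th)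

/-- The first digit of a suitable Weber unit does not vanish. -/
def UOStmt : Prop := ∀ [Ce] [∀ c, Fintype (Pc NN c)] (a : ℕ → ℤ) (M : ℕ) (ψ : Pc NN 2 →* Z3)
  (w : Plc) (V : Valuation ℂ ℝ≥0), M ≠ 0 → B6.EsStmt a M → Cub ψ → w.p = 2 → Ov V w → ∃ B : ℕ,
  ∀ m : ℕ, m ≠ 0 → m.Coprime NN → ∃ T : Finset ℕ, T.card ≤ B ∧
    (∀ l ∈ T, l.Prime ∧ ¬ l ∣ M ∧ l % 4 = 1 ∧ l ≡ 1 [MOD m] ∧ J(-NN | l) = -1 ∧ 4 ∣ a l) ∧
    ∀ t : Pc NN (2 * ∏ l ∈ T, l) → ℂ, (∀ x, Rp NN (2 * ∏ l ∈ T, l) (t x) x) →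
      ¬ V (((Real.exp (1 / 6 * ∑ x with ∀ l ∈ T, th NN (2 * ∏ l ∈ T, l) l x = 1,
        bw (ψ (pj NN 2 (2 * ∏ l ∈ T, l) x)) * H3.T.Lam (t x)) : ℝ) : ℂ) - 1) ^ 3 < V 2 ^ 2

theorem uo_four [Cs] {a : ℕ → ℤ} {M : ℕ} (he : B6.EsStmt a M) {l : Plc} (h : ¬ l.p ∣ M)
    (h4 : l.p % 4 = 1) (e : E4 (fr l)) : 4 ∣ a l.p := by
  obtain ⟨T, -⟩ := exists_TB
  obtain ⟨P, hP⟩ : ∃ P, P = T.emb 2 ![1, 0] := ⟨_, rfl⟩
  have p4 : 4 • P = 0 := by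
    rw [hP, ← map_nsmul, show (4 • ![1, 0] : Fin 2 → ZMod (2 ^ 2)) = 0 by decide, map_zero]
  have k := he l (fr l) P h (fr_spec l)
  rw [← mul_smul, e P p4, ← Nat.div_add_mod l.p 4, h4, add_smul, mul_comm, mul_smul, p4, smul_zero,
    zero_add, one_smul, sub_add_eq_add_sub, neg_add_cancel, zero_sub, neg_mem_iff, mul_comm, ← h4,
    Nat.div_add_mod, ← smul_comm] at k
  have z := B6.K1_tors (by omega) k (m := 2) (by
    rw [← smul_comm, smul_comm _ (a l.p), show 2 ^ 2 • P = 0 from p4, smul_zero, smul_zero])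
  rw [smul_eq_zero_iff_eq, hP, ← map_zsmul, ← map_zero (T.emb 2)] at z
  have := congrFun (T.inj 2 z) 0
  simp only [Pi.smul_apply, Matrix.cons_val_zero, zsmul_eq_mul, mul_one, Pi.zero_apply] at this
  exact_mod_cast (ZMod.intCast_zmod_eq_zero_iff_dvd _ _).1 this

theorem uo_stmt (CX : CXStmt) (BX : BXStmt) (BM : BMStmt) (WB : WBStmt) (US : USStmt)
    (IX : IXStmt) (KD : KDStmt) (FN : FNStmt) (WP : WPStmt) : UOStmt := by
  intro C _ a M ψ w V hM he hψ hw hV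
  let _ : Cp := { C with ψ := ψ, cub := hψ, cx := CX ψ hψ }
  obtain ⟨Y, hY⟩ := WB BX BM
  obtain ⟨U, hU⟩ := US Y BX hY
  obtain ⟨b, hb⟩ := FN U w BX BM (KD U BX BM) (IX Y U BX BM hY hU (KD U BX BM)) hw
  refine ⟨b, fun m hm hc => ?_⟩
  obtain ⟨S, s1, s2, s3, s4⟩ := hb m M.primeFactors hm hc
  have nd : ∀ l ∈ S, ¬ l.p ∣ M := fun l hl k =>
    (s3 l hl).out (Nat.mem_primeFactors.2 ⟨l.prime, k, hM⟩)
  refine ⟨S.image Plc.p, card_image_le.trans s1, fun p hp => ?_, ?_⟩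
  · obtain ⟨l, hl, rfl⟩ := mem_image.1 hp
    exact ⟨l.prime, nd l hl, (s3 l hl).m4, (s3 l hl).mod, (s3 l hl).inn.2,
      uo_four he (nd l hl) (s3 l hl).m4 (s3 l hl).e4⟩
  · rw [show ∏ l ∈ S.image Plc.p, l = cS S from prod_image s2.2]
    intro t ht k
    obtain ⟨w1, -, -, w4⟩ := WP Y (cS S) (S.image Plc.p) w V t BX BM hY (BX.aw S s2)
      (fun p hp => by
        obtain ⟨l, hl, rfl⟩ := mem_image.1 hp
        exact ⟨dvd_prod_of_mem _ hl, l.prime, (s3 l hl).m4⟩) ht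
    rw [hU S s2 fun l hl => (s3 l hl).m4] at s4
    exact s4 (w4 hw hV (w1 ▸ k))

end Pool.Agent.B10
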