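import Pool.Agent.Lib.MP_696deb_nt.B10.ZK
import Pool.Agent.Lib.MP_696deb_nt.B10.ZS
import Pool.Agent.Lib.MP_696deb_nt.B10.UO
import Pool.Agent.Lib.MP_696deb_nt.B8.NB
import Pool.Agent.Lib.MP_696deb_nt.B8.OV
import Pool.Agent.Lib.MP_696deb_nt.B8.CFa
import Pool.Agent.Lib.MP_696deb_nt.B8.CFb
import Pool.Agent.Lib.MP_696deb_nt.B8.CFc

/-! The transfer to Heegner points and the seed. -/

set_option autoImplicit false

open NumberTheorySymbols Finset Function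
open scoped Classical NNReal

namespace Pool.Agent.T10
open Pool.Agent.Lib.MP_696deb_nt Pool.Agent.Lib.MP_696deb_nt.B2 Pool.Agent.Lib.MP_696deb_nt.B2.CM
  Pool.Agent.B6 Pool.Agent.B8 Pool.Agent.B4.GE Pool.Agent.Shared.Weier
open Pool.Agent.B4 (OkN HgN nn exists_hgN)

theorem t1_smul [Cs] {Q : B6.EE} (h : Q ∈ EN) (g : Gam) : g • Q ∈ EN := fun σ hσ => by
  have k : IN ≤ IN.comap (MulAut.conj g⁻¹).toMonoidHom := iSup_le fun w s hs =>
    (le_iSup (fun w : {w : Plc // w.p ∣ NN} => Ine w.1) ⟨g⁻¹ • w.1, w.2⟩ :)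
      (mem_Ine_smul.2 (by simpa [mul_assoc] using hs))
  have := h _ (k hσ)
  change (g⁻¹ * σ * g⁻¹⁻¹) • Q = Q at this
  rwa [inv_inv, mul_smul, mul_smul, inv_smul_eq_iff] at this

theorem t1_root {n p : ℕ} (hn : n % 4 = 3) (hp : p.Prime) (h : p ≡ 1 [MOD 4 * n]) :
    ∃ b : ℤ, ¬ (p : ℤ) ∣ b ∧ ∃ k : ℤ, b ^ 2 + n * (1 : ℕ) ^ 2 = 4 * p * k := by
  have h4 : p % 4 = 1 := h.of_mul_right n
  obtain ⟨b, k, h1, h2⟩ := exists_root_split (c := 1) hn hp (by omega) (by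
    rw [jacobiSym.neg _ (Nat.odd_iff.2 (by omega)), ZMod.χ₄_nat_one_mod_four h4, one_mul,
      ← jacobiSym.quadratic_reciprocity_one_mod_four h4 (Nat.odd_iff.2 (by omega)),
      jacobiSym.mod_left' (a₂ := 1) (Int.natCast_modEq_iff.2 (h.of_mul_left 4)),
      jacobiSym.one_left]) hp.not_dvd_one
  exact ⟨b, h2, k, h1⟩

theorem t1_cop [Cs] {q l : ℕ} (hq : q.Prime) (h4 : 4 * NN ^ 2 < q) (hl : l.Prime)
    (hN : J(NN | l) = 1) : (q * l).Coprime NN := by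
  refine Nat.Coprime.mul_left (Nat.coprime_of_lt_prime NN_ne (by nlinarith [NN_pos]) hq)
    (hl.coprime_iff_not_dvd.2 fun k => ?_)
  rw [jacobiSym.mod_left, Int.emod_eq_zero_of_dvd (Int.natCast_dvd_natCast.2 k),
    jacobiSym.zero_left hl.one_lt] at hN
  omega

theorem t1_core (fi : FIStmt) (kg : KGStmt) (tc : TCStmt) [Ce] (P : Par Wu NN)
    (ht : P.t0 ∈ P.L.lattice) : ∃ M : ℕ, M ≠ 0 ∧
    ∀ (q l : ℕ) [∀ c, Fintype (Pc (q * l) c)] (r : ℤ) (T : Finset ℕ), q.Prime → q % 8 = 3 →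
    4 * NN ^ 2 < q → ¬ q ∣ M → l.Prime → l % 8 = 1 → J(l | q) = -1 → J(NN | l) = 1 →
    CondB (q * l : ℕ) → 4 * (NN : ℤ) ∣ r ^ 2 + (q * l : ℕ) → Tk NN P.a T → Even T.card →
    (∀ p ∈ T, p ≡ 1 [MOD 4 * (q * l)]) → Fs P T l →
    ∃ (w : Plc) (g : Gam) (b : ℕ → ℤ) (z : Pc (q * l) 1 → ℂ) (Y : B6.EE), w.p = q ∧
      ¬ (w.p : ℤ) ∣ WZ.Δ ∧ g ∈ Ine w ∧ g ∉ GK (q * l) ∧ (∀ p ∈ T, chi p g = 1) ∧
      OkN NN (q * l) 1 r ∧ Squarefree (q * l) ∧ Ts (q * l) b T ∧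
      (∀ x, HgN NN (q * l) 1 r (z x) ∧ cl _ (sp2 (z x) 1) = x) ∧
      ∑ x, Dz P T (z x) (RK (q * l) b (z x)) = Y ∧ g • Y = -Y ∧ Y ∉ B6.K1 w := by
  obtain ⟨M, hM, tc⟩ := tc P ht
  refine ⟨M, hM, fun q l _ r T hq h8 h4 hd hl l8 hJ hN hC hr hT hev h1 hF => ?_⟩
  have cop := t1_cop hq h4 hl hN
  have n8 : q * l % 8 = 3 := by rw [Nat.mul_mod, h8, l8]
  have n4 : 4 * NN ^ 2 < q * l := h4.trans_le (Nat.le_mul_of_pos_right _ hl.pos)
  have ql : q ≠ l := by omega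
  have ok : OkN NN (q * l) 1 r :=
    ⟨⟨by omega, by nlinarith [NN_pos], one_ne_zero⟩, hr, by rwa [mul_one]⟩
  have sq : Squarefree (q * l) := (Nat.squarefree_mul ((Nat.coprime_primes hq hl).2 ql)).2
    ⟨hq.squarefree, hl.squarefree⟩
  obtain ⟨w, rfl⟩ := exists_plc hq
  have wΔ : ¬ (w.p : ℤ) ∣ WZ.Δ :=
    mt (dvd_Δ hq).1 (hq.coprime_iff_not_dvd.1 (Nat.Coprime.coprime_mul_right cop))
  obtain ⟨g, g1, g2, z0, i, z1, z2, z3, ne, fx⟩ :=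
    fi NN w.p l r w hq hl (by omega) hJ hN hC ok NN_odd rfl
  obtain ⟨σ, hσ⟩ := exists_ex g
  choose! b hb using fun p (hp : p ∈ T) => t1_root ok.m4 (hT.prime p hp) (h1 p hp)
  have ts : Ts (w.p * l) b T := fun p hp => ⟨hT.prime p hp, by have := hT.m8 p hp; omega, hb p hp⟩
  have wT : w.p ∉ T := fun k => by have := hT.m8 _ k; omega
  have hχ : ∀ p ∈ T, chi p g = 1 := fun p hp => chi_ine (fun k => by
    rcases (Nat.Prime.dvd_mul hq).1 (show w.p ∣ 2 * p by exact_mod_cast k) with k | k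
    · have := Nat.le_of_dvd two_pos k
      omega
    · exact wT ((Nat.prime_dvd_prime_iff_eq hq (hT.prime p hp)).1 k ▸ hp)) g1
  obtain ⟨z, hz, e0, e1⟩ : ∃ z : Pc (w.p * l) 1 → ℂ,
      (∀ x, HgN NN (w.p * l) 1 r (z x) ∧ cl _ (sp2 (z x) 1) = x) ∧ z (cl _ (sp2 z0 1)) = z0 ∧
        z (cl _ (sp2 (act (rP l i) z0) 1)) = act (rP l i) z0 := by
    choose y hy using exists_hgN ok
    refine ⟨fun x => if x = cl _ (sp2 z0 1) then z0 else if x = cl _ (sp2 (act (rP l i) z0) 1) then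
      act (rP l i) z0 else y x, fun x => ?_, if_pos rfl, (if_neg ne.symm).trans (if_pos rfl)⟩
    dsimp only
    split_ifs with k k'
    exacts [⟨z1, k.symm⟩, ⟨z3, k'.symm⟩, hy x]
  obtain ⟨D, hD⟩ : ∃ D : Pc (w.p * l) 1 → B6.EE,
      D = fun x => Dz P T (z x) (RK (w.p * l) b (z x)) := ⟨_, rfl⟩
  obtain ⟨c, hc⟩ : ∃ c, c = (nn NN (w.p * l) 1 r)⁻¹ * rho (w.p * l) 1 g := ⟨_, rfl⟩
  have e2 : ∀ x, g • D x = -D (c * x⁻¹) := fun x => by
    rw [hD]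
    refine (kg P _ r b T g σ _ _ ht ok sq n8 n4 hT hev ts (hz x).1 (hz _).1 hσ g2 hχ ?_).2.1
    rw [(hz x).2, (hz _).2, hc, mul_assoc, mul_inv_cancel_left]
  have u : ∀ x, c * x⁻¹ = x ↔ x = cl _ (sp2 z0 1) ∨ x = cl _ (sp2 (act (rP l i) z0) 1) :=
    fun x => by rw [← fx, hc, mul_assoc, inv_mul_eq_iff_eq_mul]
  refine ⟨w, g, b, z, ∑ x, D x, rfl, wΔ, g1, g2, hχ, ok, sq, ts, hz, by rw [hD], ?_, fun e6 => ?_⟩
  · rw [smul_sum, sum_congr rfl fun x _ => e2 x, sum_neg_distrib, neg_inj]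
    exact Equiv.sum_comp ((Equiv.inv _).trans (Equiv.mulLeft c)) D
  have e7 : ∑ x with ¬ c * x⁻¹ = x, D x ∈ B6.K1 w := by
    rw [← QuotientAddGroup.eq_zero_iff, ← QuotientAddGroup.mk'_apply, map_sum]
    refine sum_involution (fun y _ => c * y⁻¹) (fun y _ => ?_)
      (fun y hy _ => (mem_filter.1 hy).2) (fun y hy => ?_) fun y _ => by simp
    · rw [← map_add, QuotientAddGroup.mk'_apply, QuotientAddGroup.eq_zero_iff]
      have := neg_mem (B6.K1_ine wΔ g1 (D y))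
      rwa [e2, ← neg_add', neg_neg, add_comm] at this
    · exact mem_filter.2 ⟨mem_univ _, fun k => (mem_filter.1 hy).2 (by simpa using k.symm)⟩
  rw [← sum_filter_add_sum_filter_not univ fun x => c * x⁻¹ = x, (B6.K1 w).add_mem_cancel_right e7,
    show (univ.filter fun x => c * x⁻¹ = x) = {cl _ (sp2 z0 1), cl _ (sp2 (act (rP l i) z0) 1)} by
      ext x; simp [u], sum_pair ne, hD] at e6
  dsimp only at e6
  rw [e0, e1] at e6
  exact tc _ l r b T w g z0 i hd ok sq n8 n4 hl (dvd_mul_left _ _) ql hT hev ts wT hF g1 g2 z1 z2 z3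
    (fun y hy => (fx _).2 (hy.imp (fun k => by rw [k]) fun k => by rw [k])) e6

theorem t1_stmt (fi : FIStmt) (kz : KZStmt) (kg : KGStmt) (tc : TCStmt) : T1Stmt := by
  intro _ P ht hE
  obtain ⟨M, hM, k⟩ := t1_core fi kg tc P ht
  refine ⟨M, hM, fun q l _ r T hq h8 h4 hd hl l8 hJ hN hC hr hT hev h1 hF => ?_⟩
  obtain ⟨w, g, b, z, Y, -, wΔ, g1, -, -, ok, sq, ts, hz, e1, e2, e6⟩ :=
    k q l r T hq h8 h4 hd hl l8 hJ hN hC hr hT hev h1 hF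
  by_contra hn
  obtain ⟨ε, R, hR, e3⟩ := kz P _ r b T z ok sq hT.tp ts hT.four hz
  have k : ∀ U ∈ T.powerset, ∃ S ∈ EN, 2 • S = Zs P (q * l) r U (ε U) := fun U hU => by
    by_contra k
    exact hn ⟨U, mem_powerset.1 hU, ε U, fun S hS e => k ⟨S, hS, e⟩⟩
  choose! S s1 s2 using k
  obtain ⟨Q, hQ, e4⟩ : ∃ Q ∈ EN, 2 • Q = Y :=
    ⟨∑ U ∈ T.powerset, S U + R, add_mem (sum_mem s1) hR, by
      rw [← e1, e3, smul_add, smul_sum, sum_congr rfl s2]⟩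
  have e5 : g • Q + Q = 0 := hE _ (add_mem (t1_smul hQ g) hQ) (by
    rw [smul_add, smul_comm, e4, e2, neg_add_cancel])
  have := neg_mem (B6.K1_ine wΔ g1 Q)
  rw [eq_neg_of_add_eq_zero_left e5, ← neg_add', neg_neg, ← two_nsmul, e4] at this
  exact e6 this

theorem sd_fw {N : ℕ} (h : Nk N) : Fw N (x0 N) := by
  have hc : ((√(N : ℝ) : ℝ) : ℂ) ≠ 0 :=
    Complex.ofReal_ne_zero.2 (Real.sqrt_pos.2 (by have := h.gt; positivity)).ne'
  have e1 : dl N * x0 N = -1 := by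
    rw [dl, x0]
    field_simp
    rw [Complex.I_sq]
  have e2 : N * x0 N = dl N := by linear_combination (x0 N) * dl_sq N - dl N * e1
  refine ⟨(nb_x0 h).pos, ?_, (nb_x0 h).iv⟩
  rw [sc_sp2, e1, e2, mul_one, sp2, Set.pair_comm]
  exact cmb_sp2_neg _ _

theorem sd_stmt (uo : B10.UOStmt) (ut : UTStmt) (fx : FXStmt) (dg : DGStmt) (fs : FSStmt)
    (t1 : T1Stmt) : SDStmt := by
  intro _ D k M₀ hk ko hD ht hE h0 hS
  obtain ⟨M, hM, t1⟩ := t1 D.par ht hE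
  refine ⟨M, hM, fun q l _ r hq h8 h4 hd hl l8 hJ hN hR hC hr => ?_⟩
  have cop := t1_cop hq h4 hl hN
  have i0 := finite_Pc (nk.ok two_ne_zero).m4 nk.gt
  let i1 : ∀ c, Fintype (Pc NN c) := fun c => Fintype.ofFinite _
  obtain ⟨ψ, hψ⟩ := cf_stmt cfa_stmt cfb_stmt
  obtain ⟨w, hw⟩ := exists_plc Nat.prime_two
  obtain ⟨V, hV⟩ := ov_stmt w
  have hv : V 2 < 1 := by
    have h3 := w.hV
    rw [hw] at h3
    rw [← map_ofNat jC, hV, show w.V 2 = 2⁻¹ by exact_mod_cast h3]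
    exact inv_lt_one_of_one_lt₀ one_lt_two
  obtain ⟨B, hB⟩ := uo D.c M₀ ψ w V h0 hS hψ hw hV
  refine ⟨B, fun m m0 mc => ?_⟩
  obtain ⟨T, t2, t3, t4⟩ := hB (8 * (q * l) * m)
    (mul_ne_zero (mul_ne_zero (by omega) (mul_ne_zero hq.ne_zero hl.ne_zero)) m0)
    (((Nat.Coprime.pow_left 3 (Nat.coprime_two_left.2 NN_odd)).mul_left cop).mul_left mc)
  have hT : Tk NN D.c T := ⟨fun p hp => (t3 p hp).1,
    fun p hp => ((t3 p hp).2.2.2.1.of_mul_right m).of_mul_right (q * l),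
    fun p hp => (t3 p hp).2.2.2.2.1, fun p hp => (t3 p hp).2.2.2.2.2⟩
  obtain ⟨u1, R, u2, u3⟩ := ut D k ψ V T hk ko hD hψ hv hT t4
  have hev := (fx Wu NN D.par T _ R (sd_fw nk) hT u2).1 fun e => by simp [e] at u3
  obtain ⟨U, v1, ε, v2⟩ := t1 q l r T hq h8 h4 hd hl l8 hJ hN hC hr hT hev
    (fun p hp => ((t3 p hp).2.2.2.1.of_mul_right m).of_dvd ⟨2, by ring⟩)
    (fs D.par T R l ht hT hev u2 (dg D k w V T R hk ko hw hV hT u1 u3) hl (fun e => by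
      rcases (Nat.Prime.dvd_mul hl).1 e with e | e
      · have := Nat.le_of_dvd two_pos e
        have := hl.two_le
        omega
      · exact hl.coprime_iff_not_dvd.1 (Nat.Coprime.coprime_mul_left cop) e) hR)
  exact ⟨U, ε, (card_le_card v1).trans t2, fun p hp =>
    have s := t3 p (v1 hp)
    ⟨s.1, s.2.1, s.2.2.2.1, s.2.2.2.2.2⟩, v2⟩

end Pool.Agent.T10
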