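import Pool.Agent.Lib.MP_696deb_nt.B10.EY
import Pool.Agent.Lib.MP_696deb_nt.B10.TT1
import Pool.Agent.Lib.MP_696deb_nt.B10.TKa
import Pool.Agent.Lib.MP_696deb_nt.B6.MCM

/-! The transfer gives a point of a twist. -/

set_option autoImplicit false

open NumberTheorySymbols Finset
open scoped Classical

namespace Pool.Agent.T10
open Pool.Agent.Lib.MP_696deb_nt Pool.Agent.Lib.MP_696deb_nt.B2 Pool.Agent.Lib.MP_696deb_nt.B2.CM
  Pool.Agent.B6 Pool.Agent.B8 Pool.Agent.B4.GE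
open Pool.Agent.Lib.MP_696deb_nt.B3.CM (th)
open Pool.Agent.B4 (OkN)

theorem t2_chi {T : Finset ℕ} (h : ∀ p ∈ T, p ≠ 0) (g : Gam) :
    chi (∏ p ∈ T, p : ℕ) g = ∏ p ∈ T, chi p g := by
  induction T using Finset.induction_on with
  | empty => simpa using chi_sq 1 g
  | insert p T hp ih =>
    have k := fun l hl => h l (mem_insert_of_mem hl)
    rw [prod_insert hp, prod_insert hp, Nat.cast_mul, chi_mul (Nat.cast_ne_zero.2 (h p (by simp)))
      (Nat.cast_ne_zero.2 (prod_ne_zero_iff.2 k)), ih k]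

theorem t2_tors [Cs] (hE : ∀ Q ∈ EN, 2 • Q = 0 → Q = 0) (m : ℕ) {Q : B6.EE} (h : Q ∈ EN)
    (e : 2 ^ m • Q = 0) : Q = 0 := by
  induction m with
  | zero => simpa using e
  | succ m ih => exact ih (hE _ (nsmul_mem h _) (by rwa [← mul_smul, ← pow_succ']))

theorem t2_stmt (fi : FIStmt) (k2 : K2Stmt) (kg : KGStmt) (tc : TCStmt) : T2Stmt := by
  intro _ P ht hE
  obtain ⟨G⟩ := P.geo
  obtain ⟨M, hM, k⟩ := t1_core fi kg tc P ht
  refine ⟨M, hM, fun q l _ r T hq h8 h4 hd hl l8 hJ hN hC hr hT hev h1 hF => ?_⟩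
  obtain ⟨w, τ, b, z, Y, hw, -, -, g2, hχ, ok, sq, ts, hz, e1, e2, e6⟩ :=
    k q l r T hq h8 h4 hd hl l8 hJ hN hC hr hT hev h1 hF
  obtain ⟨⟨μ, m1, m2⟩, e3⟩ := k2 P _ r b T z ok sq hT.tp ts hT.four hz
  rw [e1] at m2 e3
  have p0 : ∀ p ∈ T, p ≠ 0 := fun p hp => (hT.prime p hp).ne_zero
  have o : ∀ U ⊆ T, OkN NN (q * l) (∏ p ∈ U, p) r := fun U hU =>
    ⟨⟨ok.m4, ok.gt, prod_ne_zero_iff.2 fun p hp => p0 p (hU hp)⟩, hr,
      (mul_one (q * l) ▸ ok.cop :).mul_left (Nat.Coprime.prod_left fun p hp =>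
        (hT.prime p (hU hp)).coprime_iff_not_dvd.2 (hT.tp p (hU hp)).2)⟩
  have hY : Y ∈ EN := m2 ▸ sum_mem fun p hp => zsmul_mem
    (sum_mem fun x _ => yA_EN G (o _ (m1 p hp)) x) _
  have e4 : ∀ g ∈ GK (q * l), g • Y = (chi (∏ p ∈ T, p : ℕ) g : ℤ) • Y := fun g hg => by
    refine sub_eq_zero.1 (t2_tors hE T.card (sub_mem (t1_smul hY g) (zsmul_mem hY _)) ?_)
    rw [smul_sub, smul_comm _ g, smul_comm (2 ^ T.card), e3, smul_sum, smul_sum, sub_eq_zero]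
    refine (sum_congr rfl fun x _ => ?_).trans
      (Equiv.sum_comp (Equiv.mulLeft (rho (q * l) (∏ p ∈ T, p) g)) _)
    rw [smul_comm, B6.CM.smul_yA G (o T subset_rfl) hg, smul_smul, ← Units.val_mul, t2_chi p0,
      ← prod_mul_distrib]
    congr 2
    refine prod_congr rfl fun p hp => ?_
    rw [Equiv.coe_mulLeft, map_mul, (KZ.gd (o T subset_rfl).toOk (ts p hp).2.1
      (dvd_prod_of_mem _ hp)).th hg, ← mul_assoc, Int.units_mul_self, one_mul]
  refine ⟨μ, m1, fun g => ?_, w, hw, m2 ▸ e6⟩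
  rw [← m2, B6.tw, Nat.cast_mul, ← neg_mul, chi_mul (neg_ne_zero.2 (Nat.cast_ne_zero.2 sq.ne_zero))
    (Nat.cast_ne_zero.2 (prod_ne_zero_iff.2 p0))]
  by_cases hg : g ∈ GK (q * l)
  · rw [B4c_mem.1 hg, one_mul, e4 g hg, smul_smul, ← Units.val_mul, Int.units_mul_self,
      Units.val_one, one_smul]
  · have := e4 _ (mul_mem_GK hg g2)
    rw [mul_smul, e2, smul_neg, map_mul, t2_chi p0 τ, prod_eq_one hχ, mul_one] at this
    rw [B4c_notMem.1 hg, neg_one_mul, Units.val_neg, neg_smul, ← smul_neg, this, smul_smul,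
      ← Units.val_mul, Int.units_mul_self, Units.val_one, one_smul]

end Pool.Agent.T10
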