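import Pool.Agent.Lib.MP_696deb_nt.B10.ZC
import Pool.Agent.Lib.MP_696deb_nt.B6.UNc
import Pool.Agent.Lib.MP_696deb_nt.B6.MTA
import Pool.Agent.Lib.MP_696deb_nt.B6.XTW
import Pool.Agent.Lib.MP_696deb_nt.B6.FIa
import Pool.Agent.Lib.MP_696deb_nt.B4.GEg

/-! The seeds for odd twists, and the converse theorem from the seeds. -/

set_option autoImplicit false

open NumberTheorySymbols Finset
open scoped Classical

namespace Pool.Agent.T10
open Pool.Agent.Lib.MP_696deb_nt Pool.Agent.Lib.MP_696deb_nt.B2 Pool.Agent.Lib.MP_696deb_nt.B2.CM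
  Pool.Agent.B6 Pool.Agent.B8 Pool.Agent.B4.GE
open Pool.Agent.Lib.MP_696deb_nt.B3.CM (th ind)
open Pool.Agent.B6.B7 (dt tf Cnv)
open Pool.Agent.B6.B7.Dn
open Pool.Agent.B6.CM (yA)

theorem sb_pt [Md] {P : Par Wu NN} (G : Geo P) {n c : ℕ} [∀ c, Fintype (Pc n c)] {r δ : ℤ}
    (ok : OkD NN n c r) (h8 : n % 8 = 3) (h : δ ∣ 2) (ht : tf (P.a 2) δ % 2 = 1) (hc : ¬ 2 ∣ c)
    (hN : c.Coprime NN) (x : Pc n c) : ∃ R ∈ EN, yB P r δ c x = yA P n c r x + 2 • R := by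
  have k := two_rel G ok nd_NN h8 hc h rfl
  refine ⟨(tf (P.a 2) δ / 2) • yA P n c r x -
    wg (fun d => yA P n d r) (fun a => ind (-a)) δ c (c * B3.CM.m2 δ) x, sub_mem
      (zsmul_mem (yA_EN G (ok.okN hN) x) _)
      (wg_mem (yA_EN G ((ok.of_ne (mul_ne_zero ok.ne (two_spec h).2.2.2.1)).okN
        (hN.mul_left (Nat.coprime_of_dvd fun _ hp k k' => nd_m2 h hp (ne_two_of_dvd k') k)))) x),
    ?_⟩
  have e := ix_hb (y := fun d => yA P n d r) k x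
  rw [if_pos ht, one_smul, wg_eq, k] at e
  rw [yB, e]
  conv_lhs => rw [show tf (P.a 2) δ = 1 + 2 * (tf (P.a 2) δ / 2) by omega]
  module

theorem sb_stmt : SBStmt := by
  intro _ P n _ r δ ev hn hr hδ ⟨B, hB⟩
  obtain ⟨G⟩ := P.geo
  refine ⟨B, fun m m0 mN => ?_⟩
  obtain ⟨T, ε, t1, t2, t3⟩ := hB m m0 mN
  refine ⟨T, ε, t1, t2, fun R hR e => ?_⟩
  have nd : ∀ p : ℕ, p.Prime → p ∣ ∏ l ∈ T, l → ¬ p ∣ 2 * NN := fun p hp k => by
    obtain ⟨l, hl, k⟩ := (hp.prime.dvd_finsetProd_iff _).1 k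
    rw [(Nat.prime_dvd_prime_iff_eq hp (t2 l hl).1).1 k]
    exact nd_of_MM (t2 l hl).2.1
  have ht : tf (P.a 2) δ % 2 = 1 := by
    rcases hδ with rfl | rfl
    · rfl
    · obtain ⟨a, ha⟩ := ev
      rw [tf, if_neg (by decide), if_pos (by decide), ha,
        show (a + a) ^ 2 - 3 = 2 * (2 * a ^ 2 - 2) + 1 by ring]
      omega
  choose S s1 s2 using sb_pt (c := ∏ l ∈ T, l) G
    ⟨⟨hn.good.mod4, hn.gt, prod_ne_zero_iff.2 fun l hl => (t2 l hl).1.ne_zero⟩, hr, hn.good.cop⟩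
    hn.m8 (by rcases hδ with rfl | rfl <;> decide) ht
    (fun k => nd 2 Nat.prime_two k (dvd_mul_right _ _))
    (Nat.coprime_of_dvd fun p hp k k' => nd p hp k (k'.mul_left _))
  refine t3 (R - ∑ x with ∀ l ∈ T, th n (∏ l ∈ T, l) l x = ε l, S x)
    (sub_mem hR (sum_mem fun x _ => s1 x)) ?_
  rw [smul_sub, e, Zb, Zs, smul_sum, ← sum_sub_distrib]
  exact sum_congr rfl fun x _ => by rw [s2, add_sub_cancel_right]

theorem tp_stmt (kc : KCStmt) (sd : SDStmt) (sb : SBStmt) : TPStmt := by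
  intro C D k hk ok hD d hd od d1
  have par : ∀ l : ℕ, l.Prime → ¬ l ∣ 2 * NN → (Even (D.c l) ↔ Rt l) := fun l hl k => by
    have := Fact.mk hl
    rw [hD.tr l k, cub_fun, even_tr' (fun e => k (e ▸ dvd_mul_right _ _))
      (fun e => k (((dvd_Δ hl).1 e).mul_left _)) rfl rfl rfl]
    exact exists_congr fun x => by rw [cub_fun]
  obtain ⟨s, hs⟩ := un_three cub_irr
  obtain ⟨l, l1, l2, l3, -⟩ := un_prime hs one_ne_zero (2 * NN)
  have nd : ¬ l ∣ 2 * NN := fun e => by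
    have := Nat.le_of_dvd (Nat.mul_pos two_pos NN_pos) e
    omega
  have o : Odd ((l : ℤ) + 1 - D.c l) := by
    have h1 := Int.not_even_iff_odd.1 fun e => ((par l l1 nd).1 e).elim l3
    have h2 := l1.odd_of_ne_two fun e => nd (e ▸ dvd_mul_right _ _)
    exact (((Int.odd_coe_nat l).2 h2).add_one).sub_odd h1
  have m0 : (l : ℤ) + 1 - D.c l ≠ 0 := fun e => by simp [e] at o
  have e0 : (mdMul D m0).par.t0 = ((l : ℤ) + 1 - D.c l : ℤ) * (D.k * D.Ω) := by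
    rw [MD.par_t0, ← mul_assoc]
    exact congrArg (· * D.Ω) (by simp [mdMul])
  have t1 : (mdMul D m0).par.t0 ∈ D.L.lattice := by
    have := D.par.t0_kill l1 fun e => nd (e.mul_left _)
    rw [← map_zsmul, D.par.per.unif_eq_zero_iff, zsmul_eq_mul] at this
    exact e0 ▸ this
  obtain ⟨G⟩ := (mdMul D m0).par.geo
  have es : B6.EsStmt D.c G.M := fun w φ Q hw hφ =>
    G.es w φ (B6.K1 w) hw hφ (near_iff (mta_good fun k => hw (k.trans G.dvd)).2) Q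
  let _ : Md := { C.toCs with al := D.c, M := G.M, M_ne := G.M0, dvd_M := G.dvd, par := par }
  obtain ⟨T⟩ := B6.m_tate es
  obtain ⟨M, M0, hM⟩ := sd (mdMul D m0) ((l + 1 - D.c l) * k) G.M (by simp [mdMul, hk]) (o.mul ok)
    ⟨hD.nw, hD.tr, hD.ev⟩ t1 (fun _ => T.EN_two) G.M0 es
  refine kc T (mdMul D m0) G d M hD.nw hD.tr (fun _ => rfl) dvd_rfl hd d1 M0
    fun q p _ r a1 a2 a3 a4 a5 a6 a7 a8 a9 hn _ hr => sb _ _ r _ hD.ev hn hr ?_
      (hM q p r a1 a2 a3 a4 a5 a6 a7 a8 a9 hn.condB hr)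
  have := Int.odd_iff.1 od
  unfold dt
  split_ifs <;> omega

end Pool.Agent.T10
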