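import Pool.Agent.Lib.MP_696deb_nt.B10.EY
import Pool.Agent.Lib.MP_696deb_nt.B10.TSB

/-! The converse theorem for all twists from the seeds. -/

set_option autoImplicit false

open NumberTheorySymbols Finset
open scoped Classical

namespace Pool.Agent.T10
open Pool.Agent.Lib.MP_696deb_nt Pool.Agent.Lib.MP_696deb_nt.B2 Pool.Agent.Lib.MP_696deb_nt.B2.CM
  Pool.Agent.B6 Pool.Agent.B8 Pool.Agent.B4.GE
open Pool.Agent.B6.B7 (dt tf Cnv)

theorem te_stmt (ke : KEStmt) (sd : SDStmt) (sb : SBStmt) (sl : SLStmt) (sc : SCStmt) :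
    TEStmt := by
  intro C D k hk ok hD d hd d1
  have par : ∀ l : ℕ, l.Prime → ¬ l ∣ 2 * NN → (Even (D.c l) ↔ Rt l) := fun l hl k => by
    have := Fact.mk hl
    rw [hD.tr l k, cub_fun, even_tr' (fun e => k (e ▸ dvd_mul_right _ _))
      (fun e => k (((dvd_Δ hl).1 e).mul_left _)) rfl rfl rfl]
    exact exists_congr fun x => by rw [cub_fun]
  obtain ⟨s, hs⟩ := un_three cub_irr
  obtain ⟨l, l1, l2, l3, -⟩ := un_prime hs one_ne_zero (2 * NN)
  have nd : ∀ {p m : ℕ}, m ≠ 0 → m < p → ¬ p ∣ m := fun h0 h1 k =>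
    absurd (Nat.le_of_dvd h0.bot_lt k) (by omega)
  have N2 : 2 * NN ≠ 0 := mul_ne_zero two_ne_zero NN_ne
  have o : Odd ((l : ℤ) + 1 - D.c l) := by
    have h1 := Int.not_even_iff_odd.1 fun e => ((par l l1 (nd N2 l2)).1 e).elim l3
    have h2 := l1.odd_of_ne_two fun e => nd N2 l2 (e ▸ dvd_mul_right _ _)
    exact (((Int.odd_coe_nat l).2 h2).add_one).sub_odd h1
  have m0 : (l : ℤ) + 1 - D.c l ≠ 0 := fun e => by simp [e] at o
  have e0 : (mdMul D m0).par.t0 = ((l : ℤ) + 1 - D.c l : ℤ) * (D.k * D.Ω) := by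
    rw [MD.par_t0, ← mul_assoc]
    exact congrArg (· * D.Ω) (by simp [mdMul])
  have t1 : (mdMul D m0).par.t0 ∈ D.L.lattice := by
    have := D.par.t0_kill l1 fun e => nd N2 l2 (e.mul_left _)
    rw [← map_zsmul, D.par.per.unif_eq_zero_iff, zsmul_eq_mul] at this
    exact e0 ▸ this
  obtain ⟨G⟩ := (mdMul D m0).par.geo
  have es : B6.EsStmt D.c G.M := fun w φ Q hw hφ =>
    G.es w φ (B6.K1 w) hw hφ (near_iff (mta_good fun k => hw (k.trans G.dvd)).2) Q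
  have a1 := a1_even
  let _ : Md := { C.toCs with al := D.c, M := G.M, M_ne := G.M0, dvd_M := G.dvd, par := par }
  obtain ⟨T⟩ := B6.m_tate es
  obtain ⟨M, M0, hM⟩ := sd (mdMul D m0) ((l + 1 - D.c l) * k) G.M (by simp [mdMul, hk]) (o.mul ok)
    ⟨hD.nw, hD.tr, hD.ev⟩ t1 (fun _ => T.EN_two) G.M0 es
  obtain ⟨M', M1, hM'⟩ := sl (mdMul D m0) ((l + 1 - D.c l) * k) G.M (by simp [mdMul, hk])
    (o.mul ok) ⟨hD.nw, hD.tr, hD.ev⟩ t1 (fun _ => T.EN_two) G.M0 es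
  obtain ⟨B, hB⟩ := sc (mdMul D m0).par a1 hD.ev fun _ => T.EN_two
  refine ke T (mdMul D m0) G d (M + M' + B + 2 * NN) hD.nw hD.tr (fun _ => rfl) dvd_rfl hd d1
    (by omega) fun q p _ r a1 a2 a3 a4 a4' a5 a6 a7 a8 a9 hn n3 hr => ?_
  by_cases h : dt d = 1 ∨ dt d = -1
  · exact sb _ _ r _ hD.ev hn hr h
      (hM q p r a1 a2 a3 (nd M0 (by omega)) a5 a6 a7 a8 a9 hn.condB hr)
  refine hB _ r _ (lt_of_lt_of_le (by omega) (Nat.le_mul_of_pos_right q a5.pos)) n3 hn hr ?_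
    (hM' q p r a1 a2 a3 (nd M1 (by omega)) a5 (nd M1 (by omega)) a6 a7 a8 a9
      (Int.not_even_iff_odd.1 fun e => a9 ((par p a5 (nd N2 (by omega))).1 e)) hn.condB hr)
  revert h
  unfold dt
  split_ifs <;> omega

end Pool.Agent.T10
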