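import Pool.Agent.Lib.MP_696deb_nt.B10.UZ

/-! The local condition at two that is cut out by the first digit. -/

set_option autoImplicit false

open Finset
open scoped Classical NNReal

namespace Pool.Agent.B10
open Pool.Agent.Lib.MP_696deb_nt Pool.Agent.Lib.MP_696deb_nt.B2 Pool.Agent.Lib.MP_696deb_nt.B2.CM
  Pool.Agent.B6 Pool.Agent.B4 Pool.Agent.B8

variable {w : Plc}

theorem ud5_lt (hw : w.p = 2) : 0 < w.V 2 ∧ w.V 2 < 1 :=
  ⟨pos_iff_ne_zero.2 (w.V.ne_zero_iff.2 (two_ne_zero (α := Qbar))),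
    by simpa [hw] using b2a_p_lt w⟩

/-- The valuations in the unramified closure are discrete. -/
theorem ud5_val (hw : w.p = 2) {x : Qbar} (h : Fx (Ine w) x) (h1 : w.V x < 1) : w.V x ≤ w.V 2 := by
  rcases eq_or_ne x 0 with rfl | h0
  · simp
  obtain ⟨L⟩ := exists_LD (H := ⊤) isOpen_univ w
  have e : L.e = 1 := by rw [← L.e_eq, top_inf_eq, Subgroup.relIndex_self]
  have e2 : w.V L.π = w.V 2 := by
    have := L.V_p
    rw [e, pow_one, ← w.hV, hw] at this
    simpa using this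
  obtain ⟨k, hk⟩ := L.val x (by rwa [top_inf_eq]) h0
  obtain ⟨p0, p1⟩ := ud5_lt hw
  rw [hk, e2] at h1 ⊢
  have k0 := (zpow_lt_one_iff_right_of_lt_one₀ p0 p1).1 h1
  simpa using zpow_le_zpow_right_of_le_one₀ p0 p1.le (show (1 : ℤ) ≤ k from k0)

theorem ud5_cases : ∀ j : I3, j = 0 ∨ j = 1 + 0 ∨ j = 1 + (1 + 0) := by decide

variable [Cp]

/-- Twice a rational point has vanishing first digit. -/
theorem ud5_two (bx : Bx) (hw : w.p = 2) {z : TT} (hz : ∀ g ∈ GK NN ⊓ Dec w, g • z = z) :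
    2 • z ∈ K5 w := by
  obtain ⟨hI, -, σ, s1, s2⟩ := bx.two w hw
  have ha : ∀ g ∈ Ine w, ∀ j, g (co z j) = co z (xc g + j) := fun g hg j => by
    have := co_smul g z (pm g j)
    rw [hz g ⟨hI hg, hg.1⟩, show pm g⁻¹ (pm g j) = j from (pE g).left_inv j] at this
    rw [← this, pm_of_mem (hI hg)]
  have hv : ∀ j, w.V (co z (1 + j)) = w.V (co z j) := fun j => by
    rw [← s2, ← ha σ s1, mem_Dec.1 s1.1]
  have v0 : w.V (co z 0) = 1 := by
    have := congrArg w.V (co_prod z)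
    rw [prod_I3, map_mul, map_mul, map_one, show (2 : I3) = 1 + (1 + 0) from rfl, hv, hv,
      show (1 : I3) = 1 + 0 from rfl, hv, ← sq, ← pow_succ] at this
    exact (pow_eq_one_iff_of_nonneg zero_le (by decide)).1 this
  have v1 : ∀ j, w.V (co z j) = 1 := fun j => by
    rcases ud5_cases j with rfl | rfl | rfl
    · exact v0
    · rw [hv, v0]
    · rw [hv, hv, v0]
  have c1 : ∀ j, w.V (co z (1 + j) - co z j) < 1 := fun j => by
    have := s1.2 _ (v1 j).le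
    rwa [ha σ s1, s2] at this
  have c0 : ∀ j, w.V (co z j - co z 0) < 1 := fun j => by
    rcases ud5_cases j with rfl | rfl | rfl
    · simp
    · exact c1 0
    · rw [← sub_add_sub_cancel _ (co z (1 + 0))]
      exact w.V.map_add_lt (c1 _) (c1 0)
  intro i i'
  let X : I3 → Qbar := fun k => co z (k + i) / co z (k + i') - 1
  have hX : ∀ g ∈ Ine w, ∀ k, g (X k) = X (xc g + k) := fun g hg k => by
    simp only [X, map_sub, map_div₀, map_one, ha g hg, add_assoc]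
  have x1 : ∀ k, w.V (X (1 + k)) = w.V (X k) := fun k => by
    rw [← s2, ← hX σ s1, mem_Dec.1 s1.1]
  have x0 : w.V (X 0) < 1 := by
    simp only [X, zero_add]
    rw [div_sub_one (co_ne z i'), map_div₀, v1, div_one, ← sub_sub_sub_cancel_right _ _ (co z 0)]
    exact w.V.map_sub_lt (c0 i) (c0 i')
  have n1 : w.V (∏ k, X k) = w.V (X 0) ^ 3 := by
    rw [prod_I3, map_mul, map_mul, show (2 : I3) = 1 + (1 + 0) from rfl, x1, x1,
      show (1 : I3) = 1 + 0 from rfl, x1, ← sq, ← pow_succ]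
  have n2 := ud5_val hw (x := ∏ k, X k) (fun g hg => by
    rw [map_prod]
    simp only [hX g hg]
    exact Equiv.prod_comp (Equiv.addLeft (xc g)) X)
    (n1 ▸ pow_lt_one₀ zero_le x0 three_ne_zero)
  obtain ⟨p0, p1⟩ := ud5_lt hw
  rw [co_nsmul, co_nsmul, ← div_pow, show (co z i / co z i') ^ 2 - 1 = X 0 * (X 0 + 2) by
    simp only [X, zero_add]; ring, map_mul, mul_pow, ← n1]
  exact (mul_le_mul_left n2 _).trans_lt (mul_lt_of_lt_one_right p0
    (pow_lt_one₀ zero_le (w.V.map_add_lt x0 p1) three_ne_zero))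

/-- A rational point whose first digit does not vanish. -/
theorem ud5_pt (bx : Bx) (hw : w.p = 2) : ∃ y : TT, (∀ g ∈ GK NN, g • y = y) ∧ y ∉ K5 w := by
  obtain ⟨θ, t1, t2, t3⟩ := bx.th w hw
  obtain ⟨p0, p1⟩ := ud5_lt hw
  have l1 : ∀ i, w.V (θ i) < 1 := fun i =>
    (pow_lt_one_iff_of_nonneg zero_le three_ne_zero).1 (t2 i ▸ p1)
  have l0 : ∀ i, 0 < w.V (θ i) := fun i => pos_iff_ne_zero.2 fun e => by
    have := t2 i
    rw [e, zero_pow three_ne_zero] at this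
    exact p0.ne this
  have le : ∀ i, w.V (θ i) = w.V (θ 1) := fun i =>
    (pow_left_inj₀ zero_le zero_le three_ne_zero).1 ((t2 i).trans (t2 1).symm)
  have u1 : ∀ i, w.V (1 + θ i) = 1 := fun i => w.V.map_one_add_of_lt (l1 i)
  have u0 : ∀ i, 1 + θ i ≠ 0 := fun i e => by simpa [e] using u1 i
  refine ⟨mkT (fun i => (1 + θ i) / (1 + θ (i + 1))) (by
    rw [prod_div_distrib, show ∏ i, (1 + θ (i + 1)) = ∏ i, (1 + θ i) from
      Equiv.prod_comp (Equiv.addRight 1) fun i => 1 + θ i,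
      div_self (prod_ne_zero_iff.2 fun i _ => u0 i)]), fun g hg => TT.ext fun i => ?_, fun h => ?_⟩
  · have e : pm g (pm g⁻¹ i) = i := (pE g).right_inv i
    rw [co_smul, co_mkT, co_mkT, map_div₀, map_add, map_add, map_one, t1, t1, e, pm_of_mem hg,
      ← add_assoc, ← pm_of_mem hg, e]
  · have h1 := h 0 1
    have s1 : w.V (θ 1) ^ 2 < w.V (θ 1) := by
      simpa using pow_lt_pow_right_of_lt_one₀ (l0 1) (l1 1) one_lt_two
    have s2 : w.V 2 < w.V (θ 1) := by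
      rw [← t2 1]
      simpa using pow_lt_pow_right_of_lt_one₀ (l0 1) (l1 1) (show 1 < 3 by decide)
    have s3 : w.V (-3 * θ 1) = w.V (θ 1) := by
      have : w.V ((-3 : ℤ) : Qbar) = 1 := w.V_int_eq_one.2 (by rw [hw]; decide)
      push_cast at this
      rw [map_mul, this, one_mul]
    have s4 : w.V (∑ i, θ i + (θ 0 * θ 2 - θ 1 ^ 2)) < w.V (-3 * θ 1) := by
      rw [s3]
      refine w.V.map_add_lt (t3.trans_lt s2) (w.V.map_sub_lt ?_ ?_)
      · rwa [map_mul, le 0, le 2, ← sq]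
      · rwa [map_pow]
    have a0 := u0 0
    have a1 := u0 1
    have a2 := u0 2
    rw [co_mkT, co_mkT, zero_add, show (1 + 1 : I3) = 2 from rfl,
      show (1 + θ 0) / (1 + θ 1) / ((1 + θ 1) / (1 + θ 2)) - 1 =
        (-3 * θ 1 + (∑ i, θ i + (θ 0 * θ 2 - θ 1 ^ 2))) / (1 + θ 1) ^ 2 by
          rw [sum_I3]; field_simp; ring,
      map_div₀, map_pow, u1, one_pow, div_one, w.V.map_add_eq_of_lt_left s4, s3, t2] at h1
    exact h1.false

/-- The local condition. -/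
noncomputable def ud5L (w : Plc) : AddSubgroup (Gam → Mv 1) where
  carrier := {c | c ∈ Z1 (GK NN ⊓ Dec w) (am 1 1) ∧ ∃ R : TT, 2 • R ∈ K5 w ∧
    ∀ g ∈ GK NN ⊓ Dec w, emb 1 (c g) = g • R - R}
  zero_mem' := ⟨zero_mem _, 0, by simp, fun g _ => by simp⟩
  add_mem' := by
    rintro c c' ⟨h, R, r1, r2⟩ ⟨h', R', k1, k2⟩
    refine ⟨add_mem h h', R + R', smul_add 2 R R' ▸ add_mem r1 k1, fun g hg => ?_⟩
    rw [Pi.add_apply, map_add, r2 g hg, k2 g hg, smul_add]
    abel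
  neg_mem' := by
    rintro c ⟨h, R, r1, r2⟩
    refine ⟨neg_mem h, -R, smul_neg 2 R ▸ neg_mem r1, fun g hg => ?_⟩
    rw [Pi.neg_apply, map_neg, r2 g hg, smul_neg]
    abel

omit [Cp] in
theorem d5_stmt : D5Stmt := by
  intro _ w bx bm hw
  have ac := (bm.act 1 1).mono (le_top (a := GK NN ⊓ Dec w))
  refine ⟨ud5L w, ⟨fun c h => h.1, fun x => ⟨rs_mem_Z1 ⟨ac.sm.comp fun f => f x - x,
    fun g hg h hh => ?_⟩, emb 1 x, ?_, fun g hg => ?_⟩⟩, ?_, ?_,
    fun R c r1 r2 r3 => ⟨rs_mem_Z1 r2, R, r1, fun g hg => by rw [rs_of_mem hg, r3 g hg]⟩⟩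
  · simp only [cob, ac.mul g hg h hh, map_sub]
    abel
  · rw [← map_nsmul, show 2 • x = 0 from bm.kil 1 x, map_zero]
    exact zero_mem _
  · rw [rs_of_mem hg, cob, map_sub, smul_emb]
  · obtain ⟨y, y1, y2⟩ := ud5_pt bx hw
    obtain ⟨R, hR⟩ := bm.half 1 y
    let φ : TT → Mv 1 := Function.invFun (emb 1)
    have hφ : ∀ g ∈ GK NN ⊓ Dec w, emb 1 (φ (g • R - R)) = g • R - R := fun g hg =>
      Function.invFun_eq (bm.onto 1 _ (by rw [smul_sub, smul_comm, hR, y1 g hg.1, sub_self]))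
    refine ⟨_, rs_mem_Z1 (c := fun g => φ (g • R - R))
      ⟨((bm.sm R).mono le_top).comp fun t => φ (t - R), fun g hg h hh => bm.inj 1 ?_⟩, ?_⟩
    · rw [map_add, ← smul_emb, hφ _ (mul_mem hg hh), hφ g hg, hφ h hh, smul_sub, mul_smul]
      abel
    · rintro ⟨-, R', r1, r2⟩
      refine y2 ?_
      have := add_mem (ud5_two bx hw (z := R - R') fun g hg => by
        have e := r2 g hg
        rw [rs_of_mem hg, hφ g hg] at e
        rw [smul_sub, sub_eq_sub_iff_sub_eq_sub, e]) r1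
      rwa [← smul_add, sub_add_cancel, ← pow_one 2, hR] at this
  · rintro c ⟨⟨⟨c1, c2⟩, c3⟩, R, r1, r2⟩
    refine ⟨⟨⟨c1.comp (omM 1), fun g hg h hh => ?_⟩, fun g hg => ?_⟩, om R, ?_, fun g hg => ?_⟩
    · simp only [c2 g hg h hh, map_add, bm.omm 1 1 g hg.1]
    · simp only [c3 g hg, map_zero]
    · rw [← map_nsmul]
      exact fun i i' => r1 (i + 1) (i' + 1)
    · rw [bm.emb_om, r2 g hg, map_sub, bm.smul_om g hg.1]

end Pool.Agent.B10
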