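import Pool.Agent.Lib.MP_696deb_nt.B10.UZ
import Pool.Agent.Lib.MP_696deb_nt.B2.CF

/-! Primes are removed or exchanged in the Kolyvagin system. -/

set_option autoImplicit false

open NumberField NumberTheorySymbols Finset
open scoped Classical NNReal

namespace Pool.Agent.B10
open Pool.Agent.Lib.MP_696deb_nt Pool.Agent.Lib.MP_696deb_nt.B2 Pool.Agent.Lib.MP_696deb_nt.B2.CM
  Pool.Agent.B6 Pool.Agent.B4 Pool.Agent.B8

variable [Cp] {U : US} {S : Finset Plc} {w l : Plc} {R : TT} {t ξ : Gam → Mv 1}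

theorem uv1_dvd (h : In l) : 2 ^ 1 ∣ l.p + 1 :=
  (pow_one 2).symm ▸ (l.prime.odd_of_ne_two h.1).add_one.two_dvd

theorem uv1_sub {T : Finset Plc} (h : Ad S) (k : T ⊆ S) : Ad T :=
  ⟨fun w hw => h.1 w (k hw), h.2.mono (coe_subset.2 k)⟩

theorem uv1_ins (h : Ad S) (hl : In l) (k : l.p ∉ S.image Plc.p) : l ∉ S ∧ Ad (insert l S) := by
  have e : l ∉ S := fun e => k (mem_image_of_mem _ e)
  refine ⟨e, forall_mem_insert _ _ _ |>.2 ⟨hl, h.1⟩, ?_⟩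
  rw [coe_insert, Set.injOn_insert (by exact_mod_cast e)]
  exact ⟨h.2, by rwa [← coe_image, mem_coe]⟩

theorem uv1_kc (KC : KCStmt) (X : Bx) (M : Bm) (K : U.Kd) (h : Ad S) :
    ∃ R t, Kc U S 1 (U.n S) R t ∧ ∀ v ∈ S, t (fq v) = 0 := by
  obtain ⟨R, t, k⟩ := KC U S 1 _ X M K h (K.fx S h) (K.un S h)
    (K.div S 1 h fun w hw => uv1_dvd (h.1 w hw))
  exact ⟨R, t, k, fun v hv => k.tr v hv (uv1_dvd (h.1 v hv)) (K.tr S h v hv)⟩

theorem uv1_st (ST : STStmt) (X : Bx) (M : Bm) (K : U.Kd) (hl : l ∉ S) (h : Ad (insert l S))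
    {R' : TT} {t' : Gam → Mv 1} (k : Kc U S 1 (U.n S) R t)
    (k' : Kc U (insert l S) 1 (U.n (insert l S)) R' t') : t' (gn l) ≠ 0 ↔ t (fq l) ≠ 0 := by
  have := ST U S l 0 0 1 0 _ R _ R' t t' X M K hl h (K.fx S (uv1_sub h (subset_insert _ _)))
    (one_smul _ _) k (K.fx _ h) (one_smul _ _) k' (uv1_dvd (h.1 l (mem_insert_self _ _))) rfl
  rw [pow_zero, one_smul, ← map_neg] at this
  rw [M.inj 1 this, neg_ne_zero]

theorem uv1_nd (X : Bx) (M : Bm) (hl : In l) (k : Kc U S 1 (U.n S) R t) (h : t (fq l) ≠ 0) :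
    ¬ U.Dv S 1 := fun d => by
  obtain ⟨x, hx⟩ := k.cb d
  have T := X.tm l hl
  rw [hx _ T.mem, cob, M.triv 1 1 _ T.mem (X.dec l hl _ ⟨T.mem, T.frob.1⟩)
    (by rw [cy_one_eq, one_pow]), sub_self] at h
  exact h rfl

/-- The reciprocity law for a class and its shift. -/
theorem uv1_rc (RC : RCStmt) (PR : PRStmt) (F : CFT) (X : Bx) (M : Bm) (hw : w.p = 2)
    (h : Ad (insert l S)) (c1 : Coc (GK NN) (am 1 1) t) (c2 : Coc (GK NN) (am 0 1) ξ)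
    (u1 : Ur (insert l S) t) (u2 : Ur S ξ) (z : ∀ v ∈ insert l S, t (fq v) = 0)
    (z' : ∀ v ∈ S, t (gn v) = 0 ∨ ξ (fq v) = 0)
    (i1 : F.inv 1 (GK NN) w (cupb (bm 1) (am 0 1) t ξ) = 0)
    (i2 : F.inv 1 (GK NN) w (cupb (bm 1) (am 0 1) (fun g => omM 1 (t g)) ξ) = 0)
    (n : t (gn l) ≠ 0) : ξ (fq l) = 0 := by
  have k : ∀ f : Mv 1 →+ Mv 1, (∀ g ∈ GK NN, ∀ x, am 1 1 g (f x) = f (am 1 1 g x)) →
      F.inv 1 (GK NN) w (cupb (bm 1) (am 0 1) (fun g => f (t g)) ξ) = 0 →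
      bm 1 (f (t (gn l))) (ξ (fq l)) = 0 := fun f hf i => by
    have := RC F 1 w l (insert l S) (fun g => f (t g)) ξ X M hw h (mem_insert_self _ _)
      (fun v hv => uv1_dvd (h.1 v hv))
      ⟨c1.1.comp f, fun g hg k hk => by
        dsimp only
        rw [c1.2 g hg k hk, map_add, hf g hg]⟩ c2
      (fun v a b σ hσ => by
        dsimp only
        rw [u1 v a b σ hσ, map_zero])
      (fun v a b => u2 v a fun x hx => b x (mem_insert_of_mem hx)) i fun v hv e => by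
        rcases z' v (mem_of_mem_insert_of_ne hv e) with a | a <;> simp [z v hv, a]
    simpa [z l (mem_insert_self _ _)] using this.symm
  exact (one_smul _ _).symm.trans ((PR 1).2.2 0 0 _ _ rfl (k (AddMonoidHom.id _) (fun _ _ _ => rfl) i1)
    (k _ (M.omm 1 1) i2) (by rwa [pow_zero, one_smul]))

theorem uv1_inv (F : CFT) (h : ∀ g ∈ GK NN ⊓ Dec w, ξ g = 0) (t : Gam → Mv 1) :
    F.inv 1 (GK NN) w (cupb (bm 1) (am 0 1) t ξ) = 0 := by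
  have z : C2 1 (GK NN ⊓ Dec w) 0 :=
    ⟨⟨⊤, isOpen_univ, inferInstance, fun _ _ _ _ _ _ _ _ _ _ => rfl⟩, fun _ _ _ _ _ _ => by simp⟩
  have := F.add (op_GK NN) z z
  rw [add_zero, left_eq_add] at this
  exact (F.congr fun g _ k hk => by simp [cupb, h k hk]).trans this

theorem uv1_lam (X : Bx) (K : U.Kd) (hw : w.p = 2) (h : Ad S) {Λ : AddSubgroup (Gam → Mv 1)}
    (L : L5 w Λ) (k : Kc U S 1 (U.n S) R t) (n : U.n S ∈ K5 w) : rs (GK NN ⊓ Dec w) t ∈ Λ := by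
  refine L.kum R t (k.root ▸ n :) ⟨k.coc.1.1.mono inf_le_left, fun g a b c => k.coc.1.2 g a.1 b c.1⟩
    fun g hg => ?_
  rw [k.val g hg.1 0 (zero_mem _), sub_zero]
  rw [smul_zero, K.fx S h g hg.1 (U.dec _ w (X.aw S h) hw g hg), sub_self]

omit [Cp]

theorem uv1_gd [Cp] {m : ℕ} {B C : Finset ℕ} (h : Gd m (B ∪ C) l) : Gd m B l ∧ l.p ∉ C :=
  ⟨⟨fun e => h.out (mem_union_left _ e), h.inn, h.m4, h.mod, h.e4⟩,
    fun e => h.out (mem_union_right _ e)⟩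

theorem v1_stmt (KC : KCStmt) (ST : STStmt) (M1 : M1Stmt) (P1 : P1Stmt) (RC : RCStmt)
    (PR : PRStmt) : V1Stmt := by
  intro _ U m B p S X M K hm hc hp h d
  obtain ⟨F⟩ := exists_cft
  have hw : w2.p = 2 := pl_p _ _
  have ip := h.1 p (mem_insert_self _ _)
  obtain ⟨R, t, k, z⟩ := uv1_kc KC X M K h
  by_cases e : t (gn p) = 0
  swap
  · obtain ⟨R0, t0, k0, -⟩ := uv1_kc KC X M K (uv1_sub h (subset_insert _ _))
    exact .inl (uv1_nd X M ip k0 ((uv1_st ST X M K hp h k0 k).1 e))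
  obtain ⟨ξ, x1, x2, x3, x4⟩ := M1 w2 p S t X M hw hp h (k.nc d) k.ur z e
  obtain ⟨l, g, l1, l2⟩ := P1 m (B ∪ (insert p S).image Plc.p) _ ξ t X M hm hc h x1 (k.nc d) x2 k.ur
  obtain ⟨g1, g2⟩ := uv1_gd g
  obtain ⟨a1, a2⟩ := uv1_ins h g1.inn g2
  have a3 : Ad (insert l S) := uv1_sub a2 (insert_subset_insert _ (subset_insert _ _))
  obtain ⟨R', t', k', z'⟩ := uv1_kc KC X M K a2
  obtain ⟨R0, t0, k0, -⟩ := uv1_kc KC X M K a3
  have n : t' (gn p) ≠ 0 := fun n => l1 (uv1_rc RC PR F X M hw a2 k'.coc.1 x1.1 k'.ur x2 z'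
    (forall_mem_insert _ _ _ |>.2 ⟨.inl n, fun v hv => .inr (x4 v hv)⟩) (uv1_inv F x3 _)
    (uv1_inv F x3 _) ((uv1_st ST X M K a1 a2 k k').2 l2))
  rw [Finset.insert_comm] at a2 k'
  exact .inr ⟨l, g1, fun b => a1 (mem_insert_of_mem b), a3, uv1_nd X M ip k0 ((uv1_st ST X M K
    (fun b => (mem_insert.1 b).elim (fun c => a1 (mem_insert.2 (.inl c.symm))) hp) a2 k0 k').1 n)⟩

theorem v2_stmt (KC : KCStmt) (ST : STStmt) (M2 : M2Stmt) (D5 : D5Stmt) (P1 : P1Stmt)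
    (RC : RCStmt) (PR : PRStmt) : V2Stmt := by
  intro _ U m B w S X M K hm hc hw h d
  obtain ⟨F⟩ := exists_cft
  obtain ⟨Λ, L⟩ := D5 w X M hw
  obtain ⟨R, t, k, z⟩ := uv1_kc KC X M K h
  refine or_iff_not_imp_left.2 fun n => ?_
  obtain ⟨ξ, x1, x2, x3, x4⟩ := M2 F w S Λ t X M hw h L (k.nc d) k.ur z
    (uv1_lam X K hw h L k (not_not.1 n))
  obtain ⟨l, g, l1, l2⟩ := P1 m (B ∪ S.image Plc.p) _ ξ t X M hm hc h x1 (k.nc d) x2 k.ur
  obtain ⟨g1, g2⟩ := uv1_gd g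
  obtain ⟨a1, a2⟩ := uv1_ins h g1.inn g2
  obtain ⟨R', t', k', z'⟩ := uv1_kc KC X M K a2
  refine ⟨l, g1, a1, a2, fun n' => l1 ?_⟩
  have r := uv1_lam X K hw a2 L k' n'
  refine uv1_rc RC PR F X M hw a2 k'.coc.1 x1.1 k'.ur x2 z' (fun v hv => .inr (x3 v hv))
    (.trans ?_ (x4 _ r)) (.trans ?_ (x4 _ (L.om _ r))) ((uv1_st ST X M K a1 a2 k k').2 l2) <;>
  exact inv_cupb_congr F (fun g hg => by rw [rs_of_mem hg]) fun _ _ => rfl

end Pool.Agent.B10
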