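import Pool.Agent.Lib.MP_696deb_nt.B10.EZ
import Pool.Agent.Lib.MP_696deb_nt.B10.UV1
import Pool.Agent.Lib.MP_696deb_nt.B10.UD5

/-! Two more primes make the class of the half sum nonzero at a given inert prime. -/

set_option autoImplicit false

open NumberField NumberTheorySymbols Finset
open scoped Classical NNReal

namespace Pool.Agent.B10
open Pool.Agent.Lib.MP_696deb_nt Pool.Agent.Lib.MP_696deb_nt.B2 Pool.Agent.Lib.MP_696deb_nt.B2.CM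
  Pool.Agent.B6 Pool.Agent.B4 Pool.Agent.B8

variable [Cp] {U : US} {S Z : Finset Plc} {w l q : Plc} {y ξ : Gam → Mv 1}

theorem ef2_ur (h : Ur S y) (k : S ⊆ Z) : Ur Z y := fun v a b => h v a fun u hu => b u (k hu)

theorem ef2_gn (X : Bx) (h : Ur S y) (hl : In l) (k : ∀ v ∈ S, l.p ≠ v.p) : y (gn l) = 0 :=
  h l hl.1 (fun v hv e => k v hv e.symm) _ ⟨(X.ine l hl).1 (gn_spec hl.1).1, (gn_spec hl.1).1⟩

theorem ef2_ne (h : Ad (insert l S)) (hl : l ∉ S) : ∀ v ∈ S, l.p ≠ v.p := fun _ hv e =>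
  hl (h.2 (mem_insert_self l S) (mem_insert_of_mem hv) e ▸ hv)

theorem ef2_nc (X : Bx) (M : Bm) (hl : In l) (c : Coc (GK NN) (am 1 1) y) (h : y (gn l) ≠ 0) :
    Nc 1 1 y := ⟨c, fun ⟨x, hx⟩ => h (by
  have s := (gn_spec hl.1).1
  have T := (X.ine l hl).1 s
  rw [hx _ T, cob, M.triv 1 1 _ T (X.dec l hl _ ⟨T, s.1⟩)
    (by rw [cy_one_eq, one_pow]), sub_self])⟩

/-- The reciprocity law for a class and its shift. -/
theorem ef2_rc (RC : RCStmt) (PR : PRStmt) (F : CFT) (X : Bx) (M : Bm) (hw : w.p = 2) (h : Ad Z)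
    (hl : l ∈ Z) (c1 : Coc (GK NN) (am 1 1) y) (c2 : Coc (GK NN) (am 1 1) ξ) (u1 : Ur Z y)
    (u2 : Ur Z ξ) (z : ∀ v ∈ Z, v ≠ l → (y (fq v) = y (gn v) ∧ ξ (fq v) = ξ (gn v)) ∨
      ((y (fq v) = 0 ∨ ξ (gn v) = 0) ∧ (y (gn v) = 0 ∨ ξ (fq v) = 0)))
    (i1 : F.inv 1 (GK NN) w (cupb (bm 1) (am 0 1) y ξ) = 0)
    (i2 : F.inv 1 (GK NN) w (cupb (bm 1) (am 0 1) (fun g => omM 1 (y g)) ξ) = 0) :
    (ξ (gn l) = 0 → y (gn l) ≠ 0 → ξ (fq l) = 0) ∧ (y (gn l) = 0 → y (fq l) ≠ 0 → ξ (gn l) = 0) := by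
  have k : ∀ f : Mv 1 →+ Mv 1, (∀ g ∈ GK NN, ∀ x, am 1 1 g (f x) = f (am 1 1 g x)) →
      F.inv 1 (GK NN) w (cupb (bm 1) (am 0 1) (fun g => f (y g)) ξ) = 0 →
      bm 1 (f (y (fq l))) (ξ (gn l)) = bm 1 (f (y (gn l))) (ξ (fq l)) := fun f hf i =>
    RC F 1 w l Z (fun g => f (y g)) ξ X M hw h hl (fun v hv => uv1_dvd (h.1 v hv))
      (c1.map f fun g hg x => (hf g hg x).symm) (am_zero ▸ c2)
      (fun v a b σ hσ => by
        dsimp only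
        rw [u1 v a b σ hσ, map_zero]) u2 i fun v hv e => by
        rcases z v hv e with a | ⟨a | a, b | b⟩
        · rw [a.1, a.2]
        all_goals simp [a, b]
  have k1 := k (AddMonoidHom.id _) (fun _ _ _ => rfl) i1
  have k2 := k _ (M.omm 1 1) i2
  have p : ∀ a b : Mv 1, bm 1 a b = 0 → bm 1 (omM 1 a) b = 0 → a ≠ 0 → b = 0 := fun a b e e' n =>
    (one_smul _ _).symm.trans ((PR 1).2.2 0 0 a b rfl e e' (by rwa [pow_zero, one_smul]))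
  exact ⟨fun e => p _ _ (by simpa [e] using k1.symm) (by simpa [e] using k2.symm),
    fun e => p _ _ (by simpa [e] using k1) (by simpa [e] using k2)⟩

/-- The class for one more prime against a class that is free at `q`. -/
theorem ef2_two (RC : RCStmt) (PR : PRStmt) (F : CFT) (X : Bx) (M : Bm) (hw : w.p = 2)
    (hq : q ∉ S) (hl : l ∉ insert q S) (h : Ad (insert l (insert q S)))
    (c1 : Coc (GK NN) (am 1 1) y) (c2 : Coc (GK NN) (am 1 1) ξ) (u1 : Ur (insert l S) y)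
    (u2 : Ur (insert q S) ξ) (d1 : Dg (insert l S) y) (d2 : Dg S ξ)
    (i1 : F.inv 1 (GK NN) w (cupb (bm 1) (am 0 1) y ξ) = 0)
    (i2 : F.inv 1 (GK NN) w (cupb (bm 1) (am 0 1) (fun g => omM 1 (y g)) ξ) = 0) :
    (y (fq q) = 0 ∨ ξ (gn q) = 0 → y (gn l) ≠ 0 → ξ (fq l) = 0) ∧
      (ξ (fq l) = 0 → y (fq q) ≠ 0 → ξ (gn q) = 0) := by
  have m : q ∈ insert l (insert q S) := mem_insert_of_mem (mem_insert_self _ _)
  have a1 : ξ (gn l) = 0 := ef2_gn X u2 (h.1 l (mem_insert_self _ _)) (ef2_ne h hl)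
  have a2 : y (gn q) = 0 := ef2_gn X u1 (h.1 q m) (ef2_ne (Finset.insert_comm l q S ▸ h) fun e =>
    (mem_insert.1 e).elim (fun e => hl (e ▸ mem_insert_self _ _)) hq)
  have r := fun (a : Plc) ha z => ef2_rc (l := a) RC PR F X M hw h ha c1 c2
    (ef2_ur u1 (insert_subset_insert _ (subset_insert _ _))) (ef2_ur u2 (subset_insert _ _)) z i1 i2
  refine ⟨fun e => (r l (mem_insert_self _ _) fun v hv n => ?_).1 a1,
    fun e => (r q m fun v hv n => ?_).2 a2⟩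
  · rcases mem_insert.1 (mem_of_mem_insert_of_ne hv n) with rfl | hv
    · exact .inr ⟨e, .inl a2⟩
    · exact .inl ⟨d1 v (mem_insert_of_mem hv), d2 v hv⟩
  · rcases mem_insert.1 hv with rfl | hv
    · exact .inr ⟨.inr a1, .inr e⟩
    · have hv := mem_of_mem_insert_of_ne hv n
      exact .inl ⟨d1 v (mem_insert_of_mem hv), d2 v hv⟩

theorem ef2_new {m : ℕ} {B : Finset ℕ} (h : Ad (insert q S)) (h4 : ∀ v ∈ S, v.p % 4 = 1)
    (g : Gd m (B ∪ (insert q S).image Plc.p) l) : Gd m B l ∧ l ∉ insert q S ∧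
      Ad (insert l (insert q S)) ∧ l ∉ S ∧ A1 (insert l S) := by
  obtain ⟨g1, g2⟩ := uv1_gd g
  obtain ⟨a1, a2⟩ := uv1_ins h g1.inn g2
  exact ⟨g1, a1, a2, fun e => a1 (mem_insert_of_mem e),
    uv1_sub a2 (insert_subset_insert _ (subset_insert _ _)),
    forall_mem_insert _ _ _ |>.2 ⟨g1.m4, h4⟩⟩

variable {t : Finset Plc → Gam → Mv 1}

theorem ef2_rho (MD : MDStmt) (RL : RLStmt) (P1 : P1Stmt) (RC : RCStmt) (PR : PRStmt) (X : Bx)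
    (M : Bm) (f : Fam U t) (hw : w.p = 2) (hq : q ∉ S) (h : Ad (insert q S)) (a : A1 S)
    (n : Nc 1 1 (t S)) (e : t S (fq q) = 0) : t S (gn q) = 0 ∧ ∃ ρ, Coc (GK NN) (am 1 1) ρ ∧
      Ur (insert q S) ρ ∧ (∀ g ∈ GK NN ⊓ Dec w, ρ g = 0) ∧ Dg S ρ ∧ ρ (gn q) ≠ 0 ∧ Rl ρ := by
  obtain ⟨F⟩ := exists_cft
  have u := ef2_ur (f.ur S a) (subset_insert q S)
  have e' := ef2_gn X (f.ur S a) (h.1 q (mem_insert_self _ _)) (ef2_ne h hq)
  obtain ⟨ξ, x1, x2, x3, x4⟩ := MD w q S _ X M hw hq h n u (f.dg S a) e e'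
  refine ⟨e', RL w q S ξ X M hw h x1.1 x2 x3 x4 fun k => ?_⟩
  obtain ⟨l, g, l1, l2⟩ := P1 1 (∅ ∪ (insert q S).image Plc.p) _ ξ (t S) X M one_ne_zero
    (Nat.coprime_one_left _) h (am_zero ▸ x1.1 |> fun c => ⟨c, am_zero ▸ x1.2⟩) n x2 u
  obtain ⟨-, g2, g3, g4, g5⟩ := ef2_new h a.2 g
  exact l1 ((ef2_two RC PR F X M hw hq g2 g3 (f.coc _ g5) x1.1 (f.ur _ g5) x2 (f.dg _ g5) x4
    (uv1_inv F x3 _) (uv1_inv F x3 _)).1 (.inr k) (f.step S l g4 g5 ▸ l2))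

theorem ef2_lam (f : Fam U t) (hw : w.p = 2) (a : A1 S) {Λ : AddSubgroup (Gam → Mv 1)}
    (L : L5 w Λ) (n : U.P S ∈ K5 w) : rs (GK NN ⊓ Dec w) (t S) ∈ Λ := by
  obtain ⟨R, r1, r2⟩ := f.kum S w a hw
  exact L.kum R _ (r1 ▸ n) ((f.coc S a).mono inf_le_left) r2

theorem ef2_dig (X : Bx) (M : Bm) (f : Fam U t) (hw : w.p = 2) (a : A1 S) (n : U.P S ∉ K5 w) :
    Nc 1 1 (t S) := ⟨f.coc S a, fun ⟨x, hx⟩ => n (by
  obtain ⟨R, r1, r2⟩ := f.kum S w a hw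
  have := ud5_two X hw (z := R - emb 1 x) fun g hg => by
    have e := r2 g hg
    rw [hx g hg.1, cob, map_sub, ← smul_emb] at e
    rw [smul_sub]
    linear_combination (norm := abel_nf) -e
  rwa [smul_sub, r1, ← map_nsmul, show 2 • x = 0 from M.kil 1 x, map_zero, sub_zero] at this)⟩

omit [Cp]

theorem f2_stmt (FA : FAStmt) (MD : MDStmt) (ME : MEStmt) (RL : RLStmt) (AT : ATStmt)
    (PG : PGStmt) (D5 : D5Stmt) (P1 : P1Stmt) (RC : RCStmt) (PR : PRStmt) : F2Stmt := by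
  intro _ U m B w q S X M K hm hc hw iq qB hS g0 d0 par
  obtain ⟨t, f⟩ := FA U X M K
  obtain ⟨F⟩ := exists_cft
  obtain ⟨Λ, L⟩ := D5 w X M hw
  have a0 : A1 S := ⟨hS, fun v hv => (g0 v hv).m4⟩
  by_cases e0 : t S (fq q) = 0
  swap
  · exact ⟨S, by omega, hS, g0, d0, _, f.coc S a0, f.ur S a0, f.dg S a0, e0⟩
  have ins : ∀ {Z : Finset Plc}, Ad Z → (∀ l ∈ Z, Gd m B l) → q ∉ Z ∧ Ad (insert q Z) :=
    fun h k => uv1_ins h iq fun e => by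
      obtain ⟨v, hv, e⟩ := mem_image.1 e
      exact (k v hv).out (e ▸ qB)
  obtain ⟨q0, h0⟩ := ins hS g0
  have n0 := ef2_dig X M f hw a0 d0
  obtain ⟨z0, ρ, r1, r2, r3, r4, r5, r6⟩ := ef2_rho MD RL P1 RC PR X M f hw q0 h0 a0 n0 e0
  have u0 := ef2_ur (f.ur S a0) (subset_insert q S)
  obtain ⟨l, g, l1, l2⟩ := PG m (B ∪ (insert q S).image Plc.p) _ _ _ _ _ X M hm hc h0 n0.1 n0.1 r1
    u0 u0 r2 (AT q _ _ ρ X M iq n0 n0 r1 r6 z0 z0 r5).1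
  obtain ⟨g1, g2, g3, g4, a1⟩ := ef2_new h0 a0.2 g
  have e1 : t (insert l S) (fq q) = 0 := by_contra fun e => r5
    ((ef2_two RC PR F X M hw q0 g2 g3 (f.coc _ a1) r1 (f.ur _ a1) r2 (f.dg _ a1) r4
      (uv1_inv F r3 _) (uv1_inv F r3 _)).2 l2 e)
  have n1 := ef2_nc X M g1.inn (f.coc _ a1) (f.step S l g4 a1 ▸ l1)
  have d1 := par l g4 a1.1 g1
  have g5 : ∀ v ∈ insert l S, Gd m B v := forall_mem_insert _ _ _ |>.2 ⟨g1, g0⟩
  have c1 : (insert l S).card = S.card + 1 := card_insert_of_notMem g4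
  generalize insert l S = Z at a1 e1 n1 d1 g5 c1
  obtain ⟨q1, h1⟩ := ins a1.1 g5
  obtain ⟨z1, ρ, r1, r2, r3, r4, r5, r6⟩ := ef2_rho MD RL P1 RC PR X M f hw q1 h1 a1 n1 e1
  obtain ⟨ξ, x1, x2, x3, x4⟩ := ME F w Z Λ _ X M hw a1.1 L n1 (f.ur _ a1) (f.dg _ a1)
    (ef2_lam f hw a1 L d1)
  have z2 := ef2_gn X x2 iq (ef2_ne h1 q1)
  have u2 := ef2_ur x2 (subset_insert q Z)
  obtain ⟨k, g, k1, k2, k3⟩ := PG m (B ∪ (insert q Z).image Plc.p) _ _ _ _ _ X M hm hc h1 n1.1 x1.1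
    r1 (ef2_ur (f.ur Z a1) (subset_insert q Z)) u2 r2 (AT q _ _ ρ X M iq n1 x1 r1 r6 z1 z2 r5).2
  obtain ⟨g1, g2, g3, g4, a2⟩ := ef2_new h1 a1.2 g
  have s := f.step Z k g4 a2 ▸ k1
  refine ⟨insert k Z, by rw [card_insert_of_notMem g4, c1], a2.1,
    forall_mem_insert _ _ _ |>.2 ⟨g1, g5⟩, fun d => k2 ?_, _, f.coc _ a2, f.ur _ a2, f.dg _ a2,
    fun e => k3 ?_⟩
  · have r := ef2_lam f hw a2 L d
    refine (ef2_two RC PR F X M hw q1 g2 g3 (f.coc _ a2) x1.1 (f.ur _ a2) u2 (f.dg _ a2) x3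
      (.trans ?_ (x4 _ r)) (.trans ?_ (x4 _ (L.om _ r)))).1 (.inr z2) s <;>
    exact inv_cupb_congr F (fun g hg => by rw [rs_of_mem hg]) fun _ _ => rfl
  · exact (ef2_two RC PR F X M hw q1 g2 g3 (f.coc _ a2) r1 (f.ur _ a2) r2 (f.dg _ a2) r4
      (uv1_inv F r3 _) (uv1_inv F r3 _)).1 (.inl e) s

end Pool.Agent.B10
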