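import Pool.Agent.Lib.MP_696deb_nt.B10.EZ
import Pool.Agent.Lib.MP_696deb_nt.B10.UV1

/-! The classes of the derivatives. -/

set_option autoImplicit false

open NumberField NumberTheorySymbols Finset
open scoped Classical NNReal

namespace Pool.Agent.B10
open Pool.Agent.Lib.MP_696deb_nt Pool.Agent.Lib.MP_696deb_nt.B2 Pool.Agent.Lib.MP_696deb_nt.B2.CM
  Pool.Agent.B6 Pool.Agent.B4 Pool.Agent.B8

theorem efa_ins {A : Type*} [AddCommGroup A] (c : Plc → ℤ) (P : Finset Plc → A) {a : Plc}
    {S : Finset Plc} (h : a ∉ S) : ∑ T ∈ (insert a S).powerset, (∏ w ∈ insert a S \ T, c w) • P T =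
      ∑ T ∈ S.powerset, (∏ w ∈ S \ T, c w) • (c a • P T + P (insert a T)) := by
  rw [sum_powerset_insert h, ← sum_add_distrib]
  refine sum_congr rfl fun T hT => ?_
  rw [insert_sdiff_of_notMem _ fun e => h (mem_powerset.1 hT e), prod_insert (by simp [h]),
    insert_sdiff_insert, sdiff_insert_of_notMem h, smul_add, mul_comm, mul_smul]

/-- The inversion formula. -/
theorem efa_inv {A : Type*} [AddCommGroup A] (c : Plc → ℤ) (S : Finset Plc) (P : Finset Plc → A) :
    ∑ T ∈ S.powerset, (∏ w ∈ S \ T, c w) •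
      ∑ T' ∈ T.powerset, (∏ w ∈ T \ T', -c w) • P T' = P S := by
  induction S using Finset.induction_on generalizing P with
  | empty => simp
  | insert a S h ih =>
    rw [efa_ins c _ h, ← ih fun T => P (insert a T)]
    refine sum_congr rfl fun T hT => ?_
    rw [efa_ins _ _ fun e => h (mem_powerset.1 hT e), smul_sum, ← sum_add_distrib]
    refine congrArg _ (sum_congr rfl fun T' _ => ?_)
    module

theorem efa_odd {l : ℕ} (h : l % 4 = 1) : Odd (US.cr l) := by
  refine Odd.mul (Odd.mul ?_ (Nat.Even.sub_odd Nat.one_le_two_pow ?_ odd_one)) ?_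
  · exact Nat.odd_iff.2 (by omega)
  · exact (Nat.even_pow.2 ⟨even_two, (Nat.prime_two.factorization_pos_of_dvd l.succ_ne_zero
      (by omega)).ne'⟩ :)
  · exact Nat.odd_iff.2 (by omega)

theorem fa_stmt (KC : KCStmt) (ST : STStmt) : FAStmt := by
  intro _ U X M K
  choose! R t k z using fun S (h : Ad S) => uv1_kc (S := S) KC X M K h
  have two : ∀ x : Mv 1, 2 • x = 0 := M.kil 1
  have sub : ∀ {S T : Finset Plc}, Ad S → T ∈ S.powerset → Ad T := fun h e =>
    uv1_sub h (mem_powerset.1 e)
  have st : ∀ S l, l ∉ S → Ad (insert l S) →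
      (∑ T ∈ (insert l S).powerset, t T) (gn l) = (∑ T ∈ S.powerset, t T) (fq l) ∧
      (∑ T ∈ (insert l S).powerset, t T) (fq l) = (∑ T ∈ S.powerset, t T) (fq l) := by
    intro S l hl h
    have il := h.1 l (mem_insert_self _ _)
    have g := (X.tm l il).gen.1
    simp only [sum_powerset_insert hl, Finset.sum_apply, ← sum_add_distrib]
    refine ⟨?_, ?_⟩ <;> refine sum_congr rfl fun T hT => ?_ <;>
      have a : Ad (insert l T) := uv1_sub h (insert_subset_insert _ (mem_powerset.1 hT))
    · have b := uv1_sub a (subset_insert _ _)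
      have n : l ∉ T := fun e => hl (mem_powerset.1 hT e)
      have := ST U T l 0 0 1 0 _ _ _ _ _ _ X M K n a (K.fx T b) (one_smul _ _) (k T b) (K.fx _ a)
        (one_smul _ _) (k _ a) (uv1_dvd il) rfl
      rw [pow_zero, one_smul, ← map_neg] at this
      rw [(k T b).ur l il.1 (fun v hv e => n (a.2 (by simp [hv]) (by simp) e ▸ hv)) _
        ⟨(X.ine l il).1 g, g⟩, zero_add, M.inj 1 this, neg_eq_iff_add_eq_zero, ← two_nsmul, two]
    · rw [z _ a l (mem_insert_self _ _), add_zero]
  refine ⟨fun S => ∑ T ∈ S.powerset, t T, fun S h => (sum_mem fun T hT => (k T (sub h.1 hT)).coc :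
    _ ∈ Z1 (GK NN) (am 1 1)).1, fun S h w a b σ hσ => ?_, fun S h v hv => ?_,
    fun S l a h => (st S l a h.1).1, fun S w h hw =>
      ⟨∑ T ∈ S.powerset, (∏ v ∈ S \ T, (US.cr v.p : ℤ)) • R T, ?_, fun g hg => ?_⟩⟩
  · rw [Finset.sum_apply]
    exact sum_eq_zero fun T hT => (k T (sub h.1 hT)).ur w a
      (fun v e => b v (mem_powerset.1 hT e)) σ hσ
  · have := st _ v (notMem_erase v S) ((insert_erase hv).symm ▸ h.1)
    rw [insert_erase hv] at this
    exact this.2.trans this.1.symm
  · rw [← efa_inv (fun v => US.cr v.p) S U.P, smul_sum]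
    exact sum_congr rfl fun T hT => (smul_comm _ _ _).trans
      (congrArg _ (k T (sub h.1 hT)).root)
  · rw [Finset.sum_apply, map_sum, smul_sum, ← sum_sub_distrib]
    refine sum_congr rfl fun T hT => ?_
    have a := sub h.1 hT
    have e := (k T a).val g hg.1 0 (zero_mem _) (by
      rw [smul_zero, K.fx T a g hg.1 (U.dec _ w (X.aw T a) hw g hg), sub_self])
    obtain ⟨m, hm⟩ : Odd (∏ v ∈ S \ T, (US.cr v.p : ℤ)) := prod_induction _ _ (fun _ _ => Odd.mul)
      odd_one fun v hv => (efa_odd (h.2 v (sdiff_subset hv))).natCast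
    rw [smul_comm, ← smul_sub, ← sub_zero (g • R T - R T), ← e, hm, add_smul, one_smul, mul_comm,
      mul_smul, two_smul, ← map_add, ← two_nsmul, two, map_zero, smul_zero, zero_add]

end Pool.Agent.B10
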