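import Pool.Agent.Lib.MP_696deb_nt.B10.EZ
import Pool.Agent.Lib.MP_696deb_nt.B8.CFa

/-! The points of order two of the curve and of the torus. -/

set_option autoImplicit false

open Finset
open scoped Classical

namespace Pool.Agent.B10
open Pool.Agent.Lib.MP_696deb_nt Pool.Agent.Lib.MP_696deb_nt.B2 Pool.Agent.B6 Pool.Agent.B8

theorem eji_vec : (∀ i : I3, ∑ k, (if k = i then 0 else 1 : ZMod (2 ^ 1)) = 0) ∧
    ∀ f : I3 → ZMod (2 ^ 1), ∑ k, f k = 0 → f = 0 ∨ ∃ i, f = fun k => if k = i then 0 else 1 := by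
  decide

theorem eji_fix [Cp] {g : Gam} (hg : g ∈ GK NN) {P : B6.EE} (h : 2 • P = 0) (h0 : P ≠ 0) :
    g • P = P ↔ xc g = 0 := by
  rw [B6.two_fix g h, xc_ker hg]
  rcases B6.cub_eq_zero.1 ((B6.two_iff.1 h).resolve_left h0) with k | k | k <;> rw [k] <;>
    exact ⟨cfa_all hg, fun e => e _⟩

theorem eji_eq [Cp] {g h : Gam} (hg : g ∈ GK NN) (hh : h ∈ GK NN) :
    g • B6.T1 = h • B6.T1 ↔ xc g = xc h := by
  rw [← inv_smul_eq_iff, ← mul_smul, eji_fix (mul_mem (inv_mem hh) hg) B6.two_T1 B6.T_ne.1,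
    ← add_right_inj (xc h), ← xc_mul hh, mul_inv_cancel_left, add_zero]

theorem ji_stmt : JIStmt := by
  intro _ X _
  obtain ⟨a, -, σ, b, c⟩ := X.two w2 (pl_p _ _)
  have hσ := a b
  have : ∀ i : I3, ∃ s ∈ GK NN, xc s = i := fun i => by
    have : i = 0 ∨ i = 1 ∨ i = 1 + 1 := by revert i; decide
    rcases this with rfl | rfl | rfl
    exacts [⟨1, one_mem _, xc_one⟩, ⟨σ, hσ, c⟩, ⟨σ * σ, mul_mem hσ hσ, by rw [xc_mul hσ, c]⟩]
  choose s s1 s2 using this
  have p2 : ∀ i, 2 ^ 1 • s i • B6.T1 = 0 := fun i => by rw [smul_comm, pow_one, B6.two_T1, smul_zero]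
  have p0 : ∀ i, s i • B6.T1 ≠ 0 := fun i => mt (smul_eq_zero_iff_eq _).1 B6.T_ne.1
  have pg : ∀ g ∈ GK NN, ∀ i, g • s i • B6.T1 = s (pE g i) • B6.T1 := fun g hg i => by
    rw [← mul_smul, eji_eq (mul_mem hg (s1 i)) (s1 _), xc_mul hg, s2, s2]
    exact (pm_of_mem hg i).symm
  have ps : ∑ i, s i • B6.T1 = 0 := by
    by_contra e
    refine absurd (c.symm.trans ((eji_fix hσ ?_ e).1 ?_)) (by decide)
    · exact smul_sum.trans (sum_eq_zero fun i _ => p2 i)
    · rw [smul_sum, sum_congr rfl fun i _ => pg σ hσ i]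
      exact (pE σ).sum_comp fun i => s i • B6.T1
  let j : Mv 1 →+ B6.EE := AddMonoidHom.mk' (fun x => ∑ i, (x.1 i).val • s i • B6.T1) fun x y => by
    rw [← sum_add_distrib]
    exact sum_congr rfl fun i _ => by
      rw [← add_nsmul, nsmul_eq_mod_nsmul (_ + _) (p2 i), ← ZMod.val_add]
      rfl
  have hj : ∀ x, j x = ∑ i, (x.1 i).val • s i • B6.T1 := fun _ => rfl
  have jv : ∀ i, j ⟨_, eji_vec.1 i⟩ = s i • B6.T1 := fun i => by
    rw [← B6.neg_two (p2 i), eq_neg_iff_add_eq_zero, ← ps, ← sum_erase_add _ _ (mem_univ i)]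
    congr 1
    rw [hj, ← sum_erase_add _ _ (mem_univ i)]
    dsimp only
    rw [if_pos rfl, ZMod.val_zero, zero_smul, add_zero]
    exact sum_congr rfl fun k hk => by
      rw [if_neg (ne_of_mem_erase hk)]
      exact one_smul _ _
  refine ⟨j, (injective_iff_map_eq_zero j).2 fun x hx => ?_, fun P hP => ?_, fun g hg x => ?_⟩
  · rcases eji_vec.2 x.1 x.2 with e | ⟨i, e⟩
    · exact Subtype.ext e
    · exact absurd ((jv i).symm.trans ((congrArg j (Subtype.ext e.symm)).trans hx)) (p0 i)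
  · rcases B6.two_eq_zero.1 hP with rfl | k
    · exact ⟨0, map_zero j⟩
    have e : univ.image (fun i => s i • B6.T1) = {B6.T1, B6.T2, B6.T3} := eq_of_subset_of_card_le
      (image_subset_iff.2 fun i _ => by simpa [p0 i] using B6.two_eq_zero.1 (p2 i)) (by
        rw [card_image_of_injective _ fun i k e => by
          rw [← s2 i, (eji_eq (s1 i) (s1 k)).1 e, s2]]
        exact card_le_three)
    obtain ⟨i, -, hi⟩ := mem_image.1 (e ▸ (by simpa using k) : P ∈ univ.image fun i => s i • B6.T1)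
    exact ⟨_, (jv i).trans hi⟩
  · rw [hj, hj, smul_sum, ← (pE g).sum_comp]
    refine sum_congr rfl fun i _ => ?_
    rw [smul_comm g, pg g hg, am_apply, cy_one_eq, one_pow, one_mul]
    exact congrArg (fun k => (x.1 k).val • _) ((pE g).left_inv i)

end Pool.Agent.B10
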