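import Pool.Agent.Lib.MP_696deb_nt.B10.EF2
import Pool.Agent.Lib.MP_696deb_nt.B10.E5

/-! The reciprocity law over the quadratic field moves indivisibility from `q` to two. -/

set_option autoImplicit false

open NumberField NumberTheorySymbols Finset Matrix
open scoped Classical NNReal

namespace Pool.Agent.B10
open Pool.Agent.Lib.MP_696deb_nt Pool.Agent.Lib.MP_696deb_nt.B2 Pool.Agent.Lib.MP_696deb_nt.B2.CM
  Pool.Agent.B6 Pool.Agent.B8
open Pool.Agent.Lib.MP_696deb_nt.B6 (W2 sg sg_apply)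
open Pool.Agent.B6.B7.S9 Pool.Agent.B6.E9

theorem elq_inv [Cp] (F : CFT) {w : Plc} {y : Gam → Mv 1} (h : ∀ g ∈ GK NN ⊓ Dec w, y g = 0)
    (t : Gam → Mv 1) : F.inv 1 (GK NN) w (cupb (bm 1) (am 0 1) y t) = 0 :=
  (F.congr fun g hg k _ => by simp [cupb, h g hg]).trans
    (uv1_inv (w := w) (ξ := 0) F (fun _ _ => rfl) t)

theorem lq_stmt (JI : JIStmt) (RC : RCStmt) (PR : PRStmt) : LQStmt := by
  intro _ a M q S t X Y he ha hq hS h4 c1 c2 c3 c4 d y w' v hw' hv d1 dq dS dl y2 y3 R f e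
  obtain ⟨F⟩ := exists_cft
  obtain ⟨j, j1, j2, j3⟩ := JI X Y
  obtain ⟨T, -⟩ := B6.exists_TB
  have hs := sB_sm T
  subst e
  obtain ⟨κ, k1, k2⟩ := ex_kum T y2
  have t2 : ∀ g, 2 • (B6.tw d g R - R) = 0 := fun g => k2 g ▸ T.tors 1 _
  obtain ⟨ι, hι⟩ : ∃ ι : W2 → Mv 1, ∀ x, j (ι x) = T.emb 1 x :=
    ⟨fun x => (j2 _ (T.tors 1 x)).choose, fun x => (j2 _ (T.tors 1 x)).choose_spec⟩
  have i0 : ∀ {g}, κ g = 0 → ι (κ g) = 0 := fun h => j1 (by rw [hι, h, map_zero, map_zero])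
  have t0 : ∀ {g}, B6.tw d g R - R = 0 → κ g = 0 := fun h =>
    T.inj 1 ((k2 _).trans (h.trans (map_zero _).symm))
  have t1 : ∀ {u : Plc} {g}, u.p ≠ 2 → ¬ (u.p : ℤ) ∣ d → g ∈ Ine u → ∀ P, B6.tw d g P = g • P :=
    fun a b h P => by rw [B6.tw, chi_ine (mu0_ndvd a b) h, Units.val_one, one_smul]
  have t4 : ∀ u : Plc, u.p ≠ 2 → ¬ u.p ∣ NN → ∀ σ ∈ Ine u, sB T σ = 1 := fun u a b σ hσ => by
    rw [sB, MonoidHom.comp_apply, T.unr u a (mt (dvd_Δ u.prime).1 b) σ hσ, map_one]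
  have iq := hS.1 q (mem_insert_self _ _)
  have qN := (X.ine q iq).2.2
  have kc : Coc (GK NN) (am 1 1) fun g => ι (κ g) :=
    ⟨(k1.1.comp ι).mono le_top, fun g hg h _ => j1 (by
      beta_reduce
      rw [map_add, j3 g hg, hι, hι, hι, c_mul k1, map_add, sB_emb])⟩
  have k2v : ∀ g ∈ GK NN ⊓ Dec v, ι (κ g) = 0 := fun s m => i0 (t0 (two_ine ha hv (t2 _)
    fun σ hσ => by
      rw [smul_sub, f σ hσ, B6.tw, smul_comm σ, smul_smul σ,
        show σ * s = s * (s⁻¹ * σ * s⁻¹⁻¹) by group, mul_smul,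
        f _ (conj_mem_Ine (inv_mem m.2) hσ)]))
  have ku : Ur (insert q S) fun g => ι (κ g) := fun u u2 hz σ hσ => i0 (by
    by_cases ud : (u.p : ℤ) ∣ d
    · obtain ⟨s1, s2, s3⟩ := ((dl _ u.prime u2 ud).resolve_left fun e =>
        hz q (mem_insert_self _ _) e.symm).resolve_left fun e => (mem_image.1 e).elim fun z e' =>
          hz z (mem_insert_of_mem e'.1) e'.2
      obtain ⟨z, hz⟩ := cob_three hs k1 u2 (fr_spec u) (t4 u u2 s2)
        (tr_odd T u2 (fr_spec u) (fun P => he u _ P s1 (fr_spec u)) s3)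
      rw [hz σ hσ.2.1, cob, sg_apply, t4 u u2 s2 σ hσ.2, one_mulVec, sub_self]
    by_cases uN : u.p ∣ NN
    · obtain ⟨Q, q1, q3⟩ := div_ine uN (2 • R) fun σ hσ => (t1 u2 ud hσ _).symm.trans (y2 σ)
      obtain ⟨z, hz⟩ := j2 (R - Q) (by rw [smul_sub, q3, sub_self])
      have := j3 σ hσ.1 z
      rw [Y.triv 1 1 σ hσ.1 (X.odd u u2 σ hσ) (by rw [cy_one_eq, one_pow]), hz, smul_sub,
        q1 σ hσ.2, sub_left_inj] at this
      exact t0 (by rw [t1 u2 ud hσ.2, ← this, sub_self])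
    · refine t0 (B6.K1_tors (m := 1) u2 ?_ (t2 σ))
      rw [t1 u2 ud hσ.2]
      exact B6.K1_ine (mt (dvd_Δ u.prime).1 uN) hσ.2 R)
  refine c4 ((ef2_rc RC PR F X Y hv hS (mem_insert_self _ _) kc c1 ku
    (ef2_ur c2 (subset_insert _ _)) (fun u hu n => .inl ?_) (elq_inv F k2v _)
    (elq_inv F (fun g hg => by rw [k2v g hg, map_zero]) _)).1
    (ef2_gn X c2 iq (ef2_ne hS hq)) fun e => y3 (k1_move y2 hw' ?_))
  · have hu' := mem_of_mem_insert_of_ne hu n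
    have iu := hS.1 u hu
    obtain ⟨s1, s2, s3⟩ := h4 u hu'
    have := lw_of T (fun P => he u _ P s3 (fr_spec u)) s2 s1 (X.ine u iu).2.2
      (chi_gen d1 iu.1 (dS _ (mem_image_of_mem _ hu')) (gn_spec iu.1)) y2 k2
    exact ⟨by rw [fq, c_mul k1, add_comm, this], c3 u hu'⟩
  · have e1 := k2 (gn q)
    rw [← hι, e, map_zero, B6.tw, chi_gen d1 iq.1 dq (gn_spec iq.1), Units.val_neg, Units.val_one,
      neg_one_zsmul, eq_comm, sub_eq_zero, neg_eq_iff_eq_neg] at e1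
    have := neg_mem (B6.K1_ine (mt (dvd_Δ q.prime).1 qN) (gn_spec iq.1).1 R)
    rwa [e1, ← neg_add', neg_neg, ← two_nsmul] at this

end Pool.Agent.B10
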