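import Pool.Agent.Lib.MP_696deb_nt.B10.UZ
import Pool.Agent.Lib.MP_696deb_nt.B6.GW
import Pool.Agent.Lib.MP_696deb_nt.B2.LO2
import Pool.Agent.Lib.MP_696deb_nt.B2.CF
import Pool.Agent.Lib.MP_696deb_nt.B2.CFc
import Pool.Agent.Lib.MP_696deb_nt.B2.CH2

/-! Classes in the dual Selmer groups of level one. -/

set_option autoImplicit false

open NumberField NumberTheorySymbols Finset
open scoped Classical NNReal

namespace Pool.Agent.B10
open Pool.Agent.Lib.MP_696deb_nt Pool.Agent.Lib.MP_696deb_nt.B2 Pool.Agent.Lib.MP_696deb_nt.B2.CM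
  Pool.Agent.B6 Pool.Agent.B4 Pool.Agent.B8
open Pool.Agent.Lib.MP_696deb_nt.B6 (Dual3 N2 gw3 ld3 ld_core3 inv_cupb_right0 inv_cupb_add_right0
  B1_le0 cob_coc0 maxIso_perp3 perp_Z13)

/-- The orthogonal complement of a local condition. -/
theorem um1_perp {M M' : Type} [AddCommGroup M] [AddCommGroup M'] [Finite M] [Finite M'] {m : ℕ}
    {H : Subgroup Gam} {w : Plc} {a : Gam → M →+ M} {a' : Gam → M' →+ M'}
    {b : M →+ M' →+ ZMod (2 ^ m)} {sig : Gam →* N2} (F : CFT) (hH : Op H)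
    (hd : Dual3 sig m (H ⊓ Dec w) a a' b) {L : AddSubgroup (Gam → M)} (hL : LocC H w a L) :
    ∃ L', MaxIso F m H w a a' b L L' := by
  have z : ∀ c ∈ L, F.inv m H w (cupb b a' c 0) = 0 := fun c hc =>
    inv_cupb_right0 F hH hd.zero (hL.1 hc).1 (y := 0) fun g _ => by simp [cob]
  exact ⟨{
    carrier := Perp F m H w a' b L
    zero_mem' := ⟨zero_mem _, z⟩
    add_mem' := fun h k => ⟨add_mem h.1 k.1, fun c hc => by
      rw [inv_cupb_add_right0 F hH hd.zero (hL.1 hc).1 h.1.1 k.1.1, h.2 c hc, k.2 c hc, add_zero]⟩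
    neg_mem' := fun h => ⟨neg_mem h.1, fun c hc => by
      have := inv_cupb_add_right0 F hH hd.zero (hL.1 hc).1 h.1.1 h.1.1.neg
      rw [add_neg_cancel, z c hc, h.2 c hc, zero_add] at this
      exact this.symm⟩ }, hL,
    ⟨fun _ h => h.1, fun y => ⟨B1_le0 hd.zero.act' ⟨y, rfl⟩, fun c hc =>
      inv_cupb_right0 F hH hd.zero (hL.1 hc).1 (y := y) fun g hg => rs_of_mem hg _⟩⟩,
    fun c hc _ hc' => hc'.2 c hc, ((ld3 F sig m H w M M' a a' b hH hd).2 L hL).ge⟩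

theorem um1_card : Nat.card (Mv 1) = 4 := by
  have : Nat.card (Mv 1) = Nat.card (ZMod (2 ^ 1) × ZMod (2 ^ 1)) := Nat.card_congr
    { toFun := fun x => (x.1 0, x.1 1)
      invFun := fun y => ⟨![y.1, y.2, -(y.1 + y.2)], (sum_I3 _).trans (add_neg_cancel _)⟩
      left_inv := fun x => Subtype.ext (funext fun i => by
        have h : x.1 0 + x.1 1 + x.1 2 = 0 := (sum_I3 _).symm.trans x.2
        fin_cases i
        · rfl
        · rfl
        · exact neg_eq_of_add_eq_zero_right h)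
      right_inv := fun _ => rfl }
  rw [this, Nat.card_prod, Nat.card_zmod]
  rfl

theorem um1_om (x : Mv 1) : omM 1 (x - omM 1 x) = x := by
  refine Subtype.ext (funext fun i => ?_)
  have h : x.1 0 + x.1 1 + x.1 2 = 0 := (sum_I3 _).symm.trans x.2
  have k : ∀ a b c : ZMod (2 ^ 1), a + b + c = 0 → b - c = a ∧ c - a = b ∧ a - b = c := by decide
  fin_cases i
  exacts [(k _ _ _ h).1, (k _ _ _ h).2.1, (k _ _ _ h).2.2]

theorem um1_om' (x : Mv 1) : omM 1 (omM 1 (omM 1 x)) = x := by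
  refine Subtype.ext (funext fun i => ?_)
  fin_cases i <;> rfl

theorem um1_rs0 (D : Subgroup Gam) (L : AddSubgroup (Gam → Mv 1)) : rs D 0 ∈ L := by
  rw [map_zero]
  exact zero_mem _

variable [Cp]

theorem um1_pos : 0 < NN := by have := nk.gt; omega

theorem um1_triv (hx : Bx) (hm : Bm) {v : Plc} (hv : In v) (e : ℕ) :
    ∀ g ∈ GK NN ⊓ Dec v, ∀ x, am e 1 g x = x := fun g hg =>
  hm.triv e 1 g hg.1 (hx.dec v hv g hg) (by rw [cy_one_eq, one_pow])

theorem um1_ine (hx : Bx) (hm : Bm) {v : Plc} (hv : v.p ≠ 2) (e : ℕ) :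
    ∀ g ∈ GK NN ⊓ Ine v, ∀ x, am e 1 g x = x := fun g hg =>
  hm.triv e 1 g hg.1 (hx.odd v hv g hg) (by rw [cy_one_eq, one_pow])

omit [Cp] in
theorem um1_q {v : Plc} (hv : v.p ≠ 2) : ((v.p ^ 2 : ℕ) : ZMod (2 ^ (1 + 1))) = 1 :=
  lo2_sq (v.prime.odd_of_ne_two hv) (v.prime.odd_of_ne_two hv).add_one.two_dvd

theorem um1_fix (hx : Bx) (hm : Bm) {w : Plc} (hw : w.p = 2) (e : ℕ) {x : Mv 1}
    (h : ∀ g ∈ GK NN ⊓ Dec w, am e 1 g x = x) : x = 0 := by
  obtain ⟨h1, -, σ, h2, h3⟩ := hx.two w hw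
  refine (hm.fpf e 1 σ (h1 h2) (by rw [h3]; decide)).1 ?_
  simp only [h σ ⟨h1 h2, h2.1⟩, map_zero, sub_self]

theorem um1_Z1 (F : CFT) (hx : Bx) (hm : Bm) {w : Plc} (hw : w.p = 2) :
    Nat.card (Z1 (GK NN ⊓ Dec w) (am 1 1)) = 64 := by
  obtain ⟨sig, hd⟩ := hm.dual
  rw [(ld_core3 F (op_GK NN) ((hd 1).mono inf_le_left)).2.1, um1_card, ldeg, if_pos hw,
    relIndex_inert (fr_spec w).1 (hx.two w hw).2.1,
    (AddSubgroup.eq_bot_iff_forall (H0 _ _)).2 fun x h => um1_fix hx hm hw 0 (mem_H0.1 h),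
    AddSubgroup.card_bot]
  rfl

/-- The transverse condition. -/
noncomputable def um1L (e : ℕ) (v : Plc) : AddSubgroup (Gam → Mv 1) :=
  Ldp (GK NN ⊓ Dec v) (am e 1) (fq v) (gn v) ((⊥ : AddSubgroup (Mv 1)).prod ⊤)

omit [Cp] in
theorem um1_N : Nat.card ((⊥ : AddSubgroup (Mv 1)).prod (⊤ : AddSubgroup (Mv 1))) = 4 := by
  rw [Nat.card_congr (AddSubgroup.prodEquiv _ _).toEquiv, Nat.card_prod, AddSubgroup.card_bot,
    AddSubgroup.card_top, um1_card]

theorem um1L_card (hx : Bx) (hm : Bm) {v : Plc} (hv : In v) : Nat.card (um1L 1 v) = 4 :=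
  ((hx.tm v hv).card_Ldp (um1_q hv.1) (hm.kil 1) (um1_triv hx hm hv 1) _).trans um1_N

theorem um1L_mem (hx : Bx) {v : Plc} (hv : In v) {t : Gam → Mv 1}
    (h : Coc (GK NN) (am 1 1) t) (h' : t (fq v) = 0) : rs (GK NN ⊓ Dec v) t ∈ um1L 1 v :=
  ⟨rs_mem_Z1 (h.mono inf_le_left), (rs_of_mem (hx.tm v hv).φ_mem t).trans h', trivial⟩

theorem um1L_perp (F : CFT) (hx : Bx) (hm : Bm) {v : Plc} (hv : In v) {ξ : Gam → Mv 1}
    (h : rs (GK NN ⊓ Dec v) ξ ∈ Perp F 1 (GK NN) v (am 0 1) (bm 1) (um1L 1 v)) : ξ (fq v) = 0 := by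
  obtain ⟨sig, hd⟩ := hm.dual
  have k : MaxIso F 1 (GK NN) v (am 1 1) (am 0 1) (bm 1) (um1L 1 v) (um1L 0 v) :=
    (hx.tm v hv).maxIso_Ldp (um1_q hv.1) F (hm.kil 1) (hm.kil 1) (um1_triv hx hm hv 1)
      (um1_triv hx hm hv 0) _ (fun z hz z' hz' => by
        rw [show z.1 = 0 from hz.1, show z'.1 = 0 from hz'.1, map_zero, map_zero]
        rfl) (by rw [um1_N, um1_card]; rfl)
  rw [← maxIso_perp3 (op_GK NN) ((hd 1).mono inf_le_left) k] at h
  exact (rs_of_mem (hx.tm v hv).φ_mem ξ).symm.trans h.2.1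

/-- A large Selmer group has a large dual Selmer group. -/
theorem um1_core (F : CFT) (hx : Bx) (hm : Bm) {w : Plc} (hw : w.p = 2) {S : Finset Plc}
    (hS : Ad S) {L : Plc → AddSubgroup (Gam → Mv 1)}
    (hL : ∀ v ∈ insert w S, LocC (GK NN) v (am 1 1) (L v)) {k : ℕ} (e : Fin k → Gam → Mv 1)
    (he : ∀ i, Coc (GK NN) (am 1 1) (e i) ∧ Ur S (e i) ∧
      ∀ v ∈ insert w S, rs (GK NN ⊓ Dec v) (e i) ∈ L v)
    (hi : ∀ i j x, (∀ g ∈ GK NN, e i g - e j g = cob (am 1 1) x g) → i = j)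
    (hk : Nat.card (L w) * ∏ v ∈ S, Nat.card (L v) < k * 4 ^ (S.card + 2)) :
    ∃ ξ, Nc 0 1 ξ ∧ Ur S ξ ∧
      ∀ v ∈ insert w S, rs (GK NN ⊓ Dec v) ξ ∈ Perp F 1 (GK NN) v (am 0 1) (bm 1) (L v) := by
  obtain ⟨sig, hd⟩ := hm.dual
  have wS : w ∉ S := fun h => (hS.1 w h).1 hw
  have a1 : ∀ v, Away (GK NN) (insert w S) v ↔ v.p ≠ 2 ∧ ∀ u ∈ S, u.p ≠ v.p := fun v => by
    refine ⟨fun h => ⟨fun k => ?_, fun u hu k => ?_⟩, fun h u hu g _ k => ?_⟩
    · obtain ⟨g, g1, g2⟩ := hx.cj w v (.inl hw) (k.trans hw.symm)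
      exact h w (mem_insert_self _ _) g g1 g2
    · obtain ⟨g, g1, g2⟩ := hx.cj u v (.inr (hS.1 u hu)) k.symm
      exact h u (mem_insert_of_mem hu) g g1 g2
    · have k' : u.p = v.p := (smul_p g u).symm.trans (congrArg Plc.p k)
      rcases mem_insert.1 hu with rfl | hu
      exacts [h.1 (k'.symm.trans hw), h.2 u hu k']
  have a2 : Apart (GK NN) (insert w S) := fun u hu v hv g _ k => by
    have k' : u.p = v.p := (smul_p g u).symm.trans (congrArg Plc.p k)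
    rcases mem_insert.1 hu with e1 | e1 <;> rcases mem_insert.1 hv with e2 | e2
    exacts [e1.trans e2.symm, absurd (k'.symm.trans (e1 ▸ hw)) (hS.1 v e2).1,
      absurd (k'.trans (e2 ▸ hw)) (hS.1 u e1).1, hS.2 e1 e2 k']
  have a3 : ∀ v, ∃ L', v ∈ insert w S → MaxIso F 1 (GK NN) v (am 1 1) (am 0 1) (bm 1) (L v) L' :=
    fun v => by
      by_cases h : v ∈ insert w S
      · exact (um1_perp F (op_GK NN) ((hd 1).mono inf_le_left) (hL v h)).imp fun _ a _ => a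
      · exact ⟨⊥, fun a => absurd a h⟩
  choose L' hL' using a3
  obtain ⟨f1, f2⟩ := gw3 F su cheb sig 1 (GK NN) (Mv 1) (Mv 1) (am 1 1) (am 0 1) (bm 1)
    (insert w S) ∅ ∅ (insert w S) L L' (op_GK NN) (tc_of_le um1_pos le_rfl) (hd 1) a2 (by simp)
    (disjoint_empty_left _) (disjoint_empty_left _) (disjoint_empty_left _) (by simp)
    (fun v hv => ⟨((a1 v).1 hv).1, um1_ine hx hm ((a1 v).1 hv).1 1⟩) hL'
  rw [um1_card, index_GK um1_pos, card_insert_of_notMem wS, prod_insert wS] at f2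
  have b1 : ∀ (i : Fin k) (x : Mv 1), (rs (GK NN) (e i + cob (am 1 1) x), 0) ∈
      Sel (GK NN) (am 1 1) (insert w S) ∅ (insert w S) L := fun i x => by
    refine ⟨rs_mem_Z1 ((he i).1.add (cob_coc0 (hd 1).act.toAct0 x)), fun v hv σ hσ => ?_,
      by simp, fun _ _ => rfl, fun v hv => ?_⟩
    · obtain ⟨c1, c2⟩ := (a1 v).1 hv
      show rs (GK NN) _ σ = 0
      rw [rs_of_mem hσ.1, Pi.add_apply, (he i).2.1 v c1 c2 σ hσ, cob, um1_ine hx hm c1 1 σ hσ,
        sub_self, add_zero]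
    · convert add_mem ((he i).2.2 v hv) ((hL v hv).2 x) using 1
      rw [← map_add]
      funext g
      by_cases hg : g ∈ GK NN ⊓ Dec v
      · rw [rs_of_mem hg, rs_of_mem hg]
        exact rs_of_mem hg.1 _
      · rw [rs_of_notMem hg, rs_of_notMem hg]
  have b2 : k * 4 ≤ Nat.card (Sel (GK NN) (am 1 1) (insert w S) ∅ (insert w S) L) := by
    have := Nat.card_le_card_of_injective (fun z : Fin k × Mv 1 => (⟨_, b1 z.1 z.2⟩ :
      Sel (GK NN) (am 1 1) (insert w S) ∅ (insert w S) L)) (by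
        rintro ⟨i, x⟩ ⟨j, y⟩ h
        have c1 : ∀ g ∈ GK NN, e i g - e j g = cob (am 1 1) (y - x) g := fun g hg => by
          have c2 := congrFun (congrArg (fun z => z.1.1) h) g
          simp only [rs_of_mem hg, Pi.add_apply] at c2
          rw [eq_sub_of_add_eq c2, cob, cob, cob, map_sub]
          abel
        obtain rfl := hi i j _ c1
        have c3 : y - x = 0 := um1_fix hx hm hw 1 fun g hg =>
          sub_eq_zero.1 ((c1 g hg.1).symm.trans (sub_self _))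
        rw [sub_eq_zero.1 c3])
    rwa [Nat.card_prod, um1_card, Nat.card_eq_fintype_card, Fintype.card_fin] at this
  by_contra hn
  have b3 : Nat.card (Sel (GK NN) (am 0 1) (insert w S) ∅ (insert w S) L') ≤ 4 := by
    have c1 : ∀ z : Sel (GK NN) (am 0 1) (insert w S) ∅ (insert w S) L',
        ∃ x, ∀ g ∈ GK NN, z.1.1 g = cob (am 0 1) x g := fun z => by
      by_contra c2
      refine hn ⟨z.1.1, ⟨z.2.1.1, c2⟩, fun v c3 c4 => z.2.2.1 v ((a1 v).2 ⟨c3, c4⟩), fun v hv => ?_⟩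
      rw [← maxIso_perp3 (op_GK NN) ((hd 1).mono inf_le_left) (hL' v hv)]
      exact z.2.2.2.2.2 v hv
    choose x hx' using c1
    rw [← um1_card]
    refine Nat.card_le_card_of_injective x fun z z' h => Subtype.ext (Prod.ext (funext fun g => ?_)
      (funext fun v => (z.2.2.2.2.1 v (notMem_empty v)).trans (z'.2.2.2.2.1 v (notMem_empty v)).symm))
    by_cases hg : g ∈ GK NN
    · rw [hx' z g hg, hx' z' g hg, h]
    · rw [z.2.1.2 g hg, z'.2.1.2 g hg]
  have b4 := (Nat.mul_le_mul_right _ b2).trans (f2.le.trans (Nat.mul_le_mul_right _ b3))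
  rw [show S.card + 1 + 2 / 2 = S.card + 2 from rfl] at b4
  nlinarith

omit [Cp]

theorem m1_stmt : M1Stmt := by
  intro _ w p S t hx hm hw hp hS ht hu h1 h2
  obtain ⟨F⟩ := exists_cft
  obtain ⟨sig, hd⟩ := hm.dual
  have ip := hS.1 p (mem_insert_self _ _)
  have n1 : ∀ v ∈ insert p S, v ≠ w := fun v hv e => (hS.1 v hv).1 (e ▸ hw)
  have n2 : ∀ v ∈ S, v ≠ p := fun v hv e => hp (e ▸ hv)
  let L : Plc → AddSubgroup (Gam → Mv 1) := fun v => if v = w then Z1 (GK NN ⊓ Dec v) (am 1 1)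
    else if v = p then Ldp (GK NN ⊓ Dec v) (am 1 1) (fq v) (gn v) ⊥ else um1L 1 v
  have l1 : L w = Z1 (GK NN ⊓ Dec w) (am 1 1) := if_pos rfl
  have l2 : L p = Ldp (GK NN ⊓ Dec p) (am 1 1) (fq p) (gn p) ⊥ :=
    (if_neg (n1 p (mem_insert_self _ _))).trans (if_pos rfl)
  have l3 : ∀ v ∈ S, L v = um1L 1 v := fun v hv =>
    (if_neg (n1 v (mem_insert_of_mem hv))).trans (if_neg (n2 v hv))
  obtain ⟨ξ, x1, x2, x3⟩ := um1_core F hx hm hw hS (L := L) (fun v hv => by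
      rcases mem_insert.1 hv with rfl | hv
      · exact l1 ▸ ⟨le_rfl, fun x => rs_mem_Z1 (cob_coc0 ((hd 1).act.toAct0.mono inf_le_left) x)⟩
      have k := um1_triv hx hm (hS.1 v hv) 1
      rcases mem_insert.1 hv with rfl | hv
      · exact l2 ▸ locC_Ldp k _ _ _
      · exact l3 v hv ▸ locC_Ldp k _ _ _) ![0, t] (fun i => by
      fin_cases i
      · exact ⟨Coc.zero _ _, fun _ _ _ _ _ => rfl, fun v _ => um1_rs0 _ _⟩
      refine ⟨ht.1, hu, fun v hv => ?_⟩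
      rcases mem_insert.1 hv with rfl | hv
      · exact l1 ▸ rs_mem_Z1 (ht.1.mono inf_le_left)
      rcases mem_insert.1 hv with rfl | hv'
      · exact l2 ▸ ⟨rs_mem_Z1 (ht.1.mono inf_le_left), Prod.ext
          ((rs_of_mem (hx.tm v ip).φ_mem t).trans (h1 v hv))
          ((rs_of_mem (hx.tm v ip).τ_mem t).trans h2)⟩
      · exact l3 v hv' ▸ um1L_mem hx (hS.1 v hv) ht.1 (h1 v hv)) (fun i j x h => by
      fin_cases i <;> fin_cases j
      · rfl
      · refine absurd ⟨-x, fun g hg => ?_⟩ ht.2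
        have k : 0 - t g = cob (am 1 1) x g := h g hg
        rw [← neg_neg (t g), ← zero_sub (t g), k, cob, cob, map_neg]
        abel
      · exact absurd ⟨x, fun g hg => (sub_zero _).symm.trans (h g hg)⟩ ht.2
      · rfl) (by
      rw [prod_insert hp, l1, l2, um1_Z1 F hx hm hw, (hx.tm p ip).card_Ldp (um1_q ip.1) (hm.kil 1)
        (um1_triv hx hm ip 1), AddSubgroup.card_bot, prod_congr rfl fun v hv => by
          rw [l3 v hv, um1L_card hx hm (hS.1 v (mem_insert_of_mem hv))], prod_const,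
        card_insert_of_notMem hp, pow_add, pow_add]
      have : 0 < 4 ^ S.card := by positivity
      omega)
  have y1 := x3 w (mem_insert_self _ _)
  rw [l1, ← perp_Z13 F (op_GK NN) ((hd 1).mono inf_le_left)] at y1
  obtain ⟨y, hy⟩ := rs_mem_B1.1 y1
  refine ⟨ξ - cob (am 0 1) y, ⟨x1.1.sub (cob_coc0 (hd 1).act'.toAct0 y), ?_⟩,
    fun v c1 c2 σ hσ => ?_, fun g hg => sub_eq_zero.2 (hy g hg), fun v hv => ?_⟩
  · rintro ⟨z, hz⟩
    refine x1.2 ⟨z + y, fun g hg => ?_⟩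
    rw [eq_add_of_sub_eq (hz g hg), cob, cob, cob, map_add]
    abel
  · rw [Pi.sub_apply, x2 v c1 c2 σ hσ, cob, um1_ine hx hm c1 0 σ hσ, sub_self, sub_zero]
  · have iv := hS.1 v (mem_insert_of_mem hv)
    rw [Pi.sub_apply, um1L_perp (ξ := ξ) F hx hm iv (l3 v hv ▸ x3 v (mem_insert_of_mem
      (mem_insert_of_mem hv))), cob, um1_triv hx hm iv 0 _ (hx.tm v iv).φ_mem, sub_self, sub_zero]

theorem m2_stmt : M2Stmt := by
  intro _ F w S Λ t hx hm hw hS hΛ ht hu h1 h2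
  obtain ⟨sig, hd⟩ := hm.dual
  have n1 : ∀ v ∈ S, v ≠ w := fun v hv e => (hS.1 v hv).1 (e ▸ hw)
  let L : Plc → AddSubgroup (Gam → Mv 1) := fun v => if v = w then Λ else um1L 1 v
  have l1 : L w = Λ := if_pos rfl
  have l3 : ∀ v ∈ S, L v = um1L 1 v := fun v hv => if_neg (n1 v hv)
  have o1 : Coc (GK NN) (am 1 1) fun g => omM 1 (t g) :=
    ht.1.map (omM 1) fun g hg x => (hm.omm 1 1 g hg x).symm
  have o2 : ∀ x, ∀ g ∈ GK NN, omM 1 (cob (am 1 1) x g) = cob (am 1 1) (omM 1 x) g :=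
    fun x g hg => by rw [cob, cob, map_sub, hm.omm 1 1 g hg]
  have o3 : ∀ x, ∀ g, -cob (am 1 1) x g = cob (am 1 1) (-x) g := fun x g => by
    rw [cob, cob, map_neg]
    abel
  have p1 : ∀ x, ¬ ∀ g ∈ GK NN, t g - 0 = cob (am 1 1) x g := fun x h =>
    ht.2 ⟨x, fun g hg => (sub_zero _).symm.trans (h g hg)⟩
  have p2 : ∀ x, ¬ ∀ g ∈ GK NN, omM 1 (t g) - 0 = cob (am 1 1) x g := fun x h =>
    ht.2 ⟨_, fun g hg => by rw [← um1_om' (t g), ← sub_zero (omM 1 (t g)), h g hg, o2 _ g hg,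
      o2 _ g hg]⟩
  have p3 : ∀ x, ¬ ∀ g ∈ GK NN, t g - omM 1 (t g) = cob (am 1 1) x g := fun x h =>
    ht.2 ⟨_, fun g hg => by rw [← um1_om (t g), h g hg, o2 _ g hg]⟩
  have q : ∀ {c c' : Gam → Mv 1} {x}, (∀ g ∈ GK NN, c g - c' g = cob (am 1 1) x g) →
      ∀ g ∈ GK NN, c' g - c g = cob (am 1 1) (-x) g := fun h g hg => by
    rw [← o3, ← h g hg, neg_sub]
  have c1 : Nat.card Λ ≤ 32 := by
    have f := (ld_core3 F (op_GK NN) ((hd 1).mono (inf_le_left (b := Dec w)))).1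
    obtain ⟨d, e⟩ := AddSubgroup.card_dvd_of_le hΛ.loc.1
    rw [um1_Z1 F hx hm hw] at e
    have : d ≠ 1 := by
      rintro rfl
      obtain ⟨c, c1, c2⟩ := hΛ.lt
      exact c2 (AddSubgroup.eq_of_le_of_card_ge hΛ.loc.1 (by rw [um1_Z1 F hx hm hw]; omega) ▸ c1)
    have : d ≠ 0 := by
      rintro rfl
      omega
    have : 2 ≤ d := by omega
    nlinarith
  obtain ⟨ξ, x1, x2, x3⟩ := um1_core F hx hm hw hS (L := L) (fun v hv => by
      rcases mem_insert.1 hv with rfl | hv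
      · exact l1 ▸ hΛ.loc
      · exact l3 v hv ▸ locC_Ldp (um1_triv hx hm (hS.1 v hv) 1) _ _ _)
    ![0, t, fun g => omM 1 (t g)] (fun i => by
      fin_cases i
      · exact ⟨Coc.zero _ _, fun _ _ _ _ _ => rfl, fun v _ => um1_rs0 _ _⟩
      · refine ⟨ht.1, hu, fun v hv => ?_⟩
        rcases mem_insert.1 hv with rfl | hv
        · exact l1 ▸ h2
        · exact l3 v hv ▸ um1L_mem hx (hS.1 v hv) ht.1 (h1 v hv)
      · refine ⟨o1, fun v a b σ hσ => (congrArg (omM 1) (hu v a b σ hσ)).trans (map_zero _),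
          fun v hv => ?_⟩
        rcases mem_insert.1 hv with rfl | hv
        · rw [l1]
          convert hΛ.om _ h2 using 1
          funext g
          by_cases hg : g ∈ GK NN ⊓ Dec v
          · rw [rs_of_mem hg, rs_of_mem hg]
            rfl
          · rw [rs_of_notMem hg, rs_of_notMem hg, map_zero]
        · exact l3 v hv ▸ um1L_mem hx (hS.1 v hv) o1
            ((congrArg (omM 1) (h1 v hv)).trans (map_zero _))) (fun i j x h => by
      fin_cases i <;> fin_cases j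
      exacts [rfl, absurd (q h) (p1 _), absurd (q h) (p2 _), absurd h (p1 _), rfl, absurd h (p3 _),
        absurd h (p2 _), absurd (q h) (p3 _), rfl]) (by
      rw [l1, prod_congr rfl fun v hv => by rw [l3 v hv, um1L_card hx hm (hS.1 v hv)], prod_const,
        pow_add]
      have : 0 < 4 ^ S.card := by positivity
      nlinarith)
  refine ⟨ξ, x1, x2, fun v hv => um1L_perp F hx hm (hS.1 v hv)
    (l3 v hv ▸ x3 v (mem_insert_of_mem hv)), fun c hc => ?_⟩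
  rw [← (x3 w (mem_insert_self _ _)).2 c (l1.symm ▸ hc)]
  exact inv_cupb_congr F (fun _ _ => rfl) fun g hg => (rs_of_mem hg _).symm

end Pool.Agent.B10
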