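import Pool.Agent.Lib.MP_696deb_nt.B10.EZ
import Pool.Agent.Lib.MP_696deb_nt.B10.UM1

/-! Classes in the dual Selmer groups of level one, with diagonal local conditions. -/

set_option autoImplicit false

open NumberField NumberTheorySymbols Finset
open scoped Classical NNReal

namespace Pool.Agent.B10
open Pool.Agent.Lib.MP_696deb_nt Pool.Agent.Lib.MP_696deb_nt.B2 Pool.Agent.Lib.MP_696deb_nt.B2.CM
  Pool.Agent.B6 Pool.Agent.B4 Pool.Agent.B8
open Pool.Agent.Lib.MP_696deb_nt.B6 (Dual3 N2 gw3 ld3 ld_core3 inv_cupb_right0 inv_cupb_add_right0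
  B1_le0 cob_coc0 maxIso_perp3 perp_Z13)

/-- The diagonal subgroup. -/
def emd_N : AddSubgroup (Mv 1 × Mv 1) := (AddMonoidHom.fst _ _).eqLocus (AddMonoidHom.snd _ _)

theorem emd_N_card : Nat.card emd_N = 4 := by
  rw [← um1_card]
  exact Nat.card_congr
    { toFun := fun z => z.1.1
      invFun := fun x => ⟨(x, x), rfl⟩
      left_inv := fun z => Subtype.ext (Prod.ext rfl z.2)
      right_inv := fun _ => rfl }

variable [Cp]

/-- The diagonal condition as a subgroup. -/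
noncomputable def emd_L (e : ℕ) (v : Plc) : AddSubgroup (Gam → Mv 1) :=
  Ldp (GK NN ⊓ Dec v) (am e 1) (fq v) (gn v) emd_N

theorem emd_L_card (hx : Bx) (hm : Bm) {v : Plc} (hv : In v) : Nat.card (emd_L 1 v) = 4 :=
  ((hx.tm v hv).card_Ldp (um1_q hv.1) (hm.kil 1) (um1_triv hx hm hv 1) _).trans emd_N_card

theorem emd_L_mem (hx : Bx) {v : Plc} (hv : In v) {t : Gam → Mv 1}
    (h : Coc (GK NN) (am 1 1) t) (h' : t (fq v) = t (gn v)) : rs (GK NN ⊓ Dec v) t ∈ emd_L 1 v :=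
  ⟨rs_mem_Z1 (h.mono inf_le_left), (rs_of_mem (hx.tm v hv).φ_mem t).trans
    (h'.trans (rs_of_mem (hx.tm v hv).τ_mem t).symm)⟩

theorem emd_L_perp (F : CFT) (hx : Bx) (hm : Bm) {v : Plc} (hv : In v) {ξ : Gam → Mv 1}
    (h : rs (GK NN ⊓ Dec v) ξ ∈ Perp F 1 (GK NN) v (am 0 1) (bm 1) (emd_L 1 v)) :
    ξ (fq v) = ξ (gn v) := by
  obtain ⟨sig, hd⟩ := hm.dual
  have k : MaxIso F 1 (GK NN) v (am 1 1) (am 0 1) (bm 1) (emd_L 1 v) (emd_L 0 v) :=
    (hx.tm v hv).maxIso_Ldp (um1_q hv.1) F (hm.kil 1) (hm.kil 1) (um1_triv hx hm hv 1)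
      (um1_triv hx hm hv 0) _ (fun z hz z' hz' => by
        rw [show z.1 = z.2 from hz, show z'.1 = z'.2 from hz'])
      (by rw [emd_N_card, um1_card]; rfl)
  rw [← maxIso_perp3 (op_GK NN) ((hd 1).mono inf_le_left) k] at h
  exact (rs_of_mem (hx.tm v hv).φ_mem ξ).symm.trans
    (Eq.trans h.2 (rs_of_mem (hx.tm v hv).τ_mem ξ))

theorem emd_nc {ξ : Gam → Mv 1} (h : Nc 0 1 ξ) : Nc 1 1 ξ := by
  unfold Nc at h ⊢
  rwa [am_zero] at h

omit [Cp]

theorem md_stmt : MDStmt := by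
  intro _ w p S t hx hm hw hp hS ht hu h1 h0 h2
  obtain ⟨F⟩ := exists_cft
  obtain ⟨sig, hd⟩ := hm.dual
  have ip := hS.1 p (mem_insert_self _ _)
  have n1 : ∀ v ∈ insert p S, v ≠ w := fun v hv e => (hS.1 v hv).1 (e ▸ hw)
  have n2 : ∀ v ∈ S, v ≠ p := fun v hv e => hp (e ▸ hv)
  let L : Plc → AddSubgroup (Gam → Mv 1) := fun v => if v = w then Z1 (GK NN ⊓ Dec v) (am 1 1)
    else if v = p then Ldp (GK NN ⊓ Dec v) (am 1 1) (fq v) (gn v) ⊥ else emd_L 1 v
  have l1 : L w = Z1 (GK NN ⊓ Dec w) (am 1 1) := if_pos rfl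
  have l2 : L p = Ldp (GK NN ⊓ Dec p) (am 1 1) (fq p) (gn p) ⊥ :=
    (if_neg (n1 p (mem_insert_self _ _))).trans (if_pos rfl)
  have l3 : ∀ v ∈ S, L v = emd_L 1 v := fun v hv =>
    (if_neg (n1 v (mem_insert_of_mem hv))).trans (if_neg (n2 v hv))
  obtain ⟨ξ, x1, x2, x3⟩ := um1_core F hx hm hw hS (L := L) (fun v hv => by
      rcases mem_insert.1 hv with rfl | hv
      · exact l1 ▸ ⟨le_rfl, fun x => rs_mem_Z1 (cob_coc0 ((hd 1).act.toAct0.mono inf_le_left) x)⟩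
      have k := um1_triv hx hm (hS.1 v hv) 1
      rcases mem_insert.1 hv with rfl | hv
      · exact l2 ▸ locC_Ldp k _ _ _
      · exact l3 v hv ▸ locC_Ldp k _ _ _) ![0, t] (fun i => by
      fin_cases i
      · exact ⟨Coc.zero _ _, fun _ _ _ _ _ => rfl, fun v _ => um1_rs0 _ _⟩
      refine ⟨ht.1, hu, fun v hv => ?_⟩
      rcases mem_insert.1 hv with rfl | hv
      · exact l1 ▸ rs_mem_Z1 (ht.1.mono inf_le_left)
      rcases mem_insert.1 hv with rfl | hv'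
      · exact l2 ▸ ⟨rs_mem_Z1 (ht.1.mono inf_le_left), Prod.ext
          ((rs_of_mem (hx.tm v ip).φ_mem t).trans h0)
          ((rs_of_mem (hx.tm v ip).τ_mem t).trans h2)⟩
      · exact l3 v hv' ▸ emd_L_mem hx (hS.1 v hv) ht.1 (h1 v hv')) (fun i j x h => by
      fin_cases i <;> fin_cases j
      · rfl
      · refine absurd ⟨-x, fun g hg => ?_⟩ ht.2
        have k : 0 - t g = cob (am 1 1) x g := h g hg
        rw [← neg_neg (t g), ← zero_sub (t g), k, cob, cob, map_neg]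
        abel
      · exact absurd ⟨x, fun g hg => (sub_zero _).symm.trans (h g hg)⟩ ht.2
      · rfl) (by
      rw [prod_insert hp, l1, l2, um1_Z1 F hx hm hw, (hx.tm p ip).card_Ldp (um1_q ip.1) (hm.kil 1)
        (um1_triv hx hm ip 1), AddSubgroup.card_bot, prod_congr rfl fun v hv => by
          rw [l3 v hv, emd_L_card hx hm (hS.1 v (mem_insert_of_mem hv))], prod_const,
        card_insert_of_notMem hp, pow_add, pow_add]
      have : 0 < 4 ^ S.card := by positivity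
      omega)
  have y1 := x3 w (mem_insert_self _ _)
  rw [l1, ← perp_Z13 F (op_GK NN) ((hd 1).mono inf_le_left)] at y1
  obtain ⟨y, hy⟩ := rs_mem_B1.1 y1
  refine ⟨ξ - cob (am 0 1) y, emd_nc ⟨x1.1.sub (cob_coc0 (hd 1).act'.toAct0 y), ?_⟩,
    fun v c1 c2 σ hσ => ?_, fun g hg => sub_eq_zero.2 (hy g hg), fun v hv => ?_⟩
  · rintro ⟨z, hz⟩
    refine x1.2 ⟨z + y, fun g hg => ?_⟩
    rw [eq_add_of_sub_eq (hz g hg), cob, cob, cob, map_add]
    abel
  · rw [Pi.sub_apply, x2 v c1 c2 σ hσ, cob, um1_ine hx hm c1 0 σ hσ, sub_self, sub_zero]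
  · have iv := hS.1 v (mem_insert_of_mem hv)
    rw [Pi.sub_apply, Pi.sub_apply, emd_L_perp (ξ := ξ) F hx hm iv (l3 v hv ▸ x3 v
      (mem_insert_of_mem (mem_insert_of_mem hv))), cob, cob,
      um1_triv hx hm iv 0 _ (hx.tm v iv).φ_mem, um1_triv hx hm iv 0 _ (hx.tm v iv).τ_mem]

theorem me_stmt : MEStmt := by
  intro _ F w S Λ t hx hm hw hS hΛ ht hu h1 h2
  obtain ⟨sig, hd⟩ := hm.dual
  have n1 : ∀ v ∈ S, v ≠ w := fun v hv e => (hS.1 v hv).1 (e ▸ hw)
  let L : Plc → AddSubgroup (Gam → Mv 1) := fun v => if v = w then Λ else emd_L 1 v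
  have l1 : L w = Λ := if_pos rfl
  have l3 : ∀ v ∈ S, L v = emd_L 1 v := fun v hv => if_neg (n1 v hv)
  have o1 : Coc (GK NN) (am 1 1) fun g => omM 1 (t g) :=
    ht.1.map (omM 1) fun g hg x => (hm.omm 1 1 g hg x).symm
  have o2 : ∀ x, ∀ g ∈ GK NN, omM 1 (cob (am 1 1) x g) = cob (am 1 1) (omM 1 x) g :=
    fun x g hg => by rw [cob, cob, map_sub, hm.omm 1 1 g hg]
  have o3 : ∀ x, ∀ g, -cob (am 1 1) x g = cob (am 1 1) (-x) g := fun x g => by
    rw [cob, cob, map_neg]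
    abel
  have p1 : ∀ x, ¬ ∀ g ∈ GK NN, t g - 0 = cob (am 1 1) x g := fun x h =>
    ht.2 ⟨x, fun g hg => (sub_zero _).symm.trans (h g hg)⟩
  have p2 : ∀ x, ¬ ∀ g ∈ GK NN, omM 1 (t g) - 0 = cob (am 1 1) x g := fun x h =>
    ht.2 ⟨_, fun g hg => by rw [← um1_om' (t g), ← sub_zero (omM 1 (t g)), h g hg, o2 _ g hg,
      o2 _ g hg]⟩
  have p3 : ∀ x, ¬ ∀ g ∈ GK NN, t g - omM 1 (t g) = cob (am 1 1) x g := fun x h =>
    ht.2 ⟨_, fun g hg => by rw [← um1_om (t g), h g hg, o2 _ g hg]⟩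
  have q : ∀ {c c' : Gam → Mv 1} {x}, (∀ g ∈ GK NN, c g - c' g = cob (am 1 1) x g) →
      ∀ g ∈ GK NN, c' g - c g = cob (am 1 1) (-x) g := fun h g hg => by
    rw [← o3, ← h g hg, neg_sub]
  have c1 : Nat.card Λ ≤ 32 := by
    have f := (ld_core3 F (op_GK NN) ((hd 1).mono (inf_le_left (b := Dec w)))).1
    obtain ⟨d, e⟩ := AddSubgroup.card_dvd_of_le hΛ.loc.1
    rw [um1_Z1 F hx hm hw] at e
    have : d ≠ 1 := by
      rintro rfl
      obtain ⟨c, c1, c2⟩ := hΛ.lt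
      exact c2 (AddSubgroup.eq_of_le_of_card_ge hΛ.loc.1 (by rw [um1_Z1 F hx hm hw]; omega) ▸ c1)
    have : d ≠ 0 := by
      rintro rfl
      omega
    have : 2 ≤ d := by omega
    nlinarith
  obtain ⟨ξ, x1, x2, x3⟩ := um1_core F hx hm hw hS (L := L) (fun v hv => by
      rcases mem_insert.1 hv with rfl | hv
      · exact l1 ▸ hΛ.loc
      · exact l3 v hv ▸ locC_Ldp (um1_triv hx hm (hS.1 v hv) 1) _ _ _)
    ![0, t, fun g => omM 1 (t g)] (fun i => by
      fin_cases i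
      · exact ⟨Coc.zero _ _, fun _ _ _ _ _ => rfl, fun v _ => um1_rs0 _ _⟩
      · refine ⟨ht.1, hu, fun v hv => ?_⟩
        rcases mem_insert.1 hv with rfl | hv
        · exact l1 ▸ h2
        · exact l3 v hv ▸ emd_L_mem hx (hS.1 v hv) ht.1 (h1 v hv)
      · refine ⟨o1, fun v a b σ hσ => (congrArg (omM 1) (hu v a b σ hσ)).trans (map_zero _),
          fun v hv => ?_⟩
        rcases mem_insert.1 hv with rfl | hv
        · rw [l1]
          convert hΛ.om _ h2 using 1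
          funext g
          by_cases hg : g ∈ GK NN ⊓ Dec v
          · rw [rs_of_mem hg, rs_of_mem hg]
            rfl
          · rw [rs_of_notMem hg, rs_of_notMem hg, map_zero]
        · exact l3 v hv ▸ emd_L_mem hx (hS.1 v hv) o1
            (congrArg (omM 1) (h1 v hv))) (fun i j x h => by
      fin_cases i <;> fin_cases j
      exacts [rfl, absurd (q h) (p1 _), absurd (q h) (p2 _), absurd h (p1 _), rfl, absurd h (p3 _),
        absurd h (p2 _), absurd (q h) (p3 _), rfl]) (by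
      rw [l1, prod_congr rfl fun v hv => by rw [l3 v hv, emd_L_card hx hm (hS.1 v hv)], prod_const,
        pow_add]
      have : 0 < 4 ^ S.card := by positivity
      nlinarith)
  refine ⟨ξ, emd_nc x1, x2, fun v hv => emd_L_perp F hx hm (hS.1 v hv)
    (l3 v hv ▸ x3 v (mem_insert_of_mem hv)), fun c hc => ?_⟩
  rw [← (x3 w (mem_insert_self _ _)).2 c (l1.symm ▸ hc)]
  exact inv_cupb_congr F (fun _ _ => rfl) fun g hg => (rs_of_mem hg _).symm

end Pool.Agent.B10
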