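import Pool.Agent.Lib.MP_696deb_nt.B10.UZ
import Pool.Agent.Lib.MP_696deb_nt.B6.MTA

/-! Primes at which two classes of level one do not vanish. -/

set_option autoImplicit false

open NumberTheorySymbols

namespace Pool.Agent.B10
open Pool.Agent.Lib.MP_696deb_nt Pool.Agent.Lib.MP_696deb_nt.B2 Pool.Agent.B6 Pool.Agent.B8

theorem up1_op {α : Type} {f : Gam → α} (h : Sm ⊤ f) {K : Subgroup Gam}
    (k : ∀ g, f 1 = f g → g ∈ K) : Op K := by
  obtain ⟨U, u1, -, u2⟩ := h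
  exact Subgroup.isOpen_mono (H₁ := U)
    (fun g hg => k g (u2 1 trivial g trivial (by rwa [inv_one, one_mul]))) u1

/-- The elements that fix the roots of unity of order dividing `n`. -/
def up1R (n : ℕ) : Subgroup Gam where
  carrier := {g | ∀ x : Qbar, x ^ n = 1 → g x = x}
  one_mem' := fun _ _ => rfl
  mul_mem' := fun h k x hx => by rw [AlgEquiv.mul_apply, k x hx, h x hx]
  inv_mem' := fun {g} h x hx => g.injective ((g.apply_symm_apply x).trans (h x hx).symm)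

theorem up1_nor (n : ℕ) : (up1R n).Normal := ⟨fun g h k x hx => by
  rw [AlgEquiv.mul_apply, AlgEquiv.mul_apply, h _ (by rw [← map_pow, hx, map_one])]
  exact k.apply_symm_apply x⟩

theorem up1_prim {n : ℕ} (hn : n ≠ 0) : ∃ ζ : Qbar, IsPrimitiveRoot ζ n ∧
    ∀ x : Qbar, x ^ n = 1 → ∃ i : ℕ, ζ ^ i = x := by
  have : NeZero n := ⟨hn⟩
  obtain ⟨ζ, h⟩ := HasEnoughRootsOfUnity.exists_primitiveRoot Qbar n
  exact ⟨ζ, h, fun x hx => (h.eq_pow_of_pow_eq_one hx).imp fun _ e => e.2⟩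

theorem up1_opR {n : ℕ} (hn : n ≠ 0) : Op (up1R n) := by
  obtain ⟨ζ, -, h⟩ := up1_prim hn
  refine up1_op (sm_apply ζ) fun g e x hx => ?_
  obtain ⟨i, rfl⟩ := h x hx
  rw [map_pow, ← e, AlgEquiv.one_apply]

theorem up1_comm {n : ℕ} (hn : n ≠ 0) (g h : Gam) : g * h * g⁻¹ * h⁻¹ ∈ up1R n := by
  obtain ⟨ζ, h0, h1⟩ := up1_prim hn
  have k : ∀ x : Qbar, x ^ n = 1 → (g * h) x = (h * g) x := fun x hx => by
    obtain ⟨i, rfl⟩ := h1 x hx
    obtain ⟨a, ha⟩ := h1 (g ζ) (by rw [← map_pow, h0.pow_eq_one, map_one])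
    obtain ⟨b, hb⟩ := h1 (h ζ) (by rw [← map_pow, h0.pow_eq_one, map_one])
    rw [map_pow, map_pow, AlgEquiv.mul_apply, AlgEquiv.mul_apply, ← ha, ← hb, map_pow, map_pow,
      ← ha, ← hb, pow_right_comm ζ a]
  intro x hx
  rw [mul_assoc, ← mul_inv_rev, AlgEquiv.mul_apply, k _ (by rw [← map_pow, hx, map_one])]
  exact (h * g).apply_symm_apply x

theorem up1_frob {w : Plc} {n q : ℕ} {φ : Gam} (hw : ¬ w.p ∣ n) (hφ : IsFrob w q φ) {x : Qbar}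
    (hx : x ^ n = 1) : φ x = x ^ q := by
  have h0 : n ≠ 0 := fun e => hw (e ▸ dvd_zero _)
  have h1 := w.V_root_of_unity h0 hx
  have h2 : x ^ q ≠ 0 := pow_ne_zero _ fun e => by simp [e, h0] at hx
  refine (div_eq_one_iff_eq h2).1 (w.eq_one_of_root hw ?_ ?_)
  · rw [div_pow, ← map_pow, pow_right_comm, hx, map_one, one_pow, div_one]
  · rw [div_sub_one h2, map_div₀, map_pow, h1, one_pow, div_one]
    exact hφ.2 _ h1.le

theorem up1_ine {w : Plc} {n : ℕ} {σ : Gam} (hw : ¬ w.p ∣ n) (h : σ ∈ Ine w) : σ ∈ up1R n :=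
  fun x hx => (up1_frob hw (isFrob_one.2 h) hx).trans (pow_one x)

theorem up1_mod {w : Plc} {n : ℕ} (hw : ¬ w.p ∣ n) (h : fr w ∈ up1R n) : w.p ≡ 1 [MOD n] := by
  have h0 : n ≠ 0 := fun e => hw (e ▸ dvd_zero _)
  obtain ⟨ζ, h1, -⟩ := up1_prim h0
  have h2 := (up1_frob hw (fr_spec w) h1.pow_eq_one).symm.trans (h ζ h1.pow_eq_one)
  obtain ⟨k, hk⟩ := Nat.exists_eq_add_of_le' w.prime.one_le
  rw [hk, pow_succ, mul_left_eq_self₀, or_iff_left (h1.ne_zero h0), h1.pow_eq_one_iff_dvd] at h2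
  rw [hk]
  exact ((Nat.modEq_iff_dvd' (Nat.le_add_left 1 k)).2 h2).symm

theorem up1_sq (q : ℕ) (g : Gam) : g * g ∈ GK q := by
  rw [B4c_mem, map_mul, Int.units_mul_self]

section

variable [Cw]

/-- The elements that fix the points of order dividing four. -/
def up1F : Subgroup Gam where
  carrier := {g | ∀ P : B6.EE, 4 • P = 0 → g • P = P}
  one_mem' := fun P _ => one_smul _ P
  mul_mem' := fun h k P hP => by rw [mul_smul, k P hP, h P hP]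
  inv_mem' := fun h P hP => inv_smul_eq_iff.2 (h P hP).symm

theorem up1_four (g : Gam) {P : B6.EE} (h : 4 • P = 0) : 4 • g • P = 0 := by
  rw [smul_comm, h, smul_zero]

theorem up1_norF : up1F.Normal := ⟨fun g h k P hP => by
  rw [mul_smul, mul_smul, h _ (up1_four _ hP), smul_inv_smul]⟩

theorem up1_e4 {s : Gam} (h : E4 s) : s ^ 2 ^ 2 ∈ up1F := fun P hP => by
  rw [show s ^ 2 ^ 2 = s * s * (s * s) from (pow_add s 2 2).trans (by rw [sq]),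
    mul_smul, h P hP, smul_neg, h P hP, neg_neg]

theorem up1_odd {s φ : Gam} {a : ℕ} (h : E4 s) (ha : Odd a) (k : φ⁻¹ * s ^ a ∈ up1F) : E4 φ := by
  have e : ∀ P : B6.EE, 4 • P = 0 → φ • P = s ^ a • P := fun P hP => by
    rw [← mul_inv_cancel_left φ (s ^ a), mul_smul, k P hP]
  intro P hP
  obtain ⟨b, rfl⟩ := ha
  rw [mul_smul, e P hP, e _ (up1_four _ hP), ← mul_smul, ← pow_add,
    show 2 * b + 1 + (2 * b + 1) = 2 + 2 ^ 2 * b by ring, pow_add, pow_mul, mul_smul,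
    pow_mem (up1_e4 h) b P hP, sq, h P hP]

end

theorem up1_opF [Cs] : Op up1F := by
  obtain ⟨T, -⟩ := B6.exists_TB
  refine up1_op (T.sm 2) fun g e P hP => ?_
  obtain ⟨x, rfl⟩ := T.surj 2 P hP
  rw [T.smul, ← e, ← T.smul, one_smul]

section

variable [Cp]

/-- The group that acts trivially on the indices. -/
noncomputable def up1D : Subgroup Gam :=
  (MonoidHom.mk' (G := Equiv.Perm I3) pE fun g h => Equiv.ext (pm_mul g h)).ker

theorem up1_mem {g : Gam} : g ∈ up1D ↔ g ∈ GK NN ∧ xc g = 0 := by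
  refine Equiv.ext_iff.trans ⟨fun h => ?_, fun h i => ?_⟩
  · by_cases hg : g ∈ GK NN
    · exact ⟨hg, (add_zero _).symm.trans ((pm_of_mem hg 0).symm.trans (h 0))⟩
    · have h0 := (pm_of_notMem hg 0).symm.trans (h 0)
      have h1 := (pm_of_notMem hg 1).symm.trans (h 1)
      rw [Equiv.Perm.one_apply, sub_zero] at h0
      rw [h0] at h1
      exact absurd h1 (by decide)
  · exact (pm_of_mem h.1 i).trans (by rw [h.2, zero_add, Equiv.Perm.one_apply])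

theorem up1_opD : Op up1D := by
  obtain ⟨U, u1, -, u2⟩ := sm_xc ⊤
  exact Subgroup.isOpen_mono (H₁ := GK NN ⊓ U) (fun g hg => up1_mem.2 ⟨hg.1,
    (u2 1 trivial g trivial (by rw [inv_one, one_mul]; exact hg.2)).symm.trans xc_one⟩)
    ((op_GK _).inf u1)

theorem up1_xc {s σ : Gam} (hs : s ∉ GK NN) (hσ : σ ∈ GK NN) (h : xc σ = 1) :
    xc (s * σ * s⁻¹ * σ⁻¹) ≠ 0 := by
  have h1 := xc_mul' hs s⁻¹
  have h2 := xc_mul hσ σ⁻¹
  rw [mul_inv_cancel, xc_one] at h1 h2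
  rw [xc_mul ((normal_GK _).conj_mem σ hσ s), mul_assoc, xc_mul' hs, xc_mul hσ, h,
    ← sub_eq_zero.1 h1.symm, eq_neg_of_add_eq_zero_right h2.symm, h, sub_add_cancel_right]
  decide

theorem up1_ur {S : Finset Plc} {c : Gam → Mv 1} (bx : Bx) (hS : Ad S) (h : Ur S c)
    {v : Plc} (hv : v.p ∣ NN) : ∀ σ ∈ GK NN ⊓ Ine v, c σ = 0 :=
  h v (ne_two_of_dvd hv) fun u hu k => (bx.ine u (hS.1 u hu)).2.2 (k ▸ hv)

theorem up1_same {e : ℕ} {S : Finset Plc} {c : Gam → Mv 1} (bx : Bx) (hS : Ad S) (h : Ur S c)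
    (hc : Coc (GK NN) (am e 1) c) {v : Plc} (hv : v.p ∣ NN) {t : Gam} (ht : t ∈ GK NN ⊓ Ine v)
    (s : Gam) : c (s * t * (s * t)) = c (s * s) := by
  have h1 : s⁻¹ * t * s⁻¹⁻¹ ∈ GK NN := (normal_GK _).conj_mem t ht.1 _
  have h2 := up1_ur bx hS h (v := s⁻¹ • v) hv _ ⟨h1, mem_Ine_smul.2 (by
    simpa [mul_assoc] using ht.2)⟩
  rw [show s * t * (s * t) = s * s * (s⁻¹ * t * s⁻¹⁻¹ * t) by group,
    hc.2 _ (up1_sq _ s) _ (mul_mem h1 ht.1), hc.2 _ h1 _ ht.1, h2, up1_ur bx hS h hv t ht,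
    map_zero, add_zero, map_zero, add_zero]

end

theorem p1_stmt (hNZ : NZStmt) (hDP : DPStmt) (hE4 : E4Stmt) : P1Stmt := by
  intro _ m B S c c' bx bm m0 hm hS hc hc' u u'
  obtain ⟨p, hp, hpN⟩ := Nat.exists_prime_and_dvd NN_gt.ne'
  obtain ⟨v, rfl⟩ := exists_plc hp
  have v2 := ne_two_of_dvd hpN
  have n0 : 4 * m ≠ 0 := by omega
  have four : ∀ {w : Plc}, w.p ≠ 2 → ¬ w.p ∣ m → ¬ w.p ∣ 4 * m := fun {w} a b e =>
    (w.prime.dvd_mul.1 e).elim (fun k => a ((Nat.prime_dvd_prime_iff_eq w.prime Nat.prime_two).1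
      (w.prime.dvd_of_dvd_pow (n := 2) k))) b
  have vm : ¬ v.p ∣ 4 * m := four v2 fun e => hp.one_lt.ne' (Nat.eq_one_of_dvd_coprimes hm e hpN)
  have s0 := bx.ram v hpN
  have s1 := (gn_spec v2).1
  obtain ⟨σ, σ1, σ2⟩ := (bx.two w2 (pl_p _ _)).2.2
  have σ3 := (bx.two w2 (pl_p _ _)).1 σ1
  have σ4 : gn v * σ * (gn v)⁻¹ * σ⁻¹ ∈ GK NN :=
    mul_mem ((normal_GK _).conj_mem σ σ3 _) (inv_mem σ3)
  obtain ⟨g, g1, -, g2, g3⟩ := hNZ (up1R (4 * m)) (gn v) (gn v * σ * (gn v)⁻¹ * σ⁻¹) 0 1 1 1 c c' bm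
    (up1_nor _) (fun g _ => ⟨cy_one_eq g, cy_one_eq g⟩) s0 (up1_ine vm (mul_mem s1 s1))
    ⟨σ4, up1_comm n0 _ _⟩ (up1_xc s0 σ3 σ2) hc hc'
    (up1_ur bx hS u hpN _ ⟨up1_sq _ _, mul_mem s1 s1⟩)
    (up1_ur bx hS u' hpN _ ⟨up1_sq _ _, mul_mem s1 s1⟩)
  have a1 : gn v * g ∉ GK NN := fun e => s0 (((GK NN).mul_mem_cancel_right g1.1).1 e)
  have a2 : gn v * g ∈ up1R (4 * m) := mul_mem (up1_ine vm s1) g1.2
  obtain ⟨s, b1, b2, b3, b4, b5⟩ : ∃ s, s ∉ GK NN ∧ s ∈ up1R (4 * m) ∧ E4 s ∧ c (s * s) ≠ 0 ∧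
      c' (s * s) ≠ 0 := by
    rcases hE4 _ v a1 ((b1b_cy_eq (k := 1) ((a2 _ (by
      rw [pow_mul, show zeta 2 ^ 4 = 1 from (zeta_prim 2).pow_eq_one, one_pow])).trans
        (pow_one _).symm)).trans Nat.cast_one) hpN with e | ⟨v', e1, τ, e2, e3⟩
    · exact ⟨_, a1, a2, e, g2, g3⟩
    · have t : τ * τ ∈ GK NN ⊓ Ine v' := ⟨up1_sq _ _, mul_mem e2 e2⟩
      exact ⟨_, fun e => a1 (((GK NN).mul_mem_cancel_right t.1).1 e), mul_mem a2 (up1_ine (e1 ▸ vm) t.2),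
        e3, by rwa [up1_same bx hS u hc.1 (e1 ▸ hpN) t], by rwa [up1_same bx hS u' hc'.1 (e1 ▸ hpN) t]⟩
  have le : up1D ≤ GK NN := fun _ h => (up1_mem.1 h).1
  have hom : ∀ {e : ℕ} {c : Gam → Mv 1}, Coc (GK NN) (am e 1) c → IsHom up1D c :=
    fun {e c} k g hg h hh => by
      rw [k.2 g (le hg) h (le hh), bm.triv e 1 g (le hg) (up1_mem.1 hg).2
        (by rw [cy_one_eq, one_pow])]
  have := up1_nor (4 * m)
  have := up1_norF
  obtain ⟨w, a, w1, ha, w2, w3⟩ := hDP up1D (up1R (4 * m) ⊓ up1F) (Mv 1 × Mv 1) 1 2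
    (fun g => (c g, c' g)) s (B ∪ (2 * NN * m).primeFactors) up1_opD (MonoidHom.normal_ker _)
    ((up1_opR n0).inf up1_opF) inferInstance (fun y => Prod.ext (bm.kil 1 _) (bm.kil 1 _))
    ((hc.1.1.mono le).comp₂ (hc'.1.1.mono le) Prod.mk)
    (fun g hg h hh => Prod.ext (hom hc.1 g hg h hh) (hom hc'.1 g hg h hh))
    (up1_mem.2 ⟨up1_sq _ _, by rw [xc_mul' b1, sub_self]⟩) ⟨pow_mem b2 _, up1_e4 b3⟩
  rw [Finset.notMem_union, Nat.mem_primeFactors_of_ne_zero (mul_ne_zero (mul_ne_zero two_ne_zero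
    NN_ne) m0), and_iff_right w.prime] at w1
  have d1 : ¬ w.p ∣ 2 * NN := fun e => w1.2 (e.mul_right _)
  have d2 : w.p ≠ 2 := fun e => d1 (e ▸ dvd_mul_right 2 NN)
  have d3 := up1_mod (four d2 fun e => w1.2 (e.mul_left _))
    (inv_mem_iff.1 ((mul_mem_cancel_right (pow_mem b2 a)).1 w2.2.1))
  have odd : ∀ x : Mv 1, a • x = x := fun x => by
    obtain ⟨b, rfl⟩ := ha
    rw [add_smul, mul_comm, mul_smul, show 2 • x = 0 from bm.kil 1 x, smul_zero, zero_add, one_smul]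
  refine ⟨w, ⟨w1.1, ⟨d2, ?_⟩, d3.of_mul_right m, d3.of_mul_left 4, up1_odd b3 ha w2.2.2⟩,
    fun e => b4 ?_, fun e => b5 ?_⟩
  · have k := B4c_mem.1 (le w2.1)
    rw [map_mul, map_inv, inv_mul_eq_one, map_pow, B4c_notMem.1 b1, ha.neg_one_pow] at k
    rw [← chi_frob (fun e => d1 (by
      rw [mul_neg, dvd_neg] at e
      exact_mod_cast e)) (fr_spec w), k]
    rfl
  · exact (odd _).symm.trans ((congrArg Prod.fst w3).symm.trans e)
  · exact (odd _).symm.trans ((congrArg Prod.snd w3).symm.trans e)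

end Pool.Agent.B10
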