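import Pool.Agent.Lib.MP_696deb_nt.B10.EZ
import Pool.Agent.Lib.MP_696deb_nt.B10.UP1

/-! Primes at which three classes of level one take attainable values. -/

set_option autoImplicit false

open NumberTheorySymbols

namespace Pool.Agent.B10
open Pool.Agent.Lib.MP_696deb_nt Pool.Agent.Lib.MP_696deb_nt.B2 Pool.Agent.B6 Pool.Agent.B8

theorem pg_stmt (hDP : DPStmt) (hE4 : E4Stmt) : PGStmt := by
  intro _ m B S c₁ c₂ c₃ Φ bx bm m0 hm hS h₁ h₂ h₃ u₁ u₂ u₃ hA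
  obtain ⟨p, hp, hpN⟩ := Nat.exists_prime_and_dvd NN_gt.ne'
  obtain ⟨v, rfl⟩ := exists_plc hp
  have v2 := ne_two_of_dvd hpN
  have n0 : 4 * m ≠ 0 := by omega
  have four : ∀ {w : Plc}, w.p ≠ 2 → ¬ w.p ∣ m → ¬ w.p ∣ 4 * m := fun {w} a b e =>
    (w.prime.dvd_mul.1 e).elim (fun k => a ((Nat.prime_dvd_prime_iff_eq w.prime Nat.prime_two).1
      (w.prime.dvd_of_dvd_pow (n := 2) k))) b
  have vm : ¬ v.p ∣ 4 * m := four v2 fun e => hp.one_lt.ne' (Nat.eq_one_of_dvd_coprimes hm e hpN)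
  have s0 := bx.ram v hpN
  have s1 := (gn_spec v2).1
  obtain ⟨σ, σ1, σ2⟩ := (bx.two w2 (pl_p _ _)).2.2
  have σ3 := (bx.two w2 (pl_p _ _)).1 σ1
  have σ4 : gn v * σ * (gn v)⁻¹ * σ⁻¹ ∈ GK NN :=
    mul_mem ((normal_GK _).conj_mem σ σ3 _) (inv_mem σ3)
  obtain ⟨g, g1, g2⟩ := hA (up1R (4 * m)) (gn v) (gn v * σ * (gn v)⁻¹ * σ⁻¹) (up1_nor _) s0
    ⟨σ4, up1_comm n0 _ _⟩ (up1_xc s0 σ3 σ2)
  have sq : ∀ {c : Gam → Mv 1}, Coc (GK NN) (am 1 1) c → Ur S c →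
      fs2 (gn v) c g = c (gn v * g * (gn v * g)) := fun hc u =>
    (unz_sq bm (up1_nor _) (fun g _ => cy_one_eq g)
      ⟨⟨up1_sq _ _, up1_ine vm (mul_mem s1 s1)⟩, by rw [xc_mul' s0, sub_self]⟩ hc
      (up1_ur bx hS u hpN _ ⟨up1_sq _ _, mul_mem s1 s1⟩) g1).symm
  rw [sq h₁ u₁, sq h₂ u₂, sq h₃ u₃] at g2
  have a1 : gn v * g ∉ GK NN := fun e => s0 (((GK NN).mul_mem_cancel_right g1.1.1).1 e)
  have a2 : gn v * g ∈ up1R (4 * m) := mul_mem (up1_ine vm s1) g1.1.2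
  obtain ⟨s, b1, b2, b3, b4⟩ : ∃ s, s ∉ GK NN ∧ s ∈ up1R (4 * m) ∧ E4 s ∧
      Φ (c₁ (s * s)) (c₂ (s * s)) (c₃ (s * s)) := by
    rcases hE4 _ v a1 ((b1b_cy_eq (k := 1) ((a2 _ (by
      rw [pow_mul, show zeta 2 ^ 4 = 1 from (zeta_prim 2).pow_eq_one, one_pow])).trans
        (pow_one _).symm)).trans Nat.cast_one) hpN with e | ⟨v', e1, τ, e2, e3⟩
    · exact ⟨_, a1, a2, e, g2⟩
    · have t : τ * τ ∈ GK NN ⊓ Ine v' := ⟨up1_sq _ _, mul_mem e2 e2⟩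
      exact ⟨_, fun e => a1 (((GK NN).mul_mem_cancel_right t.1).1 e),
        mul_mem a2 (up1_ine (e1 ▸ vm) t.2), e3, by
          rwa [up1_same bx hS u₁ h₁ (e1 ▸ hpN) t, up1_same bx hS u₂ h₂ (e1 ▸ hpN) t,
            up1_same bx hS u₃ h₃ (e1 ▸ hpN) t]⟩
  have le : up1D ≤ GK NN := fun _ h => (up1_mem.1 h).1
  have hom : ∀ {e : ℕ} {c : Gam → Mv 1}, Coc (GK NN) (am e 1) c → IsHom up1D c :=
    fun {e c} k g hg h hh => by
      rw [k.2 g (le hg) h (le hh), bm.triv e 1 g (le hg) (up1_mem.1 hg).2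
        (by rw [cy_one_eq, one_pow])]
  have := up1_nor (4 * m)
  have := up1_norF
  obtain ⟨w, a, w1, ha, w2, w3⟩ := hDP up1D (up1R (4 * m) ⊓ up1F) (Mv 1 × Mv 1 × Mv 1) 1 2
    (fun g => (c₁ g, c₂ g, c₃ g)) s (B ∪ (2 * NN * m).primeFactors) up1_opD
    (MonoidHom.normal_ker _) ((up1_opR n0).inf up1_opF) inferInstance
    (fun y => Prod.ext (bm.kil 1 _) (Prod.ext (bm.kil 1 _) (bm.kil 1 _)))
    ((h₁.1.mono le).comp₂ ((h₂.1.mono le).comp₂ (h₃.1.mono le) Prod.mk) Prod.mk)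
    (fun g hg h hh => Prod.ext (hom h₁ g hg h hh)
      (Prod.ext (hom h₂ g hg h hh) (hom h₃ g hg h hh)))
    (up1_mem.2 ⟨up1_sq _ _, by rw [xc_mul' b1, sub_self]⟩) ⟨pow_mem b2 _, up1_e4 b3⟩
  rw [Finset.notMem_union, Nat.mem_primeFactors_of_ne_zero (mul_ne_zero (mul_ne_zero two_ne_zero
    NN_ne) m0), and_iff_right w.prime] at w1
  have d1 : ¬ w.p ∣ 2 * NN := fun e => w1.2 (e.mul_right _)
  have d2 : w.p ≠ 2 := fun e => d1 (e ▸ dvd_mul_right 2 NN)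
  have d3 := up1_mod (four d2 fun e => w1.2 (e.mul_left _))
    (inv_mem_iff.1 ((mul_mem_cancel_right (pow_mem b2 a)).1 w2.2.1))
  have odd : ∀ x : Mv 1, a • x = x := fun x => by
    obtain ⟨b, rfl⟩ := ha
    rw [add_smul, mul_comm, mul_smul, show 2 • x = 0 from bm.kil 1 x, smul_zero, zero_add, one_smul]
  refine ⟨w, ⟨w1.1, ⟨d2, ?_⟩, d3.of_mul_right m, d3.of_mul_left 4, up1_odd b3 ha w2.2.2⟩, ?_⟩
  · have k := B4c_mem.1 (le w2.1)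
    rw [map_mul, map_inv, inv_mul_eq_one, map_pow, B4c_notMem.1 b1, ha.neg_one_pow] at k
    rw [← chi_frob (fun e => d1 (by
      rw [mul_neg, dvd_neg] at e
      exact_mod_cast e)) (fr_spec w), k]
    rfl
  · have e1 : c₁ (fq w) = c₁ (s * s) := (congrArg Prod.fst w3).trans (odd _)
    have e2 : c₂ (fq w) = c₂ (s * s) := (congrArg (·.2.1) w3).trans (odd _)
    have e3 : c₃ (fq w) = c₃ (s * s) := (congrArg (·.2.2) w3).trans (odd _)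
    rwa [e1, e2, e3]

end Pool.Agent.B10
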