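import Pool.Agent.Lib.MP_696deb_nt.B10.EZ
import Pool.Agent.Lib.MP_696deb_nt.B10.UM1

/-! The real part of a class. -/

set_option autoImplicit false

open NumberField NumberTheorySymbols Finset
open scoped Classical NNReal

namespace Pool.Agent.B10
open Pool.Agent.Lib.MP_696deb_nt Pool.Agent.Lib.MP_696deb_nt.B2 Pool.Agent.Lib.MP_696deb_nt.B2.CM
  Pool.Agent.B6 Pool.Agent.B4 Pool.Agent.B8

theorem erl_odd {n : ℕ} (hn : Odd n) {A : Type} [AddCommGroup A] {y : A} (h : 2 ^ 1 • y = 0) :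
    n • y = y := by
  obtain ⟨k, rfl⟩ := hn
  rw [pow_one] at h
  rw [add_smul, one_smul, mul_comm, mul_smul, h, smul_zero, zero_add]

variable [Cp] {c : Gam → Mv 1} {s s' g : Gam}

/-- The conjugate of a cochain. -/
noncomputable def erlC (s : Gam) (c : Gam → Mv 1) (g : Gam) : Mv 1 :=
  am 1 1 s⁻¹ (c (s * g * s⁻¹))

theorem erl_mul (B : Bm) (g h : Gam) (x : Mv 1) : am 1 1 (g * h) x = am 1 1 g (am 1 1 h x) :=
  (B.act 1 1).mul g trivial h trivial x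

theorem erl_triv (B : Bm) (hg : g ∈ GK NN) (h0 : xc g = 0) (x : Mv 1) : am 1 1 g x = x :=
  B.triv 1 1 g hg h0 (by rw [cy_one_eq, one_pow]) x

theorem erl_xc (s : Gam) (hg : g ∈ GK NN) (h0 : xc g = 0) : xc (s * g * s⁻¹) = 0 := by
  by_cases hs : s ∈ GK NN
  · rw [mul_assoc, xc_mul hs, xc_mul hg, h0, unz_inv hs, zero_add, add_neg_cancel]
  · rw [unz_out hs hg, h0, neg_zero]

theorem erl_in (B : Bm) (k : Coc (GK NN) (am 1 1) c) (hs : s ∈ GK NN) (hg : g ∈ GK NN)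
    (h0 : xc g = 0) : c (s * g * s⁻¹) = am 1 1 s (c g) := by
  have := k.2 s hs _ (inv_mem hs)
  rw [mul_inv_cancel, unz_one B k] at this
  rw [mul_assoc, k.2 s hs _ (mul_mem hg (inv_mem hs)), k.2 g hg _ (inv_mem hs),
    erl_triv B hg h0, map_add, add_left_comm, ← this, add_zero]

theorem erl_coc (B : Bm) (k : Coc (GK NN) (am 1 1) c) (s : Gam) :
    Coc (GK NN) (am 1 1) (erlC s c) := by
  have n := fun g hg => (normal_GK NN).conj_mem g hg s
  refine ⟨(k.1.conj s s⁻¹ n).comp (am 1 1 s⁻¹), fun g hg h hh => ?_⟩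
  rw [erlC, erlC, erlC, show s * (g * h) * s⁻¹ = s * g * s⁻¹ * (s * h * s⁻¹) by group,
    k.2 _ (n g hg) _ (n h hh), map_add, ← erl_mul B, ← erl_mul B,
    show s⁻¹ * (s * g * s⁻¹) = g * s⁻¹ by group]

theorem erl_dep (B : Bm) (k : Coc (GK NN) (am 1 1) c) (hs : s ∉ GK NN) (hs' : s' ∉ GK NN)
    (hg : g ∈ GK NN) (h0 : xc g = 0) : erlC s c g = erlC s' c g := by
  have ht : s * s'⁻¹ ∈ GK NN := mul_mem_GK hs fun h => hs' (inv_mem_iff.1 h)
  rw [erlC, erlC, show s * g * s⁻¹ = s * s'⁻¹ * (s' * g * s'⁻¹) * (s * s'⁻¹)⁻¹ by group,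
    erl_in B k ht ((normal_GK NN).conj_mem g hg s') (erl_xc s' hg h0), ← erl_mul B,
    inv_mul_cancel_left]

theorem erl_rl (B : Bm) (k : Coc (GK NN) (am 1 1) c) (hs : s ∉ GK NN) : Rl (c + erlC s c) := by
  intro t g hg h0
  by_cases ht : t ∈ GK NN
  · exact erl_in B (k.add (erl_coc B k s)) ht hg h0
  · rw [Pi.add_apply, Pi.add_apply, erl_dep B k hs ht hg h0,
      erl_dep B k hs (fun h => ht (inv_mem_iff.1 h)) ((normal_GK NN).conj_mem g hg t)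
        (erl_xc t hg h0), erlC, erlC, map_add, ← erl_mul B, mul_inv_cancel, (B.act 1 1).one,
      inv_inv, show t⁻¹ * (t * g * t⁻¹) * t = g by group, add_comm]

theorem erl_fq (hx : Bx) (B : Bm) (k : Coc (GK NN) (am 1 1) c) (hs : s ∉ GK NN) {v : Plc}
    (hv : In v) : erlC s c (fq v) = am 1 1 (fr v)⁻¹ (c (fq v)) := by
  have m := (hx.tm v hv).φ_mem
  rw [erl_dep B k hs (hx.ine v hv).2.1 m.1 (hx.dec v hv _ m), erlC,
    show fr v * fq v * (fr v)⁻¹ = fq v by rw [fq]; group]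

theorem erl_gn (hx : Bx) (B : Bm) (k : Coc (GK NN) (am 1 1) c) (hs : s ∉ GK NN) {v : Plc}
    (hv : In v) : erlC s c (gn v) = am 1 1 (fr v)⁻¹ (c (gn v)) := by
  have t := hx.tm v hv
  have m := t.τ_mem
  have tr := um1_triv hx B hv 1
  have k' := k.mono (inf_le_left : GK NN ⊓ Dec v ≤ _)
  rw [erl_dep B k hs (hx.ine v hv).2.1 m.1 (hx.dec v hv _ m), erlC,
    (t.conj' (B.kil 1) (act_triv tr) k' (fr_spec v) t.gen.1).1,
    k'.lo_pow_fix (act_triv tr) m (tr _ m _), erl_odd (v.prime.odd_of_ne_two hv.1) (B.kil 1 _)]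

theorem erl_ne (hs : s ∉ GK NN) {y : Mv 1} (h : y + am 1 1 s⁻¹ y = 0)
    (h' : omM 1 y + am 1 1 s⁻¹ (omM 1 y) = 0) : y = 0 := by
  have e : ∀ (z : Mv 1) (i : I3), (z + am 1 1 s⁻¹ z).1 i = z.1 i + z.1 (xc s - i) := fun z i => by
    change z.1 i + (am 1 1 s⁻¹ z).1 i = _
    rw [am_apply, cy_one_eq, one_pow, one_mul, inv_inv, pm_of_notMem hs]
  have q : ∀ (f : I3 → ZMod (2 ^ 1)) (u : I3), f 0 + f 1 + f 2 = 0 → (∀ i, f i + f (u - i) = 0) →
      (∀ i, f (i + 1) + f (u - i + 1) = 0) → f = 0 := by decide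
  exact Subtype.ext (q y.1 (xc s) ((sum_I3 _).symm.trans y.2)
    (fun i => (e y i).symm.trans (congrFun (congrArg Subtype.val h) i))
    fun i => (e (omM 1 y) i).symm.trans (congrFun (congrArg Subtype.val h') i))

theorem erl_main {w p : Plc} {S : Finset Plc} (hx : Bx) (B : Bm) (hw : w.p = 2)
    (hS : Ad (insert p S)) (k : Coc (GK NN) (am 1 1) c) (u : Ur (insert p S) c)
    (z : ∀ g ∈ GK NN ⊓ Dec w, c g = 0) (d : Dg S c)
    (n : c (gn p) + am 1 1 (fr p)⁻¹ (c (gn p)) ≠ 0) :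
    ∃ ρ, Coc (GK NN) (am 1 1) ρ ∧ Ur (insert p S) ρ ∧
      (∀ g ∈ GK NN ⊓ Dec w, ρ g = 0) ∧ Dg S ρ ∧ ρ (gn p) ≠ 0 ∧ Rl ρ := by
  have hs := (hx.two w hw).2.1
  have hd := (fr_spec w).1
  refine ⟨c + erlC (fr w) c, k.add (erl_coc B k _), fun v v1 v2 σ hσ => ?_, fun g hg => ?_,
    fun v hv => ?_, ?_, erl_rl B k hs⟩
  · rw [Pi.add_apply, erlC, u v v1 v2 σ hσ, u (fr w • v) v1 v2 _
      ⟨(normal_GK NN).conj_mem σ hσ.1 _, mem_Ine_smul.2 (by
        rw [show (fr w)⁻¹ * (fr w * σ * (fr w)⁻¹) * fr w = σ by group]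
        exact hσ.2)⟩, map_zero, add_zero]
  · rw [Pi.add_apply, erlC, z g hg, z _ ⟨(normal_GK NN).conj_mem g hg.1 _,
      (Dec w).mul_mem ((Dec w).mul_mem hd hg.2) ((Dec w).inv_mem hd)⟩, map_zero, add_zero]
  · have hv' := hS.1 v (mem_insert_of_mem hv)
    rw [Pi.add_apply, Pi.add_apply, erl_fq hx B k hs hv', erl_gn hx B k hs hv', d v hv]
  · rwa [Pi.add_apply, erl_gn hx B k hs (hS.1 p (mem_insert_self _ _))]

omit [Cp]

theorem rl_stmt : RLStmt := by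
  intro _ w p S ξ hx B hw hS k u z d n
  by_cases h : ξ (gn p) + am 1 1 (fr p)⁻¹ (ξ (gn p)) = 0
  · refine erl_main (c := fun g => omM 1 (ξ g)) hx B hw hS
      (k.map (omM 1) fun g hg x => (B.omm 1 1 g hg x).symm)
      (fun v v1 v2 σ hσ => by beta_reduce; rw [u v v1 v2 σ hσ, map_zero])
      (fun g hg => by rw [z g hg, map_zero]) (fun v hv => congrArg (omM 1) (d v hv)) fun h' => ?_
    exact n (erl_ne (hx.ine p (hS.1 p (mem_insert_self _ _))).2.1 h h')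
  · exact erl_main hx B hw hS k u z d h

end Pool.Agent.B10
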