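import Pool.Agent.Lib.MP_696deb_nt.B10.EZ
import Pool.Agent.Lib.MP_696deb_nt.B10.UV1

/-! The result on the Weber units with the condition at an inert prime. -/

set_option autoImplicit false

open NumberField NumberTheorySymbols Finset
open scoped Classical NNReal

namespace Pool.Agent.B10
open Pool.Agent.Lib.MP_696deb_nt Pool.Agent.Lib.MP_696deb_nt.B2 Pool.Agent.Lib.MP_696deb_nt.B2.CM
  Pool.Agent.B6 Pool.Agent.B4 Pool.Agent.B8
open Pool.Agent.Lib.MP_696deb_nt.B3.CM (th)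

theorem u2_stmt (CX : CXStmt) (BX : BXStmt) (BM : BMStmt) (WB : WBStmt) (US : USStmt)
    (IX : IXStmt) (KD : KDStmt) (FN : FNStmt) (WP : WPStmt) (F2 : F2Stmt) (LQ : LQStmt) :
    U2Stmt := by
  intro C _ a M q ψ w V hM he ha hψ hw hV hq q2 qJ
  let _ : Cp := { C with ψ := ψ, cub := hψ, cx := CX ψ hψ }
  obtain ⟨q, rfl⟩ := exists_plc hq
  obtain ⟨Y, hY⟩ := WB BX BM
  obtain ⟨U, hU⟩ := US Y BX hY
  obtain ⟨b, hb⟩ := FN U w BX BM (KD U BX BM) (IX Y U BX BM hY hU (KD U BX BM)) hw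
  refine ⟨b + 2, fun m hm hc par => ?_⟩
  have wp : ∀ {S : Finset Plc}, (∀ l ∈ S, Gd m (insert q.p M.primeFactors) l) →
      ∀ p ∈ S.image Plc.p, Wp a M m p := fun s3 p hp => by
    obtain ⟨l, hl, rfl⟩ := mem_image.1 hp
    have nd : ¬ l.p ∣ M := fun k =>
      (s3 l hl).out (mem_insert_of_mem (Nat.mem_primeFactors.2 ⟨l.prime, k, hM⟩))
    exact ⟨l.prime, nd, (s3 l hl).m4, (s3 l hl).mod, (s3 l hl).inn.2,
      uo_four he nd (s3 l hl).m4 (s3 l hl).e4⟩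
  have dg : ∀ {S : Finset Plc}, Ad S → (∀ l ∈ S, Gd m (insert q.p M.primeFactors) l) →
      U.P S ∉ K5 w → Dig ψ V (S.image Plc.p) := fun {S} s2 s3 s4 => by
    rw [Dig, show ∏ l ∈ S.image Plc.p, l = cS S from prod_image s2.2]
    intro t ht k
    obtain ⟨w1, -, -, w4⟩ := WP Y (cS S) (S.image Plc.p) w V t BX BM hY (BX.aw S s2)
      (fun p hp => by
        obtain ⟨l, hl, rfl⟩ := mem_image.1 hp
        exact ⟨dvd_prod_of_mem _ hl, l.prime, (s3 l hl).m4⟩) ht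
    rw [hU S s2 fun l hl => (s3 l hl).m4] at s4
    exact s4 (w4 hw hV (w1 ▸ k))
  obtain ⟨S, s1, s2, s3, s4⟩ := hb m (insert q.p M.primeFactors) hm hc
  obtain ⟨Z, z1, z2, z3, z4, t, t1, t2, t3, t4⟩ := F2 U m _ w q S BX BM (KD U BX BM) hm hc hw
    ⟨q2, qJ⟩ (mem_insert_self _ _) s2 s3 s4 fun l hl a1 g => by_contra fun k => by
      have g' : ∀ v ∈ insert l S, Gd m _ v := forall_mem_insert _ _ _ |>.2 ⟨g, s3⟩
      refine par (S.image Plc.p) l.p (fun e => ?_) (image_insert Plc.p l S ▸ wp g') (dg s2 s3 s4)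
        (image_insert Plc.p l S ▸ dg a1 g' k)
      obtain ⟨v, hv, e⟩ := mem_image.1 e
      exact hl (a1.2 (mem_insert_of_mem hv) (mem_insert_self l S) e ▸ hv)
  have nq : q.p ∉ Z.image Plc.p := fun e => by
    obtain ⟨v, hv, e⟩ := mem_image.1 e
    exact (z3 v hv).out (e ▸ mem_insert_self _ _)
  obtain ⟨q0, h0⟩ := uv1_ins z2 ⟨q2, qJ⟩ nq
  exact ⟨Z.image Plc.p, card_image_le.trans (by omega), wp z3, nq, dg z2 z3 z4,
    LQ a M q Z t BX BM he ha q0 h0 (fun l hl =>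
      have k := wp z3 _ (mem_image_of_mem _ hl)
      ⟨k.2.2.1, k.2.2.2.2.2, k.2.1⟩) t1 t2 t3 t4⟩

end Pool.Agent.B10
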