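import Pool.Agent.Lib.MP_696deb_nt.B10.UTop
import Pool.Agent.Lib.MP_696deb_nt.B10.EAT
import Pool.Agent.Lib.MP_696deb_nt.B10.EF2
import Pool.Agent.Lib.MP_696deb_nt.B10.EFA
import Pool.Agent.Lib.MP_696deb_nt.B10.EJI
import Pool.Agent.Lib.MP_696deb_nt.B10.ELQ
import Pool.Agent.Lib.MP_696deb_nt.B10.EMD
import Pool.Agent.Lib.MP_696deb_nt.B10.EPG
import Pool.Agent.Lib.MP_696deb_nt.B10.ERL
import Pool.Agent.Lib.MP_696deb_nt.B10.EU2

/-! The result on the Weber units with the condition at an inert prime, without hypotheses. -/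

set_option autoImplicit false

namespace Pool.Agent.B10

theorem etop_f2 : F2Stmt :=
  @f2_stmt (@fa_stmt @kc_stmt @st_stmt) @md_stmt @me_stmt @rl_stmt @at_stmt
    (@pg_stmt dp_stmt @e4_stmt) @d5_stmt @utop_p1 @rc_stmt pr_stmt

theorem u2 : U2Stmt :=
  @u2_stmt @cx_stmt @bx_stmt @bm_stmt @utop_wb @us_stmt (@ix_stmt @utop_wp) @kd_stmt @utop_fn
    @utop_wp @etop_f2 (@lq_stmt @ji_stmt @rc_stmt pr_stmt)

end Pool.Agent.B10
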