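import Pool.Agent.Lib.MP_696deb_nt.B10.TTop
import Pool.Agent.Lib.MP_696deb_nt.B10.ETop
import Pool.Agent.Lib.MP_696deb_nt.B10.EFC
import Pool.Agent.Lib.MP_696deb_nt.B10.EK2
import Pool.Agent.Lib.MP_696deb_nt.B10.EKE
import Pool.Agent.Lib.MP_696deb_nt.B10.ESC
import Pool.Agent.Lib.MP_696deb_nt.B10.ESL
import Pool.Agent.Lib.MP_696deb_nt.B10.ET2
import Pool.Agent.Lib.MP_696deb_nt.B10.ETE

/-! The converse theorem for all twists from the core. -/

set_option autoImplicit false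

namespace Pool.Agent.T10

/-- The local seed. -/
theorem top_sl : SLStmt :=
  @sl_stmt (@B8.cf_stmt @B8.cfa_stmt @B8.cfb_stmt) @B10.u2 @top_ut top_fx rq_stmt @top_dg @top_fs
    (@t2_stmt fi_stmt (@k2_stmt ml_stmt lv_stmt top_lw) @top_kg @top_tc)

theorem te_of_co (co : COStmt) : TEStmt :=
  @te_stmt (@ke_stmt @co) @top_sd @sb_stmt @top_sl (@sc_stmt @fc_stmt)

end Pool.Agent.T10
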