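import Pool.Agent.Lib.MP_696deb_nt.B10.UZ
import Pool.Agent.Lib.MP_696deb_nt.B2.TW2

/-! Two classes that do not vanish at a suitable square, and primes for them. -/

set_option autoImplicit false

open NumberTheorySymbols

namespace Pool.Agent.B10
open Pool.Agent.Lib.MP_696deb_nt Pool.Agent.Lib.MP_696deb_nt.B2 Pool.Agent.Lib.MP_696deb_nt.B2.CM
  Pool.Agent.B6 Pool.Agent.B4 Pool.Agent.B8

/-- The cyclotomic character as a homomorphism. -/
noncomputable def unzC (m : ℕ) : Gam →* ZMod (2 ^ m) where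
  toFun := cy m
  map_one' := by rw [cy, cyc_one, map_one]
  map_mul' g h := by rw [cy, cyc_mul, map_mul]; rfl

theorem unz_le {j m : ℕ} (h : j ≤ m) {g : Gam} (e : g ∈ (unzC m).ker) : cy j g = 1 := by
  rw [cy, ← PadicInt.zmod_cast_comp_toZModPow j m h, RingHom.comp_apply]
  exact (congrArg _ e).trans (map_one _)

theorem unz_op (m : ℕ) : Op (unzC m).ker := by
  obtain ⟨U, u1, -, u3⟩ := sm_cy (H := ⊤) m
  exact Subgroup.isOpen_mono (H₁ := U)
    (fun g hg => (u3 1 trivial g trivial (by simpa using hg)).symm.trans (map_one (unzC m))) u1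

theorem unz_odd {A : Type} [AddCommGroup A] {a k : ℕ} {y : A} (ha : Odd a) (h : 2 ^ k • y = 0)
    (e : a • y = 0) : y = 0 := by
  rw [← addOrderOf_dvd_iff_nsmul_eq_zero] at h e
  exact AddMonoid.addOrderOf_eq_one_iff.1
    (Nat.eq_one_of_dvd_coprimes ((Nat.coprime_two_right.2 ha).pow_right k) e h)

variable [Cp] {U : Subgroup Gam} {s h : Gam} {e j : ℕ} {c : Gam → Mv j}

/-- The subgroup that acts trivially. -/
noncomputable def unzD (U : Subgroup Gam) : Subgroup Gam :=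
  kerOn (GK NN ⊓ U) xc fun _ hg h _ => xc_mul hg.1 h

theorem unz_inv {g : Gam} (hg : g ∈ GK NN) : xc g⁻¹ = -xc g :=
  eq_neg_of_add_eq_zero_right (by rw [← xc_mul hg, mul_inv_cancel, xc_one])

theorem unz_out (hs : s ∉ GK NN) (hh : h ∈ GK NN) : xc (s * h * s⁻¹) = -xc h := by
  have := xc_mul' hs s⁻¹
  rw [mul_inv_cancel, xc_one] at this
  rw [mul_assoc, xc_mul' hs, xc_mul hh]
  linear_combination -this

theorem unz_normal (hU : U.Normal) : (unzD U).Normal := ⟨fun g hg k =>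
  ⟨⟨(normal_GK _).conj_mem g hg.1.1 k, hU.conj_mem g hg.1.2 k⟩, by
    by_cases hk : k ∈ GK NN
    · rw [mul_assoc, xc_mul hk, xc_mul hg.1.1, hg.2, unz_inv hk, zero_add, add_neg_cancel]
    · rw [unz_out hk hg.1.1, hg.2, neg_zero]⟩⟩

theorem unz_triv (B : Bm) (hc : ∀ g ∈ U, cy j g = 1) {g : Gam} (hg : g ∈ unzD U) (x : Mv j) :
    am e j g x = x := B.triv e j g hg.1.1 hg.2 (by rw [hc g hg.1.2, one_pow]) x

theorem unz_hom (B : Bm) (hc : ∀ g ∈ U, cy j g = 1) (k : Coc (GK NN) (am e j) c) :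
    IsHom (unzD U) c := fun g hg g' hg' => by rw [k.2 g hg.1.1 g' hg'.1.1, unz_triv B hc hg]

theorem unz_one (B : Bm) (k : Coc (GK NN) (am e j) c) : c 1 = 0 := by
  have := k.2 1 (one_mem _) 1 (one_mem _)
  rwa [mul_one, (B.act e j).one, left_eq_add] at this

theorem unz_ex (B : Bm) (hU : U.Normal) (hc : ∀ g ∈ U, cy j g = 1) (hs : s ∉ GK NN)
    (hh : h ∈ GK NN ⊓ U) (h0 : xc h ≠ 0) (k : Nc e j c) :
    ∃ g ∈ unzD U, c (s * g * s⁻¹) + c g ≠ 0 := by
  by_contra! z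
  have n := unz_normal hU
  have mul := fun g g' => (B.act e j).mul g trivial g' trivial
  have cj : ∀ t ∈ GK NN, ∀ g ∈ unzD U, c (t * g * t⁻¹) = am e j t (c g) := fun t ht g hg => by
    have := k.1.2 t ht _ (inv_mem ht)
    rw [mul_inv_cancel, unz_one B k.1] at this
    rw [mul_assoc, k.1.2 t ht _ (mul_mem hg.1.1 (inv_mem ht)), k.1.2 g hg.1.1 _ (inv_mem ht),
      unz_triv B hc hg, map_add, add_left_comm, ← this, add_zero]
  have h' := (normal_GK _).conj_mem h hh.1 s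
  have v : ∀ g ∈ unzD U, c g = 0 := fun g hg => by
    have a := z _ (n.conj_mem g hg h)
    rw [show s * (h * g * h⁻¹) * s⁻¹ = s * h * s⁻¹ * (s * g * s⁻¹) * (s * h * s⁻¹)⁻¹ by group,
      cj _ h' _ (n.conj_mem g hg s), cj _ hh.1 g hg, eq_neg_of_add_eq_zero_left (z g hg), map_neg,
      neg_add_eq_zero] at a
    refine (B.fpf e j _ (mul_mem (inv_mem h') hh.1) ?_).1 (a₂ := 0) ?_
    · rw [xc_mul (inv_mem h'), unz_inv h', unz_out hs hh.1, neg_neg]
      exact (by decide : ∀ x : I3, x ≠ 0 → x + x ≠ 0) _ h0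
    · beta_reduce
      rw [mul, ← a, ← mul, inv_mul_cancel, (B.act e j).one, map_zero, sub_self, sub_self]
  obtain ⟨i, o⟩ := B.fpf e j h hh.1 h0
  obtain ⟨x, hx⟩ := o (c h)
  beta_reduce at hx
  refine k.2 ⟨x, fun g hg => i ?_⟩
  have d : g * h * g⁻¹ * h⁻¹ ∈ unzD U :=
    ⟨mul_mem ⟨(normal_GK _).conj_mem h hh.1 g, hU.conj_mem h hh.2 g⟩ (inv_mem hh), by
      rw [mul_assoc, mul_assoc, xc_mul hg, xc_mul hh.1, xc_mul (inv_mem hg), unz_inv hg,
        unz_inv hh.1]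
      ring⟩
  have q : g * h = g * h * g⁻¹ * h⁻¹ * (h * g) := by group
  have a := k.1.2 g hg h hh.1
  rw [q, k.1.2 _ d.1.1 _ (mul_mem hh.1 hg), v _ d, unz_triv B hc d, k.1.2 h hh.1 g hg, ← hx,
    map_sub, ← mul, q, mul, unz_triv B hc d, mul] at a
  simp only [cob, map_sub]
  linear_combination (norm := abel_nf) a

theorem unz_sq (B : Bm) (hU : U.Normal) (hc : ∀ g ∈ U, cy j g = 1) (hs : s * s ∈ unzD U)
    (k : Coc (GK NN) (am e j) c) (z : c (s * s) = 0) {g : Gam} (hg : g ∈ unzD U) :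
    c (s * g * (s * g)) = c (s * g * s⁻¹) + c g := by
  rw [show s * g * (s * g) = s * g * s⁻¹ * (s * s * g) by group,
    unz_hom B hc k _ ((unz_normal hU).conj_mem g hg s) _ (mul_mem hs hg), unz_hom B hc k _ hs _ hg,
    z, zero_add]

theorem unz_add (B : Bm) (hU : U.Normal) (hc : ∀ g ∈ U, cy j g = 1) (k : Coc (GK NN) (am e j) c)
    {g g' : Gam} (hg : g ∈ unzD U) (hg' : g' ∈ unzD U) : c (s * (g * g') * s⁻¹) + c (g * g') =
      c (s * g * s⁻¹) + c g + (c (s * g' * s⁻¹) + c g') := by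
  have n := unz_normal hU
  rw [show s * (g * g') * s⁻¹ = s * g * s⁻¹ * (s * g' * s⁻¹) by group,
    unz_hom B hc k _ (n.conj_mem g hg s) _ (n.conj_mem g' hg' s), unz_hom B hc k _ hg _ hg']
  abel

omit [Cp]

theorem nz_stmt : NZStmt := by
  intro _ U s h e j e' j' c c' B hU hc hs ss hh h0 k k' z z'
  have c1 := fun g hg => (hc g hg).1
  have c2 := fun g hg => (hc g hg).2
  have sd : s * s ∈ unzD U := ⟨⟨mul_mem_GK hs hs, ss⟩, by rw [xc_mul' hs, sub_self]⟩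
  suffices ∃ g ∈ unzD U, c (s * g * s⁻¹) + c g ≠ 0 ∧ c' (s * g * s⁻¹) + c' g ≠ 0 by
    obtain ⟨g, hg, a⟩ := this
    exact ⟨g, hg.1, hg.2, by rwa [unz_sq B hU c1 sd k.1 z hg, unz_sq B hU c2 sd k'.1 z' hg]⟩
  obtain ⟨g, hg, a⟩ := unz_ex B hU c1 hs hh h0 k
  obtain ⟨g', hg', a'⟩ := unz_ex B hU c2 hs hh h0 k'
  by_contra! n
  have b := n g hg a
  have b' : c (s * g' * s⁻¹) + c g' = 0 := by_contra fun b' => a' (n g' hg' b')
  have := n _ (mul_mem hg hg') (by rwa [unz_add B hU c1 k.1 hg hg', b', add_zero])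
  rw [unz_add B hU c2 k'.1 hg hg', b, zero_add] at this
  exact a' this

theorem p3_stmt (hN : NZStmt) (hD : DPStmt) : P3Stmt := by
  intro _ j k B c c' bx bm jk n n'
  obtain ⟨w₂, e₂⟩ := exists_plc Nat.prime_two
  obtain ⟨l, -, σ, hσ, x1⟩ := bx.two w₂ e₂
  have gt := nk.gt
  have hc : cc ∉ GK NN := cc_notMem (by omega)
  have hU : (unzC (k + 1)).ker.Normal := MonoidHom.normal_ker _
  have c1 : ∀ g ∈ (unzC (k + 1)).ker, cy j g = 1 := fun g hg => unz_le (by omega) hg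
  have c2 : ∀ g ∈ (unzC (k + 1)).ker, cy 1 g = 1 := fun g _ => cy_one_eq g
  have xp : ∀ t : ℕ, xc (σ ^ t) = t := fun t => by
    induction t with
    | zero => rw [pow_zero, xc_one, Nat.cast_zero]
    | succ t ih => rw [pow_succ', xc_mul (l hσ), ih, x1, Nat.cast_succ, add_comm]
  obtain ⟨g, hg, g0, a, a'⟩ := hN _ cc (σ ^ (2 ^ (k + 1)).totient) 0 j 1 1 c c' bm hU
    (fun g hg => ⟨c1 g hg, c2 g hg⟩) hc (by rw [cc_mul_cc]; exact one_mem _)
    ⟨pow_mem (l hσ) _, by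
      obtain ⟨u, hu⟩ := (Group.isUnit σ).map (unzC (k + 1))
      change unzC _ _ = 1
      rw [map_pow, ← hu, ← Units.val_pow_eq_pow_val, ZMod.pow_totient, Units.val_one]⟩
    (by
      rw [xp, Nat.totient_prime_pow_succ Nat.prime_two]
      push_cast
      rw [mul_one]
      exact (IsUnit.pow k (by decide : IsUnit (2 : I3))).ne_zero)
    n n' (by rw [cc_mul_cc, unz_one bm n.1]) (by rw [cc_mul_cc, unz_one bm n'.1])
  have hs : cc * g ∉ GK NN := fun e => hc ((mul_mem_cancel_right (H := GK NN) hg.1).1 e)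
  have cs : unzC (k + 1) (cc * g) = -1 := by
    rw [map_mul, show unzC _ g = 1 from hg.2, mul_one]
    change cy _ _ = _
    rw [cy, cyc_cc, map_neg, map_one]
  obtain ⟨w, t, wB, ot, fw, xw⟩ := hD (unzD (unzC (k + 1)).ker) ⊤ (Mv j × Mv 1) (k + 1) 0
    (fun g => (c g, c' g)) (cc * g) (B ∪ (2 * NN).primeFactors)
    (op_kerOn ((op_GK _).inf (unz_op _)) (sm_xc _) _) (unz_normal hU) isOpen_univ inferInstance
    (fun y => Prod.ext
      (by
        obtain ⟨d, hd⟩ := pow_dvd_pow 2 (show j ≤ k + 1 by omega)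
        rw [Prod.smul_fst, hd, mul_comm, mul_smul, bm.kil, smul_zero, Prod.fst_zero])
      (by rw [Prod.smul_snd, pow_add, mul_smul, bm.kil, smul_zero, Prod.snd_zero]))
    ((n.1.1.comp₂ n'.1.1 Prod.mk).mono fun g hg => hg.1.1)
    (fun g hg g' hg' => Prod.ext (unz_hom bm c1 n.1 g hg g' hg') (unz_hom bm c2 n'.1 g hg g' hg'))
    ⟨⟨mul_mem_GK hs hs, by change unzC _ _ = 1; rw [map_mul, cs, neg_mul_neg, one_mul]⟩,
      by rw [xc_mul' hs, sub_self]⟩ trivial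
  rw [Finset.mem_union, not_or, Nat.mem_primeFactors_of_ne_zero (by omega)] at wB
  have nd : ¬ w.p ∣ 2 * NN := fun e => wB.2 ⟨w.prime, e⟩
  have p2 : w.p ≠ 2 := fun e => nd (e ▸ dvd_mul_right _ _)
  refine ⟨w, wB.1, ⟨p2, ?_⟩, ?_, fun z => a (unz_odd ot (bm.kil j _) ?_),
    fun z => a' (unz_odd ot (bm.kil 1 _) ?_)⟩
  · have q := B4c_mem.1 fw.1.1.1
    rw [map_mul, map_pow, B4c_notMem.1 hs, ot.neg_one_pow, map_inv, inv_mul_eq_one] at q
    rw [← chi_frob (by rw [mul_neg, dvd_neg]; exact_mod_cast nd) (fr_spec w), q]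
    rfl
  · have q : unzC (k + 1) (fr w * ((fr w)⁻¹ * (cc * g) ^ t)) = w.p := by
      rw [map_mul, show unzC _ ((fr w)⁻¹ * _) = 1 from fw.1.1.2, mul_one]
      change cy _ _ = _
      rw [cy, cyc_frob p2 (fr_spec w), map_natCast]
    rw [mul_inv_cancel_left, map_pow, cs, ot.neg_one_pow] at q
    refine (pow_dvd_pow 2 k.le_succ).trans ((ZMod.natCast_eq_zero_iff _ _).1 ?_)
    rw [Nat.cast_succ, ← q, neg_add_cancel]
  · exact (congrArg Prod.fst xw).symm.trans z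
  · exact (congrArg Prod.snd xw).symm.trans z

end Pool.Agent.B10
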