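import Pool.Agent.Lib.MP_696deb_nt.B10.UO
import Pool.Agent.Lib.MP_696deb_nt.B10.UNZ

/-! The classes of the half sums of Weber units: definitions and statements. -/

set_option autoImplicit false

open NumberField NumberTheorySymbols Finset
open scoped Classical NNReal

namespace Pool.Agent.B10
open Pool.Agent.Lib.MP_696deb_nt Pool.Agent.Lib.MP_696deb_nt.B2 Pool.Agent.Lib.MP_696deb_nt.B2.CM
  Pool.Agent.B6 Pool.Agent.B4 Pool.Agent.B8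
open Pool.Agent.Lib.MP_696deb_nt.B3.CM (th)

/-- The diagonal condition. -/
def Dg (S : Finset Plc) (c : Gam → Mv 1) : Prop := ∀ v ∈ S, c (fq v) = c (gn v)

section

variable [Cp]

/-- Admissible sets of places above primes that are one modulo four. -/
def A1 (S : Finset Plc) : Prop := Ad S ∧ ∀ v ∈ S, v.p % 4 = 1

/-- The classes of the points `U.P S`. -/
structure Fam (U : US) (t : Finset Plc → Gam → Mv 1) : Prop where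
  coc : ∀ S, A1 S → Coc (GK NN) (am 1 1) (t S)
  ur : ∀ S, A1 S → Ur S (t S)
  dg : ∀ S, A1 S → Dg S (t S)
  step : ∀ S l, l ∉ S → A1 (insert l S) → t (insert l S) (gn l) = t S (fq l)
  kum : ∀ (S : Finset Plc) (w : Plc), A1 S → w.p = 2 → ∃ R : TT, 2 • R = U.P S ∧
    ∀ g ∈ GK NN ⊓ Dec w, emb 1 (t S g) = g • R - R

/-- Real classes. -/
def Rl (c : Gam → Mv 1) : Prop :=
  ∀ s : Gam, ∀ g ∈ GK NN, xc g = 0 → c (s * g * s⁻¹) = am 1 1 s (c g)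

/-- The homomorphism that gives the values at the squares. -/
noncomputable def fs2 (s : Gam) (c : Gam → Mv 1) (g : Gam) : Mv 1 := c (s * g * s⁻¹) + c g

/-- The values that are attained on all deep subgroups. -/
def Att (c₁ c₂ c₃ : Gam → Mv 1) (Φ : Mv 1 → Mv 1 → Mv 1 → Prop) : Prop :=
  ∀ (U : Subgroup Gam) (s h : Gam), U.Normal → s ∉ GK NN → h ∈ GK NN ⊓ U → xc h ≠ 0 →
    ∃ g ∈ unzD U, Φ (fs2 s c₁ g) (fs2 s c₂ g) (fs2 s c₃ g)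

end

def FAStmt : Prop := ∀ [Cp] (U : US), Bx → Bm → U.Kd → ∃ t, Fam U t

/-- A class that vanishes at two and is free at `p`. -/
def MDStmt : Prop := ∀ [Cp] (w p : Plc) (S : Finset Plc) (t : Gam → Mv 1), Bx → Bm → w.p = 2 →
  p ∉ S → Ad (insert p S) → Nc 1 1 t → Ur (insert p S) t → Dg S t → t (fq p) = 0 → t (gn p) = 0 →
  ∃ ξ, Nc 1 1 ξ ∧ Ur (insert p S) ξ ∧ (∀ g ∈ GK NN ⊓ Dec w, ξ g = 0) ∧ Dg S ξ

/-- A class that is orthogonal to the condition at two. -/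
def MEStmt : Prop := ∀ [Cp] (F : CFT) (w : Plc) (S : Finset Plc) (Λ : AddSubgroup (Gam → Mv 1))
  (t : Gam → Mv 1), Bx → Bm → w.p = 2 → Ad S → L5 w Λ → Nc 1 1 t → Ur S t → Dg S t →
  rs (GK NN ⊓ Dec w) t ∈ Λ → ∃ ξ, Nc 1 1 ξ ∧ Ur S ξ ∧ Dg S ξ ∧
    ∀ c ∈ Λ, F.inv 1 (GK NN) w (cupb (bm 1) (am 0 1) c ξ) = 0

/-- The real part of a class. -/
def RLStmt : Prop := ∀ [Cp] (w p : Plc) (S : Finset Plc) (ξ : Gam → Mv 1), Bx → Bm → w.p = 2 →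
  Ad (insert p S) → Coc (GK NN) (am 1 1) ξ → Ur (insert p S) ξ → (∀ g ∈ GK NN ⊓ Dec w, ξ g = 0) →
  Dg S ξ → ξ (gn p) ≠ 0 → ∃ ρ, Coc (GK NN) (am 1 1) ρ ∧ Ur (insert p S) ρ ∧
    (∀ g ∈ GK NN ⊓ Dec w, ρ g = 0) ∧ Dg S ρ ∧ ρ (gn p) ≠ 0 ∧ Rl ρ

/-- Independence of a real class that ramifies at `p` from classes that do not. -/
def ATStmt : Prop := ∀ [Cp] (p : Plc) (c c' ρ : Gam → Mv 1), Bx → Bm → In p → Nc 1 1 c →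
  Nc 1 1 c' → Coc (GK NN) (am 1 1) ρ → Rl ρ → c (gn p) = 0 → c' (gn p) = 0 → ρ (gn p) ≠ 0 →
  (Att c c' ρ fun x _ z => x ≠ 0 ∧ z = 0) ∧ Att c c' ρ fun x y z => x ≠ 0 ∧ y ≠ 0 ∧ z ≠ 0

/-- The choice of a prime. -/
def PGStmt : Prop := ∀ [Cp] (m : ℕ) (B : Finset ℕ) (S : Finset Plc) (c₁ c₂ c₃ : Gam → Mv 1)
  (Φ : Mv 1 → Mv 1 → Mv 1 → Prop), Bx → Bm → m ≠ 0 → m.Coprime NN → Ad S →
  Coc (GK NN) (am 1 1) c₁ → Coc (GK NN) (am 1 1) c₂ → Coc (GK NN) (am 1 1) c₃ → Ur S c₁ → Ur S c₂ →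
  Ur S c₃ → Att c₁ c₂ c₃ Φ → ∃ w : Plc, Gd m B w ∧ Φ (c₁ (fq w)) (c₂ (fq w)) (c₃ (fq w))

/-- The points of order two of the curve and of the torus. -/
def JIStmt : Prop := ∀ [Cp], Bx → Bm → ∃ j : Mv 1 →+ B6.EE, Function.Injective j ∧
  (∀ P : B6.EE, 2 • P = 0 → ∃ x, j x = P) ∧ ∀ g ∈ GK NN, ∀ x, j (am 1 1 g x) = g • j x

/-- Points of twists that do not reduce to the origin at `q` are not divisible by two at two. -/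
def Lq [Cs] (a : ℕ → ℤ) (M q : ℕ) (T : Finset ℕ) : Prop :=
  ∀ (d : ℤ) (y : B6.EE) (w v : Plc), w.p = q → v.p = 2 → Squarefree d → (q : ℤ) ∣ d →
    (∀ l ∈ T, (l : ℤ) ∣ d) → (∀ l : ℕ, l.Prime → l ≠ 2 → (l : ℤ) ∣ d →
      l = q ∨ l ∈ T ∨ (¬ l ∣ M ∧ ¬ l ∣ NN ∧ Odd (a l))) → (∀ g, B6.tw d g y = y) → y ∉ B6.K1 w →
    ∀ R : B6.EE, (∀ σ ∈ Ine v, σ • R = R) → 2 • R ≠ y

def LQStmt : Prop := ∀ [Cp] (a : ℕ → ℤ) (M : ℕ) (q : Plc) (S : Finset Plc) (t : Gam → Mv 1), Bx →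
  Bm → B6.EsStmt a M → Even WZ.a₁ → q ∉ S → Ad (insert q S) →
  (∀ l ∈ S, l.p % 4 = 1 ∧ 4 ∣ a l.p ∧ ¬ l.p ∣ M) → Coc (GK NN) (am 1 1) t → Ur S t → Dg S t →
  t (fq q) ≠ 0 → Lq a M q.p (S.image Plc.p)

/-- Two more primes make the class nonzero at `q`. -/
def F2Stmt : Prop := ∀ [Cp] (U : US) (m : ℕ) (B : Finset ℕ) (w q : Plc) (S : Finset Plc), Bx → Bm →
  U.Kd → m ≠ 0 → m.Coprime NN → w.p = 2 → In q → q.p ∈ B → Ad S → (∀ l ∈ S, Gd m B l) →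
  U.P S ∉ K5 w → (∀ l, l ∉ S → Ad (insert l S) → Gd m B l → U.P (insert l S) ∈ K5 w) →
  ∃ S' : Finset Plc, S'.card ≤ S.card + 2 ∧ Ad S' ∧ (∀ l ∈ S', Gd m B l) ∧ U.P S' ∉ K5 w ∧
    ∃ t, Coc (GK NN) (am 1 1) t ∧ Ur S' t ∧ Dg S' t ∧ t (fq q) ≠ 0

/-- The first digit of the Weber unit for `T` does not vanish. -/
def Dig [Ce] [∀ c, Fintype (Pc NN c)] (ψ : Pc NN 2 →* Z3) (V : Valuation ℂ ℝ≥0) (T : Finset ℕ) :
    Prop := ∀ t : Pc NN (2 * ∏ l ∈ T, l) → ℂ, (∀ x, Rp NN (2 * ∏ l ∈ T, l) (t x) x) →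
  ¬ V (((Real.exp (1 / 6 * ∑ x with ∀ l ∈ T, th NN (2 * ∏ l ∈ T, l) l x = 1,
    bw (ψ (pj NN 2 (2 * ∏ l ∈ T, l) x)) * H3.T.Lam (t x)) : ℝ) : ℂ) - 1) ^ 3 < V 2 ^ 2

/-- The wanted primes. -/
def Wp [Cs] (a : ℕ → ℤ) (M m l : ℕ) : Prop :=
  l.Prime ∧ ¬ l ∣ M ∧ l % 4 = 1 ∧ l ≡ 1 [MOD m] ∧ J(-NN | l) = -1 ∧ 4 ∣ a l

/-- The result on the Weber units, with the condition at an inert prime `q`. -/
def U2Stmt : Prop := ∀ [Ce] [∀ c, Fintype (Pc NN c)] (a : ℕ → ℤ) (M q : ℕ) (ψ : Pc NN 2 →* Z3)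
  (w : Plc) (V : Valuation ℂ ℝ≥0), M ≠ 0 → B6.EsStmt a M → Even WZ.a₁ → Cub ψ → w.p = 2 → Ov V w →
  q.Prime → q ≠ 2 → J(-NN | q) = -1 → ∃ B : ℕ, ∀ m : ℕ, m ≠ 0 → m.Coprime NN →
  (∀ (T : Finset ℕ) (l : ℕ), l ∉ T → (∀ p ∈ insert l T, Wp a M m p) → Dig ψ V T →
    ¬ Dig ψ V (insert l T)) →
  ∃ T : Finset ℕ, T.card ≤ B ∧ (∀ l ∈ T, Wp a M m l) ∧ q ∉ T ∧ Dig ψ V T ∧ Lq a M q T

theorem am_zero [Cp] : am 0 1 = am 1 1 := funext fun g => AddMonoidHom.ext fun x =>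
  Subtype.ext (funext fun i => by rw [am_apply, am_apply, cy_one_eq, one_pow, one_pow])

end Pool.Agent.B10
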