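import Pool.Agent.Lib.MP_696deb_nt.B10.ZC
import Pool.Agent.Lib.MP_696deb_nt.B10.EZ

/-! The seeds for even twists: definitions and statements. -/

set_option autoImplicit false

open NumberTheorySymbols Finset
open scoped Classical

namespace Pool.Agent.T10
open Pool.Agent.Lib.MP_696deb_nt Pool.Agent.Lib.MP_696deb_nt.B2 Pool.Agent.Lib.MP_696deb_nt.B2.CM
  Pool.Agent.B6 Pool.Agent.B8 Pool.Agent.B4.GE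
open Pool.Agent.Lib.MP_696deb_nt.B3.CM (th)
open Pool.Agent.B4 (OkN HgN)
open Pool.Agent.B6.CM (yA)
open Pool.Agent.B6.B7 (dt Cnv)
open Pool.Agent.B6.B7.Dn (yB OkD)

/-- Formal combinations of genera. -/
abbrev Gn : Type := Finset ℕ × (ℕ → ℤˣ) →₀ ℤ

/-- The combination of the sums over the genera. -/
noncomputable def Zm [Cw] {N : ℕ} (P : Par Wu N) (n : ℕ) [∀ c, Fintype (Pc n c)] (r : ℤ) (μ : Gn) :
    B6.EE := μ.sum fun p k => k • Zs P n r p.1 p.2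

/-- Combinations that are not divisible by two among the points that are unramified at two occur
at all depths. -/
def SeedL [Cs] (P : Par Wu NN) (M n : ℕ) [∀ c, Fintype (Pc n c)] (r : ℤ) : Prop := ∃ B : ℕ,
  ∀ m : ℕ, m ≠ 0 → m.Coprime NN → ∃ (T : Finset ℕ) (μ : Gn) (v : Plc), T.card ≤ B ∧
    (∀ l ∈ T, l.Prime ∧ ¬ l ∣ M ∧ l ≡ 1 [MOD 8 * n * m] ∧ 4 ∣ P.a l) ∧
    (∀ p ∈ μ.support, p.1 ⊆ T) ∧ v.p = 2 ∧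
    ∀ R : B6.EE, (∀ σ ∈ Ine v, σ • R = R) → 2 • R ≠ Zm P n r μ

/-- The sum over all classes, exactly. -/
def K2Stmt : Prop := ∀ [Cs] (P : Par Wu NN) (n : ℕ) [∀ c, Fintype (Pc n c)] (r : ℤ) (b : ℕ → ℤ)
  (T : Finset ℕ) (z : Pc n 1 → ℂ), OkN NN n 1 r → Squarefree n → Tp NN T → Ts n b T →
  (∀ l ∈ T, 4 ∣ P.a l) → (∀ x, HgN NN n 1 r (z x) ∧ cl _ (sp2 (z x) 1) = x) →
  (∃ μ : Gn, (∀ p ∈ μ.support, p.1 ⊆ T) ∧ ∑ x, Dz P T (z x) (RK n b (z x)) = Zm P n r μ) ∧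
  2 ^ T.card • ∑ x, Dz P T (z x) (RK n b (z x)) = ∑ x : Pc n (∏ l ∈ T, l),
    ((∏ l ∈ T, th n (∏ l ∈ T, l) l x : ℤˣ) : ℤ) • yA P n (∏ l ∈ T, l) r x

/-- The transfer gives a point of a twist. -/
def T2Stmt : Prop := ∀ [Ce] (P : Par Wu NN), P.t0 ∈ P.L.lattice →
  (∀ Q ∈ EN, 2 • Q = 0 → Q = 0) → ∃ M : ℕ, M ≠ 0 ∧
  ∀ (q l : ℕ) [∀ c, Fintype (Pc (q * l) c)] (r : ℤ) (T : Finset ℕ), q.Prime → q % 8 = 3 →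
  4 * NN ^ 2 < q → ¬ q ∣ M → l.Prime → l % 8 = 1 → J(l | q) = -1 → J(NN | l) = 1 →
  CondB (q * l : ℕ) → 4 * (NN : ℤ) ∣ r ^ 2 + (q * l : ℕ) → Tk NN P.a T → Even T.card →
  (∀ p ∈ T, p ≡ 1 [MOD 4 * (q * l)]) → Fs P T l →
  ∃ μ : Gn, (∀ p ∈ μ.support, p.1 ⊆ T) ∧
    (∀ g, B6.tw (-((q * l * ∏ p ∈ T, p : ℕ) : ℤ)) g (Zm P (q * l) r μ) = Zm P (q * l) r μ) ∧
    ∃ w : Plc, w.p = q ∧ Zm P (q * l) r μ ∉ B6.K1 w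

/-- The local seed. -/
def SLStmt : Prop := ∀ [Ce] (D : MD Wu NN) (k : ℤ) (M₀ : ℕ), D.k = k → Odd k → Nf8 D →
  D.par.t0 ∈ D.par.L.lattice → (∀ Q ∈ EN, 2 • Q = 0 → Q = 0) → M₀ ≠ 0 → B6.EsStmt D.c M₀ →
  ∃ M : ℕ, M ≠ 0 ∧ ∀ (q l : ℕ) [∀ c, Fintype (Pc (q * l) c)] (r : ℤ), q.Prime → q % 8 = 3 →
  4 * NN ^ 2 < q → ¬ q ∣ M → l.Prime → ¬ l ∣ M → l % 8 = 1 → J(l | q) = -1 → J(NN | l) = 1 →
  ¬ Rt l → Odd (D.c l) → CondB (q * l : ℕ) → 4 * (NN : ℤ) ∣ r ^ 2 + (q * l : ℕ) →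
  SeedL D.par M₀ (q * l) r

/-- The half points for two and for minus two are congruent. -/
def FCStmt : Prop := ∀ [Md] (P : Par Wu NN) (n c : ℕ) [∀ c, Fintype (Pc n c)] (r : ℤ)
  (x : Pc n c), OkD NN n c r → n % 8 = 3 → Even (P.a 2) → ¬ 2 ∣ c → c.Coprime NN →
  ∃ R ∈ EN, yB P r (-2) c x = yB P r 2 c x + 2 • R

/-- The seeds for even twists. -/
def SCStmt : Prop := ∀ [Md] (P : Par Wu NN), Even WZ.a₁ → Even (P.a 2) →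
  (∀ Q ∈ EN, 2 • Q = 0 → Q = 0) → ∃ B : ℕ, ∀ (n : ℕ) [∀ c, Fintype (Pc n c)] (r δ : ℤ), B < n →
  n % 3 = 2 → B6.Nok n → 4 * (NN : ℤ) ∣ r ^ 2 + n → δ = 2 ∨ δ = -2 → SeedL P MM n r →
  SeedB P n r δ

/-- The converse theorem from the seeds. -/
def KEStmt : Prop := ∀ [Md] (_ : B6.Tate) (D : MD Wu NN) (G : Geo D.par) (d : ℤ) (M : ℕ), G5.Nw D →
  (∀ (l : ℕ) [Fact l.Prime], ¬ l ∣ 2 * NN → D.c l = tr l B6.cub) → (∀ l, B6.al l = D.c l) →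
  G.M ∣ MM → Squarefree d → d ≠ 1 → M ≠ 0 →
  (∀ (q l : ℕ) [∀ c, Fintype (Pc (q * l) c)] (r : ℤ), q.Prime → q % 8 = 3 → 4 * NN ^ 2 < q →
    M < q → q < l → l.Prime → l % 8 = 1 → J(l | q) = -1 → J(NN | l) = 1 → ¬ Rt l →
    B6.Nok (q * l) → q * l % 3 = 2 → 4 * (NN : ℤ) ∣ r ^ 2 + (q * l : ℕ) →
    SeedB D.par (q * l) r (dt d)) → Cnv D.c d

/-- The converse theorem for all twists. -/
def TEStmt : Prop := ∀ [Ce] (D : MD Wu NN) (k : ℤ), D.k = k → Odd k → Nf8 D →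
  ∀ d : ℤ, Squarefree d → d ≠ 1 → Cnv D.c d

end Pool.Agent.T10
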