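import Pool.Agent.Lib.MP_696deb_nt.B8.FinT

/-! The converse theorem in the form of the hand-ins. -/

set_option autoImplicit false

open Classical Complex Filter Topology
open scoped Real UpperHalfPlane

namespace Pool.Agent.T10

open Pool.Agent.Lib.MP_696deb_nt Pool.Agent.Lib.MP_696deb_nt.B2 Pool.Agent.B6 Pool.Agent.B4
open Pool.Agent.B6.B7 Pool.Agent.B8

/-- The converse theorem for the twists with the property `Q`. -/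
def AllStmt (Q : ℤ → Prop) : Prop := ∀ [Ce] (D : GE.MD B6.Wu NN) (k : ℤ), D.k = k → Odd k → Nf8 D →
  ∀ d : ℤ, Squarefree d → Q d → Cnv D.c d

theorem cnv_ten {Q : ℤ → Prop} (al : AllStmt Q)
    (W : WeierstrassCurve ℤ) (N : ℕ) (hN : Squarefree N) (hN2 : Odd N) (hN3 : 3 < N)
    (hrad : ∀ p : ℕ, p.Prime → (p : ℤ) ∣ W.Δ → p ∣ N) (hc4 : IsCoprime W.c₄ W.Δ)
    (h2 : ∀ x : ℚ, 4 * x ^ 3 + W.b₂ * x ^ 2 + 2 * W.b₄ * x + W.b₆ ≠ 0)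
    (f : CuspForm (CongruenceSubgroup.Gamma0 N) 2) (c : ℕ → ℤ) (hc : c 1 = 1)
    (hf : ∀ τ : ℍ, HasSum (fun n : ℕ => (c n : ℂ) * cexp (2 * π * I * τ) ^ n) (f τ))
    (hT : ∀ l : ℕ, l.Prime → ¬ l ∣ N → ∀ n : ℕ,
      c (l * n) + (if l ∣ n then l * c (n / l) else 0) = c l * c n)
    (hU : ∀ p : ℕ, p.Prime → p ∣ N → c p ^ 2 = 1 ∧ ∀ n : ℕ, c (p * n) = c p * c n)
    (hW : ∀ τ τ' : ℍ, (τ' : ℂ) = -1 / (N * τ) → f τ' = -(N * τ ^ 2) * f τ)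
    (hE : ∀ l : ℕ, l.Prime → ¬ l ∣ N →
      c l = l + 1 - Nat.card (W.map (Int.castRingHom (ZMod l))).toAffine.Point)
    (F : ℂ → ℂ) (hF : ∀ z : ℂ, F z = ∑' n : ℕ, (c n : ℂ) / n * cexp (2 * π * I * z) ^ n)
    (L : PeriodPair) (h4 : (W.c₄ : ℂ) = 12 * L.g₂) (h6 : (W.c₆ : ℂ) = 216 * L.g₃)
    (k : ℚ) (hL : ∀ γ ∈ CongruenceSubgroup.Gamma0 N, ∀ τ : ℍ,
      k * (F (γ • τ : ℍ) - F τ) ∈ L.lattice)
    (hH : (∃ Ω : ℂ, Tendsto (fun y : ℝ => F (y * I)) (𝓝[>] 0) (𝓝 Ω) ∧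
        ∀ m : ℤ, Odd m → m * (k * Ω) / 2 ∉ L.lattice) ∨
      Even (c 2) ∧ Odd k.num ∧ ∃ s : ℤ, W.Δ = -(N * s ^ 2)) :
    ∃ (C : Cs) (D : GE.MD (@B6.Wu C.toCw) (@NN C)), @WZ C.toCw = W ∧ @NN C = N ∧ D.c = c ∧
      G5.Nw D ∧ ∀ d, Squarefree d → Q d → d % 4 = 1 ∨ Even (c 2) → @Cnv C D.c d := by
  rcases hH with ⟨Ω, hΩ, hH⟩ | ⟨a1, a2, a3⟩
  · obtain ⟨C, D, e1, e2, e3, n, h⟩ := hyp_d W N hN hN2 (by omega) hrad hc4 h2 f c hc hf hT hU hW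
      hE F hF L h4 h6 k hL Ω hΩ hH
    exact ⟨C, D, e1, e2, e3, n, fun d a _ => h d a⟩
  obtain ⟨Ω, hΩ⟩ := ex_lim hN.ne_zero hf hW hF
  have hL' : ∀ γ ∈ CongruenceSubgroup.Gamma0 N, ∀ τ : ℍ,
      ((k.num : ℚ) : ℂ) * (F (γ • τ : ℍ) - F τ) ∈ L.lattice := fun γ hγ τ => by
    have := nsmul_mem (hL γ hγ τ) k.den
    rwa [nsmul_eq_mul, ← mul_assoc, ← Rat.cast_natCast, ← Rat.cast_mul, Rat.den_mul_eq_num] at this
  have ha : Even W.a₁ := Int.not_odd_iff_even.1 fun j => by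
    have n2 := hN2.not_two_dvd_nat
    obtain ⟨m, hm⟩ := card_even (W := W.map (Int.castRingHom (ZMod 2)))
      (ZMod.intCast_eq_one_iff_odd.2 j) (by
        rw [WeierstrassCurve.map_Δ]
        exact fun z => n2 (hrad 2 Nat.prime_two ((ZMod.intCast_zmod_eq_zero_iff_dvd _ 2).1 z)))
    rw [hE 2 Nat.prime_two n2, hm, Int.even_iff] at a1
    omega
  have h0 : W.Δ ≠ 0 := fun e => by
    obtain ⟨p, p1, p2⟩ := Nat.exists_infinite_primes (N + 1)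
    exact absurd (Nat.le_of_dvd hN2.pos (hrad p p2 (e ▸ dvd_zero _))) (by omega)
  let C : Ce := @Ce.mk (@Cs.mk ⟨W, h0⟩ N hN hN2 (by omega) a3 hrad hc4 h2) ha hN3
  have k0 : (k.num : ℚ) ≠ 0 := Int.cast_ne_zero.2 fun e => by simp [e] at a2
  let D : GE.MD B6.Wu NN := ⟨hN.ne_zero, f, c, hc, hf, hT, hW, F, hF, L,
    ⟨B6.Wu_c₄.trans h4, B6.Wu_c₆.trans h6⟩, k.num, k0, hL', Ω, hΩ⟩
  have ht : ∀ (l : ℕ) [Fact l.Prime], ¬ l ∣ 2 * N → c l = tr l B6.cub := fun l hl e => by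
    rw [B6.cub_fun]
    refine (hE l hl.out fun k => e (k.mul_left _)).trans ?_
    rw [card_mod (fun k => e (k ▸ dvd_mul_right _ _))
      (fun k => e ((hrad l hl.out k).mul_left _)) rfl rfl rfl, sub_sub_cancel]
    rfl
  exact ⟨C.toCs, D, rfl, rfl, rfl, hU, fun d a b _ => al D k.num rfl a2 ⟨hU, ht, a1⟩ d a b⟩

end Pool.Agent.T10
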