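import Pool.Agent.Lib.MP_696deb_nt.B10.ZS

/-! The numbers of representations above a class, in the principal genus at an inert prime. -/

set_option autoImplicit false

open NumberTheorySymbols Finset Function Complex
open scoped Classical NNReal Real

namespace Pool.Agent.T10
open Pool.Agent.Lib.MP_696deb_nt Pool.Agent.Lib.MP_696deb_nt.B2 Pool.Agent.Lib.MP_696deb_nt.B2.CM
  Pool.Agent.B6 Pool.Agent.B8 Pool.Agent.B4.GE
open Pool.Agent.Lib.MP_696deb_nt.B3.CM (th Gd kc_odd sum_nb nb_mid_sc)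

variable {n c l a m : ℕ} {b : ℤ} {I : Lt} {τ z : ℂ}

theorem ca_fin (h : IsLat I) (r : ℝ) : {z : ℂ | z ∈ I ∧ normSq z = r}.Finite := by
  obtain ⟨L, rfl⟩ := h
  refine (Metric.finite_isBounded_inter_isClosed (K := Metric.closedBall 0 √r)
    (s := (L.lattice : Set ℂ)) ⟨inferInstanceAs (DiscreteTopology L.lattice)⟩
    Metric.isBounded_closedBall L.isClosed_lattice).subset fun z hz => ⟨?_, hz.1⟩
  rw [mem_closedBall_zero_iff, ← hz.2, Complex.norm_def]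

/-- Lattices of norm `a`. -/
def CaN (n c a : ℕ) (I : Lt) : Prop := ∃ (a' : ℕ) (b' : ℤ) (μ : ℂ), Fo n c a' b' ∧ μ ≠ 0 ∧
  I = sc μ (idl n c a' b') ∧ normSq μ * a' = a

theorem ca_norm (ok : Ok n c) (hs : Squarefree n) {p q : ℂ} (hI : IsIv (Oc n c) (sp2 p q))
    (hd : |p.re * q.im - p.im * q.re| = a * (c * √n / 2)) : CaN n c a (sp2 p q) := by
  obtain ⟨a', b', h, -, e⟩ := exists_fo ok (cl _ (sp2 p q)) one_ne_zero
  obtain ⟨μ, μ0, e1⟩ := (cl_eq_iff (h.isIv ok hs) hI).1 e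
  have h2 : 0 < n := by have := ok.gt; omega
  have h3 := ok.ne
  have h4 : 0 < c * √n / 2 := by positivity
  exact ⟨a', b', μ, h, μ0, e1, mul_right_cancel₀ h4.ne' ((cnt_cov e1).symm.trans hd)⟩

theorem ca_cnt (ok : Ok n c) (hs : Squarefree n) (h : CaN n c a I) (m : ℕ) :
    rC n c (cl _ I) m = Nat.card {z : ℂ // z ∈ I ∧ normSq z = m * a} := by
  obtain ⟨a', b', μ, h, μ0, rfl, e⟩ := h
  rw [cl_sc (h.isIv ok hs) μ0, rC_eq ok hs h, rq, ← e, mul_left_comm, cnt_sc μ0]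

theorem ca_th (ok : Ok n c) (hs : Squarefree n) (hl : l.Prime) (h4 : l % 4 = 1) (hc : l ∣ c)
    (h : CaN n c a I) (hz : z ∈ I) (e : normSq z = m * a) (hm : ¬ l ∣ m) :
    (th n c l (cl _ I) : ℤ) = J(m | l) := by
  obtain ⟨a', b', μ, h, μ0, rfl, e1⟩ := h
  have hv := h.isIv ok hs
  have a0 := h.pos ok
  obtain ⟨w, hw, rfl⟩ := mem_sc.1 hz
  obtain ⟨k, x, y, h1, h2⟩ := h.val hw
  rw [map_mul, h1, ← e1, mul_left_comm, mul_left_inj' (by
    exact mul_ne_zero (normSq_pos.2 μ0).ne' (Nat.cast_ne_zero.2 a0.ne')), Nat.cast_inj] at e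
  subst e
  have kc := kc_odd (c := c) ok.m4 (o := l) (by omega) ((Int.natCast_dvd_natCast.2 hc).mul_left _)
  have gd : Gd n c l := kc.exists_th ok
  have c1 : a'.Coprime l := h.1.coprime_dvd_right hc
  obtain ⟨-, j, hj⟩ := h
  rw [cl_sc hv μ0, kc.th_idl ok (fun g hg => gd.th hg) hj (by exact_mod_cast a0)
    (prim_of_mult ok hj fun u hu => hv.mem_of_mul hu) (Nat.isCoprime_iff_coprime.2 c1),
    Int.natAbs_natCast]
  obtain ⟨d, rfl⟩ := hc
  have h3 := jacobiSym.mod_left' (b := l) (a₁ := 4 * a' * k) (a₂ := x ^ 2)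
    (Int.modEq_iff_dvd.2 ⟨-(n * l * d ^ 2 * y ^ 2), by rw [h2]; push_cast; ring⟩)
  rw [jacobiSym.mul_left, jacobiSym.mul_left, jacobiSym.at_four (Nat.odd_iff.2 (by omega)), one_mul,
    jacobiSym.pow_left] at h3
  have := sq_nonneg J(x | l)
  rcases jacobiSym.eq_one_or_neg_one (a := a') (b := l) c1 with h5 | h5 <;>
    rcases jacobiSym.eq_one_or_neg_one (a := k) (b := l)
      ((Nat.coprime_comm.1 (hl.coprime_iff_not_dvd.2 hm))) with h6 | h6 <;>
    rw [h5, h6] at h3 ⊢ <;> omega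

theorem ca_dvd (ok : Ok n c) (hl : l.Prime) (h4 : l % 4 = 1) (hJ : J(-n | l) = -1) (hc : ¬ l ∣ c)
    (h : Fo n c a b) (ha : a.Coprime l) (hz : z ∈ idl n c a b) (e : normSq z = m * a) :
    l ∣ m ↔ z ∈ sc l (idl n c a b) := by
  have a0 := h.pos ok
  have pl := Nat.prime_iff_prime_int.1 hl
  constructor
  · rintro ⟨d, rfl⟩
    obtain ⟨u, v, rfl⟩ := mem_sp2.1 hz
    have h1 := cnt_nsq n c (u * a) v b
    push_cast at h1 e
    rw [e] at h1
    have h2 : (2 * (u * a) + v * b) ^ 2 - (-n) * (c * v) ^ 2 = l * (4 * d * a) := by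
      have : ((2 * (u * a) + v * b) ^ 2 - (-n) * (c * v) ^ 2 : ℝ) = l * (4 * d * a) := by
        linear_combination -h1
      exact_mod_cast this
    have := Fact.mk hl
    obtain ⟨h5, h6⟩ := jacobiSym.prime_dvd_of_eq_neg_one hJ ⟨_, h2⟩
    obtain ⟨v, rfl⟩ := (pl.dvd_or_dvd h6).resolve_left (by exact_mod_cast hc)
    have h7 : (l : ℤ) ∣ 2 * (u * a) := (dvd_add_left ((dvd_mul_right _ _).mul_right _)).1 h5
    have h8 : ¬ (l : ℤ) ∣ 2 := fun k => by
      have := Nat.le_of_dvd two_pos (Int.natCast_dvd_natCast.1 k)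
      have := hl.two_le
      omega
    obtain ⟨u, rfl⟩ := (pl.dvd_or_dvd ((pl.dvd_or_dvd h7).resolve_left h8)).resolve_right
      (by exact_mod_cast hl.coprime_iff_not_dvd.1 ha.symm)
    exact mem_sc.2 ⟨_, mem_sp2.2 ⟨u, v, rfl⟩, by push_cast; ring⟩
  · intro hz
    obtain ⟨w, hw, rfl⟩ := mem_sc.1 hz
    obtain ⟨k, -, -, h1, -⟩ := h.val hw
    rw [map_mul, h1, normSq_natCast, ← mul_assoc, mul_left_inj' (Nat.cast_ne_zero.2 a0.ne')] at e
    exact ⟨l * k, by exact_mod_cast e.symm.trans (mul_assoc _ _ _)⟩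

theorem ca_uniq (hl : l.Prime) (hτ : τ.im ≠ 0) {s : ℂ} (hs : s ≠ 0) (hz : z ∈ sc s (sp2 τ 1))
    (hz' : z ∉ sc l (sc s (sp2 τ 1))) : ∃ j, ∀ i, z ∈ sc s (nb l 1 τ i) ↔ i = j := by
  obtain ⟨w, hw, rfl⟩ := mem_sc.1 hz
  rw [cmd_sc_comm, mul_mem_sc hs] at hz'
  have h1 : w ∈ Submodule.span ℤ {w} ⊔ sc l (sp2 τ 1) :=
    Submodule.mem_sup_left (Submodule.mem_span_singleton_self w)
  obtain ⟨j, hj⟩ := cmd_mid hl (cmd_one hl) hτ (lt_of_le_not_ge le_sup_right fun h => hz' (h h1))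
    (cmd_span_lt hl (isLat_sp2 hτ) hw)
  refine ⟨j, fun i => (mul_mem_sc hs).trans ⟨fun h => (cmd_nb_eq hl (cmd_one hl) hτ ?_).symm, ?_⟩⟩
  · rw [← hj]
    exact sup_le ((Submodule.span_singleton_le_iff_mem _ _).2 h) (nb_mid hl hτ i).1.le
  · rintro rfl
    exact hj ▸ h1

theorem ca_stmt : CAStmt := by
  intro n c e l _ x m ok hs he hl h4 hJ hc
  subst he
  obtain ⟨a, b, h, ha, rfl⟩ := exists_fo ok x hl.ne_zero
  have a0 := h.pos ok
  have a1 : (a : ℂ) ≠ 0 := Nat.cast_ne_zero.2 a0.ne'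
  have n0 : 0 < n := by have := ok.gt; omega
  have c0 := ok.ne
  have l0 := hl.pos
  have ok' := cmd_ok ok hl
  have l2 : l ≠ 2 := by omega
  obtain ⟨τ, hτ⟩ : ∃ τ : ℂ, a * τ = be n c b := ⟨be n c b / a, mul_div_cancel₀ _ a1⟩
  have t1 : τ.im ≠ 0 := fun k => cma_im (b := b) n0 c0 (by rw [← hτ]; simp [k])
  have t2 : a * τ.im = c * √n / 2 := by simpa [cnt_im] using congrArg Complex.im hτ
  have e1 : idl n c a b = sc a (sp2 τ 1) := by
    rw [sc_sp2, hτ, mul_one, cmb_comm, idl, Int.cast_natCast]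
  have hI : IsIv (Oc n c) (sc a (sp2 τ 1)) := e1 ▸ h.isIv ok hs
  have v1 := fun i => nb_isIv (s := 1) ok hl l2 hJ hc t1 a1 hI i
  have v2 : ∀ i, CaN n (c * l) a (sc a (nb l 1 τ i)) := fun i => by
    have k := (v1 i).1
    have k2 : |-(a * (↑(c * l) * √n / 2))| = a * (↑(c * l) * √n / 2) := by
      rw [abs_neg, abs_of_nonneg (by positivity)]
    cases i <;> simp only [CM.nb, sc_sp2] at k ⊢ <;> refine ca_norm ok' hs k (Eq.trans ?_ k2) <;>
      congr 1 <;> simp <;> linear_combination (a * l : ℝ) * t2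
  have v3 : ∀ F : Pc n (c * l) → ℤ, ∑ y with pj n c (c * l) y = cl _ (sc a (sp2 τ 1)), F y =
      ∑ i, F (cl _ (sc a (nb l 1 τ i))) := fun F => by
    rw [sum_nb ok hl (cmd_one hl) t1 a1 hI, filter_true_of_mem fun i _ =>
      mt (B3.CM.st_sc a1).2 (B3.CM.not_st_of_isIv ok hl (v1 i).1)]
  have cl1 : ∀ {z : ℂ} {m : ℕ}, z ∈ idl n c a b → normSq z = m * a → ¬ l ∣ m →
      ∃ j, (∀ i, z ∈ sc a (nb l 1 τ i) ↔ i = j) ∧
        (th n (c * l) l (cl _ (sc a (nb l 1 τ j))) : ℤ) = J(m | l) := fun hz e hm => by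
    obtain ⟨j, hj⟩ := ca_uniq hl t1 a1 (e1 ▸ hz)
      (e1 ▸ mt (ca_dvd ok hl h4 hJ hc h ha hz e).2 hm)
    exact ⟨j, hj, ca_th ok' hs hl h4 (dvd_mul_left _ _) (v2 j) ((hj j).2 rfl) e hm⟩
  have la : ¬ l ∣ a := hl.coprime_iff_not_dvd.1 ha.symm
  have jn : J(n | l) = -1 := by
    rw [jacobiSym.neg _ (Nat.odd_iff.2 (by omega)), ZMod.χ₄_nat_one_mod_four h4, one_mul] at hJ
    exact hJ
  have ln : ¬ l ∣ n := fun k => by
    rw [jacobiSym.mod_left, Int.emod_eq_zero_of_dvd (Int.natCast_dvd_natCast.2 k),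
      jacobiSym.zero_left hl.one_lt] at jn
    omega
  have v4 : ∑ i, (th n (c * l) l (cl _ (sc a (nb l 1 τ i))) : ℤ) = 0 := by
    obtain ⟨i, -, hi⟩ := cl1 (z := a) (m := a) (by exact_mod_cast left_mem_sp2 _ _)
      (normSq_natCast a) la
    obtain ⟨j, -, hj⟩ := cl1 (z := (-b * a : ℤ) + (2 * a : ℤ) * be n c b) (m := a * n * c ^ 2)
      (mem_sp2.2 ⟨-b, 2 * a, by push_cast; ring⟩) (by
        have := cnt_nsq n c (-b * a) (2 * a) b
        push_cast at this ⊢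
        linear_combination this / 4) fun k =>
      ((hl.dvd_mul.1 k).elim (fun k => (hl.dvd_mul.1 k).elim la ln) fun k =>
        hc (hl.dvd_of_dvd_pow k))
    push_cast at hj
    rw [jacobiSym.mul_left, jacobiSym.mul_left, jn, ← hi, jacobiSym.sq_one' (a := c) (b := l)
      (Nat.coprime_comm.1 (hl.coprime_iff_not_dvd.2 hc))] at hj
    have p1 := (v1 i).2
    have p2 := (v1 j).2
    rw [← v3 fun y => (th n (c * l) l y : ℤ)]
    generalize cl (Oc n (c * l)) (sc a (nb l 1 τ i)) = y at hj p1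
    generalize cl (Oc n (c * l)) (sc a (nb l 1 τ j)) = y' at hj p2
    have p3 : (th n (c * l) l (y' / y) : ℤ) = -1 := by
      rw [map_div, div_eq_mul_inv, Units.val_mul, hj]
      rcases Int.units_eq_one_or (th n (c * l) l y) with k | k <;> simp [k]
    have p4 : ∑ u with pj n c (c * l) u = cl _ (sc a (sp2 τ 1)), (th n (c * l) l (y' / y * u) : ℤ) =
        ∑ u with pj n c (c * l) u = cl _ (sc a (sp2 τ 1)), (th n (c * l) l u : ℤ) :=
      sum_equiv (Equiv.mulLeft (y' / y)) (fun u => by simp [p1, p2]) fun _ _ => rfl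
    simp only [map_mul, Units.val_mul, p3, ← mul_sum] at p4
    omega
  obtain ⟨T, f⟩ : ∃ T : Finset ℂ, ∀ z, z ∈ T ↔ z ∈ idl n c a b ∧ normSq z = m * a :=
    ⟨_, fun _ => (ca_fin ((h.isIv ok hs).isLat ok) (m * a)).mem_toFinset⟩
  have w1 : ∀ B : Lt, B ≤ idl n c a b → (Nat.card {z : ℂ // z ∈ B ∧ normSq z = m * a} : ℤ) =
      ∑ z ∈ T, if z ∈ B then 1 else 0 := fun B hB => by
    rw [sum_boole, Nat.subtype_card (T.filter (· ∈ B)) fun z => by
      rw [mem_filter, f]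
      exact ⟨fun k => ⟨k.2, k.1.2⟩, fun k => ⟨⟨hB k.1, k.2⟩, k.1⟩⟩]
  rw [rC_eq ok hs h, rq, w1 _ le_rfl, e1, ← filter_filter, sum_filter, v3, mul_sum]
  rw [sum_congr rfl fun i _ => by
    rw [ca_cnt ok' hs (v2 i), w1 _ ((nb_mid_sc hl t1 a1 i).2.le.trans e1.ge), ite_sum_zero],
    sum_comm]
  refine sum_congr rfl fun z hz => ?_
  obtain ⟨z1, z2⟩ := (f z).1 hz
  rw [if_pos (e1 ▸ z1), mul_one, Ps]
  by_cases hm : l ∣ m
  · have z3 := (ca_dvd ok hl h4 hJ hc h ha z1 z2).1 hm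
    rw [e1] at z3
    simp only [if_pos hm, if_pos ((nb_mid_sc (s := 1) hl t1 a1 _).1.le z3)]
    have : 2 * ∑ i, (if th n (c * l) l (cl _ (sc a (nb l 1 τ i))) = 1 then (1 : ℤ) else 0) =
        ∑ i, (1 + (th n (c * l) l (cl _ (sc a (nb l 1 τ i))) : ℤ)) := by
      rw [mul_sum]
      refine sum_congr rfl fun i _ => ?_
      rcases Int.units_eq_one_or (th n (c * l) l (cl _ (sc a (nb l 1 τ i)))) with k | k <;> simp [k]
    rw [sum_add_distrib, v4, sum_const, card_univ, Fintype.card_option, Fintype.card_fin] at this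
    simp only [nsmul_eq_mul, Nat.cast_add, Nat.cast_one] at this
    omega
  · obtain ⟨j, h1, h2⟩ := cl1 z1 z2 hm
    rw [if_neg hm, sum_eq_single j (fun i _ k => by rw [if_neg (mt (h1 i).1 k), ite_self])
      (by simp), if_pos ((h1 j).2 rfl), ← h2]
    simp only [Units.val_eq_one]

end Pool.Agent.T10
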