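import Pool.Agent.Lib.MP_696deb_nt.B10.Z0
import Pool.Agent.Lib.MP_696deb_nt.B2.CMd
import Pool.Agent.Lib.MP_696deb_nt.B2.CMg

/-! Conjugation permutes the neighbours. -/

set_option autoImplicit false

open Finset Function
open scoped Classical

namespace Pool.Agent.T10
open Pool.Agent.Lib.MP_696deb_nt Pool.Agent.Lib.MP_696deb_nt.B2 Pool.Agent.Lib.MP_696deb_nt.B2.CM
  Pool.Agent.B4.GE

variable {σ : ℂ ≃+* ℂ} {I I' J J' : Lt} {N l : ℕ} {a z z' : ℂ} {M : MZ}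

theorem cp_le (h : CjS σ I I') (h' : CjS σ J J') : I' ≤ J' ↔ I ≤ J :=
  ⟨fun k z hz => by simpa using h.symm.mul_mem h'.symm (a := 1) (fun _ e => by simpa using k e) hz,
    fun k z hz => by simpa using h.mul_mem h' (a := 1) (fun _ e => by simpa using k e) hz⟩

theorem cp_of (hl : IsLat I) (hl' : IsLat I') (h1 : ∀ K, CjS σ I K → K ≤ I')
    (h2 : ∀ K, CjS σ K I' → K ≤ I) : CjS σ I I' := by
  obtain ⟨K, c⟩ := exists_cjS σ hl
  obtain ⟨K', c'⟩ := exists_cjS σ.symm hl'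
  have c2 : CjS σ K' I' := c'.symm
  exact le_antisymm (h1 K c) ((cp_le c2 c).2 (h2 K' c2)) ▸ c

theorem cp_inf (h : CjS σ I I') (h' : CjS σ J J') (hl : IsLat (I ⊓ J)) :
    CjS σ (I ⊓ J) (I' ⊓ J') := by
  have k : ∀ K, CjS σ (I ⊓ J) K → K ≤ I' ⊓ J' := fun K c =>
    le_inf ((cp_le c h).2 inf_le_left) ((cp_le c h').2 inf_le_right)
  obtain ⟨K, c⟩ := exists_cjS σ hl
  exact cp_of hl (c.right.mid h.right (k K c) inf_le_left) k fun K c =>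
    le_inf ((cp_le c h).1 inf_le_left) ((cp_le c h').1 inf_le_right)

theorem cp_pos (hN : N ≠ 0) (h : 0 < z.im) : 0 < (N * z).im := by
  simpa using mul_pos (Nat.cast_pos.2 (Nat.pos_of_ne_zero hN)) h

theorem cp_sub (N : ℕ) (z : ℂ) : sp2 (N * z) 1 ≤ sp2 z 1 :=
  sp2_le.2 ⟨by simpa using int_mul_mem (left_mem_sp2 z 1) N, right_mem_sp2 z 1⟩

theorem cp_nb (hl : l.Prime) (h : ¬ l ∣ N) (hz : 0 < z.im) (i : Option (Fin l)) :
    nb l 1 z i ⊓ sp2 (N * z) 1 = nb l N (N * z) i := by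
  have p := (cp_pos (N := N) (by rintro rfl; exact h (dvd_zero l)) hz).ne'
  have k : ∀ u ∈ sp2 (N * z) 1, u ∈ nb l N (N * z) i ↔ u ∈ nb l 1 z i := fun u hu => by
    obtain ⟨x, y, rfl⟩ := cmd_mem hu
    have e : (x : ℂ) * (N * z) = (x * N : ℤ) * z := by push_cast; ring
    rcases i with _ | i
    · rw [cmd_mem_none p, e, cmd_mem_none hz.ne', (Nat.prime_iff_prime_int.1 hl).dvd_mul,
        Int.natCast_dvd_natCast, or_iff_left h]
    · rw [cmd_mem_some p, e, cmd_mem_some hz.ne', one_mul, mul_assoc]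
  ext u
  exact ⟨fun hu => (k u hu.2).2 hu.1, fun hu => ⟨(k u (cmd_nb_le _ _ hu)).1 hu, cmd_nb_le _ _ hu⟩⟩

theorem cp_perm (hN : N ≠ 0) (w : Wp σ N a z z') (hl : l.Prime) (h : ¬ l ∣ N) :
    ∃ π : Equiv.Perm (Option (Fin l)), ∀ i i', Wq σ N a z z' l i i' ↔ i' = π i := by
  have p := (cp_pos hN w.pos').ne'
  have s : ¬ (l : ℤ) ∣ N := mt Int.natCast_dvd_natCast.1 h
  have l0 : (l : ℂ) ≠ 0 := Nat.cast_ne_zero.2 hl.ne_zero
  have l1 := isLat_sp2 w.pos.ne'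
  have m := nb_mid (s := 1) hl w.pos.ne'
  have c0 := w.fst
  have c2 := c0.sc l0
  rw [map_natCast, cmd_sc_comm] at c2
  have c3 : ∀ i, ∃ k, CjS σ (nb l 1 z i) (sc a (nb l N (N * z') k)) := fun i => by
    obtain ⟨K, c⟩ := exists_cjS σ ((l1.sc l0).mid l1 (m i).1.le (m i).2.le)
    obtain ⟨K, rfl⟩ := cmd_sc_surj w.ne K
    obtain ⟨k, rfl⟩ := cmd_mid hl s p (I := K) ((cmd_sc_lt w.ne).1
      ⟨(cp_le c2 c).2 (m i).1.le, fun k => (m i).1.not_ge ((cp_le c c2).1 k)⟩) ((cmd_sc_lt w.ne).1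
      ⟨(cp_le c c0).2 (m i).2.le, fun k => (m i).2.not_ge ((cp_le c0 c).1 k)⟩)
    exact ⟨k, c⟩
  choose f c3 using c3
  have inj : Injective f := fun i j e => cmd_nb_eq hl (cmd_one hl) w.pos.ne'
    ((cp_le (c3 i) (c3 j)).1 (e ▸ le_rfl))
  refine ⟨.ofBijective f (Finite.injective_iff_bijective.1 inj), fun i i' => ?_⟩
  rw [Wq, cp_nb hl h w.pos']
  exact ⟨fun c => cmd_nb_eq hl s p ((cmd_sc_le w.ne).1 (c.unique (c3 i)).le),
    fun e => e ▸ c3 i⟩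

theorem cp_tri (h0 : M 1 0 = 0) (hd : 0 < M.det) (hc : IsCoprime M.det N) (hz : 0 < z.im) :
    rl M z ⊓ sp2 (N * z) 1 = sc (den M z) (sp2 (N * act M z) 1) := by
  have d := den_ne' hd.ne' hz
  have e : den M z * (N * act M z) = N * (M 0 0 * z + M 0 1) := by
    rw [mul_left_comm, act, mob, ← den, mul_div_cancel₀ _ d]
  rw [sc_sp2, mul_one, e, rl, den, h0, Int.cast_zero, zero_mul, zero_add]
  rw [Matrix.det_fin_two, h0, mul_zero, sub_zero] at hc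
  refine le_antisymm (fun u hu => ?_) (sp2_le.2 ⟨⟨?_, ?_⟩, right_mem_sp2 _ _, ?_⟩)
  · obtain ⟨m, n, rfl⟩ := mem_sp2.1 hu.1
    obtain ⟨x, y, k⟩ := mem_sp2.1 hu.2
    have k1 := (cmd_ext hz.ne' (x := m * M 0 0) (y := m * M 0 1 + n * M 1 1) (x' := x * N) (y' := y)
      (by push_cast; linear_combination k)).1
    obtain ⟨t, rfl⟩ : (N : ℤ) ∣ m :=
      hc.of_mul_left_left.symm.dvd_of_dvd_mul_right ⟨x, k1.trans (mul_comm _ _)⟩
    exact mem_sp2.2 ⟨t, n, by push_cast; ring⟩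
  · simpa using int_mul_mem (left_mem_sp2 _ _) N
  · exact mem_sp2.2 ⟨M 0 0, N * M 0 1, by push_cast; ring⟩
  · exact mem_sp2.2 ⟨0, M 1 1, by simp⟩

theorem cp_det (M : MZ) {v : ℂ} (hv : v ∈ sp2 z 1) : (M.det : ℂ) * v ∈ rl M z := by
  obtain ⟨x, y, rfl⟩ := cmd_mem hv
  exact mem_sp2.2 ⟨x * M 1 1 - y * M 1 0, y * M 0 0 - x * M 0 1, by
    rw [Matrix.det_fin_two]; push_cast; ring⟩

theorem cp_mul (hc : IsCoprime M.det N) (hN : N ≠ 0) :
    (rl M z ⊓ sp2 (N * z) 1) ⊓ sc N (sp2 z 1) = sc N (rl M z) := by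
  have n0 : (N : ℂ) ≠ 0 := Nat.cast_ne_zero.2 hN
  have le : rl M z ≤ sp2 z 1 :=
    sp2_le.2 ⟨mem_sp2.2 ⟨_, _, by rw [mul_one]⟩, mem_sp2.2 ⟨_, _, by rw [mul_one]⟩⟩
  refine le_antisymm (fun u hu => ?_) fun u hu => ?_
  · obtain ⟨v, hv, rfl⟩ := mem_sc.1 hu.2
    obtain ⟨p, q, e⟩ := hc
    have k := add_mem (int_mul_mem (cp_det M hv) p) (int_mul_mem hu.1.1 q)
    have e' : (p : ℂ) * M.det + q * N = 1 := by exact_mod_cast e
    rw [← mul_assoc, ← mul_assoc, ← add_mul, e', one_mul] at k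
    exact (mul_mem_sc n0).2 k
  · obtain ⟨v, hv, rfl⟩ := mem_sc.1 hu
    refine ⟨⟨by simpa using int_mul_mem hv N, ?_⟩, (mul_mem_sc n0).2 (le hv)⟩
    obtain ⟨x, y, rfl⟩ := cmd_mem (le hv)
    exact mem_sp2.2 ⟨x, N * y, by push_cast; ring⟩

theorem cp_sc_inf (ha : a ≠ 0) (I J : Lt) : sc a I ⊓ sc a J = sc a (I ⊓ J) := by
  refine le_antisymm (fun u hu => ?_)
    (le_inf ((cmd_sc_le ha).2 inf_le_left) ((cmd_sc_le ha).2 inf_le_right))
  obtain ⟨v, hv, rfl⟩ := mem_sc.1 hu.1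
  exact (mul_mem_sc ha).2 ⟨hv, (mul_mem_sc ha).1 hu.2⟩

theorem cp_stmt (lv : LVStmt) : CPStmt := by
  intro σ N a z z' hN w
  have ex : ∀ l : ℕ, ∃ π : Equiv.Perm (Option (Fin l)), l.Prime → ¬ l ∣ N →
      ∀ i i', Wq σ N a z z' l i i' ↔ i' = π i := fun l => by
    by_cases h : l.Prime ∧ ¬ l ∣ N
    · exact (cp_perm hN w h.1 h.2).imp fun _ k _ _ => k
    · exact ⟨1, fun a b => (h ⟨a, b⟩).elim⟩
  choose π hπ using ex
  refine ⟨π, hπ, fun T hT κ _ => ?_⟩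
  have key : ∀ κ, IsCoprime (mK T κ).det N := fun κ => by
    obtain ⟨b, -, -, d, -⟩ := lv.2.2.2 N T κ fun l hl => (hT l hl).1
    rw [b.det]
    exact Nat.isCoprime_iff_coprime.2 (Nat.Coprime.coprime_dvd_left d (Nat.Coprime.prod_left
      fun l hl => ((hT l hl).1.coprime_iff_not_dvd).2 (hT l hl).2))
  obtain ⟨b, t, d, -, m, -⟩ := lv.2.2.2 N T κ fun l hl => (hT l hl).1
  obtain ⟨b', t', d', -, m', -⟩ := lv.2.2.2 N T (om (π ·) κ) fun l hl => (hT l hl).1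
  replace m := fun u => m _ z u b w.pos
  replace m' := fun u => m' _ z' u b' w.pos'
  have r := lv.1 _ z d w.pos
  have r' := lv.1 _ z' d' w.pos'
  have s := cp_tri t d (key _) w.pos
  have s' := cp_tri t' d' (key _) w.pos'
  have q := cp_mul (z := z') (key (om (π ·) κ)) hN
  generalize mK T κ = M at *
  generalize mK T (om (π ·) κ) = M' at *
  have n0 : (N : ℂ) ≠ 0 := Nat.cast_ne_zero.2 hN
  have p := act_pos d w.pos
  have p' := act_pos d' w.pos'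
  have e := den_ne' d.ne' w.pos
  have e' := den_ne' d'.ne' w.pos'
  have l1 := isLat_sp2 p.ne'
  have l2 := isLat_sp2 (cp_pos hN p).ne'
  have l3 := isLat_sp2 p'.ne'
  have l4 := isLat_sp2 (cp_pos hN p').ne'
  have wq := fun l hl i => (hπ l (hT l hl).1 (hT l hl).2 i _).2 rfl
  have c1 : CjS σ (rl M z) (sc a (rl M' z' ⊓ sp2 (N * z') 1)) := by
    refine cp_of (r ▸ l1.sc e) (s' ▸ (l4.sc e').sc w.ne) (fun K c u hu => ?_) fun K c u hu => ?_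
    · obtain ⟨v, hv, rfl⟩ := mem_sc.1 ((cp_le c w.fst).2 (fun u hu => ((m u).1 hu).1) hu)
      refine (mul_mem_sc w.ne).2 ⟨(m' v).2 ⟨cp_sub N z' hv, fun l hl i' hi => ?_⟩, hv⟩
      obtain ⟨i, hj, rfl⟩ := Option.map_eq_some_iff.1 hi
      exact ((mul_mem_sc w.ne).1
        ((cp_le c (wq l hl i)).2 (fun u hu => ((m u).1 hu).2 l hl i hj) hu)).1
    · refine (m u).2 ⟨(cp_le c w.fst).1 ((cmd_sc_le w.ne).2 inf_le_right) hu, fun l hl i hi =>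
        (cp_le c (wq l hl i)).1 ((cmd_sc_le w.ne).2 (inf_le_inf_right _ fun v hv => ?_)) hu⟩
      exact ((m' v).1 hv).2 l hl _ (by rw [om, hi]; rfl)
  have c2 := cp_inf c1 w.snd (s ▸ l2.sc e)
  rw [← sc_sc, cp_sc_inf w.ne, q, s, r', sc_sc, sc_sc] at c2
  rw [r, s', sc_sc] at c1
  constructor
  · rw [← jL_tau p, ← jL_sc l1 e, ← c1.jL, jL_sc l4 (mul_ne_zero w.ne e'), jL_tau (cp_pos hN p'),
      jN]
  · rw [jN, ← jL_tau (cp_pos hN p), ← jL_sc l2 e, ← c2.jL,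
      jL_sc l3 (mul_ne_zero (mul_ne_zero w.ne n0) e'), jL_tau p']

end Pool.Agent.T10
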