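import Pool.Agent.Lib.MP_696deb_nt.B10.ZS
import Pool.Agent.Lib.MP_696deb_nt.B8.LKb
import Pool.Agent.Lib.MP_696deb_nt.B8.NB
import Pool.Agent.Lib.MP_696deb_nt.B3.CMh

/-! The sum over the principal genus and the value of the projected series. -/

set_option autoImplicit false

open NumberTheorySymbols Finset Function Complex
open scoped Classical NNReal Real

namespace Pool.Agent.T10
open Pool.Agent.Lib.MP_696deb_nt Pool.Agent.Lib.MP_696deb_nt.B2 Pool.Agent.Lib.MP_696deb_nt.B2.CM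
  Pool.Agent.B6 Pool.Agent.B8 Pool.Agent.B4.GE
open Pool.Agent.Lib.MP_696deb_nt.B3.CM (th gd_odd pj_self)

theorem ct_ne {n : ℕ} {T : Finset ℕ} (hT : Ti n T) : ∏ l ∈ T, l ≠ 0 :=
  prod_ne_zero_iff.2 fun l hl => (hT l hl).1.ne_zero

theorem ct_gen (ca : CAStmt) {n : ℕ} [∀ c, Fintype (Pc n c)] (hn : Nk n) (W : Pc n 2 → ℤ) (m : ℕ)
    (T : Finset ℕ) : Ti n T → ∀ e : ℕ, e = 2 * ∏ l ∈ T, l →
      ∑ x : Pc n e with ∀ l ∈ T, th n e l x = 1, W (pj n 2 e x) * rC n e x m =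
        (∑ y, W y * rC n 2 y m) * ∏ l ∈ T, Ps l m := by
  induction T using Finset.induction_on with
  | empty =>
    intro _ e he
    obtain rfl : e = 2 := by simpa using he
    simp [pj_self]
  | insert l T hl ih =>
    intro hT e he
    have hT' : Ti n T := fun p hp => hT p (mem_insert_of_mem hp)
    obtain ⟨l1, l2, l3⟩ := hT l (mem_insert_self _ _)
    obtain ⟨c, hc⟩ : ∃ c, c = 2 * ∏ p ∈ T, p := ⟨_, rfl⟩
    have ec : e = c * l := by rw [he, hc, prod_insert hl]; ring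
    have okc : Ok n c := hn.ok (hc ▸ mul_ne_zero two_ne_zero (ct_ne hT'))
    have oke : Ok n e := hn.ok (ec ▸ mul_ne_zero okc.ne l1.ne_zero)
    have ce : c ∣ e := ec ▸ dvd_mul_right c l
    have c2 : 2 ∣ c := hc ▸ dvd_mul_right 2 _
    have lc : ¬ l ∣ c := fun k => by
      rw [hc] at k
      refine (l1.dvd_mul.1 k).elim (fun k => ?_) fun k => ?_
      · have := Nat.le_of_dvd two_pos k
        have := l1.one_lt
        omega
      · obtain ⟨p, hp, k⟩ := (l1.prime.dvd_finsetProd_iff _).1 k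
        exact hl ((Nat.prime_dvd_prime_iff_eq l1 (hT' p hp).1).1 k ▸ hp)
    have tp : ∀ p ∈ T, ∀ x : Pc n e, th n e p x = th n c p (pj n c e x) := fun p hp x =>
      (gd_odd okc (m := p) (by have := (hT' p hp).2.1; omega) (by
        rw [Int.natAbs_natCast, hc]
        exact (dvd_prod_of_mem (fun p => p) hp).mul_left 2)).th_pj oke ce x
    rw [prod_insert hl, mul_left_comm, ← ih hT' c hc, mul_sum,
      ← sum_fiberwise_of_maps_to (t := univ.filter fun y : Pc n c => ∀ p ∈ T, th n c p y = 1)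
        (g := pj n c e) fun x hx => mem_filter.2 ⟨mem_univ _, fun p hp => by
          rw [← tp p hp]
          exact (mem_filter.1 hx).2 p (mem_insert_of_mem hp)⟩]
    refine sum_congr rfl fun y hy => ?_
    rw [mul_left_comm, ← ca n c e l y m okc hn.sqf ec l1 l2 l3 lc, mul_sum]
    refine sum_congr ?_ fun x hx => by rw [← (mem_filter.1 hx).2.1, pj_pj c2 ce]
    ext x
    simp only [mem_filter, mem_univ, true_and, forall_mem_insert]
    refine ⟨fun k => ⟨k.2, k.1.1⟩, fun k => ⟨⟨k.2, fun p hp => ?_⟩, k.1⟩⟩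
    rw [tp p hp, k.1]
    exact (mem_filter.1 hy).2 p hp

theorem ct_stmt (ca : CAStmt) : CTStmt := fun _ _ T W m hn hT => ct_gen ca hn W m T hT _ rfl

theorem ls_im {n c : ℕ} (hn : Nk n) (hc : c ≠ 0) : 0 < (x0 n / c).im := by
  rw [div_natCast_im]
  exact div_pos (lk_x0 hn) (Nat.cast_pos.2 (Nat.pos_of_ne_zero hc))

/-- The series of a class at the fixed point divided by the odd part of the conductor. -/
theorem ls_pz {n c : ℕ} {τ : ℂ} {x : Pc n (2 * c)} (hn : Nk n) (hc : c ≠ 0)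
    (h : Rp n (2 * c) τ x) :
    HasSum (fun k : ℕ => (rC n (2 * c) x k : ℂ) * q1 (k * (x0 n / c) / 2)) (Pz τ) := by
  have ok : Ok n (2 * c) := hn.ok (mul_ne_zero two_ne_zero hc)
  obtain ⟨Q, hQ⟩ := lk_form ok hn.sqf h
  have n0 : (0 : ℝ) < √n := Real.sqrt_pos.2 (by
    have := hn.gt
    exact_mod_cast (by omega : 0 < n))
  have c0 : (0 : ℝ) < c := Nat.cast_pos.2 (Nat.pos_of_ne_zero hc)
  convert hQ.hasSum ok (ls_im hn hc) using 1
  rw [Pz, ofReal_tsum]
  refine tsum_congr fun v => ?_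
  have h1 : -π * normSq (v.1 * τ + v.2) / τ.im = -π * fval Q v.1 v.2 / (c * √n) := by
    rw [div_eq_div_iff h.pos.ne' (mul_pos c0 n0).ne']
    have := hQ.val v.1 v.2
    push_cast at this
    linear_combination π * this
  have n1 : ((√n : ℝ) : ℂ) ≠ 0 := ofReal_ne_zero.2 n0.ne'
  have c1 : (c : ℂ) ≠ 0 := Nat.cast_ne_zero.2 hc
  rw [h1, ofReal_exp, q1, x0]
  congr 1
  push_cast
  field_simp
  rw [I_sq]
  ring

theorem ls_stmt (ct : CTStmt) : LSStmt := by
  intro n _ ψ g T t hn hT hg ht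
  refine ⟨fun z hz => (lk_hasSum nb_stmt hn hg hz).summable, ?_⟩
  have h1 := hasSum_sum (s := univ.filter fun x : Pc n (2 * ∏ l ∈ T, l) =>
    ∀ l ∈ T, th n (2 * ∏ l ∈ T, l) l x = 1) fun x _ =>
      (ls_pz hn (ct_ne hT) (ht x)).mul_left (bw (ψ (pj n 2 (2 * ∏ l ∈ T, l) x)) : ℂ)
  rw [Th, ← tsum_mul_left, ofReal_sum]
  simp only [ofReal_mul, ofReal_intCast]
  refine (tsum_congr fun k => ?_).trans h1.tsum_eq
  have h2 := ct n T (fun y => bw (ψ y)) k hn hT
  rw [show ∑ y, bw (ψ y) * rC n 2 y k = 2 * g k from hg k] at h2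
  have h3 := congrArg (Int.cast : ℤ → ℂ) h2
  rw [Int.cast_sum] at h3
  simp only [Int.cast_mul, Int.cast_natCast, Int.cast_ofNat] at h3
  simp only [← mul_assoc, ← sum_mul, h3, Int.cast_mul]

end Pool.Agent.T10
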