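import Pool.Agent.Lib.MP_696deb_nt.B10.TDSb
import Pool.Agent.Lib.MP_696deb_nt.B10.ZS
import Pool.Agent.Lib.MP_696deb_nt.B8.CFa
import Pool.Agent.Lib.MP_696deb_nt.B8.CFb
import Pool.Agent.Lib.MP_696deb_nt.B8.CFc
import Pool.Agent.Lib.MP_696deb_nt.B8.NB
import Pool.Agent.Lib.MP_696deb_nt.B2.CMh

/-! The point is moved by the inertia group at two. -/

set_option autoImplicit false

open Finset Complex
open scoped Classical NNReal Real

namespace Pool.Agent.T10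
open Pool.Agent.Lib.MP_696deb_nt Pool.Agent.Lib.MP_696deb_nt.B2 Pool.Agent.Lib.MP_696deb_nt.B2.CM
  Pool.Agent.B6 Pool.Agent.B8 Pool.Agent.B4.GE
open Pool.Agent.B6.D9 (tt dd Gf)

/-- Points of the kernel of reduction with an approximation of the parameter. -/
noncomputable def tdgS [Cw] {w : Plc} {V : Valuation ℂ ℝ≥0} (ov : Ov V w) {m : ℝ≥0} (hm : m ≤ 1) :
    AddSubgroup (B6.EE × ℂ) where
  carrier := {x | x.1 ∈ B6.K1 w ∧ w.V (B6.zc x.1) ≤ m ∧ V (jC (B6.zc x.1) - x.2) ≤ m ^ 2}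
  zero_mem' := ⟨zero_mem _, by simp, by simp⟩
  add_mem' := fun {x y} h k => by
    have a := zc_add h.1 k.1 h.2.1 k.2.1
    refine ⟨add_mem h.1 k.1, ?_, ?_⟩
    · rw [Prod.fst_add, ← sub_add_cancel (B6.zc (x.1 + y.1)) (B6.zc x.1 + B6.zc y.1)]
      exact w.V.map_add_le (a.trans (pow_le_of_le_one zero_le hm two_ne_zero))
        (w.V.map_add_le h.2.1 k.2.1)
    · rw [← ov, map_sub, map_add] at a
      rw [Prod.fst_add, Prod.snd_add, show jC (B6.zc (x.1 + y.1)) - (x.2 + y.2) =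
        jC (B6.zc (x.1 + y.1)) - (jC (B6.zc x.1) + jC (B6.zc y.1)) +
          (jC (B6.zc x.1) - x.2 + (jC (B6.zc y.1) - y.2)) by ring]
      exact V.map_add_le a (V.map_add_le h.2.2 k.2.2)
  neg_mem' := fun {x} h => by
    have a := (taj_neg h.1).trans (pow_le_pow_left₀ zero_le h.2.1 2)
    refine ⟨neg_mem h.1, (V_zc_neg h.1).trans_le h.2.1, ?_⟩
    rw [← ov, map_add] at a
    rw [Prod.fst_neg, Prod.snd_neg, show jC (B6.zc (-x.1)) - -x.2 =
      jC (B6.zc x.1) + jC (B6.zc (-x.1)) - (jC (B6.zc x.1) - x.2) by ring]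
    exact V.map_sub_le a h.2.2

/-- The coordinate along an isogeny. -/
theorem tdg_iso {w : Plc} {V : Valuation ℂ ℝ≥0} {g : Gam} {σ : ℂ ≃+* ℂ} {N d : ℕ} {x : ℂ}
    {γ δ : MZ} (w2 : w.p = 2) (ov : Ov V w) (hg : g ∈ Ine w) (hσ : Ex g σ) (hd : Odd d)
    (hx : Aj x) (hj : V (jf x) ≤ 1) (h1 : G0 (9 * N) γ) (h2 : G0 (9 * N) δ) {F : ℂ → ℂ}
    (hF : Hol F) : V (jf (act (γ * ut d 0 1 * δ) x)) ≤ 1 ∧ ∃ a, V a ≤ 1 ∧
      V (σ (tt (act (γ * ut d 0 1 * δ) x)) - tt (act (γ * ut d 0 1 * δ) x) -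
        a * (σ (tt x) - tt x)) ≤ V (σ (tt x) - tt x) ^ 2 ∧
      deriv (fun y => F (act (γ * ut d 0 1 * δ) y)) x =
        dd F (act (γ * ut d 0 1 * δ) x) * a * deriv tt x := by
  have d0 := hd.pos.ne'
  have Lo : Odd (9 * d) := Odd.mul (by decide) hd
  have L0 := Lo.pos.ne'
  have g9 : ∀ {k : MZ}, G0 (9 * N) k → G0 9 k := fun h =>
    ⟨h.1, (Int.natCast_dvd_natCast.2 (dvd_mul_right 9 N)).trans h.2⟩
  have p : ∀ y : ℂ, 0 < y.im → 0 < (act δ y).im := fun y => act_pos (h2.1 ▸ one_pos)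
  have e : ∀ y : ℂ, 0 < y.im → act (γ * ut d 0 1 * δ) y = act γ (d * act δ y) := fun y hy => by
    rw [act_mul _ (h2.1 ▸ one_ne_zero) hy, act_mul _ (by simpa [det_ut] using d0) (p y hy), act_dg]
  have et : ∀ y : ℂ, 0 < y.im → tt (act (γ * ut d 0 1 * δ) y) = tt (d * act δ y) := fun y hy => by
    rw [e y hy, D9.inv_stmt γ (g9 h1) _ (ga_pos d0 (p y hy))]
  have pz := p x hx.pos
  have jz := jf_act h2.1 hx.pos
  obtain ⟨z', pc⟩ := G5.exists_pc G5.jf_surj L0 σ pz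
  obtain ⟨ds, VL, e1⟩ := tds_disc w2 ov hg hσ Lo (dvd_mul_right _ _) pc (jz ▸ hx.alg) (jz ▸ hj)
  have A := (av_eq_one V).2 VL
  have gf : Gf V.valuationSubring (9 * d) fun y => tt (d * y) :=
    (tim_all _ 9 dvd_rfl (D9.val_of_dvd A (dvd_mul_right _ _))).dil (by decide) d0
  obtain ⟨a1, a2⟩ := ds.one (tyg_ar L0 gf.1)
  rw [e1, D9.inv_stmt δ (g9 h2) x hx.pos, pc.ev _ _ (gf.2 σ), ← et x hx.pos] at a2
  refine ⟨?_, _, a1, a2, ?_⟩
  · rw [e x hx.pos, jf_act h1.1 (ga_pos d0 pz)]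
    have k := (D9.im_jN (A := V.valuationSubring) (dvd_mul_left d 9) L0).val L0 pz
      ((av_le_one V).2 (jz.symm ▸ hj))
    exact (av_le_one V).1 k
  have dm : 0 < (γ * ut d 0 1 * δ).det := by
    rw [Matrix.det_mul, Matrix.det_mul, h1.1, h2.1, det_ut]
    positivity
  have pt := act_pos dm hx.pos
  obtain ⟨c, -, hc⟩ := D9.Dim.der_act h2.1 hx.pos
  obtain ⟨c', hc'⟩ : ∃ c', HasDerivAt (act (γ * ut d 0 1 * δ)) c' x :=
    ⟨_, hasDerivAt_mob (by rw [← Matrix.det_fin_two]; exact dm.ne') hx.pos⟩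
  have k1 := D9.Dim.chain tyg_hol hx.pos pz hc fun y hy => (D9.inv_stmt δ (g9 h2) y hy).symm
  have k2 := D9.Dim.chain (D9.mf_hol L0 gf.1.mf) hx.pos pz hc et
  rw [D9.Dim.chain tyg_hol hx.pos pt hc' fun _ _ => rfl] at k2
  have n1 := D9.deriv_tt_ne der_all pz
  have n2 := D9.deriv_tt_ne der_all pt
  rw [D9.Dim.chain hF hx.pos pt hc' fun _ _ => rfl, k1, dd, dd]
  field_simp
  linear_combination deriv F (act (γ * ut d 0 1 * δ) x) * k2

theorem dg_stmt (td : TDStmt) (lv : LVStmt) (tr : TRStmt) (rq : RQStmt) : DGStmt := by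
  intro _ D k w V T R hk ko w2 ov hT hj hu h0
  obtain ⟨g, hg, hr⟩ := rm_stmt cfa_stmt cfb_stmt w w2
  obtain ⟨σ, hσ⟩ := exists_ex g
  have hx := (rq NN ∅ 0 (fun _ => True) nk).2.1
  have V2 := tds_two w2 ov
  have L0 : 9 * NN ≠ 0 := mul_ne_zero (by decide) NN_ne
  obtain ⟨e0, e1⟩ : σ (tt (x0 NN)) - tt (x0 NN) ≠ 0 ∧ V (σ (tt (x0 NN)) - tt (x0 NN)) < 1 := by
    obtain ⟨z', pc⟩ := G5.exists_pc G5.jf_surj (N := 9) (by decide) σ hx.pos
    obtain ⟨ds, -, e⟩ := tds_disc w2 ov hg hσ (by decide) dvd_rfl pc hx.alg hj.le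
    refine ⟨fun k => hr ?_, e ▸ ds.1⟩
    have a := (ds.one (h := jf) ⟨B5.mf_jf (by decide), lz_jf.mem _⟩).2
    have b := (nb_stmt NN nk).2.1
    have ok : Ok NN 2 := nk.ok two_ne_zero
    have hy : jC (jQ NN 2 1) = jf (x0 NN) := by
      rw [jC_jQ ok, ← b.eq, jP_cl ok b.iv, jL_tau b.pos]
    rw [e, k, mul_zero, sub_zero, map_zero, zero_pow two_ne_zero, nonpos_iff_eq_zero,
      _root_.map_eq_zero, sub_eq_zero, (pc.rj (by decide)).j, ← hy, hσ] at a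
    exact jQ_inj ok ((jQ_rho ok g).trans (jC.injective a))
  have tp : Tp (9 * NN) T := fun l hl => ⟨hT.prime l hl, fun k =>
    ((hT.prime l hl).dvd_mul.1 k).elim (fun k => by
      have := hT.m8 l hl
      have := (Nat.prime_dvd_prime_iff_eq (hT.prime l hl) Nat.prime_three).1
        ((hT.prime l hl).dvd_of_dvd_pow (n := 2) k)
      omega) (hT.tp l hl).2⟩
  have n0 := D9.deriv_tt_ne der_all hx.pos
  generalize hε : σ (tt (x0 NN)) - tt (x0 NN) = ε at e0 e1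
  have key : ∀ κ, (g • ptQ D.par (act (mK T κ) (x0 NN)) - ptQ D.par (act (mK T κ) (x0 NN)),
      deriv (fun y => D.par.F (act (mK T κ) y)) (x0 NN) * (ε / deriv tt (x0 NN))) ∈
        tdgS ov e1.le := fun κ => by
    obtain ⟨-, -, dm, dv, -, -, f⟩ := lv.2.2.2 (9 * NN) T κ hT.prime
    obtain ⟨γ, δ, h1, h2, f⟩ := f L0 tp
    obtain ⟨aj, hQ⟩ := (tr _ _ D.par T (x0 NN)).1 hx _ dm
    have hd : Odd (dg T κ) := Odd.of_dvd_nat (Finset.prod_induction _ Odd (fun _ _ => Odd.mul)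
      odd_one fun l hl => Nat.odd_iff.2 (by have := hT.m8 l hl; omega)) dv
    obtain ⟨b1, a, b2, b3, b4⟩ := tdg_iso w2 ov hg hσ hd hx hj.le h1 h2 D.par.qe.hol
    rw [← f] at b1 b3 b4
    rw [hε] at b3
    obtain ⟨c1, c2, c3⟩ := tds_main D hk ko w2 ov hg hσ aj.pos aj.alg b1 hQ
    rw [b4]
    generalize σ (tt (act (mK T κ) (x0 NN))) - tt (act (mK T κ) (x0 NN)) = η,
      dd D.par.F (act (mK T κ) (x0 NN)) = b,
      g • ptQ D.par (act (mK T κ) (x0 NN)) - ptQ D.par (act (mK T κ) (x0 NN)) = P at *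
    have s2 : V ε ^ 2 ≤ V ε := pow_le_of_le_one zero_le e1.le two_ne_zero
    have m : ∀ u v : ℂ, V u ≤ 1 → V (u * v) ≤ V v := fun u v h => by
      rw [map_mul]
      exact mul_le_of_le_one_left' h
    have l : V η ≤ V ε := by
      rw [← sub_add_cancel η (a * ε)]
      exact V.map_add_le (b3.trans s2) (m _ _ b2)
    have l2 := c3.trans (pow_le_pow_left₀ zero_le l 2)
    refine ⟨c1, ?_, ?_⟩
    · rw [← ov, ← sub_add_cancel (jC _) (b * η)]
      exact V.map_add_le (l2.trans s2) ((m _ _ c2).trans l)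
    · rw [show jC (B6.zc (P, b * a * deriv tt (x0 NN) * (ε / deriv tt (x0 NN))).1) -
        (P, b * a * deriv tt (x0 NN) * (ε / deriv tt (x0 NN))).2 =
          jC (B6.zc P) - b * η + b * (η - a * ε) by
        simp only
        field_simp
        ring]
      exact V.map_add_le l2 ((m _ _ c2).trans b3)
  have s := (sum_mem fun κ (_ : κ ∈ LS T) =>
    zsmul_mem (key κ) (∏ l ∈ T, wR D.par.a R l (κ l))).2.2
  have s1 : ∑ κ ∈ LS T, (∏ l ∈ T, wR D.par.a R l (κ l)) • (g • ptQ D.par (act (mK T κ) (x0 NN)) -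
      ptQ D.par (act (mK T κ) (x0 NN))) = g • Dz D.par T (x0 NN) R - Dz D.par T (x0 NN) R := by
    simp only [Dz, ms, smul_sub, sum_sub_distrib, smul_sum, smul_comm g]
  have s2 : ∑ κ ∈ LS T, (∏ l ∈ T, wR D.par.a R l (κ l)) •
      (deriv (fun y => D.par.F (act (mK T κ) y)) (x0 NN) * (ε / deriv tt (x0 NN))) =
      Dd D.par T (x0 NN) R * (ε / deriv tt (x0 NN)) := by
    simp only [Dd, ms, sum_mul, smul_mul_assoc]
  rw [Prod.fst_sum, Prod.snd_sum] at s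
  simp only [Prod.smul_fst, Prod.smul_snd] at s
  rw [s1, s2, h0, smul_zero, sub_zero, zc_zero, map_zero, zero_sub, Valuation.map_neg] at s
  have t := td V _ V2 hx.pos hj.le
  have u : V (Dd D.par T (x0 NN) R / deriv tt (x0 NN)) = 1 := by
    have p := two_pi_I_ne_zero
    have q := Dl_ne hx.pos
    rw [← pow_eq_one_iff_of_nonneg zero_le (n := 6) (by decide), ← map_pow,
      show (Dd D.par T (x0 NN) R / deriv tt (x0 NN)) ^ 6 =
        ((Dd D.par T (x0 NN) R / (2 * π * I)) ^ 6 / Dl (x0 NN)) /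
          ((deriv tt (x0 NN) / (2 * π * I)) ^ 6 / Dl (x0 NN)) by field_simp, map_div₀, hu, t,
      div_one]
  rw [mul_div_left_comm, map_mul, u, mul_one, sq] at s
  exact s.not_gt (mul_lt_of_lt_one_right (zero_lt_iff.2 (V.ne_zero_iff.2 e0)) e1)

end Pool.Agent.T10
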