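import Pool.Agent.Lib.MP_696deb_nt.B8.RRS
import Pool.Agent.Lib.MP_696deb_nt.B8.TYg

/-! Values of a quotient of two expansions on a residue disc. -/

set_option autoImplicit false

open Filter Topology PowerSeries
open scoped Classical NNReal

namespace Pool.Agent.T10
open Pool.Agent.Lib.MP_696deb_nt Pool.Agent.B4.GE Pool.Agent.B6 Pool.Agent.B8
open Pool.Agent.B6.D9 (tt dd Dv Ty IM Gf)

theorem tds_add {R : Type*} [CommRing R] (m : ℕ) (a b : R⟦X⟧) :
    (d⁄dX R)^[m] (a + b) = (d⁄dX R)^[m] a + (d⁄dX R)^[m] b := by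
  induction m generalizing a b with
  | zero => rfl
  | succ m ih => simp only [Function.iterate_succ_apply, map_add, ih]

theorem tds_leib {R S : Type*} [CommRing R] [CommRing S] (ev : R⟦X⟧ →+* S) (m : ℕ) (u y : R⟦X⟧)
    (h : ∀ j < m, ev ((d⁄dX R)^[j] y) = 0) :
    ev ((d⁄dX R)^[m] (u * y)) = ev u * ev ((d⁄dX R)^[m] y) := by
  induction m generalizing u y with
  | zero => exact map_mul ev u y
  | succ m ih =>
    rw [Function.iterate_succ_apply, Derivation.leibniz, smul_eq_mul, smul_eq_mul, tds_add, map_add,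
      ih u _ fun j hj => h (j + 1) (by omega), mul_comm y, ih _ y fun j hj => h j (by omega),
      h m (by omega), mul_zero, add_zero, Function.iterate_succ_apply]

theorem tds_map {R S : Type*} [CommRing R] [CommRing S] (f : R →+* S) (m : ℕ) (a : R⟦X⟧) :
    PowerSeries.map f ((d⁄dX R)^[m] a) = (d⁄dX S)^[m] (PowerSeries.map f a) := by
  induction m generalizing a with
  | zero => rfl
  | succ m ih =>
    rw [Function.iterate_succ_apply, Function.iterate_succ_apply, ih]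
    congr 1
    ext n
    simp [coeff_derivative]

theorem tds_ty (m : ℕ) (z : ℂ) (h : ℂ → ℂ) : (d⁄dX ℂ)^[m] (Ty z h) = Ty z (dd^[m] h) := by
  induction m generalizing h with
  | zero => rfl
  | succ m ih =>
    rw [Function.iterate_succ_apply, Function.iterate_succ_apply, ← ih]
    congr 1
    ext n
    have h1 : (n.factorial : ℂ) ≠ 0 := Nat.cast_ne_zero.2 n.factorial_ne_zero
    have h2 : (n + 1 : ℂ) ≠ 0 := Nat.cast_add_one_ne_zero n
    rw [coeff_derivative, Ty, Ty, coeff_mk, coeff_mk, Dv, Dv, Function.iterate_succ_apply,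
      Nat.factorial_succ]
    push_cast
    field_simp

/-- The finite sums. -/
noncomputable def aK (ε : ℂ) (K : ℕ) (F : ℂ⟦X⟧) : ℂ := ∑ n ∈ Finset.range K, coeff n F * ε ^ n

variable {V : Valuation ℂ ℝ≥0}

theorem tds_ev {ε : ℂ} (K m : ℕ) {u y : ℂ⟦X⟧} (hu : Si V u) (hy : Si V y) (hε : V ε ≤ 1)
    (h : ∀ j < m, V (aK ε K ((d⁄dX ℂ)^[j] y)) ≤ V ε ^ K) :
    V (aK ε K ((d⁄dX ℂ)^[m] (u * y)) - aK ε K u * aK ε K ((d⁄dX ℂ)^[m] y)) ≤ V ε ^ K := by
  let e : V.integer := ⟨ε, hε⟩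
  let I : Ideal V.integer := Ideal.span {e ^ K}
  have mI : ∀ x : V.integer, Ideal.Quotient.mk I x = 0 ↔ V x ≤ V ε ^ K := fun x => by
    rw [Ideal.Quotient.eq_zero_iff_mem, Ideal.mem_span_singleton,
      (Valuation.integer.integers V).dvd_iff_le, map_pow, map_pow]
    rfl
  obtain ⟨s, -, -, hs, -⟩ := shift8 (V.integer ⧸ I) (Ideal.Quotient.mk I e) K
    (by rw [← map_pow, mI, SubmonoidClass.coe_pow, map_pow])
  let ev := (constantCoeff.comp s).comp (PowerSeries.map (Ideal.Quotient.mk I))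
  have c : ∀ F : V.integer⟦X⟧, ∃ x : V.integer, ev F = Ideal.Quotient.mk I x ∧
      (x : ℂ) = aK ε K (PowerSeries.map V.integer.subtype F) := fun F =>
    ⟨∑ n ∈ Finset.range K, coeff n F * e ^ n, by
      change constantCoeff (s _) = _
      rw [← coeff_zero_eq_constantCoeff_apply, hs]
      simp, by simp [aK, e]⟩
  obtain ⟨u, rfl⟩ : ∃ u₀, PowerSeries.map V.integer.subtype u₀ = u :=
    ⟨PowerSeries.mk fun n => ⟨coeff n u, hu n⟩, by ext; simp⟩
  obtain ⟨y, rfl⟩ : ∃ y₀, PowerSeries.map V.integer.subtype y₀ = y :=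
    ⟨PowerSeries.mk fun n => ⟨coeff n y, hy n⟩, by ext; simp⟩
  have k := tds_leib ev m u y fun j hj => by
    obtain ⟨x, h1, h2⟩ := c ((d⁄dX _)^[j] y)
    rw [h1, mI, h2, tds_map]
    exact h j hj
  obtain ⟨a, a1, a2⟩ := c ((d⁄dX _)^[m] (u * y))
  obtain ⟨b, b1, b2⟩ := c u
  obtain ⟨d, d1, d2⟩ := c ((d⁄dX _)^[m] y)
  rw [a1, b1, d1, ← map_mul, ← sub_eq_zero, ← map_sub, mI] at k
  rwa [← map_mul, ← tds_map, ← tds_map, ← a2, ← b2, ← d2]

theorem tds_le {ε : ℂ} {u : ℂ⟦X⟧} (hu : Si V u) (hε : V ε ≤ 1) (K : ℕ) :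
    V (aK ε K u) ≤ 1 ∧ V (aK ε (K + 2) u - (coeff 0 u + coeff 1 u * ε)) ≤ V ε ^ 2 := by
  have a : ∀ n, V (coeff n u * ε ^ n) ≤ V ε ^ n := fun n => by
    rw [map_mul, map_pow]
    exact mul_le_of_le_one_left' (hu n)
  refine ⟨V.map_sum_le fun n _ => (a n).trans (pow_le_one₀ zero_le hε), ?_⟩
  rw [aK, Finset.sum_range_succ', Finset.sum_range_succ', pow_zero, mul_one, zero_add, pow_one,
    add_assoc, add_comm (coeff 1 u * ε), add_sub_cancel_right]
  exact V.map_sum_le fun n _ => (a _).trans (pow_le_pow_right_of_le_one' hε (by omega))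

/-- Values on the disc of `z`. -/
def Ds (V : Valuation ℂ ℝ≥0) (L : ℕ) (z z' : ℂ) : Prop := V (tt z' - tt z) < 1 ∧
  ∀ h, Ar V L h → (∀ m, Ar V L (dd^[m] h)) ∧ Si V (Ty z h) ∧
    ∀ K, V (h z' - aK (tt z' - tt z) K (Ty z h)) ≤ V (tt z' - tt z) ^ K

theorem tds_ds (ai : AIStmt) (tyc : TYcStmt) (tr : D9.TrStmt) {L : ℕ} {z z' : ℂ} (hL : V L = 1)
    (h9 : 9 ∣ L) (hz : 0 < z.im) (hz' : 0 < z'.im) (hj : V (jf z) ≤ 1) (hj' : V (jf z') ≤ 1)
    (ht : V (tt z' - tt z) < 1) (hN : ∀ n, V (Dv n (jN L) z' - Dv n (jN L) z) < 1) :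
    Ds V L z z' := by
  have hA := (av_eq_one V).2 hL
  have L0 := D9.ne_of_val hA
  refine ⟨ht, fun h hh => ⟨fun m => ?_, fun n => ?_, fun K => ?_⟩⟩
  · induction m with
    | zero => exact hh
    | succ m ih =>
      rw [Function.iterate_succ_apply']
      exact ((tyc L V hL h9).2 _ ih).1
  · rw [Ty, coeff_mk]
    exact (av_le_one V).1 ((tyg_im ai hL (((tyc L V hL h9).2 _ hh).2 n)).val L0 hz
      ((av_le_one V).2 hj))
  · have k := tr _ L z z' h9 hA hz hz' ((av_le_one V).2 hj) ((av_le_one V).2 hj')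
      ((av_lt_one V).2 ht) (or_iff_not_imp_left.2 fun e x hx => by
        obtain ⟨m, hm⟩ := exists_pow_lt_of_lt_one
          (zero_lt_iff.2 (V.ne_zero_iff.2 (sub_ne_zero.2 e))) ((av_lt_one V).1 hx)
        exact ⟨m, by rw [← map_pow, av_le, map_pow]; exact hm.le⟩)
      (fun m => (av_lt_one V).2 (hN m)) _ (tyg_im ai hL hh) K
    rw [← map_pow, av_le, map_pow] at k
    simpa only [aK, Ty, coeff_mk] using k

theorem Ds.one {L : ℕ} {z z' : ℂ} (d : Ds V L z z') {h : ℂ → ℂ} (hh : Ar V L h) :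
    V (dd h z) ≤ 1 ∧ V (h z' - h z - dd h z * (tt z' - tt z)) ≤ V (tt z' - tt z) ^ 2 := by
  obtain ⟨-, a, b⟩ := d.2 h hh
  have k := b 2
  have l := a 1
  rw [aK, Finset.sum_range_succ, Finset.sum_range_one, pow_zero, mul_one, pow_one, ← sub_sub] at k
  simp only [Ty, coeff_mk, D9.dv_zero, ← tyg_dd] at k l
  exact ⟨l, k⟩

theorem Ds.core {L : ℕ} {z z' : ℂ} (d : Ds V L z z') {P R : ℂ → ℂ} {u v : ℂ⟦X⟧} (hP : Ar V L P)
    (hR : Ar V L R) (hu : Si V u) (e : u * Ty z P = Ty z R) (e' : v * Ty z' P = Ty z' R)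
    (h0 : Ty z' P ≠ 0) :
    V (coeff 0 v - (coeff 0 u + coeff 1 u * (tt z' - tt z))) ≤ V (tt z' - tt z) ^ 2 := by
  obtain ⟨h1, d⟩ := d
  have c : ∀ (m : ℕ) (h : ℂ → ℂ), constantCoeff ((d⁄dX ℂ)^[m] (Ty z' h)) = dd^[m] h z' :=
    fun m h => by rw [tds_ty, ← coeff_zero_eq_constantCoeff_apply, Ty, coeff_mk, D9.dv_zero]
  have ex : ∃ m, dd^[m] P z' ≠ 0 := by_contra fun k => h0 (by
    ext n
    rw [Ty, coeff_mk, Dv, not_not.1 (not_exists.1 k n), zero_div, map_zero])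
  obtain ⟨m, m1, m2⟩ : ∃ m, dd^[m] P z' ≠ 0 ∧ ∀ j < m, dd^[j] P z' = 0 :=
    ⟨Nat.find ex, Nat.find_spec ex, fun j hj => not_not.1 (Nat.find_min ex hj)⟩
  have k1 := tds_leib constantCoeff m v (Ty z' P) fun j hj => by rw [c, m2 j hj]
  rw [e', c, c, ← coeff_zero_eq_constantCoeff_apply] at k1
  have p := zero_lt_iff.2 (V.ne_zero_iff.2 m1)
  obtain ⟨K, hK⟩ := exists_pow_lt_of_lt_one p h1
  have t : ∀ (j : ℕ) (h : ℂ → ℂ), Ar V L h → V (dd^[j] h z' - aK (tt z' - tt z) (K + 2)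
      ((d⁄dX ℂ)^[j] (Ty z h))) ≤ V (tt z' - tt z) ^ (K + 2) := fun j h hh => by
    rw [tds_ty]
    exact (d _ ((d h hh).1 j)).2.2 _
  have k2 := tds_ev (K + 2) m hu (d P hP).2.1 h1.le fun j hj => by
    have := t j P hP
    rwa [m2 j hj, zero_sub, Valuation.map_neg] at this
  rw [e] at k2
  have k3 := t m R hR
  have k4 := t m P hP
  have k5 := (tds_le hu h1.le (K + 2)).1
  have k6 := (tds_le hu h1.le K).2
  generalize aK (tt z' - tt z) (K + 2) u = a, aK (tt z' - tt z) (K + 2)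
    ((d⁄dX ℂ)^[m] (Ty z P)) = b, aK (tt z' - tt z) (K + 2) ((d⁄dX ℂ)^[m] (Ty z R)) = b' at *
  have k7 : V ((coeff 0 v - a) * dd^[m] P z') ≤ V (tt z' - tt z) ^ (K + 2) := by
    rw [show (coeff 0 v - a) * dd^[m] P z' = dd^[m] R z' - b' + (b' - a * b) -
      a * (dd^[m] P z' - b) by rw [k1]; ring]
    refine V.map_sub_le (V.map_add_le k3 k2) ?_
    rw [map_mul]
    exact (mul_le_of_le_one_left' k5).trans k4
  rw [map_mul, pow_add, mul_comm (_ ^ K)] at k7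
  rw [← sub_add_sub_cancel _ a]
  exact V.map_add_le (le_of_mul_le_mul_right (k7.trans (mul_le_mul_right hK.le _)) p) k6

end Pool.Agent.T10
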