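import Pool.Agent.Lib.MP_696deb_nt.B10.TDSa
import Pool.Agent.Lib.MP_696deb_nt.B8.TpD
import Pool.Agent.Lib.MP_696deb_nt.B6.TAk

/-! The parametrization on a residue disc, to first order. -/

set_option autoImplicit false

open Filter Topology PowerSeries
open scoped Classical NNReal

namespace Pool.Agent.T10
open Pool.Agent.Lib.MP_696deb_nt Pool.Agent.Lib.MP_696deb_nt.B2 Pool.Agent.B4.GE Pool.Agent.B6
  Pool.Agent.B8 Pool.Agent.Shared.Weier Pool.Agent.B5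
open Pool.Agent.B6.D9 (tt dd Dv Ty IM Gf)

theorem tds_alg {R : Type*} [CommRing R] (a₁ a₂ a₃ : ℤ) {u v x y x' y' b' m n : R}
    (hm : m = x' - x) (hn : n = y' + y + a₁ * x + a₃)
    (h1 : u * m ^ 2 = n ^ 2 + a₁ * n * m - (a₂ + x + x') * m ^ 2)
    (h2 : v * m ^ 3 = -(n + a₁ * m) * (n ^ 2 + a₁ * n * m - (a₂ + x + x') * m ^ 2) +
      n * x' * m ^ 2 - (y' + a₃) * m ^ 3) :
    wP a₁ a₂ a₃ x y 1 (b' * x') (b' * y') b' = -(b' ^ 4 * m ^ 3) * v ∧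
      wQ a₁ a₂ a₃ x y 1 (b' * x') (b' * y') b' = -(-(b' ^ 4 * m ^ 3) * u) := by
  have eM : wM x 1 (b' * x') b' = b' * m := by rw [wM, hm]; ring
  have eN : wN a₁ a₃ x y 1 (b' * y') b' = b' * n := by rw [wN, hn]; ring
  have eX : wX a₁ a₂ a₃ x y 1 (b' * x') (b' * y') b' = b' ^ 3 * (u * m ^ 2) := by
    rw [wX, eM, eN, h1]; ring
  constructor
  · rw [wP, eX, eM, eN, h1]
    linear_combination b' ^ 4 * h2
  · rw [wQ, eX, eM]
    ring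

theorem tds_uy {L : PeriodPair} {W : WeierstrassCurve ℂ} {ζ : ℂ → ℂ} (h : Zt L W ζ) :
    ∀ᶠ w in 𝓝[≠] 0, uy L W w ≠ 0 := by
  have a := (L.analyticAt_weierstrassPExcept 0).continuousAt
  have c : ContinuousAt (fun w => w ^ 2 * (W.b₂ / 12 - L.weierstrassPExcept 0 w)) 0 := by fun_prop
  filter_upwards [h.eq, self_mem_nhdsWithin,
    (c.eventually_ne (y := 1) (by simp)).filter_mono nhdsWithin_le_nhds] with w h1 h2 h3 h4
  have w0 : w ≠ 0 := h2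
  rw [h4, mul_zero, eq_comm, neg_eq_zero, ux, Shared.Weier.wp_eq, sub_eq_zero] at h1
  refine h3 ?_
  rw [← h1]
  field_simp
  ring

/-- Coordinates of the translated parametrization. -/
def Xa [Ce] (P : Par Wu NN) (a : ℂ) (Pf Rf : ℂ → ℂ) : Prop := ∀ s : ℂ, 0 < s.im →
  ∀ᶠ t in 𝓝[≠] s, ∃ κ ≠ 0, Pf t = κ * uy P.L (Wu.baseChange ℂ) (P.F t - a) ∧
    Rf t = -(κ * ux P.L (Wu.baseChange ℂ) (P.F t - a))

theorem tds_xg [Ce] (P : Par Wu NN) (a : ℂ) : ∃ Pf Rf, MF NN Pf ∧ MF NN Rf ∧ Xa P a Pf Rf := by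
  obtain ⟨Xf, Yf, Bf, h⟩ := xya_stmt _ _ P
  have hB := fun s hs => evc_ne (D9.mf_hol P.N0 h.b) h.ne (z := s) hs
  have hp : ∀ s : ℂ, 0 < s.im → ∀ᶠ t in 𝓝[≠] s, 0 < t.im := fun s hs =>
    mem_nhdsWithin_of_mem_nhds (B4.gb_ev hs)
  by_cases ha : a ∈ P.L.lattice
  · refine ⟨Yf, fun t => -1 * Xf t, h.y, mf_mul (mf_const _) h.x, fun s hs => ?_⟩
    filter_upwards [hB s hs, hp s hs] with t h1 h2
    obtain ⟨-, h4, h5⟩ := h.eq t h2 h1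
    obtain ⟨h6, h7⟩ := evc_ux P.L (Wu.baseChange ℂ) (P.F t) ha
    exact ⟨_, h1, by rw [h5, h7], by rw [h4, h6, neg_one_mul]⟩
  have hx := h.x
  have hy := h.y
  have hb := h.b
  refine ⟨fun t => wP WZ.a₁ WZ.a₂ WZ.a₃ (ux P.L (Wu.baseChange ℂ) a) (uy P.L (Wu.baseChange ℂ) a) 1
    (Xf t) (Yf t) (Bf t), fun t => wQ WZ.a₁ WZ.a₂ WZ.a₃ (ux P.L (Wu.baseChange ℂ) a)
      (uy P.L (Wu.baseChange ℂ) a) 1 (Xf t) (Yf t) (Bf t), ?_, ?_, fun s hs => ?_⟩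
  · simp only [wP, wX, wN, wM]
    repeat' first
      | assumption | exact mf_const _ | apply mf_add | apply mf_sub | apply mf_mul
  · simp only [wQ, wX, wN, wM]
    repeat' first
      | assumption | exact mf_const _ | apply mf_add | apply mf_sub | apply mf_mul
  have n : ∀ c : ℂ, ∀ᶠ t in 𝓝[≠] s, P.F t + c ∉ P.L.lattice := fun c => by
    have k : Tendsto (fun t => P.F t + c) (𝓝[≠] s) (𝓝[≠] (P.F s + c)) := by
      obtain ⟨k1, k2⟩ := tendsto_nhdsWithin_iff.1 (P.ig.nonconst hs)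
      exact tendsto_nhdsWithin_iff.2 ⟨k1.add_const c, k2.mono fun t e e' => e (add_right_cancel e')⟩
    exact k.eventually (ev_notMem _)
  filter_upwards [hB s hs, hp s hs, n a, n (-a)] with t h1 h2 h3 h4
  rw [← sub_eq_add_neg] at h4
  obtain ⟨l1, x1, y1⟩ := h.eq t h2 h1
  obtain ⟨g1, g2⟩ := gl_stmt P.L (Wu.baseChange ℂ) (P.F t) a _ _ _ _ _ _ P.per l1 ha h4 rfl rfl rfl
    rfl rfl rfl
  simp only [Wu_a₁, Wu_a₂, Wu_a₃] at g1 g2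
  rw [x1, y1]
  refine ⟨_, neg_ne_zero.2 (mul_ne_zero (pow_ne_zero _ h1) (pow_ne_zero _ fun e => ?_)),
    tds_alg _ _ _ rfl rfl g1 g2⟩
  rw [ux, ux, sub_sub_sub_cancel_right] at e
  exact wp_ne l1 ha h3 h4 e

theorem tds_scale (V : Valuation ℂ ℝ≥0) {L : ℕ} (hL : L ≠ 0) {F : ℂ → ℂ} (h : MF L F) :
    ∃ c, c ≠ 0 ∧ ∀ d, V d ≤ V c → Ar V L fun z => d * F z := by
  by_cases hz : ∃ z : ℂ, 0 < z.im ∧ F z ≠ 0
  · obtain ⟨z, hz, hz'⟩ := hz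
    obtain ⟨c, hc⟩ := exists_gn V hL h hz hz'
    refine ⟨c⁻¹, inv_ne_zero hc.ne, fun d hd => ⟨mf_mul (mf_const _) h, ?_⟩⟩
    have p := zero_lt_iff.2 (V.ne_zero_iff.2 hc.ne)
    have : ((fun _ => d * c) * fun z => c⁻¹ * F z) ∈ LR V.integer := mul_mem (LE.const (by
      change V (d * c) ≤ 1
      rwa [map_inv₀, ← one_div, le_div_iff₀ p, ← map_mul] at hd)) hc.mem
    exact LE.congr this fun z _ => by rw [Pi.mul_apply, mul_assoc, mul_inv_cancel_left₀ hc.ne]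
  · exact ⟨1, one_ne_zero, fun d _ => ⟨mf_mul (mf_const _) h,
      LE.congr (zero_mem (LR V.integer)) fun z h' => by
        rw [not_not.1 fun e => hz ⟨z, h', e⟩, mul_zero, Pi.zero_apply]⟩⟩

theorem tds_xa [Ce] (P : Par Wu NN) (a : ℂ) (V : Valuation ℂ ℝ≥0) :
    ∃ Pf Rf, Ar V (9 * NN) Pf ∧ Ar V (9 * NN) Rf ∧ Xa P a Pf Rf := by
  have L0 : 9 * NN ≠ 0 := mul_ne_zero (by decide) NN_ne
  obtain ⟨Pf, Rf, h1, h2, h3⟩ := tds_xg P a
  obtain ⟨c, c0, hc⟩ := tds_scale V L0 (tyb_all.2.1 _ _ _ L0 (dvd_mul_left _ _) h1)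
  obtain ⟨d, d0, hd⟩ := tds_scale V L0 (tyb_all.2.1 _ _ _ L0 (dvd_mul_left _ _) h2)
  obtain ⟨e, e0, e1, e2⟩ : ∃ e, e ≠ 0 ∧ V e ≤ V c ∧ V e ≤ V d :=
    (le_total (V c) (V d)).elim (fun k => ⟨c, c0, le_rfl, k⟩) fun k => ⟨d, d0, k, le_rfl⟩
  refine ⟨_, _, hc e e1, hd e e2, fun s hs => (h3 s hs).mono fun t ⟨κ, k0, k1, k2⟩ =>
    ⟨e * κ, mul_ne_zero e0 k0, by simp only [k1, mul_assoc], by simp only [k2, mul_assoc, mul_neg]⟩⟩

theorem tds_germ {s : ℂ} (hs : 0 < s.im) {v p r : ℂ → ℂ} (hv : AnalyticAt ℂ v s)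
    (hp : AnalyticAt ℂ p s) (hr : AnalyticAt ℂ r s)
    (h : ∀ᶠ t in 𝓝[≠] s, v t * p t = r t ∧ p t ≠ 0) : Ty s v * Ty s p = Ty s r ∧ Ty s p ≠ 0 := by
  obtain ⟨d0, -, -, hcg, -, S, T, hS, hT⟩ := tya_all s hs
  constructor
  · have h1 := map_mul T ⟨_, (hS _).2 hv⟩ ⟨_, (hS _).2 hp⟩
    rw [hT, hT, hT] at h1
    exact h1.symm.trans (hcg _ _ (((hv.mul hp).continuousAt.eventuallyEq_nhds_iff_eventuallyEq_nhdsNE
      hr.continuousAt).1 (h.mono fun t k => k.1)))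
  obtain ⟨n, g, g1, g2, g3⟩ := hp.exists_eventuallyEq_pow_smul_nonzero_iff.2 fun k => by
    obtain ⟨t, k1, k2⟩ := (h.and (k.filter_mono nhdsWithin_le_nhds)).exists
    exact k1.2 k2
  have a : AnalyticAt ℂ (fun t => t - s) s := by fun_prop
  have h1 := map_mul T (⟨_, (hS _).2 a⟩ ^ n) ⟨_, (hS _).2 g1⟩
  rw [map_pow, hT, hT, hT] at h1
  rw [hcg _ _ g3]
  refine (h1.trans_ne (mul_ne_zero (pow_ne_zero _ fun e => ?_) fun e => g2 ?_))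
  · have := congrArg (coeff 1) e
    simp [Ty, D9.dv_one, d0] at this
  · simpa [Ty, D9.dv_zero] using congrArg (coeff 0) e

theorem tds_zero [Ce] (P : Par Wu NN) {a s : ℂ} {Pf Rf ζ : ℂ → ℂ} (h : Xa P a Pf Rf)
    (hζ : Zt P.L (Wu.baseChange ℂ) ζ) (hs : 0 < s.im) (hp : AnalyticAt ℂ Pf s)
    (hr : AnalyticAt ℂ Rf s) (hl : P.F s - a ∈ P.L.lattice) :
    (PowerSeries.mk fun n => cN ζ P.F n s) * Ty s Pf = Ty s Rf ∧ Ty s Pf ≠ 0 := by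
  have hG : AnalyticAt ℂ (fun t => P.F t - P.F s) s :=
    (B4.gb_an P.qe.hol hs).sub analyticAt_const
  have ht : Tendsto (fun t => P.F t - P.F s) (𝓝[≠] s) (𝓝[≠] 0) := by
    obtain ⟨k1, k2⟩ := tendsto_nhdsWithin_iff.1 (P.ig.nonconst hs)
    exact tendsto_nhdsWithin_iff.2 ⟨by simpa using k1.sub_const (P.F s),
      k2.mono fun t e e' => e (sub_eq_zero.1 e')⟩
  refine tds_germ hs (hζ.an.comp_of_eq hG (sub_self _)) hp hr ?_
  filter_upwards [h s hs, ht.eventually hζ.eq, ht.eventually (tds_uy hζ)] with t ⟨κ, k0, k1, k2⟩ h1 h2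
  obtain ⟨h6, h7⟩ := evc_ux P.L (Wu.baseChange ℂ) (P.F t - a) hl
  rw [sub_sub_sub_cancel_right] at h6 h7
  rw [k1, k2, ← h6, ← h7]
  exact ⟨by linear_combination κ * h1, mul_ne_zero k0 h2⟩

theorem tds_far [Ce] (P : Par Wu NN) {a s : ℂ} {Pf Rf : ℂ → ℂ} (h : Xa P a Pf Rf)
    (hs : 0 < s.im) (hp : AnalyticAt ℂ Pf s) (hr : AnalyticAt ℂ Rf s)
    (hl : P.F s - a ∉ P.L.lattice) (hy : uy P.L (Wu.baseChange ℂ) (P.F s - a) ≠ 0) :
    ∃ v, v * Ty s Pf = Ty s Rf ∧ Ty s Pf ≠ 0 ∧ coeff 0 v =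
      -ux P.L (Wu.baseChange ℂ) (P.F s - a) / uy P.L (Wu.baseChange ℂ) (P.F s - a) := by
  have hG : AnalyticAt ℂ (fun t => P.F t - a) s := (B4.gb_an P.qe.hol hs).sub analyticAt_const
  have h1 := (P.L.analyticOnNhd_weierstrassP _ hl).comp_of_eq hG rfl
  have h2 := (P.L.analyticOnNhd_derivWeierstrassP _ hl).comp_of_eq hG rfl
  have a1 : AnalyticAt ℂ (fun t => ux P.L (Wu.baseChange ℂ) (P.F t - a)) s :=
    h1.sub analyticAt_const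
  have a2 : AnalyticAt ℂ (fun t => uy P.L (Wu.baseChange ℂ) (P.F t - a)) s :=
    ((h2.sub (analyticAt_const.mul a1)).sub analyticAt_const).div_const
  obtain ⟨k1, k2⟩ := tds_germ hs (a1.neg.div a2 hy) hp hr (by
    filter_upwards [h s hs, (a2.continuousAt.eventually_ne hy).filter_mono nhdsWithin_le_nhds]
      with t ⟨κ, k0, k1, k2⟩ h1
    rw [k1, k2]
    refine ⟨?_, mul_ne_zero k0 h1⟩
    simp only [Pi.div_apply, Pi.neg_apply]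
    field_simp)
  exact ⟨_, k1, k2, by rw [Ty, coeff_mk, D9.dv_zero]; rfl⟩

theorem tr_all : D9.TrStmt := D9.tr_stmt (D9.tay_stmt der_all) dim_all tim_all j_all D9.fld_stmt
  D9.phi_stmt reg8 root8 shift8

theorem tds_two {w : Plc} {V : Valuation ℂ ℝ≥0} (w2 : w.p = 2) (ov : Ov V w) : V 2 < 1 := by
  rw [← map_ofNat jC 2, ov, tak_two w2]
  exact inv_lt_one_of_one_lt₀ one_lt_two

theorem tds_disc {w : Plc} {V : Valuation ℂ ℝ≥0} {g : Gam} {σ : ℂ ≃+* ℂ} {L : ℕ} {z z' : ℂ}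
    (w2 : w.p = 2) (ov : Ov V w) (hg : g ∈ Ine w) (hσ : CM.Ex g σ) (Lo : Odd L) (L9 : 9 ∣ L)
    (pc : G5.Pc L σ z z') (hy : ∃ y, jC y = jf z) (hj : V (jf z) ≤ 1) :
    Ds V L z z' ∧ V L = 1 ∧ tt z' = σ (tt z) := by
  obtain ⟨y, hy⟩ := hy
  have L0 := Lo.pos.ne'
  have VL : V L = 1 := web_odd (tds_two w2 ov) Lo
  obtain ⟨j', cg⟩ := evb_stmt _ w V g σ z z' y L0
    (w2 ▸ fun e => Nat.not_even_iff_odd.2 Lo (even_iff_two_dvd.2 e)) ov hg hσ pc hy hj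
  exact ⟨tds_ds ai_stmt tyc_all tr_all VL L9 pc.pos pc.pos' hj j' (cg tt fun A a => tim_all A _ L9 a)
    fun n => cg _ fun A a => (D9.gf_jN dvd_rfl L0).dv dim_all
      (D9.dcq_stmt dim_all D9.tex_stmt der_all) L9 a n, VL,
    pc.ev _ _ ((tim_all _ _ L9 ((av_eq_one V).2 VL)).2 σ)⟩

/-- The first order expansion. -/
theorem tds_main [Ce] (D : MD Wu NN) {k : ℤ} {w : Plc} {V : Valuation ℂ ℝ≥0} {g : Gam}
    {σ : ℂ ≃+* ℂ} {z : ℂ} {Q : B6.EE} (hk : D.k = k) (ko : Odd k) (w2 : w.p = 2) (ov : Ov V w)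
    (hg : g ∈ Ine w) (hσ : CM.Ex g σ) (hz : 0 < z.im) (hy : ∃ y, jC y = jf z) (hj : V (jf z) ≤ 1)
    (hQ : pmap jC Q = D.par.φ z) : g • Q - Q ∈ B6.K1 w ∧ V (dd D.par.F z) ≤ 1 ∧
      V (jC (B6.zc (g • Q - Q)) - dd D.par.F z * (σ (tt z) - tt z)) ≤ V (σ (tt z) - tt z) ^ 2 := by
  have V2 := tds_two w2 ov
  have L0 : 9 * NN ≠ 0 := mul_ne_zero (by decide) NN_ne
  have L9 : 9 ∣ 9 * NN := dvd_mul_right _ _
  obtain ⟨z', pc⟩ := G5.exists_pc G5.jf_surj L0 σ hz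
  obtain ⟨ds, VL, et⟩ := tds_disc w2 ov hg hσ (Odd.mul (by decide) NN_odd) L9 pc hy hj
  obtain ⟨h1, h2⟩ := hf_stmt D9.inv_stmt D9.tex_stmt der_all du_all _ _ D
  obtain ⟨h2, -⟩ := h2 k V hk ko V2
  obtain ⟨Xf, Yf, Bf, c, cx, cy, cb⟩ := xy_stmt xya_stmt xyb_stmt tyb_all tyc_all D.par V V2 h1 h2
  obtain ⟨ζ, hζ⟩ := zt_stmt D.par.L (Wu.baseChange ℂ)
  have m := fun n => wea_stmt tya_all tyb_all _ n ζ _ L0 L9 D.par.qe.hol h1 hζ.an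
  have i := web_stmt gl_stmt tya_all tyb_all tyc_all D.par V Xf Yf Bf ζ V2 c cx (gn_mem cy) cb hζ m
  have s : Si V (PowerSeries.mk fun n => cN ζ D.par.F n z) := fun n => by
    rw [coeff_mk]
    exact qp L0 (m n) (i n) (Aff.of_unit L0 VL hz hj)
  have c0 : cN ζ D.par.F 0 z = 0 := by rw [cN, D9.dv_zero, sub_self, hζ.zero]
  have c1 : cN ζ D.par.F 1 z = dd D.par.F z := by
    have h1 : HasDerivAt ζ 1 (D.par.F z - D.par.F z) := by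
      rw [sub_self, ← hζ.one]
      exact hζ.an.differentiableAt.hasDerivAt
    have h2 := HasDerivAt.comp z (h₂ := ζ) (h := fun t => D.par.F t - D.par.F z) h1
      ((D.par.qe.hol z hz).hasDerivAt.sub_const (D.par.F z))
    rw [cN, D9.dv_one, show deriv (fun t => ζ (D.par.F t - D.par.F z)) z = _ from h2.deriv, one_mul]
    rfl
  have k1 : g • Q - Q ∈ B6.K1 w := B6.K1_ine (by rw [w2]; exact Δ_odd) hg Q
  have e : pmap jC (g • Q - Q) = D.par.per.unif (D.par.F z' - D.par.F z) := by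
    have := G5.Pc.φ D.par (σ := σ) ⟨hz, pc.pos', fun h h' e => pc.ev h h'
      ⟨tyb_all.2.1 _ _ _ L0 (dvd_mul_left _ _) e.mf, tyb_all.2.1 _ _ _ L0 (dvd_mul_left _ _) e.mf',
        e.ex⟩⟩
    rw [map_sub, map_sub, ← Par.φ, ← Par.φ, this, ← hQ, B6.smul_pt, pmap_pmap, pmap_pmap]
    exact congrArg (pmap · Q - _) (RingHom.ext fun x => (hσ x).symm)
  obtain ⟨Pf, Rf, p1, p2, p3⟩ := tds_xa D.par (D.par.F z) V
  obtain ⟨a1, -⟩ := tds_zero D.par p3 hζ hz (D9.mf_an L0 p1.mf hz) (D9.mf_an L0 p2.mf hz)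
    (by rw [sub_self]; exact zero_mem _)
  obtain ⟨v, v1, v2, v3⟩ : ∃ v, v * Ty z' Pf = Ty z' Rf ∧ Ty z' Pf ≠ 0 ∧
      coeff 0 v = jC (B6.zc (g • Q - Q)) := by
    by_cases hl : D.par.F z' - D.par.F z ∈ D.par.L.lattice
    · obtain ⟨b1, b2⟩ := tds_zero D.par p3 hζ pc.pos' (D9.mf_an L0 p1.mf pc.pos')
        (D9.mf_an L0 p2.mf pc.pos') hl
      rw [D.par.per.unif_eq_zero_iff.2 hl, ← map_zero (pmap jC)] at e
      exact ⟨_, b1, b2, by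
        rw [pmap_injective _ e, zc_zero, map_zero, coeff_mk, cN, D9.dv_zero, sub_self, hζ.zero]⟩
    · rw [D.par.per.unif_of_notMem hl] at e
      have ex := congrArg xco e
      have ey := congrArg yco e
      rw [xco_pmap, xco_some] at ex
      rw [yco_pmap, yco_some] at ey
      have n : g • Q - Q ≠ 0 := fun k => by
        rw [k, map_zero] at e
        exact WeierstrassCurve.Affine.Point.some_ne_zero _ e.symm
      rw [B6.zc, map_div₀, map_neg, ex, ey]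
      refine tds_far D.par p3 pc.pos' (D9.mf_an L0 p1.mf pc.pos') (D9.mf_an L0 p2.mf pc.pos') hl ?_
      rw [← ey, _root_.map_ne_zero]
      exact fun k => by simpa [k] using (taj_z (k1.resolve_left n)).2.2.2
  have r := ds.core p1 p2 s a1 v1 v2
  rw [v3, coeff_mk, coeff_mk, c0, c1, zero_add, et] at r
  exact ⟨k1, by simpa only [coeff_mk, c1] using s 1, r⟩

end Pool.Agent.T10
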