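import Pool.Agent.Lib.MP_696deb_nt.B10.ZK

/-! The reflection has two fixed classes. -/

set_option autoImplicit false

open NumberTheorySymbols
open scoped Classical

namespace Pool.Agent.T10
open Pool.Agent.Lib.MP_696deb_nt Pool.Agent.Lib.MP_696deb_nt.B2 Pool.Agent.Lib.MP_696deb_nt.B2.CM
  Pool.Agent.B4.GE
open Pool.Agent.Lib.MP_696deb_nt.B3.CM (kc_odd mid_idl)
open Pool.Agent.B4 (OkN HgN nn exists_hgN tq_sep)

theorem fi_grp {G : Type} [CommGroup G] (θ : G →* ℤˣ)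
    (hk : ∀ x, θ x = 1 → ∃ k : ℕ, Odd k ∧ x ^ k = 1) {p c : G} (h2 : p * p = 1) (hp : θ p = -1)
    (hc : θ c = 1) : ∃ y, y ≠ p * y ∧ ∀ x, c = x * x ↔ x = y ∨ x = p * y := by
  have h1 : ∀ x, θ x = 1 → x * x = 1 → x = 1 := fun x hx e => by
    obtain ⟨_, ⟨k, rfl⟩, h⟩ := hk x hx
    rwa [pow_succ, pow_mul, sq, e, one_pow, one_mul] at h
  obtain ⟨_, ⟨k, rfl⟩, h⟩ := hk c hc
  have h3 : c = c ^ (k + 1) * c ^ (k + 1) := by
    rw [← pow_add, show k + 1 + (k + 1) = 2 * k + 1 + 1 by ring, pow_succ, h, one_mul]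
  generalize c ^ (k + 1) = y at h3
  refine ⟨y, fun e => ?_, fun x => ⟨fun e => ?_, ?_⟩⟩
  · rw [right_eq_mul.1 e, map_one] at hp
    exact absurd hp (by decide)
  · have h4 : x * y⁻¹ * (x * y⁻¹) = 1 := by
      rw [mul_mul_mul_comm, ← e, ← mul_inv, ← h3, mul_inv_cancel]
    rcases Int.units_eq_one_or (θ (x * y⁻¹)) with h5 | h5
    · exact .inl (mul_inv_eq_one.1 (h1 _ h5 h4))
    · have h6 := h1 (p * (x * y⁻¹)) (by rw [map_mul, hp, h5]; decide)
        (by rw [mul_mul_mul_comm, h2, h4, one_mul])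
      refine .inr (mul_inv_eq_iff_eq_mul.1 (mul_left_cancel (a := p) ?_))
      rw [h6, h2]
  · rintro (rfl | rfl)
    · exact h3
    · rw [mul_mul_mul_comm, h2, one_mul, h3]

theorem fi_hk {l : ℕ} (z : ℂ) (i : Option (Fin l)) : act (rP l i) z = hk l z i := by
  rcases i with _ | k
  · simp [act, mob, rP, ut, hk]
  · exact act_rP_some k z

theorem fi_stmt : FIStmt := by
  intro N q l r w hq hl h4 hJ hN hB ok _ hw
  have hm := ok.m4
  have hq4 : q % 4 = 3 := by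
    rw [Nat.mul_mod, h4, mul_one, Nat.mod_mod] at hm
    exact hm
  have hne : q ≠ l := by omega
  have hco : q.Coprime l := (Nat.coprime_primes hq hl).2 hne
  have hs : Squarefree (q * l) := (Nat.squarefree_mul hco).2 ⟨hq.squarefree, hl.squarefree⟩
  have q0 : (q : ℤ) ≠ 0 := by exact_mod_cast hq.ne_zero
  have l0 : (l : ℤ) ≠ 0 := by exact_mod_cast hl.ne_zero
  have lp : (0 : ℤ) < l := by exact_mod_cast hl.pos
  have hP := Nat.prime_iff_prime_int.1 hl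
  have hd : (l : ℤ) ∣ (q * l : ℕ) * (1 : ℕ) := ⟨q, by push_cast; ring⟩
  have kc := kc_odd hm (c := 1) (o := l) (by omega) hd
  rw [Int.natAbs_natCast] at kc
  obtain ⟨θ, hθ⟩ := kc.exists_th ok.toOk
  have hker : ∀ x, θ x = 1 → ∃ k : ℕ, Odd k ∧ x ^ k = 1 := fun x hx => by
    obtain ⟨g, hg, rfl⟩ := rho_surj ok.toOk x
    rw [hθ g hg] at hx
    refine tq_eq_one.1 (tq_sep ok.toOk hs hB hg fun p hp => ?_)
    rcases (Nat.Prime.dvd_mul (Nat.prime_of_mem_primeFactors hp)).1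
      (Nat.dvd_of_mem_primeFactors hp) with h | h
    · rw [(Nat.prime_dvd_prime_iff_eq (Nat.prime_of_mem_primeFactors hp) hq).1 h, pst,
        if_neg (by omega)]
      have h1 := B4c_mem.1 hg
      rwa [show (-((q * l : ℕ) : ℤ)) = -q * l by push_cast; ring, chi_mul (neg_ne_zero.2 q0) l0,
        hx, mul_one] at h1
    · rwa [(Nat.prime_dvd_prime_iff_eq (Nat.prime_of_mem_primeFactors hp) hl).1 h, pst, if_pos h4]
  obtain ⟨k, hk⟩ : ∃ k : ℤ, (l : ℤ) + q = 4 * k := ⟨(l + q) / 4, by omega⟩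
  have e : (l : ℤ) ^ 2 + (q * l : ℕ) * (1 : ℕ) ^ 2 = 4 * l * k := by
    push_cast
    linear_combination l * hk
  have hlk : ¬ (l : ℤ) ∣ k := fun h => by
    have h1 : (l : ℤ) ∣ q := (dvd_add_right dvd_rfl).1 (hk ▸ h.mul_left 4)
    exact hne ((Nat.prime_dvd_prime_iff_eq hl hq).1 (Int.natCast_dvd_natCast.1 h1)).symm
  have hp : ∃ x y z : ℤ, x * l + y * l + z * k = 1 := by
    obtain ⟨x, y, h⟩ := hP.irreducible.coprime_iff_not_dvd.2 hlk
    exact ⟨x, 0, y, by linear_combination h⟩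
  have en : idl (q * l) 1 l (-l) = idl (q * l) 1 l l := idl_congr ⟨-1, by ring⟩
  have p2 : cl (Oc (q * l) 1) (idl (q * l) 1 l l) * cl _ (idl (q * l) 1 l l) = 1 := by
    have := cl_idl_neg hm e l0 hp
    rw [en] at this
    exact mul_eq_one_iff_eq_inv.2 this
  have pθ : θ (cl (Oc (q * l) 1) (idl (q * l) 1 l l)) = -1 := by
    have h1 := kc.th_form ok.toOk hθ e lp hp hl hd fun v hv =>
      (hP.irreducible.coprime_iff_not_dvd.2 hv).symm
    rw [en, if_pos dvd_rfl] at h1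
    have h2 : J(4 * k | l) = J(q | l) := jacobiSym.mod_left' (by rw [← hk]; simp)
    have h3 : Odd l := Nat.odd_iff.2 (by omega)
    rw [jacobiSym.mul_left, jacobiSym.at_four h3, one_mul,
      ← jacobiSym.quadratic_reciprocity_one_mod_four h4 (Nat.odd_iff.2 (by omega)), hJ] at h2
    exact Units.ext (h1.trans h2)
  have hlN : l.Coprime N := ok.cop.coprime_dvd_left ⟨q, by ring⟩
  have nθ : θ (nn N (q * l) 1 r) = 1 := by
    obtain ⟨j, hj⟩ := ok.eq
    obtain ⟨x, y, h⟩ := ok.cop_r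
    have h1 := kc.th_idl ok.toOk hθ hj (by exact_mod_cast Nat.pos_of_ne_zero ok.N_ne)
      ⟨x, y, 0, by linear_combination h⟩ (Nat.isCoprime_iff_coprime.2 hlN.symm)
    exact Units.ext (h1.trans hN)
  obtain ⟨w2, hτ⟩ := cmh_gen ok.toOk hs (w := w) (hw ▸ dvd_mul_right q l)
  obtain ⟨g, hg⟩ := exists_gen w2
  have g1 := hτ g hg
  have gθ : θ (rho (q * l) 1 g) = 1 := by
    have h1 : g * cc⁻¹ ∈ GK (q * l) := mul_mem_GK g1
      (mt (inv_mem_iff.1) (cc_notMem (by have := ok.gt; omega)))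
    have h3 := rho_mul ok.toOk h1 cc
    rw [inv_mul_cancel_right, rho_cc ok.toOk, mul_one] at h3
    have h5 : ¬ (w.p : ℤ) ∣ 2 * l := fun h => by
      rw [hw] at h
      rcases (Nat.Prime.dvd_mul hq).1 (Int.natCast_dvd_natCast.1 (by exact_mod_cast h) :
        q ∣ 2 * l) with h | h
      · have := Nat.le_of_dvd two_pos h
        omega
      · exact hne ((Nat.prime_dvd_prime_iff_eq hq hl).1 h)
    rw [h3, hθ _ h1, map_mul, map_inv, chi_ine h5 hg.1, chi_cc l0, if_pos lp, inv_one, mul_one]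
  obtain ⟨y, hy, hx⟩ := fi_grp θ hker p2 pθ (c := rho (q * l) 1 g * (nn N (q * l) 1 r)⁻¹)
    (by rw [map_mul, map_inv, gθ, nθ, inv_one, mul_one])
  obtain ⟨z, hz, rfl⟩ := exists_hgN ok y
  obtain ⟨m1, m2⟩ := mid_idl ok.toOk hl e hz.iv
  obtain ⟨i, hi⟩ := cmd_mid (s := 1) hl (cmd_one hl) hz.pos.ne' m1 m2
  have hI := isIv_idl hm e l0 hp
  obtain ⟨h1, h2⟩ := B6.CM.hg_nb ok hl.pos hz i (hi ▸ hI.mul hz.iv) hlN rfl
  rw [← hi, cl_mul hI hz.iv, ← fi_hk] at h2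
  rw [← fi_hk] at h1
  refine ⟨g, hg.1, g1, z, i, hz, hi.symm, h1, h2 ▸ hy, fun x => ?_⟩
  rw [h2, ← hx x, mul_inv_eq_iff_eq_mul, mul_inv_eq_iff_eq_mul, mul_assoc, mul_comm (x * x)]

end Pool.Agent.T10
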