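import Pool.Agent.Lib.MP_696deb_nt.B10.UZ
import Pool.Agent.Lib.MP_696deb_nt.B8.CFa
import Pool.Agent.Lib.MP_696deb_nt.B8.CFc

/-! The kernel of the cubic character is the group of the field of the points of order two. -/

set_option autoImplicit false

open NumberField NumberTheorySymbols
open scoped Classical NNReal

namespace Pool.Agent.B10
open Pool.Agent.Lib.MP_696deb_nt Pool.Agent.Lib.MP_696deb_nt.B2 Pool.Agent.Lib.MP_696deb_nt.B2.CM
  Pool.Agent.B6 Pool.Agent.B4 Pool.Agent.B8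

open Pool.Agent.Lib.MP_696deb_nt.B3.CM (exists_frob_idl kerR op_kerR)

/-- The kernel of a character of the ring class group, as a subgroup of the Galois group. -/
noncomputable def ucxK {n c : ℕ} (ok : Ok n c) (ψ : Pc n c →* Z3) : Subgroup Gam where
  carrier := {g | g ∈ GK n ∧ ψ (rho n c g) = 1}
  one_mem' := ⟨one_mem _, by rw [rho_one ok, map_one]⟩
  mul_mem' h h' := ⟨mul_mem h.1 h'.1, by rw [rho_mul ok h.1, map_mul, h.2, h'.2, one_mul]⟩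
  inv_mem' h := ⟨inv_mem h.1, by rw [rho_inv ok h.1, map_inv, h.2, inv_one]⟩

theorem ucx_op {n c : ℕ} (ok : Ok n c) (ψ : Pc n c →* Z3) : Op (ucxK ok ψ) :=
  Subgroup.isOpen_mono (H₁ := kerR ok) (fun g hg => ⟨hg.1, by rw [hg.2, map_one]⟩) (op_kerR ok)

theorem ucx_normal {n c : ℕ} (ok : Ok n c) (ψ : Pc n c →* Z3) : (ucxK ok ψ).Normal := by
  refine ⟨fun g hg t => ⟨(normal_GK n).conj_mem g hg.1 t, ?_⟩⟩
  by_cases ht : t ∈ GK n
  · rw [rho_mul ok (mul_mem ht hg.1), rho_mul ok ht, map_mul, map_mul, hg.2, mul_one,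
      rho_inv ok ht, map_inv, mul_inv_cancel]
  · rw [rho_conj ok ht hg.1, map_inv, hg.2, inv_one]

theorem ucx_pow {k : ℕ} (hk : k.Coprime 6) (x : Z3) : x ^ k = 1 ↔ x = 1 := by
  refine ⟨fun e => ?_, fun e => by rw [e, one_pow]⟩
  have h1 : (k : ZMod 3) * x.toAdd = 0 := by
    rw [← nsmul_eq_mul, ← toAdd_pow, e, toAdd_one]
  refine toAdd_eq_zero.1 ((mul_eq_zero.1 h1).resolve_left fun e' => ?_)
  exact absurd (Nat.dvd_gcd ((ZMod.natCast_eq_zero_iff k 3).1 e') (by norm_num : 3 ∣ 6))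
    (by rw [hk]; decide)

/-- The statement for Frobenius elements. -/
theorem ucx_frob [Ce] {ψ : Pc NN 2 →* Z3} (hψ : Cub ψ) {w : Plc} {φ : Gam} (hw : ¬ w.p ∣ 2 * NN)
    (hφ : IsFrob w w.p φ) (h : φ ∈ GK NN) : ψ (rho NN 2 φ) = 1 ↔ ∀ i, φ (er i) = er i := by
  have ok : Ok NN 2 := nk.ok two_ne_zero
  obtain ⟨-, a2, -, a4, -, -⟩ := @cfa_stmt _
  have h2 : w.p ≠ 2 := fun e => hw (by rw [e]; exact dvd_mul_right _ _)
  have h8 := chi_frob (a := -NN) (fun e => hw (by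
    rw [mul_neg, dvd_neg] at e
    exact_mod_cast e)) hφ
  rw [B4c_mem.1 h] at h8
  obtain ⟨b, k, e, hb⟩ := exists_root_split ok.m4 w.prime h2 h8.symm
    (c := 2) fun e => hw (e.mul_right _)
  have h5 : ψ (rho NN 2 φ) = 1 ↔ ψ (cl _ (idl NN 2 w.p b)) = 1 := by
    rcases (exists_frob_idl ok w.prime h2 e hb rfl hφ).2 with h4 | h4 <;> simp [h4]
  rw [h5, hψ.split _ b k w.prime hw e, a4 w φ hw hφ]
  exact ⟨fun ⟨i, e'⟩ => a2 φ h i e', fun e' => ⟨0, e' 0⟩⟩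

theorem cx_stmt : CXStmt := by
  intro _ ψ hψ g hg
  have ok : Ok NN 2 := nk.ok two_ne_zero
  obtain ⟨⟨χ, h⟩, -⟩ := @cfa_stmt _
  obtain ⟨σ, hσ⟩ := exists_pr
  have m : ∀ g : Gam, g ∈ σ.ker ↔ ∀ i, g (er i) = er i := fun g =>
    ⟨fun e i => by rw [hσ, show σ g = 1 from e]; rfl,
      fun e => Equiv.ext fun i => er_inj ((hσ g i).symm.trans (e i))⟩
  have o : Op σ.ker := by
    have o1 : ∀ i, Op (MulAction.stabilizer Gam (er i)) := fun i =>
      stabilizer_isOpen_of_isIntegral _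
    refine Subgroup.isOpen_mono (fun g hg => (m g).2 fun i => ?_) (((o1 0).inf (o1 1)).inf (o1 2))
    fin_cases i
    exacts [hg.1.1, hg.1.2, hg.2]
  have := ucx_normal ok ψ
  have h0 : ∀ x : Z3, x ^ (2 * 3 ^ 1) = 1 := by decide
  obtain ⟨w, φ, k, h2, hφ, h3, h4⟩ := H3.cheb (ucxK ok ψ ⊓ σ.ker) g 1 (2 * NN).primeFactors
    ((ucx_op ok ψ).inf o) inferInstance ⟨⟨pow_mem hg _, by rw [rho_pow ok hg, map_pow, h0]⟩,
      (m _).2 ((h.ker _ (pow_mem hg _)).1 (by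
        rw [h.pow hg, show ((2 * 3 ^ 1 : ℕ) : ZMod 3) = 0 from rfl, zero_mul]))⟩
  have h5 : ¬ w.p ∣ 2 * NN := fun e =>
    h2 (Nat.mem_primeFactors.2 ⟨w.prime, e, mul_ne_zero two_ne_zero NN_ne⟩)
  have h6 : φ ∈ GK NN := by
    have := mul_mem (pow_mem hg k) (inv_mem h4.1.1)
    rwa [mul_inv_rev, inv_inv, mul_inv_cancel_left] at this
  have h7 := congrArg ψ (rho_mul ok h6 (φ⁻¹ * g ^ k))
  rw [mul_inv_cancel_left, map_mul, h4.1.2, mul_one, rho_pow ok hg, map_pow] at h7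
  have h9 := h.hom φ h6 _ h4.1.1
  rw [mul_inv_cancel_left, h.pow hg, (h.ker _ h4.1.1).2 ((m _).1 h4.2), add_zero] at h9
  rw [← ucx_pow h3, h7, ucx_frob hψ h5 hφ h6, ← h.ker φ h6, ← h9, ← h.ker g hg, ← nsmul_eq_mul,
    ← ofAdd_eq_one, ofAdd_nsmul, ucx_pow h3, ofAdd_eq_one]

end Pool.Agent.B10
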