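import Pool.Agent.Lib.MP_696deb_nt.B10.ZK
import Pool.Agent.Lib.MP_696deb_nt.B10.ZS
import Pool.Agent.Lib.MP_696deb_nt.B10.UCX
import Pool.Agent.Lib.MP_696deb_nt.B8.CFb

/-! The points at the fixed points of the involution of Fricke are conjugate and differ. -/

set_option autoImplicit false

open scoped Classical

namespace Pool.Agent.T10
open Pool.Agent.Lib.MP_696deb_nt Pool.Agent.Lib.MP_696deb_nt.B2 Pool.Agent.Lib.MP_696deb_nt.B2.CM
  Pool.Agent.B6 Pool.Agent.B8 Pool.Agent.B4.GE Pool.Agent.Shared.Weier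

theorem ft_neg {A : Type*} [AddCommGroup A] {x : A} (h : 2 • x = 0) : -x = x :=
  neg_eq_of_add_eq_zero_left ((two_nsmul x).symm.trans h)

theorem ft_stmt (gt : GTStmt) (fw : FWStmt) (se : SEStmt) (fx : FXStmt) : FTStmt := by
  intro _ P T g z z' R R' h0 hT he hz hz' hg hr hR hR'
  obtain ⟨σ, hσ⟩ := exists_ex g
  obtain ⟨aj, f2, -⟩ := fw NN z nk hz
  obtain ⟨a, wp, tr⟩ := f2 g σ z' hz' hg hσ hr
  obtain ⟨π, p1, p2⟩ := gt NN P T g σ a z z' h0 hσ hT.tp wp aj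
    fun κ _ => se.2 NN T z' κ NN_sqf hT.tp hz'
  have r : RepF NN T z' fun l i => R l ((π l).symm i) := fun l hl i j h =>
    hR l hl _ _ ((tr l _ _ i j (hT.tp l hl).1 (hT.tp l hl).2
      ((p1 l hl _ _).2 ((π l).apply_symm_apply i).symm)
      ((p1 l hl _ _).2 ((π l).apply_symm_apply j).symm)).2 h)
  obtain ⟨x1, x2⟩ := (fx _ NN P T z' _ hz' hT r).2 (fw NN z' nk hz').1 h0 he
  exact ⟨((fx _ NN P T z R hz hT hR).2 aj h0 he).1, by rw [p2, ft_neg x1, x2 R' hR']⟩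

theorem fs_stmt (ft : FTStmt) (fw : FWStmt) (rq : RQStmt) : FSStmt := by
  intro _ P T R l h0 hT he hR hD hl hlN hRt z i hz hi
  have ok : Ok NN 2 := nk.ok two_ne_zero
  obtain ⟨f1, b, k, e, f2⟩ := (fw NN z nk hz).2.2 l i hl hlN hi
  refine ⟨f1, fun R₁ R₂ h1 h2 => ?_⟩
  obtain ⟨g, hg, eg⟩ := rho_surj ok (cl _ (sp2 z 1) * (cl _ (sp2 (x0 NN) 1))⁻¹)
  obtain ⟨h, hh, eh⟩ := rho_surj ok (cl _ (idl NN 2 l b))
  have a1 := (ft P T g _ z R R₁ h0 hT he (rq NN ∅ (fun _ => 1) (fun _ => True) nk).1 hz hg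
    (by rw [eg, inv_mul_cancel_right]) hR h1).2
  obtain ⟨a2, a3⟩ := ft P T h z _ R₁ R₂ h0 hT he hz f1 hh (by rw [eh, f2]) h1 h2
  have ne : Dz P T z R₁ ≠ 0 := fun c => hD ((smul_eq_zero_iff_eq g).1 (a1.trans c))
  rw [← a3]
  generalize Dz P T z R₁ = D at a2 ne
  refine ⟨by rw [smul_add, smul_comm, a2, smul_zero, add_zero], fun c => hRt ?_⟩
  have c1 : h • D = D := (eq_neg_of_add_eq_zero_right c).trans (ft_neg a2)
  have c2 := congrArg xco c1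
  rw [B6.xco_smul] at c2
  obtain ⟨ψ, hψ⟩ := cf_stmt cfa_stmt cfb_stmt
  refine (hψ.split l b k hl hlN e).1 (eh ▸ (B10.cx_stmt ψ hψ h hh).2 ?_)
  rcases cub_eq_zero.1 ((B6.two_iff.1 a2).resolve_left ne) with c3 | c3 | c3 <;> rw [c3] at c2 <;>
    exact cfa_all hh c2

end Pool.Agent.T10
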