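import Pool.Agent.Lib.MP_696deb_nt.B10.ZK

/-! The fixed points of the involution of Fricke are conjugate. -/

set_option autoImplicit false

open scoped Classical

namespace Pool.Agent.T10
open Pool.Agent.Lib.MP_696deb_nt Pool.Agent.Lib.MP_696deb_nt.B2 Pool.Agent.Lib.MP_696deb_nt.B2.CM
  Pool.Agent.B8
open Pool.Agent.Lib.MP_696deb_nt.B3.CM (St st_idl)

variable {N l : ℕ} {z a : ℂ} {i j : Option (Fin l)}

theorem fw_neg (a : ℂ) (I : Lt) : sc (-a) I = sc a I := by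
  rw [sc, sc, ← Set.neg_singleton, Submodule.span_neg]

theorem fw_le (N : ℕ) (z d : ℂ) : sp2 (N * z) d ≤ sp2 z d :=
  sp2_le.2 ⟨by simpa using int_mul_mem (left_mem_sp2 z d) N, right_mem_sp2 _ _⟩

theorem fw_mul {u v w : ℂ} (h : w ∈ sp2 u v) : N * w ∈ sp2 (N * u) v :=
  cmb_mul_sp2 (left_mem_sp2 _ _) (by simpa using int_mul_mem (right_mem_sp2 (N * u) v) N) w h

theorem fw_dl (h : Fw N z) {u : ℂ} (hu : u ∈ sp2 z 1) : dl N * u ∈ sp2 (N * z) 1 :=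
  h.eq ▸ mem_sc.2 ⟨u, hu, rfl⟩

theorem fw_l (h : 0 < z.im) (hl : l.Prime) {u : ℂ} (hu : u ∈ sp2 z 1) : l * u ∈ nb l 1 z i :=
  (nb_mid hl h.ne' i).1.le (mem_sc.2 ⟨u, hu, rfl⟩)

theorem fw_om (h : Fw N z) (hl : l.Prime) (hN : ¬ l ∣ N) (ha : a ≠ 0) : Om N l z i j ↔
    ∀ u ∈ sc a (nb l 1 z i ⊓ sp2 (N * z) 1), dl N * u ∈ sc a (nb l 1 z j ⊓ sp2 (N * z) 1) := by
  refine ⟨fun k u hu => ?_, fun k u hu => ?_⟩
  · obtain ⟨v, hv, rfl⟩ := mem_sc.1 hu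
    rw [mul_left_comm, mul_mem_sc ha]
    exact ⟨k v hv.1, fw_dl h (fw_le N z 1 hv.2)⟩
  · have m := cmd_nb_le z i hu
    have := k _ ((mul_mem_sc ha).2 ⟨int_mul_mem hu N, fw_mul m⟩)
    rw [mul_left_comm, mul_mem_sc ha, mul_left_comm] at this
    exact cmd_bez hl (mt Int.natCast_dvd_natCast.1 hN) (fw_l h.pos hl (fw_le N z 1 (fw_dl h m))) this.1

theorem fw_inf (hl : l.Prime) (hN : ¬ l ∣ N) (i : Option (Fin l)) :
    sc (den (rP l i) z) (sp2 (N * act (rP l i) z) 1) = nb l 1 z i ⊓ sp2 (N * z) 1 := by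
  have l0 : (l : ℂ) ≠ 0 := Nat.cast_ne_zero.2 hl.ne_zero
  obtain ⟨r, d, h1, h2, h3, h4⟩ : ∃ r d : ℂ, nb l 1 z i = sp2 r d ∧
      sc (den (rP l i) z) (sp2 (N * act (rP l i) z) 1) = sp2 (N * r) d ∧
      sp2 (N * r) d ≤ sp2 (N * z) 1 ∧ ∀ u ∈ sp2 (N * z) 1, l * u ∈ sp2 (N * r) d := by
    rcases i with _ | k
    · refine ⟨_, _, rfl, by simp [sc_sp2, den, act, mob, rP, ut], sp2_le.2 ⟨mem_sp2.2 ⟨l, 0, ?_⟩,
        right_mem_sp2 _ _⟩, cmb_mul_sp2 (mem_sp2.2 ⟨1, 0, ?_⟩) (mem_sp2.2 ⟨0, l, ?_⟩)⟩ <;>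
      · push_cast
        ring
    · refine ⟨_, _, rfl, ?_, sp2_le.2 ⟨mem_sp2.2 ⟨1, N * (k : ℕ), ?_⟩, mem_sp2.2 ⟨0, l, ?_⟩⟩,
        cmb_mul_sp2 (mem_sp2.2 ⟨l, -(N * (k : ℕ)), ?_⟩) (mem_sp2.2 ⟨0, 1, ?_⟩)⟩
      · simp [sc_sp2, den, act, mob, rP, ut, mul_left_comm (l : ℂ), mul_div_cancel₀ _ l0]
      all_goals
        push_cast
        ring
  rw [h1, h2]
  exact le_antisymm (le_inf (fw_le N r d) h3) fun u hu =>
    cmd_bez hl (mt Int.natCast_dvd_natCast.1 hN) (h4 u hu.2) (fw_mul hu.1)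

theorem fw_stmt : FWStmt := by
  intro N z hN h
  have ok : Ok N 2 := hN.ok two_ne_zero
  have d0 : dl N ≠ 0 := fun e => (dl_im (n := N) (by have := hN.gt; omega)).ne' (by rw [e]; rfl)
  have d2 := dl_sq N
  refine ⟨⟨h.pos, _, (jC_jQ ok _).trans ((jP_cl ok h.iv).trans (jL_tau h.pos))⟩,
    fun g σ z' h' hg e hc => ?_, fun l i hl hd ho => ?_⟩
  · obtain ⟨I, k⟩ := exists_cjS σ (h.iv.isLat ok)
    have s := e.dl hg
    obtain ⟨b, b0, rfl⟩ := (cl_eq_iff h'.iv (k.isIv ok (.inl s) h.iv)).1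
      (hc.symm.trans (cl_cj ok hg e h.iv k).symm)
    have a0 : b / dl N ≠ 0 := div_ne_zero b0 d0
    refine ⟨b / dl N, ⟨h.pos, h'.pos, a0, ?_, ?_⟩, fun l i j i' j' hl hd q q' => ?_⟩
    · rwa [← h'.eq, sc_sc, div_mul_cancel₀ _ d0]
    · have := k.sc d0
      rwa [h.eq, s, sc_sc, ← fw_neg, show -(dl N * b) = b / dl N * N by
        field_simp; linear_combination -d2] at this
    · rw [fw_om h' hl hd a0]
      refine ⟨fun o u hu => ?_, fun o u hu => ?_⟩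
      · have := CjS.mul_mem q q' o hu
        rwa [s] at this
      · have := CjS.mul_mem (CjS.symm q) (CjS.symm q') o hu
        rwa [(σ.symm_apply_eq.2 s.symm :)] at this
  · have lN : ¬ l ∣ N := fun k => hd (k.mul_left 2)
    have m := nb_mid (s := 1) hl h.pos.ne' i
    have st : St N 2 (nb l 1 z i) := fun u hu => by
      rw [show be N 2 (2 : ℕ) * u = u + dl N * u by rw [be]; push_cast; ring]
      exact add_mem hu (ho u hu)
    obtain ⟨t, ⟨k, ht⟩, -⟩ := st.exists_root ok hl h.iv m.1 m.2 (b := 0) (N := N) (by push_cast; ring)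
    have p := Nat.prime_iff_prime_int.1 hl
    obtain ⟨b, e, hb, eq⟩ : ∃ b : ℤ, b ^ 2 + N * (2 : ℕ) ^ 2 = 4 * l * k ∧ ¬ (l : ℤ) ∣ b ∧
        nb l 1 z i = idl N 2 l b * sp2 z 1 := by
      have e : (2 * t) ^ 2 + N * (2 : ℕ) ^ 2 = 4 * l * k := by push_cast; linear_combination 4 * ht
      have hb : ¬ (l : ℤ) ∣ 2 * t := fun c => (p.dvd_or_dvd c).elim
        (fun c => hd (Dvd.dvd.mul_right (by exact_mod_cast c) N)) fun ⟨c, hc⟩ =>
        lN (Int.natCast_dvd_natCast.1 ⟨k - c * t, by rw [hc] at ht ⊢; linear_combination ht⟩)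
      exact (st.eq_idl ok hl e hb h.iv m.1 m.2).elim (fun q => ⟨_, e, hb, q⟩)
        fun q => ⟨_, by rw [neg_sq, e], mt dvd_neg.1 hb, q⟩
    have dt : 0 < (rP l i).det := by rw [(isReps_rP hl).det i]; exact_mod_cast hl.pos
    have n0 := den_ne' dt.ne' h.pos
    have e1 := (sp2_act dt.ne' h.pos).trans (cmf_nb z i)
    have iv : IsIv (Oc N 2) (sp2 (act (rP l i) z) 1) := by
      rw [← sc_inv_sc n0 (sp2 _ _), e1, eq]
      exact (st_idl ok hl e hb h.iv).sc (inv_ne_zero n0)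
    refine ⟨⟨act_pos dt h.pos, ?_, iv⟩, b, k, e, ?_⟩
    · rw [← sc_inv_sc n0 (sp2 (N * _) _), fw_inf hl lN, ← sc_inv_sc n0 (sp2 (act _ _) _), e1,
        cmd_sc_comm]
      refine congrArg _ (le_antisymm (fun u hu => ?_) fun u hu => ?_)
      · obtain ⟨v, hv, rfl⟩ := mem_sc.1 hu
        exact ⟨ho v hv, fw_dl h (m.2.le hv)⟩
      · obtain ⟨v, hv, rfl⟩ := mem_sc.1 (h.eq ▸ hu.2 :)
        refine mem_sc.2 ⟨v, cmd_bez hl (mt Int.natCast_dvd_natCast.1 lN) (fw_l h.pos hl hv) ?_, rfl⟩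
        have := neg_mem (ho _ hu.1)
        rwa [show -(dl N * (dl N * v)) = (N : ℤ) * v by
          push_cast; linear_combination -v * d2] at this
    · rw [← cl_sc iv n0, e1, eq, cl_mul (isIv_idl ok.m4 e p.ne_zero (cmf_prim hl hb k)) h.iv]

end Pool.Agent.T10
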