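import Pool.Agent.Lib.MP_696deb_nt.B10.Z0
import Pool.Agent.Lib.MP_696deb_nt.B2.CMa

/-! The symmetry of the half Hecke operators at a fixed point of the involution of Fricke. -/

set_option autoImplicit false

open NumberTheorySymbols Finset Function Filter Topology
open scoped Classical

namespace Pool.Agent.T10
open Pool.Agent.Lib.MP_696deb_nt Pool.Agent.Lib.MP_696deb_nt.B2 Pool.Agent.Lib.MP_696deb_nt.B2.CM
  Pool.Agent.B4.GE Pool.Agent.Shared.Weier

variable {W : WeierstrassCurve ℚ} {N : ℕ} {M M' U γ : MZ} {z : ℂ}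

theorem fx_key (P : Par W N) (hM : 0 < M.det) (hU : U.det = N) (hγ : G0 N γ)
    (e : M' * U = γ * (!![0, -1; (N : ℤ), 0] * M)) {y : ℂ} (hy : 0 < y.im) :
    P.F (act M' (act U y)) + P.F (act M y) - P.t0 ∈ P.L.lattice := by
  have n : (0 : ℤ) < N := by exact_mod_cast Nat.pos_of_ne_zero P.N0
  have w : (!![0, -1; (N : ℤ), 0] : MZ).det = N := by simp [Matrix.det_fin_two]
  have p : 0 < (!![0, -1; (N : ℤ), 0] * M).det := by
    rw [Matrix.det_mul, w]
    exact mul_pos n hM
  have k := P.inv γ hγ _ (act_pos p hy)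
  have a : act !![0, -1; (N : ℤ), 0] (act M y) = -1 / (N * act M y) := by simp [act_of, mob]
  rw [← act_mul γ p.ne' hy, ← e, act_mul M' (hU ▸ n.ne') hy, act_mul _ hM.ne' hy, a,
    P.al _ (act_pos hM hy)] at k
  convert k using 1
  ring

theorem fx_der (P : Par W N) (hM : 0 < M.det) (hM' : 0 < M'.det) (hU : U.det = N) (hγ : G0 N γ)
    (e : M' * U = γ * (!![0, -1; (N : ℤ), 0] * M)) (hz : 0 < z.im) (u1 : act U z = z)
    (u2 : den U z = dl N) :
    deriv (fun y => P.F (act M' y)) z = deriv (fun y => P.F (act M y)) z := by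
  have n : (0 : ℤ) < N := by exact_mod_cast Nat.pos_of_ne_zero P.N0
  have n' : (N : ℂ) ≠ 0 := by exact_mod_cast P.N0
  have pU : 0 < U.det := hU ▸ n
  have hol : ∀ {A : MZ}, 0 < A.det → Hol fun y => P.F (act A y) := fun h y hy =>
    (P.qe.hol _ (act_pos h hy)).comp y (hol_act h.ne' y hy)
  have c : ContinuousOn (fun y => P.F (act M' (act U y)) + P.F (act M y) - P.t0)
      {y : ℂ | 0 < y.im} := fun y hy =>
    ((((hol hM' _ (act_pos pU hy)).comp y (hol_act pU.ne' y hy)).add (hol hM y hy)).sub_const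
      _).continuousAt.continuousWithinAt
  have k : (fun y => P.F (act M' (act U y)) + P.F (act M y) - P.t0) =ᶠ[𝓝 z]
      fun _ => P.F (act M' (act U z)) + P.F (act M z) - P.t0 := by
    filter_upwards [(isOpen_lt continuous_const Complex.continuous_im).mem_nhds hz] with y hy
    exact (convex_halfSpace_im_gt 0).isPreconnected.constant_of_mapsTo
      (T := (P.L.lattice : Set ℂ))
      (isDiscrete_iff_discreteTopology.2 (inferInstanceAs (DiscreteTopology P.L.lattice))) c
      (fun y hy => fx_key P hM hU hγ e hy) hy hz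
  have d : HasDerivAt (act U) (-1) z := by
    have := hasDerivAt_mob (a := U 0 0) (b := U 0 1) (c := U 1 0) (d := U 1 1)
      (by rw [← Matrix.det_fin_two]; exact pU.ne') hz
    rw [← Matrix.det_fin_two, hU, show (U 1 0 : ℂ) * z + U 1 1 = dl N from u2, dl_sq,
      Int.cast_natCast, div_neg, div_self n'] at this
    exact this
  have d1 : HasDerivAt (fun y => P.F (act M' y)) (deriv (fun y => P.F (act M' y)) z) (act U z) := by
    rw [u1]
    exact (hol hM' z hz).hasDerivAt
  have := ((((d1.comp z d).add (hol hM z hz).hasDerivAt).sub_const P.t0).congr_of_eventuallyEq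
    k.symm).unique (hasDerivAt_const z _)
  linear_combination -this

theorem fx_stmt (ml : MLStmt) (lv : LVStmt) (tr : TRStmt) (ho : OMStmt) : FXStmt := by
  intro W N P T z R hz hT hR
  obtain ⟨o1, U, hU, u1, u2, o2⟩ := ho N z hz P.N0
  have : ∀ l : ℕ, ∃ ω : Option (Fin l) → Option (Fin l), l ∈ T → Involutive ω ∧
      ∀ i i', Om N l z i i' ↔ i' = ω i := fun l => by
    by_cases h : l ∈ T
    · obtain ⟨ω, a, b, -⟩ := o1 l (hT.prime l h) (hT.inn l h)
      exact ⟨ω, fun _ => ⟨a, b⟩⟩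
    · exact ⟨id, fun k => absurd k h⟩
  choose ω hω using this
  have rp : ∀ R', RepF N T z R' → ∀ l ∈ T, ∀ i, R' l (ω l i) ↔ ¬ R' l i := fun R' h l hl i =>
    h l hl i _ (((hω l hl).2 i _).2 rfl)
  have o3 := o2 T ω hT.tp fun l hl i => ⟨((hω l hl).2 i _).2 rfl, (hω l hl).1 i⟩
  have pos : ∀ κ, 0 < (mK T κ).det := fun κ => (lv.2.2.2 N T κ hT.prime).2.2.1
  obtain ⟨t1, t2⟩ := tr W N P T z
  refine ⟨fun h => ?_, fun aj t0 ev => ?_⟩
  · by_contra od
    have := ((ml ℂ T P.a _ R).2.2 hT.even ((t2 hT.tp).2 hz.pos)).2 ω 1 (fun l hl => (hω l hl).1)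
      (fun κ hκ => by
        obtain ⟨γ, g, e⟩ := o3 κ hκ
        rw [one_smul]
        exact fx_der P (pos _) (pos _) hU g e hz.pos u1 u2) (rp R hR)
    have k := this.1
    rw [(Nat.not_even_iff_odd.1 od).neg_one_pow, one_mul, neg_one_zsmul] at k
    exact h (self_eq_neg.1 k)
  · have := ((ml _ T P.a _ R).2.2 hT.even ((t2 hT.tp).1 aj)).2 ω (-1) (fun l hl => (hω l hl).1)
      (fun κ hκ => by
        obtain ⟨γ, g, e⟩ := o3 κ hκ
        have k := fx_key P (pos κ) hU g e hz.pos
        rw [u1] at k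
        refine pmap_injective jC ?_
        rw [neg_one_zsmul, map_neg, (t1 aj _ (pos _)).2, (t1 aj _ (pos _)).2, Par.φ, Par.φ,
          eq_neg_iff_add_eq_zero, ← map_add, P.per.unif_eq_zero_iff]
        simpa using add_mem k t0) (rp R hR)
    rw [ev.neg_one_pow, mul_one, neg_one_zsmul] at this
    exact ⟨by rw [two_nsmul]; exact eq_neg_iff_add_eq_zero.1 this.1,
      fun R' h => this.2 R' rfl (rp R' h)⟩

end Pool.Agent.T10
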