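import Pool.Agent.Lib.MP_696deb_nt.B10.ZS

/-! One prime of the expansion in translates. -/

set_option autoImplicit false

open NumberTheorySymbols Finset Function Complex
open scoped Classical Real

namespace Pool.Agent.T10
open Pool.Agent.Lib.MP_696deb_nt Pool.Agent.B8

theorem ga_fin {l : ℕ} [NeZero l] (f : ZMod l → ℂ) :
    ∑ k : Fin l, f ((k : ℕ) : ZMod l) = ∑ a, f a := by
  refine Fintype.sum_bijective (fun k : Fin l => ((k : ℕ) : ZMod l)) ⟨fun i j h => ?_, fun a => ?_⟩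
    _ _ fun _ => rfl
  · have h1 := congrArg ZMod.val h
    rw [ZMod.val_cast_of_lt i.2, ZMod.val_cast_of_lt j.2] at h1
    exact Fin.ext h1
  · exact ⟨⟨a.val, ZMod.val_lt a⟩, ZMod.natCast_zmod_val a⟩

theorem ga_char {l : ℕ} [NeZero l] (m k : ℕ) :
    q1 (m * k / l) = ZMod.stdAddChar ((k : ZMod l) * (m : ZMod l)) := by
  have h := ZMod.stdAddChar_coe (N := l) ((k * m : ℕ) : ℤ)
  rw [Int.cast_natCast, Nat.cast_mul] at h
  rw [h, q1]
  congr 1
  push_cast
  ring

theorem ga_gauss {l : ℕ} (hl : l.Prime) (h4 : l % 4 = 1) : ∃ γ : ℂ, γ ^ 2 = l ∧ ∀ m : ℕ,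
    (∑ k : Fin l, (J((k : ℕ) | l) : ℂ) * q1 (m * (k : ℕ) / l) = J(m | l) * γ) ∧
    ∑ k : Fin l, q1 (m * (k : ℕ) / l) = if l ∣ m then (l : ℂ) else 0 := by
  have : Fact l.Prime := ⟨hl⟩
  have h2 : ringChar (ZMod l) ≠ 2 := by
    rw [ZMod.ringChar_zmod_n]
    omega
  set χ : MulChar (ZMod l) ℂ := (quadraticChar (ZMod l)).ringHomComp (Int.castRingHom ℂ) with hχ
  have hq : χ.IsQuadratic := (quadraticChar_isQuadratic _).comp _
  have h1 : χ ≠ 1 :=
    (MulChar.ringHomComp_ne_one_iff Int.cast_injective).2 (quadraticChar_ne_one h2)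
  have hp := ZMod.isPrimitive_stdAddChar l
  have hJ : ∀ k : ℕ, (J(k | l) : ℂ) = χ (k : ZMod l) := fun k => by
    rw [← jacobiSym.legendreSym.to_jacobiSym, legendreSym, Int.cast_natCast, hχ,
      MulChar.ringHomComp_apply, eq_intCast]
  refine ⟨gaussSum χ ZMod.stdAddChar, ?_, fun m => ⟨?_, ?_⟩⟩
  · rw [gaussSum_sq h1 hq hp, hχ, MulChar.ringHomComp_apply, quadraticChar_neg_one h2, ZMod.card,
      ZMod.χ₄_nat_one_mod_four h4, map_one, one_mul]
  · simp only [hJ, ga_char]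
    rw [ga_fin fun a => χ a * ZMod.stdAddChar (a * (m : ZMod l))]
    by_cases hm : (m : ZMod l) = 0
    · simp only [hm, mul_zero, AddChar.map_zero_eq_one, mul_one, MulChar.map_zero, zero_mul]
      exact MulChar.sum_eq_zero_of_ne_one h1
    · have h3 := gaussSum_mulShift_eq χ ZMod.stdAddChar (Units.mk0 _ hm)
      rw [hq.inv, Units.val_mk0] at h3
      rw [← h3, gaussSum]
      simp only [AddChar.mulShift_apply, mul_comm]
  · simp only [ga_char]
    rw [ga_fin fun a => ZMod.stdAddChar (a * (m : ZMod l)), AddChar.sum_mulShift _ hp, ZMod.card]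
    simp only [ZMod.natCast_eq_zero_iff, Nat.cast_ite, Nat.cast_zero]

theorem ga_half {l : ℕ} (hl : l.Prime) {m : ℕ} (hm : ¬ l ∣ m) :
    (if J(m | l) = 1 then (1 : ℂ) else 0) = (1 + (J(m | l) : ℂ)) / 2 := by
  have hc : Int.gcd m l = 1 := by
    rw [Int.gcd_natCast_natCast]
    exact ((Nat.Prime.coprime_iff_not_dvd hl).2 hm).symm
  rcases jacobiSym.eq_one_or_neg_one hc with h | h
  · rw [h, if_pos rfl]
    norm_num
  · rw [h, if_neg (by decide)]
    norm_num

theorem ga_coef {l : ℕ} (hl : l.Prime) (h4 : l % 4 = 1) : ∃ γ : ℂ, γ ^ 2 = l ∧ ∀ m : ℕ,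
    (Ps l m : ℂ) = (γ - 1) / 2 * (γ * if l ∣ m then 1 else 0) +
      ∑ k : Fin l, (if (k : ℕ) = 0 then (γ + 1) / 2 else if J((k : ℕ) | l) = 1 then 1 else 0) *
        (q1 (m * (k : ℕ) / l) / γ) := by
  obtain ⟨γ, hγ, h⟩ := ga_gauss hl h4
  refine ⟨γ, hγ, fun m => ?_⟩
  have h0 : γ ≠ 0 := by
    rintro rfl
    exact (Nat.cast_ne_zero.2 hl.ne_zero : (l : ℂ) ≠ 0) (by rw [← hγ]; simp)
  have hs : ∀ k : Fin l, (if (k : ℕ) = 0 then (γ + 1) / 2 else
      if J((k : ℕ) | l) = 1 then 1 else 0) * (q1 (m * (k : ℕ) / l) / γ) =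
      (if k = ⟨0, hl.pos⟩ then 1 / 2 else 0) + q1 (m * (k : ℕ) / l) / (2 * γ) +
        (J((k : ℕ) | l) : ℂ) * q1 (m * (k : ℕ) / l) / (2 * γ) := fun k => by
    by_cases hk : (k : ℕ) = 0
    · have e : q1 0 = 1 := by simp [q1]
      rw [if_pos hk, if_pos (Fin.ext hk), hk, Nat.cast_zero, Nat.cast_zero,
        jacobiSym.zero_left hl.one_lt, mul_zero, zero_div, e]
      push_cast
      field_simp
      ring
    · rw [if_neg hk, if_neg (fun e => hk (congrArg Fin.val e)),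
        ga_half hl (Nat.not_dvd_of_pos_of_lt (Nat.pos_of_ne_zero hk) k.2)]
      field_simp
      ring
  simp only [hs, sum_add_distrib, ← sum_div, (h m).1, (h m).2, sum_ite_eq', mem_univ, if_true]
  by_cases hm : l ∣ m
  · have e : J(m | l) = 0 := by
      rw [jacobiSym.mod_left, Int.emod_eq_zero_of_dvd (Int.natCast_dvd_natCast.2 hm),
        jacobiSym.zero_left hl.one_lt]
    have e2 : ((((l : ℤ) + 1) / 2 : ℤ) : ℂ) = (l + 1) / 2 := by
      have e3 : (l : ℤ) + 1 = 2 * (((l : ℤ) + 1) / 2) := by omega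
      have e4 := congrArg (Int.cast : ℤ → ℂ) e3
      push_cast at e4
      rw [e4]
      ring
    rw [Ps, if_pos hm, if_pos hm, if_pos hm, e, e2, ← hγ]
    push_cast
    field_simp
    ring
  · rw [Ps, if_neg hm, if_neg hm, if_neg hm]
    push_cast
    rw [ga_half hl hm]
    field_simp
    ring

theorem ga_stmt : GAStmt := by
  intro l hl h8
  obtain ⟨γ, hγ, h⟩ := ga_coef hl (by omega)
  refine ⟨γ, hγ, fun g z hg hr hz => ?_⟩
  have l0 : (l : ℂ) ≠ 0 := Nat.cast_ne_zero.2 hl.ne_zero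
  have lp : (0 : ℝ) < l := Nat.cast_pos.2 hl.pos
  have hA : HasSum (fun m : ℕ => (if l ∣ m then 1 else 0) * ((g m : ℂ) * q1 (m * (z / l) / 2)))
      (Th g (l * z)) := by
    have hi : Injective fun j : ℕ => l * (l * j) := fun i j e =>
      Nat.eq_of_mul_eq_mul_left hl.pos (Nat.eq_of_mul_eq_mul_left hl.pos e)
    rw [← hi.hasSum_iff]
    · have e : (fun m : ℕ => (if l ∣ m then 1 else 0) * ((g m : ℂ) * q1 (m * (z / l) / 2))) ∘
          (fun j : ℕ => l * (l * j)) = fun j : ℕ => (g j : ℂ) * q1 (j * (l * z) / 2) :=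
        funext fun j => by
          rw [comp_apply, if_pos (dvd_mul_right _ _), one_mul, hr, if_pos (dvd_mul_right _ _),
            Nat.mul_div_cancel_left _ hl.pos]
          congr 2
          push_cast
          field_simp
      rw [e]
      exact (hg (l * z) (by simpa using mul_pos lp hz)).hasSum
    · intro m hm
      split_ifs with k
      · obtain ⟨k, rfl⟩ := k
        rw [hr, if_neg, Int.cast_zero, zero_mul, mul_zero]
        rintro ⟨j, rfl⟩
        exact hm ⟨j, rfl⟩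
      · exact zero_mul _
  have hB : ∀ k : Fin l, HasSum (fun m : ℕ => q1 (m * (k : ℕ) / l) *
      ((g m : ℂ) * q1 (m * (z / l) / 2))) (Th g ((z + 2 * (k : ℕ)) / l)) := fun k => by
    have e : (fun m : ℕ => q1 (m * (k : ℕ) / l) * ((g m : ℂ) * q1 (m * (z / l) / 2))) =
        fun m : ℕ => (g m : ℂ) * q1 (m * ((z + 2 * (k : ℕ)) / l) / 2) := funext fun m => by
      rw [mul_left_comm, ← q1_add]
      congr 2
      field_simp
      ring
    rw [e]
    refine (hg _ ?_).hasSum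
    rw [Complex.div_natCast_im]
    simpa using div_pos hz lp
  have hC := ((hA.mul_left γ).mul_left ((γ - 1) / 2)).add (hasSum_sum (s := univ) fun k _ =>
    ((hB k).div_const γ).mul_left (if (k : ℕ) = 0 then (γ + 1) / 2 else
      if J((k : ℕ) | l) = 1 then 1 else 0))
  rw [← hC.tsum_eq, Th]
  refine tsum_congr fun m => ?_
  rw [Int.cast_mul, h m, mul_right_comm, mul_add, mul_sum]
  congr 1
  · ring
  · exact sum_congr rfl fun k _ => by ring

end Pool.Agent.T10
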