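import Pool.Agent.Lib.MP_696deb_nt.B10.ZS

/-! The expansion of the projected series in translates. -/

set_option autoImplicit false

open NumberTheorySymbols Finset Function Complex
open scoped Classical

namespace Pool.Agent.T10
open Pool.Agent.Lib.MP_696deb_nt Pool.Agent.B8 Pool.Agent.B4.GE

theorem gs_perm {p a d : ℕ} (hp : p.Prime) (ha : ¬ p ∣ a) (hd : ¬ p ∣ d) :
    ∃ π : Equiv.Perm (Fin p), ∀ j, (p : ℤ) ∣ (π j : ℕ) * d - a * (j : ℕ) := by
  have := Fact.mk hp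
  obtain ⟨n, rfl⟩ := Nat.exists_eq_add_one_of_ne_zero hp.ne_zero
  have a0 : (a : ZMod (n + 1)) ≠ 0 := mt (ZMod.natCast_eq_zero_iff _ _).1 ha
  have d0 : (d : ZMod (n + 1)) ≠ 0 := mt (ZMod.natCast_eq_zero_iff _ _).1 hd
  refine ⟨(Equiv.mulLeft₀ (a / d) (div_ne_zero a0 d0) : Equiv.Perm (ZMod (n + 1))), fun j =>
    (ZMod.intCast_zmod_eq_zero_iff_dvd _ _).1 ?_⟩
  have e : ∀ x : Fin (n + 1), ((x : ℕ) : ZMod (n + 1)) = x := ZMod.natCast_zmod_val (n := n + 1)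
  rw [Int.cast_sub, Int.cast_mul, Int.cast_mul, Int.cast_natCast, Int.cast_natCast,
    Int.cast_natCast, Int.cast_natCast, e, e]
  exact sub_eq_zero.2 ((mul_right_comm (a / d : ZMod (n + 1)) j d).trans
    (by rw [div_mul_cancel₀ _ d0]))

theorem gs_pm {p a : ℕ} (hp : p.Prime) (ha : ¬ p ∣ a) : J(a | p) = 1 ∨ J(a | p) = -1 :=
  jacobiSym.eq_one_or_neg_one (hp.coprime_iff_not_dvd.2 ha).symm

theorem gs_cc {p a d : ℕ} (hp : p.Prime) (ha : ¬ p ∣ a) (hd : ¬ p ∣ d) {j k : Fin p}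
    (h : (p : ℤ) ∣ (k : ℕ) * d - a * (j : ℕ)) (γ : ℕ → ℂ) {s s' : ℕ → ℤ}
    (e : s' p = s p * J((a * d : ℕ) | p)) :
    Cc γ s p (some (some k)) = Cc γ s' p (some (some j)) := by
  have z : ∀ x : Fin p, (x : ℕ) = 0 ↔ J((x : ℕ) | p) = 0 := fun x =>
    ⟨fun k => by rw [k]; exact jacobiSym.zero_left hp.one_lt, fun k => by
      by_contra c
      have := gs_pm hp (Nat.not_dvd_of_pos_of_lt (Nat.pos_of_ne_zero c) x.2)
      omega⟩
  have m := jacobiSym.mod_left' (Int.modEq_iff_dvd.2 h)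
  rw [jacobiSym.mul_left, jacobiSym.mul_left] at m
  rw [Nat.cast_mul, jacobiSym.mul_left] at e
  simp only [Cc, z, e]
  rcases gs_pm hp ha with u | u <;> rcases gs_pm hp hd with v | v <;> rw [u, v] at m ⊢ <;>
    exact if_congr (by omega) rfl (if_congr (by omega) rfl rfl)

theorem gs_step {p a t d : ℕ} (hp : p.Prime) (ha : ¬ p ∣ a) (hd : ¬ p ∣ d) (ht : p ∣ t) :
    ∃ π : Equiv.Perm (Option (Fin p)), (∀ j, ∃ B, rP p (π j) * ut a t d = B * rP p j) ∧
      ∀ (γ : ℕ → ℂ) (s s' : ℕ → ℤ), s' p = s p * J((a * d : ℕ) | p) → ∀ o : Option (Option (Fin p)),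
        Cc γ s p (o.map π) = Cc γ s' p o := by
  obtain ⟨π, hπ⟩ := gs_perm hp ha hd
  obtain ⟨t, rfl⟩ := ht
  refine ⟨π.optionCongr, ?_, ?_⟩
  · rintro (_ | j)
    · refine ⟨!![a, p * (p * t); 0, d], ?_⟩
      ext x y
      fin_cases x <;> fin_cases y <;> simp [rP, ut, mul_comm]
    · obtain ⟨b, hb⟩ := hπ j
      refine ⟨!![a, t + b; 0, d], ?_⟩
      ext x y
      fin_cases x <;> fin_cases y <;> simp [rP, ut, mul_comm]
      linear_combination hb
  · rintro γ s s' e (_ | _ | j)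
    exacts [rfl, rfl, gs_cc hp ha hd (hπ j) γ e]

theorem gs_om (T : Finset ℕ) (π : ∀ p, Equiv.Perm (Option (Fin p))) (f : Lb → ℂ) :
    ∑ κ ∈ LS T, f (om (π ·) κ) = ∑ κ ∈ LS T, f κ :=
  sum_equiv (Equiv.piCongrRight fun p => (π p).optionCongr)
    (fun κ => by simp [mem_LS]) fun _ _ => rfl

theorem gs_sl (M : MZ) {X : MZ} (hX : X.det ≠ 0) (F : ℂ → ℂ) {z : ℂ} (hz : 0 < z.im) :
    sl (M * X) F z = sl M F (act X z) * (X.det / den X z ^ 2) := by
  rw [sl, sl, act_mul M hX hz, den_mul M hX hz, Matrix.det_mul]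
  push_cast
  ring

theorem gs_sg {g : ℕ → ℤ} (h : Sg g) (T : Finset ℕ) : Sg fun m => g m * ∏ l ∈ T, Ps l m :=
  fun z hz => ((h z hz).norm.mul_right (∏ l ∈ T, (l + 1 : ℝ))).of_norm_bounded fun k => by
    rw [Int.cast_mul, mul_right_comm, norm_mul _ (Int.cast _), Int.cast_prod, norm_prod]
    refine mul_le_mul_of_nonneg_left (prod_le_prod (fun _ _ => norm_nonneg _) fun l _ => ?_)
      (norm_nonneg _)
    have : |Ps l k| ≤ l + 1 := by
      rw [Ps, abs_le]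
      split_ifs <;> omega
    rw [norm_intCast]
    exact_mod_cast this

theorem gs_ps {p l : ℕ} (hp : p.Prime) (h : ¬ p ∣ l) (j : ℕ) : Ps p (l * (l * j)) = Ps p j := by
  have e : J((l * (l * j) : ℕ) | p) = J(j | p) := by
    rw [Nat.cast_mul, Nat.cast_mul, jacobiSym.mul_left, jacobiSym.mul_left]
    rcases gs_pm hp h with u | u <;> simp [u]
  simp only [Ps, e, hp.dvd_mul, h, false_or]

theorem gs_th {g : ℕ → ℤ} (h : ∀ k, Even k → g k = 0) (y : ℂ) (n : ℤ) :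
    Th g (y + n) ^ 2 = Th g y ^ 2 := by
  have e : Th g (y + n) = q1 (n / 2) * Th g y := by
    rw [Th, Th, ← tsum_mul_left]
    refine tsum_congr fun k => ?_
    rcases k.even_or_odd with c | ⟨j, rfl⟩
    · simp [h k c]
    · rw [show ((2 * j + 1 : ℕ) : ℂ) * (y + n) / 2 =
        n / 2 + (2 * j + 1 : ℕ) * y / 2 + (j * n : ℤ) by push_cast; ring, q1_add, q1_add, q1_int]
      ring
  rw [e, mul_pow, sq (q1 _), ← q1_add, add_halves, q1_int, one_mul]

/-- Triangular matrices that belong to a label with full support. -/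
def GsM (T : Finset ℕ) (κ : Lb) (M : MZ) : Prop := M 1 0 = 0 ∧ M.det = (∏ l ∈ T, l : ℕ) ∧
  ∀ l ∈ T, ∀ i, κ l = some i → ∃ B : MZ, M = B * rP l i

theorem gs_one {l c : ℕ} (hl : l.Prime) (h2 : ¬ l ∣ 2 * c) {γ : ℕ → ℂ} (hγ : γ l ^ 2 = l) :
    ∃ (a t d : Option (Fin l) → ℕ) (w : Option (Fin l) → ℂ), (∀ i, a i * d i = l ∧ c ∣ t i ∧
      (∃ B, ut (a i) (t i) (d i) = B * rP l i) ∧ w i ^ 2 = l / d i ^ 2) ∧
      ∀ (s : ℕ → ℤ) (G : ℂ → ℂ) (z : ℂ), c ≠ 0 → s l = J((2 * c : ℕ) | l) →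
        (γ l - 1) / 2 * (γ l * G (l * (z / c))) + ∑ k : Fin l, (if (k : ℕ) = 0 then (γ l + 1) / 2
          else if J((k : ℕ) | l) = 1 then 1 else 0) * (G ((z / c + 2 * (k : ℕ)) / l) / γ l) =
        ∑ i, Cc γ s l (some i) * (w i * G (act (ut (a i) (t i) (d i)) z / c)) := by
  obtain ⟨τ, hτ⟩ := gs_perm hl hl.not_dvd_one h2
  have l0 : (l : ℂ) ≠ 0 := Nat.cast_ne_zero.2 hl.ne_zero
  refine ⟨fun i => i.elim l fun _ => 1, fun i => i.elim 0 fun k => τ k * (2 * c),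
    fun i => i.elim 1 fun _ => l, fun i => i.elim (γ l) fun _ => (γ l)⁻¹, ?_,
    fun s G z c0 e => ?_⟩
  · rintro (_ | k)
    · exact ⟨mul_one _, dvd_zero _, ⟨1, (one_mul _).symm⟩, by simpa using hγ⟩
    · obtain ⟨b, hb⟩ := hτ k
      refine ⟨one_mul _, (dvd_mul_left _ _).mul_left _, ⟨!![1, b; 0, 1], ?_⟩, ?_⟩
      · ext x y
        fin_cases x <;> fin_cases y <;> simp [rP, ut]
        push_cast at hb
        linear_combination hb
      · dsimp only [Option.elim]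
        rw [inv_pow, hγ]
        field_simp
  · have c1 : (c : ℂ) ≠ 0 := Nat.cast_ne_zero.2 c0
    rw [Fintype.sum_option, ← Equiv.sum_comp τ]
    congr 1
    · simp [Cc, ut, act_of, mob, mul_div_assoc]
    refine sum_congr rfl fun k _ => ?_
    rw [← gs_cc (s := fun _ => 1) hl hl.not_dvd_one h2 (hτ k) γ (by rw [e, one_mul, one_mul]),
      div_eq_inv_mul _ (γ l)]
    congr 3
    simp only [Option.elim, ut, act_of, mob]
    push_cast
    rw [zero_mul, zero_add]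
    field_simp

theorem gs_ind (ga : GAStmt) {g : ℕ → ℤ} (hg : Sg g) : ∃ γ : ℕ → ℂ, ∀ T : Finset ℕ,
    (∀ l ∈ T, l.Prime ∧ l % 8 = 1) → (∀ l ∈ T, ∀ k, g (l * k) = if l ∣ k then g (k / l) else 0) →
    ∃ s : ℕ → ℤ, (∀ l ∈ T, γ l ^ 2 = l ∧ (s l = 1 ∨ s l = -1)) ∧ ∀ z : ℂ, 0 < z.im →
      ∃ u : Lb → ℂ, (∀ κ ∈ LS T, (∀ l ∈ T, κ l ≠ none) → ∃ M, GsM T κ M ∧
        u κ ^ 2 = sl M (fun y => Th g y ^ 2) z) ∧
      Th (fun m => g m * ∏ l ∈ T, Ps l m) (z / (∏ l ∈ T, l : ℕ)) =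
        ∑ κ ∈ LS T, (∏ l ∈ T, Cc γ s l (κ l)) * u κ := by
  choose! γ g1 g2 using ga
  refine ⟨γ, fun T => ?_⟩
  induction T using Finset.induction_on with
  | empty =>
    exact fun _ _ => ⟨0, by simp, fun z _ => ⟨fun _ => Th g z, fun _ _ _ =>
      ⟨1, ⟨rfl, by simp, by simp⟩, by simp [sl, act_one, den_one]⟩, by simp [LS_empty]⟩⟩
  | insert l T hl ih =>
    intro hT hr
    rw [forall_mem_insert] at hT hr
    obtain ⟨s, s1, s2⟩ := ih hT.2 hr.2
    obtain ⟨⟨lp, l8⟩, hT⟩ := hT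
    have nd : ∀ p ∈ T, ¬ p ∣ l := fun p hp e =>
      hl ((Nat.prime_dvd_prime_iff_eq (hT p hp).1 lp).1 e ▸ hp)
    have c0 : ∏ p ∈ T, p ≠ 0 := prod_ne_zero_iff.2 fun p hp => (hT p hp).1.ne_zero
    have h2 : ¬ l ∣ 2 * ∏ p ∈ T, p := fun e => (lp.dvd_mul.1 e).elim
      (fun e => by have := Nat.le_of_dvd two_pos e; have := lp.one_lt; omega) fun e => by
        obtain ⟨p, hp, k⟩ := (Prime.dvd_finsetProd_iff lp.prime _).1 e
        exact hl ((Nat.prime_dvd_prime_iff_eq lp (hT p hp).1).1 k ▸ hp)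
    obtain ⟨a, t, d, w, x1, x2⟩ := gs_one lp h2 (g1 l lp l8)
    have ne : ∀ p ∈ T, p ≠ l := fun p hp e => hl (e ▸ hp)
    have st := fun i p (hp : p ∈ T) => gs_step (hT p hp).1
      (fun e => nd p hp ((x1 i).1 ▸ e.mul_right (d i))) (fun e => nd p hp ((x1 i).1 ▸ e.mul_left (a i)))
      ((dvd_prod_of_mem _ hp).trans (x1 i).2.1)
    choose! π p1 p2 using st
    have dx : ∀ i, (ut (a i) (t i) (d i)).det = l := fun i => by
      rw [det_ut, ← Nat.cast_mul, (x1 i).1]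
    have d0 : ∀ i, 0 < (ut (a i) (t i) (d i)).det := fun i => dx i ▸ Int.natCast_pos.2 lp.pos
    refine ⟨update (fun p => s p * J(l | p)) l J((2 * ∏ p ∈ T, p : ℕ) | l),
      (forall_mem_insert _ _ _).2 ⟨⟨g1 l lp l8, by rw [update_self]; exact gs_pm lp h2⟩,
        fun p hp => ⟨(s1 p hp).1, ?_⟩⟩, fun z hz => ?_⟩
    · rw [update_of_ne (ne p hp)]
      rcases (s1 p hp).2 with u | u <;> rcases gs_pm (hT p hp).1 (nd p hp) with v | v <;>
        simp [u, v]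
    choose U u1 u2 using fun i => s2 _ (act_pos (d0 i) hz)
    refine ⟨fun κ => (κ l).elim 0 fun i => w i * U i (om (π i ·) (update κ l none)),
      fun κ hκ hf => ?_, ?_⟩
    · rw [forall_mem_insert] at hf
      obtain ⟨i, hi⟩ := Option.ne_none_iff_exists'.1 hf.1
      obtain ⟨M, ⟨m1, m2, m3⟩, m4⟩ := u1 i (om (π i ·) (update κ l none))
        (om_mem _ (mem_LS.2 fun p hp => by
          by_cases e : p = l
          · subst e
            exact update_self ..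
          · exact (update_of_ne e ..).trans (mem_LS.1 hκ p (by simp [e, hp]))))
        fun p hp => by simpa [om, update_of_ne (ne p hp)] using hf.2 p hp
      refine ⟨M * ut (a i) (t i) (d i), ⟨by simp [Matrix.mul_apply, m1, ut], ?_,
        (forall_mem_insert _ _ _).2 ⟨fun j hj => ?_, fun p hp j hj => ?_⟩⟩, ?_⟩
      · rw [Matrix.det_mul, m2, dx, prod_insert hl, Nat.cast_mul, mul_comm]
      · obtain rfl : i = j := Option.some.inj (hi.symm.trans hj)
        obtain ⟨B, hB⟩ := (x1 i).2.2.1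
        exact ⟨M * B, by rw [hB, mul_assoc]⟩
      · obtain ⟨B, rfl⟩ := m3 p hp (π i p j) (by rw [om, update_of_ne (ne p hp), hj]; rfl)
        obtain ⟨C, hC⟩ := p1 i p hp j
        exact ⟨B * C, by rw [mul_assoc, hC, mul_assoc]⟩
      · beta_reduce
        rw [gs_sl M (d0 i).ne' _ hz, ← m4, dx, hi, Option.elim_some, mul_pow, (x1 i).2.2.2,
          mul_comm]
        simp [den, ut]
    have c1 : (0 : ℝ) < (∏ p ∈ T, p : ℕ) := Nat.cast_pos.2 (Nat.pos_of_ne_zero c0)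
    have k := g2 l lp l8 _ (z / (∏ p ∈ T, p : ℕ)) (gs_sg hg T) (fun k => by
      rw [hr.1]
      split_ifs with e
      · obtain ⟨j, rfl⟩ := e
        rw [Nat.mul_div_cancel_left _ lp.pos, prod_congr rfl fun p hp => gs_ps (hT p hp).1 (nd p hp) j]
      · exact zero_mul _) (by rw [div_natCast_im]; exact div_pos hz c1)
    simp only [prod_insert hl]
    rw [Nat.cast_mul, mul_comm (l : ℂ), ← div_div, sum_LS_insert hl, Fintype.sum_option]
    simp only [mul_comm (Ps l _), ← mul_assoc (g _), update_self, update_idem]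
    rw [k, x2 (update (fun p => s p * J(l | p)) l J((2 * ∏ p ∈ T, p : ℕ) | l)) _ z c0
      (update_self ..)]
    simp only [Option.elim, mul_zero, sum_const_zero, zero_add]
    refine sum_congr rfl fun i _ => ?_
    rw [u2, ← gs_om T (π i), mul_sum, mul_sum]
    refine sum_congr rfl fun κ hκ => ?_
    rw [(update_eq_self_iff (f := κ)).2 (mem_LS.1 hκ l hl).symm, mul_assoc, mul_left_comm (w i),
      prod_congr rfl fun p hp => (congrArg _ (update_of_ne (ne p hp) _ κ)).trans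
        (p2 i p hp γ s _ (by rw [update_of_ne (ne p hp), (x1 i).1]) (κ p)).symm]
    rfl

theorem gs_stmt (ga : GAStmt) (lv : LVStmt) : GSStmt := by
  intro T g hT hg he hr
  obtain ⟨γ, H⟩ := gs_ind ga hg
  obtain ⟨s, s1, s2⟩ := H T hT hr
  refine ⟨γ, s, s1, fun z hz => ?_⟩
  obtain ⟨u, u1, u2⟩ := s2 z hz
  choose r hr using fun κ => IsAlgClosed.exists_pow_nat_eq
    (sl (mK T κ) (fun y => Th g y ^ 2) z) two_pos
  refine ⟨fun κ => if ∀ l ∈ T, κ l ≠ none then u κ else r κ, fun κ hκ => ?_,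
    u2.trans (sum_congr rfl fun κ _ => ?_)⟩ <;> beta_reduce
  · split_ifs with e
    swap
    · exact hr κ
    obtain ⟨M, ⟨m1, m2, m3⟩, m4⟩ := u1 κ hκ e
    obtain ⟨-, k1, k2, -, -, k3, -⟩ := lv.2.2.2 1 T κ fun l hl => (hT l hl).1
    obtain ⟨δ, ⟨d1, -⟩, rfl⟩ := k3 (fun l hl => ⟨(hT l hl).1, (hT l hl).1.not_dvd_one⟩) M
      ⟨m2.trans (congrArg _ (prod_congr rfl fun l hl => (if_neg (e l hl)).symm)), one_dvd _, m3⟩
    have d2 : δ 1 0 = 0 := by
      rw [Matrix.det_fin_two, k1, mul_zero, sub_zero] at k2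
      simpa [Matrix.mul_apply, k1, left_ne_zero_of_mul k2.ne'] using m1
    rw [Matrix.det_fin_two, d2, mul_zero, sub_zero] at d1
    rw [m4, gs_sl δ k2.ne' _ hz, sl, sl, mul_div_assoc _ ((mK T κ).det : ℂ), ← gs_th he
      (act (mK T κ) z) (δ 0 1 * δ 1 1), Matrix.det_fin_two δ, act, den, mob, d2]
    rcases Int.eq_one_or_neg_one_of_mul_eq_one' d1 with c | c <;>
      simp [c.1, c.2, div_neg, add_comm]
  · split_ifs with e
    · rfl
    · push Not at e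
      obtain ⟨l, hl, k⟩ := e
      rw [prod_eq_zero hl (by rw [k]; rfl), zero_mul, zero_mul]

end Pool.Agent.T10
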