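import Pool.Agent.Lib.MP_696deb_nt.B10.ZK

/-! The conjugate of the sum, and the transfer at one point. -/

set_option autoImplicit false

open NumberTheorySymbols Finset Function
open scoped Classical NNReal

namespace Pool.Agent.T10
open Pool.Agent.Lib.MP_696deb_nt Pool.Agent.Lib.MP_696deb_nt.B2 Pool.Agent.Lib.MP_696deb_nt.B2.CM
  Pool.Agent.B6 Pool.Agent.B8 Pool.Agent.B4.GE Pool.Agent.Shared.Weier

theorem gt_alg (tr : TRStmt) {W : WeierstrassCurve ℚ} {N : ℕ} (P : Par W N) {y : ℂ} (h : Aj y) :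
    pmap jC (ptQ P y) = P.φ y := by
  simpa [act_one] using ((tr W N P ∅ y).1 h 1 (by simp)).2

theorem gt_aj (tr : TRStmt) {W : WeierstrassCurve ℚ} {N : ℕ} (P : Par W N) {g : Gam}
    {σ : ℂ ≃+* ℂ} (hg : Ex g σ) {y y' : ℂ} (h : Aj y) (h' : 0 < y'.im)
    (e : σ (jN N y) = jf y') : Aj y' := by
  have n : 0 < N := Nat.pos_of_ne_zero P.N0
  obtain ⟨x, hx⟩ := ((tr W N P ∅ y).1 h (ut N 0 1) (by simpa [det_ut] using n)).1.alg
  have a : act (ut N 0 1) y = N * y := by simp [ut, act_of, mob]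
  exact ⟨h', g x, by rw [← hg, hx, a, ← e, jN]⟩

theorem gt_stmt (ml : MLStmt) (lv : LVStmt) (tr : TRStmt) (cp : CPStmt) (ph : PHStmt) :
    GTStmt := by
  intro _ N P T g σ a z z' ht hg hT hW hz hS
  obtain ⟨π, h1, h2⟩ := cp σ N a z z' P.N0 hW
  refine ⟨π, fun l hl => h1 l (hT l hl).1 (hT l hl).2, fun R => ?_⟩
  have pos : ∀ κ, 0 < (mK T κ).det := fun κ => (lv.2.2.2 0 T κ fun l hl => (hT l hl).1).2.2.1
  have key : ∀ κ ∈ LS T, g • ptQ P (act (mK T κ) z) =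
      -ptQ P (act (mK T (om (π ·) κ)) z') := fun κ hκ => by
    have k1 := (tr Wu N P T z).1 hz _ (pos κ)
    have k2 := act_pos (pos (om (π ·) κ)) hW.pos'
    have k3 := gt_aj tr P hg k1.1 k2 (h2 T hT κ hκ).2
    refine pmap_injective jC ?_
    rw [map_neg, gt_alg tr P k3, ← ph Wu N P σ _ _ k1.1.pos k2 (h2 T hT κ hκ).1 (h2 T hT κ hκ).2
      (hS _ (om_mem _ hκ)) ht, ← k1.2, pmap_pmap, B6.smul_pt, pmap_pmap]
    congr 2
    exact RingHom.ext fun x => (hg x).symm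
  rw [Dz, Dz, ← (ml _ T P.a (fun κ => ptQ P (act (mK T κ) z')) R).1 π, ms, ms, smul_sum,
    ← sum_neg_distrib]
  refine sum_congr rfl fun κ hκ => ?_
  rw [smul_comm, key κ hκ, smul_neg]

theorem tb_mt (cl : CLStmt) {V : Valuation ℂ ℝ≥0} {L L' : ℕ} {z z' : ℂ} (h0 : L' ≠ 0) (h : L ∣ L')
    (hM : Mt V L' z z') : Mt V L z z' := by
  simpa [act_one] using (cl V).2.1 L L' z z' 1 h0 (by simp)
    (by simpa using Int.natCast_dvd_natCast.2 h) hM

theorem tb_stmt (lf : LFStmt) (nr : NRStmt) (tm : TMStmt) (om : OMStmt) (cl : CLStmt)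
    (lv : LVStmt) (tr : TRStmt) (fw : FWStmt) : TBStmt := by
  intro _ P
  obtain ⟨M₁, n1, h1⟩ := lf NN nk
  obtain ⟨M₂, n2, h2⟩ := nr NN P
  refine ⟨M₁ * (M₂ * (6 * NN)), mul_ne_zero n1 (mul_ne_zero n2 (mul_ne_zero (by decide) P.N0)),
    fun w V g σ a z z' T R hV hw hg hσ hT hwT hW hz hM hF hR => ⟨fun l hl i i' ho => ?_, ?_⟩⟩
  all_goals
    simp only [w.prime.dvd_mul, not_or] at hw
    have L0 : 2 * NN * ∏ l ∈ T, l ≠ 0 := mul_ne_zero (mul_ne_zero two_ne_zero P.N0)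
      (prod_ne_zero_iff.2 fun l hl => (hT.prime l hl).ne_zero)
  · obtain ⟨i'', k1, k2⟩ := hR l hl i
    have k3 := (h1 w V hV hw.1).1 z' hF
    have k4 := tm NN l w V g σ a z z' i i'' hV hg hσ (hT.prime l hl)
      (fun e => by have := hT.m8 l hl; omega) (hT.tp l hl).2
      (by
        simp only [w.prime.dvd_mul, not_or]
        exact ⟨⟨hw.2.2.1, fun e =>
          hwT (((Nat.prime_dvd_prime_iff_eq w.prime (hT.prime l hl)).1 e) ▸ hl)⟩, hw.2.2.2⟩)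
      hW k1 hz (tb_mt cl L0 (by
        rw [mul_right_comm]
        exact mul_dvd_mul_left _ (dvd_prod_of_mem _ hl)) hM) hF k3.1 k3.2
    obtain ⟨ω, -, k5, -⟩ := (om NN z' hF P.N0).1 l (hT.prime l hl) (hT.inn l hl)
    rwa [(k5 i i').1 ho, ← (k5 i i'').1 k4]
  · rw [Dz, Dz, ms, ms, ← sum_sub_distrib]
    refine sum_mem fun κ _ => ?_
    rw [← smul_sub]
    obtain ⟨k1, -, k2, k3, -⟩ := lv.2.2.2 0 T κ hT.prime
    refine zsmul_mem (h2 w V _ _ _ _ hV hw.2.1 ((cl V).2.1 NN _ z z' _ L0 k2 ?_ hM)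
      ((tr Wu NN P T z).1 hz _ k2).2 ((tr Wu NN P T z').1 (fw NN z' nk hF).1 _ k2).2) _
    rw [k1.det]
    exact_mod_cast mul_dvd_mul (dvd_mul_left NN 2) k3

end Pool.Agent.T10
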