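import Pool.Agent.Lib.MP_696deb_nt.B10.ZK
import Pool.Agent.Lib.MP_696deb_nt.B5.GAa
import Pool.Agent.Lib.MP_696deb_nt.B6.SEd
import Pool.Agent.Lib.MP_696deb_nt.B8.OV
import Pool.Agent.Lib.MP_696deb_nt.B2.B2c

/-! The action of a reflection on the points, and the sum at the two fixed classes. -/

set_option autoImplicit false

open NumberTheorySymbols Finset Function
open scoped Classical NNReal

namespace Pool.Agent.T10
open Pool.Agent.Lib.MP_696deb_nt Pool.Agent.Lib.MP_696deb_nt.B2 Pool.Agent.Lib.MP_696deb_nt.B2.CM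
  Pool.Agent.B6 Pool.Agent.B8 Pool.Agent.B4.GE Pool.Agent.Shared.Weier
open Pool.Agent.B6.SE (uu val_uu)
open Pool.Agent.B4 (OkN HgN nn ok_neg exists_form)

section
variable {N n : ℕ} {r : ℤ} {z : ℂ} {w : Plc} {V : Valuation ℂ ℝ≥0}

theorem kg_aj (ok : OkN N n 1 r) (h : HgN N n 1 r z) : Aj z :=
  ⟨h.pos, _, (jC_jQ ok.toOk _).trans (h.jP ok).1⟩

theorem kg_cm (ok : OkN N n 1 r) (h : HgN N n 1 r z) : G5.CM n z := by
  obtain ⟨Q, h1, h2, h3, h4⟩ := exists_form ok.toOk (cl _ (sp2 z 1))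
  have h5 := im_froot_pos (h1 ▸ ok_neg ok.toOk) h2
  have h6 : jf z = jf (froot Q) := by
    rw [← (h.jP ok).1, ← h4, jP_cl ok.toOk h3, jL_tau h5]
  obtain ⟨g, hg, rfl⟩ := G5.exists_sl h5 h.pos h6
  exact G5.AD.cm_act (by have := ok.gt; omega) ⟨Q, 1, one_ne_zero, h2, h1, rfl⟩ (hg ▸ one_pos)

theorem kg_jac {l : ℕ} (h8 : l % 8 = 1) (h : J(-N | l) = -1) : J(N | l) = -1 := by
  rwa [jacobiSym.neg _ (Nat.odd_iff.2 (by omega)), ZMod.χ₄_nat_one_mod_four (by omega),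
    one_mul] at h

theorem tc_int (hV : Ov V w) (ok : OkN N n 1 r) (h : HgN N n 1 r z) : V (jf z) ≤ 1 := by
  rw [← (h.jP ok).1, ← jC_jQ ok.toOk, hV]
  exact V_jQ ok.toOk w _

theorem tc_over (hV : Ov V w) : Over V.valuationSubring w := fun x => by
  rw [← hV, V.isEquiv_valuation_valuationSubring.le_one_iff_le_one,
    V.isEquiv_valuation_valuationSubring.lt_one_iff_lt_one]
  exact ⟨Iff.rfl, Iff.rfl⟩

end

theorem kg_stmt (ml : MLStmt) (lv : LVStmt) (tr : TRStmt) (gt : GTStmt) (kt : KTStmt) :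
    KGStmt := by
  intro _ P n r b T g σ z z' t0 ok sq h8 big tk ev ts h h' e hg hc hx
  obtain ⟨a, wp, k1, -⟩ := kt NN n r g σ z z' ok sq NN_odd h h' e hg hx
  obtain ⟨π, p1, p2⟩ := gt NN P T g σ a z z' t0 e tk.tp wp (kg_aj ok h) fun κ _ =>
    (G5.AD.cm_act (by omega) (kg_cm ok h') (lv.2.2.2 NN T κ tk.prime).2.2.1).sep NN_ne sq big
  have k2 : ∀ l ∈ T, ∀ i, RK n b z' l (π l i) ↔ ¬ RK n b z l i := fun l hl i =>
    k1 b T ts l hl (kg_jac (tk.m8 l hl) (tk.inn l hl)) (hc l hl) i _ ((p1 l hl i _).2 rfl)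
  refine ⟨kg_aj ok h, ?_, a, wp, fun l hl i => ⟨π l i, (p1 l hl i _).2 rfl, k2 l hl i⟩⟩
  rw [p2, neg_inj]
  refine ((ml _ T P.a _ fun l i => ¬ RK n b z' l i).2.1 _ fun l hl i => ?_).trans ?_
  · rw [← (π l).apply_symm_apply i, k2 l hl, not_not, Equiv.symm_apply_apply]
  · rw [((ml _ T P.a _ (RK n b z')).2.2 tk.even (((tr _ _ P T z').2 tk.tp).1 (kg_aj ok h'))).1,
      ev.neg_one_pow, one_smul, Dz]

theorem tc_stmt (kg : KGStmt) (kt : KTStmt) (lf : LFStmt) (tm : TMStmt) (tb : TBStmt)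
    (cl : CLStmt) : TCStmt := by
  intro _ P t0
  obtain ⟨M1, m1, lf⟩ := lf NN nk
  obtain ⟨M2, m2, tb⟩ := tb P
  refine ⟨M1 * M2 * (6 * NN), mul_ne_zero (mul_ne_zero m1 m2) (mul_ne_zero (by decide) NN_ne), ?_⟩
  intro n l r b T w g z i hw ok sq h8 big hl ln wl tk ev ts wT fs hi hg h hn h' hx k
  have w1 : ¬ w.p ∣ M1 := fun e => hw ((e.mul_right _).mul_right _)
  have w2 : ¬ w.p ∣ M2 := fun e => hw ((e.mul_left _).mul_right _)
  have w3 : ¬ w.p ∣ 6 * NN := fun e => hw (e.mul_left _)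
  have w4 : w.p ≠ 2 := fun e => w3 (e ▸ (by decide : 2 ∣ 6).mul_right _)
  obtain ⟨σ, e⟩ := exists_ex g
  obtain ⟨V, hV⟩ := ov_stmt w
  have hc : ∀ p ∈ T, chi p g = 1 := fun p hp => chi_ine (fun d => by
    rcases (Nat.Prime.dvd_mul w.prime).1 (show w.p ∣ 2 * p by exact_mod_cast d) with d | d
    · exact w4 ((Nat.prime_dvd_prime_iff_eq w.prime Nat.prime_two).1 d)
    · exact wT ((Nat.prime_dvd_prime_iff_eq w.prime (tk.prime p hp)).1 d ▸ hp)) hi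
  have L0 : 2 * NN * (∏ p ∈ T, p) * l ≠ 0 := mul_ne_zero (mul_ne_zero (mul_ne_zero two_ne_zero
    NN_ne) (prod_ne_zero_iff.2 fun p hp => (tk.prime p hp).ne_zero)) hl.ne_zero
  obtain ⟨l1, l2⟩ := lf w V hV w1
  obtain ⟨y, fy, mt⟩ := l2 z _ (kg_aj ok h) (tc_int hV ok h) (fun t =>
    V.isEquiv_valuation_valuationSubring.lt_one_iff_lt_one.2
      (val_uu (tc_over hV) ok h8 NN_odd h hi hg (hx z (.inl rfl)) t)) L0
    ((dvd_mul_right _ _).mul_right _)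
  have lo : ∀ L : ℕ, L ∣ 2 * NN * (∏ p ∈ T, p) * l → Mt V L z y := fun L d => by
    simpa only [act_one] using (cl V).2.1 L _ z y 1 L0 (by simp) (by
      rw [Matrix.det_one, mul_one]; exact_mod_cast d) mt
  have mt' := (cl V).2.1 (2 * NN * ∏ p ∈ T, p) _ z y (rP l i) L0 (rP_pos hl i) (by
    rw [(isReps_rP hl).det i]; exact_mod_cast dvd_rfl) mt
  obtain ⟨a, wp, -, k1⟩ := kt NN n r g σ z z ok sq NN_odd h h e hg (hx z (.inl rfl))
  obtain ⟨fy', fs⟩ := fs y i fy (tm NN l w V g σ a z y i i hV hi e hl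
    (by rintro rfl; omega) (fun d => hl.one_lt.ne' (Nat.eq_one_of_dvd_coprimes ok.cop
      (ln.mul_right _) d)) (fun d => by
        rw [mul_right_comm, Nat.Prime.dvd_mul w.prime] at d
        exact d.elim w3 fun d => wl ((Nat.prime_dvd_prime_iff_eq w.prime hl).1 d))
    wp (k1 l i i hl ln hn hn) (kg_aj ok h) (lo _ ⟨∏ p ∈ T, p, by ring⟩) fy (l1 y fy).1 (l1 y fy).2)
  obtain ⟨j1, -, a1, u1, v1⟩ := kg P n r b T g σ z z t0 ok sq h8 big tk ev ts h h e hg hc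
    (hx z (.inl rfl))
  obtain ⟨j2, -, a2, u2, v2⟩ := kg P n r b T g σ _ _ t0 ok sq h8 big tk ev ts h' h' e hg hc
    (hx _ (.inr rfl))
  obtain ⟨r1, d1⟩ := tb w V g σ a1 z y T _ hV w2 hi e tk wT u1 j1 (lo _ (dvd_mul_right _ _)) fy v1
  obtain ⟨r2, d2⟩ := tb w V g σ a2 _ _ T _ hV w2 hi e tk wT u2 j2 mt' fy' v2
  obtain ⟨s1, s2⟩ := fs _ _ r1 r2
  refine s2 (B6.K1_tors w4 (m := 1) ?_ (by rwa [pow_one]))
  have := sub_mem k (add_mem d1 d2)
  rwa [sub_add_sub_comm, sub_sub_cancel] at this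

end Pool.Agent.T10
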