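import Pool.Agent.Lib.MP_696deb_nt.B10.ZK

/-! Reflections act on the neighbours of Heegner points. -/

set_option autoImplicit false

open NumberTheorySymbols
open scoped Classical

namespace Pool.Agent.T10
open Pool.Agent.Lib.MP_696deb_nt Pool.Agent.Lib.MP_696deb_nt.B2 Pool.Agent.Lib.MP_696deb_nt.B2.CM
  Pool.Agent.B4.GE
open Pool.Agent.Lib.MP_696deb_nt.B3.CM (th St Gd kc_odd mid_idl st_idl st_of_isIv isIv_of_not_st)
open Pool.Agent.B4 (OkN HgN nn im_mul_pos)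

variable {N n l : ℕ} {r b k : ℤ} {g : Gam} {σ : ℂ ≃+* ℂ} {a z z' : ℂ} {A A' B B' M : Lt}

/-- The intersection with the multiple by the ideal of norm `N`. -/
theorem kt_inf (ok : OkN N n 1 r) (hl : l.Prime) (hN : ¬ l ∣ N) (hA : IsIv (Oc n 1) A)
    (h1 : sc l A ≤ B) (h2 : B ≤ A) :
    B ⊓ idl n 1 N (r * (1 : ℕ)) * A = idl n (1 * l) N (r * (1 : ℕ) * l) * B := by
  have l0 : (l : ℂ) ≠ 0 := Nat.cast_ne_zero.2 hl.ne_zero
  have hN' : ¬ (l : ℤ) ∣ N := by exact_mod_cast hN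
  obtain ⟨k, hk⟩ := ok.eq
  have hb : be n 1 (r * (1 : ℕ)) ∈ Oc n 1 :=
    be_mem ok.m4 (two_dvd_sub ok.m4 (hk.trans (mul_assoc _ _ _)))
  rw [idl, idl, be_mul]
  generalize be n 1 (r * (1 : ℕ)) = β at hb
  have t : ∀ x ∈ A, l * x ∈ B := fun x hx => h1 ((mul_mem_sc l0).2 hx)
  have m1 : ∀ x ∈ B, ((N : ℤ) : ℂ) * x ∈ sp2 (N : ℤ) (l * β) * B := fun x hx =>
    Submodule.mul_mem_mul (left_mem_sp2 _ _) hx
  refine le_antisymm (fun x hx => cmd_bez hl hN' ?_ (m1 x hx.1)) (Submodule.mul_le.2 ?_)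
  · refine Submodule.mul_induction_on hx.2 (fun u hu y hy => ?_) fun u v hu hv => ?_
    · obtain ⟨p, q, rfl⟩ := mem_sp2.1 hu
      have k1 := m1 _ (t y hy)
      have k2 : l * (β * y) ∈ sp2 (N : ℤ) (l * β) * B := cmd_bez hl hN' (by
        rw [show l * (l * (β * y)) = l * β * (l * y) by ring]
        exact Submodule.mul_mem_mul (right_mem_sp2 _ _) (t y hy)) (m1 _ (t _ (hA.mul_mem hb hy)))
      have k3 := add_mem (int_mul_mem k1 p) (int_mul_mem k2 q)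
      rwa [show p * (((N : ℤ) : ℂ) * (l * y)) + q * (l * (β * y)) =
        l * ((p * (N : ℤ) + q * β) * y) by ring] at k3
    · rw [mul_add]
      exact add_mem hu hv
  · intro u hu y hy
    obtain ⟨p, q, rfl⟩ := mem_sp2.1 hu
    rw [show (p * ((N : ℤ) : ℂ) + q * (l * β)) * y = p * ((N : ℤ) * y) + q * (l * (β * y)) by ring]
    refine add_mem (int_mul_mem (Submodule.mem_inf.2 ⟨int_mul_mem hy N, ?_⟩) p)
      (int_mul_mem (Submodule.mem_inf.2 ⟨t _ (hA.mul_mem hb (h2 hy)), ?_⟩) q)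
    · exact Submodule.mul_mem_mul (left_mem_sp2 _ _) (h2 hy)
    · exact_mod_cast int_mul_mem (Submodule.mul_mem_mul (right_mem_sp2 ((N : ℤ) : ℂ) β) (h2 hy)) l

theorem kt_le (hl : l.Prime) (hN : ¬ l ∣ N) (hM : ∀ x ∈ A, ((N : ℤ) : ℂ) * x ∈ M) (h1 : B ≤ A)
    (h2 : sc l A ≤ B') (e : B ⊓ M ≤ B') : B ≤ B' := fun x hx =>
  cmd_bez hl (x := N) (by exact_mod_cast hN)
    (h2 ((mul_mem_sc (Nat.cast_ne_zero.2 hl.ne_zero)).2 (h1 hx)))
    (e ⟨int_mul_mem hx N, hM x (h1 hx)⟩)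

theorem kt_idl (ok : OkN N n 1 r) (hl : l.Prime) (hN : ¬ l ∣ N) (hA : IsIv (Oc n 1) A)
    (e : b ^ 2 + n * (1 : ℕ) ^ 2 = 4 * l * k) :
    idl n 1 l b * A ⊓ idl n 1 N (r * (1 : ℕ)) * A =
      idl n 1 l b * (idl n 1 N (r * (1 : ℕ)) * A) := by
  have m := mid_idl ok.toOk hl e hA
  obtain ⟨j, hj⟩ := ok.eq
  have h1 : idl n 1 N (r * (1 : ℕ)) * A ≤ A := by
    conv_rhs => rw [← hA.1, mul_comm]
    exact mul_le_mul_left (idl_le ok.m4 hj) A
  have h2 := kt_inf ok hl hN hA (m.1.trans m.2).le le_rfl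
  rw [inf_eq_right.2 h1] at h2
  rw [kt_inf ok hl hN hA m.1.le m.2.le, h2, mul_left_comm]

theorem kt_mp (hσ : σ (dl n) = -dl n) (c : ℕ) (m b : ℤ) : mp σ (idl n c m b) = idl n c m (-b) := by
  rw [idl, mp_sp2, cmb_be_neg hσ, cmb_sp2_neg, map_intCast, idl]

/-- The conjugate of a horizontal neighbour. -/
theorem kt_cj (ok : OkN N n 1 r) (hl : l.Prime) (hN : ¬ l ∣ N) (hσ : σ (dl n) = -dl n)
    (hA : IsIv (Oc n 1) A) (hA' : IsIv (Oc n 1) A')
    (c0 : CjS σ A (sc a (idl n 1 N (r * (1 : ℕ)) * A')))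
    (e : b ^ 2 + n * (1 : ℕ) ^ 2 = 4 * l * k) : CjS σ (idl n 1 l b * A)
      (sc a (idl n 1 l (-b) * A' ⊓ idl n 1 N (r * (1 : ℕ)) * A')) := by
  have m := mid_idl ok.toOk hl e hA
  have c1 := c0.mul (idl n 1 l b)
    ((c0.left.sc (Nat.cast_ne_zero.2 hl.ne_zero)).mid c0.left m.1.le m.2.le)
  rwa [kt_mp hσ, mul_sc, ← kt_idl ok hl hN hA' (k := k) (by rw [neg_sq, e])] at c1

theorem kt_hor (ok : OkN N n 1 r) (hl : l.Prime) (hN : ¬ l ∣ N) (hσ : σ (dl n) = -dl n)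
    (hA : IsIv (Oc n 1) A) (hA' : IsIv (Oc n 1) A') (ha : a ≠ 0)
    (c0 : CjS σ A (sc a (idl n 1 N (r * (1 : ℕ)) * A'))) (h1 : sc l A' ≤ B') (h2 : B' ≤ A')
    (c : CjS σ B (sc a (B' ⊓ idl n 1 N (r * (1 : ℕ)) * A')))
    (e : b ^ 2 + n * (1 : ℕ) ^ 2 = 4 * l * k) :
    B = idl n 1 l b * A ↔ B' = idl n 1 l (-b) * A' := by
  have c1 := kt_cj ok hl hN hσ hA hA' c0 e
  have m := mid_idl ok.toOk hl (b := -b) (k := k) (by rw [neg_sq, e]) hA'
  have hM : ∀ x ∈ A', ((N : ℤ) : ℂ) * x ∈ idl n 1 N (r * (1 : ℕ)) * A' := fun x hx =>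
    Submodule.mul_mem_mul (left_mem_sp2 _ _) hx
  refine ⟨?_, ?_⟩
  · rintro rfl
    have u := c.unique c1
    exact le_antisymm (kt_le hl hN hM h2 m.1.le (((cmd_sc_le ha).1 u.le).trans inf_le_left))
      (kt_le hl hN hM m.2.le h1 (((cmd_sc_le ha).1 u.ge).trans inf_le_left))
  · rintro rfl
    exact c.symm.unique c1.symm

/-- The two horizontal neighbours at a split prime differ. -/
theorem kt_ne (ok : Ok n 1) (hl : l.Prime) (hA : IsIv (Oc n 1) A)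
    (e : b ^ 2 + n * (1 : ℕ) ^ 2 = 4 * l * k) (hb : ¬ (l : ℤ) ∣ b) :
    idl n 1 l (-b) * A ≠ idl n 1 l b * A := fun h => by
  have m := mid_idl ok hl e hA
  refine m.2.not_ge fun x hx => cmd_bez hl hb
    (m.1.le ((mul_mem_sc (Nat.cast_ne_zero.2 hl.ne_zero)).2 hx)) ?_
  rw [← be_sub n 1 b, sub_mul]
  exact sub_mem (Submodule.mul_mem_mul (right_mem_sp2 _ _) hx)
    (h.le (Submodule.mul_mem_mul (right_mem_sp2 _ _) hx))

/-- The genus character on reflections. -/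
theorem kt_th {c : ℕ} {E : ℤ} (ok : Ok n c) (h : Gd n c E) (hE : 0 < E) (hg : g ∉ GK n) :
    th n c E (rho n c g) = chi E g := by
  have h1 := h.th (mul_mem_GK hg (cc_notMem (by have := ok.gt; omega)))
  rwa [rho_mul' ok hg, rho_cc ok, inv_one, mul_one, map_mul, chi_cc hE.ne', if_pos hE,
    mul_one] at h1

/-- The genus of the conjugate of a neighbour that is not horizontal. -/
theorem kt_gen (ok : OkN N n 1 r) (hl : l.Prime) (h4 : l % 4 = 1) (hN : ¬ l ∣ N)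
    (hJ : J(N | l) = -1) (hc : chi l g = 1) (e : Ex g σ) (hg : g ∉ GK n) (ha : a ≠ 0)
    (hB : IsIv (Oc n l) B) (hB' : IsIv (Oc n l) B')
    (c : CjS σ B (sc a (idl n l N (r * (1 : ℕ) * l) * B'))) :
    th n l l (cl _ B') = 1 ↔ ¬ th n l l (cl _ B) = 1 := by
  have ok' : Ok n l := ⟨ok.m4, ok.gt, hl.ne_zero⟩
  obtain ⟨j, hj⟩ := ok.eq
  have e1 : (r * (1 : ℕ) * l) ^ 2 + n * l ^ 2 = 4 * N * (j * l ^ 2) := by
    linear_combination l ^ 2 * hj
  have p1 : IsCoprime (N : ℤ) l :=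
    Nat.isCoprime_iff_coprime.2 ((Nat.Prime.coprime_iff_not_dvd hl).2 hN).symm
  have p2 := ok.cop_r.mul_right p1
  have i1 := cmc_isIv ok.m4 e1 (by exact_mod_cast ok.N_ne) p2
  have kc := kc_odd (n := n) (c := l) ok.m4 (o := l) (by omega) (dvd_mul_left _ _)
  have gd : Gd n l l := kc.exists_th ok'
  obtain ⟨u, v, p3⟩ := p2
  have h1 := kc.th_idl ok' (fun _ => gd.th) e1 (by exact_mod_cast Nat.pos_of_ne_zero ok.N_ne)
    ⟨u, v, 0, by linear_combination p3⟩ p1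
  rw [Int.natAbs_natCast, hJ] at h1
  have h2 := congrArg (th n l l) (cl_cj' ok' hg e hB c)
  rw [cl_sc (i1.mul hB') ha, cl_mul i1 hB', map_mul, map_mul, map_inv,
    kt_th ok' gd (by exact_mod_cast hl.pos) hg, hc, one_mul,
    show th n l l (cl _ (idl n l N (r * (1 : ℕ) * l))) = -1 from Units.ext h1] at h2
  rcases Int.units_eq_one_or (th n l l (cl _ B)) with k | k <;>
    rcases Int.units_eq_one_or (th n l l (cl _ B')) with k' | k' <;> simp_all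

theorem kt_stmt : KTStmt := by
  intro N n r g σ z z' ok _ _ h h' e hg hx
  have hσ := e.dl' hg
  have iv := ok.isIv.mul h'.iv
  obtain ⟨L, c0⟩ := exists_cjS σ (isLat_sp2 h.pos.ne')
  obtain ⟨a, ha, rfl⟩ := (cl_eq_iff iv (c0.isIv ok.toOk (.inr hσ) h.iv)).1 (by
    rw [cl_cj' ok.toOk hg e h.iv c0, hx, nn, ← cl_mul ok.isIv h'.iv])
  refine ⟨a, ⟨h.pos, h'.pos, ha, h'.mul ok ▸ c0, ?_⟩, fun b T hT l hl hJ hc i i' c => ?_,
    fun l i i' hl hn e1 e2 => ?_⟩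
  · have c1 := c0.mul (idl n 1 N (r * (1 : ℕ)))
      (h.mul ok ▸ isLat_sp2 (im_mul_pos ok.N_ne h.pos).ne')
    obtain ⟨k, hk⟩ := ok.eq
    obtain ⟨x, y, hy⟩ := ok.cop_r
    rwa [kt_mp hσ, mul_sc, ← mul_assoc, mul_comm (idl _ _ _ (-_)), idl_mul_neg ok.m4 hk ⟨x, y, 0, by
      rw [zero_mul, add_zero, hy]⟩, sc_mul, mul_comm (ot _), h'.iv.1, sc_sc, h.mul ok,
      Int.cast_natCast] at c1
  · obtain ⟨lp, l4, lb, k, hk⟩ := hT l hl
    have hN : ¬ l ∣ N := fun d => by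
      rw [jacobiSym.mod_left, Int.emod_eq_zero_of_dvd (Int.natCast_dvd_natCast.2 d),
        jacobiSym.zero_left lp.one_lt] at hJ
      omega
    have hk' : (-b l) ^ 2 + n * (1 : ℕ) ^ 2 = 4 * l * k := by rw [neg_sq, hk]
    have m := nb_mid (s := 1) lp h.pos.ne' i
    have m' := nb_mid (s := 1) lp h'.pos.ne' i'
    rw [Wq, ← h'.mul ok] at c
    have k1 := kt_hor ok lp hN hσ h.iv h'.iv ha c0 m'.1.le m'.2.le c hk
    have k2 := kt_hor ok lp hN hσ h.iv h'.iv ha c0 m'.1.le m'.2.le c hk'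
    rw [neg_neg] at k2
    have s1 : ∀ {A : Lt}, IsIv (Oc n 1) A → St n 1 (idl n 1 l (b l) * A) := fun hA =>
      st_of_isIv ok.m4 (st_idl ok.toOk lp hk lb hA)
    have s2 : ∀ {A : Lt}, IsIv (Oc n 1) A → St n 1 (idl n 1 l (-b l) * A) := fun hA =>
      st_of_isIv ok.m4 (st_idl ok.toOk lp hk' (by rwa [dvd_neg]) hA)
    rw [RK, RK]
    by_cases s : St n 1 (nb l 1 z i)
    · rcases s.eq_idl ok.toOk lp hk lb h.iv m.1 m.2 with t | t
      · have t' := k1.1 t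
        simp [t, t', s2 h'.iv, kt_ne ok.toOk lp h'.iv hk lb]
      · have t' := k2.1 t
        simp [t, t', s2 h.iv, kt_ne ok.toOk lp h.iv hk lb]
    · have s' : ¬ St n 1 (nb l 1 z' i') := fun s' => s (by
        rcases s'.eq_idl ok.toOk lp hk lb h'.iv m'.1 m'.2 with t | t
        · exact k2.2 t ▸ s2 h.iv
        · exact k1.2 t ▸ s1 h.iv)
      have n1 : nb l 1 z i ≠ idl n 1 l (b l) * sp2 z 1 := fun t => s (t ▸ s1 h.iv)
      have n2 : nb l 1 z' i' ≠ idl n 1 l (b l) * sp2 z' 1 := fun t => s' (t ▸ s1 h'.iv)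
      have i1 := (isIv_of_not_st ok.toOk lp h.iv m.1 m.2 s).1
      have i2 := (isIv_of_not_st ok.toOk lp h'.iv m'.1 m'.2 s').1
      rw [kt_inf ok lp hN h'.iv m'.1.le m'.2.le] at c
      rw [one_mul] at i1 i2 c
      simpa [n1, n2, s, s'] using kt_gen ok lp l4 hN hJ hc e hg ha i1 i2 c
  · have hN : ¬ l ∣ N := fun d => hl.one_lt.ne' (Nat.eq_one_of_dvd_coprimes ok.cop
      (hn.mul_right _) d)
    obtain ⟨m, rfl⟩ := hn
    obtain ⟨k, hk⟩ : 4 ∣ l + m := by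
      have h1 := ok.m4
      rw [Nat.mul_mod] at h1
      have h2 : l % 4 < 4 := Nat.mod_lt _ (by norm_num)
      have h3 : m % 4 < 4 := Nat.mod_lt _ (by norm_num)
      refine Nat.dvd_of_mod_eq_zero ?_
      rw [Nat.add_mod]
      generalize l % 4 = u at *
      generalize m % 4 = v at *
      interval_cases u <;> interval_cases v <;> simp_all
    have hk' : (l : ℤ) + m = 4 * k := by exact_mod_cast hk
    have c1 := kt_cj ok hl hN hσ h.iv h'.iv c0 (b := l) (k := k) (by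
      push_cast
      linear_combination l * hk')
    rwa [idl_congr (b := -l) (b' := l) ⟨-1, by ring⟩, ← e1, ← e2, h'.mul ok] at c1

end Pool.Agent.T10
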