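import Pool.Agent.Lib.MP_696deb_nt.B10.ZK
import Pool.Agent.Lib.MP_696deb_nt.B6.SEc

/-! The common zeros of the three functions are fixed points of conductor two. -/

set_option autoImplicit false

open scoped Classical

namespace Pool.Agent.T10
open Pool.Agent.Lib.MP_696deb_nt Pool.Agent.Lib.MP_696deb_nt.B2 Pool.Agent.Lib.MP_696deb_nt.B2.CM
  Pool.Agent.B8 Pool.Agent.B4.GE
open Pool.Agent.B6.SE (uu Fx exists_fx)

variable {N : ℕ} {a b c : ℤ} {z : ℂ}

theorem la_ne (h : Fx N a b c z) : c ≠ 0 := by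
  rintro rfl
  have := h.det
  have : 0 ≤ N * a ^ 2 := by positivity
  omega

/-- no element of norm four except `2`, `-2` -/
theorem la_fix (hN : Nk N) (h : Fx N a (2 * b) (2 * c) z) {P Q R T : ℤ}
    (e : (P : ℂ) * z ^ 2 + Q * z + R = 0) (hT : Q ^ 2 - 4 * P * R = T ^ 2 - 16) :
    P = 0 ∧ Q = 0 ∧ R = 0 := by
  have d := h.det
  have e0 := h.eq
  have n0 : (N : ℤ) ≠ 0 := Int.natCast_ne_zero.2 hN.sqf.ne_zero
  have c0 : c ≠ 0 := right_ne_zero_of_mul (la_ne h)
  obtain ⟨e1, e2⟩ := tau_indep h.pos.ne' (x := N * c * Q + P * N * a) (y := N * c * R + P * b)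
    (by push_cast at e0 ⊢; linear_combination N * c * e - P / 2 * e0)
  have e3 : Q * b = R * N * a := mul_left_cancel₀ (mul_ne_zero n0 c0) (by
    linear_combination b * e1 - N * a * e2)
  obtain ⟨y, hy⟩ : ∃ y, y = a * Q + 4 * c * R := ⟨_, rfl⟩
  have hQ : Q = -(y * N * a) := by rw [hy]; linear_combination Q * d - 4 * c * e3
  have hR : R = -(y * b) := by rw [hy]; linear_combination R * d + a * e3
  have hP : P = y * N * c := by rw [hy]; linear_combination P * d - a * e1 - 4 * c * e2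
  have e4 : T ^ 2 + N * y ^ 2 = 16 := by
    rw [hQ, hR, hP] at hT
    linear_combination -hT + N * y ^ 2 * d
  obtain rfl : y = 0 := by
    by_contra y0
    have h1 : 0 < y ^ 2 := by positivity
    have h2 := hN.m8
    have h3 := hN.gt
    have h4 : (N : ℤ) ≤ 16 := by nlinarith [sq_nonneg T]
    obtain rfl : N = 11 := by omega
    have h5 : y ^ 2 = 1 := by
      have := sq_nonneg T
      push_cast at e4
      omega
    have h6 : T ^ 2 = 5 := by
      push_cast at e4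
      omega
    have h7 : T ≤ 2 := by nlinarith
    have h8 : -2 ≤ T := by nlinarith
    interval_cases T <;> omega
  exact ⟨by simpa using hP, by simpa using hQ, by simpa using hR⟩

theorem la_mob {y y' : ℂ} (hy : 0 < y.im) (hy' : 0 < y'.im) (h : jf y' = jf y) :
    ∃ p q r s : ℤ, p * s - q * r = 1 ∧ y' * (r * y + s) = p * y + q := by
  obtain ⟨g, g1, rfl⟩ := G5.exists_sl hy hy' h
  refine ⟨g 0 0, g 0 1, g 1 0, g 1 1, Matrix.det_fin_two g ▸ g1, ?_⟩
  exact div_mul_cancel₀ _ (den_ne' (M := g) (by omega) hy)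

theorem la_half (hz : 0 < z.im) (k : ℕ) : 0 < ((z + k) / (2 : ℕ)).im := by
  simpa using hz

theorem la_ne1 (hN : Nk N) (h : Fx N a (2 * b) (2 * c) z) (k : ℕ) :
    jf ((2 : ℕ) * z) ≠ jf ((z + k) / (2 : ℕ)) := fun e => by
  obtain ⟨p, q, r, s, h1, h2⟩ := la_mob (la_half h.pos k) (ga_pos two_ne_zero h.pos) e
  obtain ⟨h3, h4, -⟩ := la_fix hN h (P := 2 * r) (Q := 2 * r * k + 4 * s - p)
    (R := -(p * k + 2 * q)) (T := 2 * r * k + 4 * s + p)
    (by push_cast at h2 ⊢; linear_combination 2 * h2) (by linear_combination -16 * h1)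
  obtain rfl : r = 0 := by omega
  obtain rfl : p = 4 * s := by linear_combination -h4
  have : (4 : ℤ) ∣ 1 := ⟨s * s, by linear_combination -h1⟩
  omega

theorem la_ne2 (hN : Nk N) (h : Fx N a (2 * b) (2 * c) z) :
    jf ((z + (0 : ℕ)) / (2 : ℕ)) ≠ jf ((z + (1 : ℕ)) / (2 : ℕ)) := fun e => by
  obtain ⟨p, q, r, s, h1, h2⟩ := la_mob (la_half h.pos 1) (la_half h.pos 0) e
  obtain ⟨h3, h4, h5⟩ := la_fix hN h (P := r) (Q := r + 2 * s - 2 * p)
    (R := -(2 * p + 4 * q)) (T := r + 2 * s + 2 * p)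
    (by push_cast at h2 ⊢; linear_combination 4 * h2) (by linear_combination -16 * h1)
  subst h3
  obtain rfl : p = -(2 * q) := by omega
  have : (2 : ℤ) ∣ 1 := ⟨-(q * s), by linear_combination -h1⟩
  omega

theorem la_odd (hN : Nk N) (k : Fx N a b c z) (h : uu N 2 z = 0) : ¬ (2 ∣ b ∧ 2 ∣ c) := by
  rintro ⟨⟨b, rfl⟩, c, rfl⟩
  obtain ⟨t, -, t2⟩ := k.nbr (Nat.odd_iff.2 (by have := hN.m8; omega))
  choose A B C f t2 using t2
  simp only [B6.SE.uu, Matrix.cons_val, Finset.prod_eq_zero_iff, Finset.mem_filter,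
    sub_eq_zero] at h
  obtain ⟨⟨i, j⟩, ⟨-, ij⟩, h3⟩ := h
  rw [(f j).jN hN.sqf.ne_zero] at h3
  rcases i with _ | i <;> rcases j with _ | j
  · exact ij rfl
  · rw [act_none, act_rP_some] at h3
    exact la_ne1 hN k _ h3
  · rw [act_none, act_rP_some] at h3
    exact la_ne1 hN k _ h3.symm
  · rw [act_rP_some, act_rP_some] at h3
    fin_cases i <;> fin_cases j
    · exact ij rfl
    · exact la_ne2 hN k h3
    · exact la_ne2 hN k h3.symm
    · exact ij rfl

theorem la_fw (hN : Nk N) (k : Fx N a b c z) (hc : 0 < c) (h : ¬ (2 ∣ b ∧ 2 ∣ c)) : Fw N z := by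
  have d := k.det
  have d' : (N : ℂ) * a ^ 2 + b * c = -1 := by exact_mod_cast d
  have e := k.eq
  have n0 : 0 < N := lt_trans (by norm_num) hN.gt
  have e1 : dl N = c * (N * z) - N * a := by
    have h1 : (dl N - (c * (N * z) - N * a)) * (dl N + (c * (N * z) - N * a)) = 0 := by
      linear_combination dl_sq N - N * c * e - N * d'
    refine sub_eq_zero.1 ((mul_eq_zero.1 h1).resolve_right fun h2 => ?_)
    have h3 := congrArg Complex.im h2
    have h4 := dl_im n0
    have h5 : (0 : ℝ) < c * (N * z.im) :=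
      mul_pos (Int.cast_pos.2 hc) (mul_pos (Nat.cast_pos.2 n0) k.pos)
    simp at h3
    linarith
  have e2 : dl N * z = a * (N * z) + b := by
    rw [e1]
    linear_combination e
  refine ⟨k.pos, ?_, ?_⟩
  · rw [sc_sp2, mul_one, e2]
    refine le_antisymm (sp2_le.2 ⟨mem_sp2.2 ⟨a, b, by ring⟩, mem_sp2.2 ⟨c, -(N * a), ?_⟩⟩)
      (sp2_le.2 ⟨mem_sp2.2 ⟨-(N * a), -b, ?_⟩, mem_sp2.2 ⟨-c, a, ?_⟩⟩)
    · rw [e1]; push_cast; ring
    · rw [e1]; push_cast; linear_combination N * z * d'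
    · rw [e1]; push_cast; linear_combination d'
  · have m0 : (N : ℤ) * c ≠ 0 := (mul_pos (Int.natCast_pos.2 n0) hc).ne'
    have h1 := isIv_idl (n := N) (c := 2) (m := N * c) (b := 2 * N * a) (k := -b)
      (by have := hN.m8; omega) (by push_cast; linear_combination 4 * N * d) m0 (by
        by_cases h2 : 2 ∣ c
        · obtain ⟨u, rfl⟩ : ∃ u, b = 2 * u + 1 := ⟨b / 2, by omega⟩
          exact ⟨0, u * a, N * a ^ 2 + c, by linear_combination -d⟩
        · obtain ⟨u, rfl⟩ : ∃ u, c = 2 * u + 1 := ⟨c / 2, by omega⟩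
          exact ⟨-a ^ 2, u * a, 2 * u + 1, by linear_combination -d⟩)
    have h2 : idl N 2 (N * c) (2 * N * a) = sc ((N * c : ℤ) : ℂ) (sp2 z 1) := by
      rw [sc_sp2, cmb_comm, idl, be, e1]
      congr 1
      · rw [mul_one]
      · push_cast; ring
    have h3 := h1.sc (inv_ne_zero (Int.cast_ne_zero.2 m0 : ((N * c : ℤ) : ℂ) ≠ 0))
    rwa [h2, sc_inv_sc (Int.cast_ne_zero.2 m0)] at h3

theorem la_stmt : LAStmt := fun N z hN hz h => by
  obtain ⟨a, b, c, k⟩ := exists_fx hN.sqf (Nat.odd_iff.2 (by have := hN.m8; omega))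
    (lt_trans (by norm_num) hN.gt) hz (h 0) (h 1)
  have h2 := la_odd hN k (h 2)
  rcases (la_ne k).lt_or_gt with hc | hc
  · exact la_fw hN k.neg (neg_pos.2 hc) (by rwa [dvd_neg, dvd_neg])
  · exact la_fw hN k hc h2

end Pool.Agent.T10
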