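import Pool.Agent.Lib.MP_696deb_nt.B10.ZK
import Pool.Agent.Lib.MP_696deb_nt.B8.ZE

/-! Common zeros of modular functions modulo a place come from common zeros. -/

set_option autoImplicit false

open Polynomial
open scoped Classical NNReal

namespace Pool.Agent.T10
open Pool.Agent.Lib.MP_696deb_nt Pool.Agent.Lib.MP_696deb_nt.B2 Pool.Agent.Lib.MP_696deb_nt.B2.CM
  Pool.Agent.B6 Pool.Agent.B8 Pool.Agent.B4.GE Pool.Agent.B6.SE

/-- An ideal of polynomials whose common zeros are algebraic vanishes or contains a product of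
linear factors that belong to common zeros. -/
theorem lb_ideal (c : ℕ → ℂ[X]) (h : ∀ y, (∀ k, (c k).eval y = 0) → ∃ x, jC x = y) :
    (∀ k, c k = 0) ∨ ∃ s : Multiset Qbar, (∀ x ∈ s, ∀ k, (c k).eval (jC x) = 0) ∧
      (s.map fun x => X - C (jC x)).prod ∈ Ideal.span (Set.range c) := by
  obtain ⟨p, hp⟩ := (IsPrincipalIdealRing.principal (Ideal.span (Set.range c))).principal
  have h1 : ∀ k, p ∣ c k := fun k =>
    Ideal.mem_span_singleton.1 (hp.le (Ideal.subset_span ⟨k, rfl⟩))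
  by_cases h0 : p = 0
  · exact Or.inl fun k => zero_dvd_iff.1 (h0 ▸ h1 k)
  have h2 : ∀ y ∈ p.roots, ∀ k, (c k).eval y = 0 := fun y hy k =>
    (isRoot_of_mem_roots hy).dvd (h1 k)
  have h3 : ∀ y ∈ p.roots, jC (pre y) = y := fun y hy => Function.invFun_eq (h y (h2 y hy))
  refine Or.inr ⟨p.roots.map pre, fun x hx k => ?_, ?_⟩
  · obtain ⟨y, hy, rfl⟩ := Multiset.mem_map.1 hx
    rw [h3 y hy, h2 y hy]
  · rw [Multiset.map_map, Multiset.map_congr rfl (g := fun y => X - C y) fun y hy => by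
      rw [Function.comp_apply, h3 y hy], hp]
    refine Ideal.mem_span_singleton.2 ⟨C p.leadingCoeff⁻¹, ?_⟩
    have := (IsAlgClosed.splits p).eq_prod_roots
    nth_rewrite 2 [this]
    rw [mul_right_comm, ← C_mul, mul_inv_cancel₀ (leadingCoeff_ne_zero.2 h0), C_1, one_mul]

theorem lb_prod (w : Plc) (x : Qbar) (s : Multiset Qbar) (h : w.V (s.map (x - ·)).prod < 1) :
    ∃ y ∈ s, w.V (x - y) < 1 := by
  by_contra! k
  refine h.not_ge ?_
  rw [map_multiset_prod, Multiset.map_map]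
  exact Multiset.one_le_prod_of_one_le fun a ha => by
    obtain ⟨y, hy, rfl⟩ := Multiset.mem_map.1 ha
    exact k y hy

theorem lb_ns {T : Type} [Fintype T] {N n M : ℕ} (hN : N ≠ 0) (hn : n ≠ 0) (hM : M ≠ 0)
    {f : T → ℂ → ℂ} (hf : ∀ t, Gi N n M (f t))
    (al : ∀ z : ℂ, 0 < z.im → (∀ t, f t z = 0) → ∃ x, jC x = jf z) :
    ∃ M' : ℕ, M' ≠ 0 ∧ ∀ (w : Plc) (B : ValuationSubring ℂ) (τ : ℂ) (x : Qbar), Over B w →
      ¬ w.p ∣ M' → 0 < τ.im → jC x = jf τ → w.V x ≤ 1 → (∀ t, B.valuation (f t τ) < 1) →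
      ∃ (z : ℂ) (y : Qbar), 0 < z.im ∧ (∀ t, f t z = 0) ∧ jC y = jf z ∧ w.V (x - y) < 1 := by
  have := finite_CI hN
  have := Fintype.ofFinite (CI N)
  obtain ⟨e, he⟩ := Countable.exists_injective_nat T
  have hH : ∀ k : ℕ, Gi N n M fun z => ∑ t, (k : ℂ) ^ e t * f t z := fun k =>
    ⟨fun g hg z hz => Finset.sum_congr rfl fun t _ => by rw [(hf t).1 g hg z hz],
      fun B hB g hg => LE.congr (sum_mem (t := Finset.univ) fun t _ => mul_mem
        (pow_mem (natCast_mem _ k) (e t)) ((hf t).2 B hB g hg)) fun z _ => by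
          rw [Finset.sum_apply]; rfl⟩
  choose c hc using fun k => (hH k).norm hN hn hM
  have h0 : ∀ y, (∀ k, (c k).eval y = 0) → ∃ z : ℂ, 0 < z.im ∧ (∀ t, f t z = 0) ∧ y = jf z := by
    intro y hy
    obtain ⟨z, hz, rfl⟩ := G5.jf_surj y
    by_contra! k
    obtain ⟨m, hm⟩ := exists_comb e he (fun (i : CI N) t => f t (act (cr i) z)) fun i => by
      by_contra! k'
      exact k _ (act_pos (by rw [cr_det]; exact one_pos) hz) k' (jf_act (cr_det i) hz).symm
    exact Finset.prod_ne_zero_iff.2 (fun i _ => hm i) ((hc m z hz).trans (hy m))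
  rcases lb_ideal c fun y hy => by
    obtain ⟨z, a, b, rfl⟩ := h0 y hy
    exact al z a b with h1 | ⟨s, hs, h1⟩
  · refine ⟨1, one_ne_zero, fun w B τ x _ _ _ hx _ _ => ?_⟩
    obtain ⟨z, a, b, k⟩ := h0 (jf τ) fun k => by rw [h1, eval_zero]
    exact ⟨z, x, a, b, hx.trans k, by simp⟩
  obtain ⟨a, ha⟩ := Finsupp.mem_ideal_span_range_iff_exists_finsupp.1 h1
  obtain ⟨π, p1, p2⟩ := exists_ret
  obtain ⟨D, hD, kD⟩ := exists_den (a.support.biUnion fun k => (a k).support.image fun i =>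
    π ((a k).coeff i))
  refine ⟨M * D, mul_ne_zero hM hD, fun w B τ x hB hw hτ hx hv k => ?_⟩
  have v1 : ∀ (m : ℕ) (B : ValuationSubring ℂ), B.valuation M = 1 → B.valuation (jf τ) ≤ 1 →
      ∀ i : CI N, B.valuation (∑ t, (m : ℂ) ^ e t * f t (act (cr i) τ)) ≤ 1 := fun m B h1 h2 i =>
    (hH m).1.val_le hN hn ((hH m).2 B h1) (act_pos (by rw [cr_det]; exact one_pos) hτ)
      (by rwa [jf_act (cr_det i) hτ])
  choose y hy using fun m => gef_alg (y := (c m).eval (jf τ)) fun B h => by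
    rw [← hc m τ hτ]
    exact val_prod_le _ (v1 m B (val_one B hM (by simpa using h (M : Qbar)⁻¹)) (hx ▸ h x))
  have v2 : ∀ m, w.V (y m) < 1 := fun m => (hB _).2.1 (by
    obtain ⟨i, hi⟩ := (hH m).1.exists_cr hN Matrix.det_one
    rw [hy, ← hc m τ hτ, ← Finset.mul_prod_erase _ _ (Finset.mem_univ i), map_mul, ← hi τ hτ,
      act_one]
    refine mul_lt_one_of_nonneg_of_lt_one_left zero_le (Valuation.map_sum_lt _ one_ne_zero
      fun t _ => ?_) (val_prod_le _ (v1 m B (val_M hB fun k => hw (k.mul_right _))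
        (hx ▸ (hB x).1.2 hv)))
    rw [map_mul, map_pow]
    exact mul_lt_one_of_nonneg_of_lt_one_right (pow_le_one₀ zero_le (val_nat _ _)) zero_le (k t))
  have h2 := congrArg (fun p => π (p.eval (jC x))) ha
  have h3 : (s.map fun x => X - C (jC x)).prod.eval (jC x) = 1 * jC (s.map (x - ·)).prod := by
    rw [one_mul, eval_multiset_prod, map_multiset_prod, Multiset.map_map, Multiset.map_map]
    exact congrArg _ (Multiset.map_congr rfl fun y _ => by simp)
  simp only [h3] at h2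
  rw [p2, p1, one_mul] at h2
  simp only [Finsupp.sum, eval_finsetSum, eval_mul, map_sum] at h2
  obtain ⟨r, hr, h4⟩ := lb_prod w x s (by
    rw [← h2]
    refine Valuation.map_sum_lt _ one_ne_zero fun m hm => ?_
    rw [hx, ← hy, p2, map_mul, ← hx, eval_eq_sum, sum_def, map_sum]
    refine mul_lt_one_of_nonneg_of_lt_one_right (Valuation.map_sum_le _ fun i hi => ?_) zero_le
      (v2 m)
    rw [← map_pow, p2, map_mul, map_pow]
    exact mul_le_one' (kD w (fun k => hw (k.mul_left _)) _ (Finset.mem_biUnion.2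
      ⟨m, hm, Finset.mem_image_of_mem _ hi⟩)) (pow_le_one₀ zero_le hv))
  obtain ⟨z, b1, b2, b3⟩ := h0 _ (hs r hr)
  exact ⟨z, r, b1, b2, b3, h4⟩

theorem lb_stmt (la : LAStmt) : LBStmt := by
  intro N hN
  have ho : Odd N := Nat.odd_iff.2 (by have := hN.m8; omega)
  have ok : Ok N 2 := hN.ok two_ne_zero
  obtain ⟨M, hM, k⟩ := lb_ns (n := N * 2) (M := 1) ho.pos.ne' (mul_ne_zero ho.pos.ne' two_ne_zero)
    one_ne_zero (gi_uu ho) fun z hz h => ⟨jQ N 2 (cl _ (sp2 z 1)), by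
      rw [jC_jQ ok, jP_cl ok (la N z hN hz h).iv, jL_tau hz]⟩
  refine ⟨M, hM, fun w V τ hV hw hτ hv hu => ?_⟩
  obtain ⟨x, hx⟩ := hτ.alg
  obtain ⟨z, y, a, b, c, d⟩ := k w V.valuationSubring τ x
    (fun x => ⟨by rw [av_le_one, hV], by rw [av_lt_one, hV]⟩) hw hτ.pos hx (by rw [← hV, hx]; exact hv)
    fun t => (av_lt_one V).2 (hu t)
  exact ⟨z, la N z hN a b, by rw [← hx, ← c, ← map_sub, hV]; exact d⟩

end Pool.Agent.T10
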