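import Pool.Agent.Lib.MP_696deb_nt.B10.ZK

/-! The common zeros modulo a place: the level structure. -/

set_option autoImplicit false

open scoped Classical NNReal

namespace Pool.Agent.T10
open Pool.Agent.Lib.MP_696deb_nt Pool.Agent.Lib.MP_696deb_nt.B2 Pool.Agent.Lib.MP_696deb_nt.B2.CM
  Pool.Agent.B8 Pool.Agent.B4.GE
open Pool.Agent.B6.SE (uu gi_uu exists_den)

theorem lc_ne {n c : ℕ} (ok : Ok n c) (x : Pc n c) : jP n c x ≠ 0 ∧ jP n c x - 1728 ≠ 0 := by
  obtain ⟨I, hI, rfl⟩ := cl_surj x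
  obtain ⟨L, rfl⟩ := hI.isLat ok
  have key : ∀ a : ℂ, a ≠ 0 → a⁻¹ ^ 4 * L.g₂ = L.g₂ → a⁻¹ ^ 6 * L.g₃ = L.g₃ → a ^ 2 = 1 :=
    fun a ha h2 h3 => by
      have k := Gal.sc_scale L ha
      rcases hI.unit ok ((cmg_sc k).symm.trans
        (Gal.lattice_eq_of_g (k.g₂.trans h2) (k.g₃.trans h3))) with rfl | rfl <;> norm_num
  have hd := Shared.Weier.disc_ne_zero L
  rw [jP_cl ok hI, jL_lattice, jPer]
  constructor <;> intro h
  · have h2 : L.g₂ = 0 := by simpa [hd] using h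
    obtain ⟨a, ha⟩ := IsAlgClosed.exists_pow_nat_eq (-3 : ℂ) two_pos
    have h3 : ((a - 1) / 2) ^ 3 = 1 := by linear_combination (a - 3) / 8 * ha
    have h4 := key ((a - 1) / 2) (fun e => by simp [e] at h3) (by simp [h2])
      (by rw [inv_pow, show 6 = 3 * 2 from rfl, pow_mul, h3]; simp)
    have h5 : a = -3 := by linear_combination ha / 2 - 2 * h4
    rw [h5] at ha
    norm_num at ha
  · have h3 : L.g₃ = 0 := by
      rw [sub_eq_zero, div_eq_iff hd] at h
      exact pow_eq_zero_iff two_ne_zero |>.1 (by linear_combination h / (1728 * 27))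
    have h4 := key Complex.I Complex.I_ne_zero (by rw [inv_pow, Complex.I_pow_four]; simp)
      (by simp [h3])
    rw [Complex.I_sq] at h4
    norm_num at h4

theorem lc_one {V : Valuation Qbar ℝ≥0} {y : Qbar} (h : V y⁻¹ ≤ 1) (h0 : y ≠ 0) : 1 ≤ V y := by
  rwa [map_inv₀, inv_le_one₀ (by simpa [zero_lt_iff] using h0)] at h

theorem lc_stmt (la : LAStmt) : LCStmt := fun N hN => by
  have ok : Ok N 2 := hN.ok two_ne_zero
  have odd : Odd N := Nat.odd_iff.2 (by have := hN.m8; omega)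
  have h0 := odd.pos.ne'
  have := finite_Pc ok.m4 ok.gt 2
  have := finite_CI h0
  choose τ a h1 _ _ _ h2 using cmf_tau ok
  have h3 := fun i : CI N => show 0 < (cr i).det by rw [cr_det]; exact one_pos
  choose y hy using fun (x : Pc N 2) (i : CI N) (t : Fin 3) =>
    gef_alg (y := uu N t (act (cr i) (τ x))) fun B _ => (gi_uu (M := 1) odd t).1.val_le h0
      (mul_ne_zero h0 two_ne_zero) ((gi_uu (M := 1) odd t).2 B (by simp)) (act_pos (h3 i) (h1 x))
      (by rw [jf_act (cr_det i) (h1 x), ← h2]; exact val_jP _ ok x)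
  obtain ⟨M, hM, k⟩ := exists_den (Set.finite_range fun p : Pc N 2 × (Bool ⊕ CI N × Fin 3) =>
    (p.2.elim (fun b => jQ N 2 p.1 - cond b 0 1728) fun q => y p.1 q.1 q.2)⁻¹).toFinset
  refine ⟨M, hM, fun w V z hV hw hz => ?_⟩
  have k := fun p => k w hw _ ((Set.Finite.mem_toFinset _).2 ⟨p, rfl⟩)
  obtain ⟨x, hx⟩ : ∃ x, jP N 2 x = jf z := ⟨_, (jP_cl ok hz.iv).trans (jL_tau hz.pos)⟩
  have h4 : ∀ b : Bool, V (jP N 2 x - cond b 0 1728) = 1 := fun b => by
    have e : jC (jQ N 2 x - cond b 0 1728) = jP N 2 x - cond b 0 1728 := by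
      cases b <;> simp [jC_jQ ok, map_ofNat]
    refine le_antisymm (V.map_sub_le (val_jP V ok x) ?_) ?_
    · cases b
      · exact val_nat V 1728
      · simp
    · rw [← e, hV]
      refine lc_one (y := jQ N 2 x - cond b 0 1728) (k (x, .inl b)) fun h => ?_
      rw [h, map_zero] at e
      cases b
      · exact (lc_ne ok x).2 e.symm
      · exact (lc_ne ok x).1 (by simpa using e.symm)
  refine ⟨by simpa [hx] using h4 true, by simpa [hx] using h4 false, fun δ hδ h =>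
    la N _ hN (act_pos (by omega) hz.pos) fun t => ?_⟩
  obtain ⟨g, hg, rfl⟩ := G5.exists_sl (h1 x) hz.pos (hx.symm.trans (h2 x))
  obtain ⟨i, hi⟩ := (gi_uu (M := 1) odd t).1.exists_cr h0 (g := δ * g) (by simp [hδ, hg])
  have h5 := h t
  rw [← act_mul _ (by omega) (h1 x), hi _ (h1 x), ← hy] at h5 ⊢
  by_contra h6
  exact absurd (lc_one (y := y x i t) (k (x, .inr (i, t))) fun e => h6 (by rw [e, map_zero]))
    (not_le.2 (hV _ ▸ h5))

end Pool.Agent.T10
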