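import Pool.Agent.Lib.MP_696deb_nt.B10.ZK

/-! Fixed points modulo a place lift, and congruent points have congruent images. -/

set_option autoImplicit false

open Polynomial
open scoped Classical NNReal

namespace Pool.Agent.T10
open Pool.Agent.Lib.MP_696deb_nt Pool.Agent.Lib.MP_696deb_nt.B2 Pool.Agent.Lib.MP_696deb_nt.B2.CM
  Pool.Agent.B6 Pool.Agent.B8 Pool.Agent.B4.GE Pool.Agent.Shared.Weier
open Pool.Agent.B6.SE (uu Gi gi_uu)

theorem lf_stmt (lb : LBStmt) (lc : LCStmt) (mt : MTStmt) (cl : CLStmt) : LFStmt := by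
  intro N hN
  obtain ⟨M1, h1, k1⟩ := lb N hN
  obtain ⟨M2, h2, k2⟩ := lc N hN
  have ho : Odd N := Nat.odd_iff.2 (by have := hN.m8; omega)
  refine ⟨M1 * M2, mul_ne_zero h1 h2, fun w V hV hw => ?_⟩
  have w1 : ¬ w.p ∣ M1 := fun h => hw (h.mul_right _)
  have w2 : ¬ w.p ∣ M2 := fun h => hw (h.mul_left _)
  refine ⟨fun z hz => ⟨(k2 w V z hV w2 hz).1, (k2 w V z hV w2 hz).2.1⟩,
    fun τ L hτ hj hu hL hd => ?_⟩
  obtain ⟨z, hz, hv⟩ := k1 w V τ hV w1 hτ hj hu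
  obtain ⟨δ, hδ, hm⟩ := mt V L τ z hL hτ.pos hz.pos hj hv
  refine ⟨act δ z, (k2 w V z hV w2 hz).2.2 δ hδ fun t => ?_, hm⟩
  have c1 := (cl V).2.2.1 N (N * 2) 1 (uu N t) (mul_ne_zero ho.pos.ne' two_ne_zero)
    (dvd_mul_right _ _) (by simp) (gi_uu ho t)
  have c2 := (cl V).1 (N * 2) L (uu N t) 1 hL (by simp)
    (by rw [Matrix.det_one, mul_one, mul_comm N]; exact_mod_cast hd) c1
  have c3 := V.map_sub_lt (hu t) (hm.ev _ c2)
  simpa only [act_one, sub_sub_cancel] using c3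

theorem nr_int {V : Valuation ℂ ℝ≥0} {x : ℂ} (hx : V x ≤ 1) (b : ℤ[X]) : V (aeval x b) ≤ 1 :=
  (congrArg V (map_ev1 V.integer.subtype ⟨x, hx⟩ b)).symm.trans_le
    (aeval (⟨x, hx⟩ : V.integer) b).2

theorem nr_mul {V : Valuation ℂ ℝ≥0} {x y : ℂ} (hx : V x ≤ 1) (hy : V y < 1) : V (x * y) < 1 := by
  rw [map_mul]
  exact mul_lt_one_of_nonneg_of_lt_one_right hx zero_le hy

theorem nr_sub {V : Valuation ℂ ℝ≥0} {x y : ℂ} (hx : V x ≤ 1) (hy : V y ≤ 1) (h : V (x - y) < 1)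
    (b : ℤ[X]) : V (aeval x b - aeval y b) < 1 := by
  obtain ⟨k, hk⟩ := sub_dvd_eval_sub (⟨x, hx⟩ : V.integer) ⟨y, hy⟩ (b.map (algebraMap ℤ _))
  rw [eval_map_algebraMap, eval_map_algebraMap] at hk
  have e := congrArg V.integer.subtype hk
  rw [map_sub, map_mul, map_ev1, map_ev1, mul_comm] at e
  exact (congrArg V e).trans_lt (nr_mul k.2 h)

theorem nr_stmt (cl : CLStmt) : NRStmt := by
  intro _ N P
  obtain ⟨T, r, D, hD, e⟩ := P.two_charts
  obtain ⟨M5, h5, k5⟩ := exists_int5 Wu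
  have h0 : ∀ i, (T i).e.leadingCoeff ≠ 0 := fun i => leadingCoeff_ne_zero.2 (T i).e0
  refine ⟨(2 * D * WZ.Δ * ∏ i, (T i).e.leadingCoeff).natAbs * M5, mul_ne_zero
    (Int.natAbs_ne_zero.2 (mul_ne_zero (mul_ne_zero (mul_ne_zero two_ne_zero hD) WZ_ne)
      (Finset.prod_ne_zero_iff.2 fun i _ => h0 i))) h5, fun w V y y' Q Q' hV hw hm hQ hQ' => ?_⟩
  have w1 : ¬ (w.p : ℤ) ∣ 2 * D * WZ.Δ * ∏ i, (T i).e.leadingCoeff :=
    fun h => hw ((Int.natCast_dvd.1 h).mul_right _)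
  have hv : ∀ a : ℤ, ¬ (w.p : ℤ) ∣ a → V a = 1 := fun a ha => by
    rw [← map_intCast jC, hV, w.V_int_eq_one.2 ha]
  obtain ⟨i, hi⟩ : ∃ i, V (aeval (jf y) (T i).b) = 1 := by
    by_contra! k
    have k' := fun i => nr_mul (nr_int hm.int (r i)) ((nr_int hm.int (T i).b).lt_of_ne (k i))
    have := V.map_add_lt (k' true) (k' false)
    rw [← map_mul, ← map_mul, ← map_add, e, aeval_C, eq_intCast,
      hv D fun h => w1 (((h.mul_left _).mul_right _).mul_right _)] at this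
    exact this.false
  have hb := nr_sub hm.int hm.int' (hm.ev _ ((cl V).2.2.2 N P.N0)) (T i).b
  have hi' : V (aeval (jf y') (T i).b) = 1 := by
    rw [← hi]
    exact V.map_eq_of_sub_lt (by rw [V.map_sub_swap, hi]; exact hb)
  have wl : ¬ (w.p : ℤ) ∣ (T i).e.leadingCoeff := fun h =>
    w1 ((h.trans (Finset.dvd_prod_of_mem (fun i => (T i).e.leadingCoeff)
      (Finset.mem_univ i))).mul_left _)
  have hc : ∀ k, Cl V N fun z => aeval (jf z) (T i).b * ch ((T i).c : ℂ) k (P.φ z) := fun k => by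
    refine (cl V).2.2.1 N N (T i).e.leadingCoeff.natAbs _ P.N0 dvd_rfl ?_
      ⟨((T i).rf k).inv, fun B hB g hg => ?_⟩
    · rw [← Int.cast_natCast]
      exact hv _ fun h => wl (Int.dvd_natAbs.1 h)
    · have := ((T i).rf k).mem (V := B.valuation) P.N0 (by
        rcases Int.natAbs_eq (T i).e.leadingCoeff with k | k <;> rw [k] <;> simpa using hB)
        hg one_ne_zero
      rwa [mul_one] at this
  have hf : ∀ (z : ℂ) (R : B6.EE), 0 < z.im → pmap jC R = P.φ z → V (aeval (jf z) (T i).b) = 1 →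
      Fn ((T i).c : Qbar) R ∧ ∀ k, ch ((T i).c : ℂ) k (P.φ z) = jC (ch ((T i).c : Qbar) k R) :=
    fun z R hz hR h => ⟨by
      rw [← fn_pmap jC, hR, map_intCast]
      exact (T i).fn z hz fun h' => by simp [h'] at h,
      fun k => by rw [← hR, ← map_intCast jC, ch_pmap]⟩
  obtain ⟨f1, e1⟩ := hf y Q hm.pos hQ hi
  obtain ⟨f2, e2⟩ := hf y' Q' hm.pos' hQ' hi'
  have hu : ∀ k, V (ch ((T i).c : ℂ) k (P.φ y)) ≤ 1 := fun k => by
    have := (hc k).int y hm.pos hm.int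
    rwa [map_mul, hi, one_mul] at this
  refine B6.CM.K1_of_near (fun h => w1 ((h.mul_left _).mul_right _))
    (near_of_ch (k5 w fun h => hw (h.mul_left _)) (fun h => w1 ?_) f1 f2
      (fun k => by rw [← hV, ← e1]; exact hu k) fun k => ?_)
  · rw [h]
    exact ((dvd_mul_right _ _).mul_right _).mul_right _
  · have := V.map_sub_lt (hm.ev _ (hc k)) (nr_mul (hu k) hb)
    rw [← hV, map_sub, ← e1, ← e2]
    rwa [show ∀ a b u v : ℂ, a * u - b * v - u * (a - b) = b * (u - v) from fun _ _ _ _ => by ring,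
      map_mul, hi', one_mul] at this

end Pool.Agent.T10
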