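import Pool.Agent.Lib.MP_696deb_nt.B10.Z0

/-! Matrices and lattices of labels. -/

set_option autoImplicit false

open Finset Function
open scoped Classical

namespace Pool.Agent.T10
open Pool.Agent.Lib.MP_696deb_nt Pool.Agent.Lib.MP_696deb_nt.B2 Pool.Agent.Lib.MP_696deb_nt.B2.CM
  Pool.Agent.B4.GE Pool.Agent.Shared.Weier

theorem lv_ind {z : ℂ} (hz : 0 < z.im) {a b c d : ℤ} (h : a * z + b = c * z + d) :
    a = c ∧ b = d := by
  have h1 := congrArg Complex.im h
  simp only [Complex.add_im, Complex.mul_im, Complex.intCast_re, Complex.intCast_im, zero_mul,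
    add_zero] at h1
  have h2 : a = c := by exact_mod_cast mul_right_cancel₀ hz.ne' h1
  subst h2
  exact ⟨rfl, by exact_mod_cast add_left_cancel h⟩

theorem lv_act (M : MZ) (z : ℂ) (hM : 0 < M.det) (hz : 0 < z.im) :
    rl M z = sc (den M z) (sp2 (act M z) 1) := by
  have h := den_ne' hM.ne' hz
  rw [den] at h
  rw [sc_sp2, mul_one, act, mob, den, mul_div_cancel₀ _ h, rl]

theorem lv_rP (l : ℕ) (i : Option (Fin l)) (z : ℂ) : rl (rP l i) z = nb l 1 z i := by
  rcases i with _ | k <;> simp [rl, rP, ut, nb]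

theorem lv_one (z : ℂ) : rl 1 z = sp2 z 1 := by simp [rl]

theorem lv_le (M M' : MZ) (z : ℂ) (hz : 0 < z.im) :
    rl M' z ≤ rl M z ↔ ∃ B : MZ, M' = B * M := by
  rw [rl, sp2_le, rl, mem_sp2, mem_sp2]
  constructor
  · rintro ⟨⟨a, b, h⟩, c, d, k⟩
    have h1 := lv_ind hz (a := M' 0 0) (b := M' 0 1) (c := a * M 0 0 + b * M 1 0)
      (d := a * M 0 1 + b * M 1 1) (by rw [h]; push_cast; ring)
    have k1 := lv_ind hz (a := M' 1 0) (b := M' 1 1) (c := c * M 0 0 + d * M 1 0)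
      (d := c * M 0 1 + d * M 1 1) (by rw [k]; push_cast; ring)
    refine ⟨!![a, b; c, d], ?_⟩
    ext i j
    fin_cases i <;> fin_cases j <;> simp [Matrix.mul_apply, Fin.sum_univ_two]
    exacts [h1.1, h1.2, k1.1, k1.2]
  · rintro ⟨B, rfl⟩
    refine ⟨⟨B 0 0, B 0 1, ?_⟩, B 1 0, B 1 1, ?_⟩ <;>
      simp only [Matrix.mul_apply, Fin.sum_univ_two] <;> push_cast <;> ring

theorem lv_det_rP (l : ℕ) (i : Option (Fin l)) : (rP l i).det = l := by
  rcases i with _ | k <;> simp [rP, det_ut]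

variable {N : ℕ} {T : Finset ℕ} {κ : Lb}

theorem lv_pos (hT : ∀ l ∈ T, l.Prime) : 0 < dg T κ :=
  prod_pos fun l hl => by
    split_ifs
    exacts [one_pos, (hT l hl).pos]

theorem lv_dvd (T : Finset ℕ) (κ : Lb) : dg T κ ∣ ∏ l ∈ T, l :=
  prod_dvd_prod_of_dvd _ _ fun l _ => by
    split_ifs
    exacts [one_dvd _, dvd_rfl]

theorem lv_sqf (hT : ∀ l ∈ T, l.Prime) : Squarefree (dg T κ) := by
  refine Squarefree.squarefree_of_dvd (lv_dvd T κ) ?_
  refine Finset.squarefree_prod_of_pairwise_isCoprime (fun p hp q hq h => ?_)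
    fun p hp => (hT p hp).prime.squarefree
  exact Nat.coprime_iff_isRelPrime.1 ((Nat.coprime_primes (hT p hp) (hT q hq)).2 h)

theorem lv_cop (h : Tp N T) : IsCoprime (N : ℤ) (dg T κ : ℕ) := by
  refine Nat.isCoprime_iff_coprime.2 (Nat.Coprime.coprime_dvd_right (lv_dvd T κ) ?_)
  exact Nat.Coprime.prod_right fun l hl =>
    ((Nat.Prime.coprime_iff_not_dvd (h l hl).1).2 (h l hl).2).symm

theorem lv_row (hT : ∀ l ∈ T, l.Prime) {M : MZ} (hM : Lab N T κ M) (V : MZ)
    (hV : ∀ l ∈ T, ∀ i, κ l = some i → ∃ B : MZ, V = B * rP l i) : ∃ B : MZ, V = B * M := by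
  have h0 : ((dg T κ : ℕ) : ℤ) ≠ 0 := by exact_mod_cast (lv_pos hT).ne'
  have h1 : ∀ a b, ((dg T κ : ℕ) : ℤ) ∣ (V * M.adjugate) a b := by
    intro a b
    rw [dg, Nat.cast_prod]
    refine Finset.prod_dvd_of_coprime (fun p hp q hq h => ?_) fun l hl => ?_
    · refine Nat.isCoprime_iff_coprime.2 ?_
      have := (Nat.coprime_primes (hT p hp) (hT q hq)).2 h
      split_ifs
      exacts [Nat.coprime_one_left _, Nat.coprime_one_left _, Nat.coprime_one_right _, this]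
    · rcases e : κ l with _ | i
      · simp
      · obtain ⟨B, hB⟩ := hV l hl i e
        obtain ⟨C, hC⟩ := hM.fac l hl i e
        rw [if_neg (by simp), hB, hC, Matrix.adjugate_mul_distrib, mul_assoc,
          ← mul_assoc (rP l i), Matrix.mul_adjugate, lv_det_rP, smul_mul_assoc, mul_smul_comm,
          Matrix.smul_apply, smul_eq_mul]
        exact Dvd.intro _ rfl
  choose C hC using h1
  refine ⟨Matrix.of C, ?_⟩
  have h2 : V * M.adjugate = ((dg T κ : ℕ) : ℤ) • Matrix.of C := by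
    ext a b
    rw [hC, Matrix.smul_apply, smul_eq_mul, Matrix.of_apply]
  have h3 : ((dg T κ : ℕ) : ℤ) • V = ((dg T κ : ℕ) : ℤ) • (Matrix.of C * M) := by
    rw [← smul_mul_assoc, ← h2, mul_assoc, Matrix.adjugate_mul, hM.det, mul_smul_comm, mul_one]
  exact smul_right_injective _ h0 h3

theorem lv_ex (hT : ∀ l ∈ T, l.Prime) (κ : Lb) : ∃ M, Lab 0 T κ M := by
  obtain ⟨A, hA⟩ : ∃ A : ℕ, A = ∏ l ∈ T, if κ l = some none then l else 1 := ⟨_, rfl⟩
  obtain ⟨D, hD⟩ : ∃ D : ℕ, D = ∏ l ∈ T, if κ l = none ∨ κ l = some none then 1 else l :=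
    ⟨_, rfl⟩
  obtain ⟨B, hB⟩ := Nat.chineseRemainderOfFinset
    (fun l => ((κ l).getD none).elim 0 fun k => k.1 * A) (fun l => l) T
    (fun l hl => (hT l hl).ne_zero)
    fun p hp q hq h => (Nat.coprime_primes (hT p hp) (hT q hq)).2 h
  refine ⟨ut A B D, ?_, by simp [ut], fun l hl i e => ?_⟩
  · rw [det_ut, ← Nat.cast_mul, hA, hD, ← prod_mul_distrib, dg]
    congr 1
    refine prod_congr rfl fun l _ => ?_
    rcases κ l with _ | _ | k <;> simp
  · rcases i with _ | k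
    · obtain ⟨A', rfl⟩ : l ∣ A := by
        rw [hA]
        refine Dvd.dvd.trans ?_ (dvd_prod_of_mem _ hl)
        rw [if_pos e]
      refine ⟨ut A' B D, ?_⟩
      ext a b
      fin_cases a <;> fin_cases b <;> simp [ut, rP, Matrix.mul_apply, Fin.sum_univ_two, mul_comm]
    · obtain ⟨D', rfl⟩ : l ∣ D := by
        rw [hD]
        refine Dvd.dvd.trans ?_ (dvd_prod_of_mem _ hl)
        rw [if_neg (by simp [e])]
      have h1 := hB l hl
      simp only [e, Option.getD_some, Option.elim_some] at h1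
      obtain ⟨t, ht⟩ := h1.symm.dvd
      push_cast at ht
      refine ⟨!![A, t; 0, D'], ?_⟩
      ext a b
      fin_cases a <;> fin_cases b <;> simp [ut, rP, Matrix.mul_apply, Fin.sum_univ_two]
      · linear_combination ht
      · ring

theorem lv_mK (hT : ∀ l ∈ T, l.Prime) (κ : Lb) : Lab 0 T κ (mK T κ) := by
  have h := lv_ex hT κ
  rw [mK, dif_pos h]
  exact h.choose_spec

theorem lv_smith {M : MZ} {n : ℕ} (h0 : M 1 0 = 0) (hd : M.det = n) (hs : Squarefree n)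
    (hc : IsCoprime (N : ℤ) n) : ∃ γ δ, G0 N γ ∧ G0 N δ ∧ M = γ * ut n 0 1 * δ := by
  rw [Matrix.det_fin_two, h0, mul_zero, sub_zero] at hd
  have h1 : IsCoprime (M 0 0) (M 1 1) :=
    (squarefree_mul_iff.1 (hd ▸ Int.squarefree_natCast.2 hs)).1.isCoprime
  rw [← hd] at hc
  obtain ⟨s, t, h⟩ := hc.of_mul_right_right.mul_left h1
  refine ⟨!![t * (1 - N * M 0 1), M 0 1 + M 0 0 * (s * (1 - N * M 0 1)); -N, M 1 1],
    !![1, -(s * (1 - N * M 0 1)); N * M 0 0, N * M 0 1 + t * (1 - N * M 0 1) * M 1 1],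
    ⟨?_, by simp⟩, ⟨?_, by simp⟩, ?_⟩
  · rw [Matrix.det_fin_two_of]
    linear_combination (1 - N * M 0 1) * h
  · rw [Matrix.det_fin_two_of]
    linear_combination (1 - N * M 0 1) * h
  · ext a b
    fin_cases a <;> fin_cases b <;> simp [ut, Matrix.mul_apply, Fin.sum_univ_two, ← hd]
    · linear_combination -(1 - N * M 0 1) * M 0 0 * h
    · linear_combination -(1 - N * M 0 1) * M 0 1 * h
    · linear_combination h0
    · linear_combination -(1 - N * M 0 1) * M 1 1 * h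

theorem lv_stmt : LVStmt := by
  refine ⟨lv_act, lv_rP, lv_le, fun N T κ hT => ?_⟩
  have hK := lv_mK hT κ
  have h0 : mK T κ 1 0 = 0 := by simpa using hK.low
  have hp : (0 : ℤ) < (dg T κ : ℕ) := by exact_mod_cast lv_pos hT
  refine ⟨⟨hK.det, h0 ▸ dvd_zero _, hK.fac⟩, h0, hK.det ▸ hp, lv_dvd T κ,
    fun M z u hM hz => ⟨fun hu => ⟨?_, fun l hl i e => ?_⟩, ?_⟩, fun h M hM => ?_,
    fun _ h => lv_smith h0 hK.det (lv_sqf hT) (lv_cop h)⟩
  · rw [← lv_one]
    exact (lv_le 1 M z hz).2 ⟨M, (mul_one _).symm⟩ hu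
  · rw [← lv_rP]
    exact (lv_le _ M z hz).2 (hM.fac l hl i e) hu
  · rintro ⟨h1, h2⟩
    obtain ⟨x, y, rfl⟩ := mem_sp2.1 h1
    have key : ∀ I : Lt, rl !![x, y; 0, 0] z ≤ I ↔ x * z + y * 1 ∈ I := fun I => by
      simp [rl, sp2_le]
    refine (key _).1 ((lv_le M _ z hz).2 (lv_row hT hM _ fun l hl i e => ?_))
    rw [← lv_le _ _ z hz, key, lv_rP]
    exact h2 l hl i e
  · obtain ⟨B, hB⟩ := lv_row hT hK M hM.fac
    refine ⟨B, ⟨?_, ?_⟩, hB⟩
    · have h1 := hM.det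
      rw [hB, Matrix.det_mul, hK.det] at h1
      exact mul_right_cancel₀ hp.ne' (h1.trans (one_mul _).symm)
    · have h1 := hM.low
      have h2 := hK.det
      have h3 := lv_cop (κ := κ) h
      rw [Matrix.det_fin_two, h0, mul_zero, sub_zero] at h2
      rw [← h2] at h3
      rw [hB, Matrix.mul_apply, Fin.sum_univ_two, h0, mul_zero, add_zero] at h1
      exact h3.of_mul_right_left.dvd_of_dvd_mul_right h1

end Pool.Agent.T10
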