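import Pool.Agent.Lib.MP_696deb_nt.B10.Z0

/-! One more prime in the labels. -/

set_option autoImplicit false

open Finset Function
open scoped Classical

namespace Pool.Agent.T10
open Pool.Agent.Lib.MP_696deb_nt Pool.Agent.Lib.MP_696deb_nt.B2 Pool.Agent.Lib.MP_696deb_nt.B2.CM
  Pool.Agent.B4.GE

theorem lw_low (l : ℕ) (i : Option (Fin l)) : rP l i 1 0 = 0 := by
  rcases i with _ | k <;> rfl

theorem lw_mul_low {A B : MZ} (h : A 1 0 = 0) (h' : B 1 0 = 0) : (A * B) 1 0 = 0 := by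
  simp [Matrix.mul_apply, Fin.sum_univ_two, h, h']

theorem lw_fac {p : ℕ} (hp : p.Prime) {X : MZ} (h0 : 0 < X.det) (h : (p : ℤ) ∣ X.det) :
    ∃ (j : Option (Fin p)) (B : MZ), X = B * rP p j := by
  obtain ⟨a, b, d, g, -, h2, rfl⟩ := exists_ut h0
  rw [Matrix.det_mul, h2, one_mul, det_ut] at h
  by_cases ha : p ∣ a
  · obtain ⟨a, rfl⟩ := ha
    refine ⟨none, g * ut a b d, ?_⟩
    rw [mul_assoc]
    congr 1
    ext i j
    fin_cases i <;> fin_cases j <;> simp [rP, ut, mul_comm]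
  · obtain ⟨d, rfl⟩ : p ∣ d := (hp.dvd_mul.1 (by exact_mod_cast h)).resolve_left ha
    have := Fact.mk hp
    have h3 : (a : ZMod p) ≠ 0 := fun e => ha ((ZMod.natCast_eq_zero_iff a p).1 e)
    obtain ⟨c, hc⟩ : (p : ℤ) ∣ b - a * (((b : ZMod p) / a).val : ℕ) :=
      (ZMod.intCast_zmod_eq_zero_iff_dvd _ p).1 (by
        push_cast
        rw [ZMod.natCast_zmod_val, mul_div_cancel₀ _ h3, sub_self])
    have hk := ZMod.val_lt ((b : ZMod p) / (a : ZMod p))
    generalize ((b : ZMod p) / (a : ZMod p)).val = k at hc hk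
    refine ⟨some ⟨k, hk⟩, g * !![(a : ℤ), c; 0, d], ?_⟩
    rw [mul_assoc]
    congr 1
    ext i j
    fin_cases i <;> fin_cases j <;> simp [rP, ut, mul_comm]
    linear_combination hc

theorem lw_bez {d : ℤ} {X Y C : MZ} (h : d • X = C * Y) (hc : IsCoprime d Y.det) :
    ∃ G : MZ, X = G * Y := by
  obtain ⟨u, v, e⟩ := hc
  refine ⟨u • C + v • (X * Y.adjugate), ?_⟩
  rw [add_mul, smul_mul_assoc, smul_mul_assoc, ← h, mul_assoc, Matrix.adjugate_mul,
    Matrix.mul_smul, mul_one, smul_smul, smul_smul, ← add_smul, e, one_smul]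

theorem lw_cancel {A B M : MZ} (hM : M.det ≠ 0) (h : A * M = B * M) : A = B := by
  have := congrArg (· * M.adjugate) h
  simp only [mul_assoc, Matrix.mul_adjugate, Matrix.mul_smul, mul_one] at this
  exact smul_right_injective _ hM this

/-- A matrix of determinant prime to `p` permutes the neighbours. -/
theorem lw_perm {p : ℕ} (hp : p.Prime) {M : MZ} (h0 : 0 < M.det) (hM : IsCoprime M.det p) :
    ∃ π : Equiv.Perm (Option (Fin p)), ∀ j, ∃ B : MZ, B.det = M.det ∧
      rP p (π j) * M = B * rP p j := by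
  have R := isReps_rP hp
  have hp' : (0 : ℤ) < p := Int.natCast_pos.2 hp.pos
  choose σ B h1 using fun j => lw_fac hp (X := rP p j * M)
    (by rw [Matrix.det_mul, R.det]; positivity) (by rw [Matrix.det_mul, R.det]; simp)
  have h2 (j) : (B j).det = M.det := by
    have := congrArg Matrix.det (h1 j)
    rw [Matrix.det_mul, Matrix.det_mul, R.det, R.det, mul_comm] at this
    exact (mul_right_cancel₀ hp'.ne' this).symm
  have hσ : Injective σ := fun i j e => by
    have h3 : M.det • rP p i = B i * (B j).adjugate * rP p j := lw_cancel h0.ne' (by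
      rw [smul_mul_assoc, h1, mul_assoc, h1, mul_assoc, ← mul_assoc (B j).adjugate,
        Matrix.adjugate_mul, h2, e, smul_mul_assoc, one_mul, Matrix.mul_smul])
    obtain ⟨G, hG⟩ := lw_bez h3 (by rwa [R.det])
    refine R.inj i j G ?_ hG
    have := congrArg Matrix.det hG
    rw [Matrix.det_mul, R.det, R.det] at this
    exact mul_right_cancel₀ hp'.ne' (this.symm.trans (one_mul _).symm)
  refine ⟨(Equiv.ofBijective σ (Finite.injective_iff_bijective.1 hσ)).symm, fun j => ⟨_, h2 _,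
    (h1 _).trans (congrArg _ (congrArg _ ?_))⟩⟩
  exact (Equiv.ofBijective σ (Finite.injective_iff_bijective.1 hσ)).apply_symm_apply j

theorem lw_uniq (lv : LVStmt) {T : Finset ℕ} (hT : ∀ p ∈ T, p.Prime) {κ : Lb} {X : MZ}
    (h : Lab 0 T κ X) : ∃ γ, G0 0 γ ∧ mK T κ = γ * X := by
  obtain ⟨-, h1, h2, -, -, h3, -⟩ := lv.2.2.2 1 T κ hT
  obtain ⟨γ, ⟨h4, -⟩, rfl⟩ := h3 (fun p hp => ⟨hT p hp, (hT p hp).not_dvd_one⟩) X
    ⟨h.det, by simp, h.fac⟩
  have h5 : γ 1 0 = 0 := by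
    have h6 := h.low
    rw [Matrix.det_fin_two, h1, mul_zero, sub_zero] at h2
    simpa [Matrix.mul_apply, Fin.sum_univ_two, h1, left_ne_zero_of_mul h2.ne'] using h6
  refine ⟨γ.adjugate, ⟨by rw [det_adjugate_two, h4], by simp [Matrix.adjugate_fin_two, h5]⟩, ?_⟩
  rw [← mul_assoc, Matrix.adjugate_mul, h4, one_smul, one_mul]

theorem lw_smul (C A : MZ) (z : ℂ) {u : ℂ} (h : u ∈ rl A z) : (C.det : ℂ) * u ∈ rl (C * A) z := by
  obtain ⟨m, n, rfl⟩ := mem_sp2.1 h
  refine mem_sp2.2 ⟨m * C 1 1 - n * C 1 0, n * C 0 0 - m * C 0 1, ?_⟩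
  simp only [Matrix.mul_apply, Fin.sum_univ_two, Matrix.det_fin_two]
  push_cast
  ring

theorem lw_inf (lv : LVStmt) {A B A' B' : MZ} (e : A' * B = B' * A)
    (hc : IsCoprime A'.det B'.det) {z : ℂ} (hz : 0 < z.im) : rl A z ⊓ rl B z = rl (A' * B) z := by
  refine le_antisymm (fun u hu => ?_) (le_inf ((lv.2.2.1 _ _ z hz).2 ⟨B', e⟩)
    ((lv.2.2.1 _ _ z hz).2 ⟨A', rfl⟩))
  obtain ⟨a, b, h⟩ := hc
  have h1 := add_mem (int_mul_mem (lw_smul A' B z hu.2) a) (int_mul_mem (e ▸ lw_smul B' A z hu.1) b)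
  rwa [← mul_assoc, ← mul_assoc, ← add_mul, ← Int.cast_mul, ← Int.cast_mul, ← Int.cast_add, h,
    Int.cast_one, one_mul] at h1

theorem lw_rl (lv : LVStmt) {A B : MZ} (hA : 0 < A.det) (hB : 0 < B.det) {z : ℂ}
    (hz : 0 < z.im) : rl (A * B) z = sc (den B z) (rl A (act B z)) := by
  rw [lv.1 _ z (by rw [Matrix.det_mul]; positivity) hz, lv.1 A _ hA (act_pos hB hz), sc_sc,
    act_mul _ hB.ne' hz, den_mul _ hB.ne' hz, mul_comm]

theorem lw_dg {T : Finset ℕ} {l : ℕ} (hl : l ∉ T) (κ : Lb) (o : Option (Option (Fin l))) :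
    dg T (update κ l o) = dg T κ :=
  prod_congr rfl fun p hp => by rw [update_of_ne (by rintro rfl; exact hl hp)]

theorem lw_stmt (lv : LVStmt) : LWStmt := by
  intro T l hT hl
  have R := isReps_rP hl
  refine ⟨fun hm κ _ h0 => ?_, fun hm => ⟨fun κ hκ => ?_, fun i => ?_⟩⟩
  · obtain ⟨h1, h2, h3, -⟩ := lv.2.2.2 0 T κ hT
    obtain ⟨π, hπ⟩ := lw_perm hl h3 (by
      rw [h1.det, Nat.isCoprime_iff_coprime]
      refine Nat.Coprime.prod_left fun p hp => ?_
      split_ifs with k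
      · exact Nat.coprime_one_left l
      · exact (Nat.coprime_primes (hT p hp) hl).2 (by rintro rfl; exact k h0))
    refine ⟨π, fun i => lw_uniq lv hT ⟨?_, ?_, fun p hp j hj => ?_⟩⟩
    · rw [Matrix.det_mul, R.det, h1.det, ← insert_erase hm, dg, dg, prod_insert (notMem_erase _ _),
        prod_insert (notMem_erase _ _), update_self, if_pos h0, if_neg (by simp), one_mul,
        ← Nat.cast_mul]
      exact congrArg _ (congrArg _ (lw_dg (notMem_erase _ _) κ _).symm)
    · rw [lw_mul_low (lw_low _ _) h2]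
      exact dvd_zero _
    · by_cases e : p = l
      · subst e
        rw [update_self, Option.some.injEq] at hj
        exact hj ▸ (hπ i).imp fun _ h => h.2
      · rw [update_of_ne e] at hj
        obtain ⟨B, hB⟩ := h1.fac p hp j hj
        exact ⟨rP l (π i) * B, by rw [mul_assoc, ← hB]⟩
  · obtain ⟨h1, -⟩ := lv.2.2.2 0 T κ hT
    have h0 := mem_LS.1 hκ l hm
    refine lw_uniq lv (forall_mem_insert .. |>.2 ⟨hl, hT⟩) ⟨?_, h1.low, fun p hp j hj => ?_⟩
    · rw [h1.det, dg, dg, prod_insert hm, if_pos h0, one_mul]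
    · rcases mem_insert.1 hp with rfl | hp
      · exact absurd (h0.symm.trans hj) (by simp)
      · exact h1.fac p hp j hj
  have hl' : 0 < (rP l i).det := by rw [R.det]; exact Int.natCast_pos.2 hl.pos
  have hc (p : ℕ) (hp : p ∈ T) : IsCoprime (l : ℤ) p := Nat.isCoprime_iff_coprime.2
    ((Nat.coprime_primes hl (hT p hp)).2 (by rintro rfl; exact hm hp))
  have key (p : ℕ) : ∃ π : Equiv.Perm (Option (Fin p)), p ∈ T → ∀ j, ∃ B : MZ,
      B.det = (rP l i).det ∧ rP p (π j) * rP l i = B * rP p j := by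
    by_cases hp : p ∈ T
    · exact (lw_perm (hT p hp) hl' (by rw [R.det]; exact hc p hp)).imp fun _ h _ => h
    · exact ⟨1, fun h => absurd h hp⟩
  choose π hπ using key
  refine ⟨π, fun p hp j z hz => ?_, fun κ hκ => ?_⟩
  · obtain ⟨B, h1, h2⟩ := hπ p hp j
    have R' := isReps_rP (hT p hp)
    rw [← lv.2.1, ← lv.2.1, ← lv.2.1, lw_inf lv h2 (by
      rw [h1, R.det, R'.det]; exact (hc p hp).symm) hz,
      lw_rl lv (by rw [R'.det]; exact Int.natCast_pos.2 (hT p hp).pos) hl' hz]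
  · obtain ⟨h1, h2, -⟩ := lv.2.2.2 0 T (om (π ·) κ) hT
    refine lw_uniq lv (forall_mem_insert .. |>.2 ⟨hl, hT⟩) ⟨?_, ?_, fun p hp j hj => ?_⟩
    · rw [Matrix.det_mul, R.det, h1.det, dg, dg, prod_insert hm, update_self, if_neg (by simp),
        ← Nat.cast_mul, mul_comm]
      refine congrArg _ (congrArg _ (Eq.trans ?_ (lw_dg hm κ _).symm))
      exact prod_congr rfl fun p _ => by simp only [om, Option.map_eq_none_iff]
    · rw [lw_mul_low h2 (lw_low _ _)]
      exact dvd_zero _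
    · rcases mem_insert.1 hp with rfl | hp'
      · rw [update_self, Option.some.injEq] at hj
        exact ⟨_, by rw [hj]⟩
      · rw [update_of_ne (by rintro rfl; exact hm hp')] at hj
        obtain ⟨B, hB⟩ := h1.fac p hp' (π p j) (by rw [om, hj]; rfl)
        obtain ⟨B', -, h3⟩ := hπ p hp' j
        exact ⟨B * B', by rw [hB, mul_assoc, h3, mul_assoc]⟩

end Pool.Agent.T10
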