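import Pool.Agent.Lib.MP_696deb_nt.B10.Z0

/-! Sums over labels. -/

set_option autoImplicit false

open Finset Function
open scoped Classical

namespace Pool.Agent.T10

section
variable {A : Type*} [AddCommGroup A]

theorem ml_congr {T : Finset ℕ} {c c' : (l : ℕ) → Option (Option (Fin l)) → ℤ} {g g' : Lb → A}
    (hc : ∀ l ∈ T, ∀ o, c l o = c' l o) (hg : ∀ κ ∈ LS T, g κ = g' κ) :
    ms T c g = ms T c' g' :=
  sum_congr rfl fun κ hκ => by rw [hg κ hκ, prod_congr rfl fun l hl => hc l hl (κ l)]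

theorem ml_smul (T : Finset ℕ) (c : (l : ℕ) → Option (Option (Fin l)) → ℤ) (g : Lb → A)
    (s : ℤ) : ms T c (fun κ => s • g κ) = s • ms T c g := by
  rw [ms, ms, smul_sum]
  exact sum_congr rfl fun κ _ => smul_comm _ _ _

theorem ml_sum {ι : Type*} (U : Finset ι) (T : Finset ℕ)
    (c : (l : ℕ) → Option (Option (Fin l)) → ℤ) (g : ι → Lb → A) :
    ∑ i ∈ U, ms T c (g i) = ms T c fun κ => ∑ i ∈ U, g i κ := by
  simp only [ms]
  rw [sum_comm]
  exact sum_congr rfl fun κ _ => smul_sum.symm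

theorem ml_om_om {T : Finset ℕ} {ω ω' : Mp} (h : ∀ l ∈ T, ∀ i, ω' l (ω l i) = i) {κ : Lb}
    (hκ : κ ∈ LS T) : om ω' (om ω κ) = κ := by
  funext l
  by_cases hl : l ∈ T
  · simp only [om]
    cases κ l with
    | none => rfl
    | some i => simp [h l hl]
  · simp [om, mem_LS.1 hκ l hl]

theorem ml_reindex (T : Finset ℕ) (c : (l : ℕ) → Option (Option (Fin l)) → ℤ) (g : Lb → A)
    (ω ω' : Mp) (h1 : ∀ l ∈ T, ∀ i, ω' l (ω l i) = i) (h2 : ∀ l ∈ T, ∀ i, ω l (ω' l i) = i) :
    ms T (fun l o => c l (o.map (ω l))) (fun κ => g (om ω κ)) = ms T c g :=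
  sum_nbij' (om ω) (om ω') (fun _ h => om_mem ω h) (fun _ h => om_mem ω' h)
    (fun _ h => ml_om_om h1 h) (fun _ h => ml_om_om h2 h) fun _ _ => rfl

theorem ml_empty (c : (l : ℕ) → Option (Option (Fin l)) → ℤ) (g : Lb → A) :
    ms ∅ c g = g fun _ => none := by
  simp [ms, LS_empty]

theorem ml_insert {T : Finset ℕ} {l : ℕ} (hl : l ∉ T)
    (c : (l : ℕ) → Option (Option (Fin l)) → ℤ) (g : Lb → A) :
    ms (insert l T) c g = ∑ o, c l o • ms T c fun κ => g (update κ l o) := by
  rw [ms, sum_LS_insert hl]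
  refine sum_congr rfl fun o _ => ?_
  rw [ms, smul_sum]
  refine sum_congr rfl fun κ _ => ?_
  rw [prod_insert hl, update_self, mul_smul]
  congr 2
  exact prod_congr rfl fun p hp => by rw [update_of_ne (by rintro rfl; exact hl hp)]

theorem ml_trc {T : Finset ℕ} {l : ℕ} (hl : l ∉ T) {a : ℕ → ℤ} {g : Lb → A}
    (h : Trc (insert l T) a g) (o : Option (Option (Fin l))) :
    Trc T a fun κ => g (update κ l o) := by
  intro p hp κ hκ e
  have hne : p ≠ l := by rintro rfl; exact hl hp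
  have := h p (mem_insert_of_mem hp) (update κ l o)
    (update_mem (LS_mono (subset_insert _ _) hκ) (mem_insert_self _ _) _)
    (by rw [update_of_ne hne, e])
  rw [← this]
  exact sum_congr rfl fun i _ => congrArg g (update_comm hne _ _ _)

theorem ml_trc_one {T : Finset ℕ} {l : ℕ} (hl : l ∉ T) {a : ℕ → ℤ} {g : Lb → A}
    (h : Trc (insert l T) a g) (c : (l : ℕ) → Option (Option (Fin l)) → ℤ) :
    ∑ i, ms T c (fun κ => g (update κ l (some i))) =
      a l • ms T c fun κ => g (update κ l none) := by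
  rw [ml_sum, ← ml_smul]
  refine ml_congr (fun _ _ _ => rfl) fun κ hκ => ?_
  have e := mem_LS.1 hκ l hl
  rw [h l (mem_insert_self _ _) κ (LS_mono (subset_insert _ _) hκ) e, ← e, update_eq_self]

theorem ml_compl_one {a : ℕ → ℤ} {R : Rs} {l : ℕ} (ha : Even (a l))
    (X : Option (Option (Fin l)) → A) (hX : ∑ i, X (some i) = a l • X none) :
    ∑ o, wR a (fun l i => ¬ R l i) l o • X o = -∑ o, wR a R l o • X o := by
  rw [eq_neg_iff_add_eq_zero, ← sum_add_distrib, Fintype.sum_option]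
  have h1 : ∀ i, wR a (fun l i => ¬ R l i) l (some i) • X (some i) +
      wR a R l (some i) • X (some i) = X (some i) := fun i => by
    by_cases h : R l i <;> simp [wR, h]
  rw [sum_congr rfl fun i _ => h1 i, hX, ← add_smul, ← add_smul]
  obtain ⟨k, hk⟩ := ha
  have h2 : wR a (fun l i => ¬ R l i) l none + wR a R l none + a l = 0 := by
    simp only [wR]
    omega
  rw [h2, zero_smul]

theorem ml_compl {a : ℕ → ℤ} (R : Rs) (T : Finset ℕ) : ∀ g : Lb → A, (∀ l ∈ T, Even (a l)) →
    Trc T a g → ms T (wR a fun l i => ¬ R l i) g = (-1 : ℤ) ^ T.card • ms T (wR a R) g := by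
  induction T using Finset.induction_on with
  | empty => intro g _ _; simp [ml_empty]
  | insert l T hl ih =>
    intro g ha h
    rw [ml_insert hl, ml_insert hl, card_insert_of_notMem hl, pow_succ, mul_smul, neg_one_smul,
      ← ml_compl_one (ha l (mem_insert_self _ _)) _ (ml_trc_one hl h _), smul_sum]
    refine sum_congr rfl fun o _ => ?_
    rw [ih _ (fun p hp => ha p (mem_insert_of_mem hp)) (ml_trc hl h o), smul_comm]

theorem ml_flip {T : Finset ℕ} {a : ℕ → ℤ} {R : Rs} {ω : Mp} {g : Lb → A}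
    (ha : ∀ l ∈ T, Even (a l)) (h : Trc T a g) (hω : ∀ l ∈ T, Involutive (ω l))
    (hR : ∀ l ∈ T, ∀ i, R l (ω l i) ↔ ¬ R l i) {g' : Lb → A} {s : ℤ}
    (hg : ∀ κ ∈ LS T, g' (om ω κ) = s • g κ) :
    ms T (wR a R) g' = (s * (-1) ^ T.card) • ms T (wR a R) g := by
  rw [← ml_reindex T (wR a R) g' ω ω hω hω, mul_smul, ← ml_compl R T g ha h, ← ml_smul]
  refine ml_congr (fun l hl o => ?_) hg
  cases o with
  | none => rfl
  | some i =>
    have := hR l hl i
    by_cases k : R l i <;> simp_all [wR]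

theorem ml_rep_one {a : ℕ → ℤ} {R R' : Rs} {l : ℕ} {ω : Option (Fin l) → Option (Fin l)}
    (hω : Involutive ω) (hR : ∀ i, R l (ω i) ↔ ¬ R l i) (hR' : ∀ i, R' l (ω i) ↔ ¬ R' l i)
    (X : Option (Option (Fin l)) → A) (hX : ∀ i, X (some (ω i)) = X (some i)) :
    ∑ o, wR a R' l o • X o = ∑ o, wR a R l o • X o := by
  rw [Fintype.sum_option (α := Option (Fin l)), Fintype.sum_option (α := Option (Fin l))]
  congr 1
  let β : Option (Fin l) → Option (Fin l) := fun i => if R' l i ↔ R l i then i else ω i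
  have hβ : Involutive β := fun i => by
    by_cases k : R' l i ↔ R l i
    · simp only [β, if_pos k]
    · have k' : ¬ (R' l (ω i) ↔ R l (ω i)) := by rw [hR, hR']; tauto
      simp only [β, if_neg k, if_neg k']
      exact hω i
  refine Fintype.sum_bijective β hβ.bijective _ _ fun i => ?_
  by_cases k : R' l i ↔ R l i
  · simp only [β, if_pos k, wR, k]
  · have k' : R l (ω i) ↔ R' l i := by rw [hR]; tauto
    simp only [β, if_neg k, wR, k', hX]

theorem ml_indep_one {T : Finset ℕ} {a : ℕ → ℤ} {R R' : Rs} {ω : Mp} {g : Lb → A} {s : ℤ}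
    (ha : ∀ l ∈ T, Even (a l)) (h : Trc T a g) (hω : ∀ l ∈ T, Involutive (ω l))
    (hg : ∀ κ ∈ LS T, g (om ω κ) = s • g κ) (hs : s * (-1) ^ T.card = -1)
    (hR : ∀ l ∈ T, ∀ i, R l (ω l i) ↔ ¬ R l i) (hR' : ∀ l ∈ T, ∀ i, R' l (ω l i) ↔ ¬ R' l i)
    (l : ℕ) (e : ∀ p, p ≠ l → R' p = R p) : ms T (wR a R') g = ms T (wR a R) g := by
  have hw : ∀ p, p ≠ l → ∀ o, wR a R' p o = wR a R p o := fun p hp o => by
    cases o with
    | none => rfl
    | some i => simp only [wR, e p hp]
  by_cases hl : l ∈ T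
  swap
  · exact ml_congr (fun p hp => hw p (by rintro rfl; exact hl hp)) fun _ _ => rfl
  obtain ⟨U, hU, rfl⟩ : ∃ U, l ∉ U ∧ T = insert l U :=
    ⟨T.erase l, notMem_erase _ _, (insert_erase hl).symm⟩
  have hs' : s * (-1) ^ U.card = 1 := by
    rw [card_insert_of_notMem hU, pow_succ, ← mul_assoc] at hs
    omega
  rw [ml_insert hU, ml_insert hU, ← ml_rep_one (hω l hl) (hR l hl) (hR' l hl)]
  · refine sum_congr rfl fun o _ => ?_
    rw [ml_congr (fun p hp => hw p (by rintro rfl; exact hU hp)) fun _ _ => rfl]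
  · intro i
    rw [ml_flip (fun p hp => ha p (mem_insert_of_mem hp)) (ml_trc hU h (some i))
      (fun p hp => hω p (mem_insert_of_mem hp)) (fun p hp => hR p (mem_insert_of_mem hp))
      (s := s), hs', one_smul]
    intro κ hκ
    rw [← hg _ (update_mem (LS_mono (subset_insert _ _) hκ) hl _)]
    congr 1
    funext p
    by_cases k : p = l
    · subst k
      simp [om]
    · simp [om, update_of_ne k]

theorem ml_indep {T : Finset ℕ} {a : ℕ → ℤ} {R R' : Rs} {ω : Mp} {g : Lb → A} {s : ℤ}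
    (ha : ∀ l ∈ T, Even (a l)) (h : Trc T a g) (hω : ∀ l ∈ T, Involutive (ω l))
    (hg : ∀ κ ∈ LS T, g (om ω κ) = s • g κ) (hs : s * (-1) ^ T.card = -1)
    (hR : ∀ l ∈ T, ∀ i, R l (ω l i) ↔ ¬ R l i) (hR' : ∀ l ∈ T, ∀ i, R' l (ω l i) ↔ ¬ R' l i) :
    ms T (wR a R') g = ms T (wR a R) g := by
  have rep : ∀ S : Finset ℕ, ∀ l ∈ T, ∀ i, (fun p => if p ∈ S then R' p else R p : Rs) l (ω l i) ↔
      ¬ (fun p => if p ∈ S then R' p else R p : Rs) l i := fun S l hl i => by
    by_cases k : l ∈ S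
    · simp only [if_pos k]; exact hR' l hl i
    · simp only [if_neg k]; exact hR l hl i
  have key : ∀ S : Finset ℕ, ms T (wR a fun p => if p ∈ S then R' p else R p) g =
      ms T (wR a R) g := fun S => by
    induction S using Finset.induction_on with
    | empty => simp
    | insert l S _ ih =>
      rw [← ih]
      exact ml_indep_one ha h hω hg hs (rep S) (rep _) l fun p hp => by simp [hp]
  rw [← key T]
  refine ml_congr (fun l hl o => ?_) fun _ _ => rfl
  cases o with
  | none => rfl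
  | some i => simp only [wR, if_pos hl]

end

theorem ml_stmt : MLStmt := by
  intro A _ T a g R
  refine ⟨fun π => ?_, fun R' h => ?_, fun ha h => ⟨ml_compl R T g ha h,
    fun ω s hω hg hR => ⟨ml_flip ha h hω hR hg, fun R' hs hR' => ml_indep ha h hω hg hs hR hR'⟩⟩⟩
  · rw [← ml_reindex T (wR a fun l i => R l ((π l).symm i)) g (π ·) (fun l => (π l).symm)
      (fun l _ i => (π l).symm_apply_apply i) fun l _ i => (π l).apply_symm_apply i]
    refine ml_congr (fun l _ o => ?_) fun _ _ => rfl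
    cases o with
    | none => rfl
    | some i => simp [wR]
  · refine ml_congr (fun l hl o => ?_) fun _ _ => rfl
    cases o with
    | none => rfl
    | some i => simp only [wR, h l hl i]

end Pool.Agent.T10
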