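import Pool.Agent.Lib.MP_696deb_nt.B10.ZK

/-! Congruent invariants come from congruent points. -/

set_option autoImplicit false

open Finset Polynomial
open scoped Classical NNReal

namespace Pool.Agent.T10
open Pool.Agent.Lib.MP_696deb_nt

variable {V : Valuation ℂ ℝ≥0} {L : ℕ}

theorem mt_one_of_prod {ι : Type*} {s : Finset ι} {a : ι → ℂ} (ha : ∀ k ∈ s, V (a k) ≤ 1)
    (h : V (∏ k ∈ s, a k) = 1) {k : ι} (hk : k ∈ s) : V (a k) = 1 := by
  rw [← mul_prod_erase _ _ hk, map_mul] at h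
  refine le_antisymm (ha k hk) (h ▸ mul_le_of_le_one_right' ?_)
  rw [map_prod]
  exact prod_le_one' fun j hj => ha j (mem_of_mem_erase hj)

/-- There are integral elements outside finitely many residue classes. -/
theorem mt_avoid (S : Finset ℂ) (hS : ∀ s ∈ S, V s ≤ 1) :
    ∃ x, V x ≤ 1 ∧ ∀ s ∈ S, V (x - s) = 1 := by
  have hS' : ∀ s ∈ insert 0 S, V s ≤ 1 := by simpa using hS
  have ne : (insert 0 S).Nonempty := insert_nonempty _ _
  suffices h : ∃ x, V x ≤ 1 ∧ ∀ s ∈ insert 0 S, V (x - s) = 1 from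
    h.imp fun x k => ⟨k.1, fun s hs => k.2 s (mem_insert_of_mem hs)⟩
  generalize insert 0 S = T at hS' ne
  have d : (∏ s ∈ T, (X - C s) : ℂ[X]).natDegree = T.card := by
    rw [natDegree_prod_of_monic _ _ fun s _ => monic_X_sub_C s]
    simp
  obtain ⟨x, hx⟩ := IsAlgClosed.exists_root (∏ s ∈ T, (X - C s) - C 1 : ℂ[X]) (by
    refine (natDegree_pos_iff_degree_pos.1 ?_).ne'
    rw [natDegree_sub_C, d]
    exact ne.card_pos)
  have e : ∏ s ∈ T, (x - s) = 1 := by simpa [eval_prod, sub_eq_zero] using hx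
  have h1 : V x ≤ 1 := by
    by_contra! k
    have h2 : ∀ s ∈ T, V (x - s) = V x := fun s hs =>
      V.map_sub_eq_of_lt_left ((hS' s hs).trans_lt k)
    have h3 := congrArg V e
    rw [map_prod, prod_congr rfl h2, prod_const, map_one] at h3
    exact (one_lt_pow₀ k ne.card_pos.ne').ne' h3
  exact ⟨x, h1, fun s hs => mt_one_of_prod (fun k hk => V.map_sub_le h1 (hS' k hk))
    (by rw [e, map_one]) hs⟩

/-- Polynomials with integral values preserve congruences. -/
theorem mt_poly (n : ℕ) : ∀ (P : ℂ[X]) (S : Finset ℂ), P.natDegree ≤ n → (∀ s ∈ S, V s ≤ 1) →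
    (∀ x, V x ≤ 1 → (∀ s ∈ S, V (x - s) = 1) → V (P.eval x) ≤ 1) →
    ∀ x, V x ≤ 1 → V (P.eval x) ≤ 1 ∧ ∀ y, V y ≤ 1 → V (x - y) < 1 →
      V (P.eval x - P.eval y) < 1 := by
  induction n with
  | zero =>
    intro P S hP hS h x _
    obtain ⟨a, a1, a2⟩ := mt_avoid S hS
    have := h a a1 a2
    rw [eq_C_of_natDegree_le_zero hP] at this ⊢
    simpa using this
  | succ n ih =>
    intro P S hP hS h x hx
    obtain ⟨a, a1, a2⟩ := mt_avoid S hS
    have e : ∀ t, P.eval t = P.eval a + (t - a) * (P /ₘ (X - C a)).eval t := fun t => by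
      conv_lhs => rw [← modByMonic_add_div P (X - C a), modByMonic_X_sub_C_eq_C_eval]
      simp
    have k := ih (P /ₘ (X - C a)) (insert a S)
      (by rw [natDegree_divByMonic _ (monic_X_sub_C a), natDegree_X_sub_C]; omega)
      (by simpa using ⟨a1, hS⟩) fun t t1 t2 => by
        have h1 := V.map_sub_le (h t t1 fun s hs => t2 s (mem_insert_of_mem hs)) (h a a1 a2)
        rwa [e t, add_sub_cancel_left, map_mul, t2 a (mem_insert_self _ _), one_mul] at h1
    refine ⟨?_, fun y hy hxy => ?_⟩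
    · rw [e x]
      refine V.map_add_le (h a a1 a2) ?_
      rw [map_mul]
      exact mul_le_one' (V.map_sub_le hx a1) (k x hx).1
    · rw [e x, e y, show ∀ c p q : ℂ, c + (x - a) * p - (c + (y - a) * q) =
        (x - y) * p + (y - a) * (p - q) from fun c p q => by ring]
      refine V.map_add_lt ?_ ?_ <;> rw [map_mul]
      · exact mul_lt_one_of_nonneg_of_lt_one_left zero_le hxy (k x hx).1
      · exact mul_lt_one_of_nonneg_of_lt_one_right (V.map_sub_le hy a1) zero_le
          ((k x hx).2 y hy hxy)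

/-- The reduction of a matrix. -/
def mt_red (L : ℕ) : MZ →+* Matrix (Fin 2) (Fin 2) (ZMod L) := (Int.castRingHom (ZMod L)).mapMatrix

theorem mt_inv {F : ℂ → ℂ} (h : Cl V L F) {g g' : MZ} (hg : g.det = 1) (hg' : g'.det = 1)
    (e : mt_red L g' = mt_red L g) {z : ℂ} (hz : 0 < z.im) : F (act g' z) = F (act g z) := by
  have e1 : g' = g' * g.adjugate * g := by
    rw [mul_assoc, Matrix.adjugate_mul, hg, one_smul, mul_one]
  have e2 : mt_red L (g' * g.adjugate - 1) = 0 := by
    rw [map_sub, map_mul, e, ← map_mul, Matrix.mul_adjugate, hg, one_smul, sub_self]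
  rw [e1, act_mul _ (by omega) hz]
  refine h.inv _ (by rw [Matrix.det_mul, det_adjugate_two, hg, hg', one_mul]) (fun i j => ?_) _
    (act_pos (by omega) hz)
  exact (ZMod.intCast_zmod_eq_zero_iff_dvd _ _).1 (congrFun (congrFun e2 i) j)

/-- Representatives. -/
theorem mt_reps (hL : L ≠ 0) : ∃ (ι : Type) (_ : Fintype ι) (r : ι → MZ), (∀ i, (r i).det = 1) ∧
    (∃ i, mt_red L (r i) = mt_red L 1) ∧ ∀ g : MZ, g.det = 1 →
      ∃ π : Equiv.Perm ι, ∀ i, mt_red L (r (π i)) = mt_red L (r i * g) := by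
  have : NeZero L := ⟨hL⟩
  let ι := {m : Matrix (Fin 2) (Fin 2) (ZMod L) // ∃ g : MZ, g.det = 1 ∧ mt_red L g = m}
  choose r r1 r2 using fun i : ι => i.2
  refine ⟨ι, Fintype.ofFinite ι, r, r1, ⟨⟨_, 1, Matrix.det_one, rfl⟩, r2 _⟩, fun g hg => ?_⟩
  let f : ι → ι := fun i => ⟨_, r i * g, by rw [Matrix.det_mul, r1, hg, one_mul], rfl⟩
  have hf : Function.Injective f := fun i j e => by
    have h1 : mt_red L (r i * g) = mt_red L (r j * g) := congrArg Subtype.val e
    have h2 : ∀ k, mt_red L (r k * g) * mt_red L g.adjugate = k.1 := fun k => by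
      rw [← map_mul, mul_assoc, Matrix.mul_adjugate, hg, one_smul, mul_one, r2]
    exact Subtype.ext (by rw [← h2, h1, h2])
  exact ⟨Equiv.ofBijective f (Finite.injective_iff_bijective.1 hf), fun i => r2 (f i)⟩

theorem mt_comb {F G : ℂ → ℂ} {c : ℂ} (h : Cl V L F) (k : Cl V L G) (hc : V c ≤ 1) :
    Cl V L fun z => F z + c * G z where
  inv g hg e z hz := by rw [h.inv g hg e z hz, k.inv g hg e z hz]
  le g hg := (h.le g hg).add ((LE.const (S := ⊤) (c := c) trivial).mul (k.le g hg)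
    fun _ _ _ _ => trivial)
  int z hz hj := V.map_add_le (h.int z hz hj) (by
    rw [map_mul]
    exact mul_le_one' hc (k.int z hz hj))

theorem mt_zero : Cl V L fun _ => 0 :=
  ⟨fun _ _ _ _ _ => rfl, fun _ _ => LE.const trivial, fun _ _ _ => by simp⟩

theorem mt_stmt : MTStmt := by
  intro V L z z' hL hz hz' hj hd
  have hj' : V (jf z') ≤ 1 := by simpa using V.map_sub_le hj hd.le
  obtain ⟨ι, _, r, r1, ⟨i₀, r2⟩, r3⟩ := mt_reps hL
  have pos : ∀ i {y : ℂ}, 0 < y.im → 0 < (act (r i) y).im := fun i y hy =>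
    act_pos (by rw [r1]; exact one_pos) hy
  have bd : ∀ F, Cl V L F → ∀ i y, 0 < y.im → V (jf y) ≤ 1 → V (F z - F (act (r i) y)) ≤ 1 :=
    fun F hF i y hy k => V.map_sub_le (hF.int z hz hj)
      (hF.int _ (pos i hy) (by rwa [jf_act (r1 i) hy]))
  have one : ∀ F, Cl V L F → ∃ i, V (F z - F (act (r i) z')) < 1 := fun F hF => by
    have h1 : Inv1 fun y => ∏ i, (F z - F (act (r i) y)) := fun g hg y hy => by
      obtain ⟨π, hπ⟩ := r3 g hg
      beta_reduce
      rw [← Equiv.prod_comp π fun i => F z - F (act (r i) y)]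
      refine prod_congr rfl fun i _ => ?_
      rw [← act_mul _ (by omega) hy, mt_inv hF (by rw [Matrix.det_mul, r1, hg, one_mul]) (r1 _)
        (hπ i) hy]
    have h2 : (∏ i, fun y : ℂ => F z - F (act (r i) (L * y))) ∈ LR ⊤ := prod_mem fun i _ =>
      (LR ⊤).sub_mem (LE.const (c := F z) trivial) (hF.le _ (r1 i))
    obtain ⟨P, -, hP⟩ := (LE.of_comp (S := ⊤) hL h1.periodic
      (LE.congr h2 fun y _ => by rw [Finset.prod_apply])).exists_poly h1
    have h3 := (mt_poly (V := V) _ P ∅ le_rfl (by simp) (fun x hx _ => by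
      obtain ⟨y, hy, rfl⟩ := G5.jf_surj x
      rw [← hP y hy, map_prod]
      exact prod_le_one' fun i _ => bd F hF i y hy hx) _ hj).2 _ hj' hd
    rw [← hP z hz, ← hP z' hz', prod_eq_zero (mem_univ i₀) (by
      rw [mt_inv hF Matrix.det_one (r1 _) r2 hz, act_one, sub_self]), zero_sub, V.map_neg,
      map_prod] at h3
    by_contra! k
    exact h3.not_ge (one_le_prod' fun i _ => k i)
  by_contra! k
  have h1 : ∀ i, ∃ F, Cl V L F ∧ V (F z - F (act (r i) z')) = 1 := fun i => by
    by_contra! e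
    exact k _ (r1 i) ⟨hz, pos i hz', hj, by rwa [jf_act (r1 i) hz'], fun F hF =>
      (bd F hF i z' hz' hj').lt_of_ne (e F hF)⟩
  have h2 : ∀ s : Finset ι, ∃ F, Cl V L F ∧ ∀ i ∈ s, V (F z - F (act (r i) z')) = 1 := fun s => by
    induction s using Finset.induction_on with
    | empty => exact ⟨_, mt_zero, by simp⟩
    | insert i s _ ih =>
      obtain ⟨F, f1, f2⟩ := ih
      obtain ⟨G, g1, g2⟩ := h1 i
      obtain ⟨c, c1, c2⟩ := mt_avoid (V := V) ((univ.filter fun j =>
          V (G z - G (act (r j) z')) = 1).image fun j =>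
            -(F z - F (act (r j) z')) / (G z - G (act (r j) z'))) fun t ht => by
        obtain ⟨j, j1, rfl⟩ := mem_image.1 ht
        rw [map_div₀, (mem_filter.1 j1).2, div_one, V.map_neg]
        exact bd F f1 j z' hz' hj'
      refine ⟨_, mt_comb f1 g1 c1, fun j hj1 => ?_⟩
      by_cases e : V (G z - G (act (r j) z')) = 1
      · have e0 : G z - G (act (r j) z') ≠ 0 := fun e0 => by simp [e0] at e
        have := c2 _ (mem_image_of_mem _ (mem_filter.2 ⟨mem_univ j, e⟩))
        refine Eq.trans ?_ ((congrArg₂ (· * ·) this e).trans (mul_one _))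
        rw [← map_mul]
        congr 1
        field_simp
        ring
      · have e1 := f2 j ((mem_insert.1 hj1).resolve_left fun e1 => e (e1 ▸ g2))
        rw [← e1, show ∀ a b p q : ℂ, a + c * p - (b + c * q) = a - b + c * (p - q) from
          fun a b p q => by ring]
        refine V.map_add_eq_of_lt_left ?_
        rw [e1, map_mul]
        exact mul_lt_one_of_nonneg_of_lt_one_right c1 zero_le
          ((bd G g1 j z' hz' hj').lt_of_ne e)
  obtain ⟨F, f1, f2⟩ := h2 univ
  obtain ⟨i, hi⟩ := one F f1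
  exact hi.ne (f2 i (mem_univ i))

end Pool.Agent.T10
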