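import Pool.Agent.Lib.MP_696deb_nt.B10.Z0
import Pool.Agent.Lib.MP_696deb_nt.B2.CMd

/-! The involution on the neighbours of a fixed point. -/

set_option autoImplicit false

open NumberTheorySymbols Finset Function
open scoped Classical

namespace Pool.Agent.T10
open Pool.Agent.Lib.MP_696deb_nt Pool.Agent.Lib.MP_696deb_nt.B2 Pool.Agent.Lib.MP_696deb_nt.B2.CM
  Pool.Agent.B4.GE Pool.Agent.Shared.Weier

variable {N l : ℕ} {z u : ℂ}

theorem om_dl (h : Fw N z) (hu : u ∈ sp2 z 1) : dl N * u ∈ sp2 z 1 :=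
  cmd_nb_le (l := N) (s := 1) z none (h.eq ▸ mem_sc.2 ⟨u, hu, rfl⟩ : dl N * u ∈ sp2 (N * z) 1)

/-- The matrix of the multiplication. -/
theorem om_mat (h : Fw N z) (hN : N ≠ 0) : ∃ a b c : ℤ, dl N * z = (a * N : ℤ) * z + b ∧
    dl N = (c * N : ℤ) * z + (-(a * N) : ℤ) ∧ (a * N) ^ 2 + b * (c * N) = -N := by
  obtain ⟨a, b, e1⟩ := cmd_mem (h.eq ▸ mem_sc.2 ⟨z, left_mem_sp2 _ _, rfl⟩ :
    dl N * z ∈ sp2 (N * z) 1)
  obtain ⟨c, d, e2⟩ := cmd_mem (h.eq ▸ mem_sc.2 ⟨1, right_mem_sp2 _ _, mul_one _⟩ :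
    dl N ∈ sp2 (N * z) 1)
  have e3 := dl_sq N
  obtain ⟨k1, -⟩ := tau_indep h.pos.ne' (x := (a * N) ^ 2 + b * (c * N) + N)
    (y := a * N * b + b * d) (by
      push_cast
      linear_combination z * e3 - (dl N + a * N) * e1 - b * e2)
  obtain ⟨k2, -⟩ := tau_indep h.pos.ne' (x := c * N * (a * N + d))
    (y := c * N * b + d ^ 2 + N) (by
      push_cast
      linear_combination e3 - (dl N + d) * e2 - c * N * e1)
  have c0 : c ≠ 0 := by
    rintro rfl
    have := dl_im (Nat.pos_of_ne_zero hN)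
    rw [e2] at this
    simp at this
  obtain rfl : d = -(a * N) := eq_neg_of_add_eq_zero_right
    ((mul_eq_zero.1 k2).resolve_left (mul_ne_zero c0 (Int.natCast_ne_zero.2 hN)))
  exact ⟨a, b, c, by rw [e1]; push_cast; ring, by rw [e2]; push_cast; ring, by linarith⟩

theorem om_sq {I : Lt} (hl : l.Prime) (hN : ¬ l ∣ N) (h1 : l * u ∈ I)
    (h2 : dl N * (dl N * u) ∈ I) : u ∈ I := by
  refine cmd_bez hl (x := -N) (fun k => hN (Int.natCast_dvd_natCast.1 (dvd_neg.1 k))) h1 ?_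
  rwa [← mul_assoc, ← sq, dl_sq, ← Int.cast_natCast, ← Int.cast_neg] at h2

theorem om_two (h : Fw N z) (hl : l.Prime) (hN : ¬ l ∣ N) {i j k : Option (Fin l)}
    (h1 : Om N l z i j) (h2 : Om N l z j k) : i = k :=
  cmd_nb_eq hl (cmd_one hl) h.pos.ne' fun u hu => om_sq hl hN
    ((nb_mid hl h.pos.ne' k).1.le (mem_sc.2 ⟨u, cmd_nb_le z i hu, rfl⟩)) (h2 _ (h1 u hu))

theorem om_ex (h : Fw N z) (hl : l.Prime) (hN : ¬ l ∣ N) (i : Option (Fin l)) :
    ∃ j, Om N l z j i := by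
  obtain ⟨m1, m2⟩ := nb_mid (s := 1) hl h.pos.ne' i
  have k : ∀ u ∈ sp2 z 1, dl N * (l * u) ∈ sc l (sp2 z 1) := fun u hu =>
    mem_sc.2 ⟨_, om_dl h hu, mul_left_comm _ _ _⟩
  rcases eq_nb hl (cmd_one hl) h.pos.ne'
    (I := (nb l 1 z i).comap (LinearMap.mulLeft ℤ (dl N)) ⊓ sp2 z 1) (fun v hv => by
      obtain ⟨u, hu, rfl⟩ := mem_sc.1 hv
      exact ⟨m1.le (k u hu), by exact_mod_cast int_mul_mem hu l⟩) inf_le_right with e | e | ⟨j, e⟩
  · refine absurd (fun u hu => ?_) m1.not_ge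
    have h1 : dl N * u ∈ sc l (sp2 z 1) := e.le ⟨by
      change dl N * (dl N * u) ∈ nb l 1 z i
      rw [← mul_assoc, ← sq, dl_sq]
      exact_mod_cast int_mul_mem hu (-N), om_dl h (m2.le hu)⟩
    obtain ⟨v, hv, h2⟩ := mem_sc.1 h1
    exact om_sq hl hN (mem_sc.2 ⟨u, m2.le hu, rfl⟩) (h2 ▸ k v hv)
  · exact absurd (fun u hu => om_sq hl hN (m1.le (mem_sc.2 ⟨u, hu, rfl⟩)) (e.ge (om_dl h hu)).1)
      m2.not_ge
  · exact ⟨j, fun u hu => (e.ge hu).1⟩

theorem om_ne (h : Fw N z) (hN : N ≠ 0) (hJ : J(-N | l) = -1) (i : Option (Fin l)) :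
    ¬ Om N l z i i := fun k => by
  obtain ⟨a, b, c, e1, e2, e3⟩ := om_mat h hN
  obtain ⟨m, hm⟩ : ∃ m : ℤ, (l : ℤ) ∣ m ^ 2 + N := by
    rcases i with _ | i
    · have := k 1 (right_mem_sp2 _ _)
      rw [mul_one, e2, cmd_mem_none h.pos.ne'] at this
      exact ⟨a * N, by
        rw [show (a * N) ^ 2 + (N : ℤ) = -b * (c * N) by linear_combination e3]
        exact this.mul_left _⟩
    · have := k _ (left_mem_sp2 _ _)
      rw [show dl N * (z + (1 : ℤ) * (i : ℕ)) = (a * N + i * (c * N) : ℤ) * z +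
        (b - i * (a * N) : ℤ) by
          push_cast at e1 e2 ⊢
          linear_combination e1 + (i : ℕ) * e2, cmd_mem_some h.pos.ne'] at this
      exact ⟨a * N + i * (c * N), by
        refine (this.mul_left (-(c * N))).trans (dvd_of_eq ?_)
        linear_combination -e3⟩
  refine ZMod.nonsquare_of_jacobiSym_eq_neg_one hJ ⟨m, ?_⟩
  have := (ZMod.intCast_zmod_eq_zero_iff_dvd _ l).2 hm
  push_cast at this ⊢
  linear_combination -this

theorem om_stmt (lv : LVStmt) : OMStmt := by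
  intro N z h hN
  refine ⟨fun l hl hJ => ?_, ?_⟩
  · have hd : ¬ l ∣ N := fun k => by
      rw [jacobiSym.mod_left, Int.emod_eq_zero_of_dvd (dvd_neg.2 (Int.natCast_dvd_natCast.2 k)),
        jacobiSym.zero_left hl.one_lt] at hJ
      omega
    choose ω hω using om_ex h hl hd
    have h1 : Involutive ω := fun i => om_two h hl hd (hω (ω i)) (hω i)
    have h2 : ∀ i, Om N l z i (ω i) := fun i => by
      have := hω (ω i)
      rwa [h1 i] at this
    let e := Fintype.equivFin (Option (Fin l))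
    refine ⟨ω, h1, fun i i' => ⟨fun k => (om_two h hl hd (hω i) k).symm, fun k => k ▸ h2 i⟩,
      fun i => e i < e (ω i), fun i => ?_⟩
    simp only [h1 i, not_lt]
    refine ⟨le_of_lt, fun k => k.lt_of_ne fun p => om_ne h hN hJ i ?_⟩
    have := h2 i
    rwa [e.injective p] at this
  obtain ⟨a, b, c, e1, e2, e3⟩ := om_mat h hN
  have d0 : dl N ≠ 0 := fun k => (dl_im (Nat.pos_of_ne_zero hN)).ne' (by rw [k]; rfl)
  have hU : (!![a * N, b; c * N, -(a * N)] : MZ).det = N := by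
    rw [Matrix.det_fin_two_of]
    linear_combination -e3
  refine ⟨!![a * N, b; c * N, -(a * N)], hU, ?_, e2.symm, fun T ω hT hω κ _ => ?_⟩
  · rw [act_of, mob, ← e1, ← e2, mul_div_cancel_left₀ _ d0]
  obtain ⟨-, -, l3, l4⟩ := lv
  obtain ⟨p1, p2, p3, p4, p5, -⟩ := l4 N T κ fun l hl => (hT l hl).1
  obtain ⟨q1, q2, -, -, q5, -⟩ := l4 N T (om ω κ) fun l hl => (hT l hl).1
  have key : ∀ u ∈ rl (mK T (om ω κ)) z, dl N * u ∈ rl (mK T κ) z := fun u hu => by
    obtain ⟨r1, r2⟩ := (q5 _ z u q1 h.pos).1 hu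
    refine (p5 _ z _ p1 h.pos).2 ⟨om_dl h r1, fun l hl i hi => ?_⟩
    have := (hω l hl (ω l i)).1 u (r2 l hl _ (by rw [om, hi]; rfl))
    rwa [(hω l hl i).2] at this
  have row : ∀ i, (((mK T (om ω κ) * !![a * N, b; c * N, -(a * N)]) i 0 : ℤ) : ℂ) * z +
      ((mK T (om ω κ) * !![a * N, b; c * N, -(a * N)]) i 1 : ℤ) =
      dl N * (mK T (om ω κ) i 0 * z + mK T (om ω κ) i 1) := fun i => by
    simp only [Matrix.mul_apply, Fin.sum_univ_two, Matrix.of_apply, Matrix.cons_val',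
      Matrix.cons_val_zero, Matrix.cons_val_one, Matrix.cons_val_fin_one]
    push_cast at e1 e2 ⊢
    linear_combination -(mK T (om ω κ) i 0 : ℂ) * e1 - (mK T (om ω κ) i 1 : ℂ) * e2
  obtain ⟨B, hB⟩ := (l3 (mK T κ) (mK T (om ω κ) * !![a * N, b; c * N, -(a * N)]) z h.pos).1
    (sp2_le.2 ⟨row 0 ▸ key _ (left_mem_sp2 _ _), row 1 ▸ key _ (right_mem_sp2 _ _)⟩)
  have cp : IsCoprime (N : ℤ) (mK T κ 0 0 * mK T κ 1 1) := by
    have := p1.det
    rw [Matrix.det_fin_two, p2, mul_zero, sub_zero] at this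
    rw [this, Nat.isCoprime_iff_coprime]
    exact (Nat.Coprime.prod_right fun l hl =>
      ((hT l hl).1.coprime_iff_not_dvd.2 (hT l hl).2).symm).coprime_dvd_right p4
  have en := fun i j => congrFun (congrFun hB i) j
  simp only [Matrix.mul_apply, Fin.sum_univ_two] at en
  have c0 : ∀ i, (N : ℤ) ∣ B i 0 := fun i => cp.of_mul_right_left.dvd_of_dvd_mul_right
    ⟨mK T (om ω κ) i 0 * a + mK T (om ω κ) i 1 * c, by
      have := en i 0
      simp only [Matrix.of_apply, Matrix.cons_val', Matrix.cons_val_zero, Matrix.cons_val_one,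
        Matrix.cons_val_fin_one, p2] at this
      linear_combination -this⟩
  obtain ⟨p, hp⟩ := c0 0
  obtain ⟨r, hr⟩ := c0 1
  have c1 : (N : ℤ) ∣ B 1 1 := cp.of_mul_right_right.dvd_of_dvd_mul_right
    ⟨-(mK T (om ω κ) 1 1 * a) - r * mK T κ 0 1, by
      have := en 1 1
      simp only [Matrix.of_apply, Matrix.cons_val', Matrix.cons_val_one,
        Matrix.cons_val_fin_one, q2, hr] at this
      linear_combination -this⟩
  have hγ : B = !![-B 0 1, p; -B 1 1, r] * !![0, -1; (N : ℤ), 0] := by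
    ext i j
    fin_cases i <;> fin_cases j <;> simp [hp, hr, mul_comm]
  refine ⟨!![-B 0 1, p; -B 1 1, r], ⟨?_, dvd_neg.2 c1⟩, by rw [← mul_assoc, ← hγ, hB]⟩
  have dd : dg T (om ω κ) = dg T κ := prod_congr rfl fun l _ => by simp [om]
  have := congrArg Matrix.det hB
  rw [Matrix.det_mul, Matrix.det_mul, hU, q1.det, dd, ← p1.det, hγ, Matrix.det_mul, mul_comm,
    mul_left_inj' p3.ne', Matrix.det_fin_two_of 0] at this
  exact (mul_left_eq_self₀.1 (by simpa using this.symm)).resolve_right (Int.natCast_ne_zero.2 hN)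

end Pool.Agent.T10
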