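import Pool.Agent.Lib.MP_696deb_nt.B10.ZK
import Pool.Agent.Lib.MP_696deb_nt.B5.GAa
import Pool.Agent.Lib.MP_696deb_nt.B5.CJb

/-! Smooth points of the plane model, and conjugate values of the parametrization. -/

set_option autoImplicit false

open Finset
open scoped Classical

namespace Pool.Agent.T10
open Pool.Agent.Lib.MP_696deb_nt Pool.Agent.Lib.MP_696deb_nt.B2 Pool.Agent.Lib.MP_696deb_nt.B2.CM
  Pool.Agent.B4.GE Pool.Agent.Shared.Weier
open Pool.Agent.G5 (Sep exists_sl jf_surj exists_pc)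

theorem se_pos {N : ℕ} (hN : N ≠ 0) {z : ℂ} (hz : 0 < z.im) : 0 < ((N : ℂ) * z).im := by
  simpa using mul_pos (Nat.cast_pos.2 (Nat.pos_of_ne_zero hN)) hz

theorem se_coef {N : ℕ} {α y : ℂ} (h : sc α (sp2 y 1) ≤ sp2 (N * y) 1) :
    ∃ a b c d : ℤ, α * y = a * (N * y) + b ∧ α = c * (N * y) + d := by
  obtain ⟨a, b, e1⟩ := cmd_mem (h (mem_sc.2 ⟨y, left_mem_sp2 _ _, rfl⟩))
  obtain ⟨c, d, e2⟩ := cmd_mem (h (mem_sc.2 ⟨1, right_mem_sp2 _ _, rfl⟩))
  exact ⟨a, b, c, d, e1, by rwa [mul_one] at e2⟩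

theorem se_one {N m : ℕ} {y : ℂ} (hN : Squarefree N) (hm : m.Coprime N) (m0 : m ≠ 0)
    (hy : 0 < y.im) (h : sc (m * dl N) (sp2 y 1) ≤ sp2 (N * y) 1) : Sep N y := by
  intro g hg e
  have N0 : N ≠ 0 := hN.ne_zero
  have n0 : (N : ℤ) ≠ 0 := Nat.cast_ne_zero.2 N0
  obtain ⟨a, b, c, d, e1, e2⟩ := se_coef h
  have e3 : ((m : ℂ) * dl N) ^ 2 = -(N * m ^ 2) := by rw [mul_pow, dl_sq]; ring
  generalize (m : ℂ) * dl N = α at e1 e2 e3
  obtain ⟨f1, f2⟩ := tau_indep hy.ne' (x := c * N * (a * N + d)) (y := b * c * N + d ^ 2 + N * m ^ 2)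
    (by push_cast; linear_combination e3 - (α + d) * e2 - c * N * e1)
  have p0 : (0 : ℤ) < N * m ^ 2 := by positivity
  have c0 : c ≠ 0 := by
    rintro rfl
    nlinarith [sq_nonneg d]
  have f3 : d = -(a * N) := by
    linear_combination (mul_eq_zero.1 f1).resolve_left (mul_ne_zero c0 n0)
  subst f3
  have f4 : b * c = -(m ^ 2) + N * -(a ^ 2) := mul_left_cancel₀ n0 (by linear_combination f2)
  have f5 : IsCoprime (N : ℤ) (b * c) := by
    rw [f4]
    exact ((Nat.isCoprime_iff_coprime.2 hm.symm).pow_right.neg_right).add_mul_left_right _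
  have h2 := act_pos (hg ▸ one_pos : 0 < g.det) hy
  obtain ⟨k, hk, e4⟩ := exists_sl (se_pos N0 h2) (se_pos N0 hy) e.symm
  have d1 : (ut N 0 1).det = N := by simp [det_ut]
  have d2 : (k * (ut N 0 1 * g)).det = N := by simp [hk, hg, d1]
  have e5 : act (k * (ut N 0 1 * g)) y = N * y := by
    rw [act_mul _ (by simp [hg, d1, N0]) hy, act_mul _ (by omega) hy, act_dg, ← e4]
  have e6 : g 1 0 = k 0 0 * (k * (ut N 0 1 * g)) 1 0 - k 1 0 * (k * (ut N 0 1 * g)) 0 0 := by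
    rw [Matrix.det_fin_two] at hk
    simp only [ut, Matrix.mul_apply, Fin.sum_univ_two, Matrix.of_apply, Matrix.cons_val',
      Matrix.cons_val_zero, Matrix.cons_val_one, Matrix.cons_val_fin_one, Nat.cast_one,
      Nat.cast_zero]
    linear_combination -g 1 0 * hk
  generalize k * (ut N 0 1 * g) = B at d2 e5 e6
  have e7 := den_ne' (d2 ▸ n0) hy
  rw [den] at e7
  rw [act, mob, div_eq_iff e7] at e5
  rw [Matrix.det_fin_two] at d2
  obtain ⟨g1, g2⟩ := tau_indep hy.ne' (x := c * (N * B 1 1 - B 0 0) + 2 * a * N * B 1 0)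
    (y := b * B 1 0 - c * B 0 1) (by
      push_cast at e2 ⊢
      linear_combination -c * e5 - B 1 0 * e1 + B 1 0 * y * e2)
  have g3 : (N : ℤ) ∣ B 0 0 := f5.of_mul_right_right.dvd_of_dvd_mul_left
    ⟨c * B 1 1 + 2 * a * B 1 0, by linear_combination -g1⟩
  obtain ⟨t, ht⟩ := g3
  have g4 : (N : ℤ) ∣ B 1 0 ^ 2 := f5.of_mul_right_left.dvd_of_dvd_mul_left
    ⟨c * (t * B 1 1 - 1), by linear_combination B 1 0 * g2 - c * d2 + c * B 1 1 * ht⟩
  have g5 := ((Int.squarefree_natCast.2 hN).dvd_pow_iff_dvd two_ne_zero).1 g4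
  exact ⟨hg, e6 ▸ (g5.mul_left _).sub ((ht ▸ dvd_mul_right _ _ : (N : ℤ) ∣ B 0 0).mul_left _)⟩

theorem se_stmt (lv : LVStmt) : SEStmt := ⟨fun _ _ _ => se_one, fun N T z κ hN hT hz => by
  obtain ⟨h1, h2, h3, h4, -⟩ := lv.2.2.2 N T κ fun l hl => (hT l hl).1
  have h5 := h1.det
  have h6 : (dg T κ).Coprime N := Nat.Coprime.coprime_dvd_left h4
    (Nat.Coprime.prod_left fun l hl => (Nat.Prime.coprime_iff_not_dvd (hT l hl).1).2 (hT l hl).2)
  refine se_one hN h6 (by omega) (act_pos h3 hz.pos) ?_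
  obtain ⟨a, b, c, d, e1, e2⟩ := se_coef hz.eq.le
  have e3 := den_ne' h3.ne' hz.pos
  have e4 : act (mK T κ) z * den (mK T κ) z = mK T κ 0 0 * z + mK T κ 0 1 := by
    rw [act, mob]
    exact div_mul_cancel₀ _ e3
  rw [den, h2] at e4
  rw [Matrix.det_fin_two, h2] at h5
  have e5 : (dg T κ : ℂ) = mK T κ 0 0 * mK T κ 1 1 := by
    have := congrArg (Int.cast : ℤ → ℂ) h5
    push_cast at this
    linear_combination -this
  rw [e5]
  generalize act (mK T κ) z = y at e4 ⊢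
  generalize mK T κ 0 0 = A at e4 ⊢
  generalize mK T κ 0 1 = B at e4 ⊢
  generalize mK T κ 1 1 = E at e4 ⊢
  rw [sc_sp2, sp2_le]
  refine ⟨mem_sp2.2 ⟨(A * a + B * c) * E, A * (A * b + B * d) - N * (A * a + B * c) * B, ?_⟩,
    mem_sp2.2 ⟨E * c * E, A * E * d - E * c * N * B, ?_⟩⟩
  · push_cast at e4 ⊢
    linear_combination (A * dl N - N * (A * a + B * c)) * e4 + A * A * e1 + A * B * e2
  · push_cast at e4 ⊢
    linear_combination A * E * e2 - E * c * N * e4⟩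

theorem ph_stmt : PHStmt := fun W N P σ y y' hy hy' e1 e2 hs ht => by
  obtain ⟨y₁, h⟩ := exists_pc jf_surj P.N0 σ hy
  have r := h.rj P.N0
  have n0 : (N : ℂ) ≠ 0 := Nat.cast_ne_zero.2 P.N0
  have S : ∀ z : ℂ, 0 < z.im → 0 < (-1 / z).im ∧ jf (-1 / z) = jf z := fun z hz => by
    have e : act !![0, -1; 1, 0] z = -1 / z := by simp [act_of, mob]
    exact e ▸ ⟨act_pos (by simp) hz, jf_act (by simp) hz⟩
  obtain ⟨p1, p2⟩ := S _ (se_pos P.N0 h.pos')
  have p3 : jN N (-1 / (N * y₁)) = jN N y' := by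
    rw [← e1, ← r.j, ← (S _ h.pos').2, jN]
    congr 1
    field_simp
  obtain ⟨g, hg, e⟩ := exists_sl hy' p1 (by rw [p2, ← e2, ← r.jN, jN])
  have k := P.inv0 g (hs g hg (e ▸ p3)) y' hy'
  rw [← e, P.φ_al h.pos', P.per.unif_eq_zero_iff.2 ht, zero_sub, h.φ P] at k
  rw [← k, neg_neg]

end Pool.Agent.T10
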