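import Pool.Agent.Lib.MP_696deb_nt.B10.ZK

/-! The action of the inertia group on the neighbours reduces to the involution. -/

set_option autoImplicit false

open scoped NNReal

namespace Pool.Agent.T10
open Pool.Agent.Lib.MP_696deb_nt Pool.Agent.Lib.MP_696deb_nt.B2 Pool.Agent.Lib.MP_696deb_nt.B2.CM
  Pool.Agent.B8 Pool.Agent.B4.GE

theorem tm_int {y : ℂ} (hy : 0 < y.im) {l : ℕ} (hl : l ≠ 0) {m n : ℤ} :
    (m * y + n) / l ∈ sp2 y 1 ↔ (l : ℤ) ∣ m ∧ (l : ℤ) ∣ n := by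
  have l0 : (l : ℂ) ≠ 0 := by exact_mod_cast hl
  rw [mem_sp2]
  constructor
  · rintro ⟨a, b, e⟩
    rw [div_eq_iff l0] at e
    obtain ⟨h1, h2⟩ := tau_indep hy.ne' (x := m - l * a) (y := n - l * b)
      (by push_cast; linear_combination e)
    exact ⟨⟨a, by omega⟩, b, by omega⟩
  · rintro ⟨⟨a, rfl⟩, b, rfl⟩
    exact ⟨a, b, by push_cast; field_simp⟩

/-- Coordinates of the neighbours. -/
theorem tm_nb {l : ℕ} (hl : l.Prime) (i : Option (Fin l)) : ∃ α β : ℤ,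
    ¬ ((l : ℤ) ∣ α ∧ (l : ℤ) ∣ β) ∧ ∀ y : ℂ, 0 < y.im →
      (∀ m n : ℤ, m * y + n ∈ nb l 1 y i ↔ (l : ℤ) ∣ α * n - β * m) ∧
      ∀ x ∈ nb l 1 y i, ∃ (c : ℤ) (s : ℂ), s ∈ sp2 y 1 ∧ x = c * (α * y + β) + l * s := by
  have h1 : ¬ (l : ℤ) ∣ 1 := fun h =>
    hl.one_lt.ne' (by exact_mod_cast Int.eq_one_of_dvd_one (by omega) h)
  rcases i with _ | k
  · refine ⟨0, 1, fun h => h1 h.2, fun y hy => ⟨fun m n => ?_, fun x hx => ?_⟩⟩
    · rw [CM.nb, mem_sp2]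
      refine ⟨fun ⟨a, b, e⟩ => ⟨-a, ?_⟩, fun ⟨a, e⟩ => ⟨-a, n, ?_⟩⟩
      · have := (tau_indep hy.ne' (x := m - l * a) (y := n - b)
          (by push_cast; linear_combination e)).1
        linear_combination -this
      · rw [show m = -(l * a) by linear_combination -e]
        push_cast
        ring
    · obtain ⟨a, b, rfl⟩ := mem_sp2.1 hx
      exact ⟨b, a * y, int_mul_mem (left_mem_sp2 _ _) a, by push_cast; ring⟩
  · refine ⟨1, (k : ℕ), fun h => h1 h.1, fun y hy => ⟨fun m n => ?_, fun x hx => ?_⟩⟩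
    · rw [CM.nb, mem_sp2]
      refine ⟨fun ⟨a, b, e⟩ => ⟨b, ?_⟩, fun ⟨a, e⟩ => ⟨m, a, ?_⟩⟩
      · obtain ⟨h2, h3⟩ := tau_indep hy.ne' (x := m - a) (y := n - a * (k : ℕ) - l * b)
          (by push_cast at e ⊢; linear_combination e)
        linear_combination h3 - (k : ℕ) * h2
      · rw [show n = l * a + (k : ℕ) * m by linear_combination e]
        push_cast
        ring
    · obtain ⟨a, b, rfl⟩ := mem_sp2.1 hx
      exact ⟨a, b * 1, int_mul_mem (right_mem_sp2 _ _) b, by push_cast; ring⟩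

theorem tm_stmt (wa : WAStmt) (wi : WIStmt) (ws : WSStmt) (wf : WFStmt) (cl : CLStmt) :
    TMStmt := by
  intro N l w V g σ a z z' i i' hV hg hσ hl h2 hN hw hp hq hj hm hf j1 j2
  have N0 : N ≠ 0 := by rintro rfl; exact hN (dvd_zero _)
  have l0 : (l : ℂ) ≠ 0 := by exact_mod_cast hl.ne_zero
  have d0 : dl N ≠ 0 := fun e => by simpa [e] using dl_im (Nat.pos_of_ne_zero N0)
  have vn : ∀ n : ℕ, n ∣ 6 * l * N → V n = 1 := fun n hn => by
    rw [← map_natCast jC, hV, ← Int.cast_natCast]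
    exact w.V_int_eq_one.2 fun k => hw ((Int.natCast_dvd_natCast.1 k).trans hn)
  have v6 : V 6 = 1 := by simpa using vn 6 ⟨l * N, by ring⟩
  have vl : V l = 1 := vn l ⟨6 * N, by ring⟩
  obtain ⟨α, β, h0, hi⟩ := tm_nb hl i
  obtain ⟨α', β', -, hi'⟩ := tm_nb hl i'
  have lm : ∀ {y s : ℂ}, 0 < y.im → s ∈ sp2 y 1 → (l * s ∈ nb l 1 y i ∧ l * s ∈ nb l 1 y i') := by
    intro y s hy hs
    obtain ⟨m, n, rfl⟩ := mem_sp2.1 hs
    rw [show (l : ℂ) * (m * y + n * 1) = (l * m : ℤ) * y + (l * n : ℤ) by push_cast; ring]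
    exact ⟨((hi y hy).1 _ _).2 ⟨α * n - β * m, by ring⟩,
      ((hi' y hy).1 _ _).2 ⟨α' * n - β' * m, by ring⟩⟩
  obtain ⟨u', hu, h3, h4⟩ := wa.2.2.2 σ _ _ _ _ l (α * z + β) hp.fst hq hl.ne_zero
    (fun x hx => by obtain ⟨s, hs, rfl⟩ := mem_sc.1 hx; exact (lm hp.pos hs).1)
    (((hi z hp.pos).1 _ _).2 ⟨0, by ring⟩)
  obtain ⟨v, ⟨hv, hv'⟩, rfl⟩ := mem_sc.1 hu
  obtain ⟨a', b', rfl⟩ := mem_sp2.1 hv'
  rw [mul_one] at hv h3 h4
  rw [mul_div_assoc, mul_mem_sc hp.ne, tm_int (ga_pos N0 hp.pos) hl.ne_zero,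
    tm_int hp.pos hl.ne_zero] at h3
  rw [mul_div_assoc, wa.2.1 _ _ _ hp.ne] at h4
  have e0 : ∀ y : ℂ, a' * (N * y) + b' = (a' * N : ℤ) * y + b' := fun y => by push_cast; ring
  rw [e0, SetLike.mem_coe, (hi' z hp.pos).1, ← (hi' z' hf.pos).1, ← e0] at hv
  have lo := hl.odd_of_ne_two h2
  have L0 : 2 * l * N ≠ 0 := mul_ne_zero (mul_ne_zero two_ne_zero hl.ne_zero) N0
  have k1 := hm.ev _ ((cl V).1 _ _ _ 1 L0 (by simp) (by simp) (wf V l α β lo v6 vl))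
  have k2 := hm.ev _ ((cl V).1 _ _ _ (ut N 0 1) L0 (by simp [det_ut]; omega) (by simp [det_ut])
    (wf V l a' b' lo v6 vl))
  simp only [act_one, act_dg] at k1 k2
  have mu : ∀ y : ℂ, (l : ℂ) * ((α * y + β) / l) ∈ sp2 y 1 := fun y =>
    mem_sp2.2 ⟨α, β, by field_simp⟩
  obtain ⟨k3, k4⟩ := wi _ l _ (isLat_sp2 hp.pos.ne') (mu z)
  rw [jL_tau hp.pos] at k3 k4
  obtain ⟨y, hy⟩ := k4 hl.ne_zero hj.alg
  have k5 := hg.2 y (by rw [← hV, hy]; exact k3 _ V v6 vl hm.int)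
  rw [← hV, map_sub, ← hσ, hy, h4] at k5
  obtain ⟨t, ht, e1⟩ := mem_sc.1 (hf.eq.ge (mem_sp2.2 ⟨a', b', rfl⟩))
  rw [mul_one] at e1
  have k6 : V (wI (sp2 z' 1) ((α * z' + β) / l) - wI (sp2 z' 1) (t / l)) < 1 := by
    rw [← wa.2.1 _ (dl N) (t / l) d0, hf.eq, ← mul_div_assoc, e1]
    have := V.map_add_lt (V.map_sub_lt k2 k5) ((V.map_neg _).trans_lt k1)
    rwa [show ∀ p q r s : ℂ, p - q - (p - r) + -(r - s) = s - q from fun _ _ _ _ => by ring] at this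
  have ds : ∀ s ∈ sp2 z' 1, l * (dl N * s) ∈ nb l 1 z' i' := fun s hs =>
    (lm hf.pos ((sp2_le.2 ⟨by simpa using int_mul_mem (left_mem_sp2 z' 1) N, right_mem_sp2 _ _⟩ :
      sp2 (N * z') 1 ≤ sp2 z' 1) (hf.eq.le ((mul_mem_sc d0).2 hs)))).2
  have k7 : dl N * (α * z' + β) ∈ nb l 1 z' i' := by
    rcases ws V _ l _ _ (isLat_sp2 hf.pos.ne') v6 vl (by rwa [jL_tau hf.pos])
      (by rwa [jL_tau hf.pos]) (mu z') (by rwa [mul_div_cancel₀ _ l0])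
      (by rwa [tm_int hf.pos hl.ne_zero]) (by
        rw [← mul_mem_sc d0, hf.eq, ← mul_div_assoc, e1, tm_int (ga_pos N0 hf.pos) hl.ne_zero]
        exact fun k => h0 (h3.1 k)) k6 with k | k
    · convert add_mem (ds _ k) hv using 1
      rw [← e1]
      field_simp
      ring
    · convert sub_mem (ds _ k) hv using 1
      rw [← e1]
      field_simp
      ring
  intro x hx
  obtain ⟨c, s, hs, rfl⟩ := (hi z' hf.pos).2 x hx
  convert add_mem (int_mul_mem k7 c) (ds s hs) using 1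
  ring

end Pool.Agent.T10
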