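import Pool.Agent.Lib.MP_696deb_nt.B10.Z0
import Pool.Agent.Lib.MP_696deb_nt.B4.GEf

/-! The trace relations for the parametrization. -/

set_option autoImplicit false

open Finset Function Filter Topology
open scoped Classical

namespace Pool.Agent.T10
open Pool.Agent.Lib.MP_696deb_nt Pool.Agent.Lib.MP_696deb_nt.B2 Pool.Agent.Lib.MP_696deb_nt.B2.CM
  Pool.Agent.B4.GE Pool.Agent.Shared.Weier

variable {W : WeierstrassCurve ℚ} {N : ℕ}

theorem tr_act {γ : MZ} (h : G0 0 γ) (y : ℂ) : ∃ b : ℤ, act γ y = y + b := by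
  obtain ⟨h1, h2⟩ := h
  have h3 : γ 1 0 = 0 := by simpa using h2
  rw [Matrix.det_fin_two, h3, mul_zero, sub_zero] at h1
  rcases Int.eq_one_or_neg_one_of_mul_eq_one' h1 with ⟨e1, e2⟩ | ⟨e1, e2⟩
  · exact ⟨γ 0 1, by simp [act, mob, h3, e1, e2]⟩
  · refine ⟨-γ 0 1, ?_⟩
    simp only [act, mob, h3, e1, e2]
    push_cast
    ring

theorem tr_F (P : Par W N) {γ : MZ} (h : G0 0 γ) {y : ℂ} (hy : 0 < y.im) :
    P.F (act γ y) = P.F y := by
  obtain ⟨G, -, h2⟩ := P.qe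
  obtain ⟨b, hb⟩ := tr_act h y
  rw [h2 _ (act_pos (by rw [h.1]; exact one_pos) hy), h2 _ hy, hb, q1_add, q1_int, mul_one]

theorem tr_sum (lv : LVStmt) (lw : LWStmt) (P : Par W N) {T : Finset ℕ} (hT : Tp N T) {l : ℕ}
    (hl : l ∈ T) {κ : Lb} (hκ : κ ∈ LS T) (h0 : κ l = none) {y : ℂ} (hy : 0 < y.im) :
    ∑ i, P.F (act (mK T (update κ l (some i))) y) = P.a l * P.F (act (mK T κ) y) := by
  have hp : ∀ p ∈ T, p.Prime := fun p h => (hT p h).1
  obtain ⟨π, hπ⟩ := (lw T l hp (hp l hl)).1 hl κ hκ h0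
  have hd : 0 < (mK T κ).det := (lv.2.2.2 0 T κ hp).2.2.1
  rw [← P.hecke l (hp l hl) (hT l hl).2 _ (act_pos hd hy),
    ← Equiv.sum_comp π fun i => P.F (act (rP l i) (act (mK T κ) y))]
  refine sum_congr rfl fun i _ => ?_
  obtain ⟨γ, h1, h2⟩ := hπ i
  have h3 : 0 < (rP l (π i) * mK T κ).det := by
    rw [Matrix.det_mul]; exact mul_pos (rP_pos (hp l hl) _) hd
  rw [h2, act_mul _ h3.ne' hy, tr_F P h1 (act_pos h3 hy), act_mul _ hd.ne' hy]

theorem tr_aj (P : Par W N) {z : ℂ} (h : Aj z) {M : MZ} (hM : 0 < M.det) :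
    Aj (act M z) ∧ pmap jC (ptQ P (act M z)) = P.φ (act M z) := by
  obtain ⟨x, hx⟩ := h.alg
  obtain ⟨y, hy⟩ := alg_isog h.pos hx hM
  exact ⟨⟨act_pos hM h.pos, y, hy⟩, invFun_eq (P.alg (act_pos hM h.pos) hy)⟩

theorem tr_diff (P : Par W N) {M : MZ} (hM : 0 < M.det) {z : ℂ} (hz : 0 < z.im) :
    DifferentiableAt ℂ (fun y => P.F (act M y)) z :=
  (P.qe.hol _ (act_pos hM hz)).comp z (hol_act hM.ne' z hz)

theorem tr_stmt (lv : LVStmt) (lw : LWStmt) : TRStmt := by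
  intro W N P T z
  refine ⟨fun h M hM => tr_aj P h hM, fun hT => ?_⟩
  have hd : ∀ κ, 0 < (mK T κ).det := fun κ => (lv.2.2.2 0 T κ fun p h => (hT p h).1).2.2.1
  refine ⟨fun h l hl κ hκ h0 => pmap_injective jC ?_, fun hz l hl κ hκ h0 => ?_⟩
  · rw [map_sum, map_zsmul, (tr_aj P h (hd κ)).2]
    simp only [(tr_aj P h (hd _)).2, Par.φ]
    rw [← map_sum, tr_sum lv lw P hT hl hκ h0 h.pos, ← map_zsmul, zsmul_eq_mul]
  · beta_reduce
    rw [← deriv_fun_sum fun i _ => tr_diff P (hd _) hz, zsmul_eq_mul,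
      ← deriv_const_mul _ (tr_diff P (hd κ) hz)]
    refine EventuallyEq.deriv_eq ?_
    filter_upwards [(isOpen_lt continuous_const Complex.continuous_im).mem_nhds hz] with y hy
    exact tr_sum lv lw P hT hl hκ h0 hy

end Pool.Agent.T10
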