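import Pool.Agent.Lib.MP_696deb_nt.B10.ZS
import Pool.Agent.Lib.MP_696deb_nt.B8.NB

/-! Squares modulo two, and the systems of representatives at the fixed point. -/

set_option autoImplicit false

open NumberTheorySymbols Finset Function Complex
open scoped Classical NNReal Real

namespace Pool.Agent.T10
open Pool.Agent.Lib.MP_696deb_nt Pool.Agent.Lib.MP_696deb_nt.B2 Pool.Agent.Lib.MP_696deb_nt.B2.CM
  Pool.Agent.B6 Pool.Agent.B8 Pool.Agent.B4.GE

/-- Congruent integral numbers. -/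
def ua_cg (V : Valuation ℂ ℝ≥0) (x y : ℂ) : Prop := V x ≤ 1 ∧ V (x - y) < 1

section
variable {V : Valuation ℂ ℝ≥0} {x y z x' y' : ℂ}

theorem ua_int (V : Valuation ℂ ℝ≥0) (n : ℤ) : V n ≤ 1 := (intCast_mem V.integer n :)

theorem ua_cg.right (h : ua_cg V x y) : V y ≤ 1 := by
  have := V.map_sub_le h.1 h.2.le
  rwa [sub_sub_cancel] at this

theorem ua_cg.symm (h : ua_cg V x y) : ua_cg V y x := ⟨h.right, by rw [V.map_sub_swap]; exact h.2⟩

theorem ua_refl (h : V x ≤ 1) : ua_cg V x x := ⟨h, by simp⟩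

theorem ua_cg.trans (h : ua_cg V x y) (k : ua_cg V y z) : ua_cg V x z :=
  ⟨h.1, by simpa using V.map_add_lt h.2 k.2⟩

theorem ua_cg.add (h : ua_cg V x y) (k : ua_cg V x' y') : ua_cg V (x + x') (y + y') :=
  ⟨V.map_add_le h.1 k.1, by rw [add_sub_add_comm]; exact V.map_add_lt h.2 k.2⟩

theorem ua_lt (h : V x < 1) (k : V y ≤ 1) : V (x * y) < 1 := by
  rw [map_mul]
  exact (mul_le_of_le_one_right' k).trans_lt h

theorem ua_cg.mul (h : ua_cg V x y) (k : ua_cg V x' y') : ua_cg V (x * x') (y * y') :=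
  ⟨by rw [map_mul]; exact mul_le_one' h.1 k.1, by
    rw [show x * x' - y * y' = (x - y) * x' + (x' - y') * y by ring]
    exact V.map_add_lt (ua_lt h.2 k.1) (ua_lt k.2 h.right)⟩

theorem ua_sum {ι : Type} {s : Finset ι} {f g : ι → ℂ} (h : ∀ i ∈ s, ua_cg V (f i) (g i)) :
    ua_cg V (∑ i ∈ s, f i) (∑ i ∈ s, g i) := by
  induction s using Finset.induction_on with
  | empty => exact ua_refl (by simp)
  | insert a s ha ih =>
    rw [sum_insert ha, sum_insert ha]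
    exact (h a (mem_insert_self _ _)).add (ih fun i hi => h i (mem_insert_of_mem hi))

theorem ua_prod {ι : Type} {s : Finset ι} {f g : ι → ℂ} (h : ∀ i ∈ s, ua_cg V (f i) (g i)) :
    ua_cg V (∏ i ∈ s, f i) (∏ i ∈ s, g i) := by
  induction s using Finset.induction_on with
  | empty => exact ua_refl (by simp)
  | insert a s ha ih =>
    rw [prod_insert ha, prod_insert ha]
    exact (h a (mem_insert_self _ _)).mul (ih fun i hi => h i (mem_insert_of_mem hi))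

theorem ua_sq {ι : Type} {s : Finset ι} {f : ι → ℂ} (h2 : V 2 < 1) (h : ∀ i ∈ s, V (f i) ≤ 1) :
    ua_cg V ((∑ i ∈ s, f i) ^ 2) (∑ i ∈ s, f i ^ 2) := by
  induction s using Finset.induction_on with
  | empty => simpa using ua_refl (V := V) (x := 0) (by simp)
  | insert a s ha ih =>
    have h1 := h a (mem_insert_self _ _)
    have h3 : V (∑ i ∈ s, f i) ≤ 1 := V.map_sum_le fun i hi => h i (mem_insert_of_mem hi)
    have h4 : ua_cg V (2 * f a * ∑ i ∈ s, f i) 0 := by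
      have := ua_lt (ua_lt h2 h1) h3
      exact ⟨this.le, by rwa [sub_zero]⟩
    have h5 := ((ua_refl (V := V) (x := f a ^ 2) (by rw [map_pow]; exact pow_le_one' h1 2)).add
      h4).add (ih fun i hi => h i (mem_insert_of_mem hi))
    rw [add_zero] at h5
    rwa [sum_insert ha, sum_insert ha, add_sq]

theorem ua_cc (h2 : V 2 < 1) {a s : ℕ → ℤ} {γ : ℕ → ℂ} {l : ℕ} (h8 : l % 8 = 1)
    (hγ : γ l ^ 2 = l) (h4 : 4 ∣ a l) (o : Option (Option (Fin l))) :
    ua_cg V (Cc γ s l o ^ 2) (wR a (Rq s fun p => V ((γ p + 1) / 2) < 1) l o) := by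
  set α := (γ l - 1) / 2 with hα
  have hβ : (γ l + 1) / 2 = α + 1 := by rw [hα]; ring
  have h1 : V (α * (α + 1)) < 1 := by
    have e : α * (α + 1) = 2 * ((l / 8 : ℕ) : ℤ) := by
      have : (l : ℂ) = 8 * ((l / 8 : ℕ) : ℂ) + 1 := by exact_mod_cast (by omega : l = 8 * (l / 8) + 1)
      rw [hα, Int.cast_natCast]
      linear_combination (hγ + this) / 4
    rw [e]
    exact ua_lt h2 (ua_int V _)
  have h0 : V α ≤ 1 := by
    by_contra h
    rw [not_le] at h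
    rw [map_mul, V.map_add_eq_of_lt_left (by rwa [map_one])] at h1
    exact absurd (one_lt_mul'' h h) h1.not_gt
  have hb : V (α + 1) ≤ 1 := V.map_add_le h0 (by simp)
  have hp : ∀ x : ℂ, V x ≤ 1 → V (x ^ 2) ≤ 1 := fun x hx => by
    rw [map_pow]; exact pow_le_one' hx 2
  have hn : ¬ V (α + 1) < 1 → V α < 1 := fun h => by
    rwa [map_mul, le_antisymm hb (not_lt.1 h), mul_one] at h1
  rcases o with _ | _ | k
  · obtain ⟨t, ht⟩ := h4
    have e : a l / 2 = 2 * t := by omega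
    refine ⟨by simp [Cc], ?_⟩
    simp only [Cc, wR, e]
    push_cast
    rw [show (0 : ℂ) ^ 2 - -(2 * t) = 2 * t by ring]
    exact ua_lt h2 (ua_int V t)
  · refine ⟨hp _ h0, ?_⟩
    simp only [Cc, wR, Rq, ← hα, hβ]
    split_ifs with h
    · rw [show α ^ 2 - ((1 : ℤ) : ℂ) = (α + 1) * (α - 1) by push_cast; ring]
      exact ua_lt h (V.map_sub_le h0 (by simp))
    · rw [Int.cast_zero, sub_zero, sq]
      exact ua_lt (hn h) h0
  · simp only [Cc, wR, Rq, hβ]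
    by_cases hk : (k : ℕ) = 0
    · simp only [if_pos hk]
      refine ⟨hp _ hb, ?_⟩
      split_ifs with h
      · rw [Int.cast_zero, sub_zero, sq]
        exact ua_lt h hb
      · rw [show (α + 1) ^ 2 - ((1 : ℤ) : ℂ) = α * (α + 2) by push_cast; ring]
        exact ua_lt (hn h) (V.map_add_le h0 h2.le)
    · simp only [if_neg hk]
      split_ifs <;> simpa using ua_refl (by simp)

end

theorem ua_stmt : UAStmt := by
  intro V T a s γ u v d h2 hT hv hS
  have hd : d ≠ 0 := by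
    rintro rfl
    simp at hS
  obtain ⟨δ, rfl⟩ := IsAlgClosed.exists_pow_nat_eq d (n := 12) (by norm_num)
  refine ⟨fun p => V ((γ p + 1) / 2) < 1, ?_⟩
  set w := wR a (Rq s fun p => V ((γ p + 1) / 2) < 1)
  have e6 : ∀ x : ℂ, V (x ^ 6 / δ ^ 12) = V (x / δ ^ 2) ^ 6 := fun x => by
    rw [← map_pow, div_pow, ← pow_mul]
  have h3 : ∀ κ ∈ LS T, ua_cg V (v κ / δ ^ 2) ((u κ / δ) ^ 2) := fun κ hκ => by
    obtain ⟨h, k⟩ := hv κ hκ
    rw [e6] at h k
    refine ⟨(pow_le_one_iff (by norm_num)).1 h, ?_⟩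
    rw [div_pow, ← sub_div]
    exact (pow_lt_one_iff (by norm_num)).1 k
  have h4 : ∀ κ : Lb, ua_cg V ((∏ l ∈ T, Cc γ s l (κ l)) ^ 2) ((∏ l ∈ T, w l (κ l) : ℤ) : ℂ) :=
    fun κ => by
      rw [← prod_pow, Int.cast_prod]
      exact ua_prod fun l hl => ua_cc h2 (hT l hl).1 (hT l hl).2.1 (hT l hl).2.2 _
  have h5 : ∀ κ ∈ LS T, ua_cg V (((∏ l ∈ T, Cc γ s l (κ l)) * (u κ / δ)) ^ 2)
      (((∏ l ∈ T, w l (κ l) : ℤ) : ℂ) * (v κ / δ ^ 2)) := fun κ hκ => by
    rw [mul_pow]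
    exact (h4 κ).mul (h3 κ hκ).symm
  have h6 := (ua_sq h2 fun κ hκ => (pow_le_one_iff two_ne_zero).1
    ((map_pow V _ 2).symm.trans_le (h5 κ hκ).1)).trans (ua_sum h5)
  simp only [← mul_div_assoc, ← sum_div] at h6
  rw [← div_pow, map_pow, show 12 = 2 * 6 from rfl, pow_mul, ← map_pow,
    one_le_pow_iff (by norm_num)] at hS
  have h7 := V.map_sub_eq_of_lt_left (h6.2.trans_le hS)
  rw [sub_sub_cancel, le_antisymm h6.1 hS] at h7
  rw [e6, ms]
  simp only [zsmul_eq_mul]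
  rw [h7, one_pow]

theorem rq_mem {N : ℕ} (hp : 0 < (x0 N).im) {a b p q r t : ℤ}
    (h : a * x0 N + b ∈ sp2 (p * x0 N + q) (r * x0 N + t)) :
    ∃ m n : ℤ, a = m * p + n * r ∧ b = m * q + n * t := by
  obtain ⟨m, n, e⟩ := mem_sp2.1 h
  have h1 : a = m * p + n * r := by
    have := congrArg im e
    simp only [add_im, mul_im, intCast_re, intCast_im, zero_mul, add_zero] at this
    have h2 : ((a : ℝ) - (m * p + n * r)) * (x0 N).im = 0 := by linarith
    exact_mod_cast sub_eq_zero.1 ((mul_eq_zero.1 h2).resolve_right hp.ne')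
  refine ⟨m, n, h1, ?_⟩
  rw [h1] at e
  have : (b : ℂ) = m * q + n * t := by
    push_cast at e
    linear_combination e
  exact_mod_cast this

theorem rq_stmt : RQStmt := by
  intro N T s e hN
  have r := nb_x0 hN
  have hn : (0 : ℝ) < √(N : ℝ) := Real.sqrt_pos.2 (by have := hN.gt; positivity)
  have hc : ((√(N : ℝ) : ℝ) : ℂ) ≠ 0 := ofReal_ne_zero.2 hn.ne'
  have e1 : dl N * x0 N = -1 := by
    rw [dl, x0]
    field_simp
    rw [I_sq]
  have e2 : dl N = N * x0 N := by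
    have : ((√(N : ℝ) : ℝ) : ℂ) ^ 2 = N := by
      exact_mod_cast Real.sq_sqrt (Nat.cast_nonneg N)
    rw [dl, x0, ← this]
    field_simp
  refine ⟨⟨r.pos, ?_, r.iv⟩, ⟨r.pos, jQ N 2 (cl _ (sp2 (x0 N) 1)), ?_⟩, fun hT hs l hl i i' h => ?_⟩
  · rw [sc_sp2, e1, mul_one, e2, ← cmb_sp2_neg _ 1, sp2, sp2, Set.pair_comm]
  · rw [jC_jQ (hN.ok two_ne_zero), jP_cl (hN.ok two_ne_zero) r.iv, jL_tau r.pos]
  obtain ⟨hp, -, hJ⟩ := hT l hl
  have hp' : Prime (l : ℤ) := Nat.prime_iff_prime_int.1 hp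
  have hlN : ¬ (l : ℤ) ∣ N := fun k => by
    rw [jacobiSym.mod_left, Int.emod_eq_zero_of_dvd (dvd_neg.2 k),
      jacobiSym.zero_left hp.one_lt] at hJ
    omega
  have hz : ∀ k : Fin l, (l : ℤ) ∣ ((k : ℕ) : ℤ) → (k : ℕ) = 0 := fun k hk =>
    Nat.eq_zero_of_dvd_of_lt (Int.natCast_dvd_natCast.1 hk) k.2
  have n0 : nb l 1 (x0 N) none = sp2 ((l : ℤ) * x0 N + (0 : ℤ)) ((0 : ℤ) * x0 N + (1 : ℤ)) := by
    simp [CM.nb]
  have n1 : ∀ k : Fin l, nb l 1 (x0 N) (some k) =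
      sp2 ((1 : ℤ) * x0 N + ((k : ℕ) : ℤ)) ((0 : ℤ) * x0 N + (l : ℤ)) := fun k => by
    simp [CM.nb]
  rcases i with _ | k
  · have h1 := h 1 (right_mem_sp2 _ _)
    rw [show dl N * 1 = (N : ℤ) * x0 N + (0 : ℤ) by rw [e2]; simp] at h1
    rcases i' with _ | k'
    · obtain ⟨m, n, h2, -⟩ := rq_mem r.pos (n0 ▸ h1)
      exact absurd ⟨m, by linarith⟩ hlN
    · obtain ⟨m, n, h2, h3⟩ := rq_mem r.pos (n1 k' ▸ h1)
      have h4 : (l : ℤ) ∣ N * ((k' : ℕ) : ℤ) := ⟨-n, by rw [h2]; linarith⟩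
      simp only [Rq, if_pos (hz k' ((hp'.dvd_or_dvd h4).resolve_left hlN))]
  · have h1 := h _ (left_mem_sp2 _ _)
    rw [show dl N * (x0 N + (1 : ℤ) * (k : ℕ)) = ((k : ℕ) * N : ℤ) * x0 N + (-1 : ℤ) by
      rw [mul_add, e1, e2]; push_cast; ring] at h1
    rcases i' with _ | k'
    · obtain ⟨m, n, h2, -⟩ := rq_mem r.pos (n0 ▸ h1)
      have h4 : (l : ℤ) ∣ ((k : ℕ) : ℤ) * N := ⟨m, by linarith⟩
      simp only [Rq, if_pos (hz k ((hp'.dvd_or_dvd h4).resolve_right hlN)), not_not]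
    · obtain ⟨m, n, h2, h3⟩ := rq_mem r.pos (n1 k' ▸ h1)
      have h4 : J(((k : ℕ) : ℤ) * ((k' : ℕ) : ℤ) * -N | l) = J(1 | l) := by
        refine jacobiSym.mod_left' (Int.modEq_iff_dvd.2 ⟨-n, ?_⟩)
        simp only [mul_one, mul_zero, add_zero] at h2
        rw [← h2] at h3
        linarith
      rw [jacobiSym.mul_left, jacobiSym.mul_left, hJ, jacobiSym.one_left] at h4
      have h5 : (k : ℕ) ≠ 0 := fun h => by
        rw [h, Nat.cast_zero, jacobiSym.zero_left hp.one_lt] at h4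
        simp at h4
      have h6 : (k' : ℕ) ≠ 0 := fun h => by
        rw [h, Nat.cast_zero, jacobiSym.zero_left hp.one_lt] at h4
        simp at h4
      simp only [Rq, if_neg h5, if_neg h6]
      rcases jacobiSym.trichotomy ((k : ℕ) : ℤ) l with h7 | h7 | h7 <;>
        rcases jacobiSym.trichotomy ((k' : ℕ) : ℤ) l with h8 | h8 | h8 <;>
        rcases hs l hl with h9 | h9 <;> simp [h7, h8, h9] at h4 ⊢

end Pool.Agent.T10
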