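import Pool.Agent.Lib.MP_696deb_nt.B10.UZ
import Pool.Agent.Lib.MP_696deb_nt.B8.NB

/-! The three neighbours of a point of odd conductor. -/

set_option autoImplicit false

open scoped Classical

namespace Pool.Agent.B10
open Pool.Agent.Lib.MP_696deb_nt Pool.Agent.Lib.MP_696deb_nt.B2.CM Pool.Agent.B8
open Pool.Agent.Lib.MP_696deb_nt.B3.CM

variable {n c : ℕ} {τ : ℂ} {x : Pc n c}

theorem ung_add (h : Rp n c τ x) (k : ℤ) : Rp n c (τ + k) x := by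
  have e : sp2 τ 1 = sc 1 (sp2 (τ + k) 1) := by
    rw [sc_one]
    exact le_antisymm (sp2_le.2 ⟨mem_sp2.2 ⟨1, -k, by push_cast; ring⟩, right_mem_sp2 _ _⟩)
      (sp2_le.2 ⟨mem_sp2.2 ⟨1, k, by push_cast; ring⟩, right_mem_sp2 _ _⟩)
  exact h.eq ▸ nb_rp (by simpa using h.pos) one_ne_zero h.iv e

theorem ung_inv (h : Rp n c τ x) : Rp n c (-τ⁻¹) x := by
  have h0 : τ ≠ 0 := fun e => by simpa [e] using h.pos
  have e : sp2 τ 1 = sc τ (sp2 (-τ⁻¹) 1) := by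
    rw [sc_sp2, mul_neg, mul_inv_cancel₀ h0, mul_one, cmb_comm (-1), cmb_sp2_neg]
  refine h.eq ▸ nb_rp ?_ h0 h.iv e
  rw [Complex.neg_im, Complex.inv_im, neg_div, neg_neg]
  exact div_pos h.pos (Complex.normSq_pos.2 h0)

theorem ung_iv {m : ℕ} (hm : m = c * 2) (h : Nk n) (hc : Odd c) (hτ : 0 < τ.im)
    (hI : IsIv (Oc n c) (sp2 τ 1)) (i : Option (Fin 2)) :
    IsIv (Oc n m) (nb 2 1 τ i) ∧ nb 2 1 τ i * ot (Oc n c) = sp2 τ 1 := by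
  subst hm
  have ok : Ok n c := h.ok hc.pos.ne'
  have hm := nb_mid (s := 1) Nat.prime_two hτ.ne' i
  exact isIv_of_not_st ok Nat.prime_two hI hm.1 hm.2
    (not_st_inert ok Nat.prime_two (inert_two h.m8) hc.not_two_dvd_nat hI hm.1 hm.2)

theorem ung_fib {m : ℕ} (hm : m = c * 2) (ok : Ok n c) (hτ : 0 < τ.im)
    (hI : IsIv (Oc n c) (sp2 τ 1)) {x : Pc n m} (hx : pj n c m x = cl _ (sp2 τ 1)) :
    ∃ i, cl (Oc n m) (nb 2 1 τ i) = x := by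
  subst hm
  obtain ⟨i, e⟩ := nb_cl_surj (s := 1) (a := 1) (x := x) ok Nat.prime_two (by norm_num) hτ.ne'
    one_ne_zero (by rwa [sc_one]) (by rwa [sc_one])
  rw [sc_one] at e
  exact ⟨i, e.symm⟩

theorem ung_down (hn : n % 4 = 3) {I : Lt} (hI : IsIv (Oc n (2 * c)) I) {z : ℂ}
    (hz : z ∈ I * ot (Oc n 2)) : c * z ∈ I := by
  have h : sc c (I * ot (Oc n 2)) ≤ I := by
    rw [← mul_sc]
    refine le_of_le_of_eq (mul_le_mul_right ?_ I) hI.1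
    rw [cmd_ot hn, cmd_ot' hn, sc_sp2]
    exact sp2_le.2 ⟨mem_sp2.2 ⟨c, 0, by simp⟩, right_mem_sp2 _ _⟩
  exact h (mem_sc.2 ⟨z, hz, rfl⟩)

theorem ung_one (h : Nk n) (hc : Odd c) (τ : ℂ) (B : Pc n c) (hB : Rp n c τ B) :
    ∃ y : Option (Fin 2) → Pc n (2 * c),
      (∀ i, Rp n (2 * c) (hk 2 τ i) (y i)) ∧ (∀ x, pj n c (2 * c) x = B ↔ ∃ i, y i = x) ∧
      ∀ ψ : Pc n 2 →* Z3, Ram ψ → Function.Bijective fun i => ψ (pj n 2 (2 * c) (y i)) := by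
  have ok : Ok n c := h.ok hc.pos.ne'
  have ok1 : Ok n 1 := h.ok one_ne_zero
  obtain ⟨hτ, hI, rfl⟩ := hB
  have hv := ung_iv (mul_comm 2 c) h hc hτ hI
  refine ⟨fun i => cl _ (nb 2 1 τ i), fun i => ?_, fun x => ⟨ung_fib (mul_comm 2 c) ok hτ hI, ?_⟩,
    fun ψ hψ => (Fintype.bijective_iff_injective_and_card _).2 ⟨fun i j e => ?_, by decide⟩⟩
  · obtain ⟨a, ha, e⟩ := nb_hk τ i
    exact nb_rp (nb_hk_pos hτ i) ha (hv i).1 e
  · rintro ⟨i, rfl⟩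
    rw [pj_cl (dvd_mul_left c 2) (hv i).1, (hv i).2]
  have k1 := fun i => (hv i).1.ext (Oc_le n (dvd_mul_right 2 c))
  have k2 : ∀ i, nb 2 1 τ i * ot (Oc n 2) * ot (Oc n 1) = sp2 τ 1 * ot (Oc n 1) := fun i => by
    rw [mul_assoc, ot_mul_ot (Oc_le n (one_dvd 2)), ← (hv i).2, mul_assoc,
      ot_mul_ot (Oc_le n (one_dvd c))]
  have k3 := hI.ext (Oc_le n (one_dvd c))
  obtain ⟨σ, hσ⟩ := nb_point ok1 (cl _ (sp2 τ 1 * ot (Oc n 1)))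
  obtain ⟨y, -, -, y1, y2⟩ := (nb_stmt n h).2.2 σ _ hσ
  simp only [pj_cl (dvd_mul_right 2 c) (hv _).1] at e
  obtain ⟨i', hi⟩ := (y1 (cl _ (nb 2 1 τ i * ot (Oc n 2)))).1 (by rw [pj_cl (one_dvd 2) (k1 i), k2])
  obtain ⟨j', hj⟩ := (y1 (cl _ (nb 2 1 τ j * ot (Oc n 2)))).1 (by rw [pj_cl (one_dvd 2) (k1 j), k2])
  rw [← hi, ← hj] at e
  obtain rfl := (y2 ψ hψ).1 e
  obtain ⟨t, -, e1⟩ := (cl_eq_iff (k1 j) (k1 i)).1 (hj.symm.trans hi)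
  have e2 := k2 i
  rw [e1, sc_mul, k2] at e2
  refine cmd_nb_eq (s := 1) Nat.prime_two (by norm_num) hτ.ne' fun z hz => ?_
  have h1 : z ∈ nb 2 1 τ j * ot (Oc n 2) := by
    obtain ⟨u, hu, rfl⟩ := mem_sc.1 (e1 ▸ cmd_le_mul _ _ hz)
    rcases k3.unit ok1 e2 with rfl | rfl
    · rwa [one_mul]
    · rw [neg_one_mul]
      exact neg_mem hu
  refine cmd_bez (x := c) Nat.prime_two (by exact_mod_cast hc.not_two_dvd_nat)
    ((nb_mid (s := 1) Nat.prime_two hτ.ne' j).1.le (mem_sc.2 ⟨z, cmd_nb_le τ i hz, rfl⟩)) ?_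
  exact_mod_cast ung_down ok.m4 (hv j).1 h1

theorem ng_stmt : NGStmt := by
  intro n c h hc
  refine ⟨ung_one h hc, fun x => ?_⟩
  let P : Option (Fin 2) → Prop := fun i => ∃ τ : ℂ, Rp n c τ (pj n c (2 * c) x) ∧
    Rp n (2 * c) (hk 2 τ i) x
  have s1 : P (some 0) → P (some 1) := fun ⟨τ, a, b⟩ => ⟨_, ung_add a (-1), by
    convert b using 1
    simp [hk]⟩
  have s2 : P (some 1) → P none := fun ⟨τ, a, b⟩ => ⟨_, ung_inv (ung_add a 1), by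
    convert ung_inv b using 1
    simp [hk, div_eq_mul_inv]⟩
  have s3 : P none → P (some 0) := fun ⟨τ, a, b⟩ => ⟨_, ung_inv a, by
    convert ung_inv b using 1
    simp [hk, div_eq_mul_inv]⟩
  obtain ⟨τ, hτ⟩ := nb_point (h.ok hc.pos.ne') (pj n c (2 * c) x)
  obtain ⟨y, y1, y2, -⟩ := ung_one h hc τ _ hτ
  obtain ⟨j, hj⟩ := (y2 x).1 rfl
  have p0 : P j := ⟨τ, hτ, hj ▸ y1 j⟩
  have p1 : P none := by
    rcases j with _ | j
    · exact p0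
    · fin_cases j
      exacts [s2 (s1 p0), s2 p0]
  rintro (_ | i)
  · exact p1
  · fin_cases i
    exacts [s3 p1, s1 (s3 p1)]

end Pool.Agent.B10
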