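import Pool.Agent.Lib.MP_696deb_nt.B10.UZ
import Pool.Agent.Lib.MP_696deb_nt.B8.UNb
import Pool.Agent.Lib.MP_696deb_nt.B8.NB
import Pool.Agent.Lib.MP_696deb_nt.B5.GAa

/-! The passage from the units to the logarithms. -/

set_option autoImplicit false

open NumberField NumberTheorySymbols Finset
open scoped Classical NNReal

namespace Pool.Agent.B10
open Pool.Agent.Lib.MP_696deb_nt Pool.Agent.Lib.MP_696deb_nt.B2 Pool.Agent.Lib.MP_696deb_nt.B2.CM
  Pool.Agent.B6 Pool.Agent.B4 Pool.Agent.B8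
open Pool.Agent.Lib.MP_696deb_nt.B3.CM (th)
open Pool.Agent.H3.T (Lam)

/-- The function `Lam` only depends on the class. -/
theorem uwp_lam {n c : ℕ} {τ τ' : ℂ} {x : Pc n c} (hn : Nk n) (hc : c ≠ 0) (h : Rp n c τ x)
    (h' : Rp n c τ' x) : Lam τ' = Lam τ := by
  obtain ⟨g, hg, rfl⟩ := G5.exists_sl h.pos h'.pos (UNb.jf_eq hn hc h' h)
  have k := UNb.exp_Lam_act (M := g) (by omega) h.pos
  rw [phi_det_one hg h.pos, hg] at k
  exact Real.exp_injective (by simpa using k)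

theorem uwp_odd {n c : ℕ} (h : Aw n c) : Odd c :=
  Nat.not_even_iff_odd.1 fun e => (h.2 2 Nat.prime_two e.two_dvd).1 rfl

theorem uwp_gd {n c l : ℕ} (ok : Ok n c) (h : l ∣ c) (h4 : l % 4 = 1) : B3.CM.Gd n c l :=
  (B3.CM.kc_odd ok.m4 (by omega) ((Int.natCast_dvd_natCast.2 h).mul_left _)).exists_th ok

/-- The logarithm of the absolute value of a coordinate. -/
noncomputable def uwpL (x : TT) (i : I3) : ℝ := Real.log ‖jC (co x i)‖

theorem uwp_pos (x : TT) (i : I3) : 0 < ‖jC (co x i)‖ :=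
  norm_pos_iff.2 ((map_ne_zero _).2 (co_ne x i))

theorem uwpL_sum {ι : Type*} (s : Finset ι) (x : ι → TT) (i : I3) :
    uwpL (∑ a ∈ s, x a) i = ∑ a ∈ s, uwpL (x a) i := by
  rw [uwpL, co_sum, map_prod, norm_prod, Real.log_prod fun a _ => (uwp_pos (x a) i).ne']
  rfl

/-- The first digit. -/
theorem uwp_digit {w : Plc} (hw : w.p = 2) {x : Qbar} (h : w.V (x ^ 2 - 1) ^ 3 < w.V 2 ^ 2) :
    w.V (x - 1) ^ 3 < w.V 2 := by
  have h1 : w.V 2 = 2⁻¹ := by
    have := w.hV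
    rw [hw] at this
    exact_mod_cast this
  have h0 : 0 < w.V 2 := by rw [h1]; positivity
  have h2 : w.V 2 < 1 := by rw [h1]; exact inv_lt_one_of_one_lt₀ one_lt_two
  rcases le_or_gt (w.V (x - 1)) (w.V 2) with k | k
  · exact (pow_le_pow_left₀ zero_le k 3).trans_lt (pow_lt_self_of_lt_one₀ h0 h2 (by norm_num))
  · rw [show x ^ 2 - 1 = (x - 1) * (x - 1 + 2) by ring, map_mul, w.V.map_add_eq_of_lt_left k,
      ← sq, ← pow_mul, mul_comm, pow_mul] at h
    exact lt_of_pow_lt_pow_left₀ 2 zero_le h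

theorem uwp_k5 {w : Plc} {x : TT} (h : ∀ i, w.V (co x i - 1) ^ 3 < w.V 2) : x ∈ K5 w := by
  intro i i'
  have e : w.V (co x i') = 1 := by
    rw [← add_sub_cancel 1 (co x i')]
    exact w.V.map_one_add_of_lt ((pow_lt_one_iff_of_nonneg zero_le three_ne_zero).1
      ((h i').trans_le (V_two_le w)))
  rw [div_sub_one (co_ne x i'), map_div₀, e, div_one, ← sub_sub_sub_cancel_right _ _ 1]
  refine (pow_le_pow_left₀ zero_le (w.V.map_sub _ _) 3).trans_lt ?_
  rcases max_choice (w.V (co x i - 1)) (w.V (co x i' - 1)) with l | l <;> rw [l]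
  exacts [h i, h i']

variable [Cp]

theorem uwp_xc_inv {g : Gam} (hg : g ∈ GK NN) : xc g⁻¹ = -xc g := by
  have := xc_mul hg g⁻¹
  rw [mul_inv_cancel, xc_one] at this
  exact (neg_eq_of_add_eq_zero_right this.symm).symm

theorem uwp_cc : cc ∉ GK NN := cc_notMem (by have := nk.gt; omega)

theorem uwp_co_cc (x : TT) (i : I3) : co (cc • x) i = cc (co x (-i)) := by
  rw [co_smul, inv_eq_of_mul_eq_one_right cc_mul_cc, pm_of_notMem uwp_cc, xc_cc, zero_sub]

/-- Real points. -/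
theorem uwp_real {x : TT} (h : cc • x = x) :
    (jC (co x 0)).im = 0 ∧ uwpL x 0 + 2 * uwpL x 1 = 0 := by
  have k : ∀ i, jC (co x i) = starRingEnd ℂ (jC (co x (-i))) := fun i => by
    rw [← jC_cc, ← uwp_co_cc, h]
  refine ⟨Complex.conj_eq_iff_im.1 (by simpa using (k 0).symm), ?_⟩
  have k1 : ‖jC (co x 2)‖ = ‖jC (co x 1)‖ := by
    rw [k 2, Complex.norm_conj, show (-2 : I3) = 1 from rfl]
  have k2 := congrArg (fun z => Real.log ‖jC z‖) (co_prod x)
  simp only [prod_I3, map_mul, norm_mul, map_one, norm_one, Real.log_one, k1] at k2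
  rw [Real.log_mul (mul_pos (uwp_pos x 0) (uwp_pos x 1)).ne' (uwp_pos x 1).ne',
    Real.log_mul (uwp_pos x 0).ne' (uwp_pos x 1).ne'] at k2
  rw [uwpL, uwpL]
  linarith

variable {Y : ∀ c, Pc NN c → TT} {c : ℕ}

theorem uwp_gal [Fintype (Pc NN c)] {T : Finset ℕ} (hY : Wb Y) (hc : Aw NN c) {g : Gam}
    (hg : g ∈ GK NN) (h : ∀ l ∈ T, th NN c l (rho NN c g) = 1) : g • mT Y c T = mT Y c T := by
  rw [mT, smul_sum]
  refine sum_nbij' (fun B => rho NN c g * B) (fun B => (rho NN c g)⁻¹ * B) (fun B hB => ?_)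
    (fun B hB => ?_) (fun B _ => inv_mul_cancel_left _ _) (fun B _ => mul_inv_cancel_left _ _)
    fun B _ => hY.gal c hc g hg B
  · exact mem_filter.2 ⟨mem_univ _, fun l hl => by
      rw [map_mul, h l hl, (mem_filter.1 hB).2 l hl, one_mul]⟩
  · exact mem_filter.2 ⟨mem_univ _, fun l hl => by
      rw [map_mul, map_inv, h l hl, (mem_filter.1 hB).2 l hl, inv_one, one_mul]⟩

theorem uwp_conj [Fintype (Pc NN c)] (T : Finset ℕ) (hY : Wb Y) (hc : Aw NN c) :
    cc • mT Y c T = mT Y c T := by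
  have k : ∀ B ∈ univ.filter fun B : Pc NN c => ∀ l ∈ T, th NN c l B = 1,
      B⁻¹ ∈ univ.filter fun B : Pc NN c => ∀ l ∈ T, th NN c l B = 1 := fun B hB =>
    mem_filter.2 ⟨mem_univ _, fun l hl => by rw [map_inv, (mem_filter.1 hB).2 l hl, inv_one]⟩
  rw [mT, smul_sum]
  exact sum_nbij' (fun B => B⁻¹) (fun B => B⁻¹) k k (fun B _ => inv_inv _) (fun B _ => inv_inv _)
    fun B _ => hY.conj c hc B

/-- The sum over a fibre. -/
theorem uwp_fib (NG : NGStmt) [Fintype (Pc NN (2 * c))] (hY : Wb Y) (hc : Aw NN c)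
    {t : Pc NN (2 * c) → ℂ} (ht : ∀ x, Rp NN (2 * c) (t x) x) (B : Pc NN c) :
    ∑ x with pj NN c (2 * c) x = B, bw (ps (pj NN 2 (2 * c) x)) * Lam (t x) =
      8 * (uwpL (Y c B) 0 - uwpL (Y c B) 1) := by
  have c0 := hc.1.ne_zero
  obtain ⟨τ, hτ⟩ := nb_point (nk.ok c0) B
  obtain ⟨y, h1, h2, h3⟩ := (NG NN c nk (uwp_odd hc)).1 τ B hτ
  obtain ⟨u, hu, hv⟩ := hY.val c hc
  have h4 := h3 ps ps_cub.ram
  have h5 : ∀ i, Lam (t (y i)) =
      8 * uwpL (Y c B) (ps (pj NN 2 (2 * c) (y i))).toAdd + (Lam τ - Real.log 4) := fun i => by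
    have k1 := UNb.exp_Lam_hk hτ.pos i
    have k2 := hu.val τ B i (y i) hτ (h1 i)
    have k3 := hv (y i)
    rw [(h2 _).2 ⟨i, rfl⟩] at k3
    have k4 : ‖ph 2 i τ‖ = 16 * ‖jC (co (Y c B) (ps (pj NN 2 (2 * c) (y i))).toAdd)‖ ^ 8 := by
      rw [← norm_pow, ← map_pow, k3, k2, norm_div, norm_neg]
      simp only [Complex.norm_ofNat]
      ring
    rw [uwp_lam nk (mul_ne_zero two_ne_zero c0) (h1 i) (ht _)]
    refine Real.exp_injective ?_
    rw [Real.exp_add, Real.exp_sub, Real.exp_log four_pos, uwpL,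
      show (8 : ℝ) = (8 : ℕ) by norm_num, Real.exp_nat_mul, Real.exp_log (uwp_pos _ _)]
    rw [k4] at k1
    linarith
  have h6 : (univ.filter fun x => pj NN c (2 * c) x = B) = univ.image y := by
    ext x
    simp [h2]
  rw [h6, sum_image fun i _ j _ e => h4.1 (by simp only [e]), sum_congr rfl fun i _ => by rw [h5 i],
    h4.sum_comp fun a => bw a * (8 * uwpL (Y c B) a.toAdd + (Lam τ - Real.log 4)), UNb.sum_z3,
    toAdd_one, toAdd_ofAdd]
  ring

omit [Cp] in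
theorem wp_stmt (_ : JRStmt) (NG : NGStmt) : WPStmt := by
  intro _ Y c _ _ T w V t bx _ hY hc hT ht
  have c0 := hc.1.ne_zero
  have hg : ∀ l ∈ T, B3.CM.Gd NN c l := fun l hl => uwp_gd (nk.ok c0) (hT l hl).1 (hT l hl).2.2
  have h1 : ∀ g ∈ Ine w, w.p = 2 → g • mT Y c T = mT Y c T := fun g k hw =>
    uwp_gal hY hc ((bx.two w hw).1 k) fun l hl => by
      rw [(hg l hl).th ((bx.two w hw).1 k)]
      exact chi_ine_two hw (by have := (hT l hl).2.2; omega) k
  have h2 := uwp_conj T hY hc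
  refine ⟨?_, h1, h2, fun hw hV h => ?_⟩
  · obtain ⟨k1, k2⟩ := uwp_real h2
    have k3 : ∑ x with ∀ l ∈ T, th NN (2 * c) l x = 1, bw (ps (pj NN 2 (2 * c) x)) * Lam (t x) =
        ∑ B with ∀ l ∈ T, th NN c l B = 1, 8 * (uwpL (Y c B) 0 - uwpL (Y c B) 1) := by
      rw [← sum_congr rfl fun B _ => uwp_fib NG hY hc ht B,
        sum_fiberwise_eq_sum_filter _ _ (pj NN c (2 * c))]
      refine sum_congr (filter_congr fun x _ => ?_) fun _ _ => rfl
      rw [mem_filter, and_iff_right (mem_univ _)]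
      exact forall₂_congr fun l hl => by
        rw [(hg l hl).th_pj (nk.ok (mul_ne_zero two_ne_zero c0)) (dvd_mul_left c 2)]
    rw [k3, ← mul_sum, sum_sub_distrib, ← uwpL_sum, ← uwpL_sum, ← mT,
      show 1 / 6 * (8 * (uwpL (mT Y c T) 0 - uwpL (mT Y c T) 1)) = (2 : ℕ) * uwpL (mT Y c T) 0 by
        push_cast; linarith, Real.exp_nat_mul, uwpL, Real.exp_log (uwp_pos _ _),
      Complex.ofReal_pow, ← Complex.mul_conj', Complex.conj_eq_iff_im.2 k1, sq]
  · obtain ⟨le, -, σ, hσ, e⟩ := bx.two w hw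
    have k1 : w.V (co (mT Y c T) 0 - 1) ^ 3 < w.V 2 := uwp_digit hw (by
      rw [← hV, ← hV, map_sub, map_pow, map_one, map_ofNat]
      exact h)
    have k2 : ∀ i, w.V (co (mT Y c T) (i + 1) - 1) = w.V (co (mT Y c T) i - 1) := fun i => by
      rw [← mem_Dec.1 (Ine_le w hσ) (co (mT Y c T) i - 1), map_sub σ, map_one σ]
      conv_lhs => rw [← h1 σ hσ hw, co_smul, pm_of_mem (inv_mem (le hσ)), uwp_xc_inv (le hσ), e,
        neg_add_cancel_comm_assoc]
    refine uwp_k5 fun i => ?_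
    have k3 : i = 0 ∨ i = 0 + 1 ∨ i = 0 + 1 + 1 := by revert i; decide
    rcases k3 with rfl | rfl | rfl
    · exact k1
    · rwa [k2]
    · rwa [k2, k2]

end Pool.Agent.B10
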