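import Pool.Agent.Lib.MP_696deb_nt.B10.ZS
import Pool.Agent.Lib.MP_696deb_nt.B10.UWP
import Pool.Agent.Lib.MP_696deb_nt.B10.UNG
import Pool.Agent.Lib.MP_696deb_nt.B8.UNa
import Pool.Agent.Lib.MP_696deb_nt.B8.FA
import Pool.Agent.Lib.MP_696deb_nt.B8.EX
import Pool.Agent.Lib.MP_696deb_nt.B8.EP
import Pool.Agent.Lib.MP_696deb_nt.B8.EQ
import Pool.Agent.Lib.MP_696deb_nt.B8.PE
import Pool.Agent.Lib.MP_696deb_nt.B8.ME
import Pool.Agent.Lib.MP_696deb_nt.B8.VJ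

/-! The projected series of weight one is not small. -/

set_option autoImplicit false

open Finset
open scoped Classical NNReal

namespace Pool.Agent.T10
open Pool.Agent.Lib.MP_696deb_nt Pool.Agent.Lib.MP_696deb_nt.B2 Pool.Agent.Lib.MP_696deb_nt.B2.CM
  Pool.Agent.B6 Pool.Agent.B8 Pool.Agent.B8.UNb
open Pool.Agent.Lib.MP_696deb_nt.B3.CM (th)
open Pool.Agent.H3.T (Lam)

/-- The classes of conductor `2 c` are the neighbours of the classes of conductor `c`. -/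
theorem up_fam {n c : ℕ} [Fintype (Pc n c)] [Fintype (Pc n (2 * c))] (hn : Nk n) (hc : Odd c)
    {ψ : Pc n 2 →* Z3} (hψ : Ram ψ) (p : Pc n c → Prop) (q : Pc n (2 * c) → Prop)
    [DecidablePred p] [DecidablePred q] (hp : ∀ x, q x ↔ p (pj n c (2 * c) x)) :
    ∃ (τ : Pc n c → ℂ) (e : Pc n c → Z3 → Option (Fin 2)) (t : Pc n (2 * c) → ℂ),
      (∀ B, Rp n c (τ B) B) ∧ (∀ x, Rp n (2 * c) (t x) x) ∧
      ∀ F : ℂ → ℝ, ∑ x with q x, bw (ψ (pj n 2 (2 * c) x)) * F (t x) =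
        ∑ B with p B, (F (hk 2 (τ B) (e B 1)) - F (hk 2 (τ B) (e B (.ofAdd 1)))) := by
  choose τ hτ using fun B : Pc n c => nb_point (hn.ok hc.pos.ne') B
  choose y h1 h3 h4 using fun B => (B10.ng_stmt n c hn hc).1 (τ B) B (hτ B)
  let e : Pc n c → Z3 → Option (Fin 2) := fun B => (Equiv.ofBijective _ (h4 B ψ hψ)).symm
  have k1 : ∀ B a, ψ (pj n 2 (2 * c) (y B (e B a))) = a := fun B a =>
    (Equiv.ofBijective _ (h4 B ψ hψ)).apply_symm_apply a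
  have k2 : ∀ x, y (pj n c (2 * c) x) (e (pj n c (2 * c) x) (ψ (pj n 2 (2 * c) x))) = x :=
    fun x => by
    obtain ⟨i, hi⟩ := (h3 _ x).1 rfl
    have : e (pj n c (2 * c) x) (ψ (pj n 2 (2 * c) x)) = i :=
      (h4 _ ψ hψ).1 ((k1 _ _).trans (congrArg (fun z => ψ (pj n 2 (2 * c) z)) hi.symm))
    rw [this, hi]
  refine ⟨τ, e, fun x => hk 2 (τ (pj n c (2 * c) x))
    (e (pj n c (2 * c) x) (ψ (pj n 2 (2 * c) x))), hτ, fun x => ?_, fun F => ?_⟩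
  · have := h1 (pj n c (2 * c) x) (e (pj n c (2 * c) x) (ψ (pj n 2 (2 * c) x)))
    rwa [k2] at this
  · have hb : Function.Bijective fun x => (pj n c (2 * c) x, ψ (pj n 2 (2 * c) x)) := by
      refine ⟨fun x x' h => ?_, fun p => ⟨y p.1 (e p.1 p.2), ?_⟩⟩
      · obtain ⟨a, b⟩ := Prod.ext_iff.1 h
        rw [← k2 x, ← k2 x']
        exact congrArg₂ (fun B c => y B (e B c)) a b
      · exact Prod.ext ((h3 _ _).2 ⟨_, rfl⟩) (k1 _ _)
    rw [sum_filter, sum_filter, Fintype.sum_bijective _ hb _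
      (fun z => if p z.1 then bw z.2 * F (hk 2 (τ z.1) (e z.1 z.2)) else 0)
      fun x => if_congr (hp x) rfl rfl, Fintype.sum_prod_type]
    refine sum_congr rfl fun B _ => ?_
    dsimp only
    split_ifs
    exacts [sum_z3 fun a => F (hk 2 (τ B) (e B a)), sum_const_zero]

/-- From the product to the sum. -/
theorem up_val {V : Valuation ℂ ℝ≥0} {ι : Type} (S : Finset ι) {a b : ι → ℂ} (h2 : V 2 < 1)
    (ha : ∀ i, V (a i - 1) ^ 3 < V 2) (hb : ∀ i, V (b i - 1) ^ 3 < V 2)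
    (h : ¬ V ((∏ i ∈ S, a i) / (∏ i ∈ S, b i) - 1) ^ 3 < V 2 ^ 2) :
    V 2 ^ 2 ≤ V (∑ i ∈ S, (a i - b i)) ^ 3 := by
  obtain ⟨t, ht⟩ : ∃ t : ℝ≥0, t ^ 3 = V 2 := ⟨_, NNReal.rpow_inv_natCast_pow _ three_ne_zero⟩
  have h0 : 0 < V 2 := V.pos_iff.2 two_ne_zero
  have t0 : 0 < t := pos_of_ne_zero fun h => by
    rw [← ht, h, zero_pow three_ne_zero] at h0
    exact h0.false
  have t1 : t < 1 := (pow_lt_one_iff_of_nonneg zero_le three_ne_zero).1 (ht.trans_lt h2)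
  have h3 : ∀ z, V z ^ 3 < V 2 → V z < t := fun z h =>
    lt_of_pow_lt_pow_left₀ 3 zero_le (h.trans_eq ht.symm)
  obtain ⟨-, a2⟩ := una_prod t0 t1 (fun i => h3 _ (ha i)) S
  obtain ⟨b1, b2⟩ := una_prod t0 t1 (fun i => h3 _ (hb i)) S
  have b3 := una_one (b1.trans t1)
  have b4 : ∏ i ∈ S, b i ≠ 0 := V.ne_zero_iff.1 (b3.trans_ne one_ne_zero)
  rw [div_sub_one b4, map_div₀, b3, div_one, not_lt, ← ht, ← pow_mul, mul_comm, pow_mul] at h
  have h6 := le_of_pow_le_pow_left₀ three_ne_zero zero_le h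
  have h7 : ∑ i ∈ S, (a i - b i) = (∏ i ∈ S, a i - ∏ i ∈ S, b i) +
      ((∏ i ∈ S, b i - 1 - ∑ i ∈ S, (b i - 1)) - (∏ i ∈ S, a i - 1 - ∑ i ∈ S, (a i - 1))) := by
    simp only [sum_sub_distrib]
    ring
  rwa [h7, V.map_add_eq_of_lt_left ((V.map_sub_lt b2 a2).trans_le h6), ← ht, ← pow_mul, mul_comm,
    pow_mul]

theorem up_stmt (ls : LSStmt) : UPStmt := by
  intro n _ ψ g V T hn hT hψ hg hv hU
  have vj := vj_stmt nb_stmt (me_stmt pe_stmt)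
  have ex := ex_stmt' vj (ep_stmt pe_stmt eq_stmt)
  have hx := (nb_stmt n hn).2.1
  obtain ⟨τ0, h0, h1⟩ := (B10.ng_stmt n 1 hn odd_one).2 1 none
  refine ⟨?_, ?_⟩
  · rw [jf_eq hn two_ne_zero hx h1]
    exact ((vj n 1 V _ _ hn odd_one hv h0).2 _).2
  have hc : Odd (∏ l ∈ T, l) := prod_induction _ Odd (fun _ _ => Odd.mul) odd_one fun l hl =>
    Nat.odd_iff.2 (by have := (hT l hl).2.1; omega)
  have c0 := hc.pos.ne'
  obtain ⟨τ, e, t, hτ, ht, hsum⟩ := up_fam hn hc hψ (fun B => ∀ l ∈ T, th n (∏ l ∈ T, l) l B = 1)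
    (fun x => ∀ l ∈ T, th n (2 * ∏ l ∈ T, l) l x = 1) fun x => forall₂_congr fun l hl => by
      rw [(B10.uwp_gd (hn.ok c0) (dvd_prod_of_mem _ hl) (hT l hl).2.1).th_pj
        (hn.ok (mul_ne_zero two_ne_zero c0)) (dvd_mul_left _ 2)]
  have hG := (ls n ψ g T t hn hT hg ht).2
  have hu := hU t ht
  rw [hsum Lam] at hu
  rw [hsum Pz] at hG
  generalize (univ.filter fun B => ∀ l ∈ T, th n (∏ l ∈ T, l) l B = 1) = G at hu hG
  generalize Th (fun m => g m * ∏ l ∈ T, Ps l m) (x0 n / (∏ l ∈ T, l : ℕ)) = θ at hG ⊢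
  have lx : Lam (hk 2 τ0 none) = Lam (x0 n) := B10.uwp_lam hn two_ne_zero hx h1
  set W : ℝ := Wc τ0 none with hW
  have W0 : 0 < W := Wc_pos h0.pos _
  let a : Pc n (∏ l ∈ T, l) → ℝ := fun B => Wc (τ B) (e B 1) / W
  let b : Pc n (∏ l ∈ T, l) → ℝ := fun B => Wc (τ B) (e B (.ofAdd 1)) / W
  have pa : ∀ B, 0 < a B := fun B => div_pos (Wc_pos (hτ B).pos _) W0
  have pb : ∀ B, 0 < b B := fun B => div_pos (Wc_pos (hτ B).pos _) W0
  have hp : Real.exp (1 / 6 * ∑ B ∈ G, (Lam (hk 2 (τ B) (e B 1)) -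
      Lam (hk 2 (τ B) (e B (.ofAdd 1))))) = (∏ B ∈ G, a B) / ∏ B ∈ G, b B := by
    rw [mul_sum, Real.exp_sum, ← prod_div_distrib]
    refine prod_congr rfl fun B _ => ?_
    have k1 := log_Wc (hτ B).pos (e B 1)
    have k2 := log_Wc (hτ B).pos (e B (.ofAdd 1))
    rw [← Real.exp_log (div_pos (pa B) (pb B)), Real.log_div (pa B).ne' (pb B).ne']
    simp only [a, b]
    rw [Real.log_div (Wc_pos (hτ B).pos _).ne' W0.ne',
      Real.log_div (Wc_pos (hτ B).pos _).ne' W0.ne']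
    congr 1
    linarith
  have hS := up_val G (a := fun B => a B) (b := fun B => b B) hv
    (fun B => ex n 1 _ V _ _ _ B hn odd_one hc hv h0 (hτ B) _ _)
    (fun B => ex n 1 _ V _ _ _ B hn odd_one hc hv h0 (hτ B) _ _) (by
      rw [hp] at hu
      exact_mod_cast hu)
  set S : ℝ := ∑ B ∈ G, (a B - b B) with hSd
  have hS' : V 2 ^ 2 ≤ V (S : ℂ) ^ 3 := by
    rw [hSd]
    exact_mod_cast hS
  set r : ℝ := ∑ B ∈ G, (Pz (hk 2 (τ B) (e B 1)) - Pz (hk 2 (τ B) (e B (.ofAdd 1)))) with hr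
  have r1 : r * √2 = -(S * W) := by
    rw [hr, hSd, sum_mul, sum_mul, ← sum_neg_distrib]
    refine sum_congr rfl fun B _ => ?_
    rw [fa_stmt _ (hτ B).pos, fa_stmt _ (hτ B).pos]
    simp only [a, b]
    field_simp
    ring
  have r2 : r ^ 12 * (n : ℝ) ^ 3 = S ^ 12 * ‖ph 2 none τ0‖ * ‖Dl (x0 n)‖ := by
    have h1 : √2 ^ 12 = (64 : ℝ) := by
      rw [show 12 = 2 * 6 from rfl, pow_mul, Real.sq_sqrt zero_le_two]
      norm_num
    have h2 := congrArg (· ^ 12) r1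
    simp only [mul_pow, h1, Even.neg_pow (show Even 12 by decide)] at h2
    rw [hW, Wc_pow' h0.pos, lx, exp_Lam hx.pos] at h2
    have h3 := x0_pow (n := n) (by have := hn.gt; omega)
    linear_combination (n : ℝ) ^ 3 / 64 * h2 + S ^ 12 * ‖ph 2 none τ0‖ * ‖Dl (x0 n)‖ * h3
  have r3 : (2 * θ) ^ 12 * ((n : ℤ) : ℂ) ^ 3 =
      (S : ℂ) ^ 12 * (‖ph 2 none τ0‖ : ℝ) * (‖Dl (x0 n)‖ : ℝ) := by
    rw [hG]
    exact_mod_cast r2
  have p1 : V (‖ph 2 none τ0‖ : ℝ) = V 2 ^ 4 := by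
    refine val_norm V ((vj n 1 V _ _ hn odd_one hv h0).2 _).1 ?_
    have h1 := ((vj n 1 (V.comap (starRingEnd ℂ)) _ _ hn odd_one
      (by rwa [Valuation.comap_apply, map_ofNat]) h0).2 none).1
    rwa [Valuation.comap_apply, Valuation.comap_apply, map_ofNat] at h1
  have p2 : V (‖Dl (x0 n)‖ : ℝ) = V (Dl (x0 n)) := val_norm V rfl (by rw [conj_Dl hx.pos])
  have p3 : V ((n : ℤ) : ℂ) = 1 := val_int_eq_one (p := 2) Nat.prime_two (by simpa using hv) (by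
    have := hn.m8
    omega)
  have r4 := congrArg V r3
  rw [map_mul, map_mul, map_mul, mul_pow, map_mul, map_pow, map_pow V _ 3, p1, p2, p3,
    map_pow V (S : ℂ), one_pow, mul_one] at r4
  have v0 : 0 < V 2 := V.pos_iff.2 two_ne_zero
  rw [map_div₀, one_le_div₀ (V.pos_iff.2 (Dl_ne hx.pos))]
  refine le_of_mul_le_mul_left ?_ (pow_pos v0 12)
  rw [r4, show 12 = 3 * 4 from rfl, pow_mul (V (S : ℂ))]
  calc V 2 ^ (3 * 4) * V (Dl (x0 n)) = (V 2 ^ 2) ^ 4 * V 2 ^ 4 * V (Dl (x0 n)) := by ring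
    _ ≤ _ := by gcongr

end Pool.Agent.T10
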