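import Pool.Agent.Lib.MP_696deb_nt.B10.ZS
import Pool.Agent.Lib.MP_696deb_nt.B8.UNc
import Pool.Agent.Lib.MP_696deb_nt.B7.D9Cusp
import Pool.Agent.Lib.MP_696deb_nt.B7.D9Der
import Pool.Agent.Lib.MP_696deb_nt.B7.D9Inv

/-! Translates of congruent forms, and the derivative of the coordinate. -/

set_option autoImplicit false

open Complex
open scoped Classical NNReal Real

namespace Pool.Agent.T10
open Pool.Agent.Lib.MP_696deb_nt Pool.Agent.B8 Pool.Agent.B4.GE Pool.Agent.B5 Pool.Agent.B6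

theorem uq_le {N : ℕ} {V : Valuation ℂ ℝ≥0} {F : ℂ → ℂ} {A : PowerSeries ℤ} {M : MZ} {z : ℂ}
    (hN : Odd N) (h2 : V 2 < 1) (hF : Mk N 2 F) (hA : QE F (toC A)) (hz : 0 < z.im)
    (hj : V (jf z) ≤ 1) (hM : 0 < M.det) (ho : Odd M.det) : V (sl M F z ^ 6 / Dl z) ≤ 1 := by
  have N0 : N ≠ 0 := hN.pos.ne'
  have hy := act_pos hM hz
  have h3 : LZ F := ⟨0, _, hA.congr fun z _ => by simp⟩
  have h4 : V (F (act M z) ^ 6 / Dl (act M z)) ≤ 1 :=
    qp (F := fun z => F z ^ 6 / Dl z) (τ := act M z) N0 (mf_div_Dl N0 (hF.pow 6))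
      ((LR V.integer).mul_mem ((LR V.integer).pow_mem (h3.mem V.integer) 6)
        (lz_Dl_inv.mem V.integer))
      (Aff.of_unit N0 (una_odd h2 hN) hy (val_isog hM hz hj).2)
  have vd : V M.det = 1 := val_int_eq_one Nat.prime_two (by simpa using h2)
    (by have := Int.odd_iff.1 ho; omega)
  have h5 := val_phi_eq_one hM hz hj vd
  have d0 : (M.det : ℂ) ≠ 0 := by exact_mod_cast hM.ne'
  have e : sl M F z ^ 6 / Dl z =
      F (act M z) ^ 6 / Dl (act M z) * phiJ M z * ((M.det : ℂ) ^ 6)⁻¹ := by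
    have := Dl_ne hy
    have := Dl_ne hz
    have := den_ne' hM.ne' hz
    rw [sl, phiJ]
    field_simp
  rw [e, map_mul, map_mul, h5, map_inv₀, map_pow, vd]
  simpa using h4

theorem uq_stmt : UQStmt := by
  intro N V F G A B M z hN h2 hF hG hA hB he hz hj hM ho
  refine ⟨uq_le hN h2 hF hA hz hj hM ho, ?_⟩
  choose c hc using he
  have h1 : QE (fun z => 2⁻¹ * (F z - G z)) (toC (PowerSeries.mk c)) := by
    have e : toC (PowerSeries.mk c) = PowerSeries.C 2⁻¹ * (toC A - toC B) := by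
      ext k
      rw [PowerSeries.coeff_C_mul, ← map_sub, PowerSeries.coeff_map, PowerSeries.coeff_map,
        PowerSeries.coeff_mk, map_sub, hc k]
      simp only [eq_intCast]
      push_cast
      ring
    rw [e]
    exact (hA.sub hB).smul _
  have h3 := uq_le hN h2 ((hF.sub hG).smul 2⁻¹) h1 hz hj hM ho
  have e : (sl M F z - sl M G z) ^ 6 / Dl z =
      2 ^ 6 * (sl M (fun z => 2⁻¹ * (F z - G z)) z ^ 6 / Dl z) := by
    simp only [sl]
    ring
  rw [e, map_mul, map_pow]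
  exact mul_lt_one_of_nonneg_of_lt_one_left zero_le (pow_lt_one₀ zero_le h2 (by norm_num)) h3

theorem td_stmt : TDStmt := by
  intro V z h2 hz hj
  have d := D9.der_stmt D9.inv_stmt D9.tex_stmt (D9.cusp_stmt D9.inv_stmt D9.tex_stmt) z hz
  have a3 := (val_Dl_div (d := 3) (by decide) hz hj).2.2 (una_odd h2 (by decide))
  have a9 := (val_Dl_div (d := 9) (by decide) hz hj).2.2 (una_odd h2 (by decide))
  have a := congrArg V d
  have n0 := (V.ne_zero_iff).2 (Dl_ne hz)
  simp only [map_div₀, Nat.cast_ofNat] at a3 a9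
  rw [map_mul, map_pow, map_pow, map_pow, ← eq_of_div_eq_one a3, ← eq_of_div_eq_one a9] at a
  rw [map_div₀, map_pow, div_eq_one_iff_eq n0]
  refine (pow_left_inj₀ zero_le zero_le (n := 2) (by decide)).1
    (mul_right_cancel₀ (pow_ne_zero 3 n0) ?_)
  rw [← pow_mul, a]
  ring

end Pool.Agent.T10
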