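import Pool.Agent.Lib.MP_696deb_nt.B10.ZS
import Pool.Agent.Lib.MP_696deb_nt.B8.A0
import Pool.Agent.Lib.MP_696deb_nt.B8.A1
import Pool.Agent.Lib.MP_696deb_nt.B8.LKc
import Pool.Agent.Lib.MP_696deb_nt.B8.NB
import Pool.Agent.Lib.MP_696deb_nt.B8.TH
import Pool.Agent.Lib.MP_696deb_nt.B8.THa
import Pool.Agent.Lib.MP_696deb_nt.B8.THb
import Pool.Agent.Lib.MP_696deb_nt.B8.THc
import Pool.Agent.Lib.MP_696deb_nt.B8.THd
import Pool.Agent.Lib.MP_696deb_nt.B5.AL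

/-! The derivative of the half operators is a unit. -/

set_option autoImplicit false

open NumberTheorySymbols Finset Function Complex
open scoped Classical NNReal Real

namespace Pool.Agent.T10
open Pool.Agent.Lib.MP_696deb_nt Pool.Agent.Lib.MP_696deb_nt.B2 Pool.Agent.Lib.MP_696deb_nt.B2.CM
  Pool.Agent.B6 Pool.Agent.B8 Pool.Agent.B4.GE

theorem ut_rec [Ce] {g : ℕ → ℤ} (h : Rec g) {l : ℕ} (hl : l.Prime) (h8 : l % 8 = 1)
    (hj : J(-NN | l) = -1) (hN : ¬ l ∣ NN) (k : ℕ) : g (l * k) = if l ∣ k then g (k / l) else 0 := by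
  have h2 : l ≠ 2 := by omega
  rcases eq_or_ne k 0 with rfl | hk
  · simp
  · rw [h.mul l k hl h2 hk, h.val l hl h2, if_neg hN, if_pos hj, hj]
    ring

theorem ut_der {W : WeierstrassCurve ℚ} {N : ℕ} (D : MD W N) {M : MZ} (hM : 0 < M.det) {z : ℂ}
    (hz : 0 < z.im) : deriv (fun y => D.par.F (act M y)) z =
      D.k * (2 * π * I) * sl M (B4.cf D.f) z := by
  have h := ((B4.gl_act hM D.qe D.S0 hz).const_mul (D.k : ℂ)).deriv
  simp only [MD.par_F, D.F_eq]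
  rw [h, sl]
  ring

theorem ut_odd {V : Valuation ℂ ℝ≥0} (hV : V 2 < 1) {m : ℤ} (h : Odd m) : V m = 1 :=
  val_int_eq_one (p := 2) Nat.prime_two (by simpa using hV) (by
    have := Int.odd_iff.1 h
    omega)

theorem ut_stmt (ls : LSStmt) (up : UPStmt) (gs : GSStmt) (uq : UQStmt) (ua : UAStmt)
    (rq : RQStmt) (lv : LVStmt) : UTStmt := by
  intro _ _ D k ψ V T hk ho hD hψ hV hT hW
  have hn := nk
  obtain ⟨g, hg, hr⟩ := a0_stmt' ψ hψ
  obtain ⟨k1, ⟨A, k2, k3⟩, -⟩ := lk_stmt nb_stmt (th_stmt tha_stmt thb_stmt thc_stmt thd_stmt)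
    NN ψ g hn hψ.ram hg hr.even
  obtain ⟨h1, h2⟩ := up NN ψ g V T hn hT.ti hψ.ram hg hV hW
  have hp : ∏ l ∈ T, l ≠ 0 := prod_ne_zero_iff.2 fun l hl => (hT.prime l hl).ne_zero
  choose t ht using fun x : Pc NN (2 * ∏ l ∈ T, l) =>
    (nb_stmt NN hn).1 _ x (mul_ne_zero two_ne_zero hp)
  obtain ⟨γ, s, h3, h4⟩ := gs T g (fun l hl => ⟨hT.prime l hl, hT.m8 l hl⟩)
    (ls NN ψ g T t hn hT.ti hg ht).1 hr.even fun l hl =>
      ut_rec hr (hT.prime l hl) (hT.m8 l hl) (hT.inn l hl) (hT.tp l hl).2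
  have hx : 0 < (x0 NN).im := (nb_stmt NN hn).2.1.pos
  obtain ⟨u, h5, h6⟩ := h4 _ hx
  have hodd : Odd (∏ l ∈ T, l) := prod_induction _ _ (fun _ _ => Odd.mul) odd_one fun l hl =>
    Nat.odd_iff.2 (by have := hT.m8 l hl; omega)
  obtain ⟨e, he⟩ := ua V T D.c s γ u (fun κ => sl (mK T κ) (B4.cf D.f) (x0 NN)) (Dl (x0 NN)) hV
    (fun l hl => ⟨hT.m8 l hl, (h3 l hl).1, hT.four l hl⟩) (fun κ hκ => by
      obtain ⟨l1, -, l2, l3, -⟩ := lv.2.2.2 NN T κ hT.prime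
      rw [h5 κ hκ]
      refine uq NN V _ _ (PowerSeries.mk D.c) A _ _ (Nat.odd_iff.2 (by have := hn.m8; omega)) hV
        (B5.md_mk D) k1 ?_ k2 (fun k => ?_) hx h1.le l2 ?_
      · convert D.qe using 1
        ext k
        simp [MD.S]
      · have h3 := (a1_stmt g D hr hD k).sub (k3 k)
        rwa [PowerSeries.coeff_mk, ← sub_sub_sub_cancel_right _ _ (g k)]
      · rw [l1.det]
        exact_mod_cast Odd.of_dvd_nat hodd l3) (h6 ▸ h2)
  refine ⟨h1, Rq s e, (rq NN T s e hn).2.2 hT.ti fun l hl => (h3 l hl).2, ?_⟩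
  have h7 : Dd D.par T (x0 NN) (Rq s e) / (2 * π * I) =
      k * ms T (wR D.c (Rq s e)) fun κ => sl (mK T κ) (B4.cf D.f) (x0 NN) := by
    rw [div_eq_iff two_pi_I_ne_zero, Dd, ms, ms, mul_sum, sum_mul]
    refine sum_congr rfl fun κ _ => ?_
    rw [ut_der D (lv.2.2.2 NN T κ hT.prime).2.2.1 hx, hk]
    simp only [zsmul_eq_mul, Rat.cast_intCast, show D.par.a = D.c from rfl]
    ring
  rw [h7, mul_pow, mul_div_assoc, map_mul, he, map_pow, ut_odd hV ho, one_pow, one_mul]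

end Pool.Agent.T10
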