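import Pool.Agent.Lib.MP_696deb_nt.B8.PE

/-! The values of the Weierstrass function in terms of infinite products. -/

set_option autoImplicit false

open Complex
open scoped Real

namespace Pool.Agent.T10
open Pool.Agent.Lib.MP_696deb_nt Pool.Agent.Lib.MP_696deb_nt.B2.CM Pool.Agent.B8
  Pool.Agent.Shared.Weier
open Pool.Agent.Lib.MP_696deb_nt.Klein (poch)

theorem we_le {G : ℂ → ℂ} (h : ∀ q : ℂ, ‖q‖ < 1 → DifferentiableAt ℂ G q) (n : ℕ) :
    LE ⊤ fun z => G (q1 z) / q1 z ^ n := by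
  obtain ⟨A, hA⟩ := QS.exists_of_differentiableOn (G := G) fun q hq =>
    (h q (by simpa using hq)).differentiableWithinAt
  exact ⟨n, A, (QE.of_QS hA).congr fun z _ =>
    mul_div_cancel₀ _ (pow_ne_zero _ (q1_ne z)), fun _ => trivial⟩

theorem we_lt {m : ℕ} (hm : m ≠ 0) {q : ℂ} (hq : ‖q‖ < 1) : ‖q ^ m‖ < 1 := by
  rw [norm_pow]; exact pow_lt_one₀ (norm_nonneg _) hq hm

theorem we_dp {m : ℕ} (hm : m ≠ 0) (k : ℕ) (c : ℂ) {q : ℂ} (hq : ‖q‖ < 1) :
    DifferentiableAt ℂ (fun q => poch (q ^ m) (c * q ^ k)) q :=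
  Klein.differentiableAt_poch (by fun_prop) (by fun_prop) (we_lt hm hq)

theorem we_ne {m k : ℕ} (hm : m ≠ 0) {c : ℂ} (hc : ‖c‖ = 1) (h : k ≠ 0 ∨ c ≠ 1) {q : ℂ}
    (hq : ‖q‖ < 1) : poch (q ^ m) (c * q ^ k) ≠ 0 :=
  Klein.poch_ne (we_lt hm hq) fun n e => by
    rw [← pow_mul, mul_left_comm, ← pow_add] at e
    by_cases h0 : m * n + k = 0
    · rw [h0, pow_zero, mul_one] at e
      exact h.elim (fun h => h (by omega)) fun h => h e
    · have := congr_arg norm e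
      rw [norm_mul, hc, one_mul, norm_one] at this
      exact (we_lt h0 hq).ne this

/-- The value at the first half period. -/
noncomputable def weX (E b c : ℂ) : ℂ := π ^ 2 * E ^ 4 * (b ^ 8 + c ^ 8) / 3

/-- The first invariant. -/
noncomputable def weG (E b c : ℂ) : ℂ := 4 * (weX E b c ^ 2 +
  weX E b c * (weX E b c - π ^ 2 * E ^ 4 * c ^ 8) + (weX E b c - π ^ 2 * E ^ 4 * c ^ 8) ^ 2)

/-- The function of Weber times the parameter. -/
noncomputable def weH (E b c M P : ℂ) : ℂ :=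
  weG E b c * (4 * weX E b c ^ 3 - weG E b c * weX E b c) / ((2 * π) ^ 12 * E ^ 24) *
    (weX E b c - π ^ 2 * E ^ 4 * (b * c) ^ 4 * M ^ 2 / P ^ 2)

theorem we_dH {E b c M P : ℂ → ℂ} {q : ℂ} (hE : DifferentiableAt ℂ E q)
    (hb : DifferentiableAt ℂ b q) (hc : DifferentiableAt ℂ c q) (hM : DifferentiableAt ℂ M q)
    (hP : DifferentiableAt ℂ P q) (nE : E q ≠ 0) (nP : P q ≠ 0) :
    DifferentiableAt ℂ (fun q => weH (E q) (b q) (c q) (M q) (P q)) q := by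
  have hX : DifferentiableAt ℂ (fun q => weX (E q) (b q) (c q)) q := by
    unfold weX; fun_prop
  have hG : DifferentiableAt ℂ (fun q => weG (E q) (b q) (c q)) q := by
    unfold weG; fun_prop
  have np : (π : ℂ) ≠ 0 := ofReal_ne_zero.2 Real.pi_ne_zero
  unfold weH
  fun_prop (disch := simp [nE, nP, np])

variable {τ : ℂ} (h : 0 < τ.im) {L : PeriodPair} (hL : L.lattice = sp2 τ 1)
include h hL

theorem we_half : L.weierstrassP (1 / 2) =
      weX (poch (q1 τ) (q1 τ)) (poch (q1 τ) (q1 (τ / 2))) (poch (q1 τ) (-q1 (τ / 2))) ∧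
    L.g₂ = weG (poch (q1 τ) (q1 τ)) (poch (q1 τ) (q1 (τ / 2))) (poch (q1 τ) (-q1 (τ / 2))) ∧
    L.g₃ = 4 * L.weierstrassP (1 / 2) ^ 3 - L.g₂ * L.weierstrassP (1 / 2) := by
  have root : ∀ a b : ℤ, Odd a ∨ Odd b → 4 * L.weierstrassP ((a * τ + b) / 2) ^ 3 -
      L.g₂ * L.weierstrassP ((a * τ + b) / 2) - L.g₃ = 0 := fun a b hab => by
    have n : (a * τ + b) / 2 ∉ L.lattice := hL ▸ PE.half_not h a b hab
    rw [← L.derivWeierstrassP_sq _ n, (wp'_eq_zero_iff n).mpr (hL ▸ mem_sp2.2 ⟨a, b, by ring⟩)]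
    ring
  have r0 := root 0 1 (by simp)
  have r1 := root 1 0 (by simp)
  have r2 := root 1 1 (by simp)
  simp only [Int.cast_zero, Int.cast_one, zero_mul, zero_add, one_mul, add_zero] at r0 r1 r2
  obtain ⟨d1, d2, d3⟩ := PE.diffs h hL
  have nE := PE.E_ne h
  have np : (π : ℂ) ≠ 0 := ofReal_ne_zero.2 Real.pi_ne_zero
  have ns := q1_ne (τ / 2)
  have n := (PE.abc h).trans_ne one_ne_zero
  have na := left_ne_zero_of_mul (left_ne_zero_of_mul n)
  have nb := right_ne_zero_of_mul (left_ne_zero_of_mul n)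
  have nc := right_ne_zero_of_mul n
  have d12 : L.weierstrassP (1 / 2) - L.weierstrassP (τ / 2) ≠ 0 := by rw [d1]; simp [*]
  have d13 : L.weierstrassP (1 / 2) - L.weierstrassP ((τ + 1) / 2) ≠ 0 := by rw [d2]; simp [*]
  have d23 : L.weierstrassP ((τ + 1) / 2) - L.weierstrassP (τ / 2) ≠ 0 := by rw [d3]; simp [*]
  unfold weG weX
  generalize L.weierstrassP (1 / 2) = x at *
  generalize L.weierstrassP (τ / 2) = y at *
  generalize L.weierstrassP ((τ + 1) / 2) = w at *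
  have e1 : L.g₂ = 4 * (x ^ 2 + x * y + y ^ 2) :=
    mul_left_cancel₀ d12 (by linear_combination r1 - r0)
  have e2 : L.g₂ = 4 * (x ^ 2 + x * w + w ^ 2) :=
    mul_left_cancel₀ d13 (by linear_combination r2 - r0)
  have e3 : w = -x - y := mul_left_cancel₀ d23 (by linear_combination (e1 - e2) / 4)
  have e4 : x = π ^ 2 * poch (q1 τ) (q1 τ) ^ 4 *
      (poch (q1 τ) (q1 (τ / 2)) ^ 8 + poch (q1 τ) (-q1 (τ / 2)) ^ 8) / 3 := by
    linear_combination (d1 + d2 + e3) / 3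
  refine ⟨e4, ?_, by linear_combination -r0⟩
  rw [← e4, ← d1, e1]
  ring

theorem we_wp {u : ℂ} (hu : u ∉ L.lattice) : L.weierstrassP u = L.weierstrassP (1 / 2) -
    π ^ 2 * poch (q1 τ) (q1 τ) ^ 4 * (poch (q1 τ) (q1 (τ / 2)) * poch (q1 τ) (-q1 (τ / 2))) ^ 4 *
      (poch (q1 τ) (-q1 u) * poch (q1 τ) (-q1 (τ - u))) ^ 2 /
      (poch (q1 τ) (q1 u) * poch (q1 τ) (q1 (τ - u))) ^ 2 := by
  have n0 : (1 / 2 : ℂ) ∉ L.lattice := by simpa [hL] using PE.half_not h 0 1 (by simp)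
  have d := PE.wp_sub h hL hu n0
  have nT := Klein.Th_ne h (z := u) fun m n e => hu (hL ▸ mem_sp2.2 ⟨m, n, by rw [e, mul_one]⟩)
  have k1 : Klein.Th τ (u - 1 / 2) = -Klein.Th τ (u + 1 / 2) := by
    rw [show u + 1 / 2 = u - 1 / 2 + 1 by ring, Klein.Th_add_one, neg_neg]
  have k2 : Klein.Th τ (u + 1 / 2) =
      q1 (-u / 2) * q1 (-1 / 4) * (poch (q1 τ) (-q1 u) * poch (q1 τ) (-q1 (τ - u))) := by
    rw [Klein.Th, show -(u + 1 / 2) / 2 = -u / 2 + -1 / 4 by ring, q1_add, q1_add, PE.q1_half',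
      show τ - (u + 1 / 2) = τ - u + -1 / 2 by ring, q1_add, Klein.q1_half, mul_neg_one,
      mul_neg_one, mul_assoc]
  have hD : deriv (Klein.Th τ) 0 ^ 2 = -4 * π ^ 2 * poch (q1 τ) (q1 τ) ^ 4 := by
    rw [PE.deriv_Th h]; linear_combination 4 * π ^ 2 * poch (q1 τ) (q1 τ) ^ 4 * I_sq
  have e4 := congr_arg (· ^ 4) (PE.abc h)
  simp only [mul_pow, one_pow] at e4
  have e := PE.q1_quarter
  rw [hD, k1, k2, PE.Th0 h, Klein.Th, mul_assoc (q1 (-u / 2)) (poch _ _)] at d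
  rw [Klein.Th, mul_assoc] at nT
  have n1 := left_ne_zero_of_mul nT
  have n2 := right_ne_zero_of_mul nT
  generalize poch (q1 τ) (q1 u) * poch (q1 τ) (q1 (τ - u)) = P at *
  generalize poch (q1 τ) (-q1 u) * poch (q1 τ) (-q1 (τ - u)) = M at *
  generalize L.weierstrassP (1 / 2) = x at *
  generalize L.weierstrassP u = y at *
  generalize poch (q1 τ) (q1 τ) = E at *
  generalize poch (q1 τ) (-q1 τ) = a at *
  generalize poch (q1 τ) (q1 (τ / 2)) = b at *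
  generalize poch (q1 τ) (-q1 (τ / 2)) = c at *
  generalize q1 (-u / 2) = s at *
  generalize q1 (-1 / 4) = t at *
  generalize (π : ℂ) = p at *
  have f : (y - x) * P ^ 2 * a ^ 4 = -(p ^ 2 * E ^ 4 * M ^ 2) :=
    mul_left_cancel₀ (pow_ne_zero 2 n1)
      (by linear_combination (-1 / 4) * d + p ^ 2 * E ^ 4 * s ^ 2 * M ^ 2 * e)
  rw [eq_sub_iff_add_eq, ← eq_sub_iff_add_eq', div_eq_iff (pow_ne_zero 2 n2)]
  linear_combination b ^ 4 * c ^ 4 * f - (y - x) * P ^ 2 * e4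

theorem we_form {u : ℂ} (hu : u ∉ L.lattice) :
    L.g₂ * L.g₃ / (L.g₂ ^ 3 - 27 * L.g₃ ^ 2) * L.weierstrassP u =
      weH (poch (q1 τ) (q1 τ)) (poch (q1 τ) (q1 (τ / 2))) (poch (q1 τ) (-q1 (τ / 2)))
        (poch (q1 τ) (-q1 u) * poch (q1 τ) (-q1 (τ - u)))
        (poch (q1 τ) (q1 u) * poch (q1 τ) (q1 (τ - u))) / q1 τ := by
  obtain ⟨e1, e2, e3⟩ := we_half h hL
  rw [← PE.disc h hL, we_wp h hL hu, e3, e2, e1, Dl_eq, Klein.eul_eq_poch, weH]
  ring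

end Pool.Agent.T10
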