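import Pool.Agent.Lib.MP_696deb_nt.B10.ZK
import Pool.Agent.Lib.MP_696deb_nt.B10.TWEa

/-! The expansions of the function of Weber. -/

set_option autoImplicit false

open Complex
open scoped Real

namespace Pool.Agent.T10
open Pool.Agent.Lib.MP_696deb_nt Pool.Agent.Lib.MP_696deb_nt.B2.CM Pool.Agent.B8
open Pool.Agent.Lib.MP_696deb_nt.Klein (poch)

theorem we_not {τ : ℂ} (h : 0 < τ.im) {l : ℕ} (hl : l ≠ 0) {a b : ℤ}
    (e : (a * τ + b) / l ∈ sp2 τ 1) : (l : ℤ) ∣ a ∧ (l : ℤ) ∣ b := by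
  have hl' : (l : ℂ) ≠ 0 := Nat.cast_ne_zero.2 hl
  obtain ⟨m, n, e⟩ := mem_sp2.1 e
  rw [div_eq_iff hl'] at e
  have e1 : ((a - l * m : ℤ) : ℂ) * τ = (l * n - b : ℤ) := by push_cast; linear_combination e
  have e2 := congr_arg im e1
  simp only [mul_im, intCast_re, intCast_im, zero_mul, add_zero] at e2
  have e3 : a - l * m = 0 := by exact_mod_cast (mul_eq_zero.1 e2).resolve_right h.ne'
  rw [e3, Int.cast_zero, zero_mul] at e1
  have e4 : l * n - b = 0 := by exact_mod_cast e1.symm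
  exact ⟨⟨m, by omega⟩, n, by omega⟩

theorem we_root {l : ℕ} (hl : l ≠ 0) {b : ℤ} (e : q1 (b / l) = 1) : (l : ℤ) ∣ b := by
  have hl' : (l : ℂ) ≠ 0 := Nat.cast_ne_zero.2 hl
  rw [q1, exp_eq_one_iff] at e
  obtain ⟨n, e⟩ := e
  have e1 : (b : ℂ) / l = n := mul_left_cancel₀ two_pi_I_ne_zero (e.trans (mul_comm _ _))
  rw [div_eq_iff hl'] at e1
  exact ⟨n, by exact_mod_cast e1.trans (mul_comm _ _)⟩

theorem we_norm (l : ℕ) (b : ℤ) : ‖q1 (b / l)‖ = 1 := by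
  rw [norm_q1, show ((b : ℂ) / l).im = 0 by simp, mul_zero, Real.exp_zero]

theorem we_stmt (wa : WAStmt) : WEStmt := by
  intro l a b hl
  have h0 : l ≠ 0 := hl.pos.ne'
  have hl' : (l : ℂ) ≠ 0 := Nat.cast_ne_zero.2 h0
  have h2 : 2 * l ≠ 0 := by omega
  have hτ : ∀ z : ℂ, 0 < z.im → 0 < (((2 * l : ℕ) : ℂ) * z).im := fun z hz => by
    rw [mul_im, natCast_re, natCast_im, zero_mul, add_zero]
    exact mul_pos (Nat.cast_pos.2 (by omega)) hz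
  by_cases hab : (l : ℤ) ∣ a ∧ (l : ℤ) ∣ b
  · obtain ⟨⟨m, rfl⟩, n, rfl⟩ := hab
    refine (LE.const (c := 0) (AddSubgroup.mem_top _)).congr fun z hz => ?_
    obtain ⟨L, hL⟩ := isLat_sp2 (hτ z hz).ne'
    have hu : ((l * m : ℤ) * (((2 * l : ℕ) : ℂ) * z) + (l * n : ℤ)) / l ∈ L.lattice :=
      hL ▸ mem_sp2.2 ⟨m, n, by push_cast; field_simp⟩
    rw [← hL, wa.1, L.weierstrassP_coe ⟨_, hu⟩, mul_zero]
  obtain ⟨r, hr⟩ := Int.eq_ofNat_of_zero_le (Int.emod_nonneg a (Int.natCast_ne_zero.2 h0))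
  have hr' : r < l := by
    have := Int.emod_lt_of_pos a (Int.natCast_pos.2 hl.pos)
    omega
  have ha : a = l * (a / l) + r := by rw [← hr, Int.mul_ediv_add_emod]
  have hk : 2 * (l - r) ≠ 0 := by omega
  have n1 : ∀ q : ℂ, ‖q‖ < 1 → poch (q ^ (2 * l)) (q1 (b / l) * q ^ (2 * r)) ≠ 0 := fun q =>
    we_ne h2 (we_norm l b) (by
      by_cases h : r = 0
      · exact .inr fun e => hab ⟨⟨a / l, by rw [h] at ha; simpa using ha⟩, we_root h0 e⟩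
      · exact .inl (by omega))
  refine (we_le (G := fun q => weH (poch (q ^ (2 * l)) (1 * q ^ (2 * l)))
    (poch (q ^ (2 * l)) (1 * q ^ l)) (poch (q ^ (2 * l)) (-1 * q ^ l))
    (poch (q ^ (2 * l)) (-q1 (b / l) * q ^ (2 * r)) *
      poch (q ^ (2 * l)) (-q1 ((-b : ℤ) / l) * q ^ (2 * (l - r))))
    (poch (q ^ (2 * l)) (q1 (b / l) * q ^ (2 * r)) *
      poch (q ^ (2 * l)) (q1 ((-b : ℤ) / l) * q ^ (2 * (l - r))))) (fun q hq =>
    we_dH (we_dp h2 _ _ hq) (we_dp h2 _ _ hq) (we_dp h2 _ _ hq)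
      ((we_dp h2 _ _ hq).mul (we_dp h2 _ _ hq)) ((we_dp h2 _ _ hq).mul (we_dp h2 _ _ hq))
      (we_ne h2 norm_one (.inl h2) hq)
      (mul_ne_zero (n1 q hq) (we_ne h2 (we_norm l _) (.inl hk) hq))) (2 * l)).congr
    fun z hz => ?_
  obtain ⟨L, hL⟩ := isLat_sp2 (hτ z hz).ne'
  have hu : (((r : ℤ) : ℂ) * (((2 * l : ℕ) : ℂ) * z) + b) / l ∉ L.lattice := fun e => by
    obtain ⟨e1, e2⟩ := we_not (hτ z hz) h0 (hL ▸ e)
    exact hab ⟨by rw [ha]; exact dvd_add (dvd_mul_right _ _) e1, e2⟩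
  have e0 : (a : ℂ) = l * (a / l : ℤ) + (r : ℤ) := by exact_mod_cast congr_arg (Int.cast (R := ℂ)) ha
  have e1 : q1 (((2 * l : ℕ) : ℂ) * z / 2) = q1 z ^ l := by
    rw [← q1_nat_mul]; congr 1; push_cast; ring
  have e2 : q1 ((((r : ℤ) : ℂ) * (((2 * l : ℕ) : ℂ) * z) + b) / l) = q1 (b / l) * q1 z ^ (2 * r) := by
    rw [← q1_nat_mul, ← q1_add]; congr 1; push_cast; field_simp; ring
  have e3 : q1 (((2 * l : ℕ) : ℂ) * z - (((r : ℤ) : ℂ) * (((2 * l : ℕ) : ℂ) * z) + b) / l) =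
      q1 ((-b : ℤ) / l) * q1 z ^ (2 * (l - r)) := by
    rw [← q1_nat_mul, ← q1_add]; congr 1; push_cast [hr'.le]; field_simp; ring
  rw [wa.2.2.1 _ _ ((((r : ℤ) : ℂ) * (((2 * l : ℕ) : ℂ) * z) + b) / l)
    (.inl (mem_sp2.2 ⟨a / l, 0, by rw [e0]; push_cast; field_simp; ring⟩)), ← hL, wa.1,
    we_form (hτ z hz) hL hu, e1, e2, e3, q1_nat_mul]
  simp only [one_mul, neg_mul]

end Pool.Agent.T10
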