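import Pool.Agent.Lib.MP_696deb_nt.B10.ZK

/-! The function of Weber is a modular function; closure properties of modular functions. -/

set_option autoImplicit false

open NumberTheorySymbols Finset Function
open scoped Classical NNReal

namespace Pool.Agent.T10
open Pool.Agent.Lib.MP_696deb_nt Pool.Agent.Lib.MP_696deb_nt.B2 Pool.Agent.Lib.MP_696deb_nt.B2.CM
  Pool.Agent.B6 Pool.Agent.B8 Pool.Agent.B4.GE Pool.Agent.Shared.Weier
open Pool.Agent.B6.SE (uu Gi)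

theorem wf_sp2 {g : MZ} (hg : g.det = 1) (z : ℂ) :
    sp2 (g 0 0 * z + g 0 1) (g 1 0 * z + g 1 1) = sp2 z 1 := by
  rw [Matrix.det_fin_two] at hg
  have h : (g 0 0 : ℂ) * g 1 1 - g 0 1 * g 1 0 = 1 := by exact_mod_cast hg
  refine le_antisymm (sp2_le.2 ⟨mem_sp2.2 ⟨g 0 0, g 0 1, by ring⟩, mem_sp2.2 ⟨g 1 0, g 1 1, by ring⟩⟩)
    (sp2_le.2 ⟨mem_sp2.2 ⟨g 1 1, -g 0 1, ?_⟩, mem_sp2.2 ⟨-g 1 0, g 0 0, ?_⟩⟩)
  · push_cast
    linear_combination (-z) * h
  · push_cast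
    linear_combination -h

theorem wf_act (wa : WAStmt) {g : MZ} (hg : g.det = 1) (l : ℕ) (a b : ℤ) {z : ℂ} (hz : 0 < z.im) :
    wI (sp2 (act g z) 1) ((a * act g z + b) / l) =
      wI (sp2 z 1) (((a * g 0 0 + b * g 1 0 : ℤ) * z + (a * g 0 1 + b * g 1 1 : ℤ)) / l) := by
  have h0 : g.det ≠ 0 := by omega
  have h := den_ne' h0 hz
  rw [← wa.2.1 _ _ _ h, sp2_act h0 hz, wf_sp2 hg]
  congr 1
  rw [den] at h
  rw [act, mob, den, ← mul_div_assoc, mul_add, mul_left_comm, mul_div_cancel₀ _ h]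
  push_cast
  ring

theorem wf_stmt (wa : WAStmt) (wi : WIStmt) (we : WEStmt) : WFStmt := by
  intro V l a b hl h6 hV
  have l0 : l ≠ 0 := hl.pos.ne'
  have l1 : (l : ℂ) ≠ 0 := Nat.cast_ne_zero.2 l0
  refine ⟨fun g hg hd z hz => ?_, fun g hg => ?_, fun z hz hj => ?_⟩
  · obtain ⟨c00, h00⟩ := hd 0 0
    obtain ⟨c01, h01⟩ := hd 0 1
    obtain ⟨c10, h10⟩ := hd 1 0
    obtain ⟨c11, h11⟩ := hd 1 1
    simp only [Matrix.sub_apply, Matrix.one_apply_eq, ne_eq, zero_ne_one, not_false_eq_true,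
      Matrix.one_apply_ne, one_ne_zero, sub_zero, sub_eq_iff_eq_add] at h00 h01 h10 h11
    rw [wf_act wa hg l a b hz]
    refine wa.2.2.1 _ _ _ (.inl (mem_sp2.2 ⟨2 * (a * c00 + b * c10), 2 * (a * c01 + b * c11), ?_⟩))
    rw [h00, h01, h10, h11]
    push_cast
    field_simp
    ring
  · exact (we l _ _ hl).congr fun z hz => wf_act wa hg l a b (ga_pos (by omega) hz)
  · refine (wi _ l _ (isLat_sp2 hz.ne') (mem_sp2.2 ⟨a, b, ?_⟩)).1 _ V h6 hV (by rwa [jL_tau hz])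
    rw [mul_div_cancel₀ _ l1, mul_one]

theorem cl_conj {L L' : ℕ} {M g : MZ} (hM : 0 < M.det) (h : L * M.det ∣ L') (hg : g.det = 1)
    (hd : ∀ i j, (L' : ℤ) ∣ (g - 1) i j) :
    ∃ k : MZ, k.det = 1 ∧ (∀ i j, (L : ℤ) ∣ (k - 1) i j) ∧ M * g = k * M := by
  choose X hX using fun i j => h.trans (hd i j)
  have h1 : g = 1 + ((L : ℤ) * M.det) • Matrix.of X := by
    rw [← sub_eq_iff_eq_add']
    ext i j
    rw [hX, Matrix.smul_apply, Matrix.of_apply, smul_eq_mul]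
  have h2 : M * g = (1 + (L : ℤ) • (M * Matrix.of X * M.adjugate)) * M := by
    rw [h1, mul_add, add_mul, mul_one, one_mul, smul_mul_assoc, mul_assoc _ _ M,
      Matrix.adjugate_mul, mul_smul_comm, mul_smul_comm, mul_one, smul_smul]
  refine ⟨_, ?_, fun i j => ⟨(M * Matrix.of X * M.adjugate) i j, ?_⟩, h2⟩
  · have h3 := congrArg Matrix.det h2
    rw [Matrix.det_mul, Matrix.det_mul, hg, mul_one] at h3
    exact mul_right_cancel₀ hM.ne' (by rw [← h3, one_mul])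
  · rw [add_sub_cancel_left, Matrix.smul_apply, smul_eq_mul]

theorem cl_one (V : Valuation ℂ ℝ≥0) {L L' : ℕ} {F : ℂ → ℂ} {M : MZ} (h0 : L' ≠ 0)
    (hM : 0 < M.det) (h : L * M.det ∣ L') (hF : Cl V L F) : Cl V L' fun z => F (act M z) := by
  refine ⟨fun g hg hd z hz => ?_, fun g hg => ?_,
    fun z hz hj => hF.int _ (act_pos hM hz) (val_isog hM hz hj).2⟩
  · obtain ⟨k, k1, k2, k3⟩ := cl_conj hM h hg hd
    rw [← act_mul _ (by omega) hz, k3, act_mul _ hM.ne' hz, hF.inv k k1 k2 _ (act_pos hM hz)]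
  · obtain ⟨a, b, d, k, -, k1, k2⟩ := exists_ut (M := M * g) (by simpa [hg] using hM)
    have h1 : M.det = a * d := by simpa [hg, k1, det_ut] using congrArg Matrix.det k2
    obtain ⟨t, rfl⟩ : L * (a * d) ∣ L' := by
      rw [h1] at h
      exact_mod_cast h
    obtain ⟨h2, ht⟩ := mul_ne_zero_iff.1 h0
    obtain ⟨hL, h3⟩ := mul_ne_zero_iff.1 h2
    obtain ⟨ha, hd⟩ := mul_ne_zero_iff.1 h3
    refine (le_aff (V := V) (S := ⊤) (fun _ _ _ _ => AddSubgroup.mem_top _) (hF.le k k1)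
      (mul_ne_zero (mul_ne_zero ha ha) ht) (b / (d * L))).congr fun z hz => ?_
    have h4 : (ut a b d).det ≠ 0 := by rw [det_ut]; positivity
    have h5 : (d : ℂ) ≠ 0 := Nat.cast_ne_zero.2 hd
    have h6 : (L : ℂ) ≠ 0 := Nat.cast_ne_zero.2 hL
    rw [← act_mul _ (by omega) (ga_pos h0 hz), k2, act_mul _ h4 (ga_pos h0 hz)]
    congr 2
    simp only [ut, act_of, mob, aff]
    push_cast
    rw [zero_mul, zero_add]
    field_simp

theorem cl_stmt : CLStmt := fun V => by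
  refine ⟨fun L L' F M => cl_one V, fun L L' z z' M h0 hM h m => ⟨act_pos hM m.pos,
    act_pos hM m.pos', (val_isog hM m.pos m.int).2, (val_isog hM m.pos' m.int').2,
    fun F hF => m.ev _ (cl_one V h0 hM h hF)⟩, fun N n M f hn h hM hf => ?_, fun L hL =>
      ⟨fun g hg _ z hz => jf_act hg hz, fun g hg => (LE.expand ((lz_jf.mem ⊤).mono le_top) hL).congr
        fun _ hz => jf_act hg (ga_pos hL hz), fun _ _ h => h⟩⟩
  have e := V.isEquiv_valuation_valuationSubring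
  have k : ∀ g : MZ, g.det = 1 → (fun z => f (act g (n * z))) ∈ LR V.integer := fun g hg =>
    LE.mono (hf.2 V.valuationSubring (e.eq_one_iff_eq_one.1 hM) g hg)
      fun x hx => e.le_one_iff_le_one.2 hx
  refine ⟨fun g hg hd z hz => hf.1 g ⟨hg, ?_⟩ z hz, fun g hg => LE.mono (k g hg) le_top,
    fun z hz hj => hf.1.val_le (ne_zero_of_dvd_ne_zero hn h) hn k hz hj⟩
  simpa using (Int.natCast_dvd_natCast.2 h).trans (hd 1 0)

end Pool.Agent.T10
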