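import Pool.Agent.Lib.MP_696deb_nt.B10.ZK

/-! The values of the function of Weber at points of finite order are integral. -/

set_option autoImplicit false

open PeriodPair WeierstrassCurve

namespace Pool.Agent.T10
open Pool.Agent.Lib.MP_696deb_nt Pool.Agent.Lib.MP_696deb_nt.B2 Pool.Agent.Lib.MP_696deb_nt.B2.CM
  Pool.Agent.Shared.Weier

variable {L : PeriodPair} {u v z c : ℂ}

/-- The duplication formula. -/
theorem wi_dup (hz : z ∉ L.lattice) (h2 : 2 * z ∉ L.lattice) :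
    ℘[L] (2 * z) * (4 * ℘[L] z ^ 3 - L.g₂ * ℘[L] z - L.g₃) =
      (℘[L] z ^ 2 + L.g₂ / 4) ^ 2 + 2 * L.g₃ * ℘[L] z := by
  have W := isPer_shortW L
  have hd : ℘'[L] z ≠ 0 := (wp'_eq_zero_iff hz).not.2 h2
  have hy : uy L (shortW L) z ≠
      (shortW L).toAffine.negY (ux L (shortW L) z) (uy L (shortW L) z) := fun e => hd (by
    simp only [uy, Affine.negY, shortW] at e
    linear_combination e)
  have e := W.pt_add z z
  rw [← two_mul, W.pt_of_notMem h2, W.pt_of_notMem hz, Affine.Point.add_self_of_Y_ne hy] at e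
  have e1 := (Affine.Point.some.inj e).1
  have hs : (shortW L).toAffine.slope (ux L (shortW L) z) (ux L (shortW L) z) (uy L (shortW L) z)
      (uy L (shortW L) z) = (3 * ℘[L] z ^ 2 - L.g₂ / 4) / ℘'[L] z := by
    rw [Affine.slope_of_Y_ne rfl hy]
    simp only [ux, uy, Affine.negY, shortW, b₂]
    congr 1 <;> ring
  rw [hs] at e1
  simp only [ux, Affine.addX, shortW, b₂] at e1
  have e2 : ℘[L] (2 * z) + 2 * ℘[L] z = (3 * ℘[L] z ^ 2 - L.g₂ / 4) ^ 2 / ℘'[L] z ^ 2 := by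
    linear_combination e1
  rw [eq_div_iff (pow_ne_zero 2 hd), L.derivWeierstrassP_sq z hz] at e2
  linear_combination e2

/-- The symmetric addition formulas. -/
theorem wi_add (hu : u ∉ L.lattice) (hv : v ∉ L.lattice) (h1 : u + v ∉ L.lattice)
    (h2 : u - v ∉ L.lattice) :
    (℘[L] u - ℘[L] v) ^ 2 * (℘[L] (u + v) + ℘[L] (u - v)) =
      2 * (℘[L] u * ℘[L] v - L.g₂ / 4) * (℘[L] u + ℘[L] v) - L.g₃ ∧
    (℘[L] u - ℘[L] v) ^ 2 * (℘[L] (u + v) * ℘[L] (u - v)) =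
      (℘[L] u * ℘[L] v + L.g₂ / 4) ^ 2 + L.g₃ * (℘[L] u + ℘[L] v) := by
  have hv' : -v ∉ L.lattice := fun e => hv (by simpa using neg_mem e)
  have h1' : u + -v ∉ L.lattice := by rwa [← sub_eq_add_neg]
  have h2' : u - -v ∉ L.lattice := by rwa [sub_neg_eq_add]
  have a1 := zet_add_formula hu hv h1 h2
  have a2 := wp_add hu hv h1 h2
  have b1 := zet_add_formula hu hv' h1' h2'
  have b2 := wp_add hu hv' h1' h2'
  rw [weierstrassP_neg, ← sub_eq_add_neg] at b1 b2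
  rw [derivWeierstrassP_neg] at b1
  have q1 := L.derivWeierstrassP_sq u hu
  have q2 := L.derivWeierstrassP_sq v hv
  have d := wp_ne hu hv h1 h2
  generalize zet L (u + v) - zet L u - zet L v = m at a1 a2
  generalize zet L (u - v) - zet L u - zet L (-v) = m' at b1 b2
  generalize ℘[L] u = x, ℘[L] v = y, ℘'[L] u = p, ℘'[L] v = q at *
  have e1 : (x - y) ^ 2 * (m ^ 2 + m' ^ 2) = (p ^ 2 + q ^ 2) / 2 := by
    linear_combination (-(p - q) / 4 - (x - y) * m / 2) * a1 + (-(p + q) / 4 - (x - y) * m' / 2) * b1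
  have e2 : (x - y) * (m * m') = x ^ 2 + x * y + y ^ 2 - L.g₂ / 4 := by
    refine mul_left_cancel₀ d ?_
    linear_combination (-(p + q) / 4) * a1 + (-(x - y) * m / 2) * b1 + q1 / 4 - q2 / 4
  rw [a2, b2]
  constructor
  · linear_combination e1 + q1 / 2 + q2 / 2
  · linear_combination ((x - y) * (m * m') + (x ^ 2 + x * y + y ^ 2 - L.g₂ / 4)) * e2 -
      (x + y) * e1 - (x + y) / 2 * q1 - (x + y) / 2 * q2

/-- The denominator. -/
def wiP (A B s t : ℂ) : ℂ := (1 + A * s * t) ^ 2 + 4 * B * s * t * (s + t)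

/-- The numerator. -/
def wiS (A B s t : ℂ) : ℂ := 2 * (1 - A * s * t) * (s + t) - 4 * B * s ^ 2 * t ^ 2

theorem wi_mem (h : z ∈ L.lattice) (w : ℂ) : ℘[L] (w + z) = ℘[L] w :=
  L.weierstrassP_add_coe w ⟨z, h⟩

theorem wi_zero (h : z ∈ L.lattice) : ℘[L] z = 0 := L.weierstrassP_coe ⟨z, h⟩

theorem wi_two (hc : c ≠ 0) (hz : z ∉ L.lattice) (h0 : ℘[L] z ≠ 0)
    (hP : wiP (c ^ 2 * L.g₂ / 4) (c ^ 3 * L.g₃ / 4) (c * ℘[L] z)⁻¹ (c * ℘[L] z)⁻¹ ≠ 0) :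
    (2 * z ∈ L.lattice ∨ ℘[L] (2 * z) ≠ 0) ∧ (c * ℘[L] (2 * z))⁻¹ *
      wiP (c ^ 2 * L.g₂ / 4) (c ^ 3 * L.g₃ / 4) (c * ℘[L] z)⁻¹ (c * ℘[L] z)⁻¹ =
      wiS (c ^ 2 * L.g₂ / 4) (c ^ 3 * L.g₃ / 4) (c * ℘[L] z)⁻¹ (c * ℘[L] z)⁻¹ := by
  have eS : wiS (c ^ 2 * L.g₂ / 4) (c ^ 3 * L.g₃ / 4) (c * ℘[L] z)⁻¹ (c * ℘[L] z)⁻¹ =
      (4 * ℘[L] z ^ 3 - L.g₂ * ℘[L] z - L.g₃) / (c * ℘[L] z ^ 4) := by
    unfold wiS; field_simp; ring
  have eP : wiP (c ^ 2 * L.g₂ / 4) (c ^ 3 * L.g₃ / 4) (c * ℘[L] z)⁻¹ (c * ℘[L] z)⁻¹ =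
      ((℘[L] z ^ 2 + L.g₂ / 4) ^ 2 + 2 * L.g₃ * ℘[L] z) / ℘[L] z ^ 4 := by
    unfold wiP; field_simp; ring
  by_cases h2 : 2 * z ∈ L.lattice
  · refine ⟨.inl h2, ?_⟩
    rw [eS, wi_zero h2, ← L.derivWeierstrassP_sq z hz, (wp'_eq_zero_iff hz).2 h2]; simp
  · rw [eP, ← wi_dup hz h2] at hP ⊢
    have k : ℘[L] (2 * z) ≠ 0 := fun e => hP (by simp [e])
    refine ⟨.inr k, ?_⟩
    rw [eS]; field_simp

/-- The addition formula near the origin. -/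
theorem wi_step (hc : c ≠ 0) (hu : u ∈ L.lattice ∨ ℘[L] u ≠ 0) (hv : v ∉ L.lattice)
    (v0 : ℘[L] v ≠ 0)
    (hP : wiP (c ^ 2 * L.g₂ / 4) (c ^ 3 * L.g₃ / 4) (c * ℘[L] v)⁻¹ (c * ℘[L] u)⁻¹ ≠ 0) :
    (u + v ∈ L.lattice ∨ ℘[L] (u + v) ≠ 0) ∧ ((c * ℘[L] (u + v))⁻¹ + (c * ℘[L] (u - v))⁻¹) *
      wiP (c ^ 2 * L.g₂ / 4) (c ^ 3 * L.g₃ / 4) (c * ℘[L] v)⁻¹ (c * ℘[L] u)⁻¹ =
      wiS (c ^ 2 * L.g₂ / 4) (c ^ 3 * L.g₃ / 4) (c * ℘[L] v)⁻¹ (c * ℘[L] u)⁻¹ := by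
  by_cases k : u ∈ L.lattice
  · rw [add_comm u, wi_mem k, sub_eq_neg_add, wi_mem k, weierstrassP_neg, wi_zero k]
    exact ⟨.inr v0, by simp [wiP, wiS, two_mul]⟩
  have u0 := hu.resolve_left k
  by_cases h2 : u - v ∈ L.lattice
  · have e : ℘[L] u = ℘[L] v := by rw [← wi_mem h2 v]; congr 1; ring
    have e2 : u + v = 2 * v + (u - v) := by ring
    rw [e] at hP ⊢
    obtain ⟨a, b⟩ := wi_two hc hv v0 hP
    rw [e2, wi_mem h2, wi_zero h2, mul_zero, inv_zero, add_zero]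
    exact ⟨a.imp_left fun a => add_mem a h2, b⟩
  by_cases h1 : u + v ∈ L.lattice
  · have e : ℘[L] u = ℘[L] v := by
      rw [← weierstrassP_neg _ v, ← wi_mem h1 (-v)]; congr 1; ring
    have e2 : u - v = -(2 * v) + (u + v) := by ring
    rw [e] at hP ⊢
    refine ⟨.inl h1, ?_⟩
    rw [e2, wi_mem h1, wi_zero h1, mul_zero, inv_zero, zero_add, weierstrassP_neg]
    exact (wi_two hc hv v0 hP).2
  obtain ⟨a, b⟩ := wi_add k hv h1 h2
  have eS : wiS (c ^ 2 * L.g₂ / 4) (c ^ 3 * L.g₃ / 4) (c * ℘[L] v)⁻¹ (c * ℘[L] u)⁻¹ =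
      (2 * (℘[L] u * ℘[L] v - L.g₂ / 4) * (℘[L] u + ℘[L] v) - L.g₃) /
        (c * ℘[L] u ^ 2 * ℘[L] v ^ 2) := by
    unfold wiS; field_simp
  have eP : wiP (c ^ 2 * L.g₂ / 4) (c ^ 3 * L.g₃ / 4) (c * ℘[L] v)⁻¹ (c * ℘[L] u)⁻¹ =
      ((℘[L] u * ℘[L] v + L.g₂ / 4) ^ 2 + L.g₃ * (℘[L] u + ℘[L] v)) /
        (℘[L] u ^ 2 * ℘[L] v ^ 2) := by
    unfold wiP; field_simp
  rw [eP, ← b] at hP ⊢
  have k1 : ℘[L] (u + v) ≠ 0 := fun e => hP (by simp [e])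
  have k2 : ℘[L] (u - v) ≠ 0 := fun e => hP (by simp [e])
  refine ⟨.inr k1, ?_⟩
  rw [eS, ← a]; field_simp; ring

variable {Γ : Type} [LinearOrderedCommGroupWithZero Γ] {V : Valuation ℂ Γ}

theorem wi_nat (V : Valuation ℂ Γ) (n : ℕ) : V n ≤ 1 := natCast_mem V.integer n

theorem wi_val {A B s τ : ℂ} (hA : V A ≤ 1) (hB : V B ≤ 1) (hs : V s < 1) (s0 : s ≠ 0)
    (hτ : V τ ≤ 1) : V (wiP A B s (s * τ)) = 1 ∧
      ∀ r, s * r * wiP A B s (s * τ) = wiS A B s (s * τ) → V (r - 2 * (1 + τ)) < 1 := by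
  have k : ∀ x : V.integer, V (s * x) < 1 := fun x => by
    rw [map_mul]
    exact (mul_le_of_le_one_right' x.2).trans_lt hs
  lift A to V.integer using hA
  lift B to V.integer using hB
  lift τ to V.integer using hτ
  obtain ⟨σ, rfl⟩ : ∃ σ : V.integer, σ = s := ⟨⟨s, hs.le⟩, rfl⟩
  have c2 : ((2 : V.integer) : ℂ) = 2 := rfl
  have c4 : ((4 : V.integer) : ℂ) = 4 := rfl
  have h1 : V (wiP A B σ (σ * τ)) = 1 := by
    rw [← V.map_one_add_of_lt (k (2 * A * σ * τ + A ^ 2 * σ ^ 3 * τ ^ 2 + 4 * B * σ ^ 2 * τ * (1 + τ)))]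
    congr 1
    push_cast [c2, c4]
    unfold wiP
    ring
  refine ⟨h1, fun r e => ?_⟩
  have := k (-(2 * A * σ * τ * (1 + τ)) - 4 * B * σ ^ 2 * τ ^ 2 - 2 * (1 + τ) *
    (2 * A * σ * τ + A ^ 2 * σ ^ 3 * τ ^ 2 + 4 * B * σ ^ 2 * τ * (1 + τ)))
  rw [← mul_one (V _), ← h1, ← map_mul]
  convert this using 2
  refine mul_left_cancel₀ s0 ?_
  push_cast [c2, c4]
  unfold wiP wiS at *
  linear_combination e

theorem wi_ind (hA : V (c ^ 2 * L.g₂ / 4) ≤ 1) (hB : V (c ^ 3 * L.g₃ / 4) ≤ 1)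
    (h : 1 < V (c * ℘[L] u)) (k : ℕ) :
    V ((c * ℘[L] (k * u))⁻¹ / (c * ℘[L] u)⁻¹ - k ^ 2) < 1 := by
  have x0 : c * ℘[L] u ≠ 0 := fun e => by simp [e] at h
  have u0 := right_ne_zero_of_mul x0
  have hu : u ∉ L.lattice := fun e => u0 (wi_zero e)
  have s0 := inv_ne_zero x0
  have hs : V (c * ℘[L] u)⁻¹ < 1 := by rw [map_inv₀]; exact inv_lt_one_of_one_lt₀ h
  generalize hx : (c * ℘[L] u)⁻¹ = s at *
  suffices H : ∀ k : ℕ, V ((c * ℘[L] (k * u))⁻¹ / s - k ^ 2) < 1 ∧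
      ((k + 1) * u ∈ L.lattice ∨ ℘[L] ((k + 1) * u) ≠ 0) ∧
      V ((c * ℘[L] ((k + 1) * u))⁻¹ / s - (k + 1) ^ 2) < 1 from (H k).1
  intro k
  induction k with
  | zero => simp [u0, hx, s0]
  | succ k ih =>
    obtain ⟨a, b, d⟩ := ih
    obtain ⟨τ, hτ⟩ : ∃ τ, (c * ℘[L] ((k + 1) * u))⁻¹ = s * τ := ⟨_, (mul_div_cancel₀ _ s0).symm⟩
    have d' := d
    rw [hτ, mul_div_cancel_left₀ _ s0] at d'
    have t1 : V τ ≤ 1 := by
      have := V.map_add_le d'.le (wi_nat V ((k + 1) ^ 2))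
      simpa using this
    obtain ⟨p1, p2⟩ := wi_val hA hB hs s0 t1
    obtain ⟨q1, q2⟩ := wi_step (left_ne_zero_of_mul x0) b hu u0 (by
      rw [hx, hτ]; exact fun e => by simp [e] at p1)
    rw [hx, hτ, show ((k : ℂ) + 1) * u - u = k * u by ring,
      show ((k : ℂ) + 1) * u + u = (k + 1 + 1) * u by ring] at q2
    rw [show ((k : ℂ) + 1) * u + u = (k + 1 + 1) * u by ring] at q1
    push_cast
    refine ⟨d, q1, ?_⟩
    have := p2 ((c * ℘[L] ((k + 1 + 1) * u))⁻¹ / s + (c * ℘[L] (k * u))⁻¹ / s) (by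
      rw [← q2]; congr 1; field_simp)
    convert V.map_add_lt (V.map_sub_lt this a) (V.map_add_lt d' d') using 2
    ring

theorem wi_le {I : Lt} {m : ℕ} (hI : IsLat I) (hm : m * u ∈ I) (h6 : V 6 = 1) (hV : V m = 1)
    (hj : V (jL I) ≤ 1) : V (wI I u) ≤ 1 := by
  rw [jL, dif_pos hI, jPer] at hj
  rw [wI, dif_pos hI]
  rw [← hI.choose_spec] at hm
  generalize hI.choose = L at *
  have d := disc_ne_zero L
  have h2 := V.map_sub_le hj (wi_nat V 1728)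
  rw [show 1728 * L.g₂ ^ 3 / (L.g₂ ^ 3 - 27 * L.g₃ ^ 2) - (1728 : ℕ) =
    46656 * L.g₃ ^ 2 / (L.g₂ ^ 3 - 27 * L.g₃ ^ 2) by field_simp; push_cast; ring] at h2
  generalize L.g₂ ^ 3 - 27 * L.g₃ ^ 2 = D at *
  have k : ∀ (n : ℕ) (x y : ℂ), V y ≤ 1 → 6 ^ n * x = (243 : ℕ) * y → V x ≤ 1 := fun n x y a e => by
    have := congrArg V e
    rw [map_mul, map_pow, h6, one_pow, one_mul, map_mul] at this
    exact this ▸ mul_le_one' (wi_nat V _) a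
  by_contra! h
  have := wi_ind (k 14 _ _ ((V.map_mul _ _).trans_le (mul_le_one' hj h2)) (by push_cast; ring))
    (k 20 _ _ ((V.map_mul _ _).trans_le (mul_le_one' ((V.map_mul _ _).trans_le (mul_le_one' hj h2))
      h2)) (by push_cast; ring)) h m
  simp [wi_zero hm, hV] at this

theorem wi_stmt : WIStmt := by
  refine fun I m u hI hm => ⟨fun Γ _ V => wi_le hI hm, fun m0 ⟨x, hx⟩ => ?_⟩
  have h1 : wI I u ∈ (integralClosure (Subring.closure (jC.range : Set ℂ)) ℂ).toSubring := by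
    rw [← iInf_valuationSubring_superset, Subring.mem_iInf]
    rintro ⟨A, hA⟩
    have k : ∀ y, A.valuation (jC y) ≤ 1 := fun y => (A.valuation_le_one_iff _).2 (hA ⟨y, rfl⟩)
    have k1 : ∀ n : ℕ, n ≠ 0 → A.valuation n = 1 := fun n n0 => (wi_nat _ n).antisymm (by
      have := k (n : _)⁻¹
      rwa [map_inv₀, map_natCast, map_inv₀, inv_le_one₀ ((Valuation.pos_iff _).2
        (Nat.cast_ne_zero.2 n0))] at this)
    exact (A.valuation_le_one_iff _).1 (wi_le hI hm (k1 6 (by norm_num)) (k1 m m0) (hx ▸ k x))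
  rw [Subring.closure_eq] at h1
  obtain ⟨f, f1, f2⟩ : IsIntegral jC.range (wI I u) := h1
  let := jC.toAlgebra
  have e := jC.rangeRestrict_surjective
  obtain ⟨g, g1, -, g2⟩ := Polynomial.lifts_and_natDegree_eq_and_monic
    (f := jC.rangeRestrict) ((Polynomial.mem_lifts f).2 (Polynomial.map_surjective _ e f)) f1
  have : IsIntegral _ (wI I u) := ⟨g, g2, by
    rw [← f2, ← g1, Polynomial.eval₂_map]; rfl⟩
  exact minpoly.mem_range_of_degree_eq_one _ _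
    (IsAlgClosed.degree_eq_one_of_irreducible _ (minpoly.irreducible this))

end Pool.Agent.T10
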