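import Pool.Agent.Lib.MP_696deb_nt.B10.ZK

/-! The values of the function of Weber at different points of finite order are not
congruent. -/

set_option autoImplicit false

open NumberTheorySymbols Finset Function
open scoped Classical NNReal

namespace Pool.Agent.T10
open Pool.Agent.Lib.MP_696deb_nt Pool.Agent.Lib.MP_696deb_nt.B2 Pool.Agent.Lib.MP_696deb_nt.B2.CM
  Pool.Agent.B6 Pool.Agent.B8 Pool.Agent.B4.GE Pool.Agent.Shared.Weier

/-- The addition formula without the zeta function. -/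
theorem ws_add (L : PeriodPair) {u v : ℂ} (hu : u ∉ L.lattice) (hv : v ∉ L.lattice)
    (h1 : u + v ∉ L.lattice) (h2 : u - v ∉ L.lattice) :
    4 * (L.weierstrassP u - L.weierstrassP v) ^ 2 *
      (L.weierstrassP (u + v) + L.weierstrassP u + L.weierstrassP v) =
      (L.derivWeierstrassP u - L.derivWeierstrassP v) ^ 2 := by
  rw [wp_add hu hv h1 h2, zet_add_formula hu hv h1 h2]
  ring

theorem ws_mul {V : Valuation ℂ ℝ≥0} {a b : ℂ} (ha : V a < 1) (hb : b ∈ V.integer) :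
    V (a * b) < 1 := by
  rw [map_mul]
  exact mul_lt_one_of_lt_of_le ha hb

/-- The algebraic core. -/
theorem ws_core (V : Valuation ℂ ℝ≥0) (x y S T G H : ℂ) (hx : x ∈ V.integer)
    (hy : y ∈ V.integer) (hS : S ∈ V.integer) (hT : T ∈ V.integer) (hG : G ∈ V.integer)
    (hH : H ∈ V.integer) (he : V (x - y) < 1)
    (e1 : 2 * (x - y) ^ 2 * (S + T) = 4 * x * y * (x + y) - G * (x + y) - 2 * H)
    (e2 : 16 * (x - y) ^ 2 * (S + x + y) * (T + x + y) = (4 * (x ^ 2 + x * y + y ^ 2) - G) ^ 2) :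
    V (4 * (G ^ 3 - 27 * H ^ 2)) < 1 := by
  have f1 : V (2 * (4 * x ^ 3 - G * x - H)) < 1 := by
    have : 2 * (4 * x ^ 3 - G * x - H) =
        (x - y) * (2 * (x - y) * (S + T) + 4 * x * (2 * x + y) - G) := by
      linear_combination -e1
    rw [this]
    refine ws_mul he ?_
    apply_rules [add_mem, sub_mem, mul_mem, ofNat_mem]
  have f2 : V (4 * (x ^ 2 + x * y + y ^ 2) - G) < 1 := by
    have : V ((4 * (x ^ 2 + x * y + y ^ 2) - G) ^ 2) < 1 := by
      rw [← e2, show 16 * (x - y) ^ 2 * (S + x + y) * (T + x + y) =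
        (x - y) * (16 * (x - y) * (S + x + y) * (T + x + y)) by ring]
      refine ws_mul he ?_
      apply_rules [add_mem, sub_mem, mul_mem, ofNat_mem]
    rw [map_pow] at this
    exact lt_of_pow_lt_pow_left₀ 2 zero_le_one (by simpa using this)
  have f3 : V (12 * x ^ 2 - G) < 1 := by
    rw [show 12 * x ^ 2 - G = (4 * (x ^ 2 + x * y + y ^ 2) - G) + (x - y) * (4 * (2 * x + y)) by
      ring]
    refine V.map_add_lt f2 (ws_mul he ?_)
    apply_rules [add_mem, sub_mem, mul_mem, ofNat_mem]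
  have f4 : V (4 * G * x + 6 * H) < 1 := by
    rw [show 4 * G * x + 6 * H = (12 * x ^ 2 - G) * (2 * x) - 2 * (4 * x ^ 3 - G * x - H) * 3 by
      ring]
    refine V.map_sub_lt (ws_mul f3 ?_) (ws_mul f1 ?_)
    · apply_rules [mul_mem, ofNat_mem]
    · exact ofNat_mem _ _
  rw [show 4 * (G ^ 3 - 27 * H ^ 2) = (4 * G * x + 6 * H) * (12 * G * x - 18 * H) -
    (12 * x ^ 2 - G) * (4 * G ^ 2) by ring]
  refine V.map_sub_lt (ws_mul f4 ?_) (ws_mul f3 ?_)
  · apply_rules [sub_mem, mul_mem, ofNat_mem]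
  · exact mul_mem (ofNat_mem _ _) (pow_mem hG 2)

theorem ws_unit (V : Valuation ℂ ℝ≥0) (h6 : V 6 = 1) : V 2 = 1 ∧ V 3 = 1 := by
  have h2 : V 2 ≤ 1 := ofNat_mem V.integer 2
  have h3 : V 3 ≤ 1 := ofNat_mem V.integer 3
  have h : V 2 * V 3 = 1 := by rw [← map_mul, ← h6]; norm_num
  constructor
  · by_contra k
    exact (mul_lt_one_of_lt_of_le (lt_of_le_of_ne h2 k) h3).ne h
  · by_contra k
    rw [mul_comm] at h
    exact (mul_lt_one_of_lt_of_le (lt_of_le_of_ne h3 k) h2).ne h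

theorem ws_stmt (wa : WAStmt) (wi : WIStmt) : WSStmt := by
  rintro V I m u v ⟨L, rfl⟩ h6 hm hj hj' mu mv hu hv hlt
  by_contra hn
  rw [not_or] at hn
  obtain ⟨h2, h1⟩ := hn
  have int : ∀ w : ℂ, m * w ∈ L.lattice → wI L.lattice w ∈ V.integer := fun w hw =>
    (wi L.lattice m w ⟨L, rfl⟩ hw).1 _ V h6 hm hj.le
  have hx := int u mu
  have hy := int v mv
  have hS := int (u + v) (by rw [mul_add]; exact add_mem mu mv)
  have hT := int (u - v) (by rw [mul_sub]; exact sub_mem mu mv)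
  have a1 := ws_add L hu hv h1 h2
  have a2 := ws_add L (v := -v) hu (fun h => hv (by simpa using neg_mem h))
    (by rwa [← sub_eq_add_neg]) (by rwa [sub_neg_eq_add])
  rw [L.weierstrassP_neg, L.derivWeierstrassP_neg, ← sub_eq_add_neg] at a2
  have s1 := L.derivWeierstrassP_sq u hu
  have s2 := L.derivWeierstrassP_sq v hv
  have hne := wp_ne hu hv h1 h2
  have hd := disc_ne_zero L
  rw [jL_lattice, jPer] at hj hj'
  simp only [wa.1] at hx hy hS hT hlt
  obtain ⟨v2, v3⟩ := ws_unit V h6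
  set D := L.g₂ ^ 3 - 27 * L.g₃ ^ 2 with hD
  set c := L.g₂ * L.g₃ / D with hc
  set p := L.weierstrassP u
  set q := L.weierstrassP v
  set s := L.weierstrassP (u + v)
  set t := L.weierstrassP (u - v)
  set a := L.derivWeierstrassP u
  set b := L.derivWeierstrassP v
  have vJ : V (L.g₂ ^ 3 / D) = 1 := by
    rw [show 1728 * L.g₂ ^ 3 / D = 2 ^ 6 * 3 ^ 3 * (L.g₂ ^ 3 / D) by ring, map_mul, map_mul,
      map_pow, map_pow, v2, v3] at hj
    simpa using hj
  have vK : V (L.g₃ ^ 2 / D) = 1 := by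
    rw [show 1728 * L.g₂ ^ 3 / D - 1728 = 6 ^ 6 * (L.g₃ ^ 2 / D) by
      field_simp
      rw [hD]
      ring, map_mul, map_pow, h6] at hj'
    simpa using hj'
  have hJK : L.g₂ ^ 3 / D - 27 * (L.g₃ ^ 2 / D) = 1 := by
    field_simp
    rw [hD]
  have eG : L.g₂ * c ^ 2 = L.g₂ ^ 3 / D * (L.g₃ ^ 2 / D) := by rw [hc]; ring
  have eH : L.g₃ * c ^ 3 = L.g₂ ^ 3 / D * (L.g₃ ^ 2 / D) ^ 2 := by rw [hc]; ring
  have b1 : 2 * (p - q) ^ 2 * (s + t) = 4 * p * q * (p + q) - L.g₂ * (p + q) - 2 * L.g₃ := by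
    linear_combination (a1 + a2) / 2 + s1 + s2
  have b2 : 16 * (p - q) ^ 2 * (s + p + q) * (t + p + q) =
      (4 * (p ^ 2 + p * q + q ^ 2) - L.g₂) ^ 2 := by
    refine mul_left_cancel₀ (pow_ne_zero 2 hne) ?_
    have k : a ^ 2 - b ^ 2 = (p - q) * (4 * (p ^ 2 + p * q + q ^ 2) - L.g₂) := by
      linear_combination s1 - s2
    calc (p - q) ^ 2 * (16 * (p - q) ^ 2 * (s + p + q) * (t + p + q))
        = (4 * (p - q) ^ 2 * (s + p + q)) * (4 * (p - q) ^ 2 * (t + p + q)) := by ring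
      _ = (a ^ 2 - b ^ 2) ^ 2 := by rw [a1, a2]; ring
      _ = _ := by rw [k]; ring
  have key := ws_core V (c * p) (c * q) (c * s) (c * t) (L.g₂ * c ^ 2) (L.g₃ * c ^ 3) hx hy hS hT
    (by rw [Valuation.mem_integer_iff, eG, map_mul, vJ, vK, mul_one])
    (by rw [Valuation.mem_integer_iff, eH, map_mul, map_pow, vJ, vK, one_pow, mul_one]) hlt
    (by linear_combination c ^ 3 * b1) (by linear_combination c ^ 4 * b2)
  rw [eG, eH, show 4 * ((L.g₂ ^ 3 / D * (L.g₃ ^ 2 / D)) ^ 3 -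
      27 * (L.g₂ ^ 3 / D * (L.g₃ ^ 2 / D) ^ 2) ^ 2) =
      2 ^ 2 * (L.g₂ ^ 3 / D) ^ 2 * (L.g₃ ^ 2 / D) ^ 3 by
    linear_combination 4 * (L.g₂ ^ 3 / D) ^ 2 * (L.g₃ ^ 2 / D) ^ 3 * hJK,
    map_mul, map_mul, map_pow, map_pow, map_pow, v2, vJ, vK] at key
  simp at key

end Pool.Agent.T10
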