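import Pool.Agent.Lib.MP_696deb_nt.B10.UTop
import Pool.Agent.Lib.MP_696deb_nt.B10.TCA
import Pool.Agent.Lib.MP_696deb_nt.B10.TCP
import Pool.Agent.Lib.MP_696deb_nt.B10.TCT
import Pool.Agent.Lib.MP_696deb_nt.B10.TDG
import Pool.Agent.Lib.MP_696deb_nt.B10.TFI
import Pool.Agent.Lib.MP_696deb_nt.B10.TFT
import Pool.Agent.Lib.MP_696deb_nt.B10.TFW
import Pool.Agent.Lib.MP_696deb_nt.B10.TFX
import Pool.Agent.Lib.MP_696deb_nt.B10.TGA
import Pool.Agent.Lib.MP_696deb_nt.B10.TGS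
import Pool.Agent.Lib.MP_696deb_nt.B10.TGT
import Pool.Agent.Lib.MP_696deb_nt.B10.TKG
import Pool.Agent.Lib.MP_696deb_nt.B10.TKT
import Pool.Agent.Lib.MP_696deb_nt.B10.TKZ
import Pool.Agent.Lib.MP_696deb_nt.B10.TLA
import Pool.Agent.Lib.MP_696deb_nt.B10.TLB
import Pool.Agent.Lib.MP_696deb_nt.B10.TLC
import Pool.Agent.Lib.MP_696deb_nt.B10.TLF
import Pool.Agent.Lib.MP_696deb_nt.B10.TLV
import Pool.Agent.Lib.MP_696deb_nt.B10.TLW
import Pool.Agent.Lib.MP_696deb_nt.B10.TML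
import Pool.Agent.Lib.MP_696deb_nt.B10.TMT
import Pool.Agent.Lib.MP_696deb_nt.B10.TOM
import Pool.Agent.Lib.MP_696deb_nt.B10.TSE
import Pool.Agent.Lib.MP_696deb_nt.B10.TT1
import Pool.Agent.Lib.MP_696deb_nt.B10.TTM
import Pool.Agent.Lib.MP_696deb_nt.B10.TTR
import Pool.Agent.Lib.MP_696deb_nt.B10.TUA
import Pool.Agent.Lib.MP_696deb_nt.B10.TUP
import Pool.Agent.Lib.MP_696deb_nt.B10.TUQ
import Pool.Agent.Lib.MP_696deb_nt.B10.TUT
import Pool.Agent.Lib.MP_696deb_nt.B10.TWA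
import Pool.Agent.Lib.MP_696deb_nt.B10.TWE
import Pool.Agent.Lib.MP_696deb_nt.B10.TWF
import Pool.Agent.Lib.MP_696deb_nt.B10.TWI
import Pool.Agent.Lib.MP_696deb_nt.B10.TWS

/-! The seed, without hypotheses. -/

set_option autoImplicit false

namespace Pool.Agent.T10

theorem top_lw : LWStmt := lw_stmt lv_stmt

theorem top_tr : TRStmt := tr_stmt lv_stmt top_lw

theorem top_om : OMStmt := om_stmt lv_stmt

theorem top_fx : FXStmt := fx_stmt ml_stmt lv_stmt top_tr top_om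

theorem top_ls : LSStmt := ls_stmt (ct_stmt ca_stmt)

theorem top_ut : UTStmt :=
  ut_stmt top_ls (up_stmt top_ls) (gs_stmt ga_stmt lv_stmt) uq_stmt ua_stmt rq_stmt lv_stmt

theorem top_dg : DGStmt := dg_stmt td_stmt lv_stmt top_tr rq_stmt

theorem top_gt : GTStmt := gt_stmt ml_stmt lv_stmt top_tr (cp_stmt lv_stmt) ph_stmt

theorem top_ft : FTStmt := ft_stmt top_gt fw_stmt (se_stmt lv_stmt) top_fx

theorem top_fs : FSStmt := fs_stmt top_ft fw_stmt rq_stmt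

theorem top_lf : LFStmt := lf_stmt (lb_stmt la_stmt) (lc_stmt la_stmt) mt_stmt cl_stmt

theorem top_tm : TMStmt := tm_stmt wa_stmt wi_stmt (ws_stmt wa_stmt wi_stmt)
  (wf_stmt wa_stmt wi_stmt (we_stmt wa_stmt)) cl_stmt

theorem top_tb : TBStmt :=
  tb_stmt top_lf (nr_stmt cl_stmt) top_tm top_om cl_stmt lv_stmt top_tr fw_stmt

theorem top_kg : KGStmt := kg_stmt ml_stmt lv_stmt top_tr top_gt kt_stmt

theorem top_tc : TCStmt := tc_stmt top_kg kt_stmt top_lf top_tm top_tb cl_stmt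

theorem top_t1 : T1Stmt := t1_stmt fi_stmt (kz_stmt ml_stmt lv_stmt top_lw) top_kg top_tc

/-- The seed. -/
theorem top_sd : SDStmt := sd_stmt B10.u_stmt top_ut top_fx top_dg top_fs top_t1

end Pool.Agent.T10
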