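import Pool.Agent.Lib.MP_696deb_nt.B10.ZK

/-! Formal properties of the function of Weber. -/

set_option autoImplicit false

open scoped Classical

namespace Pool.Agent.T10
open Pool.Agent.Lib.MP_696deb_nt Pool.Agent.Lib.MP_696deb_nt.B2 Pool.Agent.Lib.MP_696deb_nt.B2.CM

/-- The function of Weber of a period pair. -/
noncomputable def wa_f (L : PeriodPair) (u : ℂ) : ℂ :=
  L.g₂ * L.g₃ / (L.g₂ ^ 3 - 27 * L.g₃ ^ 2) * L.weierstrassP u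

theorem wa_sc {c : ℂ} {L M : PeriodPair} (h : Gal.Sc c L M) (u : ℂ) :
    wa_f M (c * u) = wa_f L u := by
  have hc := h.ne
  have e : (c⁻¹ ^ 4 * L.g₂) ^ 3 - 27 * (c⁻¹ ^ 6 * L.g₃) ^ 2 =
      c⁻¹ ^ 12 * (L.g₂ ^ 3 - 27 * L.g₃ ^ 2) := by ring
  have hi : c⁻¹ ^ 12 ≠ 0 := pow_ne_zero _ (inv_ne_zero hc)
  rw [wa_f, wa_f, h.wp, h.g₂, h.g₃, e, div_mul_eq_mul_div, div_mul_eq_mul_div,
    show c⁻¹ ^ 4 * L.g₂ * (c⁻¹ ^ 6 * L.g₃) * (c⁻¹ ^ 2 * L.weierstrassP u) =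
      c⁻¹ ^ 12 * (L.g₂ * L.g₃ * L.weierstrassP u) by ring, mul_div_mul_left _ _ hi]

theorem wa_one (L : PeriodPair) (u : ℂ) : wI L.lattice u = wa_f L u := by
  have h : IsLat L.lattice := ⟨L, rfl⟩
  rw [wI, dif_pos h]
  have := wa_sc (Gal.sc_one h.choose_spec) u
  rw [one_mul] at this
  exact this.symm

theorem wa_zero {I : Lt} (h : ¬ IsLat I) (u : ℂ) : wI I u = 0 := by rw [wI, dif_neg h]

theorem wa_two (I : Lt) (a u : ℂ) (ha : a ≠ 0) : wI (sc a I) (a * u) = wI I u := by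
  by_cases h : IsLat I
  · obtain ⟨M, hM⟩ := h.sc ha
    obtain ⟨L, rfl⟩ := h
    rw [← hM, wa_one, wa_one]
    exact wa_sc ⟨ha, fun z => by rw [hM, mul_mem_sc ha]⟩ u
  · rw [wa_zero h, wa_zero fun h' => h (by simpa [sc_inv_sc ha] using h'.sc (inv_ne_zero ha))]

theorem wa_three (I : Lt) (u v : ℂ) (h : u - v ∈ I ∨ u + v ∈ I) : wI I u = wI I v := by
  by_cases hI : IsLat I
  · obtain ⟨L, rfl⟩ := hI
    rw [wa_one, wa_one, wa_f, wa_f]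
    congr 1
    rcases h with h | h
    · rw [← L.weierstrassP_add_coe v ⟨_, h⟩]
      congr 1
      ring
    · rw [← L.weierstrassP_neg v, ← L.weierstrassP_add_coe (-v) ⟨_, h⟩]
      congr 1
      ring
  · rw [wa_zero hI, wa_zero hI]

theorem wa_four (σ : ℂ ≃+* ℂ) (I I' J J' : Lt) (l : ℕ) (u : ℂ) (hI : CjS σ I I')
    (hJ : CjS σ J J') (hl : l ≠ 0) (h : sc l I ≤ J) (hu : u ∈ J) :
    ∃ u' ∈ J', (u' / l ∈ I' ↔ u / l ∈ I) ∧ σ (wI I (u / l)) = wI I' (u' / l) := by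
  obtain ⟨L, L', rfl, rfl, hL⟩ := hI
  obtain ⟨M, M', rfl, rfl, hM⟩ := hJ
  have hl' : (l : ℂ) ≠ 0 := Nat.cast_ne_zero.2 hl
  obtain ⟨z', hz⟩ := hL.exists_rel (u / l)
  have h1 := Gal.Rel.isog hL hM hl' (fun z hz => h ((mul_mem_sc hl').2 hz)) hz
  rw [map_natCast, mul_div_cancel₀ _ hl'] at h1
  refine ⟨l * z', h1.mem_iff.2 hu, ?_⟩
  rw [mul_div_cancel_left₀ _ hl']
  refine ⟨hz.mem_iff, ?_⟩
  rw [wa_one, wa_one, wa_f, wa_f, hz.wp, hL.h2, hL.h3]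
  simp [map_ofNat]

theorem wa_stmt : WAStmt := ⟨wa_one, wa_two, wa_three, wa_four⟩

end Pool.Agent.T10
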