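import Pool.Agent.Lib.MP_696deb_nt.B8.ZC
import Pool.Agent.Lib.MP_696deb_nt.B6.GW0
import Pool.Agent.Lib.MP_696deb_nt.B4.HSb
import Pool.Agent.Lib.MP_696deb_nt.B2.D2b

/-! The torus of triples with product one, with the twisted action of the Galois group, and its
torsion modules. -/

set_option autoImplicit false

open NumberField NumberTheorySymbols Finset
open scoped Classical NNReal

namespace Pool.Agent.B10
open Pool.Agent.Lib.MP_696deb_nt Pool.Agent.Lib.MP_696deb_nt.B2 Pool.Agent.Lib.MP_696deb_nt.B2.CM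
  Pool.Agent.B6 Pool.Agent.B4 Pool.Agent.B8

/-- The index set. -/
abbrev I3 : Type := ZMod 3

theorem prod_I3 {M : Type*} [CommMonoid M] (f : I3 → M) : ∏ i, f i = f 0 * f 1 * f 2 :=
  Fin.prod_univ_three f

theorem sum_I3 {M : Type*} [AddCommMonoid M] (f : I3 → M) : ∑ i, f i = f 0 + f 1 + f 2 :=
  Fin.sum_univ_three f

/-- Triples with product one. -/
def TTs : Subgroup (I3 → Qbarˣ) where
  carrier := {x | ∏ i, x i = 1}
  one_mem' := by simp
  mul_mem' := fun {x y} h k => by
    simp only [Set.mem_ofPred_eq, Pi.mul_apply, prod_mul_distrib] at h k ⊢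
    rw [h, k, mul_one]
  inv_mem' := fun {x} h => by
    simp only [Set.mem_ofPred_eq, Pi.inv_apply, prod_inv_distrib] at h ⊢
    rw [h, inv_one]

/-- The same group, written additively. -/
def TT : Type := Additive TTs

noncomputable instance : AddCommGroup TT := inferInstanceAs (AddCommGroup (Additive TTs))

/-- The coordinates. -/
def co (x : TT) (i : I3) : Qbar := ((Additive.toMul x : TTs).1 i : Qbarˣ)

theorem co_ne (x : TT) (i : I3) : co x i ≠ 0 := Units.ne_zero _

theorem co_prod (x : TT) : ∏ i, co x i = 1 := by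
  have := congrArg Units.val (Additive.toMul x : TTs).2
  rwa [Units.coe_prod] at this

@[ext] theorem TT.ext {x y : TT} (h : ∀ i, co x i = co y i) : x = y :=
  Subtype.ext (funext fun i => Units.ext (h i))

theorem co_zero (i : I3) : co 0 i = 1 := rfl

theorem co_add (x y : TT) (i : I3) : co (x + y) i = co x i * co y i := rfl

theorem co_neg (x : TT) (i : I3) : co (-x) i = (co x i)⁻¹ := Units.val_inv_eq_inv_val _

theorem co_sub (x y : TT) (i : I3) : co (x - y) i = co x i / co y i := by
  rw [sub_eq_add_neg, co_add, co_neg, div_eq_mul_inv]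

theorem co_nsmul (k : ℕ) (x : TT) (i : I3) : co (k • x) i = co x i ^ k := by
  induction k with
  | zero => rw [zero_smul, co_zero, pow_zero]
  | succ k ih => rw [succ_nsmul, co_add, ih, pow_succ]

theorem co_zsmul (k : ℤ) (x : TT) (i : I3) : co (k • x) i = co x i ^ k := by
  obtain ⟨k, rfl | rfl⟩ := k.eq_nat_or_neg
  · rw [natCast_zsmul, co_nsmul, zpow_natCast]
  · rw [neg_smul, natCast_zsmul, co_neg, co_nsmul, zpow_neg, zpow_natCast]

theorem co_sum {ι : Type*} (s : Finset ι) (x : ι → TT) (i : I3) :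
    co (∑ a ∈ s, x a) i = ∏ a ∈ s, co (x a) i := by
  induction s using Finset.induction_on with
  | empty => rfl
  | insert a s ha ih => rw [sum_insert ha, prod_insert ha, co_add, ih]

/-- The point with given coordinates. -/
noncomputable def mkT (f : I3 → Qbar) (h : ∏ i, f i = 1) : TT :=
  Additive.ofMul (⟨fun i => Units.mk0 (f i) fun e =>
    zero_ne_one ((prod_eq_zero (mem_univ i) e).symm.trans h),
    Units.ext (by rw [Units.coe_prod]; exact h)⟩ : TTs)

theorem co_mkT (f : I3 → Qbar) (h : ∏ i, f i = 1) (i : I3) : co (mkT f h) i = f i := rfl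

/-- The cyclic shift. -/
noncomputable def om : TT →+ TT :=
  AddMonoidHom.mk' (fun x => mkT (fun i => co x (i + 1))
    ((Equiv.prod_comp (Equiv.addRight 1) (co x)).trans (co_prod x))) fun _ _ =>
      TT.ext fun _ => rfl

theorem co_om (x : TT) (i : I3) : co (om x) i = co x (i + 1) := rfl

/-- Points that are congruent to the origin at `w`. -/
noncomputable def K1 (w : Plc) : AddSubgroup TT where
  carrier := {x | ∀ i, w.V (co x i - 1) < 1}
  zero_mem' := fun i => by simp [co_zero]
  add_mem' := fun {x y} h k i => by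
    have e : w.V (co x i) = 1 := by
      rw [← add_sub_cancel 1 (co x i)]
      exact w.V.map_one_add_of_lt (h i)
    rw [co_add, show co x i * co y i - 1 = co x i * (co y i - 1) + (co x i - 1) by ring]
    exact w.V.map_add_lt (by rw [map_mul, e, one_mul]; exact k i) (h i)
  neg_mem' := fun {x} h i => by
    have e : w.V (co x i) = 1 := by
      rw [← add_sub_cancel 1 (co x i)]
      exact w.V.map_one_add_of_lt (h i)
    rw [co_neg, show (co x i)⁻¹ - 1 = -(co x i - 1) / co x i by field_simp [co_ne]; ring, map_div₀,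
      e, div_one, Valuation.map_neg]
    exact h i

/-- Points whose coordinates are units at all places. -/
noncomputable def Un : AddSubgroup TT where
  carrier := {x | ∀ (w : Plc) (i : I3), w.V (co x i) = 1}
  zero_mem' := fun w i => by rw [co_zero, map_one]
  add_mem' := fun {x y} h k w i => by rw [co_add, map_mul, h, k, mul_one]
  neg_mem' := fun {x} h w i => by rw [co_neg, map_inv₀, h, inv_one]

theorem V_two_le (w : Plc) : w.V 2 ≤ 1 := by
  rw [← one_add_one_eq_two]
  exact w.V.map_add_le w.V.map_one.le w.V.map_one.le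

/-- Points whose first digit at `w` vanishes. -/
noncomputable def K5 (w : Plc) : AddSubgroup TT where
  carrier := {x | ∀ i i', w.V (co x i / co x i' - 1) ^ 3 < w.V 2}
  zero_mem' := fun i i' => by
    simpa [co_zero] using pos_iff_ne_zero.2 (w.V.ne_zero_iff.2 (two_ne_zero (α := Qbar)))
  add_mem' := fun {x y} h k i i' => by
    have e : w.V (co x i / co x i') = 1 := by
      rw [← add_sub_cancel 1 (co x i / co x i')]
      exact w.V.map_one_add_of_lt ((pow_lt_one_iff_of_nonneg zero_le three_ne_zero).1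
        ((h i i').trans_le (V_two_le w)))
    rw [co_add, co_add, mul_div_mul_comm, show co x i / co x i' * (co y i / co y i') - 1 =
      co x i / co x i' * (co y i / co y i' - 1) + (co x i / co x i' - 1) by ring]
    refine (pow_le_pow_left₀ zero_le (w.V.map_add _ _) 3).trans_lt ?_
    rw [map_mul, e, one_mul]
    rcases max_choice (w.V (co y i / co y i' - 1)) (w.V (co x i / co x i' - 1)) with l | l <;> rw [l]
    exacts [k i i', h i i']
  neg_mem' := fun {x} h i i' => by
    rw [co_neg, co_neg, inv_div_inv]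
    exact h i' i

/-- Vectors with sum zero. -/
def Mvs (j : ℕ) : AddSubgroup (I3 → ZMod (2 ^ j)) where
  carrier := {x | ∑ i, x i = 0}
  zero_mem' := by simp
  add_mem' := fun {x y} h k => by
    simp only [Set.mem_ofPred_eq, Pi.add_apply, sum_add_distrib] at h k ⊢
    rw [h, k, add_zero]
  neg_mem' := fun {x} h => by
    simp only [Set.mem_ofPred_eq, Pi.neg_apply, sum_neg_distrib] at h ⊢
    rw [h, neg_zero]

/-- The same, as a type. -/
abbrev Mv (j : ℕ) : Type := Mvs j

/-- The pairing. -/
def bm (j : ℕ) : Mv j →+ Mv j →+ ZMod (2 ^ j) :=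
  AddMonoidHom.mk' (fun x => AddMonoidHom.mk' (fun y => ∑ i, x.1 i * y.1 i) fun y z => by
    simp [mul_add, sum_add_distrib]) fun x y => AddMonoidHom.ext fun z => by
      simp [add_mul, sum_add_distrib]

theorem bm_apply {j : ℕ} (x y : Mv j) : bm j x y = ∑ i, x.1 i * y.1 i := rfl

/-- The cyclic shift. -/
def omM (j : ℕ) : Mv j →+ Mv j :=
  AddMonoidHom.mk' (fun x => ⟨fun i => x.1 (i + 1),
    (Equiv.sum_comp (Equiv.addRight 1) x.1).trans x.2⟩) fun _ _ => rfl

theorem omM_apply {j : ℕ} (x : Mv j) (i : I3) : (omM j x).1 i = x.1 (i + 1) := rfl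

theorem zeta_add (j : ℕ) (a b : ZMod (2 ^ j)) :
    zeta j ^ (a + b).val = zeta j ^ a.val * zeta j ^ b.val := by
  rw [ZMod.val_add, ← pow_eq_pow_mod _ (zeta_prim j).pow_eq_one, pow_add]

/-- The torsion points. -/
noncomputable def emb (j : ℕ) : Mv j →+ TT :=
  AddMonoidHom.mk' (fun x => mkT (fun i => zeta j ^ (x.1 i).val) (by
    have := x.2
    rw [prod_I3, ← zeta_add, ← zeta_add, ← sum_I3, show ∑ i, x.1 i = 0 from this, ZMod.val_zero,
      pow_zero])) fun _ _ => TT.ext fun _ => zeta_add _ _ _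

theorem co_emb {j : ℕ} (x : Mv j) (i : I3) : co (emb j x) i = zeta j ^ (x.1 i).val := rfl

/-- The curve with the cubic character. -/
class Cp extends Ce where
  ψ : Pc N 2 →* Z3
  cub : @Cub toCe ψ
  cx : ∀ g ∈ GK N, ψ (rho N 2 g) = 1 ↔ ∀ i, g (@er toCw i) = @er toCw i

variable [Cp]

/-- The cubic character. -/
def ps : Pc NN 2 →* Z3 := Cp.ψ

theorem ps_cub : Cub ps := Cp.cub

/-- The cocycle of the action on the indices. -/
noncomputable def xc (g : Gam) : I3 := (ps (rho NN 2 g)).toAdd

theorem xc_ker {g : Gam} (hg : g ∈ GK NN) : xc g = 0 ↔ ∀ i, g (er i) = er i :=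
  toAdd_eq_zero.trans (Cp.cx g hg)

theorem ok2 : Ok NN 2 := nk.ok two_ne_zero

theorem xc_mul {g : Gam} (hg : g ∈ GK NN) (h : Gam) : xc (g * h) = xc g + xc h := by
  rw [xc, rho_mul ok2 hg, map_mul]; rfl

theorem xc_mul' {g : Gam} (hg : g ∉ GK NN) (h : Gam) : xc (g * h) = xc g - xc h := by
  rw [xc, rho_mul' ok2 hg, map_mul, map_inv, sub_eq_add_neg]; rfl

theorem xc_one : xc 1 = 0 := by rw [xc, rho_one ok2, map_one]; rfl

theorem xc_cc : xc cc = 0 := by rw [xc, rho_cc ok2, map_one]; rfl

theorem sm_xc (H : Subgroup Gam) : Sm H xc := (sm_rho H NN 2).comp fun x => (ps x).toAdd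

/-- The action on the indices. -/
noncomputable def pm (g : Gam) (i : I3) : I3 := if g ∈ GK NN then xc g + i else xc g - i

theorem pm_of_mem {g : Gam} (hg : g ∈ GK NN) (i : I3) : pm g i = xc g + i := if_pos hg

theorem pm_of_notMem {g : Gam} (hg : g ∉ GK NN) (i : I3) : pm g i = xc g - i := if_neg hg

theorem pm_one (i : I3) : pm 1 i = i := by rw [pm_of_mem (one_mem _), xc_one, zero_add]

theorem pm_mul (g h : Gam) (i : I3) : pm (g * h) i = pm g (pm h i) := by
  by_cases hg : g ∈ GK NN <;> by_cases hh : h ∈ GK NN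
  · rw [pm_of_mem (mul_mem hg hh), pm_of_mem hg, pm_of_mem hh, xc_mul hg, add_assoc]
  · rw [pm_of_notMem fun e => hh ((mul_mem_cancel_left hg).1 e), pm_of_mem hg, pm_of_notMem hh,
      xc_mul hg, add_sub_assoc]
  · rw [pm_of_notMem fun e => hg ((mul_mem_cancel_right hh).1 e), pm_of_notMem hg, pm_of_mem hh,
      xc_mul' hg, sub_sub]
  · rw [pm_of_mem (mul_mem_GK hg hh), pm_of_notMem hg, pm_of_notMem hh, xc_mul' hg, sub_add]

/-- The same, as a permutation. -/
noncomputable def pE (g : Gam) : I3 ≃ I3 where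
  toFun := pm g
  invFun := pm g⁻¹
  left_inv i := by rw [← pm_mul, inv_mul_cancel, pm_one]
  right_inv i := by rw [← pm_mul, mul_inv_cancel, pm_one]

noncomputable instance : SMul Gam TT where
  smul g x := mkT (fun i => g (co x (pm g⁻¹ i))) (by
    rw [← map_prod, show ∏ i, co x (pm g⁻¹ i) = 1 from
      (Equiv.prod_comp (pE g⁻¹) (co x)).trans (co_prod x), map_one])

theorem co_smul (g : Gam) (x : TT) (i : I3) : co (g • x) i = g (co x (pm g⁻¹ i)) := rfl

noncomputable instance : DistribMulAction Gam TT where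
  one_smul x := TT.ext fun i => by rw [co_smul, inv_one, pm_one, AlgEquiv.one_apply]
  mul_smul g h x := TT.ext fun i => by
    rw [co_smul, co_smul, co_smul, mul_inv_rev, pm_mul, AlgEquiv.mul_apply]
  smul_zero g := TT.ext fun i => by rw [co_smul, co_zero, co_zero, map_one]
  smul_add g x y := TT.ext fun i => by rw [co_add, co_smul, co_smul, co_smul, co_add, map_mul]

/-- The action on vectors, twisted by a power of the cyclotomic character. -/
noncomputable def am (e j : ℕ) (g : Gam) : Mv j →+ Mv j :=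
  AddMonoidHom.mk' (fun x => ⟨fun i => cy j g ^ e * x.1 (pm g⁻¹ i), by
    change ∑ i, cy j g ^ e * x.1 (pm g⁻¹ i) = 0
    rw [← mul_sum, show ∑ i, x.1 (pm g⁻¹ i) = 0 from (Equiv.sum_comp (pE g⁻¹) x.1).trans x.2,
      mul_zero]⟩) fun x y => Subtype.ext (funext fun _ => mul_add _ _ _)

theorem am_apply {e j : ℕ} (g : Gam) (x : Mv j) (i : I3) :
    (am e j g x).1 i = cy j g ^ e * x.1 (pm g⁻¹ i) := rfl

theorem smul_emb {j : ℕ} (g : Gam) (x : Mv j) : g • emb j x = emb j (am 1 j g x) :=
  TT.ext fun i => by rw [co_smul, co_emb, co_emb, smul_zeta_val, am_apply, pow_one]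

instance (c : ℕ) : Finite (Pc NN c) := finite_Pc (by have := nk.m8; omega) nk.gt c

end Pool.Agent.B10
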