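import Pool.Agent.Lib.MP_696deb_nt.B10.UZ
import Pool.Agent.Lib.MP_696deb_nt.B7.D9Alg

/-! The values of the modular unit at special points lie in ring class fields. -/

set_option autoImplicit false

namespace Pool.Agent.B10
open Pool.Agent.Lib.MP_696deb_nt Pool.Agent.Lib.MP_696deb_nt.B2 Pool.Agent.Lib.MP_696deb_nt.B2.CM
  Pool.Agent.B6 Pool.Agent.B4 Pool.Agent.B8
open Pool.Agent.B4.GE (jN)

theorem ab_stmt (jr : JRStmt) (sp : SPStmt) : ABStmt := by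
  intro n f τ hn hf hτ
  have n0 : 0 < n := by have := hn.gt; omega
  obtain ⟨-, j2, j3⟩ := jr n hn
  have c1 : G5.CM n (τ / 16) := by
    simpa [act_of, mob] using G5.AD.cm_act n0 hτ (M := !![1, 0; 0, 16]) (by simp)
  have c2 : G5.CM n ((256 : ℕ) * (τ / 16)) := by
    simpa [act_of, mob] using G5.AD.cm_act n0 c1 (M := !![256, 0; 0, 1]) (by simp)
  obtain ⟨a, x, a0, r1⟩ := j3 _ c1
  obtain ⟨b, y, b0, r2⟩ := j3 _ c2
  have e1 := (jC_jQ (hn.ok a0) x).trans (j2 a x _ a0 r1).2.symm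
  have e2 := (jC_jQ (hn.ok b0) y).trans (j2 b y _ b0 r2).2.symm
  have hr : D9.Ra 256 fun z => f (16 * z) := fun σ => ⟨hf.mf, hf.mf, by
    obtain ⟨A, hA⟩ := hf.qe
    exact ⟨1, _, hA, by convert hA using 1; ext; simp [toC]⟩⟩
  obtain ⟨v, hv⟩ := D9.alg_stmt 256 _ _ _ (by decide) hr r1.pos e1
  refine ⟨v, a * b, by rw [hv, mul_div_cancel₀ τ (by norm_num)], mul_ne_zero a0 b0,
    fun g hg e => jC.injective ?_⟩
  have k : ∀ (c : ℕ) (u : Pc n c), c ∣ a * b → g (jQ n c u) = jQ n c u := fun c u hc => by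
    rw [smul_jQ (hn.ok (ne_zero_of_dvd_ne_zero (mul_ne_zero a0 b0) hc)) hg,
      ← pj_rho (hn.ok (mul_ne_zero a0 b0)) hc, e, map_one, one_mul]
  obtain ⟨σ, hσ⟩ := exists_ex g
  obtain ⟨z, hz⟩ := G5.exists_pc G5.jf_surj (N := 256) (by decide) σ r1.pos
  have j := hz.rj (by decide)
  obtain ⟨δ, d1, rfl⟩ := G5.exists_sl r1.pos j.pos' (by
    rw [j.j, ← e1, hσ, k a x (dvd_mul_right a b)])
  have d2 := sp n 8 _ hn c1 δ d1 (j.jN.trans (by
    rw [jN, ← e2, hσ, k b y (dvd_mul_left b a)]; exact e2))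
  rw [← hσ, hv, ← hz.ev _ _ (hr σ)]
  exact hf.mf.1 δ d2 _ r1.pos

end Pool.Agent.B10
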