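import Pool.Agent.Lib.MP_696deb_nt.B10.UZ

/-! Facts on the torus of triples and on its torsion modules. -/

set_option autoImplicit false

open Finset
open scoped NNReal

namespace Pool.Agent.B10
open Pool.Agent.Lib.MP_696deb_nt Pool.Agent.Lib.MP_696deb_nt.B2 Pool.Agent.Lib.MP_696deb_nt.B2.CM
  Pool.Agent.B6 Pool.Agent.B4 Pool.Agent.B8
open Pool.Agent.Lib.MP_696deb_nt.B6 (Act0 Act3 Dual3 N2 W2)

theorem ubm_sm_inv {α : Type*} {f : Gam → α} (h : Sm ⊤ f) : Sm ⊤ fun g => f g⁻¹ := by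
  obtain ⟨U, h1, h2, h3⟩ := h
  refine ⟨U, h1, h2, fun g _ k _ e => h3 _ trivial _ trivial ?_⟩
  rw [show g⁻¹⁻¹ * k⁻¹ = g * (g⁻¹ * k)⁻¹ * g⁻¹ by group]
  exact h2.conj_mem _ (U.inv_mem e) g

theorem ubm_cy_mul (j : ℕ) (g h : Gam) : cy j (g * h) = cy j g * cy j h := by
  rw [cy, cyc_mul, map_mul]; rfl

theorem ubm_cy_one (j : ℕ) : cy j 1 = 1 := by rw [cy, cyc_one, map_one]

theorem ubm_cy_pow (j : ℕ) (g : Gam) (k : ℕ) : cy j (g ^ k) = cy j g ^ k := by
  induction k with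
  | zero => rw [pow_zero, pow_zero, ubm_cy_one]
  | succ k ih => rw [pow_succ, pow_succ, ubm_cy_mul, ih]

theorem ubm_cy_two (j : ℕ) (g : Gam) : cy j (g ^ 2 ^ j) = 1 := by
  rw [ubm_cy_pow]
  obtain ⟨u, hu⟩ : IsUnit (cy j g) := (cyc_unit g).map _
  rw [← hu, ← Units.val_pow_eq_pow_val, Units.val_eq_one]
  cases j with
  | zero => exact Units.ext (Subsingleton.elim (α := ZMod 1) _ _)
  | succ j =>
    have h := ZMod.pow_totient u
    rw [Nat.totient_prime_pow_succ Nat.prime_two] at h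
    have h1 : u ^ 2 ^ j = 1 := by simpa using h
    calc u ^ 2 ^ (j + 1) = (u ^ 2 ^ j) ^ 2 := by rw [← pow_mul, ← pow_succ]
      _ = 1 := by rw [h1, one_pow]

theorem ubm_odd (j n : ℕ) (hn : Odd n) : IsUnit (n : ZMod (2 ^ j)) :=
  (ZMod.isUnit_iff_coprime _ _).2 (Nat.Coprime.pow_right _ hn.coprime_two_right)

theorem ubm_unit (j : ℕ) (c : ZMod (2 ^ j)) : IsUnit (1 + c + c * c) := by
  obtain ⟨n, rfl⟩ := ZMod.natCast_zmod_surjective c
  have h := ubm_odd j (n * (n + 1) + 1) (Nat.even_mul_succ_self n).add_one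
  rwa [show ((n * (n + 1) + 1 : ℕ) : ZMod (2 ^ j)) = 1 + n + n * n by push_cast; ring] at h

theorem ubm_tri : ∀ s i : I3, s ≠ 0 → (univ : Finset I3) = {i, s + i, s + (s + i)} ∧
    i ∉ ({s + i, s + (s + i)} : Finset I3) ∧ s + i ≠ s + (s + i) ∧ s + (s + (s + i)) = i := by
  decide

theorem ubm_prod {M : Type*} [CommMonoid M] (f : I3 → M) {s : I3} (hs : s ≠ 0) (i : I3) :
    ∏ k, f k = f i * (f (s + i) * f (s + (s + i))) := by
  obtain ⟨h1, h2, h3, -⟩ := ubm_tri s i hs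
  rw [h1, prod_insert h2, prod_pair h3]

theorem ubm_sum {M : Type*} [AddCommMonoid M] (f : I3 → M) {s : I3} (hs : s ≠ 0) (i : I3) :
    ∑ k, f k = f i + (f (s + i) + f (s + (s + i))) := by
  obtain ⟨h1, h2, h3, -⟩ := ubm_tri s i hs
  rw [h1, sum_insert h2, sum_pair h3]

/-- The three nonzero vectors of the plane. -/
def ubm_u (k : I3) : W2 := if k = 0 then ![1, 0] else if k = 1 then ![0, 1] else ![1, 1]

/-- The matrix of a permutation of the three vectors. -/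
def ubm_F (p : I3 → I3) : N2 := Matrix.of fun r c => ubm_u (p (if c = 0 then 0 else 1)) r

theorem ubm_F_mul : ∀ p q : I3 → I3, Function.Injective p →
    ubm_F (fun i => p (q i)) = ubm_F p * ubm_F q := by
  decide +kernel

theorem ubm_F_add : ∀ x : I3, (ubm_F (fun i => x + i) = 1 ↔ x = 0) ∧
    ((ubm_F fun i => x + i).trace = 1 → x ≠ 0) := by
  decide

theorem ubm_left (j : ℕ) (x : Mv j) (h : ∀ y, bm j x y = 0) : x = 0 := by
  have h0 : x.1 0 + x.1 1 + x.1 2 = 0 := (sum_I3 _).symm.trans x.2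
  have h1 := h ⟨![1, -1, 0], (sum_I3 _).trans (show (1 : ZMod (2 ^ j)) + -1 + 0 = 0 by ring)⟩
  have h2 := h ⟨![1, 0, -1], (sum_I3 _).trans (show (1 : ZMod (2 ^ j)) + 0 + -1 = 0 by ring)⟩
  rw [bm_apply, sum_I3] at h1 h2
  change x.1 0 * 1 + x.1 1 * -1 + x.1 2 * 0 = 0 at h1
  change x.1 0 * 1 + x.1 1 * 0 + x.1 2 * -1 = 0 at h2
  have h3 : x.1 0 = 0 := (ubm_odd j 3 (by decide)).mul_right_eq_zero.1 (by
    push_cast; linear_combination h0 + h1 + h2)
  have h4 : ∀ i : I3, i = 0 ∨ i = 1 ∨ i = 2 := by decide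
  refine Subtype.ext (funext fun i => ?_)
  change x.1 i = 0
  rcases h4 i with rfl | rfl | rfl
  · exact h3
  · linear_combination h3 - h1
  · linear_combination h3 - h2

theorem ubm_symm (j : ℕ) (x y : Mv j) : bm j x y = bm j y x := by
  simp only [bm_apply, mul_comm]

theorem ubm_kil (j : ℕ) (x : Mv j) : 2 ^ j • x = 0 := by
  refine Subtype.ext (funext fun i => ?_)
  change 2 ^ j • x.1 i = 0
  rw [nsmul_eq_mul, ZMod.natCast_self, zero_mul]

theorem ubm_inj (j : ℕ) : Function.Injective (emb j) := fun x y h =>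
  Subtype.ext (funext fun i => zeta_val_inj (by rw [← co_emb, ← co_emb, h]))

theorem ubm_onto (j : ℕ) (x : TT) (h : 2 ^ j • x = 0) : ∃ y, emb j y = x := by
  have h1 : ∀ i, ∃ a : ZMod (2 ^ j), co x i = zeta j ^ a.val := fun i =>
    exists_zeta_val (by rw [← co_nsmul, h, co_zero])
  choose a ha using h1
  refine ⟨⟨a, (sum_I3 a).trans (zeta_val_inj ?_)⟩, TT.ext fun i => (ha i).symm⟩
  rw [zeta_add, zeta_add, ← ha, ← ha, ← ha, ← prod_I3, co_prod, ZMod.val_zero, pow_zero]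

theorem ubm_om3 (x : TT) : x + om x + om (om x) = 0 := TT.ext fun i => by
  rw [co_add, co_add, co_om, co_om, co_om, co_zero, ← co_prod x, ubm_prod (co x) one_ne_zero i,
    mul_assoc, add_comm 1 i, add_comm 1 (i + 1)]

theorem ubm_half (j : ℕ) (x : TT) : ∃ R, 2 ^ j • R = x := by
  have hj : 0 < 2 ^ j := by positivity
  obtain ⟨a, ha⟩ := IsAlgClosed.exists_pow_nat_eq (co x 0) hj
  obtain ⟨b, hb⟩ := IsAlgClosed.exists_pow_nat_eq (co x 1) hj
  have ha0 : a ≠ 0 := fun e => co_ne x 0 (by rw [← ha, e, zero_pow hj.ne'])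
  have hb0 : b ≠ 0 := fun e => co_ne x 1 (by rw [← hb, e, zero_pow hj.ne'])
  have h4 : ∀ i : I3, i = 0 ∨ i = 1 ∨ i = 2 := by decide
  refine ⟨mkT ![a, b, (a * b)⁻¹] ((prod_I3 _).trans (mul_inv_cancel₀ (mul_ne_zero ha0 hb0))),
    TT.ext fun i => ?_⟩
  rw [co_nsmul]
  rcases h4 i with rfl | rfl | rfl
  · exact ha
  · exact hb
  · change (a * b)⁻¹ ^ 2 ^ j = _
    rw [inv_pow, mul_pow, ha, hb]
    exact inv_eq_of_mul_eq_one_right ((prod_I3 _).symm.trans (co_prod x))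

theorem ubm_tors (w : Plc) (hw : w.p ≠ 2) (x : TT) (hx : x ∈ K1 w) (j : ℕ) (h : 2 ^ j • x = 0) :
    x = 0 := TT.ext fun i =>
  w.eq_one_of_root (n := 2 ^ j) (fun e => hw ((Nat.prime_dvd_prime_iff_eq w.prime
    Nat.prime_two).1 (w.prime.dvd_of_dvd_pow e))) (by rw [← co_nsmul, h, co_zero]) (hx i)

theorem ubm_un (j : ℕ) (x : TT) (h : 2 ^ j • x ∈ Un) : x ∈ Un := fun w i => by
  have h1 := h w i
  rwa [co_nsmul, map_pow, pow_eq_one_iff_of_nonneg zero_le (by positivity)] at h1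

variable [Cp]

theorem ubm_xc_inv {g : Gam} (hg : g ∈ GK NN) : xc g⁻¹ = -xc g := by
  have h := xc_mul hg g⁻¹
  rw [mul_inv_cancel, xc_one] at h
  exact (neg_eq_of_add_eq_zero_right h.symm).symm

theorem ubm_pm {g : Gam} (hg : g ∈ GK NN) (i : I3) : pm g⁻¹ i = -xc g + i := by
  rw [pm_of_mem (inv_mem hg), ubm_xc_inv hg]

theorem ubm_xc_pow {g : Gam} (hg : g ∈ GK NN) (h : xc g = 0) (k : ℕ) : xc (g ^ k) = 0 := by
  induction k with
  | zero => rw [pow_zero, xc_one]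
  | succ k ih => rw [pow_succ', xc_mul hg, h, ih, add_zero]

theorem ubm_sm_pm : Sm ⊤ pm :=
  ((sm_chi (-(NN : ℤ))).comp₂ (sm_xc ⊤)
    fun s x (i : I3) => if s = 1 then x + i else x - i).congr fun g _ => funext fun i => by
      by_cases hg : g ∈ GK NN
      · rw [pm_of_mem hg, if_pos (B4c_mem.1 hg)]
      · rw [pm_of_notMem hg, if_neg fun e => hg (B4c_mem.2 e)]

theorem ubm_act (e j : ℕ) : Act0 ⊤ (am e j) where
  sm := by
    obtain ⟨U, h1, h2, h3⟩ := (sm_cy (H := ⊤) j).comp₂ (ubm_sm_inv ubm_sm_pm) Prod.mk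
    refine ⟨U, h1, h2, fun g hg k hk r => AddMonoidHom.ext fun x => Subtype.ext (funext fun i => ?_)⟩
    obtain ⟨a, b⟩ := Prod.mk.inj (h3 g hg k hk r)
    rw [am_apply, am_apply, a, b]
  one x := Subtype.ext (funext fun i => by
    rw [am_apply, ubm_cy_one, one_pow, one_mul, inv_one, pm_one])
  mul g _ h _ x := Subtype.ext (funext fun i => by
    rw [am_apply, am_apply, am_apply, ubm_cy_mul, mul_pow, mul_assoc, mul_inv_rev, pm_mul])

theorem ubm_triv (e j : ℕ) (g : Gam) (hg : g ∈ GK NN) (h : xc g = 0) (k : cy j g ^ e = 1)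
    (x : Mv j) : am e j g x = x := Subtype.ext (funext fun i => by
  rw [am_apply, k, one_mul, ubm_pm hg, h, neg_zero, zero_add])

theorem ubm_fix0 (e j : ℕ) (g : Gam) (hg : g ∈ GK NN) (h : xc g ≠ 0) (x : Mv j)
    (k : am e j g x = x) : x = 0 := by
  have hs : -xc g ≠ 0 := neg_ne_zero.2 h
  have h1 : ∀ i, cy j g ^ e * x.1 (-xc g + i) = x.1 i := fun i => by
    rw [← ubm_pm hg, ← am_apply, k]
  refine Subtype.ext (funext fun i => ?_)
  have h2 : x.1 i + (x.1 (-xc g + i) + x.1 (-xc g + (-xc g + i))) = 0 :=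
    (ubm_sum x.1 hs i).symm.trans x.2
  have h3 := h1 (-xc g + i)
  have h4 := h1 (-xc g + (-xc g + i))
  rw [(ubm_tri _ i hs).2.2.2] at h4
  refine (ubm_unit j (cy j g ^ e)).mul_right_eq_zero.1 ?_
  linear_combination h2 + h3 + (1 + cy j g ^ e) * h4

theorem ubm_fpf (e j : ℕ) (g : Gam) (hg : g ∈ GK NN) (h : xc g ≠ 0) :
    Function.Bijective fun x : Mv j => am e j g x - x :=
  Finite.injective_iff_bijective.1 fun x y k => sub_eq_zero.1 (ubm_fix0 e j g hg h _ (by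
    rw [map_sub]
    exact sub_eq_sub_iff_sub_eq_sub.1 k))

/-- The action on the plane. -/
noncomputable def ubm_sig : Gam →* N2 where
  toFun g := ubm_F (pm g)
  map_one' := by
    rw [show pm 1 = fun i => 0 + i from funext fun i => (pm_one i).trans (zero_add i).symm]
    exact (ubm_F_add 0).1.2 rfl
  map_mul' g h := (congrArg ubm_F (funext (pm_mul g h))).trans
    (ubm_F_mul (pm g) (pm h) (pE g).injective)

theorem ubm_sig_eq {g : Gam} (hg : g ∈ GK NN) : ubm_sig g = ubm_F fun i => xc g + i :=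
  congrArg ubm_F (funext (pm_of_mem hg))

theorem ubm_act3 (e j : ℕ) : Act3 ubm_sig (GK NN) (am e j) where
  toAct0 := (ubm_act e j).mono le_top
  two g hg h := ⟨j, ubm_triv e j _ (pow_mem hg _)
    (ubm_xc_pow hg ((ubm_F_add _).1.1 ((ubm_sig_eq hg).symm.trans h)) _)
    (by rw [ubm_cy_two, one_pow])⟩
  fpf g hg h := ubm_fix0 e j g hg ((ubm_F_add _).2 (by rwa [← ubm_sig_eq hg]))

theorem ubm_dual (j : ℕ) : Dual3 ubm_sig j (GK NN) (am 1 j) (am 0 j) (bm j) where
  sm := ubm_sm_pm.comp ubm_F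
  act := ubm_act3 1 j
  act' := ubm_act3 0 j
  eqv g _ x y := by
    rw [bm_apply, bm_apply, ← Equiv.sum_comp (pE g⁻¹) fun i => x.1 i * y.1 i, mul_sum]
    refine sum_congr rfl fun i _ => ?_
    rw [am_apply, am_apply, pow_one, pow_zero, one_mul, mul_assoc]
    rfl
  left := ubm_left j
  right y h := ubm_left j y fun x => (ubm_symm j y x).trans (h x)

theorem ubm_cc (i : I3) : pm cc⁻¹ i = -i := by
  have h : cc⁻¹ = cc := inv_eq_of_mul_eq_one_right cc_mul_cc
  rw [h, pm_of_notMem (cc_notMem (by have := nk.gt; omega)), xc_cc, zero_sub]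

theorem ubm_frob (w : Plc) (q : ℕ) (g : Gam) (hg : g ∈ GK NN) (hf : IsFrob w q g) (h : xc g = 0)
    (x : TT) (k : ∀ i, w.V (co x i) = 1) : g • x - q • x ∈ K1 w := fun i => by
  rw [co_sub, co_smul, co_nsmul, ubm_pm hg, h, neg_zero, zero_add,
    div_sub_one (pow_ne_zero _ (co_ne x i)), map_div₀, map_pow, k, one_pow, div_one]
  exact hf.2 _ (k i).le

omit [Cp] in
theorem bm_stmt : BMStmt := fun [Cp] =>
  { act := ubm_act
    dual := ⟨ubm_sig, ubm_dual⟩
    kil := ubm_kil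
    fpf := ubm_fpf
    triv := ubm_triv
    omm := fun e j g hg x => Subtype.ext (funext fun i => by
      rw [omM_apply, am_apply, am_apply, omM_apply, ubm_pm hg, ubm_pm hg, add_assoc])
    inj := ubm_inj
    onto := ubm_onto
    emb_om := fun _ _ => TT.ext fun _ => rfl
    smul_om := fun g hg x => TT.ext fun i => by
      rw [co_om, co_smul, co_smul, co_om, ubm_pm hg, ubm_pm hg, add_assoc]
    cc_om := fun x => TT.ext fun i => by
      have h : ∀ i : I3, -i + 1 = -(i + 1 + 1) := by decide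
      rw [co_om, co_om, co_smul, co_smul, co_om, ubm_cc, ubm_cc, h]
    om3 := ubm_om3
    fix := fun g hg h j x k r => by
      obtain ⟨y, rfl⟩ := ubm_onto j x k
      rw [smul_emb] at r
      rw [ubm_fix0 1 j g hg h y (ubm_inj j r), map_zero]
    half := ubm_half
    sm := fun x => by
      obtain ⟨U, h1, h2, h3⟩ := (Sm.pi fun i => sm_apply (H := ⊤) (co x i)).comp₂
        (ubm_sm_inv ubm_sm_pm) Prod.mk
      refine ⟨U, h1, h2, fun g hg k hk r => TT.ext fun i => ?_⟩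
      obtain ⟨a, b⟩ := Prod.mk.inj (h3 g hg k hk r)
      rw [co_smul, co_smul, b]
      exact congrFun a _
    tors := ubm_tors
    frob := ubm_frob
    k1 := fun w g x hx i => by
      rw [smul_V, co_smul, map_sub, map_one,
        show g⁻¹ (g (co x (pm g⁻¹ i))) = co x (pm g⁻¹ i) from g.symm_apply_apply _]
      exact hx _
    un := ubm_un }

end Pool.Agent.B10
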