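import Pool.Agent.Lib.MP_696deb_nt.B10.UZ
import Pool.Agent.Lib.MP_696deb_nt.B8.CFa

/-! Local facts on the cubic character. -/

set_option autoImplicit false

open NumberField NumberTheorySymbols Finset
open scoped Classical NNReal

namespace Pool.Agent.B10
open Pool.Agent.Lib.MP_696deb_nt Pool.Agent.Lib.MP_696deb_nt.B2 Pool.Agent.Lib.MP_696deb_nt.B2.CM
  Pool.Agent.B6 Pool.Agent.B4 Pool.Agent.B8

theorem ubx_inert {n : ℕ} {w : Plc} (hn : n % 8 = 3) (hw : w.p = 2) {φ : Gam}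
    (hφ : IsFrob w 2 φ) : φ ∉ GK n := by
  have h1 := chi_dec_two (a := -n * 5) hw (by omega) hφ.1
  rw [chi_mul (by omega) (by omega), chi_frob_two hw hφ] at h1
  rw [B4c_mem]
  intro h
  rw [h] at h1
  exact absurd h1 (by decide)

theorem ubx_z3 : ∀ a : I3, a ≠ 0 → a = 1 ∨ a + a = 1 := by decide

section
variable [Cp] {w : Plc} {g : Gam}

theorem ubx_pm (g : Gam) : pm g 0 = xc g := by
  by_cases hg : g ∈ GK NN
  · rw [pm_of_mem hg, add_zero]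
  · rw [pm_of_notMem hg, sub_zero]

theorem ubx_gk (hg : g ∈ GK NN) : g e0 = e0 ↔ xc g = 0 :=
  ⟨fun h => (xc_ker hg).2 (cfa_all hg h), fun h => (xc_ker hg).1 h _⟩

theorem ubx_hl (g : Gam) : g ∈ HL ↔ xc g = 0 := by
  change g e0 = e0 ↔ _
  by_cases hg : g ∈ GK NN
  · exact ubx_gk hg
  · have h := ubx_gk (mul_mem_GK hg (cc_notMem NN_pos))
    rwa [xc_mul' hg, xc_cc, sub_zero, AlgEquiv.mul_apply, cc_e0] at h

theorem ubx_eq (a b : Gam) : a e0 = b e0 ↔ xc a = xc b := by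
  have h := ubx_hl (b⁻¹ * a)
  rw [← ubx_pm, pm_mul, ubx_pm a] at h
  have h1 : b⁻¹ * a ∈ HL ↔ a e0 = b e0 := by
    change (b⁻¹ * a) • e0 = e0 ↔ a • e0 = b • e0
    rw [mul_smul, inv_smul_eq_iff]
  rw [← h1, h, ← ubx_pm b]
  exact (pE b).symm_apply_eq

theorem ubx_odd (hw : w.p ≠ 2) (hg : g ∈ GK NN ⊓ Ine w) : xc g = 0 :=
  (xc_ker hg.1).2 (cfa_ine hw hg)

theorem ubx_two (hw : w.p = 2) : ∃ σ ∈ Ine w, xc σ = 1 := by
  obtain ⟨σ, hσ, h⟩ := cfa_ram hw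
  have k := cfa_le hw hσ
  rcases ubx_z3 (xc σ) fun e => h 0 ((xc_ker k).1 e 0) with e | e
  · exact ⟨σ, hσ, e⟩
  · exact ⟨σ * σ, mul_mem hσ hσ, by rw [xc_mul k, e]⟩

theorem ubx_fr2 (hw : w.p = 2) : fr w ∉ GK NN := ubx_inert nk.m8 hw (hw ▸ fr_spec w)

theorem ubx_nd (h : In w) : ¬ (w.p : ℤ) ∣ 2 * -NN := B4c_not_dvd h.1 (by rw [h.2]; decide)

theorem ubx_fr (h : In w) : fr w ∉ GK NN := fun k => by
  have e := chi_frob (ubx_nd h) (fr_spec w)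
  rw [B4c_mem.1 k, h.2] at e
  exact absurd e (by decide)

theorem ubx_dec (h : In w) (hg : g ∈ GK NN ⊓ Dec w) : xc g = 0 := by
  have hI := cmz_ine h.1 h.2
  obtain ⟨n, σ, hσ, k, -⟩ := dec_gen_inert (fr_spec w) (ubx_fr h) hI hg op_HL
  have h1 : fr w * fr w ∈ HL := (ubx_hl _).2 (by rw [xc_mul' (ubx_fr h), sub_self])
  have h2 : σ ∈ HL := (ubx_hl _).2 (ubx_odd h.1 ⟨hI hσ, hσ⟩)
  exact (ubx_hl g).1 ((mul_mem_cancel_left (inv_mem (mul_mem (pow_mem h1 n) h2))).1 k)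

theorem ubx_aw {S : Finset Plc} (h : Ad S) : Aw NN (cS S) := by
  refine ⟨Finset.squarefree_prod_of_pairwise_isCoprime (fun v hv u hu e => ?_)
    fun v _ => v.prime.squarefree, fun l hl hd => ?_⟩
  · exact Nat.coprime_iff_isRelPrime.1
      ((Nat.coprime_primes v.prime u.prime).2 fun k => e (h.2 hv hu k))
  · obtain ⟨v, hv, k⟩ := (Prime.dvd_finsetProd_iff hl.prime _).1 hd
    rw [(Nat.prime_dvd_prime_iff_eq hl v.prime).1 k]
    exact h.1 v hv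

theorem ubx_pow (hg : g ∈ GK NN) (e : xc g = 1) (k : ℕ) : xc (g ^ k) = k := by
  induction k with
  | zero => rw [pow_zero, xc_one, Nat.cast_zero]
  | succ k ih => rw [pow_succ', xc_mul hg, ih, e, Nat.cast_succ, add_comm]

theorem ubx_sum {a b c : Qbar} (ha : cub a = 0) (hb : cub b = 0) (hc : cub c = 0) (h1 : a ≠ b)
    (h2 : a ≠ c) (h3 : b ≠ c) : 4 * (a + b + c) + WZ.b₂ = 0 := by
  rw [cub] at ha hb hc
  have k1 : 4 * (a ^ 2 + a * b + b ^ 2) + WZ.b₂ * (a + b) + 2 * WZ.b₄ = 0 :=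
    mul_left_cancel₀ (sub_ne_zero.2 h1) (by linear_combination ha - hb)
  have k2 : 4 * (a ^ 2 + a * c + c ^ 2) + WZ.b₂ * (a + c) + 2 * WZ.b₄ = 0 :=
    mul_left_cancel₀ (sub_ne_zero.2 h2) (by linear_combination ha - hc)
  exact mul_left_cancel₀ (sub_ne_zero.2 h3) (by linear_combination k1 - k2)

theorem ubx_th (hw : w.p = 2) : ∃ θ : I3 → Qbar, (∀ (g : Gam) (i : I3), g (θ i) = θ (pm g i)) ∧
    (∀ i, w.V (θ i) ^ 3 = w.V 2) ∧ w.V (∑ i, θ i) ≤ w.V 2 := by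
  obtain ⟨σ, hσ, e⟩ := ubx_two hw
  have h1 : ∀ i : I3, xc (σ ^ i.val) = i := fun i => by
    rw [ubx_pow (cfa_le hw hσ) e, ZMod.natCast_zmod_val]
  have h2 : ∀ i : I3, cub ((σ ^ i.val) e0) = 0 := fun i => by rw [← map_cub, cub_e0, map_zero]
  have h3 : ∀ {i j : I3}, i ≠ j → (σ ^ i.val) e0 ≠ (σ ^ j.val) e0 := fun {i j} k l =>
    k (by rw [← h1 i, (ubx_eq _ _).1 l, h1])
  refine ⟨fun i => 2 * (σ ^ i.val) e0, fun g i => ?_, fun i => cfa_val hw (h2 i), ?_⟩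
  · rw [map_mul, map_ofNat, ← AlgEquiv.mul_apply, (ubx_eq _ (σ ^ (pm g i).val)).2]
    rw [← ubx_pm, pm_mul, ubx_pm, h1, h1]
  · obtain ⟨k, hk⟩ := a1_even
    have h4 := ubx_sum (h2 0) (h2 1) (h2 2) (h3 (by decide)) (h3 (by decide)) (h3 (by decide))
    rw [WeierstrassCurve.b₂, hk] at h4
    rw [sum_I3, show 2 * (σ ^ (0 : I3).val) e0 + 2 * (σ ^ (1 : I3).val) e0 +
      2 * (σ ^ (2 : I3).val) e0 = 2 * ((-(k ^ 2 + WZ.a₂) : ℤ) : Qbar) by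
        push_cast at h4 ⊢
        linear_combination h4 / 2, map_mul]
    exact mul_le_of_le_one_right' (w.V_int_le _)

end

theorem bx_stmt : BXStmt := fun [Cp] =>
  { odd := fun _ hw _ hσ => ubx_odd hw hσ
    two := fun _ hw => ⟨cfa_le hw, ubx_fr2 hw, ubx_two hw⟩
    hl := ubx_hl
    ine := fun _ h => ⟨cmz_ine h.1 h.2, ubx_fr h, fun k =>
      ubx_nd h ((dvd_neg.2 (Int.natCast_dvd_natCast.2 k)).mul_left 2)⟩
    tm := fun w h => tm_inert h.1 (cmz_ine h.1 h.2) (fr_spec w) (ubx_fr h) (gn_spec h.1)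
    dec := fun _ h _ hg => ubx_dec h hg
    cj := fun w _ h e => conj_of_inert e (fr_spec w).1 (h.elim ubx_fr2 ubx_fr)
    ram := fun _ h => (cmh_gen ok2 NN_sqf h).2 _ (gn_spec (cmh_gen ok2 NN_sqf h).1)
    aw := fun _ => ubx_aw
    th := fun _ => ubx_th }

end Pool.Agent.B10
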