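import Pool.Agent.Lib.MP_696deb_nt.B10.UZ
import Pool.Agent.Lib.MP_696deb_nt.B2.TW2
import Pool.Agent.Lib.MP_696deb_nt.B2.CH2

/-! The choice of a prime with prescribed Frobenius element. -/

set_option autoImplicit false

open Finset
open scoped Classical

namespace Pool.Agent.B10
open Pool.Agent.Lib.MP_696deb_nt Pool.Agent.Lib.MP_696deb_nt.B2

theorem dp_stmt : DPStmt := by
  intro D U A _ k t x s B hD hn hU hn' hA h1 h2 m2 hs
  obtain ⟨V, v1, v2, v3⟩ := exists_normal_le (op_kerOn hD h1 h2)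
  have hV : Op ((kerOn D x h2).normalCore ⊓ U) :=
    Op.inf (Subgroup.isOpen_mono (Subgroup.normal_le_normalCore.2 v3) v1) hU
  obtain ⟨B', hB⟩ := finite_ram hV
  obtain ⟨w, φ, a, k1, k2, k3, k4⟩ := cheb _ s (k + 1 + t) (B ∪ B') hV inferInstance
    ⟨by
      rw [pow_add, pow_mul]
      refine pow_mem (fun h => ?_) _
      have m3 := hn.conj_mem _ m2 h
      rw [show h * s ^ 2 ^ (k + 1) * h⁻¹ = (h * (s * s) * h⁻¹) ^ 2 ^ k by
        rw [conj_pow, pow_succ', pow_mul, pow_two]]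
      exact ⟨pow_mem m3 _, by rw [tw_hom_pow h2 m3, hA]⟩,
    by rw [pow_add, mul_comm, pow_mul]; exact pow_mem hs _⟩
  have k5 : (fr w)⁻¹ * s ^ a ∈ (kerOn D x h2).normalCore ⊓ U := by
    simpa [mul_assoc] using mul_mem (inv_mem (hB w (fun h => k1 (mem_union_right _ h))
      (k2.inv_mul_mem (fr_spec w)))) k4
  obtain ⟨u, hu, e⟩ : ∃ u ∈ (kerOn D x h2).normalCore, fr w = s ^ a * u :=
    ⟨_, inv_mem k5.1, by group⟩
  have k6 := Subgroup.normalCore_le _ hu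
  have k7 := Subgroup.normalCore_le _ ((Subgroup.normalCore_normal _).conj_mem _ hu (s ^ a)⁻¹)
  refine ⟨w, a, fun h => k1 (mem_union_left _ h), k3,
    ⟨(Subgroup.normalCore_le _ k5.1).1, k5.2⟩, ?_⟩
  have e2 : fq w = (s * s) ^ a * ((s ^ a)⁻¹ * u * (s ^ a)⁻¹⁻¹ * u) := by
    rw [fq, ← pow_two s, ← pow_mul, two_mul a, pow_add _ a, e]
    generalize s ^ a = y
    group
  rw [e2, h2 _ (pow_mem m2 _) _ (mul_mem k7.1 k6.1), h2 _ k7.1 _ k6.1, k7.2, k6.2, add_zero,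
    add_zero, tw_hom_pow h2 m2]

end Pool.Agent.B10
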