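import Pool.Agent.Lib.MP_696deb_nt.B10.UZ
import Pool.Agent.Lib.MP_696deb_nt.B6.MTA
import Pool.Agent.Lib.MP_696deb_nt.B8.CFa

/-! Elements whose square acts on the points of order four as minus one. -/

set_option autoImplicit false

open Matrix

namespace Pool.Agent.B10
open Pool.Agent.Lib.MP_696deb_nt Pool.Agent.Lib.MP_696deb_nt.B2 Pool.Agent.B6 Pool.Agent.B8

/-- Matrices modulo four. -/
abbrev ue4M : Type := Matrix (Fin 2) (Fin 2) (ZMod (2 ^ 2))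

/-- Reduction modulo two. -/
def ue4r (A : ue4M) : Matrix (Fin 2) (Fin 2) Z2 := A.map ZMod.cast

theorem ue4_red (A : B2.M2) : ue4r (mred 2 A) = mred 1 A :=
  Matrix.ext fun i j => PadicInt.cast_toZModPow 1 2 one_le_two (A i j)

set_option synthInstance.maxSize 2000 in
theorem ue4_a : ∀ a b c d : ZMod (2 ^ 2), a * d - b * c = 1 →
    ue4r !![a, b; c, d] * ue4r !![a, b; c, d] * ue4r !![a, b; c, d] ≠ 1 →
    !![a, b; c, d] * !![a, b; c, d] = -1 ∨ ∀ e f g h : ZMod (2 ^ 2), e * h - f * g = 1 →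
      e + h = 2 → ue4r !![e, f; g, h] ≠ 1 → ue4r !![e, f; g, h] ≠ ue4r !![a, b; c, d] →
      !![a, b; c, d] * (!![e, f; g, h] * !![e, f; g, h]) *
        (!![a, b; c, d] * (!![e, f; g, h] * !![e, f; g, h])) = -1 := by
  decide +kernel

theorem ue4_b {A U : ue4M} (h1 : A.det = 1) (h2 : ue4r A * ue4r A * ue4r A ≠ 1) (h3 : U.det = 1)
    (h4 : U.trace = 2) (h5 : ue4r U ≠ 1) (h6 : ue4r U ≠ ue4r A) :
    A * A = -1 ∨ A * (U * U) * (A * (U * U)) = -1 := by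
  rw [det_fin_two] at h1 h3
  rw [trace_fin_two] at h4
  rw [A.eta_fin_two] at h2 h6 ⊢
  rw [U.eta_fin_two] at h5 h6 ⊢
  exact (ue4_a _ _ _ _ h1 h2).imp_right fun k => k _ _ _ _ h3 h4 h5 h6

theorem ue4_c : ∀ G G' U : Matrix (Fin 2) (Fin 2) Z2, G * G' = 1 → U * U * U ≠ 1 → U.det = 1 →
    G * U * G' = U → ∃ x, x ≠ 0 ∧ G *ᵥ x = x := by
  simp only [det_fin_two]
  decide +kernel

section

variable [Cs] (T : B6.TB)

theorem ue4_of {g : Gam} (h : mred 2 (T.ρ g) * mred 2 (T.ρ g) = -1) : E4 g := fun P hP => by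
  obtain ⟨x, rfl⟩ := T.surj 2 P hP
  rw [T.smul, map_mul, mred_mul, h, neg_mulVec, one_mulVec, map_neg]

theorem ue4_gen {v : Plc} (hv : v.p ∣ NN) {τ : Gam} (hτ : Gen v τ) :
    (mred 2 (T.ρ τ)).det = 1 ∧ (mred 2 (T.ρ τ)).trace = 2 := by
  obtain ⟨B, -, -, h1, h2, -⟩ := T.mult v hv
  obtain ⟨c, h3, -⟩ := h2 τ hτ.1
  have h4 : B * B.adjugate = 1 := by rw [mul_adjugate, h1, one_smul]
  have h5 : B.adjugate * B = 1 := by rw [adjugate_mul, h1, one_smul]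
  have h6 : T.ρ τ = B * !![1, c; 0, 1] * B.adjugate := by rw [← h3, mul_assoc, h4, mul_one]
  have h7 := congrArg det h3
  rw [det_mul, det_mul, h1, mul_one, one_mul, det_fin_two_of, mul_one, mul_zero, sub_zero] at h7
  refine ⟨by rw [mred_det, h7, map_one], ?_⟩
  rw [mred_trace, h6, trace_mul_comm, ← mul_assoc, h5, one_mul, trace_fin_two_of,
    one_add_one_eq_two, map_ofNat]

end

theorem e4_stmt : E4Stmt := by
  intro _ s w hs h1 hw
  obtain ⟨T, -⟩ := B6.exists_TB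
  obtain ⟨τ, hτ⟩ := exists_gen (ne_two_of_dvd hw)
  have a1 : (mred 2 (T.ρ s)).det = 1 := by
    rw [mred_det, T.det]
    exact h1
  have a2 : mred 1 (T.ρ s) * mred 1 (T.ρ s) * mred 1 (T.ρ s) ≠ 1 := fun e => by
    have k := T.chi_one (g := s * s * s) (by rw [map_mul, map_mul, mred_mul, mred_mul, e])
    rw [map_mul, map_mul, Int.units_mul_self, one_mul] at k
    exact hs (cfa_gk.2 k)
  have key : ∀ (v : Plc) (τ : Gam), v.p = w.p → Gen v τ → mred 1 (T.ρ τ) ≠ mred 1 (T.ρ s) →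
      E4 s ∨ ∃ v : Plc, v.p = w.p ∧ ∃ τ ∈ Ine v, E4 (s * (τ * τ)) := fun v τ hv hτ e => by
    obtain ⟨b1, b2⟩ := ue4_gen T (hv ▸ hw) hτ
    refine (ue4_b a1 (by rwa [ue4_red]) b1 b2 (by rw [ue4_red]; exact T.gen_ne (hv ▸ hw) hτ)
      (by rwa [ue4_red, ue4_red])).imp (ue4_of T) fun k => ⟨v, hv, τ, hτ.1, ue4_of T ?_⟩
    rwa [map_mul, map_mul, mred_mul, mred_mul]
  by_cases e : mred 1 (T.ρ τ) = mred 1 (T.ρ s)
  swap
  · exact key w τ rfl hτ e
  obtain ⟨γ, hγ⟩ := un_three cub_irr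
  refine key (γ • w) (γ * τ * γ⁻¹) rfl ⟨mem_Ine_smul.2 (by simpa [mul_assoc] using hτ.1), by
    rw [smul_p, map_mul, map_mul, map_inv, hτ.2, mul_right_comm, mul_inv_cancel, one_mul]⟩
    fun k => ?_
  rw [map_mul, map_mul, mred_mul, mred_mul, e] at k
  obtain ⟨x, x0, hx⟩ := ue4_c _ _ _ (by rw [← mred_mul, ← map_mul, mul_inv_cancel, map_one,
    mred_one]) a2 (by rw [mred_det, T.det]; exact cy_one_eq s) k
  have e := congrArg xco (T.smul 1 γ x)
  rw [hx, B6.xco_smul] at e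
  rcases B6.cub_eq_zero.1 ((B6.two_iff.1 (T.tors 1 x)).resolve_left fun k =>
    x0 (T.inj 1 (k.trans (map_zero _).symm))) with k | k | k <;> exact hγ _ (k ▸ e)

end Pool.Agent.B10
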