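import Pool.Agent.Lib.MP_696deb_nt.B10.UZ

/-! All primes are replaced by primes of the wanted kind. -/

set_option autoImplicit false

open NumberField NumberTheorySymbols Finset
open scoped Classical NNReal

namespace Pool.Agent.B10
open Pool.Agent.Lib.MP_696deb_nt Pool.Agent.Lib.MP_696deb_nt.B2 Pool.Agent.Lib.MP_696deb_nt.B2.CM
  Pool.Agent.B6 Pool.Agent.B4 Pool.Agent.B8

theorem ufn_mono [Cp] {S T : Finset Plc} (h : Ad S) (k : T ⊆ S) : Ad T :=
  ⟨fun w hw => h.1 w (k hw), h.2.mono (coe_subset.2 k)⟩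

theorem ufn_good (V1 : V1Stmt) [Cp] (U : US) (X : Bx) (M : Bm) (K : U.Kd) {m : ℕ} (B : Finset ℕ)
    (hm : m ≠ 0) (hc : m.Coprime NN) (N : ℕ) : ∀ S : Finset Plc,
    (S.filter fun l => ¬ Gd m B l).card = N → Ad S → ¬ U.Dv S 1 → ∃ S' : Finset Plc,
      S'.card ≤ S.card ∧ Ad S' ∧ (∀ l ∈ S', Gd m B l) ∧ ¬ U.Dv S' 1 := by
  induction N with
  | zero =>
    intro S h a d
    exact ⟨S, le_rfl, a, fun l hl => not_not.1 (filter_eq_empty_iff.1 (card_eq_zero.1 h) hl), d⟩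
  | succ N ih =>
    intro S h a d
    obtain ⟨p, hp⟩ := card_pos.1 (N.succ_pos.trans_eq h.symm)
    obtain ⟨p1, p2⟩ := mem_filter.1 hp
    have e := insert_erase p1
    have c : ((S.erase p).filter fun l => ¬ Gd m B l).card = N := by
      rw [filter_erase, card_erase_of_mem hp, h]
      rfl
    rcases V1 U m B p (S.erase p) X M K hm hc (notMem_erase _ _) (e.symm ▸ a) (e.symm ▸ d) with
      k | ⟨l, l1, l2, l3, l4⟩
    · obtain ⟨S', s, r⟩ := ih _ c (ufn_mono a (erase_subset _ _)) k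
      exact ⟨S', s.trans card_erase_le, r⟩
    · obtain ⟨S', s, r⟩ := ih _ (by rw [filter_insert, if_neg (not_not.2 l1), c]) l3 l4
      exact ⟨S', s.trans (by rw [card_insert_of_notMem l2, card_erase_add_one p1]), r⟩

theorem fn_stmt (KP : KPStmt) (V1 : V1Stmt) (V2 : V2Stmt) : FNStmt := by
  intro _ U w X M K I hw
  obtain ⟨S0, a0, d0⟩ := KP U X M K I
  refine ⟨S0.card + 1, fun m B hm hc => ?_⟩
  obtain ⟨S1, c1, a1, g1, d1⟩ := ufn_good V1 U X M K B hm hc _ S0 rfl a0 d0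
  obtain ⟨S, c, a, g, k⟩ : ∃ S : Finset Plc, S.card ≤ S0.card + 1 ∧ Ad S ∧ (∀ l ∈ S, Gd m B l) ∧
      U.n S ∉ K5 w := by
    rcases V2 U m B w S1 X M K hm hc hw a1 d1 with k | ⟨l, l1, l2, l3, l4⟩
    · exact ⟨S1, by omega, a1, g1, k⟩
    · refine ⟨insert l S1, by rw [card_insert_of_notMem l2]; omega, l3, fun v hv => ?_, l4⟩
      rcases mem_insert.1 hv with rfl | hv
      exacts [l1, g1 v hv]
  by_contra! h
  refine k (sum_mem fun T hT => zsmul_mem (h T ((card_le_card (mem_powerset.1 hT)).trans c)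
    (ufn_mono a (mem_powerset.1 hT)) fun l hl => g l (mem_powerset.1 hT hl)) _)

end Pool.Agent.B10
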