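import Pool.Agent.Lib.MP_696deb_nt.B10.UZ
import Pool.Agent.Lib.MP_696deb_nt.B6.GW
import Pool.Agent.Lib.MP_696deb_nt.B2.CF
import Pool.Agent.Lib.MP_696deb_nt.B2.CFc
import Pool.Agent.Lib.MP_696deb_nt.B2.CH2
import Pool.Agent.Lib.MP_696deb_nt.B2.LO2

/-! The formula of Greenberg and Wiles at the start and the reciprocity law. -/

set_option autoImplicit false

open NumberField NumberTheorySymbols Finset
open scoped Classical NNReal

namespace Pool.Agent.B10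
open Pool.Agent.Lib.MP_696deb_nt Pool.Agent.Lib.MP_696deb_nt.B2 Pool.Agent.Lib.MP_696deb_nt.B2.CM
  Pool.Agent.B6 Pool.Agent.B4 Pool.Agent.B8
open Pool.Agent.Lib.MP_696deb_nt.B6 (Act0 Dual3 N2 gw3 gw_recip0 card_Z1_B13 B1_le0 cob_coc0
  inv_cupb_right0)

theorem ugb_card (j : ℕ) : Nat.card (Mv j) = 4 ^ j := by
  have e : Mv j ≃ ZMod (2 ^ j) × ZMod (2 ^ j) :=
    { toFun := fun x => (x.1 0, x.1 1)
      invFun := fun y => ⟨![y.1, y.2, -y.1 - y.2], (sum_I3 _).trans (by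
        change y.1 + y.2 + (-y.1 - y.2) = 0
        ring)⟩
      left_inv := fun x => Subtype.ext (funext fun i => by
        have h : x.1 0 + x.1 1 + x.1 2 = 0 := (sum_I3 _).symm.trans x.2
        fin_cases i
        · rfl
        · rfl
        · change -x.1 0 - x.1 1 = x.1 2
          linear_combination -h)
      right_inv := fun _ => rfl }
  rw [Nat.card_congr e, Nat.card_prod, Nat.card_zmod, ← mul_pow]
  rfl

section
variable [Cp] {j : ℕ} {w v : Plc} {S : Finset Plc}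

theorem ugb_away (X : Bx) (hw : w.p = 2) (hS : Ad S) (h : Away (GK NN) (insert w S) v) :
    v.p ≠ 2 ∧ ∀ u ∈ S, u.p ≠ v.p := by
  refine ⟨fun e => ?_, fun u hu e => ?_⟩
  · obtain ⟨g, hg, k⟩ := X.cj w v (.inl hw) (e.trans hw.symm)
    exact h w (mem_insert_self _ _) g hg k
  · obtain ⟨g, hg, k⟩ := X.cj u v (.inr (hS.1 u hu)) e.symm
    exact h u (mem_insert_of_mem hu) g hg k

theorem ugb_apart (hw : w.p = 2) (hS : Ad S) : Apart (GK NN) (insert w S) := by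
  intro u hu v hv g _ e
  have k : u.p = v.p := by rw [← e, smul_p]
  rcases mem_insert.1 hu with a | a <;> rcases mem_insert.1 hv with b | b
  · rw [a, b]
  · exact absurd (by rw [← k, a, hw]) (hS.1 _ b).1
  · exact absurd (by rw [k, b, hw]) (hS.1 _ a).1
  · exact hS.2 a b k

theorem ugb_ine (X : Bx) (M : Bm) (e : ℕ) (hv : v.p ≠ 2) {σ : Gam} (hσ : σ ∈ GK NN ⊓ Ine v)
    (x : Mv j) : am e j σ x = x :=
  M.triv e j σ hσ.1 (X.odd v hv σ hσ) (by rw [cy, cyc_ine hv hσ.2, map_one, one_pow]) x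

theorem ugb_good (X : Bx) (M : Bm) (hw : w.p = 2) (hS : Ad S) (e : ℕ) :
    GoodA (GK NN) (am e j) (insert w S) := fun _ h =>
  ⟨(ugb_away X hw hS h).1, fun _ hσ => ugb_ine X M e (ugb_away X hw hS h).1 hσ⟩

theorem ugb_ad : Ad ∅ := ⟨by simp, by simp⟩

theorem ugb_ur (X : Bx) (hw : w.p = 2) {c : Gam → Mv j} : Ur ∅ c ↔
    ∀ v, Away (GK NN) (insert w ∅) v → ∀ σ ∈ GK NN ⊓ Ine v, c σ = 0 :=
  ⟨fun h v k => h v (ugb_away X hw ugb_ad k).1 (by simp), fun h v k _ => h v fun u hu g _ e => by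
    rw [insert_empty, mem_singleton] at hu
    exact k (by rw [← e, smul_p, hu, hw])⟩

theorem ugb_inj (X : Bx) (M : Bm) (hw : w.p = 2) {e : ℕ} {x y : Mv j}
    (h : ∀ g ∈ GK NN ⊓ Dec w, cob (am e j) x g = cob (am e j) y g) : x = y := by
  obtain ⟨h1, -, σ, hσ, k⟩ := X.two w hw
  exact (M.fpf e j σ (h1 hσ) (by rw [k]; decide)).1 (h σ ⟨h1 hσ, Ine_le w hσ⟩)

theorem ugb_B1 (X : Bx) (M : Bm) (hw : w.p = 2) (e : ℕ) :
    Nat.card (B1 (GK NN ⊓ Dec w) (am e j)) = 4 ^ j := by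
  rw [← ugb_card]
  exact (Nat.card_congr (AddMonoidHom.ofInjective (f := cobH (GK NN ⊓ Dec w) (am e j))
    fun x y h => ugb_inj X M hw fun g hg => by
      have := congrFun h g
      rwa [cobH_apply, cobH_apply, rs_of_mem hg, rs_of_mem hg] at this).toEquiv).symm

theorem ugb_sel (X : Bx) (hw : w.p = 2) : Nonempty (Sg j ≃ Sel (GK NN) (am 1 j) (insert w ∅) ∅
    (insert w ∅) fun v => Z1 (GK NN ⊓ Dec v) (am 1 j)) :=
  ⟨{ toFun := fun c => ⟨(c.1, 0), c.2.1, (ugb_ur X hw).1 c.2.2, by simp, fun _ _ => rfl,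
        fun _ _ => (c.2.1.1.lo_mono inf_le_left).lo_rs⟩
     invFun := fun z => ⟨z.1.1, z.2.1, (ugb_ur X hw).2 z.2.2.1⟩
     left_inv := fun _ => rfl
     right_inv := fun z => Subtype.ext (Prod.ext rfl (funext fun v =>
       (z.2.2.2.2.1 v (notMem_empty v)).symm)) }⟩

theorem ugb_cob (X : Bx) (M : Bm) (e : ℕ) (x : Mv j) :
    rs (GK NN) (cob (am e j) x) ∈ Z1 (GK NN) (am e j) ∧ Ur ∅ (rs (GK NN) (cob (am e j) x)) :=
  ⟨(cob_coc0 ((M.act e j).mono le_top) x).lo_rs, fun v hv _ σ hσ => by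
    rw [rs_of_mem hσ.1, cob, ugb_ine X M e hv hσ, sub_self]⟩

theorem ugb_sel' (X : Bx) (M : Bm) (hw : w.p = 2) : Nat.card (Bs j w ∅ × Mv j) = Nat.card
    (Sel (GK NN) (am 0 j) (insert w ∅) ∅ (insert w ∅) fun v => B1 (GK NN ⊓ Dec v) (am 0 j)) := by
  refine Nat.card_eq_of_bijective (fun c => ⟨(c.1.1 + rs (GK NN) (cob (am 0 j) c.2), 0),
    add_mem c.1.2.1 (ugb_cob X M 0 c.2).1, (ugb_ur X hw).1 fun v a b σ hσ => by
      dsimp only
      rw [Pi.add_apply, c.1.2.2.1 v a b σ hσ, (ugb_cob X M 0 c.2).2 v a b σ hσ, add_zero],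
    by simp, fun _ _ => rfl, fun v hv => ⟨c.2, funext fun g => ?_⟩⟩) ⟨fun c c' h => ?_, fun z => ?_⟩
  · rw [insert_empty, mem_singleton] at hv
    subst hv
    dsimp only
    by_cases hg : g ∈ GK NN ⊓ Dec v
    · rw [cobH_apply, rs_of_mem hg, rs_of_mem hg, Pi.add_apply, c.1.2.2.2.1 g hg, rs_of_mem hg.1,
        zero_add]
    · rw [cobH_apply, rs_of_notMem hg, rs_of_notMem hg]
  · have h1 : c.1.1 + rs (GK NN) (cob (am 0 j) c.2) = c'.1.1 + rs (GK NN) (cob (am 0 j) c'.2) :=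
      congrArg (fun z => z.1.1) h
    have h2 : c.2 = c'.2 := ugb_inj X M hw (e := 0) fun g hg => by
      have := congrFun h1 g
      rwa [Pi.add_apply, Pi.add_apply, c.1.2.2.2.1 g hg, c'.1.2.2.2.1 g hg, rs_of_mem hg.1,
        rs_of_mem hg.1, zero_add, zero_add] at this
    rw [h2] at h1
    exact Prod.ext (Subtype.ext (add_right_cancel h1)) h2
  · obtain ⟨⟨c, r⟩, h1, h2, h3, h4, h5⟩ := z
    dsimp only at h1 h2 h4 h5
    obtain ⟨x, hx⟩ := h5 w (mem_insert_self _ _)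
    refine ⟨(⟨c - rs (GK NN) (cob (am 0 j) x), sub_mem h1 (ugb_cob X M 0 x).1, fun v a b σ hσ => ?_,
      fun g hg => ?_, by simp⟩, x), Subtype.ext (Prod.ext (sub_add_cancel _ _)
        (funext fun v => (h4 v (notMem_empty v)).symm))⟩
    · rw [Pi.sub_apply, (ugb_ur X hw).2 h2 v a b σ hσ, (ugb_cob X M 0 x).2 v a b σ hσ, sub_zero]
    · have := congrFun hx g
      rw [cobH_apply, rs_of_mem hg, rs_of_mem hg] at this
      rw [Pi.sub_apply, rs_of_mem hg.1, this, sub_self]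

end

theorem gb_stmt : GBStmt := fun [Cp] j w X M hw => by
  obtain ⟨F⟩ := exists_cft
  obtain ⟨sig, hd⟩ := M.dual
  have hl : Dual3 sig j (GK NN ⊓ Dec w) (am 1 j) (am 0 j) (bm j) := (hd j).mono inf_le_left
  have h0 := card_Z1_B13 F (op_GK NN) hl.flip
  have h2 : ldeg (GK NN) w = 2 := by
    rw [ldeg, if_pos hw, relIndex_inert (fr_spec w).1 (X.two w hw).2.1]
  obtain ⟨f, h⟩ := gw3 F su cheb sig j (GK NN) (Mv j) (Mv j) (am 1 j) (am 0 j) (bm j) (insert w ∅)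
    ∅ ∅ (insert w ∅) (fun v => Z1 (GK NN ⊓ Dec v) (am 1 j)) (fun v => B1 (GK NN ⊓ Dec v) (am 0 j))
    (op_GK NN) (tc_of_le NN_pos le_rfl) (hd j) (ugb_apart hw ugb_ad) (by simp) (by simp) (by simp)
    (by simp) (by simp) (ugb_good X M hw ugb_ad 1) fun v hv => by
      rw [insert_empty, mem_singleton] at hv
      subst hv
      refine ⟨⟨le_rfl, fun x => (cob_coc0 hl.zero.act x).lo_rs⟩,
        ⟨B1_le0 hl.zero.act', fun x => ⟨x, rfl⟩⟩, ?_, h0.ge⟩
      rintro c hc _ ⟨y, rfl⟩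
      exact inv_cupb_right0 F (op_GK NN) hl.zero hc.1 (y := y) fun g hg => rs_of_mem hg _
  obtain ⟨e⟩ := ugb_sel (j := j) X hw
  have f1 : Finite (Sg j) := Finite.of_equiv _ e.symm
  have p1 : 0 < Nat.card (Sg j) := by rw [Nat.card_congr e]; exact Nat.card_pos
  have p4 : 0 < 4 ^ j := by positivity
  rw [← Nat.card_congr e, ← ugb_sel' X M hw, Nat.card_prod, ugb_card, index_GK NN_pos, insert_empty,
    prod_singleton, card_singleton] at h
  rw [ugb_B1 X M hw, ugb_card, h2] at h0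
  have h3 : Nat.card (Sg j) = 16 ^ j * Nat.card (Bs j w ∅) := by
    refine Nat.eq_of_mul_eq_mul_right (pow_pos p4 2) ?_
    rw [h, mul_assoc, mul_comm (4 ^ j), h0, show 16 = 4 * 4 from rfl, mul_pow]
    ring
  exact ⟨f1, Nat.finite_of_card_ne_zero fun k => p1.ne' (by rw [h3, k, mul_zero]), h3⟩

theorem rc_stmt : RCStmt := fun [Cp] F j w l S κ ξ X M hw hS hl hj hκ hξ uκ uξ h0 h1 => by
  obtain ⟨sig, hd⟩ := M.dual
  have h := gw_recip0 F (op_GK NN) (tc_of_le NN_pos le_rfl) (hd j).zero (ugb_apart hw hS)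
    (ugb_good X M hw hS 1) hκ hξ
    (fun v k => uκ v (ugb_away X hw hS k).1 (ugb_away X hw hS k).2)
    (fun v k => uξ v (ugb_away X hw hS k).1 (ugb_away X hw hS k).2)
  have k : ∀ v ∈ S, ∃ u : (ZMod (2 ^ j))ˣ, F.inv j (GK NN) v (cupb (bm j) (am 0 j) κ ξ) =
      u * (bm j (κ (fq v)) (ξ (gn v)) - bm j (κ (gn v)) (ξ (fq v))) := fun v hv => by
    have t := X.tm v (hS.1 v hv)
    have q := lo2_sq (v.prime.odd_of_ne_two t.odd) (hj v hv)
    have a : ∀ e, ∀ g ∈ GK NN ⊓ Dec v, ∀ x, am e j g x = x := fun e g hg =>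
      M.triv e j g hg.1 (X.dec v (hS.1 v hv) g hg) (by rw [t.cy_one (lo2_red q) hg, one_pow])
    obtain ⟨u, hu⟩ := t.deep_inv q
    exact ⟨u, hu F _ _ _ _ _ _ _ (M.kil j) (M.kil j) (a 1) (a 0) (hκ.lo_mono inf_le_left)
      (hξ.lo_mono inf_le_left)⟩
  rw [sum_insert fun e => (hS.1 w e).1 hw, h0, zero_add, sum_eq_single_of_mem l hl fun v hv e => by
    obtain ⟨u, hu⟩ := k v hv
    rw [hu, h1 v hv e, sub_self, mul_zero]] at h
  obtain ⟨u, hu⟩ := k l hl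
  rwa [hu, Units.mul_right_eq_zero, sub_eq_zero] at h

end Pool.Agent.B10
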