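import Pool.Agent.Lib.MP_696deb_nt.B10.UWP
import Pool.Agent.Lib.MP_696deb_nt.B8.A0
import Pool.Agent.Lib.MP_696deb_nt.B8.A2a
import Pool.Agent.Lib.MP_696deb_nt.B8.A2b
import Pool.Agent.Lib.MP_696deb_nt.B8.A3
import Pool.Agent.Lib.MP_696deb_nt.B8.A4
import Pool.Agent.Lib.MP_696deb_nt.B8.CFa
import Pool.Agent.Lib.MP_696deb_nt.B8.KR
import Pool.Agent.Lib.MP_696deb_nt.B8.LC
import Pool.Agent.Lib.MP_696deb_nt.B8.SEL

/-! The index of the basic unit divides the class number. -/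

set_option autoImplicit false

open NumberField NumberTheorySymbols Finset
open scoped Classical NNReal

namespace Pool.Agent.B10
open Pool.Agent.Lib.MP_696deb_nt Pool.Agent.Lib.MP_696deb_nt.B2 Pool.Agent.Lib.MP_696deb_nt.B2.CM
  Pool.Agent.B6 Pool.Agent.B4 Pool.Agent.B8
open Pool.Agent.Lib.MP_696deb_nt.B3.CM (th)
open Pool.Agent.H3.T (Lam)

/-- A relation between logarithms with an odd exponent makes a unit a square. -/
theorem uix_sq {L : Type} [Field L] (ι : L →+* ℂ) (him : ∀ x, (ι x).im = 0) {ε : (𝓞 L)ˣ} {z : L}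
    (hz : z ≠ 0) {k m : ℕ} (hm : Odd m)
    (h : 2 * k * Real.log ‖ι z‖ + m * Real.log ‖ι (ε : 𝓞 L)‖ = 0) :
    IsSquare ε ∨ IsSquare (-ε) := by
  obtain ⟨m, rfl⟩ := hm
  have e0 : ((ε : 𝓞 L) : L) ≠ 0 := by simp
  have p1 : 0 < ‖ι z‖ := norm_pos_iff.2 ((map_ne_zero _).2 hz)
  have p2 : 0 < ‖ι (ε : 𝓞 L)‖ := norm_pos_iff.2 ((map_ne_zero _).2 e0)
  obtain ⟨y, hy⟩ : ∃ y : L, y = z ^ k * (ε : 𝓞 L) ^ m := ⟨_, rfl⟩
  have y0 : y ≠ 0 := hy ▸ mul_ne_zero (pow_ne_zero _ hz) (pow_ne_zero _ e0)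
  have h1 : ‖ι ((ε : 𝓞 L) * y ^ 2)‖ = 1 := by
    refine Real.eq_one_of_pos_of_log_eq_zero
      (norm_pos_iff.2 ((map_ne_zero _).2 (mul_ne_zero e0 (pow_ne_zero _ y0)))) ?_
    rw [hy, map_mul, map_pow, map_mul, map_pow, map_pow, norm_mul, norm_pow, norm_mul, norm_pow,
      norm_pow, Real.log_mul p2.ne' (by positivity), Real.log_pow,
      Real.log_mul (by positivity) (by positivity), Real.log_pow, Real.log_pow]
    push_cast at h ⊢
    linarith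
  have h2 : ((ε : 𝓞 L) * y ^ 2 : L) ^ 2 = 1 := ι.injective (by
    rw [map_pow, map_one, sq, ← Complex.conj_eq_iff_im.2 (him _)]
    nth_rw 1 [Complex.conj_eq_iff_im.2 (him _)]
    rw [Complex.mul_conj', h1]
    simp)
  rcases sq_eq_one_iff.1 h2 with e | e
  · refine .inl (sel_unit (sel_root ⟨y⁻¹, ?_⟩))
    field_simp
    exact e
  · refine .inr (sel_unit (sel_root ⟨y⁻¹, ?_⟩))
    simp only [Units.val_neg, map_neg]
    field_simp
    linear_combination -e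

theorem uix_disc [Ce] {θ : B8.Lc} (hθ : Cb B8.Lc θ) : discr B8.Lc < 0 := by
  obtain ⟨j, -, hj⟩ := a3_stmt _ θ hθ
  obtain ⟨k, ok, hk⟩ := exists_s
  have h1 : (0 : ℤ) < NN * k ^ 2 := by
    have := ok.pos
    have := NN_gt3
    positivity
  by_contra hc
  have := mul_nonneg (not_lt.1 hc) (sq_nonneg (j : ℤ))
  omega

theorem ix_stmt (WP : WPStmt) : IXStmt := by
  rintro _ Y U bx bm hY lk kd r ⟨Z, hZ, e⟩
  have f1 := Fintype.ofFinite (Pc NN 1)
  have := Fintype.ofFinite (Pc NN (2 * 1))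
  have ad : Ad ∅ := ⟨by simp, by simp⟩
  have e1 : 2 ^ r • Z = mT Y 1 ∅ := by
    rw [e, US.n, powerset_empty, sum_singleton, sdiff_self, bot_eq_empty, prod_empty, one_smul]
    exact @lk ∅ f1 ad (by simp)
  have h1 : ∀ g ∈ GK NN, g • mT Y 1 ∅ = mT Y 1 ∅ := fun g hg => uwp_gal hY aw_one hg (by simp)
  have h2 : ∀ g : Gam, g • Z = Z := fun g => by
    refine sub_eq_zero.1 (kd.tors ∅ ad _ (sub_mem (kd.smul ∅ ad g Z hZ) hZ) r ?_)
    rw [smul_sub, smul_comm, e1, sub_eq_zero]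
    by_cases hg : g ∈ GK NN
    · exact h1 g hg
    · rw [← mul_one g, ← cc_mul_cc, ← mul_assoc, mul_smul, uwp_conj ∅ hY aw_one,
        h1 _ (mul_mem_GK hg uwp_cc)]
  have h3 : co Z 0 ∈ B8.Lc := (IntermediateField.mem_fixedField_iff _ _).2 fun g hg => by
    have k : pm g⁻¹ 0 = 0 := by
      rw [pm, (bx.hl _).1 (inv_mem hg), add_zero, sub_zero, ite_self]
    conv_rhs => rw [← h2 g, co_smul, k]
  obtain ⟨θ, -, hθ, him⟩ := lc_stmt
  obtain ⟨s, i, os, oi, hk⟩ := kr_stmt a0_stmt' (a2_stmt a3_stmt (a2a_stmt cfa_stmt) a2b_stmt)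
    a3_stmt a4_stmt (ps : Pc NN (2 * 1) →* Z3) B8.Lc θ ps_cub hθ
  obtain ⟨ε, hε, n1, n2⟩ := (a4_stmt B8.Lc hθ.rank (uix_disc hθ)).2.2.2
    (jC.comp (algebraMap B8.Lc Qbar)) him
  choose t ht using fun x : Pc NN (2 * 1) => nb_point (nk.ok (by norm_num)) x
  obtain ⟨w, -⟩ := exists_plc Nat.prime_two
  have k1 := hk t ht
  have k2 := congrArg (fun z => Real.log ‖z‖)
    (WP Y 1 ∅ w 1 t bx bm hY aw_one (by simp) ht).1
  rw [← e1, co_nsmul, map_pow, ← pow_mul, norm_pow, Real.log_pow, Complex.norm_real,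
    Real.norm_eq_abs, Real.log_abs, Real.log_exp, filter_true_of_mem (by simp),
    sum_congr rfl fun x _ => by rw [show pj NN 2 (2 * 1) x = x from B3.CM.pj_self (c := 2) x]]
    at k2
  by_contra hr
  obtain ⟨a, o, oo, ho⟩ := Nat.exists_eq_two_pow_mul_odd (classNumber_ne_zero B8.Lc)
  obtain ⟨b, rfl⟩ : ∃ b, r = a + (b + 1) := ⟨r - a - 1, by
    have : ¬ r ≤ a := fun l => hr (ho ▸ (pow_dvd_pow 2 l).mul_right o)
    omega⟩
  refine (uix_sq (jC.comp (algebraMap B8.Lc Qbar)) him (z := ⟨_, h3⟩)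
    (fun l => co_ne Z 0 (congrArg Subtype.val l)) (k := 2 ^ b * s) (oo.mul oi) ?_).elim n1 n2
  rw [← hε, ho] at k1
  refine mul_left_cancel₀ (show (12 * 2 ^ a : ℝ) ≠ 0 by positivity) ?_
  change _ * (_ * Real.log ‖jC (co Z 0)‖ + _) = _
  push_cast at k1 k2 ⊢
  linear_combination k1 - 6 * s * k2

end Pool.Agent.B10
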