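import Pool.Agent.Lib.MP_696deb_nt.B10.UZ
import Pool.Agent.Lib.MP_696deb_nt.B5.GAb

/-! The invariant determines the class; every special point has a class. -/

set_option autoImplicit false

namespace Pool.Agent.B10
open Pool.Agent.Lib.MP_696deb_nt Pool.Agent.Lib.MP_696deb_nt.B2 Pool.Agent.Lib.MP_696deb_nt.B2.CM
  Pool.Agent.B4 Pool.Agent.B8

theorem ujr_j {n c : ℕ} {x : Pc n c} {z : ℂ} (ok : Ok n c) (h : Rp n c z x) : jf z = jP n c x := by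
  rw [← h.eq, jP_cl ok h.iv, jL_tau h.pos]

theorem jr_stmt : JRStmt := fun n hn => by
  have n0 : 0 < n := by have := hn.gt; omega
  refine ⟨fun c x z hc hz e => ?_, fun c x z hc h => ⟨?_, ujr_j (hn.ok hc) h⟩, ?_⟩
  · obtain ⟨I, hI, rfl⟩ := cl_surj x
    rw [jP_cl (hn.ok hc) hI, ← jL_tau hz] at e
    obtain ⟨a, ha, k⟩ := jL_inj (hI.isLat (hn.ok hc)) (isLat_sp2 hz.ne') e.symm
    exact ⟨hz, k ▸ hI.sc ha, by rw [k, cl_sc hI ha]⟩
  · obtain ⟨Q, h1, h2, h3, h4⟩ := exists_form (hn.ok hc) x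
    have h5 := im_froot_pos (h1 ▸ ok_neg (hn.ok hc)) h2
    obtain ⟨g, hg, rfl⟩ := G5.exists_sl h5 h.pos
      ((ujr_j (hn.ok hc) h).trans (ujr_j (hn.ok hc) ⟨h5, h3, h4⟩).symm)
    exact G5.AD.cm_act n0 ⟨Q, c, hc, h2, h1, rfl⟩ (hg ▸ one_pos)
  · rintro _ ⟨R, M, hM, h1, h2, rfl⟩
    obtain ⟨d, c, Q, d0, rfl, rfl, q0, q1, q2⟩ :=
      G5.exists_prim hn.sqf (by have := hn.m8; omega) h2 h1
    have hc := right_ne_zero_of_mul hM
    have hD : fdisc Q < 0 := q1 ▸ ok_neg (hn.ok hc)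
    rw [G5.froot_sm (by exact_mod_cast d0) hD q0]
    exact ⟨c, _, hc, im_froot_pos hD q0, q2, rfl⟩

end Pool.Agent.B10
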