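import Pool.Agent.Lib.MP_696deb_nt.B10.UZ

/-! Many numbers whose ideals are powers. -/

set_option autoImplicit false

open NumberField Finset
open scoped Classical NNReal

namespace Pool.Agent.B10

theorem ukb_sq {L : Type} [Field L] [NumberField L] (u : (𝓞 L)ˣ) (η : L)
    (h : ((u : 𝓞 L) : L) = η ^ 2) : IsSquare u := by
  have hi : IsIntegral ℤ η := IsIntegral.of_pow two_pos (h ▸ (u : 𝓞 L).isIntegral_coe)
  obtain ⟨z, rfl⟩ : ∃ z : 𝓞 L, (z : L) = η := ⟨⟨η, hi⟩, rfl⟩
  have e : (u : 𝓞 L) = z * z := RingOfIntegers.ext (by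
    rw [h, sq]; rfl)
  have hu : IsUnit z := isUnit_of_mul_isUnit_left (e ▸ u.isUnit)
  exact ⟨hu.unit, Units.ext (by rw [Units.val_mul, hu.unit_spec]; exact e)⟩

theorem ukb_exp {L : Type} [Field L] [NumberField L] (φ : L →+* ℝ) (ε : (𝓞 L)ˣ)
    (h1 : ¬ IsSquare ε) (h2 : ¬ IsSquare (-ε)) (j : ℕ) : ∀ (d : ℕ) (β : L), d < 2 ^ j →
      (((ε : 𝓞 L) : L) ^ d = β ^ 2 ^ j ∨ ((ε : 𝓞 L) : L) ^ d = -β ^ 2 ^ j) → d = 0 := by
  have e0 : ((ε : 𝓞 L) : L) ≠ 0 := RingOfIntegers.coe_ne_zero_iff.2 ε.ne_zero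
  induction j with
  | zero => intro d β hd _; omega
  | succ j ih =>
    intro d β hd h
    rw [pow_succ, pow_mul] at h
    obtain ⟨k, rfl | rfl⟩ := Nat.even_or_odd' d
    · rw [mul_comm, pow_mul] at h
      rcases h with h | h
      · rw [ih k β (by omega) (sq_eq_sq_iff_eq_or_eq_neg.1 h)]
      · have := congrArg φ h
        rw [map_neg, map_pow, map_pow φ (β ^ 2 ^ j)] at this
        have h3 : φ (((ε : 𝓞 L) : L) ^ k) ≠ 0 := (map_ne_zero φ).2 (pow_ne_zero _ e0)
        nlinarith [sq_nonneg (φ (β ^ 2 ^ j)), sq_pos_of_ne_zero h3]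
    · exfalso
      rcases h with h | h
      · refine h1 (ukb_sq ε (β ^ 2 ^ j / ((ε : 𝓞 L) : L) ^ k) ?_)
        rw [div_pow, ← h]
        field_simp
        ring
      · refine h2 (ukb_sq (-ε) (β ^ 2 ^ j / ((ε : 𝓞 L) : L) ^ k) ?_)
        rw [div_pow, ← neg_neg ((β ^ 2 ^ j) ^ 2), ← h]
        simp only [Units.val_neg, map_neg]
        field_simp
        ring

theorem ukb_val {L : Type} [Field L] [NumberField L] (I : Ideal (𝓞 L)) (a : 𝓞 L) (n : ℕ)
    (h : Ideal.span {a} = I ^ n) (v : Valuation L ℝ≥0) (hv : ∀ x : 𝓞 L, v x ≤ 1) :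
    ∃ y : L, v a = v y ^ n := by
  let K : ℝ≥0 → Ideal (𝓞 L) := fun t =>
    { carrier := {x | v x ≤ t}
      zero_mem' := by simp
      add_mem' := fun {x y} hx hy => by
        simp only [Set.mem_ofPred_eq, map_add] at hx hy ⊢
        exact v.map_add_le hx hy
      smul_mem' := fun c x hx => by
        simp only [Set.mem_ofPred_eq, smul_eq_mul, map_mul] at hx ⊢
        exact (mul_le_of_le_one_left' (hv c)).trans hx }
  obtain ⟨s, hs⟩ := (isNoetherianRing_iff_ideal_fg _).1 inferInstance I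
  obtain ⟨y, hy, hm⟩ := exists_max_image (insert 0 s) (fun x : 𝓞 L => v x) (insert_nonempty _ _)
  have yI : y ∈ I := by
    rcases mem_insert.1 hy with rfl | hy
    · exact I.zero_mem
    · exact hs ▸ Ideal.subset_span hy
  have h1 : I ≤ K (v y) := hs ▸ Ideal.span_le.2 fun x hx => hm x (mem_insert_of_mem hx)
  have h2 : ∀ k : ℕ, I ^ k ≤ K (v y ^ k) := fun k => by
    induction k with
    | zero => exact fun x _ => by rw [pow_zero]; exact hv x
    | succ k ih =>
      rw [pow_succ]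
      refine Ideal.mul_le.2 fun r hr t ht => ?_
      change v ((r * t : 𝓞 L) : L) ≤ _
      rw [pow_succ, RingOfIntegers.coe_eq_algebraMap, map_mul, map_mul]
      exact mul_le_mul' (ih hr) (h1 ht)
  refine ⟨y, le_antisymm (h2 n (h ▸ Ideal.mem_span_singleton_self a)) ?_⟩
  obtain ⟨r, hr⟩ := Ideal.mem_span_singleton'.1 (h ▸ Ideal.pow_mem_pow yI n)
  have := congrArg (fun x : 𝓞 L => v x) hr
  simp only [map_mul, map_pow] at this
  rw [← this]
  exact mul_le_of_le_one_left' (hv r)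

theorem kb_stmt : KBStmt := by
  intro L _ _ φ ε j h1 h2 hd
  have : Fact (Nat.Prime 2) := ⟨Nat.prime_two⟩
  obtain ⟨P, hP⟩ := Sylow.exists_subgroup_card_pow_prime (G := ClassGroup (𝓞 L)) 2 (n := j)
    (by rwa [Nat.card_eq_fintype_card])
  have ex : ∀ c : P, ∃ (I : (nonZeroDivisors (Ideal (𝓞 L)))) (a : 𝓞 L),
      ClassGroup.mk0 I = c ∧ Ideal.span {a} = (I : Ideal (𝓞 L)) ^ 2 ^ j := fun c => by
    obtain ⟨I, hI⟩ := ClassGroup.mk0_surjective (c : ClassGroup (𝓞 L))
    have e : ClassGroup.mk0 (I ^ 2 ^ j) = 1 := by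
      rw [map_pow, hI, ← hP, ← Subgroup.coe_pow, pow_card_eq_one', Subgroup.coe_one]
    obtain ⟨a, ha⟩ := (ClassGroup.mk0_eq_one_iff (pow_mem I.2 (2 ^ j))).1 e
    exact ⟨I, a, hI, ha.symm⟩
  choose I a hI ha using ex
  have a0 : ∀ c, a c ≠ 0 := fun c e => by
    have := ha c
    rw [e, Ideal.span_singleton_zero] at this
    exact pow_ne_zero _ (nonZeroDivisors.ne_zero (I c).2) this.symm
  obtain ⟨f⟩ : Nonempty (Fin (4 ^ j) ≃ Fin (2 ^ j) × P) := Finite.card_eq.1 (by
    rw [Nat.card_prod, hP, Nat.card_eq_fintype_card, Nat.card_eq_fintype_card, Fintype.card_fin,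
      Fintype.card_fin, ← mul_pow]; rfl)
  have sp : ∀ (m : ℕ) (c : P), Ideal.span {(ε : 𝓞 L) ^ m * a c} = (I c : Ideal (𝓞 L)) ^ 2 ^ j :=
    fun m c => by rw [Ideal.span_singleton_mul_left_unit (ε.isUnit.pow m), ha]
  have e0 : ((ε : 𝓞 L) : L) ≠ 0 := RingOfIntegers.coe_ne_zero_iff.2 ε.ne_zero
  refine ⟨fun x => (ε : 𝓞 L) ^ ((f x).1 : ℕ) * a (f x).2, fun x =>
    ⟨mul_ne_zero (pow_ne_zero _ ε.ne_zero) (a0 _), ⟨Ideal.absNorm (I (f x).2 : Ideal (𝓞 L)), ?_⟩,
      ukb_val _ _ _ (sp _ _)⟩, fun x x' β h => f.injective ?_⟩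
  · have := congrArg Ideal.absNorm (sp (f x).1 (f x).2)
    rw [Ideal.absNorm_span_singleton, map_pow] at this
    rw [← Algebra.coe_norm_int, ← Int.cast_abs, Int.abs_eq_natAbs, this]
    simp
  · dsimp only at h
    generalize f x = p at h ⊢
    generalize f x' = p' at h ⊢
    obtain ⟨m, c⟩ := p
    obtain ⟨m', c'⟩ := p'
    dsimp only at h
    have n0 : ∀ (m : ℕ) (c : P), (((ε : 𝓞 L) ^ m * a c : 𝓞 L) : L) ≠ 0 := fun m c =>
      RingOfIntegers.coe_ne_zero_iff.2 (mul_ne_zero (pow_ne_zero _ ε.ne_zero) (a0 _))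
    have b0 : β ≠ 0 := by
      rintro rfl
      rw [zero_pow (by positivity), mul_zero, neg_zero, or_self] at h
      exact n0 _ _ h
    obtain ⟨r, s, hs, rfl⟩ := IsFractionRing.div_surjective (A := 𝓞 L) β
    have s0 : s ≠ 0 := nonZeroDivisors.ne_zero hs
    have s1 : algebraMap (𝓞 L) L s ≠ 0 := RingOfIntegers.coe_ne_zero_iff.2 s0
    have r0 : r ≠ 0 := by
      rintro rfl
      simp at b0
    have e1 : Ideal.span {s ^ 2 ^ j * ((ε : 𝓞 L) ^ (m : ℕ) * a c)} =
        Ideal.span {r ^ 2 ^ j * ((ε : 𝓞 L) ^ (m' : ℕ) * a c')} := by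
      rcases h with h | h
      · congr 2
        refine RingOfIntegers.ext ?_
        rw [div_pow] at h
        simp only [map_mul, map_pow] at h ⊢
        rw [h]
        field_simp
      · rw [← Ideal.span_singleton_neg]
        congr 2
        refine RingOfIntegers.ext ?_
        rw [div_pow] at h
        simp only [map_mul, map_pow, map_neg] at h ⊢
        rw [h]
        field_simp
    rw [← Ideal.span_singleton_mul_span_singleton, sp, ← Ideal.span_singleton_mul_span_singleton, sp,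
      ← Ideal.span_singleton_pow, ← Ideal.span_singleton_pow, ← mul_pow, ← mul_pow] at e1
    have e2 := pow_left_injective (by positivity : 2 ^ j ≠ 0) e1
    have e3 : c = c' := Subtype.ext (by
      rw [← hI, ← hI]
      exact ClassGroup.mk0_eq_mk0_iff.2 ⟨s, r, s0, r0, e2⟩)
    subst e3
    generalize algebraMap (𝓞 L) L r / algebraMap (𝓞 L) L s = β at h b0
    have a1 : algebraMap (𝓞 L) L (a c) ≠ 0 := RingOfIntegers.coe_ne_zero_iff.2 (a0 c)
    simp only [RingOfIntegers.coe_eq_algebraMap, map_mul, map_pow] at h e0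
    refine Prod.ext (Fin.ext ?_) rfl
    change (m : ℕ) = m'
    rcases le_total (m : ℕ) m' with l | l
    · obtain ⟨d, e⟩ := Nat.exists_eq_add_of_le l
      have := ukb_exp φ ε h1 h2 j d β⁻¹ (by omega) (h.imp (fun h => ?_) fun h => ?_)
      · omega
      all_goals
        rw [e, pow_add] at h
        simp only [RingOfIntegers.coe_eq_algebraMap, inv_pow]
        field_simp at h ⊢
        first | linear_combination -h | linear_combination h
    · obtain ⟨d, e⟩ := Nat.exists_eq_add_of_le l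
      have := ukb_exp φ ε h1 h2 j d β (by omega) (h.imp (fun h => ?_) fun h => ?_)
      · omega
      all_goals
        rw [e, pow_add] at h
        field_simp at h
        exact h

end Pool.Agent.B10
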