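import Pool.Agent.Lib.MP_696deb_nt.B10.UZ

/-! The Kummer classes, and the relation between the singular part and the finite part. -/

set_option autoImplicit false

open Finset
open scoped Classical

namespace Pool.Agent.B10
open Pool.Agent.Lib.MP_696deb_nt Pool.Agent.Lib.MP_696deb_nt.B2 Pool.Agent.B6 Pool.Agent.B8

section

variable [Cp] {U : US} {S : Finset Plc} {j : ℕ} {Z R : TT} {κ : Gam → Mv j} {w : Plc} {g : Gam}

theorem ukc_kil (hm : Bm) (x : Mv j) : 2 ^ j • emb j x = 0 := by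
  rw [← map_nsmul, hm.kil, map_zero]

theorem ukc_uniq (hk : U.Kd) (hS : Ad S) {x y : TT} (hx : x ∈ U.Fx S) (hy : y ∈ U.Fx S)
    (e : 2 ^ j • x = 2 ^ j • y) : x = y :=
  sub_eq_zero.1 (hk.tors S hS _ (sub_mem hx hy) j (by rw [smul_sub, e, sub_self]))

theorem ukc_ine (hx : Bx) (hm : Bm) (h2 : w.p ≠ 2) (hg : g ∈ GK NN ⊓ Ine w) (hR : R ∈ Un) :
    g • R - R ∈ K1 w := by
  simpa using hm.frob w 1 g hg.1 (isFrob_one.2 hg.2) (hx.odd w h2 g hg) R (hR w)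

theorem ukc_fq (hx : Bx) (hm : Bm) (hw : In w) (hR : R ∈ Un) : fq w • R - w.p ^ 2 • R ∈ K1 w :=
  hm.frob w _ _ (hx.tm w hw).mem (hx.tm w hw).frob
    (hx.dec w hw _ ⟨(hx.tm w hw).mem, (hx.tm w hw).frob.1⟩) R (hR w)

theorem ukc_fix {κ : Gam → Mv j} (hg : g ∈ GK NN) (e : U.ψ (cS S) g = 1) (hZ : Z ∈ U.Fx S)
    (val : ∀ g ∈ GK NN, ∀ D ∈ U.Fx S, 2 ^ j • D = g • Z - Z → emb j (κ g) = g • R - R - D) :
    emb j (κ g) = g • R - R :=
  (val g hg 0 (zero_mem _) (by rw [hZ g hg e, sub_self, smul_zero])).trans (sub_zero _)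

end

theorem kc_stmt : KCStmt := by
  intro _ U S j Z hx hm hk hS hZ hu h
  obtain ⟨R, hR⟩ := hm.half j Z
  have hR' : R ∈ Un := hm.un j R (hR ▸ hu)
  have h1 : ∀ g, ∃ y : Mv j, (g ∉ GK NN → y = 0) ∧ (g ∈ GK NN →
      ∀ D ∈ U.Fx S, 2 ^ j • D = g • Z - Z → emb j y = g • R - R - D) := fun g => by
    by_cases hg : g ∈ GK NN
    · obtain ⟨D, d1, d2⟩ := h g hg
      obtain ⟨y, hy⟩ := hm.onto j (g • R - R - D) (by
        rw [smul_sub, smul_sub, smul_comm, hR, d2, sub_self])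
      exact ⟨y, fun k => absurd hg k, fun _ D' a b => ukc_uniq hk hS d1 a (d2.trans b.symm) ▸ hy⟩
    · exact ⟨0, fun _ => rfl, fun k => absurd k hg⟩
  choose κ k0 val using h1
  have coc : Coc (GK NN) (am 1 j) κ := by
    refine ⟨?_, fun g hg g' hg' => hm.inj j ?_⟩
    · obtain ⟨V, v1, v2, v3⟩ := hm.sm R
      refine ⟨V, v1, v2, fun g hg g' hg' e => hm.inj j ?_⟩
      have e1 : g • R = g' • R := v3 g trivial g' trivial e
      obtain ⟨D, d1, d2⟩ := h g hg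
      rw [val g hg D d1 d2, val g' hg' D d1 (by rw [d2, ← hR, smul_comm g, e1, smul_comm g']), e1]
    · obtain ⟨D, d1, d2⟩ := h g hg
      obtain ⟨D', d3, d4⟩ := h g' hg'
      rw [map_add, ← smul_emb, val g hg D d1 d2, val g' hg' D' d3 d4, val _ (mul_mem hg hg')
        (D + g • D') (add_mem d1 (hk.smul S hS g D' d3)) (by
          rw [smul_add, d2, smul_comm, d4, smul_sub, mul_smul]; abel), smul_sub, smul_sub, mul_smul]
      abel
  refine ⟨R, κ, ⟨coc, k0⟩, hR, val, fun w h2 hw σ hσ => hm.inj j ?_,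
    fun hn => ⟨coc, fun ⟨x, e⟩ => hn ⟨R - emb j x, fun g hg e1 => ?_, ?_⟩⟩, ?_,
    fun w hw ⟨m, e⟩ hZ1 => hm.inj j ?_⟩
  · rw [map_zero]
    refine hm.tors w h2 _ ?_ j (ukc_kil hm _)
    rw [ukc_fix hσ.1 (U.unr _ w (hx.aw S hS) (fun d => ?_) σ hσ) hZ val]
    · exact ukc_ine hx hm h2 hσ hR'
    · obtain ⟨v, v1, v2⟩ := (w.prime.prime.dvd_finsetProd_iff _).1 d
      exact hw v v1 ((Nat.prime_dvd_prime_iff_eq w.prime v.prime).1 v2).symm
  · have := ukc_fix hg e1 hZ val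
    rw [e g hg, cob, map_sub, ← smul_emb] at this
    rw [smul_sub, sub_eq_sub_iff_sub_eq_sub, this]
  · rw [smul_sub, hR, ukc_kil hm, sub_zero]
  · rintro ⟨Z', z1, z2⟩
    obtain ⟨x, e⟩ := hm.onto j (R - Z') (by rw [smul_sub, hR, z2, sub_self])
    refine ⟨x, fun g hg => hm.inj j ?_⟩
    rw [val g hg _ (sub_mem (hk.smul S hS g Z' z1) z1) (by rw [smul_sub, smul_comm, z2]), cob,
      map_sub, ← smul_emb, e, smul_sub]
    abel
  · have hi := hS.1 w hw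
    rw [map_zero]
    refine hm.tors w hi.1 _ ?_ j (ukc_kil hm _)
    rw [ukc_fix (g := fq w) (hx.tm w hi).mem (U.sq _ (hx.aw S hS) _ (hx.ine w hi).2.1) hZ val]
    convert add_mem (ukc_fq hx hm hi hR') (zsmul_mem hZ1 (m * (w.p - 1))) using 1
    have e1 : (w.p : ℤ) = 2 ^ j * m - 1 := by
      rw [eq_sub_iff_add_eq]
      exact_mod_cast e
    rw [← hR, ← natCast_zsmul _ (w.p ^ 2), ← natCast_zsmul _ (2 ^ j)]
    push_cast
    rw [e1]
    generalize fq w • R = P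
    module

theorem st_stmt : STStmt := by
  intro _ U S w r r' j e Z R Z' R' t κ hx hm hk hw hS' hZ z1 K hZ' z2 K' hd he
  have hS : Ad S := ⟨fun v hv => hS'.1 v (mem_insert_of_mem hv),
    hS'.2.mono (coe_subset.2 (subset_insert w S))⟩
  have hi := hS'.1 w (mem_insert_self w S)
  have hg : gn w ∈ GK NN ⊓ Ine w := ⟨(hx.ine w hi).1 (gn_spec hi.1).1, (gn_spec hi.1).1⟩
  have u1 : R ∈ Un := hm.un 1 R (K.root ▸ hm.un r Z (z1 ▸ hk.un S hS))
  have u2 : R' ∈ Un := hm.un j R' (K'.root ▸ hm.un r' Z' (z2 ▸ hk.un _ hS'))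
  obtain ⟨D, d1, d2, d3⟩ := hk.step S w hw hS'
  obtain ⟨k, hk1⟩ := Nat.exists_eq_add_of_le
    ((Nat.prime_two.pow_dvd_iff_le_factorization (Nat.succ_ne_zero _)).1 hd)
  have e0 := Nat.ordProj_mul_ordCompl_eq_self (w.p + 1) 2
  generalize ordCompl[2] (w.p + 1) = u at d3 e0
  rw [show (w.p + 1).factorization 2 = r' + j + k from hk1] at d2 e0
  have e1 := K'.val _ hg.1 (2 ^ k • D) (nsmul_mem d1 _) (ukc_uniq (j := r') hk hS'
    (nsmul_mem (nsmul_mem d1 _) _) (sub_mem (hk.smul _ hS' _ _ hZ') hZ') (by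
      rw [smul_sub, smul_comm _ (gn w), z2, ← d2, smul_smul, smul_smul, pow_add, pow_add]))
  have e2 := ukc_fix (g := fq w) (hx.tm w hi).mem (U.sq _ (hx.aw S hS) _ (hx.ine w hi).2.1) hZ K.val
  rw [eq_neg_iff_add_eq_zero]
  refine hm.tors w hi.1 _ ?_ (j + 1) ?_
  · rw [e1, e2]
    convert add_mem (nsmul_mem (sub_mem (ukc_ine hx hm hi.1 hg u2) (nsmul_mem d3 (2 ^ k))) (2 ^ e))
      (ukc_fq hx hm hi u1) using 1
    obtain ⟨q, hq⟩ := Nat.exists_eq_succ_of_ne_zero w.prime.ne_zero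
    have e3 : (w.p ^ 2) = 2 ^ e * (2 ^ k * (u * (w.p - 1) * (2 ^ r * 2 ^ 1))) + 1 := by
      have e4 : 2 ^ e * 2 ^ k * (2 ^ r * 2 ^ 1) * u = w.p + 1 := by
        rw [← e0, ← he]
        ring
      rw [hq] at e4 ⊢
      rw [Nat.succ_sub_one, Nat.succ_eq_add_one] at *
      linear_combination q * e4.symm
    rw [← z1, ← K.root, e3]
    generalize fq w • R = P
    generalize gn w • R' = P'
    module
  · rw [smul_add, smul_comm, pow_succ', mul_smul, ukc_kil hm, smul_zero, smul_zero, zero_add,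
      ← pow_succ', pow_add, mul_smul, ukc_kil hm, smul_zero]

end Pool.Agent.B10
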