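import Pool.Agent.Lib.MP_696deb_nt.B10.UZ

/-! The corrected derivatives of the units. -/

set_option autoImplicit false

open NumberField NumberTheorySymbols Finset
open scoped Classical NNReal

namespace Pool.Agent.B10
open Pool.Agent.Lib.MP_696deb_nt Pool.Agent.Lib.MP_696deb_nt.B2 Pool.Agent.Lib.MP_696deb_nt.B2.CM
  Pool.Agent.B6 Pool.Agent.B4 Pool.Agent.B8

variable [Cp]

namespace US

variable {U : US} {c c' c'' k : ℕ} {g : Gam} {w : Plc} {S T : Finset Plc} {x : TT}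

/-- The points that are fixed at level `c`. -/
def kdX (U : US) (c : ℕ) : AddSubgroup TT where
  carrier := {x | ∀ g ∈ GK NN, U.ψ c g = 1 → g • x = x}
  zero_mem' := fun _ _ _ => smul_zero _
  add_mem' := fun h k g hg e => by rw [smul_add, h g hg e, k g hg e]
  neg_mem' := fun h g hg e => by rw [smul_neg, h g hg e]

/-- Weighted sums. -/
noncomputable def kdF (U : US) (c : ℕ) (W : U.C c → ℤ) : TT := ∑ a, W a • U.y c a

/-- The weights. -/
noncomputable def kdW (U : US) (T : Finset Plc) (c : ℕ) (a : U.C c) : ℤ :=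
  ∏ w ∈ T, (U.wt w (U.pr w.p c a) : ℤ)

/-- Multiples of fixed points. -/
noncomputable def kdD (U : US) (k c : ℕ) : AddSubgroup TT :=
  (U.kdX c).map (nsmulAddMonoidHom (2 ^ k))

theorem ukd_P (S : Finset Plc) : U.P S = U.kdF (cS S) (U.kdW S (cS S)) := by
  simp only [US.P, kdF, kdW, ← Nat.cast_prod, natCast_zsmul]

theorem ukd_pr_pr (h : Aw NN c'') (h1 : c ∣ c') (h2 : c' ∣ c'') (a : U.C c'') :
    U.pr c c' (U.pr c' c'' a) = U.pr c c'' a := by
  obtain ⟨g, hg, rfl⟩ := U.surj _ h a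
  rw [U.pr_ψ _ _ h h2 g hg, U.pr_ψ _ _ (h.dvd h2) h1 g hg, U.pr_ψ _ _ h (h1.trans h2) g hg]

theorem ukd_surj (h : Aw NN c') (h1 : c ∣ c') : Function.Surjective (U.pr c c') := fun b => by
  obtain ⟨g, hg, rfl⟩ := U.surj _ (h.dvd h1) b
  exact ⟨_, U.pr_ψ _ _ h h1 g hg⟩

theorem ukd_le (h : Aw NN c') (h1 : c ∣ c') : U.kdX c ≤ U.kdX c' :=
  fun _ hx g hg e => hx g hg (by rw [← U.pr_ψ _ _ h h1 g hg, e, map_one])

theorem ukd_fx (h : Aw NN c) (W : U.C c → ℤ) : U.kdF c W ∈ U.kdX c :=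
  sum_mem fun a _ => zsmul_mem (fun g hg e => by rw [U.gal c h g hg, e, one_mul]) _

theorem ukd_add (W W' : U.C c → ℤ) : U.kdF c (fun a => W a + W' a) = U.kdF c W + U.kdF c W' := by
  simp only [kdF, add_smul, sum_add_distrib]

theorem ukd_sub (W W' : U.C c → ℤ) : U.kdF c (fun a => W a - W' a) = U.kdF c W - U.kdF c W' := by
  simp only [kdF, sub_smul, sum_sub_distrib]

theorem ukd_mul (m : ℤ) (W : U.C c → ℤ) : U.kdF c (fun a => m * W a) = m • U.kdF c W := by
  simp only [kdF, mul_smul, smul_sum]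

theorem ukd_gal (h : Aw NN c) (hg : g ∈ GK NN) (W : U.C c → ℤ) :
    g • U.kdF c W = U.kdF c fun a => W ((U.ψ c g)⁻¹ * a) := by
  rw [kdF, smul_sum]
  exact Fintype.sum_equiv (Equiv.mulLeft (U.ψ c g)) _ _ fun a => by
    rw [smul_comm, U.gal c h g hg]
    simp only [Equiv.coe_mulLeft, inv_mul_cancel_left]

theorem ukd_conj (h : Aw NN c) (g : Gam) (hx : x ∈ U.kdX c) : g • x ∈ U.kdX c := by
  intro s hs e
  have h1 : g⁻¹ * s * g⁻¹⁻¹ ∈ GK NN := (normal_GK NN).conj_mem s hs _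
  rw [← mul_smul, show s * g = g * (g⁻¹ * s * g⁻¹⁻¹) by group, mul_smul, hx _ h1]
  by_cases hg : g⁻¹ ∈ GK NN
  · have h2 := U.mul c h _ h1 _ hg
    rwa [inv_mul_cancel_right, U.mul c h _ hg s hs, e, mul_one, right_eq_mul] at h2
  · rw [U.dih c h _ hg s hs, e, inv_one]

theorem ukd_trace (e : c' = c * w.p) (h : Aw NN c') (W : U.C c → ℤ) :
    U.kdF c' (fun a => W (U.pr c c' a)) = (w.p + 1) • U.kdF c W := by
  rw [kdF, kdF, ← sum_fiberwise _ (U.pr c c'), smul_sum]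
  refine sum_congr rfl fun b _ => ?_
  rw [smul_comm, ← U.trace c c' w e h b, smul_sum]
  exact sum_congr rfl fun a ha => by rw [(mem_filter.1 ha).2]

/-- Weights that are invariant under inertia give divisible sums. -/
theorem ukd_inv (e : c' = c * w.p) (h : Aw NN c') (hk : 2 ^ k ∣ w.p + 1) {V : U.C c' → ℤ}
    (hV : ∀ a, (2 : ℤ) ^ k ∣ V (U.ψ c' (gn w) * a) - V a) : U.kdF c' V ∈ U.kdD k c' := by
  have d : c ∣ c' := Dvd.intro _ e.symm
  obtain ⟨s, hs⟩ := (ukd_surj (U := U) h d).hasRightInverse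
  have h1 : ∀ (i : ℕ) a, (2 : ℤ) ^ k ∣ V (U.ψ c' (gn w) ^ i * a) - V a := fun i a => by
    induction i with
    | zero => simp
    | succ i ih =>
      rw [pow_succ', mul_assoc, ← sub_add_sub_cancel]
      exact dvd_add (hV _) ih
  have h2 : ∀ a, (2 : ℤ) ^ k ∣ V a - V (s (U.pr c c' a)) := fun a => by
    have : a * (s (U.pr c c' a))⁻¹ ∈ (U.pr c c').ker := by
      rw [MonoidHom.mem_ker, map_mul, map_inv, hs, mul_inv_cancel]
    rw [(U.ker c c' w e h).1, ← mem_powers_iff_mem_zpowers] at this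
    obtain ⟨i, hi⟩ := this
    simpa only [hi, inv_mul_cancel_right] using h1 i (s (U.pr c c' a))
  choose V₁ h3 using h2
  obtain ⟨m, hm⟩ := hk
  refine ⟨U.kdF c' V₁ + m • U.kdF c (V ∘ s),
    add_mem (ukd_fx h _) (nsmul_mem (ukd_le h d (ukd_fx (h.dvd d) _)) m), ?_⟩
  rw [nsmulAddMonoidHom_apply, smul_add, smul_smul, ← hm, ← ukd_trace e h, ← natCast_zsmul,
    ← ukd_mul, ← ukd_add]
  exact congrArg _ (funext fun a => by push_cast; rw [← h3]; exact sub_add_cancel _ _)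

omit [Cp] in
theorem ukd_cS (hw : w ∉ S) : cS (insert w S) = cS S * w.p := by
  rw [cS, prod_insert hw, mul_comm, cS]

omit [Cp] in
theorem ukd_dvd (h : T ⊆ S) : cS T ∣ cS S := prod_dvd_prod_of_subset _ _ _ h

theorem ukd_mono (h : Ad S) (hT : T ⊆ S) : Ad T := ⟨fun w hw => h.1 w (hT hw), h.2.mono hT⟩

theorem ukd_gn (hx : Bx) (hw : In w) : gn w ∈ GK NN ⊓ Ine w :=
  ⟨(hx.ine w hw).1 (gn_spec hw.1).1, (gn_spec hw.1).1⟩

theorem ukd_wt (hx : Bx) (hw : In w) (h : Aw NN c) (d : w.p ∣ c) (a : U.C c) :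
    U.wt w (U.pr w.p c (U.ψ c (gn w) * a)) =
      (U.wt w (U.pr w.p c a) + 1) % ordProj[2] (w.p + 1) := by
  rw [map_mul, U.pr_ψ _ _ h d _ (ukd_gn hx hw).1, U.wt_gn w hw]

theorem ukd_other (hx : Bx) (h : Ad S) (hw : w ∈ S) {v : Plc} (hv : v ∈ S) (ne : v ≠ w)
    (a : U.C (cS S)) : U.pr v.p (cS S) (U.ψ (cS S) (gn w) * a) = U.pr v.p (cS S) a := by
  have d : v.p ∣ cS S := dvd_prod_of_mem _ hv
  have m := ukd_gn hx (h.1 w hw)
  rw [map_mul, U.pr_ψ _ _ (hx.aw S h) d _ m.1, U.unr _ w ((hx.aw S h).dvd d) (fun k => ne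
    (h.2 hw hv ((Nat.prime_dvd_prime_iff_eq w.prime v.prime).1 k)).symm) _ m, one_mul]

omit [Cp] in
theorem ukd_two {l : ℕ} (hk : 2 ^ k ∣ l + 1) : 2 ^ k ∣ ordProj[2] (l + 1) :=
  pow_dvd_pow 2 ((Nat.prime_two.pow_dvd_iff_le_factorization l.succ_ne_zero).1 hk)

theorem ukd_div (hx : Bx) (h : Ad S) (hk : ∀ w ∈ S, 2 ^ k ∣ w.p + 1) (b : U.C (cS S))
    (hT : T ⊆ S) : ∀ V : U.C (cS S) → ℤ, (∀ w ∈ T, ∀ a, V (U.ψ (cS S) (gn w) * a) = V a) →
      U.kdF (cS S) (fun a => V a * (U.kdW T _ (b * a) - U.kdW T _ a)) ∈ U.kdD k (cS S) := by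
  induction T using Finset.induction_on with
  | empty => intro V _; simp [kdW, kdF]
  | insert w T hw ih =>
    intro V hV
    have m := hT (mem_insert_self w T)
    have s := (subset_insert w T).trans hT
    have ne : ∀ v ∈ T, v ≠ w := fun v hv => ne_of_mem_of_not_mem hv hw
    have h1 := ih s (fun a => V a * U.wt w (U.pr w.p _ (b * a))) fun v hv a => by
      rw [hV v (mem_insert_of_mem hv), mul_left_comm, ukd_other hx h (s hv) m (ne v hv).symm]
    have h2 := ukd_inv (V := fun a => V a * U.kdW T _ a *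
        ((U.wt w (U.pr w.p _ (b * a)) : ℤ) - U.wt w (U.pr w.p _ a)))
      ((congrArg cS (insert_erase m).symm).trans (ukd_cS (notMem_erase w S))) (hx.aw S h) (hk w m)
      fun a => by
        have e : U.kdW T _ (U.ψ (cS S) (gn w) * a) = U.kdW T _ a :=
          prod_congr rfl fun v hv => by rw [ukd_other hx h m (s hv) (ne v hv)]
        have d : w.p ∣ cS S := dvd_prod_of_mem _ m
        rw [hV w (mem_insert_self w T), e, ← mul_sub, mul_left_comm b,
          ukd_wt hx (h.1 w m) (hx.aw S h) d, ukd_wt hx (h.1 w m) (hx.aw S h) d]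
        have t : (2 : ℤ) ^ k ∣ ((ordProj[2] (w.p + 1) : ℕ) : ℤ) := by
          exact_mod_cast ukd_two (hk w m)
        refine Dvd.dvd.mul_left (t.trans ?_) _
        generalize ordProj[2] (w.p + 1) = E
        generalize U.wt w (U.pr w.p _ (b * a)) = x
        generalize U.wt w (U.pr w.p _ a) = y
        rw [Int.natCast_mod, Int.natCast_mod, Int.emod_def, Int.emod_def]
        exact ⟨(y + 1) / E - (x + 1) / E, by push_cast; ring⟩
    have h3 := add_mem h1 h2
    rw [← ukd_add] at h3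
    refine (congrArg _ (congrArg _ (funext fun a => ?_))).mp h3
    simp only [kdW, prod_insert hw]
    ring

theorem ukd_fib (hx : Bx) (hw : In w) (e : c' = c * w.p) (h : Aw NN c') (V : ℕ → ℤ) (b : U.C c) :
    ∑ a with U.pr c c' a = b, V (U.wt w (U.pr w.p c' a)) = ∑ j ∈ range (ordProj[2] (w.p + 1)), V j := by
  have d : c ∣ c' := Dvd.intro _ e.symm
  have d' : w.p ∣ c' := Dvd.intro_left _ e.symm
  obtain ⟨a₀, rfl⟩ := ukd_surj (U := U) h d b
  have h1 : ∀ i : ℕ, U.wt w (U.pr w.p c' (U.ψ c' (gn w) ^ i * a₀)) =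
      (U.wt w (U.pr w.p c' a₀) + i) % ordProj[2] (w.p + 1) := fun i => by
    induction i with
    | zero => rw [pow_zero, one_mul, add_zero, Nat.mod_eq_of_lt (U.wt_lt w hw _)]
    | succ i ih => rw [pow_succ', mul_assoc, ukd_wt hx hw h d', ih, Nat.mod_add_mod, add_assoc]
  have h2 : Set.MapsTo (fun a => U.wt w (U.pr w.p c' a))
      (univ.filter fun a => U.pr c c' a = U.pr c c' a₀ :) (range (ordProj[2] (w.p + 1)) :) :=
    fun a _ => mem_coe.2 (mem_range.2 (U.wt_lt w hw _))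
  have h3 : Set.SurjOn (fun a => U.wt w (U.pr w.p c' a))
      (univ.filter fun a => U.pr c c' a = U.pr c c' a₀ :) (range (ordProj[2] (w.p + 1)) :) :=
    fun j hj => by
      have k1 := U.wt_lt w hw (U.pr w.p c' a₀)
      have k2 : U.ψ c' (gn w) ∈ (U.pr c c').ker := (U.ker c c' w e h).1 ▸ Subgroup.mem_zpowers _
      refine ⟨U.ψ c' (gn w) ^ (ordProj[2] (w.p + 1) - U.wt w (U.pr w.p c' a₀) + j) * a₀,
        mem_coe.2 (mem_filter.2 ⟨mem_univ _, by rw [map_mul, pow_mem k2 _, one_mul]⟩), ?_⟩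
      refine (h1 _).trans ?_
      rw [← add_assoc, Nat.add_sub_cancel' k1.le, Nat.add_mod_left,
        Nat.mod_eq_of_lt (mem_range.1 (mem_coe.1 hj))]
  refine sum_nbij _ h2 (injOn_of_surjOn_of_card_le _ h2 h3 ?_) h3 fun _ _ => rfl
  rw [card_range, ← (U.ker c c' w e h).2, ← Nat.card_congr ((U.pr c c').fiberEquivKer a₀),
    ← Nat.card_eq_finsetCard]
  exact (Nat.card_congr (Equiv.subtypeEquivRight fun a => by simp)).le

/-- The congruence relation for weighted sums. -/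
theorem ukd_cong (hx : Bx) (hw : In w) (e : c' = c * w.p) (h : Aw NN c') (V : ℕ → ℤ)
    (W : U.C c → ℤ) : U.kdF c' (fun a => V (U.wt w (U.pr w.p c' a)) * W (U.pr c c' a)) -
      ((∑ j ∈ range (ordProj[2] (w.p + 1)), V j) * (ordCompl[2] (w.p + 1) * w.p : ℕ)) •
        U.kdF c W ∈ K1 w := by
  rw [kdF, kdF, ← sum_fiberwise _ (U.pr c c'), smul_sum, ← sum_sub_distrib]
  refine sum_mem fun b _ => ?_
  rw [← ukd_fib hx hw e h V b, sum_mul, sum_smul, ← sum_sub_distrib]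
  refine sum_mem fun a ha => ?_
  have h2 := zsmul_mem (U.kron c c' w e h a) (V (U.wt w (U.pr w.p c' a)) * W b)
  rw [(mem_filter.1 ha).2] at h2 ⊢
  refine (congrArg (· ∈ K1 w) ?_).mp h2
  module

theorem ukd_W (hx : Bx) (hw : w ∉ T) (h : Ad (insert w T)) (a : U.C (cS (insert w T))) :
    U.kdW (insert w T) _ a = U.wt w (U.pr w.p _ a) * U.kdW T _ (U.pr (cS T) _ a) := by
  rw [kdW, prod_insert hw, kdW]
  exact congrArg _ (prod_congr rfl fun v hv => by
    rw [ukd_pr_pr (c := v.p) (c' := cS T) (hx.aw _ h) (dvd_prod_of_mem _ hv)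
      (ukd_dvd (subset_insert w T))])

theorem ukd_tr (hx : Bx) (hw : w ∉ T) (h : Ad (insert w T)) :
    U.P (insert w T) - (cr w.p : ℤ) • U.P T ∈ K1 w := by
  have i := h.1 w (mem_insert_self w T)
  have h1 := ukd_cong hx i (ukd_cS hw) (hx.aw _ h) Nat.cast (U.kdW T _)
  rw [← Nat.cast_sum, ← Nat.cast_mul] at h1
  rw [ukd_P, ukd_P, funext (ukd_W hx hw h), show cr w.p = _ from ?_]
  · exact h1
  obtain ⟨m, hm⟩ := (w.prime.odd_of_ne_two i.1).add_one.two_dvd
  refine Nat.eq_of_mul_eq_mul_right two_pos ?_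
  rw [mul_right_comm, sum_range_id_mul_two, cr, mul_assoc, Nat.div_mul_cancel ⟨m, hm⟩]
  have := Nat.ordProj_mul_ordCompl_eq_self (w.p + 1) 2
  generalize ordCompl[2] (w.p + 1) = M at this ⊢
  generalize ordProj[2] (w.p + 1) = E at this ⊢
  rw [← this]
  ring

theorem ukd_step (hx : Bx) (hw : w ∉ T) (h : Ad (insert w T)) : ∃ D ∈ U.Fx (insert w T),
    ordProj[2] (w.p + 1) • D = gn w • U.P (insert w T) - U.P (insert w T) ∧
      D - (ordCompl[2] (w.p + 1) * (w.p - 1)) • U.P T ∈ K1 w := by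
  have i := h.1 w (mem_insert_self w T)
  have a' := hx.aw _ h
  have e := ukd_cS hw
  have d := ukd_dvd (subset_insert w T)
  have h1 := ukd_cong hx i e a' (fun j => if j = 0 then 1 else 0) (U.kdW T _)
  rw [sum_ite_eq', if_pos (mem_range.2 (Nat.ordProj_pos _ _)), one_mul, natCast_zsmul,
    ← ukd_P] at h1
  refine ⟨U.kdF _ (fun a => (if U.wt w (U.pr w.p _ a) = 0 then 1 else 0) *
      U.kdW T _ (U.pr (cS T) _ a)) - ordCompl[2] (w.p + 1) • U.P T, sub_mem (ukd_fx a' _)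
    (nsmul_mem (ukd_le a' d (ukd_P T ▸ ukd_fx (a'.dvd d) _)) _), ?_, ?_⟩
  · rw [smul_sub, smul_smul, Nat.ordProj_mul_ordCompl_eq_self, ukd_P, ukd_P, ← ukd_trace e a',
      ukd_gal a' (ukd_gn hx i).1, ← natCast_zsmul, ← ukd_mul, ← ukd_sub, ← ukd_sub]
    refine congrArg _ (funext fun a => ?_)
    obtain ⟨a, rfl⟩ := (Group.mulLeft_bijective (U.ψ _ (gn w))).2 a
    have k2 : U.ψ _ (gn w) ∈ (U.pr (cS T) _).ker := (U.ker _ _ w e a').1 ▸ Subgroup.mem_zpowers _
    have k1 := U.wt_lt w i (U.pr w.p _ a)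
    simp only [inv_mul_cancel_left, ukd_W hx hw h, ukd_wt hx i a' (Dvd.intro_left _ e.symm)]
    rw [map_mul, k2, one_mul]
    generalize ordProj[2] (w.p + 1) = E at k1 ⊢
    rcases (Nat.succ_le_of_lt k1).eq_or_lt with rfl | k
    · rw [Nat.mod_self, if_pos rfl]
      push_cast
      ring
    · rw [Nat.mod_eq_of_lt k, if_neg (Nat.succ_ne_zero _)]
      push_cast
      ring
  · rwa [sub_sub, ← add_smul, ← mul_one_add, Nat.add_sub_cancel' w.prime.one_le]

theorem ukd_n (hw : w ∉ S) : U.n (insert w S) = ∑ T ∈ S.powerset,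
    (∏ v ∈ S \ T, -(cr v.p : ℤ)) • (U.P (insert w T) - (cr w.p : ℤ) • U.P T) := by
  rw [US.n, sum_powerset_insert hw, ← sum_add_distrib]
  refine sum_congr rfl fun T hT => ?_
  rw [insert_sdiff_of_notMem _ (notMem_mono (mem_powerset.1 hT) hw), insert_sdiff_insert,
    sdiff_insert_of_notMem hw, prod_insert (notMem_mono sdiff_subset hw)]
  module

end US

omit [Cp] in
open US in
theorem kd_stmt : KDStmt := by
  intro _ U hx hm
  have le : ∀ S S', Ad S' → S ⊆ S' → U.Fx S ≤ U.Fx S' := fun S S' h s =>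
    ukd_le (hx.aw S' h) (ukd_dvd s)
  have fx : ∀ S, Ad S → U.P S ∈ U.Fx S := fun S h => ukd_P (U := U) S ▸ ukd_fx (hx.aw S h) _
  refine ⟨fun S h => sum_mem fun T hT => zsmul_mem (le T S h (mem_powerset.1 hT)
      (fx T (ukd_mono h (mem_powerset.1 hT)))) _,
    fun S h => sum_mem fun T hT => zsmul_mem (sum_mem fun a _ => nsmul_mem
      (U.unit _ (hx.aw T (ukd_mono h (mem_powerset.1 hT))) a) _) _, le,
    fun S h g x => ukd_conj (hx.aw S h) g, fun S h x h1 j h2 => ?_, fun S k h hk g hg => ?_,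
    fun S h w hw => ?_, fun S w hw h => ?_⟩
  · have e := pl_p 2 Nat.prime_two
    obtain ⟨h3, -, σ, h4, h5⟩ := hx.two _ e
    exact hm.fix σ (h3 h4) (h5 ▸ one_ne_zero) j x h2
      (h1 σ (h3 h4) (U.dec _ _ (hx.aw S h) e σ ⟨h3 h4, Ine_le _ h4⟩))
  · change g • U.n S - U.n S ∈ U.kdD k (cS S)
    rw [US.n, smul_sum, ← sum_sub_distrib]
    refine sum_mem fun T hT => ?_
    have s := mem_powerset.1 hT
    have h1 := ukd_mono h s
    rw [smul_comm, ← smul_sub, ukd_P, ukd_gal (hx.aw T h1) hg, ← ukd_sub]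
    refine zsmul_mem (AddSubgroup.map_mono (le T S h s) ?_) _
    have := ukd_div hx h1 (fun w hw => hk w (s hw)) (U.ψ _ g)⁻¹ Subset.rfl
      (fun _ => 1) fun _ _ _ => rfl
    simp only [one_mul] at this
    exact this
  · rw [← insert_erase hw] at h ⊢
    rw [ukd_n (notMem_erase w S)]
    exact sum_mem fun T hT => zsmul_mem (ukd_tr hx (notMem_mono (mem_powerset.1 hT)
      (notMem_erase w S)) (ukd_mono h (insert_subset_insert w (mem_powerset.1 hT)))) _
  · have i := h.1 w (mem_insert_self w S)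
    have s : ∀ T ∈ S.powerset, insert w T ⊆ insert w S := fun T hT =>
      insert_subset_insert w (mem_powerset.1 hT)
    choose! D h1 h2 h3 using fun T (hT : T ∈ S.powerset) =>
      ukd_step (U := U) hx (notMem_mono (mem_powerset.1 hT) hw) (ukd_mono h (s T hT))
    refine ⟨∑ T ∈ S.powerset, (∏ v ∈ S \ T, -(cr v.p : ℤ)) • D T,
      sum_mem fun T hT => zsmul_mem (le _ _ h (s T hT) (h1 T hT)) _, ?_, ?_⟩
    · rw [ukd_n hw, smul_sum, smul_sum, ← sum_sub_distrib]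
      refine sum_congr rfl fun T hT => ?_
      have t := notMem_mono (mem_powerset.1 hT) hw
      have a := hx.aw _ (ukd_mono h (s T hT))
      have a' := a.dvd (ukd_dvd (subset_insert w T))
      rw [smul_comm, h2 T hT, smul_comm (gn w), smul_sub (gn w), smul_comm (gn w),
        fx T (ukd_mono h ((subset_insert w T).trans (s T hT))) _ (ukd_gn hx i).1
          (U.unr _ w a' (Aw.mul (ukd_cS t ▸ a) w.prime).2.2 _ (ukd_gn hx i)), ← smul_sub,
        sub_sub_sub_cancel_right]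
    · rw [US.n, smul_sum, ← sum_sub_distrib]
      exact sum_mem fun T hT => by
        rw [smul_comm, ← smul_sub]
        exact zsmul_mem (h3 T hT) _

end Pool.Agent.B10
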