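import Pool.Agent.Lib.MP_696deb_nt.B10.UZ
import Pool.Agent.Lib.MP_696deb_nt.B6.GWa
import Pool.Agent.Lib.MP_696deb_nt.B2.CF
import Pool.Agent.Lib.MP_696deb_nt.B2.GWc

/-! The Kolyvagin system of the Weber units is primitive. -/

set_option autoImplicit false

open NumberField NumberTheorySymbols Finset
open scoped Classical NNReal

namespace Pool.Agent.B10
open Pool.Agent.Lib.MP_696deb_nt Pool.Agent.Lib.MP_696deb_nt.B2 Pool.Agent.Lib.MP_696deb_nt.B2.CM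
  Pool.Agent.B6 Pool.Agent.B4 Pool.Agent.B8
open Pool.Agent.Lib.MP_696deb_nt.B6 (Act0 Dual3 N2 inv_cupb_right0)

theorem ukp_card {G M : Type} [AddCommGroup G] [AddCommGroup M] (A A' : AddSubgroup G) [Finite A]
    (f : G →+ M) (h : ∀ x, x ∈ A' ↔ x ∈ A ∧ f x = 0) (p : M → Prop) [Finite {y // p y}]
    (hp : ∀ x ∈ A, p (f x)) : Nat.card A ≤ Nat.card A' * Nat.card {y // p y} := by
  have e : Nat.card (f.comp A.subtype).ker = Nat.card A' :=
    Nat.card_congr ⟨fun x => ⟨x.1.1, (h _).2 ⟨x.1.2, x.2⟩⟩,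
      fun x => ⟨⟨x.1, ((h _).1 x.2).1⟩, ((h _).1 x.2).2⟩, fun _ => rfl, fun _ => rfl⟩
  rw [← (f.comp A.subtype).ker.card_mul_index, e, AddSubgroup.index_ker]
  refine Nat.mul_le_mul_left _ (Nat.card_le_card_of_injective
    (fun y => ⟨y.1, by obtain ⟨_, x, rfl⟩ := y; exact hp _ x.2⟩) fun y z k => ?_)
  exact Subtype.ext (Subtype.mk.inj k)

theorem ukp_max {p : ℕ → Prop} (h0 : p 0) {r : ℕ} (h : ¬ p (r + 1)) :
    ∃ r' ≤ r, p r' ∧ ¬ p (r' + 1) := by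
  induction r with
  | zero => exact ⟨0, le_rfl, h0, h⟩
  | succ r ih =>
    by_cases k : p (r + 1)
    · exact ⟨r + 1, le_rfl, k, h⟩
    · obtain ⟨r', a, b⟩ := ih k
      exact ⟨r', a.trans r.le_succ, b⟩

variable [Cp]

theorem Ad.ins {S : Finset Plc} {l : Plc} (h : Ad S) (hl : In l) (k : l.p ∉ S.image Plc.p) :
    l ∉ S ∧ Ad (insert l S) := by
  have e : l ∉ S := fun e => k (mem_image_of_mem _ e)
  refine ⟨e, fun w hw => ?_, ?_⟩
  · rcases mem_insert.1 hw with rfl | hw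
    exacts [hl, h.1 w hw]
  · rw [coe_insert, Set.injOn_insert (by exact_mod_cast e)]
    exact ⟨h.2, by rwa [← coe_image, mem_coe]⟩

theorem Bx.gn_mem (X : Bx) {l : Plc} (h : In l) : gn l ∈ GK NN ⊓ Ine l :=
  ⟨(X.ine l h).1 (gn_spec h.1).1, (gn_spec h.1).1⟩

theorem US.dv_zero (U : US) (K : U.Kd) {S : Finset Plc} (h : Ad S) : U.Dv S 0 :=
  ⟨_, K.fx S h, by rw [pow_zero, one_smul]⟩

/-- The class of a quotient of a corrected derivative. -/
theorem ukp_kc (KC : KCStmt) (U : US) (X : Bx) (M : Bm) (K : U.Kd) {S : Finset Plc} (hS : Ad S)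
    {r j : ℕ} (hd : ∀ w ∈ S, 2 ^ (r + j) ∣ w.p + 1) {Z : TT} (hZ : Z ∈ U.Fx S)
    (e : 2 ^ r • Z = U.n S) : ∃ R κ, Kc U S j Z R κ := by
  refine KC U S j Z X M K hS hZ (M.un r Z (e ▸ K.un S hS)) fun g hg => ?_
  obtain ⟨D, hD, k⟩ := K.div S (r + j) hS hd g hg
  refine ⟨D, hD, sub_eq_zero.1 (K.tors S hS _ (sub_mem (nsmul_mem hD _)
    (sub_mem (K.smul S hS g Z hZ) hZ)) r ?_)⟩
  rw [smul_sub, smul_sub, ← mul_smul, ← pow_add, k, ← e, smul_comm g, sub_self]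

theorem ukp_om (M : Bm) {e j : ℕ} {c : Gam → Mv j} (h : Coc (GK NN) (am e j) c) :
    Coc (GK NN) (am e j) fun g => omM j (c g) :=
  ⟨h.1.comp _, fun g hg k hk => by
    dsimp only
    rw [h.2 g hg k hk, map_add, M.omm e j g hg]⟩

theorem ukp_nc (X : Bx) (M : Bm) {j : ℕ} {w : Plc} (hw : w.p = 2) {S : Finset Plc}
    {ξ : Gam → Mv j} (h : ξ ∈ Bs j w S) (h0 : ξ ≠ 0) : Nc 0 j ξ := by
  refine ⟨h.1.1, fun ⟨x, hx⟩ => h0 (funext fun g => ?_)⟩
  obtain ⟨a, -, σ, b, c⟩ := X.two w hw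
  have e : x = 0 := (M.fpf 0 j σ (a b) (by rw [c]; decide)).1 (by
    have := (hx σ (a b)).symm.trans (h.2.2.1 σ ⟨a b, Ine_le w b⟩)
    simpa [cob] using this)
  by_cases hg : g ∈ GK NN
  · rw [hx g hg, e, cob, map_zero, sub_zero, Pi.zero_apply]
  · exact h.1.2 g hg

/-- Orthogonality at the new prime. -/
theorem ukp_rc (RC : RCStmt) (X : Bx) (M : Bm) {j : ℕ} {w l : Plc} (hw : w.p = 2)
    {S : Finset Plc} (hS : Ad (insert l S)) (hd : ∀ v ∈ insert l S, 2 ^ j ∣ v.p + 1)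
    {κ ξ : Gam → Mv j} (hκ : Coc (GK NN) (am 1 j) κ) (u : Ur (insert l S) κ) (h : ξ ∈ Bs j w S) :
    bm j (κ (gn l)) (ξ (fq l)) = 0 := by
  obtain ⟨F⟩ := exists_cft
  obtain ⟨sig, hs⟩ := M.dual
  have z : ∀ v ∈ insert l S, ξ (gn v) = 0 := fun v hv =>
    h.2.1 v (hS.1 v hv).1 (by simp) _ (X.gn_mem (hS.1 v hv))
  rw [← RC F j w l _ κ ξ X M hw hS (mem_insert_self _ _) hd hκ h.1.1 u
    (fun v a _ => h.2.1 v a (by simp))
    (inv_cupb_right0 F (op_GK _) ((hs j).zero.mono inf_le_left) (hκ.mono inf_le_left) (y := 0)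
      fun g hg => by rw [h.2.2.1 g hg, cob, map_zero, sub_zero])
    fun v hv e => by
      rw [z v hv, h.2.2.2 v ((mem_insert.1 hv).resolve_left e), map_zero, map_zero],
    z l (mem_insert_self _ _), map_zero]

/-- The invariant of the induction. -/
structure KPi (U : US) (j : ℕ) (w : Plc) (S : Finset Plc) (r : ℕ) : Prop where
  ad : Ad S
  dvd : ∀ v ∈ S, 2 ^ (2 * j + 1) ∣ v.p + 1
  le : r ≤ j
  dv : U.Dv S r
  nd : ¬ U.Dv S (r + 1)
  fin : Finite (Bs j w S)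
  card : 4 ^ r ≤ Nat.card (Bs j w S)

theorem ukp_step (RC : RCStmt) (PR : PRStmt) (P3 : P3Stmt) (KC : KCStmt) (ST : STStmt) (U : US)
    (X : Bx) (M : Bm) (K : U.Kd) {j r : ℕ} {w : Plc} (hw : w.p = 2) {S : Finset Plc}
    (h : KPi U j w S r) (hr : r ≠ 0) :
    ∃ S' r', KPi U j w S' r' ∧ Nat.card (Bs j w S') < Nat.card (Bs j w S) := by
  have := h.fin
  have hj := h.le
  obtain ⟨⟨ξ0, m0⟩, n0⟩ : ∃ ξ : Bs j w S, ξ ≠ 0 :=
    have := Finite.one_lt_card_iff_nontrivial.1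
      ((one_lt_pow₀ (by norm_num) hr).trans_le h.card)
    exists_ne 0
  obtain ⟨Z, hZ, e⟩ := h.dv
  obtain ⟨R, t, ht⟩ := ukp_kc KC U X M K h.ad (j := 1)
    (fun v hv => (pow_dvd_pow 2 (by omega)).trans (h.dvd v hv)) hZ e
  obtain ⟨l, l1, l2, l3, l4, l5⟩ := P3 j (2 * j + 1) (S.image Plc.p) ξ0 t X M (by omega)
    (ukp_nc X M hw m0 fun k => n0 (Subtype.ext k))
    (ht.nc fun ⟨Z', a, b⟩ => h.nd ⟨Z', a, by rw [pow_add, mul_smul, b, e]⟩)
  obtain ⟨ls, ad⟩ := h.ad.ins l2 l1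
  have dv : ∀ k ≤ 2 * j + 1, ∀ v ∈ insert l S, 2 ^ k ∣ v.p + 1 := fun k hk v hv =>
    (pow_dvd_pow 2 hk).trans (by
      rcases mem_insert.1 hv with rfl | hv
      exacts [l3, h.dvd v hv])
  have nz : -emb 1 (t (fq l)) ≠ 0 := fun k =>
    l5 (M.inj 1 ((neg_eq_zero.1 k).trans (map_zero _).symm))
  have nd : ¬ U.Dv (insert l S) (r + 1) := fun ⟨Z', a, b⟩ => by
    obtain ⟨R', κ, hκ⟩ := ukp_kc KC U X M K ad (j := 0) (dv _ (by omega)) a b
    have k := ST U S l r (r + 1) 0 0 Z R Z' R' t κ X M K ls ad hZ e ht a b hκ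
      (dv _ (by omega) l (mem_insert_self _ _)) rfl
    rw [← map_nsmul, M.kil, map_zero] at k
    exact nz k.symm
  obtain ⟨r', r1, ⟨Z', a, b⟩, r3⟩ := ukp_max (U.dv_zero K ad) nd
  obtain ⟨d, rfl⟩ := Nat.exists_eq_add_of_le r1
  have key : ∀ ξ ∈ Bs j w S, 2 ^ d • ξ (fq l) = 0 := fun ξ hξ => by
    rcases le_or_gt j d with c | c
    · obtain ⟨u, rfl⟩ := Nat.exists_eq_add_of_le' c
      rw [pow_add, mul_smul, M.kil, smul_zero]
    obtain ⟨R', κ, hκ⟩ := ukp_kc KC U X M K ad (j := j) (dv _ (by omega)) a b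
    have k := ST U S l (r' + d) r' j (j - d - 1) Z R Z' R' t κ X M K ls ad hZ e ht a b hκ
      (dv _ (by omega) l (mem_insert_self _ _)) (by omega)
    refine (PR j).2.2 (j - d - 1) d (κ (gn l)) _ (by omega)
      (ukp_rc RC X M hw ad (dv _ (by omega)) hκ.coc.1 hκ.ur hξ)
      (ukp_rc RC X M hw ad (dv _ (by omega)) (ukp_om M hκ.coc.1)
        (fun v a b σ c => (congrArg _ (hκ.ur v a b σ c)).trans (map_zero _)) hξ) fun z => nz ?_
    rw [← k, ← map_nsmul, z, map_zero]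
  have mem : ∀ ξ, ξ ∈ Bs j w (insert l S) ↔ ξ ∈ Bs j w S ∧ ξ (fq l) = 0 := fun ξ =>
    ⟨fun c => ⟨⟨c.1, c.2.1, c.2.2.1, fun v hv => c.2.2.2 v (mem_insert_of_mem hv)⟩,
      c.2.2.2 l (mem_insert_self _ _)⟩, fun c => ⟨c.1.1, c.1.2.1, c.1.2.2.1, fun v hv => by
        rcases mem_insert.1 hv with rfl | hv
        exacts [c.2, c.1.2.2.2 v hv]⟩⟩
  have lt : Bs j w (insert l S) < Bs j w S :=
    lt_of_le_of_ne (fun ξ c => ((mem ξ).1 c).1) fun c => l4 ((mem ξ0).1 (c ▸ m0)).2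
  have c := h.card.trans ((ukp_card _ _ (Pi.evalAddMonoidHom (fun _ => Mv j) (fq l)) mem
    (fun y => 2 ^ d • y = 0) key).trans (Nat.mul_le_mul_left _ ((PR j).2.1 d)))
  rw [pow_add] at c
  refine ⟨insert l S, r', ⟨ad, dv _ le_rfl, by omega, ⟨Z', a, b⟩, r3,
    Finite.of_injective _ (AddSubgroup.inclusion_injective lt.le),
    Nat.le_of_mul_le_mul_right c (by positivity)⟩, ?_⟩
  exact Set.Finite.card_lt_card (Set.toFinite (Bs j w S : Set (Gam → Mv j))) lt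

omit [Cp]

theorem kp_stmt (KU : KUStmt) (GB : GBStmt) (RC : RCStmt) (PR : PRStmt) (P3 : P3Stmt)
    (KC : KCStmt) (ST : STStmt) : KPStmt := by
  intro _ U X M K I
  have hw : w2.p = 2 := pl_p _ _
  have a0 : Ad (∅ : Finset Plc) := ⟨by simp, by simp⟩
  obtain ⟨j, -, j1, j2⟩ := ukp_max (U.dv_zero K a0) (r := classNumber Lc) fun h =>
    absurd (Nat.le_of_dvd (classNumber_pos _) (I _ h))
      (not_le.2 ((Nat.lt_succ_self _).trans Nat.lt_two_pow_self))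
  obtain ⟨g1, g2, g3⟩ := GB j w2 X M hw
  have c := KU j X M (I j j1) g1
  rw [g3, show 64 ^ j = 16 ^ j * 4 ^ j from mul_pow 16 4 j] at c
  have key : ∀ (N : ℕ) (S : Finset Plc) (r : ℕ), KPi U j w2 S r → Nat.card (Bs j w2 S) = N →
      ∃ S, Ad S ∧ ¬ U.Dv S 1 := by
    intro N
    induction N using Nat.strong_induction_on with
    | _ N ih =>
      rintro S r h rfl
      rcases eq_or_ne r 0 with rfl | hr
      · exact ⟨S, h.ad, h.nd⟩
      · obtain ⟨S', r', a, b⟩ := ukp_step RC PR P3 KC ST U X M K hw h hr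
        exact ih _ b S' r' a rfl
  exact key _ ∅ j ⟨a0, by simp, le_rfl, j1, j2, g2,
    Nat.le_of_mul_le_mul_left c (by positivity)⟩ rfl

end Pool.Agent.B10
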