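import Pool.Agent.Lib.MP_696deb_nt.B10.UZ
import Pool.Agent.Lib.MP_696deb_nt.B8.LC
import Pool.Agent.Lib.MP_696deb_nt.B8.A3
import Pool.Agent.Lib.MP_696deb_nt.B8.A4
import Pool.Agent.Lib.MP_696deb_nt.B2.GWc

/-! The lower bound from Kummer theory. -/

set_option autoImplicit false

open NumberField Finset
open scoped Classical NNReal

namespace Pool.Agent.B10
open Pool.Agent.Lib.MP_696deb_nt Pool.Agent.Lib.MP_696deb_nt.B2 Pool.Agent.Lib.MP_696deb_nt.B2.CM
  Pool.Agent.B6 Pool.Agent.B4 Pool.Agent.B8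

/-- An odd power can be removed. -/
theorem uku_odd {L : Type} [Field L] {β γ : L} {j : ℕ} (h0 : β ≠ 0)
    (h : β ^ 9 = γ ^ 2 ^ j ∨ β ^ 9 = -γ ^ 2 ^ j) : ∃ δ : L, β = δ ^ 2 ^ j ∨ β = -δ ^ 2 ^ j := by
  obtain ⟨u, v, e⟩ : IsCoprime (9 : ℤ) (2 ^ j) :=
    (Int.isCoprime_iff_gcd_eq_one.2 (by decide)).pow_right
  have k : β = (β ^ 9) ^ u * (β ^ v) ^ 2 ^ j := by
    rw [← zpow_natCast, ← zpow_natCast, ← zpow_mul, ← zpow_mul, ← zpow_add₀ h0]
    push_cast
    rw [mul_comm 9, e, zpow_one]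
  have k' : (γ ^ u * β ^ v) ^ 2 ^ j = (γ ^ 2 ^ j) ^ u * (β ^ v) ^ 2 ^ j := by
    rw [mul_pow, ← zpow_natCast (γ ^ u), ← zpow_natCast γ, ← zpow_mul, ← zpow_mul, mul_comm u]
  refine ⟨γ ^ u * β ^ v, ?_⟩
  rw [k']
  rcases h with h | h <;> rw [h] at k
  · exact Or.inl k
  · rcases Int.even_or_odd u with p | p
    · exact Or.inl (by rwa [p.neg_zpow] at k)
    · exact Or.inr (by rwa [p.neg_zpow, neg_mul] at k)

variable [Cp]

theorem uku_pm (g : Gam) : pm g 0 = xc g := by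
  rw [pm]
  split_ifs <;> simp

/-- The conjugates of the cubic field. -/
theorem uku_cj (hx : Bx) : ∃ (σ : Gam) (e : I3 → Lc →ₐ[ℚ] Qbar), σ ∈ GK NN ∧ xc σ ≠ 0 ∧
    (∀ x, e 0 x = x) ∧ (∀ (g : Gam) i x, g (e i x) = e (pm g i) x) ∧ Function.Bijective e := by
  obtain ⟨w, hw⟩ := exists_plc Nat.prime_two
  obtain ⟨h1, -, σ, h2, h3⟩ := hx.two w hw
  have h4 : ∀ n : ℕ, pm (σ ^ n) 0 = n := fun n => by
    induction n with
    | zero => rw [pow_zero, pm_one, Nat.cast_zero]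
    | succ n ih => rw [pow_succ', pm_mul, ih, pm_of_mem (h1 h2), h3, Nat.cast_succ, add_comm]
  have h5 : ∀ (g : Gam) (i k : I3), (σ ^ k.val)⁻¹ * (g * σ ^ i.val) ∈ HL ↔ pm g i = k :=
    fun g i k => by
      rw [hx.hl, ← uku_pm, pm_mul, pm_mul, h4, ZMod.natCast_zmod_val]
      refine (pE (σ ^ k.val)).symm_apply_eq.trans ?_
      rw [show pE (σ ^ k.val) 0 = _ from h4 _, ZMod.natCast_zmod_val]
  refine ⟨σ, fun i => (σ ^ i.val : Gam).toAlgHom.comp Lc.val, h1 h2, by rw [h3]; decide,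
    fun x => rfl, fun g i x => ?_, (Fintype.bijective_iff_injective_and_card _).2
      ⟨fun i k e => ?_, ?_⟩⟩
  · have := congrArg (σ ^ (pm g i).val) (fx_Kf x _ ((h5 g i _).2 rfl))
    rwa [← AlgEquiv.mul_apply, mul_inv_cancel_left] at this
  · rw [← pm_one i, ← h5, one_mul]
    have k1 : (σ ^ i.val) (2 * e0) = (σ ^ k.val) (2 * e0) := DFunLike.congr_fun e ⟨_, e0_mem⟩
    rw [map_mul, map_mul, map_ofNat, map_ofNat, mul_right_inj' two_ne_zero] at k1
    change ((σ ^ k.val)⁻¹ * σ ^ i.val) e0 = e0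
    rw [AlgEquiv.mul_apply, k1, ← AlgEquiv.mul_apply, inv_mul_cancel, AlgEquiv.one_apply]
  · rw [AlgHom.card, finrank_Kf op_HL, index_HL]
    rfl

variable {σ : Gam} {j : ℕ}

/-- Roots of rational points are rational. -/
theorem uku_fix (hm : Bm) (h1 : σ ∈ GK NN) (h2 : xc σ ≠ 0) {z : TT}
    (h3 : ∀ g : Gam, g • 2 ^ j • z = 2 ^ j • z) (h4 : ∀ g ∈ GK NN, g • z = z) (g : Gam) :
    g • z = z := by
  refine sub_eq_zero.1 (hm.fix σ h1 h2 j _ (by rw [smul_sub, ← smul_comm g, h3, sub_self]) ?_)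
  rw [smul_sub, h4 σ h1, ← mul_smul, show σ * g = g * (g⁻¹ * σ * g) by group, mul_smul,
    h4 _ ((normal_GK NN).conj_mem' σ h1 g)]

/-- The two rational parts of a divisible point. -/
theorem uku_split (hm : Bm) {d d' z : TT} (hd : ∀ g : Gam, g • d = d) (hd' : ∀ g : Gam, g • d' = d')
    (hz : ∀ g ∈ GK NN, g • z = z) (e : 2 ^ j • z = d + om d') :
    (∃ y, (∀ g ∈ GK NN, g • y = y) ∧ 2 ^ j • y = 3 • d) ∧
      ∃ y, (∀ g ∈ GK NN, g • y = y) ∧ 2 ^ j • y = 3 • d' := by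
  have e1 : 2 ^ j • cc • z = d + om (om d') := by
    rw [← smul_comm, e, smul_add, hd, hm.cc_om, hd']
  have f1 : ∀ g ∈ GK NN, g • (z - cc • z) = z - cc • z := fun g hg => by
    rw [smul_sub, hz g hg, ← mul_smul, show g * cc = cc * (cc⁻¹ * g * cc) by group, mul_smul,
      hz _ ((normal_GK NN).conj_mem' g hg cc)]
  have e2 : 2 ^ j • (z - cc • z) = om d' - om (om d') := by rw [smul_sub, e, e1]; abel
  generalize z - cc • z = t at f1 e2
  have f2 : ∀ g ∈ GK NN, g • (om (om t) - om t) = om (om t) - om t := fun g hg => by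
    rw [smul_sub, hm.smul_om g hg, hm.smul_om g hg, f1 g hg]
  have e3 : 2 ^ j • (om (om t) - om t) = 3 • d' := by
    rw [smul_sub, ← map_nsmul, ← map_nsmul, e2]
    simp only [map_sub]
    linear_combination (norm := abel) 3 • hm.om3 (om d') - hm.om3 (om (om d')) - 3 • hm.om3 d'
  refine ⟨⟨3 • z - om (om (om t) - om t), fun g hg => ?_, ?_⟩, _, f2, e3⟩
  · rw [smul_sub, smul_comm, hz g hg, hm.smul_om g hg, f2 g hg]
  · rw [smul_sub, smul_comm, e, ← map_nsmul, e3, map_nsmul, smul_add, add_sub_cancel_right]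

/-- Inertia fixes the roots of points whose valuations are divisible. -/
theorem uku_ine (hx : Bx) (hm : Bm) {w : Plc} (hw : w.p ≠ 2) {g : Gam} (hg : g ∈ GK NN ⊓ Ine w)
    {R : TT} (h1 : g • 2 ^ j • R = 2 ^ j • R)
    (h2 : ∀ i, ∃ u, g u = u ∧ w.V (co (2 ^ j • R) i) = w.V u ^ 2 ^ j) : g • R = R := by
  refine sub_eq_zero.1 (hm.tors w hw _ (fun i => ?_) j (by rw [smul_sub, ← smul_comm g, h1, sub_self]))
  obtain ⟨u, k1, k2⟩ := h2 i
  rw [co_nsmul, map_pow, pow_left_inj₀ zero_le zero_le (by positivity)] at k2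
  have c0 := co_ne R i
  have u0 : u ≠ 0 := fun e => c0 (w.V.zero_iff.1 (by rw [k2, e, map_zero]))
  have k3 : w.V (co R i / u) = 1 := by rw [map_div₀, k2, div_self (w.V.ne_zero_iff.2 u0)]
  have k4 := hg.2.2 _ k3.le
  rw [co_sub, co_smul, pm_of_mem (inv_mem hg.1), hx.odd w hw _ (inv_mem hg), zero_add,
    show g (co R i) / co R i - 1 = (g (co R i / u) - co R i / u) / (co R i / u) by
      rw [map_div₀, k1]; field_simp, map_div₀, k3, div_one]
  exact k4

/-- The Kummer cocycle. -/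
theorem uku_coc (hm : Bm) {R : TT} (h : ∀ g ∈ GK NN, g • 2 ^ j • R = 2 ^ j • R) :
    ∃ c ∈ Z1 (GK NN) (am 1 j), ∀ g ∈ GK NN, emb j (c g) = g • R - R := by
  have k : ∀ g ∈ GK NN, emb j (Function.invFun (emb j) (g • R - R)) = g • R - R := fun g hg =>
    Function.invFun_eq (hm.onto j _ (by rw [smul_sub, ← smul_comm g, h g hg, sub_self]))
  refine ⟨_, rs_mem_Z1 (c := fun g => Function.invFun (emb j) (g • R - R))
    ⟨((hm.sm R).mono le_top).comp fun x => Function.invFun (emb j) (x - R),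
      fun g hg g' hg' => hm.inj j ?_⟩, fun g hg => by rw [rs_of_mem hg, k g hg]⟩
  rw [map_add, ← smul_emb, k g hg, k g' hg', k _ (mul_mem hg hg'), smul_sub, mul_smul]
  abel

omit [Cp] in
theorem ku_stmt (kb : KBStmt) : KUStmt := by
  intro _ j hx hm hj hf
  obtain ⟨σ, e, s1, s2, e0, e1, e2⟩ := uku_cj hx
  obtain ⟨θ, -, hC, him⟩ := lc_stmt
  have hd : discr Lc < 0 := by
    obtain ⟨i, -, hi⟩ := a3_stmt Lc θ hC
    have := WZ_neg
    nlinarith [sq_nonneg (i : ℤ)]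
  obtain ⟨ε, -, n1, n2⟩ := (a4_stmt Lc hC.rank hd).2.2.2 (jC.comp (algebraMap Lc Qbar)) him
  obtain ⟨α, a1, a2⟩ := kb Lc (ComplexEmbedding.IsReal.embedding
    (φ := jC.comp (algebraMap Lc Qbar)) (ComplexEmbedding.isReal_iff.2
      (RingHom.ext fun x => Complex.conj_eq_iff_im.2 (him x)))) ε j n1 n2 hj
  have a0 : ∀ a, (α a : Lc) ≠ 0 := fun a => RingOfIntegers.coe_ne_zero_iff.2 (a1 a).1
  have p0 : ∀ a, ∏ i, e i (α a) ≠ 0 := fun a => prod_ne_zero_iff.2 fun i _ =>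
    (map_ne_zero _).2 (a0 a)
  have pn : ∀ x : Lc, ∏ i, e i x = algebraMap ℚ Qbar (Algebra.norm ℚ x) := fun x => by
    rw [Algebra.norm_eq_prod_embeddings]
    exact e2.prod_comp fun f => f x
  let y : Fin (4 ^ j) → TT := fun a => mkT (fun i => e i (α a) ^ 3 / ∏ k, e k (α a)) (by
    rw [prod_div_distrib, prod_pow, prod_const]
    exact div_self (pow_ne_zero _ (p0 a)))
  have y1 : ∀ a (g : Gam), g • y a = y a := fun a g => TT.ext fun i => by
    rw [co_smul, co_mkT, co_mkT, map_div₀, map_pow, e1, ← pm_mul, mul_inv_cancel, pm_one, pn,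
      AlgEquiv.commutes]
  have y2 : ∀ a b z, (∀ g ∈ GK NN, g • z = z) → 2 ^ j • z = 3 • (y a - y b) → a = b :=
    fun a b z h1 h2 => by
      have h3 := uku_fix hm s1 s2 (j := j) (fun g => by rw [h2, smul_comm, smul_sub, y1, y1]) h1
      have h4 : co z 0 ∈ B8.Lc := (IntermediateField.mem_fixedField_iff _ _).2 fun g hg => by
        have := congrArg (co · 0) (h3 g)
        rwa [co_smul, uku_pm, (hx.hl _).1 (inv_mem hg)] at this
      have h5 := congrArg (co · 0) h2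
      simp only [co_nsmul, co_sub, y, co_mkT, e0, pn] at h5
      obtain ⟨q, hq⟩ := (a1 a).2.1
      obtain ⟨r, hr⟩ := (a1 b).2.1
      have m0 := Algebra.norm_ne_zero_iff (R := ℚ).2 (a0 a)
      have m1 := Algebra.norm_ne_zero_iff (R := ℚ).2 (a0 b)
      have h6 : ((α a : Lc) / α b) ^ 9 = (⟨_, h4⟩ : Lc) ^ 2 ^ j *
          algebraMap ℚ Lc (Algebra.norm ℚ (α a : Lc) / Algebra.norm ℚ (α b : Lc)) ^ 3 := by
        refine (algebraMap Lc Qbar).injective ?_
        have b0 := (map_ne_zero (algebraMap ℚ Qbar)).2 m0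
        have b1 := (map_ne_zero (algebraMap ℚ Qbar)).2 m1
        have b2 : ((α b : Lc) : Qbar) ≠ 0 := (map_ne_zero (algebraMap Lc Qbar)).2 (a0 b)
        simp only [map_mul, map_pow, map_div₀, ← IsScalarTower.algebraMap_apply ℚ B8.Lc Qbar,
          IntermediateField.algebraMap_apply, h5]
        field_simp
      have h7 : |Algebra.norm ℚ (α a : Lc) / Algebra.norm ℚ (α b : Lc)| = (q / r) ^ 2 ^ j := by
        rw [abs_div, hq, hr, div_pow]
      obtain ⟨δ, h8⟩ := uku_odd (γ := (⟨_, h4⟩ : Lc) * algebraMap ℚ Lc (q / r) ^ 3) (j := j)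
        (div_ne_zero (a0 a) (a0 b)) (by
          rw [h6, mul_pow, ← pow_mul, mul_comm 3, pow_mul, ← map_pow (algebraMap ℚ Lc) (q / r), ← h7]
          rcases abs_choice (Algebra.norm ℚ (α a : Lc) / Algebra.norm ℚ (α b : Lc)) with k | k
          · exact Or.inl (by rw [k])
          · exact Or.inr (by rw [k, map_neg]; ring))
      exact a2 a b δ (h8.imp (fun k => by rw [← k, mul_div_cancel₀ _ (a0 b)])
        fun k => by rw [← mul_neg, ← k, mul_div_cancel₀ _ (a0 b)])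
  choose R hR using fun a : Fin (4 ^ j) × Fin (4 ^ j) => hm.half j (y a.1 + om (y a.2))
  have r1 : ∀ a (t : Mv j), 2 ^ j • (R a + emb j t) = y a.1 + om (y a.2) := fun a t => by
    rw [smul_add, hR, ← map_nsmul, hm.kil, map_zero, add_zero]
  have r2 : ∀ a (t : Mv j), ∀ g ∈ GK NN, g • 2 ^ j • (R a + emb j t) = 2 ^ j • (R a + emb j t) :=
    fun a t g hg => by rw [r1, smul_add, hm.smul_om g hg, y1, y1]
  choose c c1 c2 using fun a t => uku_coc hm (r2 a t)
  have c3 : ∀ a t, Ur ∅ (c a t) := fun a t w hw _ g hg => hm.inj j (by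
    rw [c2 a t g hg.1, map_zero, sub_eq_zero]
    refine uku_ine hx hm hw hg (r2 a t g hg.1) fun i => ?_
    have k : ∀ a i, ∃ u, g u = u ∧ w.V (co (y a) i) = w.V u ^ 2 ^ j := fun a i => by
      choose u hu using fun k => (a1 a).2.2 (w.V.comap (e k).toRingHom) fun x =>
        w.V_le_one_of_isIntegral (map_isIntegral_int (e k) x.2)
      have hu' : ∀ k, w.V (e k (α a)) = w.V (e k (u k)) ^ 2 ^ j := hu
      refine ⟨e i (u i) ^ 3 / ∏ k, e k (u k), ?_, ?_⟩
      · simp only [map_div₀, map_pow, map_prod, e1, pm_of_mem hg.1, hx.odd w hw g hg, zero_add]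
      · simp only [y, co_mkT, map_div₀, map_pow, map_prod, hu', div_pow, prod_pow]
        rw [← pow_mul, ← pow_mul, mul_comm]
    obtain ⟨u, u1, u2⟩ := k a.1 i
    obtain ⟨v, v1, v2⟩ := k a.2 (i + 1)
    exact ⟨u * v, by rw [map_mul, u1, v1], by
      rw [r1, co_add, co_om, map_mul, u2, v2, map_mul, mul_pow]⟩)
  let m : ZMod (2 ^ j) × ZMod (2 ^ j) → Mv j := fun t => ⟨![t.1, t.2, -t.1 - t.2], by
    exact (sum_I3 _).trans (show t.1 + t.2 + (-t.1 - t.2) = 0 by ring)⟩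
  have := Nat.card_le_card_of_injective
    (fun x : (Fin (4 ^ j) × Fin (4 ^ j)) × ZMod (2 ^ j) × ZMod (2 ^ j) =>
      (⟨c x.1 (m x.2), c1 _ _, c3 _ _⟩ : Sg j)) fun x x' h => by
    have h1 : ∀ g ∈ GK NN, g • (R x.1 + emb j (m x.2) - (R x'.1 + emb j (m x'.2))) =
        R x.1 + emb j (m x.2) - (R x'.1 + emb j (m x'.2)) := fun g hg => by
      have k := c2 x.1 (m x.2) g hg
      rw [show c x.1 (m x.2) = _ from congrArg Subtype.val h, c2 _ _ g hg] at k
      rw [smul_sub]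
      linear_combination (norm := abel) -k
    obtain ⟨⟨z, z1, z2⟩, z', z3, z4⟩ := uku_split hm (j := j) (d := y x.1.1 - y x'.1.1)
      (d' := y x.1.2 - y x'.1.2) (fun g => by rw [smul_sub, y1, y1])
      (fun g => by rw [smul_sub, y1, y1]) h1 (by rw [smul_sub, r1, r1, map_sub]; abel)
    have h2 : x.1 = x'.1 := Prod.ext (y2 _ _ z z1 z2) (y2 _ _ z' z3 z4)
    have h3 := hm.fix σ s1 s2 j _ (by rw [smul_sub, r1, r1, h2, sub_self]) (h1 σ s1)
    rw [h2, sub_eq_zero, add_right_inj] at h3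
    have h4 := congrArg Subtype.val (hm.inj j h3)
    exact Prod.ext h2 (Prod.ext (congrFun h4 0) (congrFun h4 1))
  simp only [Nat.card_prod, Nat.card_fin, Nat.card_zmod, ← mul_pow] at this
  exact this

end Pool.Agent.B10
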