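import Pool.Agent.Lib.MP_696deb_nt.B10.UZ
import Pool.Agent.Lib.MP_696deb_nt.B8.NB
import Pool.Agent.Lib.MP_696deb_nt.B3.CMd

/-! The neighbours for an inert prime, with the structure of level two. -/

set_option autoImplicit false

open Complex NumberTheorySymbols
open scoped Classical

namespace Pool.Agent.B10
open Pool.Agent.Lib.MP_696deb_nt Pool.Agent.Lib.MP_696deb_nt.B2.CM Pool.Agent.B8
open Pool.Agent.Lib.MP_696deb_nt.B3.CM

theorem unl_fib {n d m l : ℕ} {s : ℤ} {τ : ℂ} (hm : m = d * l) (ok : Ok n d) (hl : l.Prime)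
    (hi : Inert n l) (hd : ¬ l ∣ d) (hs : ¬ (l : ℤ) ∣ s) (hτ : 0 < τ.im)
    (hI : IsIv (Oc n d) (sp2 τ 1)) : (∀ k, IsIv (Oc n m) (nb l s τ k)) ∧
      (Function.Injective fun k => cl (Oc n m) (nb l s τ k)) ∧
      ∀ x, pj n d m x = cl _ (sp2 τ 1) ↔ ∃ k, cl (Oc n m) (nb l s τ k) = x := by
  subst hm
  have hv : ∀ k, IsIv (Oc n (d * l)) (nb l s τ k) ∧ nb l s τ k * ot (Oc n d) = sp2 τ 1 :=
    fun k => by
      have hm := nb_mid (s := s) hl hτ.ne' k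
      exact isIv_of_not_st ok hl hI hm.1 hm.2 (not_st_inert ok hl hi hd hI hm.1 hm.2)
  refine ⟨fun k => (hv k).1, fun i j e => ?_, fun x => ⟨fun hx => ?_, ?_⟩⟩
  · obtain ⟨t, -, e⟩ := (cl_eq_iff (hv i).1 (hv j).1).1 e
    have e2 := (hv j).2
    rw [e, sc_mul, (hv i).2] at e2
    refine (cmd_nb_eq hl hs hτ.ne' (e.le.trans fun z hz => ?_)).symm
    obtain ⟨y, hy, rfl⟩ := mem_sc.1 hz
    rcases hI.unit ok e2 with rfl | rfl
    · rwa [one_mul]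
    · rw [neg_one_mul]
      exact neg_mem hy
  · obtain ⟨i, e⟩ := nb_cl_surj (s := s) (a := 1) (x := x) ok hl hs hτ.ne' one_ne_zero
      (by rwa [sc_one]) (by rwa [sc_one])
    rw [sc_one] at e
    exact ⟨i, e.symm⟩
  · rintro ⟨i, rfl⟩
    rw [pj_cl (dvd_mul_right d l) (hv i).1, (hv i).2]

theorem unl_shift (τ : ℂ) (h : ℤ) : sp2 (τ + h) 1 = sp2 τ 1 :=
  le_antisymm (sp2_le.2 ⟨mem_sp2.2 ⟨1, h, by simp⟩, right_mem_sp2 _ _⟩)
    (sp2_le.2 ⟨mem_sp2.2 ⟨1, -h, by simp⟩, right_mem_sp2 _ _⟩)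

theorem unl_none (l : ℕ) (τ : ℂ) : nl l τ none = l * τ := by
  simp only [nl, rP, ut, act_of, mob]
  push_cast
  ring

theorem unl_some {l : ℕ} (τ : ℂ) (k : Fin l) : nl l τ (some k) = (τ + 16 * (k : ℕ)) / l := by
  simp only [nl, rP, ut, act_of, mob]
  push_cast
  ring

theorem unl_pos {l : ℕ} (hl : l ≠ 0) {τ : ℂ} (hτ : 0 < τ.im) (k : Option (Fin l)) :
    0 < (nl l τ k).im := by
  have : (0 : ℝ) < l := by exact_mod_cast Nat.pos_of_ne_zero hl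
  cases k with
  | none => simpa [unl_none, this] using hτ
  | some k => simpa [unl_some, this] using hτ

theorem unl_nb {l : ℕ} (hl : l ≠ 0) (τ : ℂ) (k : Option (Fin l)) :
    ∃ a : ℂ, a ≠ 0 ∧ nb l 16 τ k = sc a (sp2 (nl l τ k) 1) := by
  have h0 : (l : ℂ) ≠ 0 := Nat.cast_ne_zero.2 hl
  cases k with
  | none => exact ⟨1, one_ne_zero, by rw [sc_one, unl_none]; rfl⟩
  | some k =>
    refine ⟨l, h0, ?_⟩
    rw [sc_sp2, nb, unl_some, mul_div_cancel₀ _ h0, mul_one]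
    norm_num

theorem unl_nb2 {l h : ℕ} (hl : l = 2 * h + 1) (τ : ℂ) (k : Option (Fin l)) : ∃ a : ℂ, a ≠ 0 ∧
    nb l 8 (hk 2 τ (some 1) + (h : ℤ)) k = sc a (sp2 (hk 2 (nl l τ k) (some 1)) 1) := by
  have h0 : (l : ℂ) ≠ 0 := Nat.cast_ne_zero.2 (by omega)
  have h1 : (l : ℂ) = 2 * h + 1 := by exact_mod_cast hl
  cases k with
  | none =>
    refine ⟨1, one_ne_zero, ?_⟩
    rw [sc_one, unl_none, nb, ← unl_shift (hk 2 (l * τ) (some 1)) (l * h + h)]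
    congr 1
    simp only [hk]
    push_cast
    rw [h1]
    simp only [Fin.val_one, Nat.cast_one]
    ring
  | some k =>
    refine ⟨l, h0, ?_⟩
    rw [sc_sp2, nb, unl_some, mul_one]
    congr 1
    simp only [hk]
    push_cast
    simp only [Fin.val_one, Nat.cast_one]
    field_simp
    rw [h1]
    ring

theorem nl_stmt (hNG : NGStmt) : NLStmt := by
  intro n c l τ B x hn hc hl h2 hJ hd hB hx
  have hi : Inert n l := inert_of_jac (by have := hn.m8; omega) hl hJ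
  have ho : Odd l := hl.odd_of_ne_two h2
  obtain ⟨h, e⟩ := ho
  have hp : ∀ j : ℕ, ¬ l ∣ 2 ^ j := fun j a =>
    h2 ((Nat.prime_dvd_prime_iff_eq hl Nat.prime_two).1 (hl.dvd_of_dvd_pow a))
  have c0 : c ≠ 0 := hc.pos.ne'
  obtain ⟨a1, -, -⟩ := unl_fib (s := 16) rfl (hn.ok c0) hl hi hd (by exact_mod_cast hp 4) hB.pos
    hB.iv
  obtain ⟨b1, b2, b3⟩ := unl_fib (s := 8) (τ := hk 2 τ (some 1) + (h : ℤ)) (mul_assoc 2 c l).symm
    (hn.ok (mul_ne_zero two_ne_zero c0)) hl hi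
    (fun a => (hl.dvd_mul.1 a).elim (hp 1) hd) (by exact_mod_cast hp 3) (by simpa using hx.pos)
    (by rw [unl_shift]; exact hx.iv)
  rw [unl_shift, hx.eq] at b3
  refine ⟨_, b2, b3, fun k => ?_⟩
  obtain ⟨a, ha, e1⟩ := unl_nb hl.ne_zero τ k
  obtain ⟨a', ha', e2⟩ := unl_nb2 e τ k
  have r1 := nb_rp (unl_pos hl.ne_zero hB.pos k) ha (a1 k) e1
  have r2 := nb_rp (nb_hk_pos r1.pos (some 1)) ha' (b1 k) e2
  obtain ⟨y, y1, y2, -⟩ := (hNG n (c * l) hn (hc.mul ⟨h, e⟩)).1 _ _ r1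
  refine ⟨?_, r2⟩
  rw [(y2 _).2 ⟨some 1, (y1 _).eq.symm.trans r2.eq⟩]
  exact r1

end Pool.Agent.B10
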