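import Pool.Agent.Lib.MP_696deb_nt.B10.UZ

/-! Linear algebra in the modules of vectors with sum zero. -/

set_option autoImplicit false

open Finset
open scoped Classical

namespace Pool.Agent.B10

theorem upr_two {j : ℕ} (x : Mv j) : x.1 2 = -x.1 0 - x.1 1 := by
  have h : x.1 0 + x.1 1 + x.1 2 = 0 := (sum_I3 _).symm.trans x.2
  linear_combination h

theorem upr_ext {j : ℕ} {x y : Mv j} (h0 : x.1 0 = y.1 0) (h1 : x.1 1 = y.1 1) : x = y :=
  Subtype.ext (funext fun i => by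
    have : i = 0 ∨ i = 1 ∨ i = 2 := by revert i; decide
    rcases this with rfl | rfl | rfl
    exacts [h0, h1, by rw [upr_two, upr_two, h0, h1]])

theorem upr_split (n : ℕ) (p q : ℤ) (h : ¬ (2 ^ n ∣ p ∧ 2 ^ n ∣ q)) :
    ∃ a < n, ∃ u v : ℤ, p = 2 ^ a * u ∧ q = 2 ^ a * v ∧ Odd (u ^ 2 + u * v + v ^ 2) := by
  induction n with
  | zero => simp at h
  | succ n ih =>
    by_cases k : 2 ^ n ∣ p ∧ 2 ^ n ∣ q
    · obtain ⟨⟨u, rfl⟩, v, rfl⟩ := k
      refine ⟨n, n.lt_succ_self, u, v, rfl, rfl, ?_⟩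
      by_contra e
      have : Even u ∧ Even v := by
        rcases Int.even_or_odd u with a | a <;> rcases Int.even_or_odd v with b | b <;>
          simp_all [parity_simps, ← Int.not_even_iff_odd]
      exact h ⟨pow_succ (2 : ℤ) n ▸ mul_dvd_mul_left _ this.1.two_dvd,
        pow_succ (2 : ℤ) n ▸ mul_dvd_mul_left _ this.2.two_dvd⟩
    · obtain ⟨a, ha, r⟩ := ih k
      exact ⟨a, ha.trans n.lt_succ_self, r⟩

theorem upr_unit (j : ℕ) {m : ℤ} (h : Odd m) : IsUnit (m : ZMod (2 ^ j)) := by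
  rw [ZMod.coe_int_isUnit_iff_isCoprime, Nat.cast_pow]
  exact (Int.isCoprime_two_left.2 h).pow_left

theorem pr_stmt : PRStmt := fun j => by
  refine ⟨?_, fun d => ?_, fun e d x y hj h1 h2 hx => ?_⟩
  · have : Function.Bijective fun x : Mv j => (x.1 0, x.1 1) :=
      ⟨fun x y h => upr_ext (congrArg Prod.fst h) (congrArg Prod.snd h), fun p =>
        ⟨⟨![p.1, p.2, -p.1 - p.2], (sum_I3 _).trans (by
          change p.1 + p.2 + (-p.1 - p.2) = 0
          ring)⟩, rfl⟩⟩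
    rw [Nat.card_eq_of_bijective _ this, Nat.card_prod, Nat.card_zmod]
    exact (mul_pow 2 2 j).symm
  · have k : Nat.card {a : ZMod (2 ^ j) // 2 ^ d • a = 0} ≤ 2 ^ d := by
      rw [Nat.card_eq_fintype_card, Fintype.card_subtype]
      exact IsAddCyclic.card_nsmul_eq_zero_le (by positivity)
    have := Nat.card_le_card_of_injective
      (fun y : {y : Mv j // 2 ^ d • y = 0} =>
        ((⟨y.1.1 0, congrFun (congrArg Subtype.val y.2) 0⟩, ⟨y.1.1 1,
          congrFun (congrArg Subtype.val y.2) 1⟩) : {a : ZMod (2 ^ j) // 2 ^ d • a = 0} ×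
            {a : ZMod (2 ^ j) // 2 ^ d • a = 0}))
      fun x y h => Subtype.ext (upr_ext (congrArg (·.1.1) h) (congrArg (·.2.1) h))
    rw [Nat.card_prod] at this
    exact this.trans ((Nat.mul_le_mul k k).trans_eq (mul_pow 2 2 d).symm)
  · obtain ⟨p, hp⟩ := ZMod.intCast_surjective (x.1 0)
    obtain ⟨q, hq⟩ := ZMod.intCast_surjective (x.1 1)
    have z : (2 : ZMod (2 ^ j)) ^ j = 0 := by exact_mod_cast ZMod.natCast_self (2 ^ j)
    obtain ⟨a, ha, u, v, rfl, rfl, ho⟩ := upr_split (d + 1) p q fun ⟨⟨u, hu⟩, v, hv⟩ => hx <| by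
      have k : ∀ w : ℤ, (2 ^ e : ℕ) • ((2 ^ (d + 1) * w : ℤ) : ZMod (2 ^ j)) = 0 := fun w => by
        rw [nsmul_eq_mul]
        push_cast
        rw [← mul_assoc, ← pow_add, show e + (d + 1) = j by omega, z, zero_mul]
      exact upr_ext (hp ▸ hu ▸ k u :) (hq ▸ hv ▸ k v :)
    have hu := upr_unit j (ho.mul (by decide : Odd (3 : ℤ)))
    rw [bm_apply, sum_I3] at h1 h2
    rw [omM_apply, omM_apply, omM_apply, show (0 : I3) + 1 = 1 from rfl,
      show (1 : I3) + 1 = 2 from rfl, show (2 : I3) + 1 = 0 from rfl] at h2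
    rw [upr_two x, upr_two y, ← hp, ← hq] at h1 h2
    obtain ⟨c, rfl⟩ := Nat.exists_eq_add_of_le (Nat.lt_succ_iff.1 ha)
    refine upr_ext (hu.mul_right_eq_zero.1 ?_ : (2 ^ (a + c) : ℕ) • y.1 0 = 0)
      (hu.mul_right_eq_zero.1 ?_ : (2 ^ (a + c) : ℕ) • y.1 1 = 0) <;> rw [nsmul_eq_mul] <;>
      push_cast at h1 h2 ⊢
    · linear_combination 2 ^ c * (2 * u + v) * h1 + 2 ^ c * (u + 2 * v) * h2
    · linear_combination 2 ^ c * (v - u) * h1 - 2 ^ c * (2 * u + v) * h2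

end Pool.Agent.B10
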