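import Pool.Agent.Lib.MP_696deb_nt.B10.UZ

/-! The product formula for the modular unit of level two. -/

set_option autoImplicit false

open Finset Filter Topology

namespace Pool.Agent.B10
open Pool.Agent.Lib.MP_696deb_nt

variable {p : ℕ} {z : ℂ}

theorem upt_some (hp : p ≠ 0) (k : Fin p) (z : ℂ) :
    ph p (some k) z = Dl ((z + (k : ℕ)) / p) / Dl z := by
  rw [ph, rP, phi_ut hp]
  simp [ut, act_of, mob, div_eq_mul_inv]

theorem upt_prod (hp : p ≠ 0) (z : ℂ) : ∏ i, ph p i z =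
    p ^ 12 * (Dl (p * z) * (∏ k : Fin p, Dl ((z + (k : ℕ)) / p)) / Dl z ^ (p + 1)) := by
  simp only [Fintype.prod_option, ph_none, upt_some hp, prod_div_distrib, prod_const, card_univ,
    Fintype.card_fin]
  ring

theorem upt_hol (hp : p.Prime) : Hol fun z => ∏ i, ph p i z := fun z hz =>
  DifferentiableAt.fun_finsetProd fun i _ => by
    have hi := rP_pos hp i
    refine (((qe_Dl.hol _ (act_pos hi hz)).comp z (hol_act hi.ne' z hz)).const_mul _).div
      (.mul ?_ (qe_Dl.hol z hz)) (mul_ne_zero (pow_ne_zero _ (den_ne' hi.ne' hz)) (Dl_ne hz))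
    unfold den
    fun_prop

theorem upt_lim (hp : p ≠ 0) :
    Tendsto (fun z => ∏ i, ph p i z) atI (𝓝 (p ^ 12 * ∏ k : Fin p, q1 ((k : ℕ) / p))) := by
  have h0 : (0 : ℝ) < p := Nat.cast_pos.2 (Nat.pos_of_ne_zero hp)
  have h1 : (p : ℂ) ≠ 0 := Nat.cast_ne_zero.2 hp
  have t : Tendsto (fun z => eul (q1 z) ^ 24) atI (𝓝 1) := by
    simpa [cc_toC, cc_P1] using qe_P1.tendsto.pow 24
  have t1 := t.comp (tendsto_affine h0 0)
  have t2 := tendsto_finsetProd (univ : Finset (Fin p)) fun k _ =>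
    t.comp (tendsto_affine (inv_pos.2 h0) ((k : ℕ) / p))
  have t3 := ((t1.mul t2).div (t.pow (p + 1)) (by simp)).const_mul
    ((p : ℂ) ^ 12 * ∏ k : Fin p, q1 ((k : ℕ) / p))
  simp only [prod_const_one, one_pow, mul_one, div_one] at t3
  refine t3.congr fun z => ?_
  have e : ∀ k : Fin p, (z + (k : ℕ)) / p = ((p : ℝ)⁻¹ : ℝ) * z + (k : ℕ) / p := fun k => by
    push_cast
    ring
  have e1 : q1 (((p : ℝ)⁻¹ : ℝ) * z) ^ p = q1 z := by
    rw [← q1_nat_mul]
    congr 1
    push_cast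
    field_simp
  have := q1_ne z
  simp only [upt_prod hp, Dl_eq, e, prod_mul_distrib, Function.comp, Pi.div_apply, add_zero,
    Complex.ofReal_natCast, mul_pow]
  rw [prod_congr rfl fun k _ => q1_add _ _, prod_mul_distrib, prod_const, card_univ,
    Fintype.card_fin, e1, q1_nat_mul]
  field_simp
  ring

theorem upt_const (hp : p.Prime) (hz : 0 < z.im) :
    ∏ i, ph p i z = p ^ 12 * ∏ k : Fin p, q1 ((k : ℕ) / p) := by
  have h : Inv1 fun z => ∏ i, ph p i z := (permF_ph hp).inv1 (fun _ a => ∏ i, (a i).1)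
    fun _ a σ => Equiv.prod_comp σ fun k => (a k).1
  obtain ⟨A, hA⟩ := QE.exists_of_periodic (upt_hol hp) h.periodic (.of_tendsto (upt_lim hp.ne_zero))
  exact (h.const hA z hz).trans (tendsto_nhds_unique hA.tendsto (upt_lim hp.ne_zero))

theorem upt_per (z : ℂ) (n : ℤ) : Dl (z + n) = Dl z := by
  rw [Dl_eq, Dl_eq, q1_add, q1_int, mul_one]

theorem upt_perm (hp : p ≠ 0) {a : ℕ} (ha : p.Coprime a) (s : ℕ) (z : ℂ) :
    ∏ k : Fin p, Dl ((z + (a * k + s : ℕ)) / p) = ∏ k : Fin p, Dl ((z + (k : ℕ)) / p) := by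
  have h1 : (p : ℂ) ≠ 0 := Nat.cast_ne_zero.2 hp
  let σ : Fin p → Fin p := fun k => ⟨(a * k + s) % p, Nat.mod_lt _ (Nat.pos_of_ne_zero hp)⟩
  have hσ : Function.Injective σ := fun k k' e => Fin.ext (Nat.ModEq.eq_of_lt_of_lt
    (Nat.ModEq.cancel_left_of_coprime ha
      (Nat.ModEq.add_right_cancel' s (congrArg Fin.val e))) k.2 k'.2)
  refine (prod_congr rfl fun k _ => ?_).trans ((Finite.injective_iff_bijective.1 hσ).prod_comp _)
  rw [← upt_per ((z + ((σ k : ℕ) : ℂ)) / p) ((a * k + s) / p : ℕ)]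
  congr 1
  conv_lhs => rw [← Nat.mod_add_div (a * k + s) p]
  simp only [σ, Nat.cast_add, Nat.cast_mul, Int.cast_natCast]
  field_simp
  ring

theorem pt_stmt : PTStmt := by
  intro l τ hl h2 hτ
  refine ⟨?_, ?_⟩
  · obtain ⟨j, hj⟩ := hl.odd_of_ne_two h2
    have h0 : (l : ℂ) ≠ 0 := Nat.cast_ne_zero.2 hl.ne_zero
    have hc : (l : ℂ) = 2 * j + 1 := by exact_mod_cast hj
    have co : ∀ n, l.Coprime (2 ^ n) := fun n =>
      ((Nat.coprime_primes hl Nat.prime_two).2 h2).pow_right n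
    have h3 : 0 < ((τ + 1) / 2).im := by simpa using hτ
    have e := (upt_const hl h3).trans (upt_const hl hτ).symm
    have n1 : Dl (l * τ) * ∏ k : Fin l, Dl ((τ + (k : ℕ)) / l) ≠ 0 := fun k => by
      have := prod_ne_zero_iff.2 fun i (_ : i ∈ univ) => phi_ne (rP_pos hl i) hτ
      exact this ((upt_prod hl.ne_zero τ).trans (by rw [k, zero_div, mul_zero]))
    rw [upt_prod hl.ne_zero, upt_prod hl.ne_zero, mul_right_inj' (pow_ne_zero _ h0),
      div_eq_div_iff (pow_ne_zero _ (Dl_ne h3)) (pow_ne_zero _ (Dl_ne hτ))] at e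
    have a1 : nl l τ none = l * τ := by rw [nl, act_none]; ring
    have a2 : ∀ k : Fin l, nl l τ (some k) = (τ + (2 ^ 4 * k + 0 : ℕ)) / l := fun k => by
      simp only [nl, rP, ut, act_of, mob]
      push_cast
      field_simp
      ring
    have a3 : (l * τ + 1) / 2 = l * ((τ + 1) / 2) + (-j : ℤ) := by
      rw [hc]; push_cast; ring
    have a4 : ∀ k : Fin l, ((τ + (2 ^ 4 * k + 0 : ℕ)) / l + 1) / 2 =
        ((τ + 1) / 2 + (2 ^ 3 * k + j : ℕ)) / l := fun k => by
      push_cast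
      field_simp
      rw [hc]; ring
    simp only [Fintype.prod_option, upt_some two_ne_zero, a1, a2, Fin.val_one, Nat.cast_one,
      Nat.cast_ofNat, a3, a4, upt_per, prod_div_distrib, upt_perm hl.ne_zero (co _)]
    rw [div_pow, div_eq_div_iff n1 (pow_ne_zero _ (Dl_ne hτ)), e, mul_comm]
  · have : q1 (1 / 2) = -1 := by
      rw [q1, ← Complex.exp_pi_mul_I]; congr 1; ring
    rw [upt_const Nat.prime_two hτ, Fin.prod_univ_two]
    simp only [Fin.val_zero, Fin.val_one, Nat.cast_zero, Nat.cast_one, Nat.cast_ofNat, this]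
    norm_num [q1]

end Pool.Agent.B10
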