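import Pool.Agent.Lib.MP_696deb_nt.B10.UZ
import Pool.Agent.Lib.MP_696deb_nt.B7.D9Rf
import Pool.Agent.Lib.MP_696deb_nt.B7.D9Fld
import Pool.Agent.Lib.MP_696deb_nt.B8.AI

/-! The eighth roots of the modular units are abelian and satisfy the congruence of Kronecker. -/

set_option autoImplicit false

open NumberTheorySymbols
open scoped Classical NNReal

namespace Pool.Agent.B10
open Pool.Agent.Lib.MP_696deb_nt Pool.Agent.Lib.MP_696deb_nt.B2 Pool.Agent.Lib.MP_696deb_nt.B2.CM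
  Pool.Agent.B8
open Pool.Agent.B6.D9 (Gf rf_stmt fld_stmt)

variable {n c : ℕ} {f : ℂ → ℂ}

theorem ura_ne : rt 2 ≠ 0 := fun h => by
  have := rt_sq 2
  rw [h] at this
  norm_num at this

theorem ura_pow {u : Pc n (2 * c) → Qbar} (hu : Uv n c u) (hf : Wf f) {τ : ℂ} {B : Pc n c}
    {x : Pc n (2 * c)} (h : Rp n c τ B) (h' : Rp n (2 * c) (hk 2 τ (some 1)) x) {a : Qbar}
    (ha : jC a = f τ) : (a / rt 2) ^ 8 = u x := by
  have e : rt 2 ^ 8 = 16 := by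
    rw [show 8 = 2 * 4 from rfl, pow_mul, rt_sq]
    norm_num
  refine jC.injective ?_
  rw [hu.val τ B _ x h h', div_pow, e, map_div₀, map_pow, ha, hf.pow τ h.pos, map_ofNat]

theorem ura_comm {m : ℕ} (ok : Ok n m) {a : Qbar} (ha : ∀ g ∈ GK n, rho n m g = 1 → g a = a)
    {g h : Gam} (hg : g ∈ GK n) (hh : h ∈ GK n) : (g * h) a = (h * g) a := by
  have k := ha ((h * g)⁻¹ * (g * h)) (mul_mem (inv_mem (mul_mem hh hg)) (mul_mem hg hh)) (by
    rw [rho_mul ok (inv_mem (mul_mem hh hg)), rho_inv ok (mul_mem hh hg), rho_mul ok hh,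
      rho_mul ok hg, mul_comm (rho n m h), inv_mul_cancel])
  rw [← mul_inv_cancel_left (h * g) (g * h), AlgEquiv.mul_apply, k]

theorem ra_stmt (hWF : WFStmt) (hJR : JRStmt) (hNG : NGStmt) (hAB : ABStmt) : RAStmt := by
  intro n c u x hn hc hu
  obtain ⟨f, hf⟩ := hWF
  obtain ⟨τ, h1, h2⟩ := (hNG n c hn hc).2 x (some 1)
  obtain ⟨a, m, ha, m0, hm⟩ := hAB n f τ hn hf ((hJR n hn).2.1 c _ τ hc.pos.ne' h1).1
  refine ⟨a / rt 2, ura_pow hu hf h1 h2 ha, fun g hg h hh => ?_⟩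
  rw [map_div₀, map_div₀, ura_comm (hn.ok m0) hm hg hh, chi_spec (rt_sq 2) (g * h),
    chi_spec (rt_sq 2) (h * g), map_mul, map_mul, mul_comm (chi 2 g)]

theorem urt_gf (hf : Wf f) {A : ValuationSubring ℂ} (h : A.valuation (256 : ℕ) = 1) :
    Gf A 256 fun z => f (16 * z) := by
  obtain ⟨B, hB⟩ := hf.qe
  have z : LZ fun z => f (16 * z) := ⟨1, B, hB⟩
  exact ⟨ai_stmt A 256 _ h hf.mf (z.mem _), fun σ => ⟨hf.mf, hf.mf, G5.LZ.cq z⟩⟩

/-- The residues lie in the field with `l ^ 2` elements. -/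
theorem urt_sq {m : ℕ} (ok : Ok n m) {w : Plc} (h2 : w.p ≠ 2) (hJ : J(-n | w.p) = -1) {b : Qbar}
    (hb : ∀ g ∈ GK n, rho n m g = 1 → g b = b) (hv : w.V b ≤ 1) :
    w.V (b - (b ^ w.p) ^ w.p) < 1 := by
  obtain ⟨φ, hφ⟩ := exists_frob w
  have out : φ ∉ GK n := fun k => by
    have := chi_frob (B4c_not_dvd h2 (by rw [hJ]; decide)) hφ
    rw [B4c_mem.1 k, hJ] at this
    exact absurd this (by decide)
  have k := (hφ.mul hφ).2 b hv
  rwa [hb _ (mul_mem_GK out out) (rho_sq ok out), pow_mul] at k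

theorem urt_euler {l : ℕ} (hl : l.Prime) (h2 : l ≠ 2) :
    ∃ e : ℤ, e ^ 2 = 1 ∧ (l : ℤ) ∣ 2 ^ (l / 2) - e := by
  have : Fact l.Prime := ⟨hl⟩
  have h0 : (2 : ZMod l) ≠ 0 := fun h => h2 ((Nat.prime_dvd_prime_iff_eq hl Nat.prime_two).1
    ((ZMod.natCast_eq_zero_iff 2 l).1 (by exact_mod_cast h)))
  rcases ZMod.pow_div_two_eq_neg_one_or_one l h0 with h | h
  · exact ⟨1, rfl, (ZMod.intCast_zmod_eq_zero_iff_dvd _ l).1 (by push_cast; rw [h, sub_self])⟩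
  · exact ⟨-1, rfl, (ZMod.intCast_zmod_eq_zero_iff_dvd _ l).1 (by push_cast; rw [h, sub_self])⟩

theorem rt_stmt (hWF : WFStmt) (hJR : JRStmt) (hNG : NGStmt) (hNL : NLStmt) (hAB : ABStmt) :
    RTStmt := by
  intro n c l u u' x hn hc hl h2 hJ hlc hu hu'
  obtain ⟨f, hf⟩ := hWF
  have c0 := hc.pos.ne'
  obtain ⟨τ, h1, h3⟩ := (hNG n c hn hc).2 (pj n (2 * c) (2 * (c * l)) x) (some 1)
  obtain ⟨y, -, y2, y3⟩ := hNL n c l τ _ _ hn hc hl h2 hJ hlc h1 h3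
  obtain ⟨k, rfl⟩ := (y2 x).1 rfl
  obtain ⟨j1, j2⟩ := (hJR n hn).2.1 c _ τ c0 h1
  obtain ⟨a, -, ha, -, -⟩ := hAB n f τ hn hf j1
  obtain ⟨b, m, hb, m0, hm⟩ := hAB n f _ hn hf
    ((hJR n hn).2.1 _ _ _ (mul_ne_zero c0 hl.ne_zero) (y3 k).1).1
  obtain ⟨e, e1, e2⟩ := urt_euler hl h2
  have pa := ura_pow hu hf h1 h3 ha
  have pb := ura_pow hu' hf (y3 k).1 (y3 k).2 hb
  refine ⟨_, _, e, pa, pb, by exact_mod_cast e1, fun w hw => ?_⟩
  subst hw
  have nd : ¬ (w.p : ℤ) ∣ 2 := fun h => h2 ((Nat.prime_dvd_prime_iff_eq hl Nat.prime_two).1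
    (by exact_mod_cast h))
  have vs := b2c_rt nd
  have un : ∀ {a x : Qbar}, (a / rt 2) ^ 8 = x → w.V x = 1 → w.V a = 1 := fun {a x} p q => by
    rw [← p, map_pow, map_div₀, vs, div_one] at q
    exact (pow_eq_one_iff_of_nonneg zero_le (by decide)).1 q
  have va := un pa (hu.unit w _)
  have vb := un pb (hu'.unit w _)
  obtain ⟨A, hA⟩ := exists_over w
  have vl : A.valuation (w.p : ℂ) < 1 := by
    have := (hA w.p).2.2 (b4a_V_p w).2
    rwa [map_natCast] at this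
  have nL : ¬ w.p ∣ 256 := fun h => h2 ((Nat.prime_dvd_prime_iff_eq hl Nat.prime_two).1
    (hl.dvd_of_dvd_pow (n := 8) h))
  have vL : A.valuation (256 : ℕ) = 1 := by
    simpa using val_int_eq_one hl vl (n := 256) fun h => nL (by exact_mod_cast h)
  obtain ⟨d, B, hrf, hd⟩ := rf_stmt fld_stmt A 256 _ vL (urt_gf hf vL)
  have e16 : act (ut 1 0 16) τ = τ / 16 := by simp [ut, act_of, mob]
  have d16 : 0 < (ut 1 0 16).det := by rw [det_ut]; decide
  have hj := (val_isog (V := A.valuation) d16 h1.pos (j2 ▸ val_jP _ (hn.ok c0) _)).2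
  have hz := act_pos d16 h1.pos
  rw [e16] at hj hz
  obtain ⟨k0, k1, k2⟩ := B4.GE.RF.kron (by decide) (T := Unit) (A := fun _ => B)
    (h := fun _ z => f (16 * z)) (fun _ => hrf) A hd hl nL vl hz hj
  have et : 16 * (τ / 16) = τ := mul_div_cancel₀ _ (by norm_num)
  have key : w.V (b - a ^ w.p) < 1 := by
    by_cases hk : k = k0
    · have k3 := k1 ()
      rw [← hk, et, ← ha] at k3
      refine (hA _).2.1 ?_
      rwa [map_sub, map_pow, hb]
    · have k3 := k2 k hk ()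
      rw [et, ← ha] at k3
      have k4 : w.V (b ^ w.p - a) < 1 := (hA _).2.1 (by rwa [map_sub, map_pow, hb])
      have k5 := b2a_pow_sub w (by rw [map_pow, vb, one_pow]) va.le k4 w.p
      rw [← sub_add_sub_cancel b ((b ^ w.p) ^ w.p)]
      exact w.V.map_add_lt (urt_sq (hn.ok m0) h2 hJ hm vb.le) k5
  have lo : w.p = 2 * (w.p / 2) + 1 := by
    have := hl.eq_two_or_odd.resolve_left h2
    omega
  have es : rt 2 ^ w.p = 2 ^ (w.p / 2) * rt 2 := by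
    conv_lhs => rw [lo, pow_succ, pow_mul, rt_sq]
    norm_num
  have k6 := b2c_lt.2 e2
  push_cast at k6
  have s0 := ura_ne
  have p0 : (2 : Qbar) ^ (w.p / 2) ≠ 0 := pow_ne_zero _ two_ne_zero
  have v2 : w.V ((2 : Qbar) ^ (w.p / 2)) = 1 := by
    have : w.V (2 : Qbar) = 1 := by exact_mod_cast w.V_int_eq_one.2 nd
    rw [map_pow, this, one_pow]
  rw [div_pow, es, show b / rt 2 - e * (a ^ w.p / (2 ^ (w.p / 2) * rt 2)) =
    (b - a ^ w.p) / rt 2 + a ^ w.p * (2 ^ (w.p / 2) - e) / (2 ^ (w.p / 2) * rt 2) by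
      field_simp; ring]
  refine w.V.map_add_lt ?_ ?_
  · rwa [map_div₀, vs, div_one]
  · rwa [map_div₀, map_mul, map_mul, v2, vs, map_pow, va, one_pow, one_mul, one_mul, div_one]

end Pool.Agent.B10
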