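import Pool.Agent.Lib.MP_696deb_nt.B10.UZ

/-! The lemma of Sah and the eighth roots of the system of units. -/

set_option autoImplicit false

open NumberField NumberTheorySymbols Finset
open scoped Classical NNReal

namespace Pool.Agent.B10
open Pool.Agent.Lib.MP_696deb_nt Pool.Agent.Lib.MP_696deb_nt.B2 Pool.Agent.Lib.MP_696deb_nt.B2.CM
  Pool.Agent.B6 Pool.Agent.B4 Pool.Agent.B8
open Pool.Agent.Lib.MP_696deb_nt.B3.CM (kerR)

/-- Roots of unity are abelian. -/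
theorem usa_comm {ζ : Qbar} (h : ζ ^ 8 = 1) (g k : Gam) : (g * k) ζ = (k * g) ζ := by
  have e : ∀ x : Qbar, x ^ 8 = 1 → ∃ i, zeta 3 ^ i = x := fun x hx =>
    ((zeta_prim 3).eq_pow_of_pow_eq_one hx).imp fun _ a => a.2
  have e1 : ∀ g : Gam, ∃ i, zeta 3 ^ i = g (zeta 3) := fun g => e _ (by
    rw [← map_pow, show zeta 3 ^ 8 = 1 from (zeta_prim 3).pow_eq_one, map_one])
  obtain ⟨i, rfl⟩ := e ζ h
  obtain ⟨a, ha⟩ := e1 g
  obtain ⟨b, hb⟩ := e1 k
  rw [map_pow, map_pow, AlgEquiv.mul_apply, AlgEquiv.mul_apply, ← ha, ← hb, map_pow, map_pow, ← ha,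
    ← hb, pow_right_comm (zeta 3) a b]

theorem usa_quot {a v : Qbar} (h : v ^ 8 = a ^ 8) (ha : a ≠ 0) : ∃ ζ, ζ ^ 8 = 1 ∧ a = ζ * v := by
  have hv : v ≠ 0 := by
    rintro rfl
    exact pow_ne_zero 8 ha (h.symm.trans (zero_pow (by norm_num)))
  exact ⟨a / v, by rw [div_pow, ← h, div_self (pow_ne_zero _ hv)], (div_mul_cancel₀ a hv).symm⟩

/-- Roots of unity of two-power order are distinct at odd places. -/
theorem usa_root {w : Plc} (hw : w.p ≠ 2) (j : ℕ) {ζ : Qbar} (h : ζ ^ 2 ^ j = 1)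
    (h' : w.V (ζ - 1) < 1) : ζ = 1 := by
  have k2 : w.V 2 = 1 := by
    have := (w.V_int_eq_one (a := 2)).2 fun e =>
      hw ((Nat.prime_dvd_prime_iff_eq w.prime Nat.prime_two).1 (by exact_mod_cast e))
    exact_mod_cast this
  induction j generalizing ζ with
  | zero => simpa using h
  | succ j ih =>
    have k3 : w.V (2 + (ζ - 1)) = 1 := (w.V.map_add_eq_of_lt_left (k2 ▸ h')).trans k2
    have k4 : ζ ^ 2 - 1 = (2 + (ζ - 1)) * (ζ - 1) := by ring
    have k5 : ζ ^ 2 = 1 := ih (by rw [← pow_mul, ← pow_succ', h])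
      (by rwa [k4, map_mul, k3, one_mul])
    rw [k5, sub_self] at k4
    refine sub_eq_zero.1 ((mul_eq_zero.1 k4.symm).resolve_left fun e => ?_)
    rw [e, map_zero] at k3
    exact zero_ne_one k3

theorem usa_normal {n c : ℕ} (ok : Ok n c) : (kerR ok).Normal := by
  refine ⟨fun g hg t => ⟨(normal_GK n).conj_mem g hg.1 t, ?_⟩⟩
  by_cases ht : t ∈ GK n
  · rw [rho_mul ok (mul_mem ht hg.1), rho_mul ok ht, hg.2, mul_one, rho_inv ok ht, mul_inv_cancel]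
  · rw [rho_conj ok ht hg.1, hg.2, inv_one]

theorem usa_odd {n c : ℕ} (h : Aw n c) : Odd c :=
  Nat.not_even_iff_odd.1 fun e => (h.2 2 Nat.prime_two e.two_dvd).1 rfl

/-- Uniqueness of eighth roots that are fixed by an element without fixed index. -/
theorem usa_uniq [Cp] (hm : Bm) {σ : Gam} (h1 : σ ∈ GK NN) (h2 : xc σ ≠ 0) {y z : TT}
    (h : 8 • y = 8 • z) (hy : σ • y = y) (hz : σ • z = z) : y = z :=
  sub_eq_zero.1 (hm.fix σ h1 h2 3 _ (by rw [smul_sub]; exact sub_eq_zero.2 h)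
    (by rw [smul_sub, hy, hz]))

theorem sa_stmt : SAStmt := by
  intro _ D σ x hm hD hσ h0 hx hv
  have k1 : ∀ R : TT, 8 • R = x → ∀ g ∈ GK NN, ∀ h ∈ GK NN, (g * h) • R = (h * g) • R := by
    intro R hR g hg h hh
    refine TT.ext fun i => ?_
    have e : pm (g * h)⁻¹ i = pm (h * g)⁻¹ i := by
      rw [mul_inv_rev, mul_inv_rev, pm_mul, pm_mul, pm_of_mem (inv_mem hg), pm_of_mem (inv_mem hh),
        pm_of_mem (inv_mem hg), pm_of_mem (inv_mem hh), add_left_comm]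
    rw [co_smul, co_smul, e]
    obtain ⟨v, h1, h2⟩ := hv (pm (h * g)⁻¹ i)
    rw [← hR, co_nsmul] at h1
    obtain ⟨ζ, h3, h4⟩ := usa_quot h1 (co_ne _ _)
    rw [h4, map_mul, map_mul, usa_comm h3, h2 g hg h hh]
  obtain ⟨R, hR⟩ := hm.half 3 x
  obtain ⟨m, h1⟩ := hm.onto 3 (σ • R - R) (by rw [smul_sub, smul_comm, hR, hx σ hσ, sub_self])
  obtain ⟨m0, h2⟩ := (hm.fpf 1 3 σ (hD hσ) h0).2 m
  have h3 : 8 • (R - emb 3 m0) = x := by
    rw [smul_sub, ← map_nsmul, show 8 • m0 = 0 from hm.kil 3 m0, map_zero, sub_zero]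
    exact hR
  have h4 : σ • (R - emb 3 m0) = R - emb 3 m0 := by
    have h5 := congrArg (emb 3) h2
    rw [map_sub, ← smul_emb, h1] at h5
    rw [smul_sub, sub_eq_sub_iff_sub_eq_sub]
    exact h5.symm
  refine ⟨_, h3, fun g hg => usa_uniq hm (hD hσ) h0 ?_ ?_ h4⟩
  · rw [smul_comm, h3, hx g hg]
  · rw [← mul_smul, k1 _ h3 σ (hD hσ) g (hD hg), mul_smul, h4]

/-- A congruence up to a fixed torsion point is a congruence. -/
theorem usa_kron [Cp] (hm : Bm) {σ : Gam} (h1 : σ ∈ GK NN) (h2 : xc σ ≠ 0) {D : TT}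
    (hD : σ • D = D) {w : Plc} (hw : w.p ≠ 2) (h : ∀ i, ∃ η : Qbar, η ^ 8 = 1 ∧
      ∀ v : Plc, v.p = w.p → v.V (co D i / η - 1) < 1) : D ∈ K1 w := by
  choose η h3 h4 using h
  have h7 : ∏ i, η i = 1 := by
    have a : ∀ s : Finset I3, w.V (∏ i ∈ s, co D i / η i - 1) < 1 := fun s => by
      induction s using Finset.induction_on with
      | empty => simp
      | insert i s hi ih =>
        have e : w.V (co D i / η i) = 1 := by
          rw [← add_sub_cancel 1 (co D i / η i)]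
          exact w.V.map_one_add_of_lt (h4 i w rfl)
        rw [prod_insert hi, show co D i / η i * ∏ i ∈ s, co D i / η i - 1 =
          co D i / η i * (∏ i ∈ s, co D i / η i - 1) + (co D i / η i - 1) by ring]
        exact w.V.map_add_lt (by rwa [map_mul, e, one_mul]) (h4 i w rfl)
    have b := a univ
    rw [prod_div_distrib, co_prod, one_div] at b
    refine inv_eq_one.1 (usa_root hw 3 ?_ b)
    rw [inv_pow, ← prod_pow, inv_eq_one]
    exact prod_eq_one fun i _ => h3 i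
  have h8 : 2 ^ 3 • mkT η h7 = 0 := TT.ext fun i => by
    rw [co_nsmul, co_mkT, co_zero]
    exact h3 i
  have h9 : ∀ v : Plc, v.p = w.p → D - mkT η h7 ∈ K1 v := fun v hv i => by
    rw [co_sub, co_mkT]
    exact h4 i v hv
  have h10 := hm.k1 _ σ _ (h9 (σ⁻¹ • w) rfl)
  rw [smul_inv_smul, smul_sub, hD] at h10
  have h11 := hm.tors w hw _ (sub_mem (h9 w rfl) h10) 3 (by
    rw [sub_sub_sub_cancel_left, smul_sub, smul_comm, h8, smul_zero, sub_zero])
  rw [sub_sub_sub_cancel_left, sub_eq_zero] at h11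
  have h12 := h9 w rfl
  rwa [hm.fix σ h1 h2 3 _ h8 h11, sub_zero] at h12

theorem wb_stmt (h1 : UBStmt) (h2 : SAStmt) (h3 : RAStmt) (h4 : RTStmt) : WBStmt := by
  intro _ _ hm
  obtain ⟨U, hU⟩ := h1
  have k0 : ∀ (c : ℕ) (B : Pc NN c), ∃ y : TT, ∀ hc : Aw NN c, 8 • y = U c B ∧
      ∀ g ∈ kerR (nk.ok hc.1.ne_zero), g • y = y := fun c B => by
    by_cases hc : Aw NN c
    · obtain ⟨a1, σ, a2, a3, a4⟩ := hU.idx c hc
      obtain ⟨u, a5, a6⟩ := hU.val c hc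
      refine (h2 (kerR (nk.ok hc.1.ne_zero)) σ (U c B) hm (fun g hg => hg.1) ⟨a2, a3⟩ a4
        (fun g hg => by rw [hU.gal c hc g hg.1, hg.2, one_mul]) fun i => ?_).imp fun y a _ => a
      obtain ⟨x, rfl, rfl⟩ := a1 B i
      rw [a6]
      exact h3 NN c u x nk (usa_odd hc) a5
    · exact ⟨0, fun a => absurd a hc⟩
  choose Y hY using k0
  have k1 : ∀ c (hc : Aw NN c) (g : Gam) (B B' : Pc NN c), g • U c B = U c B' →
      g • Y c B = Y c B' := fun c hc g B B' e => by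
    obtain ⟨-, σ, a2, a3, a4⟩ := hU.idx c hc
    refine usa_uniq hm a2 a4 (by rw [smul_comm, (hY c B hc).1, (hY c B' hc).1, e]) ?_
      ((hY c B' hc).2 σ ⟨a2, a3⟩)
    have := (hY c B hc).2 _ ((usa_normal _).conj_mem' σ ⟨a2, a3⟩ g)
    rwa [mul_smul, mul_smul, inv_smul_eq_iff] at this
  have k2 : ∀ c c' (hc : Aw NN c') (hd : c ∣ c') (σ : Gam), σ ∈ GK NN → rho NN c' σ = 1 →
      ∀ B, σ • Y c B = Y c B := fun c c' hc hd σ a2 a3 B =>
    (hY c B (hc.dvd hd)).2 σ ⟨a2, by rw [← pj_rho (nk.ok hc.1.ne_zero) hd, a3, map_one]⟩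
  refine ⟨Y, fun c hc => ?_, fun c hc g hg B => k1 c hc g _ _ (hU.gal c hc g hg B),
    fun c hc B => k1 c hc _ _ _ (hU.conj c hc B),
    fun c hc B => hm.un 3 _ ?_, fun c l _ hl hc B => ?_, fun c w hc B => ?_⟩
  · obtain ⟨u, a5, a6⟩ := hU.val c hc
    exact ⟨u, a5, fun x => by rw [← co_nsmul, (hY c _ hc).1, a6]⟩
  · exact (hY c B hc).1.symm ▸ hU.unit c hc B
  · obtain ⟨-, σ, a2, a3, a4⟩ := hU.idx _ hc
    refine usa_uniq hm a2 a4 ?_ ?_ ?_
    · rw [smul_sum, smul_comm, (hY c B (hc.dvd (dvd_mul_right c l))).1, ← hU.trace c l hl hc B]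
      exact sum_congr rfl fun B' _ => (hY _ B' hc).1
    · rw [smul_sum]
      exact sum_congr rfl fun B' _ => k2 _ _ hc dvd_rfl σ a2 a3 B'
    · rw [smul_comm, k2 _ _ hc (dvd_mul_right c l) σ a2 a3 B]
  · obtain ⟨a1, σ, a2, a3, a4⟩ := hU.idx _ hc
    have hd := dvd_mul_right c w.p
    have hc' := hc.dvd hd
    obtain ⟨b1, b2, b3⟩ := hc.mul w.prime
    refine usa_kron hm a2 a4 ?_ b1 fun i => ?_
    · rw [smul_sub, smul_comm, k2 _ _ hc dvd_rfl σ a2 a3, k2 _ _ hc hd σ a2 a3]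
    obtain ⟨x, rfl, rfl⟩ := a1 B i
    obtain ⟨u, a5, a6⟩ := hU.val c hc'
    obtain ⟨u', a7, a8⟩ := hU.val _ hc
    obtain ⟨v, v', e, c1, c2, c3, c4⟩ := h4 NN c w.p u u' x nk (usa_odd hc') w.prime b1 b2 b3 a5 a7
    have c5 : ∀ t : Plc, t.V v = 1 := fun t => by
      rw [← pow_eq_one_iff_of_nonneg zero_le (show 8 ≠ 0 by norm_num), ← map_pow, c1, a5.unit]
    rw [← a6, pj_pj (dvd_mul_left c 2) (mul_dvd_mul_left 2 hd),
      pj_pj (dvd_mul_right 2 c) (mul_dvd_mul_left 2 hd),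
      ← pj_pj hd (dvd_mul_left (c * w.p) 2), ← (hY c _ hc').1, co_nsmul] at c1
    rw [← a8, ← (hY _ _ hc).1, co_nsmul] at c2
    obtain ⟨ζ, d1, d2⟩ := usa_quot c1 (co_ne _ _)
    obtain ⟨ζ', d3, d4⟩ := usa_quot c2 (co_ne _ _)
    have n1 : ζ ≠ 0 := fun a => by simp [a] at d1
    have n2 : ζ' ≠ 0 := fun a => by simp [a] at d3
    have n3 : e ≠ 0 := fun a => by simp [a] at c3
    have n4 : v ≠ 0 := fun a => by simpa [a] using c5 w
    refine ⟨ζ' * e / ζ ^ w.p, ?_, fun t ht => ?_⟩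
    · rw [div_pow, mul_pow, d3, pow_right_comm, d1, one_pow, show 8 = 2 * 4 from rfl, pow_mul, c3]
      norm_num
    · rw [co_sub, co_nsmul, d2, d4, show ζ' * v' / (ζ * v) ^ w.p / (ζ' * e / ζ ^ w.p) - 1 =
        (v' - e * v ^ w.p) / (e * v ^ w.p) by rw [mul_pow]; field_simp, map_div₀, map_mul, map_pow,
        c5, t.V_root_of_unity two_ne_zero c3, one_pow, mul_one, div_one]
      exact c4 t ht

end Pool.Agent.B10
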