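import Pool.Agent.Lib.MP_696deb_nt.B10.UZ
import Pool.Agent.Lib.MP_696deb_nt.B5.GAa

/-! Special points are smooth points of the plane models of two-power level. -/

set_option autoImplicit false

namespace Pool.Agent.B10

open Pool.Agent.Lib.MP_696deb_nt Pool.Agent.Lib.MP_696deb_nt.B4 Pool.Agent.B4.GE
  Pool.Agent.Lib.MP_696deb_nt.B2.CM Pool.Agent.G5 Pool.Agent.B8

variable {N n : ℕ} {z : ℂ}

theorem usp_four (h : Nk n) (j : ℕ) : ∀ t s : ℤ, t ^ 2 + n * s ^ 2 = 4 ^ j → s = 0 := by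
  obtain ⟨q, hq⟩ : ∃ q : ℤ, (n : ℤ) = 8 * q + 11 ∧ 0 ≤ q :=
    ⟨(n - 11) / 8, by have := h.m8; have := h.gt; omega⟩
  have small : ∀ t s : ℤ, t ^ 2 + n * s ^ 2 ≤ 4 → s = 0 := fun t s e => by
    by_contra s0
    have : 0 < s ^ 2 := by positivity
    nlinarith [sq_nonneg t, hq.1, hq.2]
  induction j with
  | zero => exact fun t s e => small t s (by omega)
  | succ j ih =>
    intro t s e
    rw [pow_succ 4, hq.1] at e
    obtain ⟨a, rfl | rfl⟩ := Int.even_or_odd' t <;> obtain ⟨b, rfl | rfl⟩ := Int.even_or_odd' s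
    · rw [ih a b (by rw [hq.1]; linarith), mul_zero]
    · have : 2 * (2 * a ^ 2 + (8 * q + 11) * (2 * b ^ 2 + 2 * b) + 4 * q + 5 - 2 * 4 ^ j) = -1 := by
        linear_combination e
      omega
    · have : 2 * (2 * a ^ 2 + 2 * a + (8 * q + 11) * (2 * b ^ 2) - 2 * 4 ^ j) = -1 := by
        linear_combination e
      omega
    · rcases j with _ | j
      · exact small (2 * a + 1) _ (by rw [hq.1, e]; norm_num)
      obtain ⟨u, hu⟩ := Int.even_mul_succ_self a
      obtain ⟨v, hv⟩ := Int.even_mul_succ_self b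
      have : 8 * (u + (8 * q + 11) * v + q + 1 - 2 * 4 ^ j) = -4 := by
        linear_combination e - 4 * hu - 4 * (8 * q + 11) * hv
      omega

/-- Matrices that fix a special point are scalar if the norm equation has trivial solutions only. -/
theorem usp_scalar (h : CM n z) (hn : Squarefree n) {M : MZ} (h0 : M.det ≠ 0)
    (h1 : ∀ t s : ℤ, t ^ 2 + n * s ^ 2 = 4 * M.det → s = 0) (e : act M z = z) :
    M 1 0 = 0 ∧ M 0 1 = 0 ∧ M 0 0 = M 1 1 := by
  have n0 : 0 < n := hn.ne_zero.bot_lt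
  have hz := AD.cm_pos n0 h
  obtain ⟨R, m, k1, k2, k3, rfl⟩ := h
  have k4 := froot_root (AD.disc_neg n0 k1 k3) k2
  have k5 := den_ne' h0 hz
  rw [den] at k5
  rw [act, mob, div_eq_iff k5] at e
  rw [Matrix.det_fin_two] at h1
  generalize froot R = z at *
  generalize M 0 0 = a at *
  generalize M 0 1 = b at *
  generalize M 1 1 = d at *
  generalize M 1 0 = c at *
  obtain ⟨e1, e2⟩ := tau_indep hz.ne' (x := R.1 * (d - a) - c * R.2.1) (y := -(R.1 * b) - c * R.2.2)
    (by push_cast; linear_combination -(R.1 : ℂ) * e - c * k4)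
  have hc : c = 0 := by
    by_contra hc
    have e3 : (4 * (a * d - b * c) - (a + d) ^ 2) * n * R.1 ^ 2 = (n * (c * m)) ^ 2 := by
      rw [fdisc] at k3
      linear_combination -n * c ^ 2 * k3 - n * (R.1 * (d - a) + c * R.2.1) * e1 +
        4 * n * c * R.1 * e2
    obtain ⟨t, ht⟩ := (Int.pow_dvd_pow_iff two_ne_zero).1 (Dvd.intro_left _ e3)
    rw [ht, mul_pow, mul_comm (R.1 ^ 2), mul_left_inj' (pow_ne_zero 2 k2.ne')] at e3
    obtain ⟨s, rfl⟩ := ((Int.squarefree_natCast.2 hn).dvd_pow_iff_dvd two_ne_zero).1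
      (Dvd.intro_left _ e3)
    have n1 : (0 : ℤ) < n := by exact_mod_cast n0
    have s0 : s ≠ 0 := by
      rintro rfl
      exact mul_ne_zero n1.ne' (mul_ne_zero hc (Nat.cast_ne_zero.2 k1)) (by simpa using ht)
    have e4 : 4 * (a * d - b * c) - (a + d) ^ 2 = n * s ^ 2 :=
      mul_right_cancel₀ n1.ne' (by linear_combination e3)
    exact s0 (h1 (a + d) s (by linear_combination -e4))
  subst hc
  exact ⟨rfl, (mul_eq_zero.1 (by linear_combination -e2)).resolve_left k2.ne',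
    (sub_eq_zero.1 ((mul_eq_zero.1 (by linear_combination e1)).resolve_left k2.ne')).symm⟩

theorem usp_sep (h : CM n z) (hN : N ≠ 0) (hn : Squarefree n)
    (h1 : ∀ t s : ℤ, t ^ 2 + n * s ^ 2 = 4 * N ^ 2 → s = 0) : Sep N z := by
  intro g hg e
  have hz := AD.cm_pos hn.ne_zero.bot_lt h
  have h2 := act_pos (hg ▸ one_pos : 0 < g.det) hz
  obtain ⟨k, hk, e1⟩ := exists_sl (ga_pos hN h2) (ga_pos hN hz) e.symm
  have n0 : (N : ℤ) ≠ 0 := Nat.cast_ne_zero.2 hN
  have d1 : (ut N 0 1).det = N := by simp [det_ut]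
  have d2 : (k * (ut N 0 1 * g)).det = N := by simp [hk, hg, d1]
  have e2 : act ((ut N 0 1).adjugate * (k * (ut N 0 1 * g))) z = z := by
    rw [act_mul _ (d2 ▸ n0) hz, act_mul _ (by simp [hg, d1, hN]) hz, act_mul _ (by omega) hz,
      act_dg, ← e1, ← act_dg, act_adjugate (d1 ▸ n0) hz]
  have d3 : ((ut N 0 1).adjugate * (k * (ut N 0 1 * g))).det = N ^ 2 := by
    rw [Matrix.det_mul, d2, det_adjugate_two, d1, sq]
  obtain ⟨f1, f2, f3⟩ := usp_scalar h hn (d3 ▸ pow_ne_zero 2 n0) (d3 ▸ h1) e2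
  rw [Matrix.det_fin_two, f1, f3] at d3
  rw [Matrix.det_fin_two] at hk
  simp only [ut, Matrix.adjugate_fin_two, Matrix.mul_apply, Fin.sum_univ_two, Matrix.of_apply,
    Matrix.cons_val', Matrix.cons_val_zero, Matrix.cons_val_one, Matrix.cons_val_fin_one,
    Nat.cast_one, Nat.cast_zero, neg_zero, zero_mul, one_mul, add_zero, zero_add, mul_zero,
    sub_zero] at f1 f3 d3
  have f4 := (mul_eq_zero.1 f1).resolve_left n0
  exact ⟨hg, -(k 1 0 * (k 1 0 * (N * g 0 1) + k 1 1 * g 1 1)), by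
    linear_combination -g 1 0 * hk + k 0 0 * f4 - k 1 0 * f3⟩

theorem sp_stmt10 : B10.SPStmt := fun n k z hn h =>
  usp_sep h (by positivity) hn.sqf fun t s e => usp_four hn (k + 1) t s (by
    rw [e, pow_succ' 4, Nat.cast_pow, ← pow_mul, mul_comm k, pow_mul]
    norm_num)

end Pool.Agent.B10
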