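import Pool.Agent.Lib.MP_696deb_nt.B10.UZ
import Pool.Agent.Lib.MP_696deb_nt.B8.NB

/-! The eighth powers of the units, as points of the torus. -/

set_option autoImplicit false

open NumberTheorySymbols Finset
open scoped Classical

namespace Pool.Agent.B10
open Pool.Agent.Lib.MP_696deb_nt Pool.Agent.Lib.MP_696deb_nt.B2 Pool.Agent.Lib.MP_696deb_nt.B2.CM
  Pool.Agent.B6 Pool.Agent.B4 Pool.Agent.B8

theorem uub_odd {n c : ℕ} (h : Aw n c) : Odd c :=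
  Nat.not_even_iff_odd.1 fun k => (h.2 2 Nat.prime_two k.two_dvd).1 rfl

variable [Cp]

/-- The index of a class. -/
noncomputable def uub_ix (c : ℕ) (x : Pc NN (2 * c)) : I3 := (ps (pj NN 2 (2 * c) x)).toAdd

theorem uub_ix_mul (c : ℕ) (x y : Pc NN (2 * c)) :
    uub_ix c (x * y) = uub_ix c x + uub_ix c y := by
  rw [uub_ix, map_mul, map_mul]; rfl

theorem uub_ix_inv (c : ℕ) (x : Pc NN (2 * c)) : uub_ix c x⁻¹ = -uub_ix c x := by
  rw [uub_ix, map_inv, map_inv]; rfl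

theorem uub_ok {c : ℕ} (h : Aw NN c) : Ok NN (2 * c) :=
  nk.ok (mul_ne_zero two_ne_zero h.1.ne_zero)

theorem uub_ix_rho {c : ℕ} (h : Aw NN c) (g : Gam) : uub_ix c (rho NN (2 * c) g) = xc g := by
  rw [uub_ix, pj_rho (uub_ok h) (dvd_mul_right 2 c), xc]

theorem uub_nb (hG : NGStmt) {c : ℕ} (h : Aw NN c) (B : Pc NN c) :
    ∃ (τ : ℂ) (y : Option (Fin 2) → Pc NN (2 * c)), Rp NN c τ B ∧
      (∀ i, Rp NN (2 * c) (hk 2 τ i) (y i)) ∧ (∀ x, pj NN c (2 * c) x = B ↔ ∃ i, y i = x) ∧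
      Function.Bijective fun i => uub_ix c (y i) := by
  obtain ⟨τ, hτ⟩ := nb_point (nk.ok h.1.ne_zero) B
  obtain ⟨y, h1, h2, h3⟩ := (hG NN c nk (uub_odd h)).1 τ B hτ
  exact ⟨τ, y, hτ, h1, h2, h3 ps ps_cub.ram⟩

theorem uub_ex (hG : NGStmt) {c : ℕ} (h : Aw NN c) (B : Pc NN c) (i : I3) :
    ∃ x, pj NN c (2 * c) x = B ∧ uub_ix c x = i := by
  obtain ⟨τ, y, -, -, h2, h3⟩ := uub_nb hG h B
  obtain ⟨j, rfl⟩ := h3.2 i
  exact ⟨y j, (h2 _).2 ⟨j, rfl⟩, rfl⟩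

theorem uub_un (hG : NGStmt) {c : ℕ} (h : Aw NN c) {x x' : Pc NN (2 * c)}
    (e : pj NN c (2 * c) x = pj NN c (2 * c) x') (e' : uub_ix c x = uub_ix c x') : x = x' := by
  obtain ⟨τ, y, -, -, h2, h3⟩ := uub_nb hG h (pj NN c (2 * c) x')
  obtain ⟨j, rfl⟩ := (h2 x).1 e
  obtain ⟨j', k⟩ := (h2 x').1 rfl
  rw [← k] at e' ⊢
  rw [h3.1 e']

theorem uub_pt (hG : NGStmt) (hP : PTStmt) (hV : UVStmt) (c : ℕ) : ∃ U : Pc NN c → TT, Aw NN c →
    ∃ u, Uv NN c u ∧ ∀ x, co (U (pj NN c (2 * c) x)) (uub_ix c x) = u x := by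
  by_cases h : Aw NN c
  swap
  · exact ⟨0, fun k => (h k).elim⟩
  obtain ⟨u, hu⟩ := hV NN c nk (uub_odd h)
  choose x h1 h2 using uub_ex hG h
  refine ⟨fun B => mkT (fun i => u (x B i)) ?_, fun _ => ⟨u, hu, fun z => ?_⟩⟩
  · obtain ⟨τ, y, k0, k1, k2, k3⟩ := uub_nb hG h B
    rw [← k3.prod_comp fun i => u (x B i)]
    refine jC.injective ?_
    rw [map_prod, prod_congr rfl fun j _ => (congrArg (fun z => jC (u z)) (uub_un hG h
      ((h1 _ _).trans ((k2 _).2 ⟨j, rfl⟩).symm) (h2 _ _))).trans (hu.val τ B j _ k0 (k1 j)),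
      prod_div_distrib, prod_neg, (hP 3 τ Nat.prime_three (by norm_num) k0.pos).2, map_one]
    norm_num
  · rw [co_mkT, uub_un hG h (h1 _ _) (h2 _ _)]

omit [Cp] in
theorem ub_stmt (hG : NGStmt) (hL : NLStmt) (hP : PTStmt) (hV : UVStmt) : UBStmt := by
  intro _
  choose U hU using uub_pt hG hP hV
  refine ⟨U, hU, fun c h g hg B => TT.ext fun i => ?_, fun c h B => TT.ext fun i => ?_,
    fun c h B w i => ?_, fun c l _ hl h B => TT.ext fun i => ?_, fun c h => ⟨uub_ex hG h, ?_⟩⟩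
  · obtain ⟨u, hu, e⟩ := hU c h
    obtain ⟨x, rfl, k⟩ := uub_ex hG h B (pm g⁻¹ i)
    rw [co_smul, ← k, e, hu.gal g hg, ← e, map_mul, pj_rho (uub_ok h) (dvd_mul_left c 2),
      uub_ix_mul, uub_ix_rho h, k, ← pm_of_mem hg, ← pm_mul, mul_inv_cancel, pm_one]
  · obtain ⟨u, hu, e⟩ := hU c h
    obtain ⟨x, rfl, k⟩ := uub_ex hG h B (pm cc⁻¹ i)
    rw [co_smul, ← k, e, hu.conj, ← e, map_inv, uub_ix_inv, k, ← zero_sub, ← xc_cc,
      ← pm_of_notMem (cc_notMem (by have := nk.gt; omega)), ← pm_mul, mul_inv_cancel, pm_one]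
  · obtain ⟨u, hu, e⟩ := hU c h
    obtain ⟨x, rfl, rfl⟩ := uub_ex hG h B i
    rw [e, hu.unit]
  · have hc := h.dvd (dvd_mul_right c l)
    obtain ⟨l2, lJ, lc⟩ := h.mul hl
    obtain ⟨u, hu, e⟩ := hU c hc
    obtain ⟨u', hu', e'⟩ := hU _ h
    obtain ⟨x, rfl, rfl⟩ := uub_ex hG hc B i
    obtain ⟨τ, t1, t2⟩ := (hG NN c nk (uub_odd hc)).2 x (some 1)
    obtain ⟨y, y1, y2, y3⟩ := hL NN c l τ _ x nk (uub_odd hc) hl l2 lJ lc t1 t2
    have d : 2 * c ∣ 2 * (c * l) := mul_dvd_mul_left 2 (dvd_mul_right c l)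
    have p1 : ∀ z, pj NN c (c * l) (pj NN (c * l) (2 * (c * l)) z) =
        pj NN c (2 * c) (pj NN (2 * c) (2 * (c * l)) z) := fun z => by
      rw [pj_pj (dvd_mul_right c l) (dvd_mul_left _ 2), pj_pj (dvd_mul_left c 2) d]
    have p2 : ∀ z, uub_ix (c * l) z = uub_ix c (pj NN (2 * c) (2 * (c * l)) z) := fun z => by
      rw [uub_ix, uub_ix, pj_pj (dvd_mul_right 2 c) d]
    have y4 := fun k => (y2 _).2 ⟨k, rfl⟩
    rw [co_sum, co_nsmul, e, ← prod_bij (s := univ) (f := fun k => u' (y k))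
      (fun k _ => pj NN (c * l) (2 * (c * l)) (y k))
      (fun k _ => mem_filter.2 ⟨mem_univ _, by rw [p1, y4]⟩)
      (fun k _ k' _ q => y1 (uub_un hG h q (by rw [p2, p2, y4, y4]))) (fun B' hB' => ?_)
      fun k _ => by rw [← e', p2, y4]]
    · refine jC.injective ?_
      rw [map_prod, prod_congr rfl fun k _ => hu'.val _ _ _ _ (y3 k).1 (y3 k).2, map_pow,
        hu.val _ _ _ _ t1 t2, prod_div_distrib, prod_neg, (hP l τ hl l2 t1.pos).1, prod_const,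
        card_univ, Fintype.card_option, Fintype.card_fin, div_pow, neg_pow (ph _ _ _)]
    · obtain ⟨z, rfl, k⟩ := uub_ex hG h B' (uub_ix c x)
      obtain ⟨j, rfl⟩ := (y2 z).1
        (uub_un hG hc ((p1 z).symm.trans (mem_filter.1 hB').2) ((p2 z).symm.trans k))
      exact ⟨j, mem_univ _, rfl⟩
  · obtain ⟨x, h1, h2⟩ := uub_ex hG h 1 1
    obtain ⟨σ, hσ, rfl⟩ := rho_surj (uub_ok h) x
    rw [pj_rho (uub_ok h) (dvd_mul_left c 2)] at h1
    rw [uub_ix_rho h] at h2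
    exact ⟨σ, hσ, h1, by rw [h2]; decide⟩

end Pool.Agent.B10
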