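import Pool.Agent.Lib.MP_696deb_nt.B10.UZ
import Pool.Agent.Lib.MP_696deb_nt.B2.CF

/-! The traces of the units to the two-primary ring class fields. -/

set_option autoImplicit false

open NumberField NumberTheorySymbols Finset
open scoped Classical NNReal

namespace Pool.Agent.B10
open Pool.Agent.Lib.MP_696deb_nt Pool.Agent.Lib.MP_696deb_nt.B2 Pool.Agent.Lib.MP_696deb_nt.B2.CM
  Pool.Agent.B6 Pool.Agent.B4 Pool.Agent.B8
open Pool.Agent.Lib.MP_696deb_nt.B3.CM (th kc_odd)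

variable {n c d l : ℕ} {w : Plc} {g τ : Gam}

theorem uus_fin (hn : Nk n) (c : ℕ) : Finite (Pc n c) :=
  finite_Pc (by have := hn.m8; omega) hn.gt c

theorem uus_two (hn : Nk n) (hw : w.p = 2) : ∃ g ∈ Dec w, g ∉ GK n := by
  obtain ⟨φ, hφ⟩ := B2.exists_frob w
  refine ⟨φ, hφ.1, fun h => ?_⟩
  have h0 := hn.gt
  have h1 := chi_dec_two (a := -n * 5) hw (by have := hn.m8; omega) hφ.1
  rw [chi_mul (by omega) (by norm_num), B4c_mem.1 h, chi_frob_two hw (hw ▸ hφ)] at h1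
  exact absurd h1 (by decide)

theorem uus_unr (F : CFT) (hn : Nk n) (hc : Aw n c) (hw : ¬ w.p ∣ c) (hg : g ∈ GK n ⊓ Ine w) :
    psi n c g = 1 := by
  have ok := hn.ok hc.1.ne_zero
  have := uus_fin hn c
  by_cases h : w.p ∣ n
  · exact tq_rho_ram ok hn.sqf h hg
  by_cases k : ∃ s ∈ Dec w, s ∉ GK n
  · obtain ⟨s, hs, hs'⟩ := k
    by_contra k
    obtain ⟨m, θ, -, h2⟩ := exists_char tw_two ⊥ (a := psi n c g) k
    exact h2 (unr_inert F ok (θ.comp (tq _)) h hw hs hs' hg)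
  · have h2 : w.p ≠ 2 := fun e => k (uus_two hn e)
    obtain ⟨φ, hφ⟩ := B2.exists_frob w
    have h3 : φ ∈ GK n := by_contra fun e => k ⟨φ, hφ.1, e⟩
    have h4 : ¬ (w.p : ℤ) ∣ 2 * -n := fun e => by
      rcases (Nat.prime_iff_prime_int.1 w.prime).dvd_mul.1 e with e | e
      · exact h2 ((Nat.prime_dvd_prime_iff_eq w.prime Nat.prime_two).1 (by exact_mod_cast e))
      · exact h (by exact_mod_cast (dvd_neg.1 e))
    have h5 := chi_frob h4 hφ
    rw [B4c_mem.1 h3] at h5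
    obtain ⟨b, k, e, hb⟩ := exists_root_split ok.m4 w.prime h2 h5.symm hw
    rw [psi, rho_ine_split ok e hb hg.2, map_one]

theorem uus_card (hn : Nk n) (hd : d = c * l) (hl : l.Prime) (ha : Aw n d) :
    Nat.card (twm (pj n c d)).ker = ordProj[2] (l + 1) := by
  subst hd
  obtain ⟨h2, hJ, hc⟩ := ha.mul hl
  have := uus_fin hn (c * l)
  rw [card_ker_twm,
    card_ker_pj (hn.ok (ha.dvd (dvd_mul_right c l)).1.ne_zero) hl h2 hJ hc]

/-- The inertia group generates the kernel of the projection. -/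
theorem uus_ker (F : CFT) (hn : Nk n) (hd : d = c * w.p) (ha : Aw n d) (hτ : Gen w τ) :
    (twm (pj n c d)).ker = Subgroup.zpowers (psi n d τ) := by
  subst hd
  obtain ⟨h2, hJ, hc⟩ := ha.mul w.prime
  have ha' := ha.dvd (dvd_mul_right c w.p)
  have ok := hn.ok ha.1.ne_zero
  have hI := cmz_ine h2 hJ
  have := uus_fin hn (c * w.p)
  refine le_antisymm (fun a h => by_contra fun k => ?_) (Subgroup.zpowers_le.2 ?_)
  · obtain ⟨m, θ, h1, h3⟩ := exists_char tw_two _ k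
    obtain ⟨x, hx, rfl⟩ := ker_twm h
    refine h3 (ram_onto F (hn.ok ha'.1.ne_zero) (θ.comp (tq _)) h2 hJ hc (fun s hs => h1 _ ?_) hx)
    obtain ⟨j, hj⟩ := tame_gen h2 hτ (π := psi n (c * w.p)) ((sm_rho _ _ _).comp (tq _))
      (fun g hg k hk => psi_mul ok g (hI hg) k (hI hk)) (fun g _ => tw_two _) hs
    exact ⟨j, (zpow_natCast _ j).trans hj.symm⟩
  · rw [MonoidHom.mem_ker, pr_psi ok (dvd_mul_right c w.p)]
    exact uus_unr F hn ha' hc ⟨hI hτ.1, hτ.1⟩

theorem uus_dec (F : CFT) (hn : Nk n) (hc : Aw n c) (hw : ¬ w.p ∣ c) (hI : Ine w ≤ GK n)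
    (h' : fr w ∉ GK n) (hg : g ∈ GK n ⊓ Dec w) : psi n c g = 1 := by
  have ok := hn.ok hc.1.ne_zero
  obtain ⟨U, u1, -, u3⟩ := sm_rho (GK n) n c
  obtain ⟨m, σ, hσ, e, -⟩ := dec_gen_inert (fr_spec w) h' hI hg u1
  have h2 := mul_mem_GK h' h'
  rw [psi, ← u3 _ (mul_mem (pow_mem h2 m) (hI hσ)) g hg.1 e, rho_mul ok (pow_mem h2 m),
    rho_pow ok h2, rho_sq ok h', one_pow, one_mul]
  exact uus_unr F hn hc hw ⟨hI hσ, hσ⟩

/-- A discrete logarithm on each coset of a cyclic subgroup. -/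
theorem uus_log {G : Type} [CommGroup G] [Finite G] (γ : G) : ∃ f : G → ℕ,
    (∀ a, f a < orderOf γ) ∧ ∀ a, f (γ * a) = (f a + 1) % orderOf γ := by
  have h : ∀ a : G, ∃ k < orderOf γ,
      γ ^ k = a * ((a : G ⧸ Subgroup.zpowers γ).out)⁻¹ := fun a => by
    obtain ⟨s, hs⟩ := QuotientGroup.mk_out_eq_mul (Subgroup.zpowers γ) a
    obtain ⟨k, h1, h2⟩ := mem_image.1 (mem_zpowers_iff_mem_range_orderOf.1 (inv_mem s.2))
    exact ⟨k, mem_range.1 h1, by rw [h2, hs, mul_inv, mul_inv_cancel_left]⟩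
  choose f h1 h2 using h
  refine ⟨f, h1, fun a => pow_injOn_Iio_orderOf (h1 _) (Nat.mod_lt _ (orderOf_pos γ)) ?_⟩
  have e : ((γ * a : G) : G ⧸ Subgroup.zpowers γ) = a := by
    rw [QuotientGroup.mk_mul, (QuotientGroup.eq_one_iff γ).2 (Subgroup.mem_zpowers γ), one_mul]
  simp only
  rw [pow_mod_orderOf, pow_succ', h2, h2, e, mul_assoc]

theorem uus_proj (h : l % 4 = 1) : ordProj[2] (l + 1) = 2 := by
  have h1 := (Nat.prime_two.pow_dvd_iff_le_factorization (k := 1) (Nat.succ_ne_zero l)).1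
    (by omega)
  have h2 := mt (Nat.prime_two.pow_dvd_iff_le_factorization (k := 2) (Nat.succ_ne_zero l)).2
    (by omega)
  rw [show (l + 1).factorization 2 = 1 from le_antisymm (Nat.lt_succ_iff.1 (not_le.1 h2)) h1,
    pow_one]

/-- The weights. -/
theorem uus_wt (F : CFT) (hn : Nk n) (w : Plc) : ∃ f : Tw (Pc n w.p) → ℕ,
    w.p ≠ 2 ∧ J(-n | w.p) = -1 → (∀ a, f a < ordProj[2] (w.p + 1)) ∧
      (∀ a, f (psi n w.p (gn w) * a) = (f a + 1) % ordProj[2] (w.p + 1)) ∧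
      (w.p % 4 = 1 → ∀ g ∈ GK n, f (psi n w.p g) = if chi w.p g = 1 then 1 else 0) := by
  by_cases h : w.p ≠ 2 ∧ J(-n | w.p) = -1
  swap
  · exact ⟨0, fun k => absurd k h⟩
  have ha : Aw n w.p := ⟨w.prime.prime.squarefree, fun l hl k =>
    (Nat.prime_dvd_prime_iff_eq hl w.prime).1 k ▸ h⟩
  have ok := hn.ok ha.1.ne_zero
  have hτ := gn_spec h.1
  by_cases h4 : w.p % 4 = 1
  · obtain ⟨θ, hθ⟩ := exists_lift (GK n) (psi n w.p) (chi (pst w.p)) (psi_mul ok)
      (psi_surj ok) fun g hg k => chi_rho ok hg w.prime h.1 (dvd_mul_left _ _) k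
    refine ⟨fun a => if θ a = 1 then 1 else 0, fun _ => ⟨fun a => ?_, fun a => ?_,
      fun _ g hg => ?_⟩⟩
    · rw [uus_proj h4]
      beta_reduce
      split_ifs <;> norm_num
    · rw [uus_proj h4]
      simp only [map_mul, hθ _ (cmz_ine h.1 h.2 hτ.1), cmz_pst h.1 hτ]
      rcases Int.units_eq_one_or (θ a) with k | k <;> rw [k] <;> decide
    · simp only [hθ g hg, pst, if_pos h4]
  · have := uus_fin hn w.p
    have e := (one_mul w.p).symm
    obtain ⟨f, h1, h2⟩ := uus_log (psi n w.p (gn w))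
    rw [← Nat.card_zpowers, ← uus_ker F hn e ha hτ, uus_card hn e w.prime ha] at h1 h2
    exact ⟨f, fun _ => ⟨h1, h2, fun k => absurd k h4⟩⟩

theorem us_stmt : USStmt := by
  intro _ Y hB hY
  obtain ⟨F⟩ := exists_cft
  have hn : Nk NN := nk
  let i1 : ∀ c, Fintype (Pc NN c) := fun c => Fintype.ofFinite _
  let i2 : ∀ c, Fintype (Tw (Pc NN c)) := fun c => Fintype.ofFinite _
  have ok : ∀ {c : ℕ}, Aw NN c → Ok NN c := fun h => hn.ok h.1.ne_zero
  choose f hf using uus_wt F hn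
  refine ⟨{
    C := fun c => Tw (Pc NN c)
    pr := fun c c' => twm (pj NN c c')
    ψ := psi NN
    y := fun c a => ∑ x with tq _ x = a, Y c x
    wt := f
    sm := fun c _ => (sm_rho _ NN c).comp (tq _)
    mul := fun _ h => psi_mul (ok h)
    surj := fun _ h => psi_surj (ok h)
    pr_ψ := fun _ _ h k g _ => pr_psi (ok h) k g
    dih := fun _ h _ hg _ hh => by rw [psi, rho_conj (ok h) hg hh, map_inv]; rfl
    sq := fun _ h _ hg => by rw [psi, rho_sq (ok h) hg, map_one]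
    unr := fun _ _ h k _ hg => uus_unr F hn h k hg
    dec := fun _ w h k _ hg => uus_dec F hn h (fun e => (h.2 _ w.prime e).1 k) (hB.two w k).1
      (hB.two w k).2.1 hg
    gal := fun c h g hg a => by
      rw [smul_sum, sum_congr rfl fun x _ => hY.gal c h g hg x]
      exact sum_tq_mul (Y c) _ a
    unit := fun c h _ => sum_mem fun x _ => hY.unit c h x
    trace := fun c c' w e h a => by
      subst e
      rw [smul_sum, ← sum_congr rfl fun z _ => hY.trace c w.p w.prime h z]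
      convert sum_tq_twm (f := pj NN c (c * w.p)) (Y _) a
    kron := fun c c' w e h a => by
      subst e
      obtain ⟨h2, hJ, hc⟩ := h.mul w.prime
      have h1 := ok (h.dvd (dvd_mul_right c w.p))
      have k := sum_fib (pj_surj h1 w.prime h2 hJ hc) (fun z => w.p • Y c z) a
      rw [card_ker_pj h1 w.prime h2 hJ hc] at k
      rw [mul_smul, smul_sum (r := w.p), ← k, ← sum_sub_distrib]
      exact sum_mem fun x _ => hY.kron c w h x
    ker := fun c c' w e h => ⟨uus_ker F hn e h (gn_spec ((e ▸ h : Aw NN (c * w.p)).mul w.prime).1),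
      uus_card hn e w.prime h⟩
    wt_lt := fun w h => (hf w h).1
    wt_gn := fun w h => (hf w h).2.1 }, fun S i hS h4 => ?_⟩
  obtain rfl : i = i1 _ := Subsingleton.elim _ _
  have h1 := ok (hB.aw S hS)
  change ∑ a : Tw (Pc NN (cS S)), (∏ w ∈ S, f w (twm (pj NN w.p (cS S)) a)) •
    ∑ x with tq _ x = a, Y (cS S) x = _
  rw [mT, sum_filter, ← sum_fiberwise univ (tq (Pc NN (cS S)))]
  refine sum_congr rfl fun a _ => ?_
  rw [smul_sum]
  refine sum_congr rfl fun x hx => ?_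
  obtain ⟨g, hg, rfl⟩ := rho_surj h1 x
  have h2 : ∀ w ∈ S, f w (twm (pj NN w.p (cS S)) a) =
      if th NN (cS S) w.p (rho NN (cS S) g) = 1 then 1 else 0 := fun w hw => by
    have h3 : w.p ∣ cS S := dvd_prod_of_mem _ hw
    rw [← (mem_filter.1 hx).2, B3.CM.Gd.th ((kc_odd h1.m4 (o := w.p) (by have := h4 w hw; omega)
      ((Int.natCast_dvd_natCast.2 h3).mul_left _)).exists_th h1) hg,
      ← (hf w (hS.1 w hw)).2.2 (h4 w hw) g hg, ← pr_psi h1 h3]
    rfl
  rw [prod_congr rfl h2, prod_boole, ite_smul, one_smul, zero_smul]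
  simp only [forall_mem_image]

end Pool.Agent.B10
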