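import Pool.Agent.Lib.MP_696deb_nt.B10.UZ
import Pool.Agent.Lib.MP_696deb_nt.B8.VJ
import Pool.Agent.Lib.MP_696deb_nt.B8.NB
import Pool.Agent.Lib.MP_696deb_nt.B8.ME
import Pool.Agent.Lib.MP_696deb_nt.B8.PE
import Pool.Agent.Lib.MP_696deb_nt.B8.OV
import Pool.Agent.Lib.MP_696deb_nt.B5.GAa
import Pool.Agent.Lib.MP_696deb_nt.B5.CJb

/-! The values of the modular unit of level two at the classes of conductor `2 c`. -/

set_option autoImplicit false

open scoped Classical NNReal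

namespace Pool.Agent.B10
open Pool.Agent.Lib.MP_696deb_nt Pool.Agent.Lib.MP_696deb_nt.B2 Pool.Agent.Lib.MP_696deb_nt.B2.CM
  Pool.Agent.B6 Pool.Agent.B4 Pool.Agent.B8
open Pool.Agent.Lib.MP_696deb_nt.B3.CM (isIv_of_not_st not_st_inert inert_two)

variable {n c : ℕ} {τ τ' : ℂ} {B B' : Pc n c} {x : Pc n (2 * c)} {i j : Option (Fin 2)}

/-- The three neighbours lie in distinct classes. -/
theorem uuv_inj (hn : Nk n) (hc : Odd c) (h : Rp n c τ B) (hi : Rp n (2 * c) (hk 2 τ i) x)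
    (hj : Rp n (2 * c) (hk 2 τ j) x) : i = j := by
  have ok : Ok n c := hn.ok hc.pos.ne'
  have hv : ∀ k, nb 2 1 τ k * ot (Oc n c) = sp2 τ 1 := fun k => by
    have hm := nb_mid (s := 1) Nat.prime_two h.pos.ne' k
    exact (isIv_of_not_st ok Nat.prime_two h.iv hm.1 hm.2 (not_st_inert ok Nat.prime_two
      (inert_two hn.m8) hc.not_two_dvd_nat h.iv hm.1 hm.2)).2
  obtain ⟨t, -, e⟩ := (cl_eq_iff hi.iv hj.iv).1 (hi.eq.trans hj.eq.symm)
  obtain ⟨a, ha, ea⟩ := nb_hk τ i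
  obtain ⟨b, -, eb⟩ := nb_hk τ j
  have e1 : nb 2 1 τ j = sc (b * t * a⁻¹) (nb 2 1 τ i) := by
    rw [eb, e, ea, sc_sc, sc_sc, inv_mul_cancel_right₀ ha]
  have e2 := hv j
  rw [e1, sc_mul, hv i] at e2
  refine (cmd_nb_eq (s := 1) Nat.prime_two (by norm_num) h.pos.ne'
    (e1.le.trans fun z hz => ?_)).symm
  obtain ⟨y, hy, rfl⟩ := mem_sc.1 hz
  rcases h.iv.unit ok e2 with k | k <;> rw [k]
  · rwa [one_mul]
  · rw [neg_one_mul]
    exact neg_mem hy

/-- The value depends only on the class. -/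
theorem uuv_wd (jr : JRStmt) (ng : NGStmt) (hn : Nk n) (hc : Odd c) (h : Rp n c τ B)
    (hi : Rp n (2 * c) (hk 2 τ i) x) (h' : Rp n c τ' B') (hj : Rp n (2 * c) (hk 2 τ' j) x) :
    ph 2 j τ' = ph 2 i τ := by
  have c0 : c ≠ 0 := hc.pos.ne'
  have c2 : 2 * c ≠ 0 := by omega
  obtain ⟨j1, j2, -⟩ := jr n hn
  have k : ∀ {τ : ℂ} {B : Pc n c} {i : Option (Fin 2)}, Rp n c τ B →
      Rp n (2 * c) (hk 2 τ i) x → jf τ = jP n c (pj n c (2 * c) x) := fun {τ B i} h hi => by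
    obtain ⟨y, y1, y2, -⟩ := (ng n c hn hc).1 τ B h
    rw [(y2 x).2 ⟨i, (y1 i).eq.symm.trans hi.eq⟩]
    exact (j2 c B τ c0 h).2
  obtain ⟨γ, hγ, rfl⟩ := G5.exists_sl h.pos h'.pos ((k h' hj).trans (k h hi).symm)
  obtain ⟨s, hs⟩ := permF_ph Nat.prime_two γ hγ
  obtain ⟨e1, e2⟩ := Prod.mk.inj (hs τ h.pos j)
  rw [jj, jj, VJ.act_rP, VJ.act_rP, (j2 _ x _ c2 hj).2] at e2
  rw [e1, uuv_inj hn hc h hi (j1 _ x _ c2 (nb_hk_pos h.pos _) e2.symm)]

/-- The modular unit is a modular function of level two. -/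
theorem uuv_mf : GE.MF 2 (ph 2 none) := by
  refine ⟨fun g hg z hz => ?_, fun g hg => ?_⟩
  · have := den_ne' (M := g) (by rw [hg.1]; exact one_ne_zero) hz
    rw [ph_none, ph_none, Dl_act hg.1 hz, B5.dl_inv0 two_ne_zero dvd_rfl hg hz, ← div_eq_mul_inv,
      ← div_eq_mul_inv, mul_div_mul_left _ _ (pow_ne_zero _ this)]
  · obtain ⟨s, hs⟩ := permF_ph Nat.prime_two g hg
    exact LE.mono (LE.congr (Ph GE.V1 Nat.prime_two (s none)).2 fun z hz =>
      (Prod.mk.inj (hs _ (by simpa using hz) none)).1) le_top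

/-- Its expansion is rational. -/
theorem uuv_cg (σ : ℂ ≃+* ℂ) : G5.Cg 2 σ (ph 2 none) (ph 2 none) := by
  have a : G5.Cq σ (fun z => Dl ((2 : ℕ) * z)) fun z => Dl ((2 : ℕ) * z) := by
    obtain ⟨m, A, h⟩ := lz_Dl
    have a : QE (fun z => q1 z ^ (2 * m) * Dl ((2 : ℕ) * z)) _ :=
      (h.expand 2 two_ne_zero).congr fun z _ => by rw [q1_nat_mul, pow_mul]
    refine ⟨2 * m, _, a, ?_⟩
    convert a
    ext k
    simp [toC, PowerSeries.coeff_expand]
  exact ⟨uuv_mf, uuv_mf, ((G5.cq_const (((2 : ℕ) : ℂ) ^ 12)).mul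
    (a.mul (G5.LZ.cq lz_Dl_inv))).congr (fun z _ => ph_none z) fun z _ => by
      rw [ph_none, map_pow, map_natCast]⟩

theorem uv_stmt (jr : JRStmt) (ng : NGStmt) : UVStmt := by
  intro n c hn hc
  have c0 : c ≠ 0 := hc.pos.ne'
  have c2 : 2 * c ≠ 0 := by omega
  have ok1 := hn.ok c0
  have ok2 := hn.ok c2
  obtain ⟨j1, j2, -⟩ := jr n hn
  choose t t1 t2 using fun x => (ng n c hn hc).2 x none
  have alg : ∀ x, ∃ y : Qbar, jC y = -ph 2 none (t x) / 16 := fun x => by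
    have hy := jC_pre ((Lib.MP_f8d36e_nt.cmlat_int (x := ph 2 none (t x)) fun A =>
      val_ph_le Nat.prime_two (t1 x).pos (by
        rw [(j2 c _ _ c0 (t1 x)).2]
        exact val_jP _ ok1 _) none).tower_top (A := ℚ)).isAlgebraic
    exact ⟨-_ / 16, by rw [map_div₀, map_neg, hy, map_ofNat]⟩
  choose u hu using alg
  have val : ∀ (τ : ℂ) (B : Pc n c) (i : Option (Fin 2)) (x : Pc n (2 * c)), Rp n c τ B →
      Rp n (2 * c) (hk 2 τ i) x → jC (u x) = -ph 2 i τ / 16 := fun τ B i x h hi => by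
    rw [hu, uuv_wd jr ng hn hc h hi (t1 x) (t2 x)]
  have key : ∀ (g : Gam) (x x' : Pc n (2 * c)) (B' : Pc n c),
      g (jQ n c (pj n c (2 * c) x)) = jQ n c B' → g (jQ n (2 * c) x) = jQ n (2 * c) x' →
      g (u x) = u x' := fun g x x' B' h1 h2 => by
    obtain ⟨σ, e⟩ := exists_ex g
    obtain ⟨z, hz⟩ := G5.exists_pc G5.jf_surj two_ne_zero σ (t1 x).pos
    have k := hz.rj two_ne_zero
    have r1 : Rp n c z B' := j1 c B' z c0 k.pos' (by
      rw [k.j, (j2 c _ _ c0 (t1 x)).2, ← jC_jQ ok1, e, h1, jC_jQ ok1])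
    have r2 : Rp n (2 * c) (hk 2 z none) x' := j1 _ x' _ c2 (nb_hk_pos k.pos' _) (by
      have k1 : jf (hk 2 z none) = σ (jf (hk 2 (t x) none)) := k.jN
      rw [k1, (j2 _ _ _ c2 (t2 x)).2, ← jC_jQ ok2, e, h2, jC_jQ ok2])
    refine jC.injective ?_
    rw [← e, hu, val z B' none x' r1 r2, hz.ev _ _ (uuv_cg σ), map_div₀, map_neg, map_ofNat]
  refine ⟨u, val, fun g hg x => key g x _ _ (smul_jQ ok1 hg _) (smul_jQ ok2 hg _), fun x => ?_,
    fun w x => ?_⟩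
  · have h0 := cc_notMem (q := n) (by have := hn.gt; omega)
    refine key cc x _ _ (smul_jQ' ok1 h0 _) ?_
    rw [smul_jQ' ok2 h0, rho_cc ok2, one_mul]
  · obtain ⟨V, hV⟩ := ov_stmt w
    have e : V (ph 2 none (t x)) = V 2 ^ 4 := by
      rcases (val_nat V 2).lt_or_eq with h | h <;> rw [Nat.cast_ofNat] at h
      · exact ((vj_stmt nb_stmt (me_stmt pe_stmt) n c V _ _ hn hc h (t1 x)).2 none).1
      · rw [h, one_pow]
        refine val_phi_eq_one (rP_pos Nat.prime_two none) (t1 x).pos ?_ ?_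
        · rw [(j2 c _ _ c0 (t1 x)).2]
          exact val_jP _ ok1 _
        · rw [(isReps_rP Nat.prime_two).det]
          simpa using h
    rw [← hV, hu, map_div₀, Valuation.map_neg, e, show (16 : ℂ) = 2 ^ 4 by norm_num, map_pow,
      div_self (pow_ne_zero _ (V.ne_zero_iff.2 two_ne_zero))]

end Pool.Agent.B10
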