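import Pool.Agent.Lib.MP_696deb_nt.B10.UZ

/-! The cubes of the three functions of Weber. -/

set_option autoImplicit false

open Complex ModularForm PowerSeries
open scoped Real

namespace Pool.Agent.B10
open Pool.Agent.Lib.MP_696deb_nt

/-- The odd part of the product of Euler. -/
noncomputable def uwaOd (x : ℂ) : ℂ := ∏' k : ℕ, (1 - x ^ (2 * k + 1))

theorem uwa_mult {x : ℂ} (hx : ‖x‖ < 1) : Multipliable fun k : ℕ => 1 - x ^ (2 * k + 1) := by
  apply multipliable_one_add_of_summable (f := fun k : ℕ => -x ^ (2 * k + 1))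
  simpa [Function.comp_def] using (summable_geometric_of_lt_one (norm_nonneg _) hx).comp_injective
    (i := fun k : ℕ => 2 * k + 1) fun a b h => by simpa using h

theorem uwa_sq {x : ℂ} (hx : ‖x‖ < 1) : ‖x ^ 2‖ < 1 := by
  rw [norm_pow]
  exact pow_lt_one₀ (norm_nonneg _) hx two_ne_zero

theorem uwa_split {x : ℂ} (hx : ‖x‖ < 1) : eul x = uwaOd x * eul (x ^ 2) := by
  have e (k : ℕ) : x ^ (2 * k + 1 + 1) = (x ^ 2) ^ (k + 1) := by ring
  have h := tprod_even_mul_odd (f := fun n : ℕ => 1 - x ^ (n + 1)) (uwa_mult hx) (by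
    simpa only [e] using multipliable_one_sub_pow (uwa_sq hx))
  simp only [e] at h
  exact h.symm

theorem uwa_od {x : ℂ} (hx : ‖x‖ < 1) : uwaOd (-x) * uwaOd x = uwaOd (x ^ 2) := by
  rw [uwaOd, uwaOd, uwaOd, ← (uwa_mult (by rwa [norm_neg])).tprod_mul (uwa_mult hx)]
  refine tprod_congr fun k => ?_
  rw [Odd.neg_pow ⟨k, rfl⟩]
  ring

theorem uwa_eul {x : ℂ} (hx : ‖x‖ < 1) :
    eul (-x) * eul x * eul ((x ^ 2) ^ 2) = eul (x ^ 2) ^ 3 := by
  have h1 := uwa_split (uwa_sq hx)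
  rw [uwa_split hx, uwa_split (x := -x) (by rwa [norm_neg]), neg_sq]
  rw [← uwa_od hx] at h1
  linear_combination (-eul (x ^ 2) ^ 2) * h1

theorem uwa_eta (z : ℂ) : η z = q1 (z / 24) * eul (q1 z) := by rw [eta_eq, mul_div_assoc]; rfl

theorem uwa_half : q1 (1 / 2) = -1 := by
  rw [q1, show (2 * π * I * (1 / 2) : ℂ) = π * I by ring, exp_pi_mul_I]

theorem uwa_pow (d : ℕ) (z : ℂ) : q1 z ^ d = q1 (d * z) := (q1_nat_mul d z).symm

theorem uwa_h {z : ℂ} (hz : 0 < z.im) : 0 < (z / 2).im := by simpa using hz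

theorem uwa_d {z : ℂ} (hz : 0 < z.im) : 0 < (2 * z).im := by simpa using hz

theorem uwa_s {z : ℂ} (hz : 0 < z.im) : 0 < (z + 1).im := by simpa using hz

theorem uwa_three {z : ℂ} (hz : 0 < z.im) :
    η ((z + 1) / 2) * η (z / 2) * η (2 * z) = q1 (1 / 48) * η z ^ 3 := by
  have h1 := uwa_eul (norm_q1_lt (uwa_h hz))
  have e1 : q1 ((z + 1) / 2) = -q1 (z / 2) := by rw [add_div, q1_add, uwa_half, mul_neg_one]
  have e2 : q1 (z / 2) ^ 2 = q1 z := by rw [uwa_pow]; congr 1; push_cast; ring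
  have e3 : q1 z ^ 2 = q1 (2 * z) := uwa_pow 2 z
  have e4 : q1 ((z + 1) / 2 / 24) * q1 (z / 2 / 24) * q1 (2 * z / 24) =
      q1 (1 / 48) * q1 (z / 24) ^ 3 := by
    simp only [uwa_pow, ← q1_add]; congr 1; push_cast; ring
  rw [e2, e3, ← e1] at h1
  simp only [uwa_eta, mul_pow]
  linear_combination (eul (q1 ((z + 1) / 2)) * eul (q1 (z / 2)) * eul (q1 (2 * z))) * e4 +
    (q1 (1 / 48) * q1 (z / 24) ^ 3) * h1

theorem uwa_T (z : ℂ) : η (z + 1) = q1 (1 / 24) * η z := by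
  have := eta_add_nat z 1
  rw [Nat.cast_one, mul_div_assoc] at this
  exact this

theorem uwa_sqrt {z : ℂ} (hz : z ≠ 0) : sqrt (2 * z) = (√2 : ℝ) * sqrt z := by
  rw [sqrt_eq_exp hz, sqrt_eq_exp (mul_ne_zero (by norm_num) hz)]
  have := Complex.log_ofReal_mul (r := 2) (by norm_num) hz
  push_cast at this
  rw [this, add_div, Complex.exp_add]
  congr 1
  rw [Real.sqrt_eq_rpow, Real.rpow_def_of_pos (by norm_num)]
  push_cast
  ring_nf

theorem uwa_ne {z : ℂ} (hz : 0 < z.im) : z ≠ 0 := fun h => by simp [h] at hz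

theorem uwa_sqrt_ne {z : ℂ} (hz : z ≠ 0) : sqrt z ≠ 0 := fun h => hz (by
  rw [← csqrt_sq z, h, zero_pow two_ne_zero])

/-- The three functions. -/
noncomputable def uwaF : Fin 3 → ℂ → ℂ :=
  ![fun z => (η z ^ 2 / (η (z / 2) * η (2 * z))) ^ 3, fun z => (η (z / 2) / η z) ^ 3,
    fun z => ((√2 : ℝ) * η (2 * z) / η z) ^ 3]

theorem uwa_F0 (z : ℂ) : uwaF 0 z = (η z ^ 2 / (η (z / 2) * η (2 * z))) ^ 3 := rfl

theorem uwa_F1 (z : ℂ) : uwaF 1 z = (η (z / 2) / η z) ^ 3 := rfl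

theorem uwa_F2 (z : ℂ) : uwaF 2 z = ((√2 : ℝ) * η (2 * z) / η z) ^ 3 := rfl

theorem uwa_F0' {z : ℂ} (hz : 0 < z.im) :
    uwaF 0 z = q1 (-1 / 16) * (η ((z + 1) / 2) / η z) ^ 3 := by
  have e : q1 (-1 / 16) = (q1 (1 / 48))⁻¹ ^ 3 := by
    rw [inv_pow, uwa_pow]
    refine eq_inv_of_mul_eq_one_left ?_
    rw [← q1_add, ← q1_int 0]
    congr 1
    push_cast
    ring
  rw [uwa_F0, e, ← mul_pow]
  congr 1
  have h1 := eta_ne hz
  have h2 := eta_ne (uwa_h hz)
  have h3 := eta_ne (uwa_d hz)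
  have h4 := q1_ne (1 / 48)
  have h5 := uwa_three hz
  generalize η (2 * z) = a at h3 h5 ⊢
  generalize η (z / 2) = b at h2 h5 ⊢
  generalize η ((z + 1) / 2) = c at h5 ⊢
  generalize q1 (1 / 48) = d at h4 h5 ⊢
  field_simp
  linear_combination -h5

theorem uwa_law : Law3 uwaF where
  t0 z hz := by
    have := q1_ne (1 / 24)
    rw [uwa_F0' (uwa_s hz), uwa_F1, show (z + 1 + 1) / 2 = z / 2 + 1 by ring, uwa_T (z / 2),
      uwa_T z, mul_div_mul_left _ _ this]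
  t1 z hz := by
    have e : q1 (-1 / 16) * q1 (-1 / 16) * q1 (1 / 24) ^ 3 = 1 := by
      simp only [uwa_pow, ← q1_add]
      rw [← q1_int 0]
      congr 1
      push_cast
      ring
    have h1 := eta_ne hz
    have h2 := q1_ne (1 / 24)
    rw [uwa_F0' hz, uwa_F1, uwa_T z]
    generalize η ((z + 1) / 2) = c
    generalize q1 (-1 / 16) = a at e ⊢
    generalize q1 (1 / 24) = b at e h2 ⊢
    field_simp
    linear_combination -c ^ 3 * e
  t2 z hz := by
    have e : q1 (2 / 16) = q1 (1 / 24) ^ 3 := by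
      rw [uwa_pow]
      congr 1
      push_cast
      ring
    have h2 := q1_ne (1 / 24)
    rw [uwa_F2 z, uwa_F2 (z + 1), show 2 * (z + 1) = 2 * z + 1 + 1 by ring, uwa_T (2 * z + 1),
      uwa_T (2 * z), uwa_T z, e, ← mul_pow]
    congr 1
    field_simp
  s0 z hz := by
    have h0 := uwa_ne hz
    have h1 := uwa_sqrt_ne I_ne_zero
    have h2 := uwa_sqrt_ne h0
    have h3 := uwa_sqrt (uwa_ne (uwa_h hz))
    have h4 := eta_ne (uwa_h hz)
    have h5 := eta_ne (uwa_d hz)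
    have h6 := uwa_sqrt_ne (uwa_ne (uwa_h hz))
    have h7 : ((√2 : ℝ) : ℂ) ≠ 0 := by simp
    rw [mul_div_cancel₀ _ two_ne_zero] at h3
    rw [uwa_F0, uwa_F0, show -1 / z / 2 = -1 / (2 * z) by field_simp,
      show 2 * (-1 / z) = -1 / (z / 2) by field_simp, eta_S hz, eta_S (uwa_h hz), eta_S (uwa_d hz),
      uwa_sqrt h0]
    congr 1
    rw [h3]
    field_simp
  s1 z hz := by
    have h0 := uwa_ne hz
    have h1 := uwa_sqrt_ne I_ne_zero
    have h2 := uwa_sqrt_ne h0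
    rw [uwa_F1, uwa_F2, show -1 / z / 2 = -1 / (2 * z) by field_simp, eta_S hz, eta_S (uwa_d hz),
      uwa_sqrt h0]
    congr 1
    field_simp
  s2 z hz := by
    have h0 := uwa_ne hz
    have h1 := uwa_sqrt_ne I_ne_zero
    have h3 := uwa_sqrt (uwa_ne (uwa_h hz))
    have h6 := uwa_sqrt_ne (uwa_ne (uwa_h hz))
    have h7 : ((√2 : ℝ) : ℂ) ≠ 0 := by simp
    rw [mul_div_cancel₀ _ two_ne_zero] at h3
    rw [uwa_F1, uwa_F2, show 2 * (-1 / z) = -1 / (z / 2) by field_simp, eta_S hz, eta_S (uwa_h hz)]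
    congr 1
    rw [h3]
    field_simp

theorem uwa_hol : Hol (uwaF 0) := fun z hz => by
  have h1 : DifferentiableAt ℂ (fun z : ℂ => η (z / 2)) z :=
    (hol_eta _ (uwa_h hz)).comp z (f := fun z : ℂ => z / 2) (by fun_prop)
  have h2 : DifferentiableAt ℂ (fun z : ℂ => η (2 * z)) z :=
    (hol_eta _ (uwa_d hz)).comp z (f := fun z : ℂ => 2 * z) (by fun_prop)
  exact (((hol_eta z hz).fun_pow 2).fun_div (h1.fun_mul h2)
    (mul_ne_zero (eta_ne (uwa_h hz)) (eta_ne (uwa_d hz)))).fun_pow 3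

theorem uwa_qe : ∃ A : PowerSeries ℤ, QE (fun z => q1 z ^ 1 * uwaF 0 (16 * z)) (toC A) := by
  have h1 : QE (fun z => (eul (q1 z))⁻¹) (toC (invOfUnit P1 1)) :=
    qe_P1.inv (fun z hz => eul_ne hz) (by
      rw [← map_mul, mul_invOfUnit _ _ (by simp [cc_P1]), map_one])
  refine ⟨(expand 16 (by norm_num) P1 ^ 2 * (expand 8 (by norm_num) (invOfUnit P1 1) *
    expand 32 (by norm_num) (invOfUnit P1 1))) ^ 3, ?_⟩
  simp only [map_mul, map_pow, map_expand]
  refine ((((qe_P1.expand 16 (by norm_num)).pow 2).mul ((h1.expand 8 (by norm_num)).mul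
    (h1.expand 32 (by norm_num)))).pow 3).congr fun z hz => ?_
  have e : q1 z * q1 (16 * z / 24) ^ 6 = q1 (8 * z / 24) ^ 3 * q1 (32 * z / 24) ^ 3 := by
    simp only [uwa_pow, ← q1_add]
    congr 1
    push_cast
    ring
  have h2 := q1_ne (8 * z / 24)
  have h3 := q1_ne (32 * z / 24)
  have h4 : eul (q1 (8 * z)) ≠ 0 := eul_ne (by simpa using hz)
  have h5 : eul (q1 (32 * z)) ≠ 0 := eul_ne (by simpa using hz)
  rw [uwa_F0, show 16 * z / 2 = 8 * z by ring, show 2 * (16 * z) = 32 * z by ring,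
    uwa_eta (16 * z), uwa_eta (8 * z), uwa_eta (32 * z)]
  push_cast
  generalize q1 (16 * z / 24) = a at e ⊢
  generalize q1 (8 * z / 24) = b at e h2 ⊢
  generalize q1 (32 * z / 24) = c at e h3 ⊢
  generalize eul (q1 (8 * z)) = u at h4 ⊢
  generalize eul (q1 (32 * z)) = v at h5 ⊢
  generalize eul (q1 (16 * z)) = w
  field_simp
  linear_combination w ^ 6 * e

theorem uwa_eight {z : ℂ} (hz : 0 < z.im) : uwaF 0 z ^ 8 = -ph 2 (some 1) z := by
  have e : q1 (-1 / 16) ^ 8 = -1 := by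
    have := q1_add (1 / 2) (-1 : ℤ)
    rw [uwa_half, q1_int, mul_one] at this
    refine (uwa_pow _ _).trans ((congrArg q1 ?_).trans this)
    push_cast
    ring
  have e1 : act (rP 2 (some 1)) z = (z + 1) / 2 := by simp [rP, ut, act_of, mob]
  have e2 : den (rP 2 (some 1)) z = 2 := by simp [rP, ut, den]
  have e3 : (rP 2 (some 1)).det = 2 := by simp [rP, det_ut]
  rw [uwa_F0' hz, mul_pow, e, ph, phiJ, e1, e2, e3, Dl, Dl, ← pow_mul, div_pow, Int.cast_ofNat,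
    mul_div_mul_left _ _ (pow_ne_zero _ two_ne_zero), neg_one_mul]

theorem wa_stmt : WAStmt := ⟨uwaF, uwa_law, uwa_hol, uwa_qe, fun _ hz => uwa_eight hz⟩

end Pool.Agent.B10
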