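import Pool.Agent.Lib.MP_696deb_nt.B10.UZ

/-! The cube of the function of Weber is invariant under a congruence subgroup of level 16. -/

set_option autoImplicit false

namespace Pool.Agent.B10
open Pool.Agent.Lib.MP_696deb_nt

/-- An index and an exponent. -/
abbrev UwtS : Type := Fin 3 × ZMod 16

/-- The state of a matrix. -/
def uwtSt (a b c d : ZMod 16) : UwtS :=
  if 8 * c = 0 then
    if 8 * b = 0 then (0, c * d + 4 * b + 3 * b * d)
    else (1, 4 + 4 * d + 4 * c + 2 * c * d + 4 * b + 3 * b * d)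
  else if 8 * d = 0 then
    if 8 * a = 0 then (0, 4 * d + 3 * c * d + 4 * a + 3 * a * c)
    else (2, 4 + 4 * c + 2 * c * d + 4 * a + 3 * a * c)
  else if 8 * a = 0 then (1, 4 * c + 2 * c * d + 4 * b + 3 * b * d)
  else (2, 15 + d * d + c * d + 4 * b + 3 * b * d)

/-- The translation. -/
def uwtT (s : UwtS) : UwtS := (![1, 0, 2] s.1, s.2 + ![-1, -1, 2] s.1)

/-- The inversion. -/
def uwtI (s : UwtS) : UwtS := (![0, 2, 1] s.1, s.2)

theorem uwt_dec : ∀ a b c d : ZMod 16, a * d - b * c = 1 →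
    uwtSt a (a + b) c (c + d) = uwtT (uwtSt a b c d) ∧
      uwtSt (a + b) b (c + d) d = uwtT (uwtI (uwtT (uwtSt a b c d))) := by
  have h : ((List.finRange 16).all fun a => (List.finRange 16).all fun b =>
      (List.finRange 16).all fun c => (List.finRange 16).all fun d =>
      !Nat.beq (a.1 * d.1 % 16) ((b.1 * c.1 + 1) % 16) || decide
        (uwtSt a (a + b : Fin 16) c (c + d : Fin 16) = uwtT (uwtSt a b c d) ∧
          uwtSt (a + b : Fin 16) b (c + d : Fin 16) d = uwtT (uwtI (uwtT (uwtSt a b c d))))) =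
      true := by
    decide +kernel
  simp only [List.all_eq_true, List.mem_finRange, forall_true_left, Bool.or_eq_true,
    decide_eq_true_eq, Bool.not_eq_true', ← Bool.not_eq_true, Nat.beq_eq] at h
  intro a b c d e
  refine (h a b c d).resolve_left (not_not.2 ((ZMod.natCast_eq_natCast_iff' _ _ 16).1 ?_))
  have k : ∀ x : ZMod 16, ((Fin.val (n := 16) x : ℕ) : ZMod 16) = x := ZMod.natCast_zmod_val
  push_cast
  rw [k, k, k, k]
  linear_combination e

/-- The function of a state. -/
noncomputable def uwtE (F : Fin 3 → ℂ → ℂ) (s : UwtS) (z : ℂ) : ℂ := ZMod.stdAddChar s.2 * F s.1 z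

theorem uwt_q (j : ℤ) : q1 (j / 16) = ZMod.stdAddChar (j : ZMod 16) := by
  simpa using q1_div_pow 16 j 1

variable {F : Fin 3 → ℂ → ℂ} {z : ℂ}

theorem uwt_T (h : Law3 F) (s : UwtS) (hz : 0 < z.im) : uwtE F s (z + 1) = uwtE F (uwtT s) z := by
  have e1 := uwt_q (-1)
  have e2 := uwt_q 2
  push_cast at e1 e2
  obtain ⟨i, k⟩ := s
  fin_cases i <;>
    simp [uwtE, uwtT, h.t0 z hz, h.t1 z hz, h.t2 z hz, e1, e2, AddChar.map_add_eq_mul, mul_assoc]

theorem uwt_I (h : Law3 F) (s : UwtS) (hz : 0 < z.im) : uwtE F s (-1 / z) = uwtE F (uwtI s) z := by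
  obtain ⟨i, k⟩ := s
  fin_cases i <;> simp [uwtE, uwtI, h.s0 z hz, h.s1 z hz, h.s2 z hz]

theorem uwt_U (h : Law3 F) (s : UwtS) (hz : 0 < z.im) :
    uwtE F s (mob 1 0 1 1 z) = uwtE F (uwtT (uwtI (uwtT s))) z := by
  have p : 0 < (z + 1).im := by simpa using hz
  have n : z + 1 ≠ 0 := fun e => by simp [e] at p
  have q : 0 < (-1 / (z + 1)).im := by
    simpa [mob] using im_mob_pos (a := 0) (b := -1) (c := 1) (d := 1) (by norm_num) hz
  rw [← uwt_T h _ hz, ← uwt_I h _ p, ← uwt_T h _ q]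
  congr 1
  simp only [mob]
  push_cast
  field_simp
  ring

theorem uwt_iff {G H : ℂ → ℂ} {a b c d : ℤ} (h : a * d - b * c = 1) :
    (∀ z : ℂ, 0 < z.im → G z = H z) ↔
      ∀ z : ℂ, 0 < z.im → G (mob a b c d z) = H (mob a b c d z) :=
  ⟨fun k _ hz => k _ (im_mob_pos (by omega) hz), fun k z hz => by
    have e : d * a - -b * -c = 1 := by linear_combination h
    have := k _ (im_mob_pos (a := d) (b := -b) (c := -c) (d := a) (by omega) hz)
    rwa [mob_mob (by omega) _ _ _ _ hz, show a * d + b * -c = 1 by linear_combination h,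
      show a * -b + b * a = 0 by ring, show c * d + d * -c = 0 by ring,
      show c * -b + d * a = 1 by linear_combination h, show mob 1 0 0 1 z = z by simp [mob]]
      at this⟩

theorem wt_stmt : WTStmt := by
  intro F h g hg hb hc z hz
  have key := euclid (N := 1) (Or.inl rfl)
    (fun a b c d => ∀ z : ℂ, 0 < z.im → F 0 (mob a b c d z) = uwtE F (uwtSt a b c d) z)
    (fun a b c d e => by
      rw [uwt_iff (a := 1) (b := 1) (c := 0) (d := 1) (by norm_num)]
      refine forall₂_congr fun z hz => ?_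
      have k := (uwt_dec a b c d (by simpa using congrArg (Int.cast : ℤ → ZMod 16) e)).1
      rw [mob_mob (by norm_num) _ _ _ _ hz, show mob 1 1 0 1 z = z + 1 by simp [mob], uwt_T h _ hz,
        ← k]
      simp)
    (fun a b c d e => by
      rw [uwt_iff (a := 1) (b := 0) (c := 1) (d := 1) (by norm_num)]
      refine forall₂_congr fun z hz => ?_
      have k := (uwt_dec a b c d (by simpa using congrArg (Int.cast : ℤ → ZMod 16) e)).2
      rw [mob_mob (by norm_num) _ _ _ _ hz, uwt_U h _ hz, ← k]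
      simp)
    (fun z _ => by simp [mob, uwtE, uwtSt]) (fun z _ => by simp [mob, uwtE, uwtSt])
    (g 0 0) (g 0 1) (g 1 0) (g 1 1) (by simpa [Matrix.det_fin_two] using hg) z hz
  rw [(ZMod.intCast_zmod_eq_zero_iff_dvd _ 16).2 hb, (ZMod.intCast_zmod_eq_zero_iff_dvd _ 16).2 hc]
    at key
  simpa [uwtE, uwtSt, act] using key

end Pool.Agent.B10
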