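import Pool.Agent.Lib.MP_696deb_nt.B10.UO
import Pool.Agent.Lib.MP_696deb_nt.B10.UFN
import Pool.Agent.Lib.MP_696deb_nt.B10.UKP
import Pool.Agent.Lib.MP_696deb_nt.B10.UAB
import Pool.Agent.Lib.MP_696deb_nt.B10.UBM
import Pool.Agent.Lib.MP_696deb_nt.B10.UBX
import Pool.Agent.Lib.MP_696deb_nt.B10.UCX
import Pool.Agent.Lib.MP_696deb_nt.B10.UD5
import Pool.Agent.Lib.MP_696deb_nt.B10.UDP
import Pool.Agent.Lib.MP_696deb_nt.B10.UE4
import Pool.Agent.Lib.MP_696deb_nt.B10.UGB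
import Pool.Agent.Lib.MP_696deb_nt.B10.UIX
import Pool.Agent.Lib.MP_696deb_nt.B10.UJR
import Pool.Agent.Lib.MP_696deb_nt.B10.UKB
import Pool.Agent.Lib.MP_696deb_nt.B10.UKC
import Pool.Agent.Lib.MP_696deb_nt.B10.UKD
import Pool.Agent.Lib.MP_696deb_nt.B10.UKU
import Pool.Agent.Lib.MP_696deb_nt.B10.UM1
import Pool.Agent.Lib.MP_696deb_nt.B10.UNG
import Pool.Agent.Lib.MP_696deb_nt.B10.UNL
import Pool.Agent.Lib.MP_696deb_nt.B10.UNZ
import Pool.Agent.Lib.MP_696deb_nt.B10.UP1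
import Pool.Agent.Lib.MP_696deb_nt.B10.UPR
import Pool.Agent.Lib.MP_696deb_nt.B10.UPT
import Pool.Agent.Lib.MP_696deb_nt.B10.URA
import Pool.Agent.Lib.MP_696deb_nt.B10.USA
import Pool.Agent.Lib.MP_696deb_nt.B10.USP
import Pool.Agent.Lib.MP_696deb_nt.B10.UUB
import Pool.Agent.Lib.MP_696deb_nt.B10.UUS
import Pool.Agent.Lib.MP_696deb_nt.B10.UUV
import Pool.Agent.Lib.MP_696deb_nt.B10.UV1
import Pool.Agent.Lib.MP_696deb_nt.B10.UWA
import Pool.Agent.Lib.MP_696deb_nt.B10.UWF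
import Pool.Agent.Lib.MP_696deb_nt.B10.UWT

/-! The Euler system of Weber units is primitive. -/

set_option autoImplicit false

namespace Pool.Agent.B10

theorem utop_wf : WFStmt := wf_stmt wa_stmt wt_stmt

theorem utop_ab : ABStmt := ab_stmt jr_stmt sp_stmt10

theorem utop_nl : NLStmt := nl_stmt ng_stmt

theorem utop_wp : WPStmt := @wp_stmt jr_stmt ng_stmt

theorem utop_p1 : P1Stmt := @p1_stmt @nz_stmt dp_stmt @e4_stmt

theorem utop_wb : WBStmt :=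
  @wb_stmt (@ub_stmt ng_stmt utop_nl pt_stmt (uv_stmt jr_stmt ng_stmt)) @sa_stmt
    (ra_stmt utop_wf jr_stmt ng_stmt utop_ab) (rt_stmt utop_wf jr_stmt ng_stmt utop_nl utop_ab)

theorem utop_kp : KPStmt :=
  @kp_stmt (@ku_stmt kb_stmt) @gb_stmt @rc_stmt pr_stmt (@p3_stmt @nz_stmt dp_stmt) @kc_stmt
    @st_stmt

theorem utop_fn : FNStmt :=
  @fn_stmt @utop_kp (@v1_stmt @kc_stmt @st_stmt @m1_stmt @utop_p1 @rc_stmt pr_stmt)
    (@v2_stmt @kc_stmt @st_stmt @m2_stmt @d5_stmt @utop_p1 @rc_stmt pr_stmt)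

theorem u_stmt : UOStmt :=
  @uo_stmt @cx_stmt @bx_stmt @bm_stmt @utop_wb @us_stmt (@ix_stmt @utop_wp) @kd_stmt @utop_fn
    @utop_wp

end Pool.Agent.B10
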