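import Pool.Agent.Lib.MP_696deb_nt.B10.UZ
import Pool.Agent.Lib.MP_696deb_nt.B4.GE1

/-! The cube of the function of Weber is a modular function of level 256. -/

set_option autoImplicit false

open Filter Asymptotics

namespace Pool.Agent.B10
open Pool.Agent.Lib.MP_696deb_nt
open Pool.Agent.B4.GE (MF Inv0)

theorem uwf_pos {N : ℕ} (hN : N ≠ 0) {z : ℂ} (hz : 0 < z.im) : 0 < ((N : ℂ) * z).im := by
  simpa using mul_pos (Nat.cast_pos.2 (Nat.pos_of_ne_zero hN)) hz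

theorem uwf_aff {F : ℂ → ℂ} (h : LZ F) {a : ℕ} (ha : a ≠ 0) (c : ℝ) :
    LE ⊤ fun z => F (a * z + c) := by
  obtain ⟨n, A, h⟩ := h
  exact ⟨_, _, qe_affine h ha c, fun _ => trivial⟩

theorem uwf_mul {F G : ℂ → ℂ} (h : LE ⊤ F) (h' : LE ⊤ G) : LE ⊤ fun z => F z * G z :=
  LE.mul h h' fun _ _ _ _ => trivial

/-- Quotients of discriminants and their inverses have Laurent expansions. -/
theorem uwf_phi {M : MZ} {m e : ℕ} (hm : m ≠ 0) (he : e ≠ 0) (hM : M.det = m) :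
    (LE ⊤ fun z => phiJ M ((m * e : ℕ) * z)) ∧ LE ⊤ fun z => (phiJ M ((m * e : ℕ) * z))⁻¹ := by
  obtain ⟨a, b, d, k, -, h1, rfl⟩ := exists_ut (M := M) (by omega)
  rw [Matrix.det_mul, h1, det_ut, one_mul] at hM
  obtain rfl : m = a * d := by exact_mod_cast hM.symm
  obtain ⟨ha, hd⟩ := mul_ne_zero_iff.1 hm
  have h2 : 0 < (ut a b d).det := by rw [det_ut]; positivity
  have h3 : ∀ z : ℂ, 0 < z.im → phiJ (k * ut a b d) ((a * d * e : ℕ) * z) =
      a ^ 12 * (Dl ((a * a * e : ℕ) * z + (((b : ℤ) / d : ℝ) : ℂ)) *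
        (Dl ((a * d * e : ℕ) * z + ((0 : ℝ) : ℂ)))⁻¹) := fun z hz => by
    have h4 := uwf_pos (mul_ne_zero hm he) hz
    have h5 := act_ut (a := a) (b := b) hd (e * z)
    rw [← mul_assoc, ← mul_assoc, ← Nat.cast_mul, ← Nat.cast_mul] at h5
    rw [phi_mul _ h2 h4, phi_det_one h1 (act_pos h2 h4), one_mul, phi_ut hd, h5,
      Complex.ofReal_zero, add_zero, mul_assoc]
  have k1 := mul_ne_zero (mul_ne_zero ha ha) he
  have k2 := mul_ne_zero hm he
  refine ⟨(uwf_mul (LE.const trivial) (uwf_mul (uwf_aff lz_Dl k1 _)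
    (uwf_aff lz_Dl_inv k2 0))).congr h3, (uwf_mul (LE.const (c := ((a : ℂ) ^ 12)⁻¹) trivial)
      (uwf_mul (uwf_aff lz_Dl_inv k1 ((b : ℤ) / d)) (uwf_aff lz_Dl k2 0))).congr fun z hz => ?_⟩
  rw [h3 z hz, mul_inv, mul_inv, inv_inv]

/-- Periodic holomorphic roots of Laurent series are Laurent series. -/
theorem uwf_root {H : ℂ → ℂ} (h1 : Hol H) (h2 : ∀ z : ℂ, 0 < z.im → H (z + 1) = H z) {k : ℕ}
    (h3 : LE ⊤ fun z => H z ^ (k + 1)) : LE ⊤ H := by
  obtain ⟨n, A, h4, -⟩ := h3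
  have h5 : Bdd fun z => (q1 z ^ n * H z) ^ (k + 1) :=
    (h4.pow_mul (n * k)).bdd.congr fun z _ => by ring
  have h6 : Bdd fun z => q1 z ^ n * H z :=
    IsBigO.of_pow (Nat.succ_ne_zero k) (h5.congr' EventuallyEq.rfl
      (Eventually.of_forall fun _ => (one_pow _).symm))
  obtain ⟨B, hB⟩ := QE.exists_of_periodic (F := fun z => q1 z ^ n * H z)
    (fun z hz => ((hol_q1 z hz).pow n).mul (h1 z hz))
    (fun z hz => by rw [h2 z hz, q1_add, show q1 1 = 1 by simpa using q1_int 1, mul_one]) h6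
  exact ⟨n, B, hB, fun _ => trivial⟩

theorem uwf_act (z : ℂ) : act (ut 16 0 1) z = 16 * z := by simp [ut, act_of, mob]

theorem wf_stmt (h1 : WAStmt) (h2 : WTStmt) : WFStmt := by
  obtain ⟨F, hL, hH, hq, hp⟩ := h1
  have hi : Inv0 256 fun z => F 0 (16 * z) := by
    rintro g ⟨k1, t, k2⟩ z hz
    have k3 := den_ne' (M := g) (by omega) hz
    have k4 : 16 * act g z = act !![g 0 0, 16 * g 0 1; 16 * t, g 1 1] (16 * z) := by
      rw [den, k2] at k3
      rw [act_of, act, mob, mob, k2]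
      push_cast at k3 ⊢
      rw [show 16 * (t : ℂ) * (16 * z) = 256 * t * z by ring]
      field_simp
    rw [Matrix.det_fin_two, k2] at k1
    beta_reduce
    rw [k4]
    refine h2 F hL _ ?_ ⟨g 0 1, rfl⟩ ⟨t, rfl⟩ _ (uwf_pos (N := 16) (by norm_num) hz)
    rw [Matrix.det_fin_two_of]
    push_cast at k1
    linear_combination k1
  refine ⟨F 0, ⟨hi, fun g hg => ?_⟩, hq, hp⟩
  have d1 : (ut 16 0 1 * g).det = (16 : ℕ) := by rw [Matrix.det_mul, hg, det_ut]; rfl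
  have d2 : (ut 1 1 2 * (ut 16 0 1 * g)).det = (32 : ℕ) := by rw [Matrix.det_mul, d1, det_ut]; rfl
  have d3 : 0 < (ut 16 0 1 * g).det := by rw [d1]; norm_num
  have e1 : ∀ z : ℂ, 0 < z.im →
      16 * act g ((256 : ℕ) * z) = act (ut 16 0 1 * g) ((256 : ℕ) * z) := fun z hz => by
    rw [act_mul _ (by omega) (uwf_pos (by norm_num) hz), uwf_act]
  refine uwf_root (k := 7) (fun z hz => ?_)
    (fun z hz => hi.periodic hg dvd_rfl (by norm_num) hz) ?_
  · have z0 := uwf_pos (N := 256) (by norm_num) hz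
    refine (hH _ (e1 z hz ▸ act_pos d3 z0)).comp z (DifferentiableAt.const_mul ?_ _)
    exact (hol_act (by omega) _ z0).comp z (by fun_prop)
  · refine (uwf_mul (LE.const (c := -1) trivial) (uwf_mul
      (uwf_phi (e := 8) (by norm_num) (by norm_num) d2).1
      (uwf_phi (e := 16) (by norm_num) (by norm_num) d1).2)).congr fun z hz => ?_
    have z0 := uwf_pos (N := 256) (by norm_num) hz
    have := phi_ne d3 z0
    show F 0 (16 * act g ((256 : ℕ) * z)) ^ 8 = -1 * (phiJ _ ((256 : ℕ) * z) *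
      (phiJ _ ((256 : ℕ) * z))⁻¹)
    rw [e1 z hz, hp _ (act_pos d3 z0), phi_mul _ d3 z0, mul_inv_cancel_right₀ this, neg_one_mul]
    rfl

end Pool.Agent.B10
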