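import Pool.Agent.Lib.MP_696deb_nt.B10.U0
import Pool.Agent.Lib.MP_696deb_nt.B3.CMf
import Pool.Agent.Lib.MP_696deb_nt.B5.HT0
import Pool.Agent.Lib.MP_696deb_nt.B2.LO0

/-! The Euler system of Weber units: definitions and statements. -/

set_option autoImplicit false

open NumberField NumberTheorySymbols Finset
open scoped Classical NNReal

namespace Pool.Agent.B10
open Pool.Agent.Lib.MP_696deb_nt Pool.Agent.Lib.MP_696deb_nt.B2 Pool.Agent.Lib.MP_696deb_nt.B2.CM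
  Pool.Agent.B6 Pool.Agent.B4 Pool.Agent.B8
open Pool.Agent.Lib.MP_696deb_nt.B6 (Act0 Dual3 N2)
open Pool.Agent.Lib.MP_696deb_nt.B3.CM (th)
open Pool.Agent.B4.GE (MF)

/-! ### Modular units -/

/-- The cubes of the three functions of Weber. -/
structure Law3 (F : Fin 3 → ℂ → ℂ) : Prop where
  t0 : ∀ z : ℂ, 0 < z.im → F 0 (z + 1) = q1 (-1 / 16) * F 1 z
  t1 : ∀ z : ℂ, 0 < z.im → F 1 (z + 1) = q1 (-1 / 16) * F 0 z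
  t2 : ∀ z : ℂ, 0 < z.im → F 2 (z + 1) = q1 (2 / 16) * F 2 z
  s0 : ∀ z : ℂ, 0 < z.im → F 0 (-1 / z) = F 0 z
  s1 : ∀ z : ℂ, 0 < z.im → F 1 (-1 / z) = F 2 z
  s2 : ∀ z : ℂ, 0 < z.im → F 2 (-1 / z) = F 1 z

/-- An eighth root of the modular unit of level two. -/
structure Wf (f : ℂ → ℂ) : Prop where
  mf : MF 256 fun z => f (16 * z)
  qe : ∃ A : PowerSeries ℤ, QE (fun z => q1 z ^ 1 * f (16 * z)) (toC A)
  pow : ∀ z : ℂ, 0 < z.im → f z ^ 8 = -ph 2 (some 1) z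

/-- The values of the modular unit at the classes of conductor `2 c`. -/
structure Uv (n c : ℕ) (u : Pc n (2 * c) → Qbar) : Prop where
  val : ∀ (τ : ℂ) (B : Pc n c) (i : Option (Fin 2)) (x : Pc n (2 * c)), Rp n c τ B →
    Rp n (2 * c) (hk 2 τ i) x → jC (u x) = -ph 2 i τ / 16
  gal : ∀ g ∈ GK n, ∀ x, g (u x) = u (rho n (2 * c) g * x)
  conj : ∀ x, cc (u x) = u x⁻¹
  unit : ∀ (w : Plc) (x : Pc n (2 * c)), w.V (u x) = 1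

/-- The neighbours for the prime `l` that keep the structure of level 256. -/
noncomputable def nl (l : ℕ) (τ : ℂ) (k : Option (Fin l)) : ℂ := 16 * act (rP l k) (τ / 16)

def WAStmt : Prop := ∃ F : Fin 3 → ℂ → ℂ, Law3 F ∧ Hol (F 0) ∧
  (∃ A : PowerSeries ℤ, QE (fun z => q1 z ^ 1 * F 0 (16 * z)) (toC A)) ∧
  ∀ z : ℂ, 0 < z.im → F 0 z ^ 8 = -ph 2 (some 1) z

def WTStmt : Prop := ∀ F, Law3 F → ∀ g : MZ, g.det = 1 → 16 ∣ g 0 1 → 16 ∣ g 1 0 →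
  ∀ z : ℂ, 0 < z.im → F 0 (act g z) = F 0 z

def WFStmt : Prop := ∃ f, Wf f

/-- The invariant determines the class; every special point has a class. -/
def JRStmt : Prop := ∀ n : ℕ, Nk n →
  (∀ (c : ℕ) (x : Pc n c) (z : ℂ), c ≠ 0 → 0 < z.im → jf z = jP n c x → Rp n c z x) ∧
  (∀ (c : ℕ) (x : Pc n c) (z : ℂ), c ≠ 0 → Rp n c z x → G5.CM n z ∧ jf z = jP n c x) ∧
  ∀ z, G5.CM n z → ∃ (m : ℕ) (x : Pc n m), m ≠ 0 ∧ Rp n m z x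

/-- Special points are smooth points of the plane models of two-power level. -/
def SPStmt : Prop := ∀ (n k : ℕ) (z : ℂ), Nk n → G5.CM n z → G5.Sep (2 ^ k) z

/-- The three neighbours of a point of odd conductor. -/
def NGStmt : Prop := ∀ (n c : ℕ), Nk n → Odd c →
  (∀ (τ : ℂ) (B : Pc n c), Rp n c τ B → ∃ y : Option (Fin 2) → Pc n (2 * c),
    (∀ i, Rp n (2 * c) (hk 2 τ i) (y i)) ∧ (∀ x, pj n c (2 * c) x = B ↔ ∃ i, y i = x) ∧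
    ∀ ψ : Pc n 2 →* Z3, Ram ψ → Function.Bijective fun i => ψ (pj n 2 (2 * c) (y i))) ∧
  ∀ (x : Pc n (2 * c)) (i : Option (Fin 2)), ∃ τ : ℂ, Rp n c τ (pj n c (2 * c) x) ∧
    Rp n (2 * c) (hk 2 τ i) x

/-- The neighbours for an inert prime. -/
def NLStmt : Prop := ∀ (n c l : ℕ) (τ : ℂ) (B : Pc n c) (x : Pc n (2 * c)), Nk n → Odd c →
  l.Prime → l ≠ 2 → J(-n | l) = -1 → ¬ l ∣ c → Rp n c τ B → Rp n (2 * c) (hk 2 τ (some 1)) x →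
  ∃ y : Option (Fin l) → Pc n (2 * (c * l)), Function.Injective y ∧
    (∀ x', pj n (2 * c) (2 * (c * l)) x' = x ↔ ∃ k, y k = x') ∧
    ∀ k, Rp n (c * l) (nl l τ k) (pj n (c * l) (2 * (c * l)) (y k)) ∧
      Rp n (2 * (c * l)) (hk 2 (nl l τ k) (some 1)) (y k)

/-- The product formula. -/
def PTStmt : Prop := ∀ (l : ℕ) (τ : ℂ), l.Prime → l ≠ 2 → 0 < τ.im →
  ∏ k, ph 2 (some 1) (nl l τ k) = ph 2 (some 1) τ ^ (l + 1) ∧ ∏ i, ph 2 i τ = -4096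

def UVStmt : Prop := ∀ n c : ℕ, Nk n → Odd c → ∃ u, Uv n c u

/-- The values lie in ring class fields. -/
def ABStmt : Prop := ∀ (n : ℕ) (f : ℂ → ℂ) (τ : ℂ), Nk n → Wf f → G5.CM n τ →
  ∃ (v : Qbar) (m : ℕ), jC v = f τ ∧ m ≠ 0 ∧ ∀ g ∈ GK n, rho n m g = 1 → g v = v

/-- The eighth roots are abelian over the quadratic field. -/
def RAStmt : Prop := ∀ (n c : ℕ) (u : Pc n (2 * c) → Qbar) (x : Pc n (2 * c)), Nk n → Odd c →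
  Uv n c u → ∃ v : Qbar, v ^ 8 = u x ∧ ∀ g ∈ GK n, ∀ h ∈ GK n, (g * h) v = (h * g) v

/-- The congruence of Kronecker for the eighth roots. -/
def RTStmt : Prop := ∀ (n c l : ℕ) (u : Pc n (2 * c) → Qbar) (u' : Pc n (2 * (c * l)) → Qbar)
  (x : Pc n (2 * (c * l))), Nk n → Odd c → l.Prime → l ≠ 2 → J(-n | l) = -1 → ¬ l ∣ c →
  Uv n c u → Uv n (c * l) u' → ∃ v v' e : Qbar, v ^ 8 = u (pj n (2 * c) (2 * (c * l)) x) ∧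
    v' ^ 8 = u' x ∧ e ^ 2 = 1 ∧ ∀ w : Plc, w.p = l → w.V (v' - e * v ^ l) < 1

/-- Many numbers whose ideals are powers. -/
def KBStmt : Prop := ∀ (L : Type) [Field L] [NumberField L] (_ : L →+* ℝ) (ε : (𝓞 L)ˣ) (j : ℕ),
  ¬ IsSquare ε → ¬ IsSquare (-ε) → 2 ^ j ∣ classNumber L → ∃ α : Fin (4 ^ j) → 𝓞 L,
    (∀ a, α a ≠ 0 ∧ (∃ q : ℚ, |Algebra.norm ℚ (α a : L)| = q ^ 2 ^ j) ∧
      ∀ v : Valuation L ℝ≥0, (∀ x : 𝓞 L, v x ≤ 1) → ∃ y : L, v (α a) = v y ^ 2 ^ j) ∧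
    ∀ (a a' : Fin (4 ^ j)) (β : L), ((α a : L) = α a' * β ^ 2 ^ j ∨ (α a : L) = -(α a' * β ^ 2 ^ j)) →
      a = a'

/-- Linear algebra. -/
def PRStmt : Prop := ∀ j : ℕ, Nat.card (Mv j) = 4 ^ j ∧
  (∀ d : ℕ, Nat.card {y : Mv j // 2 ^ d • y = 0} ≤ 4 ^ d) ∧
  ∀ (e d : ℕ) (x y : Mv j), e + 1 + d = j → bm j x y = 0 → bm j (omM j x) y = 0 → 2 ^ e • x ≠ 0 →
    2 ^ d • y = 0

/-- The choice of a prime with prescribed Frobenius element. -/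
def DPStmt : Prop := ∀ (D U : Subgroup Gam) (A : Type) [AddCommGroup A] (k t : ℕ) (x : Gam → A)
  (s : Gam) (B : Finset ℕ), Op D → D.Normal → Op U → U.Normal → (∀ y : A, 2 ^ k • y = 0) → Sm D x →
  IsHom D x → s * s ∈ D → s ^ 2 ^ t ∈ U → ∃ (w : Plc) (a : ℕ), w.p ∉ B ∧ Odd a ∧
    (fr w)⁻¹ * s ^ a ∈ D ⊓ U ∧ x (fq w) = a • x (s * s)

/-- The square of `g` acts on the points of order four as minus one. -/
def E4 [Cw] (g : Gam) : Prop := ∀ P : B6.EE, 4 • P = 0 → (g * g) • P = -P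

def E4Stmt : Prop := ∀ [Cs] (s : Gam) (w : Plc), s ∉ GK NN → cy 2 s = 1 → w.p ∣ NN →
  E4 s ∨ ∃ v : Plc, v.p = w.p ∧ ∃ τ ∈ Ine v, E4 (s * (τ * τ))

def CXStmt : Prop := ∀ [Ce] (ψ : Pc NN 2 →* Z3), Cub ψ →
  ∀ g ∈ GK NN, ψ (rho NN 2 g) = 1 ↔ ∀ i, g (er i) = er i

variable [Cp]

/-- Inert odd places. -/
def In (w : Plc) : Prop := w.p ≠ 2 ∧ J(-NN | w.p) = -1

/-- Sets of inert odd places above distinct primes. -/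
def Ad (S : Finset Plc) : Prop := (∀ w ∈ S, In w) ∧ Set.InjOn Plc.p S

omit [Cp] in
/-- The conductor. -/
def cS (S : Finset Plc) : ℕ := ∏ w ∈ S, w.p

/-- The places that are wanted in the end. -/
structure Gd (m : ℕ) (B : Finset ℕ) (w : Plc) : Prop where
  out : w.p ∉ B
  inn : In w
  m4 : w.p % 4 = 1
  mod : w.p ≡ 1 [MOD m]
  e4 : E4 (fr w)

/-- Local facts. -/
structure Bx : Prop where
  odd : ∀ w : Plc, w.p ≠ 2 → ∀ σ ∈ GK NN ⊓ Ine w, xc σ = 0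
  two : ∀ w : Plc, w.p = 2 → Ine w ≤ GK NN ∧ fr w ∉ GK NN ∧ ∃ σ ∈ Ine w, xc σ = 1
  hl : ∀ g, g ∈ HL ↔ xc g = 0
  ine : ∀ w, In w → Ine w ≤ GK NN ∧ fr w ∉ GK NN ∧ ¬ w.p ∣ NN
  tm : ∀ w, In w → Tm (GK NN) w (w.p ^ 2) (fq w) (gn w)
  dec : ∀ w, In w → ∀ g ∈ GK NN ⊓ Dec w, xc g = 0
  cj : ∀ w v : Plc, w.p = 2 ∨ In w → v.p = w.p → ∃ g ∈ GK NN, g • w = v
  ram : ∀ w : Plc, w.p ∣ NN → gn w ∉ GK NN
  aw : ∀ S, Ad S → Aw NN (cS S)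
  th : ∀ w : Plc, w.p = 2 → ∃ θ : I3 → Qbar, (∀ (g : Gam) (i : I3), g (θ i) = θ (pm g i)) ∧
    (∀ i, w.V (θ i) ^ 3 = w.V 2) ∧ w.V (∑ i, θ i) ≤ w.V 2

/-- Facts on the modules. -/
structure Bm : Prop where
  act : ∀ e j, Act0 ⊤ (am e j)
  dual : ∃ sig : Gam →* N2, ∀ j, Dual3 sig j (GK NN) (am 1 j) (am 0 j) (bm j)
  kil : ∀ j (x : Mv j), 2 ^ j • x = 0
  fpf : ∀ e j, ∀ g ∈ GK NN, xc g ≠ 0 → Function.Bijective fun x : Mv j => am e j g x - x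
  triv : ∀ e j, ∀ g ∈ GK NN, xc g = 0 → cy j g ^ e = 1 → ∀ x, am e j g x = x
  omm : ∀ e j, ∀ g ∈ GK NN, ∀ x, am e j g (omM j x) = omM j (am e j g x)
  inj : ∀ j, Function.Injective (emb j)
  onto : ∀ (j : ℕ) (x : TT), 2 ^ j • x = 0 → ∃ y, emb j y = x
  emb_om : ∀ j (x : Mv j), emb j (omM j x) = om (emb j x)
  smul_om : ∀ g ∈ GK NN, ∀ x : TT, g • om x = om (g • x)
  cc_om : ∀ x : TT, cc • om x = om (om (cc • x))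
  om3 : ∀ x : TT, x + om x + om (om x) = 0
  fix : ∀ g ∈ GK NN, xc g ≠ 0 → ∀ (j : ℕ) (x : TT), 2 ^ j • x = 0 → g • x = x → x = 0
  half : ∀ (j : ℕ) (x : TT), ∃ R, 2 ^ j • R = x
  sm : ∀ x : TT, Sm ⊤ fun g : Gam => g • x
  tors : ∀ w : Plc, w.p ≠ 2 → ∀ x ∈ K1 w, ∀ j : ℕ, 2 ^ j • x = 0 → x = 0
  frob : ∀ (w : Plc) (q : ℕ), ∀ g ∈ GK NN, IsFrob w q g → xc g = 0 → ∀ x : TT,
    (∀ i, w.V (co x i) = 1) → g • x - q • x ∈ K1 w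
  k1 : ∀ (w : Plc) (g : Gam), ∀ x ∈ K1 w, g • x ∈ K1 (g • w)
  un : ∀ (j : ℕ) (x : TT), 2 ^ j • x ∈ Un → x ∈ Un

/-- The eighth powers of the units. -/
structure Ub (U : ∀ c, Pc NN c → TT) : Prop where
  val : ∀ c, Aw NN c → ∃ u, Uv NN c u ∧
    ∀ x, co (U c (pj NN c (2 * c) x)) (ps (pj NN 2 (2 * c) x)).toAdd = u x
  gal : ∀ c, Aw NN c → ∀ g ∈ GK NN, ∀ B, g • U c B = U c (rho NN c g * B)
  conj : ∀ c, Aw NN c → ∀ B, cc • U c B = U c B⁻¹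
  unit : ∀ c, Aw NN c → ∀ B, U c B ∈ Un
  trace : ∀ (c l : ℕ) [Fintype (Pc NN (c * l))], l.Prime → Aw NN (c * l) → ∀ B,
    ∑ B' with pj NN c (c * l) B' = B, U (c * l) B' = (l + 1) • U c B
  idx : ∀ c, Aw NN c → (∀ B i, ∃ x, pj NN c (2 * c) x = B ∧ (ps (pj NN 2 (2 * c) x)).toAdd = i) ∧
    ∃ σ ∈ GK NN, rho NN c σ = 1 ∧ xc σ ≠ 0

/-- The units. -/
structure Wb (Y : ∀ c, Pc NN c → TT) : Prop where
  val : ∀ c, Aw NN c → ∃ u, Uv NN c u ∧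
    ∀ x, co (Y c (pj NN c (2 * c) x)) (ps (pj NN 2 (2 * c) x)).toAdd ^ 8 = u x
  gal : ∀ c, Aw NN c → ∀ g ∈ GK NN, ∀ B, g • Y c B = Y c (rho NN c g * B)
  conj : ∀ c, Aw NN c → ∀ B, cc • Y c B = Y c B⁻¹
  unit : ∀ c, Aw NN c → ∀ B, Y c B ∈ Un
  trace : ∀ (c l : ℕ) [Fintype (Pc NN (c * l))], l.Prime → Aw NN (c * l) → ∀ B,
    ∑ B' with pj NN c (c * l) B' = B, Y (c * l) B' = (l + 1) • Y c B
  kron : ∀ (c : ℕ) (w : Plc), Aw NN (c * w.p) → ∀ B,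
    Y (c * w.p) B - w.p • Y c (pj NN c (c * w.p) B) ∈ K1 w

/-- All that is used in the construction of the classes of Kolyvagin. -/
structure US where
  C : ℕ → Type
  [grp : ∀ c, CommGroup (C c)]
  [fin : ∀ c, Fintype (C c)]
  pr : ∀ c c', C c' →* C c
  ψ : ∀ c, Gam → C c
  y : ∀ c, C c → TT
  wt : ∀ w : Plc, C w.p → ℕ
  sm : ∀ c, Aw NN c → Sm (GK NN) (ψ c)
  mul : ∀ c, Aw NN c → ∀ g ∈ GK NN, ∀ h ∈ GK NN, ψ c (g * h) = ψ c g * ψ c h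
  surj : ∀ c, Aw NN c → ∀ a, ∃ g ∈ GK NN, ψ c g = a
  pr_ψ : ∀ c c', Aw NN c' → c ∣ c' → ∀ g ∈ GK NN, pr c c' (ψ c' g) = ψ c g
  dih : ∀ c, Aw NN c → ∀ g ∉ GK NN, ∀ h ∈ GK NN, ψ c (g * h * g⁻¹) = (ψ c h)⁻¹
  sq : ∀ c, Aw NN c → ∀ g ∉ GK NN, ψ c (g * g) = 1
  unr : ∀ (c : ℕ) (w : Plc), Aw NN c → ¬ w.p ∣ c → ∀ σ ∈ GK NN ⊓ Ine w, ψ c σ = 1
  dec : ∀ (c : ℕ) (w : Plc), Aw NN c → w.p = 2 → ∀ g ∈ GK NN ⊓ Dec w, ψ c g = 1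
  gal : ∀ c, Aw NN c → ∀ g ∈ GK NN, ∀ a, g • y c a = y c (ψ c g * a)
  unit : ∀ c, Aw NN c → ∀ a, y c a ∈ Un
  trace : ∀ (c c' : ℕ) (w : Plc), c' = c * w.p → Aw NN c' → ∀ a,
    ∑ a' with pr c c' a' = a, y c' a' = (w.p + 1) • y c a
  kron : ∀ (c c' : ℕ) (w : Plc), c' = c * w.p → Aw NN c' → ∀ a,
    y c' a - (ordCompl[2] (w.p + 1) * w.p) • y c (pr c c' a) ∈ K1 w
  ker : ∀ (c c' : ℕ) (w : Plc), c' = c * w.p → Aw NN c' →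
    (pr c c').ker = Subgroup.zpowers (ψ c' (gn w)) ∧ Nat.card (pr c c').ker = ordProj[2] (w.p + 1)
  wt_lt : ∀ w, In w → ∀ a, wt w a < ordProj[2] (w.p + 1)
  wt_gn : ∀ w, In w → ∀ a, wt w (ψ w.p (gn w) * a) = (wt w a + 1) % ordProj[2] (w.p + 1)

attribute [instance] US.grp US.fin

namespace US

variable (U : US)

/-- The points that are fixed by the group of the ring class field. -/
def Fx (S : Finset Plc) : AddSubgroup TT where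
  carrier := {x | ∀ g ∈ GK NN, U.ψ (cS S) g = 1 → g • x = x}
  zero_mem' := fun _ _ _ => smul_zero _
  add_mem' := fun h k g hg e => by rw [smul_add, h g hg e, k g hg e]
  neg_mem' := fun h g hg e => by rw [smul_neg, h g hg e]

/-- The derivatives. -/
noncomputable def P (S : Finset Plc) : TT :=
  ∑ a : U.C (cS S), (∏ w ∈ S, U.wt w (U.pr w.p (cS S) a)) • U.y (cS S) a

omit [Cp] in
/-- The correction. -/
def cr (l : ℕ) : ℕ := l * (ordProj[2] (l + 1) - 1) * ((l + 1) / 2)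

/-- The corrected derivatives. -/
noncomputable def n (S : Finset Plc) : TT :=
  ∑ T ∈ S.powerset, (∏ w ∈ S \ T, -(cr w.p : ℤ)) • U.P T

/-- Divisibility. -/
def Dv (S : Finset Plc) (r : ℕ) : Prop := ∃ Z ∈ U.Fx S, 2 ^ r • Z = U.n S

/-- The properties of the corrected derivatives. -/
structure Kd : Prop where
  fx : ∀ S, Ad S → U.n S ∈ U.Fx S
  un : ∀ S, Ad S → U.n S ∈ Un
  le : ∀ S S', Ad S' → S ⊆ S' → U.Fx S ≤ U.Fx S'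
  smul : ∀ S, Ad S → ∀ g : Gam, ∀ x ∈ U.Fx S, g • x ∈ U.Fx S
  tors : ∀ S, Ad S → ∀ x ∈ U.Fx S, ∀ j : ℕ, 2 ^ j • x = 0 → x = 0
  div : ∀ (S : Finset Plc) (k : ℕ), Ad S → (∀ w ∈ S, 2 ^ k ∣ w.p + 1) → ∀ g ∈ GK NN,
    ∃ D ∈ U.Fx S, 2 ^ k • D = g • U.n S - U.n S
  tr : ∀ S, Ad S → ∀ w ∈ S, U.n S ∈ K1 w
  step : ∀ (S : Finset Plc) (w : Plc), w ∉ S → Ad (insert w S) → ∃ D ∈ U.Fx (insert w S),
    ordProj[2] (w.p + 1) • D = gn w • U.n (insert w S) - U.n (insert w S) ∧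
      D - (ordCompl[2] (w.p + 1) * (w.p - 1)) • U.n S ∈ K1 w

/-- The index of the basic unit divides the class number. -/
def Idx : Prop := ∀ r, U.Dv ∅ r → 2 ^ r ∣ classNumber Lc

end US

/-- Functions that vanish on the inertia groups outside two and `S`. -/
def Ur {M : Type} [Zero M] (S : Finset Plc) (c : Gam → M) : Prop :=
  ∀ w : Plc, w.p ≠ 2 → (∀ v ∈ S, v.p ≠ w.p) → ∀ σ ∈ GK NN ⊓ Ine w, c σ = 0

/-- Cocycles that are not coboundaries. -/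
def Nc (e j : ℕ) (c : Gam → Mv j) : Prop :=
  Coc (GK NN) (am e j) c ∧ ¬ ∃ x, ∀ g ∈ GK NN, c g = cob (am e j) x g

/-- The Kummer class of a point that is invariant modulo `2 ^ j`. -/
structure Kc (U : US) (S : Finset Plc) (j : ℕ) (Z R : TT) (κ : Gam → Mv j) : Prop where
  coc : κ ∈ Z1 (GK NN) (am 1 j)
  root : 2 ^ j • R = Z
  val : ∀ g ∈ GK NN, ∀ D ∈ U.Fx S, 2 ^ j • D = g • Z - Z → emb j (κ g) = g • R - R - D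
  ur : Ur S κ
  nc : (¬ ∃ Z' ∈ U.Fx S, 2 ^ j • Z' = Z) → Nc 1 j κ
  cb : (∃ Z' ∈ U.Fx S, 2 ^ j • Z' = Z) → ∃ x, ∀ g ∈ GK NN, κ g = cob (am 1 j) x g
  tr : ∀ w ∈ S, 2 ^ j ∣ w.p + 1 → Z ∈ K1 w → κ (fq w) = 0

/-- Cocycles that are unramified outside two. -/
noncomputable def Sg (j : ℕ) : Set (Gam → Mv j) := {c | c ∈ Z1 (GK NN) (am 1 j) ∧ Ur ∅ c}

/-- Unramified cocycles that vanish at `w` and at the places in `S`. -/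
noncomputable def Bs (j : ℕ) (w : Plc) (S : Finset Plc) : AddSubgroup (Gam → Mv j) where
  carrier := {c | c ∈ Z1 (GK NN) (am 0 j) ∧ Ur ∅ c ∧ (∀ g ∈ GK NN ⊓ Dec w, c g = 0) ∧
    ∀ v ∈ S, c (fq v) = 0}
  zero_mem' := ⟨zero_mem _, fun _ _ _ _ _ => rfl, fun _ _ => rfl, fun _ _ => rfl⟩
  add_mem' := fun h k => ⟨add_mem h.1 k.1,
    fun v a b σ hσ => by rw [Pi.add_apply, h.2.1 v a b σ hσ, k.2.1 v a b σ hσ, add_zero],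
    fun g hg => by rw [Pi.add_apply, h.2.2.1 g hg, k.2.2.1 g hg, add_zero],
    fun v hv => by rw [Pi.add_apply, h.2.2.2 v hv, k.2.2.2 v hv, add_zero]⟩
  neg_mem' := fun h => ⟨neg_mem h.1, fun v a b σ hσ => by rw [Pi.neg_apply, h.2.1 v a b σ hσ, neg_zero],
    fun g hg => by rw [Pi.neg_apply, h.2.2.1 g hg, neg_zero],
    fun v hv => by rw [Pi.neg_apply, h.2.2.2 v hv, neg_zero]⟩

/-- The local condition at two that is cut out by the first digit. -/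
structure L5 (w : Plc) (Λ : AddSubgroup (Gam → Mv 1)) : Prop where
  loc : LocC (GK NN) w (am 1 1) Λ
  lt : ∃ c ∈ Z1 (GK NN ⊓ Dec w) (am 1 1), c ∉ Λ
  om : ∀ c ∈ Λ, (fun g => omM 1 (c g)) ∈ Λ
  kum : ∀ (R : TT) (c : Gam → Mv 1), 2 • R ∈ K5 w → Coc (GK NN ⊓ Dec w) (am 1 1) c →
    (∀ g ∈ GK NN ⊓ Dec w, emb 1 (c g) = g • R - R) → rs (GK NN ⊓ Dec w) c ∈ Λ

/-- The sum over the classes on which the genus characters of the primes in `T` are trivial. -/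
noncomputable def mT (Y : ∀ c, Pc NN c → TT) (c : ℕ) [Fintype (Pc NN c)] (T : Finset ℕ) : TT :=
  ∑ B with ∀ l ∈ T, th NN c l B = 1, Y c B

/-- The link between the two systems. -/
def Lk (Y : ∀ c, Pc NN c → TT) (U : US) : Prop := ∀ (S : Finset Plc) [Fintype (Pc NN (cS S))],
  Ad S → (∀ w ∈ S, w.p % 4 = 1) → U.P S = mT Y (cS S) (S.image Plc.p)

omit [Cp]

def BXStmt : Prop := ∀ [Cp], Bx

def BMStmt : Prop := ∀ [Cp], Bm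

def UBStmt : Prop := ∀ [Cp], ∃ U, Ub U

/-- The lemma of Sah. -/
def SAStmt : Prop := ∀ [Cp] (D : Subgroup Gam) (σ : Gam) (x : TT), Bm → D ≤ GK NN → σ ∈ D →
  xc σ ≠ 0 → (∀ g ∈ D, g • x = x) →
  (∀ i, ∃ v : Qbar, v ^ 8 = co x i ∧ ∀ g ∈ GK NN, ∀ h ∈ GK NN, (g * h) v = (h * g) v) →
  ∃ y : TT, 8 • y = x ∧ ∀ g ∈ D, g • y = y

def WBStmt : Prop := ∀ [Cp], Bx → Bm → ∃ Y, Wb Y

def USStmt : Prop := ∀ [Cp] (Y : ∀ c, Pc NN c → TT), Bx → Wb Y → ∃ U, Lk Y U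

def IXStmt : Prop := ∀ [Cp] (Y : ∀ c, Pc NN c → TT) (U : US), Bx → Bm → Wb Y → Lk Y U → U.Kd →
  U.Idx

def KDStmt : Prop := ∀ [Cp] (U : US), Bx → Bm → U.Kd

def KCStmt : Prop := ∀ [Cp] (U : US) (S : Finset Plc) (j : ℕ) (Z : TT), Bx → Bm → U.Kd → Ad S →
  Z ∈ U.Fx S → Z ∈ Un → (∀ g ∈ GK NN, ∃ D ∈ U.Fx S, 2 ^ j • D = g • Z - Z) →
  ∃ R κ, Kc U S j Z R κ

/-- The relation between the singular part and the finite part. -/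
def STStmt : Prop := ∀ [Cp] (U : US) (S : Finset Plc) (w : Plc) (r r' j e : ℕ) (Z R Z' R' : TT)
  (t : Gam → Mv 1) (κ : Gam → Mv j), Bx → Bm → U.Kd → w ∉ S → Ad (insert w S) → Z ∈ U.Fx S →
  2 ^ r • Z = U.n S → Kc U S 1 Z R t → Z' ∈ U.Fx (insert w S) → 2 ^ r' • Z' = U.n (insert w S) →
  Kc U (insert w S) j Z' R' κ → 2 ^ (r' + j) ∣ w.p + 1 → r + e + 1 = r' + j →
  2 ^ e • emb j (κ (gn w)) = -emb 1 (t (fq w))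

/-- The lower bound from Kummer theory. -/
def KUStmt : Prop := ∀ [Cp] (j : ℕ), Bx → Bm → 2 ^ j ∣ classNumber Lc → Finite (Sg j) →
  64 ^ j ≤ Nat.card (Sg j)

/-- The formula of Greenberg and Wiles at the start. -/
def GBStmt : Prop := ∀ [Cp] (j : ℕ) (w : Plc), Bx → Bm → w.p = 2 → Finite (Sg j) ∧
  Finite (Bs j w ∅) ∧ Nat.card (Sg j) = 16 ^ j * Nat.card (Bs j w ∅)

/-- The reciprocity law. -/
def RCStmt : Prop := ∀ [Cp] (F : CFT) (j : ℕ) (w l : Plc) (S : Finset Plc) (κ ξ : Gam → Mv j),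
  Bx → Bm → w.p = 2 → Ad S → l ∈ S → (∀ v ∈ S, 2 ^ j ∣ v.p + 1) → Coc (GK NN) (am 1 j) κ →
  Coc (GK NN) (am 0 j) ξ → Ur S κ → Ur S ξ →
  F.inv j (GK NN) w (cupb (bm j) (am 0 j) κ ξ) = 0 →
  (∀ v ∈ S, v ≠ l → bm j (κ (fq v)) (ξ (gn v)) = bm j (κ (gn v)) (ξ (fq v))) →
  bm j (κ (fq l)) (ξ (gn l)) = bm j (κ (gn l)) (ξ (fq l))

/-- Two classes do not vanish at a suitable square. -/
def NZStmt : Prop := ∀ [Cp] (U : Subgroup Gam) (s h : Gam) (e j e' j' : ℕ) (c : Gam → Mv j)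
  (c' : Gam → Mv j'), Bm → U.Normal → (∀ g ∈ U, cy j g = 1 ∧ cy j' g = 1) → s ∉ GK NN →
  s * s ∈ U → h ∈ GK NN ⊓ U → xc h ≠ 0 → Nc e j c → Nc e' j' c' → c (s * s) = 0 →
  c' (s * s) = 0 → ∃ g ∈ GK NN ⊓ U, xc g = 0 ∧ c (s * g * (s * g)) ≠ 0 ∧ c' (s * g * (s * g)) ≠ 0

def P3Stmt : Prop := ∀ [Cp] (j k : ℕ) (B : Finset ℕ) (c : Gam → Mv j) (c' : Gam → Mv 1), Bx → Bm →
  j ≤ k → Nc 0 j c → Nc 1 1 c' →
  ∃ w : Plc, w.p ∉ B ∧ In w ∧ 2 ^ k ∣ w.p + 1 ∧ c (fq w) ≠ 0 ∧ c' (fq w) ≠ 0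

def P1Stmt : Prop := ∀ [Cp] (m : ℕ) (B : Finset ℕ) (S : Finset Plc) (c c' : Gam → Mv 1), Bx → Bm →
  m ≠ 0 → m.Coprime NN → Ad S → Nc 0 1 c → Nc 1 1 c' → Ur S c → Ur S c' →
  ∃ w : Plc, Gd m B w ∧ c (fq w) ≠ 0 ∧ c' (fq w) ≠ 0

def M1Stmt : Prop := ∀ [Cp] (w p : Plc) (S : Finset Plc) (t : Gam → Mv 1), Bx → Bm → w.p = 2 →
  p ∉ S → Ad (insert p S) → Nc 1 1 t → Ur (insert p S) t → (∀ v ∈ insert p S, t (fq v) = 0) →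
  t (gn p) = 0 → ∃ ξ, Nc 0 1 ξ ∧ Ur (insert p S) ξ ∧ (∀ g ∈ GK NN ⊓ Dec w, ξ g = 0) ∧
    ∀ v ∈ S, ξ (fq v) = 0

def M2Stmt : Prop := ∀ [Cp] (F : CFT) (w : Plc) (S : Finset Plc) (Λ : AddSubgroup (Gam → Mv 1))
  (t : Gam → Mv 1), Bx → Bm → w.p = 2 → Ad S → L5 w Λ → Nc 1 1 t → Ur S t →
  (∀ v ∈ S, t (fq v) = 0) → rs (GK NN ⊓ Dec w) t ∈ Λ → ∃ ξ, Nc 0 1 ξ ∧ Ur S ξ ∧
    (∀ v ∈ S, ξ (fq v) = 0) ∧ ∀ c ∈ Λ, F.inv 1 (GK NN) w (cupb (bm 1) (am 0 1) c ξ) = 0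

def D5Stmt : Prop := ∀ [Cp] (w : Plc), Bx → Bm → w.p = 2 → ∃ Λ, L5 w Λ

/-- The Kolyvagin system is primitive. -/
def KPStmt : Prop := ∀ [Cp] (U : US), Bx → Bm → U.Kd → U.Idx → ∃ S, Ad S ∧ ¬ U.Dv S 1

/-- A prime is removed or exchanged. -/
def V1Stmt : Prop := ∀ [Cp] (U : US) (m : ℕ) (B : Finset ℕ) (p : Plc) (S : Finset Plc), Bx → Bm →
  U.Kd → m ≠ 0 → m.Coprime NN → p ∉ S → Ad (insert p S) → ¬ U.Dv (insert p S) 1 →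
  ¬ U.Dv S 1 ∨ ∃ l, Gd m B l ∧ l ∉ S ∧ Ad (insert l S) ∧ ¬ U.Dv (insert l S) 1

/-- The last prime. -/
def V2Stmt : Prop := ∀ [Cp] (U : US) (m : ℕ) (B : Finset ℕ) (w : Plc) (S : Finset Plc), Bx → Bm →
  U.Kd → m ≠ 0 → m.Coprime NN → w.p = 2 → Ad S → ¬ U.Dv S 1 →
  U.n S ∉ K5 w ∨ ∃ l, Gd m B l ∧ l ∉ S ∧ Ad (insert l S) ∧ U.n (insert l S) ∉ K5 w

def FNStmt : Prop := ∀ [Cp] (U : US) (w : Plc), Bx → Bm → U.Kd → U.Idx → w.p = 2 → ∃ b : ℕ,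
  ∀ (m : ℕ) (B : Finset ℕ), m ≠ 0 → m.Coprime NN → ∃ S : Finset Plc, S.card ≤ b ∧ Ad S ∧
    (∀ l ∈ S, Gd m B l) ∧ U.P S ∉ K5 w

/-- The passage to the logarithms. -/
def WPStmt : Prop := ∀ [Cp] (Y : ∀ c, Pc NN c → TT) (c : ℕ) [Fintype (Pc NN c)]
  [Fintype (Pc NN (2 * c))] (T : Finset ℕ) (w : Plc) (V : Valuation ℂ ℝ≥0)
  (t : Pc NN (2 * c) → ℂ), Bx → Bm → Wb Y → Aw NN c → (∀ l ∈ T, l ∣ c ∧ l.Prime ∧ l % 4 = 1) →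
  (∀ x, Rp NN (2 * c) (t x) x) →
  Real.exp (1 / 6 * ∑ x with ∀ l ∈ T, th NN (2 * c) l x = 1,
      bw (ps (pj NN 2 (2 * c) x)) * H3.T.Lam (t x)) = jC (co (mT Y c T) 0) ^ 2 ∧
    (∀ g ∈ Ine w, w.p = 2 → g • mT Y c T = mT Y c T) ∧ cc • mT Y c T = mT Y c T ∧
    (w.p = 2 → Ov V w → V (jC (co (mT Y c T) 0) ^ 2 - 1) ^ 3 < V 2 ^ 2 → mT Y c T ∈ K5 w)

end Pool.Agent.B10
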