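import Pool.Agent.Lib.MP_696deb_nt.B2.CM1
import Pool.Agent.Lib.MP_696deb_nt.B4.GE0

/-! Half Hecke operators: labels, matrices and sums. -/

set_option autoImplicit false

open NumberTheorySymbols Finset Function
open scoped Classical

namespace Pool.Agent.T10
open Pool.Agent.Lib.MP_696deb_nt Pool.Agent.Lib.MP_696deb_nt.B2 Pool.Agent.Lib.MP_696deb_nt.B2.CM
  Pool.Agent.B4.GE Pool.Agent.Shared.Weier

/-- At every prime: no step, or one of the neighbours. -/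
abbrev Lb : Type := (l : ℕ) → Option (Option (Fin l))

/-- Sets of neighbours. -/
abbrev Rs : Type := (l : ℕ) → Option (Fin l) → Prop

/-- Maps of neighbours. -/
abbrev Mp : Type := (l : ℕ) → Option (Fin l) → Option (Fin l)

/-- The labels with support in `T`. -/
noncomputable def LS (T : Finset ℕ) : Finset Lb :=
  (T.pi fun _ => univ).image fun κ l => if h : l ∈ T then κ l h else none

theorem mem_LS {T : Finset ℕ} {κ : Lb} : κ ∈ LS T ↔ ∀ l ∉ T, κ l = none := by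
  rw [LS, mem_image]
  refine ⟨?_, fun h => ⟨fun l _ => κ l, by simp, funext fun l => ?_⟩⟩
  · rintro ⟨k, -, rfl⟩ l hl
    exact dif_neg hl
  · split_ifs with k
    exacts [rfl, (h l k).symm]

theorem LS_empty : LS ∅ = {fun _ => none} := by
  ext κ
  simp [mem_LS, funext_iff]

theorem update_mem {T : Finset ℕ} {κ : Lb} (h : κ ∈ LS T) {l : ℕ} (hl : l ∈ T)
    (o : Option (Option (Fin l))) : update κ l o ∈ LS T := mem_LS.2 fun p hp => by
  rw [update_of_ne (by rintro rfl; exact hp hl), mem_LS.1 h p hp]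

theorem LS_mono {T U : Finset ℕ} (h : T ⊆ U) : LS T ⊆ LS U :=
  fun _ k => mem_LS.2 fun l hl => mem_LS.1 k l fun e => hl (h e)

theorem sum_LS_insert {A : Type*} [AddCommMonoid A] {T : Finset ℕ} {l : ℕ} (hl : l ∉ T)
    (f : Lb → A) : ∑ κ ∈ LS (insert l T), f κ = ∑ o, ∑ κ ∈ LS T, f (update κ l o) := by
  rw [← sum_product']
  refine sum_nbij' (fun κ => (κ l, update κ l none)) (fun p => update p.2 l p.1) (fun κ h => ?_)
    (fun p h => update_mem (LS_mono (subset_insert _ _) (mem_product.1 h).2)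
      (mem_insert_self _ _) _) (fun κ _ => by simp) (fun p h => ?_) fun κ _ => by simp
  · refine mem_product.2 ⟨mem_univ _, mem_LS.2 fun p hp => ?_⟩
    by_cases e : p = l
    · subst e
      exact update_self ..
    · exact (update_of_ne e ..).trans (mem_LS.1 h p (by simp [e, hp]))
  · simp [← mem_LS.1 (mem_product.1 h).2 l hl]

/-- The degree of a label. -/
noncomputable def dg (T : Finset ℕ) (κ : Lb) : ℕ := ∏ l ∈ T, if κ l = none then 1 else l

/-- The matrix `M` belongs to the label `κ`. -/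
structure Lab (N : ℕ) (T : Finset ℕ) (κ : Lb) (M : MZ) : Prop where
  det : M.det = dg T κ
  low : (N : ℤ) ∣ M 1 0
  fac : ∀ l ∈ T, ∀ i, κ l = some i → ∃ B : MZ, M = B * rP l i

/-- A triangular matrix that belongs to the label. -/
noncomputable def mK (T : Finset ℕ) (κ : Lb) : MZ :=
  if h : ∃ M, Lab 0 T κ M then h.choose else 1

/-- The sum over all labels, with a product weight. -/
noncomputable def ms {A : Type*} [AddCommGroup A] (T : Finset ℕ)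
    (c : (l : ℕ) → Option (Option (Fin l)) → ℤ) (g : Lb → A) : A :=
  ∑ κ ∈ LS T, (∏ l ∈ T, c l (κ l)) • g κ

/-- The weight of the operator `H - a / 2`, where `H` is the sum over the neighbours in `R`. -/
noncomputable def wR (a : ℕ → ℤ) (R : Rs) (l : ℕ) : Option (Option (Fin l)) → ℤ
  | none => -(a l / 2)
  | some i => if R l i then 1 else 0

/-- The action on labels. -/
def om (ω : Mp) (κ : Lb) : Lb := fun l => (κ l).map (ω l)

theorem om_mem {T : Finset ℕ} {κ : Lb} (ω : Mp) (h : κ ∈ LS T) : om ω κ ∈ LS T :=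
  mem_LS.2 fun l hl => by rw [om, mem_LS.1 h l hl]; rfl

/-- The trace relation. -/
def Trc {A : Type*} [AddCommGroup A] (T : Finset ℕ) (a : ℕ → ℤ) (g : Lb → A) : Prop :=
  ∀ l ∈ T, ∀ κ ∈ LS T, κ l = none → ∑ i, g (update κ l (some i)) = a l • g κ

/-- The lattice of the rows of a matrix. -/
noncomputable def rl (M : MZ) (z : ℂ) : Lt := sp2 (M 0 0 * z + M 0 1) (M 1 0 * z + M 1 1)

/-- The action of weight two. -/
noncomputable def sl (M : MZ) (F : ℂ → ℂ) (z : ℂ) : ℂ := F (act M z) * M.det / den M z ^ 2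

/-- Sets of primes that do not divide `N`. -/
def Tp (N : ℕ) (T : Finset ℕ) : Prop := ∀ l ∈ T, l.Prime ∧ ¬ l ∣ N

/-- The sets of primes that are used. -/
structure Tk (N : ℕ) (a : ℕ → ℤ) (T : Finset ℕ) : Prop where
  prime : ∀ l ∈ T, l.Prime
  m8 : ∀ l ∈ T, l % 8 = 1
  inn : ∀ l ∈ T, J(-N | l) = -1
  four : ∀ l ∈ T, 4 ∣ a l

theorem Tk.tp {N : ℕ} {a : ℕ → ℤ} {T : Finset ℕ} (h : Tk N a T) : Tp N T := fun l hl =>
  ⟨h.prime l hl, fun k => by
    have h1 := h.inn l hl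
    rw [jacobiSym.mod_left, Int.emod_eq_zero_of_dvd (dvd_neg.2 (Int.natCast_dvd_natCast.2 k)),
      jacobiSym.zero_left (h.prime l hl).one_lt] at h1
    omega⟩

theorem Tk.even {N : ℕ} {a : ℕ → ℤ} {T : Finset ℕ} (h : Tk N a T) : ∀ l ∈ T, Even (a l) :=
  fun l hl => even_iff_two_dvd.2 ((by decide : (2 : ℤ) ∣ 4).trans (h.four l hl))

/-- Fixed points of the involution of Fricke, of conductor two. -/
structure Fw (N : ℕ) (z : ℂ) : Prop where
  pos : 0 < z.im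
  eq : sc (dl N) (sp2 z 1) = sp2 (N * z) 1
  iv : IsIv (Oc N 2) (sp2 z 1)

/-- Multiplication by the square root of `-N` maps one neighbour to the other. -/
def Om (N l : ℕ) (z : ℂ) (i i' : Option (Fin l)) : Prop :=
  ∀ u ∈ nb l 1 z i, dl N * u ∈ nb l 1 z i'

/-- Systems of representatives. -/
def RepF (N : ℕ) (T : Finset ℕ) (z : ℂ) (R : Rs) : Prop :=
  ∀ l ∈ T, ∀ i i', Om N l z i i' → (R l i' ↔ ¬ R l i)

/-- The conjugate of the point `z` is the image of `z'` under the involution of Fricke. -/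
structure Wp (σ : ℂ ≃+* ℂ) (N : ℕ) (a z z' : ℂ) : Prop where
  pos : 0 < z.im
  pos' : 0 < z'.im
  ne : a ≠ 0
  fst : CjS σ (sp2 z 1) (sc a (sp2 (N * z') 1))
  snd : CjS σ (sp2 (N * z) 1) (sc (a * N) (sp2 z' 1))

/-- The induced correspondence of the neighbours. -/
def Wq (σ : ℂ ≃+* ℂ) (N : ℕ) (a z z' : ℂ) (l : ℕ) (i i' : Option (Fin l)) : Prop :=
  CjS σ (nb l 1 z i) (sc a (nb l 1 z' i' ⊓ sp2 (N * z') 1))

section
variable {W : WeierstrassCurve ℚ} {N : ℕ}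

/-- The value of the parametrization as an algebraic point. -/
noncomputable def ptQ (P : Par W N) (z : ℂ) : Pt W Qbar := invFun (pmap jC) (P.φ z)

/-- The value of the product of the half operators on the parametrization. -/
noncomputable def Dz (P : Par W N) (T : Finset ℕ) (z : ℂ) (R : Rs) : Pt W Qbar :=
  ms T (wR P.a R) fun κ => ptQ P (act (mK T κ) z)

/-- The same for the derivative. -/
noncomputable def Dd (P : Par W N) (T : Finset ℕ) (z : ℂ) (R : Rs) : ℂ :=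
  ms T (wR P.a R) fun κ => deriv (fun y => P.F (act (mK T κ) y)) z

end

/-- Points with algebraic invariant. -/
structure Aj (z : ℂ) : Prop where
  pos : 0 < z.im
  alg : ∃ x, jC x = jf z

/-- Sums over labels. -/
def MLStmt : Prop := ∀ (A : Type) [AddCommGroup A] (T : Finset ℕ) (a : ℕ → ℤ) (g : Lb → A)
  (R : Rs), (∀ π : ∀ l, Equiv.Perm (Option (Fin l)), ms T (wR a R) (fun κ => g (om (π ·) κ)) =
    ms T (wR a fun l i => R l ((π l).symm i)) g) ∧
  (∀ R' : Rs, (∀ l ∈ T, ∀ i, R' l i ↔ R l i) → ms T (wR a R') g = ms T (wR a R) g) ∧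
  ((∀ l ∈ T, Even (a l)) → Trc T a g →
    ms T (wR a fun l i => ¬ R l i) g = (-1 : ℤ) ^ T.card • ms T (wR a R) g ∧
    ∀ (ω : Mp) (s : ℤ), (∀ l ∈ T, Involutive (ω l)) → (∀ κ ∈ LS T, g (om ω κ) = s • g κ) →
      (∀ l ∈ T, ∀ i, R l (ω l i) ↔ ¬ R l i) →
      ms T (wR a R) g = (s * (-1) ^ T.card) • ms T (wR a R) g ∧
      ∀ R' : Rs, s * (-1) ^ T.card = -1 → (∀ l ∈ T, ∀ i, R' l (ω l i) ↔ ¬ R' l i) →
        ms T (wR a R') g = ms T (wR a R) g)

/-- Matrices and lattices of labels. -/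
def LVStmt : Prop := (∀ (M : MZ) (z : ℂ), 0 < M.det → 0 < z.im →
    rl M z = sc (den M z) (sp2 (act M z) 1)) ∧
  (∀ (l : ℕ) (i : Option (Fin l)) (z : ℂ), rl (rP l i) z = nb l 1 z i) ∧
  (∀ (M M' : MZ) (z : ℂ), 0 < z.im → (rl M' z ≤ rl M z ↔ ∃ B : MZ, M' = B * M)) ∧
  ∀ (N : ℕ) (T : Finset ℕ) (κ : Lb), (∀ l ∈ T, l.Prime) → Lab N T κ (mK T κ) ∧
    mK T κ 1 0 = 0 ∧ 0 < (mK T κ).det ∧ dg T κ ∣ ∏ l ∈ T, l ∧
    (∀ (M : MZ) (z u : ℂ), Lab N T κ M → 0 < z.im →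
      (u ∈ rl M z ↔ u ∈ sp2 z 1 ∧ ∀ l ∈ T, ∀ i, κ l = some i → u ∈ nb l 1 z i)) ∧
    (Tp N T → ∀ M : MZ, Lab N T κ M → ∃ γ, G0 N γ ∧ M = γ * mK T κ) ∧
    (N ≠ 0 → Tp N T → ∃ γ δ, G0 N γ ∧ G0 N δ ∧ mK T κ = γ * ut (dg T κ) 0 1 * δ)

/-- One more prime. -/
def LWStmt : Prop := ∀ (T : Finset ℕ) (l : ℕ), (∀ p ∈ T, p.Prime) → l.Prime →
  (l ∈ T → ∀ κ ∈ LS T, κ l = none → ∃ π : Equiv.Perm (Option (Fin l)), ∀ i, ∃ γ, G0 0 γ ∧
    mK T (update κ l (some i)) = γ * (rP l (π i) * mK T κ)) ∧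
  (l ∉ T → (∀ κ ∈ LS T, ∃ γ, G0 0 γ ∧ mK (insert l T) κ = γ * mK T κ) ∧
    ∀ i : Option (Fin l), ∃ π : ∀ p, Equiv.Perm (Option (Fin p)),
      (∀ p ∈ T, ∀ (j : Option (Fin p)) (z : ℂ), 0 < z.im → nb p 1 z j ⊓ nb l 1 z i =
        sc (den (rP l i) z) (nb p 1 (act (rP l i) z) (π p j))) ∧
      ∀ κ ∈ LS T, ∃ γ, G0 0 γ ∧
        mK (insert l T) (update κ l (some i)) = γ * (mK T (om (π ·) κ) * rP l i))

/-- The trace relations for the parametrization. -/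
def TRStmt : Prop := ∀ (W : WeierstrassCurve ℚ) (N : ℕ) (P : Par W N) (T : Finset ℕ) (z : ℂ),
  (Aj z → ∀ M : MZ, 0 < M.det → Aj (act M z) ∧ pmap jC (ptQ P (act M z)) = P.φ (act M z)) ∧
  (Tp N T → (Aj z → Trc T P.a fun κ => ptQ P (act (mK T κ) z)) ∧
    (0 < z.im → Trc T P.a fun κ => deriv (fun y => P.F (act (mK T κ) y)) z))

/-- The involution on the neighbours of a fixed point. -/
def OMStmt : Prop := ∀ (N : ℕ) (z : ℂ), Fw N z → N ≠ 0 →
  (∀ l : ℕ, l.Prime → J(-N | l) = -1 → ∃ ω : Option (Fin l) → Option (Fin l), Involutive ω ∧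
    (∀ i i', Om N l z i i' ↔ i' = ω i) ∧ ∃ R : Option (Fin l) → Prop, ∀ i, R (ω i) ↔ ¬ R i) ∧
  ∃ U : MZ, U.det = N ∧ act U z = z ∧ den U z = dl N ∧ ∀ (T : Finset ℕ) (ω : Mp), Tp N T →
    (∀ l ∈ T, ∀ i, Om N l z i (ω l i) ∧ ω l (ω l i) = i) → ∀ κ ∈ LS T, ∃ γ, G0 N γ ∧
      mK T (om ω κ) * U = γ * (!![0, -1; (N : ℤ), 0] * mK T κ)

/-- The symmetry at a fixed point. -/
def FXStmt : Prop := ∀ (W : WeierstrassCurve ℚ) (N : ℕ) (P : Par W N) (T : Finset ℕ) (z : ℂ)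
  (R : Rs), Fw N z → Tk N P.a T → RepF N T z R → (Dd P T z R ≠ 0 → Even T.card) ∧
  (Aj z → P.t0 ∈ P.L.lattice → Even T.card →
    2 • Dz P T z R = 0 ∧ ∀ R', RepF N T z R' → Dz P T z R' = Dz P T z R)

/-- Conjugation permutes the neighbours. -/
def CPStmt : Prop := ∀ (σ : ℂ ≃+* ℂ) (N : ℕ) (a z z' : ℂ), N ≠ 0 → Wp σ N a z z' →
  ∃ π : ∀ l, Equiv.Perm (Option (Fin l)),
    (∀ l : ℕ, l.Prime → ¬ l ∣ N → ∀ i i', Wq σ N a z z' l i i' ↔ i' = π l i) ∧
    ∀ T, Tp N T → ∀ κ ∈ LS T, σ (jf (act (mK T κ) z)) = jN N (act (mK T (om (π ·) κ)) z') ∧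
      σ (jN N (act (mK T κ) z)) = jf (act (mK T (om (π ·) κ)) z')

end Pool.Agent.T10
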