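import Pool.Agent.Lib.MP_696deb_nt.B10.ZK
import Pool.Agent.Lib.MP_696deb_nt.B7.CMf
import Pool.Agent.Lib.MP_696deb_nt.B7.EP

/-! The core of the converse theorem: statements. -/

set_option autoImplicit false

open NumberTheorySymbols Finset
open scoped Classical

namespace Pool.Agent.T10
open Pool.Agent.Lib.MP_696deb_nt Pool.Agent.Lib.MP_696deb_nt.B2 Pool.Agent.Lib.MP_696deb_nt.B2.CM
  Pool.Agent.B6 Pool.Agent.B8 Pool.Agent.B4.GE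
open Pool.Agent.Lib.MP_696deb_nt.B3.CM (th)
open Pool.Agent.B6.B7 (HRc dt Cnv)
open Pool.Agent.B6.B7.Dn (yB)
open Pool.Agent.G7 (yD)

section
variable [Md] (P : Par Wu NN)

/-- The sum of the half points over a genus. -/
noncomputable def Zb (n : ℕ) [∀ c, Fintype (Pc n c)] (r δ : ℤ) (T : Finset ℕ) (ε : ℕ → ℤˣ) :
    B6.EE :=
  ∑ x : Pc n (∏ l ∈ T, l) with ∀ l ∈ T, th n (∏ l ∈ T, l) l x = ε l, yB P r δ (∏ l ∈ T, l) x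

/-- Sums over a genus that are not divisible by two occur at all depths. -/
def SeedB (n : ℕ) [∀ c, Fintype (Pc n c)] (r δ : ℤ) : Prop := ∃ B : ℕ,
  ∀ m : ℕ, m ≠ 0 → m.Coprime NN → ∃ (T : Finset ℕ) (ε : ℕ → ℤˣ), T.card ≤ B ∧
    (∀ l ∈ T, l.Prime ∧ ¬ l ∣ MM ∧ l ≡ 1 [MOD 8 * n * m] ∧ 4 ∣ P.a l) ∧ B6.Od (Zb P n r δ T ε)

end

/-- The seeds for odd twists. -/
def SBStmt : Prop := ∀ [Md] (P : Par Wu NN) (n : ℕ) [∀ c, Fintype (Pc n c)] (r δ : ℤ),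
  Even (P.a 2) → B6.Nok n → 4 * (NN : ℤ) ∣ r ^ 2 + n → δ = 1 ∨ δ = -1 → Seed P MM n r →
  SeedB P n r δ

/-- The core. -/
def COStmt : Prop := ∀ [Md] (_ : B6.Tate) (D : MD Wu NN) (G : Geo D.par), G5.Nw D →
  (∀ l, B6.al l = D.c l) → G.M ∣ MM → ∀ (n : ℕ) [∀ c, Fintype (Pc n c)] (r f e e' : ℤ),
  B6.Nok n → 4 * (NN : ℤ) ∣ r ^ 2 + n → B7.Fok n f → e * e' = -n → e % 4 = 1 → B6.Cork (f * e) →
  B6.Cork (f * e') → SeedB D.par n r (dt f) →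
  (∀ U, HRc n f r U → ¬ IsOfFinAddOrder (yD D.par.φ (f * e) U)) ∧
    ¬ (B6.Nz (f * e) ∧ B6.Nz (f * e'))

/-- The converse theorem from the seeds. -/
def KCStmt : Prop := ∀ [Md] (_ : B6.Tate) (D : MD Wu NN) (G : Geo D.par) (d : ℤ) (M : ℕ), G5.Nw D →
  (∀ (l : ℕ) [Fact l.Prime], ¬ l ∣ 2 * NN → D.c l = tr l B6.cub) → (∀ l, B6.al l = D.c l) →
  G.M ∣ MM → Squarefree d → d ≠ 1 → M ≠ 0 →
  (∀ (q l : ℕ) [∀ c, Fintype (Pc (q * l) c)] (r : ℤ), q.Prime → q % 8 = 3 → 4 * NN ^ 2 < q →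
    ¬ q ∣ M → l.Prime → l % 8 = 1 → J(l | q) = -1 → J(NN | l) = 1 → ¬ Rt l → B6.Nok (q * l) →
    q * l % 3 = 2 → 4 * (NN : ℤ) ∣ r ^ 2 + (q * l : ℕ) → SeedB D.par (q * l) r (dt d)) → Cnv D.c d

/-- The converse theorem for odd twists. -/
def TPStmt : Prop := ∀ [Ce] (D : MD Wu NN) (k : ℤ), D.k = k → Odd k → Nf8 D →
  ∀ d : ℤ, Squarefree d → Odd d → d ≠ 1 → Cnv D.c d

end Pool.Agent.T10
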