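import Pool.Agent.Lib.MP_696deb_nt.B10.Z0
import Pool.Agent.Lib.MP_696deb_nt.B8.ZB
import Pool.Agent.Lib.MP_696deb_nt.B6.SEb
import Pool.Agent.Lib.MP_696deb_nt.B6.CMb
import Pool.Agent.Lib.MP_696deb_nt.B6.D1
import Pool.Agent.Lib.MP_696deb_nt.B5.HT0

/-! The transfer from the fixed points of the involution of Fricke to Heegner points:
definitions and statements. -/

set_option autoImplicit false

open NumberTheorySymbols Finset Function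
open scoped Classical NNReal

namespace Pool.Agent.T10
open Pool.Agent.Lib.MP_696deb_nt Pool.Agent.Lib.MP_696deb_nt.B2 Pool.Agent.Lib.MP_696deb_nt.B2.CM
  Pool.Agent.B6 Pool.Agent.B8 Pool.Agent.B4.GE Pool.Agent.Shared.Weier
open Pool.Agent.Lib.MP_696deb_nt.B3.CM (th St)
open Pool.Agent.B6.SE (uu Gi)
open Pool.Agent.G5 (Sep)
open Pool.Agent.B4 (OkN HgN nn)
open Pool.Agent.B6.CM (yA)

/-- The function of Weber. -/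
noncomputable def wI (I : Lt) (u : ℂ) : ℂ :=
  if h : IsLat I then h.choose.g₂ * h.choose.g₃ / (h.choose.g₂ ^ 3 - 27 * h.choose.g₃ ^ 2) *
    h.choose.weierstrassP u else 0

/-- Modular functions for the principal congruence subgroup with integral values. -/
structure Cl (V : Valuation ℂ ℝ≥0) (L : ℕ) (F : ℂ → ℂ) : Prop where
  inv : ∀ g : MZ, g.det = 1 → (∀ i j, (L : ℤ) ∣ (g - 1) i j) → ∀ z : ℂ, 0 < z.im →
    F (act g z) = F z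
  le : ∀ g : MZ, g.det = 1 → LE ⊤ fun z => F (act g (L * z))
  int : ∀ z : ℂ, 0 < z.im → V (jf z) ≤ 1 → V (F z) ≤ 1

/-- Points of level `L` with the same reduction. -/
structure Mt (V : Valuation ℂ ℝ≥0) (L : ℕ) (z z' : ℂ) : Prop where
  pos : 0 < z.im
  pos' : 0 < z'.im
  int : V (jf z) ≤ 1
  int' : V (jf z') ≤ 1
  ev : ∀ F, Cl V L F → V (F z - F z') < 1

/-- One horizontal neighbour and half of the others. -/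
def RK (n : ℕ) (b : ℕ → ℤ) (z : ℂ) : Rs := fun l i => nb l 1 z i = idl n 1 l (b l) * sp2 z 1 ∨
  (¬ St n 1 (nb l 1 z i) ∧ th n l l (cl (Oc n l) (nb l 1 z i)) = 1)

/-- Sets of split primes, with roots. -/
def Ts (n : ℕ) (b : ℕ → ℤ) (T : Finset ℕ) : Prop := ∀ l ∈ T, l.Prime ∧ l % 4 = 1 ∧
  ¬ (l : ℤ) ∣ b l ∧ ∃ k : ℤ, b l ^ 2 + n * (1 : ℕ) ^ 2 = 4 * l * k

/-- The sum of the Heegner points over a genus. -/
noncomputable def Zs [Cw] {N : ℕ} (P : Par Wu N) (n : ℕ) [∀ c, Fintype (Pc n c)] (r : ℤ)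
    (T : Finset ℕ) (ε : ℕ → ℤˣ) : B6.EE :=
  ∑ x : Pc n (∏ l ∈ T, l) with ∀ l ∈ T, th n (∏ l ∈ T, l) l x = ε l, yA P n (∏ l ∈ T, l) r x

/-- Sums over a genus that are not divisible by two occur at all depths. -/
def Seed [Cs] (P : Par Wu NN) (M n : ℕ) [∀ c, Fintype (Pc n c)] (r : ℤ) : Prop := ∃ B : ℕ,
  ∀ m : ℕ, m ≠ 0 → m.Coprime NN → ∃ (T : Finset ℕ) (ε : ℕ → ℤˣ), T.card ≤ B ∧
    (∀ l ∈ T, l.Prime ∧ ¬ l ∣ M ∧ l ≡ 1 [MOD 8 * n * m] ∧ 4 ∣ P.a l) ∧ B6.Od (Zs P n r T ε)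

/-- The points at a fixed point and at its horizontal neighbours differ. -/
def Fs {W : WeierstrassCurve ℚ} {N : ℕ} (P : Par W N) (T : Finset ℕ) (l : ℕ) : Prop :=
  ∀ (z : ℂ) (i : Option (Fin l)), Fw N z → Om N l z i i → Fw N (act (rP l i) z) ∧
    ∀ R R', RepF N T z R → RepF N T (act (rP l i) z) R' →
      2 • (Dz P T z R + Dz P T (act (rP l i) z) R') = 0 ∧
        Dz P T z R + Dz P T (act (rP l i) z) R' ≠ 0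

/-- A criterion for smooth points. -/
def SEStmt : Prop := (∀ (N m : ℕ) (y : ℂ), Squarefree N → m.Coprime N → m ≠ 0 → 0 < y.im →
    sc (m * dl N) (sp2 y 1) ≤ sp2 (N * y) 1 → Sep N y) ∧
  ∀ (N : ℕ) (T : Finset ℕ) (z : ℂ) (κ : Lb), Squarefree N → Tp N T → Fw N z →
    Sep N (act (mK T κ) z)

/-- The conjugate of the value of the parametrization. -/
def PHStmt : Prop := ∀ (W : WeierstrassCurve ℚ) (N : ℕ) (P : Par W N) (σ : ℂ ≃+* ℂ) (y y' : ℂ),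
  0 < y.im → 0 < y'.im → σ (jf y) = jN N y' → σ (jN N y) = jf y' → Sep N y' →
  P.t0 ∈ P.L.lattice → pmap (σ : ℂ →+* ℂ) (P.φ y) = -P.φ y'

/-- The conjugate of the sum. -/
def GTStmt : Prop := ∀ [Cw] (N : ℕ) (P : Par Wu N) (T : Finset ℕ) (g : Gam) (σ : ℂ ≃+* ℂ)
  (a z z' : ℂ), P.t0 ∈ P.L.lattice → Ex g σ → Tp N T → Wp σ N a z z' → Aj z →
  (∀ κ ∈ LS T, Sep N (act (mK T κ) z')) → ∃ π : ∀ l, Equiv.Perm (Option (Fin l)),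
    (∀ l ∈ T, ∀ i i', Wq σ N a z z' l i i' ↔ i' = π l i) ∧
    ∀ R : Rs, g • Dz P T z R = -Dz P T z' fun l i => R l ((π l).symm i)

/-- The fixed points are conjugate. -/
def FWStmt : Prop := ∀ (N : ℕ) (z : ℂ), Nk N → Fw N z → Aj z ∧
  (∀ (g : Gam) (σ : ℂ ≃+* ℂ) (z' : ℂ), Fw N z' → g ∈ GK N → Ex g σ →
    rho N 2 g * cl _ (sp2 z 1) = cl _ (sp2 z' 1) → ∃ a, Wp σ N a z z' ∧
      ∀ (l : ℕ) (i j i' j' : Option (Fin l)), l.Prime → ¬ l ∣ N → Wq σ N a z z' l i i' →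
        Wq σ N a z z' l j j' → (Om N l z i j ↔ Om N l z' i' j')) ∧
  ∀ (l : ℕ) (i : Option (Fin l)), l.Prime → ¬ l ∣ 2 * N → Om N l z i i →
    Fw N (act (rP l i) z) ∧ ∃ b k : ℤ, b ^ 2 + N * (2 : ℕ) ^ 2 = 4 * l * k ∧
      cl (Oc N 2) (sp2 (act (rP l i) z) 1) = cl _ (idl N 2 l b) * cl _ (sp2 z 1)

/-- The points are conjugate. -/
def FTStmt : Prop := ∀ [Ce] (P : Par Wu NN) (T : Finset ℕ) (g : Gam) (z z' : ℂ) (R R' : Rs),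
  P.t0 ∈ P.L.lattice → Tk NN P.a T → Even T.card → Fw NN z → Fw NN z' → g ∈ GK NN →
  rho NN 2 g * cl _ (sp2 z 1) = cl _ (sp2 z' 1) → RepF NN T z R → RepF NN T z' R' →
  2 • Dz P T z R = 0 ∧ g • Dz P T z R = Dz P T z' R'

/-- The points differ. -/
def FSStmt : Prop := ∀ [Ce] (P : Par Wu NN) (T : Finset ℕ) (R : Rs) (l : ℕ),
  P.t0 ∈ P.L.lattice → Tk NN P.a T → Even T.card → RepF NN T (x0 NN) R →
  Dz P T (x0 NN) R ≠ 0 → l.Prime → ¬ l ∣ 2 * NN → ¬ Rt l → Fs P T l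

/-- Formal properties of the function of Weber. -/
def WAStmt : Prop := (∀ (L : PeriodPair) (u : ℂ), wI L.lattice u =
    L.g₂ * L.g₃ / (L.g₂ ^ 3 - 27 * L.g₃ ^ 2) * L.weierstrassP u) ∧
  (∀ (I : Lt) (a u : ℂ), a ≠ 0 → wI (sc a I) (a * u) = wI I u) ∧
  (∀ (I : Lt) (u v : ℂ), u - v ∈ I ∨ u + v ∈ I → wI I u = wI I v) ∧
  ∀ (σ : ℂ ≃+* ℂ) (I I' J J' : Lt) (l : ℕ) (u : ℂ), CjS σ I I' → CjS σ J J' → l ≠ 0 →
    sc l I ≤ J → u ∈ J → ∃ u' ∈ J', (u' / l ∈ I' ↔ u / l ∈ I) ∧ σ (wI I (u / l)) = wI I' (u' / l)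

/-- The values at points of finite order are integral. -/
def WIStmt : Prop := ∀ (I : Lt) (m : ℕ) (u : ℂ), IsLat I → m * u ∈ I →
  (∀ (Γ : Type) [LinearOrderedCommGroupWithZero Γ] (V : Valuation ℂ Γ), V 6 = 1 → V m = 1 →
    V (jL I) ≤ 1 → V (wI I u) ≤ 1) ∧
  (m ≠ 0 → (∃ x, jC x = jL I) → ∃ y, jC y = wI I u)

/-- The values at different points of finite order are not congruent. -/
def WSStmt : Prop := ∀ (V : Valuation ℂ ℝ≥0) (I : Lt) (m : ℕ) (u v : ℂ), IsLat I → V 6 = 1 →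
  V m = 1 → V (jL I) = 1 → V (jL I - 1728) = 1 → m * u ∈ I → m * v ∈ I → u ∉ I → v ∉ I →
  V (wI I u - wI I v) < 1 → u - v ∈ I ∨ u + v ∈ I

/-- The expansions of the function of Weber. -/
def WEStmt : Prop := ∀ (l : ℕ) (a b : ℤ), Odd l →
  LE ⊤ fun z => wI (sp2 ((2 * l : ℕ) * z) 1) ((a * ((2 * l : ℕ) * z) + b) / l)

/-- The function of Weber is a modular function. -/
def WFStmt : Prop := ∀ (V : Valuation ℂ ℝ≥0) (l : ℕ) (a b : ℤ), Odd l → V 6 = 1 → V l = 1 →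
  Cl V (2 * l) fun z => wI (sp2 z 1) ((a * z + b) / l)

/-- Closure properties. -/
def CLStmt : Prop := ∀ V : Valuation ℂ ℝ≥0,
  (∀ (L L' : ℕ) (F : ℂ → ℂ) (M : MZ), L' ≠ 0 → 0 < M.det → L * M.det ∣ L' → Cl V L F →
    Cl V L' fun z => F (act M z)) ∧
  (∀ (L L' : ℕ) (z z' : ℂ) (M : MZ), L' ≠ 0 → 0 < M.det → L * M.det ∣ L' → Mt V L' z z' →
    Mt V L (act M z) (act M z')) ∧
  (∀ (N n M : ℕ) (f : ℂ → ℂ), n ≠ 0 → N ∣ n → V M = 1 → Gi N n M f → Cl V n f) ∧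
  ∀ L : ℕ, L ≠ 0 → Cl V L jf

/-- Congruent invariants come from congruent points. -/
def MTStmt : Prop := ∀ (V : Valuation ℂ ℝ≥0) (L : ℕ) (z z' : ℂ), L ≠ 0 → 0 < z.im → 0 < z'.im →
  V (jf z) ≤ 1 → V (jf z - jf z') < 1 → ∃ δ : MZ, δ.det = 1 ∧ Mt V L z (act δ z')

/-- The common zeros of the three functions. -/
def LAStmt : Prop := ∀ (N : ℕ) (z : ℂ), Nk N → 0 < z.im → (∀ t, uu N t z = 0) → Fw N z

/-- The common zeros modulo a place: the invariant. -/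
def LBStmt : Prop := ∀ N : ℕ, Nk N → ∃ M : ℕ, M ≠ 0 ∧ ∀ (w : Plc) (V : Valuation ℂ ℝ≥0) (τ : ℂ),
  Ov V w → ¬ w.p ∣ M → Aj τ → V (jf τ) ≤ 1 → (∀ t, V (uu N t τ) < 1) →
  ∃ z, Fw N z ∧ V (jf τ - jf z) < 1

/-- The common zeros modulo a place: the level structure. -/
def LCStmt : Prop := ∀ N : ℕ, Nk N → ∃ M : ℕ, M ≠ 0 ∧ ∀ (w : Plc) (V : Valuation ℂ ℝ≥0) (z : ℂ),
  Ov V w → ¬ w.p ∣ M → Fw N z → V (jf z) = 1 ∧ V (jf z - 1728) = 1 ∧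
    ∀ δ : MZ, δ.det = 1 → (∀ t, V (uu N t (act δ z)) < 1) → Fw N (act δ z)

/-- Fixed points modulo a place lift. -/
def LFStmt : Prop := ∀ N : ℕ, Nk N → ∃ M : ℕ, M ≠ 0 ∧ ∀ (w : Plc) (V : Valuation ℂ ℝ≥0),
  Ov V w → ¬ w.p ∣ M → (∀ z, Fw N z → V (jf z) = 1 ∧ V (jf z - 1728) = 1) ∧
    ∀ (τ : ℂ) (L : ℕ), Aj τ → V (jf τ) ≤ 1 → (∀ t, V (uu N t τ) < 1) → L ≠ 0 → 2 * N ∣ L →
      ∃ z, Fw N z ∧ Mt V L τ z

/-- Congruent points have congruent images. -/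
def NRStmt : Prop := ∀ [Cw] (N : ℕ) (P : Par Wu N), ∃ M : ℕ, M ≠ 0 ∧
  ∀ (w : Plc) (V : Valuation ℂ ℝ≥0) (y y' : ℂ) (Q Q' : B6.EE), Ov V w → ¬ w.p ∣ M →
    Mt V N y y' → pmap jC Q = P.φ y → pmap jC Q' = P.φ y' → Q - Q' ∈ B6.K1 w

/-- The action of the inertia group on the neighbours reduces to the involution. -/
def TMStmt : Prop := ∀ (N l : ℕ) (w : Plc) (V : Valuation ℂ ℝ≥0) (g : Gam) (σ : ℂ ≃+* ℂ)
  (a z z' : ℂ) (i i' : Option (Fin l)), Ov V w → g ∈ Ine w → Ex g σ → l.Prime → l ≠ 2 →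
  ¬ l ∣ N → ¬ w.p ∣ 6 * l * N → Wp σ N a z z → Wq σ N a z z l i i' → Aj z →
  Mt V (2 * l * N) z z' → Fw N z' → V (jf z') = 1 → V (jf z' - 1728) = 1 → Om N l z' i i'

/-- The transfer at one point. -/
def TBStmt : Prop := ∀ [Ce] (P : Par Wu NN), ∃ M : ℕ, M ≠ 0 ∧ ∀ (w : Plc) (V : Valuation ℂ ℝ≥0)
  (g : Gam) (σ : ℂ ≃+* ℂ) (a z z' : ℂ) (T : Finset ℕ) (R : Rs), Ov V w → ¬ w.p ∣ M → g ∈ Ine w →
  Ex g σ → Tk NN P.a T → w.p ∉ T → Wp σ NN a z z → Aj z → Mt V (2 * NN * ∏ l ∈ T, l) z z' →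
  Fw NN z' → (∀ l ∈ T, ∀ i, ∃ i', Wq σ NN a z z l i i' ∧ (R l i' ↔ ¬ R l i)) →
  RepF NN T z' R ∧ Dz P T z R - Dz P T z' R ∈ B6.K1 w

/-- Reflections act on the neighbours of Heegner points. -/
def KTStmt : Prop := ∀ (N n : ℕ) (r : ℤ) (g : Gam) (σ : ℂ ≃+* ℂ) (z z' : ℂ), OkN N n 1 r →
  Squarefree n → Odd N → HgN N n 1 r z → HgN N n 1 r z' → Ex g σ → g ∉ GK n →
  rho n 1 g * (cl _ (sp2 z 1))⁻¹ = nn N n 1 r * cl _ (sp2 z' 1) → ∃ a, Wp σ N a z z' ∧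
    (∀ (b : ℕ → ℤ) (T : Finset ℕ), Ts n b T → ∀ l ∈ T, J(N | l) = -1 → chi l g = 1 → ∀ i i',
      Wq σ N a z z' l i i' → (RK n b z' l i' ↔ ¬ RK n b z l i)) ∧
    ∀ (l : ℕ) (i i' : Option (Fin l)), l.Prime → l ∣ n → nb l 1 z i = idl n 1 l l * sp2 z 1 →
      nb l 1 z' i' = idl n 1 l l * sp2 z' 1 → Wq σ N a z z' l i i'

/-- The reflection has two fixed classes. -/
def FIStmt : Prop := ∀ (N q l : ℕ) (r : ℤ) (w : Plc), q.Prime → l.Prime → l % 4 = 1 →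
  J(l | q) = -1 → J(N | l) = 1 → CondB (q * l : ℕ) → OkN N (q * l) 1 r → Odd N → w.p = q →
  ∃ g ∈ Ine w, g ∉ GK (q * l) ∧ ∃ (z : ℂ) (i : Option (Fin l)), HgN N (q * l) 1 r z ∧
    nb l 1 z i = idl (q * l) 1 l l * sp2 z 1 ∧ HgN N (q * l) 1 r (act (rP l i) z) ∧
    cl (Oc (q * l) 1) (sp2 z 1) ≠ cl _ (sp2 (act (rP l i) z) 1) ∧
    ∀ x, rho (q * l) 1 g * x⁻¹ = nn N (q * l) 1 r * x ↔
      x = cl _ (sp2 z 1) ∨ x = cl _ (sp2 (act (rP l i) z) 1)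

/-- The sum over all classes. -/
def KZStmt : Prop := ∀ [Cs] (P : Par Wu NN) (n : ℕ) [∀ c, Fintype (Pc n c)] (r : ℤ) (b : ℕ → ℤ)
  (T : Finset ℕ) (z : Pc n 1 → ℂ), OkN NN n 1 r → Squarefree n → Tp NN T → Ts n b T →
  (∀ l ∈ T, 4 ∣ P.a l) → (∀ x, HgN NN n 1 r (z x) ∧ cl _ (sp2 (z x) 1) = x) →
  ∃ (ε : Finset ℕ → ℕ → ℤˣ) (R : B6.EE), R ∈ EN ∧
    ∑ x, Dz P T (z x) (RK n b (z x)) = ∑ U ∈ T.powerset, Zs P n r U (ε U) + 2 • R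

/-- The reflection on the points. -/
def KGStmt : Prop := ∀ [Ce] (P : Par Wu NN) (n : ℕ) (r : ℤ) (b : ℕ → ℤ) (T : Finset ℕ) (g : Gam)
  (σ : ℂ ≃+* ℂ) (z z' : ℂ), P.t0 ∈ P.L.lattice → OkN NN n 1 r → Squarefree n → n % 8 = 3 →
  4 * NN ^ 2 < n → Tk NN P.a T → Even T.card → Ts n b T → HgN NN n 1 r z → HgN NN n 1 r z' →
  Ex g σ → g ∉ GK n → (∀ l ∈ T, chi l g = 1) →
  rho n 1 g * (cl _ (sp2 z 1))⁻¹ = nn NN n 1 r * cl _ (sp2 z' 1) →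
  Aj z ∧ g • Dz P T z (RK n b z) = -Dz P T z' (RK n b z') ∧ ∃ a, Wp σ NN a z z' ∧
    ∀ l ∈ T, ∀ i, ∃ i', Wq σ NN a z z' l i i' ∧ (RK n b z' l i' ↔ ¬ RK n b z l i)

/-- The sum of the points at the two fixed classes does not reduce to the origin. -/
def TCStmt : Prop := ∀ [Ce] (P : Par Wu NN), P.t0 ∈ P.L.lattice → ∃ M : ℕ, M ≠ 0 ∧
  ∀ (n l : ℕ) (r : ℤ) (b : ℕ → ℤ) (T : Finset ℕ) (w : Plc) (g : Gam) (z : ℂ) (i : Option (Fin l)),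
  ¬ w.p ∣ M → OkN NN n 1 r → Squarefree n → n % 8 = 3 → 4 * NN ^ 2 < n → l.Prime → l ∣ n →
  w.p ≠ l → Tk NN P.a T → Even T.card → Ts n b T → w.p ∉ T → Fs P T l → g ∈ Ine w → g ∉ GK n →
  HgN NN n 1 r z → nb l 1 z i = idl n 1 l l * sp2 z 1 → HgN NN n 1 r (act (rP l i) z) →
  (∀ y, y = z ∨ y = act (rP l i) z →
    rho n 1 g * (cl _ (sp2 y 1))⁻¹ = nn NN n 1 r * cl _ (sp2 y 1)) →
  Dz P T z (RK n b z) + Dz P T (act (rP l i) z) (RK n b (act (rP l i) z)) ∉ B6.K1 w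

/-- The transfer. -/
def T1Stmt : Prop := ∀ [Ce] (P : Par Wu NN), P.t0 ∈ P.L.lattice →
  (∀ Q ∈ EN, 2 • Q = 0 → Q = 0) → ∃ M : ℕ, M ≠ 0 ∧
  ∀ (q l : ℕ) [∀ c, Fintype (Pc (q * l) c)] (r : ℤ) (T : Finset ℕ), q.Prime → q % 8 = 3 →
  4 * NN ^ 2 < q → ¬ q ∣ M → l.Prime → l % 8 = 1 → J(l | q) = -1 → J(NN | l) = 1 →
  CondB (q * l : ℕ) → 4 * (NN : ℤ) ∣ r ^ 2 + (q * l : ℕ) → Tk NN P.a T → Even T.card →
  (∀ p ∈ T, p ≡ 1 [MOD 4 * (q * l)]) → Fs P T l →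
  ∃ U ⊆ T, ∃ ε, B6.Od (Zs P (q * l) r U ε)

/-- The seed. -/
def SDStmt : Prop := ∀ [Ce] (D : MD Wu NN) (k : ℤ) (M₀ : ℕ), D.k = k → Odd k → Nf8 D →
  D.par.t0 ∈ D.par.L.lattice → (∀ Q ∈ EN, 2 • Q = 0 → Q = 0) → M₀ ≠ 0 → B6.EsStmt D.c M₀ →
  ∃ M : ℕ, M ≠ 0 ∧ ∀ (q l : ℕ) [∀ c, Fintype (Pc (q * l) c)] (r : ℤ), q.Prime → q % 8 = 3 →
  4 * NN ^ 2 < q → ¬ q ∣ M → l.Prime → l % 8 = 1 → J(l | q) = -1 → J(NN | l) = 1 → ¬ Rt l →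
  CondB (q * l : ℕ) → 4 * (NN : ℤ) ∣ r ^ 2 + (q * l : ℕ) → Seed D.par M₀ (q * l) r

end Pool.Agent.T10
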